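import Pool.Agent.MP_3e91a1_nt.St
import Pool.Agent.MP_346737_nt.VHerb
import Pool.Agent.MP_346737_nt.VKum

set_option linter.all false

section

set_option autoImplicit false

open NumberField IsDedekindDomain Module Filter Topology Finset Polynomial
open scoped Classical

namespace Pool.Agent.MP_3e91a1_nt

open MP_e23604_nt MP_e23604_nt.B MP_e23604_nt.R MP_f3cd89_nt

theorem kil_WBS1 {L : Type} [Field L] [NumberField L] {p : ℕ} {f : Pr L → ZMod p} (hf : Kil f)
    (τ : L ≃ₐ[ℚ] L) (c : ZMod p) : Kil fun v => f v + c * f (gact τ v) := by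
  intro x hx
  have inj : Function.Injective (gact τ : Pr L → Pr L) := fun a b h => by
    rw [← gact_one (G := L ≃ₐ[ℚ] L) a, ← inv_mul_cancel τ, gact_mul, h, ← gact_mul, inv_mul_cancel,
      gact_one]
  have e : Finsupp.mapDomain (gact τ) (dv x) = dv (τ x) := by
    ext w
    have : w = gact τ (gact τ⁻¹ w) := by rw [← gact_mul, mul_inv_cancel, gact_one]
    rw [this, Finsupp.mapDomain_apply inj, dv_apply, dv_apply]
    exact (ord_gact τ _ x).symm
  have h1 := hf (τ x) (by simpa using hx)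
  rw [← e, Finsupp.sum_mapDomain_index_inj inj] at h1
  have h2 := hf x hx
  simp only [Finsupp.sum, mul_add, sum_add_distrib, mul_left_comm _ c, ← mul_sum] at h1 h2 ⊢
  rw [h1, h2, mul_zero, add_zero]

theorem adj_WBS1 (ξ x : Qb) :
    x ∈ IntermediateField.adjoin ℚ {ξ} ↔ Fix (MulAction.stabilizer GQ ξ) x := by
  constructor
  · intro hx g hg
    have : IntermediateField.adjoin ℚ {ξ} ≤
        IntermediateField.fixedField (MulAction.stabilizer GQ ξ) :=
      IntermediateField.adjoin_simple_le_iff.2 fun g => g.2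
    exact this hx ⟨g, hg⟩
  · intro hx
    rw [← InfiniteGalois.fixedField_fixingSubgroup (IntermediateField.adjoin ℚ {ξ})]
    exact fun g => hx g (g.2 ⟨ξ, IntermediateField.mem_adjoin_simple_self ℚ ξ⟩)

theorem pw_WBS1 {δ : GQ} {ζ : Qb} {r : ℕ} (h : δ ζ = ζ ^ r) (i : ℕ) : (δ ^ i) ζ = ζ ^ r ^ i := by
  induction i with
  | zero => simp
  | succ i ih => rw [pow_succ', AlgEquiv.mul_apply, ih, map_pow, h, ← pow_mul, ← pow_succ']

theorem log_WBS1 {p r a : ℕ} [Fact p.Prime] {ζ : Qb} {δ g : GQ} (hζ : IsPrimitiveRoot ζ p)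
    (hr : IsPrimitiveRoot (r : ZMod p) (p - 1)) (h : δ ζ = ζ ^ r) (hg : g ζ = ζ ^ a) :
    ∃ i : ℕ, (r : ZMod p) ^ i = a ∧ (δ ^ i) ζ = g ζ := by
  have hp : p.Prime := Fact.out
  have : NeZero (p - 1) := ⟨by have := hp.two_le; omega⟩
  have ha : (a : ZMod p) ≠ 0 := fun c => by
    rw [(hζ.pow_eq_one_iff_dvd a).2 ((ZMod.natCast_eq_zero_iff a p).1 c), map_eq_one_iff _
      g.injective] at hg
    exact hζ.ne_one hp.one_lt hg
  obtain ⟨i, -, hi⟩ := hr.eq_pow_of_pow_eq_one (ZMod.pow_card_sub_one_eq_one ha)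
  refine ⟨i, hi, ?_⟩
  rw [pw_WBS1 h, hg]
  exact pow_eq_pow_of_modEq ((ZMod.natCast_eq_natCast_iff _ _ p).1 (by rw [Nat.cast_pow, hi]))
    hζ.pow_eq_one

theorem ind_mul_WBS1 {L : IntermediateField ℚ Qb} {g h : GQ} {g' h' : L ≃ₐ[ℚ] L} (a : Ind g g')
    (b : Ind h h') : Ind (g * h) (g' * h') := fun x => by
  rw [AlgEquiv.mul_apply, AlgEquiv.mul_apply, a, b]

theorem ind_pow_WBS1 {L : IntermediateField ℚ Qb} {g : GQ} {g' : L ≃ₐ[ℚ] L} (a : Ind g g')
    (i : ℕ) : Ind (g ^ i) (g' ^ i) := by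
  induction i with
  | zero => exact fun x => rfl
  | succ i ih => rw [pow_succ, pow_succ]; exact ind_mul_WBS1 ih a

theorem ind_eq_WBS1 {L : IntermediateField ℚ Qb} {W : Subgroup GQ} (hL : ∀ x, x ∈ L ↔ Fix W x)
    {g h : GQ} {g' h' : L ≃ₐ[ℚ] L} (a : Ind g g') (b : Ind h h') (c : h⁻¹ * g ∈ W) : g' = h' := by
  ext x
  have := (hL x).1 x.2 _ c
  rw [a, b]
  conv_rhs => rw [← this, ← AlgEquiv.mul_apply, mul_inv_cancel_left]

theorem eig_WBS1 {L : Type} [Field L] [NumberField L] {p : ℕ} {f : Pr L → ZMod p}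
    {δ : L ≃ₐ[ℚ] L} {e : ZMod p} (h : ∀ w, f (gact δ w) = e * f w) (i : ℕ) (w : Pr L) :
    f (gact (δ ^ i) w) = e ^ i * f w := by
  induction i with
  | zero => rw [pow_zero, pow_zero, gact_one, one_mul]
  | succ i ih => rw [pow_succ', gact_mul, h, ih, pow_succ', mul_assoc]

theorem mem_WBS1 {g h : GQ} {s ζ : Qb} (a : g s = h s) (b : g ζ = h ζ) :
    h⁻¹ * g ∈ MulAction.stabilizer GQ s ⊓ MulAction.stabilizer GQ ζ := by
  constructor
  · change h⁻¹ (g s) = s
    rw [a, ← AlgEquiv.mul_apply, inv_mul_cancel, AlgEquiv.one_apply]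
  · change h⁻¹ (g ζ) = ζ
    rw [b, ← AlgEquiv.mul_apply, inv_mul_cancel, AlgEquiv.one_apply]

theorem BS1_pf (hCYB : CYB_st) (hTRF : TRF_st) (hRES : RES_st) (hTWR : TWR_st) : BS1_st := by
  intro p d n r _ χ ζ s hd hdp hn h5 hχ hs hact hT hStk hζ hr
  have hp : p.Prime := Fact.out
  have hpd : ¬ p ∣ d := fun c => absurd (Nat.le_of_dvd (by omega) c) (by omega)
  have hr0 : ¬ p ∣ r := fun c => by
    have h1 := hr.pow_eq_one
    rw [(ZMod.natCast_eq_zero_iff r p).2 c, zero_pow (by omega)] at h1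
    exact zero_ne_one h1
  refine ⟨stabilizer_isOpen_of_isIntegral s, fun γ => ?_, fun δ hδ hδζ L _ δ' hL hδ' => ?_⟩
  · obtain ⟨τ, h1, h2⟩ := omega_surj (nv_na p γ) hp (nv_lt p γ) hζ hr0
    refine ⟨τ, ⟨Ine_le p γ h1, ?_⟩, h2⟩
    have h3 : nv p γ d = 1 := by
      have := v_coprime (nv_na p γ) hp (nv_lt p γ) (n := d) (by exact_mod_cast hpd)
      rwa [Int.cast_natCast] at this
    have := hact τ 1 fun z hz => by rw [pow_one]; exact Inr_root (nv_na p γ) h1 h3 hz
    change τ s = s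
    simpa using this
  have hδs : δ s = s := hδ
  have hN : 0 < d * p := Nat.mul_pos (by omega) hp.pos
  have : NeZero (d * p) := ⟨hN.ne'⟩
  obtain ⟨ξ, hξ⟩ := HasEnoughRootsOfUnity.exists_primitiveRoot Qb (d * p)
  have act : ∀ (g : GQ) (a : ℕ), g ξ = ξ ^ a → g ζ = ζ ^ a ∧ g s = (χ a : ℤ) * s := by
    intro g a h
    have k : ∀ z : Qb, z ^ (d * p) = 1 → g z = z ^ a := fun z hz => by
      obtain ⟨k, -, rfl⟩ := hξ.eq_pow_of_pow_eq_one hz
      rw [map_pow, h, pow_right_comm]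
    exact ⟨k ζ (by rw [pow_mul', hζ.pow_eq_one, one_pow]),
      hact g a fun z hz => k z (by rw [pow_mul, hz, one_pow])⟩
  have ex : ∀ g : GQ, ∃ a, g ξ = ξ ^ a := fun g => by
    obtain ⟨k, -, h⟩ := hξ.eq_pow_of_pow_eq_one (ξ := g ξ)
      (by rw [← map_pow, hξ.pow_eq_one, map_one])
    exact ⟨k, h.symm⟩
  have le : MulAction.stabilizer GQ ξ ≤ MulAction.stabilizer GQ s ⊓ MulAction.stabilizer GQ ζ :=
    fun g hg => by
      obtain ⟨h1, h2⟩ := act g 1 (by rw [pow_one]; exact hg)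
      exact ⟨by simpa using h2, by simpa using h1⟩
  have cm : ∀ g h : GQ, (h * g)⁻¹ * (g * h) ∈ MulAction.stabilizer GQ ξ := fun g h => by
    obtain ⟨a, ha⟩ := ex g
    obtain ⟨b, hb⟩ := ex h
    have : (g * h) ξ = (h * g) ξ := by
      rw [AlgEquiv.mul_apply, AlgEquiv.mul_apply, ha, hb, map_pow, map_pow, ha, hb, pow_right_comm]
    exact (mem_WBS1 this this).1
  have nrm : ∀ W : Subgroup GQ, MulAction.stabilizer GQ ξ ≤ W →
      ∀ g h : GQ, h ∈ W ↔ g * h * g⁻¹ ∈ W := fun W hW g h => by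
    have := hW (cm (g * h) g⁻¹)
    rw [inv_mul_cancel_left] at this
    exact ((W.mul_mem_cancel_right this).symm.trans (by rw [mul_inv_cancel_left]))
  obtain ⟨L₀, _, hL₀, -, hind, -⟩ := hRES (MulAction.stabilizer GQ s ⊓ MulAction.stabilizer GQ ζ)
    ((stabilizer_isOpen_of_isIntegral s).inter (stabilizer_isOpen_of_isIntegral ζ))
  obtain rfl : L₀ = L := IntermediateField.ext fun x => (hL₀ x).trans (hL x).symm
  obtain ⟨M, _, hM, -, -, hlift⟩ := hRES _ (stabilizer_isOpen_of_isIntegral (K := ℚ) ξ)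
  have hMξ : M = IntermediateField.adjoin ℚ {ξ} :=
    IntermediateField.ext fun x => (hM x).trans (adj_WBS1 ξ x).symm
  have : IsCyclotomicExtension {d * p} ℚ M :=
    hMξ ▸ hξ.intermediateField_adjoin_isCyclotomicExtension ℚ
  obtain ⟨_, halg, _, -, hfin, -⟩ := hTWR _ _ L₀ M (stabilizer_isOpen_of_isIntegral (K := ℚ) ξ) le
    (fun g _ h hh => (nrm _ le_rfl g h).1 hh) hL hM
  have hnd : ¬ p ∣ finrank L₀ M := fun c => by
    have h1 : p ∣ d.totient * (p - 1) := by
      rw [← Nat.totient_prime hp, ← Nat.totient_mul ((Nat.Prime.coprime_iff_not_dvd hp).2 hpd).symm,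
        ← IsCyclotomicExtension.Rat.finrank (d * p) M, ← hfin]
      exact c.mul_left _
    rcases (Nat.Prime.dvd_mul hp).1 h1 with h | h
    · have := Nat.le_of_dvd (Nat.totient_pos.2 (by omega)) h
      have := Nat.totient_le d
      omega
    · have := Nat.le_of_dvd (by omega) h
      omega
  obtain ⟨g₁, hg₁⟩ : ∃ g : GQ, g ξ = ξ ^ (d * p - 1) := by
    have e : ξ⁻¹ = ξ ^ (d * p - 1) := (eq_inv_of_mul_eq_one_left (by
      rw [← pow_succ, Nat.sub_add_cancel hN, hξ.pow_eq_one])).symm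
    have c : IsConjRoot ℚ ξ⁻¹ ξ :=
      (cyclotomic_eq_minpoly_rat hξ.inv hN).symm.trans (cyclotomic_eq_minpoly_rat hξ hN)
    exact e ▸ c.exists_algEquiv
  obtain ⟨g₀, h0ζ, h0s⟩ : ∃ g : GQ, g ζ = ζ ∧ g s = -s := by
    obtain ⟨h1, h2⟩ := act g₁ _ hg₁
    obtain ⟨i, -, hi⟩ := log_WBS1 hζ hr hδζ h1
    have h3 : (δ ^ i)⁻¹ s = s := (MulAction.stabilizer GQ s).inv_mem (pow_mem hδ i)
    refine ⟨(δ ^ i)⁻¹ * g₁, (mem_WBS1 hi.symm hi.symm).1, ?_⟩
    rw [Nat.cast_sub hN, Nat.cast_mul, ZMod.natCast_self, zero_mul, Nat.cast_one, zero_sub,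
      hχ] at h2
    rw [AlgEquiv.mul_apply, h2, Int.cast_neg, Int.cast_one, neg_one_mul, map_neg, h3]
  obtain ⟨τ, hτ⟩ := hind g₀ (nrm _ le g₀)
  have hττ : τ * τ = 1 := ind_eq_WBS1 hL (ind_mul_WBS1 hτ hτ) (h := 1) (fun _ => rfl)
    (mem_WBS1 (by rw [AlgEquiv.mul_apply, h0s, map_neg, h0s, neg_neg]; rfl)
      (by rw [AlgEquiv.mul_apply, h0ζ, h0ζ]; rfl))
  have hc : τ * δ' = δ' * τ :=
    ind_eq_WBS1 hL (ind_mul_WBS1 hτ hδ') (ind_mul_WBS1 hδ' hτ) (le (cm g₀ δ))
  intro f hf _ hfe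
  have hξ' : IsPrimitiveRoot (⟨ξ, (hM ξ).2 fun g hg => hg⟩ : M) (d * p) :=
    IsPrimitiveRoot.coe_submonoidClass_iff.1 hξ
  have key : ∀ ε : ℕ, ε = 0 ∨ ε = 1 → ∀ v, f v + (-1) ^ ε * f (gact τ v) = 0 := by
    intro ε hε
    obtain ⟨F, hF, hF0, hFe⟩ := hTRF p L₀ M _ hnd (kil_WBS1 hf τ ((-1) ^ ε))
    refine hF0 (hCYB p d n ε χ M hξ'.toInteger F hd hdp hn h5 hξ'.toInteger_isPrimitiveRoot hε hT
      hStk hF fun σ a ha => ?_)
    obtain ⟨g, hg⟩ := hlift σ
    obtain ⟨g', hg'⟩ := hind g (nrm _ le g)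
    have hga : g ξ = ξ ^ a := by
      have := congrArg (fun x : 𝓞 M => ((x : M) : Qb)) ha
      exact (hg ⟨ξ, (hM ξ).2 fun g hg => hg⟩).symm.trans (this.trans (by simp))
    refine hFe σ g' _ (fun x => Subtype.ext ?_) fun v => ?_
    · rw [hg, halg, halg, hg']
    obtain ⟨h1, h2⟩ := act g a hga
    obtain ⟨i, hi, hi'⟩ := log_WBS1 hζ hr hδζ h1
    have h3 : (δ ^ i) s = s := pow_mem hδ i
    have h4 : ∀ w, f (gact δ' w) + (-1) ^ ε * f (gact τ (gact δ' w)) =
        (r : ZMod p) ^ (n + 1) * (f w + (-1) ^ ε * f (gact τ w)) := fun w => by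
      rw [← gact_mul, hc, gact_mul, hfe, hfe]
      ring
    have h5 := eig_WBS1 (f := fun v => f v + (-1) ^ ε * f (gact τ v)) h4 i
    rw [pow_right_comm, hi] at h5
    have hu : IsUnit (χ a) := IsUnit.map χ ((ZMod.isUnit_iff_coprime a d).2
      (((hξ.pow_iff_coprime hN a).1 (hga ▸ hξ.map_of_injective g.injective)).coprime_mul_right_right))
    rcases Int.isUnit_iff.1 hu with h | h
    · rw [h, Int.cast_one, one_mul] at h2
      rw [ind_eq_WBS1 hL hg' (ind_pow_WBS1 hδ' i) (mem_WBS1 (h2.trans h3.symm) hi'.symm), h,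
        Int.cast_one, one_pow, mul_one]
      exact h5 v
    · rw [h, Int.cast_neg, Int.cast_one, neg_one_mul] at h2
      rw [ind_eq_WBS1 hL hg' (ind_mul_WBS1 (ind_pow_WBS1 hδ' i) hτ) (mem_WBS1
        (by rw [AlgEquiv.mul_apply, h0s, map_neg, h3, h2])
        (by rw [AlgEquiv.mul_apply, h0ζ, hi'])), h, gact_mul]
      refine (h5 _).trans ?_
      rw [← gact_mul, hττ, gact_one]
      rcases hε with rfl | rfl <;> push_cast <;> ring
  intro v
  have h0 := key 0 (Or.inl rfl) v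
  have h1 := key 1 (Or.inr rfl) v
  have h2 : (2 : ZMod p) ≠ 0 := fun c => by
    have := Nat.le_of_dvd (by norm_num) ((ZMod.natCast_eq_zero_iff 2 p).1 (by exact_mod_cast c))
    omega
  refine (mul_eq_zero.1 ?_).resolve_left h2
  linear_combination h0 + h1

end Pool.Agent.MP_3e91a1_nt

end

section

set_option autoImplicit false

open NumberField IsDedekindDomain Module Filter Topology Finset Polynomial
open scoped Classical

namespace Pool.Agent.MP_3e91a1_nt

open MP_e23604_nt MP_e23604_nt.B MP_e23604_nt.R MP_f3cd89_nt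

theorem nm_WLD (m : ℕ) (d : GQ) (y : Qb) (hy : y ≠ 0) (h : (d ^ m) y = y) :
    d (Nm m d y) = Nm m d y := by
  have h1 := prod_range_succ (fun i => (d ^ i) y) m
  rw [prod_range_succ', pow_zero, AlgEquiv.one_apply, h] at h1
  rw [Nm, map_prod, ← mul_right_cancel₀ hy h1]
  exact prod_congr rfl fun i _ => by rw [pow_succ', AlgEquiv.mul_apply]

theorem pw_WLD (d : GQ) (y : Qb) (h : d y = y) (i : ℕ) : (d ^ i) y = y := by
  induction i with
  | zero => rfl
  | succ i ih => rw [pow_succ, AlgEquiv.mul_apply, h, ih]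

theorem LD_pf (hSB : SB_st) (hKER : KER_st) (hL1 : L1_st) : LD_st := by
  intro p l _ _ γ a D D' H' χ t δ m hp hD hD' hle hN hA hL hS hδ hm hδm hgen ha hFa
  obtain ⟨H, hH⟩ := hKER p D χ hA
  have hS0 : Step p H D χ t := ⟨hA, hH, hle hS.mem, hS.one⟩
  obtain ⟨hHD, hNH, -, -, -, hinv, hdec, -, -, -, -, -, -, -, hpw, -⟩ := hSB p H D χ t hS0
  obtain ⟨-, -, -, -, -, -, -, -, -, -, -, -, hdiv, -⟩ := hSB p H' D' χ t hS
  have hH' : ∀ g, g ∈ D' → g ∈ H → g ∈ H' := fun g h1 h2 => (hS.ker g).2 ⟨h1, ((hH g).1 h2).2⟩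
  have hcj : ∀ g ∈ D, ∀ u ∈ D', g⁻¹ * u * g ∈ D' := fun g hg u hu => by
    simpa only [inv_inv] using hN g⁻¹ (inv_mem hg) u hu
  have hfx : ∀ g ∈ D, ∀ y, Fix H' y → Fix H' (g y) := fun g hg y hy h hh => by
    obtain ⟨h1, h2⟩ := (hS.ker h).1 hh
    have h3 : g⁻¹ * h * g ∈ H := by
      simpa only [inv_inv] using hNH g⁻¹ (inv_mem hg) h ((hH h).2 ⟨hle h1, h2⟩)
    have h4 := congrArg g (hy _ (hH' _ (hcj g hg h h1) h3))
    rwa [← AlgEquiv.mul_apply, ← mul_assoc, mul_inv_cancel_left, AlgEquiv.mul_apply] at h4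
  have hcm : ∀ g ∈ D, ∀ u ∈ D', ∀ y, Fix H' y → u (g y) = g (u y) := fun g hg u hu y hy => by
    have h0 := hle hu
    have h1 : (g * u)⁻¹ * (u * g) ∈ D' := by
      rw [mul_inv_rev, mul_assoc, ← mul_assoc g⁻¹]
      exact mul_mem (inv_mem hu) (hcj g hg u hu)
    have h2 : χ ((g * u)⁻¹ * (u * g)) = 0 := by
      rw [hA _ (inv_mem (mul_mem hg h0)) _ (mul_mem h0 hg), (hinv _ (mul_mem hg h0)).1,
        hA g hg u h0, hA u h0 g hg]
      ring
    have h4 := congrArg (g * u) (hy _ ((hS.ker _).2 ⟨h1, h2⟩))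
    rwa [← AlgEquiv.mul_apply, mul_inv_cancel_left, AlgEquiv.mul_apply, AlgEquiv.mul_apply] at h4
  have hnm : ∀ g ∈ D, ∀ y, Fix H' y → Nm p t (g y) = g (Nm p t y) := fun g hg y hy => by
    rw [Nm, Nm, map_prod]
    exact prod_congr rfl fun i _ => hcm g hg _ (pow_mem hS.mem i) y hy
  obtain ⟨x, hx0, hxD, hxN⟩ := (hL1 p l γ H D χ t hp hD hL hS0).2
  have hx' : ¬ IsN p H' t x := by
    rintro ⟨y, hy0, hy, e⟩
    obtain ⟨d, hd⟩ : ∃ d, d = (t ^ (χ δ).val)⁻¹ * δ := ⟨_, rfl⟩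
    have hdH : d ∈ H := hd ▸ hdec δ hδ
    have hi : ∀ i : ℕ, (δ ^ i)⁻¹ * d ^ i ∈ D' := fun i => by
      induction i with
      | zero => simp
      | succ i ih =>
        have h1 := hcj δ hδ _ (mul_mem ih (inv_mem (pow_mem hS.mem (χ δ).val)))
        rw [pow_succ, pow_succ, mul_inv_rev]
        nth_rewrite 2 [hd]
        simpa only [mul_assoc] using h1
    have hdm : d ^ m ∈ H' := hH' _ (by simpa using mul_mem hδm (hi m)) (pow_mem hdH m)
    have h1 := nm_WLD m d y hy0 (hy _ hdm)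
    have h2 : Fix H' (Nm m d y) := fun h hh => by
      rw [Nm, map_prod]
      exact prod_congr rfl fun i _ => hfx _ (hHD (pow_mem hdH i)) y hy h hh
    refine hxN ((hpw x hx0 hxD).2 m hm ⟨Nm m d y, ?_, fun g hg => ?_, ?_⟩)
    · exact prod_ne_zero_iff.2 fun i _ => (_root_.map_ne_zero _).2 hy0
    · obtain ⟨i, h3⟩ := hgen g (hHD hg)
      have h4 : (d ^ i)⁻¹ * g ∈ H' := hH' _
        (by simpa [mul_assoc] using mul_mem (inv_mem (hi i)) h3)
        (mul_mem (inv_mem (pow_mem hdH i)) hg)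
      have h5 := congrArg (d ^ i) (h2 _ h4)
      rwa [← AlgEquiv.mul_apply, mul_inv_cancel_left, pw_WLD d _ h1] at h5
    · have h3 : Nm p t (Nm m d y) = ∏ i ∈ range m, Nm p t ((d ^ i) y) := by
        simp only [Nm, map_prod]
        exact prod_comm
      rw [h3, ← card_range m, ← prod_const, card_range]
      exact prod_congr rfl fun i _ => by
        rw [hnm _ (hHD (pow_mem hdH i)) y hy, e, hxD _ (hHD (pow_mem hdH i))]
  obtain ⟨N, hN1, hN2⟩ := hL
  obtain ⟨i, y, hy0, hy, e⟩ := ((hL1 p l γ H' D' χ t hp hD'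
    ⟨N, hN1, fun g hg h hh => hN2 g (hle hg) h (hle hh)⟩ hS).1 x a hx0 ha
    (fun g hg => hxD g (hle hg)) hFa).resolve_left hx'
  have h1 : IsN p H' t (δ a / x ^ i) := ⟨δ y, (_root_.map_ne_zero _).2 hy0, hfx δ hδ y hy, by
    rw [hnm δ hδ y hy, e, map_div₀, map_pow, hxD δ hδ]⟩
  have h2 := (hdiv _ _ h1 ⟨y, hy0, hy, e⟩).2
  rwa [div_div_div_cancel_right₀ (pow_ne_zero i hx0)] at h2

end Pool.Agent.MP_3e91a1_nt

end

section

set_option autoImplicit false

open NumberField IsDedekindDomain Module Filter Topology Finset Polynomial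
open scoped Classical

namespace Pool.Agent.MP_3e91a1_nt

open MP_e23604_nt MP_e23604_nt.B MP_e23604_nt.R MP_f3cd89_nt

theorem ap_WEIG {V : Type} [AddCommGroup V] (M : AddMonoid.End V) (i : ℕ) (x : V) :
    (M ^ (i + 1)) x = (M ^ i) (M x) := by
  rw [pow_succ]
  rfl

theorem avg_WEIG {V : Type} [AddCommGroup V] {p : ℕ} [hp : Fact p.Prime] (Q : AddSubgroup V)
    (M : AddMonoid.End V) {e : ZMod p} (he : e ≠ 0) (h1 : M ^ (p - 1) = 1)
    (h2 : ∀ x ∈ Q, M x ∈ Q) (h3 : ∀ x, p • x ∈ Q) {D : V} (h4 : M D - e.val • D ∈ Q) (hD : D ∉ Q) :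
    ∃ μ : V →+ ZMod p, (∀ x ∈ Q, μ x = 0) ∧ (∀ x, μ (M x) = e * μ x) ∧ μ D ≠ 0 := by
  obtain ⟨f, hf⟩ := MP_346737_nt.VHerb_dual0 (A := V ⧸ Q) (p := p) (fun q => by
    obtain ⟨y, rfl⟩ := QuotientAddGroup.mk_surjective q
    exact (QuotientAddGroup.eq_zero_iff _).2 (h3 y)) (x := (D : V ⧸ Q))
    fun h => hD ((QuotientAddGroup.eq_zero_iff _).1 h)
  have h5 : ∀ (i : ℕ), ∀ x ∈ Q, f ((M ^ i) x : V) = 0 := fun i x hx => by
    rw [(QuotientAddGroup.eq_zero_iff _).2, map_zero]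
    induction i with
    | zero => exact hx
    | succ i ih => rw [pow_succ']; exact h2 _ ih
  have h6 : ∀ i : ℕ, f ((M ^ i) D : V) = e ^ i * f D := fun i => by
    induction i with
    | zero => simp
    | succ i ih =>
      have := h5 i _ h4
      rw [map_sub, map_nsmul, QuotientAddGroup.mk_sub, QuotientAddGroup.mk_nsmul, map_sub,
        map_nsmul, ih, nsmul_eq_mul, ZMod.natCast_zmod_val, sub_eq_zero] at this
      rw [ap_WEIG, this]
      ring
  refine ⟨AddMonoidHom.mk' (fun x => ∑ i ∈ range (p - 1), (e ^ i)⁻¹ * f ((M ^ i) x : V))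
    fun x y => by simp only [map_add, QuotientAddGroup.mk_add, mul_add, sum_add_distrib],
    fun x hx => by simp only [AddMonoidHom.mk'_apply, h5 _ x hx, mul_zero, sum_const_zero], fun x => ?_, ?_⟩
  · have h7 := (sum_range_succ' (fun i => (e ^ i)⁻¹ * f ((M ^ i) x : V)) (p - 1)).symm.trans
      (sum_range_succ _ _)
    rw [h1, ZMod.pow_card_sub_one_eq_one he, pow_zero, pow_zero, add_left_inj] at h7
    simp only [AddMonoidHom.mk'_apply]
    rw [← h7, mul_sum]
    refine sum_congr rfl fun i _ => ?_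
    rw [ap_WEIG, pow_succ]
    field_simp
  · simp only [AddMonoidHom.mk'_apply, h6, inv_mul_cancel_left₀ (pow_ne_zero _ he), sum_const,
      card_range, nsmul_eq_mul]
    rw [Nat.cast_pred hp.out.pos, ZMod.natCast_self, zero_sub]
    exact mul_ne_zero (neg_ne_zero.2 one_ne_zero) hf

theorem EIG_pf : EIG_st := by
  intro p hp L _ _ δ e T D a₀ hδ he hC hT hT' h0 hD
  let Q : AddSubgroup (Pr L →₀ ℤ) :=
    { carrier := {Z | ∃ a : L, a ≠ 0 ∧ ∀ w, w ∉ T → (Z w : ZMod p) = ord w a}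
      zero_mem' := ⟨1, one_ne_zero, fun w _ => by simp [ord_one]⟩
      add_mem' := by
        rintro Z Z' ⟨a, h1, h2⟩ ⟨a', h3, h4⟩
        exact ⟨a * a', mul_ne_zero h1 h3, fun w hw => by simp [ord_mul w h1 h3, h2 w hw, h4 w hw]⟩
      neg_mem' := by
        rintro Z ⟨a, h1, h2⟩
        exact ⟨a⁻¹, inv_ne_zero h1, fun w hw => by simp [ord_inv, h2 w hw]⟩ }
  let M : AddMonoid.End (Pr L →₀ ℤ) := Finsupp.mapDomain.addMonoidHom (gact δ)
  have hg : ∀ w : Pr L, gact δ (gact δ⁻¹ w) = w := fun w => by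
    rw [← gact_mul, mul_inv_cancel, gact_one]
  have hM : ∀ Z w, M Z w = Z (gact δ⁻¹ w) := fun Z w => by
    conv_lhs => rw [← hg w]
    exact Finsupp.mapDomain_apply (fun a b h => by
      simpa only [← gact_mul, inv_mul_cancel, gact_one] using congrArg (gact δ⁻¹) h) _ _
  have hM' : ∀ (i : ℕ) Z w, (M ^ i) Z w = Z (gact (δ ^ i)⁻¹ w) := fun i => by
    induction i with
    | zero => simp [gact_one]
    | succ i ih =>
      intro Z w
      rw [ap_WEIG, ih, hM, ← gact_mul, pow_succ', mul_inv_rev,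
        ← inv_pow, ← pow_succ, ← pow_succ']
  by_contra hn
  obtain ⟨μ, m1, m2, m3⟩ := avg_WEIG Q M he (p := p)
    (AddMonoidHom.ext fun Z => Finsupp.ext fun w => (hM' _ Z w).trans (by
      rw [hδ, inv_one, gact_one]; rfl))
    (by
      rintro Z ⟨a, h1, h2⟩
      refine ⟨δ a, (map_ne_zero δ).2 h1, fun w hw => ?_⟩
      rw [hM, h2 _ (by rwa [← hT', hg]), ← ord_gact δ, hg]
      rfl)
    (fun Z => ⟨1, one_ne_zero, fun w _ => by simp [ord_one]⟩) (D := D)
    ⟨a₀, h0, fun w hw => by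
      rw [Finsupp.sub_apply, Finsupp.smul_apply, hM, nsmul_eq_mul]
      simp [hD w hw]⟩ hn
  have hs : ∀ Z : Pr L →₀ ℤ, (Z.sum fun w n => (n : ZMod p) * μ (Finsupp.single w 1)) = μ Z :=
    fun Z => by
      conv_rhs => rw [← Z.sum_single, map_finsuppSum]
      exact Finsupp.sum_congr fun w _ => by
        rw [← zsmul_eq_mul, ← map_zsmul, Finsupp.smul_single, smul_eq_mul, mul_one]
  have := hC (fun w => μ (Finsupp.single w 1))
    (fun x hx => (hs _).trans (m1 _ ⟨x, hx, fun _ _ => rfl⟩))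
    (fun w hw => m1 _ ⟨1, one_ne_zero, fun v hv => by
      rw [Finsupp.single_eq_of_ne (by rintro rfl; exact hv (hT _ hw)), ord_one]⟩)
    fun w => by
      rw [← m2]
      exact congrArg μ Finsupp.mapDomain_single.symm
  exact m3 ((hs D).symm.trans (by simp [this]))

end Pool.Agent.MP_3e91a1_nt

end

section

set_option autoImplicit false

open NumberField IsDedekindDomain Module Filter Topology Finset Polynomial
open scoped Classical

namespace Pool.Agent.MP_3e91a1_nt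

open MP_e23604_nt MP_e23604_nt.B MP_e23604_nt.R MP_f3cd89_nt

/-- the restriction to a normal extension of a subfield -/
theorem res_WGOOD (K₀ : IntermediateField ℚ Qb) (M : IntermediateField K₀ Qb) [Normal K₀ M] :
    ∃ ψ : K₀.fixingSubgroup →* (M ≃ₐ[K₀] M), ∀ (g : K₀.fixingSubgroup) (x : M),
      (ψ g x : Qb) = (g : GQ) x :=
  ⟨(AlgEquiv.restrictNormalHom M).comp (IntermediateField.fixingSubgroupEquiv K₀).toMonoidHom,
    fun g x => AlgEquiv.restrictNormal_commutes (IntermediateField.fixingSubgroupEquiv K₀ g) M x⟩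

/-- the centre of an absolute value away from `p` does not lie over a prime above `p` -/
theorem cen_WGOOD {p l : ℕ} (hp : p.Prime) [hl : Fact l.Prime] (γ : GQ) (h : l ≠ p)
    (K₀ : IntermediateField ℚ Qb) :
    ∀ v ∈ primesAbove K₀ p, (cen l γ).under (𝓞 K₀) ≠ v.asIdeal := fun v hv e => by
  have h1 : (p : 𝓞 K₀) ∈ (cen l γ).under (𝓞 K₀) := e ▸ hv
  rw [Ideal.under, Ideal.mem_comap, map_natCast, ← Int.cast_natCast,
    BValB_int _ hl.out (cen_mem l γ), Int.natCast_dvd_natCast] at h1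
  exact h ((Nat.prime_dvd_prime_iff_eq hl.out hp).1 h1)

theorem GOOD_pf (hASC : ASC_st) (hIND : IND_st) (hMEM : MEM_st) (hSB : SB_st) : GOOD_st := by
  intro p hp ζ r e K₀ K _ ⟨h0, M, n, hG, hn, hM, hK⟩
  have f1 : FiniteDimensional K₀ M :=
    Module.finite_of_finrank_pos (hn ▸ pow_pos hp.out.pos n)
  have f2 : FiniteDimensional ℚ M := Module.Finite.trans K₀ M
  have f3 : FiniteDimensional ℚ (M.restrictScalars ℚ) := f2
  have h1 : K ≤ M.restrictScalars ℚ := hK
  have f4 : FiniteDimensional ℚ K :=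
    Module.Finite.of_injective (IntermediateField.inclusion h1).toLinearMap
      (IntermediateField.inclusion h1).injective
  refine ⟨f4, fun h2 hζ hr e0 e1 => ?_⟩
  obtain ⟨ψ, hψ⟩ := res_WGOOD K₀ M
  obtain ⟨N, hN⟩ : ∃ N, N = (M.restrictScalars ℚ).fixingSubgroup := ⟨_, rfl⟩
  have mN : ∀ g, g ∈ N ↔ ∀ x ∈ M, g x = x := fun g => by
    rw [hN, IntermediateField.mem_fixingSubgroup_iff]
    rfl
  have oN : IsOpen (N : Set GQ) := hN ▸ IntermediateField.fixingSubgroup_isOpen _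
  have a1 : N ≤ K.fixingSubgroup := hN ▸ IntermediateField.fixingSubgroup_le h1
  have a2 : K.fixingSubgroup ≤ K₀.fixingSubgroup := IntermediateField.fixingSubgroup_le h0
  have a3 : Nrm N K₀.fixingSubgroup := fun g hg u hu => (mN _).2 fun x hx => by
    have h3 : g⁻¹ x ∈ M := by
      have := hψ ⟨g⁻¹, inv_mem hg⟩ ⟨x, hx⟩
      exact this ▸ (ψ ⟨g⁻¹, inv_mem hg⟩ ⟨x, hx⟩).2
    rw [AlgEquiv.mul_apply, AlgEquiv.mul_apply, (mN u).1 hu _ h3, ← AlgEquiv.mul_apply,
      mul_inv_cancel, AlgEquiv.one_apply]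
  have a4 : ∀ g ∈ K₀.fixingSubgroup, ∃ k : ℕ, g ^ p ^ k ∈ N := fun g hg =>
    ⟨n, (mN _).2 fun x hx => by
      have h3 := hψ (⟨g, hg⟩ ^ p ^ n) ⟨x, hx⟩
      rw [map_pow, ← hn, ← IsGalois.card_aut_eq_finrank, pow_card_eq_one'] at h3
      rw [← hn, ← IsGalois.card_aut_eq_finrank]
      exact h3.symm⟩
  have a5 : ∀ (l : ℕ) [Fact l.Prime] (γ : GQ), l ≠ p → Ine l γ ⊓ K₀.fixingSubgroup ≤ N :=
    fun l _ γ hl g hg => (mN _).2 fun x hx =>
      ((hMEM K₀ _).2 x).1 (hM hx) l γ (cen_WGOOD hp.out γ hl K₀) g hg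
  refine (hIND p).1 N K.fixingSubgroup K₀.fixingSubgroup
    (fun X => Good p ζ r e X → Good p ζ r e K.fixingSubgroup) a1 a2 a3
    ((hIND p).2.2.2.1 N _ oN) a4 id fun H H' χ s b1 b2 hS hP hg => hP ?_
  exact hASC p ζ r e H' H χ s h2 hζ hr e0 e1 (Subgroup.isOpen_mono (a1.trans b1) oN) hS
    (fun l _ γ hl => ((inf_le_inf_left _ b2).trans (a5 l γ hl)).trans (a1.trans b1)) hg

end Pool.Agent.MP_3e91a1_nt

end

section

set_option autoImplicit false

open NumberField IsDedekindDomain Module Filter Topology Finset Polynomial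
open scoped Classical

namespace Pool.Agent.MP_3e91a1_nt

open MP_e23604_nt MP_e23604_nt.B MP_e23604_nt.R MP_f3cd89_nt

lemma dvd_WKUM {A R : Type} [CommRing A] [CommRing R] [Algebra A R] (D : Derivation A R R)
    (T h : R) (j : ℕ)
    (hh : T ^ (j + 1) ∣ h) : T ^ j ∣ D h := by
  obtain ⟨c, rfl⟩ := hh
  rw [D.leibniz, D.leibniz_pow]
  refine dvd_add ?_ ?_
  · rw [smul_eq_mul]
    exact (pow_dvd_pow T (Nat.le_succ j)).mul_right _
  · rw [Nat.add_sub_cancel, smul_eq_mul, smul_eq_mul, nsmul_eq_mul]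
    exact ((dvd_mul_right _ _).mul_left _).mul_left _

lemma pow_WKUM {A R : Type} [CommRing A] [CommRing R] [Algebra A R] (D : Derivation A R R)
    (z : R) (hz : D z = z) (a : ℕ) :
    D (z ^ a) = a * z ^ a := by
  induction a with
  | zero => simp
  | succ a ih =>
    rw [pow_succ, D.leibniz, ih, hz]
    simp only [smul_eq_mul]
    push_cast
    ring

lemma inv_WKUM {A R : Type} [CommRing A] [CommRing R] [Algebra A R] (D : Derivation A R R)
    (z w : R) (hz : D z = z) (a : ℕ)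
    (hw : (1 - z ^ a) * w = 1) : D (z ^ a * w) = a * ((z ^ a * w) * (1 + z ^ a * w)) := by
  have h1 := congrArg D hw
  rw [D.leibniz, map_sub, D.map_one_eq_zero, pow_WKUM D z hz] at h1
  rw [D.leibniz, pow_WKUM D z hz]
  simp only [smul_eq_mul] at h1 ⊢
  linear_combination (z ^ a * w) * h1 - (z ^ a * D w) * hw

lemma log_WKUM {A R : Type} [CommRing A] [CommRing R] [Algebra A R] (D : Derivation A R R)
    (z : R) (hz : D z = z) {ι : Type}
    (s : Finset ι) (a e : ι → ℕ) (w : ι → R) (hw : ∀ i ∈ s, (1 - z ^ a i) * w i = 1) :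
    D (∏ i ∈ s, (1 - z ^ a i) ^ e i) =
      -((∏ i ∈ s, (1 - z ^ a i) ^ e i) * ∑ i ∈ s, (e i : R) * a i * (z ^ a i * w i)) := by
  induction s using Finset.induction_on with
  | empty => simp
  | insert j s hj ih =>
    have h0 := hw j (mem_insert_self _ _)
    have h1 : ∀ m : ℕ, D ((1 - z ^ a j) ^ m) =
        -((1 - z ^ a j) ^ m * ((m : R) * a j * (z ^ a j * w j))) := by
      intro m
      induction m with
      | zero => simp
      | succ m ihm =>
        rw [pow_succ, D.leibniz, ihm, map_sub, D.map_one_eq_zero, pow_WKUM D z hz]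
        simp only [smul_eq_mul]
        push_cast
        linear_combination ((1 - z ^ a j) ^ m * a j * z ^ a j) * h0
    rw [prod_insert hj, sum_insert hj, D.leibniz, ih fun i hi => hw i (mem_insert_of_mem hi), h1]
    simp only [smul_eq_mul]
    ring

lemma chain_WKUM {A R : Type} [CommRing A] [CommRing R] [Algebra A R] (D : Derivation A R R)
    (v : R) (P : ℤ[X]) : D (aeval v P) = aeval v (derivative P) * D v := by
  rw [← aeval_map_algebraMap A v P, D.map_aeval, derivative_map, aeval_map_algebraMap, smul_eq_mul]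

lemma core_WKUM {A R k : Type} [CommRing A] [CommRing R] [Algebra A R] [Field k] (p n : ℕ)
    (hp : (p : R) = 0) (D : Derivation A R R) (z T G : R) (hz : D z = z) (φ : R →+* k) (hT : φ T = 0) {ι : Type}
    (s : Finset ι) (a e : ι → ℕ) (w : ι → R) (hw : ∀ i ∈ s, (1 - z ^ a i) * w i = 1)
    (hn : n + 3 ≤ p) (hG : T ^ (p - 1) ∣ G ^ p - ∏ i ∈ s, (1 - z ^ a i) ^ e i) :
    ∑ i ∈ s, (e i : k) * (a i : k) ^ (n + 1) * aeval (φ z ^ a i / (1 - φ z ^ a i)) (Qp n) = 0 := by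
  set L : ℕ → R := fun m => ∑ i ∈ s, (e i : R) * (a i : R) ^ (m + 1) * aeval (z ^ a i * w i) (Qp m)
    with hL
  have hD : ∀ m, D (L m) = L (m + 1) := by
    intro m
    simp only [hL]
    rw [map_sum]
    refine sum_congr rfl fun i hi => ?_
    have hc : D ((e i : R) * (a i : R) ^ (m + 1)) = 0 := by
      simp
    rw [D.leibniz, hc, chain_WKUM, inv_WKUM D z (w i) hz (a i) (hw i hi)]
    simp only [Qp, map_mul, map_add, map_one, aeval_X, smul_eq_mul]
    ring
  have h1 : T ^ (p - 2) ∣ L 0 := by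
    have h2 := dvd_WKUM D T _ (p - 2) ((show p - 1 = p - 2 + 1 by omega) ▸ hG)
    rw [map_sub, D.leibniz_pow, nsmul_eq_mul, hp, zero_mul, log_WKUM D z hz s a e w hw, zero_sub,
      neg_neg] at h2
    have h3 : (∏ i ∈ s, w i ^ e i) * ∏ i ∈ s, (1 - z ^ a i) ^ e i = 1 := by
      rw [← prod_mul_distrib]
      refine prod_eq_one fun i hi => ?_
      rw [← mul_pow, mul_comm, hw i hi, one_pow]
    have h4 := h2.mul_left (∏ i ∈ s, w i ^ e i)
    rw [← mul_assoc, h3, one_mul] at h4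
    simpa [hL, Qp] using h4
  have h5 : ∀ m, m ≤ n → T ^ (p - 2 - m) ∣ L m := by
    intro m
    induction m with
    | zero => intro _; simpa using h1
    | succ m ih =>
      intro hm
      rw [← hD]
      refine dvd_WKUM D T _ _ ?_
      rw [show p - 2 - (m + 1) + 1 = p - 2 - m by omega]
      exact ih (by omega)
  obtain ⟨c, hc⟩ := dvd_trans (dvd_pow_self T (show p - 2 - n ≠ 0 by omega)) (h5 n le_rfl)
  have h6 : φ (L n) = 0 := by rw [hc, map_mul, hT, zero_mul]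
  rw [← h6]
  simp only [hL]
  rw [map_sum]
  refine sum_congr rfl fun i hi => ?_
  have h7 : φ (z ^ a i * w i) = φ z ^ a i / (1 - φ z ^ a i) := by
    have h8 := congrArg φ (hw i hi)
    simp only [map_mul, map_sub, map_one, map_pow] at h8 ⊢
    rw [div_eq_mul_inv, eq_inv_of_mul_eq_one_right h8]
  have h9 := aeval_algHom_apply φ.toIntAlgHom (z ^ a i * w i) (Qp n)
  simp only [RingHom.toIntAlgHom_apply] at h9
  rw [map_mul, map_mul, map_pow, map_natCast, map_natCast, ← h9, h7]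

theorem KUM_pf : KUM_st := by
  intro p d n hp M _ _ _ ξ y ι s a e k _ _ u hd hn hξ hu hua hy
  have hd0 : 0 < d := Nat.pos_of_ne_zero fun h => hd (h ▸ dvd_zero p)
  have hdp : 0 < d * p := Nat.mul_pos hd0 hp.out.pos
  have : NeZero (d * p) := ⟨hdp.ne'⟩
  have hz : IsIntegral ℤ ξ := hξ.isIntegral hdp
  have hyi : IsIntegral ℤ y := by
    refine IsIntegral.of_pow hp.out.pos ?_
    rw [hy]
    exact IsIntegral.prod _ fun b _ => (isIntegral_one.sub (hz.pow _)).pow _
  have hcl := IsCyclotomicExtension.Rat.isIntegralClosure_adjoin_singleton hξ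
  obtain ⟨⟨w, hw⟩, hwy⟩ := (hcl.isIntegral_iff).1 hyi
  rw [Algebra.adjoin_singleton_eq_range_aeval] at hw
  obtain ⟨g, hg⟩ := hw
  have hgy : aeval ξ g = y := by
    rw [← hwy]
    exact hg
  have h1 : minpoly ℤ ξ ∣ g ^ p - ∏ i ∈ s, (1 - X ^ a i : ℤ[X]) ^ e i := by
    refine minpoly.isIntegrallyClosed_dvd hz ?_
    simp [map_prod, hgy, hy]
  rw [← cyclotomic_eq_minpoly hξ hdp] at h1
  set z : PowerSeries k := PowerSeries.C u * (1 + PowerSeries.X) with hzz
  have hcz : PowerSeries.constantCoeff z = u := by simp [hzz]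
  have h2 := _root_.map_dvd (aeval z : ℤ[X] →ₐ[ℤ] PowerSeries k) h1
  have h3 : aeval z (cyclotomic (d * p) ℤ) = aeval z (cyclotomic d k) ^ (p - 1) := by
    rw [← aeval_map_algebraMap k z, map_cyclotomic, cyclotomic_mul_prime_eq_pow_of_not_dvd k hd,
      map_pow]
  have h4 : (PowerSeries.X : PowerSeries k) ∣ aeval z (cyclotomic d k) := by
    rw [PowerSeries.X_dvd_iff]
    have h5 : PowerSeries.constantCoeff (aeval z (cyclotomic d k)) = eval u (cyclotomic d k) := by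
      rw [aeval_def, hom_eval₂, hcz]
      have : (PowerSeries.constantCoeff (R := k)).comp (algebraMap k (PowerSeries k))
          = RingHom.id k := by
        ext x
        simp
      rw [this]
      rfl
    rw [h5]
    exact hu.isRoot_cyclotomic hd0
  have h6 : (PowerSeries.X : PowerSeries k) ^ (p - 1) ∣
      aeval z g ^ p - ∏ i ∈ s, (1 - z ^ a i) ^ e i := by
    rw [h3] at h2
    have := dvd_trans (pow_dvd_pow_of_dvd h4 (p - 1)) h2
    simpa [map_prod] using this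
  have h7 : ∀ i, ∃ v : PowerSeries k, i ∈ s → (1 - z ^ a i) * v = 1 := by
    intro i
    by_cases hi : i ∈ s
    · have : IsUnit (1 - z ^ a i) := by
        rw [PowerSeries.isUnit_iff_constantCoeff, map_sub, map_one, map_pow, hcz]
        exact (sub_ne_zero.2 (hua i hi).symm).isUnit
      obtain ⟨v, hv⟩ := this.exists_right_inv
      exact ⟨v, fun _ => hv⟩
    · exact ⟨0, fun h => absurd h hi⟩
  choose v hv using h7
  have hpk : (p : PowerSeries k) = 0 := by
    rw [← map_natCast (PowerSeries.C (R := k)), CharP.cast_eq_zero, map_zero]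
  let D : Derivation k (PowerSeries k) (PowerSeries k) :=
    (1 + PowerSeries.X : PowerSeries k) • PowerSeries.derivative k
  have hD : D z = z := by
    show (1 + PowerSeries.X : PowerSeries k) • PowerSeries.derivative k z = z
    rw [hzz, Derivation.leibniz, map_add, PowerSeries.derivative_C, PowerSeries.derivative_X,
      Derivation.map_one_eq_zero]
    simp only [smul_eq_mul]
    ring
  have := core_WKUM p n hpk D z PowerSeries.X (aeval z g) hD PowerSeries.constantCoeff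
    PowerSeries.constantCoeff_X s a e v hv hn h6
  rwa [hcz] at this

end Pool.Agent.MP_3e91a1_nt

end
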