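import Pool.Agent.MP_760060_nt.W.Stm
import Pool.Agent.MP_3e91a1_nt.F5.Defs

set_option linter.all false

section

/-! Definitions and statements of the analytic steps. -/

set_option autoImplicit false

open Finset Polynomial Filter Topology
open scoped Classical

namespace Pool.Agent.MP_3e91a1_nt.F5

open Pool.Agent.MP_760060_nt.W

noncomputable section

/-- the integers in `[-5 v, 5 v]` that are prime to five -/
def XF (v : ℕ) : Finset ℤ := (Icc (-(5 * v : ℤ)) (5 * v)).filter fun x => x % 5 ≠ 0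

/-- the denominators of `la x` -/
def ms (x : ℤ) : Finset ℤ := (Icc 1 |x|).filter fun m => (m - |x|) % 5 = 0 ∧ m ≠ -x

def la (x : ℤ) : ℚ := ∑ m ∈ ms x, (m : ℚ)⁻¹

def Fm (p : ℕ) (x : ℤ) : ZMod p := ∑ m ∈ ms x, (m : ZMod p)⁻¹

def hh (p j : ℕ) : ZMod p := ∑ k ∈ Icc 1 (j * p / 5), (k : ZMod p)⁻¹

/-- the Hankel determinant -/
def HF (Y : Finset ℤ) (d : ℕ) : ℚ :=
  (Matrix.of fun i j : Fin d => dd Y fun x => la x * (x : ℚ) ^ ((i : ℕ) + j)).det

/-- the pairing has no left kernel -/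
def Ok (Y : Finset ℤ) (F : ℤ → ℚ) (d k : ℕ) : Prop := ∀ f : ℚ[X], f.degree < d →
  (∀ j < d + k, dd Y (fun x => F x * f.eval (x : ℚ) * (x : ℚ) ^ j) = 0) → f = 0

/-- the discriminant -/
def Dc (S : Finset ℤ) : ℚ := |∏ x ∈ S, om S x|

/-- the resultant -/
def RR (S T : Finset ℤ) : ℚ := ∏ x ∈ S, ∏ y ∈ T, ((x : ℚ) - y)

/-- a residue class -/
def cls (q m : ℕ) (Y : Finset ℤ) : Finset ℤ := Y.filter fun x => x % (q : ℤ) = m

/-- the number of ordered pairs of distinct congruent points -/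
def pr (q : ℕ) (Y : Finset ℤ) : ℝ := ∑ m ∈ range q, (#(cls q m Y) : ℝ) * (#(cls q m Y) - 1)

/-- the number of classes of odd size -/
def od (q : ℕ) (Y : Finset ℤ) : ℕ := #((range q).filter fun m => Odd #(cls q m Y))

/-- polar points -/
def Po (p : ℕ) (x : ℤ) : Prop := ∃ m ∈ ms x, (p : ℤ) ∣ m

def af (ρ k i : ℕ) : ℝ := min 0 (2 * i - k + if ρ ≤ i then 2 else 0)

/-- `n` points from `s` on, with step five -/
def S5 (s : ℤ) (n : ℕ) : Finset ℤ := (Ico s (s + 5 * n)).filter fun x => (x - s) % 5 = 0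

def mx (v p : ℕ) : ℝ := ∑ j ∈ Icc 1 4, max 0 (5 * v - (j : ℕ) * p : ℝ)

/-- the cost of a prime -/
def cst (v p : ℕ) : ℝ :=
  if p ≤ v then 6 * v else if p ≤ 5 * v then 4 / 5 * mx v p - 2 * v + p / 4 + 17
  else -(3 / 10) * (10 * v - p) + 22

/-- the bounds for the exponents -/
structure Bds (P : ℕ → Prop) (v : ℕ) (e : ℕ → ℝ) : Prop where
  all : ∀ p : ℕ, p.Prime → e p ≤ 6 * v * Nat.log p (10 * v)
  five : e 5 ≤ 4 * v * (1 + Nat.log 5 (10 * v)) + 9 * v - 24 / 5 * (v : ℝ) ^ 2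
  mid : ∀ p : ℕ, p.Prime → ¬ P p → 5 < p → 10 * v < p ^ 2 → p ≤ 10 * v → e p ≤ cst v p
  tot : -(20 * v * Real.log (10 * v)) ≤ ∑ p ∈ (Ioc 0 (10 * v)).filter Nat.Prime, e p * Real.log p

end

/-! ### the determinant does not vanish -/

def SH_st : Prop := ∀ (A : Type) [AddCommGroup A] (φ : ℤ → A), (∀ m, φ (-m) = -φ m) →
  ∀ x : ℤ, x % 5 ≠ 0 → ∑ m ∈ ms (x + 5), φ m = ∑ m ∈ ms x, φ m + φ (x + 5)

def N3_st : Prop := ∀ Q R : ℚ[X],
  (X + 5) * (Q.comp (X + 5) * R - Q * R.comp (X + 5)) = R * R.comp (X + 5) → R = 0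

def N4_st : Prop := ∀ v : ℕ, 1 ≤ v → #(XF v) = 8 * v ∧ Ok (XF v) la (4 * v - 2) 4

def N5_st : Prop := ∀ (Y : Finset ℤ) (F : ℤ → ℚ) (d k : ℕ), d < #Y → Ok Y F d (k + 1) →
  ∃ y ∈ Y, Ok (Y.erase y) F d k

def NZF_st : Prop := ∀ v : ℕ, 2 ≤ v → ∃ Y ⊆ XF v, #Y = 2 * (4 * v - 2) ∧ HF Y (4 * v - 2) ≠ 0

/-! ### tools -/

def LAM_st : Prop := (∀ x : ℤ, |la x| ≤ |(x : ℚ)|) ∧ ∀ (p : ℕ) [Fact p.Prime] (x : ℤ),
  (∀ R : ℕ, |x| ≤ R → Vb p (Nat.log p R) (la x)) ∧ (|x| < (p : ℤ) ^ 2 → Vb p 1 (la x)) ∧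
  (¬ Po p x → Vb p (-1) (la x - ((Fm p x).val : ℤ)))

def DDC_st : Prop := (∀ (S Y : Finset ℤ) (x : ℤ), S ⊆ Y → x ∈ S →
    om Y x = om S x * ∏ w ∈ Y \ S, ((x : ℚ) - w)) ∧
  (∀ (q : ℕ) (Y : Finset ℤ) (F : ℤ → ℚ), 0 < q → dd Y F = ∑ m ∈ range q,
    dd (cls q m Y) fun x => F x / ∏ w ∈ Y \ cls q m Y, ((x : ℚ) - w)) ∧
  (∀ (S Y : Finset ℤ) (F : ℤ → ℚ), S ⊆ Y →
    dd S F = dd Y fun x => F x * ∏ w ∈ Y \ S, ((x : ℚ) - w)) ∧
  ∀ (q : ℕ) (Y : Finset ℤ) (f : ℤ → ℝ), 0 < q →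
    ∑ m ∈ range q, ∑ x ∈ cls q m Y, f x = ∑ x ∈ Y, f x

/-! ### the formulas of Heine and Cauchy -/

def VAN_st : Prop := ∀ (d : ℕ) (x : Fin d → ℤ), Function.Injective x →
  Dc (univ.image x) = (Matrix.vandermonde fun i => (x i : ℚ)).det ^ 2

def CB_st : Prop := ∀ (Y : Finset ℤ) (c : ℤ → ℚ) (d : ℕ),
  (Matrix.of fun i j : Fin d => ∑ x ∈ Y, c x * (x : ℚ) ^ ((i : ℕ) + j)).det =
    ∑ S ∈ powersetCard d Y, (∏ x ∈ S, c x) * Dc S

def HE_st : Prop := ∀ (Y : Finset ℤ) (d : ℕ), ∃ ε : Finset ℤ → ℤ, (∀ S, ε S = 1 ∨ ε S = -1) ∧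
  HF Y d = ∑ S ∈ powersetCard d Y, ε S * (∏ x ∈ S, la x) * (RR S (Y \ S))⁻¹

def CA0_st : Prop := ∀ (d : ℕ) (x y : Fin d → ℚ), (∀ i j, x i ≠ y j) →
  ((Matrix.of fun i j => (x i - y j)⁻¹).det * ∏ i, ∏ j, (x i - y j)) ^ 2 =
    (Matrix.vandermonde x).det ^ 2 * (Matrix.vandermonde y).det ^ 2

def CAU_st : Prop := ∀ (d : ℕ) (S T : Finset ℤ), Disjoint S T → #S = d → #T = d →
  RR S T ≠ 0 ∧ ∃ x y : Fin d → ℤ, (∀ i, x i ∈ S) ∧ (∀ j, y j ∈ T) ∧
    Dc (S ∪ T) = (Matrix.of fun i j => ((x i : ℚ) - y j)⁻¹).det ^ 2 * RR S T ^ 4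

def REA_st : Prop := ∀ (v d : ℕ) (Y : Finset ℤ), 1 ≤ v → Y ⊆ XF v → #Y = 2 * d → d ≤ 4 * v →
  HF Y d ≠ 0 → Real.log |(HF Y d : ℝ)| + Real.log |(Dc Y : ℝ)| / 4 ≤ 20 * v * Real.log (10 * v)

def ALL_st : Prop := ∀ (v d p : ℕ) [Fact p.Prime] (Y : Finset ℤ), Y ⊆ XF v → #Y = 2 * d →
  d ≤ 4 * v → Vb p ((padicValRat p (Dc Y) : ℝ) / 4 + 6 * v * Nat.log p (10 * v)) (HF Y d)

def BIG_st : Prop := ∀ (v d p : ℕ) [Fact p.Prime] (Y : Finset ℤ), Y ⊆ XF v → 10 * v < p →
  Vb p 0 (HF Y d)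

/-! ### the prime five -/

def ANA_st : Prop := ∀ [Fact (Nat.Prime 5)] (s : ℤ) (n : ℕ) (T : Multiset ℤ) (W : Finset ℤ),
  s % 5 ≠ 0 → (∀ w ∈ W, (w - s) % 5 ≠ 0) → Vb 5 (1 + Nat.log 5 n) (dd (S5 s n) fun x =>
    la x * (T.map fun t : ℤ => (x : ℚ) - t).prod / ∏ w ∈ W, ((x : ℚ) - w))

def FIV_st : Prop := ∀ (v d : ℕ) (Y : Finset ℤ), Y ⊆ XF v →
  Vb 5 (d * (1 + Nat.log 5 (10 * v))) (HF Y d)

def DCV_st : Prop := ∀ (p : ℕ) [Fact p.Prime] (Y : Finset ℤ), Dc Y ≠ 0 ∧ Vb p 0 (Dc Y) ∧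
  Vb p (-pr p Y) (Dc Y) ∧ Vb p (-(pr p Y + pr (p * p) Y)) (Dc Y)

def PR5_st : Prop := ∀ (v : ℕ) (Y : Finset ℤ), Y ⊆ XF v →
  (#Y : ℝ) ^ 2 / 4 - #Y ≤ pr 5 Y ∧ (#Y : ℝ) ^ 2 / 20 - #Y ≤ pr 25 Y

/-! ### the primes without the condition -/

def H5_st : Prop := ∀ (p : ℕ) [Fact p.Prime], 5 < p → ¬ NW p →
  hh p 2 = hh p 1 ∧ hh p 3 = hh p 1 ∧ hh p 4 = hh p 1

def CON_st : Prop := ∀ (p : ℕ) [Fact p.Prime] (x x' : ℤ), 5 < p → ¬ NW p → x % 5 ≠ 0 →
  x' % 5 ≠ 0 → (p : ℤ) ∣ x - x' → Fm p x = Fm p x'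

def INT_st : Prop := ∀ (p : ℕ) [Fact p.Prime] (S W : Finset ℤ) (T : Multiset ℤ),
  (∀ x ∈ S, ∀ w ∈ W, ¬ (p : ℤ) ∣ x - w) →
  Vb p 0 (dd S fun x => (T.map fun t : ℤ => (x : ℚ) - t).prod / ∏ w ∈ W, ((x : ℚ) - w))

def BLK_st : Prop := ∀ (p d : ℕ) [Fact p.Prime] (S N W : Finset ℤ) (F : ℤ → ℚ) (c : ℤ), N ⊆ S →
  (∀ x ∈ S, ∀ x' ∈ S, (p : ℤ) ∣ x - x') →
  (∀ x ∈ S, ∀ x' ∈ S, x ≠ x' → ¬ (p : ℤ) ^ 2 ∣ x - x') → (∀ x ∈ S, ∀ w ∈ W, ¬ (p : ℤ) ∣ x - w) →
  (∀ x ∈ S, Vb p 1 (F x)) → (∀ x ∈ N, Vb p (-1) (F x - c)) →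
  Rep p (fun s t : Fin d => dd S fun x =>
    F x * (x : ℚ) ^ ((s : ℕ) + t) / ∏ w ∈ W, ((x : ℚ) - w)) #S (af (#S - #N) #S)

def PHI_st : Prop := ∀ ρ k : ℕ, ∑ i ∈ range k, max 0 (0 - af ρ k i) ≤
  (k : ℝ) * (k - 1) / 4 + 2 * ρ - k / 4 + if Odd k then 1 / 4 else 0

def LC5_st : Prop := ∀ (v d p : ℕ) [Fact p.Prime] (Y : Finset ℤ), Y ⊆ XF v → 5 < p →
  10 * v < p ^ 2 → ¬ NW p →
  Vb p (pr p Y / 4 + 2 * #(Y.filter (Po p)) - #Y / 4 + od p Y / 4) (HF Y d)

def POL_st : Prop := ∀ v p : ℕ, (#((XF v).filter (Po p)) : ℝ) ≤ 2 / 5 * mx v p + 8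

def ODC_st : Prop := ∀ (v p : ℕ) (Y : Finset ℤ), Y ⊆ XF v → #(XF v) ≤ #Y + 4 → 5 * v < p →
  p ≤ 10 * v → (od p Y : ℝ) ≤ #Y - 6 / 5 * (10 * v - p) + 22

def EX_st : Prop := ∀ v : ℕ, 2 ≤ v → ∃ e : ℕ → ℝ, Bds NW v e

/-! ### sums over primes -/

def TH_st : Prop := ∀ (n : ℕ) (c : ℕ → ℝ) (ε : ℝ), 0 < ε → ∀ᶠ v : ℕ in atTop, ∀ g : ℕ → ℝ,
  (∀ k < n, ∀ p : ℕ, k * v < 10 * p → 10 * p ≤ (k + 1) * v → g p ≤ c k) →
  ∑ p ∈ (Ioc 0 (n * v / 10)).filter Nat.Prime, g p * Real.log p ≤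
    (∑ k ∈ range n, c k / 10 + ε) * v

def STP_st : Prop := ∀ᶠ v : ℕ in atTop,
  ∑ p ∈ (Ioc 0 (10 * v)).filter Nat.Prime, cst v p * Real.log p ≤ 67 / 10 * (v : ℝ) ^ 2

def SML_st : Prop := ∀ ε : ℝ, 0 < ε → ∀ᶠ v : ℕ in atTop,
  (∑ p ∈ (Ioc 0 (10 * v)).filter (fun p => p.Prime ∧ p ^ 2 ≤ 10 * v),
    6 * v * (Nat.log p (10 * v) : ℝ) * Real.log p ≤ ε * (v : ℝ) ^ 2) ∧
  20 * v * Real.log (10 * v) ≤ ε * (v : ℝ) ^ 2 ∧
  (4 * v * (1 + Nat.log 5 (10 * v)) + 9 * v) * Real.log 5 ≤ ε * (v : ℝ) ^ 2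

def SUF_st : Prop := ∀ P : ℕ → Prop, ∀ᶠ v : ℕ in atTop, ∀ e : ℕ → ℝ, Bds P v e →
  (v : ℝ) / 9 ≤ ∑ p ∈ (Ioc 0 (10 * v)).filter (fun p => p.Prime ∧ P p), Real.log p

def DEN_st : Prop := ∀ B : ℕ, ∀ᶠ x : ℕ in atTop, (x : ℝ) / (100 * Real.log x) ≤
  (Set.ncard {p : ℕ | p ≤ x ∧ p.Prime ∧ B < p ∧ NW p} : ℝ)

end Pool.Agent.MP_3e91a1_nt.F5

end

section

set_option autoImplicit false

open Finset Polynomial Filter Topology
open scoped Classical

namespace Pool.Agent.MP_3e91a1_nt.F5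

open Pool.Agent.MP_760060_nt.W

theorem LAM_pf : LAM_st := by
  have hm : ∀ x m : ℤ, m ∈ ms x → 1 ≤ m ∧ m ≤ |x| := fun x m h => mem_Icc.1 (mem_filter.1 h).1
  have ha : ∀ x m : ℤ, m ∈ ms x → |m| ≤ |x| := fun x m h =>
    (abs_of_pos (hm x m h).1).trans_le (hm x m h).2
  refine ⟨fun x => ?_, fun p _ x => ⟨fun R h => Vb.sum fun m e => vb_inv_log ((ha x m e).trans h),
    fun h => Vb.sum fun m e => ?_, fun h => ?_⟩⟩
  · refine (abs_sum_le_sum_abs _ _).trans ((sum_le_card_nsmul _ _ 1 fun m e => ?_).trans ?_)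
    · have : (1 : ℚ) ≤ m := by exact_mod_cast (hm x m e).1
      rw [abs_of_nonneg (by positivity)]
      exact inv_le_one_of_one_le₀ this
    · have h1 : #(ms x) ≤ #(Icc 1 |x|) := card_filter_le _ _
      have h2 : (#(ms x) : ℤ) ≤ |x| := by
        have := abs_nonneg x
        rw [Int.card_Icc] at h1
        omega
      rw [nsmul_one]
      exact_mod_cast h2
  · have := vb_inv_lt (p := p) (k := 1) ((ha x m e).trans_lt h)
    rwa [Nat.cast_one] at this
  · have e : la x - ((Fm p x).val : ℤ) =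
        ∑ m ∈ ms x, (m : ℚ)⁻¹ * ((1 - ((m : ZMod p)⁻¹).val * m : ℤ) : ℚ) +
          ((∑ m ∈ ms x, (((m : ZMod p)⁻¹).val : ℤ) - (Fm p x).val : ℤ) : ℚ) := by
      rw [Int.cast_sub, Int.cast_sum, ← add_sub_assoc, ← sum_add_distrib, la]
      refine congrArg (· - _) (sum_congr rfl fun m e => ?_)
      have : (m : ℚ) ≠ 0 := by exact_mod_cast (one_pos.trans_le (hm x m e).1).ne'
      push_cast
      field_simp
      ring
    rw [e]
    refine (Vb.sum fun m e => ?_).add (vb_dvd ((ZMod.intCast_zmod_eq_zero_iff_dvd _ _).1 ?_))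
    · have h1 : ¬ (p : ℤ) ∣ m := fun d => h ⟨m, e, d⟩
      refine (vb_inv_unit h1).mul0 (vb_dvd ((ZMod.intCast_zmod_eq_zero_iff_dvd _ _).1 ?_))
      push_cast
      rw [ZMod.natCast_zmod_val, inv_mul_cancel₀
        fun d => h1 ((ZMod.intCast_zmod_eq_zero_iff_dvd _ _).1 d), sub_self]
    · push_cast
      simp only [ZMod.natCast_zmod_val]
      rw [Fm, sub_self]

end Pool.Agent.MP_3e91a1_nt.F5

end

section

set_option autoImplicit false

open Finset Polynomial Filter Topology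
open scoped Classical

namespace Pool.Agent.MP_3e91a1_nt.F5

open Pool.Agent.MP_760060_nt.W

theorem VAN_pf : VAN_st := by
  intro d x hx
  have e : ∀ i, om (univ.image x) (x i) = ∏ j ∈ ({i}ᶜ : Finset (Fin d)), ((x i : ℚ) - x j) :=
    fun i => by
      rw [om, ← image_erase hx, prod_image hx.injOn, compl_singleton]
  rw [Dc, prod_image hx.injOn, Matrix.det_vandermonde]
  simp only [e]
  rw [← prod_prod_Ioi_mul_eq_prod_prod_off_diag fun j i => (x i : ℚ) - x j, abs_prod, ← prod_pow]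
  refine prod_congr rfl fun i _ => ?_
  rw [abs_prod, ← prod_pow]
  refine prod_congr rfl fun j _ => ?_
  rw [abs_mul, abs_sub_comm, abs_mul_abs_self, sq]

end Pool.Agent.MP_3e91a1_nt.F5

end

section

set_option autoImplicit false

open Finset Polynomial Filter Topology
open scoped Classical

namespace Pool.Agent.MP_3e91a1_nt.F5

open Pool.Agent.MP_760060_nt.W

theorem HE_pf (hCB : CB_st) (hDDC : DDC_st) : HE_st := by
  intro Y d
  refine ⟨fun S => if 0 < ∏ x ∈ S, om S x then 1 else -1, fun S => ?_, ?_⟩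
  · by_cases h : 0 < ∏ x ∈ S, om S x
    · exact .inl (if_pos h)
    · exact .inr (if_neg h)
  have e : HF Y d = (Matrix.of fun i j : Fin d =>
      ∑ x ∈ Y, la x / om Y x * (x : ℚ) ^ ((i : ℕ) + j)).det := by
    rw [HF]
    congr 1
    ext i j
    simp only [Matrix.of_apply, dd]
    exact sum_congr rfl fun x _ => by ring
  rw [e, hCB]
  refine sum_congr rfl fun S hS => ?_
  have h1 : ∏ x ∈ S, om Y x = (∏ x ∈ S, om S x) * RR S (Y \ S) := by
    rw [RR, ← prod_mul_distrib]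
    exact prod_congr rfl fun x hx => hDDC.1 S Y x (mem_powersetCard.1 hS).1 hx
  have h2 : ∏ x ∈ S, om S x ≠ 0 := prod_ne_zero_iff.2 fun x _ => om_ne S x
  rw [prod_div_distrib, h1, Dc, div_eq_mul_inv, mul_inv]
  beta_reduce
  generalize (RR S (Y \ S))⁻¹ = u
  generalize ∏ x ∈ S, om S x = a at h2
  by_cases h : 0 < a
  · rw [if_pos h, abs_of_pos h]
    field_simp
    push_cast
    ring
  · rw [if_neg h, abs_of_nonpos (not_lt.1 h)]
    field_simp
    push_cast
    ring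

end Pool.Agent.MP_3e91a1_nt.F5

end

section

/-! The square of the determinant of Cauchy. -/

set_option autoImplicit false

open Finset Polynomial Filter Topology
open scoped Classical

namespace Pool.Agent.MP_3e91a1_nt.F5

open Pool.Agent.MP_760060_nt.W

theorem fac_ACA0 {d : ℕ} (y z : Fin d → ℚ) :
    (Matrix.of fun i j : Fin d => ∏ l ∈ {j}ᶜ, (z i - y l)) = Matrix.vandermonde z *
      Matrix.of fun k j : Fin d => (∏ l ∈ {j}ᶜ, (X - C (y l))).coeff k := by
  ext i j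
  have h : (∏ l ∈ ({j}ᶜ : Finset (Fin d)), (X - C (y l))).natDegree < d := by
    rw [natDegree_finsetProd_X_sub_C_eq_card, card_compl, Fintype.card_fin, card_singleton]
    have := j.pos
    omega
  have e := eval_eq_sum_range' h (z i)
  rw [eval_prod, Finset.sum_range] at e
  simp only [eval_sub, eval_X, eval_C] at e
  rw [Matrix.mul_apply, Matrix.of_apply, e]
  exact sum_congr rfl fun k _ => mul_comm _ _

theorem CA0_pf : CA0_st := by
  intro d x y hxy
  by_cases h0 : (Matrix.vandermonde y).det = 0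
  · obtain ⟨i, j, h1, h2⟩ := Matrix.det_vandermonde_eq_zero_iff.1 h0
    rw [h0, Matrix.det_zero_of_column_eq h2 fun k => by simp [h1]]
    simp
  have e1 := congrArg Matrix.det (fac_ACA0 y y)
  have e2 := congrArg Matrix.det (fac_ACA0 y x)
  rw [Matrix.det_mul] at e1 e2
  have f1 : (Matrix.of fun i j : Fin d => ∏ l ∈ {j}ᶜ, (y i - y l)) =
      Matrix.diagonal fun j => ∏ l ∈ {j}ᶜ, (y j - y l) := by
    ext i j
    by_cases h : i = j
    · simp [h]
    · rw [Matrix.diagonal_apply_ne _ h, Matrix.of_apply]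
      exact prod_eq_zero (i := i) (by simpa using h) (sub_self _)
  have f2 : (Matrix.of fun i j : Fin d => ∏ l ∈ {j}ᶜ, (x i - y l)) =
      Matrix.of fun i j => (∏ l, (x i - y l)) * (Matrix.of fun i j => (x i - y j)⁻¹) i j := by
    ext i j
    have := sub_ne_zero.2 (hxy i j)
    simp only [Matrix.of_apply]
    rw [← prod_compl_mul_prod {j}, prod_singleton, mul_inv_cancel_right₀ this]
  have f3 : (∏ j, ∏ l ∈ {j}ᶜ, (y j - y l)) ^ 2 = (Matrix.vandermonde y).det ^ 4 := by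
    simp only [Matrix.det_vandermonde, ← prod_pow]
    rw [← prod_prod_Ioi_mul_eq_prod_prod_off_diag fun a b => (y b - y a) ^ 2]
    exact prod_congr rfl fun i _ => prod_congr rfl fun j _ => by ring
  rw [f1, Matrix.det_diagonal] at e1
  rw [f2, Matrix.det_mul_column] at e2
  rw [mul_comm, e2, mul_pow]
  congr 1
  rw [e1] at f3
  apply mul_left_cancel₀ (pow_ne_zero 2 h0)
  rw [← mul_pow, f3]
  ring

end Pool.Agent.MP_3e91a1_nt.F5

end

section

set_option autoImplicit false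

open Finset Polynomial Filter Topology
open scoped Classical

namespace Pool.Agent.MP_3e91a1_nt.F5

open Pool.Agent.MP_760060_nt.W

theorem REA_pf (hHE : HE_st) (hCAU : CAU_st) (hLAM : LAM_st) : REA_st := by
  intro v d Y hv hY hd hdv h0
  obtain ⟨ε, hε, e⟩ := hHE Y d
  have hB : (10 : ℚ) ≤ 10 * v := by exact_mod_cast (by omega : 10 ≤ 10 * v)
  have D0 : Dc Y ≠ 0 := abs_ne_zero.2 (prod_ne_zero_iff.2 fun x _ => om_ne Y x)
  obtain ⟨S, hS, hm⟩ := exists_max_image (powersetCard d Y)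
    (fun S => |ε S * (∏ x ∈ S, la x) * (RR S (Y \ S))⁻¹|) (nonempty_of_sum_ne_zero (e ▸ h0))
  obtain ⟨h1, h2⟩ := mem_powersetCard.1 hS
  obtain ⟨r0, x, y, hx, hy, hc⟩ := hCAU d S (Y \ S) disjoint_sdiff h2 (by
    rw [card_sdiff_of_subset h1]
    omega)
  rw [union_sdiff_of_subset h1] at hc
  have a1 : |(Matrix.of fun i j => ((x i : ℚ) - y j)⁻¹).det| ≤ (10 * v) ^ d := by
    refine (Matrix.det_le (abv := AbsoluteValue.abs) (x := 1) fun i j => ?_).trans ?_
    · have : x i - y j ≠ 0 := sub_ne_zero.2 fun c => (mem_sdiff.1 (hy j)).2 (c ▸ hx i)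
      rw [AbsoluteValue.abs_apply, Matrix.of_apply, abs_inv]
      exact inv_le_one_of_one_le₀ (by exact_mod_cast Int.one_le_abs this)
    · rw [one_pow, Fintype.card_fin, nsmul_one]
      exact_mod_cast (Nat.factorial_le_pow d).trans (Nat.pow_le_pow_left (by omega) d)
  have a2 : |∏ x ∈ S, la x| ≤ (10 * v) ^ d := by
    rw [abs_prod, ← h2, ← prod_const]
    refine prod_le_prod (fun _ _ => abs_nonneg _) fun x hx => (hLAM.1 x).trans ?_
    have := mem_Icc.1 (mem_filter.1 (hY (h1 hx))).1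
    exact_mod_cast (abs_le.2 ⟨by omega, by omega⟩ : |x| ≤ 10 * v)
  have a3 : |HF Y d| ≤ (10 * v) ^ (2 * d) * ((10 * v) ^ d * |RR S (Y \ S)|⁻¹) := by
    rw [e]
    refine (abs_sum_le_sum_abs _ _).trans ((sum_le_card_nsmul _ _ _ hm).trans ?_)
    rw [nsmul_eq_mul, abs_mul, abs_mul, abs_inv,
      show |(ε S : ℚ)| = 1 by rcases hε S with c | c <;> simp [c], one_mul, card_powersetCard, hd]
    gcongr
    exact_mod_cast (Nat.choose_le_two_pow _ _).trans (Nat.pow_le_pow_left (by omega) _)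
  have a4 : |HF Y d| ^ 4 * |Dc Y| ≤ (10 * v) ^ (80 * v) := by
    rw [hc, abs_mul, abs_pow, abs_pow]
    refine (mul_le_mul (pow_le_pow_left₀ (abs_nonneg _) a3 4) (mul_le_mul_of_nonneg_right
      (pow_le_pow_left₀ (abs_nonneg _) a1 2) (by positivity)) (by positivity)
      (by positivity)).trans (le_of_eq_of_le ?_
        (pow_le_pow_right₀ (by linarith) (by omega : 14 * d ≤ 80 * v)))
    have := abs_ne_zero.2 r0
    field_simp
    ring
  have := Real.log_le_log (x := |(HF Y d : ℝ)| ^ 4 * |(Dc Y : ℝ)|) (y := (10 * v) ^ (80 * v))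
    (by positivity) (by exact_mod_cast a4)
  rw [Real.log_mul (by positivity) (by positivity), Real.log_pow, Real.log_pow] at this
  push_cast at this
  linarith

end Pool.Agent.MP_3e91a1_nt.F5

end

section

set_option autoImplicit false

open Finset Polynomial Filter Topology
open scoped Classical

namespace Pool.Agent.MP_3e91a1_nt.F5

open Pool.Agent.MP_760060_nt.W

theorem abs_XF_AALL {v : ℕ} {x : ℤ} (h : x ∈ XF v) : -(5 * v : ℤ) ≤ x ∧ x ≤ 5 * v := by
  simp only [XF, mem_filter, mem_Icc] at h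
  exact h.1

theorem Dc_ne_AALL (Y : Finset ℤ) : Dc Y ≠ 0 :=
  abs_ne_zero.2 (prod_ne_zero_iff.2 fun x _ => om_ne Y x)

theorem ALL_pf (hHE : HE_st) (hCAU : CAU_st) (hLAM : LAM_st) : ALL_st := by
  intro v d p _ Y hY hc hd
  obtain ⟨ε, hε, he⟩ := hHE Y d
  rw [he]
  refine Vb.sum fun S hS => ?_
  obtain ⟨hSY, hSd⟩ := mem_powersetCard.1 hS
  have hT : #(Y \ S) = d := by
    rw [card_sdiff_of_subset hSY]
    omega
  obtain ⟨hR, x, y, hx, hy, hD⟩ := hCAU d S (Y \ S) disjoint_sdiff hSd hT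
  rw [union_sdiff_of_subset hSY] at hD
  have hL : (0 : ℝ) ≤ (Nat.log p (10 * v) : ℝ) := Nat.cast_nonneg _
  have h1 : Vb p (d * (Nat.log p (10 * v) : ℝ)) (∏ x ∈ S, la x) := by
    have h := Vb.prod (p := p) (s := S) (f := la) (c := fun _ => (Nat.log p (10 * v) : ℝ))
      fun x hx => (hLAM.2 p x).1 (10 * v) (by
        have h2 := abs_XF_AALL (hY (hSY hx))
        rw [abs_le]
        push_cast
        omega)
    rwa [sum_const, hSd, nsmul_eq_mul] at h
  have h2 : Vb p (d * (Nat.log p (10 * v) : ℝ))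
      (Matrix.of fun i j => ((x i : ℚ) - y j)⁻¹).det := by
    have h := vb_det (p := p) (Matrix.of fun i j => ((x i : ℚ) - y j)⁻¹)
      (fun _ => (Nat.log p (10 * v) : ℝ)) (fun _ => 0) fun i j => by
        have a1 := abs_XF_AALL (hY (hSY (hx i)))
        have a2 := abs_XF_AALL (hY (sdiff_subset (hy j)))
        have a3 := vb_inv_log (p := p) (n := x i - y j) (R := 10 * v) (by
          rw [abs_le]
          push_cast
          omega)
        rw [add_zero, Matrix.of_apply]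
        push_cast at a3
        exact a3
    simpa using h
  generalize (Matrix.of fun i j => ((x i : ℚ) - y j)⁻¹).det = C at hD h2
  have hC : C ≠ 0 := fun h0 => Dc_ne_AALL Y (by rw [hD, h0]; ring)
  have hv : (padicValRat p (Dc Y) : ℝ) =
      2 * (padicValRat p C : ℝ) + 4 * (padicValRat p (RR S (Y \ S)) : ℝ) := by
    rw [hD, padicValRat.mul (pow_ne_zero _ hC) (pow_ne_zero _ hR), padicValRat.pow,
      padicValRat.pow]
    push_cast
    ring
  rw [vb_iff_val hC] at h2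
  have h3 : Vb p ((padicValRat p (Dc Y) : ℝ) / 4 + d * (Nat.log p (10 * v) : ℝ) / 2)
      (RR S (Y \ S))⁻¹ := by
    rw [vb_iff_val (inv_ne_zero hR), padicValRat.inv]
    push_cast
    linarith
  have hd' : (d : ℝ) ≤ 4 * v := by exact_mod_cast hd
  refine (((vb_int (ε S)).mul0 h1).mul h3).mono ?_
  nlinarith [mul_le_mul_of_nonneg_right hd' hL]

end Pool.Agent.MP_3e91a1_nt.F5

end

section

set_option autoImplicit false

open Finset Polynomial Filter Topology
open scoped Classical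

namespace Pool.Agent.MP_3e91a1_nt.F5

open Pool.Agent.MP_760060_nt.W

theorem BIG_pf (hLAM : LAM_st) : BIG_st := by
  intro v d p hp Y hY hv
  have hb : ∀ x ∈ Y, -(5 * v : ℤ) ≤ x ∧ x ≤ 5 * v := fun x hx =>
    mem_Icc.1 (mem_filter.1 (hY hx)).1
  have h := vb_det (p := p)
    (Matrix.of fun i j : Fin d => dd Y fun x => la x * (x : ℚ) ^ ((i : ℕ) + j))
    (fun _ => 0) (fun _ => 0) fun i j => by
      rw [add_zero, Matrix.of_apply, dd]
      refine Vb.sum fun x hx => ?_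
      have h1 := (hLAM.2 p x).1 (10 * v) (by
        have := hb x hx
        rw [abs_le]
        push_cast
        omega)
      rw [Nat.log_of_lt hv, Nat.cast_zero] at h1
      have h2 : Vb p 0 ((x : ℚ) ^ ((i : ℕ) + j)) := by simpa using (vb_int (p := p) x).pow (i + j)
      have h3 : Vb p 0 (om Y x)⁻¹ := by
        rw [om, ← prod_inv_distrib]
        refine Vb.prod0 fun y hy => ?_
        obtain ⟨y1, y2⟩ := mem_erase.1 hy
        have := hb x hx
        have := hb y y2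
        have e := vb_inv_lt (p := p) (n := x - y) (k := 0) (by
          rw [zero_add, pow_one, abs_lt]
          omega)
        simpa using e
      rw [div_eq_mul_inv]
      exact (h1.mul0 h2).mul0 h3
  simpa [HF] using h

end Pool.Agent.MP_3e91a1_nt.F5

end

section

set_option autoImplicit false

open Finset Polynomial Filter Topology
open scoped Classical

namespace Pool.Agent.MP_3e91a1_nt.F5

open Pool.Agent.MP_760060_nt.W

theorem cnt_ADCV (hDDC : DDC_st) {q : ℕ} (hq : 0 < q) (Y : Finset ℤ) :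
    ∑ x ∈ Y, ∑ y ∈ Y.erase x, (if (q : ℤ) ∣ x - y then (1 : ℝ) else 0) = pr q Y := by
  rw [← hDDC.2.2.2 q Y _ hq, pr]
  refine sum_congr rfl fun m _ => ?_
  rw [← nsmul_eq_mul, ← sum_const]
  refine sum_congr rfl fun x hx => ?_
  have e : (Y.erase x).filter (fun y => (q : ℤ) ∣ x - y) = (cls q m Y).erase x := by
    ext y
    rw [cls, mem_filter, mem_erase, mem_erase, mem_filter, ← (mem_filter.1 hx).2, and_assoc,
      ← Int.modEq_iff_dvd]
    rfl
  rw [sum_boole, e, card_erase_of_mem hx, Nat.cast_pred (card_pos.2 ⟨x, hx⟩)]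

theorem vb_ADCV {p : ℕ} [Fact p.Prime] (Y : Finset ℤ) (c : ℤ → ℝ) (h : ∀ n : ℤ, Vb p (c n) n) :
    Vb p (∑ x ∈ Y, ∑ y ∈ Y.erase x, c (x - y)) (Dc Y) := by
  have : Vb p (∑ x ∈ Y, ∑ y ∈ Y.erase x, c (x - y)) (∏ x ∈ Y, om Y x) :=
    Vb.prod fun x _ => Vb.prod fun y _ => by simpa using h (x - y)
  rw [Dc]
  rcases abs_choice (∏ x ∈ Y, om Y x) with e | e <;> rw [e]
  exacts [this, this.neg]

theorem DCV_pf (hDDC : DDC_st) : DCV_st := by
  intro p hp Y
  have h0 := hp.out.pos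
  refine ⟨abs_ne_zero.2 (prod_ne_zero_iff.2 fun x _ => om_ne Y x), ?_, ?_, ?_⟩
  · simpa using vb_ADCV (p := p) Y (fun _ => 0) vb_int
  · have := vb_ADCV (p := p) Y (fun n => -if (p : ℤ) ∣ n then 1 else 0) fun n => by
      split_ifs with h
      · exact vb_dvd h
      · simpa using vb_int n
    simp only [sum_neg_distrib] at this
    rwa [cnt_ADCV hDDC h0] at this
  · have := vb_ADCV (p := p) Y (fun n => -((if (p : ℤ) ∣ n then 1 else 0) +
        if ((p * p : ℕ) : ℤ) ∣ n then 1 else 0)) fun n => by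
      split_ifs with h h' h'
      · have := vb_pow_dvd (p := p) (k := 2) (n := n) (by rwa [sq, ← Nat.cast_mul])
        exact this.mono (by norm_num)
      · simpa using vb_dvd h
      · exact absurd (dvd_trans (by push_cast; exact dvd_mul_right _ _) h') h
      · simpa using vb_int n
    simp only [sum_neg_distrib, sum_add_distrib] at this
    rwa [cnt_ADCV hDDC h0, cnt_ADCV hDDC (Nat.mul_pos h0 h0)] at this

end Pool.Agent.MP_3e91a1_nt.F5

end

section

set_option autoImplicit false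

open Finset Polynomial Filter Topology
open scoped Classical

namespace Pool.Agent.MP_3e91a1_nt.F5

open Pool.Agent.MP_760060_nt.W

theorem gen_APR5 (hDDC : DDC_st) (q : ℕ) (hq : 0 < q) (h5 : 5 ∣ q) (Y : Finset ℤ)
    (hY : ∀ x ∈ Y, x % 5 ≠ 0) :
    (#Y : ℝ) ^ 2 ≤ #((range q).filter fun m => m % 5 ≠ 0) * (pr q Y + #Y) := by
  have h1 : ∑ m ∈ range q, (#(cls q m Y) : ℝ) = #Y := by
    simpa using hDDC.2.2.2 q Y (fun _ => 1) hq
  have h2 : ∀ m ∈ range q, m ∉ (range q).filter (fun m => m % 5 ≠ 0) →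
      (#(cls q m Y) : ℝ) = 0 := fun m hm h => by
    rw [Nat.cast_eq_zero, card_eq_zero, cls, filter_eq_empty_iff]
    intro x hx e
    have a : m % 5 = 0 := by
      by_contra a
      exact h (mem_filter.2 ⟨hm, a⟩)
    have b := Int.emod_emod_of_dvd x (show (5 : ℤ) ∣ (q : ℤ) by exact_mod_cast h5)
    have := hY x hx
    omega
  have h3 : pr q Y + #Y = ∑ m ∈ range q, (#(cls q m Y) : ℝ) ^ 2 := by
    rw [pr, ← h1, ← sum_add_distrib]
    exact sum_congr rfl fun m _ => by ring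
  rw [h3, ← h1, ← sum_subset (filter_subset _ _) h2,
    ← sum_subset (f := fun m => (#(cls q m Y) : ℝ) ^ 2) (s₂ := range q)
      (filter_subset (fun m => m % 5 ≠ 0) _) fun m a b => by rw [h2 m a b]; ring]
  exact sq_sum_le_card_mul_sum_sq

theorem PR5_pf (hDDC : DDC_st) : PR5_st := by
  intro v Y hY
  have h : ∀ x ∈ Y, x % 5 ≠ 0 := fun x hx => (mem_filter.1 (hY hx)).2
  have h1 := gen_APR5 hDDC 5 (by decide) (by decide) Y h
  have h2 := gen_APR5 hDDC 25 (by decide) (by decide) Y h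
  rw [show #((range 5).filter fun m => m % 5 ≠ 0) = 4 by decide] at h1
  rw [show #((range 25).filter fun m => m % 5 ≠ 0) = 20 by decide] at h2
  push_cast at h1 h2
  constructor <;> linarith

end Pool.Agent.MP_3e91a1_nt.F5

end

section

/-! Harmonic sums modulo a prime without the condition. -/

set_option autoImplicit false

open Finset Polynomial Filter Topology
open scoped Classical

namespace Pool.Agent.MP_3e91a1_nt.F5

open Pool.Agent.MP_760060_nt.W

theorem refl_AH5 {p a b a' b' : ℕ} [Fact p.Prime] (h : a + b' + 1 = p)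
    (h' : b + a' + 1 = p) :
    ∑ k ∈ Ioc a b, (k : ZMod p)⁻¹ = -∑ k ∈ Ioc a' b', (k : ZMod p)⁻¹ := by
  rw [← sum_neg_distrib]
  refine sum_bij' (fun k _ => p - k) (fun k _ => p - k) (fun k hk => ?_) (fun k hk => ?_)
    (fun k hk => ?_) (fun k hk => ?_) fun k hk => ?_
  all_goals simp only [mem_Ioc] at hk ⊢
  any_goals omega
  rw [Nat.cast_sub (by omega), ZMod.natCast_self, zero_sub, inv_neg, neg_neg]

theorem step_AH5 (p j : ℕ) :
    hh p (j + 1) = hh p j + ∑ k ∈ Ioc (j * p / 5) ((j + 1) * p / 5), (k : ZMod p)⁻¹ := by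
  have e : ∀ n : ℕ, Icc 1 n = Ioc 0 n := fun n => by
    ext k
    simp only [mem_Icc, mem_Ioc]
    omega
  rw [hh, hh, e, e, sum_Ioc_consecutive _ (Nat.zero_le _)
    (Nat.div_le_div_right (Nat.mul_le_mul_right _ (Nat.le_succ j)))]

theorem H5_pf : H5_st := by
  intro p hp h5 hN
  have h0 : p % 5 ≠ 0 := fun h => by
    have := (Nat.prime_dvd_prime_iff_eq Nat.prime_five hp.out).1 (Nat.dvd_of_mod_eq_zero h)
    omega
  have e : 2 * p / 5 + (2 + 1) * p / 5 + 1 = p ∧ 3 * p / 5 + (1 + 1) * p / 5 + 1 = p ∧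
      (3 + 1) * p / 5 + 1 * p / 5 + 1 = p := by
    have : p % 5 = 1 ∨ p % 5 = 2 ∨ p % 5 = 3 ∨ p % 5 = 4 := by omega
    rcases this with h | h | h | h <;> omega
  have h1 : ∑ k ∈ Ioc (1 * p / 5) ((1 + 1) * p / 5), (k : ZMod p)⁻¹ = 0 := by
    rw [← not_not.1 hN]
    refine sum_congr ?_ fun _ _ => rfl
    ext k
    simp only [mem_Ioc, mem_filter, mem_Ico]
    omega
  have h2 : ∑ k ∈ Ioc (2 * p / 5) ((2 + 1) * p / 5), (k : ZMod p)⁻¹ = 0 := by
    have := refl_AH5 e.1 ((congrArg (· + 1) (add_comm _ _)).trans e.1)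
    have t : (2 : ZMod p) ≠ 0 := fun h => by
      have := Nat.le_of_dvd two_pos ((ZMod.natCast_eq_zero_iff 2 p).1 (by exact_mod_cast h))
      omega
    exact mul_left_cancel₀ t (by linear_combination this)
  have h3 : ∑ k ∈ Ioc (3 * p / 5) ((3 + 1) * p / 5), (k : ZMod p)⁻¹ = 0 := by
    rw [refl_AH5 e.2.1 e.2.2, h1, neg_zero]
  have a := step_AH5 p 1
  have b := step_AH5 p 2
  have c := step_AH5 p 3
  rw [h1, add_zero] at a
  rw [h2, add_zero] at b
  rw [h3, add_zero] at c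
  exact ⟨a, b.trans a, c.trans (b.trans a)⟩

end Pool.Agent.MP_3e91a1_nt.F5

end

section

set_option autoImplicit false

open Finset Polynomial Filter Topology
open scoped Classical

namespace Pool.Agent.MP_3e91a1_nt.F5

open Pool.Agent.MP_760060_nt.W

/-- harmonic sums -/
noncomputable def G_ACON {p : ℕ} (z : ZMod p) : ZMod p := ∑ k ∈ Icc 1 z.val, (k : ZMod p)⁻¹

theorem G_succ_ACON {p : ℕ} [hp : Fact p.Prime] (h : 5 < p) (z : ZMod p) :
    G_ACON (z + 1) = G_ACON z + (z + 1)⁻¹ := by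
  have h1 := ZMod.val_lt z
  by_cases e : z.val + 1 < p
  · have : (z + 1).val = z.val + 1 := by
      rw [ZMod.val_add_of_lt (by rwa [ZMod.val_one]), ZMod.val_one]
    rw [G_ACON, G_ACON, this, sum_Icc_succ_top (by omega)]
    simp
  · have e1 : z.val + 1 = p := by omega
    have e2 : z + 1 = 0 := by
      have := congrArg (Nat.cast : ℕ → ZMod p) e1
      simpa using this
    rw [e2, G_ACON, G_ACON, ZMod.val_zero, inv_zero, add_zero, Icc_eq_empty (by omega), sum_empty]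
    have o := hp.out.eq_two_or_odd
    refine (sum_involution (fun k _ => p - k) (fun k hk => ?_) (fun k hk _ => ?_) (fun k hk => ?_)
      fun k hk => ?_).symm <;> rw [mem_Icc] at hk
    · rw [Nat.cast_sub (by omega)]
      simp
    · omega
    · rw [mem_Icc]
      omega
    · omega

theorem CON_pf (hSH : SH_st) (hH5 : H5_st) : CON_st := by
  intro p hp x x' h5 hn hx hx' hd
  have n5 : (5 : ZMod p) ≠ 0 := fun e =>
    absurd (Nat.le_of_dvd (by norm_num) ((ZMod.natCast_eq_zero_iff 5 p).1 (by exact_mod_cast e)))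
      (by omega)
  set E : ℤ → ZMod p := fun x => 5 * Fm p x - G_ACON (5⁻¹ * (x : ZMod p)) with hE
  have s1 : ∀ x : ℤ, x % 5 ≠ 0 → E (x + 5) = E x := fun x hx => by
    have := hSH (ZMod p) (fun m => (m : ZMod p)⁻¹) (fun m => by simp) x hx
    have e : (5⁻¹ * ((x + 5 : ℤ) : ZMod p)) = 5⁻¹ * (x : ZMod p) + 1 := by
      push_cast
      field_simp
    simp only [hE, Fm]
    rw [this, e, G_succ_ACON h5, ← e, mul_inv, inv_inv]
    ring
  have s2 : ∀ x : ℤ, x % 5 ≠ 0 → ∀ t : ℤ, E (x + 5 * t) = E x := fun x hx t => by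
    induction t using Int.induction_on with
    | zero => simp
    | succ t ih => rw [mul_add, mul_one, ← add_assoc, s1 _ (by omega), ih]
    | pred t ih => rw [← s1 _ (by omega), ← ih]; congr 1; ring
  have p5 : p % 5 ≠ 0 := fun e =>
    absurd ((Nat.prime_dvd_prime_iff_eq Nat.prime_five hp.out).1 (Nat.dvd_of_mod_eq_zero e))
      (by omega)
  have s3 : ∀ a : ℕ, 1 ≤ a → a ≤ 4 → E (-a) = -hh p 1 := fun a a1 a2 => by
    obtain ⟨j, j1, j2⟩ : ∃ j, (j = 1 ∨ j = 2 ∨ j = 3 ∨ j = 4) ∧ j * p % 5 = a := by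
      simp only [or_and_right, exists_or, exists_eq_left]
      obtain e | e | e | e : p % 5 = 1 ∨ p % 5 = 2 ∨ p % 5 = 3 ∨ p % 5 = 4 := by omega
      all_goals omega
    have e1 : hh p j = hh p 1 := by
      obtain ⟨b1, b2, b3⟩ := hH5 p h5 hn
      rcases j1 with rfl | rfl | rfl | rfl
      exacts [rfl, b1, b2, b3]
    have e2 : ms (-a) = ∅ := by
      rw [ms, abs_neg, Nat.abs_cast, filter_eq_empty_iff]
      intro m hm
      rw [mem_Icc] at hm
      omega
    have e3 : (5⁻¹ * ((-a : ℤ) : ZMod p)) = (j * p / 5 : ℕ) := by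
      have := congrArg (Nat.cast : ℕ → ZMod p) (Nat.div_add_mod (j * p) 5)
      rw [j2] at this
      simp only [Nat.cast_add, Nat.cast_mul, ZMod.natCast_self, mul_zero, Nat.cast_ofNat] at this
      rw [inv_mul_eq_iff_eq_mul₀ n5]
      push_cast
      linear_combination -this
    simp only [hE, Fm]
    rw [e2, sum_empty, mul_zero, zero_sub, e3, G_ACON, ZMod.val_cast_of_lt (by
      rcases j1 with rfl | rfl | rfl | rfl <;> omega), ← e1, hh]
  have s4 : ∀ x : ℤ, x % 5 ≠ 0 → E x = -hh p 1 := fun x hx => by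
    rw [← s3 (5 - x % 5).toNat (by omega) (by omega), ← s2 (-_) (by omega) (x / 5 + 1)]
    congr 1
    omega
  have := (s4 x hx).trans (s4 x' hx').symm
  simp only [hE] at this
  rw [(ZMod.intCast_eq_intCast_iff_dvd_sub x' x p).2 hd] at this
  exact mul_left_cancel₀ n5 (sub_left_inj.1 this)

end Pool.Agent.MP_3e91a1_nt.F5

end

section

set_option autoImplicit false

open Finset Polynomial Filter Topology
open scoped Classical

namespace Pool.Agent.MP_3e91a1_nt.F5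

open Pool.Agent.MP_760060_nt.W

theorem sum_APHI (k : ℕ) : ∑ i ∈ range k, max 0 ((k : ℝ) - 2 - 2 * i) =
    (k : ℝ) * (k - 1) / 4 - k / 4 + if Odd k then 1 / 4 else 0 := by
  induction k using Nat.twoStepInduction with
  | zero => simp
  | one => norm_num
  | more k ih _ =>
    have h0 : (0 : ℝ) ≤ k := k.cast_nonneg
    have e : ∀ i : ℕ, ((k + 2 : ℕ) : ℝ) - 2 - 2 * (i + 1 : ℕ) = k - 2 - 2 * i := fun i => by
      push_cast
      ring
    rw [sum_range_succ']
    simp only [e, Nat.odd_add_one, Nat.not_odd_iff_even, Nat.not_even_iff_odd]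
    rw [sum_range_succ, ih, max_eq_left (by linarith), max_eq_right (by push_cast; linarith)]
    push_cast
    ring

theorem PHI_pf : PHI_st := by
  intro ρ k
  have h1 : ∀ i ∈ range k, max 0 (0 - af ρ k i) ≤
      max 0 ((k : ℝ) - 2 - 2 * i) + if i < ρ then 2 else 0 := fun i _ => by
    have a := le_max_left 0 ((k : ℝ) - 2 - 2 * i)
    have b := le_max_right 0 ((k : ℝ) - 2 - 2 * i)
    rw [af, zero_sub, ← max_neg_neg]
    by_cases h : i < ρ
    · rw [if_pos h, if_neg h.not_ge]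
      exact max_le (by linarith) (max_le (by linarith) (by linarith))
    · rw [if_neg h, if_pos (not_lt.1 h)]
      exact max_le (by linarith) (max_le (by linarith) (by linarith))
  have h2 : ∑ i ∈ range k, (if i < ρ then (2 : ℝ) else 0) ≤ 2 * ρ := by
    rw [← sum_filter, sum_const, nsmul_eq_mul, mul_comm]
    have : #((range k).filter (· < ρ)) ≤ ρ :=
      (card_le_card fun i hi => mem_range.2 (mem_filter.1 hi).2).trans (card_range ρ).le
    have : (#((range k).filter (· < ρ)) : ℝ) ≤ ρ := by exact_mod_cast this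
    linarith
  have h3 := sum_le_sum h1
  rw [sum_add_distrib, sum_APHI] at h3
  linarith

end Pool.Agent.MP_3e91a1_nt.F5

end

section

set_option autoImplicit false

open Finset Polynomial Filter Topology
open scoped Classical

namespace Pool.Agent.MP_3e91a1_nt.F5

open Pool.Agent.MP_760060_nt.W

theorem POL_pf : POL_st := by
  intro v p
  have h1 : (XF v).filter (Po p) ⊆ (Icc 1 4).biUnion fun j : ℕ =>
      ((range ((5 * v - j * p) / 5 + 1)).image fun t : ℕ => ((j * p + 5 * t : ℕ) : ℤ)) ∪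
      (range ((5 * v - j * p) / 5 + 1)).image fun t : ℕ => -((j * p + 5 * t : ℕ) : ℤ) := by
    intro x hx
    obtain ⟨hx, m, hm, i, rfl⟩ := mem_filter.1 hx
    simp only [XF, ms, mem_filter, mem_Icc] at hx hm
    have i0 : 0 ≤ i := by
      by_contra c
      nlinarith [mul_nonneg (Int.natCast_nonneg p) (neg_nonneg.2 (not_le.1 c).le)]
    lift i to ℕ using i0
    have e : (p : ℤ) * i = ((i % 5) * p + 5 * (i / 5 * p) : ℕ) := by
      conv_lhs => rw [← Nat.mod_add_div i 5]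
      push_cast
      ring
    rw [e, ← Int.natCast_natAbs] at hm
    have j0 : i % 5 ≠ 0 := fun c => by
      rw [c, zero_mul] at hm
      omega
    refine mem_biUnion.2 ⟨i % 5, mem_Icc.2 (by omega), ?_⟩
    generalize i % 5 * p = a at hm ⊢
    rw [mem_union, mem_image, mem_image]
    rcases le_total 0 x with c | c
    · exact Or.inl ⟨(x.natAbs - a) / 5, mem_range.2 (by omega), by omega⟩
    · exact Or.inr ⟨(x.natAbs - a) / 5, mem_range.2 (by omega), by omega⟩
  have h2 := (card_le_card h1).trans (card_biUnion_le.trans (sum_le_sum fun j _ =>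
    (card_union_le _ _).trans (add_le_add card_image_le card_image_le)))
  have h3 : ∀ j : ℕ, (((5 * v - j * p) / 5 : ℕ) : ℝ) ≤ max 0 (5 * v - j * p : ℝ) / 5 := fun j => by
    refine Nat.cast_div_le.trans (div_le_div_of_nonneg_right ?_ (by norm_num))
    rcases le_total (j * p) (5 * v) with c | c
    · rw [Nat.cast_sub c]
      push_cast
      exact le_max_right _ _
    · rw [Nat.sub_eq_zero_of_le c, Nat.cast_zero]
      exact le_max_left _ _
  refine (Nat.cast_le.2 h2).trans ?_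
  rw [mx, mul_sum, show (8 : ℝ) = ∑ j ∈ Icc 1 4, (2 : ℝ) by simp; norm_num, ← sum_add_distrib]
  simp only [card_range]
  push_cast
  exact sum_le_sum fun j _ => by linarith [h3 j]

end Pool.Agent.MP_3e91a1_nt.F5

end

section

set_option autoImplicit false

open Finset Polynomial Filter Topology
open scoped Classical

namespace Pool.Agent.MP_3e91a1_nt.F5

open Pool.Agent.MP_760060_nt.W

/-- the step function, in thousandths -/
def ci_ASTP (k : ℕ) : ℤ := 1 + if k < 10 then 6000 else if k < 50 then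
  80 * ∑ j ∈ Icc (1 : ℕ) 4, max 0 (50 - (j : ℤ) * k) - 2000 + 25 * (k + 1)
  else -30 * (100 - (k + 1))

theorem sum_ASTP : ∑ k ∈ range 100, ci_ASTP k ≤ 66300 := by decide +kernel

theorem le_ASTP (v k p : ℕ) (hv : 22000 ≤ v) (h1 : k * v < 10 * p) (h2 : 10 * p ≤ (k + 1) * v) :
    cst v p ≤ (ci_ASTP k : ℝ) / 1000 * v := by
  have a0 : (22000 : ℝ) ≤ v := by exact_mod_cast hv
  have a1 : (k : ℝ) * v < 10 * p := by exact_mod_cast h1
  have a2 : (10 : ℝ) * p ≤ (k + 1) * v := by exact_mod_cast h2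
  unfold cst ci_ASTP
  by_cases c1 : k < 10
  · have : p ≤ v := by nlinarith [Nat.mul_le_mul_right v (show k + 1 ≤ 10 by omega)]
    rw [if_pos this, if_pos c1]
    push_cast
    linarith
  have b1 : ¬ p ≤ v := by nlinarith [Nat.mul_le_mul_right v (show 10 ≤ k by omega)]
  rw [if_neg b1, if_neg c1]
  by_cases c2 : k < 50
  · have : p ≤ 5 * v := by nlinarith [Nat.mul_le_mul_right v (show k + 1 ≤ 50 by omega)]
    rw [if_pos this, if_pos c2]
    have m : mx v p ≤ (∑ j ∈ Icc (1 : ℕ) 4, max 0 (50 - (j : ℝ) * k)) / 10 * v := by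
      rw [mx, sum_div, sum_mul]
      refine sum_le_sum fun j _ => max_le (by positivity) ?_
      have d1 := le_max_right 0 (50 - (j : ℝ) * k)
      have d2 : (0 : ℝ) ≤ j := Nat.cast_nonneg j
      nlinarith [mul_le_mul_of_nonneg_left a1.le d2,
        mul_le_mul_of_nonneg_right d1 (Nat.cast_nonneg (α := ℝ) v)]
    push_cast
    linarith
  · have : ¬ p ≤ 5 * v := by nlinarith [Nat.mul_le_mul_right v (show 50 ≤ k by omega)]
    rw [if_neg this, if_neg c2]
    push_cast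
    linarith

theorem STP_pf (hTH : TH_st) : STP_st := by
  filter_upwards [hTH 100 (fun k => (ci_ASTP k : ℝ) / 1000) (1 / 100) (by norm_num),
    eventually_ge_atTop 22000] with v h hv
  have v0 : (0 : ℝ) < v := by exact_mod_cast (show 0 < v by omega)
  have h1 := h (fun p => cst v p / v) fun k _ p a b => (div_le_iff₀ v0).2 (le_ASTP v k p hv a b)
  rw [show 100 * v / 10 = 10 * v by omega] at h1
  have h2 : ∑ k ∈ range 100, (ci_ASTP k : ℝ) / 1000 / 10 ≤ 663 / 100 := by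
    have : ((∑ k ∈ range 100, ci_ASTP k : ℤ) : ℝ) ≤ 66300 := by exact_mod_cast sum_ASTP
    rw [Int.cast_sum] at this
    rw [← sum_div, ← sum_div]
    linarith
  have h3 : ∑ p ∈ (Ioc 0 (10 * v)).filter Nat.Prime, cst v p * Real.log p =
      v * ∑ p ∈ (Ioc 0 (10 * v)).filter Nat.Prime, cst v p / v * Real.log p := by
    rw [mul_sum]
    exact sum_congr rfl fun p _ => by field_simp
  rw [h3]
  nlinarith [mul_le_mul_of_nonneg_left h1 v0.le, mul_le_mul_of_nonneg_right h2 (mul_pos v0 v0).le,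
    mul_pos v0 v0]

end Pool.Agent.MP_3e91a1_nt.F5

end

section

set_option autoImplicit false

open Finset Polynomial Filter Topology
open scoped Classical

namespace Pool.Agent.MP_3e91a1_nt.F5

open Pool.Agent.MP_760060_nt.W

theorem log_ASML (p : ℕ) {n : ℕ} (hn : n ≠ 0) (hp : 0 < p) :
    (Nat.log p n : ℝ) * Real.log p ≤ Real.log n := by
  rw [← Real.log_pow]
  exact Real.log_le_log (by positivity) (by exact_mod_cast Nat.pow_log_le_self p hn)

theorem SML_pf : SML_st := by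
  intro ε hε
  have h1 : Tendsto (fun v : ℕ => 10 * (v : ℝ)) atTop atTop :=
    tendsto_natCast_atTop_atTop.const_mul_atTop (by norm_num)
  have h2 := h1.eventually ((isLittleO_log_rpow_atTop (r := 1 / 2) (by norm_num)).bound
    (c := ε / 200) (by positivity))
  filter_upwards [h2, eventually_ge_atTop 1] with v hv h3
  have v1 : (1 : ℝ) ≤ v := by exact_mod_cast h3
  rw [← Real.sqrt_eq_rpow, Real.norm_of_nonneg (Real.sqrt_nonneg _)] at hv
  replace hv := (le_abs_self _).trans hv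
  have s1 : 1 ≤ √(10 * (v : ℝ)) := Real.one_le_sqrt.2 (by linarith)
  have s2 : √(10 * (v : ℝ)) * √(10 * (v : ℝ)) = 10 * v := Real.mul_self_sqrt (by linarith)
  have l5 : Real.log 5 ≤ Real.log (10 * (v : ℝ)) := Real.log_le_log (by norm_num) (by linarith)
  have l0 : 0 ≤ Real.log (10 * (v : ℝ)) := Real.log_nonneg (by linarith)
  have k1 : √(10 * (v : ℝ)) * Real.log (10 * (v : ℝ)) ≤ ε / 20 * v :=
    (mul_le_mul_of_nonneg_left hv (by linarith)).trans_eq (by rw [mul_left_comm, s2]; ring)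
  have k2 : Real.log (10 * (v : ℝ)) ≤ ε / 20 * v := (le_mul_of_one_le_left l0 s1).trans k1
  have k3 := mul_le_mul_of_nonneg_left k1 (show (0 : ℝ) ≤ v by linarith)
  have k4 := mul_le_mul_of_nonneg_left k2 (show (0 : ℝ) ≤ v by linarith)
  have k5 : 0 ≤ ε * (v : ℝ) ^ 2 := by positivity
  have hl : ∀ p : ℕ, 0 < p → (Nat.log p (10 * v) : ℝ) * Real.log p ≤ Real.log (10 * (v : ℝ)) :=
    fun p hp => by simpa using log_ASML p (n := 10 * v) (by omega) hp
  refine ⟨?_, by linarith, ?_⟩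
  · have c1 : (#((Ioc 0 (10 * v)).filter fun p => p.Prime ∧ p ^ 2 ≤ 10 * v) : ℝ) ≤
        √(10 * (v : ℝ)) := by
      have c2 : #((Ioc 0 (10 * v)).filter fun p => p.Prime ∧ p ^ 2 ≤ 10 * v) ≤
          #(Ioc 0 (Nat.sqrt (10 * v))) := card_le_card fun p hp => by
        obtain ⟨a, -, b⟩ := mem_filter.1 hp
        exact mem_Ioc.2 ⟨(mem_Ioc.1 a).1, Nat.le_sqrt'.2 b⟩
      rw [Nat.card_Ioc, Nat.sub_zero] at c2
      refine le_trans (by exact_mod_cast c2) (Real.nat_sqrt_le_real_sqrt.trans_eq ?_)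
      push_cast
      rfl
    refine (sum_le_card_nsmul _ _ (6 * v * Real.log (10 * (v : ℝ))) fun p hp => ?_).trans ?_
    · rw [mul_assoc]
      exact mul_le_mul_of_nonneg_left (hl p (mem_filter.1 hp).2.1.pos) (by positivity)
    · rw [nsmul_eq_mul]
      have := mul_le_mul_of_nonneg_right c1
        (show 0 ≤ 6 * v * Real.log (10 * (v : ℝ)) by positivity)
      linarith
  · have c1 := mul_le_mul_of_nonneg_left (hl 5 (by norm_num)) (show (0 : ℝ) ≤ v by linarith)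
    have c2 := mul_le_mul_of_nonneg_left l5 (show (0 : ℝ) ≤ v by linarith)
    push_cast at c1
    linarith

end Pool.Agent.MP_3e91a1_nt.F5

end

section

set_option autoImplicit false

open Finset Polynomial Filter Topology
open scoped Classical

namespace Pool.Agent.MP_3e91a1_nt.F5

open Pool.Agent.MP_760060_nt.W

theorem log5_ASUF : 19 / 12 ≤ Real.log 5 := by
  have h := Real.log_le_log (x := 2 ^ 16) (y := 5 ^ 7) (by norm_num) (by norm_num)
  rw [Real.log_pow, Real.log_pow] at h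
  have := Real.log_two_gt_d9
  push_cast at h
  linarith

theorem cst_ASUF {v p : ℕ} : -(2 * v : ℝ) ≤ cst v p := by
  have h0 : (0 : ℝ) ≤ v := v.cast_nonneg
  have h1 : (0 : ℝ) ≤ p := p.cast_nonneg
  have h2 : 0 ≤ mx v p := sum_nonneg fun _ _ => le_max_left _ _
  unfold cst
  split_ifs with a b
  · linarith
  · linarith
  · have : (5 * v : ℝ) < p := by exact_mod_cast not_le.1 b
    linarith

theorem pt_ASUF {P : ℕ → Prop} {v : ℕ} {e : ℕ → ℝ} (h : Bds P v e) (hv : 10 ≤ v) {p : ℕ}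
    (hp : p.Prime) (hl : p ≤ 10 * v) :
    e p ≤ cst v p + (if p ^ 2 ≤ 10 * v then 6 * v * (Nat.log p (10 * v) : ℝ) else 0) +
      (if P p then 8 * (v : ℝ) else 0) + if p = 5 then
        4 * v * (1 + Nat.log 5 (10 * v)) + 9 * v - 24 / 5 * (v : ℝ) ^ 2 else 0 := by
  have h0 : (0 : ℝ) ≤ v := v.cast_nonneg
  have h1 : 0 ≤ if P p then 8 * (v : ℝ) else 0 := by split_ifs <;> linarith
  by_cases a : p ^ 2 ≤ 10 * v
  · have b : cst v p = 6 * v := if_pos (by nlinarith)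
    have h2 : 0 ≤ 6 * v * (Nat.log p (10 * v) : ℝ) := by positivity
    rw [if_pos a, b]
    by_cases c : p = 5
    · rw [if_pos c]
      have : e p = e 5 := by rw [c]
      linarith [h.five]
    · rw [if_neg c]
      linarith [h.all p hp]
  · have b : 5 < p := by nlinarith
    rw [if_neg a, if_neg b.ne']
    by_cases c : P p
    · have h2 : (Nat.log p (10 * v) : ℝ) ≤ 1 := by
        exact_mod_cast Nat.lt_succ_iff.1 (Nat.log_lt_of_lt_pow (by omega) (not_le.1 a))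
      have := h.all p hp
      rw [if_pos c]
      nlinarith [cst_ASUF (v := v) (p := p)]
    · rw [if_neg c]
      linarith [h.mid p hp c b (not_le.1 a) hl]

theorem SUF_pf (hSTP : STP_st) (hSML : SML_st) : SUF_st := by
  intro P
  filter_upwards [hSTP, hSML (1 / 1000) (by norm_num), eventually_ge_atTop 10] with v h1
    ⟨h2, h3, h4⟩ hv e h
  have h5 := h.tot.trans (sum_le_sum fun p hp => mul_le_mul_of_nonneg_right
    (pt_ASUF h hv (mem_filter.1 hp).2 (mem_Ioc.1 (mem_filter.1 hp).1).2) (Real.log_natCast_nonneg p))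
  have h6 : 5 ∈ (Ioc 0 (10 * v)).filter Nat.Prime :=
    mem_filter.2 ⟨mem_Ioc.2 ⟨by norm_num, by omega⟩, Nat.prime_five⟩
  simp only [add_mul _ _ (Real.log _), ite_mul, zero_mul, sum_add_distrib, sum_ite_eq', if_pos h6,
    ← sum_filter, filter_filter, ← mul_sum _ _ (8 * (v : ℝ))] at h5
  have h7 : (10 : ℝ) ≤ v := by exact_mod_cast hv
  have h8 := mul_le_mul_of_nonneg_left log5_ASUF (sq_nonneg (v : ℝ))
  push_cast at h5
  refine le_of_mul_le_mul_left ?_ (by linarith : (0 : ℝ) < 8 * v)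
  nlinarith

end Pool.Agent.MP_3e91a1_nt.F5

end

section

set_option autoImplicit false

open Finset Polynomial Filter Topology
open scoped Classical

namespace Pool.Agent.MP_3e91a1_nt.F5

open Pool.Agent.MP_760060_nt.W

theorem DEN_pf (hEX : EX_st) (hSUF : SUF_st) : DEN_st := by
  intro B
  have h1 : Tendsto (fun x : ℕ => x / 10) atTop atTop := Nat.tendsto_div_const_atTop (by norm_num)
  have h2 := (Real.isLittleO_log_id_atTop.comp_tendsto tendsto_natCast_atTop_atTop).bound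
    (c := 1 / (1000 * ((B : ℝ) + 1))) (by positivity)
  filter_upwards [h1.eventually (hSUF NW), h2, eventually_ge_atTop 900] with x a1 a2 a3
  obtain ⟨e, he⟩ := hEX (x / 10) (by omega)
  have x1 : (900 : ℝ) ≤ x := by exact_mod_cast a3
  have l0 : 0 < Real.log x := Real.log_pos (by linarith)
  have a4 : ((B : ℝ) + 1) * Real.log x ≤ x / 1000 := by
    rw [Function.comp_apply, Function.comp_apply, id, Real.norm_of_nonneg l0.le,
      Real.norm_natCast, div_mul_eq_mul_div, one_mul, le_div_iff₀ (by positivity)] at a2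
    linarith
  have a5 : {p : ℕ | p ≤ x ∧ p.Prime ∧ B < p ∧ NW p} =
      ↑((range (x + 1)).filter fun p => p.Prime ∧ B < p ∧ NW p) := by
    ext p
    simp
  have a6 : #((Ioc 0 (10 * (x / 10))).filter fun p => p.Prime ∧ NW p) ≤
      #((range (x + 1)).filter fun p => p.Prime ∧ B < p ∧ NW p) + (B + 1) := by
    refine le_trans (card_le_card fun p hp => ?_)
      ((card_union_le _ (range (B + 1))).trans_eq (congrArg _ (card_range _)))
    rw [mem_filter, mem_Ioc] at hp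
    rw [mem_union, mem_filter, mem_range, mem_range]
    exact (lt_or_ge B p).imp (fun h => ⟨by omega, hp.2.1, h, hp.2.2⟩) Nat.lt_succ_of_le
  have a7 := (a1 e he).trans (sum_le_card_nsmul _ _ (Real.log x) fun p hp => by
    rw [mem_filter, mem_Ioc] at hp
    exact Real.log_le_log (by exact_mod_cast hp.1.1) (by exact_mod_cast (by omega : p ≤ x)))
  have a8 : (x : ℝ) ≤ 10 * (x / 10 : ℕ) + 9 := by
    exact_mod_cast (by omega : x ≤ 10 * (x / 10) + 9)
  have a9 := mul_le_mul_of_nonneg_right ((Nat.cast_le (α := ℝ)).2 a6) l0.le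
  rw [a5, Set.ncard_coe_finset, div_le_iff₀ (by positivity)]
  rw [nsmul_eq_mul] at a7
  push_cast at a9
  linarith

end Pool.Agent.MP_3e91a1_nt.F5

end
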