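import Pool.Agent.MP_3e91a1_nt.St

set_option linter.all false

section

set_option autoImplicit false

open NumberField IsDedekindDomain Module Filter Topology Finset Polynomial
open scoped Classical

namespace Pool.Agent.MP_3e91a1_nt

open MP_e23604_nt MP_e23604_nt.B MP_e23604_nt.R MP_f3cd89_nt

theorem val_WTB1 {p : ℕ} [hp : Fact p.Prime] {D : Subgroup GQ} {χ : GQ → ZMod p} {t : GQ}
    {f : GQ → ℝ} {A : ℝ} {M : ℕ} (hχ : Adt D χ) (ht : t ∈ D) (h1 : χ t = 1)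
    (h0 : ∀ g ∈ D, 0 < f g) (hM : M ≠ 0) (hc : ∀ g ∈ D, f (g ^ M) = f 1)
    (hm : ∀ g ∈ D, ∀ h ∈ D, f g * f h = A ^ car (χ g) (χ h) * f (g * h)) : A = f t ^ p := by
  have c0 : car (0 : ZMod p) 0 = 0 := by simp [car]
  have e1 : f 1 = 1 := by
    have := hm 1 D.one_mem 1 D.one_mem
    rw [one_NRM hχ, c0, pow_zero, one_mul, mul_one] at this
    exact mul_left_cancel₀ (h0 1 D.one_mem).ne' (this.trans (mul_one _).symm)
  have e2 : ∀ g ∈ D, χ g = 0 → f g = 1 := fun g hg e => by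
    have h2 : ∀ n : ℕ, χ (g ^ n) = 0 ∧ f (g ^ n) = f g ^ n := fun n => by
      induction n with
      | zero => exact ⟨by rw [pow_zero, one_NRM hχ], by simpa using e1⟩
      | succ n ih =>
        have := hm _ (D.pow_mem hg n) _ hg
        rw [ih.1, e, c0, pow_zero, one_mul, ih.2] at this
        exact ⟨by rw [pow_succ, hχ _ (D.pow_mem hg n) _ hg, ih.1, e, add_zero],
          by rw [pow_succ, ← this, pow_succ]⟩
    have h3 := hc g hg
    rw [e1, (h2 M).2] at h3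
    exact (pow_eq_one_iff_of_nonneg (h0 g hg).le hM).1 h3
  have e3 : ∀ i, i < p → f t ^ (i + 1) = A ^ ((i + 1) / p) * f (t ^ (i + 1)) := fun i hi => by
    induction i with
    | zero => rw [zero_add, Nat.div_eq_of_lt hp.out.one_lt, pow_zero, one_mul, pow_one, pow_one]
    | succ i ih =>
      have h2 := ih (by omega)
      have h3 := hm _ (D.pow_mem ht (i + 1)) _ ht
      rw [Nat.div_eq_of_lt hi, pow_zero, one_mul] at h2
      rw [pow_NRM hχ ht h1, h1, car, ZMod.val_cast_of_lt hi, ZMod.val_one, ← h2, ← pow_succ,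
        ← pow_succ] at h3
      exact h3
  have e4 := e3 (p - 1) (Nat.sub_lt hp.out.pos one_pos)
  rw [Nat.sub_add_cancel hp.out.one_le, Nat.div_self hp.out.pos, pow_one,
    e2 _ (D.pow_mem ht p) (by rw [pow_NRM hχ ht h1, ZMod.natCast_self]), mul_one] at e4
  exact e4.symm

theorem coc_WTB1 {H : Subgroup GQ} {c : GQ → GQ → Qb} {β : GQ → Qb} (h0 : ∀ g ∈ H, β g ≠ 0)
    (hb : Bd H c β) : Coc H c := by
  intro g hg h hh j hj
  have e1 := hb g hg h hh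
  have e2 := hb _ (H.mul_mem hg hh) j hj
  have e3 := congrArg g (hb h hh j hj)
  have e4 := hb g hg _ (H.mul_mem hh hj)
  rw [map_mul, map_mul] at e3
  rw [AlgEquiv.mul_apply, mul_assoc g h j] at e2
  have a1 := h0 _ (H.mul_mem hg (H.mul_mem hh hj))
  have a2 := h0 _ (H.mul_mem hg hh)
  have a3 : g (β (h * j)) ≠ 0 := (map_ne_zero g).2 (h0 _ (H.mul_mem hh hj))
  refine mul_right_cancel₀ (mul_ne_zero a1 (mul_ne_zero a2 a3)) ?_
  linear_combination (-(c g h * β (g * h) * g (β (h * j)))) * e2 -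
    (β (g * h) * g (β (h * j)) * g (h (β j))) * e1 + (β g * β (g * h) * g (β (h * j))) * e3 +
    (g (c h j) * β (g * h) * g (β (h * j))) * e4

theorem TB1_pf (hSB : SB_st) (hZPL : ZPL_st) (hUNR : UNR_st) (hINF : INF_st) (hL2 : L2_st)
    (hHNQ : HNQ_st) : TB1_st := by
  intro p hp ζ U N H H' κ K B c χ s n p2 hζ hZ hB hF hN hNH hU hn hO hfix hS hc hi hcp hcob
  obtain ⟨-, z1, z2, z3, -, z5⟩ := hZPL p U κ K hZ
  have hHH := (hSB p H H' χ s hS).1
  have hgen := (hSB p H H' χ s hS).2.2.2.2.2.2.2.1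
  have hH : IsOpen (H : Set GQ) := Subgroup.isOpen_mono hNH hN
  have hLc : Lc H' χ := (hSB p H H' χ s hS).2.2.2.2.2.2.2.2.2.2.2.2.2.2.2.2.1 hH
  -- a subgroup is either inside `H` or has an element with character value one
  have alt : ∀ D : Subgroup GQ, D ⊓ H' ≤ H ∨ ∃ t ∈ D ⊓ H', χ t = 1 := fun D => by
    by_cases h : D ⊓ H' ≤ H
    · exact Or.inl h
    · obtain ⟨g, hg, hg'⟩ := SetLike.not_le_iff_exists.1 h
      obtain ⟨i, hi⟩ := hgen g hg.2 hg'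
      exact Or.inr ⟨_, pow_mem hg i, hi⟩
  have step : ∀ (D : Subgroup GQ) t, t ∈ D ⊓ H' → χ t = 1 → Step p (H ⊓ D) (H' ⊓ D) χ t :=
    fun D t ht h1 => ⟨hS.add.mono inf_le_left, fun g => by
      simp only [Subgroup.mem_inf, hS.ker g]; tauto, ⟨ht.2, ht.1⟩, h1⟩
  rcases alt (K n) with h | ⟨s1, hs1, hs1'⟩
  · exact ⟨n, hcob.mono fun g hg => ⟨h ⟨hg.2, hg.1⟩, hg.2⟩⟩
  have S1 := step _ _ hs1 hs1'
  obtain ⟨N0, β, hN0, hβ, hb⟩ := hcob
  obtain ⟨N2, hN2, hN2'⟩ := exists_ON ((hN.inter (hZ.opn n)).mem_nhds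
    ⟨N.one_mem, (K n).one_mem⟩)
  have l1 : N0 ⊓ N2 ≤ N := fun g hg => (hN2' g hg.2).1
  have l2 : N0 ⊓ N2 ≤ K n := fun g hg => (hN2' g hg.2).2
  have hN1 := hN0.inf hN2
  obtain ⟨a, b0, a0, ha, hb0, hb0'⟩ := R.CYC_ok p (N0 ⊓ N2) (H ⊓ K n) (H' ⊓ K n) χ s1 c β
    hp.out.two_le hN1 (le_inf (l1.trans hNH) l2) S1.add S1.ker S1.mem S1.one
    (hc.mono inf_le_left) (hi.mono l1 inf_le_left) (hβ.mono inf_le_left le_rfl) hb
  have hχN : Cst N H' χ := fun g hg h hh e => by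
    have e1 := hS.add g hg (g⁻¹ * h) (hHH (hNH e))
    rw [mul_inv_cancel_left, ((hS.ker _).1 (hNH e)).2, add_zero] at e1
    exact e1.symm
  obtain ⟨b1, hb1, hb1'⟩ := hINF (N ⊓ K n) (H' ⊓ K n) _ (inf_le_inf_right _ (hNH.trans hHH))
    (fun g hg x hx => ⟨hn g hg.1 x hx.1, z2 n g (hU hg.1) x hx.2⟩)
    (coc_WTB1 (fun g hg => (hb0.2 g hg).1) hb0')
    ⟨fun g hg h hh j hj e => by
        simp only [hi.1 g hg.1 h hh.1 j hj.1 e.1, hχN h hh.1 j hj.1 e.1],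
      fun g hg h hh j hj e => by
        simp only [hi.2.1 g hg.1 h hh.1 j hj.1 e.1, hχN h hh.1 j hj.1 e.1],
      fun g hg h hh => ⟨mul_ne_zero (hi.2.2 g hg.1 h hh.1).1 (pow_ne_zero _ a0), fun x hx => by
        rw [map_mul, map_pow, (hi.2.2 g hg.1 h hh.1).2 x hx.1, ha x ⟨hHH (hNH hx.1), hx.2⟩]⟩⟩
    ⟨_, b0, hN1, hb0, hb0'⟩
  obtain ⟨e, he⟩ := hF
  have := hN1.1
  have := hN1.finite
  have M0 : (N0 ⊓ N2).index ≠ 0 := Subgroup.index_ne_zero_of_finite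
  have hM : ∀ g : GQ, g ^ (N0 ⊓ N2).index ∈ N0 ⊓ N2 := Subgroup.pow_index_mem _
  generalize (N0 ⊓ N2).index = M at M0 hM
  have k1 : K (max n (e + M)) ≤ K n := z1 (le_max_left _ _)
  have k2 : H' ⊓ K (max n (e + M)) ≤ H' ⊓ K n := inf_le_inf_left _ k1
  refine ⟨max n (e + M), ?_⟩
  rcases alt (K (max n (e + M))) with h | ⟨s2, hs2, hs2'⟩
  · exact Cob.mono ⟨N0, β, hN0, hβ, hb⟩ fun g hg => ⟨h ⟨hg.2, hg.1⟩, k1 hg.2⟩
  have S2 := step _ _ hs2 hs2'
  obtain ⟨μ, μ0, hμ, hμa⟩ := hHNQ p ζ a _ _ χ s2 p2 hζ (hH.inter (hZ.opn _)) S2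
    (fun g hg => hfix g hg.1) a0 (fun g hg => ha g (k2 hg)) fun l _ γ t ht h1 => by
      by_cases hv : nv l γ ∈ B
      · left
        obtain ⟨g, hg, hg'⟩ := he l γ hv
        have hD : Loc l γ (Dec (nv l γ) ⊓ (H' ⊓ K n)) := ⟨inf_le_left, _, hN1,
          inf_le_inf_left _ (le_inf (l1.trans (hNH.trans hHH)) l2)⟩
        have ex : ∃ r, ¬ Dec (nv l γ) ⊓ (H' ⊓ K n) ≤ K r := ⟨e + M, fun h => hg' (z5 e M M0 g hg.2
          (h ⟨pow_mem hg.1 M, hHH (hNH (l1 (hM g))), l2 (hM g)⟩))⟩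
        have r1 := Nat.find_spec ex
        have r2 : Nat.find ex ≤ e + M := Nat.find_min' ex fun h => hg' (z5 e M M0 g hg.2
          (h ⟨pow_mem hg.1 M, hHH (hNH (l1 (hM g))), l2 (hM g)⟩))
        obtain ⟨r, hr⟩ : ∃ r, Nat.find ex = r + 1 := Nat.exists_eq_succ_of_ne_zero fun h => r1
          (h ▸ inf_le_right.trans (inf_le_right.trans (z1 (Nat.zero_le n))))
        have r3 : Dec (nv l γ) ⊓ (H' ⊓ K n) ≤ K r := not_not.1 (Nat.find_min ex (by omega))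
        rw [hr] at r1 r2
        obtain ⟨χ', s', S3⟩ := z3 r
        obtain ⟨u, hu, hu'⟩ := SetLike.not_le_iff_exists.1 r1
        obtain ⟨i, hi'⟩ := (hSB p _ _ χ' s' S3).2.2.2.2.2.2.2.1 u (r3 hu) hu'
        have k3 : K (max n (e + M)) ≤ K (r + 1) := z1 (r2.trans (le_max_right _ _))
        obtain ⟨y, y0, hy, hya⟩ := hL2 p l γ ζ a _ (Dec (nv l γ) ⊓ (H' ⊓ K n) ⊓ K (r + 1))
          (Dec (nv l γ) ⊓ (H' ⊓ K n) ⊓ K (r + 1) ⊓ H) χ χ' t (u ^ i) p2 hζ hD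
          (fun g hg => hfix g hg.2.1) (hS.add.mono fun g hg => hg.2.1)
          (hLc.mono fun g hg => hg.2.1)
          (((hSB p _ _ χ' s' S3).2.2.2.2.2.2.2.2.2.2.2.2.2.2.2.2.1 (hZ.opn _)).mono r3)
          ⟨S3.add.mono r3, fun g => ⟨fun h => ⟨h.1, ((S3.ker g).1 h.2).2⟩,
            fun h => ⟨h.1, (S3.ker g).2 ⟨r3 h.1, h.2⟩⟩⟩, pow_mem hu i, hi'⟩
          ⟨hS.add.mono fun g hg => hg.1.2.1, fun g => ⟨fun h => ⟨h.1, ((hS.ker g).1 h.2).2⟩,
            fun h => ⟨h.1, (hS.ker g).2 ⟨h.1.1.2.1, h.2⟩⟩⟩, ⟨⟨ht.1, k2 ht.2⟩, k3 ht.2.2⟩, h1⟩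
          a0 fun g hg => ha g hg.2
        exact ⟨y, y0, fun g hg => hy g ⟨⟨⟨hg.1, hHH hg.2.1, k1 hg.2.2⟩, k3 hg.2.2⟩, hg.2.1⟩, hya⟩
      · right
        refine ⟨fun g hg => ⟨hNH (hO l γ hv ⟨hg.1, hg.2.1⟩), hg.2.2⟩, b1 t,
          fun g hg => (hb1.2 t (k2 ht.2)).2 g ⟨hO l γ hv ⟨hg.1, hg.2.1⟩, k1 hg.2.2⟩, ?_⟩
        refine val_WTB1 (D := Dec (nv l γ) ⊓ (H' ⊓ K n)) (f := fun g => nv l γ (b1 g))
          (hS.add.mono fun g hg => hg.2.1) ⟨ht.1, k2 ht.2⟩ h1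
          (fun g hg => (nv l γ).pos (hb1.2 g hg.2).1) M0
          (fun g hg => congrArg (nv l γ) (hb1.1 1 (one_mem _) _ (pow_mem hg.2 M) (by
            rw [inv_one, one_mul]
            exact ⟨l1 (hM g), l2 (hM g)⟩)).symm) fun g hg h hh => ?_
        have := congrArg (nv l γ) (hb1' g hg.2 h hh.2)
        rwa [map_mul, map_mul, map_mul, map_pow, hg.1,
          BValA_root hp.out.ne_zero (hcp g hg.2.1 h hh.2.1), one_mul] at this
  obtain ⟨-, hd, -⟩ := (R.NRM_ok p _ _ χ s2 hp.out.two_le S2.add S2.ker S2.mem S2.one).1 μ hμ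
  rw [show ∏ i ∈ range p, (s2 ^ i) μ = a from hμa] at hd
  have c1 := cob_of_lc ((hLc.mono inf_le_left).map fun x => ∏ i ∈ range x.val, (s2 ^ i) μ)
    (fun g _ => prod_ne_zero_iff.2 fun i _ => (_root_.map_ne_zero _).2 μ0) hd
  refine ((Cob.mono ⟨_, b0, hN1, hb0, hb0'⟩ k2).mul c1.inv).congr fun g _ h _ => ?_
  rw [mul_inv_cancel_right₀ (pow_ne_zero _ a0)]

end Pool.Agent.MP_3e91a1_nt

end

section

set_option autoImplicit false

open NumberField IsDedekindDomain Module Filter Topology Finset Polynomial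
open scoped Classical

namespace Pool.Agent.MP_3e91a1_nt

open MP_e23604_nt MP_e23604_nt.B MP_e23604_nt.R MP_f3cd89_nt

theorem pw_WASC {ζ : Qb} {g : GQ} {k : ℕ} (h : g ζ = ζ ^ k) (i : ℕ) :
    (g ^ i) ζ = ζ ^ k ^ i := by
  induction i with
  | zero => simp
  | succ i ih => rw [pow_succ', AlgEquiv.mul_apply, ih, map_pow, h, ← pow_mul, pow_succ']

theorem mod_WASC {p : ℕ} {ζ : Qb} (hζ : IsPrimitiveRoot ζ p) {a b : ℕ}
    (h : (a : ZMod p) = b) : ζ ^ a = ζ ^ b := by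
  rw [pow_eq_pow_mod a hζ.pow_eq_one, pow_eq_pow_mod b hζ.pow_eq_one,
    (ZMod.natCast_eq_natCast_iff' a b p).1 h]

/-- every automorphism acts through a power of the primitive root -/
theorem act_WASC {p : ℕ} [hp : Fact p.Prime] {ζ : Qb} (hζ : IsPrimitiveRoot ζ p) {r : ℕ}
    (hr : IsPrimitiveRoot (r : ZMod p) (p - 1)) (g : GQ) : ∃ i : ℕ, g ζ = ζ ^ r ^ i := by
  have : NeZero (p - 1) := ⟨by have := hp.out.two_le; omega⟩
  obtain ⟨k, -, hk⟩ := hζ.eq_pow_of_pow_eq_one (ξ := g ζ) (by rw [← map_pow, hζ.pow_eq_one, map_one])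
  have h0 : (k : ZMod p) ≠ 0 := fun h0 => by
    have h1 : ζ ^ k = ζ ^ 0 := mod_WASC hζ (by simpa using h0)
    rw [hk, pow_zero, ← map_one g] at h1
    exact hζ.ne_one hp.out.one_lt (g.injective h1)
  obtain ⟨i, -, hi⟩ := hr.eq_pow_of_pow_eq_one (ZMod.pow_card_sub_one_eq_one h0)
  exact ⟨i, by rw [← hk]; exact mod_WASC hζ (by rw [Nat.cast_pow, hi])⟩

theorem stab_WASC {ζ : Qb} {g h : GQ} (e : h ζ = g ζ) : g⁻¹ * h ∈ MulAction.stabilizer GQ ζ := by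
  change g⁻¹ (h ζ) = ζ
  rw [e, ← AlgEquiv.mul_apply, inv_mul_cancel, AlgEquiv.one_apply]

theorem eq_WASC {V : Subgroup GQ} {x : Qb} (hx : Fix V x) {g h : GQ} (e : g⁻¹ * h ∈ V) :
    h x = g x := by
  have := congrArg g (hx _ e)
  rwa [← AlgEquiv.mul_apply, mul_inv_cancel_left] at this

theorem fix_WASC {V U : Subgroup GQ} (h : Nrm V U) {x : Qb} (hx : Fix V x) {g : GQ} (hg : g ∈ U) :
    Fix V (g x) := fun v hv => by
  rw [← AlgEquiv.mul_apply]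
  refine eq_WASC hx ?_
  have := h g⁻¹ (inv_mem hg) v hv
  rwa [inv_inv, mul_assoc] at this

theorem loc_WASC (l : ℕ) [Fact l.Prime] (γ : GQ) {U : Subgroup GQ} (h : IsOpen (U : Set GQ)) :
    Loc l γ (Dec (nv l γ) ⊓ U) := by
  obtain ⟨N, h1, h2⟩ := exists_ON (h.mem_nhds (one_mem U))
  exact ⟨inf_le_left, N, h1, inf_le_inf_left _ h2⟩

theorem sum_WASC {p : ℕ} [Fact p.Prime] {e : ZMod p} (h0 : e ≠ 0) (h1 : e ≠ 1) :
    p ∣ ∑ i ∈ range (p - 1), ((e ^ i)⁻¹).val := by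
  rw [← ZMod.natCast_eq_zero_iff]
  push_cast
  simp only [ZMod.natCast_val, ZMod.cast_id', id, ← inv_pow]
  have := mul_geom_sum e⁻¹ (p - 1)
  rw [ZMod.pow_card_sub_one_eq_one (inv_ne_zero h0), sub_self] at this
  exact (mul_eq_zero.1 this).resolve_left (sub_ne_zero.2 fun c => h1 (inv_eq_one.1 c))

/-- the projected element is a norm -/
theorem isn_WASC (hSB : SB_st) {p : ℕ} [Fact p.Prime] {H H' : Subgroup GQ} {χ : GQ → ZMod p}
    {t : GQ} (hs : Step p H H' χ t) {δ : GQ} {a : Qb} (ha : a ≠ 0) (hf : Fix H' a)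
    (h : ∀ i : ℕ, IsN p H t (δ ((δ ^ i) a) / (δ ^ i) a)) {n : ℕ → ℕ} {m : ℕ}
    (hn : p ∣ ∑ i ∈ range m, n i) : IsN p H t (∏ i ∈ range m, (δ ^ i) a ^ n i) := by
  obtain ⟨-, -, -, -, -, -, -, -, -, -, -, -, h1, h2, h3, -⟩ := hSB p H H' χ t hs
  have h4 : IsN p H t 1 := ⟨1, one_ne_zero, fun g _ => map_one g, by simp [Nm]⟩
  have h5 : ∀ i : ℕ, IsN p H t ((δ ^ i) a / a) := fun i => by
    induction i with
    | zero => rwa [pow_zero, AlgEquiv.one_apply, div_self ha]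
    | succ i ih =>
      have := (h1 _ _ (h i) ih).1
      rwa [div_mul_div_cancel₀ ((_root_.map_ne_zero _).2 ha), ← AlgEquiv.mul_apply, ← pow_succ'] at this
  obtain ⟨k, hk⟩ := hn
  have e : ∏ i ∈ range m, (δ ^ i) a ^ n i = (∏ i ∈ range m, ((δ ^ i) a / a) ^ n i) * (a ^ k) ^ p := by
    rw [← pow_mul, mul_comm k, ← hk, ← prod_pow_eq_pow_sum, ← prod_mul_distrib]
    exact prod_congr rfl fun i _ => by rw [← mul_pow, div_mul_cancel₀ _ ha]
  rw [e]
  exact (h1 _ _ (prod_induction _ (IsN p H t) (fun a b c d => (h1 a b c d).1) h4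
    fun i _ => (h2 _ (h5 i)).2.2 _)
    (h3 _ (pow_ne_zero _ ha) fun g hg => by rw [map_pow, hf g hg]).1).1

theorem ASC_pf (hASN : ASN_st) (hHNQ : HNQ_st) (hLD : LD_st) (hPLC : PLC_st) (hRES : RES_st) (hTWR : TWR_st) (hSB : SB_st) : ASC_st := by
  intro p hp ζ r e U U' χ s h2 hζ hr e0 e1 hU' hs hun hG
  obtain ⟨hle, -, -, hpw, -, hχ, -, -, -, -, -, -, -, -, -, hsub, hlc, -⟩ := hSB p U' U χ s hs
  have hp1 : ((p - 1 : ℕ) : ZMod p) = -1 := by
    rw [Nat.cast_sub hp.out.one_le, ZMod.natCast_self, Nat.cast_one, zero_sub]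
  refine ⟨hU', fun γ => ?_, fun δ hδ hδζ F _ δ' hF hind => ?_⟩
  · obtain ⟨δ, h1, h3⟩ := hG.dec γ
    exact ⟨δ ^ p, ⟨pow_mem h1.1 _, hpw δ h1.2⟩, by
      rw [pw_WASC h3]
      exact mod_WASC hζ (by rw [Nat.cast_pow, ZMod.pow_card])⟩
  obtain ⟨S, hS⟩ : ∃ S, S = MulAction.stabilizer GQ ζ := ⟨_, rfl⟩
  have hcg := hG.cg δ (hle hδ) hδζ
  rw [← hS] at hF hcg
  have hS1 : ∀ {g h : GQ}, h ζ = g ζ → g⁻¹ * h ∈ S := fun e => hS ▸ stab_WASC e
  have hS2 : ∀ g ∈ S, g ζ = ζ := fun g hg => by rwa [hS] at hg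
  have hS3 : ∀ g : GQ, g ^ (p - 1) ∈ S := fun g => by
    obtain ⟨i, hi⟩ := act_WASC hζ hr g
    rw [hS]
    change (g ^ (p - 1)) ζ = ζ
    rw [pw_WASC hi, mod_WASC hζ (b := 1) (by
      rw [← pow_mul, mul_comm, pow_mul, Nat.cast_pow, Nat.cast_pow, hr.pow_eq_one, one_pow,
        Nat.cast_one]), pow_one]
  have hS4 : ∀ g h : GQ, g (h ζ) = h (g ζ) := fun g h => by
    obtain ⟨i, hi⟩ := act_WASC hζ hr g
    obtain ⟨j, hj⟩ := act_WASC hζ hr h
    rw [hi, hj, map_pow, map_pow, hi, hj, ← pow_mul, ← pow_mul, mul_comm]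
  have hS5 : ∀ g : GQ, ∀ h ∈ S, g * h * g⁻¹ ∈ S := fun g h hh => by
    have := hS1 (g := g⁻¹) (h := h * g⁻¹) (by rw [AlgEquiv.mul_apply, hS4, hS2 h hh])
    rwa [inv_inv, ← mul_assoc] at this
  have hSo : IsOpen (S : Set GQ) := hS ▸ stabilizer_isOpen_of_isIntegral (K := ℚ) ζ
  have hVo : IsOpen ((U ⊓ S : Subgroup GQ) : Set GQ) := hG.opn.inter hSo
  have hVo' : IsOpen ((U' ⊓ S : Subgroup GQ) : Set GQ) := hU'.inter hSo
  have hVU : Nrm (U ⊓ S) U := fun g hg n hn =>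
    ⟨U.mul_mem (U.mul_mem hg hn.1) (U.inv_mem hg), hS5 g n hn.2⟩
  have hker : ∀ g ∈ U, ∀ h ∈ U, χ h = χ g → g⁻¹ * h ∈ U' := fun g hg h hh e =>
    (hs.ker _).2 ⟨mul_mem (inv_mem hg) hh, by
      rw [hs.add _ (inv_mem hg) _ hh, (hχ g hg).1, e, neg_add_cancel]⟩
  obtain ⟨s₁, hst⟩ : ∃ s₁, Step p (U' ⊓ S) (U ⊓ S) χ s₁ := by
    refine ⟨(s ^ (p - 1))⁻¹, ?_⟩
    rw [inf_comm U', inf_comm U]
    refine hsub S _ (inv_mem ⟨hS3 s, pow_mem hs.mem _⟩) ?_
    rw [(hχ _ (pow_mem hs.mem _)).1, (hχ s hs.mem).2, hs.one, hp1, mul_one, neg_neg]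
  obtain ⟨gle, gnr, gns, -, gidx, -, -, -, gfix, -, -, -, -, -, -, gsub, -⟩ := hSB p _ _ χ s₁ hst
  obtain ⟨L, _, hL, hL2, hL3, -⟩ := hRES _ hVo
  obtain ⟨F', _, hF', hF2, -, hF4⟩ := hRES _ hVo'
  obtain rfl : F = F' := IntermediateField.ext fun x => (hF x).trans (hF' x).symm
  obtain ⟨δ₀, hδ₀⟩ := hL3 δ fun h => ⟨hVU δ (hle hδ) h, fun c => by
    have := hVU δ⁻¹ (inv_mem (hle hδ)) _ c
    rwa [inv_inv, ← mul_assoc, ← mul_assoc, inv_mul_cancel, one_mul, inv_mul_cancel_right] at this⟩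
  obtain ⟨_, halg, _, hrk, -, hσ, hτ⟩ := hTWR _ _ L F hVo' gle gnr hL hF
  obtain ⟨σ, hσ⟩ := hσ s₁ hst.mem
  have hFx : ∀ x : F, Fix (U' ⊓ S) (x : Qb) := fun x => (hF x).1 x.2
  have hδp : ∀ (i : ℕ) (x : F), ((δ' ^ i) x : Qb) = (δ ^ i) x := fun i x => by
    induction i with
    | zero => rfl
    | succ i ih => rw [pow_succ', pow_succ', AlgEquiv.mul_apply, AlgEquiv.mul_apply, hind, ih]
  have hσp : ∀ (i : ℕ) (x : F), ((σ ^ i) x : Qb) = (s₁ ^ i) x := fun i x => by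
    induction i with
    | zero => rfl
    | succ i ih => rw [pow_succ', pow_succ', AlgEquiv.mul_apply, AlgEquiv.mul_apply, hσ, ih]
  refine hASN p L F σ δ₀ δ' e (hrk.trans gidx) (fun c => gns (hF2 _ fun x hx => ?_))
    (fun x => Subtype.ext ?_) (fun x => Subtype.ext ?_) (AlgEquiv.ext fun x => Subtype.ext ?_) e0
    (fun w hw => eq_bot_iff.2 fun τ h => ?_) (fun a₀ a ha₀ hσa ha hord => ?_) (hcg L δ₀ hL hδ₀)
  · rw [← hσ ⟨x, hx⟩, c]
    rfl
  · rw [hind, halg, halg, hδ₀]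
  · rw [hind, hσ, hσ, hind, ← AlgEquiv.mul_apply, ← AlgEquiv.mul_apply]
    refine eq_WASC (hFx x) ⟨hker _ (mul_mem hst.mem.1 (hle hδ)) _ (mul_mem (hle hδ) hst.mem.1) ?_,
      hS1 (hS4 _ _)⟩
    rw [hs.add _ hst.mem.1 _ (hle hδ), hs.add _ (hle hδ) _ hst.mem.1, add_comm]
  · rw [hδp]
    exact hFx x _ ⟨pow_mem hδ _, hS3 δ⟩
  · obtain ⟨τ', hτ'⟩ := hτ τ
    obtain ⟨l, _, γ, t, hpl⟩ := DIC_ok.1 F w
    obtain ⟨-, -, c1, c2, -⟩ := (hPLC F).2 w l γ t hpl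
    obtain ⟨g, hg⟩ := hF4 τ'
    obtain ⟨j, j1, j2⟩ := (c2 g τ' hg).2.2.2 fun x => by
      have e : τ' • x = τ • x := RingOfIntegers.ext (hτ' x)
      rw [e]
      exact h x
    have j3 : j ∈ U ⊓ S := hL2 j fun x hx => by
      have := j2 (algebraMap L F ⟨x, hx⟩)
      rw [hτ', τ.commutes, halg] at this
      exact this.symm
    have j4 : j ∈ U' := hun l γ (fun c => hw ((c1 p hp.out).2 c.symm)) ⟨j1, j3.1⟩
    refine Subgroup.mem_bot.2 (AlgEquiv.ext fun x => Subtype.ext ?_)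
    rw [← hτ', j2]
    exact hFx x j ⟨j4, j3.2⟩
  · have a0 : (a₀ : Qb) ≠ 0 := fun c => ha₀ (Subtype.ext c)
    have f0 : Fix (U ⊓ S) (a₀ : Qb) := gfix _ (hFx a₀) (by rw [← hσ, hσa])
    have fi : ∀ i : ℕ, Fix (U ⊓ S) ((δ ^ i) (a₀ : Qb)) := fun i =>
      fix_WASC hVU f0 (pow_mem (hle hδ) i)
    have ea : (a : Qb) = ∏ i ∈ range (p - 1), (δ ^ i) (a₀ : Qb) ^ ((e ^ i)⁻¹).val := by
      rw [ha]
      push_cast
      simp only [hδp]
    have a1 : (a : Qb) ≠ 0 := by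
      rw [ea]
      exact prod_ne_zero_iff.2 fun i _ => pow_ne_zero _ ((_root_.map_ne_zero _).2 a0)
    obtain ⟨y, -, y1, y2⟩ := hHNQ p ζ a _ _ χ s₁ h2 hζ hVo' hst (fun g hg => hS2 g hg.2) a1
      (fun g hg => by
        rw [ea, map_prod]
        exact prod_congr rfl fun i _ => by rw [map_pow, fi i g hg]) fun l _ γ t ht ht1 => by
      by_cases hl : l = p
      · subst hl
        obtain ⟨d, d1, d2⟩ := hG.dec γ
        have st := gsub _ t ht ht1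
        refine Or.inl (ea ▸ isn_WASC hSB st a0 (fun g hg => f0 g hg.2) (fun i => ?_)
          (sum_WASC e0 e1))
        rw [← eq_WASC (fi i) (g := δ) (h := d)
          ⟨U.mul_mem (U.inv_mem (hle hδ)) d1.2, hS1 (d2.trans hδζ.symm)⟩]
        refine hLD l l γ _ (Dec (nv l γ) ⊓ U) _ _ χ t d (l - 1) h2 (loc_WASC l γ hG.opn)
          (loc_WASC l γ hVo) (inf_le_inf_left _ inf_le_left)
          (fun g hg n hn => ⟨(Dec _).mul_mem ((Dec _).mul_mem hg.1 hn.1) ((Dec _).inv_mem hg.1),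
            hVU g hg.2 n hn.2⟩)
          (hs.add.mono inf_le_right) ((hlc hU').mono inf_le_right) st d1
          (Nat.not_dvd_of_pos_of_lt (by have := hp.out.two_le; omega)
            (by have := hp.out.two_le; omega))
          ⟨pow_mem d1.1 _, pow_mem d1.2 _, hS3 d⟩ (fun g hg => ?_) ((_root_.map_ne_zero _).2 a0)
          fun g hg => fi i g hg.2
        obtain ⟨k, hk⟩ := act_WASC hζ hr g
        have := mul_mem (inv_mem (pow_mem d1 k)) hg
        exact ⟨k, this.1, this.2, hS1 (hk.trans (pw_WASC d2 k).symm)⟩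
      · have hi : Ine l γ ⊓ (U ⊓ S) ≤ U' ⊓ S := fun g hg => ⟨hun l γ hl ⟨hg.1, hg.2.1⟩, hg.2.2⟩
        obtain ⟨w, u, hpl⟩ := (hPLC F).1 l γ
        obtain ⟨-, -, c1, c2, -⟩ := (hPLC F).2 w l γ u hpl
        obtain ⟨σ', hσ'⟩ := hτ σ
        have c3 := (c2 t σ' fun x => by
          rw [hσ', hσ]
          exact (eq_WASC (hFx x) ⟨hker _ hst.mem.1 _ ht.2.1 (ht1.trans hst.one.symm),
            S.mul_mem (S.inv_mem hst.mem.2) ht.2.2⟩).symm).2.1 ht.1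
        have c4 : gact σ w = gact σ' w :=
          congrArg (act · w) (RingEquiv.ext fun x => (hσ' x).symm)
        obtain ⟨k, hk⟩ := hord w (fun c => hl ((c1 p hp.out).1 c).symm) (c4.trans c3)
        obtain ⟨π, π0, π1⟩ := exists_ord_eq_one w
        have π2 : (π : F) ^ k ≠ 0 := zpow_ne_zero _ (by simpa using π0)
        refine Or.inr ⟨hi, ((π : F) ^ k : F), fun g hg => hFx _ g (hi hg), ?_⟩
        rw [hpl.2 _ π2, hpl.2 a fun c => a1 (by rw [c]; rfl), hk, ord_zpow, π1, mul_one,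
          ← zpow_natCast, ← zpow_mul, neg_mul, mul_comm]
    refine ⟨⟨y, (hF y).2 y1⟩, Subtype.ext ?_⟩
    rw [← y2, Nm, Nm]
    push_cast
    simp only [hσp]

end Pool.Agent.MP_3e91a1_nt

end

section

set_option autoImplicit false

open NumberField IsDedekindDomain Module Filter Topology Finset Polynomial
open scoped Classical

namespace Pool.Agent.MP_3e91a1_nt

open MP_e23604_nt MP_e23604_nt.B MP_e23604_nt.R MP_f3cd89_nt

section

open AddSubgroup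

theorem core_WAMB {A I : Type} [AddCommGroup A] [AddCommGroup I] (s : ℕ) (hs : 0 < s) (D N : A →+ A) (D' N' : I →+ I)
    (j : A →+ I) (hjD : ∀ a, j (D a) = D' (j a)) (hjN : ∀ a, j (N a) = N' (j a))
    (hDN : ∀ x, D (N x) = 0) (hND : ∀ x, N (D x) = 0)
    (hDN' : ∀ x, D' (N' x) = 0) (hND' : ∀ x, N' (D' x) = 0) (hP : j.range.index ≠ 0)
    (h90 : ∀ a, N a = 0 → ∃ b, a = D b)
    (hi : (N'.range ⊔ D.ker.map j).relIndex D'.ker ≤ s)
    (h0 : (j.ker.map N).relIndex (j.ker ⊓ D.ker) ≠ 0)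
    (h1 : (j.ker.map D).relIndex (j.ker ⊓ N.ker) = s * (j.ker.map N).relIndex (j.ker ⊓ D.ker))
    (a : A) (e : I) (ha : D a = 0) (he : j a = N' e) : ∃ b, a = N b := by
  have hPD : j.range ≤ j.range.comap D' := by
    rintro _ ⟨a, rfl⟩; exact ⟨D a, hjD a⟩
  have hNK : N'.range ≤ D'.ker := by rintro _ ⟨x, rfl⟩; exact hDN' x
  have hFP : D.ker.map j ≤ j.range ⊓ D'.ker := by
    rintro _ ⟨x, hx, rfl⟩
    refine ⟨⟨x, rfl⟩, ?_⟩
    show D' (j x) = 0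
    rw [← hjD, show D x = 0 from hx, map_zero]
  have hK : D'.range ⊔ j.range ≤ (D.ker.map j).comap N' := by
    refine sup_le ?_ ?_
    · rintro _ ⟨x, rfl⟩
      show N' (D' x) ∈ D.ker.map j
      rw [hND']; exact zero_mem _
    · rintro _ ⟨x, rfl⟩
      exact ⟨N x, hDN x, hjN x⟩
  have hC : D'.ker ⊔ j.range ≤ j.range.comap D' := sup_le (fun x hx => by
    show D' x ∈ j.range
    rw [show D' x = 0 from hx]; exact zero_mem _) hPD
  -- invariants and coinvariants of the class group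
  have a1 := relIndex_mul_index hPD
  have a2 := relIndex_mul_index (le_sup_right : j.range ≤ D'.range ⊔ j.range)
  rw [index_comap] at a1
  rw [relIndex_sup_right] at a2
  have a3 : j.range.relIndex (j.range.comap D') = (D'.range ⊔ j.range).index := by
    have : j.range.relIndex D'.range ≠ 0 := fun h => hP (by rw [← a2, h, zero_mul])
    exact Nat.eq_of_mul_eq_mul_left (Nat.pos_of_ne_zero this) (by rw [a2, mul_comm, a1])
  have a4 : (D'.range ⊔ j.range).index ≠ 0 := fun h => hP (by rw [← a2, h, mul_zero])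
  -- the norm map on coinvariants
  have b1 := relIndex_mul_index hK
  rw [index_comap] at b1
  have b2 := relIndex_mul_relIndex (D.ker.map j) (N'.range ⊔ D.ker.map j) D'.ker le_sup_right
    (sup_le hNK (hFP.trans inf_le_right))
  rw [relIndex_sup_right] at b2
  -- invariant classes
  have c1 := relIndex_mul_relIndex j.range (D'.ker ⊔ j.range) _ le_sup_right hC
  rw [relIndex_sup_right, a3, ← b1] at c1
  have c2 := relIndex_mul_relIndex (D.ker.map j) (j.range ⊓ D'.ker) D'.ker hFP inf_le_right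
  rw [inf_relIndex_right, ← b2] at c2
  have hE : j.ker.map N ≤ j.ker ⊓ D.ker ⊓ N.range := by
    rintro _ ⟨x, hx, rfl⟩
    refine ⟨⟨?_, hDN x⟩, x, rfl⟩
    show j (N x) = 0
    rw [hjN, show j x = 0 from hx, map_zero]
  have c3 := relIndex_mul_relIndex (j.ker.map N) (j.ker ⊓ D.ker ⊓ N.range) (j.ker ⊓ D.ker) hE
    inf_le_left
  have u0 : (j.ker.map N).relIndex (j.ker ⊓ D.ker ⊓ N.range) ≠ 0 := fun h => h0 (by
    rw [← c3, h, zero_mul])
  let Z : AddSubgroup (I × A) :=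
    (D'.comp (AddMonoidHom.fst I A) - j.comp (AddMonoidHom.snd I A)).ker
  have mZ : ∀ z : I × A, z ∈ Z ↔ D' z.1 = j z.2 := fun z => by
    rw [AddMonoidHom.mem_ker]; simp [sub_eq_zero]
  have c4 := (MP_9b2bac_nt.Tw.corr_Amb ((AddMonoidHom.fst I A).comp Z.subtype)
    (N.comp ((AddMonoidHom.snd I A).comp Z.subtype)) (D'.ker ⊔ j.range) (j.range.comap D')
    (j.ker.map N) (j.ker ⊓ D.ker ⊓ N.range)
    (by rintro x ⟨y, hy⟩; exact ⟨⟨(x, y), (mZ _).2 hy.symm⟩, rfl⟩)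
    (by
      rintro _ ⟨⟨⟨x, y⟩, hz⟩, rfl⟩
      have hz' : D' x = j y := (mZ _).1 hz
      refine ⟨⟨?_, hDN y⟩, y, rfl⟩
      show j (N y) = 0
      rw [hjN, ← hz', hND'])
    (by
      rintro ⟨⟨x, y⟩, hz⟩ ⟨ε, hε, hey⟩
      have hz' : D' x = j y := (mZ _).1 hz
      have hey' : N ε = N y := hey
      obtain ⟨b, hb⟩ := h90 (y - ε) (by rw [map_sub, hey', sub_self])
      show x ∈ D'.ker ⊔ j.range
      rw [show x = (x - j b) + j b by abel]
      refine add_mem (mem_sup_left ?_) (mem_sup_right ⟨b, rfl⟩)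
      show D' (x - j b) = 0
      rw [map_sub, hz', ← hjD, ← hb, map_sub, show j ε = 0 from hε]; simp) u0).2
  let Y : AddSubgroup A := (j.comp D).ker
  have o0 : (j.ker.map D).relIndex (j.ker ⊓ N.ker) ≠ 0 := by
    rw [h1]; exact mul_ne_zero hs.ne' h0
  have t0 := (MP_9b2bac_nt.Tw.corr_Amb (j.comp Y.subtype) (D.comp Y.subtype) (D.ker.map j) (j.range ⊓ D'.ker)
    (j.ker.map D) (j.ker ⊓ N.ker)
    (by rintro _ ⟨⟨x, rfl⟩, hx⟩; exact ⟨⟨x, (hjD x).trans hx⟩, rfl⟩)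
    (by rintro _ ⟨⟨x, hx⟩, rfl⟩; exact ⟨hx, hND x⟩)
    (by
      rintro ⟨x, hx⟩ ⟨ε, hε, h⟩
      have h' : D ε = D x := h
      refine ⟨x - ε, ?_, ?_⟩
      · show D (x - ε) = 0
        rw [map_sub, h', sub_self]
      · show j (x - ε) = j x
        rw [map_sub, show j ε = 0 from hε, sub_zero]) o0).1
  have c5 := (MP_9b2bac_nt.Tw.corr_Amb (D.comp Y.subtype) (j.comp Y.subtype) (j.ker.map D) (j.ker ⊓ N.ker)
    (D.ker.map j) (j.range ⊓ D'.ker)
    (by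
      rintro x ⟨hx, hx'⟩
      obtain ⟨b, rfl⟩ := h90 x hx'
      exact ⟨⟨b, hx⟩, rfl⟩)
    (by rintro _ ⟨⟨x, hx⟩, rfl⟩; exact ⟨⟨x, rfl⟩, (hjD x).symm.trans hx⟩)
    (by
      rintro ⟨x, hx⟩ ⟨γ, hγ, h⟩
      have h' : j γ = j x := h
      refine ⟨x - γ, ?_, ?_⟩
      · show j (x - γ) = 0
        rw [map_sub, h', sub_self]
      · show D (x - γ) = D x
        rw [map_sub, show D γ = 0 from hγ, sub_zero]) t0).2
  rw [h1, ← c3] at c5
  rw [← b1] at a4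
  rw [← c3] at h0
  have fin : (D'.range ⊔ j.range).relIndex ((D.ker.map j).comap N') = 1 ∧
      (j.ker ⊓ D.ker ⊓ N.range).relIndex (j.ker ⊓ D.ker) = 1 := by
    generalize (D'.range ⊔ j.range).relIndex ((D.ker.map j).comap N') = k at *
    generalize (j.ker ⊓ D.ker ⊓ N.range).relIndex (j.ker ⊓ D.ker) = u' at *
    generalize (j.ker.map N).relIndex (j.ker ⊓ D.ker ⊓ N.range) = u at *
    generalize (D.ker.map j).relIndex N'.range = m at *
    generalize (N'.range ⊔ D.ker.map j).relIndex D'.ker = i at *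
    generalize (D.ker.map j).relIndex (j.range ⊓ D'.ker) = t at *
    generalize j.range.relIndex D'.ker = n at *
    generalize (D'.ker ⊔ j.range).relIndex (j.range.comap D') = w at *
    have k0 := Nat.pos_of_ne_zero (left_ne_zero_of_mul a4)
    have m0 := Nat.pos_of_ne_zero (right_ne_zero_of_mul a4)
    have v0 := Nat.pos_of_ne_zero (right_ne_zero_of_mul h0)
    have h3 : (s * m) * (u' * k) ≤ (s * m) * 1 :=
      calc (s * m) * (u' * k) = s * u' * (n * w) := by rw [c1]; ring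
        _ ≤ s * u' * (n * u) := by gcongr
        _ = s * (u * u') * n := by ring
        _ ≤ t * n := by gcongr
        _ = m * i := c2
        _ ≤ m * s := by gcongr
        _ = _ := by ring
    have h4 := Nat.le_of_mul_le_mul_left h3 (Nat.mul_pos hs m0)
    constructor <;> nlinarith
  have f1 := relIndex_eq_one.1 fin.1 (show e ∈ (D.ker.map j).comap N' from ⟨a, ha, he⟩)
  obtain ⟨_, ⟨y, rfl⟩, _, ⟨b, rfl⟩, rfl⟩ := mem_sup.1 f1
  obtain ⟨-, c, hc⟩ := relIndex_eq_one.1 fin.2 (show a - N b ∈ j.ker ⊓ D.ker from ⟨by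
    show j (a - N b) = 0
    rw [map_sub, he, map_add, hND', hjN, zero_add, sub_self], by
    show D (a - N b) = 0
    rw [map_sub, ha, hDN, sub_self]⟩)
  exact ⟨b + c, by rw [map_add, hc]; abel⟩

theorem cov_WAMB {I ι : Type} [AddCommGroup I] (W T : AddSubgroup I) (R : Finset ι) (f : ι → I)
    (h : ∀ x ∈ T, ∃ r ∈ R, x - f r ∈ W) : W.relIndex T ≤ R.card := by
  choose g hg hg' using fun x : T => h x.1 x.2
  let φ : (T ⧸ W.addSubgroupOf T) → R := fun q => ⟨g q.out, hg _⟩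
  have hφ : Function.Injective φ := fun q q' hq => by
    have h1 : g q.out = g q'.out := congrArg Subtype.val hq
    rw [← QuotientAddGroup.out_eq' q, ← QuotientAddGroup.out_eq' q',
      QuotientAddGroup.eq_iff_sub_mem, mem_addSubgroupOf]
    have h2 := sub_mem (hg' q.out) (hg' q'.out)
    rwa [h1, sub_sub_sub_cancel_right] at h2
  have h3 := Nat.card_le_card_of_injective φ hφ
  rwa [Nat.card_eq_fintype_card (α := R), Fintype.card_coe] at h3

end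

theorem nm_WAMB {A : Type} [AddCommGroup A] (σ : AddMonoid.End A) (n : ℕ) (x : A) :
    nmH σ n x = ∑ i ∈ range n, (σ ^ i) x := by
  induction n with
  | zero => simp [nmH]
  | succ n ih =>
    rw [sum_range_succ, ← ih, nmH, sum_range_succ]
    rfl

theorem pw_WAMB {A I : Type} [AddCommGroup A] [AddCommGroup I] (σ : AddMonoid.End A)
    (τ : AddMonoid.End I) (j : A →+ I) (hj : ∀ x, j (σ x) = τ (j x)) (i : ℕ) (x : A) :
    j ((σ ^ i) x) = (τ ^ i) (j x) := by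
  induction i with
  | zero => rfl
  | succ i ih =>
    rw [pow_succ', pow_succ']
    change j (σ ((σ ^ i) x)) = τ ((τ ^ i) (j x))
    rw [hj, ih]

theorem jn_WAMB {A I : Type} [AddCommGroup A] [AddCommGroup I] (σ : AddMonoid.End A)
    (τ : AddMonoid.End I) (j : A →+ I) (hj : ∀ x, j (σ x) = τ (j x)) (n : ℕ) (x : A) :
    j (nmH σ n x) = nmH τ n (j x) := by
  rw [nm_WAMB, nm_WAMB, map_sum]
  exact sum_congr rfl fun i _ => pw_WAMB σ τ j hj i x

theorem dn_WAMB {A : Type} [AddCommGroup A] (σ : AddMonoid.End A) (n : ℕ) (h : σ ^ n = 1)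
    (x : A) : (σ - 1 : AddMonoid.End A) (nmH σ n x) = 0 ∧
      nmH σ n ((σ - 1 : AddMonoid.End A) x) = 0 := by
  have h1 := mul_geom_sum σ n
  have h2 := geom_sum_mul σ n
  rw [h, sub_self] at h1 h2
  exact ⟨DFunLike.congr_fun h1 x, DFunLike.congr_fun h2 x⟩

theorem AMB_pf : AMB_st := by
  intro A D _ _ σ t n j1 V T R hn hσ ht hjt v1 v4 h90 hT hfin hR hi h0 h1 a e y ha he hy
  let τ : AddMonoid.End (D × (A ⧸ V)) :=
    AddMonoidHom.prodMap t (QuotientAddGroup.map V V σ v1)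
  let j : A →+ D × (A ⧸ V) := j1.prod (QuotientAddGroup.mk' V)
  have eτ : ∀ d (x : A), τ (d, (x : A ⧸ V)) = (t d, ((σ x : A) : A ⧸ V)) := fun _ _ => rfl
  have ej : ∀ x, j x = (j1 x, (x : A ⧸ V)) := fun _ => rfl
  have ejV : ∀ x ∈ V, j x = (j1 x, 0) := fun x hx =>
    Prod.ext rfl ((QuotientAddGroup.eq_zero_iff x).2 hx)
  have hker : j1.ker ⊓ V = j.ker := AddSubgroup.ext fun x => by
    rw [AddMonoidHom.mem_ker, ej, Prod.mk_eq_zero, QuotientAddGroup.eq_zero_iff]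
    rfl
  have hj : ∀ x, j (σ x) = τ (j x) := fun x => by rw [ej, ej, eτ, hjt]
  have epw : ∀ (i : ℕ) d (x : A), (τ ^ i) (d, (x : A ⧸ V)) =
      ((t ^ i) d, (((σ ^ i) x : A) : A ⧸ V)) := fun i d x => by
    induction i with
    | zero => rfl
    | succ i ih =>
      rw [pow_succ', pow_succ', pow_succ']
      change τ ((τ ^ i) _) = (t ((t ^ i) d), ((σ ((σ ^ i) x) : A) : A ⧸ V))
      rw [ih, eτ]
  have enm : ∀ d (x : A), nmH τ n (d, (x : A ⧸ V)) =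
      (nmH t n d, ((nmH σ n x : A) : A ⧸ V)) := fun d x => by
    rw [nm_WAMB, nm_WAMB, nm_WAMB, sum_congr rfl fun i _ => epw i d x]
    refine Prod.ext (by rw [Prod.fst_sum]) ?_
    rw [Prod.snd_sum]
    exact (map_sum (QuotientAddGroup.mk' V) _ _).symm
  have hτ : τ ^ n = 1 := AddMonoidHom.ext fun x => by
    obtain ⟨d, q⟩ := x
    obtain ⟨c, rfl⟩ := QuotientAddGroup.mk_surjective q
    refine (epw n d c).trans ?_
    rw [hσ, ht]
    rfl
  have hinv : ∀ x, τ x = x → ∃ b d, σ b = b ∧ t d = d ∧ x = j b + (d, 0) := by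
    rintro ⟨d, q⟩ hx
    obtain ⟨c, rfl⟩ := QuotientAddGroup.mk_surjective q
    rw [eτ, Prod.mk.injEq, QuotientAddGroup.eq_iff_sub_mem] at hx
    obtain ⟨b, hb, e⟩ := v4 _ hx.2 (dn_WAMB σ n hσ c).2
    have e1 : σ (c - b) = c - b := by
      rw [map_sub, sub_eq_sub_iff_sub_eq_sub, ← e]
    refine ⟨c - b, d - j1 (c - b), e1, by rw [map_sub, hx.1, ← hjt, e1], ?_⟩
    rw [ej, Prod.mk_add_mk, add_sub_cancel, add_zero, QuotientAddGroup.mk_sub,
      (QuotientAddGroup.eq_zero_iff b).2 hb, sub_zero]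
  rw [hker] at h0 h1
  refine core_WAMB n hn (σ - 1 : AddMonoid.End A) (nmH σ n) (τ - 1 : AddMonoid.End _) (nmH τ n) j
    (fun x => ?_) (fun x => jn_WAMB σ τ j hj n x) (fun x => (dn_WAMB σ n hσ x).1)
    (fun x => (dn_WAMB σ n hσ x).2) (fun x => (dn_WAMB τ n hτ x).1)
    (fun x => (dn_WAMB τ n hτ x).2) (idx_HNT _ _ (hT.image fun d => (d, 0)) ?_) h90
    ((cov_WAMB _ _ R (fun r => (r, 0)) fun x hx => ?_).trans hR) h0 h1 a (e, (y : A ⧸ V))
    (sub_eq_zero.2 ha) ?_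
  · exact (map_sub j (σ x) x).trans (by rw [hj]; rfl)
  · rintro ⟨d, q⟩
    obtain ⟨c, rfl⟩ := QuotientAddGroup.mk_surjective q
    obtain ⟨x, hx, hx'⟩ := hfin (d - j1 c)
    refine ⟨_, ⟨c + x, rfl⟩, _, hx', ?_⟩
    rw [map_add, ejV _ hx, ej, Prod.mk_add_mk, Prod.mk_sub_mk, add_zero, sub_self, sub_sub]
  · obtain ⟨b, d, b1, d1, rfl⟩ := hinv x (sub_eq_zero.1 hx)
    obtain ⟨r, hr, c, c0, f, c1, c2⟩ := hi d d1
    refine ⟨r, hr, ?_⟩
    have key : j b + (d, 0) - (r, 0) = nmH τ n (f, ((0 : A) : A ⧸ V)) + j (b + c) := by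
      rw [enm, map_add, ejV _ c0, map_zero, add_sub_assoc, Prod.mk_sub_mk, c2, sub_self]
      refine Prod.ext ?_ ?_
      · change (j b).1 + (j1 c + nmH t n f) = nmH t n f + ((j b).1 + j1 c)
        abel
      · change (j b).2 + 0 = 0 + ((j b).2 + 0)
        rw [zero_add]
    rw [key]
    refine add_mem (AddSubgroup.mem_sup_left ⟨_, rfl⟩) (AddSubgroup.mem_sup_right ⟨b + c, ?_, rfl⟩)
    change σ (b + c) - (b + c) = 0
    rw [map_add, b1, c1, sub_self]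
  · refine (ej a).trans (Eq.trans ?_ (enm e y).symm)
    rw [he, QuotientAddGroup.eq_iff_sub_mem.2 hy]

end Pool.Agent.MP_3e91a1_nt

end

section

set_option autoImplicit false

open NumberField IsDedekindDomain Module Filter Topology Finset Polynomial
open scoped Classical

namespace Pool.Agent.MP_3e91a1_nt

open MP_e23604_nt MP_e23604_nt.B MP_e23604_nt.R MP_f3cd89_nt

theorem frac_WRED (m a : ℕ) (ha : a < m + 1) : ∃ V : ℤ[X], ∀ (k : Type) [Field k] (u : k),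
    IsPrimitiveRoot u (m + 1) → ((m + 1 : ℕ) : k) * (u ^ a / (1 - u ^ a)) = aeval u V := by
  rcases a with _ | a
  · exact ⟨0, fun k _ u _ => by simp⟩
  refine ⟨X ^ (a + 1) * ∏ b ∈ (range m).erase a, (1 - X ^ (b + 1)), fun k _ u hu => ?_⟩
  have h1 : 1 - u ^ (a + 1) ≠ 0 :=
    sub_ne_zero.2 (hu.pow_ne_one_of_pos_of_lt (by omega) ha).symm
  have h2 := hu.prod_one_sub_pow_eq_order
  rw [← mul_prod_erase _ _ (mem_range.2 (show a < m by omega))] at h2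
  simp only [map_mul, map_pow, map_prod, map_sub, map_one, aeval_X]
  rw [Nat.cast_succ, ← h2]
  field_simp

theorem poly_WRED (m n : ℕ) (χ : MulChar (ZMod (m + 1)) ℤ) : ∃ (P : ℤ[X]) (N : ℕ),
    ∀ (k : Type) [Field k] (u : k), IsPrimitiveRoot u (m + 1) →
      ((m + 1 : ℕ) : k) ^ N * Tq χ n u = aeval u P := by
  choose! V hV using frac_WRED m
  refine ⟨∑ a ∈ range (m + 1), C (χ a) * (scaleRoots (Qp n) ((m + 1 : ℕ) : ℤ)).comp (V a),
    (Qp n).natDegree, fun k _ u hu => ?_⟩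
  rw [Tq, mul_sum, map_sum]
  refine sum_congr rfl fun a ha => ?_
  have h := scaleRoots_eval₂_mul (p := Qp n) (algebraMap ℤ k) (u ^ a / (1 - u ^ a))
    ((m + 1 : ℕ) : ℤ)
  rw [map_natCast, ← aeval_def, ← aeval_def] at h
  rw [map_mul, aeval_C, aeval_comp, ← hV a (mem_range.1 ha) k u hu, h, eq_intCast]
  ring

theorem res_WRED (d : ℕ) (hd : 0 < d) (P : ℤ[X]) (w : ℂ) (hw : IsPrimitiveRoot w d)
    (h : aeval w P ≠ 0) : ∃ (c : ℤ) (A B : ℤ[X]), c ≠ 0 ∧ cyclotomic d ℤ * A + P * B = C c := by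
  obtain ⟨A, B, -, -, e⟩ := exists_mul_add_mul_eq_C_resultant (cyclotomic d ℤ) P le_rfl le_rfl
    (Or.inl (by rw [natDegree_cyclotomic]; exact (Nat.totient_pos.2 hd).ne'))
  refine ⟨_, A, B, fun h0 => ?_, e⟩
  have hi : Function.Injective (algebraMap ℤ ℚ) := (algebraMap ℤ ℚ).injective_int
  have h1 : IsCoprime ((cyclotomic d ℤ).map (algebraMap ℤ ℚ)) (P.map (algebraMap ℤ ℚ)) := by
    rw [map_cyclotomic]
    refine (cyclotomic.irreducible_rat hd).coprime_iff_not_dvd.2 fun hdv => h ?_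
    rw [cyclotomic_eq_minpoly_rat hw hd, minpoly.dvd_iff, aeval_map_algebraMap] at hdv
    exact hdv
  refine resultant_ne_zero _ _ h1 ?_
  rw [natDegree_map_eq_of_injective hi, natDegree_map_eq_of_injective hi, resultant_map_map, h0,
    map_zero]

theorem RED_pf : RED_st := by
  intro d n χ w hd hw hT
  obtain ⟨m, rfl⟩ : ∃ m, d = m + 1 := ⟨d - 1, by omega⟩
  obtain ⟨P, N, hP⟩ := poly_WRED m n χ
  obtain ⟨c, A, B, hc, e⟩ := res_WRED (m + 1) m.succ_pos P w hw (by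
    rw [← hP ℂ w hw]
    exact mul_ne_zero (pow_ne_zero _ (Nat.cast_ne_zero.2 m.succ_ne_zero)) hT)
  refine ⟨c.natAbs, fun p _ hp k _ _ u hu h0 => ?_⟩
  have h1 := hP k u hu
  have h2 : aeval u (cyclotomic (m + 1) ℤ) = 0 := by
    rw [aeval_def, ← eval_map, map_cyclotomic]
    exact hu.isRoot_cyclotomic m.succ_pos
  have h3 := congrArg (aeval u) e
  rw [map_add, map_mul, map_mul, h2, ← h1, h0, aeval_C, eq_intCast] at h3
  have h4 : (p : ℤ) ∣ c := (CharP.intCast_eq_zero_iff k p c).1 (by rw [← h3]; ring)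
  exact absurd (Nat.le_of_dvd (Int.natAbs_pos.2 hc) (Int.natCast_dvd.1 h4)) (by omega)

end Pool.Agent.MP_3e91a1_nt

end
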