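import Pool.Agent.Mg.F3e91a1.Gf1088e

set_option linter.all false

section

/-! Statements of the steps of the determinant argument. -/

set_option autoImplicit false

open Finset Filter PowerSeries

noncomputable section

namespace Pool.Agent.MP_3e91a1_nt.CC

/-- the local coordinate at `a` -/
def Xs {R : Type} [CommRing R] (a : R) : R⟦X⟧ := C a + C (a * (1 + a)) * X

/-- the series of the logarithm of `1 + b z` -/
def lg {F : Type} [Field F] (b : F) : F⟦X⟧ := PowerSeries.mk fun k => (-1) ^ (k + 1) * b ^ k / k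

/-- an integral multiple of its truncation -/
def Lg (L : ℕ) {R : Type} [CommRing R] (b : R) : R⟦X⟧ :=
  PowerSeries.mk fun k => (-1) ^ (k + 1) * ((L / k : ℕ) : R) * b ^ k

/-- the rows of the determinant -/
def row (L : ℕ) {R : Type} [CommRing R] (a c : R) (e i j k : ℕ) : R⟦X⟧ :=
  Xs a ^ e * C c ^ i * Lg L (1 + a) ^ j * Lg L a ^ k

/-- the derivation with `DD z` the product of `1 + a z` and `1 + b z` -/
def DD {F : Type} [Field F] (a b : F) (f : F⟦X⟧) : F⟦X⟧ :=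
  (1 + C a * X) * (1 + C b * X) * d⁄dX F f

/-- the relation between the point and the parameter -/
def Rel {R : Type} [CommRing R] (c a : R) : Prop :=
  c * (a * (1 + a)) ^ 2 = -(a ^ 2 + a + 1) ^ 3

/-- the index set of the rows -/
abbrev Ix (D K : ℕ) : Type := Fin D × Fin (K + 1) × Fin (K + 1) × Fin (K + 1)

/-- the coordinate and the two logarithms are algebraically independent -/
def IND_st : Prop := ∀ (F : Type) [Field F] [CharZero F] (a : F), a ≠ 0 → 1 + a ≠ 0 →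
  AlgebraicIndependent F ![Xs a, lg (1 + a), lg a]

/-- an eigenvector of the translations depends on the first variable only -/
def INV_st : Prop := ∀ (F : Type) [Field F] [CharZero F] (W : MvPolynomial (Fin 3) F),
  (∀ μ ν : F, ∃ d : F, MvPolynomial.aeval ![MvPolynomial.X 0, MvPolynomial.X 1 + MvPolynomial.C μ,
    MvPolynomial.X 2 + MvPolynomial.C ν] W = d • W) →
  W = MvPolynomial.aeval ![MvPolynomial.X 0, 0, 0] W

/-- the Wronskian of independent series -/
def WRO_st : Prop := ∀ (F : Type) [Field F] [CharZero F] (a b : F) (r : ℕ) (f : Fin r → F⟦X⟧),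
  LinearIndependent F f → (Matrix.of fun i j : Fin r => (DD a b)^[i] (f j)).det ≠ 0

/-- the zero estimate -/
def ZER_st : Prop := ∀ (F P : Type) [Field F] [CharZero F] [Fintype P] (a c : P → F) (D K n : ℕ)
  (v : Ix D K → F), Function.Injective a → Function.Injective c → (∀ s, a s ≠ 0 ∧ 1 + a s ≠ 0) →
  v ≠ 0 → (∀ s, X ^ n ∣ ∑ t : Ix D K, C (v t) * (Xs (a s) ^ (t.1 : ℕ) * C (c s) ^ (t.2.1 : ℕ) *
    lg (1 + a s) ^ (t.2.2.1 : ℕ) * lg (a s) ^ (t.2.2.2 : ℕ))) →
  (Fintype.card P - K) * (n - (K + 1) ^ 5) ≤ (K + 1) ^ 5 * (D + (K + 1) ^ 5)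

/-- the rows modulo `p` -/
def CNG_st : Prop := ∀ p D K L n : ℕ, p.Prime → n ≤ p → (∀ k, 1 ≤ k → k < n → k ∣ L) →
  ∃ u : Ix D K → Fin (D + 7 * K * p) × Fin (2 * K + 1) → ℤ,
    ∀ (R : Type) [CommRing R] [IsDomain R] [CharZero R] (a : R) (T : ℤ), IsUnit (a * (1 + a)) →
      Rel (T : R) a → (p : R) ^ 2 ∣ (1 + a) ^ p - 1 - a ^ p →
      ∃ w : Fin (D + 7 * K * p) × Fin (2 * K + 1) → ℕ → R, ∀ (t : Ix D K) (m : ℕ), m < n →
        (p : R) ∣ coeff m (row L a T t.1 t.2.1 t.2.2.1 t.2.2.2) - ∑ τ, (u t τ : R) * w τ m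

/-- the size of the entries -/
def SIZ_st : Prop := ∀ (a c : ℂ) (B : ℝ) (D K L n e i j k m : ℕ), 1 ≤ B → ‖a‖ ≤ B → ‖1 + a‖ ≤ B →
  ‖c‖ ≤ B → L ≠ 0 → e ≤ D → i ≤ K → j ≤ K → k ≤ K → m < n →
  ‖coeff m (row L a c e i j k)‖ ≤ (2 * B) ^ D * B ^ K * (n * L) ^ (2 * K + 2) * B ^ (2 * n)

/-- the size of the points, and their integrality -/
def PTS_st : Prop := (∀ (T : ℕ) (a : ℂ), 1 ≤ T → Rel (T : ℂ) a → ‖a‖ ≤ 5 * T ∧ ‖1 + a‖ ≤ 5 * T) ∧
  ∀ (F : Type) [Field F] (T : ℕ) (a : F), Rel (T : F) a → a ≠ 0 ∧ 1 + a ≠ 0 ∧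
    IsIntegral ℤ a ∧ IsIntegral ℤ (a * (1 + a))⁻¹

open Classical in
/-- the determinant inequality -/
def DET_st : Prop := ∀ (P : Finset ℕ) (a : ℕ → AlgebraicClosure ℚ) (M D K n L : ℕ) (Q : Finset ℕ)
  (y : ℝ), 1 ≤ M → (∀ T ∈ P, 1 ≤ T ∧ T ≤ M ∧ Rel (T : AlgebraicClosure ℚ) (a T)) → L ≠ 0 →
  (∀ k, 1 ≤ k → k < n → k ∣ L) →
  (K + 1) ^ 5 * (D + (K + 1) ^ 5) < (P.card - K) * (n - (K + 1) ^ 5) →
  (∀ p ∈ Q, p.Prime ∧ n ≤ p) →
  (∀ T ∈ P, y ≤ ∑ p ∈ Q.filter fun p => Bad p (a T), Real.log p) →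
  (D * (K + 1) ^ 3 : ℝ) * y ≤ ∑ p ∈ Q, ((D + 7 * K * p) * (2 * K + 1) : ℝ) * Real.log p +
    (D * (K + 1) ^ 3 : ℝ) * Real.log ((D * (K + 1) ^ 3 : ℝ) *
      ((10 * M) ^ D * (5 * M) ^ K * (n * L) ^ (2 * K + 2) * (5 * M) ^ (2 * n)))

open Classical in
/-- few points have many bad primes -/
def COR_st : Prop := ∀ (η : ℝ) (M K : ℕ), 0 < η → η ≤ 1 → 1 ≤ M →
  700 * Real.log (10 * M) ≤ η ^ 2 * K → ∀ᶠ x : ℕ in atTop,
    ∀ (P : Finset ℕ) (a : ℕ → AlgebraicClosure ℚ),
      (∀ T ∈ P, 1 ≤ T ∧ T ≤ M ∧ Rel (T : AlgebraicClosure ℚ) (a T)) →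
      (∀ T ∈ P, η * x ≤ ∑ p ∈ ((Ioc 0 x).filter Nat.Prime).filter fun p => Bad p (a T),
        Real.log p) → η ^ 2 * P.card < 7200 * (K + 1) ^ 5

/-- the count of the exceptional parameters -/
def FEW_st : Prop := ∀ δ : ℝ, 0 < δ → ∃ C : ℝ, ∀ (a : ℕ → AlgebraicClosure ℚ) (B : ℕ → ℕ),
  (∀ T : ℕ, 1 ≤ T → Rel (T : AlgebraicClosure ℚ) (a T)) → ∀ M : ℕ, 2 ≤ M → ∀ᶠ x : ℕ in atTop,
    (Set.ncard {T : ℕ | 1 ≤ T ∧ T ≤ M ∧
      (Set.ncard {p : ℕ | p ≤ x ∧ p.Prime ∧ B T < p ∧ ¬ Bad p (a T)} : ℝ) <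
        (1 - δ) * x / Real.log x} : ℝ) ≤ C * Real.log M ^ 5

end Pool.Agent.MP_3e91a1_nt.CC

end
end

section

/-! Modulo `p` the rows are expansions of polynomials of small bidegree. -/

set_option autoImplicit false

open Finset PowerSeries

noncomputable section

namespace Pool.Agent.MP_3e91a1_nt.CC

theorem coeff_lin_CNG {R : Type} [CommRing R] (a b : R) (e k : ℕ) :
    coeff k ((C a + C (a * b) * X) ^ e) = a ^ e * (e.choose k * b ^ k) := by
  have h1 : (C a + C (a * b) * X : R⟦X⟧) = C a * rescale b (1 + X) := by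
    rw [map_add, map_one, rescale_X, map_mul]
    ring
  have h2 : ((1 + X) ^ e : R⟦X⟧) = ((1 + Polynomial.X) ^ e : Polynomial R) := by simp
  rw [h1, mul_pow, ← map_pow, ← map_pow, coeff_C_mul, coeff_rescale, h2, Polynomial.coeff_coe,
    Polynomial.coeff_one_add_X_pow, mul_comm (b ^ k)]

theorem choose_pred_CNG (p : ℕ) [hp : Fact p.Prime] (k : ℕ) (hk : k < p) :
    (((p - 1).choose k : ℕ) : ZMod p) = (-1) ^ k := by
  induction k with
  | zero => simp
  | succ k ih =>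
    have h1 : p.choose (k + 1) = (p - 1).choose k + (p - 1).choose (k + 1) := by
      rw [← Nat.choose_succ_succ', Nat.sub_add_cancel hp.out.one_le]
    have h2 := (ZMod.natCast_eq_zero_iff _ p).2 (hp.out.dvd_choose_self (Nat.succ_ne_zero k) hk)
    rw [h1, Nat.cast_add, ih (by omega)] at h2
    linear_combination h2

theorem exists_G_CNG (p : ℕ) [hp : Fact p.Prime] : ∃ G : Polynomial ℤ, G.natDegree ≤ p ∧
    Polynomial.C (p : ℤ) * G = (1 + Polynomial.X) ^ p - 1 - Polynomial.X ^ p := by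
  have h1 : Polynomial.C (p : ℤ) ∣ (1 + Polynomial.X) ^ p - 1 - Polynomial.X ^ p := by
    rw [Polynomial.C_dvd_iff_dvd_coeff]
    intro i
    rw [← ZMod.intCast_zmod_eq_zero_iff_dvd, ← eq_intCast (Int.castRingHom (ZMod p)),
      ← Polynomial.coeff_map]
    simp only [Polynomial.map_add, Polynomial.map_sub, Polynomial.map_pow, Polynomial.map_X,
      Polynomial.map_one]
    rw [add_pow_char]
    simp
  obtain ⟨G, hG⟩ := h1
  refine ⟨G, ?_, hG.symm⟩
  rw [← Polynomial.natDegree_C_mul (a := (p : ℤ)) (by exact_mod_cast hp.out.ne_zero), ← hG]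
  compute_degree!

theorem quot_CNG (R : Type) [CommRing R] (q : R) (n : ℕ) :
    ∃ (Q : Type) (_ : CommRing Q) (φ : R⟦X⟧ →+* Q), ∀ f, φ f = 0 ↔ ∀ m < n, q ∣ coeff m f := by
  refine ⟨(R ⧸ Ideal.span {q})⟦X⟧ ⧸ Ideal.span {(X : (R ⧸ Ideal.span {q})⟦X⟧) ^ n}, inferInstance,
    (Ideal.Quotient.mk _).comp (PowerSeries.map (Ideal.Quotient.mk _)), fun f => ?_⟩
  rw [RingHom.comp_apply, Ideal.Quotient.eq_zero_iff_mem, Ideal.mem_span_singleton, X_pow_dvd_iff]
  refine forall_congr' fun m => forall_congr' fun _ => ?_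
  rw [coeff_map, Ideal.Quotient.eq_zero_iff_mem, Ideal.mem_span_singleton]

theorem log_CNG (p : ℕ) [hp : Fact p.Prime] {G : Polynomial ℤ}
    (hG : Polynomial.C (p : ℤ) * G = (1 + Polynomial.X) ^ p - 1 - Polynomial.X ^ p)
    {n L : ℕ} (hn : n ≤ p) (hd : ∀ k, 1 ≤ k → k < n → k ∣ L) {R : Type} [CommRing R] [IsDomain R]
    [CharZero R] (a : R) (ha : (p : R) ^ 2 ∣ (1 + a) ^ p - 1 - a ^ p) :
    ∀ m < n, (p : R) ∣ coeff m ((L : R⟦X⟧) * G.eval₂ (Int.castRingHom _) (Xs a) -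
      (C ((1 + a) ^ p) * Lg L a - C (a ^ p) * Lg L (1 + a))) := by
  have p0 : (p : R) ≠ 0 := by exact_mod_cast hp.out.ne_zero
  obtain ⟨g, hg⟩ : ∃ g : R⟦X⟧, g = G.eval₂ (Int.castRingHom _) (Xs a) := ⟨_, rfl⟩
  have h2 : C (p : R) * g = (C (1 + a) + C ((1 + a) * a) * X) ^ p - 1 -
      (C a + C (a * (1 + a)) * X) ^ p := by
    have h3 := congrArg (Polynomial.eval₂ (Int.castRingHom R⟦X⟧) (Xs a)) hG
    simp only [Polynomial.eval₂_mul, Polynomial.eval₂_add, Polynomial.eval₂_sub,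
      Polynomial.eval₂_pow, Polynomial.eval₂_natCast, Polynomial.eval₂_X, Polynomial.eval₂_one,
      map_natCast] at h3
    rw [hg, map_natCast, h3, Xs, map_add, map_one, mul_comm (1 + a) a, add_assoc]
  intro k hk
  have h3 := congrArg (coeff k) h2
  rw [coeff_C_mul, map_sub, map_sub, coeff_lin_CNG, coeff_lin_CNG, coeff_one] at h3
  rw [← hg, ← map_natCast (C (R := R)), map_sub, map_sub, coeff_C_mul, coeff_C_mul, coeff_C_mul,
    Lg, Lg, coeff_mk, coeff_mk]
  rcases k with _ | k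
  · obtain ⟨u, hu⟩ := ha
    have h4 : coeff 0 g = p * u := by
      refine mul_left_cancel₀ p0 ?_
      rw [h3]
      simp only [Nat.choose_zero_right, Nat.cast_one, pow_zero, mul_one, if_true]
      linear_combination hu
    exact ⟨L * u, by simp [h4, mul_left_comm]⟩
  · obtain ⟨m, hm⟩ := hp.out.dvd_choose_self (Nat.succ_ne_zero k) (hk.trans_le hn)
    have h4 : coeff (k + 1) g = m * ((1 + a) ^ p * a ^ (k + 1) - a ^ p * (1 + a) ^ (k + 1)) := by
      refine mul_left_cancel₀ p0 ?_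
      rw [h3, hm, if_neg (Nat.succ_ne_zero k)]
      push_cast
      ring
    have h5 : m * (k + 1) = (p - 1).choose k := by
      have h6 := Nat.add_one_mul_choose_eq (p - 1) k
      rw [Nat.sub_add_cancel hp.out.one_le, hm, mul_assoc] at h6
      exact (Nat.eq_of_mul_eq_mul_left hp.out.pos h6).symm
    have h6 := choose_pred_CNG p k (by omega)
    rw [← h5] at h6
    obtain ⟨v, hv⟩ : (p : ℤ) ∣ ((m * (k + 1) : ℕ) : ℤ) - (-1) ^ k := by
      rw [← ZMod.intCast_zmod_eq_zero_iff_dvd]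
      push_cast at h6 ⊢
      rw [h6, sub_self]
    have h7 := congrArg (Int.cast : ℤ → R) hv
    obtain ⟨l, rfl⟩ := hd (k + 1) (by omega) hk
    rw [h4, Nat.mul_div_cancel_left _ (Nat.succ_pos k)]
    refine ⟨v * l * ((1 + a) ^ p * a ^ (k + 1) - a ^ p * (1 + a) ^ (k + 1)), ?_⟩
    push_cast at h7 ⊢
    linear_combination ((l : R) * ((1 + a) ^ p * a ^ (k + 1) - a ^ p * (1 + a) ^ (k + 1))) * h7

theorem frob_CNG {Q : Type} [CommRing Q] {p : ℕ} (hp : p.Prime) (h0 : (p : Q) = 0) (x y : Q) :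
    (x + y) ^ p = x ^ p + y ^ p := by
  obtain ⟨r, hr⟩ := exists_add_pow_prime_eq hp x y
  rw [hr, h0]
  ring

theorem alg_CNG {Q : Type} [CommRing Q] {p : ℕ} (hp : p.Prime) (h0 : (p : Q) = 0)
    {A Z x Y W g : Q} {T : ℤ} (hZ : Z ^ p = 0) (hx : x = A + A * (1 + A) * Z)
    (hT : (T : Q) * (A * (1 + A)) ^ 2 = -(A ^ 2 + A + 1) ^ 3)
    (hg : g = (1 + A) ^ p * W - A ^ p * Y) {K i k : ℕ} (e j : ℕ) (hi : i ≤ K) (hk : k ≤ K) :
    (A ^ p * (1 + A) ^ p) ^ (2 * K) * ((1 + A) ^ p) ^ K * (x ^ e * (T : Q) ^ i * Y ^ j * W ^ k) =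
      x ^ e * (-((x ^ 2 + x + 1) ^ p) ^ 3) ^ i * (x ^ p * (1 + x) ^ p) ^ (2 * (K - i)) *
        ((1 + x) ^ p) ^ (K - k) * Y ^ j * (g + x ^ p * Y) ^ k := by
  have fr := frob_CNG hp h0
  have h1 : x ^ p = A ^ p := by rw [hx, fr, mul_pow _ Z, hZ, mul_zero, add_zero]
  have h2 : (1 + x) ^ p = (1 + A) ^ p := by rw [fr, fr, h1]
  have h3 : (x ^ 2 + x + 1) ^ p = (A ^ 2 + A + 1) ^ p := by
    rw [fr, fr, fr, fr, pow_right_comm x, pow_right_comm A, h1]
  have h4 : (T : Q) ^ p = T := by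
    have := Fact.mk hp
    obtain ⟨v, hv⟩ : (p : ℤ) ∣ T ^ p - T := by
      rw [← ZMod.intCast_zmod_eq_zero_iff_dvd]
      push_cast
      rw [ZMod.pow_card, sub_self]
    have h5 := congrArg (Int.cast : ℤ → Q) hv
    push_cast at h5
    rw [h0, zero_mul] at h5
    exact sub_eq_zero.1 h5
  have h5 : -((A ^ 2 + A + 1) ^ p) ^ 3 = T * (A ^ p * (1 + A) ^ p) ^ 2 := by
    have h6 := fr ((T : Q) * (A * (1 + A)) ^ 2) ((A ^ 2 + A + 1) ^ 3)
    rw [mul_pow (T : Q), h4, pow_right_comm (A * (1 + A)), pow_right_comm (A ^ 2 + A + 1),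
      mul_pow A _ p, hT, neg_add_cancel, zero_pow hp.ne_zero] at h6
    linear_combination h6
  have h6 : g + A ^ p * Y = (1 + A) ^ p * W := by rw [hg]; ring
  rw [h1, h2, h3, h5, h6]
  generalize A ^ p = α
  generalize (1 + A) ^ p = β
  have h7 : β ^ K = β ^ k * β ^ (K - k) := by rw [← pow_add, Nat.add_sub_cancel' hk]
  have h8 : (α * β) ^ (2 * K) = ((α * β) ^ 2) ^ i * (α * β) ^ (2 * (K - i)) := by
    rw [← pow_mul, ← pow_add, ← mul_add, Nat.add_sub_cancel' hi]
  rw [h7, h8, mul_pow (T : Q), mul_pow β W]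
  ring

/-- all coefficients have small degree -/
def Dg_CNG (N : ℕ) (H : Polynomial (Polynomial ℤ)) : Prop := ∀ l, (H.coeff l).natDegree ≤ N

theorem Dg_mul_CNG {N N' : ℕ} {H H' : Polynomial (Polynomial ℤ)} (h : Dg_CNG N H)
    (h' : Dg_CNG N' H') : Dg_CNG (N + N') (H * H') := by
  intro l
  rw [Polynomial.coeff_mul]
  exact Polynomial.natDegree_sum_le_of_forall_le _ _ fun c _ =>
    Polynomial.natDegree_mul_le.trans (add_le_add (h _) (h' _))

theorem Dg_C_CNG {N : ℕ} {P : Polynomial ℤ} (h : P.natDegree ≤ N) (j : ℕ) :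
    Dg_CNG N (Polynomial.C P * Polynomial.X ^ j) := by
  intro l
  rw [Polynomial.coeff_C_mul_X_pow]
  split_ifs
  · exact h
  · simp

theorem Dg_pow_CNG {N : ℕ} {H : Polynomial (Polynomial ℤ)} (h : Dg_CNG N H) (k : ℕ) :
    Dg_CNG (k * N) (H ^ k) := by
  induction k with
  | zero => simpa using Dg_C_CNG (N := 0) (P := 1) (by simp) 0
  | succ k ih =>
    rw [pow_succ, Nat.succ_mul]
    exact Dg_mul_CNG ih h

theorem ev_CNG {Q : Type} [CommRing Q] (x y : Q) {N M : ℕ} (H : Polynomial (Polynomial ℤ))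
    (h1 : H.natDegree < M) (h2 : ∀ l, (H.coeff l).natDegree < N) :
    H.eval₂ (Polynomial.eval₂RingHom (Int.castRingHom Q) x) y =
      ∑ τ : Fin N × Fin M, (((H.coeff τ.2).coeff τ.1 : ℤ) : Q) * (x ^ (τ.1 : ℕ) * y ^ (τ.2 : ℕ)) := by
  rw [Polynomial.eval₂_eq_sum_range' _ h1, Fintype.sum_prod_type_right, Finset.sum_range]
  refine sum_congr rfl fun l _ => ?_
  rw [Polynomial.coe_eval₂RingHom, Polynomial.eval₂_eq_sum_range' _ (h2 l), Finset.sum_range,
    sum_mul]
  refine sum_congr rfl fun d _ => ?_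
  rw [eq_intCast, mul_assoc]

theorem CNG_pf : CNG_st := by
  intro p D K L n hp hn hd
  have := Fact.mk hp
  obtain ⟨G, hG1, hG⟩ := exists_G_CNG p
  let P : Ix D K → Polynomial ℤ := fun t => Polynomial.X ^ (t.1 : ℕ) *
    (-((Polynomial.X ^ 2 + Polynomial.X + 1) ^ p) ^ 3) ^ (t.2.1 : ℕ) *
    (Polynomial.X ^ p * (1 + Polynomial.X) ^ p) ^ (2 * (K - t.2.1)) *
    ((1 + Polynomial.X) ^ p) ^ (K - t.2.2.2)
  let H : Ix D K → Polynomial (Polynomial ℤ) := fun t =>
    Polynomial.C (P t) * Polynomial.X ^ (t.2.2.1 : ℕ) *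
      (Polynomial.C ((L : Polynomial ℤ) * G) + Polynomial.C (Polynomial.X ^ p) * Polynomial.X) ^
        (t.2.2.2 : ℕ)
  have hH1 : ∀ t, (H t).natDegree < 2 * K + 1 := by
    intro t
    have e1 := t.2.2.1.2
    have e2 := t.2.2.2.2
    have h1 : (Polynomial.C ((L : Polynomial ℤ) * G) +
        Polynomial.C (Polynomial.X ^ p) * Polynomial.X).natDegree ≤ 1 := by compute_degree
    have h2 := Polynomial.natDegree_pow_le_of_le (t.2.2.2 : ℕ) h1
    have h3 := Polynomial.natDegree_C_mul_X_pow_le (P t) (t.2.2.1 : ℕ)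
    refine (Polynomial.natDegree_mul_le.trans (add_le_add h3 h2)).trans_lt ?_
    omega
  have hH2 : ∀ t l, ((H t).coeff l).natDegree < D + 7 * K * p := by
    intro t l
    have e0 := t.1.2
    obtain ⟨i', hi⟩ := Nat.exists_eq_add_of_le (Nat.le_of_lt_succ t.2.1.2)
    obtain ⟨k', hk⟩ := Nat.exists_eq_add_of_le (Nat.le_of_lt_succ t.2.2.2.2)
    have a1 : ((Polynomial.X ^ 2 + Polynomial.X + 1 : Polynomial ℤ)).natDegree ≤ 2 := by
      compute_degree
    have a2 : ((1 + Polynomial.X : Polynomial ℤ)).natDegree ≤ 1 := by compute_degree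
    have a3 := Polynomial.natDegree_pow_le_of_le p a2
    have a4 := Polynomial.natDegree_pow_le_of_le (t.2.1 : ℕ) ((Polynomial.natDegree_neg _).trans_le
      (Polynomial.natDegree_pow_le_of_le 3 (Polynomial.natDegree_pow_le_of_le p a1)))
    have a5 := Polynomial.natDegree_pow_le_of_le (2 * (K - t.2.1)) (Polynomial.natDegree_mul_le.trans
      (add_le_add (Polynomial.natDegree_X_pow_le (R := ℤ) p) a3))
    have a6 := Polynomial.natDegree_pow_le_of_le (K - t.2.2.2) a3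
    have a7 := Polynomial.natDegree_mul_le.trans (add_le_add (Polynomial.natDegree_mul_le.trans
      (add_le_add (Polynomial.natDegree_mul_le.trans
        (add_le_add (Polynomial.natDegree_X_pow_le (R := ℤ) (t.1 : ℕ)) a4)) a5)) a6)
    have b1 : ((L : Polynomial ℤ) * G).natDegree ≤ p :=
      Polynomial.natDegree_mul_le.trans (by rw [Polynomial.natDegree_natCast]; omega)
    have b2 : Dg_CNG p (Polynomial.C ((L : Polynomial ℤ) * G) +
        Polynomial.C (Polynomial.X ^ p) * Polynomial.X) := by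
      intro l
      rw [Polynomial.coeff_add]
      refine Polynomial.natDegree_add_le_of_degree_le ?_ ?_
      · simpa using Dg_C_CNG b1 0 l
      · simpa using Dg_C_CNG (Polynomial.natDegree_X_pow_le (R := ℤ) p) 1 l
    refine (Dg_mul_CNG (Dg_C_CNG a7 _) (Dg_pow_CNG b2 _) l).trans_lt ?_
    have c1 : K - t.2.1 = i' := by omega
    have c2 : K - t.2.2.2 = k' := by omega
    have c3 : K * p = t.2.1 * p + i' * p := by rw [← add_mul, ← hi]
    have c4 : K * p = t.2.2.2 * p + k' * p := by rw [← add_mul, ← hk]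
    rw [c1, c2]
    nlinarith [Nat.zero_le (i' * p)]
  refine ⟨fun t τ => ((H t).coeff τ.2).coeff τ.1, ?_⟩
  intro R _ _ _ a T hu hT ha
  obtain ⟨Q, _, φ, hφ⟩ := quot_CNG R (p : R) n
  have h0 : (p : Q) = 0 := by
    rw [← map_natCast φ, hφ, ← map_natCast (C (R := R))]
    intro m _
    rw [coeff_C]
    split_ifs
    · exact dvd_rfl
    · exact dvd_zero _
  have hZ : φ X ^ p = 0 := by
    rw [← map_pow, hφ]
    intro m hm
    rw [coeff_X_pow, if_neg (by omega)]
    exact dvd_zero _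
  obtain ⟨ν, hν⟩ := ((((isUnit_of_mul_isUnit_left hu).pow p).mul
    ((isUnit_of_mul_isUnit_right hu).pow p)).pow (2 * K)).mul
    (((isUnit_of_mul_isUnit_right hu).pow p).pow K) |>.exists_left_inv
  refine ⟨fun τ m => coeff m (C ν * (Xs a ^ (τ.1 : ℕ) * Lg L (1 + a) ^ (τ.2 : ℕ))),
    fun t m hm => ?_⟩
  have hg := (hφ _).2 (log_CNG p hG hn hd a ha)
  rw [map_sub, sub_eq_zero, map_mul, Polynomial.hom_eval₂,
    RingHom.ext_int (φ.comp _) (Int.castRingHom Q)] at hg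
  simp only [map_sub, map_mul, map_pow, map_add, map_one, map_natCast] at hg
  have hx : φ (Xs a) = φ (C a) + φ (C a) * (1 + φ (C a)) * φ X := by
    simp only [Xs, map_mul, map_add, map_one]
  have hT' := congrArg (φ.comp C) hT
  simp only [map_mul, map_pow, map_add, map_one, map_neg, map_intCast, RingHom.comp_apply] at hT'
  have hν' := congrArg (φ.comp C) hν
  simp only [map_mul, map_pow, map_add, map_one, RingHom.comp_apply] at hν'
  have key := alg_CNG hp h0 hZ hx hT' hg (t.1 : ℕ) (t.2.2.1 : ℕ)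
    (Nat.le_of_lt_succ t.2.1.2) (Nat.le_of_lt_succ t.2.2.2.2)
  have hev := ev_CNG (φ (Xs a)) (φ (Lg L (1 + a))) (H t) (hH1 t) (hH2 t)
  have hfin : φ (row L a T t.1 t.2.1 t.2.2.1 t.2.2.2 -
      ∑ τ : Fin (D + 7 * K * p) × Fin (2 * K + 1), C ((((H t).coeff τ.2).coeff τ.1 : ℤ) : R) *
        (C ν * (Xs a ^ (τ.1 : ℕ) * Lg L (1 + a) ^ (τ.2 : ℕ)))) = 0 := by
    simp only [row, map_sub, map_sum, map_mul, map_pow, map_intCast,
      mul_left_comm _ (φ (C ν)), ← mul_sum]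
    rw [← hev]
    simp only [H, P, Polynomial.eval₂_mul, Polynomial.eval₂_pow, Polynomial.eval₂_add,
      Polynomial.eval₂_C, Polynomial.eval₂_X, Polynomial.coe_eval₂RingHom, Polynomial.eval₂_neg,
      Polynomial.eval₂_one, Polynomial.eval₂_natCast]
    rw [← key, ← mul_assoc (φ (C ν)), hν', one_mul, sub_self]
  have h9 := (hφ _).1 hfin m hm
  simpa only [map_sub, map_sum, coeff_C_mul] using h9

end Pool.Agent.MP_3e91a1_nt.CC

end
end

section

set_option autoImplicit false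

open NumberField Finset PowerSeries

namespace Pool.Agent.MP_3e91a1_nt.CC

theorem minor_DET {ι κ R F : Type} [Fintype ι] [DecidableEq ι] [Fintype κ] [CommRing R] [Field F]
    (f : R →+* F) (A : ι → κ → R) (h : ∀ c : ι → F, (∀ s, ∑ r, c r * f (A r s) = 0) → c = 0) :
    ∃ σ : ι → κ, (Matrix.of fun r s => A r (σ s)).det ≠ 0 := by
  let B : Matrix ι κ F := Matrix.of fun r s => f (A r s)
  have h1 : LinearIndependent F B.row := Fintype.linearIndependent_iff.2 fun c hc =>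
    congrFun (h c fun s => by simpa [B] using congrFun hc s)
  have h2 := h1.rank_matrix
  obtain ⟨μ, e, he, hsp, hli⟩ := exists_linearIndependent' F B.col
  have : Finite μ := Finite.of_injective e he
  have := Fintype.ofFinite μ
  rw [Matrix.rank_eq_finrank_span_cols, ← hsp, finrank_span_eq_card hli] at h2
  let g := Fintype.equivOfCardEq h2
  refine ⟨fun s => e (g.symm s), fun h0 => ?_⟩
  have h3 : IsUnit (Matrix.of fun r s => f (A r (e (g.symm s)))) :=
    Matrix.linearIndependent_cols_iff_isUnit.1 (hli.comp _ g.symm.injective)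
  have h4 := f.map_det (Matrix.of fun r s => A r (e (g.symm s)))
  rw [h0, map_zero] at h4
  exact ((Matrix.isUnit_iff_isUnit_det _).1 h3).ne_zero h4.symm

theorem map_DET {R S : Type} [CommRing R] [CommRing S] (f : R →+* S) (L : ℕ) (a c : R)
    (e i j k m : ℕ) : f (coeff m (row L a c e i j k)) = coeff m (row L (f a) (f c) e i j k) := by
  have h : ∀ b : R, PowerSeries.map f (Lg L b) = Lg L (f b) := fun b => by
    ext k
    simp [Lg]
  rw [← coeff_map]
  simp [row, Xs, h]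

theorem row_DET {F : Type} [Field F] [CharZero F] {L n : ℕ} (hd : ∀ k, 1 ≤ k → k < n → k ∣ L)
    (a c : F) (e i j k : ℕ) : X ^ n ∣ C ((L : F) ^ (j + k)) *
      (Xs a ^ e * C c ^ i * lg (1 + a) ^ j * lg a ^ k) - row L a c e i j k := by
  have h : ∀ b : F, Ideal.Quotient.mk (Ideal.span {(X : F⟦X⟧) ^ n}) (Lg L b) =
      Ideal.Quotient.mk _ (C (L : F) * lg b) := fun b => by
    rw [Ideal.Quotient.eq, Ideal.mem_span_singleton, X_pow_dvd_iff]
    intro m hm
    rw [map_sub, coeff_C_mul, Lg, lg, coeff_mk, coeff_mk]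
    rcases m with _ | m
    · simp
    · rw [Nat.cast_div_charZero (hd _ (by omega) hm)]
      ring
  rw [← Ideal.mem_span_singleton, ← Ideal.Quotient.eq]
  simp only [row, map_mul, map_pow, h]
  ring

theorem log_DET {K : Type} [Field K] [NumberField K] (Q : Finset ℕ) (hQ : ∀ p ∈ Q, p.Prime)
    (e : ℕ → ℕ) {z : 𝓞 K} (hz : z ≠ 0) (h : ∀ p ∈ Q, (p : 𝓞 K) ^ e p ∣ z) :
    ∃ φ : K →+* ℂ, φ z ≠ 0 ∧ ∑ p ∈ Q, (e p : ℝ) * Real.log p ≤ Real.log ‖φ z‖ := by
  obtain ⟨y, hy⟩ : ∏ p ∈ Q, (p : 𝓞 K) ^ e p ∣ z := prod_dvd_of_coprime (fun p hp q hq hpq =>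
    (((Nat.coprime_primes (hQ p hp) (hQ q hq)).2 hpq).cast (R := 𝓞 K)).pow) h
  obtain ⟨φ, hφ⟩ := exists_conjugate_one_le_norm (α := y) (by rintro rfl; simp [hz] at hy)
  have h3 : ∀ p ∈ Q, (0 : ℝ) < (p : ℝ) ^ e p := fun p hp =>
    pow_pos (by exact_mod_cast (hQ p hp).pos) _
  have h2 : ∏ p ∈ Q, (p : ℝ) ^ e p ≤ ‖φ z‖ := by
    have h4 : ‖φ z‖ = (∏ p ∈ Q, (p : ℝ) ^ e p) * ‖φ y‖ := by
      rw [hy]
      simp
    rw [h4]
    exact le_mul_of_one_le_right (prod_pos h3).le hφ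
  refine ⟨φ, by simpa using hz, le_trans (le_of_eq ?_) (Real.log_le_log (prod_pos h3) h2)⟩
  rw [Real.log_prod fun p hp => (h3 p hp).ne']
  simp only [Real.log_pow]

theorem DET_pf (hZER : ZER_st) (hCNG : CNG_st) (hSIZ : SIZ_st) (hPTS : PTS_st) (hDIV : DIV_st) :
    DET_st := by
  classical
  intro P a M D K n L Q y hM hP hL hd hs hQ hy
  let Ω : IntermediateField ℚ (AlgebraicClosure ℚ) := .adjoin ℚ (P.image a : Set _)
  have : FiniteDimensional ℚ Ω :=
    IntermediateField.finiteDimensional_adjoin fun x hx => by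
      obtain ⟨T, hT, rfl⟩ := mem_image.1 (mem_coe.1 hx)
      exact (hPTS.2 _ T _ (hP T hT).2.2).2.2.1.tower_top
  have : NumberField Ω := {}
  let b : P → Ω := fun s => ⟨a s, IntermediateField.subset_adjoin _ _ (by
    exact_mod_cast mem_image_of_mem a s.2)⟩
  have hb : ∀ s : P, Rel ((s : ℕ) : Ω) (b s) := fun s => Subtype.ext (by
    simpa [Rel, b] using (hP s s.2).2.2)
  let α : P → 𝓞 Ω := fun s => ⟨b s, (hPTS.2 Ω s (b s) (hb s)).2.2.1⟩
  have hα : ∀ s : P, Rel (((s : ℕ) : ℤ) : 𝓞 Ω) (α s) := fun s =>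
    RingOfIntegers.coe_injective (by
      simp only [map_mul, map_pow, map_add, map_one, map_neg, Int.cast_natCast, map_natCast]
      exact hb s)
  have hu : ∀ s : P, IsUnit (α s * (1 + α s)) := fun s => by
    obtain ⟨h1, h2, -, h3⟩ := hPTS.2 Ω s (b s) (hb s)
    exact IsUnit.of_mul_eq_one (⟨_, h3⟩ : 𝓞 Ω)
      (RingOfIntegers.coe_injective (mul_inv_cancel₀ (mul_ne_zero h1 h2)))
  obtain ⟨σ, hσ⟩ := minor_DET (ι := Ix D K) (κ := P × Fin n) (algebraMap (𝓞 Ω) Ω)
    (fun t s => coeff (s.2 : ℕ) (row L (α s.1) ((s.1 : ℕ) : ℤ) t.1 t.2.1 t.2.2.1 t.2.2.2))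
    fun c hc => by
      by_contra c0
      have L0 : (L : Ω) ≠ 0 := by exact_mod_cast hL
      refine hs.not_ge ?_
      rw [← Fintype.card_coe P]
      refine hZER Ω P b (fun s => (s : ℕ)) D K n
        (fun t => c t * (L : Ω) ^ ((t.2.2.1 : ℕ) + t.2.2.2)) (fun s s' e => ?_)
        (fun s s' e => Subtype.ext (Nat.cast_injective (R := Ω) e))
        (fun s => ⟨(hPTS.2 Ω s (b s) (hb s)).1, (hPTS.2 Ω s (b s) (hb s)).2.1⟩)
        (fun h => c0 (funext fun t =>
          (mul_eq_zero.1 (congrFun h t)).resolve_right (pow_ne_zero _ L0))) fun s => ?_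
      · obtain ⟨h1, h2, -⟩ := hPTS.2 Ω s (b s) (hb s)
        have h3 := (hb s).trans (e ▸ hb s').symm
        exact Subtype.ext (by
          exact_mod_cast mul_right_cancel₀ (pow_ne_zero 2 (mul_ne_zero h1 h2)) h3)
      · have h1 : X ^ n ∣ ∑ t : Ix D K, C (c t) * row L (b s) (s : ℕ) t.1 t.2.1 t.2.2.1 t.2.2.2 := by
          rw [X_pow_dvd_iff]
          intro m hm
          rw [← hc (s, ⟨m, hm⟩), map_sum]
          refine sum_congr rfl fun t _ => ?_
          rw [coeff_C_mul, map_DET, map_intCast, Int.cast_natCast]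
          rfl
        refine (dvd_sub_left h1).1 ?_
        rw [← sum_sub_distrib]
        refine dvd_sum fun t _ => ?_
        rw [map_mul, mul_assoc, ← mul_sub]
        exact (row_DET hd _ _ _ _ _ _).mul_left _
  set E := Matrix.of fun r s : Ix D K => coeff ((σ s).2 : ℕ)
    (row L (α (σ s).1) (((σ s).1 : ℕ) : ℤ) r.1 r.2.1 r.2.2.1 r.2.2.2) with hE
  have hN : (Fintype.card (Ix D K) : ℝ) = D * (K + 1) ^ 3 := by
    simp only [Fintype.card_prod, Fintype.card_fin]
    push_cast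
    ring
  let S : ℕ → Finset (Ix D K) := fun p => univ.filter fun s => Bad p (a (σ s).1)
  obtain ⟨φ, φ0, h1⟩ := log_DET Q (fun p hp => (hQ p hp).1)
    (fun p => (S p).card - (D + 7 * K * p) * (2 * K + 1)) hσ fun p hp => by
      obtain ⟨u, hw⟩ := hCNG p D K L n (hQ p hp).1 (hQ p hp).2 hd
      have p0 : (p : Ω) ≠ 0 := by exact_mod_cast (hQ p hp).1.ne_zero
      have h2 : ∀ s : P, ∃ w : Fin (D + 7 * K * p) × Fin (2 * K + 1) → ℕ → 𝓞 Ω, Bad p (a s) →
          ∀ (t : Ix D K) (m : ℕ), m < n → (p : 𝓞 Ω) ∣ coeff m (row L (α s) ((s : ℕ) : ℤ)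
            t.1 t.2.1 t.2.2.1 t.2.2.2) - ∑ τ, (u t τ : 𝓞 Ω) * w τ m := fun s => by
        by_cases h : Bad p (a s)
        · have h3 : Bad p (b s) := (isIntegral_algebraMap_iff
            (algebraMap Ω (AlgebraicClosure ℚ)).injective).1
            (by
              simp only [map_div₀, map_sub, map_pow, map_add, map_one, map_natCast]
              exact h)
          obtain ⟨w, hw⟩ := hw (𝓞 Ω) (α s) _ (hu s) (hα s) ⟨⟨_, h3⟩,
            RingOfIntegers.coe_injective (by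
              simp only [map_sub, map_pow, map_add, map_one]
              exact (mul_div_cancel₀ _ (pow_ne_zero 2 p0)).symm)⟩
          exact ⟨w, fun _ => hw⟩
        · exact ⟨0, fun c => absurd c h⟩
      choose w hw using h2
      have h3 := hDIV (𝓞 Ω) (Ix D K) _ p E (S p) (fun r τ => u r τ)
        (fun τ s => w (σ s).1 τ (σ s).2) fun r s hs => hw _ (mem_filter.1 hs).2 r _ (σ s).2.2
      rwa [Fintype.card_prod, Fintype.card_fin, Fintype.card_fin] at h3
  have m1 : (1 : ℝ) ≤ M := by exact_mod_cast hM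
  let ψ := φ.comp (algebraMap (𝓞 Ω) Ω)
  have h2 := Matrix.det_le (A := ψ.mapMatrix E) (abv := IsAbsoluteValue.toAbsoluteValue norm)
    (x := (2 * (5 * M)) ^ D * (5 * M) ^ K * (n * L) ^ (2 * K + 2) * (5 * M) ^ (2 * n))
    fun r s => by
      obtain ⟨t1, t2, -⟩ := hP _ (σ s).1.2
      have t3 : (((σ s).1 : ℕ) : ℝ) ≤ M := by exact_mod_cast t2
      obtain ⟨b1, b2⟩ := hPTS.1 (σ s).1 (ψ (α (σ s).1)) t1 (by
        simpa [Rel] using congrArg ψ (hα (σ s).1))
      have h3 := hSIZ (ψ (α (σ s).1)) ((σ s).1 : ℕ) (5 * M) D K L n r.1 r.2.1 r.2.2.1 r.2.2.2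
        (σ s).2 (by linarith) (by linarith) (by linarith)
        (by rw [Complex.norm_natCast]; linarith) hL r.1.2.le (Nat.le_of_lt_succ r.2.1.2)
        (Nat.le_of_lt_succ r.2.2.1.2) (Nat.le_of_lt_succ r.2.2.2.2) (σ s).2.2
      refine le_trans (le_of_eq ?_) h3
      change ‖ψ _‖ = _
      rw [hE, Matrix.of_apply, map_DET, map_intCast, Int.cast_natCast]
  rw [← hN]
  set N := Fintype.card (Ix D K) with hNd
  have h3 : ‖φ E.det‖ ≤ ((N : ℝ) *
      ((10 * M) ^ D * (5 * M) ^ K * (n * L) ^ (2 * K + 2) * (5 * M) ^ (2 * n))) ^ N := by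
    rw [← RingHom.map_det, nsmul_eq_mul, show (2 * (5 * M) : ℝ) = 10 * M by ring] at h2
    rw [mul_pow]
    refine le_trans h2 (mul_le_mul_of_nonneg_right ?_ (by positivity))
    exact_mod_cast Nat.factorial_le_pow N
  have h4 := Real.log_le_log (norm_pos_iff.2 φ0) h3
  rw [Real.log_pow] at h4
  have h5 : (N : ℝ) * y ≤ ∑ p ∈ Q, ((S p).card : ℝ) * Real.log p := by
    have h6 : ∑ p ∈ Q, ((S p).card : ℝ) * Real.log p = ∑ s : Ix D K,
        ∑ p ∈ Q.filter fun p => Bad p (a (σ s).1), Real.log p := by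
      simp only [S, card_filter, sum_filter, Nat.cast_sum, sum_mul]
      rw [sum_comm]
      refine sum_congr rfl fun s _ => sum_congr rfl fun p _ => ?_
      split_ifs <;> simp
    rw [h6, ← nsmul_eq_mul, hNd, ← card_univ]
    exact card_nsmul_le_sum _ _ _ fun s _ => hy _ (σ s).1.2
  have h6 : ∑ p ∈ Q, ((S p).card : ℝ) * Real.log p ≤
      ∑ p ∈ Q, ((D + 7 * K * p) * (2 * K + 1) : ℝ) * Real.log p +
      ∑ p ∈ Q, (((S p).card - (D + 7 * K * p) * (2 * K + 1) : ℕ) : ℝ) * Real.log p := by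
    rw [← sum_add_distrib]
    refine sum_le_sum fun p _ => ?_
    rw [← add_mul]
    refine mul_le_mul_of_nonneg_right ?_ (Real.log_natCast_nonneg p)
    exact_mod_cast le_add_tsub
  linarith

end Pool.Agent.MP_3e91a1_nt.CC

end

section

/-! Wronskians of linearly independent power series. -/

set_option autoImplicit false

open Finset Filter PowerSeries

noncomputable section

namespace Pool.Agent.MP_3e91a1_nt.CC

theorem wronski_WRO {F R : Type} [Field F] [CommRing R] [IsDomain R] [Algebra F R] (D : R →+ R)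
    (hmul : ∀ x y, D (x * y) = D x * y + x * D y)
    (hP : ∀ b c : R, c ≠ 0 → c * D b = b * D c → ∃ q : F, b = q • c) (r : ℕ) :
    ∀ f : Fin r → R, LinearIndependent F f →
      (Matrix.of fun i j : Fin r => D^[i] (f j)).det ≠ 0 := by
  induction r with
  | zero => intro f _; simp
  | succ r ih =>
    intro f hf h0
    obtain ⟨v, hv, h1⟩ := Matrix.exists_mulVec_eq_zero_iff.2 h0
    have h2 := ih (fun j => f j.castSucc) (hf.comp _ (Fin.castSucc_injective r))
    have h3 : ∀ i : Fin (r + 1), ∑ j, D^[i] (f j) * v j = 0 := fun i => congrFun h1 i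
    have key : ∀ w : Fin (r + 1) → R, w (Fin.last r) = 0 →
        (∀ i : Fin r, ∑ j, D^[i] (f j) * w j = 0) → ∀ j, w j = 0 := by
      intro w hw h
      have h4 : (fun j : Fin r => w j.castSucc) = 0 := by
        by_contra h5
        refine h2 (Matrix.exists_mulVec_eq_zero_iff.1 ⟨_, h5, funext fun i => ?_⟩)
        have h6 := h i
        rw [Fin.sum_univ_castSucc, hw, mul_zero, add_zero] at h6
        exact h6
      exact Fin.lastCases hw fun j => congrFun h4 j
    have hc : v (Fin.last r) ≠ 0 := fun h => hv (funext (key v h fun i => h3 i.castSucc))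
    have h5 : ∀ i : Fin r, ∑ j, D^[i] (f j) * D (v j) = 0 := by
      intro i
      have h6 := congrArg D (h3 i.castSucc)
      have h7 := h3 i.succ
      simp only [Fin.val_succ, Function.iterate_succ_apply'] at h7
      simp only [map_sum, hmul, map_zero, sum_add_distrib, Fin.val_castSucc, h7, zero_add] at h6
      exact h6
    have h6 := key (fun j => v (Fin.last r) * D (v j) - v j * D (v (Fin.last r))) (by ring)
      fun i => by
        have h7 := h3 i.castSucc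
        simp only [Fin.val_castSucc] at h7
        have h8 : ∑ j, D^[i] (f j) * (v (Fin.last r) * D (v j) - v j * D (v (Fin.last r))) =
            v (Fin.last r) * ∑ j, D^[i] (f j) * D (v j) -
              (∑ j, D^[i] (f j) * v j) * D (v (Fin.last r)) := by
          rw [mul_sum, sum_mul, ← sum_sub_distrib]
          exact sum_congr rfl fun j _ => by ring
        rw [h8, h5, h7, mul_zero, zero_mul, sub_zero]
    choose q hq using fun j => hP (v j) _ hc (sub_eq_zero.1 (h6 j))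
    have h7 : ∑ j, q j • f j = 0 := by
      refine mul_right_cancel₀ hc ?_
      have h8 := h3 0
      simp only [Fin.val_zero, Function.iterate_zero, id] at h8
      rw [zero_mul, ← h8, sum_mul]
      refine sum_congr rfl fun j _ => ?_
      conv_rhs => rw [hq j]
      rw [smul_mul_assoc, mul_smul_comm]
    have h8 := Fintype.linearIndependent_iff.1 hf q h7 (Fin.last r)
    have h9 := hq (Fin.last r)
    rw [h8, zero_smul] at h9
    exact hc h9

theorem ps_P_WRO {F : Type} [Field F] [CharZero F] (b c : F⟦X⟧) (hc : c ≠ 0)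
    (h : c * d⁄dX F b = b * d⁄dX F c) : ∃ q : F, b = q • c := by
  obtain ⟨m, c1, hc1, rfl⟩ : ∃ (m : ℕ) (c1 : F⟦X⟧), constantCoeff c1 ≠ 0 ∧ c = X ^ m * c1 :=
    ⟨_, _, fun h => hc (constantCoeff_divXPowOrder_eq_zero_iff.1 h),
      X_pow_order_mul_divXPowOrder.symm⟩
  refine ⟨coeff m b / constantCoeff c1, ?_⟩
  by_contra h1
  set q := coeff m b / constantCoeff c1 with hq
  obtain ⟨k, b1, hb1, h2⟩ : ∃ (k : ℕ) (b1 : F⟦X⟧), constantCoeff b1 ≠ 0 ∧
      b - q • (X ^ m * c1) = X ^ k * b1 :=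
    ⟨_, _, fun h => sub_ne_zero.2 h1 (constantCoeff_divXPowOrder_eq_zero_iff.1 h),
      X_pow_order_mul_divXPowOrder.symm⟩
  have e : ∀ (m : ℕ) (c : F⟦X⟧), X * d⁄dX F (X ^ m * c) =
      X ^ m * ((m : F⟦X⟧) * c + X * d⁄dX F c) := by
    intro m c
    rcases m with _ | m
    · simp
    · simp only [Derivation.leibniz, Derivation.leibniz_pow, derivative_X, smul_eq_mul,
        nsmul_eq_mul, Nat.add_sub_cancel]
      ring
  have h3 : X ^ m * c1 * d⁄dX F (X ^ k * b1) = X ^ k * b1 * d⁄dX F (X ^ m * c1) := by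
    rw [← h2, map_sub, Derivation.map_smul, mul_sub, h, sub_mul, mul_smul_comm, smul_mul_assoc]
  have h4 : (X : F⟦X⟧) ^ (m + k) * (c1 * ((k : F⟦X⟧) * b1 + X * d⁄dX F b1)) =
      X ^ (m + k) * (b1 * ((m : F⟦X⟧) * c1 + X * d⁄dX F c1)) := by
    linear_combination X * h3 - X ^ m * c1 * e k b1 + X ^ k * b1 * e m c1
  have h5 := congrArg constantCoeff (mul_left_cancel₀ (pow_ne_zero _ X_ne_zero) h4)
  simp only [map_mul, map_add, map_natCast, constantCoeff_X, zero_mul, add_zero] at h5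
  have h6 : (k : F) = m := by
    refine mul_left_cancel₀ (mul_ne_zero hc1 hb1) ?_
    linear_combination h5
  obtain rfl : k = m := by exact_mod_cast h6
  have h7 := congrArg (coeff k) h2
  have e2 : ∀ c : F⟦X⟧, coeff k (X ^ k * c) = constantCoeff c := fun c => by
    simpa using coeff_X_pow_mul c k 0
  rw [map_sub, map_smul, e2, e2, smul_eq_mul, hq, div_mul_cancel₀ _ hc1, sub_self] at h7
  exact hb1 h7.symm

theorem geo_WRO {F : Type} [Field F] (a : F) :
    (1 + C a * X) * PowerSeries.mk (fun k => (-a) ^ k) = (1 : F⟦X⟧) := by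
  ext k
  rcases k with _ | k
  · simp
  · rw [add_mul, one_mul, mul_assoc, map_add, coeff_C_mul, coeff_succ_X_mul, coeff_mk, coeff_mk,
      coeff_one, if_neg (Nat.succ_ne_zero k)]
    ring

theorem WRO_pf : WRO_st := by
  intro F _ _ a b r f hf
  refine wronski_WRO ((AddMonoidHom.mulLeft ((1 + C a * X) * (1 + C b * X))).comp
    (d⁄dX F).toLinearMap.toAddMonoidHom) (fun x y => ?_) (fun x y hy h => ?_) r f hf
  · change (1 + C a * X) * (1 + C b * X) * d⁄dX F (x * y) =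
      (1 + C a * X) * (1 + C b * X) * d⁄dX F x * y + x * ((1 + C a * X) * (1 + C b * X) * d⁄dX F y)
    simp only [Derivation.leibniz, smul_eq_mul]
    ring
  · change y * ((1 + C a * X) * (1 + C b * X) * d⁄dX F x) =
      x * ((1 + C a * X) * (1 + C b * X) * d⁄dX F y) at h
    refine ps_P_WRO x y hy (mul_left_cancel₀ (mul_ne_zero (left_ne_zero_of_mul_eq_one (geo_WRO a))
      (left_ne_zero_of_mul_eq_one (geo_WRO b))) ?_)
    linear_combination h

end Pool.Agent.MP_3e91a1_nt.CC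

end
end
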