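import Pool.Agent.Mg.F3e91a1.Gb3cda3
import Pool.Agent.Mg.F3e91a1.Gc3fe55

set_option linter.all false

section

/-! Definitions and statements for arbitrary families: the function field. -/

set_option autoImplicit false

open Finset Filter

noncomputable section

namespace Pool.Agent.MP_3e91a1_nt.FM

open TR GN

/-- polynomials in the parameter and the variable -/
abbrev P2 : Type := Polynomial (Polynomial ℤ)

/-- the value `T` for the parameter -/
def sp (q : P2) {S : Type} [CommRing S] (T : S) : Polynomial S :=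
  q.map (Polynomial.eval₂RingHom (Int.castRingHom S) T)

/-- the value at a point -/
def ev (q : P2) {S : Type} [CommRing S] (T a : S) : S := (sp q T).eval a

/-- the derivative in the parameter -/
def dT (q : P2) : P2 := q.sum fun k a => Polynomial.monomial k (Polynomial.derivative a)

/-- a family with `m` units -/
structure Fam (m : ℕ) where
  /-- the equation -/
  f : P2
  /-- the units -/
  U : Fin m → P2
  /-- their inverses -/
  V : Fin m → P2

/-- the equation is monic of degree `n` and the units are units -/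
def Fam.Ok {m : ℕ} (Φ : Fam m) (n : ℕ) : Prop :=
  Φ.f.Monic ∧ Φ.f.natDegree = n ∧ ∀ i, Φ.f ∣ Φ.U i * Φ.V i - 1

/-- the units are independent modulo constants -/
def Fam.Ind {m : ℕ} (Φ : Fam m) : Prop := ∀ e : Fin m → ℤ, e ≠ 0 → ∀ P : Polynomial ℤ, P ≠ 0 →
  ¬ Φ.f ∣ Polynomial.aeval (∏ i, Φ.U i ^ (e i).toNat * Φ.V i ^ (-e i).toNat) P

/-- `A` lists the roots -/
def Rf (f : P2) {n : ℕ} {S : Type} [CommRing S] (T : S) (A : Fin n → S) : Prop :=
  ∏ s, (Polynomial.X - Polynomial.C (A s)) = sp f T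

/-- `d` is the discriminant, up to sign -/
def IsE (f : P2) (n : ℕ) (d : Polynomial ℤ) : Prop :=
  ∀ (S : Type) [CommRing S] (T : S) (A : Fin n → S), Rf f T A → ∏ s, fd A s = Polynomial.aeval T d

/-- the units at the roots -/
def Fam.u {m n : ℕ} (Φ : Fam m) {S : Type} [CommRing S] (T : S) (A : Fin n → S)
    (j : Fin n × Fin m) : S := ev (Φ.U j.2) T (A j.1)

/-- their inverses -/
def Fam.v {m n : ℕ} (Φ : Fam m) {S : Type} [CommRing S] (T : S) (A : Fin n → S)
    (j : Fin n × Fin m) : S := ev (Φ.V j.2) T (A j.1)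

/-- the variables -/
abbrev Vs (n : ℕ) : Type := Option (Fin n ⊕ Fin n)

/-- their values -/
def gv {n : ℕ} {S : Type} (τ : S) (A A' : Fin n → S) : Vs n → S := fun o => o.elim τ (Sum.elim A A')

/-- a selection of `k` units and the relations for the others -/
structure Slc (n m k : ℕ) where
  /-- the selected units -/
  J : Fin k → Fin n × Fin m
  /-- the roots in the regulator -/
  ro : Fin m → Fin n
  /-- the common multiple -/
  N : ℕ
  /-- the exponents -/
  e : Fin m → Fin m → Fin k → ℤ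

/-- the determinant of the linear forms -/
def Slc.Phi {n m k : ℕ} (σ : Slc n m k) : MvPolynomial (Fin k) ℤ :=
  (Matrix.of fun s i : Fin m => ∑ j, MvPolynomial.C (σ.e s i j) * MvPolynomial.X j).det

/-- the relations between the logarithmic derivatives, for the derivation `δ` -/
def Slc.Rel {n m k : ℕ} (σ : Slc n m k) (Φ : Fam m) {S : Type} [CommRing S] (δ : S → S) (T : S)
    (A : Fin n → S) : Prop :=
  ∀ s i : Fin m, (σ.N : S) * (δ (Φ.u T A (σ.ro s, i)) * Φ.v T A (σ.ro s, i)) =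
    ∑ j, (σ.e s i j : S) * (δ (Φ.u T A (σ.J j)) * Φ.v T A (σ.J j))

/-- the selected units of the two families -/
def Uf {n m k k' : ℕ} (σ : Slc n m k) (σ' : Slc n m k') (Φ : Fam m) {S : Type} [CommRing S]
    (T T' : S) (A A' : Fin n → S) : Fin k ⊕ Fin k' → S :=
  Sum.elim (fun j => Φ.u T A (σ.J j)) fun j => Φ.u T' A' (σ'.J j)

/-- their inverses -/
def Vf {n m k k' : ℕ} (σ : Slc n m k) (σ' : Slc n m k') (Φ : Fam m) {S : Type} [CommRing S]
    (T T' : S) (A A' : Fin n → S) : Fin k ⊕ Fin k' → S :=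
  Sum.elim (fun j => Φ.v T A (σ.J j)) fun j => Φ.v T' A' (σ'.J j)

/-- the field generated by a parameter and the roots of the two polynomials -/
def Gf (F : Type) [Field F] (f : P2) {n : ℕ} (c c' : ℕ) {E : Type} [Field E] [Algebra F E]
    (τ : E) (A A' : Fin n → E) : Prop :=
  Transcendental F τ ∧ Rf f (c * τ) A ∧ Rf f (c' * τ) A' ∧
    IntermediateField.adjoin F (Set.range (gv τ A A')) = ⊤

/-- the discriminant exists -/
def DSF_st : Prop := ∀ (f : P2) (n : ℕ), f.Monic → f.natDegree = n → ∃ d, IsE f n d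

/-- the discriminant does not vanish -/
def DZF_st : Prop := ∀ (f : P2) (n : ℕ) (d : Polynomial ℤ) (T : ℤ), f.Monic → f.natDegree = n →
  IsE f n d → Irreducible (sp f (T : ℚ)) → Polynomial.aeval T d ≠ 0

/-- values, maps and the chain rule -/
def ITF_st : Prop :=
  (∀ (S S' : Type) [CommRing S] [CommRing S'] (φ : S →+* S') (q : P2) (T a : S),
    (sp q T).map φ = sp q (φ T) ∧ φ (ev q T a) = ev q (φ T) (φ a)) ∧
  (∀ (S : Type) [CommRing S] (T a : S), ∃ ψ : P2 →+* S, ∀ q, ψ q = ev q T a) ∧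
  (∀ (F S : Type) [CommRing F] [CommRing S] [Algebra F S] (δ : Derivation F S S) (q : P2) (T a : S),
    δ (ev q T a) = ev (Polynomial.derivative q) T a * δ a + ev (dT q) T a * δ T) ∧
  (∀ (F S : Type) [CommRing F] [CommRing S] [Algebra F S] (R : Subalgebra F S) (q : P2) (T a : S),
    T ∈ R → a ∈ R → ev q T a ∈ R) ∧
  ∀ (f : P2) (n : ℕ) (S : Type) [CommRing S] (T : S) (A : Fin n → S), Rf f T A →
    (∀ s, ev f T (A s) = 0) ∧ (∀ s, fd A s = ev (Polynomial.derivative f) T (A s)) ∧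
    (∀ π : Equiv.Perm (Fin n), Rf f T (A ∘ π)) ∧
    (∀ (S' : Type) [CommRing S'] (φ : S →+* S'), Rf f (φ T) (φ ∘ A)) ∧
    (∀ (m : ℕ) (Φ : Fam m), Φ.f = f → Φ.Ok n → ∀ j, Φ.u T A j * Φ.v T A j = 1) ∧
    ∀ (F : Type) [CommRing F] [Algebra F S] (δ : Derivation F S S) (s : Fin n),
      fd A s * δ (A s) = -ev (dT f) T (A s) * δ T

/-- the expansion in a uniformizer -/
def PLA_st : Prop := ∀ (F O E : Type) [Field F] [CommRing O] [IsDomain O]
  [IsDiscreteValuationRing O] [Algebra F O] [Field E] [Algebra O E] [IsFractionRing O E]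
  [Algebra F E] [IsScalarTower F O E],
  (∀ x : O, ∃ a : F, x - algebraMap F O a ∈ IsLocalRing.maximalIdeal O) →
  ∃ φ : E →ₐ[F] LaurentSeries F, ∀ x ∈ IsLocalRing.maximalIdeal O, x ≠ 0 →
    0 < (φ (algebraMap O E x)).order

/-- a place at infinity -/
def PLB_st : Prop := ∀ (F E : Type) [Field F] [CharZero F] [IsAlgClosed F] [Field E] [Algebra F E]
  (τ : E), Transcendental F τ → FiniteDimensional (IntermediateField.adjoin F {τ}) E →
  ∃ φ : E →ₐ[F] LaurentSeries F, (φ τ).order < 0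

/-- the generic field exists -/
def EXA_st : Prop := ∀ (F : Type) [Field F] (f : P2) (n c c' : ℕ), f.Monic → f.natDegree = n →
  ∃ (E : Type) (_ : Field E) (_ : Algebra F E) (τ : E) (A A' : Fin n → E), Gf F f c c' τ A A' ∧
    FiniteDimensional (IntermediateField.adjoin F {τ}) E

/-- it has a derivation -/
def EXB_st : Prop := ∀ (F E : Type) [Field F] [CharZero F] [Field E] [Algebra F E] (f : P2)
  (n : ℕ) (d : Polynomial ℤ) (c c' : ℕ) (τ : E) (A A' : Fin n → E) (φ : E →ₐ[F] LaurentSeries F),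
  Gf F f c c' τ A A' → IsE f n d → Cop F d c c' → 0 < c → 0 < c' → (φ τ).order < 0 →
  ∃ δ : Derivation F E E, δ τ = 1

/-- it maps to every field with roots -/
def LFF_st : Prop := ∀ (F E L : Type) [Field F] [Field E] [Algebra F E] [Field L] [Algebra F L]
  (f : P2) (n c c' : ℕ) (τ : E) (A A' : Fin n → E) (τ' : L) (B B' : Fin n → L),
  Gf F f c c' τ A A' → Transcendental F τ' → Rf f (c * τ') B → Rf f (c' * τ') B' →
  ∃ (φ : E →ₐ[F] L) (π π' : Equiv.Perm (Fin n)), φ τ = τ' ∧
    (∀ s, φ (A s) = B (π s)) ∧ ∀ s, φ (A' s) = B' (π' s)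

/-- in finitely many ways -/
def FNF_st : Prop := ∀ (F E L : Type) [Field F] [Field E] [Algebra F E] [Field L] [Algebra F L]
  (f : P2) (n c c' : ℕ) (τ : E) (A A' : Fin n → E) (τ' : L),
  Gf F f c c' τ A A' → Finite {φ : E →ₐ[F] L // φ τ = τ'}

/-- the maps respect the derivations -/
def UQF_st : Prop := ∀ (F E L : Type) [Field F] [CharZero F] [Field E] [Algebra F E] [Field L]
  [Algebra F L] (f : P2) (n : ℕ) (d : Polynomial ℤ) (c c' : ℕ) (τ : E) (A A' : Fin n → E)
  (δ : Derivation F E E) (δ' : Derivation F L L) (φ : E →ₐ[F] L), Gf F f c c' τ A A' → IsE f n d →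
  Cop F d c c' → 0 < c → 0 < c' → δ τ = 1 → ∀ v, δ' (φ v) = δ' (φ τ) * φ (δ v)

/-- a function without poles is constant -/
def LIF_st : Prop := ∀ (F E : Type) [Field F] [CharZero F] [Field E] [Algebra F E]
  (f : P2) (n c c' : ℕ) (τ : E) (A A' : Fin n → E) (φ₀ : E →ₐ[F] LaurentSeries F) (v : E),
  Gf F f c c' τ A A' → (φ₀ τ).order < 0 → IsIntegral (Algebra.adjoin F {τ}) v →
  (∀ φ : E →ₐ[F] LaurentSeries F, φ τ = φ₀ τ → ∀ k < 0, (φ v).coeff k = 0) →
  ∃ a : F, v = algebraMap F E a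

/-- the line is simply connected -/
def LDF_st : Prop := ∀ (F E : Type) [Field F] [CharZero F] [Field E] [Algebra F E]
  (f : P2) (n : ℕ) (d : Polynomial ℤ) (c c' : ℕ) (τ : E) (A A' : Fin n → E)
  (δ : Derivation F E E) (φ₀ : E →ₐ[F] LaurentSeries F) (v : E), Gf F f c c' τ A A' → IsE f n d →
  Cop F d c c' → 0 < c → 0 < c' → δ τ = 1 → (φ₀ τ).order < 0 →
  v ∈ Algebra.adjoin F (insert τ (Set.range A)) → v ∈ Algebra.adjoin F (insert τ (Set.range A')) →
  v ∈ Algebra.adjoin F {τ}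

/-- a product of units of order zero at all places at infinity is constant -/
def CSF_st : Prop := ∀ (F E ι : Type) [Field F] [CharZero F] [Field E] [Algebra F E] [Fintype ι]
  (f : P2) (n c c' : ℕ) (τ : E) (A A' : Fin n → E)
  (φ₀ : E →ₐ[F] LaurentSeries F) (δ : Derivation F E E) (U V : ι → E) (e : ι → ℤ),
  Gf F f c c' τ A A' → (φ₀ τ).order < 0 → (∀ j, U j * V j = 1) →
  (∀ j, IsIntegral (Algebra.adjoin F {τ}) (U j)) → (∀ j, IsIntegral (Algebra.adjoin F {τ}) (V j)) →
  (∀ φ : E →ₐ[F] LaurentSeries F, φ τ = φ₀ τ → ∑ j, e j * (φ (U j)).order = 0) →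
  (∃ a : F, a ≠ 0 ∧ ∏ j, U j ^ e j = algebraMap F E a) ∧ ∑ j, (e j : E) * (δ (U j) * V j) = 0

/-- the units are not constant at all roots -/
def RNK_st : Prop := ∀ (F E : Type) [Field F] [CharZero F] [Field E] [Algebra F E] (m n c : ℕ)
  (Φ : Fam m) (τ : E) (A : Fin n → E) (e : Fin m → ℤ), (∀ a : F, IsAlgebraic ℤ a) →
  Transcendental F τ → 0 < c → Rf Φ.f (c * τ) A → Function.Injective A → Φ.Ok n → Φ.Ind → e ≠ 0 →
  ¬ ∀ s, ∃ a : F, ∏ i, Φ.u (c * τ) A (s, i) ^ e i = algebraMap F E a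

/-- a matrix of full rank has a nonzero minor -/
def ROW_st : Prop := ∀ (n m : ℕ) (o : Fin n → Fin m → ℤ),
  (∀ e : Fin m → ℤ, (∀ s, ∑ i, e i * o s i = 0) → e = 0) →
  ∃ ro : Fin m → Fin n, (Matrix.of fun s i => o (ro s) i).det ≠ 0

/-- the selection in the generic field -/
def SAF_st : Prop := ∀ (F E : Type) [Field F] [CharZero F] [Field E] [Algebra F E]
  (m n : ℕ) (Φ : Fam m) (d : Polynomial ℤ) (c c' : ℕ) (τ : E) (A A' : Fin n → E)
  (δ : Derivation F E E) (φ₀ : E →ₐ[F] LaurentSeries F), (∀ a : F, IsAlgebraic ℤ a) → Φ.Ok n →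
  Φ.Ind → Gf F Φ.f c c' τ A A' → IsE Φ.f n d → Cop F d c c' → 0 < c → 0 < c' → δ τ = 1 →
  (φ₀ τ).order < 0 →
  ∃ (k k' : ℕ) (σ : Slc n m k) (σ' : Slc n m k'), 0 < σ.N ∧ 0 < σ'.N ∧ σ.Phi ≠ 0 ∧ σ'.Phi ≠ 0 ∧
    σ.Rel Φ δ (c * τ) A ∧ σ'.Rel Φ δ (c' * τ) A' ∧ ∀ (κ : Fin k ⊕ Fin k' → F) (w : E),
      ∑ j, κ j • (δ (Uf σ σ' Φ (c * τ) (c' * τ) A A' j) * Vf σ σ' Φ (c * τ) (c' * τ) A A' j) = δ w →
      κ = 0

/-- the selection holds at the point -/
def Pf {F : Type} [Field F] {n m k k' : ℕ} (σ : Slc n m k) (σ' : Slc n m k') (Φ : Fam m) (c c' : ℕ)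
    (τ : PowerSeries F) (A A' : Fin n → PowerSeries F) : Prop :=
  σ.Rel Φ (PowerSeries.derivative F) (c * τ) A ∧ σ'.Rel Φ (PowerSeries.derivative F) (c' * τ) A' ∧
    AlgebraicIndependent F fun o : Option (Fin k ⊕ Fin k') => o.elim τ fun j =>
      lgs (Uf σ σ' Φ (c * τ) (c' * τ) A A' j) (Vf σ σ' Φ (c * τ) (c' * τ) A A' j)

/-- the selection at the points -/
def SRF_st : Prop := ∀ (F : Type) [Field F] [CharZero F] [IsAlgClosed F] (m n : ℕ) (Φ : Fam m)
  (d : Polynomial ℤ) (c c' : ℕ), (∀ a : F, IsAlgebraic ℤ a) → Φ.Ok n → Φ.Ind → IsE Φ.f n d →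
  Cop F d c c' → 0 < c → 0 < c' →
  ∃ (k k' : ℕ) (σ : Slc n m k) (σ' : Slc n m k'), 0 < σ.N ∧ 0 < σ'.N ∧ σ.Phi ≠ 0 ∧ σ'.Phi ≠ 0 ∧
    ∀ (t κ : F) (τ : PowerSeries F) (A A' : Fin n → PowerSeries F), κ ≠ 0 →
      τ = PowerSeries.C t + PowerSeries.C κ * PowerSeries.X → Rf Φ.f (c * τ) A →
      Rf Φ.f (c' * τ) A' → ∃ π π' : Equiv.Perm (Fin n), Pf σ σ' Φ c c' τ (A ∘ π) (A' ∘ π')

/-- reduction of the monomials -/
def RDF_st : Prop := ∀ (f : P2) (n : ℕ), ∃ h : ℕ, ∀ (c c' B : ℕ) (α : Vs n → ℕ), ∑ i, α i ≤ B →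
  f.Monic → f.natDegree = n → ∃ u : Fin (h * B + 1) × (Fin n ⊕ Fin n → Fin n) → ℤ,
    ∀ (S : Type) [CommRing S] (τ : S) (A A' : Fin n → S), Rf f (c * τ) A → Rf f (c' * τ) A' →
      ∏ i, gv τ A A' i ^ α i = ∑ q, (u q : S) * (τ ^ (q.1 : ℕ) * ∏ i, Sum.elim A A' i ^ (q.2 i : ℕ))

/-- the number of zeros of a function on the curve -/
def NRF_st : Prop := ∀ (f : P2) (n c c' : ℕ), f.Monic → f.natDegree = n → ∃ ν : ℕ,
  ∀ (F P : Type) [Field F] [CharZero F] (N : ℕ) (t κ : P → F) (τ : P → PowerSeries F)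
    (A A' : P → Fin n → PowerSeries F) (W : MvPolynomial (Vs n) F) (Q : Finset P),
    Function.Injective t → (∀ s, κ s ≠ 0) →
    (∀ s, τ s = PowerSeries.C (t s) + PowerSeries.C (κ s) * PowerSeries.X) →
    (∀ s, Rf f (c * τ s) (A s)) → (∀ s, Rf f (c' * τ s) (A' s)) →
    (∀ s ∈ Q, MvPolynomial.aeval (gv (τ s) (A s) (A' s)) W ≠ 0 ∧
      PowerSeries.X ^ N ∣ MvPolynomial.aeval (gv (τ s) (A s) (A' s)) W) →
    Q.card * N ≤ ν * (W.totalDegree + ν)

/-- the zero estimate -/
def ZEF_st : Prop := ∀ (n m k k' : ℕ) (σ : Slc n m k) (σ' : Slc n m k') (Φ : Fam m)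
  (d : Polynomial ℤ) (c c' : ℕ), Φ.Ok n → IsE Φ.f n d → ∃ ν : ℕ,
  ∀ (F P : Type) [Field F] [CharZero F] [Fintype P] (D K N : ℕ) (t κ : P → F)
    (τ : P → PowerSeries F) (A A' : P → Fin n → PowerSeries F)
    (v : Iy D K (Fin k ⊕ Fin k') → F), Cop F d c c' → 0 < c → 0 < c' →
    Function.Injective t → (∀ s, κ s ≠ 0) →
    (∀ s, τ s = PowerSeries.C (t s) + PowerSeries.C (κ s) * PowerSeries.X) →
    (∀ s, Rf Φ.f (c * τ s) (A s)) → (∀ s, Rf Φ.f (c' * τ s) (A' s)) →
    (∀ s, Pf σ σ' Φ c c' (τ s) (A s) (A' s)) → v ≠ 0 →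
    (∀ s, PowerSeries.X ^ N ∣ ∑ q : Iy D K (Fin k ⊕ Fin k'), PowerSeries.C (v q) *
      (τ s ^ (q.1 : ℕ) * PowerSeries.C (t s) ^ (q.2.1 : ℕ) *
        ∏ j, lgs (Uf σ σ' Φ ((c : PowerSeries F) * τ s) ((c' : PowerSeries F) * τ s) (A s) (A' s) j)
          (Vf σ σ' Φ ((c : PowerSeries F) * τ s) ((c' : PowerSeries F) * τ s) (A s) (A' s) j) ^
            (q.2.2 j : ℕ))) →
    (Fintype.card P - K) * (N - (K + 1) ^ (2 * (k + k') + 1)) ≤
      ν * ((K + 1) ^ (2 * (k + k') + 1) * (D + ν * (K + 1) ^ (2 * (k + k') + 1)) + ν)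

/-- from units of the quotient ring to a family -/
def ADJ_st : Prop := ∀ (m : ℕ) (f : P2) (u : Fin m → (AdjoinRoot f)ˣ), f.Monic →
  (∀ e : Fin m → ℤ, e ≠ 0 → Transcendental ℤ ((∏ i, u i ^ e i : (AdjoinRoot f)ˣ) : AdjoinRoot f)) →
  ∃ Φ : Fam m, Φ.f = f ∧ Φ.Ok f.natDegree ∧ Φ.Ind

/-- a shift of the parameter -/
def SHF_st : Prop := ∀ (m n s : ℕ) (Φ : Fam m), Φ.Ok n → Φ.Ind → ∃ Φ' : Fam m, Φ'.Ok n ∧ Φ'.Ind ∧
  ∀ (S : Type) [CommRing S] (T : S), sp Φ'.f T = sp Φ.f (T - s)

/-- the equation of the examples -/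
def exf {m : ℕ} (g : Fin m → Polynomial ℤ) : P2 :=
  (∏ i, (g i).map Polynomial.C) * (Polynomial.X + Polynomial.C Polynomial.X) - 1

/-- the examples have independent units -/
def EXM_st : Prop := ∀ (m : ℕ) (g : Fin m → Polynomial ℤ), (∀ i, (g i).Monic ∧ 0 < (g i).natDegree) →
  (∀ i j, i ≠ j → IsCoprime ((g i).map (Int.castRingHom ℚ)) ((g j).map (Int.castRingHom ℚ))) →
  (exf g).Monic ∧ ∃ u : Fin m → (AdjoinRoot (exf g))ˣ, ∀ e : Fin m → ℤ, e ≠ 0 →
    Transcendental ℤ ((∏ i, u i ^ e i : (AdjoinRoot (exf g))ˣ) : AdjoinRoot (exf g))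

/-- the examples are irreducible -/
def IRR_st : Prop := ∀ g : Polynomial ℤ, g.Monic → ∀ᶠ T : ℕ in atTop,
  Irreducible (g * (Polynomial.X + Polynomial.C (T : ℤ)) - 1)

end Pool.Agent.MP_3e91a1_nt.FM

end
end

section

/-! From units of the quotient ring to a family. -/

set_option autoImplicit false

open Finset Polynomial

namespace Pool.Agent.MP_3e91a1_nt.FM

open TR GN

theorem zp_ADJ {G : Type} [CommGroup G] (u : G) (e : ℤ) :
    u ^ e = u ^ e.toNat * u⁻¹ ^ (-e).toNat := by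
  rw [inv_pow, ← zpow_natCast, ← zpow_natCast, ← zpow_sub, Int.toNat_sub_toNat_neg]

theorem ADJ_pf : ADJ_st := by
  intro m f u hf hu
  choose U hU using fun i => AdjoinRoot.mk_surjective (g := f) (u i : AdjoinRoot f)
  choose V hV using fun i => AdjoinRoot.mk_surjective (g := f) ((u i)⁻¹ : (AdjoinRoot f)ˣ)
  refine ⟨⟨f, U, V⟩, rfl, ⟨hf, rfl, fun i => ?_⟩, fun e he P hP h => hu e he ⟨P, hP, ?_⟩⟩
  · rw [← AdjoinRoot.mk_eq_zero, map_sub, map_mul, hU, hV, map_one, Units.mul_inv, sub_self]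
  · have h1 := AdjoinRoot.mk_eq_zero.2 h
    have h2 : ((∏ i, u i ^ e i : (AdjoinRoot f)ˣ) : AdjoinRoot f) =
        AdjoinRoot.mk f (∏ i, U i ^ (e i).toNat * V i ^ (-e i).toNat) := by
      simp only [map_prod, map_mul, map_pow, hU, hV, zp_ADJ (u _) (e _), Units.coe_prod,
        Units.val_mul, Units.val_pow_eq_pow_val]
    rw [h2, ← h1]
    simp only [aeval_def, algebraMap_int_eq, hom_eval₂]
    congr 1

end Pool.Agent.MP_3e91a1_nt.FM

end

section

/-! The generic field exists. -/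

set_option autoImplicit false

open Finset Polynomial

noncomputable section

namespace Pool.Agent.MP_3e91a1_nt.FM

open TR GN

theorem split_EXA {K : Type} [Field K] [IsAlgClosed K] (n : ℕ) : ∀ p : K[X], p.Monic →
    p.natDegree = n → ∃ a : Fin n → K, ∏ s, (X - C (a s)) = p := by
  induction n with
  | zero => exact fun p hp h => ⟨Fin.elim0, by simp [hp.natDegree_eq_zero.1 h]⟩
  | succ n ih =>
    intro p hp h
    obtain ⟨a, ha⟩ := IsAlgClosed.exists_root p
      (natDegree_pos_iff_degree_pos.1 (by omega)).ne'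
    obtain ⟨q, rfl⟩ := dvd_iff_isRoot.2 ha
    have hq : q.Monic := (monic_X_sub_C a).of_mul_monic_left hp
    rw [(monic_X_sub_C a).natDegree_mul hq, natDegree_X_sub_C] at h
    obtain ⟨b, hb⟩ := ih q hq (by omega)
    exact ⟨Fin.cons a b, by rw [Fin.prod_univ_succ, ← hb]; rfl⟩

theorem sp_EXA (f : P2) {S S' : Type} [CommRing S] [CommRing S'] (φ : S →+* S') (T : S) :
    (sp f T).map φ = sp f (φ T) := by
  rw [sp, sp, Polynomial.map_map]
  congr 1
  ext <;> simp

theorem rf_EXA {f : P2} {n : ℕ} {S S' : Type} [CommRing S] [CommRing S'] (φ : S →+* S')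
    (hφ : Function.Injective φ) {T : S} {A : Fin n → S} (h : Rf f (φ T) (φ ∘ A)) : Rf f T A := by
  apply Polynomial.map_injective φ hφ
  rw [sp_EXA, ← h]
  simp [Polynomial.map_prod]

theorem int_EXA {K E : Type} [Field K] [Field E] [Algebra K E] {f : P2} (hf : f.Monic) {n : ℕ}
    (T : K) {A : Fin n → E} (h : Rf f (algebraMap K E T) A) (s : Fin n) : IsIntegral K (A s) := by
  refine ⟨sp f T, hf.map _, ?_⟩
  rw [eval₂_eq_eval_map, sp_EXA, ← h, eval_prod]
  exact prod_eq_zero (mem_univ s) (by simp)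

theorem fin_EXA {F E : Type} [Field F] [Field E] [Algebra F E] {f : P2} (hf : f.Monic)
    {n c c' : ℕ} {τ : E} {A A' : Fin n → E} (h : Gf F f c c' τ A A') :
    FiniteDimensional (IntermediateField.adjoin F {τ}) E := by
  let K := IntermediateField.adjoin F {τ}
  let t : K := IntermediateField.AdjoinSimple.gen F τ
  have h1 : FiniteDimensional K (IntermediateField.adjoin K (Set.range (gv τ A A'))) := by
    refine IntermediateField.finiteDimensional_adjoin ?_
    rintro _ ⟨o, rfl⟩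
    rcases o with _ | s | s
    · exact isIntegral_algebraMap (x := t)
    · exact int_EXA hf (c * t) (by rw [map_mul, map_natCast]; exact h.2.1) s
    · exact int_EXA hf (c' * t) (by rw [map_mul, map_natCast]; exact h.2.2.1) s
  have h2 : IntermediateField.adjoin K (Set.range (gv τ A A')) = ⊤ := by
    refine eq_top_iff.2 fun x _ => ?_
    have h3 : IntermediateField.adjoin F (Set.range (gv τ A A')) ≤
        (IntermediateField.adjoin K (Set.range (gv τ A A'))).restrictScalars F :=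
      IntermediateField.adjoin_le_iff.2 (IntermediateField.subset_adjoin K _)
    exact h3 (h.2.2.2 ▸ IntermediateField.mem_top)
  rw [h2] at h1
  exact (IntermediateField.topEquiv (F := K) (E := E)).toLinearEquiv.finiteDimensional

theorem EXA_pf : EXA_st := by
  intro F _ f n c c' hf hn
  let L := AlgebraicClosure (RatFunc F)
  obtain ⟨τ, hT⟩ : ∃ τ : L, Transcendental F τ := ⟨algebraMap (RatFunc F) L RatFunc.X,
    (transcendental_algebraMap_iff (algebraMap (RatFunc F) L).injective).2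
      RatFunc.transcendental_X⟩
  obtain ⟨B, hB⟩ := split_EXA n (sp f (c * τ)) (hf.map _) ((hf.natDegree_map _).trans hn)
  obtain ⟨B', hB'⟩ := split_EXA n (sp f (c' * τ)) (hf.map _) ((hf.natDegree_map _).trans hn)
  set E := IntermediateField.adjoin F (Set.range (gv τ B B')) with hE
  have m0 : ∀ o, gv τ B B' o ∈ E := fun o => IntermediateField.subset_adjoin F _ ⟨o, rfl⟩
  have m1 : τ ∈ E := m0 none
  have m2 : ∀ s, B s ∈ E := fun s => m0 (some (Sum.inl s))
  have m3 : ∀ s, B' s ∈ E := fun s => m0 (some (Sum.inr s))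
  have hG : Gf F f c c' (⟨τ, m1⟩ : E) (fun s => ⟨B s, m2 s⟩) fun s => ⟨B' s, m3 s⟩ := by
    refine ⟨fun h => hT (h.algHom E.val), ?_, ?_, ?_⟩
    · refine rf_EXA (algebraMap E L) Subtype.val_injective ?_
      rw [map_mul, map_natCast]
      exact hB
    · refine rf_EXA (algebraMap E L) Subtype.val_injective ?_
      rw [map_mul, map_natCast]
      exact hB'
    · apply IntermediateField.lift_injective E
      rw [IntermediateField.lift_adjoin, IntermediateField.lift_top, ← Set.range_comp]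
      have : (Subtype.val ∘ gv (⟨τ, m1⟩ : E) (fun s => ⟨B s, m2 s⟩) fun s => ⟨B' s, m3 s⟩) =
          gv τ B B' := by
        funext o
        rcases o with _ | s | s <;> rfl
      rw [this]
  exact ⟨E, inferInstance, inferInstance, _, _, _, hG, fin_EXA hf hG⟩

end Pool.Agent.MP_3e91a1_nt.FM

end
end

section

/-! The generic field has a derivation. -/

set_option autoImplicit false

open Finset Filter

noncomputable section

namespace Pool.Agent.MP_3e91a1_nt.FM

open TR GN

lemma pull_EXB {F E L : Type} [Field F] [Field E] [Field L] [Algebra F E] [Algebra F L]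
    (φ : E →ₐ[F] L) (f : L → L) (h1 : ∀ x y, f (x + y) = f x + f y)
    (h2 : ∀ x y, f (x * y) = x * f y + y * f x) (h3 : ∀ a : F, f (algebraMap F L a) = 0) {τ : E}
    (h : f (φ τ) ≠ 0) : ∃ δ : Derivation F E E, δ τ = 1 := by
  let _ : Algebra E L := φ.toRingHom.toAlgebra
  obtain ⟨l, hl⟩ := Module.Projective.exists_dual_eq_one E h
  have hs : ∀ (x : E) (y : L), l (φ x * y) = x * l y := fun x y => l.map_smul x y
  have hm : ∀ x y : E, l (f (φ (x * y))) = x * l (f (φ y)) + y * l (f (φ x)) := fun x y => by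
    rw [map_mul, h2, map_add, hs, hs]
  refine ⟨Derivation.mk'
    { toFun := fun v => l (f (φ v))
      map_add' := fun x y => by rw [map_add, h1, map_add]
      map_smul' := fun a x => by
        rw [Algebra.smul_def, hm, φ.commutes, h3, map_zero, RingHom.id_apply, Algebra.smul_def]
        ring }
    fun x y => hm x y, hl⟩

theorem EXB_pf (_hITF : ITF_st) (hLAU : LAU_st) : EXB_st := by
  intro F E _ _ _ _ f n d c c' τ A A' φ _ _ _ _ _ ho
  obtain ⟨D, hD, -⟩ := hLAU F
  refine pull_EXB φ D (fun x y => map_add D x y) (fun x y => D.leibniz x y)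
    (fun a => D.map_algebraMap a) fun h => ?_
  have h0 : φ τ ≠ 0 := fun h0 => by simp [h0] at ho
  have h1 := hD (φ τ) (φ τ).order
  rw [h, HahnSeries.coeff_zero] at h1
  exact mul_ne_zero (Int.cast_ne_zero.2 ho.ne) (mt HahnSeries.coeff_order_eq_zero.1 h0) h1.symm

end Pool.Agent.MP_3e91a1_nt.FM

end
end

section

/-! The generic field has finitely many places over a given value of the parameter. -/

set_option autoImplicit false

open Finset Polynomial

namespace Pool.Agent.MP_3e91a1_nt.FM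

open TR GN

theorem map_FNF {E L : Type} [CommRing E] [CommRing L] (φ : E →+* L) (q : P2) (T : E) :
    (sp q T).map φ = sp q (φ T) := by
  rw [sp, sp, Polynomial.map_map]
  congr 1
  exact Polynomial.ringHom_ext' (RingHom.ext_int _ _) (by simp)

theorem root_FNF {f : P2} {n : ℕ} {E L : Type} [Field E] [Field L] (φ : E →+* L) {T : E}
    {A : Fin n → E} (h : Rf f T A) (s : Fin n) : φ (A s) ∈ (sp f (φ T)).roots := by
  have e : ∏ s, (X - C (φ (A s))) = sp f (φ T) := by
    have := congrArg (Polynomial.map φ) h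
    rw [map_FNF] at this
    simpa [Polynomial.map_prod] using this
  rw [← e, mem_roots (monic_prod_of_monic _ _ fun s _ => monic_X_sub_C _).ne_zero, IsRoot,
    eval_prod]
  exact prod_eq_zero (mem_univ s) (by simp)

theorem FNF_pf : FNF_st := by
  classical
  intro F E L _ _ _ _ _ f n c c' τ A A' τ' ⟨_, h1, h2, h3⟩
  refine Finite.of_injective (β := (Fin n → (sp f (c * τ')).roots.toFinset) ×
      (Fin n → (sp f (c' * τ')).roots.toFinset))
    (fun φ => (fun s => ⟨φ.1 (A s), by simpa [φ.2] using root_FNF φ.1.toRingHom h1 s⟩,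
      fun s => ⟨φ.1 (A' s), by simpa [φ.2] using root_FNF φ.1.toRingHom h2 s⟩)) fun φ ψ e => ?_
  obtain ⟨e1, e2⟩ := Prod.mk.inj e
  refine Subtype.ext (AlgHom.ext fun x => ?_)
  have hx : x ∈ IntermediateField.adjoin F (Set.range (gv τ A A')) := h3 ▸ IntermediateField.mem_top
  induction hx using IntermediateField.adjoin_induction with
  | mem x hx =>
    obtain ⟨_ | s | s, rfl⟩ := hx
    · exact φ.2.trans ψ.2.symm
    · exact congrArg Subtype.val (congrFun e1 s)
    · exact congrArg Subtype.val (congrFun e2 s)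
  | algebraMap x => simp
  | add x y _ _ hx hy => simp [hx, hy]
  | inv x _ hx => simp [hx]
  | mul x y _ _ hx hy => simp [hx, hy]

end Pool.Agent.MP_3e91a1_nt.FM

end

section

/-! The generic field maps to every field with roots. -/

set_option autoImplicit false

noncomputable section

namespace Pool.Agent.MP_3e91a1_nt.FM

open TR GN

theorem map_LFF (g : P2) {S S' : Type} [CommRing S] [CommRing S'] (φ : S →+* S') (T : S) :
    (sp g T).map φ = sp g (φ T) := by
  unfold sp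
  rw [Polynomial.map_map]
  congr 1
  refine Polynomial.ringHom_ext' (RingHom.ext_int _ _) ?_
  simp

theorem rt_LFF {m : ℕ} {r : P2} {S S' : Type} [CommRing S] [CommRing S'] (φ : S →+* S')
    {T : S} {A : Fin m → S} (h : Rf r T A) : Rf r (φ T) fun s => φ (A s) := by
  unfold Rf at h ⊢
  rw [← map_LFF, ← h, Polynomial.map_prod]
  simp only [Polynomial.map_sub, Polynomial.map_X, Polynomial.map_C]

theorem monic_LFF {m : ℕ} {r : P2} {K E : Type} [Field K] [Field E] (j : K →+* E) {T : K}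
    {A : Fin m → E} (h : Rf r (j T) A) : (sp r T).Monic := by
  apply Polynomial.monic_of_injective j.injective
  rw [map_LFF, ← h]
  exact Polynomial.monic_prod_of_monic _ _ fun s _ => Polynomial.monic_X_sub_C _

theorem root_LFF {m : ℕ} {r : P2} {K E L : Type} [Field K] [Field E] [Field L] [Algebra K E]
    (f : K →+* L) {T : K} {A : Fin m → E} {B : Fin m → L}
    (hA : Rf r (algebraMap K E T) A) (hB : Rf r (f T) B) (s : Fin m) :
    IsIntegral K (A s) ∧ ((minpoly K (A s)).map f).Splits := by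
  have h0 : Polynomial.aeval (A s) (sp r T) = 0 := by
    rw [Polynomial.aeval_def, Polynomial.eval₂_eq_eval_map, map_LFF, ← hA, Polynomial.eval_prod]
    exact Finset.prod_eq_zero (Finset.mem_univ s) (by simp)
  have hm := monic_LFF (algebraMap K E) hA
  refine ⟨⟨sp r T, hm, h0⟩, ?_⟩
  have hs : ((sp r T).map f).Splits := by
    rw [map_LFF, ← hB]
    exact Polynomial.Splits.prod fun s _ => Polynomial.Splits.X_sub_C _
  exact hs.of_dvd (hm.map f).ne_zero (Polynomial.map_dvd f (minpoly.dvd K (A s) h0))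

theorem LFF_pf : LFF_st := by
  intro F E L _ _ _ _ _ r m c c' τ A A' τ' B B' hG hτ' hB hB'
  obtain ⟨hτ, hA, hA', htop⟩ := hG
  let K : IntermediateField F E := IntermediateField.adjoin F {τ}
  let t : K := IntermediateField.AdjoinSimple.gen F τ
  let e := RatFunc.algEquivOfTranscendental τ hτ
  let e' := RatFunc.algEquivOfTranscendental τ' hτ'
  let f : K →ₐ[F] L := (IntermediateField.adjoin F {τ'}).val.comp
    ((e.symm.trans e' : _ ≃ₐ[F] _) : K →ₐ[F] IntermediateField.adjoin F {τ'})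
  have het : e RatFunc.X = t := by
    apply Subtype.ext
    exact RatFunc.algEquivOfTranscendental_X τ hτ
  have hft : f t = τ' := by
    rw [← het]
    show ((e' (e.symm (e RatFunc.X)) : IntermediateField.adjoin F {τ'}) : L) = τ'
    rw [AlgEquiv.symm_apply_apply]
    exact RatFunc.algEquivOfTranscendental_X τ' hτ'
  have ht : algebraMap K E t = τ := rfl
  have k1 : ∀ n : ℕ, algebraMap K E (n * t) = n * τ := fun n => by
    rw [map_mul, map_natCast, ht]
  have k2 : ∀ n : ℕ, f.toRingHom (n * t) = n * τ' := fun n => by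
    rw [map_mul, map_natCast]
    exact congrArg _ hft
  have hS : IntermediateField.adjoin K (Set.range A ∪ Set.range A') = ⊤ := by
    apply IntermediateField.restrictScalars_injective F
    rw [IntermediateField.restrictScalars_top, eq_top_iff, ← htop, IntermediateField.adjoin_le_iff]
    rintro _ ⟨o, rfl⟩
    rcases o with _ | s | s
    · exact (IntermediateField.adjoin K (Set.range A ∪ Set.range A')).algebraMap_mem t
    · exact IntermediateField.subset_adjoin K _ (Or.inl ⟨s, rfl⟩)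
    · exact IntermediateField.subset_adjoin K _ (Or.inr ⟨s, rfl⟩)
  obtain ⟨φ, hφ⟩ := IntermediateField.exists_algHom_of_adjoin_splits' f
    (S := Set.range A ∪ Set.range A') (by
      rintro _ (⟨s, rfl⟩ | ⟨s, rfl⟩)
      · exact root_LFF f.toRingHom (T := c * t) (by rw [k1]; exact hA) (by rw [k2]; exact hB) s
      · exact root_LFF f.toRingHom (T := c' * t) (by rw [k1]; exact hA') (by rw [k2]; exact hB') s)
    hS
  have hφτ : φ τ = τ' := by
    rw [← hft, ← hφ]
    rfl
  have k3 : ∀ n : ℕ, φ.toRingHom (n * τ) = n * τ' := fun n => by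
    rw [map_mul, map_natCast]
    exact congrArg _ hφτ
  have p1 := rt_LFF φ.toRingHom hA
  have p2 := rt_LFF φ.toRingHom hA'
  rw [k3] at p1 p2
  obtain ⟨π, hπ⟩ := perm_LFT _ B (Eq.trans p1 hB.symm)
  obtain ⟨π', hπ'⟩ := perm_LFT _ B' (Eq.trans p2 hB'.symm)
  exact ⟨φ, π, π', hφτ, hπ, hπ'⟩

end Pool.Agent.MP_3e91a1_nt.FM

end
end

section

/-! The expansion of a discrete valuation ring in a uniformizer. -/

set_option autoImplicit false

open Polynomial

noncomputable section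

namespace Pool.Agent.MP_3e91a1_nt.FM

open TR GN

section

variable {F O : Type} [Field F] [CommRing O] [Algebra F O]

/-- `g` is the expansion of `x` in powers of `π` -/
def Rel_PLA (π x : O) (g : PowerSeries F) : Prop :=
  ∀ N : ℕ, ∃ P : F[X], π ^ N ∣ x - aeval π P ∧ PowerSeries.X ^ N ∣ g - (P : PowerSeries F)

theorem key_PLA [IsDomain O] {π : O} (h : Irreducible π) :
    ∀ (N : ℕ) (P : F[X]), π ^ N ∣ aeval π P → X ^ N ∣ P := by
  intro N
  induction N with
  | zero => intro P _; simp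
  | succ N ih =>
    intro P hP
    have e : aeval π P = π * aeval π P.divX + algebraMap F O (P.coeff 0) := by
      conv_lhs => rw [← X_mul_divX_add P, map_add, map_mul, aeval_X, aeval_C]
    have h0 : P.coeff 0 = 0 := by
      by_contra h0
      have h1 : π ∣ algebraMap F O (P.coeff 0) := by
        refine (dvd_add_right (dvd_mul_right π (aeval π P.divX))).1 ?_
        rw [← e]
        exact (dvd_pow_self π (Nat.succ_ne_zero N)).trans hP
      exact h.not_isUnit (isUnit_of_dvd_unit h1 ((IsUnit.mk0 _ h0).map _))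
    rw [e, h0, map_zero, add_zero, pow_succ', mul_dvd_mul_iff_left h.ne_zero] at hP
    rw [← X_mul_divX_add P, h0, map_zero, add_zero, pow_succ']
    exact mul_dvd_mul_left _ (ih _ hP)

theorem coe_PLA {N : ℕ} {P : F[X]} :
    PowerSeries.X ^ N ∣ (P : PowerSeries F) ↔ X ^ N ∣ P := by
  simp [PowerSeries.X_pow_dvd_iff, Polynomial.X_pow_dvd_iff]

theorem uniq_PLA [IsDomain O] {π x : O} (h : Irreducible π) {g g' : PowerSeries F}
    (h1 : Rel_PLA π x g) (h2 : Rel_PLA π x g') : g = g' := by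
  ext n
  obtain ⟨P, a1, a2⟩ := h1 (n + 1)
  obtain ⟨Q, b1, b2⟩ := h2 (n + 1)
  have h3 : π ^ (n + 1) ∣ aeval π (P - Q) := by
    have := dvd_sub b1 a1
    rwa [sub_sub_sub_cancel_left, ← map_sub] at this
  have h4 := coe_PLA.2 (key_PLA h _ _ h3)
  have h5 : PowerSeries.X ^ (n + 1) ∣ g - g' := by
    have := dvd_add (dvd_sub a2 b2) h4
    rwa [Polynomial.coe_sub, show g - P - (g' - Q) + (P - Q : PowerSeries F) = g - g' by ring]
      at this
  have := PowerSeries.X_pow_dvd_iff.1 h5 n (Nat.lt_succ_self n)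
  rwa [map_sub, sub_eq_zero] at this

theorem ex_PLA {π : O} (h : ∀ x : O, ∃ (a : F) (y : O), x = algebraMap F O a + π * y) (x : O) :
    ∃ g : PowerSeries F, Rel_PLA π x g := by
  choose r s hs using h
  refine ⟨PowerSeries.mk fun k => r (s^[k] x), fun N =>
    ⟨PowerSeries.trunc N (PowerSeries.mk fun k => r (s^[k] x)), ⟨s^[N] x, ?_⟩, ?_⟩⟩
  · induction N with
    | zero => simp
    | succ N ih =>
      rw [PowerSeries.trunc_succ, map_add, ← sub_sub, ih, aeval_monomial, PowerSeries.coeff_mk,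
        Function.iterate_succ_apply']
      nth_rewrite 1 [hs (s^[N] x)]
      ring
  · rw [PowerSeries.X_pow_dvd_iff]
    intro m hm
    rw [map_sub, PowerSeries.coeff_coe_trunc_of_lt hm, sub_self]

theorem add_PLA {π x y : O} {g g' : PowerSeries F} (h1 : Rel_PLA π x g) (h2 : Rel_PLA π y g') :
    Rel_PLA π (x + y) (g + g') := fun N => by
  obtain ⟨P, a1, a2⟩ := h1 N
  obtain ⟨Q, b1, b2⟩ := h2 N
  refine ⟨P + Q, ?_, ?_⟩
  · rw [map_add, add_sub_add_comm]
    exact dvd_add a1 b1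
  · rw [Polynomial.coe_add, add_sub_add_comm]
    exact dvd_add a2 b2

theorem mul_PLA {π x y : O} {g g' : PowerSeries F} (h1 : Rel_PLA π x g) (h2 : Rel_PLA π y g') :
    Rel_PLA π (x * y) (g * g') := fun N => by
  obtain ⟨P, a1, a2⟩ := h1 N
  obtain ⟨Q, b1, b2⟩ := h2 N
  refine ⟨P * Q, ?_, ?_⟩
  · rw [map_mul, show x * y - aeval π P * aeval π Q =
      (x - aeval π P) * y + aeval π P * (y - aeval π Q) by ring]
    exact dvd_add (a1.mul_right _) (b1.mul_left _)
  · rw [Polynomial.coe_mul, show g * g' - (P : PowerSeries F) * Q =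
      (g - P) * g' + P * (g' - Q) by ring]
    exact dvd_add (a2.mul_right _) (b2.mul_left _)

theorem const_PLA (π : O) (a : F) :
    Rel_PLA π (algebraMap F O a) (algebraMap F (PowerSeries F) a) := fun N =>
  ⟨C a, by simp, by simp⟩

theorem hom_PLA [IsDomain O] {π : O} (h : Irreducible π)
    (hr : ∀ x : O, ∃ (a : F) (y : O), x = algebraMap F O a + π * y) :
    ∃ ψ : O →ₐ[F] PowerSeries F, ∀ x, Rel_PLA π x (ψ x) := by
  choose g hg using ex_PLA hr
  have hc : ∀ a, g (algebraMap F O a) = algebraMap F _ a := fun a =>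
    uniq_PLA h (hg _) (const_PLA π a)
  refine ⟨⟨⟨⟨⟨g, ?_⟩, fun x y => uniq_PLA h (hg _) (mul_PLA (hg x) (hg y))⟩, ?_,
    fun x y => uniq_PLA h (hg _) (add_PLA (hg x) (hg y))⟩, hc⟩, hg⟩
  · simpa using hc 1
  · simpa using hc 0

theorem zero_PLA [IsDomain O] [IsDiscreteValuationRing O] {π x : O} (h : Irreducible π)
    (h0 : Rel_PLA π x (0 : PowerSeries F)) : x = 0 := by
  by_contra hx
  obtain ⟨k, u, rfl⟩ := IsDiscreteValuationRing.eq_unit_mul_pow_irreducible hx h
  obtain ⟨P, a1, a2⟩ := h0 (k + 1)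
  rw [zero_sub, dvd_neg, coe_PLA] at a2
  have h1 : π ^ (k + 1) ∣ aeval π P := by simpa using map_dvd (aeval π) a2
  have h2 := dvd_add a1 h1
  rw [sub_add_cancel, pow_succ', mul_dvd_mul_iff_right (pow_ne_zero k h.ne_zero)] at h2
  exact h.not_isUnit (isUnit_of_dvd_unit h2 u.isUnit)

end

theorem PLA_pf : PLA_st := by
  intro F O E _ _ _ _ _ _ _ _ _ _ hres
  obtain ⟨π, hπ⟩ := IsDiscreteValuationRing.exists_irreducible O
  have hm : ∀ x : O, x ∈ IsLocalRing.maximalIdeal O ↔ π ∣ x := fun x => by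
    rw [hπ.maximalIdeal_eq, Ideal.mem_span_singleton]
  obtain ⟨ψ, hψ⟩ := hom_PLA (F := F) hπ fun x => by
    obtain ⟨a, ha⟩ := hres x
    obtain ⟨y, hy⟩ := (hm _).1 ha
    exact ⟨a, y, by rw [← hy]; ring⟩
  have h0 : ∀ x, ψ x = 0 → x = 0 := fun x hx => zero_PLA hπ (hx ▸ hψ x)
  let ι : PowerSeries F →ₐ[F] LaurentSeries F :=
    { HahnSeries.ofPowerSeries ℤ F with commutes' := fun _ => rfl }
  have hι : Function.Injective ι := HahnSeries.ofPowerSeries_injective
  have hi : Function.Injective (ι.comp ψ) := hι.comp ((injective_iff_map_eq_zero ψ).2 h0)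
  refine ⟨IsFractionRing.liftAlgHom hi, fun x hx hx0 => ?_⟩
  rw [IsFractionRing.liftAlgHom_apply, IsFractionRing.lift_algebraMap]
  change 0 < (HahnSeries.ofPowerSeries ℤ F (ψ x)).order
  have h1 : HahnSeries.ofPowerSeries ℤ F (ψ x) ≠ 0 := fun e =>
    hx0 (h0 x (HahnSeries.ofPowerSeries_injective (e.trans (map_zero _).symm)))
  have h2 : PowerSeries.coeff 0 (ψ x) = 0 := by
    obtain ⟨P, a1, a2⟩ := hψ x 1
    have h3 : π ^ 1 ∣ aeval π P := by
      have := dvd_sub (by simpa using (hm x).1 hx : π ^ 1 ∣ x) a1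
      rwa [sub_sub_cancel] at this
    have h4 := dvd_add a2 (coe_PLA.2 (key_PLA hπ _ _ h3))
    rw [sub_add_cancel] at h4
    exact PowerSeries.X_pow_dvd_iff.1 h4 0 one_pos
  by_contra h5
  refine h1 (HahnSeries.coeff_order_eq_zero.1 ?_)
  rw [PowerSeries.coeff_coe]
  split_ifs with h6
  · rfl
  · rw [show (HahnSeries.ofPowerSeries ℤ F (ψ x)).order = 0 by omega]
    exact h2

end Pool.Agent.MP_3e91a1_nt.FM

end
end

section

/-! A place at infinity of a function field. -/

set_option autoImplicit false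

noncomputable section

namespace Pool.Agent.MP_3e91a1_nt.FM

open TR GN

lemma loc_PLB (hPLA : PLA_st) (F C E : Type) [Field F] [CommRing C] [IsDedekindDomain C] [Field E]
    [Algebra F C] [Algebra C E] [IsFractionRing C E] [Algebra F E] [IsScalarTower F C E]
    (Q : Ideal C) [Q.IsMaximal] (hQ : Q ≠ ⊥) (h : ∀ x : C, ∃ a : F, x - algebraMap F C a ∈ Q) :
    ∃ φ : E →ₐ[F] LaurentSeries F, ∀ x ∈ Q, x ≠ 0 → 0 < (φ (algebraMap C E x)).order := by
  let O : Subalgebra C E :=
    Localization.subalgebra.ofField E Q.primeCompl Q.primeCompl_le_nonZeroDivisors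
  have : IsLocalization.AtPrime O Q := Localization.subalgebra.isLocalization_ofField _ _ _
  have : IsDiscreteValuationRing O :=
    IsLocalization.AtPrime.isDiscreteValuationRing_of_dedekind_domain C hQ O
  have hm : ∀ x : C, algebraMap C O x ∈ IsLocalRing.maximalIdeal O ↔ x ∈ Q := fun x =>
    IsLocalization.AtPrime.to_map_mem_maximal_iff O Q x
  have hF : ∀ a : F, algebraMap F O a = algebraMap C O (algebraMap F C a) := fun a =>
    Subtype.ext (IsScalarTower.algebraMap_apply F C E a)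
  obtain ⟨φ, hφ⟩ := hPLA F O E fun x => by
    obtain ⟨⟨c, s⟩, hx⟩ := IsLocalization.surj Q.primeCompl x
    obtain ⟨a, ha⟩ := h c
    obtain ⟨b, hb⟩ := h s
    have hb0 : b ≠ 0 := by
      rintro rfl
      exact s.2 (by simpa using hb)
    refine ⟨a / b, ?_⟩
    have h1 : c - algebraMap F C (a / b) * s ∈ Q := by
      have e : c - algebraMap F C (a / b) * s =
          (c - algebraMap F C a) - algebraMap F C (a / b) * (s - algebraMap F C b) := by
        rw [mul_sub, ← map_mul, div_mul_cancel₀ a hb0]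
        ring
      rw [e]
      exact Q.sub_mem ha (Q.mul_mem_left _ hb)
    have h2 : (x - algebraMap F O (a / b)) * algebraMap C O s ∈ IsLocalRing.maximalIdeal O := by
      rw [sub_mul, hx, hF, ← map_mul, ← map_sub]
      exact (hm _).2 h1
    exact (Ideal.IsPrime.mem_or_mem inferInstance h2).resolve_right fun e => s.2 ((hm _).1 e)
  refine ⟨φ, fun x hx h0 => hφ (algebraMap C O x) ((hm x).2 hx) fun e => h0 ?_⟩
  exact IsFractionRing.injective C E ((congrArg Subtype.val e).trans (map_zero _).symm)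

lemma res_PLB (F R C : Type) [Field F] [IsAlgClosed F] [CommRing R] [CommRing C] [Algebra F R]
    [Algebra R C] [Algebra F C] [IsScalarTower F R C] [Algebra.IsIntegral R C] (ε : R →ₐ[F] F)
    (Q : Ideal C) [Q.IsMaximal] (hQ : ∀ r, ε r = 0 → algebraMap R C r ∈ Q) (x : C) :
    ∃ a : F, x - algebraMap F C a ∈ Q := by
  have h1 : (Ideal.Quotient.mk Q).comp (algebraMap R C) =
      (algebraMap F (C ⧸ Q)).comp (ε : R →+* F) := by
    ext r
    have := hQ (r - algebraMap F R (ε r)) (by simp)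
    rw [map_sub, ← IsScalarTower.algebraMap_apply] at this
    exact Ideal.Quotient.eq.2 this
  have : Algebra.IsIntegral F (C ⧸ Q) := ⟨fun y => by
    obtain ⟨y, rfl⟩ := Ideal.Quotient.mk_surjective y
    obtain ⟨p, hp, h⟩ := Algebra.IsIntegral.isIntegral (R := R) y
    refine ⟨p.map (ε : R →+* F), hp.map _, ?_⟩
    rw [Polynomial.eval₂_map, ← h1, ← Polynomial.hom_eval₂, h, map_zero]⟩
  obtain ⟨a, ha⟩ := (IsAlgClosed.algebraMap_bijective_of_isIntegral (k := F) (K := C ⧸ Q)).2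
    (Ideal.Quotient.mk Q x)
  exact ⟨a, Ideal.Quotient.eq.1 ha.symm⟩

open IntermediateField.algebraAdjoinAdjoin in
lemma zero_PLB (hPLA : PLA_st) (F E : Type) [Field F] [CharZero F] [IsAlgClosed F] [Field E]
    [Algebra F E] (σ : E) (hσ : Transcendental F σ)
    [FiniteDimensional (IntermediateField.adjoin F {σ}) E] :
    ∃ φ : E →ₐ[F] LaurentSeries F, 0 < (φ σ).order := by
  let e := Polynomial.algEquivOfTranscendental F σ hσ
  have : IsPrincipalIdealRing (Algebra.adjoin F {σ}) :=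
    IsPrincipalIdealRing.of_surjective e.toRingEquiv.toRingHom e.surjective
  have : IsDedekindDomain (integralClosure (Algebra.adjoin F {σ}) E) :=
    integralClosure.isDedekindDomain _ (IntermediateField.adjoin F {σ}) E
  have : IsFractionRing (integralClosure (Algebra.adjoin F {σ}) E) E :=
    integralClosure.isFractionRing_of_finite_extension (IntermediateField.adjoin F {σ}) E
  let ε : Algebra.adjoin F {σ} →ₐ[F] F := (Polynomial.aeval (0 : F)).comp e.symm.toAlgHom
  let s : Algebra.adjoin F {σ} := ⟨σ, Algebra.self_mem_adjoin_singleton F σ⟩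
  have hs : ε s = 0 := by
    have : e Polynomial.X = s := Polynomial.aeval_X _
    simp [ε, ← this]
  have : (RingHom.ker ε).IsMaximal :=
    RingHom.ker_isMaximal_of_surjective ε fun a => ⟨algebraMap F _ a, ε.commutes a⟩
  have hi : Function.Injective
      (algebraMap (Algebra.adjoin F {σ}) (integralClosure (Algebra.adjoin F {σ}) E)) :=
    fun a b h => by
      have := congrArg Subtype.val h
      exact Subtype.ext this
  obtain ⟨Q, hQ, hc⟩ := Ideal.exists_ideal_over_maximal_of_isIntegral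
    (S := integralClosure (Algebra.adjoin F {σ}) E) (RingHom.ker ε)
    (by rw [(RingHom.injective_iff_ker_eq_bot _).1 hi]; exact bot_le)
  have hm : ∀ r, ε r = 0 → algebraMap _ (integralClosure (Algebra.adjoin F {σ}) E) r ∈ Q :=
    fun r hr => Ideal.mem_comap.1 (hc ▸ RingHom.mem_ker.2 hr)
  have h0 : algebraMap _ (integralClosure (Algebra.adjoin F {σ}) E) s ≠ 0 := fun h => by
    have : σ = 0 := congrArg Subtype.val h
    exact hσ (this ▸ isAlgebraic_zero)
  obtain ⟨φ, hφ⟩ := loc_PLB hPLA F _ E Q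
    (fun h => h0 (Ideal.mem_bot.1 (h ▸ hm s hs))) (res_PLB F _ _ ε Q hm)
  exact ⟨φ, hφ _ (hm s hs) h0⟩

theorem PLB_pf (hPLA : PLA_st) : PLB_st := by
  intro F E _ _ _ _ _ τ hτ hfin
  have h0 : τ ≠ 0 := by
    rintro rfl
    exact hτ isAlgebraic_zero
  have hσ : Transcendental F τ⁻¹ := fun h => hτ (IsAlgebraic.inv_iff.1 h)
  have hK : IntermediateField.adjoin F {τ} = IntermediateField.adjoin F {τ⁻¹} := by
    refine le_antisymm (IntermediateField.adjoin_simple_le_iff.2 ?_)
      (IntermediateField.adjoin_simple_le_iff.2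
        (inv_mem (IntermediateField.mem_adjoin_simple_self F τ)))
    simpa using inv_mem (IntermediateField.mem_adjoin_simple_self F τ⁻¹)
  rw [hK] at hfin
  obtain ⟨φ, hφ⟩ := zero_PLB hPLA F E τ⁻¹ hσ
  refine ⟨φ, ?_⟩
  have h1 : φ τ ≠ 0 := (map_ne_zero φ).2 h0
  have h2 : φ τ⁻¹ ≠ 0 := (map_ne_zero φ).2 (inv_ne_zero h0)
  have h3 := HahnSeries.order_mul h1 h2
  rw [← map_mul, mul_inv_cancel₀ h0, map_one, HahnSeries.order_one] at h3
  omega

end Pool.Agent.MP_3e91a1_nt.FM

end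
end

section

/-! Reduction of the monomials by the equation of the family. -/

set_option autoImplicit false

open Finset Polynomial

namespace Pool.Agent.MP_3e91a1_nt.FM

open TR GN

theorem top_RDF {f : P2} {n : ℕ} (hf : f.Monic) (hn : f.natDegree = n) (c : ℕ) {S : Type}
    [CommRing S] (τ a : S) (h : ev f (c * τ) a = 0) :
    a ^ n = -∑ j ∈ range n, aeval τ ((f.coeff j).comp ((c : ℤ[X]) * X)) * a ^ j := by
  rw [ev, sp, ← eval₂_eq_eval_map, eval₂_eq_sum_range, sum_range_succ, hf.coeff_natDegree, hn,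
    map_one, one_mul] at h
  rw [eq_neg_iff_add_eq_zero, add_comm, ← h]
  refine congrArg (· + _) (sum_congr rfl fun j _ => ?_)
  rw [aeval_comp, map_mul, map_natCast, aeval_X, aeval_def, algebraMap_int_eq]
  rfl

theorem pow_RDF (n h : ℕ) (G : ℕ → ℤ[X]) (hG : ∀ j, (G j).natDegree ≤ h) (k : ℕ) :
    ∃ q : ℕ → ℤ[X], (∀ j, (q j).natDegree ≤ h * k) ∧ ∀ (S : Type) [CommRing S] (τ a : S), 0 < n →
      a ^ n = -∑ j ∈ range n, aeval τ (G j) * a ^ j →
      a ^ k = ∑ j ∈ range n, aeval τ (q j) * a ^ j := by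
  rcases n with _ | m
  · exact ⟨fun _ => 0, fun j => by simp, fun S _ τ a h0 => absurd h0 (lt_irrefl _)⟩
  induction k with
  | zero =>
    refine ⟨fun j => if j = 0 then 1 else 0, fun j => ?_, fun S _ τ a _ _ => ?_⟩
    · beta_reduce
      split_ifs <;> simp
    · rw [sum_range_succ']
      simp
  | succ k ih =>
    obtain ⟨q, hq, H⟩ := ih
    refine ⟨fun j => (if j = 0 then 0 else q (j - 1)) - G j * q m, fun j => ?_,
      fun S _ τ a h0 ha => ?_⟩
    · rw [mul_add_one]
      refine (natDegree_sub_le _ _).trans (max_le ?_ (natDegree_mul_le.trans ?_))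
      · split_ifs
        · simp
        · exact (hq _).trans (Nat.le_add_right _ _)
      · rw [add_comm]
        exact add_le_add (hq m) (hG j)
    · have e1 : ∑ j ∈ range (m + 1), aeval τ (G j * q m) * a ^ j =
          aeval τ (q m) * ∑ j ∈ range (m + 1), aeval τ (G j) * a ^ j := by
        rw [mul_sum]
        refine sum_congr rfl fun j _ => ?_
        rw [map_mul]
        ring
      have e2 : ∑ j ∈ range (m + 1), aeval τ (if j = 0 then 0 else q (j - 1)) * a ^ j =
          ∑ j ∈ range m, aeval τ (q j) * a ^ j * a := by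
        rw [sum_range_succ', if_pos rfl, map_zero, zero_mul, add_zero]
        refine sum_congr rfl fun j _ => ?_
        rw [if_neg (Nat.succ_ne_zero j), Nat.add_sub_cancel, pow_succ, mul_assoc]
      simp only [map_sub, sub_mul, sum_sub_distrib]
      rw [e1, e2, pow_succ, H S τ a h0 ha, sum_range_succ, add_mul, sum_mul]
      linear_combination aeval τ (q m) * ha

theorem RDF_pf (hITF : ITF_st) : RDF_st := by
  intro f n
  obtain ⟨h, hh⟩ : ∃ h, ∀ j, (f.coeff j).natDegree ≤ h := by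
    refine ⟨f.support.sup fun j => (f.coeff j).natDegree, fun j => ?_⟩
    by_cases hj : j ∈ f.support
    · exact le_sup (f := fun j => (f.coeff j).natDegree) hj
    · rw [notMem_support_iff.1 hj, natDegree_zero]
      exact Nat.zero_le _
  refine ⟨h + 1, fun c c' B α hB hf hn => ?_⟩
  have hG : ∀ (c j : ℕ), ((f.coeff j).comp ((c : ℤ[X]) * X)).natDegree ≤ h := fun c j => by
    have h1 : ((c : ℤ[X]) * X).natDegree ≤ 1 := by
      rw [← C_eq_natCast]
      exact (natDegree_C_mul_le _ _).trans natDegree_X_le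
    exact natDegree_comp_le.trans ((Nat.mul_le_mul (hh j) h1).trans_eq (mul_one h))
  choose q hq H using fun c => pow_RDF n h _ (hG c)
  let k : Fin n ⊕ Fin n → ℕ := Sum.elim (fun _ => c) fun _ => c'
  let Q : (Fin n ⊕ Fin n → Fin n) → ℤ[X] := fun β =>
    X ^ α none * ∏ i, q (k i) (α (some i)) (β i)
  have hQ : ∀ β, (Q β).natDegree < (h + 1) * B + 1 := fun β => by
    have h1 : (∏ i, q (k i) (α (some i)) (β i)).natDegree ≤ h * ∑ i, α (some i) := by
      rw [mul_sum]
      exact (natDegree_prod_le _ _).trans (Finset.sum_le_sum fun i _ => hq _ _ _)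
    have h2 : (Q β).natDegree ≤ _ := natDegree_mul_le
    rw [natDegree_X_pow] at h2
    rw [Fintype.sum_option] at hB
    have h3 : h * ∑ i, α (some i) ≤ h * B := Nat.mul_le_mul_left h (by omega)
    rw [add_one_mul]
    omega
  refine ⟨fun u => (Q u.2).coeff u.1, fun S _ τ A A' hA hA' => ?_⟩
  have hc : ∀ i, Sum.elim A A' i ^ α (some i) = ∑ j : Fin n,
      aeval τ (q (k i) (α (some i)) j) * Sum.elim A A' i ^ (j : ℕ) := by
    intro i
    rw [← sum_range fun j => aeval τ (q (k i) (α (some i)) j) * Sum.elim A A' i ^ j]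
    rcases i with s | s
    · exact H c _ S τ _ s.pos (top_RDF hf hn c τ _ ((hITF.2.2.2.2 f n S _ A hA).1 s))
    · exact H c' _ S τ _ s.pos (top_RDF hf hn c' τ _ ((hITF.2.2.2.2 f n S _ A' hA').1 s))
  rw [Fintype.prod_option]
  change τ ^ α none * ∏ i, Sum.elim A A' i ^ α (some i) = _
  rw [Finset.prod_congr rfl fun i _ => hc i, Finset.prod_univ_sum, Fintype.piFinset_univ,
    Finset.mul_sum, Fintype.sum_prod_type_right]
  refine Finset.sum_congr rfl fun β _ => ?_
  have e1 : aeval τ (Q β) = ∑ e : Fin ((h + 1) * B + 1), ((Q β).coeff e : S) * τ ^ (e : ℕ) := by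
    rw [aeval_eq_sum_range' (hQ β), Finset.sum_range]
    simp only [zsmul_eq_mul]
  simp only [← mul_assoc]
  rw [← Finset.sum_mul, ← e1, Finset.prod_mul_distrib]
  simp only [Q, map_mul, map_pow, aeval_X, map_prod, mul_assoc]

end Pool.Agent.MP_3e91a1_nt.FM

end

section

/-! The units are not constant at all roots. -/

set_option autoImplicit false

open Finset

namespace Pool.Agent.MP_3e91a1_nt.FM

open TR GN

lemma zpow_RNK {E : Type} [Field E] {u v : E} (h : u * v = 1) (e : ℤ) :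
    u ^ e.toNat * v ^ (-e).toNat = u ^ e := by
  have hu : u ≠ 0 := left_ne_zero_of_mul_eq_one h
  have hv : v = u⁻¹ := eq_inv_of_mul_eq_one_right h
  rw [hv, inv_pow, ← zpow_natCast, ← zpow_natCast, ← zpow_neg, ← zpow_add₀ hu]
  congr 1
  omega

lemma inj_RNK (F : Type) {E : Type} [Field F] [CharZero F] [Field E] [Algebra F E] {T : E}
    (hT : Transcendental F T) :
    Function.Injective (Polynomial.eval₂RingHom (Int.castRingHom E) T) := by
  rw [injective_iff_map_eq_zero]
  intro q hq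
  have h1 : Polynomial.aeval T (q.map (Int.castRingHom F)) = 0 := by
    rw [Polynomial.aeval_def, Polynomial.eval₂_map, ← hq, Polynomial.coe_eval₂RingHom]
    congr 1
    exact RingHom.ext_int _ _
  have h2 := (transcendental_iff.mp hT) _ h1
  exact (Polynomial.map_eq_zero_iff (RingHom.injective_int _)).mp h2

theorem RNK_pf (hITF : ITF_st) : RNK_st := by
  intro F E _ _ _ _ m n c Φ τ A e halg hτ hc hR hA hok hind he h
  classical
  choose a ha using h
  choose P hP0 hP using fun s => halg (a s)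
  obtain ⟨-, hψ, -, -, hroot⟩ := hITF
  obtain ⟨hz, -, -, -, huv, -⟩ := hroot Φ.f n E (c * τ) A hR
  have huv' := huv m Φ rfl hok
  have hT : Transcendental F ((c : E) * τ) := by
    intro h'
    apply hτ
    have hc' : (c : F) ≠ 0 := Nat.cast_ne_zero.mpr hc.ne'
    have h2 := h'.smul ((c : F)⁻¹)
    rwa [Algebra.smul_def, ← mul_assoc, ← map_natCast (algebraMap F E), ← map_mul,
      inv_mul_cancel₀ hc', map_one, one_mul] at h2
  refine hind e he (∏ s, P s) (prod_ne_zero_iff.mpr fun s _ => hP0 s) ?_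
  obtain ⟨G, hG⟩ : ∃ G : P2, G = Polynomial.aeval
    (∏ i, Φ.U i ^ (e i).toNat * Φ.V i ^ (-e i).toNat) (∏ s, P s) := ⟨_, rfl⟩
  rw [← hG, ← Polynomial.modByMonic_eq_zero_iff_dvd hok.1]
  have h0 : sp (G %ₘ Φ.f) ((c : E) * τ) = 0 := by
    refine Polynomial.eq_zero_of_degree_lt_of_eval_index_eq_zero (s := univ) (v := A)
      hA.injOn ?_ ?_
    · refine Polynomial.degree_map_le.trans_lt ((Polynomial.degree_modByMonic_lt G hok.1).trans_le ?_)
      rw [Polynomial.degree_eq_natDegree hok.1.ne_zero, hok.2.1, card_univ, Fintype.card_fin]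
    · intro s _
      obtain ⟨ψ, hψ'⟩ := hψ E (c * τ) (A s)
      have hW : ψ (∏ i, Φ.U i ^ (e i).toNat * Φ.V i ^ (-e i).toNat) = algebraMap F E (a s) := by
        rw [← ha s, map_prod]
        refine prod_congr rfl fun i _ => ?_
        rw [map_mul, map_pow, map_pow, hψ', hψ']
        exact zpow_RNK (huv' (s, i)) (e i)
      have hGz : ψ G = 0 := by
        have h1 := Polynomial.aeval_algHom_apply ψ.toIntAlgHom
          (∏ i, Φ.U i ^ (e i).toNat * Φ.V i ^ (-e i).toNat) (∏ s, P s)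
        rw [RingHom.toIntAlgHom_apply, RingHom.toIntAlgHom_apply, ← hG, hW] at h1
        rw [← h1, Polynomial.aeval_algebraMap_apply, map_prod,
          prod_eq_zero (mem_univ s) (hP s), map_zero]
      have h2 := congrArg ψ (Polynomial.modByMonic_add_div G Φ.f)
      rw [map_add, map_mul, hGz, hψ' Φ.f, hz s, zero_mul, add_zero, hψ'] at h2
      exact h2
  exact (Polynomial.map_eq_zero_iff (inj_RNK F hT)).mp h0

end Pool.Agent.MP_3e91a1_nt.FM

end

section

/-! A matrix of full rank has a nonzero minor. -/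

set_option autoImplicit false

namespace Pool.Agent.MP_3e91a1_nt.FM

open TR GN

theorem ROW_pf : ROW_st := by
  intro n m o h
  obtain ⟨ro, hro⟩ := CC.minor_DET (Int.castRingHom ℚ) (fun i s => o s i)
    fun c hc => zf_STA (fun i s => o s i) h c hc
  exact ⟨ro, by rwa [← Matrix.det_transpose]⟩

end Pool.Agent.MP_3e91a1_nt.FM

end

section

/-! The selection of the units in the generic field, for arbitrary families. -/

set_option autoImplicit false

open Finset Filter

noncomputable section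

namespace Pool.Agent.MP_3e91a1_nt.FM

open TR GN

theorem mem_SAF (hITF : ITF_st) {R E : Type} [CommRing R] [CommRing E] [Algebra R E]
    {S : Subalgebra R E} {m n : ℕ} (Φ : Fam m) (c : ℕ) {τ : E} {B : Fin n → E} (h0 : τ ∈ S)
    (h : ∀ s, B s ∈ S) (j : Fin n × Fin m) : Φ.u (c * τ) B j ∈ S ∧ Φ.v (c * τ) B j ∈ S :=
  ⟨hITF.2.2.2.1 R E S _ _ _ (mul_mem (natCast_mem _ _) h0) (h _),
    hITF.2.2.2.1 R E S _ _ _ (mul_mem (natCast_mem _ _) h0) (h _)⟩

theorem int_SAF (hITF : ITF_st) {F E : Type} [Field F] [Field E] [Algebra F E] {m n : ℕ}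
    {Φ : Fam m} {c : ℕ} {τ : E} {B : Fin n → E} (h : Rf Φ.f (c * τ) B) (j : Fin n × Fin m) :
    IsIntegral (Algebra.adjoin F {τ}) (Φ.u (c * τ) B j) ∧
      IsIntegral (Algebra.adjoin F {τ}) (Φ.v (c * τ) B j) := by
  have h0 : τ ∈ Algebra.adjoin F {τ} := Algebra.self_mem_adjoin_singleton F τ
  refine mem_SAF hITF (S := integralClosure (Algebra.adjoin F {τ}) E) Φ c
    (isIntegral_algebraMap (x := (⟨τ, h0⟩ : Algebra.adjoin F {τ}))) (fun s => ?_) j
  have e : (sp Φ.f (c * (⟨τ, h0⟩ : Algebra.adjoin F {τ}))).map (algebraMap _ E) =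
      ∏ s, (Polynomial.X - Polynomial.C (B s)) := by
    rw [h, (hITF.1 _ E (algebraMap _ E) Φ.f _ 0).1, map_mul, map_natCast]
    rfl
  refine ⟨_, Polynomial.monic_of_injective (f := algebraMap _ E) Subtype.val_injective
    (e ▸ Polynomial.monic_prod_of_monic _ _ fun _ _ => Polynomial.monic_X_sub_C _), ?_⟩
  rw [Polynomial.eval₂_eq_eval_map, e, Polynomial.eval_prod]
  exact prod_eq_zero (mem_univ s) (by simp)

theorem inj_SAF {n : ℕ} {E : Type} [Field E] {B : Fin n → E} (h : ∏ s, fd B s ≠ 0) :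
    Function.Injective B := fun s t e => by
  by_contra hne
  exact h (prod_eq_zero (mem_univ s)
    (prod_eq_zero (mem_erase.2 ⟨fun x => hne x.symm, mem_univ t⟩) (sub_eq_zero.2 e)))

theorem one_SAF (hITF : ITF_st) (hORD : ORD_st) (hROW : ROW_st) {F E : Type} [Field F] [Field E]
    [Algebra F E] {m n : ℕ} {Φ : Fam m} {c : ℕ} {τ : E} {B : Fin n → E} {δ : Derivation F E E}
    {φ₀ : E →ₐ[F] LaurentSeries F} (hΦ : Φ.Ok n) (hR : Rf Φ.f (c * τ) B)
    (hK : ∀ e : Fin m → ℤ, e ≠ 0 →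
      ¬ ∀ s, ∃ a : F, ∏ i, Φ.u (c * τ) B (s, i) ^ e i = algebraMap F E a)
    (hC : ∀ (ι : Type) [Fintype ι] (U V : ι → E) (e : ι → ℤ), (∀ j, U j * V j = 1) →
      (∀ j, IsIntegral (Algebra.adjoin F {τ}) (U j)) →
      (∀ j, IsIntegral (Algebra.adjoin F {τ}) (V j)) →
      (∀ φ : E →ₐ[F] LaurentSeries F, φ τ = φ₀ τ → ∑ j, e j * (φ (U j)).order = 0) →
      (∃ a : F, a ≠ 0 ∧ ∏ j, U j ^ e j = algebraMap F E a) ∧
        ∑ j, (e j : E) * (δ (U j) * V j) = 0) :
    ∃ (k : ℕ) (σ : Slc n m k), 0 < σ.N ∧ σ.Phi ≠ 0 ∧ σ.Rel Φ δ (c * τ) B ∧ ∀ e : Fin k → ℤ,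
      (∀ φ : E →ₐ[F] LaurentSeries F, φ τ = φ₀ τ →
        ∑ j, e j * (φ (Φ.u (c * τ) B (σ.J j))).order = 0) → e = 0 := by
  obtain ⟨-, -, -, q4, q5, -⟩ := hITF.2.2.2.2 Φ.f n E _ B hR
  have uv := q5 m Φ rfl hΦ
  obtain ⟨ro, hro⟩ := hROW n m (fun s i => (φ₀ (Φ.u (c * τ) B (s, i))).order) fun e he => by
    by_contra hne
    refine hK e hne fun s => ?_
    obtain ⟨⟨a, -, ha⟩, -⟩ := hC (Fin m) (fun i => Φ.u (c * τ) B (s, i))
      (fun i => Φ.v (c * τ) B (s, i)) e (fun _ => uv _) (fun _ => (int_SAF hITF hR _).1)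
      (fun _ => (int_SAF hITF hR _).2) fun φ hφ => by
        have p1 := q4 _ φ.toRingHom
        have p2 := q4 _ φ₀.toRingHom
        have k3 : φ.toRingHom (c * τ) = φ₀.toRingHom (c * τ) := by
          rw [map_mul, map_mul, map_natCast, map_natCast]
          exact congrArg _ hφ
        rw [k3] at p1
        obtain ⟨π, hπ⟩ := perm_LFT _ _ (Eq.trans p1 p2.symm)
        rw [← he (π s)]
        refine sum_congr rfl fun i _ => ?_
        have e1 := (hITF.1 E _ φ.toRingHom (Φ.U i) (c * τ) (B s)).2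
        have e2 := (hITF.1 E _ φ₀.toRingHom (Φ.U i) (c * τ) (B (π s))).2
        have e3 : φ.toRingHom (B s) = φ₀.toRingHom (B (π s)) := hπ s
        rw [k3, e3, ← e2] at e1
        exact congrArg (fun x : LaurentSeries F => e i * x.order) e1
    exact ⟨a, ha⟩
  obtain ⟨k, N, J, e, hN, h1, h2⟩ := hORD (Fin n × Fin m)
    {φ : E →ₐ[F] LaurentSeries F // φ τ = φ₀ τ} fun u φ => (φ.1 (Φ.u (c * τ) B u)).order
  refine ⟨k, ⟨J, ro, N, fun s i => e (ro s, i)⟩, hN, fun h => ?_, fun s i => ?_,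
    fun n hn => h1 n fun φ => hn φ.1 φ.2⟩
  · have e1 := congrArg (MvPolynomial.eval fun j => (φ₀ (Φ.u (c * τ) B (J j))).order) h
    rw [Slc.Phi, RingHom.map_det, map_zero] at e1
    have e2 : (MvPolynomial.eval fun j => (φ₀ (Φ.u (c * τ) B (J j))).order).mapMatrix
        (Matrix.of fun s i : Fin m => ∑ j, MvPolynomial.C (e (ro s, i) j) *
          MvPolynomial.X j) =
        (N : ℤ) • Matrix.of fun s i => (φ₀ (Φ.u (c * τ) B (ro s, i))).order := by
      ext s i
      have e3 := h2 (ro s, i) ⟨φ₀, rfl⟩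
      simp only at e3
      simp [← e3]
    rw [e2, Matrix.det_smul] at e1
    exact mul_ne_zero (pow_ne_zero _ (Int.natCast_ne_zero.2 hN.ne')) hro e1
  · have e1 := (hC (Option (Fin k)) (fun o => Φ.u (c * τ) B (o.elim (ro s, i) J))
      (fun o => Φ.v (c * τ) B (o.elim (ro s, i) J))
      (fun o => o.elim N fun j => -e (ro s, i) j) (fun _ => uv _)
      (fun _ => (int_SAF hITF hR _).1) (fun _ => (int_SAF hITF hR _).2) fun φ hφ => by
        have e3 := h2 (ro s, i) ⟨φ, hφ⟩
        simp only [Fintype.sum_option, Option.elim, neg_mul, sum_neg_distrib] at e3 ⊢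
        linarith).2
    simp only [Fintype.sum_option, Option.elim, neg_mul, sum_neg_distrib, Int.cast_neg,
      Int.cast_natCast] at e1
    exact add_neg_eq_zero.1 e1

theorem SAF_pf (hITF : ITF_st) (hLAU : LAU_st) (hFNF : FNF_st) (hUQF : UQF_st) (hLDF : LDF_st)
    (hORD : ORD_st) (hCSF : CSF_st) (hRNK : RNK_st) (hROW : ROW_st) : SAF_st := by
  have _h := hFNF
  intro F E _ _ _ _ m n Φ d c c' τ A A' δ φ₀ hF hΦ hI hG hD hC hc hc' hδ h0
  have inj : ∀ (c : ℕ) (B : Fin n → E), Rf Φ.f (c * τ) B → Function.Injective B := fun c B h =>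
    inj_SAF (by rw [hD E _ B h]; exact ne_UNQ (cop_UNQ hC) hG.1 c)
  obtain ⟨k, σ, n1, p1, r1, i1⟩ := one_SAF hITF hORD hROW (δ := δ) (φ₀ := φ₀) hΦ hG.2.1
    (fun e he => hRNK F E m n c Φ τ A e hF hG.1 hc hG.2.1 (inj c A hG.2.1) hΦ hI he)
    fun ι _ U V e a b g f => hCSF F E ι Φ.f n c c' τ A A' φ₀ δ U V e hG h0 a b g f
  obtain ⟨k', σ', n2, p2, r2, i2⟩ := one_SAF hITF hORD hROW (δ := δ) (φ₀ := φ₀) hΦ hG.2.2.1
    (fun e he => hRNK F E m n c' Φ τ A' e hF hG.1 hc' hG.2.2.1 (inj c' A' hG.2.2.1) hΦ hI he)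
    fun ι _ U V e a b g f => hCSF F E ι Φ.f n c c' τ A A' φ₀ δ U V e hG h0 a b g f
  refine ⟨k, k', σ, σ', n1, n2, p1, p2, r1, r2, fun κ w hw => ?_⟩
  obtain ⟨δ', l1, l2, l3⟩ := lau_STA hLAU F
  have u1 := (hITF.2.2.2.2 Φ.f n E _ A hG.2.1).2.2.2.2.1 m Φ rfl hΦ
  have u2 := (hITF.2.2.2.2 Φ.f n E _ A' hG.2.2.1).2.2.2.2.1 m Φ rfl hΦ
  have uv : ∀ j, Uf σ σ' Φ (c * τ) (c' * τ) A A' j * Vf σ σ' Φ (c * τ) (c' * τ) A A' j = 1 := fun j => by
    cases j
    · exact u1 _
    · exact u2 _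
  refine zf_STA (P := {φ : E →ₐ[F] LaurentSeries F // φ τ = φ₀ τ})
    (fun j φ => (φ.1 (Uf σ σ' Φ (c * τ) (c' * τ) A A' j)).order) (fun z hn => ?_) κ fun φ => ?_
  · obtain ⟨⟨a, ha, e⟩, -⟩ := hCSF F E _ Φ.f n c c' τ A A' φ₀ δ _ _ z hG h0 uv
      (fun j => by
        cases j
        · exact (int_SAF hITF hG.2.1 _).1
        · exact (int_SAF hITF hG.2.2.1 _).1)
      (fun j => by
        cases j
        · exact (int_SAF hITF hG.2.1 _).2
        · exact (int_SAF hITF hG.2.2.1 _).2) fun φ hφ => hn ⟨φ, hφ⟩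
    rw [Fintype.prod_sum_type] at e
    simp only [Uf, Sum.elim_inl, Sum.elim_inr] at e
    have mm : ∀ {l : ℕ} (B : Fin n → E) (c : ℕ) (J : Fin l → Fin n × Fin m)
        (z : Fin l → ℤ), (∀ j, Φ.u (c * τ) B j * Φ.v (c * τ) B j = 1) →
        ∏ j, Φ.u (c * τ) B (J j) ^ z j ∈ Algebra.adjoin F (insert τ (Set.range B)) ∧
        (∏ j, Φ.u (c * τ) B (J j) ^ z j)⁻¹ ∈ Algebra.adjoin F (insert τ (Set.range B)) :=
      fun B c J z h => by
        have hm := mem_SAF hITF (S := Algebra.adjoin F (insert τ (Set.range B))) Φ c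
          (Algebra.subset_adjoin (Set.mem_insert _ _))
          fun s => Algebra.subset_adjoin (Set.mem_insert_of_mem _ ⟨s, rfl⟩)
        rw [← prod_inv_distrib]
        simp only [← zpow_neg]
        exact ⟨prod_mem fun j _ => zm_STA (h _) (hm _).1 (hm _).2 _,
          prod_mem fun j _ => zm_STA (h _) (hm _).1 (hm _).2 _⟩
    obtain ⟨m1, m2⟩ := mm A c σ.J (fun j => z (.inl j)) u1
    obtain ⟨m3, m4⟩ := mm A' c' σ'.J (fun j => z (.inr j)) u2
    obtain ⟨v, hv⟩ : ∃ v, v = ∏ j, Φ.u (c * τ) A (σ.J j) ^ z (.inl j) := ⟨_, rfl⟩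
    rw [← hv] at e m1 m2
    generalize ∏ j, Φ.u (c' * τ) A' (σ'.J j) ^ z (.inr j) = v' at e m3 m4
    have a0 : algebraMap F E a ≠ 0 := (map_ne_zero _).2 ha
    have v0 : v ≠ 0 := left_ne_zero_of_mul (e ▸ a0)
    have v1 : v' ≠ 0 := right_ne_zero_of_mul (e ▸ a0)
    have m5 := hLDF F E Φ.f n d c c' τ A A' δ φ₀ v hG hD hC hc hc' hδ h0 m1 (by
      rw [eq_div_of_mul_eq v1 e, div_eq_mul_inv]
      exact mul_mem (algebraMap_mem _ _) m4)
    have m6 := hLDF F E Φ.f n d c c' τ A A' δ φ₀ v⁻¹ hG hD hC hc hc' hδ h0 m2 (by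
      rw [eq_div_of_mul_eq v1 e, inv_div, div_eq_mul_inv, ← map_inv₀]
      exact mul_mem m3 (algebraMap_mem _ _))
    rw [Algebra.adjoin_singleton_eq_range_aeval] at m5 m6
    obtain ⟨p, hp⟩ := m5
    obtain ⟨q, hq⟩ := m6
    change Polynomial.aeval τ p = _ at hp
    change Polynomial.aeval τ q = _ at hq
    have pq : p * q = 1 := transcendental_iff_injective.1 hG.1 (by
      rw [map_mul, hp, hq, map_one, mul_inv_cancel₀ v0])
    obtain ⟨b, -, rfl⟩ := Polynomial.isUnit_iff.1 (IsUnit.of_mul_eq_one q pq)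
    rw [Polynomial.aeval_C] at hp
    have z1 := i1 (fun j => z (.inl j)) fun φ hφ => by
      rw [← opr_STA _ fun j => (map_ne_zero φ).2 (left_ne_zero_of_mul_eq_one (u1 _))]
      simp only [← map_zpow₀]
      rw [← map_prod, ← hv]
      have e1 := l2 (φ v) ((map_ne_zero φ).2 v0)
      rw [← hp, AlgHom.commutes, l3, zero_div, HahnSeries.coeff_zero] at e1
      rw [← hp, AlgHom.commutes]
      exact_mod_cast e1.symm
    have z2 := i2 (fun j => z (.inr j)) fun φ hφ => by
      have e1 := hn ⟨φ, hφ⟩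
      rw [Fintype.sum_sum_type, sum_eq_zero fun j _ => by
        rw [show z (.inl j) = 0 from congrFun z1 j, zero_mul], zero_add] at e1
      exact e1
    funext j
    cases j with
    | inl j => exact congrFun z1 j
    | inr j => exact congrFun z2 j
  · have hu := hUQF F E _ Φ.f n d c c' τ A A' δ δ' φ.1 hG hD hC hc hc' hδ
    have e1 : ∑ j, κ j • (δ' (φ.1 (Uf σ σ' Φ (c * τ) (c' * τ) A A' j)) / φ.1 (Uf σ σ' Φ (c * τ) (c' * τ) A A' j)) =
        δ' (φ.1 w) := by
      rw [hu w, ← hw, map_sum, mul_sum]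
      refine sum_congr rfl fun j _ => ?_
      rw [hu, Algebra.smul_def (κ j) (δ _ * _), map_mul, map_mul, AlgHom.commutes,
        eq_inv_of_mul_eq_one_right (uv j), map_inv₀, ← sm_STA]
      ring
    have e2 := congrArg (fun x : LaurentSeries F => x.coeff 0) e1
    simp only [l1, HahnSeries.coeff_sum, HahnSeries.coeff_smul, smul_eq_mul] at e2
    rw [← e2]
    refine sum_congr rfl fun j _ => ?_
    rw [l2 _ ((map_ne_zero φ.1).2 (left_ne_zero_of_mul_eq_one (uv j)))]

end Pool.Agent.MP_3e91a1_nt.FM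

end
end

section

/-! A shift of the parameter. -/

set_option autoImplicit false

open Finset Polynomial

namespace Pool.Agent.MP_3e91a1_nt.FM

open TR GN

theorem SHF_pf : SHF_st := by
  intro m n s Φ ok ind
  let θ : ℤ → P2 →+* P2 := fun z => mapRingHom (compRingHom (X + C z))
  have inv : ∀ q, θ s (θ (-s) q) = q := fun q => by
    simp only [θ, coe_mapRingHom, Polynomial.map_map]
    rw [show (compRingHom (X + C (s : ℤ))).comp (compRingHom (X + C (-s : ℤ))) = RingHom.id _ from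
      Polynomial.ringHom_ext' (RingHom.ext_int _ _) (by simp), Polynomial.map_id]
  refine ⟨⟨θ (-s) Φ.f, fun i => θ (-s) (Φ.U i), fun i => θ (-s) (Φ.V i)⟩,
    ⟨ok.1.map _, (ok.1.natDegree_map _).trans ok.2.1, fun i => ?_⟩, fun e he P hP h => ?_,
    fun S _ T => ?_⟩
  · simpa using map_dvd (θ (-s)) (ok.2.2 i)
  · refine ind e he P hP ?_
    have h1 := map_dvd (θ s) h
    simp only [aeval_def, algebraMap_int_eq, hom_eval₂, map_prod, map_mul, map_pow, inv] at h1
    rwa [aeval_def, RingHom.ext_int (algebraMap ℤ P2)]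
  · simp only [sp, θ, coe_mapRingHom, Polynomial.map_map]
    congr 1
    exact Polynomial.ringHom_ext' (RingHom.ext_int _ _) (by simp [sub_eq_add_neg])

end Pool.Agent.MP_3e91a1_nt.FM

end

section

/-! The maps of the generic field respect the derivations, for arbitrary families. -/

set_option autoImplicit false

open Finset

noncomputable section

namespace Pool.Agent.MP_3e91a1_nt.FM

open TR GN

theorem root_UQF (hITF : ITF_st) {F E L : Type} [Field F] [Field E] [Algebra F E] [Field L]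
    [Algebra F L] {n : ℕ} {f : P2} {d : Polynomial ℤ} {c : ℕ} {τ : E}
    {A : Fin n → E} (δ : Derivation F E E) (δ' : Derivation F L L) (φ : E →ₐ[F] L)
    (hA : Rf f (c * τ) A) (hd : IsE f n d) (hne : Polynomial.aeval ((c : E) * τ) d ≠ 0)
    (h1 : δ τ = 1) (s : Fin n) : δ' (φ (A s)) = δ' (φ τ) * φ (δ (A s)) := by
  obtain ⟨-, -, -, hmap, -, hder⟩ := hITF.2.2.2.2 f n E _ A hA
  have hB := hmap L φ.toRingHom
  obtain ⟨-, -, -, -, -, hder'⟩ := hITF.2.2.2.2 f n L _ _ hB
  have e1 := hder F δ s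
  have e2 := hder' F δ' s
  have hfd : fd A s ≠ 0 := by
    intro h
    apply hne
    rw [← hd E _ A hA]
    exact Finset.prod_eq_zero (Finset.mem_univ s) h
  have hφ : φ (fd A s) ≠ 0 := (map_ne_zero φ).mpr hfd
  have e3 : fd (⇑φ.toRingHom ∘ A) s = φ (fd A s) := by
    simp [fd, map_prod]
  have e4 : δ ((c : E) * τ) = c := by
    rw [← nsmul_eq_mul, map_nsmul, h1, nsmul_eq_mul, mul_one]
  have e5 : δ' (φ.toRingHom ((c : E) * τ)) = c * δ' (φ τ) := by
    have : φ.toRingHom ((c : E) * τ) = c • φ τ := by simp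
    rw [this, map_nsmul, nsmul_eq_mul]
  rw [e3, e5] at e2
  rw [e4] at e1
  have e6 := congrArg φ e1
  simp only [map_mul, map_neg, map_natCast] at e6
  have e8 := (hITF.1 E L φ.toRingHom (dT f) (c * τ) (A s)).2
  have e7 : φ (fd A s) * δ' (φ (A s)) = -φ (ev (dT f) (c * τ) (A s)) * (c * δ' (φ τ)) :=
    e2.trans (congrArg (fun z => -z * (c * δ' (φ τ))) e8.symm)
  apply mul_left_cancel₀ hφ
  rw [e7]
  linear_combination (-δ' (φ τ)) * e6

theorem UQF_pf (hITF : ITF_st) : UQF_st := by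
  intro F E L _ _ _ _ _ _ f n d c c' τ A A' δ δ' φ hG hd hC _ _ h1 v
  obtain ⟨hτ, hA, hA', htop⟩ := hG
  have h0 := cop_UNQ hC
  have hv : v ∈ IntermediateField.adjoin F (Set.range (gv τ A A')) := by
    rw [htop]
    exact IntermediateField.mem_top
  induction hv using IntermediateField.adjoin_induction with
  | mem x hx =>
    obtain ⟨o, rfl⟩ := hx
    rcases o with _ | s | s
    · simp [gv, h1]
    · exact root_UQF hITF δ δ' φ hA hd (ne_UNQ h0 hτ c) h1 s
    · exact root_UQF hITF δ δ' φ hA' hd (ne_UNQ h0 hτ c') h1 s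
  | algebraMap a => simp
  | add x y _ _ hx hy => simp only [map_add, hx, hy, mul_add]
  | inv x _ hx =>
    rw [map_inv₀, Derivation.leibniz_inv, Derivation.leibniz_inv, hx]
    simp only [smul_eq_mul, map_mul, map_neg, map_pow, map_inv₀]
    ring
  | mul x y _ _ hx hy =>
    rw [map_mul, Derivation.leibniz, Derivation.leibniz, hx, hy]
    simp only [smul_eq_mul, map_add, map_mul]
    ring

end Pool.Agent.MP_3e91a1_nt.FM

end
end
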