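import Pool.Agent.Mg.F3e91a1.G3fdd3f
import Pool.Agent.Mg.F3e91a1.Ge9e02f

set_option linter.all false

section

/-! The size of the entries of the determinant. -/

set_option autoImplicit false

open Finset Filter PowerSeries NumberField

noncomputable section

namespace Pool.Agent.MP_3e91a1_nt.GN

open TR

/-- a family of series of geometric growth, with a rate that is a fixed power of `b` -/
def Bd_SIG {P : Type} (b : P → ℝ) (f : P → ℂ⟦X⟧) : Prop := ∃ E : ℕ, ∀ p, Geo (b p ^ E) (f p)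

theorem up_SIG {B : ℝ} (hB : 2 ≤ B) {f : ℂ⟦X⟧} {E E' : ℕ} (h : E ≤ E') (hf : Geo (B ^ E) f) :
    Geo (B ^ E') f := fun k =>
  (hf k).trans (pow_le_pow_left₀ (by positivity) (pow_le_pow_right₀ (by linarith) h) _)

theorem C_SIG {H : ℝ} (hH : 1 ≤ H) {z : ℂ} (hz : ‖z‖ ≤ H) : Geo H (C z) := by
  intro k
  rw [coeff_C]
  split_ifs with h
  · subst h; simpa using hz
  · rw [norm_zero]; positivity

variable {P : Type} {b : P → ℝ} (hb : ∀ p, 2 ≤ b p)

include hb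

theorem add_SIG {f g : P → ℂ⟦X⟧} (hf : Bd_SIG b f) (hg : Bd_SIG b g) :
    Bd_SIG b fun p => f p + g p := by
  obtain ⟨E, hE⟩ := hf
  obtain ⟨E', hE'⟩ := hg
  refine ⟨E + E' + 1, fun p k => ?_⟩
  have h0 := hb p
  have h1 := up_SIG h0 (Nat.le_add_right E E') (hE p) k
  have h2 := up_SIG h0 (Nat.le_add_left E' E) (hE' p) k
  have h3 : 2 ≤ b p ^ (k + 1) := h0.trans (le_self_pow₀ (by linarith) (by omega))
  have h4 : 0 ≤ (b p ^ (E + E')) ^ (k + 1) := by positivity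
  rw [map_add, pow_succ (b p) (E + E'), mul_pow]
  refine (norm_add_le _ _).trans ?_
  nlinarith

theorem mul_SIG {f g : P → ℂ⟦X⟧} (hf : Bd_SIG b f) (hg : Bd_SIG b g) :
    Bd_SIG b fun p => f p * g p := by
  obtain ⟨E, hE⟩ := hf
  obtain ⟨E', hE'⟩ := hg
  refine ⟨E + E' + 1, fun p k => ?_⟩
  have h0 := hb p
  have h1 : 1 ≤ b p := by linarith
  have h3 : ((k + 1 : ℕ) : ℝ) ≤ b p ^ (k + 1) := by
    refine le_trans ?_ (pow_le_pow_left₀ (by norm_num) h0 _)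
    exact_mod_cast (Nat.lt_two_pow_self (n := k + 1)).le
  rw [coeff_mul, pow_succ' (b p) (E + E'), mul_pow]
  refine (norm_sum_le _ _).trans ((sum_le_card_nsmul _ _ ((b p ^ (E + E')) ^ (k + 1))
    fun x hx => ?_).trans ?_)
  · have h4 := mem_antidiagonal.1 hx
    rw [norm_mul, pow_add (b p), mul_pow]
    exact mul_le_mul ((hE p _).trans (pow_le_pow_right₀ (one_le_pow₀ h1) (by omega)))
      ((hE' p _).trans (pow_le_pow_right₀ (one_le_pow₀ h1) (by omega))) (norm_nonneg _)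
      (by positivity)
  · rw [Nat.card_antidiagonal, nsmul_eq_mul]
    exact mul_le_mul_of_nonneg_right h3 (by positivity)

theorem const_SIG (z : ℂ) : Bd_SIG b fun _ => C z := by
  obtain ⟨E, hE⟩ := pow_unbounded_of_one_lt ‖z‖ (one_lt_two (α := ℝ))
  refine ⟨E, fun p => C_SIG (one_le_pow₀ (by linarith [hb p])) (hE.le.trans ?_)⟩
  exact pow_le_pow_left₀ (by norm_num) (hb p) _

theorem int_SIG (z : ℤ) : Bd_SIG b fun _ => (z : ℂ⟦X⟧) := by
  simpa using const_SIG hb (z : ℂ)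

omit hb in
theorem X_SIG : Bd_SIG b fun _ => X := by
  refine ⟨0, fun p k => ?_⟩
  rw [coeff_X]
  split_ifs <;> simp

theorem prod_SIG {ι : Type} (s : Finset ι) (f : ι → P → ℂ⟦X⟧) (hf : ∀ i, Bd_SIG b (f i)) :
    Bd_SIG b fun p => ∏ i ∈ s, f i p := by
  classical
  induction s using Finset.induction_on with
  | empty => simpa using int_SIG hb 1
  | insert i s hi ih => simpa only [prod_insert hi] using mul_SIG hb (hf i) ih

theorem aeval_SIG {z : P → ℂ} (hz : Bd_SIG b fun p => C (z p)) (d : Polynomial ℤ) :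
    Bd_SIG b fun p => C (Polynomial.aeval (z p) d) := by
  induction d using Polynomial.induction_on with
  | C a => simpa using int_SIG hb a
  | add p q hp hq => simpa only [map_add] using add_SIG hb hp hq
  | monomial n a h =>
    simpa only [pow_succ, ← mul_assoc, map_mul, Polynomial.aeval_X] using mul_SIG hb h hz

theorem fin_SIG {ι : Type} [Fintype ι] (f : ι → P → ℂ⟦X⟧) (hf : ∀ i, Bd_SIG b (f i)) :
    ∃ E : ℕ, ∀ i p, Geo (b p ^ E) (f i p) := by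
  choose E hE using hf
  exact ⟨∑ i, E i, fun i p => up_SIG (hb p)
    (single_le_sum (fun _ _ => Nat.zero_le _) (mem_univ i)) (hE i p)⟩

theorem root_SIG (hITG : ITG_st) (hSZG : SZG_st) {m : ℕ} {r : Fin m → ℤ} {d : Polynomial ℤ}
    (hd : IsD r d) {T μ : P → ℂ} {A : P → Fin (m + 1) → ℂ⟦X⟧} (hT : Bd_SIG b fun p => C (T p))
    (hμ : Bd_SIG b fun p => C (μ p)) (h0 : ∀ p, Polynomial.aeval (T p) d ≠ 0)
    (hA : ∀ p, Rt r (C (T p) + C (Polynomial.aeval (T p) d ^ 2 * μ p) * X) (A p))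
    (s : Fin (m + 1)) : Bd_SIG b fun p => A p s := by
  obtain ⟨E, hE⟩ := hSZG m r
  obtain ⟨E₁, h₁⟩ := hT
  obtain ⟨E₂, h₂⟩ := hμ
  refine ⟨(E₁ + E₂ + 1) * E, fun p => ?_⟩
  have e : ∏ s, fd (fun s => constantCoeff (A p s)) s = Polynomial.aeval (T p) d := by
    refine hd ℂ (T p) _ ?_
    have := (hITG m r _ _ _ (hA p)).2.2.2.2.1 ℂ constantCoeff
    simpa [Function.comp_def] using this
  have k1 := up_SIG (hb p) (show E₁ ≤ E₁ + E₂ + 1 by omega) (h₁ p) 0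
  have k2 := up_SIG (hb p) (show E₂ ≤ E₁ + E₂ + 1 by omega) (h₂ p) 0
  rw [pow_mul]
  refine hE _ (T p) (μ p) (A p) ((hb p).trans (le_self_pow₀ (by linarith [hb p]) (by omega)))
    (by simpa using k1) (by simpa using k2) (by rw [e]; exact h0 p) (by rw [e]; exact hA p) s

theorem uv_SIG {m : ℕ} (r : Fin m → ℤ) {T : P → ℂ⟦X⟧} {A : P → Fin (m + 1) → ℂ⟦X⟧}
    (hT : Bd_SIG b T) (hA : ∀ s, Bd_SIG b fun p => A p s) (j : Fin (m + 1) × Fin m) :
    (Bd_SIG b fun p => uu r (A p) j) ∧ Bd_SIG b fun p => vv r (T p) (A p) j := by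
  have h : ∀ s i, Bd_SIG b fun p => A p s - (r i : ℂ⟦X⟧) := fun s i => by
    simpa [sub_eq_add_neg] using add_SIG hb (hA s) (int_SIG hb (-r i))
  exact ⟨h _ _, mul_SIG hb (prod_SIG hb _ (fun i p => A p j.1 - (r i : ℂ⟦X⟧)) fun i => h _ i)
    (add_SIG hb (hA _) hT)⟩

omit hb

theorem SIG_pf (hITG : ITG_st) (hSZG : SZG_st) (hSZH : SZH_st) : SIG_st := by
  intro m k k' σ σ' r d c c' hd
  let P : Type := {x : (ℕ × ℕ) × ℂ⟦X⟧ × (Fin (m + 1) → ℂ⟦X⟧) × (Fin (m + 1) → ℂ⟦X⟧) //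
    2 ≤ x.1.1 ∧ x.1.2 ≤ x.1.1 ∧ Polynomial.aeval ((c : ℂ) * x.1.2) d ≠ 0 ∧
      Polynomial.aeval ((c' : ℂ) * x.1.2) d ≠ 0 ∧
      x.2.1 = C (x.1.2 : ℂ) + C ((Polynomial.aeval ((c : ℂ) * x.1.2) d *
        Polynomial.aeval ((c' : ℂ) * x.1.2) d) ^ 2) * X ∧
      Rt r (c * x.2.1) x.2.2.1 ∧ Rt r (c' * x.2.1) x.2.2.2}
  let b : P → ℝ := fun p => p.1.1.1
  have hb : ∀ p, 2 ≤ b p := fun p => by
    have := p.2.1
    simp only [b]
    exact_mod_cast this
  have ht : Bd_SIG b fun p => C (p.1.1.2 : ℂ) := ⟨1, fun p => by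
    refine C_SIG (by linarith [hb p, pow_one (b p)]) ?_
    have := p.2.2.1
    simp only [b, pow_one, Complex.norm_natCast]
    exact_mod_cast this⟩
  have hT : ∀ a : ℕ, Bd_SIG b fun p => C ((a : ℂ) * p.1.1.2) := fun a => by
    simpa only [map_mul] using mul_SIG hb (const_SIG hb (a : ℂ)) ht
  have hD := fun a : ℕ => aeval_SIG hb (hT a) d
  have hμ : ∀ a a' : ℕ, Bd_SIG b fun p =>
      C ((a : ℂ) * Polynomial.aeval ((a' : ℂ) * p.1.1.2) d ^ 2) := fun a a' => by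
    simpa only [map_mul, pow_two] using
      mul_SIG hb (const_SIG hb (a : ℂ)) (mul_SIG hb (hD a') (hD a'))
  have hτ : Bd_SIG b fun p => p.1.2.1 := by
    have h := add_SIG hb ht (mul_SIG hb (mul_SIG hb (mul_SIG hb (hD c) (hD c'))
      (mul_SIG hb (hD c) (hD c'))) X_SIG)
    obtain ⟨E, hE⟩ := h
    refine ⟨E, fun p => ?_⟩
    show Geo _ p.1.2.1
    rw [p.2.2.2.2.2.1]
    simpa only [map_mul, pow_two] using hE p
  have hc : ∀ a : ℕ, Bd_SIG b fun p => (a : ℂ⟦X⟧) * p.1.2.1 := fun a => by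
    simpa using mul_SIG hb (int_SIG hb a) hτ
  have hA := root_SIG hb hITG hSZG hd (A := fun p => p.1.2.2.1) (hT c) (hμ c c')
    (fun p => p.2.2.2.1) fun p => by
      have h := p.2.2.2.2.2.2.1
      rw [p.2.2.2.2.2.1] at h
      refine Eq.mp (congrArg (fun T => Rt r T _) ?_) h
      simp only [map_mul, map_pow, map_natCast]
      ring
  have hA' := root_SIG hb hITG hSZG hd (A := fun p => p.1.2.2.2) (hT c') (hμ c' c)
    (fun p => p.2.2.2.2.1) fun p => by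
      have h := p.2.2.2.2.2.2.2
      rw [p.2.2.2.2.2.1] at h
      refine Eq.mp (congrArg (fun T => Rt r T _) ?_) h
      simp only [map_mul, map_pow, map_natCast]
      ring
  obtain ⟨E₁, h₁⟩ := fin_SIG hb (fun j (p : P) => UU σ σ' r p.1.2.2.1 p.1.2.2.2 j) fun j => by
    rcases j with j | j
    exacts [(uv_SIG hb r (hc c) hA _).1, (uv_SIG hb r (hc c') hA' _).1]
  obtain ⟨E₂, h₂⟩ := fin_SIG hb (fun j (p : P) =>
      VV σ σ' r (c * p.1.2.1) (c' * p.1.2.1) p.1.2.2.1 p.1.2.2.2 j) fun j => by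
    rcases j with j | j
    exacts [(uv_SIG hb r (hc c) hA _).2, (uv_SIG hb r (hc c') hA' _).2]
  obtain ⟨E₃, h₃⟩ := hτ
  obtain ⟨E, hE⟩ := hSZH (Fin k ⊕ Fin k')
  refine ⟨(E₁ + E₂ + E₃ + 1) * E, ?_⟩
  intro B t D K L n e i j β τ A A' a1 a2 a3 a4 a5 a6 a7 hL he hi hβ hj
  let p : P := ⟨((B, t), τ, A, A'), a1, a2, a3, a4, a5, a6, a7⟩
  have hB : (2 : ℝ) ≤ B := hb p
  have hB' : (B : ℝ) ≤ (B : ℝ) ^ (E₁ + E₂ + E₃ + 1) := le_self_pow₀ (by linarith) (by omega)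
  have key := hE ((B : ℝ) ^ (E₁ + E₂ + E₃ + 1)) D K L n e i j β t τ (UU σ σ' r A A')
    (VV σ σ' r (c * τ) (c' * τ) A A') (hB.trans hB')
    (by rw [Complex.norm_natCast]; exact le_trans (by exact_mod_cast a2) hB')
    (up_SIG hB (by omega) (h₃ p)) (fun j => up_SIG hB (by omega) (h₁ j p))
    (fun j => up_SIG hB (by omega) (h₂ j p)) hL he hi hβ hj
  rw [pow_mul]
  simpa only [Fintype.card_sum, Fintype.card_fin] using key

end Pool.Agent.MP_3e91a1_nt.GN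

end
end

section

/-! The size of the coefficients of the roots. -/

set_option autoImplicit false

open Finset Filter PowerSeries

noncomputable section

namespace Pool.Agent.MP_3e91a1_nt.TR

/-- weighted norm of a truncation -/
def wn_SZA (r : ℝ) (n : ℕ) (S : ℂ⟦X⟧) : ℝ := ∑ k ∈ range n, ‖coeff k S‖ * r ^ k

section
variable {r : ℝ} (hr : 0 ≤ r)
include hr

theorem wn_nonneg_SZA (n : ℕ) (S : ℂ⟦X⟧) : 0 ≤ wn_SZA r n S :=
  sum_nonneg fun _ _ => by positivity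

theorem wn_add_SZA (n : ℕ) (S T : ℂ⟦X⟧) : wn_SZA r n (S + T) ≤ wn_SZA r n S + wn_SZA r n T := by
  unfold wn_SZA
  rw [← sum_add_distrib]
  refine sum_le_sum fun k _ => ?_
  rw [map_add, ← add_mul]
  exact mul_le_mul_of_nonneg_right (norm_add_le _ _) (by positivity)

theorem wn_mul_SZA (n : ℕ) (S T : ℂ⟦X⟧) : wn_SZA r n (S * T) ≤ wn_SZA r n S * wn_SZA r n T := by
  unfold wn_SZA
  rw [sum_mul_sum, ← sum_product']
  calc ∑ k ∈ range n, ‖coeff k (S * T)‖ * r ^ k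
      ≤ ∑ k ∈ range n, ∑ x ∈ antidiagonal k,
          ‖coeff x.1 S‖ * r ^ x.1 * (‖coeff x.2 T‖ * r ^ x.2) := by
        refine sum_le_sum fun k _ => ?_
        rw [coeff_mul]
        refine (mul_le_mul_of_nonneg_right (norm_sum_le _ _) (by positivity)).trans_eq ?_
        rw [sum_mul]
        refine sum_congr rfl fun x hx => ?_
        rw [← mem_antidiagonal.1 hx, norm_mul, pow_add]
        ring
    _ = ∑ x ∈ (range n).biUnion antidiagonal,
          ‖coeff x.1 S‖ * r ^ x.1 * (‖coeff x.2 T‖ * r ^ x.2) := by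
        refine (sum_biUnion fun i _ j _ hij => disjoint_left.2 fun x h1 h2 => hij ?_).symm
        rw [← mem_antidiagonal.1 h1, mem_antidiagonal.1 h2]
    _ ≤ _ := by
        refine sum_le_sum_of_subset_of_nonneg (fun x hx => ?_) fun x _ _ => by positivity
        obtain ⟨k, h1, h2⟩ := mem_biUnion.1 hx
        have h3 := mem_antidiagonal.1 h2
        have h4 := mem_range.1 h1
        exact mem_product.2 ⟨mem_range.2 (by omega), mem_range.2 (by omega)⟩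

omit hr in
theorem wn_X_SZA (n : ℕ) (S : ℂ⟦X⟧) : wn_SZA r (n + 1) (X * S) = r * wn_SZA r n S := by
  unfold wn_SZA
  rw [sum_range_succ', coeff_zero_X_mul, norm_zero, zero_mul, add_zero, mul_sum]
  refine sum_congr rfl fun k _ => ?_
  rw [coeff_succ_X_mul, pow_succ]
  ring

theorem wn_X'_SZA (hr1 : r ≤ 1) (n : ℕ) (S : ℂ⟦X⟧) : wn_SZA r n (X * S) ≤ wn_SZA r n S := by
  calc wn_SZA r n (X * S) ≤ wn_SZA r (n + 1) (X * S) := by
        unfold wn_SZA
        rw [sum_range_succ]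
        exact le_add_of_nonneg_right (by positivity)
    _ = r * wn_SZA r n S := wn_X_SZA n S
    _ ≤ _ := mul_le_of_le_one_left (wn_nonneg_SZA hr n S) hr1

omit hr in
theorem wn_C_SZA (n : ℕ) (c : ℂ) (S : ℂ⟦X⟧) : wn_SZA r n (C c * S) = ‖c‖ * wn_SZA r n S := by
  unfold wn_SZA
  rw [mul_sum]
  refine sum_congr rfl fun k _ => ?_
  rw [coeff_C_mul, norm_mul, mul_assoc]

omit hr in
theorem wn_C'_SZA (n : ℕ) (c : ℂ) : wn_SZA r (n + 1) (C c) = ‖c‖ := by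
  unfold wn_SZA
  rw [sum_range_succ', sum_eq_zero fun k _ => by rw [coeff_succ_C, norm_zero, zero_mul]]
  simp

end

/-- the majorant -/
theorem maj_SZA {R : ℝ} (hR : 1 ≤ R) {c₀ c₁ c₂ c₃ c₄ : ℂ} (h0 : ‖c₀‖ ≤ R) (h1 : ‖c₁‖ ≤ R)
    (h2 : ‖c₂‖ ≤ R) (h3 : ‖c₃‖ ≤ R) (h4 : ‖c₄‖ ≤ R) {U : ℂ⟦X⟧}
    (hU : U = C c₀ + X * (C c₁ * (U * U) + C c₂ * (X * (U * U * U)) + C c₃ * U +
      C c₄ * (X * (U * U)))) (k : ℕ) : ‖coeff k U‖ ≤ 2 * R * (32 * R ^ 3) ^ k := by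
  have hR3 : 1 ≤ R ^ 3 := one_le_pow₀ hR
  obtain ⟨r, hr, hr2⟩ : ∃ r : ℝ, 0 < r ∧ r * (32 * R ^ 3) = 1 :=
    ⟨1 / (32 * R ^ 3), by positivity, by field_simp⟩
  have hr1 : r ≤ 1 := (le_mul_of_one_le_right hr.le (by linarith)).trans hr2.le
  have key : ∀ n, wn_SZA r n U ≤ 2 * R := fun n => by
    induction n with
    | zero => simp only [wn_SZA, sum_range_zero]; linarith
    | succ n ih =>
      have n0 := wn_nonneg_SZA hr.le n U
      have hN : 1 ≤ 2 * R := by linarith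
      have p1 : wn_SZA r n U ≤ (2 * R) ^ 3 := ih.trans (le_self_pow₀ hN three_ne_zero)
      have p2 : wn_SZA r n (U * U) ≤ (2 * R) ^ 2 :=
        (wn_mul_SZA hr.le n U U).trans (by rw [sq]; gcongr)
      have p2' : wn_SZA r n (U * U) ≤ (2 * R) ^ 3 :=
        p2.trans (pow_le_pow_right₀ hN (by norm_num))
      have p3 : wn_SZA r n (U * U * U) ≤ (2 * R) ^ 3 :=
        (wn_mul_SZA hr.le n _ U).trans (by rw [pow_succ _ 2]; gcongr)
      have q : ∀ (c : ℂ) (S : ℂ⟦X⟧), ‖c‖ ≤ R → wn_SZA r n S ≤ (2 * R) ^ 3 →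
          wn_SZA r n (C c * S) ≤ R * (2 * R) ^ 3 := fun c S hc hS => by
        rw [wn_C_SZA]
        exact mul_le_mul hc hS (wn_nonneg_SZA hr.le n S) (by linarith)
      have q1 := q _ _ h1 p2'
      have q2 := q _ _ h2 ((wn_X'_SZA hr.le hr1 n _).trans p3)
      have q3 := q _ _ h3 p1
      have q4 := q _ _ h4 ((wn_X'_SZA hr.le hr1 n _).trans p2')
      have q5 : wn_SZA r n (C c₁ * (U * U) + C c₂ * (X * (U * U * U)) + C c₃ * U +
          C c₄ * (X * (U * U))) ≤ 32 * R ^ 3 * R := by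
        refine (wn_add_SZA hr.le n _ _).trans ((add_le_add ((wn_add_SZA hr.le n _ _).trans
          (add_le_add ((wn_add_SZA hr.le n _ _).trans (add_le_add q1 q2)) q3)) q4).trans_eq ?_)
        ring
      have q6 := wn_add_SZA hr.le (n + 1) (C c₀) (X * (C c₁ * (U * U) +
        C c₂ * (X * (U * U * U)) + C c₃ * U + C c₄ * (X * (U * U))))
      rw [← hU, wn_C'_SZA, wn_X_SZA] at q6
      have q7 := mul_le_mul_of_nonneg_left q5 hr.le
      rw [← mul_assoc r (32 * R ^ 3) R, hr2, one_mul] at q7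
      linarith
  have h5 : ‖coeff k U‖ * r ^ k ≤ 2 * R := le_trans
    (single_le_sum (f := fun j => ‖coeff j U‖ * r ^ j) (fun j _ => by positivity)
      (self_mem_range_succ k)) (key (k + 1))
  calc ‖coeff k U‖ = ‖coeff k U‖ * r ^ k * (32 * R ^ 3) ^ k := by
        rw [mul_assoc, ← mul_pow, hr2, one_pow, mul_one]
    _ ≤ _ := by gcongr

theorem root_SZA {S : Type} [CommRing S] {T a b e : S} (h : Tri T a b e) :
    a * (a - 1) * (a + T) = 1 ∧ b * (b - 1) * (b + T) = 1 ∧ e * (e - 1) * (e + T) = 1 := by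
  obtain ⟨h1, h2, h3⟩ := h
  exact ⟨by linear_combination a ^ 2 * h1 - a * h2 + h3,
    by linear_combination b ^ 2 * h1 - b * h2 + h3, by linear_combination e ^ 2 * h1 - e * h2 + h3⟩

theorem disc_SZA {S : Type} [CommRing S] {T a b e : S} (h : Tri T a b e) :
    (a - b) * (a - e) * ((b - a) * (b - e) * ((e - a) * (e - b))) = -dsc T := by
  obtain ⟨h1, h2, h3⟩ := h
  have : (a - b) * (a - e) * ((b - a) * (b - e) * ((e - a) * (e - b))) =
      -((a + b + e) ^ 2 * (a * b + a * e + b * e) ^ 2 - 4 * (a * b + a * e + b * e) ^ 3 -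
        4 * (a + b + e) ^ 3 * (a * b * e) + 18 * (a + b + e) * (a * b + a * e + b * e) * (a * b * e) -
        27 * (a * b * e) ^ 2) := by ring
  rw [this, h1, h2, h3, dsc]
  ring

theorem alg_SZA {S : Type} [CommRing S] {a T D g k x U : S}
    (hA : (x * (D * U) + a) * (x * (D * U) + a - 1) * (x * (D * U) + a + (T + k * x)) = 1)
    (hf : a * (a - 1) * (a + T) = 1) (hD : D = 3 * a ^ 2 + 2 * (T - 1) * a - T)
    (hk : k = D ^ 2 * g) : x * D ^ 2 * (U - (-(g * (a * (a - 1))) +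
      x * (-(a + a + (a + (T - 1))) * (U * U) + -D * (x * (U * U * U)) +
        -(g * D * (a + (a - 1))) * U + -(g * D * D) * (x * (U * U))))) = 0 := by
  linear_combination hA - hf + x * (D * U) * hD -
    x * (x * (D * U) + a) * (x * (D * U) + a - 1) * hk

theorem SZA_pf : SZA_st := by
  refine ⟨116, fun B T μ A A' A'' hB hT hμ hd hA k => ?_⟩
  have hB1 : 1 ≤ B := by linarith
  have mo : ∀ {x : ℂ} {i : ℕ} (j : ℕ), i ≤ j → ‖x‖ ≤ B ^ i → ‖x‖ ≤ B ^ j := fun j h1 h2 =>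
    h2.trans (pow_le_pow_right₀ hB1 h1)
  have mu : ∀ {x y : ℂ} {i j : ℕ}, ‖x‖ ≤ B ^ i → ‖y‖ ≤ B ^ j → ‖x * y‖ ≤ B ^ (i + j) :=
    fun h1 h2 => by
      rw [norm_mul, pow_add]
      exact mul_le_mul h1 h2 (norm_nonneg _) (by positivity)
  have two : ∀ i : ℕ, B ^ i + B ^ i ≤ B ^ (i + 1) := fun i => by
    rw [pow_succ]
    nlinarith [pow_pos (one_pos.trans_le hB1) i]
  have ad : ∀ {x y : ℂ} {i : ℕ}, ‖x‖ ≤ B ^ i → ‖y‖ ≤ B ^ i → ‖x + y‖ ≤ B ^ (i + 1) :=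
    fun h1 h2 => (norm_add_le _ _).trans ((add_le_add h1 h2).trans (two _))
  have su : ∀ {x y : ℂ} {i : ℕ}, ‖x‖ ≤ B ^ i → ‖y‖ ≤ B ^ i → ‖x - y‖ ≤ B ^ (i + 1) :=
    fun h1 h2 => (norm_sub_le _ _).trans ((add_le_add h1 h2).trans (two _))
  have rt : ∀ y : ℂ, y * (y - 1) * (y + T) = 1 → ‖y‖ ≤ B ^ 2 := fun y hy => by
    by_contra h
    have h1 : 2 * B < ‖y‖ := lt_of_le_of_lt (by nlinarith) (not_le.1 h)
    have h2 := norm_sub_norm_le y 1
    have h3 := norm_sub_norm_le y (-T)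
    rw [norm_one] at h2
    rw [norm_neg, sub_neg_eq_add] at h3
    have h4 := congrArg norm hy
    rw [norm_mul, norm_mul, norm_one] at h4
    have h5 : 1 * 1 * 1 < ‖y‖ * ‖y - 1‖ * ‖y + T‖ := by gcongr <;> linarith
    linarith
  have hc : Tri T (constantCoeff A) (constantCoeff A') (constantCoeff A'') :=
    ⟨by simpa using congrArg constantCoeff hA.1, by simpa using congrArg constantCoeff hA.2.1,
      by simpa using congrArg constantCoeff hA.2.2⟩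
  have eA := eq_X_mul_shift_add_const A
  have e0 : coeff 0 A = constantCoeff A := by simp
  generalize constantCoeff A = a at hc eA e0
  generalize constantCoeff A' = b at hc
  generalize constantCoeff A'' = e at hc
  obtain ⟨r1, r2, r3⟩ := root_SZA hc
  have ba := rt a r1
  have bb := rt b r2
  have be := rt e r3
  have b1 : ‖(1 : ℂ)‖ ≤ B ^ 0 := by simp
  have bT : ‖T‖ ≤ B ^ 1 := by rwa [pow_one]
  have bD : ‖(a - b) * (a - e)‖ ≤ B ^ 6 := mu (su ba bb) (su ba be)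
  have bP : ‖(b - a) * (b - e) * ((e - a) * (e - b))‖ ≤ B ^ 12 :=
    mu (mu (su bb ba) (su bb be)) (mu (su be ba) (su be bb))
  have hdc := disc_SZA hc
  have hD : (a - b) * (a - e) = 3 * a ^ 2 + 2 * (T - 1) * a - T := by
    linear_combination (-2 * a) * hc.1 + hc.2.1
  generalize (b - a) * (b - e) * ((e - a) * (e - b)) = P at bP hdc
  generalize (a - b) * (a - e) = D at bD hdc hD
  have bg : ‖μ * (P * P)‖ ≤ B ^ 25 := mu (i := 1) (by rwa [pow_one]) (mu bP bP)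
  have hk : dsc T ^ 2 * μ = D ^ 2 * (μ * (P * P)) := by
    rw [← neg_sq, ← hdc]
    ring
  generalize μ * (P * P) = g at bg hk
  have hD0 : D ≠ 0 := by
    rintro rfl
    exact hd (by rw [← neg_eq_zero, ← hdc, zero_mul])
  have ba1 : ‖a - 1‖ ≤ B ^ 3 := su ba (mo 2 (by norm_num) b1)
  obtain ⟨U, hU⟩ : ∃ U : ℂ⟦X⟧, (mk fun p => coeff (p + 1) A) = C D * U :=
    ⟨C D⁻¹ * mk fun p => coeff (p + 1) A, by
      rw [← mul_assoc, ← map_mul, mul_inv_cancel₀ hD0, map_one, one_mul]⟩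
  have h1 := (root_SZA hA).1
  rw [hU] at eA
  rw [eA] at h1
  have h2 := alg_SZA (g := C g) h1 (by simpa using congrArg (C : ℂ →+* ℂ⟦X⟧) r1)
    (by simpa [map_ofNat] using congrArg (C : ℂ →+* ℂ⟦X⟧) hD) (by rw [hk, map_mul, map_pow])
  have h3 := sub_eq_zero.1 ((mul_eq_zero.1 h2).resolve_left (mul_ne_zero X_ne_zero
    (pow_ne_zero 2 fun h => hD0 (by simpa using congrArg constantCoeff h))))
  have hR : 1 ≤ B ^ 37 := one_le_pow₀ hB1
  have h4 := maj_SZA hR (c₀ := -(g * (a * (a - 1)))) (c₁ := -(a + a + (a + (T - 1))))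
    (c₂ := -D) (c₃ := -(g * D * (a + (a - 1)))) (c₄ := -(g * D * D)) (U := U)
    (by rw [norm_neg]; exact mo 37 (by norm_num) (mu bg (mu ba ba1)))
    (by rw [norm_neg]; exact mo 37 (by norm_num)
          (ad (ad ba ba) (ad ba (su bT (mo 1 (by norm_num) b1)))))
    (by rw [norm_neg]; exact mo 37 (by norm_num) bD)
    (by rw [norm_neg]; exact mo 37 (by norm_num)
          (mu (mu bg bD) (ad (mo 3 (by norm_num) ba) ba1)))
    (by rw [norm_neg]; exact mu (mu bg bD) bD) (by simpa using h3)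
  have h5 : 32 * (B ^ 37) ^ 3 ≤ B ^ 116 := by
    calc 32 * (B ^ 37) ^ 3 = 2 ^ 5 * (B ^ 37) ^ 3 := by norm_num
      _ ≤ B ^ 5 * (B ^ 37) ^ 3 := by gcongr
      _ = B ^ 116 := by ring
  have h6 : 1 ≤ B ^ 116 := one_le_pow₀ hB1
  rcases k with _ | k
  · rw [e0, zero_add, pow_one]
    exact mo 116 (by norm_num) ba
  · have h7 : coeff (k + 1) A = D * coeff k U := by
      rw [← coeff_C_mul, ← hU, coeff_mk]
    have h8 : B ^ 37 * (2 * B ^ 37) ≤ 32 * (B ^ 37) ^ 3 := by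
      generalize B ^ 37 = R at hR
      nlinarith [mul_pos (one_pos.trans_le hR) (one_pos.trans_le hR)]
    rw [h7, norm_mul]
    calc ‖D‖ * ‖coeff k U‖ ≤ B ^ 37 * (2 * B ^ 37 * (32 * (B ^ 37) ^ 3) ^ k) :=
          mul_le_mul (mo 37 (by norm_num) bD) (h4 k) (norm_nonneg _) (by positivity)
      _ = B ^ 37 * (2 * B ^ 37) * (32 * (B ^ 37) ^ 3) ^ k := by rw [mul_assoc (B ^ 37)]
      _ ≤ B ^ 116 * (B ^ 116) ^ k :=
          mul_le_mul (h8.trans h5) (pow_le_pow_left₀ (by positivity) h5 k) (by positivity)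
            (by positivity)
      _ = (B ^ 116) ^ (k + 1) := (pow_succ' _ _).symm
      _ ≤ _ := pow_le_pow_right₀ h6 (Nat.le_succ _)

end Pool.Agent.MP_3e91a1_nt.TR

end
end

section

/-! The size of a fixed point. -/

set_option autoImplicit false

open Finset Filter PowerSeries

noncomputable section

namespace Pool.Agent.MP_3e91a1_nt.GN

open TR

theorem wn_pow_SZF {r : ℝ} (hr : 0 ≤ r) {N : ℕ} {W : ℂ⟦X⟧} (h : wn_SZA r N W ≤ 1) (j : ℕ) :
    wn_SZA r N (W ^ j) ≤ 1 := by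
  induction j with
  | zero =>
    rcases N with _ | N
    · simp [wn_SZA]
    · have := wn_C'_SZA (r := r) N 1
      rw [map_one, norm_one] at this
      rw [pow_zero, this]
  | succ j ih =>
    rw [pow_succ]
    exact (wn_mul_SZA hr N _ _).trans (mul_le_one₀ ih (wn_nonneg_SZA hr N W) h)

theorem wn_aeval_SZF {r B : ℝ} (hr : 0 ≤ r) {N n : ℕ} {W : ℂ⟦X⟧} (h : wn_SZA r N W ≤ 1)
    {H : Polynomial ℂ} (hH : H.natDegree ≤ n) (hB : ∀ j, ‖H.coeff j‖ ≤ B) :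
    wn_SZA r N (Polynomial.aeval W H) ≤ (n + 1 : ℕ) * B := by
  rw [Polynomial.aeval_eq_sum_range' (Nat.lt_add_one_of_le hH)]
  induction n + 1 with
  | zero => simp [wn_SZA]
  | succ m ih =>
    rw [sum_range_succ, Nat.cast_succ, add_mul, one_mul]
    refine (wn_add_SZA hr N _ _).trans (add_le_add ih ?_)
    rw [smul_eq_C_mul, wn_C_SZA]
    exact (mul_le_of_le_one_right (norm_nonneg _) (wn_pow_SZF hr h m)).trans (hB m)

theorem SZF_pf : SZF_st := by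
  refine fun n => ⟨2 * n + 4, fun B H₁ H₂ W hB d1 d2 b1 b2 h0 hW k => ?_⟩
  obtain ⟨R, hR⟩ : ∃ R : ℝ, R = (n + 1 : ℕ) * B := ⟨_, rfl⟩
  have hn : (1 : ℝ) ≤ (n + 1 : ℕ) := by exact_mod_cast Nat.succ_pos n
  have hR1 : 1 ≤ R := by nlinarith
  obtain ⟨r, hr, hr2⟩ : ∃ r : ℝ, 0 < r ∧ r * (4 * R ^ 2) = 1 :=
    ⟨1 / (4 * R ^ 2), by positivity, by field_simp⟩
  obtain ⟨U, hU⟩ := X_dvd_iff.2 h0
  have e : U = W * U * Polynomial.aeval W H₁ + Polynomial.aeval W H₂ :=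
    mul_left_cancel₀ (X_ne_zero (R := ℂ)) (by
      rw [← hU]
      linear_combination hW + W * Polynomial.aeval W H₁ * hU)
  have one : ∀ N, wn_SZA r N W * (2 * R) ≤ 1 → wn_SZA r N W ≤ 1 := fun N h =>
    (le_mul_of_one_le_right (wn_nonneg_SZA hr.le N W) (by linarith)).trans h
  have key : ∀ N, wn_SZA r N W * (2 * R) ≤ 1 := fun N => by
    induction N with
    | zero => simp [wn_SZA]
    | succ N ih =>
      have a1 := wn_aeval_SZF hr.le (one N ih) d1 b1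
      have a2 := wn_aeval_SZF hr.le (one N ih) d2 b2
      rw [← hR] at a1 a2
      have n0 := wn_nonneg_SZA hr.le N U
      have n1 := wn_nonneg_SZA hr.le N W
      have a3 : wn_SZA r N (W * U * Polynomial.aeval W H₁) ≤ wn_SZA r N W * wn_SZA r N U * R :=
        (wn_mul_SZA hr.le N _ _).trans (mul_le_mul (wn_mul_SZA hr.le N _ _) a1
          (wn_nonneg_SZA hr.le N _) (mul_nonneg n1 n0))
      have a4 := wn_add_SZA hr.le N (W * U * Polynomial.aeval W H₁) (Polynomial.aeval W H₂)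
      rw [← e] at a4
      have a5 : wn_SZA r N U ≤ 2 * R := by nlinarith [mul_le_mul_of_nonneg_left ih n0]
      have a6 : wn_SZA r (N + 1) W = r * wn_SZA r N U := by rw [← wn_X_SZA, ← hU]
      rw [a6]
      nlinarith [mul_le_mul_of_nonneg_left a5 (show 0 ≤ r * (2 * R) by positivity)]
  have h5 : ‖coeff k W‖ * r ^ k ≤ 1 := le_trans
    (single_le_sum (f := fun j => ‖coeff j W‖ * r ^ j) (fun j _ => by positivity)
      (self_mem_range_succ k)) (one _ (key (k + 1)))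
  have h6 : 4 * R ^ 2 ≤ B ^ (2 * n + 4) := by
    have c1 : ((n + 1 : ℕ) : ℝ) ≤ 2 ^ n := by exact_mod_cast Nat.lt_two_pow_self
    have c2 : (2 : ℝ) ^ n ≤ B ^ n := pow_le_pow_left₀ two_pos.le hB n
    calc 4 * R ^ 2 = 2 ^ 2 * ((n + 1 : ℕ) * B) ^ 2 := by rw [hR]; norm_num
      _ ≤ B ^ 2 * (B ^ n * B) ^ 2 := by
        gcongr
        exact c1.trans c2
      _ = B ^ (2 * n + 4) := by ring
  calc ‖coeff k W‖ = ‖coeff k W‖ * r ^ k * (4 * R ^ 2) ^ k := by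
        rw [mul_assoc, ← mul_pow, hr2, one_pow, mul_one]
    _ ≤ 1 * (B ^ (2 * n + 4)) ^ k := by gcongr
    _ ≤ _ := by
        rw [one_mul]
        exact pow_le_pow_right₀ (one_le_pow₀ (by linarith)) (Nat.le_succ _)

end Pool.Agent.MP_3e91a1_nt.GN

end
end

section

/-! The size of the roots as power series. -/

set_option autoImplicit false

open Finset Filter PowerSeries NumberField

noncomputable section

namespace Pool.Agent.MP_3e91a1_nt.GN

open TR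

lemma add_SZG {B x y : ℝ} {a b : ℕ} (hB : 2 ≤ B) (hx : x ≤ B ^ a) (hy : y ≤ B ^ b) :
    x + y ≤ B ^ (a + b + 1) := by
  have h1 : (1 : ℝ) ≤ B := by linarith
  have h2 : B ^ a ≤ B ^ (a + b) := pow_le_pow_right₀ h1 (by omega)
  have h3 : B ^ b ≤ B ^ (a + b) := pow_le_pow_right₀ h1 (by omega)
  have h4 : 0 ≤ B ^ (a + b) := by positivity
  rw [pow_succ]
  nlinarith

lemma nat_SZG {B : ℝ} (hB : 2 ≤ B) (n : ℕ) : (n : ℝ) ≤ B ^ n := by
  have h1 : (n : ℝ) ≤ 2 ^ n := by exact_mod_cast (Nat.lt_two_pow_self (n := n)).le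
  exact h1.trans (pow_le_pow_left₀ (by norm_num) hB n)

lemma ev_SZG (P : MvPolynomial (Fin 4) ℤ) : ∃ E : ℕ, ∀ (B : ℝ) (v : Fin 4 → ℂ), 2 ≤ B →
    (∀ i, ‖v i‖ ≤ B) → ‖MvPolynomial.eval₂Hom (Int.castRingHom ℂ) v P‖ ≤ B ^ E := by
  induction P using MvPolynomial.induction_on with
  | C a =>
    refine ⟨a.natAbs, fun B v hB _ => ?_⟩
    rw [MvPolynomial.eval₂Hom_C]
    have : ‖(Int.castRingHom ℂ) a‖ = (a.natAbs : ℝ) := by simp
    rw [this]
    exact nat_SZG hB _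
  | add p q hp hq =>
    obtain ⟨a, ha⟩ := hp
    obtain ⟨b, hb⟩ := hq
    refine ⟨a + b + 1, fun B v hB hv => ?_⟩
    rw [map_add]
    exact (norm_add_le _ _).trans (add_SZG hB (ha B v hB hv) (hb B v hB hv))
  | mul_X p i hp =>
    obtain ⟨a, ha⟩ := hp
    refine ⟨a + 1, fun B v hB hv => ?_⟩
    rw [map_mul, MvPolynomial.eval₂Hom_X', norm_mul, pow_succ]
    exact mul_le_mul (ha B v hB hv) (hv i) (norm_nonneg _) (by positivity)

lemma co_SZG (G : Polynomial (MvPolynomial (Fin 4) ℤ)) : ∃ E : ℕ, ∀ (B : ℝ) (v : Fin 4 → ℂ),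
    2 ≤ B → (∀ i, ‖v i‖ ≤ B) →
    ∀ j, ‖(G.map (MvPolynomial.eval₂Hom (Int.castRingHom ℂ) v)).coeff j‖ ≤ B ^ E := by
  induction G using Polynomial.induction_on' with
  | add p q hp hq =>
    obtain ⟨a, ha⟩ := hp
    obtain ⟨b, hb⟩ := hq
    refine ⟨a + b + 1, fun B v hB hv j => ?_⟩
    rw [Polynomial.map_add, Polynomial.coeff_add]
    exact (norm_add_le _ _).trans (add_SZG hB (ha B v hB hv j) (hb B v hB hv j))
  | monomial n P =>
    obtain ⟨a, ha⟩ := ev_SZG P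
    refine ⟨a, fun B v hB hv j => ?_⟩
    rw [Polynomial.map_monomial, Polynomial.coeff_monomial]
    split_ifs
    · exact ha B v hB hv
    · rw [norm_zero]; positivity

lemma root_SZG {m : ℕ} (r : Fin m → ℤ) : ∃ k : ℕ, ∀ (B : ℝ) (T a : ℂ), 2 ≤ B → ‖T‖ ≤ B →
    (∏ i, (a - r i)) * (a + T) = 1 → ‖a‖ ≤ B ^ k := by
  refine ⟨(∑ i, (r i).natAbs + 2) + 1 + 1, fun B T a hB hT h => ?_⟩
  by_contra hc
  rw [not_le] at hc
  have h0 := add_SZG hB (nat_SZG hB (∑ i, (r i).natAbs + 2)) (le_of_eq (pow_one B).symm)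
  have h1 : ((∑ i, (r i).natAbs + 2 : ℕ) : ℝ) + B < ‖a‖ := lt_of_le_of_lt h0 hc
  rw [Nat.cast_add, Nat.cast_ofNat] at h1
  have hn : (0 : ℝ) ≤ ((∑ i, (r i).natAbs : ℕ) : ℝ) := Nat.cast_nonneg _
  have h2 : ∀ i, 1 ≤ ‖a - r i‖ := by
    intro i
    have h3 : (r i).natAbs ≤ ∑ i, (r i).natAbs :=
      single_le_sum (f := fun i => (r i).natAbs) (fun _ _ => Nat.zero_le _) (mem_univ i)
    have h4 : (((r i).natAbs : ℕ) : ℝ) ≤ ((∑ i, (r i).natAbs : ℕ) : ℝ) := Nat.cast_le.2 h3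
    have h5 : ‖((r i : ℤ) : ℂ)‖ = (((r i).natAbs : ℕ) : ℝ) := by simp
    have h6 := norm_sub_norm_le a ((r i : ℤ) : ℂ)
    linarith
  have h3 : 1 ≤ ‖∏ i, (a - r i)‖ := by
    rw [norm_prod]
    exact Finset.one_le_prod (fun i _ => h2 i)
  have h4 : 2 ≤ ‖a + T‖ := by
    have h6 := norm_sub_norm_le a (-T)
    rw [sub_neg_eq_add, norm_neg] at h6
    linarith
  have h5 := congrArg norm h
  rw [norm_mul, norm_one] at h5
  nlinarith

lemma prod_SZG {n : ℕ} (s : Fin (n + 1)) (f : Fin (n + 1) → ℂ) {B : ℝ} {k : ℕ} (_hB : 2 ≤ B)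
    (h : ∀ i, ‖f i‖ ≤ B ^ k) : ‖∏ i ∈ univ.erase s, f i‖ ≤ B ^ (k * n) := by
  rw [norm_prod, pow_mul]
  refine (prod_le_prod (fun i _ => norm_nonneg _) (fun i _ => h i)).trans (le_of_eq ?_)
  simp

lemma der_SZG {m : ℕ} {r : Fin m → ℤ} {S : Type} [CommRing S] {T : S} {A : Fin (m + 1) → S}
    (h : Rt r T A) (s : Fin (m + 1)) :
    Polynomial.eval (A s) (Polynomial.derivative (fp r T)) = fd A s := by
  have h' : ∏ s, (Polynomial.X - Polynomial.C (A s)) = fp r T := h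
  rw [← h', ← mul_prod_erase univ _ (mem_univ s), Polynomial.derivative_mul]
  simp [fd, Polynomial.eval_prod]

lemma hom_SZG (T a Δ γ : ℂ) (W : ℂ⟦X⟧) (G : Polynomial (MvPolynomial (Fin 4) ℤ)) :
    Polynomial.eval₂ (MvPolynomial.eval₂Hom (Int.castRingHom ℂ⟦X⟧) ![C T, C a, C Δ, C γ]) W G =
      Polynomial.aeval W (G.map (MvPolynomial.eval₂Hom (Int.castRingHom ℂ) ![T, a, Δ, γ])) := by
  rw [Polynomial.aeval_def, Polynomial.eval₂_map]
  congr 1
  refine MvPolynomial.ringHom_ext (fun z => by simp) (fun i => ?_)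
  fin_cases i <;> simp

theorem SZG_pf (hITG : ITG_st) (hEQN : EQN_st) (hSZF : SZF_st) : SZG_st := by
  intro m r
  obtain ⟨G₁, G₂, hG⟩ := hEQN m r
  obtain ⟨k, hk⟩ := root_SZG r
  obtain ⟨e₁, he₁⟩ := co_SZG G₁
  obtain ⟨e₂, he₂⟩ := co_SZG G₂
  obtain ⟨E, hE⟩ := hSZF (G₁.natDegree + G₂.natDegree)
  obtain ⟨K, hK⟩ : ∃ K : ℕ, K = 1 + k + (k + k + 1) * m + 2 * ((k + k + 1) * m * m) := ⟨_, rfl⟩
  refine ⟨1 + K + K * (e₁ + e₂ + 1) * E, fun B T μ A hB hT hμ h0 hA s => ?_⟩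
  have h1 : (1 : ℝ) ≤ B := by linarith
  obtain ⟨a, ha⟩ : ∃ a : Fin (m + 1) → ℂ, a = fun s => constantCoeff (A s) := ⟨_, rfl⟩
  rw [← ha] at h0 hA
  have hRa : Rt r T a := by
    have h2 := (hITG m r _ _ A hA).2.2.2.2.1 ℂ (constantCoeff (R := ℂ))
    have h3 : (constantCoeff (R := ℂ)) ∘ A = a := by rw [ha]; rfl
    rw [h3] at h2
    simpa using h2
  have hRC : Rt r (C T) ((C (R := ℂ)) ∘ a) := (hITG m r _ _ a hRa).2.2.2.2.1 _ (C (R := ℂ))
  have hna : ∀ s, ‖a s‖ ≤ B ^ k := fun s => hk B T _ hB hT ((hITG m r _ _ a hRa).2.1 s)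
  have hnf : ∀ s, ‖fd a s‖ ≤ B ^ ((k + k + 1) * m) := fun s =>
    prod_SZG s _ hB fun i => (norm_sub_le _ _).trans (add_SZG hB (hna s) (hna i))
  obtain ⟨c, hc⟩ : ∃ c, c = ∏ i ∈ univ.erase s, fd a i := ⟨_, rfl⟩
  have hnc : ‖c‖ ≤ B ^ ((k + k + 1) * m * m) := hc ▸ prod_SZG s _ hB hnf
  have hp : ∏ i, fd a i = fd a s * c := by rw [hc, mul_prod_erase univ _ (mem_univ s)]
  have hΔ : fd a s ≠ 0 := fun h => h0 (by rw [hp, h, zero_mul])
  have hBK : B ≤ B ^ K := le_self_pow₀ h1 (by omega)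
  have hΔK : ‖fd a s‖ ≤ B ^ K := (hnf s).trans (pow_le_pow_right₀ h1 (by omega))
  have haK : ‖a s‖ ≤ B ^ K := (hna s).trans (pow_le_pow_right₀ h1 (by omega))
  have hv : ∀ i, ‖(![T, a s, fd a s, μ * c ^ 2] : Fin 4 → ℂ) i‖ ≤ B ^ K := by
    intro i
    fin_cases i
    · exact hT.trans hBK
    · exact haK
    · exact hΔK
    · show ‖μ * c ^ 2‖ ≤ B ^ K
      rw [norm_mul, norm_pow]
      calc ‖μ‖ * ‖c‖ ^ 2 ≤ B * (B ^ ((k + k + 1) * m * m)) ^ 2 := by gcongr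
        _ = B ^ (1 + 2 * ((k + k + 1) * m * m)) := by ring
        _ ≤ B ^ K := pow_le_pow_right₀ h1 (by omega)
  obtain ⟨W, hW⟩ : ∃ W : ℂ⟦X⟧, W = C (fd a s)⁻¹ * (A s - C (a s)) := ⟨_, rfl⟩
  have hAW : C (a s) + C (fd a s) * W = A s := by
    rw [hW, ← mul_assoc, ← map_mul, mul_inv_cancel₀ hΔ, map_one]; ring
  have hW0 : constantCoeff W = 0 := by rw [hW, ha]; simp
  have hd : Polynomial.eval (C (a s)) (Polynomial.derivative (fp r (C T : ℂ⟦X⟧))) = C (fd a s) := by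
    have h2 := der_SZG hRC s
    rw [Function.comp_apply] at h2
    rw [h2]
    simp [fd]
  have hq := hG ℂ⟦X⟧ (C T) (C (a s)) (C (fd a s)) (C (μ * c ^ 2)) X W
    ((hITG m r _ _ _ hRC).2.1 s) hd
  have hτ : (C T + C (fd a s) ^ 2 * C (μ * c ^ 2) * X : ℂ⟦X⟧) =
      C T + C ((∏ i, fd a i) ^ 2 * μ) * X := by
    rw [hp, ← map_pow, ← map_mul]
    congr 3
    ring
  rw [hAW, hτ, (hITG m r _ _ A hA).2.1 s, sub_self, hom_SZG, hom_SZG] at hq
  have hC : (C (fd a s) : ℂ⟦X⟧) ≠ 0 := fun h => hΔ (by simpa using congrArg constantCoeff h)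
  have hq' := sub_eq_zero.1 ((mul_eq_zero.1 hq.symm).resolve_left (pow_ne_zero 2 hC))
  have h2K : 2 ≤ B ^ K := hB.trans hBK
  have h1K : 1 ≤ B ^ K := by linarith
  have hg := hE ((B ^ K) ^ (e₁ + e₂ + 1)) _ _ W (h2K.trans (le_self_pow₀ h1K (by omega)))
    (Polynomial.natDegree_map_le.trans (by omega)) (Polynomial.natDegree_map_le.trans (by omega))
    (fun j => (he₁ _ _ h2K hv j).trans (pow_le_pow_right₀ h1K (by omega)))
    (fun j => (he₂ _ _ h2K hv j).trans (pow_le_pow_right₀ h1K (by omega))) hW0 hq'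
  intro j
  obtain ⟨H, hH⟩ : ∃ H, H = ((B ^ K) ^ (e₁ + e₂ + 1)) ^ E := ⟨_, rfl⟩
  have hH1 : 1 ≤ H := hH ▸ one_le_pow₀ (one_le_pow₀ h1K)
  have hj : ‖coeff j W‖ ≤ H ^ (j + 1) := hH ▸ hg j
  have hHj : 1 ≤ H ^ (j + 1) := one_le_pow₀ hH1
  have h5 : ‖coeff j (C (a s) : ℂ⟦X⟧)‖ ≤ B ^ K := by
    rw [coeff_C]
    split_ifs
    · exact haK
    · rw [norm_zero]; positivity
  have h6 : B ^ (1 + K + K * (e₁ + e₂ + 1) * E) = B * B ^ K * H := by rw [hH]; ring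
  have h7 : B * B ^ K ≤ (B * B ^ K) ^ (j + 1) := le_self_pow₀ (by nlinarith) (by omega)
  rw [← hAW, map_add, coeff_C_mul, h6, mul_pow]
  calc _ ≤ B ^ K + B ^ K * H ^ (j + 1) := by
        refine (norm_add_le _ _).trans (add_le_add h5 ?_)
        rw [norm_mul]
        exact mul_le_mul hΔK hj (norm_nonneg _) (by positivity)
    _ ≤ B * B ^ K * H ^ (j + 1) := by nlinarith [mul_le_mul_of_nonneg_left hHj (by positivity : 0 ≤ B ^ K), mul_nonneg (by positivity : 0 ≤ B ^ K) (by positivity : 0 ≤ H ^ (j + 1))]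
    _ ≤ _ := by gcongr

end Pool.Agent.MP_3e91a1_nt.GN

end
end

section

/-! Statements of the arithmetic steps for arbitrary families. -/

set_option autoImplicit false

open Finset Filter PowerSeries NumberField

noncomputable section

namespace Pool.Agent.MP_3e91a1_nt.FM

open TR GN

/-- `x i` is the quotient of the unit `i` at the root `a`; `b` is the Frobenius of `a` -/
def Quf (p : ℕ) {m : ℕ} (Φ : Fam m) {R : Type} [CommRing R] (T a : R) (x : Fin m → R) : Prop :=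
  ∃ b : R, (p : R) ∣ b - a ^ p ∧ (p : R) ^ 2 ∣ ev Φ.f T b ∧
    ∀ i, (p : R) ^ 2 ∣ ev (Φ.U i) T b - ev (Φ.U i) T a ^ p * (1 - p * x i)

/-- the regulator vanishes modulo `p` -/
def Baf (p T : ℕ) {m n : ℕ} (Φ : Fam m) (d : Polynomial ℤ) {R : Type} [CommRing R]
    (a : Fin n → R) : Prop :=
  ¬ (p : ℤ) ∣ Polynomial.aeval (T : ℤ) d ∧ ∃ (x : Fin n → Fin m → R) (α : Fin m → ℤ),
    (∀ s, Quf p Φ (T : R) (a s) (x s)) ∧ (∃ i, ¬ (p : ℤ) ∣ α i) ∧ ∀ s, (p : R) ∣ ∑ i, α i * x s i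

/-- the roots in the ring of algebraic integers -/
def RTF_st : Prop := ∀ (f : P2) (n T : ℕ), f.Monic → f.natDegree = n →
  ∃ a : Fin n → Zb, Rf f (T : Zb) a

/-- the Frobenius on polynomials in two variables -/
def FBF_st : Prop := ∀ q : P2, ∃ h : ℕ, ∀ p c : ℕ, p.Prime →
  ∃ H G : MvPolynomial (Fin 2) ℤ, H.totalDegree ≤ h * p ∧ G.totalDegree ≤ h ∧
    ∀ (S : Type) [CommRing S] (τ a : S), ev q (c * τ) a = MvPolynomial.aeval ![τ, a] G ∧
      ev q (c * τ ^ p) (a ^ p) = ev q (c * τ) a ^ p + p * MvPolynomial.aeval ![τ, a] H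

/-- the first order expansion -/
def TAF_st : Prop := ∀ (q : P2) (S : Type) [CommRing S] (T a x y z : S),
  z ^ 2 ∣ ev q (T + z * y) (a + z * x) -
    (ev q T a + z * (ev (Polynomial.derivative q) T a * x + ev (dT q) T a * y))

/-- the logarithms at one root -/
def SOF_st : Prop := ∀ (m n : ℕ) (Φ : Fam m) (d : Polynomial ℤ), Φ.Ok n → IsE Φ.f n d →
  ∃ h : ℕ, 1 ≤ h ∧ ∀ p c L : ℕ, p.Prime →
  ∃ (P Q : Fin n × Fin m → MvPolynomial (Option (Fin n)) ℤ) (Z : MvPolynomial (Option (Fin n)) ℤ),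
    (∀ j, (P j).totalDegree ≤ h * p) ∧ (∀ j, (Q j).totalDegree ≤ h * p) ∧ Z.totalDegree ≤ h * p ∧
    ∀ (R : Type) [CommRing R] [IsDomain R] [CharZero R] (N t : ℕ) (κ : R) (τ θ : R⟦X⟧)
      (A : Fin n → R⟦X⟧), N ≤ p → (∀ k, 1 ≤ k → k < N → k ∣ L) → τ = C (t : R) + C κ * X →
      X ^ N ∣ τ ^ p - C (t : R) - (p : R⟦X⟧) * θ → Rf Φ.f (c * τ) A →
      Zm (p : R) N (C (Polynomial.aeval ((c : R) * t) d) -
        MvPolynomial.aeval (fun o : Option (Fin n) => o.elim τ A) Z) ∧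
      ∀ (s : Fin n) (x : Fin m → R), Quf p Φ ((c : R) * t) (constantCoeff (A s)) x → ∀ i,
        Zm (p : R) N (C (Polynomial.aeval ((c : R) * t) d) *
            Lgs L (Φ.u ((c : R⟦X⟧) * τ) A (s, i)) (Φ.v ((c : R⟦X⟧) * τ) A (s, i)) -
          (MvPolynomial.aeval (fun o : Option (Fin n) => o.elim τ A) (P (s, i)) +
            MvPolynomial.aeval (fun o : Option (Fin n) => o.elim τ A) (Q (s, i)) * θ -
            C (Polynomial.aeval ((c : R) * t) d * L * x i)))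

/-- the powers of the span of the variables -/
def SQF_st : Prop := ∀ (f : P2) (n c c' : ℕ), f.Monic → f.natDegree = n → ∃ ν : ℕ,
  ∀ (F S : Type) [CommRing F] [CommRing S] [Algebra F S] (B N : ℕ) (τ θ : S) (A A' : Fin n → S),
  Rf f (c * τ) A → Rf f (c' * τ) A' →
  (∀ P : MvPolynomial (Option (Fin n)) ℤ, P.totalDegree ≤ B →
    MvPolynomial.aeval (fun o : Option (Fin n) => o.elim τ A) P ∈
      Submodule.span F (insert 1 (Set.range (gv τ A A'))) ^ B ∧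
    MvPolynomial.aeval (fun o : Option (Fin n) => o.elim τ A') P ∈
      Submodule.span F (insert 1 (Set.range (gv τ A A'))) ^ B) ∧
  ∃ s : Finset S, s.card ≤ ν * (B + 1) * (N + 1) ∧
    Submodule.span F (insert 1 (Set.range (gv τ A A'))) ^ B * Submodule.span F {1, θ} ^ N ≤
      Submodule.span F (s : Set S)

/-- the rows modulo `p` -/
def CNF_st : Prop := ∀ (n m k k' : ℕ) (σ : Slc n m k) (σ' : Slc n m k') (Φ : Fam m)
  (d : Polynomial ℤ) (c c' : ℕ), 1 ≤ m → Φ.Ok n → IsE Φ.f n d → 0 < σ.N → 0 < σ'.N → σ.Phi ≠ 0 →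
  σ'.Phi ≠ 0 → 1 ≤ k ∧ 1 ≤ k' ∧ ∃ C₁ p₀ : ℕ, ∀ p D K L N : ℕ, p.Prime → p₀ < p → N ≤ p →
    (∀ j, 1 ≤ j → j < N → j ∣ L) →
    ∃ (J : Type) (_ : Fintype J) (u : Iy D K (Fin k ⊕ Fin k') → J → ℤ),
      Fintype.card J ≤ C₁ * (D + K * p + 1) * (K + 1) ^ (k + k' - 1) ∧
      ∀ (R : Type) [CommRing R] [IsDomain R] [CharZero R] (t : ℕ) (κ : R) (τ : R⟦X⟧)
        (A A' : Fin n → R⟦X⟧), τ = C (t : R) + C κ * X → Rf Φ.f (c * τ) A → Rf Φ.f (c' * τ) A' →
        σ.Rel Φ (derivative R) (c * τ) A → σ'.Rel Φ (derivative R) (c' * τ) A' →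
        Baf p (c * t) Φ d (fun s => constantCoeff (A s)) →
        Baf p (c' * t) Φ d (fun s => constantCoeff (A' s)) →
        ∃ w : J → ℕ → R, ∀ (q : Iy D K (Fin k ⊕ Fin k')) (j : ℕ), j < N →
          (p : R) ∣ coeff j (rog L τ (t : R) (Uf σ σ' Φ (c * τ) (c' * τ) A A')
            (Vf σ σ' Φ (c * τ) (c' * τ) A A') q.1 q.2.1 fun i => q.2.2 i) -
            ∑ b, (u q b : R) * w b j

/-- the equation of a root near a point -/
def EQF_st : Prop := ∀ f : P2, ∃ G₁ G₂ : MvPolynomial (Fin 6) ℤ,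
  ∀ (S : Type) [CommRing S] (T a Δ γ z W : S), ev f T a = 0 →
    ev (Polynomial.derivative f) T a = Δ → ev f (T + Δ ^ 2 * γ * z) (a + Δ * W) =
      Δ ^ 2 * (W - (W ^ 2 * MvPolynomial.aeval ![T, a, Δ, γ, z, W] G₁ +
        z * MvPolynomial.aeval ![T, a, Δ, γ, z, W] G₂))

/-- the fixed point equation -/
def Fx {R : Type} [CommRing R] (G₁ G₂ : MvPolynomial (Fin 6) ℤ) (T a Δ γ : R) (W : R⟦X⟧) : Prop :=
  constantCoeff W = 0 ∧ W = W ^ 2 * MvPolynomial.aeval ![C T, C a, C Δ, C γ, X, W] G₁ +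
    X * MvPolynomial.aeval ![C T, C a, C Δ, C γ, X, W] G₂

/-- it has a solution -/
def FXF_st : Prop := ∀ (R : Type) [CommRing R] (G₁ G₂ : MvPolynomial (Fin 6) ℤ) (T a Δ γ : R),
  ∃ W, Fx G₁ G₂ T a Δ γ W

/-- the roots as integral power series -/
def HEF_st : Prop := ∀ (f : P2) (n : ℕ) (R : Type) [CommRing R] [IsDomain R] (T μ : R)
  (a : Fin n → R), f.Monic → f.natDegree = n → Rf f T a → ∏ s, fd a s ≠ 0 → ∃ A : Fin n → R⟦X⟧,
    (∀ s, constantCoeff (A s) = a s) ∧ Rf f (C T + C ((∏ s, fd a s) ^ 2 * μ) * X) A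

/-- the size of a fixed point -/
def SFF_st : Prop := ∀ G₁ G₂ : MvPolynomial (Fin 6) ℤ, ∃ E : ℕ, ∀ (B : ℝ) (T a Δ γ : ℂ) (W : ℂ⟦X⟧),
  2 ≤ B → ‖T‖ ≤ B → ‖a‖ ≤ B → ‖Δ‖ ≤ B → ‖γ‖ ≤ B → Fx G₁ G₂ T a Δ γ W → Geo (B ^ E) W

/-- the size of the roots -/
def SGF_st : Prop := ∀ (f : P2) (n : ℕ), f.Monic → ∃ E : ℕ, ∀ (B : ℝ) (T μ : ℂ)
  (A : Fin n → ℂ⟦X⟧), 2 ≤ B → ‖T‖ ≤ B → ‖μ‖ ≤ B →
  ∏ s, fd (fun s => constantCoeff (A s)) s ≠ 0 →
  Rf f (C T + C ((∏ s, fd (fun s => constantCoeff (A s)) s) ^ 2 * μ) * X) A → ∀ s, Geo (B ^ E) (A s)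

/-- the size of the entries -/
def SIF_st : Prop := ∀ (n m k k' : ℕ) (σ : Slc n m k) (σ' : Slc n m k') (Φ : Fam m)
  (d : Polynomial ℤ) (c c' : ℕ), Φ.Ok n → IsE Φ.f n d → ∃ E : ℕ, ∀ (B t D K L N e i j : ℕ)
    (β : Fin k ⊕ Fin k' → ℕ) (τ : ℂ⟦X⟧) (A A' : Fin n → ℂ⟦X⟧), 2 ≤ B → t ≤ B →
    Polynomial.aeval ((c : ℂ) * t) d ≠ 0 → Polynomial.aeval ((c' : ℂ) * t) d ≠ 0 →
    τ = C (t : ℂ) + C ((Polynomial.aeval ((c : ℂ) * t) d * Polynomial.aeval ((c' : ℂ) * t) d) ^ 2) * X →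
    Rf Φ.f (c * τ) A → Rf Φ.f (c' * τ) A' → L ≠ 0 → e ≤ D → i ≤ K → (∀ b, β b ≤ K) → j < N →
    ‖coeff j (rog L τ (t : ℂ) (Uf σ σ' Φ (c * τ) (c' * τ) A A') (Vf σ σ' Φ (c * τ) (c' * τ) A A')
      e i β)‖ ≤ ((B : ℝ) ^ E) ^ (D + N + K) * (N * L) ^ ((k + k') * K)

/-- the determinant inequality -/
def DEF_st : Prop := ∀ (m n : ℕ) (Φ : Fam m) (d : Polynomial ℤ) (c c' : ℕ) (a : ℕ → Fin n → Zb),
  1 ≤ m → Φ.Ok n → Φ.Ind → IsE Φ.f n d → Cop (AlgebraicClosure ℚ) d c c' → 0 < c → 0 < c' →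
  (∀ T : ℕ, Rf Φ.f (T : Zb) (a T)) → ∃ k ν : ℕ, 1 ≤ k ∧
    Ineq k ν fun t p => Baf p (c * t) Φ d (a (c * t)) ∧ Baf p (c' * t) Φ d (a (c' * t))

end Pool.Agent.MP_3e91a1_nt.FM

end
end

section

/-! The Frobenius on polynomials in two variables. -/

set_option autoImplicit false

open Finset

noncomputable section

namespace Pool.Agent.MP_3e91a1_nt.FM

open TR GN

theorem map_FBF {S S' : Type} [CommRing S] [CommRing S'] (φ : S →+* S') (q : P2) (T a : S) :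
    φ (ev q T a) = ev q (φ T) (φ a) := by
  have h : (sp q T).map φ = sp q (φ T) := by
    rw [sp, sp, Polynomial.map_map]
    congr 1
    refine Polynomial.ringHom_ext (fun z => by simp) (by simp)
  rw [ev, ev, ← h, Polynomial.eval_map, Polynomial.eval₂_hom]

theorem add_FBF {S : Type} [CommRing S] (q q' : P2) (T a : S) :
    ev (q + q') T a = ev q T a + ev q' T a := by
  simp only [ev, sp, Polynomial.map_add, Polynomial.eval_add]

theorem mon_FBF {S : Type} [CommRing S] (k i : ℕ) (z : ℤ) (T a : S) :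
    ev (Polynomial.monomial k (Polynomial.monomial i z)) T a = z * T ^ i * a ^ k := by
  simp [ev, sp]

theorem deg_FBF (q : P2) : ∃ h : ℕ, ∀ T a : MvPolynomial (Fin 2) ℤ, T.totalDegree ≤ 1 →
    a.totalDegree ≤ 1 → (ev q T a).totalDegree ≤ h := by
  have hadd : ∀ q q' : P2, (∃ h : ℕ, ∀ T a : MvPolynomial (Fin 2) ℤ, T.totalDegree ≤ 1 →
      a.totalDegree ≤ 1 → (ev q T a).totalDegree ≤ h) →
      (∃ h : ℕ, ∀ T a : MvPolynomial (Fin 2) ℤ, T.totalDegree ≤ 1 →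
      a.totalDegree ≤ 1 → (ev q' T a).totalDegree ≤ h) →
      ∃ h : ℕ, ∀ T a : MvPolynomial (Fin 2) ℤ, T.totalDegree ≤ 1 →
      a.totalDegree ≤ 1 → (ev (q + q') T a).totalDegree ≤ h := by
    rintro q q' ⟨h, H⟩ ⟨h', H'⟩
    refine ⟨max h h', fun T a hT ha => ?_⟩
    rw [add_FBF]
    exact (MvPolynomial.totalDegree_add _ _).trans (max_le_max (H T a hT ha) (H' T a hT ha))
  induction q using Polynomial.induction_on' with
  | add q q' h h' => exact hadd q q' h h'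
  | monomial k r =>
    induction r using Polynomial.induction_on' with
    | add r r' h h' => rw [map_add]; exact hadd _ _ h h'
    | monomial i z =>
      refine ⟨0 + i * 1 + k * 1, fun T a hT ha => ?_⟩
      rw [mon_FBF]
      refine (MvPolynomial.totalDegree_mul _ _).trans (add_le_add
        ((MvPolynomial.totalDegree_mul _ _).trans (add_le_add ?_ ?_)) ?_)
      · exact (MvPolynomial.totalDegree_C z).le
      · exact (MvPolynomial.totalDegree_pow _ _).trans (Nat.mul_le_mul_left _ hT)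
      · exact (MvPolynomial.totalDegree_pow _ _).trans (Nat.mul_le_mul_left _ ha)

theorem FBF_pf : FBF_st := by
  intro q
  obtain ⟨h, hh⟩ := deg_FBF q
  refine ⟨h, fun p c hp => ?_⟩
  have := Fact.mk hp
  set G : MvPolynomial (Fin 2) ℤ :=
    ev q ((c : MvPolynomial (Fin 2) ℤ) * MvPolynomial.X 0) (MvPolynomial.X 1) with hG
  have dG : G.totalDegree ≤ h := by
    refine hh _ _ ((MvPolynomial.totalDegree_mul _ _).trans ?_) (MvPolynomial.totalDegree_X _).le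
    rw [MvPolynomial.totalDegree_X]
    exact Nat.add_le_add_right (MvPolynomial.totalDegree_C (c : ℤ)).le 1
  have eG : ∀ (S : Type) [CommRing S] (τ a : S), ev q (c * τ) a = MvPolynomial.aeval ![τ, a] G := by
    intro S _ τ a
    have := map_FBF (MvPolynomial.aeval (R := ℤ) ![τ, a]).toRingHom q
      ((c : MvPolynomial (Fin 2) ℤ) * MvPolynomial.X 0) (MvPolynomial.X 1)
    simpa using this.symm
  obtain ⟨H, hH⟩ : MvPolynomial.C (p : ℤ) ∣ MvPolynomial.expand p G - G ^ p := by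
    rw [MvPolynomial.C_dvd_iff_zmod, map_sub, map_pow, MvPolynomial.map_expand,
      MvPolynomial.expand_zmod, sub_self]
  refine ⟨H, G, ?_, dG, fun S _ τ a => ⟨eG S τ a, ?_⟩⟩
  · by_cases h0 : H = 0
    · rw [h0, MvPolynomial.totalDegree_zero]
      exact Nat.zero_le _
    have h1 : (MvPolynomial.expand p G - G ^ p).totalDegree ≤ h * p := by
      refine (MvPolynomial.totalDegree_sub _ _).trans (max_le ?_ ?_)
      · rw [MvPolynomial.totalDegree_expand]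
        exact Nat.mul_le_mul_right _ dG
      · exact (MvPolynomial.totalDegree_pow _ _).trans
          ((Nat.mul_le_mul_left _ dG).trans (Nat.mul_comm _ _).le)
    rw [hH, MvPolynomial.totalDegree_mul_of_isDomain
      (MvPolynomial.C_ne_zero.2 (by exact_mod_cast hp.ne_zero)) h0] at h1
    omega
  · have h1 := congrArg (MvPolynomial.aeval (R := ℤ) ![τ, a]) hH
    have h2 : ![τ, a] ^ p = ![τ ^ p, a ^ p] := by
      funext i
      fin_cases i <;> rfl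
    rw [map_sub, map_pow, map_mul, MvPolynomial.aeval_expand, h2, ← eG, ← eG,
      MvPolynomial.aeval_C, eq_intCast, Int.cast_natCast] at h1
    rw [← h1, add_sub_cancel]

end Pool.Agent.MP_3e91a1_nt.FM

end
end

section

/-! The roots as integral power series. -/

set_option autoImplicit false

open Finset PowerSeries

noncomputable section

namespace Pool.Agent.MP_3e91a1_nt.FM

open TR GN

theorem aev_HEF {S σ : Type} [CommRing S] (i j : Algebra ℤ S) (v : σ → S) (G : MvPolynomial σ ℤ) :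
    @MvPolynomial.aeval ℤ S σ _ _ i v G = @MvPolynomial.aeval ℤ S σ _ _ j v G := by
  cases Subsingleton.elim i j
  rfl

theorem HEF_pf (hITF : ITF_st) (hEQF : EQF_st) (hFXF : FXF_st) : HEF_st := by
  intro f n R _ _ T μ a hf hn ha hne
  obtain ⟨G₁, G₂, hG⟩ := hEQF f
  have hC : Rf f (C T : R⟦X⟧) (C ∘ a) := (hITF.2.2.2.2 f n R T a ha).2.2.2.1 _ C
  have key : ∀ s, ∃ A : R⟦X⟧, constantCoeff A = a s ∧
      Polynomial.eval A (sp f (C T + C ((∏ s, fd a s) ^ 2 * μ) * X)) = 0 := by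
    intro s
    obtain ⟨γ, hγ⟩ : ∃ γ, (∏ s, fd a s) ^ 2 * μ = fd a s ^ 2 * γ :=
      ⟨(∏ s' ∈ univ.erase s, fd a s') ^ 2 * μ, by
        rw [← mul_prod_erase univ _ (mem_univ s)]
        ring⟩
    obtain ⟨W, hW0, hW⟩ := hFXF R G₁ G₂ T (a s) (fd a s) γ
    rw [aev_HEF _ (Ring.toIntAlgebra _) _ G₁, aev_HEF _ (Ring.toIntAlgebra _) _ G₂] at hW
    have h1 := hG R⟦X⟧ (C T) (C (a s)) (C (fd a s)) (C γ) X W
      ((hITF.2.2.2.2 f n _ _ _ hC).1 s)
      (((hITF.2.2.2.2 f n _ _ _ hC).2.1 s).symm.trans (by simp [fd, map_prod]))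
    refine ⟨C (a s) + C (fd a s) * W, by simp [hW0], ?_⟩
    rw [hγ, map_mul, map_pow]
    exact h1.trans (mul_eq_zero_of_right _ (sub_eq_zero.2 hW))
  choose A hA0 hA using key
  refine ⟨A, hA0, ?_⟩
  have hinj : Function.Injective A := by
    intro s s' h
    by_contra hs
    refine hne (prod_eq_zero (mem_univ s) (prod_eq_zero (mem_erase.2 ⟨Ne.symm hs, mem_univ s'⟩) ?_))
    rw [← hA0, ← hA0, h, sub_self]
  have h1 : (sp f (C T + C ((∏ s, fd a s) ^ 2 * μ) * X)).Monic := hf.map _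
  have h2 : (sp f (C T + C ((∏ s, fd a s) ^ 2 * μ) * X)).degree = (n : ℕ) := by
    rw [sp, hf.degree_map, Polynomial.degree_eq_natDegree hf.ne_zero, hn]
  have h3 : (Lagrange.nodal univ A).degree = (n : ℕ) := by
    rw [Lagrange.degree_nodal, card_univ, Fintype.card_fin]
  refine Polynomial.eq_of_degree_le_of_eval_index_eq (f := Lagrange.nodal univ A) univ hinj.injOn
    Lagrange.degree_nodal.le (h3.trans h2.symm) (Lagrange.nodal_monic.trans h1.symm) fun s hs => ?_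
  rw [hA, Lagrange.eval_nodal_at_node hs]

end Pool.Agent.MP_3e91a1_nt.FM

end
end

section

/-! The size of a fixed point, for arbitrary families. -/

set_option autoImplicit false

open Finset Filter PowerSeries

noncomputable section

namespace Pool.Agent.MP_3e91a1_nt.FM

open TR GN

theorem wn_C_SFF (r : ℝ) (N : ℕ) (c : ℂ) : wn_SZA r N (C c) ≤ ‖c‖ := by
  rcases N with _ | N
  · simp [wn_SZA]
  · exact (wn_C'_SZA N c).le

theorem wn_mv_SFF {ι : Type} (G : MvPolynomial ι ℤ) : ∃ e : ℕ, ∀ (r B : ℝ) (N : ℕ)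
    (v : ι → ℂ⟦X⟧), 0 ≤ r → 2 ≤ B → (∀ i, wn_SZA r N (v i) ≤ B) →
      wn_SZA r N (MvPolynomial.aeval v G) ≤ B ^ e := by
  induction G using MvPolynomial.induction_on with
  | C a =>
    refine ⟨a.natAbs, fun r B N v _ hB _ => ?_⟩
    have e : MvPolynomial.aeval v (MvPolynomial.C a : MvPolynomial ι ℤ) = C (a : ℂ) := by simp
    rw [e]
    refine (wn_C_SFF r N _).trans ?_
    have c1 : ((a.natAbs : ℕ) : ℝ) ≤ 2 ^ a.natAbs := by exact_mod_cast Nat.lt_two_pow_self.le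
    rw [Complex.norm_intCast, ← Int.cast_abs, ← Nat.cast_natAbs]
    exact c1.trans (pow_le_pow_left₀ two_pos.le hB _)
  | add p q hp hq =>
    obtain ⟨e, he⟩ := hp
    obtain ⟨f, hf⟩ := hq
    refine ⟨e + f + 1, fun r B N v hr hB hv => ?_⟩
    have hB1 : 1 ≤ B := by linarith
    have a1 := (he r B N v hr hB hv).trans (pow_le_pow_right₀ hB1 (Nat.le_add_right e f))
    have a2 := (hf r B N v hr hB hv).trans (pow_le_pow_right₀ hB1 (Nat.le_add_left f e))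
    rw [map_add, pow_succ]
    refine (wn_add_SZA hr N _ _).trans ?_
    nlinarith [pow_pos (one_pos.trans_le hB1) (e + f)]
  | mul_X p i hp =>
    obtain ⟨e, he⟩ := hp
    refine ⟨e + 1, fun r B N v hr hB hv => ?_⟩
    rw [map_mul, MvPolynomial.aeval_X, pow_succ]
    exact (wn_mul_SZA hr N _ _).trans (mul_le_mul (he r B N v hr hB hv) (hv i)
      (wn_nonneg_SZA hr N _) (by positivity))

theorem SFF_pf : SFF_st := by
  intro G₁ G₂
  obtain ⟨e₁, he₁⟩ := wn_mv_SFF G₁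
  obtain ⟨e₂, he₂⟩ := wn_mv_SFF G₂
  refine ⟨2 * (e₁ + e₂) + 2, fun B T a Δ γ W hB hT ha hΔ hγ ⟨h0, hW⟩ k => ?_⟩
  have hB1 : 1 ≤ B := by linarith
  obtain ⟨R, hR⟩ : ∃ R : ℝ, R = B ^ (e₁ + e₂) := ⟨_, rfl⟩
  have hR1 : 1 ≤ R := hR ▸ one_le_pow₀ hB1
  obtain ⟨r, hr, hr2⟩ : ∃ r : ℝ, 0 < r ∧ r * (4 * R ^ 2) = 1 :=
    ⟨1 / (4 * R ^ 2), by positivity, by field_simp⟩
  have hr1 : r ≤ 1 := (le_mul_of_one_le_right hr.le (by nlinarith)).trans hr2.le
  obtain ⟨U, hU⟩ := X_dvd_iff.2 h0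
  obtain ⟨v, hv⟩ : ∃ v : Fin 6 → ℂ⟦X⟧, v = ![C T, C a, C Δ, C γ, X, W] := ⟨_, rfl⟩
  rw [← hv] at hW
  have e : U = W * U * MvPolynomial.aeval v G₁ + MvPolynomial.aeval v G₂ :=
    mul_left_cancel₀ (X_ne_zero (R := ℂ)) (by
      rw [← hU]
      linear_combination hW + W * MvPolynomial.aeval v G₁ * hU)
  have one : ∀ N, wn_SZA r N W * (2 * R) ≤ 1 → wn_SZA r N W ≤ 1 := fun N h =>
    (le_mul_of_one_le_right (wn_nonneg_SZA hr.le N W) (by linarith)).trans h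
  have hX : ∀ N, wn_SZA r N X ≤ 1 := fun N => by
    have h1 := wn_X'_SZA hr.le hr1 N (C 1)
    have h2 := wn_C_SFF r N 1
    rw [map_one, mul_one] at h1
    rw [map_one, norm_one] at h2
    exact h1.trans h2
  have key : ∀ N, wn_SZA r N W * (2 * R) ≤ 1 := fun N => by
    induction N with
    | zero => simp [wn_SZA]
    | succ N ih =>
      have b : ∀ i, wn_SZA r N (v i) ≤ B := fun i => by
        subst hv
        fin_cases i
        · exact (wn_C_SFF r N T).trans hT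
        · exact (wn_C_SFF r N a).trans ha
        · exact (wn_C_SFF r N Δ).trans hΔ
        · exact (wn_C_SFF r N γ).trans hγ
        · exact (hX N).trans hB1
        · exact (one N ih).trans hB1
      have a1 := (he₁ r B N v hr.le hB b).trans (pow_le_pow_right₀ hB1 (Nat.le_add_right e₁ e₂))
      have a2 := (he₂ r B N v hr.le hB b).trans (pow_le_pow_right₀ hB1 (Nat.le_add_left e₂ e₁))
      rw [← hR] at a1 a2
      have n0 := wn_nonneg_SZA hr.le N U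
      have n1 := wn_nonneg_SZA hr.le N W
      have a3 : wn_SZA r N (W * U * MvPolynomial.aeval v G₁) ≤ wn_SZA r N W * wn_SZA r N U * R :=
        (wn_mul_SZA hr.le N _ _).trans (mul_le_mul (wn_mul_SZA hr.le N _ _) a1
          (wn_nonneg_SZA hr.le N _) (mul_nonneg n1 n0))
      have a4 := wn_add_SZA hr.le N (W * U * MvPolynomial.aeval v G₁) (MvPolynomial.aeval v G₂)
      rw [← e] at a4
      have a5 : wn_SZA r N U ≤ 2 * R := by nlinarith [mul_le_mul_of_nonneg_left ih n0]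
      have a6 : wn_SZA r (N + 1) W = r * wn_SZA r N U := by rw [← wn_X_SZA, ← hU]
      rw [a6]
      nlinarith [mul_le_mul_of_nonneg_left a5 (show 0 ≤ r * (2 * R) by positivity)]
  have h5 : ‖coeff k W‖ * r ^ k ≤ 1 := le_trans
    (single_le_sum (f := fun j => ‖coeff j W‖ * r ^ j) (fun j _ => by positivity)
      (self_mem_range_succ k)) (one _ (key (k + 1)))
  have h6 : 4 * R ^ 2 ≤ B ^ (2 * (e₁ + e₂) + 2) := by
    calc 4 * R ^ 2 = 2 ^ 2 * (B ^ (e₁ + e₂)) ^ 2 := by rw [hR]; norm_num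
      _ ≤ B ^ 2 * (B ^ (e₁ + e₂)) ^ 2 := by gcongr
      _ = B ^ (2 * (e₁ + e₂) + 2) := by ring
  calc ‖coeff k W‖ = ‖coeff k W‖ * r ^ k * (4 * R ^ 2) ^ k := by
        rw [mul_assoc, ← mul_pow, hr2, one_pow, mul_one]
    _ ≤ 1 * (B ^ (2 * (e₁ + e₂) + 2)) ^ k := by gcongr
    _ ≤ _ := by
        rw [one_mul]
        exact pow_le_pow_right₀ (one_le_pow₀ hB1) (Nat.le_succ _)

end Pool.Agent.MP_3e91a1_nt.FM

end
end

section

/-! The size of the roots as power series, for arbitrary families. -/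

set_option autoImplicit false

open Finset Filter PowerSeries NumberField

noncomputable section

namespace Pool.Agent.MP_3e91a1_nt.FM

open TR GN

lemma pol_SGF (p : Polynomial ℤ) : ∃ e : ℕ, ∀ (B : ℝ) (T : ℂ), 2 ≤ B → ‖T‖ ≤ B →
    ‖Polynomial.eval₂RingHom (Int.castRingHom ℂ) T p‖ ≤ B ^ e := by
  induction p using Polynomial.induction_on' with
  | add p q hp hq =>
    obtain ⟨a, ha⟩ := hp
    obtain ⟨b, hb⟩ := hq
    refine ⟨a + b + 1, fun B T hB hT => ?_⟩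
    rw [map_add]
    exact (norm_add_le _ _).trans (add_SZG hB (ha B T hB hT) (hb B T hB hT))
  | monomial n a =>
    refine ⟨a.natAbs + n, fun B T hB hT => ?_⟩
    have h : ‖(Int.castRingHom ℂ) a‖ = (a.natAbs : ℝ) := by simp
    rw [Polynomial.coe_eval₂RingHom, Polynomial.eval₂_monomial, norm_mul, norm_pow, pow_add, h]
    exact mul_le_mul (nat_SZG hB _) (pow_le_pow_left₀ (norm_nonneg _) hT n) (by positivity)
      (by positivity)

lemma co_SGF (f : P2) : ∃ e : ℕ, ∀ (B : ℝ) (T : ℂ), 2 ≤ B → ‖T‖ ≤ B →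
    ∀ j, ‖(sp f T).coeff j‖ ≤ B ^ e := by
  unfold sp
  induction f using Polynomial.induction_on' with
  | add p q hp hq =>
    obtain ⟨a, ha⟩ := hp
    obtain ⟨b, hb⟩ := hq
    refine ⟨a + b + 1, fun B T hB hT j => ?_⟩
    rw [Polynomial.map_add, Polynomial.coeff_add]
    exact (norm_add_le _ _).trans (add_SZG hB (ha B T hB hT j) (hb B T hB hT j))
  | monomial n P =>
    obtain ⟨a, ha⟩ := pol_SGF P
    refine ⟨a, fun B T hB hT j => ?_⟩
    rw [Polynomial.map_monomial, Polynomial.coeff_monomial]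
    split_ifs
    · exact ha B T hB hT
    · rw [norm_zero]; positivity

lemma root_SGF (f : P2) (hf : f.Monic) : ∃ k : ℕ, ∀ (B : ℝ) (T a : ℂ), 2 ≤ B → ‖T‖ ≤ B →
    ev f T a = 0 → ‖a‖ ≤ B ^ k := by
  obtain ⟨e, he⟩ := co_SGF f
  refine ⟨e + 0 + 1, fun B T a hB hT h => ?_⟩
  have hm : (sp f T).Monic := hf.map _
  have h1 := Polynomial.IsRoot.norm_lt_cauchyBound hm.ne_zero (a := a) h
  have h2 : (range (sp f T).natDegree).sup (fun j => ‖(sp f T).coeff j‖₊) ≤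
      (⟨B ^ e, by positivity⟩ : NNReal) := Finset.sup_le fun j _ => he B T hB hT j
  rw [Polynomial.cauchyBound, hm.leadingCoeff, nnnorm_one, div_one] at h1
  have h3 : ‖a‖ ≤ B ^ e + 1 := by exact_mod_cast (h1.trans_le (add_le_add_left h2 1)).le
  exact h3.trans (add_SZG hB le_rfl (pow_zero B).ge)

lemma prod_SGF {n : ℕ} (s : Fin n) (g : Fin n → ℂ) {B : ℝ} {k : ℕ} (hB : 2 ≤ B)
    (h : ∀ i, ‖g i‖ ≤ B ^ k) : ‖∏ i ∈ univ.erase s, g i‖ ≤ B ^ (k * n) := by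
  rw [norm_prod, pow_mul]
  refine (prod_le_prod (fun i _ => norm_nonneg _) (fun i _ => h i)).trans ?_
  rw [prod_const]
  exact pow_le_pow_right₀ (one_le_pow₀ (by linarith)) (by simp)

lemma alg_SGF {S : Type} [CommRing S] (i₁ i₂ : Algebra ℤ S) (v : Fin 6 → S)
    (G : MvPolynomial (Fin 6) ℤ) :
    @MvPolynomial.aeval ℤ S _ _ _ i₁ v G = @MvPolynomial.aeval ℤ S _ _ _ i₂ v G := by
  obtain rfl := Subsingleton.elim i₁ i₂
  rfl

theorem SGF_pf (hITF : ITF_st) (hEQF : EQF_st) (hSFF : SFF_st) : SGF_st := by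
  intro f n hf
  obtain ⟨G₁, G₂, hG⟩ := hEQF f
  obtain ⟨k, hk⟩ := root_SGF f hf
  obtain ⟨E, hE⟩ := hSFF G₁ G₂
  obtain ⟨K, hK⟩ : ∃ K : ℕ, K = 1 + k + (k + k + 1) * n + 2 * ((k + k + 1) * n * n) := ⟨_, rfl⟩
  refine ⟨1 + K + K * E, fun B T μ A hB hT hμ h0 hA s => ?_⟩
  have h1 : (1 : ℝ) ≤ B := by linarith
  obtain ⟨a, ha⟩ : ∃ a : Fin n → ℂ, a = fun s => constantCoeff (A s) := ⟨_, rfl⟩
  rw [← ha] at h0 hA
  have hRa : Rf f T a := by
    have h2 := (hITF.2.2.2.2 f n _ _ A hA).2.2.2.1 ℂ (constantCoeff (R := ℂ))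
    have h3 : (constantCoeff (R := ℂ)) ∘ A = a := by rw [ha]; rfl
    rw [h3] at h2
    simpa using h2
  have hRC : Rf f (C T) ((C (R := ℂ)) ∘ a) :=
    (hITF.2.2.2.2 f n _ _ a hRa).2.2.2.1 _ (C (R := ℂ))
  have hna : ∀ s, ‖a s‖ ≤ B ^ k := fun s => hk B T _ hB hT ((hITF.2.2.2.2 f n _ _ a hRa).1 s)
  have hnf : ∀ s, ‖fd a s‖ ≤ B ^ ((k + k + 1) * n) := fun s =>
    prod_SGF s _ hB fun i => (norm_sub_le _ _).trans (add_SZG hB (hna s) (hna i))
  obtain ⟨c, hc⟩ : ∃ c, c = ∏ i ∈ univ.erase s, fd a i := ⟨_, rfl⟩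
  have hnc : ‖c‖ ≤ B ^ ((k + k + 1) * n * n) := hc ▸ prod_SGF s _ hB hnf
  have hp : ∏ i, fd a i = fd a s * c := by rw [hc, mul_prod_erase univ _ (mem_univ s)]
  have hΔ : fd a s ≠ 0 := fun h => h0 (by rw [hp, h, zero_mul])
  have hBK : B ≤ B ^ K := le_self_pow₀ h1 (by omega)
  have hΔK : ‖fd a s‖ ≤ B ^ K := (hnf s).trans (pow_le_pow_right₀ h1 (by omega))
  have haK : ‖a s‖ ≤ B ^ K := (hna s).trans (pow_le_pow_right₀ h1 (by omega))
  have hγ : ‖μ * c ^ 2‖ ≤ B ^ K := by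
    rw [norm_mul, norm_pow]
    calc ‖μ‖ * ‖c‖ ^ 2 ≤ B * (B ^ ((k + k + 1) * n * n)) ^ 2 := by gcongr
      _ = B ^ (1 + 2 * ((k + k + 1) * n * n)) := by ring
      _ ≤ B ^ K := pow_le_pow_right₀ h1 (by omega)
  obtain ⟨W, hW⟩ : ∃ W : ℂ⟦X⟧, W = C (fd a s)⁻¹ * (A s - C (a s)) := ⟨_, rfl⟩
  have hAW : C (a s) + C (fd a s) * W = A s := by
    rw [hW, ← mul_assoc, ← map_mul, mul_inv_cancel₀ hΔ, map_one]; ring
  have hW0 : constantCoeff W = 0 := by rw [hW, ha]; simp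
  have hd : ev (Polynomial.derivative f) (C T : ℂ⟦X⟧) (C (a s)) = C (fd a s) := by
    have h2 := (hITF.2.2.2.2 f n _ _ _ hRC).2.1 s
    rw [Function.comp_apply] at h2
    rw [← h2]
    simp [fd]
  have hq := hG ℂ⟦X⟧ (C T) (C (a s)) (C (fd a s)) (C (μ * c ^ 2)) X W
    ((hITF.2.2.2.2 f n _ _ _ hRC).1 s) hd
  have hτ : (C T + C (fd a s) ^ 2 * C (μ * c ^ 2) * X : ℂ⟦X⟧) =
      C T + C ((∏ i, fd a i) ^ 2 * μ) * X := by
    rw [hp, ← map_pow, ← map_mul]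
    congr 3
    ring
  rw [hAW, hτ, (hITF.2.2.2.2 f n _ _ A hA).1 s] at hq
  have hC : (C (fd a s) : ℂ⟦X⟧) ≠ 0 := fun h => hΔ (by simpa using congrArg constantCoeff h)
  have hq' := sub_eq_zero.1 ((mul_eq_zero.1 hq.symm).resolve_left (pow_ne_zero 2 hC))
  have h2K : 2 ≤ B ^ K := hB.trans hBK
  have h1K : 1 ≤ B ^ K := by linarith
  have hF : Fx G₁ G₂ T (a s) (fd a s) (μ * c ^ 2) W :=
    ⟨hW0, hq'.trans (congrArg₂ (fun u v => W ^ 2 * u + X * v) (alg_SGF _ _ _ G₁)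
      (alg_SGF _ _ _ G₂))⟩
  have hg := hE (B ^ K) T (a s) (fd a s) (μ * c ^ 2) W h2K (hT.trans hBK) haK hΔK hγ hF
  intro j
  obtain ⟨H, hH⟩ : ∃ H, H = (B ^ K) ^ E := ⟨_, rfl⟩
  have hH1 : 1 ≤ H := hH ▸ one_le_pow₀ h1K
  have hj : ‖coeff j W‖ ≤ H ^ (j + 1) := hH ▸ hg j
  have hHj : 1 ≤ H ^ (j + 1) := one_le_pow₀ hH1
  have h5 : ‖coeff j (C (a s) : ℂ⟦X⟧)‖ ≤ B ^ K := by
    rw [coeff_C]
    split_ifs
    · exact haK
    · rw [norm_zero]; positivity
  have h6 : B ^ (1 + K + K * E) = B * B ^ K * H := by rw [hH]; ring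
  have h7 : B * B ^ K ≤ (B * B ^ K) ^ (j + 1) := le_self_pow₀ (by nlinarith) (by omega)
  have h8 := mul_le_mul_of_nonneg_left hHj (by positivity : 0 ≤ B ^ K)
  have h9 := mul_nonneg (by positivity : 0 ≤ B ^ K) (by positivity : 0 ≤ H ^ (j + 1))
  rw [← hAW, map_add, coeff_C_mul, h6, mul_pow]
  calc _ ≤ B ^ K + B ^ K * H ^ (j + 1) := by
        refine (norm_add_le _ _).trans (add_le_add h5 ?_)
        rw [norm_mul]
        exact mul_le_mul hΔK hj (norm_nonneg _) (by positivity)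
    _ ≤ B * B ^ K * H ^ (j + 1) := by nlinarith
    _ ≤ _ := by gcongr

end Pool.Agent.MP_3e91a1_nt.FM

end
end

section

/-! The size of the entries of the determinant, for arbitrary families. -/

set_option autoImplicit false

open Finset Filter PowerSeries NumberField

noncomputable section

namespace Pool.Agent.MP_3e91a1_nt.FM

open TR GN

section

variable {P : Type} {b : P → ℝ} (hb : ∀ p, 2 ≤ b p)

include hb

theorem ev_SIF (hITF : ITF_st) (q : P2) {T A : P → ℂ⟦X⟧} (hT : Bd_SIG b T) (hA : Bd_SIG b A) :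
    Bd_SIG b fun p => ev q (T p) (A p) := by
  let R : Subalgebra ℤ (P → ℂ⟦X⟧) :=
    { carrier := {f | Bd_SIG b f}
      mul_mem' := fun h h' => mul_SIG hb h h'
      add_mem' := fun h h' => add_SIG hb h h'
      algebraMap_mem' := fun z => by
        rw [eq_intCast]
        exact int_SIG hb z }
  obtain ⟨E, hE⟩ : Bd_SIG b (ev q T A) := hITF.2.2.2.1 ℤ _ R q T A hT hA
  refine ⟨E, fun p => ?_⟩
  have h := (hITF.1 _ _ (Pi.evalRingHom (fun _ : P => ℂ⟦X⟧) p) q T A).2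
  simp only [Pi.evalRingHom_apply] at h
  show Geo _ (ev q (T p) (A p))
  rw [← h]
  exact hE p

theorem root_SIF (hITF : ITF_st) (hSGF : SGF_st) {n : ℕ} {f : P2} (hf : f.Monic)
    {d : Polynomial ℤ} (hd : IsE f n d) {T μ : P → ℂ} {A : P → Fin n → ℂ⟦X⟧}
    (hT : Bd_SIG b fun p => C (T p))
    (hμ : Bd_SIG b fun p => C (μ p)) (h0 : ∀ p, Polynomial.aeval (T p) d ≠ 0)
    (hA : ∀ p, Rf f (C (T p) + C (Polynomial.aeval (T p) d ^ 2 * μ p) * X) (A p))
    (s : Fin n) : Bd_SIG b fun p => A p s := by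
  obtain ⟨E, hE⟩ := hSGF f n hf
  obtain ⟨E₁, h₁⟩ := hT
  obtain ⟨E₂, h₂⟩ := hμ
  refine ⟨(E₁ + E₂ + 1) * E, fun p => ?_⟩
  have e : ∏ s, fd (fun s => constantCoeff (A p s)) s = Polynomial.aeval (T p) d := by
    refine hd ℂ (T p) _ ?_
    have := (hITF.2.2.2.2 f n _ _ _ (hA p)).2.2.2.1 ℂ constantCoeff
    simpa [Function.comp_def] using this
  have k1 := up_SIG (hb p) (show E₁ ≤ E₁ + E₂ + 1 by omega) (h₁ p) 0
  have k2 := up_SIG (hb p) (show E₂ ≤ E₁ + E₂ + 1 by omega) (h₂ p) 0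
  rw [pow_mul]
  refine hE _ (T p) (μ p) (A p) ((hb p).trans (le_self_pow₀ (by linarith [hb p]) (by omega)))
    (by simpa using k1) (by simpa using k2) (by rw [e]; exact h0 p) (by rw [e]; exact hA p) s

end

theorem SIF_pf (hITF : ITF_st) (hSGF : SGF_st) (hSZH : SZH_st) : SIF_st := by
  intro n m k k' σ σ' Φ d c c' hΦ hd
  let P : Type := {x : (ℕ × ℕ) × ℂ⟦X⟧ × (Fin n → ℂ⟦X⟧) × (Fin n → ℂ⟦X⟧) //
    2 ≤ x.1.1 ∧ x.1.2 ≤ x.1.1 ∧ Polynomial.aeval ((c : ℂ) * x.1.2) d ≠ 0 ∧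
      Polynomial.aeval ((c' : ℂ) * x.1.2) d ≠ 0 ∧
      x.2.1 = C (x.1.2 : ℂ) + C ((Polynomial.aeval ((c : ℂ) * x.1.2) d *
        Polynomial.aeval ((c' : ℂ) * x.1.2) d) ^ 2) * X ∧
      Rf Φ.f (c * x.2.1) x.2.2.1 ∧ Rf Φ.f (c' * x.2.1) x.2.2.2}
  let b : P → ℝ := fun p => p.1.1.1
  have hb : ∀ p, 2 ≤ b p := fun p => by
    have := p.2.1
    simp only [b]
    exact_mod_cast this
  have ht : Bd_SIG b fun p => C (p.1.1.2 : ℂ) := ⟨1, fun p => by
    refine C_SIG (by linarith [hb p, pow_one (b p)]) ?_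
    have := p.2.2.1
    simp only [b, pow_one, Complex.norm_natCast]
    exact_mod_cast this⟩
  have hT : ∀ a : ℕ, Bd_SIG b fun p => C ((a : ℂ) * p.1.1.2) := fun a => by
    simpa only [map_mul] using mul_SIG hb (const_SIG hb (a : ℂ)) ht
  have hD := fun a : ℕ => aeval_SIG hb (hT a) d
  have hμ : ∀ a a' : ℕ, Bd_SIG b fun p =>
      C ((a : ℂ) * Polynomial.aeval ((a' : ℂ) * p.1.1.2) d ^ 2) := fun a a' => by
    simpa only [map_mul, pow_two] using
      mul_SIG hb (const_SIG hb (a : ℂ)) (mul_SIG hb (hD a') (hD a'))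
  have hτ : Bd_SIG b fun p => p.1.2.1 := by
    have h := add_SIG hb ht (mul_SIG hb (mul_SIG hb (mul_SIG hb (hD c) (hD c'))
      (mul_SIG hb (hD c) (hD c'))) X_SIG)
    obtain ⟨E, hE⟩ := h
    refine ⟨E, fun p => ?_⟩
    show Geo _ p.1.2.1
    rw [p.2.2.2.2.2.1]
    simpa only [map_mul, pow_two] using hE p
  have hc : ∀ a : ℕ, Bd_SIG b fun p => (a : ℂ⟦X⟧) * p.1.2.1 := fun a => by
    simpa using mul_SIG hb (int_SIG hb a) hτ
  have hA := root_SIF hb hITF hSGF hΦ.1 hd (A := fun p => p.1.2.2.1) (hT c) (hμ c c')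
    (fun p => p.2.2.2.1) fun p => by
      have h := p.2.2.2.2.2.2.1
      rw [p.2.2.2.2.2.1] at h
      refine Eq.mp (congrArg (fun T => Rf Φ.f T _) ?_) h
      simp only [map_mul, map_pow, map_natCast]
      ring
  have hA' := root_SIF hb hITF hSGF hΦ.1 hd (A := fun p => p.1.2.2.2) (hT c') (hμ c' c)
    (fun p => p.2.2.2.2.1) fun p => by
      have h := p.2.2.2.2.2.2.2
      rw [p.2.2.2.2.2.1] at h
      refine Eq.mp (congrArg (fun T => Rf Φ.f T _) ?_) h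
      simp only [map_mul, map_pow, map_natCast]
      ring
  obtain ⟨E₁, h₁⟩ := fin_SIG hb (fun j (p : P) =>
      Uf σ σ' Φ (c * p.1.2.1) (c' * p.1.2.1) p.1.2.2.1 p.1.2.2.2 j) fun j => by
    rcases j with j | j
    exacts [ev_SIF hb hITF _ (hc c) (hA _), ev_SIF hb hITF _ (hc c') (hA' _)]
  obtain ⟨E₂, h₂⟩ := fin_SIG hb (fun j (p : P) =>
      Vf σ σ' Φ (c * p.1.2.1) (c' * p.1.2.1) p.1.2.2.1 p.1.2.2.2 j) fun j => by
    rcases j with j | j
    exacts [ev_SIF hb hITF _ (hc c) (hA _), ev_SIF hb hITF _ (hc c') (hA' _)]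
  obtain ⟨E₃, h₃⟩ := hτ
  obtain ⟨E, hE⟩ := hSZH (Fin k ⊕ Fin k')
  refine ⟨(E₁ + E₂ + E₃ + 1) * E, ?_⟩
  intro B t D K L N e i j β τ A A' a1 a2 a3 a4 a5 a6 a7 hL he hi hβ hj
  let p : P := ⟨((B, t), τ, A, A'), a1, a2, a3, a4, a5, a6, a7⟩
  have hB : (2 : ℝ) ≤ B := hb p
  have hB' : (B : ℝ) ≤ (B : ℝ) ^ (E₁ + E₂ + E₃ + 1) := le_self_pow₀ (by linarith) (by omega)
  have key := hE ((B : ℝ) ^ (E₁ + E₂ + E₃ + 1)) D K L N e i j β t τ
    (Uf σ σ' Φ (c * τ) (c' * τ) A A')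
    (Vf σ σ' Φ (c * τ) (c' * τ) A A') (hB.trans hB')
    (by rw [Complex.norm_natCast]; exact le_trans (by exact_mod_cast a2) hB')
    (up_SIG hB (by omega) (h₃ p)) (fun j => up_SIG hB (by omega) (h₁ j p))
    (fun j => up_SIG hB (by omega) (h₂ j p)) hL he hi hβ hj
  rw [pow_mul]
  simpa only [Fintype.card_sum, Fintype.card_fin] using key

end Pool.Agent.MP_3e91a1_nt.FM

end
end

section

/-! The first order expansion in both variables. -/

set_option autoImplicit false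

noncomputable section

namespace Pool.Agent.MP_3e91a1_nt.FM

open TR GN

theorem dT_add_TAF (p q : P2) : dT (p + q) = dT p + dT q :=
  Polynomial.sum_add_index p q _ (fun _ => by simp) fun _ _ _ => by simp

theorem dT_mono_TAF (k : ℕ) (c : Polynomial ℤ) :
    dT (Polynomial.monomial k c) = Polynomial.monomial k (Polynomial.derivative c) :=
  Polynomial.sum_monomial_index c _ (by simp)

theorem ev_add_TAF (p q : P2) {S : Type} [CommRing S] (T a : S) :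
    ev (p + q) T a = ev p T a + ev q T a := by
  rw [ev, sp, Polynomial.map_add, Polynomial.eval_add]
  rfl

theorem ev_mono_TAF (k : ℕ) (c : Polynomial ℤ) {S : Type} [CommRing S] (T a : S) :
    ev (Polynomial.monomial k c) T a = (c.map (Int.castRingHom S)).eval T * a ^ k := by
  rw [ev, sp, Polynomial.map_monomial, Polynomial.eval_monomial, Polynomial.eval_map]
  rfl

theorem TAF_pf : TAF_st := by
  intro q S _ T a x y z
  induction q using Polynomial.induction_on' with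
  | add p q hp hq =>
    refine (dvd_add hp hq).trans (dvd_of_eq ?_)
    rw [map_add, dT_add_TAF, ev_add_TAF, ev_add_TAF, ev_add_TAF, ev_add_TAF]
    ring
  | monomial k c =>
    obtain ⟨u, hu⟩ := Polynomial.binomExpansion (c.map (Int.castRingHom S)) T (z * y)
    obtain ⟨v, hv⟩ := Polynomial.powAddExpansion a (z * x) k
    rw [Polynomial.derivative_monomial, dT_mono_TAF, ev_mono_TAF, ev_mono_TAF, ev_mono_TAF,
      ev_mono_TAF, hu, hv, Polynomial.map_mul, Polynomial.map_natCast, Polynomial.eval_mul,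
      Polynomial.eval_natCast, Polynomial.derivative_map]
    generalize (c.map (Int.castRingHom S)).eval T = A
    generalize ((Polynomial.derivative c).map (Int.castRingHom S)).eval T = B
    exact ⟨A * v * x ^ 2 + B * y * (k * a ^ (k - 1) * x + v * z * x ^ 2) +
      u * y ^ 2 * (a ^ k + k * a ^ (k - 1) * (z * x) + v * (z * x) ^ 2), by ring⟩

end Pool.Agent.MP_3e91a1_nt.FM

end
end
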