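import Pool.Agent.Mg.F3e91a1.G3fdd3f
import Pool.Agent.Mg.F3e91a1.Gc3fe55
import Pool.Agent.Mg.F3e91a1.G83a210

set_option linter.all false

section

/-! The determinant inequality for pairs of cubics. -/

set_option autoImplicit false

open NumberField Finset PowerSeries

noncomputable section

namespace Pool.Agent.MP_3e91a1_nt.TR

theorem dsc_ne_DET {R : Type} [CommRing R] [CharZero R] (c t : ℕ) : dsc ((c : R) * t) ≠ 0 := by
  have h : dsc ((c : R) * t) = ((dsc ((c : ℤ) * t) : ℤ) : R) := by simp [dsc]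
  rw [h, Int.cast_ne_zero]
  unfold dsc
  generalize ((c : ℤ) * t) ^ 2 + 3 * ((c : ℤ) * t) - 1 = y
  intro h0
  have h1 : y ≤ 5 := by nlinarith
  have h2 : -5 ≤ y := by nlinarith
  interval_cases y <;> simp at h0

theorem mapd_DET {R S : Type} [CommRing R] [CommRing S] (f : R →+* S) (U : R⟦X⟧) :
    PowerSeries.map f (d⁄dX R U) = d⁄dX S (PowerSeries.map f U) := by
  ext k
  simp [coeff_derivative]

theorem mapL_DET {R S : Type} [CommRing R] [CommRing S] (f : R →+* S) (L : ℕ) (U V : R⟦X⟧) :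
    PowerSeries.map f (Lgs L U V) = Lgs L (PowerSeries.map f U) (PowerSeries.map f V) := by
  ext k
  rw [coeff_map, Lgs, Lgs, coeff_mk, coeff_mk, map_mul, map_natCast, ← mapd_DET, ← map_mul,
    coeff_map]

theorem mapu_DET {R S : Type} [CommRing R] [CommRing S] (f : R →+* S) (g : Fin 7 → R)
    (j : Fin 8) : f (un g j) = un (fun i => f (g i)) j := by
  fin_cases j <;> simp [un]

theorem mapi_DET {R S : Type} [CommRing R] [CommRing S] (f : R →+* S) (c c' : ℕ) (g : Fin 7 → R)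
    (j : Fin 8) : f (iv c c' g j) = iv c c' (fun i => f (g i)) j := by
  fin_cases j <;> simp [iv]

theorem mapT_DET {R S : Type} [CommRing R] [CommRing S] (f : R →+* S) {T a b e : R}
    (h : Tri T a b e) : Tri (f T) (f a) (f b) (f e) := by
  obtain ⟨h1, h2, h3⟩ := h
  refine ⟨?_, ?_, ?_⟩
  · simpa using congrArg f h1
  · simpa using congrArg f h2
  · simpa using congrArg f h3

theorem mapD_DET {R S : Type} [CommRing R] [CommRing S] (f : R →+* S) {c c' : ℕ} {g : Fin 7 → R}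
    (h : Dat c c' g) : Dat c c' fun i => f (g i) := by
  have h1 := mapT_DET f h.1
  have h2 := mapT_DET f h.2
  rw [map_mul, map_natCast] at h1 h2
  exact ⟨h1, h2⟩

theorem map0_DET {R S : Type} [CommRing R] [CommRing S] (f : R →+* S) (c c' t : ℕ) :
    PowerSeries.map f (C (t : R) + C ((dsc (c * t : R) * dsc (c' * t : R)) ^ 2) * X) =
      C (t : S) + C ((dsc (c * t : S) * dsc (c' * t : S)) ^ 2) * X := by
  have h : f ((dsc (c * t : R) * dsc (c' * t : R)) ^ 2) =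
      (dsc (c * t : S) * dsc (c' * t : S)) ^ 2 := by
    simp [dsc, map_ofNat]
  rw [map_add, map_mul, map_C, map_C, map_X, h, map_natCast]

theorem map_DET {R S : Type} [CommRing R] [CommRing S] (f : R →+* S) (c c' L : ℕ)
    (g : Fin 7 → R⟦X⟧) (t e i m : ℕ) (β : Fin 8 → ℕ) :
    f (coeff m (row c c' L g t e i β)) =
      coeff m (row c c' L (fun i => PowerSeries.map f (g i)) t e i β) := by
  rw [← coeff_map]
  simp only [row, map_mul, map_pow, map_prod, map_natCast, mapL_DET, mapu_DET, mapi_DET]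

theorem row_DET {F : Type} [Field F] [CharZero F] {L n : ℕ} (hd : ∀ k, 1 ≤ k → k < n → k ∣ L)
    (c c' : ℕ) (g : Fin 7 → F⟦X⟧) (t : F) (e i : ℕ) (β : Fin 8 → ℕ) :
    X ^ n ∣ C ((L : F) ^ ∑ j, β j) *
      (g 0 ^ e * C t ^ i * ∏ j, lgs (un g j) (iv c c' g j) ^ β j) - row c c' L g t e i β := by
  have h : ∀ U V : F⟦X⟧, Ideal.Quotient.mk (Ideal.span {(X : F⟦X⟧) ^ n}) (Lgs L U V) =
      Ideal.Quotient.mk _ (C (L : F) * lgs U V) := fun U V => by
    rw [Ideal.Quotient.eq, Ideal.mem_span_singleton, X_pow_dvd_iff]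
    intro m hm
    rw [map_sub, coeff_C_mul, Lgs, lgs, coeff_mk, coeff_mk]
    rcases m with _ | m
    · simp
    · rw [Nat.cast_div_charZero (hd _ (by omega) hm)]
      ring
  rw [← Ideal.mem_span_singleton, ← Ideal.Quotient.eq]
  simp only [row, map_mul, map_pow, map_prod, h, mul_pow, prod_mul_distrib,
    prod_pow_eq_pow_sum]
  ring

theorem log_DET (hCNJ : CNJ_st) (Q : Finset ℕ) (hQ : ∀ p ∈ Q, p.Prime)
    (e : ℕ → ℕ) {z : Zb} (hz : z ≠ 0) (h : ∀ p ∈ Q, (p : Zb) ^ e p ∣ z) :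
    ∃ φ : Zb →+* ℂ, φ z ≠ 0 ∧ ∑ p ∈ Q, (e p : ℝ) * Real.log p ≤ Real.log ‖φ z‖ := by
  obtain ⟨y, hy⟩ : ∏ p ∈ Q, (p : Zb) ^ e p ∣ z := prod_dvd_of_coprime (fun p hp q hq hpq =>
    (((Nat.coprime_primes (hQ p hp) (hQ q hq)).2 hpq).cast (R := Zb)).pow) h
  obtain ⟨φ, hi, hφ⟩ := hCNJ y (by rintro rfl; simp [hz] at hy)
  have h3 : ∀ p ∈ Q, (0 : ℝ) < (p : ℝ) ^ e p := fun p hp =>
    pow_pos (by exact_mod_cast (hQ p hp).pos) _
  have h2 : ∏ p ∈ Q, (p : ℝ) ^ e p ≤ ‖φ z‖ := by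
    have h4 : ‖φ z‖ = (∏ p ∈ Q, (p : ℝ) ^ e p) * ‖φ y‖ := by
      rw [hy]
      simp
    rw [h4]
    exact le_mul_of_one_le_right (prod_pos h3).le hφ
  refine ⟨φ, (map_ne_zero_iff φ hi).2 hz,
    le_trans (le_of_eq ?_) (Real.log_le_log (prod_pos h3) h2)⟩
  rw [Real.log_prod fun p hp => (h3 p hp).ne']
  simp only [Real.log_pow]

theorem dat_DET {S : Type} [CommRing S] {c c' : ℕ} {τ A A' A'' B B' B'' : S}
    (h : Tri (c * τ) A A' A'') (h' : Tri (c' * τ) B B' B'') :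
    Dat c c' ![τ, A, A', A'', B, B', B''] := ⟨h, h'⟩

theorem pts_DET (hHEN : HEN_st) (c c' t : ℕ) (a b : Fin 3 → Zb)
    (ha : Tri ((c * t : ℕ) : Zb) (a 0) (a 1) (a 2))
    (hb : Tri ((c' * t : ℕ) : Zb) (b 0) (b 1) (b 2)) :
    ∃ g : Fin 7 → Zb⟦X⟧,
      g 0 = C (t : Zb) + C ((dsc (c * t : Zb) * dsc (c' * t : Zb)) ^ 2) * X ∧ Dat c c' g ∧
      constantCoeff (g 1) = a 0 ∧ constantCoeff (g 2) = a 1 ∧
      constantCoeff (g 4) = b 0 ∧ constantCoeff (g 5) = b 1 := by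
  rw [Nat.cast_mul] at ha hb
  obtain ⟨A, A', A'', a0, a1, -, a3⟩ :=
    hHEN Zb _ (c * dsc (c' * t : Zb) ^ 2) _ _ _ ha (dsc_ne_DET c t)
  obtain ⟨B, B', B'', b0, b1, -, b3⟩ :=
    hHEN Zb _ (c' * dsc (c * t : Zb) ^ 2) _ _ _ hb (dsc_ne_DET c' t)
  refine ⟨![C (t : Zb) + C ((dsc (c * t : Zb) * dsc (c' * t : Zb)) ^ 2) * X, A, A', A'', B, B',
    B''], rfl, dat_DET ?_ ?_, a0, a1, b0, b1⟩
  · have h : (c : Zb⟦X⟧) * (C (t : Zb) + C ((dsc (c * t : Zb) * dsc (c' * t : Zb)) ^ 2) * X) =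
        C ((c : Zb) * t) + C (dsc (c * t : Zb) ^ 2 * (c * dsc (c' * t : Zb) ^ 2)) * X := by
      simp only [map_mul, map_pow, map_natCast]
      ring
    rw [h]
    exact a3
  · have h : (c' : Zb⟦X⟧) * (C (t : Zb) + C ((dsc (c * t : Zb) * dsc (c' * t : Zb)) ^ 2) * X) =
        C ((c' : Zb) * t) + C (dsc (c' * t : Zb) ^ 2 * (c' * dsc (c * t : Zb) ^ 2)) * X := by
      simp only [map_mul, map_pow, map_natCast]
      ring
    rw [h]
    exact b3

theorem min_DET (hZER : ZER_st) {c c' D K n L : ℕ} {P : Finset ℕ} (g : P → Fin 7 → Zb⟦X⟧)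
    (hc : 0 < c) (hc' : 0 < c') (hcc : c ≠ c') (hL : L ≠ 0) (hd : ∀ k, 1 ≤ k → k < n → k ∣ L)
    (hs : 729 * ((K + 1) ^ 17 * (D + 20 * (K + 1) ^ 17) + 12) <
      (P.card - K) * (n - (K + 1) ^ 17))
    (g0 : ∀ s : P, g s 0 = C ((s : ℕ) : Zb) +
      C ((dsc (c * (s : ℕ) : Zb) * dsc (c' * (s : ℕ) : Zb)) ^ 2) * X)
    (gD : ∀ s, Dat c c' (g s)) :
    ∃ σ : Ix D K → P × Fin n, (Matrix.of fun r s : Ix D K => coeff ((σ s).2 : ℕ)
      (row c c' L (g (σ s).1) (((σ s).1 : ℕ) : Zb) r.1 r.2.1 fun j => r.2.2 j)).det ≠ 0 := by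
  classical
  let F := AlgebraicClosure ℚ
  let f : Zb →+* F := algebraMap Zb F
  refine CC.minor_DET (ι := Ix D K) (κ := P × Fin n) f
    (fun r s => coeff (s.2 : ℕ) (row c c' L (g s.1) ((s.1 : ℕ) : Zb) r.1 r.2.1 fun j => r.2.2 j))
    fun v hv => ?_
  by_contra c0
  have L0 : (L : F) ≠ 0 := by exact_mod_cast hL
  refine hs.not_ge ?_
  rw [← Fintype.card_coe P]
  refine hZER F P c c' D K n (fun s => (s : ℕ))
    (fun s => (dsc (c * (s : ℕ) : F) * dsc (c' * (s : ℕ) : F)) ^ 2)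
    (fun s i => PowerSeries.map f (g s i)) (fun r => v r * (L : F) ^ ∑ j, (r.2.2 j : ℕ)) hc hc' hcc
    (fun s s' e => Subtype.ext (Nat.cast_injective (R := F) e))
    (fun s => pow_ne_zero 2 (mul_ne_zero (dsc_ne_DET _ _) (dsc_ne_DET _ _)))
    (fun s => by rw [g0 s, map0_DET]) (fun s => mapD_DET _ (gD s))
    (fun h => c0 (funext fun r =>
      (mul_eq_zero.1 (congrFun h r)).resolve_right (pow_ne_zero _ L0))) fun s => ?_
  have h1 : X ^ n ∣ ∑ r : Ix D K, C (v r) * row c c' L (fun i => PowerSeries.map f (g s i))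
      ((s : ℕ) : F) r.1 r.2.1 fun j => r.2.2 j := by
    rw [X_pow_dvd_iff]
    intro m hm
    rw [← hv (s, ⟨m, hm⟩), map_sum]
    refine sum_congr rfl fun r _ => ?_
    rw [coeff_C_mul, map_DET]
  refine (dvd_sub_left h1).1 ?_
  rw [← sum_sub_distrib]
  refine dvd_sum fun r _ => ?_
  rw [map_mul, mul_assoc, ← mul_sub]
  exact (row_DET hd c c' (fun i => PowerSeries.map f (g s i)) ((s : ℕ) : F) r.1 r.2.1
    fun j => r.2.2 j).mul_left _

theorem DET_pf (hZER : ZER_st) (hCNG : CNG_st) (hHEN : HEN_st) (hSIZ : SIZ_st) (hCNJ : CNJ_st)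
    (hDIV : CC.DIV_st) : DET_st := by
  classical
  obtain ⟨E, hE⟩ := hSIZ
  refine ⟨E, fun a c c' B D K n L P Q y ha hc hc' hcc hB cB cB' hP hL hd hs hQ hy => ?_⟩
  choose g g0 gD g1 g2 g4 g5 using fun s : P =>
    pts_DET hHEN c c' s (a (c * s)) (a (c' * s)) (ha _) (ha _)
  obtain ⟨σ, hσ⟩ := min_DET hZER g hc hc' hcc hL hd hs g0 gD
  set M := Matrix.of fun r s : Ix D K => coeff ((σ s).2 : ℕ)
    (row c c' L (g (σ s).1) (((σ s).1 : ℕ) : Zb) r.1 r.2.1 fun j => r.2.2 j) with hM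
  have hN : (Fintype.card (Ix D K) : ℝ) = D * (K + 1) ^ 9 := by
    simp only [Fintype.card_prod, Fintype.card_fin, Fintype.card_fun]
    push_cast
    ring
  let S : ℕ → Finset (Ix D K) := fun p => univ.filter fun s => Bad2 a c c' (σ s).1 p
  obtain ⟨φ, φ0, h1⟩ := log_DET hCNJ Q (fun p hp => (hQ p hp).1)
    (fun p => (S p).card - 2916 * (D + 54 * K * p + 1) * (9 * K + 1) ^ 7) hσ fun p hp => by
      obtain ⟨J, _, u, hJ, hw⟩ := hCNG p c c' D K L n (hQ p hp).1 (hQ p hp).2 hd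
      have h2 : ∀ s : P, ∃ w : J → ℕ → Zb, Bad2 a c c' s p →
          ∀ (r : Ix D K) (m : ℕ), m < n → (p : Zb) ∣ coeff m (row c c' L (g s) ((s : ℕ) : Zb)
            r.1 r.2.1 fun j => r.2.2 j) - ∑ τ, (u r τ : Zb) * w τ m := fun s => by
        by_cases h : Bad2 a c c' s p
        · obtain ⟨w, hw⟩ := hw Zb s _ (g s) (g0 s) (gD s) (by rw [g1, g2]; exact h.1)
            (by rw [g4, g5]; exact h.2)
          exact ⟨w, fun _ => hw⟩
        · exact ⟨0, fun c => absurd c h⟩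
      choose w hw using h2
      have h3 := hDIV Zb (Ix D K) J p M (S p) (fun r τ => u r τ)
        (fun τ s => w (σ s).1 τ (σ s).2) fun r s hs => hw _ (mem_filter.1 hs).2 r _ (σ s).2.2
      exact (pow_dvd_pow _ (Nat.sub_le_sub_left hJ _)).trans h3
  have h2 := Matrix.det_le (A := φ.mapMatrix M) (abv := IsAbsoluteValue.toAbsoluteValue norm)
    (x := ((B : ℝ) ^ E) ^ (D + n + K) * (n * L) ^ (8 * K))
    fun r s => by
      have h3 := hE B c c' (σ s).1 D K L n r.1 r.2.1 (σ s).2 (fun j => r.2.2 j)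
        (fun i => PowerSeries.map φ (g (σ s).1 i)) hB cB cB' (hP _ (σ s).1.2)
        (by rw [g0, map0_DET]) (mapD_DET _ (gD _)) hL r.1.2.le (Nat.le_of_lt_succ r.2.1.2)
        (fun j => Nat.le_of_lt_succ (r.2.2 j).2) (σ s).2.2
      refine le_trans (le_of_eq ?_) h3
      change ‖φ _‖ = _
      rw [hM, Matrix.of_apply, map_DET]
  rw [← hN]
  set N := Fintype.card (Ix D K) with hNd
  have h3 : ‖φ M.det‖ ≤ ((N : ℝ) *
      (((B : ℝ) ^ E) ^ (D + n + K) * (n * L) ^ (8 * K))) ^ N := by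
    rw [← RingHom.map_det, nsmul_eq_mul] at h2
    rw [mul_pow]
    refine le_trans h2 (mul_le_mul_of_nonneg_right ?_ (pow_nonneg (mul_nonneg
      (pow_nonneg (pow_nonneg (Nat.cast_nonneg _) _) _)
      (pow_nonneg (mul_nonneg (Nat.cast_nonneg _) (Nat.cast_nonneg _)) _)) _))
    exact_mod_cast Nat.factorial_le_pow N
  have h4 := Real.log_le_log (norm_pos_iff.2 φ0) h3
  rw [Real.log_pow] at h4
  have h5 : (N : ℝ) * y ≤ ∑ p ∈ Q, ((S p).card : ℝ) * Real.log p := by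
    have h6 : ∑ p ∈ Q, ((S p).card : ℝ) * Real.log p = ∑ s : Ix D K,
        ∑ p ∈ Q.filter (Bad2 a c c' (σ s).1), Real.log p := by
      simp only [S, card_filter, sum_filter, Nat.cast_sum, sum_mul]
      rw [sum_comm]
      refine sum_congr rfl fun s _ => sum_congr rfl fun p _ => ?_
      split_ifs <;> simp
    rw [h6, ← nsmul_eq_mul, hNd, ← card_univ]
    exact card_nsmul_le_sum _ _ _ fun s _ => hy _ (σ s).1.2
  have h6 : ∑ p ∈ Q, ((S p).card : ℝ) * Real.log p ≤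
      ∑ p ∈ Q, (2916 * (D + 54 * K * p + 1) * (9 * K + 1) ^ 7 : ℝ) * Real.log p +
      ∑ p ∈ Q, (((S p).card - 2916 * (D + 54 * K * p + 1) * (9 * K + 1) ^ 7 : ℕ) : ℝ) *
        Real.log p := by
    rw [← sum_add_distrib]
    refine sum_le_sum fun p _ => ?_
    rw [← add_mul]
    refine mul_le_mul_of_nonneg_right ?_ (Real.log_natCast_nonneg p)
    exact_mod_cast le_add_tsub
  linarith

end Pool.Agent.MP_3e91a1_nt.TR

end
end

section

/-! The determinant inequality in every degree. -/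

set_option autoImplicit false

open NumberField Finset PowerSeries

noncomputable section

namespace Pool.Agent.MP_3e91a1_nt.GN

open TR

open Classical in
theorem core_DEG (hCNJ : CNJ_st) (hDIV : CC.DIV_st) {ι P : Type} [Fintype ι] [Fintype P] (n : ℕ)
    (M : ι → P → ℕ → Zb) (Q : Finset ℕ) (bad : P → ℕ → Prop) (b : ℕ → ℕ) (y H : ℝ) (H0 : 0 ≤ H)
    (hQ : ∀ p ∈ Q, p.Prime)
    (hl : ∀ v : ι → AlgebraicClosure ℚ, (∀ s, ∀ j < n,
      ∑ r, v r * algebraMap Zb (AlgebraicClosure ℚ) (M r s j) = 0) → v = 0)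
    (hp : ∀ p ∈ Q, ∃ (J : Type) (_ : Fintype J) (u : ι → J → ℤ), Fintype.card J ≤ b p ∧
      ∀ s, bad s p → ∃ w : J → ℕ → Zb, ∀ r j, j < n → (p : Zb) ∣ M r s j - ∑ c, (u r c : Zb) * w c j)
    (hH : ∀ (φ : Zb →+* ℂ) r s, ∀ j < n, ‖φ (M r s j)‖ ≤ H)
    (hy : ∀ s, y ≤ ∑ p ∈ Q.filter (bad s), Real.log p) :
    (Fintype.card ι : ℝ) * y ≤ ∑ p ∈ Q, (b p : ℝ) * Real.log p +
      (Fintype.card ι : ℝ) * Real.log (Fintype.card ι * H) := by
  obtain ⟨σ, hσ⟩ := CC.minor_DET (ι := ι) (κ := P × Fin n) (algebraMap Zb (AlgebraicClosure ℚ))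
    (fun r s => M r s.1 s.2) fun v hv => hl v fun s j hj => hv (s, ⟨j, hj⟩)
  set A := Matrix.of fun r s : ι => M r (σ s).1 (σ s).2 with hA
  let S : ℕ → Finset ι := fun p => univ.filter fun s => bad (σ s).1 p
  obtain ⟨φ, φ0, h1⟩ := log_DET hCNJ Q hQ (fun p => (S p).card - b p) hσ fun p hq => by
    obtain ⟨J, _, u, hJ, hw⟩ := hp p hq
    have h2 : ∀ s : P, ∃ w : J → ℕ → Zb, bad s p →
        ∀ r j, j < n → (p : Zb) ∣ M r s j - ∑ c, (u r c : Zb) * w c j := fun s => by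
      by_cases h : bad s p
      · obtain ⟨w, hw⟩ := hw s h
        exact ⟨w, fun _ => hw⟩
      · exact ⟨0, fun c => absurd c h⟩
    choose w hw using h2
    have h3 := hDIV Zb ι J p A (S p) (fun r τ => u r τ)
      (fun τ s => w (σ s).1 τ (σ s).2) fun r s hs => hw _ (mem_filter.1 hs).2 r _ (σ s).2.2
    exact (pow_dvd_pow _ (Nat.sub_le_sub_left hJ _)).trans h3
  have h2 := Matrix.det_le (A := φ.mapMatrix A) (abv := IsAbsoluteValue.toAbsoluteValue norm)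
    (x := H) fun r s => hH φ r (σ s).1 _ (σ s).2.2
  set N := Fintype.card ι with hNd
  have h3 : ‖φ A.det‖ ≤ ((N : ℝ) * H) ^ N := by
    rw [← RingHom.map_det, nsmul_eq_mul] at h2
    rw [mul_pow]
    refine le_trans h2 (mul_le_mul_of_nonneg_right ?_ (pow_nonneg H0 _))
    exact_mod_cast Nat.factorial_le_pow N
  have h4 := Real.log_le_log (norm_pos_iff.2 φ0) h3
  rw [Real.log_pow] at h4
  have h5 : (N : ℝ) * y ≤ ∑ p ∈ Q, ((S p).card : ℝ) * Real.log p := by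
    have h6 : ∑ p ∈ Q, ((S p).card : ℝ) * Real.log p = ∑ s : ι,
        ∑ p ∈ Q.filter (bad (σ s).1), Real.log p := by
      simp only [S, card_filter, sum_filter, Nat.cast_sum, sum_mul]
      rw [sum_comm]
      refine sum_congr rfl fun s _ => sum_congr rfl fun p _ => ?_
      split_ifs <;> simp
    rw [h6, ← nsmul_eq_mul, hNd, ← card_univ]
    exact card_nsmul_le_sum _ _ _ fun s _ => hy _
  have h6 : ∑ p ∈ Q, ((S p).card : ℝ) * Real.log p ≤ ∑ p ∈ Q, (b p : ℝ) * Real.log p +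
      ∑ p ∈ Q, (((S p).card - b p : ℕ) : ℝ) * Real.log p := by
    rw [← sum_add_distrib]
    refine sum_le_sum fun p _ => ?_
    rw [← add_mul]
    refine mul_le_mul_of_nonneg_right ?_ (Real.log_natCast_nonneg p)
    exact_mod_cast le_add_tsub
  linarith

theorem aev_DEG (R : Type) [CommRing R] (d : Polynomial ℤ) (c t : ℕ) :
    Polynomial.aeval ((c : R) * t) d = ((Polynomial.aeval ((c * t : ℕ) : ℤ) d : ℤ) : R) := by
  have h := Polynomial.aeval_algebraMap_apply R ((c * t : ℕ) : ℤ) d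
  simpa using h

/-- the parameter at a point -/
def ta_DEG (R : Type) [CommRing R] (d : Polynomial ℤ) (c c' t : ℕ) : R⟦X⟧ :=
  C (t : R) + C ((Polynomial.aeval ((c : R) * t) d * Polynomial.aeval ((c' : R) * t) d) ^ 2) * X

theorem mapt_DEG {R S : Type} [CommRing R] [CommRing S] (f : R →+* S) (d : Polynomial ℤ)
    (c c' t : ℕ) : PowerSeries.map f (ta_DEG R d c c' t) = ta_DEG S d c c' t := by
  rw [ta_DEG, ta_DEG, map_add, map_mul, map_C, map_C, map_X, map_natCast, aev_DEG, aev_DEG,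
    aev_DEG, aev_DEG, map_pow, map_mul, map_intCast, map_intCast]

theorem mapu_DEG {R S : Type} [CommRing R] [CommRing S] (f : R →+* S) {m : ℕ} (r : Fin m → ℤ)
    (A : Fin (m + 1) → R) (j : Fin (m + 1) × Fin m) : f (uu r A j) = uu r (f ∘ A) j := by
  simp [uu]

theorem mapv_DEG {R S : Type} [CommRing R] [CommRing S] (f : R →+* S) {m : ℕ} (r : Fin m → ℤ)
    (T : R) (A : Fin (m + 1) → R) (j : Fin (m + 1) × Fin m) :
    f (vv r T A j) = vv r (f T) (f ∘ A) j := by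
  simp [vv]

theorem mapU_DEG {R S : Type} [CommRing R] [CommRing S] (f : R →+* S) {m k k' : ℕ} (σ : Sel m k)
    (σ' : Sel m k') (r : Fin m → ℤ) (A A' : Fin (m + 1) → R) (j : Fin k ⊕ Fin k') :
    f (UU σ σ' r A A' j) = UU σ σ' r (f ∘ A) (f ∘ A') j := by
  rcases j with j | j <;> exact mapu_DEG f r _ _

theorem mapV_DEG {R S : Type} [CommRing R] [CommRing S] (f : R →+* S) {m k k' : ℕ} (σ : Sel m k)
    (σ' : Sel m k') (r : Fin m → ℤ) (T T' : R) (A A' : Fin (m + 1) → R) (j : Fin k ⊕ Fin k') :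
    f (VV σ σ' r T T' A A' j) = VV σ σ' r (f T) (f T') (f ∘ A) (f ∘ A') j := by
  rcases j with j | j <;> exact mapv_DEG f r _ _ _

theorem map_DEG {R S : Type} [CommRing R] [CommRing S] (f : R →+* S) {m k k' : ℕ} (σ : Sel m k)
    (σ' : Sel m k') (r : Fin m → ℤ) (c c' L : ℕ) (τ : R⟦X⟧) (A A' : Fin (m + 1) → R⟦X⟧)
    (t e i j : ℕ) (β : Fin k ⊕ Fin k' → ℕ) :
    f (coeff j (rog L τ (t : R) (UU σ σ' r A A') (VV σ σ' r (c * τ) (c' * τ) A A') e i β)) =
      coeff j (rog L (PowerSeries.map f τ) (t : S)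
        (UU σ σ' r (PowerSeries.map f ∘ A) (PowerSeries.map f ∘ A'))
        (VV σ σ' r (c * PowerSeries.map f τ) (c' * PowerSeries.map f τ) (PowerSeries.map f ∘ A)
          (PowerSeries.map f ∘ A')) e i β) := by
  rw [← coeff_map]
  simp only [rog, map_mul, map_pow, map_prod, map_natCast, mapL_DET, mapU_DEG, mapV_DEG]

theorem row_DEG {F ι : Type} [Field F] [CharZero F] [Fintype ι] {L n : ℕ}
    (hd : ∀ k, 1 ≤ k → k < n → k ∣ L) (τ : F⟦X⟧) (t : F) (U V : ι → F⟦X⟧) (e i : ℕ) (β : ι → ℕ) :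
    X ^ n ∣ C ((L : F) ^ ∑ j, β j) * (τ ^ e * C t ^ i * ∏ j, lgs (U j) (V j) ^ β j) -
      rog L τ t U V e i β := by
  have h : ∀ U V : F⟦X⟧, Ideal.Quotient.mk (Ideal.span {(X : F⟦X⟧) ^ n}) (Lgs L U V) =
      Ideal.Quotient.mk _ (C (L : F) * lgs U V) := fun U V => by
    rw [Ideal.Quotient.eq, Ideal.mem_span_singleton, X_pow_dvd_iff]
    intro m hm
    rw [map_sub, coeff_C_mul, Lgs, lgs, coeff_mk, coeff_mk]
    rcases m with _ | m
    · simp
    · rw [Nat.cast_div_charZero (hd _ (by omega) hm)]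
      ring
  rw [← Ideal.mem_span_singleton, ← Ideal.Quotient.eq]
  simp only [rog, map_mul, map_pow, map_prod, h, mul_pow, prod_mul_distrib,
    prod_pow_eq_pow_sum]
  ring

theorem rel_DEG {R S : Type} [CommRing R] [CommRing S] (f : R →+* S) (hf : Function.Injective f)
    {m k : ℕ} (σ : Sel m k) (r : Fin m → ℤ) (T : R⟦X⟧) (A : Fin (m + 1) → R⟦X⟧)
    (h : σ.Rel r (derivative S) (PowerSeries.map f T) (PowerSeries.map f ∘ A)) :
    σ.Rel r (derivative R) T A := by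
  intro s i
  apply PowerSeries.map_injective f hf
  have := h s i
  simpa only [map_mul, map_sum, map_natCast, map_intCast, mapd_DET, mapu_DEG, mapv_DEG] using this

theorem rt_DEG (hITG : ITG_st) {R S : Type} [CommRing R] [CommRing S] (f : R →+* S) {m : ℕ}
    {r : Fin m → ℤ} {c : ℕ} {τ : R} {A : Fin (m + 1) → R} (h : Rt r (c * τ) A) :
    Rt r (c * f τ) (f ∘ A) := by
  have := (hITG m r R _ A h).2.2.2.2.1 S f
  rwa [map_mul, map_natCast] at this

theorem bag_DEG {p T m : ℕ} {r : Fin m → ℤ} {d : Polynomial ℤ} {R : Type} [CommRing R]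
    {a : Fin (m + 1) → R} (h : Bag p T r d a) (π : Equiv.Perm (Fin (m + 1))) :
    Bag p T r d fun s => a (π s) := by
  obtain ⟨h1, x, α, h2, h3, h4⟩ := h
  exact ⟨h1, fun s => x (π s), α, fun s => h2 _, h3, fun s => h4 _⟩

theorem one_DEG (hHEG : HEG_st) {m : ℕ} {r : Fin m → ℤ} {d : Polynomial ℤ} (hd : IsD r d)
    (c t : ℕ) (e : Zb) (a : Fin (m + 1) → Zb) (ha : Rt r ((c * t : ℕ) : Zb) a)
    (h0 : Polynomial.aeval ((c : Zb) * t) d ≠ 0) :
    ∃ A : Fin (m + 1) → Zb⟦X⟧, (∀ s, constantCoeff (A s) = a s) ∧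
      Rt r ((c : Zb⟦X⟧) * (C (t : Zb) + C ((Polynomial.aeval ((c : Zb) * t) d * e) ^ 2) * X)) A := by
  rw [Nat.cast_mul] at ha
  have h1 := hd Zb _ a ha
  obtain ⟨A, a0, a1⟩ := hHEG m r Zb _ (c * e ^ 2) a ha (by rw [h1]; exact h0)
  refine ⟨A, a0, ?_⟩
  rw [h1] at a1
  generalize Polynomial.aeval ((c : Zb) * t) d = z at a1 ⊢
  have h : (c : Zb⟦X⟧) * (C (t : Zb) + C ((z * e) ^ 2) * X) =
      C ((c : Zb) * t) + C (z ^ 2 * (c * e ^ 2)) * X := by
    simp only [map_mul, map_pow, map_natCast]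
    ring
  rw [h]
  exact a1

theorem DEG_pf (hITG : ITG_st) (hSTR : STR_st) (hZEG : ZEG_st) (hCNH : CNH_st) (hHEG : HEG_st)
    (hSIG : SIG_st) (hCNJ : CNJ_st) (hDIV : CC.DIV_st) : DEG_st := by
  classical
  intro m r d c c' a hm hr hd hcop hc hc' ha
  let F := AlgebraicClosure ℚ
  let f : Zb →+* F := algebraMap Zb F
  have hf : Function.Injective f := RingOfIntegers.coe_injective
  obtain ⟨k, k', σ, σ', n1, n2, p1, p2, hS⟩ := hSTR F m r d c c' hr hd hcop hc hc'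
  obtain ⟨ν, hν⟩ := hZEG m k k' σ σ' r d c c' hd
  obtain ⟨k1, -, C₁, p₀, hC⟩ := hCNH m k k' σ σ' r d c c' hm hd n1 n2 p1 p2
  obtain ⟨E, hE⟩ := hSIG m k k' σ σ' r d c c' hd
  refine ⟨k + k', ν + C₁ + p₀ + E, by omega, fun B D K n L P Q y hB hP hL hn hs hQ y0 hy => ?_⟩
  have hz : ∀ s : P, Polynomial.aeval ((c * s : ℕ) : ℤ) d ≠ 0 ∧
      Polynomial.aeval ((c' * s : ℕ) : ℤ) d ≠ 0 := fun s => by
    obtain ⟨p, hp, -⟩ := exists_ne_zero_of_sum_ne_zero (y0.trans_le (hy s s.2)).ne'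
    obtain ⟨b1, b2⟩ := ((@mem_filter _ _ (_) _ _).1 hp).2
    exact ⟨fun h => b1.1 (h ▸ dvd_zero _), fun h => b2.1 (h ▸ dvd_zero _)⟩
  have hz' : ∀ (R : Type) [CommRing R] [CharZero R] (s : P),
      Polynomial.aeval ((c : R) * (s : ℕ)) d ≠ 0 ∧ Polynomial.aeval ((c' : R) * (s : ℕ)) d ≠ 0 :=
    fun R _ _ s => by
      rw [aev_DEG, aev_DEG]
      exact ⟨Int.cast_ne_zero.2 (hz s).1, Int.cast_ne_zero.2 (hz s).2⟩
  have hA : ∀ s : P, ∃ A A' : Fin (m + 1) → Zb⟦X⟧, Rt r (c * ta_DEG Zb d c c' s) A ∧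
      Rt r (c' * ta_DEG Zb d c c' s) A' ∧
      Pt σ σ' r c c' (ta_DEG F d c c' s) (PowerSeries.map f ∘ A) (PowerSeries.map f ∘ A') ∧
      ∀ p, Bag p (c * s) r d (a (c * s)) ∧ Bag p (c' * s) r d (a (c' * s)) →
        Bag p (c * s) r d (fun i => constantCoeff (A i)) ∧
        Bag p (c' * s) r d (fun i => constantCoeff (A' i)) := fun s => by
    obtain ⟨A, a0, a1⟩ := one_DEG hHEG hd c s (Polynomial.aeval ((c' : Zb) * (s : ℕ)) d) _ (ha _)
      (hz' Zb s).1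
    obtain ⟨A', b0, b1⟩ := one_DEG hHEG hd c' s (Polynomial.aeval ((c : Zb) * (s : ℕ)) d) _ (ha _)
      (hz' Zb s).2
    rw [mul_comm (Polynomial.aeval ((c' : Zb) * (s : ℕ)) d)] at b1
    change Rt r (c * ta_DEG Zb d c c' s) A at a1
    change Rt r (c' * ta_DEG Zb d c c' s) A' at b1
    have a2 := rt_DEG hITG (PowerSeries.map f) a1
    have b2 := rt_DEG hITG (PowerSeries.map f) b1
    rw [mapt_DEG] at a2 b2
    obtain ⟨π, π', h⟩ := hS _ _ _ _ _ (pow_ne_zero 2 (mul_ne_zero (hz' F s).1 (hz' F s).2)) rfl a2 b2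
    refine ⟨A ∘ π, A' ∘ π', (hITG m r _ _ A a1).2.2.2.1 π, (hITG m r _ _ A' b1).2.2.2.1 π', h,
      fun p hp => ?_⟩
    simp only [Function.comp_apply, a0, b0]
    exact ⟨bag_DEG hp.1 π, bag_DEG hp.2 π'⟩
  choose A A' r1 r2 hpt hb using hA
  have hN : (Fintype.card (Iy D K (Fin k ⊕ Fin k')) : ℝ) = D * (K + 1) ^ (k + k' + 1) := by
    simp only [Fintype.card_prod, Fintype.card_fin, Fintype.card_fun, Fintype.card_sum]
    push_cast
    ring
  have key := core_DEG hCNJ hDIV (ι := Iy D K (Fin k ⊕ Fin k')) (P := P) n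
    (fun q s j => coeff j (rog L (ta_DEG Zb d c c' s) ((s : ℕ) : Zb) (UU σ σ' r (A s) (A' s))
      (VV σ σ' r (c * ta_DEG Zb d c c' s) (c' * ta_DEG Zb d c c' s) (A s) (A' s))
      q.1 q.2.1 fun i => q.2.2 i)) Q
    (fun s p => Bag p (c * s) r d (a (c * s)) ∧ Bag p (c' * s) r d (a (c' * s)))
    (fun p => (ν + C₁ + p₀ + E) * (D + K * p + 1) * (K + 1) ^ (k + k' - 1)) y
    (((B : ℝ) ^ (ν + C₁ + p₀ + E)) ^ (D + n + K) * (n * L) ^ ((k + k') * K)) (by positivity)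
    (fun p hp => (hQ p hp).1) (fun v hv => ?_) (fun p hp => ?_) (fun φ q s j hj => ?_)
    (fun s => hy s s.2)
  · rw [hN] at key
    push_cast at key ⊢
    exact key
  · by_contra c0
    have L0 : (L : F) ≠ 0 := by exact_mod_cast hL
    refine hs.not_ge ?_
    rw [← Fintype.card_coe P]
    refine le_trans (hν F P D K n (fun s => (s : ℕ)) _ (fun s => ta_DEG F d c c' s)
      (fun s => PowerSeries.map f ∘ A s) (fun s => PowerSeries.map f ∘ A' s)
      (fun q => v q * (L : F) ^ ∑ j, (q.2.2 j : ℕ)) hcop hc hc'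
      (fun s s' e => Subtype.ext (Nat.cast_injective (R := F) e))
      (fun s => pow_ne_zero 2 (mul_ne_zero (hz' F s).1 (hz' F s).2)) (fun s => rfl)
      (fun s => by rw [← mapt_DEG f]; exact rt_DEG hITG _ (r1 s))
      (fun s => by rw [← mapt_DEG f]; exact rt_DEG hITG _ (r2 s)) hpt
      (fun h => c0 (funext fun r =>
        (mul_eq_zero.1 (congrFun h r)).resolve_right (pow_ne_zero _ L0))) fun s => ?_) ?_
    · have h1 : X ^ n ∣ ∑ q : Iy D K (Fin k ⊕ Fin k'), C (v q) * rog L (ta_DEG F d c c' s)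
          ((s : ℕ) : F) (UU σ σ' r (PowerSeries.map f ∘ A s) (PowerSeries.map f ∘ A' s))
          (VV σ σ' r (c * ta_DEG F d c c' s) (c' * ta_DEG F d c c' s) (PowerSeries.map f ∘ A s)
            (PowerSeries.map f ∘ A' s)) q.1 q.2.1 fun i => q.2.2 i := by
        rw [X_pow_dvd_iff]
        intro j hj
        rw [← hv s j hj, map_sum]
        refine sum_congr rfl fun q _ => ?_
        rw [coeff_C_mul, map_DEG, mapt_DEG]
      refine (dvd_sub_left h1).1 ?_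
      rw [← sum_sub_distrib]
      refine dvd_sum fun q _ => ?_
      rw [map_mul, mul_assoc, ← mul_sub]
      exact (row_DEG hn _ _ _ _ q.1 q.2.1 fun j => q.2.2 j).mul_left _
    · have : ν ≤ ν + C₁ + p₀ + E := by omega
      gcongr
  · obtain ⟨J, _, u, hJ, hw⟩ := hC p D K L n (hQ p hp).1 (by have := (hQ p hp).2.2; omega)
      (hQ p hp).2.1 hn
    refine ⟨J, _, u, hJ.trans (by gcongr; omega), fun s hs => ?_⟩
    refine hw Zb s _ _ (A s) (A' s) rfl (r1 s) (r2 s) (rel_DEG f hf σ r _ _ ?_)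
      (rel_DEG f hf σ' r _ _ ?_) (hb s p hs).1 (hb s p hs).2
    · rw [map_mul, map_natCast, mapt_DEG]
      exact (hpt s).1
    · rw [map_mul, map_natCast, mapt_DEG]
      exact (hpt s).2.1
  · rw [map_DEG, mapt_DEG]
    refine (hE B s D K L n q.1 q.2.1 j (fun i => q.2.2 i) (ta_DEG ℂ d c c' s) _ _ hB (hP _ s.2)
      (hz' ℂ s).1 (hz' ℂ s).2 rfl (by rw [← mapt_DEG φ]; exact rt_DEG hITG _ (r1 s))
      (by rw [← mapt_DEG φ]; exact rt_DEG hITG _ (r2 s)) hL q.1.2.le (Nat.le_of_lt_succ q.2.1.2)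
      (fun i => Nat.le_of_lt_succ (q.2.2 i).2) hj).trans ?_
    have b1 : (1 : ℝ) ≤ B := by exact_mod_cast (by omega : 1 ≤ B)
    have : E ≤ ν + C₁ + p₀ + E := by omega
    gcongr

end Pool.Agent.MP_3e91a1_nt.GN

end
end

section

/-! The determinant inequality for arbitrary families. -/

set_option autoImplicit false

open NumberField Finset PowerSeries

noncomputable section

namespace Pool.Agent.MP_3e91a1_nt.FM

open TR GN

theorem mapu_DEF (hITF : ITF_st) {R S : Type} [CommRing R] [CommRing S] (f : R →+* S) {m n : ℕ}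
    (Φ : Fam m) (T : R) (A : Fin n → R) (j : Fin n × Fin m) :
    f (Φ.u T A j) = Φ.u (f T) (f ∘ A) j := (hITF.1 R S f _ T _).2

theorem mapv_DEF (hITF : ITF_st) {R S : Type} [CommRing R] [CommRing S] (f : R →+* S) {m n : ℕ}
    (Φ : Fam m) (T : R) (A : Fin n → R) (j : Fin n × Fin m) :
    f (Φ.v T A j) = Φ.v (f T) (f ∘ A) j := (hITF.1 R S f _ T _).2

theorem mapU_DEF (hITF : ITF_st) {R S : Type} [CommRing R] [CommRing S] (f : R →+* S)
    {n m k k' : ℕ} (σ : Slc n m k) (σ' : Slc n m k') (Φ : Fam m) (T T' : R) (A A' : Fin n → R)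
    (j : Fin k ⊕ Fin k') :
    f (Uf σ σ' Φ T T' A A' j) = Uf σ σ' Φ (f T) (f T') (f ∘ A) (f ∘ A') j := by
  rcases j with j | j <;> exact mapu_DEF hITF f Φ _ _ _

theorem mapV_DEF (hITF : ITF_st) {R S : Type} [CommRing R] [CommRing S] (f : R →+* S)
    {n m k k' : ℕ} (σ : Slc n m k) (σ' : Slc n m k') (Φ : Fam m) (T T' : R) (A A' : Fin n → R)
    (j : Fin k ⊕ Fin k') :
    f (Vf σ σ' Φ T T' A A' j) = Vf σ σ' Φ (f T) (f T') (f ∘ A) (f ∘ A') j := by
  rcases j with j | j <;> exact mapv_DEF hITF f Φ _ _ _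

theorem map_DEF (hITF : ITF_st) {R S : Type} [CommRing R] [CommRing S] (f : R →+* S)
    {n m k k' : ℕ} (σ : Slc n m k) (σ' : Slc n m k') (Φ : Fam m) (c c' L : ℕ) (τ : R⟦X⟧)
    (A A' : Fin n → R⟦X⟧) (t e i j : ℕ) (β : Fin k ⊕ Fin k' → ℕ) :
    f (coeff j (rog L τ (t : R) (Uf σ σ' Φ (c * τ) (c' * τ) A A')
      (Vf σ σ' Φ (c * τ) (c' * τ) A A') e i β)) =
      coeff j (rog L (PowerSeries.map f τ) (t : S)
        (Uf σ σ' Φ (c * PowerSeries.map f τ) (c' * PowerSeries.map f τ) (PowerSeries.map f ∘ A)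
          (PowerSeries.map f ∘ A'))
        (Vf σ σ' Φ (c * PowerSeries.map f τ) (c' * PowerSeries.map f τ) (PowerSeries.map f ∘ A)
          (PowerSeries.map f ∘ A')) e i β) := by
  rw [← coeff_map]
  simp only [rog, map_mul, map_pow, map_prod, map_natCast, mapL_DET, mapU_DEF hITF, mapV_DEF hITF]

theorem rel_DEF (hITF : ITF_st) {R S : Type} [CommRing R] [CommRing S] (f : R →+* S)
    (hf : Function.Injective f) {n m k : ℕ} (σ : Slc n m k) (Φ : Fam m) (T : R⟦X⟧)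
    (A : Fin n → R⟦X⟧)
    (h : σ.Rel Φ (derivative S) (PowerSeries.map f T) (PowerSeries.map f ∘ A)) :
    σ.Rel Φ (derivative R) T A := by
  intro s i
  apply PowerSeries.map_injective f hf
  have := h s i
  simpa only [map_mul, map_sum, map_natCast, map_intCast, mapd_DET, mapu_DEF hITF,
    mapv_DEF hITF] using this

theorem rt_DEF (hITF : ITF_st) {R S : Type} [CommRing R] [CommRing S] (f : R →+* S) {n : ℕ}
    {g : P2} {c : ℕ} {τ : R} {A : Fin n → R} (h : Rf g (c * τ) A) : Rf g (c * f τ) (f ∘ A) := by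
  have := (hITF.2.2.2.2 g n R _ A h).2.2.2.1 S f
  rwa [map_mul, map_natCast] at this

theorem bag_DEF {p T m n : ℕ} {Φ : Fam m} {d : Polynomial ℤ} {R : Type} [CommRing R]
    {a : Fin n → R} (h : Baf p T Φ d a) (π : Equiv.Perm (Fin n)) :
    Baf p T Φ d fun s => a (π s) := by
  obtain ⟨h1, x, α, h2, h3, h4⟩ := h
  exact ⟨h1, fun s => x (π s), α, fun s => h2 _, h3, fun s => h4 _⟩

theorem one_DEF (hHEF : HEF_st) {n : ℕ} {g : P2} {d : Polynomial ℤ} (g1 : g.Monic)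
    (g2 : g.natDegree = n) (hd : IsE g n d)
    (c t : ℕ) (e : Zb) (a : Fin n → Zb) (ha : Rf g ((c * t : ℕ) : Zb) a)
    (h0 : Polynomial.aeval ((c : Zb) * t) d ≠ 0) :
    ∃ A : Fin n → Zb⟦X⟧, (∀ s, constantCoeff (A s) = a s) ∧
      Rf g ((c : Zb⟦X⟧) * (C (t : Zb) + C ((Polynomial.aeval ((c : Zb) * t) d * e) ^ 2) * X)) A := by
  rw [Nat.cast_mul] at ha
  have h1 := hd Zb _ a ha
  obtain ⟨A, a0, a1⟩ := hHEF g n Zb _ (c * e ^ 2) a g1 g2 ha (by rw [h1]; exact h0)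
  refine ⟨A, a0, ?_⟩
  rw [h1] at a1
  generalize Polynomial.aeval ((c : Zb) * t) d = z at a1 ⊢
  have h : (c : Zb⟦X⟧) * (C (t : Zb) + C ((z * e) ^ 2) * X) =
      C ((c : Zb) * t) + C (z ^ 2 * (c * e ^ 2)) * X := by
    simp only [map_mul, map_pow, map_natCast]
    ring
  rw [h]
  exact a1

theorem DEF_pf (hITF : ITF_st) (hSRF : SRF_st) (hZEF : ZEF_st) (hCNF : CNF_st) (hHEF : HEF_st)
    (hSIF : SIF_st) (hCNJ : CNJ_st) (hDIV : CC.DIV_st) : DEF_st := by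
  classical
  intro m n₀ Φ d c c' a hm hr hi hd hcop hc hc' ha
  let F := AlgebraicClosure ℚ
  let f : Zb →+* F := algebraMap Zb F
  have hf : Function.Injective f := RingOfIntegers.coe_injective
  have hal : ∀ z : F, IsAlgebraic ℤ z := fun z =>
    (IsFractionRing.isAlgebraic_iff ℤ ℚ F).2 ((AlgebraicClosure.isAlgebraic ℚ).isAlgebraic z)
  obtain ⟨k, k', σ, σ', n1, n2, p1, p2, hS⟩ := hSRF F m n₀ Φ d c c' hal hr hi hd hcop hc hc'
  obtain ⟨ν, hν⟩ := hZEF n₀ m k k' σ σ' Φ d c c' hr hd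
  obtain ⟨k1, -, C₁, p₀, hC⟩ := hCNF n₀ m k k' σ σ' Φ d c c' hm hr hd n1 n2 p1 p2
  obtain ⟨E, hE⟩ := hSIF n₀ m k k' σ σ' Φ d c c' hr hd
  refine ⟨k + k', ν + C₁ + p₀ + E, by omega, fun B D K n L P Q y hB hP hL hn hs hQ y0 hy => ?_⟩
  have hz : ∀ s : P, Polynomial.aeval ((c * s : ℕ) : ℤ) d ≠ 0 ∧
      Polynomial.aeval ((c' * s : ℕ) : ℤ) d ≠ 0 := fun s => by
    obtain ⟨p, hp, -⟩ := exists_ne_zero_of_sum_ne_zero (y0.trans_le (hy s s.2)).ne'
    obtain ⟨b1, b2⟩ := ((@mem_filter _ _ (_) _ _).1 hp).2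
    exact ⟨fun h => b1.1 (h ▸ dvd_zero _), fun h => b2.1 (h ▸ dvd_zero _)⟩
  have hz' : ∀ (R : Type) [CommRing R] [CharZero R] (s : P),
      Polynomial.aeval ((c : R) * (s : ℕ)) d ≠ 0 ∧ Polynomial.aeval ((c' : R) * (s : ℕ)) d ≠ 0 :=
    fun R _ _ s => by
      rw [aev_DEG, aev_DEG]
      exact ⟨Int.cast_ne_zero.2 (hz s).1, Int.cast_ne_zero.2 (hz s).2⟩
  have hA : ∀ s : P, ∃ A A' : Fin n₀ → Zb⟦X⟧, Rf Φ.f (c * ta_DEG Zb d c c' s) A ∧
      Rf Φ.f (c' * ta_DEG Zb d c c' s) A' ∧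
      Pf σ σ' Φ c c' (ta_DEG F d c c' s) (PowerSeries.map f ∘ A) (PowerSeries.map f ∘ A') ∧
      ∀ p, Baf p (c * s) Φ d (a (c * s)) ∧ Baf p (c' * s) Φ d (a (c' * s)) →
        Baf p (c * s) Φ d (fun i => constantCoeff (A i)) ∧
        Baf p (c' * s) Φ d (fun i => constantCoeff (A' i)) := fun s => by
    obtain ⟨A, a0, a1⟩ := one_DEF hHEF hr.1 hr.2.1 hd c s
      (Polynomial.aeval ((c' : Zb) * (s : ℕ)) d) _ (ha _) (hz' Zb s).1
    obtain ⟨A', b0, b1⟩ := one_DEF hHEF hr.1 hr.2.1 hd c' s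
      (Polynomial.aeval ((c : Zb) * (s : ℕ)) d) _ (ha _) (hz' Zb s).2
    rw [mul_comm (Polynomial.aeval ((c' : Zb) * (s : ℕ)) d)] at b1
    change Rf Φ.f (c * ta_DEG Zb d c c' s) A at a1
    change Rf Φ.f (c' * ta_DEG Zb d c c' s) A' at b1
    have a2 := rt_DEF hITF (PowerSeries.map f) a1
    have b2 := rt_DEF hITF (PowerSeries.map f) b1
    rw [mapt_DEG] at a2 b2
    obtain ⟨π, π', h⟩ := hS _ _ _ _ _ (pow_ne_zero 2 (mul_ne_zero (hz' F s).1 (hz' F s).2)) rfl a2 b2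
    refine ⟨A ∘ π, A' ∘ π', (hITF.2.2.2.2 _ _ _ _ A a1).2.2.1 π,
      (hITF.2.2.2.2 _ _ _ _ A' b1).2.2.1 π', h, fun p hp => ?_⟩
    simp only [Function.comp_apply, a0, b0]
    exact ⟨bag_DEF hp.1 π, bag_DEF hp.2 π'⟩
  choose A A' r1 r2 hpt hb using hA
  have hN : (Fintype.card (Iy D K (Fin k ⊕ Fin k')) : ℝ) = D * (K + 1) ^ (k + k' + 1) := by
    simp only [Fintype.card_prod, Fintype.card_fin, Fintype.card_fun, Fintype.card_sum]
    push_cast
    ring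
  have key := core_DEG hCNJ hDIV (ι := Iy D K (Fin k ⊕ Fin k')) (P := P) n
    (fun q s j => coeff j (rog L (ta_DEG Zb d c c' s) ((s : ℕ) : Zb)
      (Uf σ σ' Φ (c * ta_DEG Zb d c c' s) (c' * ta_DEG Zb d c c' s) (A s) (A' s))
      (Vf σ σ' Φ (c * ta_DEG Zb d c c' s) (c' * ta_DEG Zb d c c' s) (A s) (A' s))
      q.1 q.2.1 fun i => q.2.2 i)) Q
    (fun s p => Baf p (c * s) Φ d (a (c * s)) ∧ Baf p (c' * s) Φ d (a (c' * s)))
    (fun p => (ν + C₁ + p₀ + E) * (D + K * p + 1) * (K + 1) ^ (k + k' - 1)) y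
    (((B : ℝ) ^ (ν + C₁ + p₀ + E)) ^ (D + n + K) * (n * L) ^ ((k + k') * K)) (by positivity)
    (fun p hp => (hQ p hp).1) (fun v hv => ?_) (fun p hp => ?_) (fun φ q s j hj => ?_)
    (fun s => hy s s.2)
  · rw [hN] at key
    push_cast at key ⊢
    exact key
  · by_contra c0
    have L0 : (L : F) ≠ 0 := by exact_mod_cast hL
    refine hs.not_ge ?_
    rw [← Fintype.card_coe P]
    refine le_trans (hν F P D K n (fun s => (s : ℕ)) _ (fun s => ta_DEG F d c c' s)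
      (fun s => PowerSeries.map f ∘ A s) (fun s => PowerSeries.map f ∘ A' s)
      (fun q => v q * (L : F) ^ ∑ j, (q.2.2 j : ℕ)) hcop hc hc'
      (fun s s' e => Subtype.ext (Nat.cast_injective (R := F) e))
      (fun s => pow_ne_zero 2 (mul_ne_zero (hz' F s).1 (hz' F s).2)) (fun s => rfl)
      (fun s => by rw [← mapt_DEG f]; exact rt_DEF hITF _ (r1 s))
      (fun s => by rw [← mapt_DEG f]; exact rt_DEF hITF _ (r2 s)) hpt
      (fun h => c0 (funext fun r =>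
        (mul_eq_zero.1 (congrFun h r)).resolve_right (pow_ne_zero _ L0))) fun s => ?_) ?_
    · have h1 : X ^ n ∣ ∑ q : Iy D K (Fin k ⊕ Fin k'), C (v q) * rog L (ta_DEG F d c c' s)
          ((s : ℕ) : F) (Uf σ σ' Φ (c * ta_DEG F d c c' s) (c' * ta_DEG F d c c' s)
            (PowerSeries.map f ∘ A s) (PowerSeries.map f ∘ A' s))
          (Vf σ σ' Φ (c * ta_DEG F d c c' s) (c' * ta_DEG F d c c' s) (PowerSeries.map f ∘ A s)
            (PowerSeries.map f ∘ A' s)) q.1 q.2.1 fun i => q.2.2 i := by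
        rw [X_pow_dvd_iff]
        intro j hj
        rw [← hv s j hj, map_sum]
        refine sum_congr rfl fun q _ => ?_
        rw [coeff_C_mul, map_DEF hITF, mapt_DEG]
      refine (dvd_sub_left h1).1 ?_
      rw [← sum_sub_distrib]
      refine dvd_sum fun q _ => ?_
      rw [map_mul, mul_assoc, ← mul_sub]
      exact (row_DEG hn _ _ _ _ q.1 q.2.1 fun j => q.2.2 j).mul_left _
    · have : ν ≤ ν + C₁ + p₀ + E := by omega
      gcongr
  · obtain ⟨J, _, u, hJ, hw⟩ := hC p D K L n (hQ p hp).1 (by have := (hQ p hp).2.2; omega)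
      (hQ p hp).2.1 hn
    refine ⟨J, _, u, hJ.trans (by gcongr; omega), fun s hs => ?_⟩
    refine hw Zb s _ _ (A s) (A' s) rfl (r1 s) (r2 s) (rel_DEF hITF f hf σ Φ _ _ ?_)
      (rel_DEF hITF f hf σ' Φ _ _ ?_) (hb s p hs).1 (hb s p hs).2
    · rw [map_mul, map_natCast, mapt_DEG]
      exact (hpt s).1
    · rw [map_mul, map_natCast, mapt_DEG]
      exact (hpt s).2.1
  · rw [map_DEF hITF, mapt_DEG]
    refine (hE B s D K L n q.1 q.2.1 j (fun i => q.2.2 i) (ta_DEG ℂ d c c' s) _ _ hB (hP _ s.2)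
      (hz' ℂ s).1 (hz' ℂ s).2 rfl (by rw [← mapt_DEG φ]; exact rt_DEF hITF _ (r1 s))
      (by rw [← mapt_DEG φ]; exact rt_DEF hITF _ (r2 s)) hL q.1.2.le (Nat.le_of_lt_succ q.2.1.2)
      (fun i => Nat.le_of_lt_succ (q.2.2 i).2) hj).trans ?_
    have b1 : (1 : ℝ) ≤ B := by exact_mod_cast (by omega : 1 ≤ B)
    have : E ≤ ν + C₁ + p₀ + E := by omega
    gcongr

end Pool.Agent.MP_3e91a1_nt.FM

end
end
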