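import Pool.Agent.Mg.F3e91a1.Gf1088e
import Pool.Agent.MP_f3cd89_nt.NBase

set_option linter.all false

/-! Statements of the steps of the reflection argument. -/

set_option autoImplicit false

open NumberField Module Finset

namespace Pool.Agent.MP_3e91a1_nt.CC

open MP_f3cd89_nt

/-- any three eigenclasses that are unramified outside `p` are dependent -/
def Dep (p : ℕ) {K M : Type} [Field K] [Field M] [NumberField M] [Algebra K M]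
    (ω : (M ≃ₐ[K] M) → ℕ) : Prop :=
  ∀ x : Fin 3 → M, (∀ i, Eig p ω (x i) ∧ ∀ v : Pr M, (p : 𝓞 M) ∉ v.asIdeal → (p : ℤ) ∣ ord v (x i)) →
    ∃ (c : Fin 3 → ℕ) (z : M), (∃ i, ¬ p ∣ c i) ∧ ∏ i, x i ^ c i = z ^ p

/-- the bound for the eigenspace -/
def THR_st : Prop := ∀ (p E : ℕ) (K M : Type) [Field K] [NumberField K] [Field M] [NumberField M]
  [Algebra K M] [IsGalois K M] [IsGalois ℚ M] (ζ : M) (ω : (M ≃ₐ[K] M) → ℕ) (u : (𝓞 K)ˣ),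
  p.Prime → 2 < p → IsPrimitiveRoot ζ p → (∀ g : M ≃ₐ[K] M, g ζ = ζ ^ ω g) →
  ¬ p ∣ finrank ℚ M → finrank ℚ K = 3 → ¬ p ∣ classNumber K → ¬ p ∣ E →
  (∀ y : 𝓞 K, IsCoprime y p → (p : 𝓞 K) ∣ y ^ E - 1) → ¬ (p : 𝓞 K) ^ 2 ∣ (u : 𝓞 K) ^ E - 1 →
  Dep p ω

/-- the reflection -/
def RFL_st : Prop := ∀ (p : ℕ) (K M : Type) [Field K] [NumberField K] [Field M] [NumberField M]
  [Algebra K M] (ζ : M) (ω : (M ≃ₐ[K] M) → ℕ) (η : (𝓞 M)ˣ) (F : Pr M → ZMod p),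
  p.Prime → IsPrimitiveRoot ζ p → (∀ g : M ≃ₐ[K] M, g ζ = ζ ^ ω g) →
  ¬ p ∣ Nat.card (M ≃ₐ[K] M) → Eig p ω ((η : 𝓞 M) : M) →
  (∀ (i j : ℕ) (z : M), ζ ^ i * ((η : 𝓞 M) : M) ^ j = z ^ p → p ∣ i ∧ p ∣ j) → Dep p ω →
  (∀ x : M, x ≠ 0 → ((dv x).sum fun w n => (n : ZMod p) * F w) = 0) →
  (∀ (g : M ≃ₐ[K] M) (w : Pr M), F (gact g w) = ω g * F w) → ∀ w, F w = 0

/-- the cubic field -/
def CUB_st : Prop := ∀ (T : ℕ) (w : AlgebraicClosure ℚ), 1 ≤ T → w ^ 3 + T * w + T = 0 →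
  finrank ℚ (IntermediateField.adjoin ℚ {w}) = 3 ∧
  (∃ φ : IntermediateField.adjoin ℚ {w} →+* ℂ, ¬ ComplexEmbedding.IsReal φ) ∧
  IsIntegral ℤ w ∧ IsIntegral ℤ (1 + w)⁻¹ ∧ 1 + w ≠ 0 ∧
  ∀ w' : AlgebraicClosure ℚ, w' ^ 3 + T * w' + T = 0 →
    ∃ g : AlgebraicClosure ℚ ≃ₐ[ℚ] AlgebraicClosure ℚ, g w = w'

end Pool.Agent.MP_3e91a1_nt.CC
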