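import Pool.Agent.MP_3e91a1_nt.St

set_option linter.all false

section

set_option autoImplicit false

open NumberField IsDedekindDomain Module Filter Topology Finset Polynomial
open scoped Classical

namespace Pool.Agent.MP_3e91a1_nt

open MP_e23604_nt MP_e23604_nt.B MP_e23604_nt.R MP_f3cd89_nt

theorem root_WDVS {v : AbsoluteValue Qb ℝ} (hv : IsNonarchimedean v) {η : Qb} {n : ℕ}
    (hn : v n = 1) (h2 : η ^ n = 1) (h3 : v (η - 1) < 1) : η = 1 := by
  have hn0 : n ≠ 0 := by rintro rfl; simp at hn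
  by_contra hη
  have h4 : ∑ i ∈ Finset.range n, η ^ i = 0 := by
    rw [geom_sum_eq hη, h2, sub_self, zero_div]
  have h5 : ∑ i ∈ Finset.range n, (η ^ i - 1) = -(n : Qb) := by
    rw [Finset.sum_sub_distrib, h4]; simp
  have h6 := BValA_sum hv (Finset.range n) (fun i => η ^ i - 1) (v.nonneg _)
    fun i _ => BValA_geom hv (BValA_root hn0 h2).le i
  rw [h5, v.map_neg, hn] at h6
  exact absurd h3 (not_lt.2 h6)

theorem fix_WDVS {v : AbsoluteValue Qb ℝ} (hv : IsNonarchimedean v) {τ : GQ} (hτ : Inr v τ)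
    {z x : Qb} {n : ℕ} (hn : v n = 1) (hz : z ≠ 0) (h1 : τ (z ^ n) = z ^ n) (h2 : τ x = x)
    (h3 : v x = v z) : τ z = z := by
  have hx : x ≠ 0 := by
    rintro rfl
    rw [map_zero] at h3
    exact (v.pos hz).ne h3
  have h4 : v (z / x) = 1 := by rw [map_div₀, h3, div_self (v.pos hz).ne']
  have h5 := hτ (z / x) h4.le
  have h6 : τ (z / x) - z / x = (τ z / z - 1) * (z / x) := by
    rw [map_div₀, h2]
    field_simp
  rw [h6, map_mul, h4, mul_one] at h5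
  refine (div_eq_one_iff_eq hz).1 (root_WDVS hv hn ?_ h5)
  rw [div_pow, ← map_pow, h1, div_self (pow_ne_zero _ hz)]

/-- the valuation of `y` at a place over `w` -/
def Rl_WDVS (L : IntermediateField ℚ Qb) [NumberField L] (y : Qb) (w : Pr L) (k : ℤ) : Prop :=
  ∃ (l : ℕ) (_ : Fact l.Prime) (γ : GQ) (t : ℝ), Pl L w l γ t ∧ nv l γ y = t ^ (-k)

theorem DVS_pf (hEIG : EIG_st) (hPLC : PLC_st) (hRES : RES_st) : DVS_st := by
  intro p hp U W N B L _ δ δ' n y a₀ x hWo hWU hδ hB hOff hL hInd hδp hn hCG hy hNy hβ ha₀ hWa hNx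
    hrel
  obtain ⟨hP1, hP2⟩ := hPLC L
  have hW : ∀ g : GQ, (∀ x ∈ L, g x = x) → g ∈ W := by
    obtain ⟨L', _, h1, h2, -⟩ := hRES W hWo
    exact fun g hg => h2 g fun x hx => hg x ((hL x).2 ((h1 x).1 hx))
  have hpl : ∀ w : Pr L, ∃ (l : ℕ) (_ : Fact l.Prime) (γ : GQ) (t : ℝ), Pl L w l γ t :=
    DIC_ok.1 L
  let T : Set (Pr L) :=
    {w | ∃ (l : ℕ) (_ : Fact l.Prime) (γ : GQ) (t : ℝ), Pl L w l γ t ∧ nv l γ ∈ B}
  have hA : ∀ (w : Pr L) (l : ℕ) [Fact l.Prime] (γ : GQ) (t : ℝ), Pl L w l γ t →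
      (w ∈ T ↔ nv l γ ∈ B) := by
    intro w l _ γ t h
    refine ⟨?_, fun h' => ⟨l, _, γ, t, h, h'⟩⟩
    rintro ⟨l', _, γ', t', h1, h2⟩
    obtain ⟨-, -, u, hu, e⟩ := (hP2 w l γ t h).1 l' γ' t' h1
    rw [e] at h2
    exact (hB.stb l γ u (hWU (hW u hu))).1 h2
  have key : ∀ (w : Pr L) (l : ℕ) [Fact l.Prime] (γ : GQ) (t : ℝ), Pl L w l γ t → w ∉ T →
      ∀ u : Qb, u ≠ 0 → Fix N u → ∃ k : ℤ, nv l γ u = t ^ k := by
    intro w l _ γ t h hw u hu hN
    exact (hP2 w l γ t h).2.2.2.2.1 u hu fun τ hτ hτL =>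
      hN τ (hOff l γ (fun c => hw ((hA w l γ t h).2 c)) ⟨hτ, hW τ hτL⟩)
  have uniq : ∀ w, w ∉ T → ∀ k k', Rl_WDVS L y w k → Rl_WDVS L y w k' → (k : ZMod p) = k' := by
    rintro w hw k k' ⟨l, _, γ, t, h, e⟩ ⟨l', _, γ', t', h', e'⟩
    obtain ⟨-, rfl, u, hu, e2⟩ := (hP2 w l γ t h).1 l' γ' t' h'
    obtain ⟨β, hβ1, hβ2⟩ := hβ u (hW u hu)
    have hβ0 : β ≠ 0 := by
      rintro rfl
      rw [zero_pow hp.out.ne_zero, zero_mul] at hβ2
      exact (map_ne_zero u).2 hy hβ2.symm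
    obtain ⟨m, hm⟩ := key w l γ t' h hw β hβ0 hβ1
    have ht : (0 : ℝ) < t' := zero_lt_one.trans h.1
    rw [e2, nv_mul, ← hβ2, map_mul, map_pow, hm, e, ← zpow_natCast, ← zpow_mul,
      ← zpow_add₀ ht.ne'] at e'
    have e3 := zpow_right_injective₀ ht h.1.ne' e'
    have e4 : k = k' + m * p := by linarith
    rw [e4]
    simp
  have ex : ∀ w, ∃ k, (w ∈ T → k = 0) ∧ (w ∉ T → Rl_WDVS L y w k) := by
    intro w
    by_cases hw : w ∈ T
    · exact ⟨0, fun _ => rfl, fun c => absurd hw c⟩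
    · obtain ⟨l, _, γ, t, h⟩ := hpl w
      obtain ⟨k, hk⟩ := key w l γ t h hw y hy hNy
      exact ⟨-k, fun c => absurd c hw, fun _ => ⟨l, _, γ, t, h, by rw [neg_neg, hk]⟩⟩
  choose D₀ hD1 hD2 using ex
  have fin : (Function.support D₀).Finite := by
    obtain ⟨m, hm0, hm⟩ := unit_away hy
    refine (ord_finite (m : L)).subset fun w hw => ?_
    intro c
    obtain ⟨l, _, γ, t, h, e⟩ := hD2 w fun c => hw (hD1 w c)
    have h1 := h.2 (m : L) (Nat.cast_ne_zero.2 hm0)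
    rw [c, neg_zero, zpow_zero] at h1
    rw [hm _ (nv_na l γ) (by simpa using h1)] at e
    have ht : (0 : ℝ) < t := zero_lt_one.trans h.1
    have e3 : (0 : ℤ) = -D₀ w := zpow_right_injective₀ ht h.1.ne' ((zpow_zero t).trans e)
    exact hw (by linarith)
  have stab : ∀ w, gact δ' w ∈ T ↔ w ∈ T := by
    intro w
    obtain ⟨l, _, γ, t, h⟩ := hpl w
    rw [hA w l γ t h, hA _ l _ t ((hP2 w l γ t h).2.2.2.1 δ δ' hInd).1]
    exact hB.stb l γ δ⁻¹ (U.inv_mem hδ)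
  have hInd' : Ind δ⁻¹ δ'⁻¹ := fun x => by
    have h1 := hInd (δ'⁻¹ x)
    rw [← AlgEquiv.mul_apply, mul_inv_cancel, AlgEquiv.one_apply] at h1
    rw [h1, ← AlgEquiv.mul_apply, inv_mul_cancel, AlgEquiv.one_apply]
  have hx0 : x ≠ 0 := by
    rintro rfl
    rw [zero_pow hp.out.ne_zero, mul_zero] at hrel
    exact (map_ne_zero δ).2 hy hrel
  obtain ⟨a₁, rfl⟩ : ∃ a₁ : L, (a₁ : Qb) = a₀ := ⟨⟨a₀, (hL a₀).2 hWa⟩, rfl⟩
  have ha0' : a₁ ≠ 0 := fun c => ha₀ (by rw [c]; rfl)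
  have atp : ∀ w : Pr L, (p : 𝓞 L) ∈ w.asIdeal → w ∈ T := by
    intro w hw
    obtain ⟨l, _, γ, t, h⟩ := hpl w
    obtain rfl := ((hP2 w l γ t h).2.2.1 p hp.out).1 hw
    exact (hA w p γ t h).2 (hB.atp γ)
  have eig : ∀ w, w ∉ T → (D₀ (gact δ'⁻¹ w) : ZMod p) = n * D₀ w + ord w a₁ := by
    intro w hw
    have hw' : gact δ'⁻¹ w ∉ T := by
      rw [← stab, ← gact_mul, mul_inv_cancel, gact_one]
      exact hw
    obtain ⟨l, _, γ, t, h, e⟩ := hD2 w hw
    obtain ⟨m, hm⟩ := key w l γ t h hw x hx0 hNx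
    have ht : (0 : ℝ) < t := zero_lt_one.trans h.1
    have h1 := ((hP2 w l γ t h).2.2.2.1 δ⁻¹ δ'⁻¹ hInd').1
    have h2 : nv l (γ * δ⁻¹⁻¹) y = t ^ (-(n * D₀ w + ord w a₁ - m * p)) := by
      rw [inv_inv, nv_mul, hrel, map_mul, map_mul, map_pow, map_pow, h.2 _ ha0', e, hm,
        ← zpow_natCast, ← zpow_natCast, ← zpow_mul, ← zpow_mul, ← zpow_add₀ ht.ne',
        ← zpow_add₀ ht.ne']
      exact congrArg (fun j : ℤ => t ^ j) (by ring)
    rw [uniq _ hw' _ _ (hD2 _ hw') ⟨l, _, _, t, h1, h2⟩]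
    simp
  obtain ⟨a, ha, hord⟩ := hEIG p L δ' n T (Finsupp.ofSupportFinite D₀ fin) a₁ hδp hn hCG atp stab
    ha0' eig
  simp only [Finsupp.ofSupportFinite_coe] at hord
  have ha' : (a : Qb) ≠ 0 := fun c => ha (Subtype.ext c)
  obtain ⟨z, hz⟩ := IsAlgClosed.exists_pow_nat_eq (y * (a : Qb)⁻¹) hp.out.pos
  have hWa' : Fix W (a : Qb)⁻¹ := (hL _).1 (L.inv_mem a.2)
  refine ⟨(a : Qb)⁻¹, z, inv_ne_zero ha', hWa', hz, fun l _ γ hγ τ hτ => ?_⟩
  obtain ⟨w, t, h⟩ := hP1 l γ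
  have hw : w ∉ T := fun c => hγ ((hA w l γ t h).1 c)
  have ht : (0 : ℝ) < t := zero_lt_one.trans h.1
  obtain ⟨k, hk⟩ := key w l γ t h hw y hy hNy
  have h1 := (uniq w hw (-k) _ ⟨l, _, γ, t, h, by rw [neg_neg, hk]⟩ (hD2 w hw)).trans (hord w hw)
  obtain ⟨m, hm⟩ := (ZMod.intCast_eq_intCast_iff_dvd_sub _ _ _).1 h1
  obtain ⟨π, hπ0, hπ⟩ := exists_ord_eq_one w
  have hπ1 : (π : L) ≠ 0 := RingOfIntegers.coe_ne_zero_iff.2 hπ0
  have hz0 : z ≠ 0 := by
    rintro rfl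
    rw [zero_pow hp.out.ne_zero] at hz
    exact mul_ne_zero hy (inv_ne_zero ha') hz.symm
  have hlp : ¬ (l : ℤ) ∣ (p : ℤ) := fun c => by
    obtain rfl := (Nat.prime_dvd_prime_iff_eq Fact.out hp.out).1 (Int.natCast_dvd_natCast.1 c)
    exact hγ (hB.atp γ)
  have hvp : nv l γ (p : Qb) = 1 := by
    simpa using v_coprime (nv_na l γ) Fact.out (nv_lt l γ) hlp
  refine fix_WDVS (nv_na l γ) hτ.1 (x := (((π : L) ^ (-m) : L) : Qb)) hvp hz0 ?_
    ((hL _).1 ((π : L) ^ (-m)).2 τ hτ.2) ?_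
  · rw [hz, map_mul, hNy τ (hOff l γ hγ hτ), hWa' τ hτ.2]
  · rw [h.2 _ (zpow_ne_zero _ hπ1), ord_zpow, hπ, mul_one, neg_neg]
    refine (pow_left_inj₀ (zpow_pos ht _).le ((nv l γ).nonneg _) hp.out.ne_zero).1 ?_
    rw [← map_pow, hz, map_mul, map_inv₀, hk, h.2 a ha, ← zpow_neg, neg_neg, ← zpow_add₀ ht.ne',
      ← zpow_natCast, ← zpow_mul]
    exact congrArg (fun j : ℤ => t ^ j) (by linarith)

end Pool.Agent.MP_3e91a1_nt

end

section

set_option autoImplicit false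

open NumberField IsDedekindDomain Module Filter Topology Finset Polynomial
open scoped Classical

namespace Pool.Agent.MP_3e91a1_nt

open MP_e23604_nt MP_e23604_nt.B MP_e23604_nt.R MP_f3cd89_nt

theorem cen_WMEM (P : Ideal (𝓞 Qb)) [hP : P.IsMaximal] :
    ∃ (l : ℕ) (_ : Fact l.Prime) (γ : GQ), P = cen l γ := by
  have h1 : (P.comap (algebraMap ℤ (𝓞 Qb))).IsMaximal :=
    Ideal.isMaximal_comap_of_isIntegral_of_isMaximal P
  have h2 : P.comap (algebraMap ℤ (𝓞 Qb)) ≠ ⊥ :=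
    Ring.ne_bot_of_isMaximal_of_not_isField h1 Int.not_isField
  obtain ⟨a, ha⟩ := (IsPrincipalIdealRing.principal (P.comap (algebraMap ℤ (𝓞 Qb)))).principal
  have ha' : P.comap (algebraMap ℤ (𝓞 Qb)) = Ideal.span {a} := ha
  have h0 : a ≠ 0 := by
    rintro rfl
    exact h2 (by rw [ha', Ideal.span_singleton_eq_bot])
  have h3 : Prime a := (Ideal.span_singleton_prime h0).1 (ha' ▸ h1.isPrime)
  have h4 : a.natAbs.Prime := Int.prime_iff_natAbs_prime.1 h3
  have : Fact a.natAbs.Prime := ⟨h4⟩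
  have h5 : ((a.natAbs : ℤ)) ∈ P.comap (algebraMap ℤ (𝓞 Qb)) := by
    rw [ha', Ideal.mem_span_singleton]
    exact Int.dvd_natAbs.2 dvd_rfl
  rw [Ideal.mem_comap, map_natCast] at h5
  obtain ⟨γ, hγ⟩ := exists_cen a.natAbs P h5
  exact ⟨a.natAbs, inferInstance, γ, hγ⟩

theorem res_mem_WMEM (K : IntermediateField ℚ Qb) (σ : Qb ≃ₐ[K] Qb) :
    σ.restrictScalars ℚ ∈ K.fixingSubgroup :=
  (IntermediateField.mem_fixingSubgroup_iff _ _).2 fun x hx => σ.commutes ⟨x, hx⟩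

theorem mem_WMEM (K : IntermediateField ℚ Qb) (S : Set (Pr K)) (x : Qb) : x ∈ maxUnr K S ↔
    ∀ (l : ℕ) [Fact l.Prime] (γ : GQ), (∀ v ∈ S, (cen l γ).under (𝓞 K) ≠ v.asIdeal) →
      Fix (Ine l γ ⊓ K.fixingSubgroup) x := by
  unfold maxUnr
  rw [IntermediateField.mem_fixedField_iff]
  refine ⟨fun h l _ γ hS g hg => ?_, fun h => ?_⟩
  · refine h (K.fixingSubgroupEquiv ⟨g, hg.2⟩) ?_
    refine Subgroup.mem_iSup_of_mem (cen l γ) (Subgroup.mem_iSup_of_mem (cen_max l γ)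
      (Subgroup.mem_iSup_of_mem hS ?_))
    exact fun y => ine_iff.1 hg.1 y
  · intro σ hσ
    refine (show _ ≤ MulAction.stabilizer (Qb ≃ₐ[K] Qb) x from
      iSup_le fun P => iSup_le fun hP => iSup_le fun hS τ hτ => ?_) hσ
    obtain ⟨l, _, γ, rfl⟩ := cen_WMEM P (hP := hP)
    exact h l γ hS (τ.restrictScalars ℚ) ⟨ine_iff.2 fun y => hτ y, res_mem_WMEM K τ⟩

theorem under_WMEM (K : IntermediateField ℚ Qb) (l : ℕ) [Fact l.Prime] (γ : GQ) {g : GQ}
    (hg : g ∈ K.fixingSubgroup) : (cen l (γ * g)).under (𝓞 K) = (cen l γ).under (𝓞 K) := by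
  ext y
  change nv l (γ * g) ((y : K) : Qb) < 1 ↔ nv l γ ((y : K) : Qb) < 1
  rw [nv_mul, (IntermediateField.mem_fixingSubgroup_iff _ _).1 hg _ (y : K).2]

theorem MEM_pf : MEM_st := by
  intro K S
  refine ⟨?_, mem_WMEM K S⟩
  have hn : Normal K (maxUnr K S) := by
    rw [IntermediateField.normal_iff_forall_map_le']
    rintro σ _ ⟨x, hx, rfl⟩
    have hg := res_mem_WMEM K σ
    refine (mem_WMEM K S _).2 fun l _ γ hS τ hτ => ?_
    have h1 := (mem_WMEM K S x).1 hx l (γ * σ.restrictScalars ℚ)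
      (by rwa [under_WMEM K l γ hg]) ((σ.restrictScalars ℚ)⁻¹ * τ * σ.restrictScalars ℚ)
      ⟨(mem_Ine_conj l γ _ _).2 (by simpa [mul_assoc] using hτ.1),
        K.fixingSubgroup.mul_mem
          (K.fixingSubgroup.mul_mem (K.fixingSubgroup.inv_mem hg) hτ.2) hg⟩
    have h2 := congrArg (σ.restrictScalars ℚ) h1
    rw [← AlgEquiv.mul_apply, ← mul_assoc, mul_inv_cancel_left, AlgEquiv.mul_apply] at h2
    exact h2
  exact {}

/-- the restriction map, extended by one -/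
noncomputable def pi_WMEM (K : IntermediateField ℚ Qb) (S : Set (Pr K)) [Normal K (maxUnr K S)]
    (g : GQ) : GalS K S :=
  if h : g ∈ K.fixingSubgroup then
    AlgEquiv.restrictNormalHom (maxUnr K S) (K.fixingSubgroupEquiv ⟨g, h⟩) else 1

theorem pi_of_WMEM (K : IntermediateField ℚ Qb) (S : Set (Pr K)) [Normal K (maxUnr K S)]
    {g : GQ} (h : g ∈ K.fixingSubgroup) : pi_WMEM K S g =
      AlgEquiv.restrictNormalHom (maxUnr K S) (K.fixingSubgroupEquiv ⟨g, h⟩) := dif_pos h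

theorem pi_res_WMEM (K : IntermediateField ℚ Qb) (S : Set (Pr K)) [Normal K (maxUnr K S)]
    (σ : Qb ≃ₐ[K] Qb) :
    pi_WMEM K S (σ.restrictScalars ℚ) = AlgEquiv.restrictNormalHom (maxUnr K S) σ := by
  rw [pi_of_WMEM K S (res_mem_WMEM K σ)]
  rfl

theorem act_WMEM (K : IntermediateField ℚ Qb) (S : Set (Pr K)) [Normal K (maxUnr K S)]
    {g : GQ} (h : g ∈ K.fixingSubgroup) (x : maxUnr K S) : (pi_WMEM K S g x : Qb) = g x := by
  rw [pi_of_WMEM K S h, AlgEquiv.restrictNormalHom_apply]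
  rfl

theorem GAL_pf (hMEM : MEM_st) (hRES : RES_st) : GAL_st := by
  intro K _ S
  obtain ⟨hG, hm⟩ := hMEM K S
  have hU : IsOpen (K.fixingSubgroup : Set GQ) := K.fixingSubgroup_isOpen
  refine ⟨pi_WMEM K S, fun g hg h hh => ?_, fun g hg => act_WMEM K S hg, fun y => ?_,
    fun W hW => ?_, fun N hN => ?_, fun l _ γ hS g hg => ?_, fun N hN hI g hg h1 => ?_⟩
  · rw [pi_of_WMEM K S hg, pi_of_WMEM K S hh, pi_of_WMEM K S (mul_mem hg hh), ← map_mul,
      ← map_mul]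
    rfl
  · obtain ⟨σ, rfl⟩ := AlgEquiv.restrictNormalHom_surjective (F := K) (K₁ := maxUnr K S) Qb y
    exact ⟨_, res_mem_WMEM K σ, pi_res_WMEM K S σ⟩
  · have h1 := (hW.preimage (InfiniteGalois.restrictNormalHom_continuous (maxUnr K S))).mem_nhds
      (x := 1) (by simp)
    obtain ⟨E, hE, h2⟩ := (krullTopology_mem_nhds_one_iff _ _ _).1 h1
    let N : Subgroup GQ := ((W.comap (AlgEquiv.restrictNormalHom (maxUnr K S))).comap
      K.fixingSubgroupEquiv.toMonoidHom).map K.fixingSubgroup.subtype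
    have hN : ∀ g, g ∈ N ↔ g ∈ K.fixingSubgroup ∧ pi_WMEM K S g ∈ W := by
      intro g
      constructor
      · rintro ⟨⟨g, hg⟩, h3, rfl⟩
        exact ⟨hg, by rw [Subgroup.subtype_apply, pi_of_WMEM K S hg]; exact h3⟩
      · rintro ⟨hg, h3⟩
        rw [pi_of_WMEM K S hg] at h3
        exact ⟨⟨g, hg⟩, h3, rfl⟩
    have : FiniteDimensional ℚ (E.restrictScalars ℚ) :=
      (Module.Finite.trans K E : FiniteDimensional ℚ E)
    refine ⟨N, Subgroup.isOpen_mono (fun g hg => ?_) (E.restrictScalars ℚ).fixingSubgroup_isOpen,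
      hN⟩
    rw [IntermediateField.mem_fixingSubgroup_iff] at hg
    have h3 : g ∈ K.fixingSubgroup := (IntermediateField.mem_fixingSubgroup_iff _ _).2
      fun x hx => hg x (E.algebraMap_mem ⟨x, hx⟩)
    refine (hN g).2 ⟨h3, ?_⟩
    rw [pi_of_WMEM K S h3]
    exact h2 ((IntermediateField.mem_fixingSubgroup_iff _ _).2 hg)
  · obtain ⟨L, _, h1, h2, -⟩ := hRES (N ⊓ K.fixingSubgroup) (hN.inter hU)
    have hKL : K ≤ L := fun x hx => (h1 x).2 fun g hg =>
      (IntermediateField.mem_fixingSubgroup_iff _ _).1 hg.2 x hx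
    let E : IntermediateField K Qb := IntermediateField.extendScalars hKL
    have : FiniteDimensional ℚ E := (inferInstance : FiniteDimensional ℚ L)
    have : FiniteDimensional K E := Module.Finite.of_restrictScalars_finite ℚ K E
    have h3 : IsOpen (E.fixingSubgroup : Set (Qb ≃ₐ[K] Qb)) := E.fixingSubgroup_isOpen
    have hs := AlgEquiv.restrictNormalHom_surjective (F := K) (K₁ := maxUnr K S) Qb
    have : Finite ((Qb ≃ₐ[K] Qb) ⧸ E.fixingSubgroup) :=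
      Subgroup.quotient_finite_of_isOpen _ h3
    have : E.fixingSubgroup.FiniteIndex := Subgroup.finiteIndex_of_finite_quotient
    have : (E.fixingSubgroup.map (AlgEquiv.restrictNormalHom (maxUnr K S))).FiniteIndex :=
      ⟨ne_zero_of_dvd_ne_zero Subgroup.FiniteIndex.index_ne_zero
        (Subgroup.index_map_dvd E.fixingSubgroup hs)⟩
    refine ⟨E.fixingSubgroup.map (AlgEquiv.restrictNormalHom (maxUnr K S)),
      Subgroup.isOpen_of_isClosed_of_finiteIndex _ ?_, ?_⟩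
    · exact ((E.fixingSubgroup.isClosed_of_isOpen h3).isCompact.image
        (InfiniteGalois.restrictNormalHom_continuous (maxUnr K S))).isClosed
    · rintro _ ⟨σ, hσ, rfl⟩
      exact ⟨_, h2 _ ((IntermediateField.mem_fixingSubgroup_iff _ _).1 hσ), pi_res_WMEM K S σ⟩
  · ext x
    rw [act_WMEM K S hg.2]
    exact (hm x).1 x.2 l γ hS g hg
  · obtain ⟨L, _, h2, h3, -⟩ := hRES (N ⊓ K.fixingSubgroup) (hN.inter hU)
    refine (h3 g fun x hx => ?_).1
    have h4 : x ∈ maxUnr K S :=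
      (hm x).2 fun l _ γ hS τ hτ => (h2 x).1 hx τ ⟨hI l γ hS hτ, hτ.2⟩
    have h5 := act_WMEM K S hg ⟨x, h4⟩
    rw [h1] at h5
    exact h5.symm

end Pool.Agent.MP_3e91a1_nt

end

section

set_option autoImplicit false

open NumberField IsDedekindDomain Module Filter Topology Finset Polynomial
open scoped Classical

namespace Pool.Agent.MP_3e91a1_nt

open MP_e23604_nt MP_e23604_nt.B MP_e23604_nt.R MP_f3cd89_nt

theorem gen_WQUAD (K : Type) [Field K] [Algebra ℚ K] [IsTotallyComplex K] (h : finrank ℚ K = 2) :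
    ∃ (r : ℚ) (s : K), r < 0 ∧ s ^ 2 = algebraMap ℚ K r ∧
      ∀ z : K, ∃ u v : ℚ, z = algebraMap ℚ K u + algebraMap ℚ K v * s := by
  have : FiniteDimensional ℚ K := FiniteDimensional.of_finrank_pos (by omega)
  obtain ⟨x, hx⟩ := exists_linearIndependent_pair_of_one_lt_finrank (R := ℚ) (M := K) (by omega)
    (one_ne_zero (α := K))
  have h1 : ∀ z : K, ∃ u v : ℚ, z = algebraMap ℚ K u + algebraMap ℚ K v * x := fun z => by
    have h2 : z ∈ Submodule.span ℚ (Set.range ![1, x]) := by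
      rw [hx.span_eq_top_of_card_eq_finrank (by simp [h])]
      trivial
    rw [Matrix.range_cons_cons_empty, Submodule.mem_span_pair] at h2
    obtain ⟨u, v, e⟩ := h2
    exact ⟨u, v, by rw [← e, Algebra.smul_def, Algebra.smul_def, mul_one]⟩
  obtain ⟨u, v, e⟩ := h1 (x ^ 2)
  have h2 : algebraMap ℚ K 2⁻¹ * 2 = 1 := by
    rw [← map_ofNat (algebraMap ℚ K) 2, ← map_mul]
    norm_num
  have h3 : (2 * x - algebraMap ℚ K v) ^ 2 = algebraMap ℚ K (4 * u + v ^ 2) := by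
    rw [map_add, map_mul, map_pow, map_ofNat]
    linear_combination 4 * e
  have h4 : ∀ z : K, ∃ a b : ℚ,
      z = algebraMap ℚ K a + algebraMap ℚ K b * (2 * x - algebraMap ℚ K v) := fun z => by
    obtain ⟨a, b, rfl⟩ := h1 z
    refine ⟨a + b * 2⁻¹ * v, b * 2⁻¹, ?_⟩
    simp only [map_add, map_mul]
    linear_combination -(algebraMap ℚ K b * x) * h2
  refine ⟨_, _, not_le.1 fun hr => ?_, h3, h4⟩
  let φ : K →+* ℂ := (IsAlgClosed.lift (R := ℚ) (S := K) (M := ℂ)).toRingHom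
  have hφ : ∀ a : ℚ, φ (algebraMap ℚ K a) = (a : ℝ) := fun a => by
    rw [Complex.ofReal_ratCast]
    exact (IsAlgClosed.lift (R := ℚ) (S := K) (M := ℂ)).commutes a
  refine InfinitePlace.isComplex_mk_iff.1 (IsTotallyComplex.isComplex (InfinitePlace.mk φ)) ?_
  rw [ComplexEmbedding.isReal_iff]
  have h5 := congrArg φ h3
  rw [map_pow, hφ] at h5
  have h6 : (φ (2 * x - algebraMap ℚ K v)).im = 0 := by
    have a1 := congrArg Complex.re h5
    have a2 := congrArg Complex.im h5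
    have a3 : (0 : ℝ) ≤ ((4 * u + v ^ 2 : ℚ) : ℝ) := by exact_mod_cast hr
    rw [pow_two, Complex.mul_re, Complex.ofReal_re] at a1
    rw [pow_two, Complex.mul_im, Complex.ofReal_im] at a2
    by_contra hc
    have a4 : (φ (2 * x - algebraMap ℚ K v)).re = 0 :=
      mul_right_cancel₀ hc (by linarith)
    rw [a4] at a1
    nlinarith [mul_self_pos.2 hc]
  ext z
  obtain ⟨a, b, rfl⟩ := h4 z
  rw [ComplexEmbedding.conjugate_coe_eq, Complex.conj_eq_iff_im, map_add, map_mul, hφ, hφ,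
    Complex.add_im, Complex.im_ofReal_mul, h6, Complex.ofReal_im, mul_zero, add_zero]

theorem QUAD_pf : QUAD_st := by
  intro K₀ _ h
  obtain ⟨r, s, hr, hs, hz⟩ := gen_WQUAD K₀ h
  have hd : (r.den : Qb) ≠ 0 := Nat.cast_ne_zero.2 r.den_nz
  have h1 : 0 < -r.num * r.den :=
    mul_pos (neg_pos.2 (Rat.num_neg.2 hr)) (Int.natCast_pos.2 r.den_pos)
  have h2 : (s : Qb) ^ 2 = r := congrArg Subtype.val hs
  refine ⟨(-r.num * r.den).toNat, r.den * s, by omega, ?_, ?_⟩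
  · have h3 : (((-r.num * r.den).toNat : ℕ) : Qb) = -r.num * r.den := by
      rw [← Int.cast_natCast, Int.toNat_of_nonneg h1.le]
      push_cast
      rfl
    rw [h3, mul_pow, h2, Rat.cast_def]
    field_simp
  · ext g
    rw [IntermediateField.mem_fixingSubgroup_iff, MulAction.mem_stabilizer_iff,
      AlgEquiv.smul_def, map_mul, map_natCast, mul_right_inj' hd]
    refine ⟨fun e => e _ s.2, fun e z hz' => ?_⟩
    obtain ⟨u, v, e1⟩ := hz ⟨z, hz'⟩
    have e2 : z = algebraMap ℚ Qb u + algebraMap ℚ Qb v * s := congrArg Subtype.val e1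
    rw [e2, map_add, map_mul, AlgEquiv.commutes, AlgEquiv.commutes, e]

end Pool.Agent.MP_3e91a1_nt

end

section

set_option autoImplicit false

open NumberField IsDedekindDomain Module Filter Topology Finset Polynomial
open scoped Classical

namespace Pool.Agent.MP_3e91a1_nt

open MP_e23604_nt MP_e23604_nt.B MP_e23604_nt.R MP_f3cd89_nt

theorem ne_WLIP (x : ℝ) (hx : ∀ m : ℤ, x ≠ m) (m : ℤ) : (m : ℝ) + x ≠ 0 := by
  intro h
  apply hx (-m)
  push_cast
  linarith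

theorem bound_WLIP (n : ℕ) (x : ℝ) (hx : ∀ m : ℤ, x ≠ m) (m : ℤ) (y : ℝ) :
    ‖1 / (((x : ℂ) + y * Complex.I) + m) ^ (n + 1)‖ ≤ 1 / |(m : ℝ) + x| ^ ((n + 1 : ℕ) : ℝ) := by
  have h0 : 0 < |(m : ℝ) + x| := abs_pos.mpr (ne_WLIP x hx m)
  have h1 : |(m : ℝ) + x| ≤ ‖((x : ℂ) + y * Complex.I) + m‖ := by
    have h2 := Complex.abs_re_le_norm (((x : ℂ) + y * Complex.I) + m)
    have h3 : (((x : ℂ) + y * Complex.I) + m).re = (m : ℝ) + x := by
      simp [add_comm]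
    rwa [h3] at h2
  rw [norm_div, norm_one, norm_pow, Real.rpow_natCast]
  exact one_div_le_one_div_of_le (pow_pos h0 _) (pow_le_pow_left₀ h0.le h1 _)

theorem summ_WLIP (n : ℕ) (hn : 0 < n) (x : ℝ) :
    Summable (fun m : ℤ => 1 / |(m : ℝ) + x| ^ ((n + 1 : ℕ) : ℝ)) := by
  rw [Real.summable_one_div_int_add_rpow]
  exact_mod_cast Nat.succ_lt_succ hn

theorem cont_WLIP (n : ℕ) (hn : 0 < n) (x : ℝ) (hx : ∀ m : ℤ, x ≠ m) :
    Continuous (fun y : ℝ => ∑' m : ℤ, 1 / (((x : ℂ) + y * Complex.I) + m) ^ (n + 1)) := by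
  refine continuous_tsum (fun m => ?_) (summ_WLIP n hn x) (fun m y => bound_WLIP n x hx m y)
  refine Continuous.div continuous_const (by fun_prop) (fun y => pow_ne_zero _ ?_)
  intro h
  have h3 : (((x : ℂ) + y * Complex.I) + m).re = (m : ℝ) + x := by
    simp [add_comm]
  rw [h] at h3
  exact ne_WLIP x hx m (by simpa using h3.symm)

theorem exp_ne_WLIP (x : ℝ) (hx : ∀ m : ℤ, x ≠ m) :
    1 - Complex.exp (2 * Real.pi * Complex.I * x) ≠ 0 := by
  intro h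
  have h1 : Complex.exp (2 * Real.pi * Complex.I * x) = 1 := (sub_eq_zero.mp h).symm
  obtain ⟨m, hm⟩ := Complex.exp_eq_one_iff.mp h1
  apply hx m
  have h2 : (2 * Real.pi * Complex.I : ℂ) ≠ 0 := Complex.two_pi_I_ne_zero
  have h3 : (x : ℂ) = m := by
    apply mul_left_cancel₀ h2
    rw [hm]; ring
  exact_mod_cast h3

theorem LIP_pf (hGEO : GEO_st) : LIP_st := by
  intro n hn
  refine ⟨(-2 * Real.pi * Complex.I) ^ (n + 1) / (n.factorial : ℂ), ?_, fun x hx => ?_⟩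
  · refine div_ne_zero (pow_ne_zero _ ?_) (by exact_mod_cast n.factorial_ne_zero)
    have h2 : (2 * Real.pi * Complex.I : ℂ) ≠ 0 := Complex.two_pi_I_ne_zero
    intro h
    apply h2
    linear_combination -h
  set C : ℂ := (-2 * Real.pi * Complex.I) ^ (n + 1) / (n.factorial : ℂ) with hC
  let F : ℝ → ℂ := fun y => ∑' m : ℤ, 1 / (((x : ℂ) + y * Complex.I) + m) ^ (n + 1)
  let e : ℝ → ℂ := fun y => Complex.exp (2 * Real.pi * Complex.I * ((x : ℂ) + y * Complex.I))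
  let G : ℝ → ℂ := fun y => C * aeval (e y / (1 - e y)) (Qp n)
  have he0 : e 0 = Complex.exp (2 * Real.pi * Complex.I * x) := by simp [e]
  have hF : Continuous F := cont_WLIP n hn x hx
  have he : Continuous e := by fun_prop
  have hG : ContinuousAt G 0 := by
    refine continuousAt_const.mul ?_
    refine ((Qp n).continuous_aeval (A := ℂ)).continuousAt.comp' ?_
    refine he.continuousAt.div (continuousAt_const.sub he.continuousAt) ?_
    rw [he0]
    exact exp_ne_WLIP x hx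
  have hFG : ∀ y : ℝ, 0 < y → F y = G y := by
    intro y hy
    let z : UpperHalfPlane := ⟨(x : ℂ) + y * Complex.I, by simpa using hy⟩
    have h1 := EisensteinSeries.qExpansion_identity (k := n) hn z
    have h2 := (hGEO n _ (UpperHalfPlane.norm_exp_two_pi_I_lt_one z) hn).tsum_eq
    rw [h2] at h1
    exact h1
  have h0 : F 0 = G 0 := by
    have h1 : Tendsto F (𝓝[>] (0 : ℝ)) (𝓝 (F 0)) :=
      (hF.tendsto 0).mono_left nhdsWithin_le_nhds
    have h2 : Tendsto G (𝓝[>] (0 : ℝ)) (𝓝 (G 0)) := hG.tendsto.mono_left nhdsWithin_le_nhds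
    refine tendsto_nhds_unique h1 (h2.congr' ?_)
    filter_upwards [self_mem_nhdsWithin] with y hy
    exact (hFG y hy).symm
  have hs : Summable (fun m : ℤ => 1 / (((x : ℂ) + (0 : ℝ) * Complex.I) + m) ^ (n + 1)) :=
    (summ_WLIP n hn x).of_norm_bounded (fun m => bound_WLIP n x hx m 0)
  have h3 := hs.hasSum
  have h4 : (∑' m : ℤ, 1 / (((x : ℂ) + (0 : ℝ) * Complex.I) + m) ^ (n + 1)) = G 0 := h0
  rw [h4] at h3
  simp only [G, he0, Complex.ofReal_zero, zero_mul, add_zero] at h3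
  exact h3

theorem piece_WLIP (d n : ℕ) (χ : MulChar (ZMod d) ℤ) (hd : 2 < d) (C : ℂ)
    (hC : ∀ x : ℝ, (∀ m : ℤ, x ≠ m) → HasSum (fun m : ℤ => 1 / ((x : ℂ) + m) ^ (n + 1))
      (C * aeval (Complex.exp (2 * Real.pi * Complex.I * x) /
        (1 - Complex.exp (2 * Real.pi * Complex.I * x))) (Qp n)))
    (a : ℕ) (ha : a < d) :
    HasSum (fun N : ℤ => if N % d = a then ((χ N : ℤ) : ℂ) / (N : ℂ) ^ (n + 1) else 0)
      (C / (d : ℂ) ^ (n + 1) * (((χ a : ℤ) : ℂ) *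
        aeval (Complex.exp (2 * Real.pi * Complex.I / d) ^ a /
          (1 - Complex.exp (2 * Real.pi * Complex.I / d) ^ a)) (Qp n))) := by
  have hd0 : (d : ℂ) ≠ 0 := by exact_mod_cast (by omega : d ≠ 0)
  have hdR : (0 : ℝ) < d := by exact_mod_cast (by omega : 0 < d)
  have hinj : Function.Injective (fun m : ℤ => (a : ℤ) + d * m) := by
    intro m m' h
    have h' : (d : ℤ) * m = d * m' := add_left_cancel h
    exact mul_left_cancel₀ (by exact_mod_cast (by omega : d ≠ 0)) h'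
  rw [← hinj.hasSum_iff]
  swap
  · intro N hN
    rw [if_neg]
    intro h
    exact hN ⟨N / d, by rw [← h]; exact Int.emod_add_mul_ediv N d⟩
  have hfun : ((fun N : ℤ => if N % d = a then ((χ N : ℤ) : ℂ) / (N : ℂ) ^ (n + 1) else 0) ∘
      fun m : ℤ => (a : ℤ) + d * m) =
      fun m : ℤ => ((χ a : ℤ) : ℂ) / ((a : ℂ) + d * m) ^ (n + 1) := by
    funext m
    have h1 : ((a : ℤ) + d * m) % d = a := by
      rw [Int.add_mul_emod_self_left]
      exact Int.emod_eq_of_lt (by omega) (by exact_mod_cast ha)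
    simp only [Function.comp, h1, if_true]
    push_cast
    simp
  rw [hfun]
  rcases Nat.eq_zero_or_pos a with rfl | ha0
  · have : Fact (1 < d) := ⟨by omega⟩
    have h0 : χ ((0 : ℕ) : ZMod d) = 0 := by
      rw [Nat.cast_zero]; exact χ.map_zero
    rw [h0]
    simp
  have hx : ∀ m : ℤ, ((a : ℝ) / d) ≠ m := by
    intro m hm
    have h1 : (0 : ℝ) < (a : ℝ) / d := div_pos (by exact_mod_cast ha0) hdR
    have h2 : (a : ℝ) / d < 1 := (div_lt_one hdR).mpr (by exact_mod_cast ha)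
    rw [hm] at h1 h2
    have h3 : (0 : ℤ) < m := by exact_mod_cast h1
    have h4 : m < (1 : ℤ) := by exact_mod_cast h2
    omega
  have h := (hC _ hx).mul_left (((χ a : ℤ) : ℂ) / (d : ℂ) ^ (n + 1))
  have he : Complex.exp (2 * Real.pi * Complex.I * (((a : ℝ) / d : ℝ) : ℂ)) =
      Complex.exp (2 * Real.pi * Complex.I / d) ^ a := by
    rw [← Complex.exp_nat_mul]
    congr 1
    push_cast
    ring
  rw [he] at h
  have hl : (fun m : ℤ => ((χ a : ℤ) : ℂ) / ((a : ℂ) + d * m) ^ (n + 1)) =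
      fun m : ℤ => ((χ a : ℤ) : ℂ) / (d : ℂ) ^ (n + 1) *
        (1 / ((((a : ℝ) / d : ℝ) : ℂ) + m) ^ (n + 1)) := by
    funext m
    have h1 : ((a : ℂ) + d * m) = d * ((((a : ℝ) / d : ℝ) : ℂ) + m) := by
      push_cast
      field_simp
    rw [h1, mul_pow, mul_one_div, div_div]
  rw [hl, div_mul_eq_mul_div, mul_left_comm, ← div_mul_eq_mul_div]
  exact h

theorem NZ_pf (hLIP : LIP_st) : NZ_st := by
  intro d n χ hd hχ hn hev
  obtain ⟨C, hC0, hC⟩ := hLIP n hn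
  refine ⟨Complex.exp (2 * Real.pi * Complex.I / d), Complex.isPrimitiveRoot_exp d (by omega), ?_⟩
  intro hT
  have : Fact (1 < d) := ⟨by omega⟩
  have h1 := hasSum_sum (s := range d)
    (fun a ha => piece_WLIP d n χ hd C hC a (mem_range.mp ha))
  rw [← mul_sum] at h1
  have h2 : ∑ a ∈ range d, (((χ a : ℤ) : ℂ) *
        aeval (Complex.exp (2 * Real.pi * Complex.I / d) ^ a /
          (1 - Complex.exp (2 * Real.pi * Complex.I / d) ^ a)) (Qp n)) = 0 := hT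
  rw [h2, mul_zero] at h1
  have h3 : (fun N : ℤ => ∑ a ∈ range d,
      if N % d = (a : ℕ) then ((χ N : ℤ) : ℂ) / (N : ℂ) ^ (n + 1) else 0) =
      fun N : ℤ => ((χ N : ℤ) : ℂ) / (N : ℂ) ^ (n + 1) := by
    funext N
    have hd0 : (0 : ℤ) < d := by exact_mod_cast (by omega : 0 < d)
    have h4 : 0 ≤ N % d := Int.emod_nonneg N hd0.ne'
    have h5 : N % d < d := Int.emod_lt_of_pos N hd0
    rw [sum_eq_single (N % d).toNat]
    · rw [if_pos (by omega)]
    · intro b _ hb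
      rw [if_neg (by omega)]
    · intro hb
      exact absurd (mem_range.mpr (by omega)) hb
  rw [h3] at h1
  have h4 := h1.nat_add_neg
  let ψ : DirichletCharacter ℂ d := χ.ringHomComp (Int.castRingHom ℂ)
  have hre : 1 < ((n + 1 : ℕ) : ℂ).re := by
    rw [Complex.natCast_re]
    exact_mod_cast Nat.succ_lt_succ hn
  apply ψ.LSeries_ne_zero_of_one_lt_re hre
  have h5 : (fun k : ℕ => ((χ ((k : ℤ) : ZMod d) : ℤ) : ℂ) / (((k : ℤ)) : ℂ) ^ (n + 1) +
      ((χ ((-k : ℤ) : ZMod d) : ℤ) : ℂ) / (((-k : ℤ)) : ℂ) ^ (n + 1)) =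
      fun k : ℕ => 2 * LSeries.term (fun k : ℕ => ψ k) ((n + 1 : ℕ) : ℂ) k := by
    funext k
    have h6 : χ ((-k : ℤ) : ZMod d) = -χ (k : ZMod d) := by
      push_cast
      rw [← neg_one_mul, map_mul, hχ]
      ring
    rw [h6, LSeries.term_def₀ (by rw [Nat.cast_zero]; exact ψ.map_zero), Complex.cpow_neg, Complex.cpow_natCast]
    push_cast
    rw [(hev.add_one).neg_pow]
    simp only [ψ, MulChar.ringHomComp_apply, eq_intCast]
    rw [neg_div_neg_eq]
    ring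
  rw [h5] at h4
  have h6 := (h4.mul_left (1 / 2)).tsum_eq
  simpa [LSeries, ← mul_assoc] using h6

end Pool.Agent.MP_3e91a1_nt

end

section

set_option autoImplicit false

open NumberField IsDedekindDomain Module Filter Topology Finset Polynomial
open scoped Classical

namespace Pool.Agent.MP_3e91a1_nt

open MP_e23604_nt MP_e23604_nt.B MP_e23604_nt.R MP_f3cd89_nt

theorem norm_WONE {p : ℕ} [Fact p.Prime] (x : PadicAlgCl p) (w : ZMod p) (e : ℕ)
    (h : ‖x - (w.val : PadicAlgCl p) ^ e‖ < 1) : ‖x - ((w ^ e).val : PadicAlgCl p)‖ < 1 := by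
  have h1 : (p : ℤ) ∣ (w.val : ℤ) ^ e - (w ^ e).val := by
    rw [← ZMod.intCast_zmod_eq_zero_iff_dvd]
    simp
  have h2 := Padic.norm_intCast_lt_one_iff.2 h1
  rw [← PadicAlgCl.norm_extends, map_intCast] at h2
  push_cast at h2
  rw [← sub_add_sub_cancel x ((w.val : PadicAlgCl p) ^ e)]
  exact (IsUltrametricDist.norm_add_le_max _ _).trans_lt (max_lt h h2)

theorem ONE_pf (hQUAD : QUAD_st) (hKW : KW_st) (hNZ0 : NZ0_st) (hNZ : NZ_st) (hRED : RED_st) (hSUM : SUM_st) (hBS1 : BS1_st) (hGOOD : GOOD_st) (hTOP : TOP_st) (hDEV : DEV_st) (hMEM : MEM_st) : ONE_st := by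
  intro k K₀ _ h2 hk ho
  obtain ⟨D, s, hD, hs, hK⟩ := hQUAD K₀ h2
  obtain ⟨d, χ, hd, hχ, hg⟩ := hKW D s hD hs
  obtain ⟨w0, hw0, hT0⟩ := hNZ0 d χ hd hχ
  obtain ⟨w1, hw1, hT1⟩ := hNZ d (k - 1) χ hd hχ (by omega) (Nat.Odd.sub_odd ho odd_one)
  obtain ⟨B0, hB0⟩ := hRED d 0 χ w0 hd hw0 hT0
  obtain ⟨B1, hB1⟩ := hRED d (k - 1) χ w1 hd hw1 hT1
  refine ⟨B0 + B1 + d + k + 5, fun p hp hB hb K hP S κ F n ρ hS hpS hκ hsur hfin hρ hres => ?_⟩
  have : FiniteDimensional ℚ K₀ := Module.finite_of_finrank_pos (by omega)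
  have : NeZero p := ⟨hp.out.ne_zero⟩
  obtain ⟨ζ, hζ⟩ := HasEnoughRootsOfUnity.exists_primitiveRoot Qb p
  obtain ⟨r', hr⟩ := HasEnoughRootsOfUnity.exists_primitiveRoot (ZMod p) (p - 1)
  obtain ⟨r, rfl⟩ := ZMod.natCast_zmod_surjective r'
  have s0 : s ≠ 0 := by
    rintro rfl
    have : (D : Qb) = 0 := by simpa using hs
    exact hD.ne' (Nat.cast_eq_zero.1 this)
  have r0 : (r : ZMod p) ≠ 0 := hr.ne_zero (by omega)
  have r1 : ∀ j : ℕ, 0 < j → j + 1 < p → (r : ZMod p) ^ j ≠ 1 := fun j a b =>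
    hr.pow_ne_one_of_pos_of_lt a.ne' (by omega)
  have := (hGOOD p ζ r 0 K₀ K hP).1
  have hG : ∀ j : ℕ, j + 3 ≤ p →
      (∀ (k : Type) [Field k] [CharP k p] (u : k), IsPrimitiveRoot u d → Tq χ j u ≠ 0) →
      Stk p (j + 1) → Good p ζ r (r ^ (j + 1)) K.fixingSubgroup := fun j a b c =>
    (hGOOD p ζ r _ K₀ K hP).2 (by omega) hζ hr (pow_ne_zero _ r0) (r1 _ (by omega) (by omega))
      (hK ▸ hBS1 p d j r χ ζ s hd (by omega) a (by omega) hχ s0 hg b c hζ hr)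
  have G0 := hG 0 (by omega) (hB0 p hp.out (by omega)) (hSUM p _ (by omega) (.inl rfl))
  have e1 : k - 1 + 1 = k := by omega
  have G1 := hG (k - 1) (by omega) (hB1 p hp.out (by omega))
    (e1.symm ▸ hSUM p k (by omega) (.inr ⟨hk, by omega, hb⟩))
  rw [e1] at G1
  obtain ⟨ω, hω, hH⟩ := hTOP p K S κ (by omega) hS hpS hκ hsur hfin
  choose e he hψ using hres.2
  have := (hMEM K S).1
  have : CompactSpace κ.ker :=
    isCompact_iff_compactSpace.1 (isClosed_singleton.preimage hκ : IsClosed (κ ⁻¹' {1})).isCompact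
  refine hDEV p κ.ker F n (ρ.comp κ.ker.subtype) (fun i g => ω g ^ e i)
    (hρ.comp continuous_subtype_val) (fun g => hres.1 g)
    (fun g i => norm_WONE _ _ _ (hψ i g _ (hω g))) fun i => ?_
  rcases he i with c | c
  · exact hH ζ r _ _ hζ hr (by rw [c, pow_zero, mul_one, zero_add, pow_one])
      (r1 _ (by omega) (by omega)) G0
  · refine hH ζ r _ _ hζ hr ?_ (r1 _ (by omega) (by omega)) G1
    rw [Set.mem_singleton_iff.1 c, ← pow_add, Nat.add_sub_cancel' (by omega), ZMod.pow_card]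

end Pool.Agent.MP_3e91a1_nt

end
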