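import Mathlib

set_option linter.all false

section

/-! Definitions and statements of the steps of the zero estimate for the cubic fields of Ennola. -/

set_option autoImplicit false

open Finset Filter PowerSeries

noncomputable section

namespace Pool.Agent.MP_3e91a1_nt.TR

/-- the three roots of the cubic with parameter `T` -/
def Tri {S : Type} [CommRing S] (T a b e : S) : Prop :=
  a + b + e = 1 - T ∧ a * b + a * e + b * e = -T ∧ a * b * e = 1

/-- the discriminant of the cubic -/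
def dsc {S : Type} [CommRing S] (T : S) : S := (T ^ 2 + 3 * T - 1) ^ 2 - 32

/-- a parameter and the roots of two cubics -/
def Dat (c c' : ℕ) {S : Type} [CommRing S] (g : Fin 7 → S) : Prop :=
  Tri (c * g 0) (g 1) (g 2) (g 3) ∧ Tri (c' * g 0) (g 4) (g 5) (g 6)

/-- eight units -/
def un {S : Type} [CommRing S] (g : Fin 7 → S) : Fin 8 → S :=
  ![g 1, g 1 - 1, g 2, g 2 - 1, g 4, g 4 - 1, g 5, g 5 - 1]

/-- their inverses -/
def iv (c c' : ℕ) {S : Type} [CommRing S] (g : Fin 7 → S) : Fin 8 → S :=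
  ![(g 1 - 1) * (g 1 + c * g 0), g 1 * (g 1 + c * g 0), (g 2 - 1) * (g 2 + c * g 0),
    g 2 * (g 2 + c * g 0), (g 4 - 1) * (g 4 + c' * g 0), g 4 * (g 4 + c' * g 0),
    (g 5 - 1) * (g 5 + c' * g 0), g 5 * (g 5 + c' * g 0)]

/-- the derivative of a root, times the discriminant -/
def th1 (c : ℕ) {S : Type} [CommRing S] (a b e : S) : S :=
  c * (a * (a - 1)) * ((b - a) * (b - e)) * ((e - a) * (e - b))

/-- the derivation on the generators -/
def th (c c' : ℕ) {S : Type} [CommRing S] (g : Fin 7 → S) : Fin 7 → S :=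
  ![dsc (c * g 0) * dsc (c' * g 0), th1 c (g 1) (g 2) (g 3) * dsc (c' * g 0),
    th1 c (g 2) (g 1) (g 3) * dsc (c' * g 0), th1 c (g 3) (g 1) (g 2) * dsc (c' * g 0),
    th1 c' (g 4) (g 5) (g 6) * dsc (c * g 0), th1 c' (g 5) (g 4) (g 6) * dsc (c * g 0),
    th1 c' (g 6) (g 4) (g 5) * dsc (c * g 0)]

/-- the logarithmic derivatives of the units -/
def lw (c c' : ℕ) {S : Type} [CommRing S] (g : Fin 7 → S) (j : Fin 8) : S :=
  th c c' g (![1, 1, 2, 2, 4, 4, 5, 5] j) * iv c c' g j

/-- the derivation of the polynomial ring -/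
def Th (c c' : ℕ) (F : Type) [Field F] :
    Derivation F (MvPolynomial (Fin 7) F) (MvPolynomial (Fin 7) F) :=
  MvPolynomial.mkDerivation F (th c c' MvPolynomial.X)

/-- the logarithm of `U` over its constant term, when `V` is the inverse of `U` -/
def lgs {F : Type} [Field F] (U V : F⟦X⟧) : F⟦X⟧ :=
  PowerSeries.mk fun k => coeff (k - 1) (d⁄dX F U * V) / k

/-- an integral multiple of its truncation -/
def Lgs (L : ℕ) {R : Type} [CommRing R] (U V : R⟦X⟧) : R⟦X⟧ :=
  PowerSeries.mk fun k => ((L / k : ℕ) : R) * coeff (k - 1) (d⁄dX R U * V)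

/-- the index set of the rows -/
abbrev Ix (D K : ℕ) : Type := Fin D × Fin (K + 1) × (Fin 8 → Fin (K + 1))

/-- the chain rule -/
def INT_st : Prop := ∀ (F S : Type) [Field F] [CommRing S] [IsDomain S] [Algebra F S]
  (δ : Derivation F S S) (c c' : ℕ) (g : Fin 7 → S) (γ : S), Dat c c' g → dsc (c * g 0) ≠ 0 →
  dsc (c' * g 0) ≠ 0 → γ * δ (g 0) = dsc (c * g 0) * dsc (c' * g 0) →
  (∀ i, γ * δ (g i) = th c c' g i) ∧ (∀ j, un g j * iv c c' g j = 1) ∧
  (∀ j, γ * (δ (un g j) * iv c c' g j) = lw c c' g j) ∧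
  ∀ P : MvPolynomial (Fin 7) F,
    γ * δ (MvPolynomial.aeval g P) = MvPolynomial.aeval g (Th c c' F P)

/-- the theorem of Ostrowski on primitives -/
def OST_st : Prop := ∀ (F S ι : Type) [Field F] [CharZero F] [CommRing S] [IsDomain S]
  [Algebra F S] [Fintype ι] (δ : Derivation F S S) (A : Subalgebra F S) (m : ι → S),
  (∀ a ∈ A, δ a ∈ A) → (∀ j, δ (m j) ∈ A) →
  (∀ a b : S, a ≠ 0 → a * δ b = b * δ a → ∃ q : F, b = q • a) →
  (∀ k : ι → F, ∀ a ∈ A, ∀ b ∈ A, a ≠ 0 → a ^ 2 * ∑ j, k j • δ (m j) = a * δ b - b * δ a → k = 0) →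
  AlgebraicIndependent A m

/-- the place at infinity -/
def INF_st : Prop := ∀ (F : Type) [Field F] [CharZero F], ∃ (L : Type) (_ : Field L)
  (_ : Algebra F L) (δ : Derivation F L L) (res : L →ₗ[F] F) (τ : L), Transcendental F τ ∧
  δ τ = -τ ∧ (∀ v, res (δ v) = 0) ∧ ∀ c : ℕ, 0 < c → ∃ a b e : L, Tri (c * τ) a b e ∧
    res (δ a / a) = 1 ∧ res (δ (a - 1) / (a - 1)) = 0 ∧ res (δ b / b) = 0 ∧
    res (δ (b - 1) / (b - 1)) = 1 ∧ res (δ e / e) = -1 ∧ res (δ (e - 1) / (e - 1)) = -1

/-- the Galois group of the two cubics is full -/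
def GAL_st : Prop := ∀ (K E : Type) [Field K] [CharZero K] [Field E] [Algebra K E]
  [FiniteDimensional K E] [IsGalois K E] (T T' : K) (r r' : Fin 3 → E),
  Tri (algebraMap K E T) (r 0) (r 1) (r 2) → Tri (algebraMap K E T') (r' 0) (r' 1) (r' 2) →
  (∀ y : K, y * (y - 1) * (y + T) ≠ 1) → (∀ y : K, y * (y - 1) * (y + T') ≠ 1) →
  ¬ IsSquare (dsc T) → ¬ IsSquare (dsc T') → ¬ IsSquare (dsc T * dsc T') →
  ∀ π π' : Equiv.Perm (Fin 3), ∃ σ : E ≃ₐ[K] E, (∀ i, σ (r i) = r (π i)) ∧ ∀ i, σ (r' i) = r' (π' i)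

/-- no roots and no squares in the field of rational functions -/
def NSQ_st : Prop := ∀ (F : Type) [Field F] [CharZero F] (c c' : ℕ), 0 < c → 0 < c' → c ≠ c' →
  (∀ y : RatFunc F, y * (y - 1) * (y + (c : RatFunc F) * RatFunc.X) ≠ 1) ∧
  ¬ IsSquare (dsc ((c : RatFunc F) * RatFunc.X)) ∧
  ¬ IsSquare (dsc ((c : RatFunc F) * RatFunc.X) * dsc ((c' : RatFunc F) * RatFunc.X))

/-- the relations between the roots do not depend on the choices -/
def KER_st : Prop := ∀ (F S S' : Type) [Field F] [CharZero F] [CommRing S] [IsDomain S]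
  [Algebra F S] [CommRing S'] [IsDomain S'] [Algebra F S'] (c c' : ℕ) (g : Fin 7 → S)
  (g' : Fin 7 → S'), 0 < c → 0 < c' → c ≠ c' → Transcendental F (g 0) → Transcendental F (g' 0) →
  Dat c c' g → Dat c c' g' → ∀ P : MvPolynomial (Fin 7) F,
    MvPolynomial.aeval g P = 0 → MvPolynomial.aeval g' P = 0

/-- no combination of the logarithmic derivatives is a derivative -/
def RES_st : Prop := ∀ (F S : Type) [Field F] [CharZero F] [CommRing S] [IsDomain S]
  [Algebra F S] (c c' : ℕ) (g : Fin 7 → S), 0 < c → 0 < c' → c ≠ c' → Transcendental F (g 0) →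
  Dat c c' g → ∀ (k : Fin 8 → F) (a b : MvPolynomial (Fin 7) F), MvPolynomial.aeval g a ≠ 0 →
    MvPolynomial.aeval g a ^ 2 * ∑ j, k j • lw c c' g j =
      MvPolynomial.aeval g (a * Th c c' F b - b * Th c c' F a) → k = 0

/-- the parameter and the eight logarithms are algebraically independent -/
def IND_st : Prop := ∀ (F : Type) [Field F] [CharZero F] (c c' : ℕ) (t κ : F) (g : Fin 7 → F⟦X⟧),
  0 < c → 0 < c' → c ≠ c' → κ ≠ 0 → g 0 = C t + C κ * X → Dat c c' g →
  AlgebraicIndependent F fun o : Option (Fin 8) =>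
    o.elim (g 0) fun j => lgs (un g j) (iv c c' g j)

/-- an eigenvector of the translations does not depend on the translated variables -/
def INV_st : Prop := ∀ (F σ ι : Type) [Field F] [CharZero F] (W : MvPolynomial (σ ⊕ ι) F),
  (∀ μ : ι → F, ∃ d : F, MvPolynomial.aeval (Sum.elim (fun i => MvPolynomial.X (Sum.inl i))
    fun j => MvPolynomial.X (Sum.inr j) + MvPolynomial.C (μ j)) W = d • W) →
  ∃ W₀ : MvPolynomial σ F, W₀.totalDegree ≤ W.totalDegree ∧ W = MvPolynomial.rename Sum.inl W₀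

/-- reduction of the monomials by the cubic relations -/
def RED_st : Prop := ∀ (c c' B : ℕ) (α : Fin 7 → ℕ), ∑ i, α i ≤ B →
  ∃ u : Fin (B + 1) × (Fin 6 → Fin 3) → ℤ, ∀ (S : Type) [CommRing S] (g : Fin 7 → S), Dat c c' g →
    ∏ i, g i ^ α i = ∑ r, (u r : S) * (g 0 ^ (r.1 : ℕ) * ∏ i : Fin 6, g i.succ ^ (r.2 i : ℕ))

/-- the number of zeros of a function on the curve -/
def NRM_st : Prop := ∀ (F P : Type) [Field F] [CharZero F] [Fintype P] (c c' N : ℕ) (t κ : P → F)
  (g : P → Fin 7 → F⟦X⟧) (W : MvPolynomial (Fin 7) F), Function.Injective t → (∀ s, κ s ≠ 0) →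
  (∀ s, g s 0 = C (t s) + C (κ s) * X) → (∀ s, Dat c c' (g s)) →
  (∀ s, MvPolynomial.aeval (g s) W ≠ 0) → (∀ s, X ^ N ∣ MvPolynomial.aeval (g s) W) →
  Fintype.card P * N ≤ 729 * (W.totalDegree + 12)

/-- the zero estimate -/
def ZER_st : Prop := ∀ (F P : Type) [Field F] [CharZero F] [Fintype P] (c c' D K n : ℕ)
  (t κ : P → F) (g : P → Fin 7 → F⟦X⟧) (v : Ix D K → F), 0 < c → 0 < c' → c ≠ c' →
  Function.Injective t → (∀ s, κ s ≠ 0) → (∀ s, g s 0 = C (t s) + C (κ s) * X) →
  (∀ s, Dat c c' (g s)) → v ≠ 0 →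
  (∀ s, X ^ n ∣ ∑ r : Ix D K, C (v r) * (g s 0 ^ (r.1 : ℕ) * C (t s) ^ (r.2.1 : ℕ) *
    ∏ j, lgs (un (g s) j) (iv c c' (g s) j) ^ (r.2.2 j : ℕ))) →
  (Fintype.card P - K) * (n - (K + 1) ^ 17) ≤
    729 * ((K + 1) ^ 17 * (D + 20 * (K + 1) ^ 17) + 12)

end Pool.Agent.MP_3e91a1_nt.TR

end
end

section

/-! An eigenvector of the translations does not depend on the translated variables. -/

set_option autoImplicit false

noncomputable section

namespace Pool.Agent.MP_3e91a1_nt.TR

theorem comp_INV {F σ τ : Type} [Field F] (W : MvPolynomial σ F) (x : τ → F)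
    (f : σ → MvPolynomial τ F) :
    MvPolynomial.eval x (MvPolynomial.aeval f W) =
      MvPolynomial.eval (fun i => MvPolynomial.eval x (f i)) W := by
  induction W using MvPolynomial.induction_on with
  | C a => simp
  | add p q hp hq => simp only [map_add, hp, hq]
  | mul_X p i hp => simp only [map_mul, hp, MvPolynomial.aeval_X, MvPolynomial.eval_X]

theorem line_INV {F σ : Type} [Field F] (W : MvPolynomial σ F) (t : F) (f : σ → Polynomial F) :
    Polynomial.eval t (MvPolynomial.aeval f W) =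
      MvPolynomial.eval (fun i => Polynomial.eval t (f i)) W := by
  induction W using MvPolynomial.induction_on with
  | C a => simp
  | add p q hp hq => simp only [map_add, Polynomial.eval_add, hp, hq]
  | mul_X p i hp =>
    simp only [map_mul, Polynomial.eval_mul, hp, MvPolynomial.aeval_X, MvPolynomial.eval_X]

theorem deg_INV {F σ τ : Type} [Field F] {f : σ → τ} (hf : Function.Injective f)
    (p : MvPolynomial σ F) : p.totalDegree ≤ (MvPolynomial.rename f p).totalDegree := by
  classical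
  refine Finset.sup_le fun s hs => ?_
  have h1 : Finsupp.mapDomain f s ∈ (MvPolynomial.rename f p).support := by
    rw [MvPolynomial.support_rename_of_injective hf]
    exact Finset.mem_image_of_mem _ hs
  have h2 := MvPolynomial.le_totalDegree h1
  rwa [Finsupp.sum_mapDomain_index_inj hf] at h2

theorem INV_pf : INV_st := by
  intro F σ ι _ _ W h
  have key : W = MvPolynomial.rename Sum.inl
      (MvPolynomial.aeval (Sum.elim (fun i : σ => MvPolynomial.X i) fun _ : ι => 0) W :
        MvPolynomial σ F) := by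
    refine MvPolynomial.funext fun x => ?_
    obtain ⟨d, hd⟩ := h fun j => x (Sum.inr j)
    set g : Polynomial F := MvPolynomial.aeval
      (Sum.elim (fun i : σ => Polynomial.C (x (Sum.inl i)))
        fun j : ι => Polynomial.C (x (Sum.inr j)) * Polynomial.X) W with hg
    have e0 : ∀ t, g.eval t = MvPolynomial.eval
        (Sum.elim (fun i : σ => x (Sum.inl i)) fun j : ι => x (Sum.inr j) * t) W := fun t => by
      rw [hg, line_INV]
      congr 2
      funext i
      rcases i with i | i <;> simp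
    have e1 : Polynomial.taylor 1 g = d • g := Polynomial.funext fun t => by
      have := congrArg (MvPolynomial.eval
        (Sum.elim (fun i : σ => x (Sum.inl i)) fun j : ι => x (Sum.inr j) * t)) hd
      rw [comp_INV, MvPolynomial.smul_eval] at this
      rw [Polynomial.taylor_eval, Polynomial.eval_smul, e0, e0, smul_eq_mul, ← this]
      congr 2
      funext i
      rcases i with i | i <;> simp [mul_add]
    have e2 : Polynomial.taylor 1 g = g := by
      rcases eq_or_ne g 0 with h0 | h0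
      · rw [h0, map_zero]
      · have h1 := congrArg Polynomial.leadingCoeff e1
        rw [Polynomial.leadingCoeff_taylor, Polynomial.smul_eq_C_mul, Polynomial.leadingCoeff_mul,
          Polynomial.leadingCoeff_C] at h1
        have h2 : d = 1 := mul_right_cancel₀ (Polynomial.leadingCoeff_ne_zero.2 h0)
          (by rw [← h1, one_mul])
        rw [e1, h2, one_smul]
    have e3 := congrArg (Polynomial.eval 0) e2
    rw [Polynomial.taylor_eval, e0, e0] at e3
    rw [MvPolynomial.eval_rename, comp_INV]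
    refine Eq.trans ?_ (e3.trans ?_)
    · congr 2
      funext i
      rcases i with i | i <;> simp
    · congr 2
      funext i
      rcases i with i | i <;> simp
  refine ⟨_, ?_, key⟩
  exact (deg_INV Sum.inl_injective _).trans (congrArg MvPolynomial.totalDegree key).ge

end Pool.Agent.MP_3e91a1_nt.TR

end
end

section

/-! The theorem of Ostrowski on the algebraic independence of primitives. -/

set_option autoImplicit false

open Finset

noncomputable section

namespace Pool.Agent.MP_3e91a1_nt.TR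

open MvPolynomial

section

variable {F S ι : Type} [Field F] [CommRing S] [Algebra F S]

/-- the derivation applied to the coefficients -/
def md_OST (δ : Derivation F S S) (Q : MvPolynomial ι S) : MvPolynomial ι S :=
  ∑ α ∈ Q.support, monomial α (δ (coeff α Q))

theorem coeff_md_OST (δ : Derivation F S S) (Q : MvPolynomial ι S) (β : ι →₀ ℕ) :
    coeff β (md_OST δ Q) = δ (coeff β Q) := by
  classical
  rw [md_OST, coeff_sum]
  simp only [coeff_monomial]
  rw [sum_ite_eq']
  split_ifs with h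
  · rfl
  · rw [notMem_support_iff.1 h, map_zero]

theorem eval_md_OST [Fintype ι] (δ : Derivation F S S) (m : ι → S) (Q : MvPolynomial ι S) :
    δ (eval m Q) = eval m (md_OST δ Q + ∑ j, C (δ (m j)) * pderiv j Q) := by
  classical
  induction Q using MvPolynomial.induction_on with
  | C a =>
    have e : md_OST δ (C a : MvPolynomial ι S) = C (δ a) := by
      ext β
      rw [coeff_md_OST, coeff_C, coeff_C]
      split_ifs
      · rfl
      · exact map_zero δ
    simp [e]
  | add p q hp hq =>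
    have e : md_OST δ (p + q) = md_OST δ p + md_OST δ q := by
      ext β
      rw [coeff_add, coeff_md_OST, coeff_md_OST, coeff_md_OST, coeff_add, map_add]
    rw [map_add, map_add, hp, hq, e, ← map_add]
    congr 1
    simp only [map_add, mul_add, sum_add_distrib]
    ring
  | mul_X p i hp =>
    have e : md_OST δ (p * X i) = md_OST δ p * X i := by
      ext β
      rw [coeff_md_OST, coeff_mul_X', coeff_mul_X', coeff_md_OST]
      split_ifs
      · rfl
      · exact map_zero δ
    have e2 : ∑ j, C (δ (m j)) * pderiv j (p * X i) =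
        (∑ j, C (δ (m j)) * pderiv j p) * X i + p * C (δ (m i)) := by
      have : ∀ j, C (δ (m j)) * pderiv j (p * X i) = C (δ (m j)) * pderiv j p * X i +
          if j = i then p * C (δ (m j)) else 0 := fun j => by
        rw [Derivation.leibniz, smul_eq_mul, smul_eq_mul]
        split_ifs with h
        · rw [h, pderiv_X_self]; ring
        · rw [pderiv_X_of_ne (Ne.symm h)]; ring
      rw [sum_congr rfl fun j _ => this j, sum_add_distrib, sum_ite_eq', if_pos (mem_univ i),
        sum_mul]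
    rw [e, e2, ← add_assoc, ← add_mul, map_add, eval_mul, eval_mul, eval_mul, ← hp, eval_X,
      eval_C, Derivation.leibniz, smul_eq_mul, smul_eq_mul]
    ring

end

theorem main_OST {F S ι : Type} [Field F] [CharZero F] [CommRing S] [Algebra F S] [Fintype ι]
    (δ : Derivation F S S) (A : Subalgebra F S) (m : ι → S)
    (h1 : ∀ a ∈ A, δ a ∈ A) (h2 : ∀ j, δ (m j) ∈ A)
    (h3 : ∀ a b : S, a ≠ 0 → a * δ b = b * δ a → ∃ q : F, b = q • a)
    (h4 : ∀ k : ι → F, ∀ a ∈ A, ∀ b ∈ A, a ≠ 0 →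
      a ^ 2 * ∑ j, k j • δ (m j) = a * δ b - b * δ a → k = 0) (d : ℕ) :
    ∀ Q : MvPolynomial ι S, (∀ α, coeff α Q ∈ A) → eval m Q = 0 →
      (∀ α : ι →₀ ℕ, d ≤ α.degree → coeff α Q = 0) → Q = 0 := by
  classical
  induction d with
  | zero => exact fun Q _ _ h => MvPolynomial.ext _ _ fun α => h α (Nat.zero_le _)
  | succ d ih =>
  intro Q
  induction hn : (Q.support.filter fun α => α.degree = d).card
    using Nat.strong_induction_on generalizing Q with
  | _ n ihn =>
  intro hA h0 hd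
  refine ih Q hA h0 fun α hα => ?_
  by_contra ha
  have hαd : α.degree = d := le_antisymm (not_lt.1 fun h => ha (hd α h)) hα
  have dg : ∀ (β : ι →₀ ℕ) (j : ι), (β + Finsupp.single j 1).degree = β.degree + 1 :=
    fun β j => by rw [map_add, Finsupp.degree_single]
  obtain ⟨R, hR⟩ : ∃ R, R = C (coeff α Q) * (md_OST δ Q + ∑ j, C (δ (m j)) * pderiv j Q) -
    C (δ (coeff α Q)) * Q := ⟨_, rfl⟩
  have cR : ∀ β, coeff β R = coeff α Q * (δ (coeff β Q) +
      ∑ j, δ (m j) * (coeff (β + Finsupp.single j 1) Q * (β j + 1))) -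
      δ (coeff α Q) * coeff β Q := fun β => by
    rw [hR, coeff_sub, coeff_C_mul, coeff_C_mul, coeff_add, coeff_md_OST, coeff_sum]
    simp only [coeff_C_mul, coeff_pderiv]
  have cR' : ∀ β : ι →₀ ℕ, d ≤ β.degree →
      coeff β R = coeff α Q * δ (coeff β Q) - δ (coeff α Q) * coeff β Q := fun β hβ => by
    rw [cR, sum_eq_zero fun j _ => by rw [hd _ (by rw [dg]; omega), zero_mul, mul_zero], add_zero]
  have R0 : R = 0 := by
    refine ihn _ ?_ R rfl (fun β => ?_) ?_ fun β hβ => ?_
    · rw [← hn]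
      refine card_lt_card ⟨fun β hβ => ?_, fun h => ?_⟩
      · rw [mem_filter, mem_support_iff] at hβ ⊢
        refine ⟨fun e => hβ.1 ?_, hβ.2⟩
        rw [cR' β hβ.2.ge, e, map_zero, mul_zero, mul_zero, sub_zero]
      · have := h (mem_filter.2 ⟨mem_support_iff.2 ha, hαd⟩)
        rw [mem_filter, mem_support_iff, cR' α hα, mul_comm, sub_self] at this
        exact this.1 rfl
    · rw [cR]
      exact sub_mem (mul_mem (hA _) (add_mem (h1 _ (hA _)) (sum_mem fun j _ => mul_mem (h2 j)
        (mul_mem (hA _) (add_mem (natCast_mem A _) (one_mem A)))))) (mul_mem (h1 _ (hA _)) (hA _))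
    · rw [hR, map_sub, map_mul, map_mul, ← eval_md_OST, h0, map_zero, mul_zero, mul_zero,
        sub_zero]
    · rw [cR' β (by omega), hd β hβ, map_zero, mul_zero, mul_zero, sub_zero]
  by_cases hz : α = 0
  · have e : Q = C (coeff α Q) := by
      ext β
      rw [coeff_C]
      split_ifs with h
      · rw [hz, h]
      · refine hd β ?_
        rw [← hαd, hz, map_zero]
        exact Nat.pos_of_ne_zero fun e => h ((Finsupp.degree_eq_zero_iff β).1 e).symm
    rw [e, eval_C] at h0
    exact ha h0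
  obtain ⟨j0, hj0⟩ := Finsupp.ne_iff.1 hz
  obtain ⟨β, hβ⟩ : ∃ β, β + Finsupp.single j0 1 = α :=
    ⟨_, Finsupp.sub_add_single_one_cancel hj0⟩
  have hq : ∀ j, ∃ q : F, coeff (β + Finsupp.single j 1) Q = q • coeff α Q := fun j => by
    refine h3 _ _ ha ?_
    have := cR' (β + Finsupp.single j 1) (by rw [← hαd, ← hβ, dg, dg])
    rw [R0, coeff_zero] at this
    linear_combination -this
  choose q hq using hq
  have hk := h4 (fun j => (β j + 1) * q j) _ (hA α) _ (neg_mem (hA β)) ha (by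
    have := cR β
    rw [R0, coeff_zero, sum_congr rfl (g := fun j => coeff α Q * (((β j + 1) * q j) • δ (m j)))
      fun j _ => by
        rw [hq j, Algebra.smul_def, Algebra.smul_def, map_mul, map_add, map_natCast, map_one]
        ring, ← mul_sum] at this
    rw [map_neg]
    linear_combination -this)
  have h5 : ((β j0 : F) + 1) * q j0 = 0 := congrFun hk j0
  have h6 := hq j0
  rw [hβ, (mul_eq_zero.1 h5).resolve_left (Nat.cast_add_one_ne_zero _), zero_smul] at h6
  exact ha h6

theorem OST_pf : OST_st := by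
  intro F S ι _ _ _ _ _ _ δ A m h1 h2 h3 h4
  refine algebraicIndependent_iff.2 fun P hP => ?_
  refine map_injective (algebraMap A S) Subtype.val_injective ?_
  rw [map_zero]
  refine main_OST δ A m h1 h2 h3 h4 (P.totalDegree + 1) _ (fun α => ?_) ?_ fun α hα => ?_
  · rw [coeff_map]
    exact (coeff α P).2
  · rw [eval_map, ← aeval_def, hP]
  · rw [coeff_map, coeff_eq_zero_of_totalDegree_lt hα, map_zero]

end Pool.Agent.MP_3e91a1_nt.TR

end
end

section

/-! Definitions and statements for the fields of every degree: the function field. -/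

set_option autoImplicit false

open Finset Filter

noncomputable section

namespace Pool.Agent.MP_3e91a1_nt.GN

open TR

/-- the polynomial with parameter `T` -/
def fp {m : ℕ} (r : Fin m → ℤ) {S : Type} [CommRing S] (T : S) : Polynomial S :=
  (∏ i, (Polynomial.X - Polynomial.C (r i : S))) * (Polynomial.X + Polynomial.C T) - 1

/-- `A` lists its roots -/
def Rt {m : ℕ} (r : Fin m → ℤ) {S : Type} [CommRing S] (T : S) (A : Fin (m + 1) → S) : Prop :=
  ∏ s, (Polynomial.X - Polynomial.C (A s)) = fp r T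

/-- the derivative at a root -/
def fd {n : ℕ} {S : Type} [CommRing S] (A : Fin n → S) (s : Fin n) : S :=
  ∏ s' ∈ univ.erase s, (A s - A s')

/-- `d` is the discriminant, up to sign -/
def IsD {m : ℕ} (r : Fin m → ℤ) (d : Polynomial ℤ) : Prop :=
  ∀ (S : Type) [CommRing S] (T : S) (A : Fin (m + 1) → S), Rt r T A →
    ∏ s, fd A s = Polynomial.aeval T d

/-- the two discriminants are coprime -/
def Cop (F : Type) [Field F] (d : Polynomial ℤ) (c c' : ℕ) : Prop :=
  IsCoprime (Polynomial.aeval ((c : Polynomial F) * Polynomial.X) d)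
    (Polynomial.aeval ((c' : Polynomial F) * Polynomial.X) d)

/-- the units -/
def uu {m : ℕ} (r : Fin m → ℤ) {S : Type} [CommRing S] (A : Fin (m + 1) → S)
    (j : Fin (m + 1) × Fin m) : S := A j.1 - r j.2

/-- their inverses -/
def vv {m : ℕ} (r : Fin m → ℤ) {S : Type} [CommRing S] (T : S) (A : Fin (m + 1) → S)
    (j : Fin (m + 1) × Fin m) : S := (∏ i ∈ univ.erase j.2, (A j.1 - r i)) * (A j.1 + T)

/-- the variables -/
abbrev Vr (m : ℕ) : Type := Option (Fin (m + 1) ⊕ Fin (m + 1))

/-- their values -/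
def gg {m : ℕ} {S : Type} (τ : S) (A A' : Fin (m + 1) → S) : Vr m → S :=
  fun o => o.elim τ (Sum.elim A A')

/-- a selection of `k` units and the relations for the others -/
structure Sel (m k : ℕ) where
  /-- the selected units -/
  J : Fin k → Fin (m + 1) × Fin m
  /-- the common multiple -/
  N : ℕ
  /-- the exponents -/
  e : Fin m → Fin m → Fin k → ℤ

/-- the determinant of the linear forms -/
def Sel.Phi {m k : ℕ} (σ : Sel m k) : MvPolynomial (Fin k) ℤ :=
  (Matrix.of fun s i : Fin m => ∑ j, MvPolynomial.C (σ.e s i j) * MvPolynomial.X j).det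

/-- the relations between the logarithmic derivatives, for the derivation `δ` -/
def Sel.Rel {m k : ℕ} (σ : Sel m k) (r : Fin m → ℤ) {S : Type} [CommRing S] (δ : S → S) (T : S)
    (A : Fin (m + 1) → S) : Prop :=
  ∀ s i : Fin m, (σ.N : S) * (δ (uu r A (s.castSucc, i)) * vv r T A (s.castSucc, i)) =
    ∑ j, (σ.e s i j : S) * (δ (uu r A (σ.J j)) * vv r T A (σ.J j))

/-- the selected units of the two families -/
def UU {m k k' : ℕ} (σ : Sel m k) (σ' : Sel m k') (r : Fin m → ℤ) {S : Type} [CommRing S]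
    (A A' : Fin (m + 1) → S) : Fin k ⊕ Fin k' → S :=
  Sum.elim (fun j => uu r A (σ.J j)) fun j => uu r A' (σ'.J j)

/-- their inverses -/
def VV {m k k' : ℕ} (σ : Sel m k) (σ' : Sel m k') (r : Fin m → ℤ) {S : Type} [CommRing S]
    (T T' : S) (A A' : Fin (m + 1) → S) : Fin k ⊕ Fin k' → S :=
  Sum.elim (fun j => vv r T A (σ.J j)) fun j => vv r T' A' (σ'.J j)

/-- the inverse of the variable -/
def ti (F : Type) [Field F] : LaurentSeries F := HahnSeries.single (-1) 1

/-- the field generated by a parameter and the roots of the two polynomials -/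
def Gn (F : Type) [Field F] {m : ℕ} (r : Fin m → ℤ) (c c' : ℕ) {E : Type} [Field E] [Algebra F E]
    (τ : E) (A A' : Fin (m + 1) → E) : Prop :=
  Transcendental F τ ∧ Rt r (c * τ) A ∧ Rt r (c' * τ) A' ∧
    IntermediateField.adjoin F (Set.range (gg τ A A')) = ⊤

/-- the orders of the units at one place -/
def Ords {F : Type} [Field F] {m : ℕ} (r : Fin m → ℤ) (B : Fin (m + 1) → LaurentSeries F) : Prop :=
  ∀ s i : Fin m, (uu r B (s.castSucc, i)).order = if s = i then 1 else 0

/-- the discriminant exists -/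
def DSC_st : Prop := ∀ (m : ℕ) (r : Fin m → ℤ), ∃ d, IsD r d

/-- the theorem of Schur -/
def SCH_st : Prop := ∀ (m : ℕ) (r : Fin m → ℤ) (T : ℤ), Function.Injective r →
  (∀ i, r i + T ≠ 0) → Irreducible (fp r (T : ℚ))

/-- the discriminant does not vanish -/
def DNZ_st : Prop := ∀ (m : ℕ) (r : Fin m → ℤ) (d : Polynomial ℤ) (T : ℤ), Function.Injective r →
  IsD r d → (∀ i, r i + T ≠ 0) → Polynomial.aeval T d ≠ 0

/-- large primes give coprime discriminants -/
def COP_st : Prop := ∀ d : Polynomial ℤ, Polynomial.aeval (0 : ℤ) d ≠ 0 → ∃ y : ℕ,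
  ∀ c c' : ℕ, c.Prime → c'.Prime → y < c → y < c' → c ≠ c' → Cop (AlgebraicClosure ℚ) d c c'

/-- the chain rule at a root -/
def ITG_st : Prop := ∀ (m : ℕ) (r : Fin m → ℤ) (S : Type) [CommRing S] (T : S)
  (A : Fin (m + 1) → S), Rt r T A → (∀ j, uu r A j * vv r T A j = 1) ∧
    (∀ s, (∏ i, (A s - r i)) * (A s + T) = 1) ∧
    (∀ s, fd A s = ∑ i, vv r T A (s, i) + ∏ i, (A s - r i)) ∧
    (∀ π : Equiv.Perm (Fin (m + 1)), Rt r T (A ∘ π)) ∧
    (∀ (S' : Type) [CommRing S'] (φ : S →+* S'), Rt r (φ T) (φ ∘ A)) ∧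
    ∀ (F : Type) [CommRing F] [Algebra F S] (δ : Derivation F S S) (s : Fin (m + 1)),
      fd A s * δ (A s) = -(∏ i, (A s - r i)) * δ T

/-- the derivation of the Laurent series -/
def Lau {F : Type} [Field F] (δ : Derivation F (LaurentSeries F) (LaurentSeries F)) : Prop :=
  (∀ v k, (δ v).coeff k = (k : F) * v.coeff k) ∧ (∀ u, u ≠ 0 → (δ u / u).coeff 0 = (u.order : F)) ∧
  (∀ f : PowerSeries F, δ (f : LaurentSeries F) =
    ((PowerSeries.X * PowerSeries.derivative F f : PowerSeries F) : LaurentSeries F)) ∧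
  (∀ v, δ v = 0 → ∃ a : F, v = algebraMap F _ a) ∧ δ (ti F) = -ti F ∧ Transcendental F (ti F)

/-- it exists -/
def LAU_st : Prop := ∀ (F : Type) [Field F] [CharZero F],
  ∃ δ : Derivation F (LaurentSeries F) (LaurentSeries F), Lau δ

/-- a fixed point -/
def FIX_st : Prop := ∀ (R : Type) [CommRing R] (H₁ H₂ : Polynomial R), ∃ W : PowerSeries R,
  PowerSeries.constantCoeff W = 0 ∧
    W = W ^ 2 * Polynomial.aeval W H₁ + PowerSeries.X * Polynomial.aeval W H₂

/-- the roots at infinity -/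
def INH_st : Prop := ∀ (F : Type) [Field F] [CharZero F] (m : ℕ) (r : Fin m → ℤ) (c : ℕ),
  Function.Injective r → 0 < c →
  ∃ B : Fin (m + 1) → LaurentSeries F, Rt r (c * ti F) B ∧ Ords r B

/-- the generic field exists -/
def EXG_st : Prop := ∀ (F : Type) [Field F] [CharZero F] (m : ℕ) (r : Fin m → ℤ) (d : Polynomial ℤ)
  (c c' : ℕ), Function.Injective r → IsD r d → Cop F d c c' → 0 < c → 0 < c' →
  ∃ (E : Type) (_ : Field E) (_ : Algebra F E) (δ : Derivation F E E) (τ : E)
    (A A' : Fin (m + 1) → E) (φ : E →ₐ[F] LaurentSeries F), Gn F r c c' τ A A' ∧ δ τ = 1 ∧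
    φ τ = ti F ∧ Ords r (φ ∘ A) ∧ Ords r (φ ∘ A')

/-- it maps to every field with roots -/
def LFT_st : Prop := ∀ (F E L : Type) [Field F] [Field E] [Algebra F E] [Field L] [Algebra F L]
  (m : ℕ) (r : Fin m → ℤ) (c c' : ℕ) (τ : E) (A A' : Fin (m + 1) → E) (τ' : L)
  (B B' : Fin (m + 1) → L), Gn F r c c' τ A A' → Transcendental F τ' → Rt r (c * τ') B →
  Rt r (c' * τ') B' → ∃ (φ : E →ₐ[F] L) (π π' : Equiv.Perm (Fin (m + 1))), φ τ = τ' ∧
    (∀ s, φ (A s) = B (π s)) ∧ ∀ s, φ (A' s) = B' (π' s)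

/-- in finitely many ways -/
def FIN_st : Prop := ∀ (F E L : Type) [Field F] [Field E] [Algebra F E] [Field L] [Algebra F L]
  (m : ℕ) (r : Fin m → ℤ) (c c' : ℕ) (τ : E) (A A' : Fin (m + 1) → E) (τ' : L),
  Gn F r c c' τ A A' → Finite {φ : E →ₐ[F] L // φ τ = τ'}

/-- the maps respect the derivations -/
def UNQ_st : Prop := ∀ (F E L : Type) [Field F] [CharZero F] [Field E] [Algebra F E] [Field L]
  [Algebra F L]
  (m : ℕ) (r : Fin m → ℤ) (d : Polynomial ℤ) (c c' : ℕ) (τ : E) (A A' : Fin (m + 1) → E)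
  (δ : Derivation F E E) (δ' : Derivation F L L) (φ : E →ₐ[F] L), Gn F r c c' τ A A' → IsD r d →
  Cop F d c c' → 0 < c → 0 < c' → δ τ = 1 → ∀ v, δ' (φ v) = δ' (φ τ) * φ (δ v)

/-- a function without poles is constant -/
def LIO_st : Prop := ∀ (F E : Type) [Field F] [CharZero F] [Field E] [Algebra F E]
  (m : ℕ) (r : Fin m → ℤ) (c c' : ℕ) (τ : E) (A A' : Fin (m + 1) → E)
  (φ₀ : E →ₐ[F] LaurentSeries F) (v : E), Gn F r c c' τ A A' → φ₀ τ = ti F →
  IsIntegral (Algebra.adjoin F {τ}) v →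
  (∀ φ : E →ₐ[F] LaurentSeries F, φ τ = ti F → ∀ k < 0, (φ v).coeff k = 0) →
  ∃ a : F, v = algebraMap F E a

/-- the line is simply connected -/
def LND_st : Prop := ∀ (F E : Type) [Field F] [CharZero F] [Field E] [Algebra F E]
  (m : ℕ) (r : Fin m → ℤ) (d : Polynomial ℤ) (c c' : ℕ) (τ : E) (A A' : Fin (m + 1) → E)
  (δ : Derivation F E E) (φ₀ : E →ₐ[F] LaurentSeries F) (v : E), Gn F r c c' τ A A' → IsD r d →
  Cop F d c c' → 0 < c → 0 < c' → δ τ = 1 → φ₀ τ = ti F →
  v ∈ Algebra.adjoin F (insert τ (Set.range A)) → v ∈ Algebra.adjoin F (insert τ (Set.range A')) →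
  v ∈ Algebra.adjoin F {τ}

/-- a maximal independent family of integral vectors -/
def ORD_st : Prop := ∀ (I P : Type) [Finite I] (o : I → P → ℤ), ∃ (k N : ℕ) (J : Fin k → I)
  (e : I → Fin k → ℤ), 0 < N ∧ (∀ n : Fin k → ℤ, (∀ q, ∑ j, n j * o (J j) q = 0) → n = 0) ∧
    ∀ i q, N * o i q = ∑ j, e i j * o (J j) q

/-- a product of units of order zero at all places at infinity is constant -/
def CST_st : Prop := ∀ (F E ι : Type) [Field F] [CharZero F] [Field E] [Algebra F E] [Fintype ι]
  (m : ℕ) (r : Fin m → ℤ) (c c' : ℕ) (τ : E) (A A' : Fin (m + 1) → E)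
  (φ₀ : E →ₐ[F] LaurentSeries F) (δ : Derivation F E E) (U V : ι → E) (n : ι → ℤ),
  Gn F r c c' τ A A' → φ₀ τ = ti F → (∀ j, U j * V j = 1) →
  (∀ j, IsIntegral (Algebra.adjoin F {τ}) (U j)) → (∀ j, IsIntegral (Algebra.adjoin F {τ}) (V j)) →
  (∀ φ : E →ₐ[F] LaurentSeries F, φ τ = ti F → ∑ j, n j * (φ (U j)).order = 0) →
  (∃ a : F, a ≠ 0 ∧ ∏ j, U j ^ n j = algebraMap F E a) ∧ ∑ j, (n j : E) * (δ (U j) * V j) = 0

/-- the selection in the generic field -/
def STA_st : Prop := ∀ (F E : Type) [Field F] [CharZero F] [Field E] [Algebra F E]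
  (m : ℕ) (r : Fin m → ℤ) (d : Polynomial ℤ) (c c' : ℕ) (τ : E) (A A' : Fin (m + 1) → E)
  (δ : Derivation F E E) (φ₀ : E →ₐ[F] LaurentSeries F), Gn F r c c' τ A A' → IsD r d →
  Cop F d c c' → 0 < c → 0 < c' → δ τ = 1 → φ₀ τ = ti F → Ords r (φ₀ ∘ A) → Ords r (φ₀ ∘ A') →
  ∃ (k k' : ℕ) (σ : Sel m k) (σ' : Sel m k'), 0 < σ.N ∧ 0 < σ'.N ∧ σ.Phi ≠ 0 ∧ σ'.Phi ≠ 0 ∧
    σ.Rel r δ (c * τ) A ∧ σ'.Rel r δ (c' * τ) A' ∧ ∀ (κ : Fin k ⊕ Fin k' → F) (w : E),
      ∑ j, κ j • (δ (UU σ σ' r A A' j) * VV σ σ' r (c * τ) (c' * τ) A A' j) = δ w → κ = 0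

/-- the selection holds at the point -/
def Pt {F : Type} [Field F] {m k k' : ℕ} (σ : Sel m k) (σ' : Sel m k') (r : Fin m → ℤ) (c c' : ℕ)
    (τ : PowerSeries F) (A A' : Fin (m + 1) → PowerSeries F) : Prop :=
  σ.Rel r (PowerSeries.derivative F) (c * τ) A ∧ σ'.Rel r (PowerSeries.derivative F) (c' * τ) A' ∧
    AlgebraicIndependent F fun o : Option (Fin k ⊕ Fin k') => o.elim τ fun j =>
      lgs (UU σ σ' r A A' j) (VV σ σ' r (c * τ) (c' * τ) A A' j)

/-- the selection at the points -/
def STR_st : Prop := ∀ (F : Type) [Field F] [CharZero F] (m : ℕ) (r : Fin m → ℤ) (d : Polynomial ℤ)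
  (c c' : ℕ), Function.Injective r → IsD r d → Cop F d c c' → 0 < c → 0 < c' →
  ∃ (k k' : ℕ) (σ : Sel m k) (σ' : Sel m k'), 0 < σ.N ∧ 0 < σ'.N ∧ σ.Phi ≠ 0 ∧ σ'.Phi ≠ 0 ∧
    ∀ (t κ : F) (τ : PowerSeries F) (A A' : Fin (m + 1) → PowerSeries F), κ ≠ 0 →
      τ = PowerSeries.C t + PowerSeries.C κ * PowerSeries.X → Rt r (c * τ) A → Rt r (c' * τ) A' →
      ∃ π π' : Equiv.Perm (Fin (m + 1)), Pt σ σ' r c c' τ (A ∘ π) (A' ∘ π')

/-- the index set of the rows -/
abbrev Iy (D K : ℕ) (ι : Type) : Type := Fin D × Fin (K + 1) × (ι → Fin (K + 1))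

/-- reduction of the monomials -/
def RDG_st : Prop := ∀ (m : ℕ) (r : Fin m → ℤ) (c c' B : ℕ) (α : Vr m → ℕ), ∑ i, α i ≤ B →
  ∃ u : Fin (B + 1) × (Fin (m + 1) ⊕ Fin (m + 1) → Fin (m + 1)) → ℤ,
    ∀ (S : Type) [CommRing S] (τ : S) (A A' : Fin (m + 1) → S), Rt r (c * τ) A → Rt r (c' * τ) A' →
      ∏ i, gg τ A A' i ^ α i = ∑ q, (u q : S) * (τ ^ (q.1 : ℕ) * ∏ i, Sum.elim A A' i ^ (q.2 i : ℕ))

/-- the number of zeros of a function on the curve -/
def NRG_st : Prop := ∀ (m : ℕ) (r : Fin m → ℤ) (c c' : ℕ), ∃ ν : ℕ,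
  ∀ (F P : Type) [Field F] [CharZero F] (N : ℕ) (t κ : P → F) (τ : P → PowerSeries F)
    (A A' : P → Fin (m + 1) → PowerSeries F) (W : MvPolynomial (Vr m) F) (Q : Finset P),
    Function.Injective t → (∀ s, κ s ≠ 0) →
    (∀ s, τ s = PowerSeries.C (t s) + PowerSeries.C (κ s) * PowerSeries.X) →
    (∀ s, Rt r (c * τ s) (A s)) → (∀ s, Rt r (c' * τ s) (A' s)) →
    (∀ s ∈ Q, MvPolynomial.aeval (gg (τ s) (A s) (A' s)) W ≠ 0 ∧
      PowerSeries.X ^ N ∣ MvPolynomial.aeval (gg (τ s) (A s) (A' s)) W) →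
    Q.card * N ≤ ν * (W.totalDegree + ν)

/-- the zero estimate for an abstract system -/
def ZRG_st : Prop := ∀ (F P σ ι : Type) [Field F] [CharZero F] [Fintype P] [Fintype ι]
  [DecidableEq ι] (D K n h ν : ℕ) (o : σ) (th : σ → MvPolynomial σ F) (lw : ι → MvPolynomial σ F)
  (t : P → F) (γ : P → PowerSeries F) (g : P → σ → PowerSeries F) (ml : P → ι → PowerSeries F)
  (v : Iy D K ι → F), (∀ i, (th i).totalDegree ≤ h) → (∀ j, (lw j).totalDegree ≤ h) →
  Function.Injective t → (∀ s, γ s ≠ 0) →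
  (∀ s i, γ s * PowerSeries.derivative F (g s i) = MvPolynomial.aeval (g s) (th i)) →
  (∀ s j, γ s * PowerSeries.derivative F (ml s j) = MvPolynomial.aeval (g s) (lw j)) →
  (∀ s, AlgebraicIndependent F fun q : Option ι => q.elim (g s o) (ml s)) →
  (∀ (W : MvPolynomial σ F) (N : ℕ) (Q : Finset P), (∀ s ∈ Q, MvPolynomial.aeval (g s) W ≠ 0 ∧
    PowerSeries.X ^ N ∣ MvPolynomial.aeval (g s) W) → Q.card * N ≤ ν * (W.totalDegree + ν)) →
  v ≠ 0 → (∀ s, PowerSeries.X ^ n ∣ ∑ q : Iy D K ι, PowerSeries.C (v q) * (g s o ^ (q.1 : ℕ) *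
    PowerSeries.C (t s) ^ (q.2.1 : ℕ) * ∏ j, ml s j ^ (q.2.2 j : ℕ))) →
  (Fintype.card P - K) * (n - (K + 1) ^ (2 * Fintype.card ι + 1)) ≤
    ν * ((K + 1) ^ (2 * Fintype.card ι + 1) *
      (D + (Fintype.card ι + h) * (K + 1) ^ (2 * Fintype.card ι + 1)) + ν)

/-- the zero estimate -/
def ZEG_st : Prop := ∀ (m k k' : ℕ) (σ : Sel m k) (σ' : Sel m k') (r : Fin m → ℤ)
  (d : Polynomial ℤ) (c c' : ℕ), IsD r d → ∃ ν : ℕ,
  ∀ (F P : Type) [Field F] [CharZero F] [Fintype P] (D K n : ℕ) (t κ : P → F)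
    (τ : P → PowerSeries F) (A A' : P → Fin (m + 1) → PowerSeries F)
    (v : Iy D K (Fin k ⊕ Fin k') → F), Cop F d c c' → 0 < c → 0 < c' →
    Function.Injective t → (∀ s, κ s ≠ 0) →
    (∀ s, τ s = PowerSeries.C (t s) + PowerSeries.C (κ s) * PowerSeries.X) →
    (∀ s, Rt r (c * τ s) (A s)) → (∀ s, Rt r (c' * τ s) (A' s)) →
    (∀ s, Pt σ σ' r c c' (τ s) (A s) (A' s)) → v ≠ 0 →
    (∀ s, PowerSeries.X ^ n ∣ ∑ q : Iy D K (Fin k ⊕ Fin k'), PowerSeries.C (v q) *
      (τ s ^ (q.1 : ℕ) * PowerSeries.C (t s) ^ (q.2.1 : ℕ) * ∏ j, lgs (UU σ σ' r (A s) (A' s) j)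
        (VV σ σ' r (c * τ s) (c' * τ s) (A s) (A' s) j) ^ (q.2.2 j : ℕ))) →
    (Fintype.card P - K) * (n - (K + 1) ^ (2 * (k + k') + 1)) ≤
      ν * ((K + 1) ^ (2 * (k + k') + 1) * (D + ν * (K + 1) ^ (2 * (k + k') + 1)) + ν)

end Pool.Agent.MP_3e91a1_nt.GN

end
end

section

/-! Large primes give coprime discriminants. -/

set_option autoImplicit false

open Polynomial

namespace Pool.Agent.MP_3e91a1_nt.GN

open TR

theorem sub_COP {F : Type} [Field F] [CharZero F] {v v' : F} (hv : v ≠ 0) :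
    {c : ℕ | c.Prime ∧ ∃ c' : ℕ, c'.Prime ∧ c ≠ c' ∧ c * v' = c' * v}.Subsingleton := by
  rintro c ⟨hc, c', hc', hn, e⟩ a ⟨ha, a', -, -, f⟩
  have h1 : ((c * a' : ℕ) : F) = (a * c' : ℕ) := by
    push_cast
    refine mul_right_cancel₀ hv ?_
    linear_combination (a : F) * e - (c : F) * f
  have h2 : c ∣ a * c' := ⟨a', (Nat.cast_injective h1).symm⟩
  rcases (Nat.Prime.dvd_mul hc).1 h2 with h | h
  · exact (Nat.prime_dvd_prime_iff_eq hc ha).1 h
  · exact absurd ((Nat.prime_dvd_prime_iff_eq hc hc').1 h) hn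

theorem ev_COP {F : Type} [Field F] (d : ℤ[X]) (c : ℕ) (z : F) :
    aeval z (aeval ((c : F[X]) * X) d) = aeval (c * z) d := by
  have h := aeval_algHom_apply ((aeval z : F[X] →ₐ[F] F).restrictScalars ℤ) ((c : F[X]) * X) d
  simpa using h.symm

theorem COP_pf : COP_st := by
  intro d hd
  let F := AlgebraicClosure ℚ
  have h0 : aeval (0 : F) d ≠ 0 := by
    rw [← (algebraMap ℤ F).map_zero, aeval_algebraMap_apply]
    simpa using hd
  have h1 : d.map (algebraMap ℤ F) ≠ 0 := fun h => h0 (by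
    rw [aeval_def, eval₂_eq_eval_map, h, eval_zero])
  have hf : (⋃ v ∈ d.rootSet F, ⋃ v' ∈ d.rootSet F,
      {c : ℕ | c.Prime ∧ ∃ c' : ℕ, c'.Prime ∧ c ≠ c' ∧ c * v' = c' * v}).Finite :=
    (d.rootSet_finite F).biUnion fun v hv => (d.rootSet_finite F).biUnion fun v' _ =>
      (sub_COP fun h => h0 (by subst h; exact (mem_rootSet'.1 hv).2)).finite
  obtain ⟨y, hy⟩ := hf.bddAbove
  refine ⟨y, fun c c' hc hc' yc _ hn => ?_⟩
  refine (Polynomial.isCoprime_iff_aeval_ne_zero_of_isAlgClosed F F _ _).2 fun z => ?_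
  by_contra h
  rw [not_or, not_not, not_not, ev_COP, ev_COP] at h
  refine yc.not_ge (hy ?_)
  simp only [Set.mem_iUnion]
  exact ⟨c * z, mem_rootSet'.2 ⟨h1, h.1⟩, c' * z, mem_rootSet'.2 ⟨h1, h.2⟩, hc, c', hc', hn,
    by ring⟩

end Pool.Agent.MP_3e91a1_nt.GN

end

section

/-! The discriminant does not vanish. -/

set_option autoImplicit false

open Finset Polynomial

noncomputable section

namespace Pool.Agent.MP_3e91a1_nt.GN

open TR

theorem map_fp_DNZ {m : ℕ} (r : Fin m → ℤ) {S S' : Type} [CommRing S] [CommRing S']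
    (φ : S →+* S') (T : S) : (fp r T).map φ = fp r (φ T) := by
  unfold fp
  rw [Polynomial.map_sub, Polynomial.map_mul, Polynomial.map_prod, Polynomial.map_add,
    Polynomial.map_X, Polynomial.map_C, Polynomial.map_one]
  simp only [Polynomial.map_sub, Polynomial.map_X, Polynomial.map_C, map_intCast,
    Polynomial.map_intCast]

theorem monic_fp_DNZ {m : ℕ} (r : Fin m → ℤ) {S : Type} [Field S] (T : S) :
    (fp r T).Monic ∧ (fp r T).natDegree = m + 1 := by
  have h1 : (∏ i, (X - C (r i : S))).Monic := monic_prod_of_monic _ _ fun i _ => monic_X_sub_C _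
  have h2 : (∏ i, (X - C (r i : S))).natDegree = m := by
    rw [natDegree_prod_of_monic _ _ fun i _ => monic_X_sub_C _]
    simp only [natDegree_X_sub_C, sum_const, card_univ, Fintype.card_fin, smul_eq_mul, mul_one]
  have h3 : ((∏ i, (X - C (r i : S))) * (X + C T)).Monic := h1.mul (monic_X_add_C T)
  have h4 : ((∏ i, (X - C (r i : S))) * (X + C T)).natDegree = m + 1 := by
    rw [h1.natDegree_mul (monic_X_add_C T), h2, natDegree_X_add_C]
  have h5 : (1 : S[X]).natDegree < ((∏ i, (X - C (r i : S))) * (X + C T)).natDegree := by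
    rw [h4, natDegree_one]
    exact Nat.succ_pos m
  refine ⟨h3.sub_of_left (degree_lt_degree h5), ?_⟩
  unfold fp
  rw [natDegree_sub_eq_left_of_natDegree_lt h5, h4]

theorem roots_DNZ {K : Type} [Field K] [IsAlgClosed K] {n : ℕ} (Q : K[X]) (hm : Q.Monic)
    (hn : Q.natDegree = n) (hs : Q.Separable) :
    ∃ A : Fin n → K, Function.Injective A ∧ ∏ s, (X - C (A s)) = Q := by
  classical
  have hc : Multiset.card Q.roots = Q.natDegree := IsAlgClosed.card_roots_eq_natDegree
  have hd : Q.roots.Nodup := nodup_roots hs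
  let s : Finset K := ⟨Q.roots, hd⟩
  have hcard : s.card = n := hc.trans hn
  let e : s ≃ Fin n := Finset.equivFinOfCardEq hcard
  refine ⟨fun i => (e.symm i : K), fun i j hij => e.symm.injective (Subtype.ext hij), ?_⟩
  have h1 : ∏ i, (X - C ((e.symm i : s) : K)) = ∏ a : s, (X - C (a : K)) :=
    Equiv.prod_comp e.symm fun a : s => X - C (a : K)
  rw [h1, Finset.prod_coe_sort s fun a : K => X - C a]
  exact prod_multiset_X_sub_C_of_monic_of_roots_card_eq hm hc

theorem cast_DNZ {m : ℕ} (r : Fin m → ℤ) (d : ℤ[X]) (hd : IsD r d) (S : Type) [CommRing S]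
    (T : ℤ) (A : Fin (m + 1) → S) (h : Rt r (T : S) A) :
    ∏ s, fd A s = ((aeval T d : ℤ) : S) := by
  rw [hd S (T : S) A h]
  simpa only [eq_intCast] using aeval_algebraMap_apply S T d

theorem DNZ_pf (hSCH : SCH_st) : DNZ_st := by
  intro m r d T hr hd hT h0
  have hsep : (fp r (T : ℚ)).Separable := (hSCH m r T hr hT).separable
  have hsep' : (fp r (T : AlgebraicClosure ℚ)).Separable := by
    have h := hsep.map (f := algebraMap ℚ (AlgebraicClosure ℚ))
    rwa [map_fp_DNZ, map_intCast] at h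
  obtain ⟨hm, hn⟩ := monic_fp_DNZ r (T : AlgebraicClosure ℚ)
  obtain ⟨A, hA, hP⟩ := roots_DNZ _ hm hn hsep'
  have h1 := cast_DNZ r d hd (AlgebraicClosure ℚ) T A hP
  rw [h0, Int.cast_zero, Finset.prod_eq_zero_iff] at h1
  obtain ⟨s, -, hs⟩ := h1
  unfold fd at hs
  rw [Finset.prod_eq_zero_iff] at hs
  obtain ⟨s', hs', h⟩ := hs
  exact (Finset.mem_erase.1 hs').1 (hA (sub_eq_zero.1 h)).symm

end Pool.Agent.MP_3e91a1_nt.GN

end
end

section

/-! The generic field exists. -/

set_option autoImplicit false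

open Finset Filter

noncomputable section

namespace Pool.Agent.MP_3e91a1_nt.GN

open TR

lemma rt_EXG {m : ℕ} {r : Fin m → ℤ} {S S' : Type} [CommRing S] [CommRing S'] (φ : S →+* S')
    (hφ : Function.Injective φ) {T : S} {A : Fin (m + 1) → S} (h : Rt r (φ T) (φ ∘ A)) :
    Rt r T A := by
  apply Polynomial.map_injective φ hφ
  unfold Rt fp at h
  simpa [fp, Polynomial.map_prod] using h

lemma ne_EXG {F L : Type} [Field F] [CharZero F] [Field L] [Algebra F L] {t : L}
    (ht : Transcendental F t) {d : Polynomial ℤ} (hd : d ≠ 0) {c : ℕ} (hc : 0 < c) :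
    Polynomial.aeval ((c : L) * t) d ≠ 0 := by
  intro h
  apply ht
  have h1 : IsAlgebraic F ((c : L) * t) := by
    refine ⟨d.map (algebraMap ℤ F), ?_, ?_⟩
    · exact (Polynomial.map_ne_zero_iff (algebraMap ℤ F).injective_int).2 hd
    · rw [Polynomial.aeval_map_algebraMap]
      exact h
  have h2 : t = algebraMap F L (c : F)⁻¹ * ((c : L) * t) := by
    have h3 : (c : F) ≠ 0 := by exact_mod_cast hc.ne'
    rw [← mul_assoc, ← map_natCast (algebraMap F L) c, ← map_mul, inv_mul_cancel₀ h3, map_one,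
      one_mul]
  rw [h2]
  exact (isAlgebraic_algebraMap _).mul h1

lemma root_EXG (hITG : ITG_st) {F L : Type} [Field F] [CharZero F] [Field L] [Algebra F L]
    {m : ℕ} {r : Fin m → ℤ} {d : Polynomial ℤ} (hD : IsD r d) (hd : d ≠ 0) {t : L}
    (ht : Transcendental F t) {c : ℕ} (hc : 0 < c) {B : Fin (m + 1) → L} (hB : Rt r (c * t) B)
    (D : Derivation F L L) (h1 : D t = 1) (E : IntermediateField F L) (hE : ∀ s, B s ∈ E)
    (s : Fin (m + 1)) : D (B s) ∈ E := by
  have h2 : fd B s ≠ 0 := by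
    have h3 := ne_EXG ht hd hc
    rw [← hD L _ B hB] at h3
    exact Finset.prod_ne_zero_iff.1 h3 s (mem_univ s)
  have h4 := (hITG m r L _ B hB).2.2.2.2.2 F D s
  have h5 : D ((c : L) * t) = c := by
    rw [← nsmul_eq_mul, map_nsmul, h1, nsmul_eq_mul, mul_one]
  rw [h5] at h4
  have h6 : D (B s) = (fd B s)⁻¹ * (-(∏ i, (B s - r i)) * c) := by
    rw [← h4, ← mul_assoc, inv_mul_cancel₀ h2, one_mul]
  rw [h6]
  refine mul_mem (inv_mem ?_) (mul_mem (neg_mem ?_) (natCast_mem E c))
  · exact prod_mem fun s' _ => sub_mem (hE s) (hE s')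
  · exact prod_mem fun i _ => sub_mem (hE s) (intCast_mem E _)

lemma cl_EXG {F L : Type} [Field F] [Field L] [Algebra F L] (D : Derivation F L L) (X : Set L)
    (h : ∀ x ∈ X, D x ∈ IntermediateField.adjoin F X) :
    ∀ v ∈ IntermediateField.adjoin F X, D v ∈ IntermediateField.adjoin F X := by
  intro v hv
  induction hv using IntermediateField.adjoin_induction with
  | mem x hx => exact h x hx
  | algebraMap x => rw [D.map_algebraMap]; exact zero_mem _
  | add x y _ _ hx hy => rw [map_add]; exact add_mem hx hy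
  | inv x hx h1 =>
    rw [D.leibniz_inv, smul_eq_mul]
    exact mul_mem (neg_mem (pow_mem (inv_mem hx) 2)) h1
  | mul x y hx hy h1 h2 =>
    rw [D.leibniz, smul_eq_mul, smul_eq_mul]
    exact add_mem (mul_mem hx h2) (mul_mem hy h1)

/-- restriction of a derivation to a stable subfield -/
def res_EXG {F L : Type} [Field F] [Field L] [Algebra F L] (D : Derivation F L L)
    (E : IntermediateField F L) (h : ∀ v ∈ E, D v ∈ E) : Derivation F E E :=
  Derivation.mk'
    { toFun := fun v => ⟨D v, h v v.2⟩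
      map_add' := fun x y => Subtype.ext (map_add D (x : L) (y : L))
      map_smul' := fun a x => Subtype.ext (D.map_smul a (x : L)) }
    fun x y => Subtype.ext (D.leibniz (x : L) (y : L))

lemma mk_EXG {F L : Type} [Field F] [Field L] [Algebra F L] (f : L → L) (t : L) (ht : t ≠ 0)
    (h1 : ∀ x y, f (x + y) = f x + f y) (h2 : ∀ x y, f (x * y) = x * f y + y * f x)
    (h3 : ∀ a : F, f (algebraMap F L a) = 0) (h4 : f t = -t) :
    ∃ D : Derivation F L L, D t = 1 := by
  refine ⟨Derivation.mk'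
    { toFun := fun v => -t⁻¹ * f v
      map_add' := fun x y => by rw [h1, mul_add]
      map_smul' := fun a x => by
        rw [Algebra.smul_def, h2, h3, RingHom.id_apply, Algebra.smul_def]
        ring }
    fun x y => ?_, ?_⟩
  · change -t⁻¹ * f (x * y) = x * (-t⁻¹ * f y) + y * (-t⁻¹ * f x)
    rw [h2]
    ring
  · change -t⁻¹ * f t = 1
    rw [h4, neg_mul_neg, inv_mul_cancel₀ ht]

theorem EXG_pf (hITG : ITG_st) (hLAU : LAU_st) (hINH : INH_st) : EXG_st := by
  intro F _ _ m r d c c' hr hD hC hc hc'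
  obtain ⟨δ', -, -, -, -, hδ, hT⟩ := hLAU F
  obtain ⟨B, hB, hO⟩ := hINH F m r c hr hc
  obtain ⟨B', hB', hO'⟩ := hINH F m r c' hr hc'
  have hd : d ≠ 0 := by
    rintro rfl
    unfold Cop at hC
    rw [map_zero, map_zero] at hC
    exact not_isCoprime_zero_zero hC
  have ht0 : ti F ≠ 0 := fun h => hT (h ▸ isAlgebraic_zero)
  obtain ⟨D, h1⟩ := mk_EXG (F := F) δ' (ti F) ht0 (fun x y => map_add δ' x y)
    (fun x y => δ'.leibniz x y) (fun a => δ'.map_algebraMap a) hδ
  set E := IntermediateField.adjoin F (Set.range (gg (ti F) B B')) with hE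
  have m0 : ∀ o, gg (ti F) B B' o ∈ E := fun o => IntermediateField.subset_adjoin F _ ⟨o, rfl⟩
  have m1 : ti F ∈ E := m0 none
  have m2 : ∀ s, B s ∈ E := fun s => m0 (some (Sum.inl s))
  have m3 : ∀ s, B' s ∈ E := fun s => m0 (some (Sum.inr s))
  have hcl : ∀ v ∈ E, D v ∈ E := by
    refine cl_EXG D _ ?_
    rintro _ ⟨o, rfl⟩
    rcases o with _ | s | s
    · change D (ti F) ∈ E
      rw [h1]
      exact one_mem E
    · exact root_EXG hITG hD hd hT hc hB D h1 E m2 s
    · exact root_EXG hITG hD hd hT hc' hB' D h1 E m3 s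
  refine ⟨E, inferInstance, inferInstance, res_EXG D E hcl, ⟨ti F, m1⟩, fun s => ⟨B s, m2 s⟩,
    fun s => ⟨B' s, m3 s⟩, E.val, ⟨fun h => hT (h.algHom E.val), ?_, ?_, ?_⟩, Subtype.ext h1,
    rfl, hO, hO'⟩
  · refine rt_EXG (algebraMap E (LaurentSeries F)) Subtype.val_injective ?_
    rw [map_mul, map_natCast]
    exact hB
  · refine rt_EXG (algebraMap E (LaurentSeries F)) Subtype.val_injective ?_
    rw [map_mul, map_natCast]
    exact hB'
  · apply IntermediateField.lift_injective E
    rw [IntermediateField.lift_adjoin, IntermediateField.lift_top, ← Set.range_comp]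
    have : (Subtype.val ∘ gg (⟨ti F, m1⟩ : E) (fun s => ⟨B s, m2 s⟩) fun s => ⟨B' s, m3 s⟩) =
        gg (ti F) B B' := by
      funext o
      rcases o with _ | s | s <;> rfl
    rw [this]

end Pool.Agent.MP_3e91a1_nt.GN

end
end

section

/-! The generic field has finitely many places over a given value of the parameter. -/

set_option autoImplicit false

open Finset Polynomial

namespace Pool.Agent.MP_3e91a1_nt.GN

open TR

theorem root_FIN {m : ℕ} {r : Fin m → ℤ} {E L : Type} [Field E] [Field L] (φ : E →+* L) {T : E}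
    {A : Fin (m + 1) → E} (h : Rt r T A) (s : Fin (m + 1)) : φ (A s) ∈ (fp r (φ T)).roots := by
  have e : ∏ s, (X - C (φ (A s))) = fp r (φ T) := by
    have := congrArg (Polynomial.map φ) h
    simpa [fp, Polynomial.map_prod] using this
  rw [← e, mem_roots (monic_prod_of_monic _ _ fun s _ => monic_X_sub_C _).ne_zero, IsRoot,
    eval_prod]
  exact prod_eq_zero (mem_univ s) (by simp)

theorem FIN_pf : FIN_st := by
  classical
  intro F E L _ _ _ _ _ m r c c' τ A A' τ' ⟨_, h1, h2, h3⟩
  refine Finite.of_injective (β := (Fin (m + 1) → (fp r (c * τ')).roots.toFinset) ×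
      (Fin (m + 1) → (fp r (c' * τ')).roots.toFinset))
    (fun φ => (fun s => ⟨φ.1 (A s), by simpa [φ.2] using root_FIN φ.1.toRingHom h1 s⟩,
      fun s => ⟨φ.1 (A' s), by simpa [φ.2] using root_FIN φ.1.toRingHom h2 s⟩)) fun φ ψ e => ?_
  obtain ⟨e1, e2⟩ := Prod.mk.inj e
  refine Subtype.ext (AlgHom.ext fun x => ?_)
  have hx : x ∈ IntermediateField.adjoin F (Set.range (gg τ A A')) := h3 ▸ IntermediateField.mem_top
  induction hx using IntermediateField.adjoin_induction with
  | mem x hx =>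
    obtain ⟨_ | s | s, rfl⟩ := hx
    · exact φ.2.trans ψ.2.symm
    · exact congrArg Subtype.val (congrFun e1 s)
    · exact congrArg Subtype.val (congrFun e2 s)
  | algebraMap x => simp
  | add x y _ _ hx hy => simp [hx, hy]
  | inv x _ hx => simp [hx]
  | mul x y _ _ hx hy => simp [hx, hy]

end Pool.Agent.MP_3e91a1_nt.GN

end

section

/-! The roots at infinity. -/

set_option autoImplicit false

open Finset

namespace Pool.Agent.MP_3e91a1_nt.GN

open TR

theorem ord_INH {F : Type} [Field F] {f : PowerSeries F} (h : PowerSeries.constantCoeff f ≠ 0) :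
    (f : LaurentSeries F) ≠ 0 ∧ (f : LaurentSeries F).order = 0 := by
  have h0 : (f : LaurentSeries F).coeff 0 ≠ 0 := by
    rw [PowerSeries.coeff_coe]
    simpa using h
  have h1 : (f : LaurentSeries F) ≠ 0 := fun e => h0 (by rw [e]; rfl)
  refine ⟨h1, le_antisymm (HahnSeries.order_le_of_coeff_ne_zero h0) (not_lt.1 fun h2 => ?_)⟩
  have h3 := mt HahnSeries.coeff_order_eq_zero.1 h1
  rw [PowerSeries.coeff_coe, if_pos h2] at h3
  exact h3 rfl

theorem root_INH (hFIX : FIX_st) {F ι : Type} [Field F] (I : Finset ι) (a : ι → F)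
    (ha : ∀ i ∈ I, a i ≠ 0) (c ρ : F) (hc : c ≠ 0) : ∃ W : PowerSeries F,
    PowerSeries.constantCoeff W = 0 ∧ W * (∏ i ∈ I, (W + PowerSeries.C (a i))) *
      (PowerSeries.C c + PowerSeries.X * (PowerSeries.C ρ + W)) = PowerSeries.X := by
  obtain ⟨q, hq⟩ : ∃ q : Polynomial F, q = ∏ i ∈ I, (Polynomial.X + Polynomial.C (a i)) :=
    ⟨_, rfl⟩
  have h0 : q.coeff 0 ≠ 0 := by
    rw [Polynomial.coeff_zero_eq_eval_zero, hq, Polynomial.eval_prod]
    exact Finset.prod_ne_zero_iff.2 fun i hi => by simpa using ha i hi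
  obtain ⟨W, h1, h2⟩ := hFIX F (-(Polynomial.C (q.coeff 0)⁻¹ * q.divX))
    (Polynomial.C (c⁻¹ * (q.coeff 0)⁻¹) *
      (1 - Polynomial.X * q * (Polynomial.C ρ + Polynomial.X)))
  refine ⟨W, h1, ?_⟩
  have h3 : ∏ i ∈ I, (W + PowerSeries.C (a i)) = Polynomial.aeval W q := by
    rw [hq, map_prod]
    refine Finset.prod_congr rfl fun i _ => ?_
    rw [map_add, Polynomial.aeval_X, Polynomial.aeval_C]
    rfl
  have h4 : W * Polynomial.aeval W q.divX + algebraMap F _ (q.coeff 0) = Polynomial.aeval W q := by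
    have := congrArg (Polynomial.aeval W) q.X_mul_divX_add
    rwa [map_add, map_mul, Polynomial.aeval_X, Polynomial.aeval_C] at this
  have h5 : algebraMap F (PowerSeries F) (q.coeff 0) * algebraMap F _ (q.coeff 0)⁻¹ = 1 := by
    rw [← map_mul, mul_inv_cancel₀ h0, map_one]
  have h6 : algebraMap F (PowerSeries F) c * algebraMap F _ c⁻¹ = 1 := by
    rw [← map_mul, mul_inv_cancel₀ hc, map_one]
  simp only [map_neg, map_mul, map_sub, map_add, map_one, Polynomial.aeval_X,
    Polynomial.aeval_C] at h2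
  rw [h3]
  show W * Polynomial.aeval W q * (algebraMap F _ c + PowerSeries.X * (algebraMap F _ ρ + W)) = _
  generalize Polynomial.aeval W q = Q at *
  generalize Polynomial.aeval W q.divX = D at *
  generalize algebraMap F (PowerSeries F) (q.coeff 0) = u at *
  generalize algebraMap F (PowerSeries F) (q.coeff 0)⁻¹ = u' at *
  generalize algebraMap F (PowerSeries F) c = v at *
  generalize algebraMap F (PowerSeries F) c⁻¹ = v' at *
  generalize algebraMap F (PowerSeries F) ρ = z at *
  linear_combination v * u * h2 - v * W * h4 - v * W ^ 2 * D * h5 +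
    PowerSeries.X * (1 - W * Q * (z + W)) * (v * v' * h5 + h6)

theorem split_INH {K : Type} [Field K] {m : ℕ} {p : Polynomial K} (hp : p.Monic)
    (hd : p.natDegree = m + 1) {A : Fin m → K} (hA : Function.Injective A)
    (hr : ∀ s, p.IsRoot (A s)) :
    ∃ b : K, ∏ s, (Polynomial.X - Polynomial.C ((Fin.snoc A b : Fin (m + 1) → K) s)) = p := by
  obtain ⟨g, hg⟩ : ∏ s, (Polynomial.X - Polynomial.C (A s)) ∣ p :=
    Finset.prod_dvd_of_coprime
      ((Polynomial.pairwise_coprime_X_sub_C hA).set_pairwise _)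
      fun s _ => Polynomial.dvd_iff_isRoot.2 (hr s)
  have h1 : (∏ s, (Polynomial.X - Polynomial.C (A s))).Monic :=
    Polynomial.monic_prod_X_sub_C _ _
  have h2 : g.Monic := h1.of_mul_monic_left (hg ▸ hp)
  have h3 : g.natDegree = 1 := by
    rw [hg, h1.natDegree_mul h2, Polynomial.natDegree_finsetProd_X_sub_C_eq_card] at hd
    simpa using hd
  refine ⟨-g.coeff 0, ?_⟩
  rw [Fin.prod_univ_castSucc]
  simp only [Fin.snoc_castSucc, Fin.snoc_last]
  rw [map_neg, sub_neg_eq_add, ← h2.eq_X_add_C h3, hg]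

theorem INH_pf (hFIX : FIX_st) : INH_st := by
  intro F _ _ m r c hr hc
  have hne : ∀ s i : Fin m, i ≠ s → ((r s - r i : ℤ) : F) ≠ 0 := fun s i h =>
    Int.cast_ne_zero.2 (sub_ne_zero.2 fun e => h (hr e).symm)
  choose W h1 h2 using fun s : Fin m => root_INH hFIX (univ.erase s)
    (fun i => ((r s - r i : ℤ) : F)) (fun i hi => hne s i (ne_of_mem_erase hi)) (c : F) (r s : F)
    (Nat.cast_ne_zero.2 hc.ne')
  obtain ⟨A, hA⟩ : ∃ A : Fin m → LaurentSeries F,
    A = fun s => (r s : LaurentSeries F) + (W s : LaurentSeries F) := ⟨_, rfl⟩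
  have e1 : ∀ s i, A s - r i =
      ((W s + PowerSeries.C ((r s - r i : ℤ) : F) : PowerSeries F) : LaurentSeries F) := by
    intro s i
    simp only [hA, map_add, map_intCast]
    push_cast
    ring
  have e2 : ∀ s, A s - r s = (W s : LaurentSeries F) := fun s => by simp [hA]
  have e3 : ∀ s i, i ≠ s → A s - r i ≠ 0 ∧ (A s - r i).order = 0 := fun s i h => by
    rw [e1]
    refine ord_INH ?_
    rw [map_add, h1, zero_add, PowerSeries.constantCoeff_C]
    exact hne s i h
  have eX : ((PowerSeries.X : PowerSeries F) : LaurentSeries F) = HahnSeries.single 1 1 :=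
    PowerSeries.coe_X
  have e4 : ∀ s, (W s : LaurentSeries F).order = 1 := fun s => by
    obtain ⟨a1, a2⟩ := ord_INH (f := (∏ i ∈ univ.erase s,
      (W s + PowerSeries.C ((r s - r i : ℤ) : F))) *
      (PowerSeries.C (c : F) + PowerSeries.X * (PowerSeries.C (r s : F) + W s))) (by
        rw [map_mul, map_prod]
        refine mul_ne_zero (Finset.prod_ne_zero_iff.2 fun i hi => ?_) ?_
        · rw [map_add, h1, zero_add, PowerSeries.constantCoeff_C]
          exact hne s i (ne_of_mem_erase hi)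
        · simpa using hc.ne')
    have a3 := congrArg (fun f : PowerSeries F => (f : LaurentSeries F)) (h2 s)
    simp only [mul_assoc] at a3
    rw [PowerSeries.coe_mul, eX] at a3
    have a4 : (W s : LaurentSeries F) ≠ 0 := fun e => by
      rw [e, zero_mul] at a3
      exact HahnSeries.single_ne_zero one_ne_zero a3.symm
    have a5 := congrArg HahnSeries.order a3
    rwa [HahnSeries.order_mul a4 a1, a2, add_zero, HahnSeries.order_single one_ne_zero] at a5
  have eT : ti F * ((PowerSeries.X : PowerSeries F) : LaurentSeries F) = 1 := by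
    rw [eX, ti, HahnSeries.single_mul_single]
    simp
  have m1 : ((∏ i, (Polynomial.X - Polynomial.C (r i : LaurentSeries F))) *
      (Polynomial.X + Polynomial.C (c * ti F))).Monic :=
    (Polynomial.monic_prod_X_sub_C _ _).mul (Polynomial.monic_X_add_C _)
  have m2 : ((∏ i, (Polynomial.X - Polynomial.C (r i : LaurentSeries F))) *
      (Polynomial.X + Polynomial.C (c * ti F))).natDegree = m + 1 := by
    rw [(Polynomial.monic_prod_X_sub_C _ _).natDegree_mul (Polynomial.monic_X_add_C _),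
      Polynomial.natDegree_finsetProd_X_sub_C_eq_card, Polynomial.natDegree_X_add_C]
    simp
  obtain ⟨b, hb⟩ := split_INH (p := fp r (c * ti F)) (m := m) (A := A)
    (m1.sub_of_left (by
      rw [Polynomial.degree_one, Polynomial.degree_eq_natDegree m1.ne_zero, m2]
      exact_mod_cast Nat.succ_pos m))
    (by rw [fp, ← Polynomial.C_1, Polynomial.natDegree_sub_C, m2])
    (fun s s' h => by
      by_contra hs
      have a1 := (e3 s' s hs).2
      rw [← h, e2, e4] at a1
      exact one_ne_zero a1)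
    (fun s => by
      have a3 := congrArg (fun f : PowerSeries F => (f : LaurentSeries F)) (h2 s)
      simp only [map_mul, map_prod, ← e1] at a3
      simp only [map_add, map_mul, map_natCast, map_intCast] at a3
      simp only [Polynomial.IsRoot, fp, Polynomial.eval_sub, Polynomial.eval_mul,
        Polynomial.eval_prod, Polynomial.eval_add, Polynomial.eval_X, Polynomial.eval_C,
        Polynomial.eval_one]
      rw [← Finset.mul_prod_erase univ _ (mem_univ s), e2]
      have a4 : A s = (r s : LaurentSeries F) + (W s : LaurentSeries F) := by rw [hA]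
      rw [← a4] at a3
      linear_combination ti F * a3 +
        (1 - (W s : LaurentSeries F) * (∏ i ∈ univ.erase s, (A s - r i)) * A s) * eT)
  refine ⟨Fin.snoc A b, hb, fun s i => ?_⟩
  simp only [uu, Fin.snoc_castSucc]
  split_ifs with h
  · rw [← h, e2, e4]
  · exact (e3 s i (Ne.symm h)).2

end Pool.Agent.MP_3e91a1_nt.GN

end

section

/-! The chain rule at a root. -/

set_option autoImplicit false

open Finset Filter

noncomputable section

namespace Pool.Agent.MP_3e91a1_nt.GN

open TR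

lemma ev_ITG {ι S : Type} [Fintype ι] [DecidableEq ι] [CommRing S] (a : ι → S) (x : S) :
    Polynomial.eval x (Polynomial.derivative (∏ i, (Polynomial.X - Polynomial.C (a i)))) =
      ∑ i, ∏ j ∈ univ.erase i, (x - a j) := by
  rw [Polynomial.derivative_prod_finset, Polynomial.eval_finsetSum]
  refine Finset.sum_congr rfl fun i _ => ?_
  simp [Polynomial.eval_prod]

lemma der_ITG {ι S F : Type} [DecidableEq ι] [CommRing S] [CommRing F] [Algebra F S]
    (δ : Derivation F S S) (r : ι → ℤ) (x : S) (I : Finset ι) :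
    δ (∏ i ∈ I, (x - r i)) = (∑ i ∈ I, ∏ j ∈ I.erase i, (x - r j)) * δ x := by
  induction I using Finset.induction_on with
  | empty => simp
  | insert a I ha ih =>
    have h1 : ∑ i ∈ I, ∏ j ∈ (insert a I).erase i, (x - r j) =
        (x - r a) * ∑ i ∈ I, ∏ j ∈ I.erase i, (x - r j) := by
      rw [Finset.mul_sum]
      refine Finset.sum_congr rfl fun i hi => ?_
      have hai : a ≠ i := fun h => ha (h ▸ hi)
      rw [Finset.erase_insert_of_ne hai,
        Finset.prod_insert fun h => ha (Finset.mem_of_mem_erase h)]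
    rw [Finset.prod_insert ha, Finset.sum_insert ha, Finset.erase_insert ha, h1, δ.leibniz, ih,
      map_sub, δ.map_intCast, smul_eq_mul, smul_eq_mul]
    ring

theorem ITG_pf : ITG_st := by
  intro m r S _ T A h
  have h2 : ∀ s, (∏ i, (A s - r i)) * (A s + T) = 1 := by
    intro s
    have h3 := congrArg (Polynomial.eval (A s)) h
    rw [Polynomial.eval_prod, Finset.prod_eq_zero (mem_univ s) (by simp)] at h3
    simp only [fp, Polynomial.eval_sub, Polynomial.eval_mul, Polynomial.eval_prod,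
      Polynomial.eval_X, Polynomial.eval_C, Polynomial.eval_add, Polynomial.eval_one] at h3
    exact (sub_eq_zero.1 h3.symm)
  have h3 : ∀ s, fd A s = ∑ i, vv r T A (s, i) + ∏ i, (A s - r i) := by
    intro s
    have h4 := congrArg (fun P => Polynomial.eval (A s) (Polynomial.derivative P)) h
    simp only [fp, ev_ITG, Polynomial.derivative_sub, Polynomial.derivative_mul,
      Polynomial.derivative_one, Polynomial.derivative_add, Polynomial.derivative_X,
      Polynomial.derivative_C, Polynomial.eval_sub, Polynomial.eval_mul, Polynomial.eval_add,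
      Polynomial.eval_X, Polynomial.eval_C, Polynomial.eval_prod, add_zero,
      sub_zero, mul_one] at h4
    rw [Finset.sum_eq_single s (fun s' _ hs' =>
      Finset.prod_eq_zero (Finset.mem_erase.2 ⟨hs'.symm, mem_univ s⟩) (sub_self _))
      (fun hs => (hs (mem_univ s)).elim), Finset.sum_mul] at h4
    exact h4
  refine ⟨fun j => ?_, h2, h3, fun π => ?_, fun S' _ φ => ?_, fun F _ _ δ s => ?_⟩
  · rw [← h2 j.1, uu, vv, ← mul_assoc,
      Finset.mul_prod_erase univ (fun i => A j.1 - (r i : S)) (mem_univ j.2)]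
  · unfold Rt
    rw [← h]
    exact Equiv.prod_comp π fun s => Polynomial.X - Polynomial.C (A s)
  · have h4 := congrArg (Polynomial.map φ) h
    unfold Rt fp
    simpa [fp, Polynomial.map_prod] using h4
  · have h4 := congrArg δ (h2 s)
    rw [δ.leibniz, der_ITG, map_add, δ.map_one_eq_zero, smul_eq_mul, smul_eq_mul] at h4
    rw [h3 s]
    simp only [vv]
    rw [← Finset.sum_mul]
    linear_combination h4

end Pool.Agent.MP_3e91a1_nt.GN

end
end

section

/-! The generic field maps to every field with roots. -/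

set_option autoImplicit false

noncomputable section

namespace Pool.Agent.MP_3e91a1_nt.GN

open TR

theorem map_LFT {m : ℕ} (r : Fin m → ℤ) {S S' : Type} [CommRing S] [CommRing S'] (φ : S →+* S')
    (T : S) : (fp r T).map φ = fp r (φ T) := by
  unfold fp
  simp only [Polynomial.map_sub, Polynomial.map_mul, Polynomial.map_add, Polynomial.map_X,
    Polynomial.map_C, Polynomial.map_one, Polynomial.map_prod, map_intCast, Polynomial.map_intCast]

theorem rt_LFT {m : ℕ} {r : Fin m → ℤ} {S S' : Type} [CommRing S] [CommRing S'] (φ : S →+* S')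
    {T : S} {A : Fin (m + 1) → S} (h : Rt r T A) : Rt r (φ T) fun s => φ (A s) := by
  unfold Rt at h ⊢
  rw [← map_LFT, ← h, Polynomial.map_prod]
  simp only [Polynomial.map_sub, Polynomial.map_X, Polynomial.map_C]

/-- two lists with the same product of linear factors differ by a permutation -/
theorem perm_LFT {n : ℕ} {L : Type} [Field L] (A B : Fin n → L)
    (h : ∏ s, (Polynomial.X - Polynomial.C (A s)) = ∏ s, (Polynomial.X - Polynomial.C (B s))) :
    ∃ π : Equiv.Perm (Fin n), ∀ s, A s = B (π s) := by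
  classical
  have e : ∀ D : Fin n → L, (∏ s, (Polynomial.X - Polynomial.C (D s))).roots =
      (Finset.univ : Finset (Fin n)).val.map D := by
    intro D
    rw [← Polynomial.roots_multiset_prod_X_sub_C ((Finset.univ : Finset (Fin n)).val.map D),
      Multiset.map_map]
    rfl
  have h1 : (Finset.univ : Finset (Fin n)).val.map A = (Finset.univ : Finset (Fin n)).val.map B := by
    rw [← e, ← e, h]
  have h2 : ∀ y : L, Fintype.card {s // A s = y} = Fintype.card {s // B s = y} := by
    intro y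
    have h3 := congrArg (Multiset.count y) h1
    rw [Multiset.count_map, Multiset.count_map] at h3
    rw [Fintype.card_subtype, Fintype.card_subtype]
    have h4 : ∀ D : Fin n → L, (Finset.univ.filter fun s => D s = y).card =
        Multiset.card (Multiset.filter (fun a => y = D a) (Finset.univ : Finset (Fin n)).val) := by
      intro D
      rw [Finset.card_def, Finset.filter_val]
      exact congrArg _ (Multiset.filter_congr fun a _ => eq_comm)
    rw [h4, h4, h3]
  let g : ∀ y : L, {s // A s = y} ≃ {s // B s = y} := fun y => Fintype.equivOfCardEq (h2 y)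
  exact ⟨Equiv.ofFiberEquiv g, fun s => (Equiv.ofFiberEquiv_map g s).symm⟩

theorem monic_LFT {m : ℕ} {r : Fin m → ℤ} {K E : Type} [Field K] [Field E] (j : K →+* E) {T : K}
    {A : Fin (m + 1) → E} (h : Rt r (j T) A) : (fp r T).Monic := by
  apply Polynomial.monic_of_injective j.injective
  rw [map_LFT, ← h]
  exact Polynomial.monic_prod_of_monic _ _ fun s _ => Polynomial.monic_X_sub_C _

theorem root_LFT {m : ℕ} {r : Fin m → ℤ} {K E L : Type} [Field K] [Field E] [Field L] [Algebra K E]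
    (f : K →+* L) {T : K} {A : Fin (m + 1) → E} {B : Fin (m + 1) → L}
    (hA : Rt r (algebraMap K E T) A) (hB : Rt r (f T) B) (s : Fin (m + 1)) :
    IsIntegral K (A s) ∧ ((minpoly K (A s)).map f).Splits := by
  have h0 : Polynomial.aeval (A s) (fp r T) = 0 := by
    rw [Polynomial.aeval_def, Polynomial.eval₂_eq_eval_map, map_LFT, ← hA, Polynomial.eval_prod]
    exact Finset.prod_eq_zero (Finset.mem_univ s) (by simp)
  have hm := monic_LFT (algebraMap K E) hA
  refine ⟨⟨fp r T, hm, h0⟩, ?_⟩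
  have hs : ((fp r T).map f).Splits := by
    rw [map_LFT, ← hB]
    exact Polynomial.Splits.prod fun s _ => Polynomial.Splits.X_sub_C _
  exact hs.of_dvd (hm.map f).ne_zero (Polynomial.map_dvd f (minpoly.dvd K (A s) h0))

theorem LFT_pf : LFT_st := by
  intro F E L _ _ _ _ _ m r c c' τ A A' τ' B B' hG hτ' hB hB'
  obtain ⟨hτ, hA, hA', htop⟩ := hG
  let K : IntermediateField F E := IntermediateField.adjoin F {τ}
  let t : K := IntermediateField.AdjoinSimple.gen F τ
  let e := RatFunc.algEquivOfTranscendental τ hτ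
  let e' := RatFunc.algEquivOfTranscendental τ' hτ'
  let f : K →ₐ[F] L := (IntermediateField.adjoin F {τ'}).val.comp
    ((e.symm.trans e' : _ ≃ₐ[F] _) : K →ₐ[F] IntermediateField.adjoin F {τ'})
  have het : e RatFunc.X = t := by
    apply Subtype.ext
    exact RatFunc.algEquivOfTranscendental_X τ hτ
  have hft : f t = τ' := by
    rw [← het]
    show ((e' (e.symm (e RatFunc.X)) : IntermediateField.adjoin F {τ'}) : L) = τ'
    rw [AlgEquiv.symm_apply_apply]
    exact RatFunc.algEquivOfTranscendental_X τ' hτ'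
  have ht : algebraMap K E t = τ := rfl
  have k1 : ∀ n : ℕ, algebraMap K E (n * t) = n * τ := fun n => by
    rw [map_mul, map_natCast, ht]
  have k2 : ∀ n : ℕ, f.toRingHom (n * t) = n * τ' := fun n => by
    rw [map_mul, map_natCast]
    exact congrArg _ hft
  have hS : IntermediateField.adjoin K (Set.range A ∪ Set.range A') = ⊤ := by
    apply IntermediateField.restrictScalars_injective F
    rw [IntermediateField.restrictScalars_top, eq_top_iff, ← htop, IntermediateField.adjoin_le_iff]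
    rintro _ ⟨o, rfl⟩
    rcases o with _ | s | s
    · exact (IntermediateField.adjoin K (Set.range A ∪ Set.range A')).algebraMap_mem t
    · exact IntermediateField.subset_adjoin K _ (Or.inl ⟨s, rfl⟩)
    · exact IntermediateField.subset_adjoin K _ (Or.inr ⟨s, rfl⟩)
  obtain ⟨φ, hφ⟩ := IntermediateField.exists_algHom_of_adjoin_splits' f
    (S := Set.range A ∪ Set.range A') (by
      rintro _ (⟨s, rfl⟩ | ⟨s, rfl⟩)
      · exact root_LFT f.toRingHom (T := c * t) (by rw [k1]; exact hA) (by rw [k2]; exact hB) s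
      · exact root_LFT f.toRingHom (T := c' * t) (by rw [k1]; exact hA') (by rw [k2]; exact hB') s)
    hS
  have hφτ : φ τ = τ' := by
    rw [← hft, ← hφ]
    rfl
  have k3 : ∀ n : ℕ, φ.toRingHom (n * τ) = n * τ' := fun n => by
    rw [map_mul, map_natCast]
    exact congrArg _ hφτ
  have p1 := rt_LFT φ.toRingHom hA
  have p2 := rt_LFT φ.toRingHom hA'
  rw [k3] at p1 p2
  obtain ⟨π, hπ⟩ := perm_LFT _ B (Eq.trans p1 hB.symm)
  obtain ⟨π', hπ'⟩ := perm_LFT _ B' (Eq.trans p2 hB'.symm)
  exact ⟨φ, π, π', hφτ, hπ, hπ'⟩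

end Pool.Agent.MP_3e91a1_nt.GN

end
end

section

/-! A maximal independent family of integral vectors. -/

set_option autoImplicit false

open Finset Filter

noncomputable section

namespace Pool.Agent.MP_3e91a1_nt.GN

open TR

theorem ORD_pf : ORD_st := by
  intro I P _ o
  obtain ⟨κ, a, ha, h1, h2⟩ := exists_linearIndependent' ℚ fun (i : I) (q : P) => (o i q : ℚ)
  have : Finite κ := Finite.of_injective a ha
  obtain ⟨k, ⟨ε⟩⟩ := Finite.exists_equiv_fin κ
  have h3 := h2.comp ε.symm ε.symm.injective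
  have h4 : ∀ i, ∃ x : Fin k → ℚ, ∑ j, x j • (fun q : P => (o (a (ε.symm j)) q : ℚ)) =
      fun q => (o i q : ℚ) := fun i => by
    rw [← Submodule.mem_span_range_iff_exists_fun]
    have e : (Set.range fun j (q : P) => (o (a (ε.symm j)) q : ℚ)) =
        Set.range ((fun (i : I) (q : P) => (o i q : ℚ)) ∘ a) :=
      ε.symm.surjective.range_comp ((fun (i : I) (q : P) => (o i q : ℚ)) ∘ a)
    rw [e, h1]
    exact Submodule.subset_span ⟨i, rfl⟩
  choose x hx using h4
  obtain ⟨b, hb⟩ := IsLocalization.exist_integer_multiples_of_finite (nonZeroDivisors ℤ)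
    fun u : I × Fin k => x u.1 u.2
  choose n hn using hb
  have b0 : (b : ℤ) ≠ 0 := nonZeroDivisors.coe_ne_zero b
  refine ⟨k, (b : ℤ).natAbs ^ 2, fun j => a (ε.symm j), fun i j => b * n (i, j),
    pow_pos (Int.natAbs_pos.2 b0) 2, fun m hm => ?_, fun i q => ?_⟩
  · funext j
    have e := Fintype.linearIndependent_iff.1 h3 (fun j => (m j : ℚ)) (funext fun q => by
      have := congrArg (Int.cast : ℤ → ℚ) (hm q)
      simpa using this) j
    exact_mod_cast e
  · have e := congrFun (hx i) q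
    simp only [Finset.sum_apply, Pi.smul_apply, smul_eq_mul] at e
    rw [Nat.cast_pow, Int.natAbs_sq]
    refine Int.cast_injective (α := ℚ) ?_
    push_cast
    rw [← e, mul_sum]
    refine sum_congr rfl fun j _ => ?_
    have := hn (i, j)
    rw [zsmul_eq_mul, eq_intCast] at this
    rw [this]
    ring

end Pool.Agent.MP_3e91a1_nt.GN

end
end

section

/-! Reduction of the monomials by the relations of degree `m + 1`. -/

set_option autoImplicit false

open Finset Polynomial

namespace Pool.Agent.MP_3e91a1_nt.GN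

open TR

theorem top_RDG {m : ℕ} (r : Fin m → ℤ) : ∃ G : ℕ → ℤ,
    ∀ (S : Type) [CommRing S] (T a : S), (∏ i, (a - r i)) * (a + T) = 1 →
      a ^ (m + 1) = 1 - ∑ j ∈ range m, (G j : S) * a ^ (j + 1) -
        T * ∑ j ∈ range (m + 1), (G j : S) * a ^ j := by
  set g : ℤ[X] := ∏ i, (X - C (r i)) with hg
  have hm : g.Monic := monic_prod_of_monic _ _ fun i _ => monic_X_sub_C _
  have hd : g.natDegree = m := by
    rw [hg, natDegree_prod_of_monic _ _ fun i _ => monic_X_sub_C _]
    simp only [natDegree_X_sub_C, sum_const, card_univ, Fintype.card_fin, smul_eq_mul, mul_one]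
  refine ⟨g.coeff, fun S _ T a ha => ?_⟩
  have e0 : aeval a g = ∏ i, (a - r i) := by
    simp only [hg, map_prod, map_sub, aeval_X, aeval_C, algebraMap_int_eq, eq_intCast,
      map_intCast]
  have e1 : aeval a g = ∑ j ∈ range (m + 1), (g.coeff j : S) * a ^ j := by
    rw [aeval_eq_sum_range' (n := m + 1) (by omega)]
    simp only [zsmul_eq_mul]
  have e2 : g.coeff m = 1 := by rw [← hd]; exact hm.coeff_natDegree
  have e3 : aeval a g * a = a ^ (m + 1) + ∑ j ∈ range m, (g.coeff j : S) * a ^ (j + 1) := by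
    rw [e1, sum_range_succ, e2, add_mul, sum_mul, Int.cast_one, one_mul, pow_succ, add_comm]
    simp only [pow_succ, mul_assoc]
  rw [← e1]
  rw [← e0] at ha
  linear_combination ha - e3

theorem pow_RDG {m : ℕ} (r : Fin m → ℤ) (c n : ℕ) : ∃ q : ℕ → ℤ[X], (∀ j, (q j).natDegree ≤ n) ∧
    ∀ (S : Type) [CommRing S] (τ a : S), (∏ i, (a - r i)) * (a + c * τ) = 1 →
      a ^ n = ∑ j ∈ range (m + 1), aeval τ (q j) * a ^ j := by
  obtain ⟨G, hG⟩ := top_RDG r
  induction n with
  | zero =>
    refine ⟨fun j => if j = 0 then 1 else 0, fun j => ?_, fun S _ τ a _ => ?_⟩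
    · beta_reduce
      split_ifs <;> simp
    · rw [sum_range_succ']
      simp
  | succ n ih =>
    obtain ⟨q, hq, h⟩ := ih
    refine ⟨fun j => (if j = 0 then q m else q (j - 1) - C (G (j - 1)) * q m) -
      C (c * G j) * (X * q m), fun j => ?_, fun S _ τ a ha => ?_⟩
    · refine (natDegree_sub_le _ _).trans (max_le ?_ ((natDegree_C_mul_le _ _).trans ?_))
      · refine le_trans ?_ (Nat.le_succ n)
        split_ifs
        · exact hq m
        · exact (natDegree_sub_le _ _).trans
            (max_le (hq _) ((natDegree_C_mul_le _ _).trans (hq m)))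
      · have h1 : (X * q m).natDegree ≤ _ := natDegree_mul_le
        have h2 : (X : ℤ[X]).natDegree ≤ 1 := natDegree_X_le
        have := hq m
        omega
    · have e1 : ∑ j ∈ range (m + 1), aeval τ (C (c * G j) * (X * q m)) * a ^ j =
          aeval τ (q m) * (c * τ * ∑ j ∈ range (m + 1), (G j : S) * a ^ j) := by
        rw [mul_sum, mul_sum]
        refine sum_congr rfl fun j _ => ?_
        simp only [map_mul, aeval_X, aeval_C, algebraMap_int_eq, eq_intCast, map_intCast,
          Int.cast_mul, Int.cast_natCast, map_natCast]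
        ring
      have e2 : ∑ j ∈ range (m + 1),
          aeval τ (if j = 0 then q m else q (j - 1) - C (G (j - 1)) * q m) * a ^ j =
          ∑ j ∈ range m, aeval τ (q j) * a ^ j * a -
            aeval τ (q m) * ∑ j ∈ range m, (G j : S) * a ^ (j + 1) + aeval τ (q m) := by
        rw [sum_range_succ', if_pos rfl, pow_zero, mul_one, mul_sum, ← sum_sub_distrib]
        refine congrArg (· + _) (sum_congr rfl fun j _ => ?_)
        rw [if_neg (Nat.succ_ne_zero j), Nat.add_sub_cancel]
        simp only [map_sub, map_mul, aeval_C, algebraMap_int_eq, eq_intCast, map_intCast]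
        ring
      have e3 := hG S _ a ha
      simp only [map_sub, sub_mul, sum_sub_distrib]
      rw [e1, e2, pow_succ, h S τ a ha, sum_range_succ, add_mul, sum_mul]
      linear_combination aeval τ (q m) * e3

theorem RDG_pf (hITG : ITG_st) : RDG_st := by
  intro m r c c' B α hB
  choose q hq h using pow_RDG r
  let k : Fin (m + 1) ⊕ Fin (m + 1) → ℕ := Sum.elim (fun _ => c) fun _ => c'
  let Q : (Fin (m + 1) ⊕ Fin (m + 1) → Fin (m + 1)) → ℤ[X] := fun β =>
    X ^ α none * ∏ i, q (k i) (α (some i)) (β i)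
  have hQ : ∀ β, (Q β).natDegree < B + 1 := fun β => by
    have h1 : (∏ i, q (k i) (α (some i)) (β i)).natDegree ≤ ∑ i, α (some i) :=
      (natDegree_prod_le _ _).trans (Finset.sum_le_sum fun i _ => hq _ _ _)
    have h2 : (Q β).natDegree ≤ _ := natDegree_mul_le
    rw [natDegree_X_pow] at h2
    rw [Fintype.sum_option] at hB
    omega
  refine ⟨fun u => (Q u.2).coeff u.1, fun S _ τ A A' hA hA' => ?_⟩
  have hc : ∀ i, Sum.elim A A' i ^ α (some i) = ∑ j : Fin (m + 1),
      aeval τ (q (k i) (α (some i)) j) * Sum.elim A A' i ^ (j : ℕ) := by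
    intro i
    rw [← sum_range fun j => aeval τ (q (k i) (α (some i)) j) * Sum.elim A A' i ^ j]
    refine h (k i) _ S τ _ ?_
    rcases i with s | s
    · exact (hITG m r S _ A hA).2.1 s
    · exact (hITG m r S _ A' hA').2.1 s
  rw [Fintype.prod_option]
  change τ ^ α none * ∏ i, Sum.elim A A' i ^ α (some i) = _
  rw [Finset.prod_congr rfl fun i _ => hc i, Finset.prod_univ_sum, Fintype.piFinset_univ,
    Finset.mul_sum, Fintype.sum_prod_type_right]
  refine Finset.sum_congr rfl fun β _ => ?_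
  have e1 : aeval τ (Q β) = ∑ e : Fin (B + 1), ((Q β).coeff e : S) * τ ^ (e : ℕ) := by
    rw [aeval_eq_sum_range' (hQ β), Finset.sum_range]
    simp only [zsmul_eq_mul]
  simp only [← mul_assoc]
  rw [← Finset.sum_mul, ← e1, Finset.prod_mul_distrib]
  simp only [Q, map_mul, map_pow, aeval_X, map_prod, mul_assoc]

end Pool.Agent.MP_3e91a1_nt.GN

end

section

/-! The selection of the units in the generic field. -/

set_option autoImplicit false

open Finset Filter

noncomputable section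

namespace Pool.Agent.MP_3e91a1_nt.GN

open TR

theorem zf_STA {F ι P : Type} [Field F] [CharZero F] [Fintype ι] (o : ι → P → ℤ)
    (h : ∀ n : ι → ℤ, (∀ q, ∑ j, n j * o j q = 0) → n = 0) (κ : ι → F)
    (hκ : ∀ q, ∑ j, κ j * (o j q : F) = 0) : κ = 0 := by
  funext j
  refine (Module.forall_dual_apply_eq_zero_iff ℚ (κ j)).1 fun l => ?_
  obtain ⟨b, hb⟩ := IsLocalization.exist_integer_multiples_of_finite (nonZeroDivisors ℤ)
    fun j => l (κ j)
  choose n hn using hb
  have h0 := h n fun q => by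
    have e := congrArg l (hκ q)
    rw [map_sum, map_zero] at e
    have e1 : ∀ j, l (κ j * (o j q : F)) = l (κ j) * o j q := fun j => by
      rw [mul_comm, ← zsmul_eq_mul, map_zsmul, zsmul_eq_mul, mul_comm]
    simp only [e1] at e
    have e2 : ((∑ j, n j * o j q : ℤ) : ℚ) = (b : ℤ) * ∑ j, l (κ j) * o j q := by
      push_cast
      rw [mul_sum]
      refine sum_congr rfl fun j _ => ?_
      have := hn j
      rw [zsmul_eq_mul, eq_intCast] at this
      rw [this, mul_assoc]
    rw [e, mul_zero] at e2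
    exact_mod_cast e2
  have e := hn j
  rw [h0, Pi.zero_apply, map_zero, zsmul_eq_mul] at e
  exact (mul_eq_zero.1 e.symm).resolve_left
    (Int.cast_ne_zero.2 (nonZeroDivisors.coe_ne_zero b))

theorem ozp_STA {F : Type} [Field F] {x : LaurentSeries F} (hx : x ≠ 0) (n : ℤ) :
    (x ^ n).order = n * x.order := by
  induction n using Int.induction_on with
  | zero => simp
  | succ i ih =>
    rw [zpow_add_one₀ hx, HahnSeries.order_mul (zpow_ne_zero _ hx) hx, ih]
    ring
  | pred i ih =>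
    have e := HahnSeries.order_mul (zpow_ne_zero (-(i : ℤ) - 1) hx) hx
    rw [← zpow_add_one₀ hx, sub_add_cancel, ih] at e
    linarith

theorem opr_STA {F ι : Type} [Field F] (x : ι → LaurentSeries F) (hx : ∀ j, x j ≠ 0) (n : ι → ℤ)
    (s : Finset ι) : (∏ j ∈ s, x j ^ n j).order = ∑ j ∈ s, n j * (x j).order := by
  classical
  induction s using Finset.induction_on with
  | empty => simp
  | insert a s ha ih =>
    rw [prod_insert ha, sum_insert ha, HahnSeries.order_mul (zpow_ne_zero _ (hx a))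
      (prod_ne_zero_iff.2 fun j _ => zpow_ne_zero _ (hx j)), ih, ozp_STA (hx a)]

theorem zm_STA {F E : Type} [Field F] [Field E] [Algebra F E] {S : Subalgebra F E} {u v : E}
    (h : u * v = 1) (hu : u ∈ S) (hv : v ∈ S) (n : ℤ) : u ^ n ∈ S := by
  cases n with
  | ofNat n => simpa using pow_mem hu n
  | negSucc n =>
    rw [zpow_negSucc, ← inv_pow, ← eq_inv_of_mul_eq_one_right h]
    exact pow_mem hv _

theorem mem_STA {R E : Type} [CommRing R] [CommRing E] [Algebra R E] {S : Subalgebra R E} {m : ℕ}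
    (r : Fin m → ℤ) (c : ℕ) {τ : E} {B : Fin (m + 1) → E} (h0 : τ ∈ S) (h : ∀ s, B s ∈ S)
    (j : Fin (m + 1) × Fin m) : uu r B j ∈ S ∧ vv r (c * τ) B j ∈ S :=
  ⟨sub_mem (h _) (intCast_mem _ _), mul_mem (prod_mem fun _ _ => sub_mem (h _) (intCast_mem _ _))
    (add_mem (h _) (mul_mem (natCast_mem _ _) h0))⟩

theorem int_STA {F E : Type} [Field F] [Field E] [Algebra F E] {m : ℕ} {r : Fin m → ℤ} {c : ℕ}
    {τ : E} {B : Fin (m + 1) → E} (h : Rt r (c * τ) B) (j : Fin (m + 1) × Fin m) :
    IsIntegral (Algebra.adjoin F {τ}) (uu r B j) ∧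
      IsIntegral (Algebra.adjoin F {τ}) (vv r (c * τ) B j) := by
  have h0 : τ ∈ Algebra.adjoin F {τ} := Algebra.self_mem_adjoin_singleton F τ
  refine mem_STA (S := integralClosure (Algebra.adjoin F {τ}) E) r c
    (isIntegral_algebraMap (x := (⟨τ, h0⟩ : Algebra.adjoin F {τ}))) (fun s => ?_) j
  have e : (fp r (c * (⟨τ, h0⟩ : Algebra.adjoin F {τ}))).map (algebraMap _ E) =
      ∏ s, (Polynomial.X - Polynomial.C (B s)) := by
    rw [h]
    simp [fp, Polynomial.map_prod]
  refine ⟨_, Polynomial.monic_of_injective (f := algebraMap _ E) Subtype.val_injective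
    (e ▸ Polynomial.monic_prod_of_monic _ _ fun _ _ => Polynomial.monic_X_sub_C _), ?_⟩
  rw [Polynomial.eval₂_eq_eval_map, e, Polynomial.eval_prod]
  exact prod_eq_zero (mem_univ s) (by simp)

theorem one_STA (hITG : ITG_st) (hORD : ORD_st) {F E : Type} [Field F] [Field E] [Algebra F E]
    {m : ℕ} {r : Fin m → ℤ} {c : ℕ} {τ : E} {B : Fin (m + 1) → E} {δ : Derivation F E E}
    {φ₀ : E →ₐ[F] LaurentSeries F} (hR : Rt r (c * τ) B) (h0 : φ₀ τ = ti F)
    (hO : Ords r (φ₀ ∘ B))
    (hC : ∀ (k : ℕ) (U V : Option (Fin k) → E) (n : Option (Fin k) → ℤ), (∀ j, U j * V j = 1) →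
      (∀ j, IsIntegral (Algebra.adjoin F {τ}) (U j)) →
      (∀ j, IsIntegral (Algebra.adjoin F {τ}) (V j)) →
      (∀ φ : E →ₐ[F] LaurentSeries F, φ τ = ti F → ∑ j, n j * (φ (U j)).order = 0) →
      ∑ j, (n j : E) * (δ (U j) * V j) = 0) :
    ∃ (k : ℕ) (σ : Sel m k), 0 < σ.N ∧ σ.Phi ≠ 0 ∧ σ.Rel r δ (c * τ) B ∧ ∀ n : Fin k → ℤ,
      (∀ φ : E →ₐ[F] LaurentSeries F, φ τ = ti F →
        ∑ j, n j * (φ (uu r B (σ.J j))).order = 0) → n = 0 := by
  obtain ⟨k, N, J, e, hN, h1, h2⟩ := hORD (Fin (m + 1) × Fin m)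
    {φ : E →ₐ[F] LaurentSeries F // φ τ = ti F} fun u φ => (φ.1 (uu r B u)).order
  refine ⟨k, ⟨J, N, fun s i => e (s.castSucc, i)⟩, hN, fun h => ?_, fun s i => ?_,
    fun n hn => h1 n fun φ => hn φ.1 φ.2⟩
  · have e1 := congrArg (MvPolynomial.eval fun j => (φ₀ (uu r B (J j))).order) h
    rw [Sel.Phi, RingHom.map_det, map_zero] at e1
    have e2 : (MvPolynomial.eval fun j => (φ₀ (uu r B (J j))).order).mapMatrix
        (Matrix.of fun s i : Fin m => ∑ j, MvPolynomial.C (e (s.castSucc, i) j) *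
          MvPolynomial.X j) = Matrix.diagonal fun _ => (N : ℤ) := by
      ext s i
      have e3 := h2 (s.castSucc, i) ⟨φ₀, h0⟩
      have e4 : φ₀ (uu r B (s.castSucc, i)) = uu r (φ₀ ∘ B) (s.castSucc, i) := by simp [uu]
      simp only [e4, hO s i] at e3
      simp [Matrix.diagonal_apply, ← e3]
    rw [e2, Matrix.det_diagonal] at e1
    exact prod_ne_zero_iff.2 (fun _ _ => Int.natCast_ne_zero.2 hN.ne') e1
  · have e1 := hC k (fun o => uu r B (o.elim (s.castSucc, i) J))
      (fun o => vv r (c * τ) B (o.elim (s.castSucc, i) J))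
      (fun o => o.elim N fun j => -e (s.castSucc, i) j) (fun _ => (hITG m r E _ B hR).1 _)
      (fun _ => (int_STA hR _).1) (fun _ => (int_STA hR _).2) fun φ hφ => by
        have e3 := h2 (s.castSucc, i) ⟨φ, hφ⟩
        simp only [Fintype.sum_option, Option.elim, neg_mul, sum_neg_distrib] at e3 ⊢
        linarith
    simp only [Fintype.sum_option, Option.elim, neg_mul, sum_neg_distrib, Int.cast_neg,
      Int.cast_natCast] at e1
    exact add_neg_eq_zero.1 e1

theorem sm_STA {F : Type} [Field F] (a : F) (x : LaurentSeries F) :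
    algebraMap F (LaurentSeries F) a * x = a • x := by
  rw [← HahnSeries.C_mul_eq_smul, HahnSeries.algebraMap_apply', PowerSeries.algebraMap_apply,
    HahnSeries.ofPowerSeries_C]
  rfl

theorem lau_STA (hLAU : LAU_st) (F : Type) [Field F] [CharZero F] :
    ∃ δ : @Derivation F (LaurentSeries F) (LaurentSeries F) _ _ _ _ _ Algebra.toModule,
      (∀ v, (δ v).coeff 0 = 0) ∧ (∀ u, u ≠ 0 → (δ u / u).coeff 0 = (u.order : F)) ∧
      ∀ a : F, δ (algebraMap F _ a) = 0 := by
  obtain ⟨δ, l1, l2, -⟩ := hLAU F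
  have e : (HahnSeries.instModule : Module F (LaurentSeries F)) = Algebra.toModule :=
    Module.ext' _ _ fun a x => (sm_STA a x).symm.trans (Algebra.smul_def a x).symm
  have l3 : ∀ v, (δ v).coeff 0 = 0 := fun v => by rw [l1, Int.cast_zero, zero_mul]
  have l4 := δ.map_algebraMap
  clear l1
  revert δ
  rw [e]
  exact fun δ l2 l3 l4 => ⟨δ, l3, l2, l4⟩

theorem STA_pf (hITG : ITG_st) (hLAU : LAU_st) (hFIN : FIN_st) (hUNQ : UNQ_st) (hLND : LND_st)
    (hORD : ORD_st) (hCST : CST_st) : STA_st := by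
  have _h := hFIN
  intro F E _ _ _ _ m r d c c' τ A A' δ φ₀ hG hD hC hc hc' hδ h0 hO hO'
  obtain ⟨k, σ, n1, p1, r1, i1⟩ := one_STA hITG hORD (δ := δ) hG.2.1 h0 hO fun k U V n a b e f =>
    (hCST F E _ m r c c' τ A A' φ₀ δ U V n hG h0 a b e f).2
  obtain ⟨k', σ', n2, p2, r2, i2⟩ := one_STA hITG hORD (δ := δ) hG.2.2.1 h0 hO'
    fun k U V n a b e f => (hCST F E _ m r c c' τ A A' φ₀ δ U V n hG h0 a b e f).2
  refine ⟨k, k', σ, σ', n1, n2, p1, p2, r1, r2, fun κ w hw => ?_⟩
  obtain ⟨δ', l1, l2, l3⟩ := lau_STA hLAU F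
  have u1 := (hITG m r E _ A hG.2.1).1
  have u2 := (hITG m r E _ A' hG.2.2.1).1
  have uv : ∀ j, UU σ σ' r A A' j * VV σ σ' r (c * τ) (c' * τ) A A' j = 1 := fun j => by
    cases j
    · exact u1 _
    · exact u2 _
  refine zf_STA (P := {φ : E →ₐ[F] LaurentSeries F // φ τ = ti F})
    (fun j φ => (φ.1 (UU σ σ' r A A' j)).order) (fun n hn => ?_) κ fun φ => ?_
  · obtain ⟨⟨a, ha, e⟩, -⟩ := hCST F E _ m r c c' τ A A' φ₀ δ _ _ n hG h0 uv
      (fun j => by
        cases j
        · exact (int_STA hG.2.1 _).1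
        · exact (int_STA hG.2.2.1 _).1)
      (fun j => by
        cases j
        · exact (int_STA hG.2.1 _).2
        · exact (int_STA hG.2.2.1 _).2) fun φ hφ => hn ⟨φ, hφ⟩
    rw [Fintype.prod_sum_type] at e
    simp only [UU, Sum.elim_inl, Sum.elim_inr] at e
    have mm : ∀ {l : ℕ} (B : Fin (m + 1) → E) (c : ℕ) (J : Fin l → Fin (m + 1) × Fin m)
        (n : Fin l → ℤ), (∀ j, uu r B j * vv r (c * τ) B j = 1) →
        ∏ j, uu r B (J j) ^ n j ∈ Algebra.adjoin F (insert τ (Set.range B)) ∧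
        (∏ j, uu r B (J j) ^ n j)⁻¹ ∈ Algebra.adjoin F (insert τ (Set.range B)) :=
      fun B c J n h => by
        have hm := mem_STA (S := Algebra.adjoin F (insert τ (Set.range B))) r c
          (Algebra.subset_adjoin (Set.mem_insert _ _))
          fun s => Algebra.subset_adjoin (Set.mem_insert_of_mem _ ⟨s, rfl⟩)
        rw [← prod_inv_distrib]
        simp only [← zpow_neg]
        exact ⟨prod_mem fun j _ => zm_STA (h _) (hm _).1 (hm _).2 _,
          prod_mem fun j _ => zm_STA (h _) (hm _).1 (hm _).2 _⟩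
    obtain ⟨m1, m2⟩ := mm A c σ.J (fun j => n (.inl j)) u1
    obtain ⟨m3, m4⟩ := mm A' c' σ'.J (fun j => n (.inr j)) u2
    obtain ⟨v, hv⟩ : ∃ v, v = ∏ j, uu r A (σ.J j) ^ n (.inl j) := ⟨_, rfl⟩
    rw [← hv] at e m1 m2
    generalize ∏ j, uu r A' (σ'.J j) ^ n (.inr j) = v' at e m3 m4
    have a0 : algebraMap F E a ≠ 0 := (map_ne_zero _).2 ha
    have v0 : v ≠ 0 := left_ne_zero_of_mul (e ▸ a0)
    have v1 : v' ≠ 0 := right_ne_zero_of_mul (e ▸ a0)
    have m5 := hLND F E m r d c c' τ A A' δ φ₀ v hG hD hC hc hc' hδ h0 m1 (by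
      rw [eq_div_of_mul_eq v1 e, div_eq_mul_inv]
      exact mul_mem (algebraMap_mem _ _) m4)
    have m6 := hLND F E m r d c c' τ A A' δ φ₀ v⁻¹ hG hD hC hc hc' hδ h0 m2 (by
      rw [eq_div_of_mul_eq v1 e, inv_div, div_eq_mul_inv, ← map_inv₀]
      exact mul_mem m3 (algebraMap_mem _ _))
    rw [Algebra.adjoin_singleton_eq_range_aeval] at m5 m6
    obtain ⟨p, hp⟩ := m5
    obtain ⟨q, hq⟩ := m6
    change Polynomial.aeval τ p = _ at hp
    change Polynomial.aeval τ q = _ at hq
    have pq : p * q = 1 := transcendental_iff_injective.1 hG.1 (by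
      rw [map_mul, hp, hq, map_one, mul_inv_cancel₀ v0])
    obtain ⟨b, -, rfl⟩ := Polynomial.isUnit_iff.1 (IsUnit.of_mul_eq_one q pq)
    rw [Polynomial.aeval_C] at hp
    have z1 := i1 (fun j => n (.inl j)) fun φ hφ => by
      rw [← opr_STA _ fun j => (map_ne_zero φ).2 (left_ne_zero_of_mul_eq_one (u1 _))]
      simp only [← map_zpow₀]
      rw [← map_prod, ← hv]
      have e1 := l2 (φ v) ((map_ne_zero φ).2 v0)
      rw [← hp, AlgHom.commutes, l3, zero_div, HahnSeries.coeff_zero] at e1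
      rw [← hp, AlgHom.commutes]
      exact_mod_cast e1.symm
    have z2 := i2 (fun j => n (.inr j)) fun φ hφ => by
      have e1 := hn ⟨φ, hφ⟩
      rw [Fintype.sum_sum_type, sum_eq_zero fun j _ => by
        rw [show n (.inl j) = 0 from congrFun z1 j, zero_mul], zero_add] at e1
      exact e1
    funext j
    cases j with
    | inl j => exact congrFun z1 j
    | inr j => exact congrFun z2 j
  · have hu := hUNQ F E _ m r d c c' τ A A' δ δ' φ.1 hG hD hC hc hc' hδ
    have e1 : ∑ j, κ j • (δ' (φ.1 (UU σ σ' r A A' j)) / φ.1 (UU σ σ' r A A' j)) =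
        δ' (φ.1 w) := by
      rw [hu w, ← hw, map_sum, mul_sum]
      refine sum_congr rfl fun j _ => ?_
      rw [hu, Algebra.smul_def (κ j) (δ _ * _), map_mul, map_mul, AlgHom.commutes,
        eq_inv_of_mul_eq_one_right (uv j), map_inv₀, ← sm_STA]
      ring
    have e2 := congrArg (fun x : LaurentSeries F => x.coeff 0) e1
    simp only [l1, HahnSeries.coeff_sum, HahnSeries.coeff_smul, smul_eq_mul] at e2
    rw [← e2]
    refine sum_congr rfl fun j _ => ?_
    rw [l2 _ ((map_ne_zero φ.1).2 (left_ne_zero_of_mul_eq_one (uv j)))]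

end Pool.Agent.MP_3e91a1_nt.GN

end
end

section

/-! The maps of the generic field respect the derivations. -/

set_option autoImplicit false

open Finset

noncomputable section

namespace Pool.Agent.MP_3e91a1_nt.GN

open TR

theorem hom_UNQ {S S' : Type} [CommRing S] [CommRing S'] [Algebra ℤ S] [Algebra ℤ S']
    (ψ : S →+* S') (x : S)
    (d : Polynomial ℤ) : ψ (Polynomial.aeval x d) = Polynomial.aeval (ψ x) d := by
  rw [Polynomial.aeval_def, Polynomial.aeval_def, Polynomial.hom_eval₂,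
    RingHom.ext_int (ψ.comp (algebraMap ℤ S)) (algebraMap ℤ S')]

theorem zero_UNQ {F : Type} [Field F] (d : Polynomial ℤ) (c : ℕ) :
    Polynomial.evalRingHom (0 : F) (Polynomial.aeval ((c : Polynomial F) * Polynomial.X) d) =
      Polynomial.aeval (0 : F) d := by
  rw [hom_UNQ]
  simp

theorem cop_UNQ {F : Type} [Field F] {d : Polynomial ℤ} {c c' : ℕ} (h : Cop F d c c') :
    Polynomial.aeval (0 : F) d ≠ 0 := by
  intro h0
  have h1 := h.map (Polynomial.evalRingHom (0 : F))
  rw [zero_UNQ, zero_UNQ, h0] at h1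
  exact not_isCoprime_zero_zero h1

theorem ne_UNQ {F E : Type} [Field F] [Field E] [Algebra F E] {d : Polynomial ℤ} {τ : E}
    (h0 : Polynomial.aeval (0 : F) d ≠ 0) (hτ : Transcendental F τ) (c : ℕ) :
    Polynomial.aeval ((c : E) * τ) d ≠ 0 := by
  intro h
  have h1 : Polynomial.aeval τ (Polynomial.aeval ((c : Polynomial F) * Polynomial.X) d) = 0 := by
    have h2 := hom_UNQ (Polynomial.aeval τ : Polynomial F →ₐ[F] E).toRingHom
      ((c : Polynomial F) * Polynomial.X) d
    simp only [AlgHom.toRingHom_eq_coe, RingHom.coe_coe, map_mul, map_natCast,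
      Polynomial.aeval_X] at h2
    rw [h2, h]
  have h3 := transcendental_iff.mp hτ _ h1
  apply h0
  rw [← zero_UNQ d c, h3, map_zero]

theorem root_UNQ (hITG : ITG_st) {F E L : Type} [Field F] [Field E] [Algebra F E] [Field L]
    [Algebra F L] {m : ℕ} {r : Fin m → ℤ} {d : Polynomial ℤ} {c : ℕ} {τ : E}
    {A : Fin (m + 1) → E} (δ : Derivation F E E) (δ' : Derivation F L L) (φ : E →ₐ[F] L)
    (hA : Rt r (c * τ) A) (hd : IsD r d) (hne : Polynomial.aeval ((c : E) * τ) d ≠ 0)
    (h1 : δ τ = 1) (s : Fin (m + 1)) : δ' (φ (A s)) = δ' (φ τ) * φ (δ (A s)) := by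
  obtain ⟨-, -, -, -, hmap, hder⟩ := hITG m r E _ A hA
  have hB := hmap L φ.toRingHom
  obtain ⟨-, -, -, -, -, hder'⟩ := hITG m r L _ _ hB
  have e1 := hder F δ s
  have e2 := hder' F δ' s
  have hfd : fd A s ≠ 0 := by
    intro h
    apply hne
    rw [← hd E _ A hA]
    exact Finset.prod_eq_zero (Finset.mem_univ s) h
  have hφ : φ (fd A s) ≠ 0 := (map_ne_zero φ).mpr hfd
  have e3 : fd (⇑φ.toRingHom ∘ A) s = φ (fd A s) := by
    simp [fd, map_prod]
  have e4 : δ ((c : E) * τ) = c := by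
    rw [← nsmul_eq_mul, map_nsmul, h1, nsmul_eq_mul, mul_one]
  have e5 : δ' (φ.toRingHom ((c : E) * τ)) = c * δ' (φ τ) := by
    have : φ.toRingHom ((c : E) * τ) = c • φ τ := by simp
    rw [this, map_nsmul, nsmul_eq_mul]
  rw [e3, e5] at e2
  rw [e4] at e1
  have e6 := congrArg φ e1
  simp only [map_mul, map_neg, map_prod, map_sub, map_intCast, map_natCast] at e6
  have e7 : φ (fd A s) * δ' (φ (A s)) = -(∏ i, (φ (A s) - r i)) * (c * δ' (φ τ)) := e2
  apply mul_left_cancel₀ hφ
  rw [e7]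
  linear_combination (-δ' (φ τ)) * e6

theorem UNQ_pf (hITG : ITG_st) : UNQ_st := by
  intro F E L _ _ _ _ _ _ m r d c c' τ A A' δ δ' φ hG hd hC _ _ h1 v
  obtain ⟨hτ, hA, hA', htop⟩ := hG
  have h0 := cop_UNQ hC
  have hv : v ∈ IntermediateField.adjoin F (Set.range (gg τ A A')) := by
    rw [htop]
    exact IntermediateField.mem_top
  induction hv using IntermediateField.adjoin_induction with
  | mem x hx =>
    obtain ⟨o, rfl⟩ := hx
    rcases o with _ | s | s
    · simp [gg, h1]
    · exact root_UNQ hITG δ δ' φ hA hd (ne_UNQ h0 hτ c) h1 s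
    · exact root_UNQ hITG δ δ' φ hA' hd (ne_UNQ h0 hτ c') h1 s
  | algebraMap a => simp
  | add x y _ _ hx hy => simp only [map_add, hx, hy, mul_add]
  | inv x _ hx =>
    rw [map_inv₀, Derivation.leibniz_inv, Derivation.leibniz_inv, hx]
    simp only [smul_eq_mul, map_mul, map_neg, map_pow, map_inv₀]
    ring
  | mul x y _ _ hx hy =>
    rw [map_mul, Derivation.leibniz, Derivation.leibniz, hx, hy]
    simp only [smul_eq_mul, map_add, map_mul]
    ring

end Pool.Agent.MP_3e91a1_nt.GN

end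
end
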