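import Pool.Agent.Mg.F3e91a1.Gc3fe55
import Pool.Agent.MP_384f6f_nt.NW.Theta
import Pool.Agent.Mg.F3e91a1.Gb3cda3
import Pool.Agent.MP_384f6f_nt.AL.Wr

set_option linter.all false

section

/-! The count of the exceptional parameters. -/

set_option autoImplicit false

open Finset Filter

noncomputable section

namespace Pool.Agent.MP_3e91a1_nt.CC

open Classical in
theorem split_FEW (x b : ℕ) (Q : ℕ → Prop) :
    Chebyshev.theta x ≤
      (Set.ncard {p : ℕ | p ≤ x ∧ p.Prime ∧ b < p ∧ ¬ Q p} : ℝ) * Real.log x +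
      (∑ p ∈ ((Ioc 0 x).filter Nat.Prime).filter Q, Real.log p) + Chebyshev.theta b := by
  set A := (Ioc 0 x).filter Nat.Prime with hA
  have h8 : {p : ℕ | p ≤ x ∧ p.Prime ∧ b < p ∧ ¬ Q p} = A.filter fun p => b < p ∧ ¬ Q p := by
    ext p
    simp only [hA, Set.mem_ofPred_eq, coe_filter, mem_filter, mem_Ioc]
    exact ⟨fun h => ⟨⟨⟨h.2.1.pos, h.1⟩, h.2.1⟩, h.2.2⟩, fun h => ⟨h.1.1.2, h.1.2, h.2⟩⟩
  have h9 : ∑ p ∈ A.filter (fun p => b < p ∧ ¬ Q p), Real.log p ≤
      ((A.filter fun p => b < p ∧ ¬ Q p).card : ℝ) * Real.log x := by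
    rw [← nsmul_eq_mul]
    refine sum_le_card_nsmul _ _ _ fun p hp => ?_
    simp only [hA, mem_filter, mem_Ioc] at hp
    exact Real.log_le_log (by exact_mod_cast hp.1.1.1) (by exact_mod_cast hp.1.1.2)
  have h10 : ∑ p ∈ A.filter (fun p => p ≤ b), Real.log p ≤ Chebyshev.theta b := by
    rw [Chebyshev.theta, Nat.floor_natCast]
    refine sum_le_sum_of_subset_of_nonneg (fun p hp => ?_) fun p _ _ => Real.log_natCast_nonneg p
    simp only [hA, mem_filter, mem_Ioc] at hp ⊢
    exact ⟨⟨hp.1.1.1, hp.2⟩, hp.1.2⟩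
  have h11 : ∑ p ∈ A, Real.log p ≤ ∑ p ∈ A.filter (fun p => b < p ∧ ¬ Q p), Real.log p +
      ∑ p ∈ A.filter Q, Real.log p + ∑ p ∈ A.filter (fun p => p ≤ b), Real.log p := by
    clear_value A
    rw [sum_filter, sum_filter, sum_filter, ← sum_add_distrib, ← sum_add_distrib]
    refine sum_le_sum fun p _ => ?_
    have := Real.log_natCast_nonneg p
    by_cases h1 : Q p <;> by_cases h2 : p ≤ b
    · simp [h1, h2, this]
    · simp [h1, h2]
    · simp [h1, h2, not_lt.2 h2]
    · simp [h1, h2, not_le.1 h2]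
  rw [h8, Set.ncard_coe_finset]
  have h12 : Chebyshev.theta x = ∑ p ∈ A, Real.log p := by
    rw [Chebyshev.theta, Nat.floor_natCast]
  linarith

theorem FEW_pf (hCOR : COR_st) : FEW_st := by
  classical
  intro δ h0
  obtain ⟨η, e0, e1, e2⟩ : ∃ η : ℝ, 0 < η ∧ η ≤ 1 ∧ η ≤ δ / 2 :=
    ⟨min (δ / 2) 1, by positivity, min_le_right _ _, min_le_left _ _⟩
  refine ⟨7200 * (3500 / η ^ 2 + 4) ^ 5 / η ^ 2, fun a B ha M hM => ?_⟩
  have hM2 : (2 : ℝ) ≤ M := by exact_mod_cast hM
  have l1 : 1 / 2 ≤ Real.log M := by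
    have := Real.log_two_gt_d9
    linarith [Real.log_le_log two_pos hM2]
  have l2 : Real.log (10 * M) ≤ 5 * Real.log M := by
    have h4 : (2 : ℝ) ^ 4 ≤ (M : ℝ) ^ 4 := pow_le_pow_left₀ two_pos.le hM2 4
    have h5 : (10 : ℝ) * M ≤ (M : ℝ) ^ 5 := by
      linarith [mul_le_mul_of_nonneg_right h4 (show (0 : ℝ) ≤ M by positivity)]
    have := Real.log_le_log (by positivity) h5
    rwa [Real.log_pow] at this
  have l3 : 0 ≤ Real.log (10 * M) := Real.log_nonneg (by linarith)
  obtain ⟨K, k1, k2⟩ : ∃ K : ℕ, 700 * Real.log (10 * M) ≤ η ^ 2 * K ∧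
      (K : ℝ) + 1 ≤ (3500 / η ^ 2 + 4) * Real.log M := by
    refine ⟨⌈700 * Real.log (10 * M) / η ^ 2⌉₊, ?_, ?_⟩
    · have := Nat.le_ceil (700 * Real.log (10 * M) / η ^ 2)
      rwa [div_le_iff₀' (by positivity)] at this
    · have h1 := Nat.ceil_lt_add_one
        (show 0 ≤ 700 * Real.log (10 * M) / η ^ 2 by positivity)
      have h2 : 700 * Real.log (10 * M) / η ^ 2 ≤ 3500 / η ^ 2 * Real.log M := by
        rw [div_mul_eq_mul_div]
        exact div_le_div_of_nonneg_right (by linarith) (by positivity)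
      linarith
  have t1 : ∀ᶠ x : ℕ in atTop, 1 - δ / 4 < Chebyshev.theta x / x :=
    (Pool.Agent.MP_384f6f_nt.NW.stT.comp tendsto_natCast_atTop_atTop).eventually
      (lt_mem_nhds (by linarith))
  have t2 : ∀ᶠ x : ℕ in atTop, ∀ T ∈ Icc 1 M, Chebyshev.theta (B T) / (δ / 4) ≤ x :=
    (eventually_all_finset _).2 fun T _ => tendsto_natCast_atTop_atTop.eventually_ge_atTop _
  filter_upwards [hCOR η M K e0 e1 (by omega) k1, t1, t2, eventually_ge_atTop 2]
    with x h2 h3 h4 h5
  have x1 : (1 : ℝ) < x := by exact_mod_cast h5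
  set S := (Icc 1 M).filter fun T =>
    (Set.ncard {p : ℕ | p ≤ x ∧ p.Prime ∧ B T < p ∧ ¬ Bad p (a T)} : ℝ) <
      (1 - δ) * x / Real.log x with hS
  have h6 : {T : ℕ | 1 ≤ T ∧ T ≤ M ∧
      (Set.ncard {p : ℕ | p ≤ x ∧ p.Prime ∧ B T < p ∧ ¬ Bad p (a T)} : ℝ) <
        (1 - δ) * x / Real.log x} = S := by
    ext T
    simp only [hS, Set.mem_ofPred_eq, coe_filter, mem_Icc, and_assoc]
  have h7 := h2 S a (fun T hT => ?_) fun T hT => ?_
  · rw [h6, Set.ncard_coe_finset, div_mul_eq_mul_div, le_div_iff₀' (by positivity), mul_assoc,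
      ← mul_pow]
    have := pow_le_pow_left₀ (by positivity) k2 5
    linarith
  · rw [hS, mem_filter, mem_Icc] at hT
    exact ⟨hT.1.1, hT.1.2, ha T hT.1.1⟩
  · rw [hS, mem_filter] at hT
    have h8 := h4 T hT.1
    have h9 := hT.2
    have h10 := split_FEW x (B T) fun p => Bad p (a T)
    rw [lt_div_iff₀ (Real.log_pos x1)] at h9
    rw [div_le_iff₀ (by positivity)] at h8
    rw [lt_div_iff₀ (by linarith)] at h3
    have h11 := mul_le_mul_of_nonneg_right e2 (Nat.cast_nonneg (α := ℝ) x)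
    linarith

end Pool.Agent.MP_3e91a1_nt.CC

end
end

section

/-! The parameter and the eight logarithms are algebraically independent. -/

set_option autoImplicit false

open Finset Filter PowerSeries

noncomputable section

namespace Pool.Agent.MP_3e91a1_nt.TR

theorem trX_IND (F : Type) [Field F] : Transcendental F (X : F⟦X⟧) := by
  rw [transcendental_iff]
  intro p hp
  have h1 : Polynomial.aeval (X : F⟦X⟧) p = (p : F⟦X⟧) := by
    have h2 := Polynomial.aeval_algHom_apply (Polynomial.coeToPowerSeries.algHom F) Polynomial.X p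
    simpa using h2
  rw [h1] at hp
  exact Polynomial.coe_eq_zero_iff.1 hp

theorem tr_IND {F : Type} [Field F] (t κ : F) (hκ : κ ≠ 0) :
    Transcendental F (C t + C κ * X : F⟦X⟧) := by
  have h := (trX_IND F).aeval (Polynomial.C κ * Polynomial.X + Polynomial.C t)
    (by rw [Polynomial.natDegree_linear hκ]; exact one_ne_zero)
    (by rw [Polynomial.leadingCoeff_linear hκ]; exact mem_nonZeroDivisors_of_ne_zero hκ)
  simpa [add_comm] using h

theorem dsc_IND {F S : Type} [Field F] [CharZero F] [CommRing S] [Algebra F S] {x : S}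
    (hx : Transcendental F x) (c : ℕ) : dsc (c * x) ≠ 0 := by
  intro h
  have h1 := transcendental_iff.1 hx (dsc ((c : Polynomial F) * Polynomial.X)) (by
    rw [← h]
    simp [dsc, map_ofNat])
  have h2 := congrArg (Polynomial.eval 0) h1
  simp [dsc] at h2
  norm_num at h2

theorem dlg_IND {F : Type} [Field F] [CharZero F] (U V : F⟦X⟧) :
    d⁄dX F (lgs U V) = d⁄dX F U * V := by
  ext k
  rw [coeff_derivative, lgs, coeff_mk, Nat.add_sub_cancel]
  push_cast
  exact div_mul_cancel₀ _ (Nat.cast_add_one_ne_zero k)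

theorem lw_IND {S S' : Type} [CommRing S] [CommRing S'] (φ : S →+* S') (c c' : ℕ) (g : Fin 7 → S)
    (j : Fin 8) : φ (lw c c' g j) = lw c c' (fun i => φ (g i)) j := by
  fin_cases j <;> simp [lw, th, iv, th1, dsc, map_ofNat]

theorem IND_pf (hINT : INT_st) (hOST : OST_st) (hRES : RES_st) : IND_st := by
  intro F _ _ c c' t κ g hc hc' hne hκ h0 hD
  have htr : Transcendental F (g 0) := h0 ▸ tr_IND t κ hκ
  have d1 := dsc_IND htr c
  have d2 := dsc_IND htr c'
  obtain ⟨γ, hγ⟩ : ∃ γ : F⟦X⟧, γ = C κ⁻¹ * (dsc (c * g 0) * dsc (c' * g 0)) := ⟨_, rfl⟩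
  have hk : (C κ⁻¹ * C κ : F⟦X⟧) = 1 := by rw [← map_mul, inv_mul_cancel₀ hκ, map_one]
  have γ0 : γ ≠ 0 := hγ ▸ mul_ne_zero (left_ne_zero_of_mul_eq_one hk) (mul_ne_zero d1 d2)
  have e0 : d⁄dX F (g 0) = C κ := by
    rw [h0]
    simp [Derivation.leibniz]
  obtain ⟨-, -, i3, i4⟩ := hINT F F⟦X⟧ (d⁄dX F) c c' g γ hD d1 d2 (by
    rw [e0, hγ]
    linear_combination (dsc (c * g 0) * dsc (c' * g 0)) * hk)
  have em : ∀ j, (γ • d⁄dX F) (lgs (un g j) (iv c c' g j)) = lw c c' g j := fun j => by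
    rw [Derivation.smul_apply, smul_eq_mul, dlg_IND, i3]
  have ea : ∀ P : MvPolynomial (Fin 7) F, (γ • d⁄dX F) (MvPolynomial.aeval g P) =
      MvPolynomial.aeval g (Th c c' F P) := fun P => by
    rw [Derivation.smul_apply, smul_eq_mul, i4]
  have hA := hOST F F⟦X⟧ (Fin 8) (γ • d⁄dX F) (MvPolynomial.aeval g).range
    (fun j => lgs (un g j) (iv c c' g j))
    (by
      rintro _ ⟨P, rfl⟩
      exact ⟨_, (ea P).symm⟩)
    (fun j => ⟨lw c c' MvPolynomial.X j, by
      rw [em, lw_IND]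
      simp⟩)
    (fun a b ha h => CC.ps_P_WRO b a ha (mul_left_cancel₀ γ0 (by
      simp only [Derivation.smul_apply, smul_eq_mul] at h
      linear_combination h)))
    (by
      rintro k _ ⟨P, rfl⟩ _ ⟨Q, rfl⟩ hP h
      refine hRES F F⟦X⟧ c c' g hc hc' hne htr hD k P Q hP ?_
      simp only [em] at h
      rw [map_sub, map_mul, map_mul, ← ea, ← ea]
      exact h)
  have h1 : AlgebraicIndependent F fun _ : Unit => g 0 :=
    algebraicIndependent_unique_type_iff.2 htr
  have h2 := h1.sumElim_of_tower (S := (MvPolynomial.aeval g).range) (by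
    rintro _ ⟨_, rfl⟩
    exact ⟨⟨g 0, MvPolynomial.X 0, MvPolynomial.aeval_X g 0⟩, rfl⟩) hA
  have h3 := h2.comp (Equiv.optionEquivSumPUnit.{0} (Fin 8)) (Equiv.injective _)
  have h4 : (fun o : Option (Fin 8) => o.elim (g 0) fun j => lgs (un g j) (iv c c' g j)) =
      (Sum.elim (fun j => lgs (un g j) (iv c c' g j)) fun _ : Unit => g 0) ∘
        Equiv.optionEquivSumPUnit.{0} (Fin 8) := funext fun o => by cases o <;> rfl
  rw [h4]
  exact h3

end Pool.Agent.MP_3e91a1_nt.TR

end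
end

section

/-! The zero estimate for the fields of every degree. -/

set_option autoImplicit false

open Finset

noncomputable section

namespace Pool.Agent.MP_3e91a1_nt.GN

open TR

/-- the derivatives of the variables, with denominators cleared -/
def th_ZEG {m : ℕ} (r : Fin m → ℤ) (c c' : ℕ) {S : Type} [CommRing S] (A A' : Fin (m + 1) → S) :
    Vr m → S := fun o => o.elim ((∏ s, fd A s) * ∏ s, fd A' s) (Sum.elim
  (fun s => -(c * (∏ i, (A s - r i)) * ∏ s' ∈ univ.erase s, fd A s') * ∏ s, fd A' s)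
  fun s => -(c' * (∏ i, (A' s - r i)) * ∏ s' ∈ univ.erase s, fd A' s') * ∏ s, fd A s)

/-- the variable of a selected unit -/
def vr_ZEG {m k k' : ℕ} (σ : Sel m k) (σ' : Sel m k') : Fin k ⊕ Fin k' → Vr m :=
  Sum.elim (fun j => some (Sum.inl (σ.J j).1)) fun j => some (Sum.inr (σ'.J j).1)

theorem th_map_ZEG {m : ℕ} (r : Fin m → ℤ) (c c' : ℕ) {S S' : Type} [CommRing S] [CommRing S']
    (φ : S →+* S') (A A' : Fin (m + 1) → S) (o : Vr m) :
    φ (th_ZEG r c c' A A' o) = th_ZEG r c c' (fun s => φ (A s)) (fun s => φ (A' s)) o := by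
  rcases o with _ | s | s <;> simp [th_ZEG, fd, map_prod]

theorem VV_map_ZEG {m k k' : ℕ} (σ : Sel m k) (σ' : Sel m k') (r : Fin m → ℤ) {S S' : Type}
    [CommRing S] [CommRing S'] (φ : S →+* S') (T T' : S) (A A' : Fin (m + 1) → S)
    (j : Fin k ⊕ Fin k') : φ (VV σ σ' r T T' A A' j) =
      VV σ σ' r (φ T) (φ T') (fun s => φ (A s)) (fun s => φ (A' s)) j := by
  rcases j with j | j <;> simp [VV, vv, map_prod]

theorem deg_ZEG {σ F : Type} [Field F] (p : MvPolynomial σ ℤ) :
    (MvPolynomial.map (Int.castRingHom F) p).totalDegree ≤ p.totalDegree :=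
  sup_mono (MvPolynomial.support_map_subset _ _)

theorem ne_ZEG {F S : Type} [Field F] [CharZero F] [CommRing S] [Algebra F S] {d : Polynomial ℤ}
    (hd : d ≠ 0) {x : S} (h : Transcendental F x) : Polynomial.aeval x d ≠ 0 := by
  rw [← Polynomial.aeval_map_algebraMap F]
  exact fun e => (Polynomial.map_ne_zero_iff (algebraMap ℤ F).injective_int).2 hd
    (transcendental_iff.1 h _ e)

theorem tr_ZEG {F : Type} [Field F] [CharZero F] {c : ℕ} (hc : 0 < c) (t κ : F) (hκ : κ ≠ 0) :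
    Transcendental F ((c : PowerSeries F) *
      (PowerSeries.C t + PowerSeries.C κ * PowerSeries.X)) := by
  have h := tr_IND (c * t) (c * κ) (mul_ne_zero (Nat.cast_ne_zero.2 hc.ne') hκ)
  rwa [map_mul, map_mul, map_natCast, mul_assoc, ← mul_add] at h

theorem der_ZEG (hITG : ITG_st) {F : Type} [Field F] {m : ℕ} (r : Fin m → ℤ) (c : ℕ) {t κ : F}
    (hκ : κ ≠ 0) {τ : PowerSeries F} (hτ : τ = PowerSeries.C t + PowerSeries.C κ * PowerSeries.X)
    {A : Fin (m + 1) → PowerSeries F} (hA : Rt r (c * τ) A) (y : PowerSeries F) (s : Fin (m + 1)) :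
    PowerSeries.C κ⁻¹ * ((∏ s, fd A s) * y) * PowerSeries.derivative F (A s) =
      -(c * (∏ i, (A s - r i)) * ∏ s' ∈ univ.erase s, fd A s') * y := by
  have hk : (PowerSeries.C κ⁻¹ * PowerSeries.C κ : PowerSeries F) = 1 := by
    rw [← map_mul, inv_mul_cancel₀ hκ, map_one]
  have e0 : PowerSeries.derivative F (c * τ) = c * PowerSeries.C κ := by
    rw [hτ]
    simp [Derivation.leibniz]
  have h := (hITG m r _ _ A hA).2.2.2.2.2 F (PowerSeries.derivative F) s
  rw [e0] at h
  rw [← mul_prod_erase univ (fd A) (mem_univ s)]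
  linear_combination (PowerSeries.C κ⁻¹ * (∏ s' ∈ univ.erase s, fd A s') * y) * h -
    (c * (∏ i, (A s - r i)) * (∏ s' ∈ univ.erase s, fd A s') * y) * hk

theorem ZEG_pf (hITG : ITG_st) (hNRG : NRG_st) (hZRG : ZRG_st) : ZEG_st := by
  intro m k k' σ σ' r d c c' hd
  obtain ⟨ν, hν⟩ := hNRG m r c c'
  obtain ⟨XA, hXA⟩ : ∃ XA : Fin (m + 1) → MvPolynomial (Vr m) ℤ,
    XA = fun s => MvPolynomial.X (some (Sum.inl s)) := ⟨_, rfl⟩
  obtain ⟨XB, hXB⟩ : ∃ XB : Fin (m + 1) → MvPolynomial (Vr m) ℤ,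
    XB = fun s => MvPolynomial.X (some (Sum.inr s)) := ⟨_, rfl⟩
  obtain ⟨tz, htz⟩ : ∃ tz, tz = th_ZEG r c c' XA XB := ⟨_, rfl⟩
  obtain ⟨lz, hlz⟩ : ∃ lz : Fin k ⊕ Fin k' → MvPolynomial (Vr m) ℤ, lz = fun j =>
    tz (vr_ZEG σ σ' j) * VV σ σ' r ((c : MvPolynomial (Vr m) ℤ) * MvPolynomial.X none)
      ((c' : MvPolynomial (Vr m) ℤ) * MvPolynomial.X none) XA XB j := ⟨_, rfl⟩
  obtain ⟨h, h1, h2⟩ : ∃ h, (∀ i, (tz i).totalDegree ≤ h) ∧ ∀ j, (lz j).totalDegree ≤ h :=
    ⟨max (univ.sup fun i => (tz i).totalDegree) (univ.sup fun j => (lz j).totalDegree),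
      fun i => le_max_of_le_left (le_sup (f := fun i => (tz i).totalDegree) (mem_univ i)),
      fun j => le_max_of_le_right (le_sup (f := fun j => (lz j).totalDegree) (mem_univ j))⟩
  refine ⟨ν + (k + k' + h), ?_⟩
  intro F P _ _ _ D K n t κ τ A A' v hcop hc hc' ht hκ hτ hA hA' hPt hv hdiv
  have d0 : d ≠ 0 := by
    rintro rfl
    exact not_isCoprime_zero_zero (by simpa [Cop] using hcop)
  have ev : ∀ s, ∃ φ : MvPolynomial (Vr m) ℤ →+* PowerSeries F,
      (∀ p, MvPolynomial.aeval (gg (τ s) (A s) (A' s)) (MvPolynomial.map (Int.castRingHom F) p) =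
        φ p) ∧ φ (MvPolynomial.X none) = τ s ∧ (fun i => φ (XA i)) = A s ∧
        (fun i => φ (XB i)) = A' s := fun s =>
    ⟨(MvPolynomial.aeval (gg (τ s) (A s) (A' s))).toRingHom.comp
      (MvPolynomial.map (Int.castRingHom F)), fun _ => rfl, by simp [gg],
      by funext i; simp [hXA, gg], by funext i; simp [hXB, gg]⟩
  have key : ∀ s i, PowerSeries.C (κ s)⁻¹ * ((∏ i, fd (A s) i) * ∏ i, fd (A' s) i) *
      PowerSeries.derivative F (gg (τ s) (A s) (A' s) i) = th_ZEG r c c' (A s) (A' s) i := by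
    intro s i
    rcases i with _ | i | i
    · have hk : (PowerSeries.C (κ s)⁻¹ * PowerSeries.C (κ s) : PowerSeries F) = 1 := by
        rw [← map_mul, inv_mul_cancel₀ (hκ s), map_one]
      have e0 : PowerSeries.derivative F (τ s) = PowerSeries.C (κ s) := by
        rw [hτ]
        simp [Derivation.leibniz]
      show _ * PowerSeries.derivative F (τ s) = (∏ i, fd (A s) i) * ∏ i, fd (A' s) i
      rw [e0, mul_right_comm, hk, one_mul]
    · exact der_ZEG hITG r c (hκ s) (hτ s) (hA s) _ i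
    · rw [mul_comm (∏ i, fd (A s) i)]
      exact der_ZEG hITG r c' (hκ s) (hτ s) (hA' s) _ i
  have H := hZRG F P (Vr m) (Fin k ⊕ Fin k') D K n h ν none
    (fun i => MvPolynomial.map (Int.castRingHom F) (tz i))
    (fun j => MvPolynomial.map (Int.castRingHom F) (lz j)) t
    (fun s => PowerSeries.C (κ s)⁻¹ * ((∏ i, fd (A s) i) * ∏ i, fd (A' s) i))
    (fun s => gg (τ s) (A s) (A' s))
    (fun s j => lgs (UU σ σ' r (A s) (A' s) j) (VV σ σ' r (c * τ s) (c' * τ s) (A s) (A' s) j)) v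
    (fun i => (deg_ZEG _).trans (h1 i)) (fun j => (deg_ZEG _).trans (h2 j)) ht
    (fun s => by
      rw [hd _ _ _ (hA s), hd _ _ _ (hA' s), hτ s]
      exact mul_ne_zero (fun e => inv_ne_zero (hκ s) (PowerSeries.C_injective
        (e.trans (map_zero _).symm)))
        (mul_ne_zero (ne_ZEG d0 (tr_ZEG hc _ _ (hκ s))) (ne_ZEG d0 (tr_ZEG hc' _ _ (hκ s)))))
    (fun s i => by
      obtain ⟨φ, e1, -, e3, e4⟩ := ev s
      rw [e1, htz, th_map_ZEG, e3, e4, key])
    (fun s j => by
      obtain ⟨φ, e1, e2, e3, e4⟩ := ev s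
      have e5 : PowerSeries.derivative F (UU σ σ' r (A s) (A' s) j) =
          PowerSeries.derivative F (gg (τ s) (A s) (A' s) (vr_ZEG σ σ' j)) := by
        rcases j with j | j <;> simp [UU, uu, gg, vr_ZEG]
      rw [e1, hlz, map_mul, htz, th_map_ZEG, VV_map_ZEG, map_mul, map_mul, map_natCast,
        map_natCast, e2, e3, e4, ← key, dlg_IND, e5, mul_assoc _ (PowerSeries.derivative F _)])
    (fun s => (hPt s).2.2)
    (fun W N Q hQ => hν F P N t κ τ A A' W Q ht hκ hτ hA hA' hQ) hv hdiv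
  rw [Fintype.card_sum, Fintype.card_fin, Fintype.card_fin] at H
  have a1 : ν ≤ ν + (k + k' + h) := Nat.le_add_right _ _
  have a2 : k + k' + h ≤ ν + (k + k' + h) := Nat.le_add_left _ _
  refine H.trans ?_
  generalize ν + (k + k' + h) = N at *
  generalize k + k' + h = M at *
  gcongr

end Pool.Agent.MP_3e91a1_nt.GN

end
end

section

/-! The zero estimate for a pair of cubic fields. -/

set_option autoImplicit false

open Finset MvPolynomial

noncomputable section

namespace Pool.Agent.MP_3e91a1_nt.TR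

open Pool.Agent.MP_384f6f_nt.AL

variable {F : Type} [Field F]

section Deg

variable {σ : Type} {a b e : MvPolynomial σ F} {m n : ℕ}

theorem dm_ZER (h : a.totalDegree ≤ m) (h' : b.totalDegree ≤ n) : (a * b).totalDegree ≤ m + n :=
  (totalDegree_mul a b).trans (add_le_add h h')

theorem da_ZER (h : a.totalDegree ≤ m) (h' : b.totalDegree ≤ m) : (a + b).totalDegree ≤ m :=
  (totalDegree_add a b).trans (max_le h h')

theorem ds_ZER (h : a.totalDegree ≤ m) (h' : b.totalDegree ≤ m) : (a - b).totalDegree ≤ m :=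
  (totalDegree_sub a b).trans (max_le h h')

theorem dp_ZER (h : a.totalDegree ≤ m) (k : ℕ) : (a ^ k).totalDegree ≤ k * m :=
  (totalDegree_pow a k).trans (Nat.mul_le_mul_left k h)

theorem dn_ZER (c m : ℕ) : (c : MvPolynomial σ F).totalDegree ≤ m := by
  rw [← map_natCast C, totalDegree_C]
  exact Nat.zero_le m

theorem d1_ZER (h : a.totalDegree ≤ 1) : (a - 1).totalDegree ≤ 1 :=
  ds_ZER h (totalDegree_one.le.trans zero_le_one)

theorem ddsc_ZER (c : ℕ) (h : a.totalDegree ≤ 1) : (dsc (c * a)).totalDegree ≤ 4 := by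
  have h1 : (c * a).totalDegree ≤ 1 := dm_ZER (dn_ZER c 0) h
  exact ds_ZER (dp_ZER (ds_ZER (da_ZER (dp_ZER h1 2) (dm_ZER (m := 1) (dn_ZER 3 1) h1))
    (totalDegree_one.le.trans zero_le_two)) 2) (dn_ZER 32 4)

theorem dth1_ZER (c : ℕ) (ha : a.totalDegree ≤ 1) (hb : b.totalDegree ≤ 1)
    (he : e.totalDegree ≤ 1) : (th1 c a b e).totalDegree ≤ 6 :=
  dm_ZER (dm_ZER (dm_ZER (dn_ZER c 0) (dm_ZER ha (d1_ZER ha)))
    (dm_ZER (ds_ZER hb ha) (ds_ZER hb he))) (dm_ZER (ds_ZER he ha) (ds_ZER he hb))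

theorem dth_ZER (c c' : ℕ) {g : Fin 7 → MvPolynomial σ F} (h : ∀ i, (g i).totalDegree ≤ 1)
    (i : Fin 7) : (th c c' g i).totalDegree ≤ 10 := by
  fin_cases i
  · exact (dm_ZER (ddsc_ZER c (h 0)) (ddsc_ZER c' (h 0))).trans (by norm_num)
  all_goals exact dm_ZER (dth1_ZER _ (h _) (h _) (h _)) (ddsc_ZER _ (h 0))

theorem dlw_ZER (c c' : ℕ) {g : Fin 7 → MvPolynomial σ F} (h : ∀ i, (g i).totalDegree ≤ 1)
    (j : Fin 8) : (lw c c' g j).totalDegree ≤ 12 := by
  refine dm_ZER (dth_ZER c c' h _) (n := 2) ?_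
  have h1 : ∀ (k : ℕ) i, (g i + k * g 0).totalDegree ≤ 1 := fun k i =>
    da_ZER (h i) (dm_ZER (dn_ZER k 0) (h 0))
  fin_cases j
  exacts [dm_ZER (d1_ZER (h 1)) (h1 c 1), dm_ZER (h 1) (h1 c 1), dm_ZER (d1_ZER (h 2)) (h1 c 2),
    dm_ZER (h 2) (h1 c 2), dm_ZER (d1_ZER (h 4)) (h1 c' 4), dm_ZER (h 4) (h1 c' 4),
    dm_ZER (d1_ZER (h 5)) (h1 c' 5), dm_ZER (h 5) (h1 c' 5)]

theorem dder_ZER {w : σ → MvPolynomial σ F} (h : ∀ i, (w i).totalDegree ≤ m)
    (G : MvPolynomial σ F) : (mkDerivation F w G).totalDegree ≤ G.totalDegree + m := by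
  conv_lhs => rw [G.as_sum, map_sum]
  refine totalDegree_finsetSum_le fun s hs => ?_
  rw [mkDerivation_monomial]
  refine (totalDegree_smul_le _ _).trans (totalDegree_finsetSum_le fun i _ => ?_)
  refine dm_ZER ((totalDegree_monomial_le _ _).trans (le_trans ?_ (le_totalDegree hs))) (h i)
  exact Finsupp.degree_mono tsub_le_self

theorem ddet_ZER {ι : Type} [Fintype ι] [DecidableEq ι] (M : Matrix ι ι (MvPolynomial σ F))
    (h : ∀ i j, (M i j).totalDegree ≤ m) : M.det.totalDegree ≤ Fintype.card ι * m := by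
  rw [Matrix.det_apply]
  refine totalDegree_finsetSum_le fun π _ => ?_
  rw [Units.smul_def]
  refine (totalDegree_smul_le _ _).trans ((totalDegree_finsetProd _ _).trans ?_)
  rw [← smul_eq_mul, ← card_univ]
  exact sum_le_card_nsmul _ _ _ fun i _ => h _ _

end Deg

theorem mth_ZER {S S' : Type} [CommRing S] [CommRing S'] [Algebra F S] [Algebra F S']
    (φ : S →ₐ[F] S') (c c' : ℕ) (g : Fin 7 → S) (i : Fin 7) :
    φ (th c c' g i) = th c c' (fun k => φ (g k)) i := by
  fin_cases i <;> simp [th, th1, dsc, map_ofNat]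

theorem mlw_ZER {S S' : Type} [CommRing S] [CommRing S'] [Algebra F S] [Algebra F S']
    (φ : S →ₐ[F] S') (c c' : ℕ) (g : Fin 7 → S) (j : Fin 8) :
    φ (lw c c' g j) = lw c c' (fun k => φ (g k)) j := by
  rw [lw, lw, map_mul, mth_ZER]
  refine congrArg _ ?_
  fin_cases j <;> simp [iv]

theorem dlg_ZER [CharZero F] (U V : PowerSeries F) :
    PowerSeries.derivative F (lgs U V) = PowerSeries.derivative F U * V := by
  ext k
  have : (k : F) + 1 ≠ 0 := Nat.cast_add_one_ne_zero k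
  rw [PowerSeries.coeff_derivative, lgs, PowerSeries.coeff_mk, Nat.add_sub_cancel, Nat.cast_succ,
    div_mul_cancel₀ _ this]

theorem dsc_ZER [CharZero F] {S ι : Type} [CommRing S] [Algebra F S] {x : ι → S}
    (hx : AlgebraicIndependent F x) (c : ℕ) (i : ι) : dsc (c * x i) ≠ 0 := fun h => by
  have h1 : dsc ((c : MvPolynomial ι F) * X i) = 0 :=
    hx (by simpa [dsc, map_ofNat] using h)
  have h2 := congrArg (eval fun _ => (0 : F)) h1
  simp only [dsc, map_sub, map_pow, map_add, map_mul, eval_X, map_one, map_ofNat, map_zero] at h2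
  norm_num at h2

/-- the ring of polynomials in the roots and the logarithms -/
abbrev R_ZER (F : Type) [Field F] : Type := MvPolynomial (Fin 7 ⊕ Fin 8) F

/-- the derivation -/
def th_ZER (c c' : ℕ) (F : Type) [Field F] : Derivation F (R_ZER F) (R_ZER F) :=
  mkDerivation F (Sum.elim (th c c' fun i => X (Sum.inl i)) (lw c c' fun i => X (Sum.inl i)))

/-- the evaluation -/
def ev_ZER (c c' : ℕ) (g : Fin 7 → PowerSeries F) : R_ZER F →ₐ[F] PowerSeries F :=
  aeval (Sum.elim g fun j => lgs (un g j) (iv c c' g j))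

/-- the translation -/
def tr_ZER (μ : Fin 8 → F) : R_ZER F →ₐ[F] R_ZER F :=
  aeval (Sum.elim (fun i => X (Sum.inl i)) fun j => X (Sum.inr j) + C (μ j))

/-- the inclusion of the polynomials in the parameter and the logarithms -/
def io_ZER (F : Type) [Field F] : MvPolynomial (Option (Fin 8)) F →ₐ[F] R_ZER F :=
  rename fun o => o.elim (Sum.inl 0) Sum.inr

/-- the translation on the small ring -/
def ts_ZER (μ : Fin 8 → F) :
    MvPolynomial (Option (Fin 8)) F →ₐ[F] MvPolynomial (Option (Fin 8)) F :=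
  aeval fun o => o.elim (X none) fun j => X (some j) + C (μ j)

/-- a multiple of the derivative -/
def D_ZER (γ : PowerSeries F) : PowerSeries F →+ PowerSeries F :=
  (AddMonoidHom.mulLeft γ).comp (PowerSeries.derivative F).toLinearMap.toAddMonoidHom

theorem D_apply_ZER (γ x : PowerSeries F) : D_ZER γ x = γ * PowerSeries.derivative F x := rfl

theorem D_mul_ZER (γ x y : PowerSeries F) : D_ZER γ (x * y) = D_ZER γ x * y + x * D_ZER γ y := by
  simp only [D_apply_ZER, Derivation.leibniz, smul_eq_mul]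
  ring

theorem tr_io_ZER (μ : Fin 8 → F) (G : MvPolynomial (Option (Fin 8)) F) :
    tr_ZER μ (io_ZER F G) = io_ZER F (ts_ZER μ G) := by
  have h : (tr_ZER μ).comp (io_ZER F) = (io_ZER F).comp (ts_ZER μ) :=
    algHom_ext fun o => by cases o <;> simp [tr_ZER, io_ZER, ts_ZER]
  exact congr($h G)

theorem ev_io_ZER (c c' : ℕ) (g : Fin 7 → PowerSeries F) (G : MvPolynomial (Option (Fin 8)) F) :
    ev_ZER c c' g (io_ZER F G) =
      aeval (fun o : Option (Fin 8) => o.elim (g 0) fun j => lgs (un g j) (iv c c' g j)) G := by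
  rw [ev_ZER, io_ZER, aeval_rename]
  refine congrArg (fun x => aeval x G) (funext fun o => ?_)
  cases o <;> rfl

theorem tr_pow_ZER (c c' : ℕ) (μ : Fin 8 → F) (m : ℕ) (G : R_ZER F) :
    tr_ZER μ (((th_ZER c c' F).toLinearMap ^ m) G) =
      ((th_ZER c c' F).toLinearMap ^ m) (tr_ZER μ G) := by
  have h : ∀ G, tr_ZER μ (th_ZER c c' F G) = th_ZER c c' F (tr_ZER μ G) := fun G => by
    induction G using MvPolynomial.induction_on with
    | C r => simp [tr_ZER, derivation_C]
    | add p q hp hq => simp only [map_add, hp, hq]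
    | mul_X p i hp =>
      have h : tr_ZER μ (th_ZER c c' F (X i)) = th_ZER c c' F (tr_ZER μ (X i)) := by
        have h1 : (fun k => tr_ZER μ (X (Sum.inl k))) = fun k => X (Sum.inl k) :=
          funext fun k => aeval_X _ _
        rcases i with i | j
        · rw [show tr_ZER μ (X (Sum.inl i)) = X (Sum.inl i) from aeval_X _ _, th_ZER,
            mkDerivation_X, Sum.elim_inl, mth_ZER, h1]
        · rw [show tr_ZER μ (X (Sum.inr j)) = X (Sum.inr j) + C (μ j) from aeval_X _ _, map_add,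
            derivation_C, add_zero, th_ZER, mkDerivation_X, Sum.elim_inr, mlw_ZER, h1]
      rw [map_mul (tr_ZER μ), Derivation.leibniz, Derivation.leibniz]
      simp only [smul_eq_mul, map_add (tr_ZER μ), map_mul (tr_ZER μ), hp, h]
  induction m with
  | zero => rfl
  | succ m ih =>
    rw [pow_succ', Module.End.mul_apply, Module.End.mul_apply, ← ih]
    exact h _

theorem ev_pow_ZER [CharZero F] {c c' : ℕ} {g : Fin 7 → PowerSeries F} {γ : PowerSeries F}
    (h1 : ∀ i, γ * PowerSeries.derivative F (g i) = th c c' g i)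
    (h2 : ∀ j, γ * (PowerSeries.derivative F (un g j) * iv c c' g j) = lw c c' g j) (m : ℕ)
    (G : R_ZER F) :
    (D_ZER γ)^[m] (ev_ZER c c' g G) = ev_ZER c c' g (((th_ZER c c' F).toLinearMap ^ m) G) := by
  have h : ∀ G, D_ZER γ (ev_ZER c c' g G) = ev_ZER c c' g (th_ZER c c' F G) := fun G => by
    induction G using MvPolynomial.induction_on with
    | C r => simp [ev_ZER, D_apply_ZER, derivation_C]
    | add p q hp hq => simp only [map_add, hp, hq]
    | mul_X p i hp =>
      have h : D_ZER γ (ev_ZER c c' g (X i)) = ev_ZER c c' g (th_ZER c c' F (X i)) := by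
        have h3 : (fun k => ev_ZER c c' g (X (Sum.inl k))) = g := funext fun k => aeval_X _ _
        rw [th_ZER, mkDerivation_X, D_apply_ZER]
        rcases i with i | j
        · rw [show ev_ZER c c' g (X (Sum.inl i)) = g i from aeval_X _ _, h1, Sum.elim_inl, mth_ZER,
            h3]
        · rw [show ev_ZER c c' g (X (Sum.inr j)) = lgs (un g j) (iv c c' g j) from aeval_X _ _,
            dlg_ZER, h2, Sum.elim_inr, mlw_ZER, h3]
      rw [map_mul, D_mul_ZER, hp, h, Derivation.leibniz]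
      simp only [smul_eq_mul, map_add, map_mul]
      ring
  induction m with
  | zero => rfl
  | succ m ih => rw [Function.iterate_succ_apply', ih, h, pow_succ']; rfl

theorem deg_pow_ZER (c c' m : ℕ) (G : R_ZER F) :
    (((th_ZER c c' F).toLinearMap ^ m) G).totalDegree ≤ G.totalDegree + 12 * m := by
  induction m with
  | zero => exact le_rfl
  | succ m ih =>
    rw [pow_succ', Module.End.mul_apply]
    refine (dder_ZER (m := 12) (fun i => ?_) _).trans (by omega)
    rcases i with i | j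
    · exact (dth_ZER c c' (fun k => (totalDegree_X _).le) i).trans (by norm_num)
    · exact dlw_ZER c c' (fun k => (totalDegree_X _).le) j

theorem main_ZER (hINT : INT_st) (hIND : IND_st) (hINV : INV_st) (hNRM : NRM_st) [CharZero F]
    (V : Submodule F (MvPolynomial (Option (Fin 8)) F)) [Module.Finite F V] {D : ℕ}
    (h1 : ∀ G ∈ V, G.totalDegree ≤ D) (h2 : ∀ μ, ∀ G ∈ V, ts_ZER μ G ∈ V) {P : Type} [Fintype P]
    {c c' : ℕ} {t κ : P → F} {g : P → Fin 7 → PowerSeries F} (hc : 0 < c) (hc' : 0 < c')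
    (hcc : c ≠ c') (ht : Function.Injective t) (hκ : ∀ s, κ s ≠ 0)
    (hg : ∀ s, g s 0 = PowerSeries.C (t s) + PowerSeries.C (κ s) * PowerSeries.X)
    (hd : ∀ s, Dat c c' (g s)) (n : ℕ)
    (h4 : ∀ s, ∃ G ∈ V, G ≠ 0 ∧ PowerSeries.X ^ n ∣ ev_ZER c c' (g s) (io_ZER F G)) :
    Fintype.card P * (n - Module.finrank F V) ≤
      729 * (Module.finrank F V * (D + 12 * Module.finrank F V) + 12) := by
  have b := Module.finBasis F V
  generalize Module.finrank F V = r at b ⊢
  let A : Matrix (Fin r) (Fin r) (R_ZER F) :=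
    Matrix.of fun m l => ((th_ZER c c' F).toLinearMap ^ (m : ℕ)) (io_ZER F (b l))
  have hb : ∀ G (hG : G ∈ V), ∀ m : Fin r, ((th_ZER c c' F).toLinearMap ^ (m : ℕ)) (io_ZER F G) =
      ∑ l, A m l * C (b.repr ⟨G, hG⟩ l) := fun G hG m => by
    conv_lhs => rw [show G = _ from congrArg Subtype.val (b.sum_repr ⟨G, hG⟩).symm]
    simp only [Submodule.coe_sum, Submodule.coe_smul, map_sum, map_smul]
    simp only [smul_eq_C_mul, A, Matrix.of_apply, mul_comm]
  obtain ⟨W, w1, w2⟩ := hINV F _ _ A.det fun μ => by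
    refine ⟨(Matrix.of fun l' l => b.repr ⟨_, h2 μ _ (b l).2⟩ l').det, ?_⟩
    change tr_ZER μ _ = _
    rw [AlgHom.map_det, smul_eq_C_mul, RingHom.map_det, mul_comm, ← Matrix.det_mul]
    refine congrArg _ (Matrix.ext fun m l => ?_)
    exact (tr_pow_ZER c c' μ m _).trans ((congrArg _ (tr_io_ZER μ _)).trans
      (hb _ (h2 μ _ (b l).2) m))
  have e2 : ∀ s, aeval (g s) W = ((ev_ZER c c' (g s)).mapMatrix A).det := fun s => by
    rw [← AlgHom.map_det, w2, ev_ZER, aeval_rename]
    rfl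
  have e4 : W.totalDegree ≤ r * (D + 12 * r) := by
    refine w1.trans ((ddet_ZER A (m := D + 12 * r) fun m l => ?_).trans (by rw [Fintype.card_fin]))
    have h5 := (totalDegree_rename_le (fun o : Option (Fin 8) => o.elim (Sum.inl (0 : Fin 7))
      Sum.inr) (b l).1).trans (h1 _ (b l).2)
    exact (deg_pow_ZER c c' m _).trans (add_le_add h5 (by omega))
  have key : ∀ s, aeval (g s) W ≠ 0 ∧ PowerSeries.X ^ (n - r) ∣ aeval (g s) W := fun s => by
    have hi := hIND F c c' (t s) (κ s) (g s) hc hc' hcc (hκ s) (hg s) (hd s)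
    have d1 : dsc (c * g s 0) ≠ 0 := dsc_ZER hi c none
    have d2 : dsc (c' * g s 0) ≠ 0 := dsc_ZER hi c' none
    obtain ⟨γ, g0, g1⟩ : ∃ γ : PowerSeries F, γ ≠ 0 ∧
        γ * PowerSeries.derivative F (g s 0) = dsc (c * g s 0) * dsc (c' * g s 0) := by
      have h5 : PowerSeries.C (κ s)⁻¹ * PowerSeries.derivative F (g s 0) = 1 := by
        rw [hg s, map_add, Derivation.leibniz, PowerSeries.derivative_C, PowerSeries.derivative_C,
          PowerSeries.derivative_X, smul_zero, zero_add, add_zero, smul_eq_mul, mul_one, ← map_mul,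
          inv_mul_cancel₀ (hκ s), map_one]
      exact ⟨dsc (c * g s 0) * dsc (c' * g s 0) * PowerSeries.C (κ s)⁻¹,
        mul_ne_zero (mul_ne_zero d1 d2) (left_ne_zero_of_mul_eq_one h5), by
          rw [mul_assoc, h5, mul_one]⟩
    obtain ⟨i1, -, i3, -⟩ := hINT F _ (PowerSeries.derivative F) c c' (g s) γ (hd s) d1 d2 g1
    rw [e2]
    constructor
    · have h5 := CC.wronski_WRO (F := F) (D_ZER γ) (D_mul_ZER γ) (fun x y hy h =>
        CC.ps_P_WRO x y hy (mul_left_cancel₀ g0 (by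
          rw [D_apply_ZER, D_apply_ZER] at h
          linear_combination h))) r (fun l => ev_ZER c c' (g s) (io_ZER F (b l)))
        ((b.linearIndependent.map' V.subtype V.ker_subtype).map'
          ((ev_ZER c c' (g s)).comp (io_ZER F)).toLinearMap (LinearMap.ker_eq_bot.2
            fun x y h => hi ((ev_io_ZER c c' _ x).symm.trans (h.trans (ev_io_ZER c c' _ y)))))
      exact fun h => h5 ((congrArg _ (Matrix.ext fun m l => ev_pow_ZER i1 i3 _ _)).trans h)
    · obtain ⟨G, hG, h5, h6⟩ := h4 s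
      obtain ⟨l, hl⟩ : ∃ l, b.repr ⟨G, hG⟩ l ≠ 0 := by
        by_contra! h7
        exact h5 (congrArg Subtype.val (b.repr.map_eq_zero_iff.1 (Finsupp.ext h7)))
      refine (((IsUnit.mk0 _ hl).map (algebraMap F (PowerSeries F))).dvd_mul_right).1
        (det_mul_dvd _ (fun l => algebraMap F _ (b.repr ⟨G, hG⟩ l)) _ (fun m => ?_) l)
      have h7 := D_iter_dvd (D_ZER γ) (D_mul_ZER γ) _ _ n h6 m
      refine (pow_dvd_pow _ (by omega)).trans (h7.trans (dvd_of_eq ?_))
      refine (ev_pow_ZER i1 i3 _ _).trans ?_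
      rw [hb G hG m, map_sum]
      exact sum_congr rfl fun l _ => by rw [map_mul, algHom_C]; rfl
  exact (hNRM F P c c' (n - r) t κ g W ht hκ hg hd (fun s => (key s).1) fun s => (key s).2).trans
    (by omega)

theorem ZER_pf (hINT : INT_st) (hIND : IND_st) (hINV : INV_st) (hNRM : NRM_st) : ZER_st := by
  intro F P _ _ _ c c' D K n t κ g v hc hc' hcc ht hκ hg hd hv h2
  classical
  obtain ⟨t₀, h0⟩ := Function.ne_iff.1 hv
  let q : (Fin (K + 1) × (Fin 8 → Fin (K + 1))) × (Fin 8 → Fin (K + 1)) →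
      MvPolynomial (Option (Fin 8)) F := fun w =>
    (∑ e : Fin D, C (v (e, w.1)) * X none ^ (e : ℕ)) * ∏ j, X (some j) ^ (w.2 j : ℕ)
  let V := Submodule.span F (Set.range q)
  have : Module.Finite F V := Module.Finite.span_of_finite F (Set.finite_range q)
  have hr : Module.finrank F V ≤ (K + 1) ^ 17 := (finrank_range_le_card q).trans (by
    simp only [Fintype.card_prod, Fintype.card_fun, Fintype.card_fin]
    exact le_of_eq (by ring))
  let mo : Ix D K → Option (Fin 8) →₀ ℕ := fun r =>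
    Finsupp.equivFunOnFinite.symm fun o => o.elim (r.1 : ℕ) fun j => r.2.2 j
  let B : Polynomial F := ∑ r, if mo r = mo t₀ then Polynomial.monomial (r.2.1 : ℕ) (v r) else 0
  have hB0 : B ≠ 0 := fun h => by
    have h3 := congrArg (Polynomial.coeff · t₀.2.1) h
    simp only [B, Polynomial.finsetSum_coeff, Polynomial.coeff_zero] at h3
    rw [sum_eq_single t₀] at h3
    · exact h0 (by simpa using h3)
    · intro r _ hr
      split_ifs with h4
      · rw [Polynomial.coeff_monomial, if_neg]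
        exact fun h5 => hr (Prod.ext (Fin.ext congr($h4 none)) (Prod.ext (Fin.ext h5)
          (funext fun j => Fin.ext congr($h4 (some j)))))
      · rfl
    · simp
  have hB1 : B.natDegree ≤ K := by
    refine Polynomial.natDegree_sum_le_of_forall_le _ _ fun r _ => ?_
    split_ifs
    · exact (Polynomial.natDegree_monomial_le _).trans (Nat.le_of_lt_succ r.2.1.2)
    · simp
  have h3 := main_ZER hINT hIND hINV hNRM V (D := D + 8 * K)
    (fun G hG => (mem_restrictTotalDegree _ _ _).1 (Submodule.span_le.2 ?_ hG))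
    (fun μ G hG => Submodule.span_le (p := V.comap (ts_ZER μ).toLinearMap) |>.2 ?_ hG)
    (P := {s // B.eval (t s) ≠ 0}) (t := fun s => t s.1) (κ := fun s => κ s.1)
    (g := fun s => g s.1) hc hc' hcc (ht.comp Subtype.val_injective) (fun s => hκ s.1)
    (fun s => hg s.1) (fun s => hd s.1) n fun s =>
      ⟨∑ r : Ix D K, C (v r) * (X none ^ (r.1 : ℕ) * C (t s.1) ^ (r.2.1 : ℕ) *
        ∏ j, X (some j) ^ (r.2.2 j : ℕ)), ?_, fun h => s.2 ?_, ?_⟩
  · have h4 := card_filter_add_card_filter_not (s := univ) fun s => B.eval (t s) ≠ 0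
    have h5 : (univ.filter fun s => ¬ B.eval (t s) ≠ 0).card ≤ K := by
      refine le_trans (card_le_card_of_injOn t (fun s hs => ?_) ht.injOn)
        ((Multiset.toFinset_card_le _).trans ((Polynomial.card_roots' B).trans hB1))
      rw [mem_coe, Multiset.mem_toFinset, Polynomial.mem_roots hB0]
      exact not_not.1 (mem_filter.1 hs).2
    rw [card_univ] at h4
    rw [Fintype.card_subtype] at h3
    have h6 : K + 1 ≤ (K + 1) ^ 17 := Nat.le_self_pow (by norm_num) _
    have h7 := Nat.mul_le_mul hr (by omega : D + 8 * K + 12 * Module.finrank F V ≤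
      D + 20 * (K + 1) ^ 17)
    exact (Nat.mul_le_mul (by omega) (by omega)).trans (h3.trans (by omega))
  · rintro _ ⟨w, rfl⟩
    refine (mem_restrictTotalDegree _ _ _).2 (dm_ZER (totalDegree_finsetSum_le fun e _ => ?_)
      ((totalDegree_finsetProd _ _).trans ?_))
    · exact (dm_ZER (totalDegree_C _).le (totalDegree_X_pow _ _).le).trans (by omega)
    · refine (sum_le_card_nsmul _ _ K fun j _ => ?_).trans (by simp)
      exact (totalDegree_X_pow _ _).le.trans (Nat.le_of_lt_succ (w.2 j).2)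
  · rintro _ ⟨⟨w, β⟩, rfl⟩
    change ts_ZER μ _ ∈ V
    have h4 : ts_ZER μ (q (w, β)) = (∑ e : Fin D, C (v (e, w)) * X none ^ (e : ℕ)) *
        ∏ j, (X (some j) + C (μ j)) ^ (β j : ℕ) := by
      simp [q, ts_ZER]
    simp only [add_pow] at h4
    rw [h4, prod_univ_sum, mul_sum]
    refine Submodule.sum_mem _ fun γ hγ => ?_
    have h5 : ∀ j, γ j < K + 1 := fun j => by
      have := mem_range.1 (Fintype.mem_piFinset.1 hγ j)
      omega
    refine (congrArg (· ∈ V) ?_).mp (V.smul_mem (∏ j, (μ j ^ (β j - γ j) * (β j : ℕ).choose (γ j)))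
      (Submodule.subset_span ⟨(w, fun j => ⟨γ j, h5 j⟩), rfl⟩))
    simp only [q, smul_eq_C_mul, map_mul, map_pow, map_natCast, map_prod, prod_mul_distrib]
    ring
  · rw [Fintype.sum_prod_type_right]
    refine Submodule.sum_mem _ fun w _ => ?_
    refine (congrArg (· ∈ V) ?_).mp (V.smul_mem (t s.1 ^ (w.1 : ℕ))
      (Submodule.subset_span ⟨(w, w.2), rfl⟩))
    simp only [q, smul_eq_C_mul, map_pow, sum_mul, mul_sum]
    exact sum_congr rfl fun e _ => by ring
  · have h4 := congrArg (coeff (mo t₀)) h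
    rw [coeff_sum, coeff_zero] at h4
    refine Eq.trans ?_ h4
    rw [Polynomial.eval_finsetSum]
    refine sum_congr rfl fun r _ => ?_
    have h5 : C (v r) * (X none ^ (r.1 : ℕ) * C (t s.1) ^ (r.2.1 : ℕ) *
        ∏ j, X (some j) ^ (r.2.2 j : ℕ)) = monomial (mo r) (v r * t s.1 ^ (r.2.1 : ℕ)) := by
      rw [monomial_eq, Finsupp.prod_fintype _ _ fun _ => pow_zero _, Fintype.prod_option, map_mul,
        map_pow]
      change _ = _ * (X none ^ (r.1 : ℕ) * ∏ j, X (some j) ^ (r.2.2 j : ℕ))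
      ring
    rw [h5, coeff_monomial]
    split_ifs <;> simp
  · refine (h2 s.1).trans (dvd_of_eq ?_)
    simp [ev_io_ZER, PowerSeries.C_eq_algebraMap]

end Pool.Agent.MP_3e91a1_nt.TR

end
end

section

/-! The zero estimate for an abstract system. -/

set_option autoImplicit false

open Finset MvPolynomial

noncomputable section

namespace Pool.Agent.MP_3e91a1_nt.GN

open TR Pool.Agent.MP_384f6f_nt.AL

variable {F σ ι : Type} [Field F]

/-- the derivation -/
def th_ZRG (w : σ ⊕ ι → MvPolynomial σ F) :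
    Derivation F (MvPolynomial (σ ⊕ ι) F) (MvPolynomial (σ ⊕ ι) F) :=
  mkDerivation F fun i => rename Sum.inl (w i)

/-- the evaluation -/
def ev_ZRG (g : σ → PowerSeries F) (ml : ι → PowerSeries F) :
    MvPolynomial (σ ⊕ ι) F →ₐ[F] PowerSeries F :=
  aeval (Sum.elim g ml)

/-- the translation -/
def tr_ZRG (σ : Type) (μ : ι → F) : MvPolynomial (σ ⊕ ι) F →ₐ[F] MvPolynomial (σ ⊕ ι) F :=
  aeval (Sum.elim (fun i => X (Sum.inl i)) fun j => X (Sum.inr j) + C (μ j))

/-- the inclusion of the polynomials in the parameter and the logarithms -/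
def io_ZRG (F ι : Type) [Field F] (o : σ) :
    MvPolynomial (Option ι) F →ₐ[F] MvPolynomial (σ ⊕ ι) F :=
  rename fun q => q.elim (Sum.inl o) Sum.inr

/-- the translation on the small ring -/
def ts_ZRG (μ : ι → F) : MvPolynomial (Option ι) F →ₐ[F] MvPolynomial (Option ι) F :=
  aeval fun q => q.elim (X none) fun j => X (some j) + C (μ j)

theorem tr_io_ZRG (o : σ) (μ : ι → F) (G : MvPolynomial (Option ι) F) :
    tr_ZRG σ μ (io_ZRG F ι o G) = io_ZRG F ι o (ts_ZRG μ G) := by
  have h : (tr_ZRG σ μ).comp (io_ZRG F ι o) = (io_ZRG F ι o).comp (ts_ZRG μ) :=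
    algHom_ext fun q => by cases q <;> simp [tr_ZRG, io_ZRG, ts_ZRG]
  exact congr($h G)

theorem ev_io_ZRG (o : σ) (g : σ → PowerSeries F) (ml : ι → PowerSeries F)
    (G : MvPolynomial (Option ι) F) :
    ev_ZRG g ml (io_ZRG F ι o G) = aeval (fun q : Option ι => q.elim (g o) ml) G := by
  rw [ev_ZRG, io_ZRG, aeval_rename]
  refine congrArg (fun x => aeval x G) (funext fun q => ?_)
  cases q <;> rfl

theorem tr_inl_ZRG (μ : ι → F) (p : MvPolynomial σ F) :
    tr_ZRG σ μ (rename Sum.inl p) = rename Sum.inl p := by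
  have h : (tr_ZRG σ μ).comp (rename Sum.inl) = rename Sum.inl :=
    algHom_ext fun q => by simp [tr_ZRG]
  exact congr($h p)

theorem ev_inl_ZRG (g : σ → PowerSeries F) (ml : ι → PowerSeries F) (p : MvPolynomial σ F) :
    ev_ZRG g ml (rename Sum.inl p) = aeval g p := by
  rw [ev_ZRG, aeval_rename]
  rfl

theorem tr_pow_ZRG (w : σ ⊕ ι → MvPolynomial σ F) (μ : ι → F) (m : ℕ)
    (G : MvPolynomial (σ ⊕ ι) F) :
    tr_ZRG σ μ (((th_ZRG w).toLinearMap ^ m) G) = ((th_ZRG w).toLinearMap ^ m) (tr_ZRG σ μ G) := by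
  have h : ∀ G, tr_ZRG σ μ (th_ZRG w G) = th_ZRG w (tr_ZRG σ μ G) := fun G => by
    induction G using MvPolynomial.induction_on with
    | C r => simp [tr_ZRG, derivation_C]
    | add p q hp hq => simp only [map_add, hp, hq]
    | mul_X p i hp =>
      have h : tr_ZRG σ μ (th_ZRG w (X i)) = th_ZRG w (tr_ZRG σ μ (X i)) := by
        rcases i with i | j
        · rw [show tr_ZRG σ μ (X (Sum.inl i)) = X (Sum.inl i) from aeval_X _ _, th_ZRG,
            mkDerivation_X, tr_inl_ZRG]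
        · rw [show tr_ZRG σ μ (X (Sum.inr j)) = X (Sum.inr j) + C (μ j) from aeval_X _ _, map_add,
            derivation_C, add_zero, th_ZRG, mkDerivation_X, tr_inl_ZRG]
      rw [map_mul (tr_ZRG σ μ), Derivation.leibniz, Derivation.leibniz]
      simp only [smul_eq_mul, map_add (tr_ZRG σ μ), map_mul (tr_ZRG σ μ), hp, h]
  induction m with
  | zero => rfl
  | succ m ih =>
    rw [pow_succ', Module.End.mul_apply, Module.End.mul_apply, ← ih]
    exact h _

theorem ev_pow_ZRG {w : σ ⊕ ι → MvPolynomial σ F} {g : σ → PowerSeries F}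
    {ml : ι → PowerSeries F} {γ : PowerSeries F}
    (h1 : ∀ i, γ * PowerSeries.derivative F (Sum.elim g ml i) = aeval g (w i)) (m : ℕ)
    (G : MvPolynomial (σ ⊕ ι) F) :
    (D_ZER γ)^[m] (ev_ZRG g ml G) = ev_ZRG g ml (((th_ZRG w).toLinearMap ^ m) G) := by
  have h : ∀ G, D_ZER γ (ev_ZRG g ml G) = ev_ZRG g ml (th_ZRG w G) := fun G => by
    induction G using MvPolynomial.induction_on with
    | C r => simp [ev_ZRG, D_apply_ZER, derivation_C]
    | add p q hp hq => simp only [map_add, hp, hq]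
    | mul_X p i hp =>
      have h : D_ZER γ (ev_ZRG g ml (X i)) = ev_ZRG g ml (th_ZRG w (X i)) := by
        rw [th_ZRG, mkDerivation_X, D_apply_ZER, ev_inl_ZRG, ← h1,
          show ev_ZRG g ml (X i) = Sum.elim g ml i from aeval_X _ _]
      rw [map_mul, D_mul_ZER, hp, h, Derivation.leibniz]
      simp only [smul_eq_mul, map_add, map_mul]
      ring
  induction m with
  | zero => rfl
  | succ m ih => rw [Function.iterate_succ_apply', ih, h, pow_succ']; rfl

theorem deg_pow_ZRG {w : σ ⊕ ι → MvPolynomial σ F} {h : ℕ} (hw : ∀ i, (w i).totalDegree ≤ h)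
    (m : ℕ) (G : MvPolynomial (σ ⊕ ι) F) :
    (((th_ZRG w).toLinearMap ^ m) G).totalDegree ≤ G.totalDegree + h * m := by
  induction m with
  | zero => exact le_rfl
  | succ m ih =>
    rw [pow_succ', Module.End.mul_apply, Nat.mul_succ]
    exact (dder_ZER (m := h) (fun i => (totalDegree_rename_le _ _).trans (hw i)) _).trans
      (by omega)

theorem main_ZRG (hINV : INV_st) [CharZero F] (V : Submodule F (MvPolynomial (Option ι) F))
    [Module.Finite F V] {D h ν : ℕ} (h1 : ∀ G ∈ V, G.totalDegree ≤ D)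
    (h2 : ∀ μ, ∀ G ∈ V, ts_ZRG μ G ∈ V) {P : Type} (Q : Finset P) (o : σ)
    {w : σ ⊕ ι → MvPolynomial σ F} {γ : P → PowerSeries F} {g : P → σ → PowerSeries F}
    {ml : P → ι → PowerSeries F} (hw : ∀ i, (w i).totalDegree ≤ h) (g0 : ∀ s, γ s ≠ 0)
    (i1 : ∀ s i, γ s * PowerSeries.derivative F (Sum.elim (g s) (ml s) i) = aeval (g s) (w i))
    (hi : ∀ s, AlgebraicIndependent F fun q : Option ι => q.elim (g s o) (ml s))
    (hN : ∀ (W : MvPolynomial σ F) (N : ℕ) (Q : Finset P), (∀ s ∈ Q, aeval (g s) W ≠ 0 ∧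
      PowerSeries.X ^ N ∣ aeval (g s) W) → Q.card * N ≤ ν * (W.totalDegree + ν)) (n : ℕ)
    (h4 : ∀ s ∈ Q, ∃ G ∈ V, G ≠ 0 ∧ PowerSeries.X ^ n ∣ ev_ZRG (g s) (ml s) (io_ZRG F ι o G)) :
    Q.card * (n - Module.finrank F V) ≤
      ν * (Module.finrank F V * (D + h * Module.finrank F V) + ν) := by
  have b := Module.finBasis F V
  generalize Module.finrank F V = r at b ⊢
  let A : Matrix (Fin r) (Fin r) (MvPolynomial (σ ⊕ ι) F) :=
    Matrix.of fun m l => ((th_ZRG w).toLinearMap ^ (m : ℕ)) (io_ZRG F ι o (b l))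
  have hb : ∀ G (hG : G ∈ V), ∀ m : Fin r, ((th_ZRG w).toLinearMap ^ (m : ℕ)) (io_ZRG F ι o G) =
      ∑ l, A m l * C (b.repr ⟨G, hG⟩ l) := fun G hG m => by
    conv_lhs => rw [show G = _ from congrArg Subtype.val (b.sum_repr ⟨G, hG⟩).symm]
    simp only [Submodule.coe_sum, Submodule.coe_smul, map_sum, map_smul]
    simp only [smul_eq_C_mul, A, Matrix.of_apply, mul_comm]
  obtain ⟨W, w1, w2⟩ := hINV F _ _ A.det fun μ => by
    refine ⟨(Matrix.of fun l' l => b.repr ⟨_, h2 μ _ (b l).2⟩ l').det, ?_⟩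
    change tr_ZRG σ μ _ = _
    rw [AlgHom.map_det, smul_eq_C_mul, RingHom.map_det, mul_comm, ← Matrix.det_mul]
    refine congrArg _ (Matrix.ext fun m l => ?_)
    exact (tr_pow_ZRG w μ m _).trans ((congrArg _ (tr_io_ZRG o μ _)).trans
      (hb _ (h2 μ _ (b l).2) m))
  have e2 : ∀ s, aeval (g s) W = ((ev_ZRG (g s) (ml s)).mapMatrix A).det := fun s => by
    rw [← AlgHom.map_det, w2, ev_inl_ZRG]
  have e4 : W.totalDegree ≤ r * (D + h * r) := by
    refine w1.trans ((ddet_ZER A (m := D + h * r) fun m l => ?_).trans (by rw [Fintype.card_fin]))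
    have h5 := (totalDegree_rename_le (fun q : Option ι => q.elim (Sum.inl o)
      Sum.inr) (b l).1).trans (h1 _ (b l).2)
    exact (deg_pow_ZRG hw m _).trans (add_le_add h5 (Nat.mul_le_mul_left _ m.2.le))
  have key : ∀ s ∈ Q, aeval (g s) W ≠ 0 ∧ PowerSeries.X ^ (n - r) ∣ aeval (g s) W :=
    fun s hs => by
    rw [e2]
    constructor
    · have h5 := CC.wronski_WRO (F := F) (D_ZER (γ s)) (D_mul_ZER (γ s)) (fun x y hy h =>
        CC.ps_P_WRO x y hy (mul_left_cancel₀ (g0 s) (by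
          rw [D_apply_ZER, D_apply_ZER] at h
          linear_combination h))) r (fun l => ev_ZRG (g s) (ml s) (io_ZRG F ι o (b l)))
        ((b.linearIndependent.map' V.subtype V.ker_subtype).map'
          ((ev_ZRG (g s) (ml s)).comp (io_ZRG F ι o)).toLinearMap (LinearMap.ker_eq_bot.2
            fun x y h => hi s ((ev_io_ZRG o _ _ x).symm.trans (h.trans (ev_io_ZRG o _ _ y)))))
      exact fun h => h5 ((congrArg _ (Matrix.ext fun m l => ev_pow_ZRG (i1 s) _ _)).trans h)
    · obtain ⟨G, hG, h5, h6⟩ := h4 s hs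
      obtain ⟨l, hl⟩ : ∃ l, b.repr ⟨G, hG⟩ l ≠ 0 := by
        by_contra! h7
        exact h5 (congrArg Subtype.val (b.repr.map_eq_zero_iff.1 (Finsupp.ext h7)))
      refine (((IsUnit.mk0 _ hl).map (algebraMap F (PowerSeries F))).dvd_mul_right).1
        (det_mul_dvd _ (fun l => algebraMap F _ (b.repr ⟨G, hG⟩ l)) _ (fun m => ?_) l)
      have h7 := D_iter_dvd (D_ZER (γ s)) (D_mul_ZER (γ s)) _ _ n h6 m
      refine (pow_dvd_pow _ (by omega)).trans (h7.trans (dvd_of_eq ?_))
      refine (ev_pow_ZRG (i1 s) _ _).trans ?_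
      rw [hb G hG m, map_sum]
      exact sum_congr rfl fun l _ => by rw [map_mul, algHom_C]; rfl
  exact (hN W (n - r) Q key).trans (Nat.mul_le_mul_left _ (by omega))

theorem ZRG_pf (hINV : INV_st) : ZRG_st := by
  intro F P σ ι _ _ _ _ _ D K n h ν o th lw t γ g ml v hth hlw ht g0 i1 i2 hi hN hv h2
  classical
  obtain ⟨t₀, h0⟩ := Function.ne_iff.1 hv
  let q : (Fin (K + 1) × (ι → Fin (K + 1))) × (ι → Fin (K + 1)) → MvPolynomial (Option ι) F :=
    fun w => (∑ e : Fin D, C (v (e, w.1)) * X none ^ (e : ℕ)) * ∏ j, X (some j) ^ (w.2 j : ℕ)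
  let V := Submodule.span F (Set.range q)
  have : Module.Finite F V := Module.Finite.span_of_finite F (Set.finite_range q)
  have hr : Module.finrank F V ≤ (K + 1) ^ (2 * Fintype.card ι + 1) :=
    (finrank_range_le_card q).trans (by
      simp only [Fintype.card_prod, Fintype.card_fun, Fintype.card_fin]
      exact le_of_eq (by ring))
  let mo : Iy D K ι → Option ι →₀ ℕ := fun r =>
    Finsupp.equivFunOnFinite.symm fun o => o.elim (r.1 : ℕ) fun j => r.2.2 j
  let B : Polynomial F := ∑ r, if mo r = mo t₀ then Polynomial.monomial (r.2.1 : ℕ) (v r) else 0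
  have hB0 : B ≠ 0 := fun h => by
    have h3 := congrArg (Polynomial.coeff · t₀.2.1) h
    simp only [B, Polynomial.finsetSum_coeff, Polynomial.coeff_zero] at h3
    rw [sum_eq_single t₀] at h3
    · exact h0 (by simpa using h3)
    · intro r _ hr
      split_ifs with h4
      · rw [Polynomial.coeff_monomial, if_neg]
        exact fun h5 => hr (Prod.ext (Fin.ext congr($h4 none)) (Prod.ext (Fin.ext h5)
          (funext fun j => Fin.ext congr($h4 (some j)))))
      · rfl
    · simp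
  have hB1 : B.natDegree ≤ K := by
    refine Polynomial.natDegree_sum_le_of_forall_le _ _ fun r _ => ?_
    split_ifs
    · exact (Polynomial.natDegree_monomial_le _).trans (Nat.le_of_lt_succ r.2.1.2)
    · simp
  have h3 := main_ZRG hINV V (D := D + Fintype.card ι * K) (h := h)
    (fun G hG => (mem_restrictTotalDegree _ _ _).1 (Submodule.span_le.2 ?_ hG))
    (fun μ G hG => Submodule.span_le (p := V.comap (ts_ZRG μ).toLinearMap) |>.2 ?_ hG)
    (univ.filter fun s => B.eval (t s) ≠ 0) o (w := Sum.elim th lw)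
    (fun i => by rcases i with i | j; exacts [hth i, hlw j]) g0
    (fun s i => by rcases i with i | j; exacts [i1 s i, i2 s j]) hi hN n fun s hs =>
      ⟨∑ r : Iy D K ι, C (v r) * (X none ^ (r.1 : ℕ) * C (t s) ^ (r.2.1 : ℕ) *
        ∏ j, X (some j) ^ (r.2.2 j : ℕ)), ?_, fun h => (mem_filter.1 hs).2 ?_, ?_⟩
  · have h4 := card_filter_add_card_filter_not (s := univ) fun s => B.eval (t s) ≠ 0
    have h5 : (univ.filter fun s => ¬ B.eval (t s) ≠ 0).card ≤ K := by
      refine le_trans (card_le_card_of_injOn t (fun s hs => ?_) ht.injOn)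
        ((Multiset.toFinset_card_le _).trans ((Polynomial.card_roots' B).trans hB1))
      rw [mem_coe, Multiset.mem_toFinset, Polynomial.mem_roots hB0]
      exact not_not.1 (mem_filter.1 hs).2
    rw [card_univ] at h4
    have h6 : K + 1 ≤ (K + 1) ^ (2 * Fintype.card ι + 1) := Nat.le_self_pow (by omega) _
    have h8 := Nat.mul_le_mul_left (Fintype.card ι) ((Nat.le_succ K).trans h6)
    have h9 := Nat.mul_le_mul_left h hr
    have h7 := Nat.mul_le_mul hr (by rw [add_mul]; omega :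
      D + Fintype.card ι * K + h * Module.finrank F V ≤
        D + (Fintype.card ι + h) * (K + 1) ^ (2 * Fintype.card ι + 1))
    exact (Nat.mul_le_mul (by omega) (by omega)).trans
      (h3.trans (Nat.mul_le_mul_left _ (Nat.add_le_add_right h7 _)))
  · rintro _ ⟨w, rfl⟩
    refine (mem_restrictTotalDegree _ _ _).2 (dm_ZER (totalDegree_finsetSum_le fun e _ => ?_)
      ((totalDegree_finsetProd _ _).trans ?_))
    · exact (dm_ZER (totalDegree_C _).le (totalDegree_X_pow _ _).le).trans (by omega)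
    · refine (sum_le_card_nsmul _ _ K fun j _ => ?_).trans (by simp)
      exact (totalDegree_X_pow _ _).le.trans (Nat.le_of_lt_succ (w.2 j).2)
  · rintro _ ⟨⟨w, β⟩, rfl⟩
    change ts_ZRG μ _ ∈ V
    have h4 : ts_ZRG μ (q (w, β)) = (∑ e : Fin D, C (v (e, w)) * X none ^ (e : ℕ)) *
        ∏ j, (X (some j) + C (μ j)) ^ (β j : ℕ) := by
      simp [q, ts_ZRG]
    simp only [add_pow] at h4
    rw [h4, prod_univ_sum, mul_sum]
    refine Submodule.sum_mem _ fun γ hγ => ?_
    have h5 : ∀ j, γ j < K + 1 := fun j => by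
      have := mem_range.1 (Fintype.mem_piFinset.1 hγ j)
      omega
    refine (congrArg (· ∈ V) ?_).mp (V.smul_mem (∏ j, (μ j ^ (β j - γ j) * (β j : ℕ).choose (γ j)))
      (Submodule.subset_span ⟨(w, fun j => ⟨γ j, h5 j⟩), rfl⟩))
    simp only [q, smul_eq_C_mul, map_mul, map_pow, map_natCast, map_prod, prod_mul_distrib]
    ring
  · rw [Fintype.sum_prod_type_right]
    refine Submodule.sum_mem _ fun w _ => ?_
    refine (congrArg (· ∈ V) ?_).mp (V.smul_mem (t s ^ (w.1 : ℕ))
      (Submodule.subset_span ⟨(w, w.2), rfl⟩))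
    simp only [q, smul_eq_C_mul, map_pow, sum_mul, mul_sum]
    exact sum_congr rfl fun e _ => by ring
  · have h4 := congrArg (coeff (mo t₀)) h
    rw [coeff_sum, coeff_zero] at h4
    refine Eq.trans ?_ h4
    rw [Polynomial.eval_finsetSum]
    refine sum_congr rfl fun r _ => ?_
    have h5 : C (v r) * (X none ^ (r.1 : ℕ) * C (t s) ^ (r.2.1 : ℕ) *
        ∏ j, X (some j) ^ (r.2.2 j : ℕ)) = monomial (mo r) (v r * t s ^ (r.2.1 : ℕ)) := by
      rw [monomial_eq, Finsupp.prod_fintype _ _ fun _ => pow_zero _, Fintype.prod_option, map_mul,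
        map_pow]
      change _ = _ * (X none ^ (r.1 : ℕ) * ∏ j, X (some j) ^ (r.2.2 j : ℕ))
      ring
    rw [h5, coeff_monomial]
    split_ifs <;> simp
  · refine (h2 s).trans (dvd_of_eq ?_)
    simp [ev_io_ZRG, PowerSeries.C_eq_algebraMap]

end Pool.Agent.MP_3e91a1_nt.GN

end
end
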