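import Mathlib

set_option linter.all false

section

/-! Definitions and statements of the steps for the complex cubic fields. -/

set_option autoImplicit false

open NumberField Module Finset

namespace Pool.Agent.MP_3e91a1_nt.CC

/-- the polynomial of Cauchy and Mirimanoff vanishes at `a` modulo `p` -/
def Bad (p : ℕ) {F : Type} [Field F] (a : F) : Prop :=
  IsIntegral ℤ (((1 + a) ^ p - 1 - a ^ p) / (p : F) ^ 2)

/-- the class of `x` modulo `p`-th powers is an eigenvector -/
def Eig (p : ℕ) {K M : Type} [Field K] [Field M] [Algebra K M] (ω : (M ≃ₐ[K] M) → ℕ) (x : M) :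
    Prop := x ≠ 0 ∧ ∀ g : M ≃ₐ[K] M, ∃ z : M, g x = x ^ ω g * z ^ p

/-- a unit in the eigenspace of the cyclotomic character -/
def ETA_st : Prop := ∀ (p : ℕ) (K M : Type) [Field K] [NumberField K] [Field M] [NumberField M]
  [Algebra K M] [IsGalois K M] (ζ : M) (ω : (M ≃ₐ[K] M) → ℕ) (φ : K →+* ℂ), p.Prime → 2 < p →
  IsPrimitiveRoot ζ p → (∀ g : M ≃ₐ[K] M, g ζ = ζ ^ ω g) → (∃ g : M ≃ₐ[K] M, g ζ ≠ ζ) →
  ¬ p ∣ finrank ℚ M → finrank ℚ K < p → ¬ ComplexEmbedding.IsReal φ →
  ∃ η : (𝓞 M)ˣ, Eig p ω ((η : 𝓞 M) : M) ∧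
    ∀ (i j : ℕ) (z : M), ζ ^ i * ((η : 𝓞 M) : M) ^ j = z ^ p → p ∣ i ∧ p ∣ j

/-- the exponent of the units modulo an unramified prime -/
def UNR_st : Prop := ∀ (p : ℕ) (K : Type) [Field K] [NumberField K], p.Prime →
  finrank ℚ K = 3 → ¬ (p : ℤ) ∣ discr K → ∀ y : 𝓞 K, IsCoprime y p →
    (p : 𝓞 K) ∣ y ^ ((p - 1) * (p ^ 2 - 1) * (p ^ 3 - 1)) - 1

/-- two consecutive roots of unity modulo `p ^ 2` -/
def FRB_st : Prop := ∀ (p E : ℕ) (M : Type) [Field M] [NumberField M] [IsGalois ℚ M] (a : 𝓞 M),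
  p.Prime → ¬ p ∣ E → (p : 𝓞 M) ^ 2 ∣ a ^ E - 1 → (p : 𝓞 M) ^ 2 ∣ (1 + a) ^ E - 1 →
  (p : 𝓞 M) ^ 2 ∣ (1 + a) ^ p - 1 - a ^ p

/-- a drop of the rank modulo `q` gives a power of `q` in the determinant -/
def DIV_st : Prop := ∀ (R ι κ : Type) [CommRing R] [Fintype ι] [DecidableEq ι] [Fintype κ] (q : R)
  (A : Matrix ι ι R) (S : Finset ι) (u : ι → κ → R) (w : κ → ι → R),
  (∀ r, ∀ s ∈ S, q ∣ A r s - ∑ t, u r t * w t s) → q ^ (S.card - Fintype.card κ) ∣ A.det

/-- three characters of a monoid that factor through a group of order `p ^ 2` -/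
def LIN_st : Prop := ∀ (p : ℕ) [Fact p.Prime] (Y V : Type) [CommMonoid Y] [AddCommGroup V]
  [Finite V] (lg : Y → V) (φ : Y → Fin 3 → ZMod p) (u : Y), Nat.card V ≤ p ^ 3 →
  (∀ v : V, p • v = 0) → (∀ x y, lg (x * y) = lg x + lg y) → (∀ x y, φ (x * y) = φ x + φ y) →
  (∀ y, lg y = 0 → φ y = 0) → lg u ≠ 0 → φ u = 0 →
  ∃ c : Fin 3 → ZMod p, c ≠ 0 ∧ ∀ y, ∑ i, c i * φ y i = 0

end Pool.Agent.MP_3e91a1_nt.CC

end

section

/-! A drop of the rank modulo `q` gives a power of `q` in the determinant. -/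

set_option autoImplicit false

open Finset

namespace Pool.Agent.MP_3e91a1_nt.CC

theorem DIV_pf : DIV_st := by
  intro R ι κ _ _ _ _ q A S u w h
  classical
  choose! v hv using h
  set c : ι → Option κ → R := fun s o =>
    o.elim (if s ∈ S then q else 1) fun t => if s ∈ S then w t s else 0 with hc
  set x : ι → Option κ → ι → R := fun s o r =>
    o.elim (if s ∈ S then v r s else A r s) fun t => u r t with hx
  have e : A.transpose = fun s => ∑ o, c s o • x s o := by
    ext s r
    by_cases hs : s ∈ S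
    · simp [hc, hx, hs, Fintype.sum_option, ← hv r s hs, mul_comm]
    · simp [hc, hx, hs, Fintype.sum_option]
  rw [← Matrix.det_transpose, e]
  refine (dvd_sum fun r _ => ?_).trans
    (Matrix.detRowAlternating.toMultilinearMap.map_sum fun s o => c s o • x s o).symm.dvd
  rw [MultilinearMap.map_smul_univ, smul_eq_mul]
  by_cases hr : Set.InjOn r (S.filter fun s => ¬ r s = none)
  · refine Dvd.dvd.mul_right ?_ _
    have h1 : (S.filter fun s => ¬ r s = none).card ≤ Fintype.card κ := by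
      have := card_le_card_of_injOn (t := univ.erase none) r (fun s hs => by
        simpa using (mem_filter.1 hs).2) hr
      simpa using this
    have h2 := card_filter_add_card_filter_not (s := S) fun s => r s = none
    refine (pow_dvd_pow q (by omega : _ ≤ (S.filter fun s => r s = none).card)).trans ?_
    rw [← prod_const]
    refine (prod_congr rfl fun s hs => ?_).dvd.trans (prod_dvd_prod_of_subset _ _ _ (subset_univ _))
    simp [hc, (mem_filter.1 hs).1, (mem_filter.1 hs).2]
  · simp only [Set.InjOn, not_forall] at hr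
    obtain ⟨s, hs, s', -, h1, h2⟩ := hr
    obtain ⟨t, ht⟩ := Option.ne_none_iff_exists'.1 (mem_filter.1 hs).2
    have h3 := Matrix.detRowAlternating.map_eq_zero_of_eq (fun s => x s (r s))
      (i := s) (j := s') (by simp only [← h1, ht, hx, Option.elim_some]) h2
    exact Dvd.dvd.mul_left ((dvd_zero _).trans h3.symm.dvd) _

end Pool.Agent.MP_3e91a1_nt.CC

end

section

/-! Three characters of a monoid that factor through a small group are dependent. -/

set_option autoImplicit false

open Finset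

namespace Pool.Agent.MP_3e91a1_nt.CC

theorem pow_LIN {Y V : Type} [CommMonoid Y] [AddCommGroup V] (f : Y → V)
    (h : ∀ x y, f (x * y) = f x + f y) (y : Y) (n : ℕ) : f (y ^ n) = n • f y := by
  induction n with
  | zero =>
    have := h 1 1
    rw [mul_one] at this
    rw [pow_zero, zero_smul]
    exact left_eq_add.1 this
  | succ n ih => rw [pow_succ, h, ih, succ_nsmul]

theorem LIN_pf : LIN_st := by
  intro p hp Y V _ _ _ lg φ u hV hpV hl hφ h0 hu hφu
  have p1 : p = p - 1 + 1 := (Nat.sub_add_cancel hp.out.one_le).symm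
  have key : ∀ x x', lg x = lg x' → φ x = φ x' := by
    intro x x' e
    have a1 : lg (x * x' ^ (p - 1)) = 0 := by
      rw [hl, pow_LIN lg hl, e, add_comm, ← succ_nsmul, ← p1, hpV]
    have a2 := h0 _ a1
    rw [hφ, pow_LIN φ hφ] at a2
    have a3 : φ x' + (p - 1) • φ x' = 0 := by
      rw [add_comm, ← succ_nsmul, ← p1]
      ext i
      simp
    exact add_right_cancel (a2.trans a3.symm)
  let W : Submodule (ZMod p) (Fin 3 → ZMod p) :=
    { carrier := Set.range φ
      add_mem' := by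
        rintro _ _ ⟨x, rfl⟩ ⟨y, rfl⟩
        exact ⟨x * y, hφ x y⟩
      zero_mem' := ⟨u, hφu⟩
      smul_mem' := by
        rintro c _ ⟨x, rfl⟩
        refine ⟨x ^ c.val, ?_⟩
        rw [pow_LIN φ hφ, ← Nat.cast_smul_eq_nsmul (ZMod p), ZMod.natCast_zmod_val] }
  by_cases hW : W = ⊤
  · exfalso
    have : ∀ a : Fin 3 → ZMod p, ∃ y, φ y = a := fun a => (hW ▸ Submodule.mem_top : a ∈ W)
    choose y hy using this
    let _ : Module (ZMod p) V := AddCommGroup.zmodModule hpV
    have inj : Function.Injective fun z : (Fin 3 → ZMod p) × ZMod p => lg (y z.1 * u ^ z.2.val) := by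
      rintro ⟨a, b⟩ ⟨a', b'⟩ e
      have e1 := key _ _ e
      rw [hφ, hφ, pow_LIN φ hφ, pow_LIN φ hφ, hφu, smul_zero, smul_zero, add_zero, add_zero, hy,
        hy] at e1
      subst e1
      simp only at e
      rw [hl, hl, pow_LIN lg hl, pow_LIN lg hl, add_right_inj, ← Nat.cast_smul_eq_nsmul (ZMod p),
        ← Nat.cast_smul_eq_nsmul (ZMod p), ZMod.natCast_zmod_val, ZMod.natCast_zmod_val] at e
      have e2 : (b - b') • lg u = 0 := by rw [sub_smul, e, sub_self]
      have e3 : b = b' := by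
        by_contra hne
        have h4 : b - b' ≠ 0 := sub_ne_zero.2 hne
        have h5 := congrArg (fun t => (b - b')⁻¹ • t) e2
        simp only [smul_smul, inv_mul_cancel₀ h4, one_smul, smul_zero] at h5
        exact hu h5
      rw [e3]
    have c1 := Nat.card_le_card_of_injective _ inj
    rw [Nat.card_prod, Nat.card_fun, Nat.card_zmod, Nat.card_eq_fintype_card, Fintype.card_fin] at c1
    have c2 : 0 < p ^ 3 := pow_pos hp.out.pos 3
    have c3 := hp.out.one_lt
    nlinarith
  · obtain ⟨f, hf, hker⟩ := Submodule.exists_le_ker_of_lt_top W (lt_top_iff_ne_top.2 hW)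
    have ef : ∀ a : Fin 3 → ZMod p, f a = ∑ i, f (Pi.single i 1) * a i := by
      intro a
      conv_lhs => rw [← Finset.univ_sum_single a]
      rw [map_sum]
      refine sum_congr rfl fun i _ => ?_
      rw [mul_comm, ← smul_eq_mul, ← map_smul, ← Pi.single_smul, smul_eq_mul, mul_one]
    refine ⟨fun i => f (Pi.single i 1), fun hc => hf (LinearMap.ext fun a => ?_), fun x => ?_⟩
    · rw [ef]
      exact sum_eq_zero fun i _ => by rw [show f (Pi.single i 1) = 0 from congrFun hc i, zero_mul]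
    · rw [← ef]
      exact hker (⟨x, rfl⟩ : φ x ∈ W)

end Pool.Agent.MP_3e91a1_nt.CC

end
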