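import Pool.Agent.Mg.F3e91a1.G3fdd3f
import Pool.Agent.Mg.F3e91a1.G24f70d
import Pool.Agent.Mg.F3e91a1.Gf1088e

set_option linter.all false

section

/-! Statements of the steps for one prime. -/

set_option autoImplicit false

open NumberField Module Finset

namespace Pool.Agent.MP_3e91a1_nt.TR

open MP_f3cd89_nt CC

/-- any `k` eigenclasses that are unramified outside `p` are dependent -/
def Dpk (p k : ℕ) {K M : Type} [Field K] [Field M] [NumberField M] [Algebra K M]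
    (ω : (M ≃ₐ[K] M) → ℕ) : Prop :=
  ∀ x : Fin k → M, (∀ i, Eig p ω (x i) ∧ ∀ v : Pr M, (p : 𝓞 M) ∉ v.asIdeal → (p : ℤ) ∣ ord v (x i)) →
    ∃ (c : Fin k → ℕ) (z : M), (∃ i, ¬ p ∣ c i) ∧ ∏ i, x i ^ c i = z ^ p

/-- the quotients of two elements are independent -/
def Indp (p E : ℕ) {R : Type} [CommRing R] (u u' : R) : Prop :=
  ∀ i j : ℕ, (p : R) ^ 2 ∣ (u ^ i * u' ^ j) ^ E - 1 → p ∣ i ∧ p ∣ j

/-- a strong form of the conjecture of Leopoldt -/
def Leo (p : ℕ) (K : Type) [Field K] : Prop := ∀ (m : ℕ) (e : (𝓞 K)ˣ),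
  (p : 𝓞 K) ^ (m + 1) ∣ (e : 𝓞 K) - 1 → ∃ η : (𝓞 K)ˣ, e = η ^ p ^ m

/-- unramified primes -/
def URM_st : Prop := ∀ (p : ℕ) (K : Type) [Field K] [NumberField K], p.Prime →
  ¬ (p : ℤ) ∣ discr K → (Ideal.span {(p : 𝓞 K)}).IsRadical ∧
    ∃ E : ℕ, ¬ p ∣ E ∧ ∀ y : 𝓞 K, IsCoprime y p → (p : 𝓞 K) ∣ y ^ E - 1

/-- the Frobenius modulo `p ^ 2` -/
def FRO_st : Prop := ∀ (p E : ℕ) (E' n : ℤ) (M : Type) [Field M] [NumberField M] [IsGalois ℚ M]
  (y l y' l' : 𝓞 M), p.Prime → (Ideal.span {(p : 𝓞 M)}).IsRadical → (p : ℤ) ∣ E * E' - 1 →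
  y ^ E = 1 + p * l → y' ^ E = 1 + p * l' → y - y' = n →
  (p : 𝓞 M) ^ 2 ∣ y ^ p * (1 + p * (E' * l ^ p)) - y' ^ p * (1 + p * (E' * l' ^ p)) - n

/-- dependent quotients give a bad prime -/
def BAD_st : Prop := ∀ (T : ℕ) (K : IntermediateField ℚ (AlgebraicClosure ℚ)) [NumberField K]
  (u : 𝓞 K) (a b e : Zb), u * (u - 1) * (u + T) = 1 → Tri (T : Zb) a b e →
  ∃ B : ℕ, ∀ p E : ℕ, p.Prime → B < p → ¬ p ∣ E → (p : 𝓞 K) ∣ u ^ E - 1 →
    (p : 𝓞 K) ∣ (u - 1) ^ E - 1 → ¬ Indp p E u (u - 1) → Bad p T a b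

/-- characters of a monoid that factor through a small group -/
def LNK_st : Prop := ∀ (p k : ℕ) [Fact p.Prime] (Y V : Type) [CommMonoid Y] [AddCommGroup V]
  [Finite V] (lg : Y → V) (φ : Y → Fin k → ZMod p) (u u' : Y), Nat.card V ≤ p ^ (k + 1) →
  (∀ v : V, p • v = 0) → (∀ x y, lg (x * y) = lg x + lg y) → (∀ x y, φ (x * y) = φ x + φ y) →
  (∀ y, lg y = 0 → φ y = 0) → (∀ i j : ℕ, i • lg u + j • lg u' = 0 → p ∣ i ∧ p ∣ j) →
  φ u = 0 → φ u' = 0 → ∃ c : Fin k → ZMod p, c ≠ 0 ∧ ∀ y, ∑ i, c i * φ y i = 0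

/-- the bound for the eigenspace -/
def THK_st : Prop := ∀ (p E k : ℕ) (K M : Type) [Field K] [NumberField K] [Field M] [NumberField M]
  [Algebra K M] [IsGalois K M] [IsGalois ℚ M] (ζ : M) (ω : (M ≃ₐ[K] M) → ℕ) (u u' : (𝓞 K)ˣ),
  p.Prime → 2 < p → IsPrimitiveRoot ζ p → (∀ g : M ≃ₐ[K] M, g ζ = ζ ^ ω g) →
  ¬ p ∣ finrank ℚ M → finrank ℚ K ≤ k + 1 → ¬ p ∣ classNumber K → ¬ p ∣ E →
  (∀ y : 𝓞 K, IsCoprime y p → (p : 𝓞 K) ∣ y ^ E - 1) → Indp p E (u : 𝓞 K) u' → Dpk p k ω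

/-- the rank of an almost idempotent matrix -/
def IDM_st : Prop := ∀ (p r : ℕ) [Fact p.Prime] (ι : Type) [Fintype ι] [DecidableEq ι]
  (A : Matrix ι ι (ZMod p)) (d : ZMod p), d ≠ 0 → A * A = d • A → r < p → A.trace = r * d →
  ∃ f : Fin r → ι, LinearIndependent (ZMod p) fun j => A (f j)

/-- units in the eigenspace of the cyclotomic character -/
def ETK_st : Prop := ∀ (p : ℕ) (K M : Type) [Field K] [NumberField K] [Field M] [NumberField M]
  [Algebra K M] [IsGalois K M] (ζ : M) (ω : (M ≃ₐ[K] M) → ℕ), p.Prime → 2 < p →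
  IsPrimitiveRoot ζ p → (∀ g : M ≃ₐ[K] M, g ζ = ζ ^ ω g) → (∃ g : M ≃ₐ[K] M, g ζ ≠ ζ) →
  ¬ p ∣ finrank ℚ M → finrank ℚ K < p →
  ∃ η : Fin (InfinitePlace.nrComplexPlaces K) → (𝓞 M)ˣ, (∀ j, Eig p ω ((η j : 𝓞 M) : M)) ∧
    ∀ (i : ℕ) (e : Fin (InfinitePlace.nrComplexPlaces K) → ℕ) (z : M),
      ζ ^ i * ∏ j, ((η j : 𝓞 M) : M) ^ e j = z ^ p → p ∣ i ∧ ∀ j, p ∣ e j

/-- the reflection -/
def RFK_st : Prop := ∀ (p r : ℕ) (K M : Type) [Field K] [NumberField K] [Field M] [NumberField M]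
  [Algebra K M] (ζ : M) (ω : (M ≃ₐ[K] M) → ℕ) (η : Fin r → (𝓞 M)ˣ) (F : Pr M → ZMod p),
  p.Prime → IsPrimitiveRoot ζ p → (∀ g : M ≃ₐ[K] M, g ζ = ζ ^ ω g) →
  ¬ p ∣ Nat.card (M ≃ₐ[K] M) → (∀ j, Eig p ω ((η j : 𝓞 M) : M)) →
  (∀ (i : ℕ) (e : Fin r → ℕ) (z : M),
    ζ ^ i * ∏ j, ((η j : 𝓞 M) : M) ^ e j = z ^ p → p ∣ i ∧ ∀ j, p ∣ e j) → Dpk p (r + 2) ω →
  (∀ x : M, x ≠ 0 → ((dv x).sum fun w n => (n : ZMod p) * F w) = 0) →
  (∀ (g : M ≃ₐ[K] M) (w : Pr M), F (gact g w) = ω g * F w) → ∀ w, F w = 0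

/-- the conjecture of Leopoldt from two independent quotients -/
def LEO_st : Prop := ∀ (K : Type) [Field K] [NumberField K], Units.rank K ≤ 2 →
  ∃ B : ℕ, ∀ (p E : ℕ) (u u' : (𝓞 K)ˣ), p.Prime → B < p → ¬ p ∣ E →
    (∀ y : 𝓞 K, IsCoprime y p → (p : 𝓞 K) ∣ y ^ E - 1) → Indp p E (u : 𝓞 K) u' → Leo p K

end Pool.Agent.MP_3e91a1_nt.TR

end

section

set_option autoImplicit false

open NumberField Module Finset

namespace Pool.Agent.MP_3e91a1_nt.CC

lemma trace_ETA {ι κ : Type} [Fintype ι] [DecidableEq ι] [Fintype κ] [DecidableEq κ]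
    (b : Basis κ ℝ (ι → ℝ)) (P : (ι → ℝ) →ₗ[ℝ] (ι → ℝ)) :
    ∑ w, P (Pi.single w 1) w = ∑ k, b.repr (P (b k)) k := by
  have h1 := LinearMap.trace_eq_matrix_trace ℝ (Pi.basisFun ℝ ι) P
  have h2 := LinearMap.trace_eq_matrix_trace ℝ b P
  rw [h1] at h2
  simpa [Matrix.trace, LinearMap.toMatrix_apply] using h2

/-- logarithms of a unit at all infinite places -/
noncomputable def Lg_ETA (M : Type) [Field M] [NumberField M] :
    Additive (𝓞 M)ˣ →+ (InfinitePlace M → ℝ) where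
  toFun x w := Real.log (w ((x.toMul : 𝓞 M) : M))
  map_zero' := by ext w; simp
  map_add' x y := by
    ext w
    have hx := (Units.pos_at_place x.toMul w).ne'
    have hy := (Units.pos_at_place y.toMul w).ne'
    simp only [toMul_add, Units.val_mul, map_mul, Pi.add_apply]
    exact Real.log_mul hx hy

lemma Lg_apply_ETA {M : Type} [Field M] [NumberField M] (x : (𝓞 M)ˣ) (w : InfinitePlace M) :
    Lg_ETA M (Additive.ofMul x) w = Real.log (w ((x : 𝓞 M) : M)) := rfl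

lemma Lg_tors_ETA {M : Type} [Field M] [NumberField M] {x : (𝓞 M)ˣ} (hx : x ∈ Units.torsion M) :
    Lg_ETA M (Additive.ofMul x) = 0 := by
  ext w
  have := (Units.mem_torsion M).1 hx w
  rw [Lg_apply_ETA, Pi.zero_apply]
  exact (congrArg Real.log this).trans Real.log_one

lemma Lg_span_ETA {M : Type} [Field M] [NumberField M] (x : (𝓞 M)ˣ) :
    ∃ e : Fin (Units.rank M) → ℤ, Lg_ETA M (Additive.ofMul x) =
      ∑ i, (e i : ℝ) • Lg_ETA M (Additive.ofMul (Units.fundSystem M i)) := by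
  obtain ⟨⟨t, e⟩, h, -⟩ := Units.exist_unique_eq_mul_prod M x
  refine ⟨e, ?_⟩
  rw [h, ofMul_mul, map_add, Lg_tors_ETA t.2, zero_add, ofMul_prod, map_sum]
  refine Finset.sum_congr rfl fun i _ => ?_
  rw [ofMul_zpow, map_zsmul, Int.cast_smul_eq_zsmul]

lemma basis_ETA (M : Type) [Field M] [NumberField M] :
    ∃ b : Basis (Option (Fin (Units.rank M))) ℝ (InfinitePlace M → ℝ), b none = 1 ∧
      ∀ i, b (some i) = Lg_ETA M (Additive.ofMul (Units.fundSystem M i)) := by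
  classical
  let v : Option (Fin (Units.rank M)) → InfinitePlace M → ℝ := fun k =>
    k.elim 1 fun i => Lg_ETA M (Additive.ofMul (Units.fundSystem M i))
  have hv : LinearIndependent ℝ v := by
    rw [Fintype.linearIndependent_iff]
    intro g hg
    rw [Fintype.sum_option] at hg
    have hw : ∀ w : InfinitePlace M, g none + ∑ i, g (some i) *
        Real.log (w ((Units.fundSystem M i : 𝓞 M) : M)) = 0 := by
      intro w
      have := congrFun hg w
      simpa [v, Lg_apply_ETA] using this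
    have h0 : g none = 0 := by
      have h1 : ∑ w : InfinitePlace M, (w.mult : ℝ) * (g none + ∑ i, g (some i) *
          Real.log (w ((Units.fundSystem M i : 𝓞 M) : M))) = 0 := by simp [hw]
      simp only [mul_add, Finset.sum_add_distrib, Finset.mul_sum] at h1
      rw [Finset.sum_comm] at h1
      have h2 : ∀ i, ∑ w : InfinitePlace M, (w.mult : ℝ) * (g (some i) *
          Real.log (w ((Units.fundSystem M i : 𝓞 M) : M))) = 0 := by
        intro i
        have := Units.sum_mult_mul_log (Units.fundSystem M i)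
        simp only [mul_left_comm _ (g (some i)), ← Finset.mul_sum]
        exact mul_eq_zero_of_right _ this
      rw [Finset.sum_eq_zero fun i _ => h2 i, add_zero, ← Finset.sum_mul, ← Nat.cast_sum,
        InfinitePlace.sum_mult_eq] at h1
      exact (mul_eq_zero.1 h1).resolve_left (Nat.cast_ne_zero.2 finrank_pos.ne')
    have h3 := Fintype.linearIndependent_iff.1 (Units.isMaxRank_fundSystem M)
      (fun i => g (some i)) (by
        ext w
        have := hw w.1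
        rw [h0, zero_add] at this
        simp only [Finset.sum_apply, Pi.smul_apply, smul_eq_mul, Pi.zero_apply,
          Units.dirichletUnitTheorem.logEmbedding_component, mul_left_comm _ (w.1.mult : ℝ),
          ← Finset.mul_sum]
        exact mul_eq_zero_of_right _ this)
    rintro (_ | i)
    · exact h0
    · exact h3 i
  have hc : Fintype.card (Option (Fin (Units.rank M))) = finrank ℝ (InfinitePlace M → ℝ) := by
    have : 0 < Fintype.card (InfinitePlace M) := Fintype.card_pos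
    rw [Fintype.card_option, Fintype.card_fin, finrank_fintype_fun_eq_card, Units.rank]
    omega
  exact ⟨basisOfLinearIndependentOfCardEqFinrank hv hc, by simp [v], fun i => by simp [v]⟩

lemma sum_ETA {G F : Type} [Group G] [Field F] (χ : G → F) (hχ : ∀ a b, χ (a * b) = χ a * χ b)
    (S : Finset G) (s : G) (hS : ∀ g, g ∈ S ↔ s * g ∈ S) (hs : χ s ≠ 1) : ∑ g ∈ S, χ g = 0 := by
  have h := Finset.sum_equiv (s := S) (t := S) (f := fun g => χ (s * g)) (g := χ)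
    (Equiv.mulLeft s) (fun g => hS g) (fun _ _ => rfl)
  simp only [hχ, ← Finset.mul_sum] at h
  have : (χ s - 1) * ∑ g ∈ S, χ g = 0 := by rw [sub_mul, h, one_mul, sub_self]
  exact (mul_eq_zero.1 this).resolve_left (sub_ne_zero.2 hs)

/-- action on the units -/
noncomputable def act_ETA {K M : Type} [Field K] [Field M] [Algebra K M] (g : M ≃ₐ[K] M) :
    (𝓞 M)ˣ →* (𝓞 M)ˣ := Units.map (RingOfIntegers.mapRingHom (g : M →+* M)).toMonoidHom

lemma act_coe_ETA {K M : Type} [Field K] [Field M] [Algebra K M] (g : M ≃ₐ[K] M) (u : (𝓞 M)ˣ) :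
    ((act_ETA g u : 𝓞 M) : M) = g ((u : 𝓞 M) : M) := rfl

lemma indep_ETA (p : ℕ) (M : Type) [Field M] [NumberField M] (ζ : M) (hp : p.Prime)
    (hζ : IsPrimitiveRoot ζ p) (hM : ¬ p ∣ finrank ℚ M) (η : (𝓞 M)ˣ)
    (hη : ∀ z : (𝓞 M)ˣ, Lg_ETA M (Additive.ofMul η) ≠ p • Lg_ETA M (Additive.ofMul z))
    (i j : ℕ) (z : M) (h : ζ ^ i * ((η : 𝓞 M) : M) ^ j = z ^ p) : p ∣ i ∧ p ∣ j := by
  have hη0 : ((η : 𝓞 M) : M) ≠ 0 := Units.coe_ne_zero η
  have hj : p ∣ j := by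
    by_contra hj
    have hi : IsIntegral ℤ ζ := hζ.isIntegral hp.pos
    have hz : IsIntegral ℤ z := by
      refine IsIntegral.of_pow hp.pos ?_
      rw [← h]
      exact (hi.pow _).mul ((η : 𝓞 M).isIntegral_coe.pow _)
    obtain ⟨ζ', rfl⟩ : ∃ x : 𝓞 M, (x : M) = ζ := ⟨⟨ζ, hi⟩, rfl⟩
    obtain ⟨z', rfl⟩ : ∃ x : 𝓞 M, (x : M) = z := ⟨⟨z, hz⟩, rfl⟩
    have hp1 : ζ' ^ p = 1 := RingOfIntegers.ext (by simpa using hζ.pow_eq_one)
    have hu1 : IsUnit ζ' := IsUnit.of_pow_eq_one hp1 hp.ne_zero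
    have he : ζ' ^ i * (η : 𝓞 M) ^ j = z' ^ p := RingOfIntegers.ext (by simpa using h)
    have hu2 : IsUnit z' := by
      rw [← isUnit_pow_iff hp.ne_zero, ← he]
      exact (hu1.pow _).mul (η.isUnit.pow _)
    have he2 : hu1.unit ^ i * η ^ j = hu2.unit ^ p := Units.ext (by simpa using he)
    have ht : hu1.unit ∈ Units.torsion M := by
      rw [Units.torsion, CommGroup.mem_torsion, isOfFinOrder_iff_pow_eq_one]
      exact ⟨p, hp.pos, Units.ext (by simpa using hp1)⟩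
    have he3 := congrArg (fun x => Lg_ETA M (Additive.ofMul x)) he2
    simp only [ofMul_mul, ofMul_pow, map_add, map_nsmul, Lg_tors_ETA ht, smul_zero,
      zero_add] at he3
    obtain ⟨a, b, hab⟩ := Nat.isCoprime_iff_coprime.2 ((hp.coprime_iff_not_dvd).2 hj)
    refine hη (η ^ a * hu2.unit ^ b) ?_
    rw [ofMul_mul, ofMul_zpow, ofMul_zpow, map_add, map_zsmul, map_zsmul, smul_add,
      smul_comm p b, ← he3, ← natCast_zsmul, ← natCast_zsmul, smul_smul, smul_smul, ← add_smul,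
      mul_comm, hab, one_smul]
  refine ⟨?_, hj⟩
  by_contra hi
  obtain ⟨k, rfl⟩ := hj
  have h1 : (z / ((η : 𝓞 M) : M) ^ k) ^ p = ζ ^ i := by
    rw [div_pow, ← h, ← pow_mul, mul_comm k p, mul_div_assoc, div_self (pow_ne_zero _ hη0), mul_one]
  have h2 : IsPrimitiveRoot (ζ ^ i) p :=
    hζ.pow_of_coprime i ((hp.coprime_iff_not_dvd).2 hi).symm
  set y := z / ((η : 𝓞 M) : M) ^ k
  have := Fact.mk hp
  have h3 : IsPrimitiveRoot y (p ^ 2) := by
    have : orderOf y = p ^ 2 := by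
      refine orderOf_eq_prime_pow (n := 1) ?_ ?_
      · rw [pow_one, h1]
        exact h2.ne_one hp.one_lt
      · rw [pow_succ, pow_one, pow_mul, h1, h2.pow_eq_one]
    rw [← this]
    exact IsPrimitiveRoot.orderOf y
  have h4 := minpoly.degree_dvd (Algebra.IsIntegral.isIntegral (R := ℚ) y)
  rw [← Polynomial.cyclotomic_eq_minpoly_rat h3 (pow_pos hp.pos 2), Polynomial.natDegree_cyclotomic,
    Nat.totient_prime_pow hp two_pos] at h4
  exact hM ((Dvd.intro (p - 1) (by simp)).trans h4)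

theorem ETA_pf : ETA_st := by
  classical
  intro p K M _ _ _ _ _ _ ζ ω φ hp h2 hζ hω hne hM hK hφ
  have := Fact.mk hp
  have hmod : ∀ a b : ℕ, ζ ^ a = ζ ^ b ↔ (a : ZMod p) = (b : ZMod p) := by
    intro a b
    rw [ZMod.natCast_eq_natCast_iff, (hζ.isOfFinOrder hp.ne_zero).pow_eq_pow_iff_modEq,
      ← hζ.eq_orderOf]
  have hmul : ∀ a b : M ≃ₐ[K] M, (ω (a * b) : ZMod p) = (ω a : ZMod p) * (ω b : ZMod p) := by
    intro a b
    rw [← Nat.cast_mul, ← hmod, ← hω, AlgEquiv.mul_apply, hω b, map_pow, hω a, pow_mul]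
  have hone : ∀ g : M ≃ₐ[K] M, (ω g : ZMod p) = 1 ↔ g ζ = ζ := by
    intro g
    rw [← Nat.cast_one, ← hmod, ← hω, pow_one]
  let e : (𝓞 M)ˣ → (𝓞 M)ˣ := fun u => ∏ g : M ≃ₐ[K] M, act_ETA g⁻¹ u ^ ω g
  have hecoe : ∀ u, ((e u : 𝓞 M) : M) = ∏ g : M ≃ₐ[K] M, g⁻¹ ((u : 𝓞 M) : M) ^ ω g := by
    intro u
    simp only [e, Units.coe_prod, Units.val_pow_eq_pow_val, ← act_coe_ETA]
    simp only [map_prod, map_pow]
  have hEig : ∀ u, Eig p ω ((e u : 𝓞 M) : M) := by
    intro u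
    refine ⟨Units.coe_ne_zero _, fun h => ?_⟩
    have hm : ∀ k : M ≃ₐ[K] M, ∃ m : ℤ, (ω (k * h) : ℤ) = (ω k * ω h : ℕ) + m * p := by
      intro k
      have := hmul k h
      rw [← Nat.cast_mul, ZMod.natCast_eq_natCast_iff] at this
      obtain ⟨m, hm⟩ := this.symm.dvd
      exact ⟨m, by linarith⟩
    choose m hm using hm
    refine ⟨∏ k : M ≃ₐ[K] M, k⁻¹ ((u : 𝓞 M) : M) ^ m k, ?_⟩
    rw [hecoe, map_prod, ← Finset.prod_pow, ← Finset.prod_pow, ← Finset.prod_mul_distrib,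
      ← Equiv.prod_comp (Equiv.mulRight h)]
    refine Finset.prod_congr rfl fun k _ => ?_
    have h0 : k⁻¹ ((u : 𝓞 M) : M) ≠ 0 := (map_ne_zero _).2 (Units.coe_ne_zero u)
    rw [Equiv.coe_mulRight, map_pow, ← AlgEquiv.mul_apply, mul_inv_rev, mul_inv_cancel_left,
      ← pow_mul, ← zpow_natCast, hm, zpow_add₀ h0, zpow_natCast, zpow_mul, zpow_natCast]
  suffices H : ∃ u, ∀ z : (𝓞 M)ˣ,
      Lg_ETA M (Additive.ofMul (e u)) ≠ p • Lg_ETA M (Additive.ofMul z) by
    obtain ⟨u, hu⟩ := H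
    exact ⟨e u, hEig u, indep_ETA p M ζ hp hζ hM _ hu⟩
  by_contra H
  push Not at H
  let P : (InfinitePlace M → ℝ) →ₗ[ℝ] (InfinitePlace M → ℝ) :=
    ∑ g : M ≃ₐ[K] M, (ω g : ℝ) • LinearMap.funLeft ℝ ℝ (fun w => g • w)
  have hP : ∀ v w, P v w = ∑ g : M ≃ₐ[K] M, (ω g : ℝ) * v (g • w) := by
    intro v w
    simp [P, LinearMap.funLeft_apply]
  have hPL : ∀ u, P (Lg_ETA M (Additive.ofMul u)) = Lg_ETA M (Additive.ofMul (e u)) := by
    intro u
    ext w
    simp only [e, hP, ofMul_prod, map_sum, ofMul_pow, map_nsmul, Finset.sum_apply,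
      nsmul_eq_mul]
    rfl
  obtain ⟨b, hb0, hb⟩ := basis_ETA M
  have htr := trace_ETA b P
  have h1 : b.repr (P (b none)) none = ∑ g : M ≃ₐ[K] M, (ω g : ℝ) := by
    have : P (b none) = (∑ g : M ≃ₐ[K] M, (ω g : ℝ)) • b none := by
      ext w
      simp [hP, hb0]
    rw [this, map_smul]
    simp
  have h3 : ∀ i, ∃ m : ℤ, b.repr (P (b (some i))) (some i) = p * m := by
    intro i
    obtain ⟨z, hz⟩ := H (Units.fundSystem M i)
    obtain ⟨c, hc⟩ := Lg_span_ETA z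
    refine ⟨c i, ?_⟩
    rw [hb, hPL, hz, hc, map_nsmul]
    simp [← hb, Finsupp.single_apply]
  choose m hm using h3
  have h4 : ∀ w : InfinitePlace M, P (Pi.single w 1) w =
      ((∑ g ∈ univ.filter (fun g : M ≃ₐ[K] M => g • w = w), ω g : ℕ) : ℝ) := by
    intro w
    rw [hP, Nat.cast_sum, Finset.sum_filter]
    refine Finset.sum_congr rfl fun g _ => ?_
    by_cases hg : g • w = w <;> simp [hg]
  rw [Fintype.sum_option, h1] at htr
  simp only [h4, hm] at htr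
  have h5 : ((∑ w : InfinitePlace M, ∑ g ∈ univ.filter (fun g : M ≃ₐ[K] M => g • w = w),
      ω g : ℕ) : ℤ) = (∑ g : M ≃ₐ[K] M, ω g : ℕ) + p * ∑ i, m i := by
    rw [Finset.mul_sum]
    exact_mod_cast htr
  have h6 := congrArg (Int.cast : ℤ → ZMod p) h5
  obtain ⟨s, hs⟩ := hne
  have h7 := sum_ETA (fun g : M ≃ₐ[K] M => (ω g : ZMod p)) hmul univ s (by simp)
    (fun h => hs ((hone s).1 h))
  have h8 : ∀ w : InfinitePlace M, ∑ g ∈ univ.filter (fun g : M ≃ₐ[K] M => g • w = w),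
      (ω g : ZMod p) = if w.IsUnramified K then 1 else 0 := by
    intro w
    split_ifs with hw
    · rw [Finset.sum_eq_single_of_mem 1 (by simp), (hone 1).2 rfl]
      intro g hg hg1
      have : g ∈ MulAction.stabilizer (M ≃ₐ[K] M) w := (mem_filter.1 hg).2
      rw [hw.stabilizer_eq_bot] at this
      exact absurd this hg1
    · rw [← w.mk_embedding] at hw
      obtain ⟨t, ht⟩ := InfinitePlace.exists_isConj_of_isRamified hw
      have ht1 : t • w = w := by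
        have := (InfinitePlace.mem_stabilizer_mk_iff w.embedding t).2 (Or.inr ht)
        rwa [w.mk_embedding] at this
      refine sum_ETA (fun g : M ≃ₐ[K] M => (ω g : ZMod p)) hmul _ t (fun g => ?_) fun h => ?_
      · simp only [mem_filter, mem_univ, true_and, mul_smul]
        exact ⟨fun h => by rw [h, ht1], fun h => smul_left_cancel t (h.trans ht1.symm)⟩
      · have a1 := ht.eq ζ
        rw [(hone t).1 h] at a1
        have a2 : IsPrimitiveRoot (w.embedding ζ) p := hζ.map_of_injective w.embedding.injective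
        have a3 := a2.norm'_eq_one hp.ne_zero
        have a4 : w.embedding ζ ^ 2 = 1 := by
          have := Complex.mul_conj' (w.embedding ζ)
          rw [a3, starRingEnd_apply, ← a1] at this
          rw [sq, this]
          simp
        have := Nat.le_of_dvd two_pos (a2.dvd_of_pow_eq_one 2 a4)
        omega
  push_cast at h6
  simp only [h7, h8, ZMod.natCast_self, zero_mul, add_zero, Finset.sum_boole] at h6
  rw [ZMod.natCast_eq_zero_iff, InfinitePlace.card_isUnramified, hp.dvd_mul] at h6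
  rcases h6 with h6 | h6
  · have a1 : 0 < #{w : InfinitePlace K | w.IsUnramifiedIn M} := by
      refine Finset.card_pos.2 ⟨InfinitePlace.mk φ, mem_filter.2 ⟨mem_univ _, fun v hv => ?_⟩⟩
      refine InfinitePlace.isUnramified_iff.2 (Or.inr ?_)
      rw [hv]
      exact InfinitePlace.isComplex_iff.2 (fun h => hφ (InfinitePlace.isReal_mk_iff.1
        (InfinitePlace.isReal_iff.2 h)))
    have a2 : #{w : InfinitePlace K | w.IsUnramifiedIn M} ≤ finrank ℚ K := by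
      refine (Finset.card_filter_le _ _).trans ?_
      rw [← InfinitePlace.sum_mult_eq, Finset.card_eq_sum_ones]
      exact Finset.sum_le_sum fun w _ => InfinitePlace.mult_pos
    have := Nat.le_of_dvd a1 h6
    omega
  · exact hM (h6.trans (Dvd.intro_left _ (finrank_mul_finrank ℚ K M)))

end Pool.Agent.MP_3e91a1_nt.CC

end

section

set_option autoImplicit false

open NumberField Module Finset

namespace Pool.Agent.MP_3e91a1_nt.TR

open CC

lemma unit_ETK (p : ℕ) (M : Type) [Field M] [NumberField M] (ζ : M) (hp : p.Prime)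
    (hζ : IsPrimitiveRoot ζ p) (η : (𝓞 M)ˣ) (i : ℕ) (z : M)
    (h : ζ ^ i * ((η : 𝓞 M) : M) = z ^ p) :
    ∃ y : (𝓞 M)ˣ, Lg_ETA M (Additive.ofMul η) = p • Lg_ETA M (Additive.ofMul y) := by
  have hi : IsIntegral ℤ ζ := hζ.isIntegral hp.pos
  have hz : IsIntegral ℤ z := by
    refine IsIntegral.of_pow hp.pos ?_
    rw [← h]
    exact (hi.pow _).mul (η : 𝓞 M).isIntegral_coe
  obtain ⟨ζ', rfl⟩ : ∃ x : 𝓞 M, (x : M) = ζ := ⟨⟨ζ, hi⟩, rfl⟩
  obtain ⟨z', rfl⟩ : ∃ x : 𝓞 M, (x : M) = z := ⟨⟨z, hz⟩, rfl⟩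
  have hp1 : ζ' ^ p = 1 := RingOfIntegers.ext (by simpa using hζ.pow_eq_one)
  have hu1 : IsUnit ζ' := IsUnit.of_pow_eq_one hp1 hp.ne_zero
  have he : ζ' ^ i * (η : 𝓞 M) = z' ^ p := RingOfIntegers.ext (by simpa using h)
  have hu2 : IsUnit z' := by
    rw [← isUnit_pow_iff hp.ne_zero, ← he]
    exact (hu1.pow _).mul η.isUnit
  have he2 : hu1.unit ^ i * η = hu2.unit ^ p := Units.ext (by simpa using he)
  have ht : hu1.unit ∈ Units.torsion M := by
    rw [Units.torsion, CommGroup.mem_torsion, isOfFinOrder_iff_pow_eq_one]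
    exact ⟨p, hp.pos, Units.ext (by simpa using hp1)⟩
  have he3 := congrArg (fun x => Lg_ETA M (Additive.ofMul x)) he2
  simp only [ofMul_mul, ofMul_pow, map_add, map_nsmul, Lg_tors_ETA ht, smul_zero,
    zero_add] at he3
  exact ⟨_, he3⟩

lemma root_ETK (p : ℕ) (M : Type) [Field M] [NumberField M] (ζ : M) (hp : p.Prime)
    (hζ : IsPrimitiveRoot ζ p) (hM : ¬ p ∣ finrank ℚ M) (i : ℕ) (y : M) (h1 : y ^ p = ζ ^ i) :
    p ∣ i := by
  by_contra hi
  have h2 : IsPrimitiveRoot (ζ ^ i) p :=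
    hζ.pow_of_coprime i ((hp.coprime_iff_not_dvd).2 hi).symm
  have := Fact.mk hp
  have h3 : IsPrimitiveRoot y (p ^ 2) := by
    have : orderOf y = p ^ 2 := by
      refine orderOf_eq_prime_pow (n := 1) ?_ ?_
      · rw [pow_one, h1]
        exact h2.ne_one hp.one_lt
      · rw [pow_succ, pow_one, pow_mul, h1, h2.pow_eq_one]
    rw [← this]
    exact IsPrimitiveRoot.orderOf y
  have h4 := minpoly.degree_dvd (Algebra.IsIntegral.isIntegral (R := ℚ) y)
  rw [← Polynomial.cyclotomic_eq_minpoly_rat h3 (pow_pos hp.pos 2), Polynomial.natDegree_cyclotomic,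
    Nat.totient_prime_pow hp two_pos] at h4
  exact hM ((Dvd.intro (p - 1) (by simp)).trans h4)

lemma uniq_ETK (M : Type) [Field M] [NumberField M] (a c : Fin (Units.rank M) → ℤ)
    (h : ∑ i, (a i : ℝ) • Lg_ETA M (Additive.ofMul (Units.fundSystem M i)) =
      ∑ i, (c i : ℝ) • Lg_ETA M (Additive.ofMul (Units.fundSystem M i))) : a = c := by
  classical
  obtain ⟨b, -, hb⟩ := basis_ETA M
  funext k
  have h1 := congrArg (fun v => b.repr v (some k)) h
  simpa [← hb, Finsupp.single_apply] using h1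

lemma span_ETK {K M : Type} [Field K] [Field M] [NumberField M] [Algebra K M]
    [Fintype (M ≃ₐ[K] M)] (c : (M ≃ₐ[K] M) → ℤ) (u : (𝓞 M)ˣ) :
    ∃ e : Fin (Units.rank M) → ℤ, ∀ w : InfinitePlace M,
      ∑ g : M ≃ₐ[K] M, (c g : ℝ) * Lg_ETA M (Additive.ofMul u) (g • w) =
        (∑ i, (e i : ℝ) • Lg_ETA M (Additive.ofMul (Units.fundSystem M i))) w := by
  obtain ⟨e, he⟩ := Lg_span_ETA (∏ g : M ≃ₐ[K] M, act_ETA g⁻¹ u ^ c g)
  refine ⟨e, fun w => ?_⟩
  rw [← he]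
  simp only [ofMul_prod, map_sum, ofMul_zpow, map_zsmul, Finset.sum_apply, zsmul_eq_mul]
  rfl

theorem ETK_pf (hIDM : IDM_st) : ETK_st := by
  classical
  intro p K M _ _ _ _ _ _ ζ ω hp h2 hζ hω hne hM hK
  have := Fact.mk hp
  have hmod : ∀ a b : ℕ, ζ ^ a = ζ ^ b ↔ (a : ZMod p) = (b : ZMod p) := by
    intro a b
    rw [ZMod.natCast_eq_natCast_iff, (hζ.isOfFinOrder hp.ne_zero).pow_eq_pow_iff_modEq,
      ← hζ.eq_orderOf]
  have hmul : ∀ a b : M ≃ₐ[K] M, (ω (a * b) : ZMod p) = (ω a : ZMod p) * (ω b : ZMod p) := by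
    intro a b
    rw [← Nat.cast_mul, ← hmod, ← hω, AlgEquiv.mul_apply, hω b, map_pow, hω a, pow_mul]
  have hone : ∀ g : M ≃ₐ[K] M, (ω g : ZMod p) = 1 ↔ g ζ = ζ := by
    intro g
    rw [← Nat.cast_one, ← hmod, ← hω, pow_one]
  let e : (𝓞 M)ˣ → (𝓞 M)ˣ := fun u => ∏ g : M ≃ₐ[K] M, act_ETA g⁻¹ u ^ ω g
  have hecoe : ∀ u, ((e u : 𝓞 M) : M) = ∏ g : M ≃ₐ[K] M, g⁻¹ ((u : 𝓞 M) : M) ^ ω g := by
    intro u
    simp only [e, Units.coe_prod, Units.val_pow_eq_pow_val, ← act_coe_ETA]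
    simp only [map_prod, map_pow]
  have hEig : ∀ u, Eig p ω ((e u : 𝓞 M) : M) := by
    intro u
    refine ⟨Units.coe_ne_zero _, fun h => ?_⟩
    have hm : ∀ k : M ≃ₐ[K] M, ∃ m : ℤ, (ω (k * h) : ℤ) = (ω k * ω h : ℕ) + m * p := by
      intro k
      have := hmul k h
      rw [← Nat.cast_mul, ZMod.natCast_eq_natCast_iff] at this
      obtain ⟨m, hm⟩ := this.symm.dvd
      exact ⟨m, by linarith⟩
    choose m hm using hm
    refine ⟨∏ k : M ≃ₐ[K] M, k⁻¹ ((u : 𝓞 M) : M) ^ m k, ?_⟩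
    rw [hecoe, map_prod, ← Finset.prod_pow, ← Finset.prod_pow, ← Finset.prod_mul_distrib,
      ← Equiv.prod_comp (Equiv.mulRight h)]
    refine Finset.prod_congr rfl fun k _ => ?_
    have h0 : k⁻¹ ((u : 𝓞 M) : M) ≠ 0 := (map_ne_zero _).2 (Units.coe_ne_zero u)
    rw [Equiv.coe_mulRight, map_pow, ← AlgEquiv.mul_apply, mul_inv_rev, mul_inv_cancel_left,
      ← pow_mul, ← zpow_natCast, hm, zpow_add₀ h0, zpow_natCast, zpow_mul, zpow_natCast]
  let P : (InfinitePlace M → ℝ) →ₗ[ℝ] (InfinitePlace M → ℝ) :=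
    ∑ g : M ≃ₐ[K] M, (ω g : ℝ) • LinearMap.funLeft ℝ ℝ (fun w => g • w)
  have hP : ∀ v w, P v w = ∑ g : M ≃ₐ[K] M, (ω g : ℝ) * v (g • w) := by
    intro v w
    simp [P, LinearMap.funLeft_apply]
  have hPL : ∀ u, P (Lg_ETA M (Additive.ofMul u)) = Lg_ETA M (Additive.ofMul (e u)) := by
    intro u
    ext w
    simp only [e, hP, ofMul_prod, map_sum, ofMul_pow, map_nsmul, Finset.sum_apply,
      nsmul_eq_mul]
    rfl
  choose A hA using fun i => Lg_span_ETA (e (Units.fundSystem M i))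
  set L : Fin (Units.rank M) → InfinitePlace M → ℝ :=
    fun i => Lg_ETA M (Additive.ofMul (Units.fundSystem M i)) with hL
  have hPA : ∀ i, P (L i) = ∑ j, (A i j : ℝ) • L j := fun i => by rw [hL, hPL, hA]
  set d : ℕ := finrank K M with hd
  have hcard : Fintype.card (M ≃ₐ[K] M) = d := by
    rw [← Nat.card_eq_fintype_card, IsGalois.card_aut_eq_finrank]
  have hd0 : (d : ZMod p) ≠ 0 := by
    rw [Ne, ZMod.natCast_eq_zero_iff]
    exact fun h => hM (h.trans (Dvd.intro_left _ (finrank_mul_finrank ℚ K M)))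
  have hn : ∀ k : M ≃ₐ[K] M, ∃ m : ℤ,
      ∑ g : M ≃ₐ[K] M, (ω g : ℤ) * ω (k * g⁻¹) = d * ω k + p * m := by
    intro k
    have h1 : ((∑ g : M ≃ₐ[K] M, (ω g : ℤ) * ω (k * g⁻¹) - d * ω k : ℤ) : ZMod p) = 0 := by
      push_cast
      have : ∀ g : M ≃ₐ[K] M, (ω g : ZMod p) * ω (k * g⁻¹) = ω k := fun g => by
        rw [mul_comm, ← hmul, inv_mul_cancel_right]
      simp [this, hcard]
    obtain ⟨m, hm⟩ := (ZMod.intCast_zmod_eq_zero_iff_dvd _ _).1 h1
    exact ⟨m, by linarith⟩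
  choose m hm using hn
  have hPP : ∀ v w, P (P v) w = d * P v w + p * ∑ k : M ≃ₐ[K] M, (m k : ℝ) * v (k • w) := by
    intro v w
    have h1 : P (P v) w = ∑ g : M ≃ₐ[K] M, ∑ k : M ≃ₐ[K] M,
        (ω g : ℝ) * ω (k * g⁻¹) * v (k • w) := by
      rw [hP]
      refine Finset.sum_congr rfl fun g _ => ?_
      rw [hP, Finset.mul_sum, ← Equiv.sum_comp (Equiv.mulRight g⁻¹)]
      refine Finset.sum_congr rfl fun k _ => ?_
      rw [Equiv.coe_mulRight, ← mul_smul, inv_mul_cancel_right, mul_assoc]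
    rw [h1, Finset.sum_comm, hP, Finset.mul_sum, Finset.mul_sum, ← Finset.sum_add_distrib]
    refine Finset.sum_congr rfl fun k _ => ?_
    have h3 := congrArg (Int.cast : ℤ → ℝ) (hm k)
    push_cast at h3
    rw [← Finset.sum_mul, h3]
    ring
  let B : Matrix (Fin (Units.rank M)) (Fin (Units.rank M)) (ZMod p) := fun i j => (A i j : ZMod p)
  have hBB : B * B = (d : ZMod p) • B := by
    ext i k
    obtain ⟨c, hc⟩ := span_ETK m (Units.fundSystem M i)
    have h1 := uniq_ETK M (fun k => ∑ j, A i j * A j k) (fun k => d * A i k + p * c k) (by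
      change ∑ k, _ • L k = ∑ k, _ • L k
      have h3 : P (P (L i)) = ∑ k, ((∑ j, A i j * A j k : ℤ) : ℝ) • L k := by
        rw [hPA, map_sum]
        simp only [map_smul, hPA, Finset.smul_sum, smul_smul]
        rw [Finset.sum_comm]
        refine Finset.sum_congr rfl fun k _ => ?_
        rw [← Finset.sum_smul]; push_cast; rfl
      rw [← h3]
      ext w
      rw [hPP, hPA, hc]
      simp only [Finset.sum_apply, Pi.smul_apply, smul_eq_mul, Finset.mul_sum,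
        ← Finset.sum_add_distrib]
      refine Finset.sum_congr rfl fun k _ => ?_
      push_cast; ring)
    have h4 := congrArg (Int.cast : ℤ → ZMod p) (congrFun h1 k)
    simpa [B, Matrix.mul_apply] using h4
  obtain ⟨b, hb0, hb⟩ := basis_ETA M
  have htr := trace_ETA b P
  have h1 : b.repr (P (b none)) none = ∑ g : M ≃ₐ[K] M, (ω g : ℝ) := by
    have : P (b none) = (∑ g : M ≃ₐ[K] M, (ω g : ℝ)) • b none := by
      ext w
      simp [hP, hb0]
    rw [this, map_smul]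
    simp
  have h3 : ∀ i, b.repr (P (b (some i))) (some i) = A i i := by
    intro i
    rw [hb, hPL, hA]
    simp [hL, ← hb, Finsupp.single_apply]
  have h4 : ∀ w : InfinitePlace M, P (Pi.single w 1) w =
      ((∑ g ∈ univ.filter (fun g : M ≃ₐ[K] M => g • w = w), ω g : ℕ) : ℝ) := by
    intro w
    rw [hP, Nat.cast_sum, Finset.sum_filter]
    refine Finset.sum_congr rfl fun g _ => ?_
    by_cases hg : g • w = w <;> simp [hg]
  rw [Fintype.sum_option, h1] at htr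
  simp only [h4, h3] at htr
  have h5 : ((∑ w : InfinitePlace M, ∑ g ∈ univ.filter (fun g : M ≃ₐ[K] M => g • w = w),
      ω g : ℕ) : ℤ) = (∑ g : M ≃ₐ[K] M, ω g : ℕ) + ∑ i, A i i := by
    exact_mod_cast htr
  have h6 := congrArg (Int.cast : ℤ → ZMod p) h5
  obtain ⟨s, hs⟩ := hne
  have h7 := sum_ETA (fun g : M ≃ₐ[K] M => (ω g : ZMod p)) hmul univ s (by simp)
    (fun h => hs ((hone s).1 h))
  have h8 : ∀ w : InfinitePlace M, ∑ g ∈ univ.filter (fun g : M ≃ₐ[K] M => g • w = w),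
      (ω g : ZMod p) = if w.IsUnramified K then 1 else 0 := by
    intro w
    split_ifs with hw
    · rw [Finset.sum_eq_single_of_mem 1 (by simp), (hone 1).2 rfl]
      intro g hg hg1
      have : g ∈ MulAction.stabilizer (M ≃ₐ[K] M) w := (mem_filter.1 hg).2
      rw [hw.stabilizer_eq_bot] at this
      exact absurd this hg1
    · rw [← w.mk_embedding] at hw
      obtain ⟨t, ht⟩ := InfinitePlace.exists_isConj_of_isRamified hw
      have ht1 : t • w = w := by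
        have := (InfinitePlace.mem_stabilizer_mk_iff w.embedding t).2 (Or.inr ht)
        rwa [w.mk_embedding] at this
      refine sum_ETA (fun g : M ≃ₐ[K] M => (ω g : ZMod p)) hmul _ t (fun g => ?_) fun h => ?_
      · simp only [mem_filter, mem_univ, true_and, mul_smul]
        exact ⟨fun h => by rw [h, ht1], fun h => smul_left_cancel t (h.trans ht1.symm)⟩
      · have a1 := ht.eq ζ
        rw [(hone t).1 h] at a1
        have a2 : IsPrimitiveRoot (w.embedding ζ) p := hζ.map_of_injective w.embedding.injective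
        have a3 := a2.norm'_eq_one hp.ne_zero
        have a4 : w.embedding ζ ^ 2 = 1 := by
          have := Complex.mul_conj' (w.embedding ζ)
          rw [a3, starRingEnd_apply, ← a1] at this
          rw [sq, this]
          simp
        have := Nat.le_of_dvd two_pos (a2.dvd_of_pow_eq_one 2 a4)
        omega
  push_cast at h6
  simp only [h7, h8, zero_add, Finset.sum_boole] at h6
  rw [InfinitePlace.card_isUnramified] at h6
  have a1 : InfinitePlace.nrComplexPlaces K ≤ #{w : InfinitePlace K | w.IsUnramifiedIn M} := by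
    rw [InfinitePlace.nrComplexPlaces, Fintype.card_subtype]
    refine Finset.card_le_card fun w hw => mem_filter.2 ⟨mem_univ _, fun v hv => ?_⟩
    refine InfinitePlace.isUnramified_iff.2 (Or.inr ?_)
    rw [hv]
    exact (mem_filter.1 hw).2
  have a2 : #{w : InfinitePlace K | w.IsUnramifiedIn M} ≤ finrank ℚ K := by
    refine (Finset.card_filter_le _ _).trans ?_
    rw [← InfinitePlace.sum_mult_eq, Finset.card_eq_sum_ones]
    exact Finset.sum_le_sum fun w _ => InfinitePlace.mult_pos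
  obtain ⟨f, hf⟩ := hIDM p _ _ B d hd0 hBB (a2.trans_lt hK) (by
    rw [← Nat.cast_mul, h6]; rfl)
  have hf2 := Fintype.linearIndependent_iff.1 (hf.comp _ (Fin.castLE_injective a1))
  refine ⟨fun j => e (Units.fundSystem M (f (Fin.castLE a1 j))), fun j => hEig _, ?_⟩
  intro i x z hz
  have hx : ∀ j, p ∣ x j := by
    obtain ⟨y, hy⟩ := unit_ETK p M ζ hp hζ
      (∏ j, e (Units.fundSystem M (f (Fin.castLE a1 j))) ^ x j) i z (by
        rw [← hz]; simp only [Units.coe_prod, Units.val_pow_eq_pow_val, map_prod, map_pow])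
    obtain ⟨c, hc⟩ := Lg_span_ETA y
    have h9 := uniq_ETK M (fun k => ∑ j, x j * A (f (Fin.castLE a1 j)) k) (fun k => p * c k) (by
      rw [hc, ofMul_prod, map_sum] at hy
      simp only [ofMul_pow, map_nsmul, hA, Finset.smul_sum] at hy
      rw [Finset.sum_comm] at hy
      refine Eq.trans (Finset.sum_congr rfl fun k _ => ?_)
        (hy.trans (Finset.sum_congr rfl fun k _ => ?_))
      · push_cast
        rw [Finset.sum_smul]
        refine Finset.sum_congr rfl fun j _ => ?_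
        rw [mul_smul, Nat.cast_smul_eq_nsmul]
      · push_cast
        rw [mul_smul, Nat.cast_smul_eq_nsmul])
    intro j
    rw [← ZMod.natCast_eq_zero_iff]
    refine hf2 (fun j => (x j : ZMod p)) (funext fun k => ?_) j
    have h10 := congrArg (Int.cast : ℤ → ZMod p) (congrFun h9 k)
    simpa [B] using h10
  refine ⟨?_, hx⟩
  choose t ht using hx
  have h0 : ∏ j, ((e (Units.fundSystem M (f (Fin.castLE a1 j))) : 𝓞 M) : M) ^ t j ≠ 0 :=
    Finset.prod_ne_zero_iff.2 fun j _ => pow_ne_zero _ (Units.coe_ne_zero _)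
  refine root_ETK p M ζ hp hζ hM i
    (z / ∏ j, ((e (Units.fundSystem M (f (Fin.castLE a1 j))) : 𝓞 M) : M) ^ t j) ?_
  rw [div_pow, ← hz, div_eq_iff (pow_ne_zero _ h0), ← Finset.prod_pow]
  congr 1
  exact Finset.prod_congr rfl fun j _ => by rw [ht j, ← pow_mul, mul_comm]

end Pool.Agent.MP_3e91a1_nt.TR

end

section

/-! The Frobenius modulo `p ^ 2`. -/

set_option autoImplicit false

open NumberField

namespace Pool.Agent.MP_3e91a1_nt.TR

theorem step_FRO {S : Type} [CommRing S] {P : Ideal S} (hP : P.IsPrime) {p E : ℕ}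
    (hp : p.Prime) (hE : ¬ p ∣ E) (h0 : (p : S) ∈ P) {A B t : S} (hAB : B - A ∈ P)
    (hA : A ^ E - 1 ∈ P) (ht : t ∉ P) (hB : (p : S) ^ 2 ∣ t * (A ^ E - B ^ E)) :
    ∃ s, s ∉ P ∧ (p : S) ^ 2 ∣ s * (A - B) := by
  refine ⟨t * ∑ i ∈ Finset.range E, A ^ i * B ^ (E - 1 - i),
    fun h => (hP.mem_or_mem h).elim ht fun h => ?_, ?_⟩
  · have h1 : Ideal.Quotient.mk P B = Ideal.Quotient.mk P A := Ideal.Quotient.eq.2 hAB
    have h2 := Ideal.Quotient.eq_zero_iff_mem.2 h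
    simp only [map_sum, map_mul, map_pow, h1, geom_sum₂_self] at h2
    have h3 : Ideal.Quotient.mk P A ^ E = 1 := by simpa using Ideal.Quotient.eq.2 hA
    have hE0 : E ≠ 0 := fun e => hE (e ▸ dvd_zero p)
    have h5 : ((E : ℕ) : S ⧸ P) = 0 := by
      have h6 := congrArg (· * Ideal.Quotient.mk P A) h2
      simp only [mul_assoc, pow_sub_one_mul hE0, h3, mul_one, zero_mul] at h6
      exact h6
    have h7 : ((p : ℕ) : S ⧸ P) = 0 := by simpa using Ideal.Quotient.eq_zero_iff_mem.2 h0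
    obtain ⟨u, v, h8⟩ := (Nat.isCoprime_iff_coprime.2 ((Nat.Prime.coprime_iff_not_dvd hp).2 hE)).map
      (Int.castRingHom (S ⧸ P))
    simp only [map_natCast, h5, h7, mul_zero, add_zero] at h8
    exact zero_ne_one h8
  · rwa [mul_assoc, geom_sum₂_mul]

theorem rad_FRO {S : Type} [CommRing S] [IsDedekindDomain S] {P : Ideal S} (hP : P ≠ ⊤) {a : S}
    (ha : a ≠ 0) (h0 : a ∈ P) (hr : (Ideal.span {a}).IsRadical) :
    ∃ t, t ∉ P ∧ ∀ x ∈ P, a ∣ t * x := by
  obtain ⟨J, hJ⟩ : P ∣ Ideal.span {a} :=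
    Ideal.dvd_iff_le.2 ((Ideal.span_singleton_le_iff_mem _).2 h0)
  have h1 : ¬ J ≤ P := fun h => by
    have h2 : J ≤ P * J := fun s hs => by
      rw [← hJ]
      refine hr ⟨2, ?_⟩
      rw [hJ, sq]
      exact Ideal.mul_mem_mul (h hs) hs
    have h3 : J ≠ 0 := fun e => by
      rw [e, mul_zero, Submodule.zero_eq_bot, Ideal.span_singleton_eq_bot] at hJ
      exact ha hJ
    have h4 : P * J ∣ 1 * J := by
      rw [one_mul]
      exact Ideal.dvd_iff_le.2 h2
    exact hP (Ideal.isUnit_iff.1 (isUnit_of_dvd_one ((mul_dvd_mul_iff_right h3).1 h4)))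
  obtain ⟨t, t1, t2⟩ := SetLike.not_le_iff_exists.1 h1
  refine ⟨t, t2, fun x hx => ?_⟩
  rw [← Ideal.mem_span_singleton, hJ, mul_comm t]
  exact Ideal.mul_mem_mul hx t1

theorem pow_FRO {S : Type} [CommRing S] {p E : ℕ} {E' k y l : S} (hk : E * E' - 1 = p * k)
    (hy : y ^ E = 1 + p * l) :
    (p : S) ^ 2 ∣ (y ^ p * (1 + p * (E' * l ^ p))) ^ E - (1 + p * l ^ p) := by
  obtain ⟨c, hc⟩ := sq_dvd_add_pow_sub_sub ((p : S) * l) 1 p
  obtain ⟨d, hd⟩ := sq_dvd_add_pow_sub_sub ((p : S) * (E' * l ^ p)) 1 E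
  simp only [one_pow, one_mul] at hc hd
  rw [mul_pow, ← pow_mul, mul_comm p E, pow_mul, hy]
  refine ⟨(l + l ^ 2 * c) * (1 + p * (E' * l ^ p)) ^ E + (k * l ^ p + (E' * l ^ p) ^ 2 * d), ?_⟩
  linear_combination (1 + (p : S) * (E' * l ^ p)) ^ E * hc + hd + (p : S) * l ^ p * hk

theorem FRO_pf : FRO_st := by
  intro p E E' n M _ _ _ y l y' l' hp hr hE h1 h2 hn
  by_contra h3
  obtain ⟨w, hw⟩ : ∃ w, w = y ^ p * (1 + p * (E' * l ^ p)) - y' ^ p * (1 + p * (E' * l' ^ p)) - n :=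
    ⟨_, rfl⟩
  rw [← hw] at h3
  let I : Ideal (𝓞 M) := (Ideal.span {(p : 𝓞 M) ^ 2}).colon {w}
  have hI : ∀ s, s ∈ I ↔ (p : 𝓞 M) ^ 2 ∣ s * w := fun s => by
    simp [I, Ideal.mem_span_singleton]
  obtain ⟨P, hP, h4⟩ := I.exists_le_maximal fun e => h3 (by
    simpa using (hI 1).1 (e ▸ Submodule.mem_top))
  have hP' := hP.isPrime
  have h0 : (p : 𝓞 M) ∈ P := hP'.mem_of_pow_mem 2 (h4 ((hI _).2 (dvd_mul_right _ _)))
  have hp0 : (p : 𝓞 M) ≠ 0 := Nat.cast_ne_zero.2 hp.ne_zero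
  have hne : P ≠ ⊥ := fun e => by
    rw [e, Ideal.mem_bot] at h0
    exact hp0 h0
  have : Finite (𝓞 M ⧸ P) := P.finiteQuotientOfFreeOfNeBot hne
  obtain ⟨σ, hσ⟩ := IsArithFrobAt.exists_of_isInvariant ℤ (M ≃ₐ[ℚ] M) P
  have hu : Ideal.span {(p : ℤ)} = P.under ℤ := by
    have := Fact.mk hp
    refine (Int.ideal_span_isMaximal_of_prime p).eq_of_le (Ideal.IsPrime.under ℤ P).ne_top ?_
    rw [Ideal.span_singleton_le_iff_mem, Ideal.mem_comap]
    simpa using h0
  have hc : Nat.card (ℤ ⧸ P.under ℤ) = p := by rw [← hu, Int.card_ideal_quot]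
  have hE1 : ¬ p ∣ E := fun h => by
    have h5 : (p : ℤ) ∣ E * E' := (Int.natCast_dvd_natCast.2 h).mul_right _
    have h6 : (p : ℤ) ∣ 1 := by simpa using dvd_sub h5 hE
    exact hp.one_lt.ne' (Nat.dvd_one.1 (by exact_mod_cast h6))
  obtain ⟨k, hk⟩ := hE
  have hk' : (E : 𝓞 M) * (E' : 𝓞 M) - 1 = p * (k : 𝓞 M) := by exact_mod_cast congrArg Int.cast hk
  obtain ⟨t, ht, ht'⟩ := rad_FRO hP'.ne_top hp0 h0 hr
  obtain ⟨f, hf⟩ : ∃ f, f = MulSemiringAction.toAlgHom ℤ (𝓞 M) σ := ⟨_, rfl⟩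
  have hf' : ∀ x, f x - x ^ p ∈ P := fun x => by
    rw [hf]
    exact hc ▸ hσ x
  have key : ∀ x m : 𝓞 M, x ^ E = 1 + p * m → ∃ s, s ∉ P ∧ (p : 𝓞 M) ^ 2 ∣
      s * (x ^ p * (1 + p * (E' * m ^ p)) - f x) := fun x m hx => by
    obtain ⟨c, hc⟩ := pow_FRO hk' hx
    have h5 : f x ^ E = 1 + p * f m := by
      simpa only [map_pow, map_natCast, map_add, map_mul, map_one] using congrArg f hx
    obtain ⟨d, hd⟩ := ht' _ (hf' m)
    refine step_FRO hP' hp hE1 h0 ?_ ?_ ht ⟨t * c - d, ?_⟩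
    · have := P.sub_mem (hf' x) (P.mul_mem_right (x ^ p * (E' * m ^ p)) h0)
      convert this using 1
      ring
    · have := P.mul_mem_right (m ^ p + p * c) h0
      convert this using 1
      linear_combination hc
    · rw [h5]
      linear_combination t * hc - (p : 𝓞 M) * hd
  obtain ⟨s, hs, h5⟩ := key y l h1
  obtain ⟨s', hs', h6⟩ := key y' l' h2
  refine (hP'.mem_or_mem (h4 ((hI (s * s')).2 ?_))).elim hs hs'
  have h7 : f y - f y' = n := by rw [← map_sub, hn, map_intCast]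
  refine (dvd_sub (h5.mul_left s') (h6.mul_left s)).trans (dvd_of_eq ?_)
  rw [hw, ← h7]
  ring

end Pool.Agent.MP_3e91a1_nt.TR

end

section

set_option autoImplicit false

open NumberField Module Finset

namespace Pool.Agent.MP_3e91a1_nt.TR

theorem rank_IDM {F ι : Type} [Field F] [Fintype ι] [DecidableEq ι] (A : Matrix ι ι F) (d : F)
    (hd : d ≠ 0) (hA : A * A = d • A) : A.trace = (A.rank : F) * d := by
  let f : (ι → F) →ₗ[F] (ι → F) := Matrix.toLin' (d⁻¹ • A)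
  have hf : IsIdempotentElem f := by
    show f ∘ₗ f = f
    rw [← Matrix.toLin'_mul, Matrix.smul_mul, Matrix.mul_smul, hA, smul_smul, smul_smul,
      mul_assoc, inv_mul_cancel₀ hd, mul_one]
  have h1 := (LinearMap.IsIdempotentElem.isProj_range f hf).trace
  rw [Matrix.trace_toLin'_eq, Matrix.trace_smul, smul_eq_mul] at h1
  have h2 : finrank F (LinearMap.range f) = A.rank := by
    have h3 : LinearMap.range f = LinearMap.range A.mulVecLin := by
      have h4 : f = d⁻¹ • A.mulVecLin := by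
        rw [← Matrix.toLin'_apply', ← map_smul]
      rw [h4, LinearMap.range_smul _ _ (inv_ne_zero hd)]
    rw [h3]
    rfl
  rw [h2] at h1
  rw [← h1]
  field_simp

theorem IDM_pf : IDM_st := by
  intro p r _ ι _ _ A d hd hA hr htr
  rw [rank_IDM A d hd hA] at htr
  have h1 : (A.rank : ZMod p) = r := mul_right_cancel₀ hd htr
  have h2 : r ≤ A.rank := by
    have h3 := (ZMod.natCast_eq_natCast_iff' _ _ _).1 h1
    rw [Nat.mod_eq_of_lt hr] at h3
    rw [← h3]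
    exact Nat.mod_le _ _
  obtain ⟨μ, e, he, hsp, hli⟩ := exists_linearIndependent' (ZMod p) A.row
  have : Finite μ := Finite.of_injective e he
  have := Fintype.ofFinite μ
  rw [Matrix.rank_eq_finrank_span_row, ← hsp, finrank_span_eq_card hli] at h2
  obtain ⟨g⟩ : Nonempty (Fin r ↪ μ) :=
    Function.Embedding.nonempty_of_card_le (by rwa [Fintype.card_fin])
  exact ⟨fun j => e (g j), hli.comp _ g.injective⟩

end Pool.Agent.MP_3e91a1_nt.TR

end

section

/-! The reflection step. -/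

set_option autoImplicit false

open NumberField Module Finset

namespace Pool.Agent.MP_3e91a1_nt.CC

open MP_f3cd89_nt

theorem exists_pow_RFL {E : Type} [Field E] [NumberField E] (v : Pr E) :
    ∃ y : E, y ≠ 0 ∧ ord v y ≠ 0 ∧ ∀ w, w ≠ v → ord w y = 0 := by
  obtain ⟨cl, hcl⟩ := cls_fin (E := E)
  obtain ⟨a, b, hab, e⟩ := Finite.exists_ne_map_eq_of_infinite fun n : ℤ => cl (Finsupp.single v n)
  obtain ⟨y, y0, hy⟩ := hcl _ _ e
  refine ⟨y, y0, ?_, fun w hw => ?_⟩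
  · rw [← hy]
    simpa using sub_ne_zero.2 hab
  · rw [← hy]
    simp [Finsupp.single_eq_of_ne hw]

theorem ord_prod_RFL {E ι : Type} [Field E] [NumberField E] (v : Pr E) (s : Finset ι) (f : ι → E)
    (hf : ∀ i, f i ≠ 0) : ord v (∏ i ∈ s, f i) = ∑ i ∈ s, ord v (f i) := by
  classical
  induction s using Finset.induction_on with
  | empty => simp [ord_one]
  | insert a s ha ih =>
    rw [Finset.prod_insert ha, Finset.sum_insert ha,
      ord_mul v (hf a) (Finset.prod_ne_zero_iff.2 fun i _ => hf i), ih]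

section Aux

variable {K M : Type} [Field K] [Field M] [NumberField M] [Algebra K M] [Fintype (M ≃ₐ[K] M)]

/-- the weighted sum of the valuations along an orbit -/
noncomputable def lam_RFL (c : (M ≃ₐ[K] M) → ℕ) (v : Pr M) (x : M) : ℤ :=
  ∑ g : M ≃ₐ[K] M, (c g : ℤ) * ord (gact g v) x

/-- the projector -/
noncomputable def prj_RFL (c : (M ≃ₐ[K] M) → ℕ) (x : M) : M := ∏ g : M ≃ₐ[K] M, (g x) ^ c g⁻¹

omit [NumberField M] in
theorem prj_ne_RFL (c : (M ≃ₐ[K] M) → ℕ) {x : M} (hx : x ≠ 0) : prj_RFL c x ≠ 0 :=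
  Finset.prod_ne_zero_iff.2 fun g _ => pow_ne_zero _ (by simpa using hx)

theorem ord_prj_RFL (c : (M ≃ₐ[K] M) → ℕ) {x : M} (hx : x ≠ 0) (v : Pr M) :
    ord v (prj_RFL c x) = lam_RFL c v x := by
  rw [prj_RFL, ord_prod_RFL v _ _ fun g => pow_ne_zero _ (by simpa using hx), lam_RFL,
    ← Equiv.sum_comp (Equiv.inv (M ≃ₐ[K] M))]
  refine Finset.sum_congr rfl fun g _ => ?_
  rw [ord_pow, Equiv.inv_apply, inv_inv]
  have h := ord_gact g⁻¹ (gact g v) x
  rw [← gact_mul, inv_mul_cancel, gact_one] at h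
  rw [← h]
  rfl

theorem lam_gact_RFL (c : (M ≃ₐ[K] M) → ℕ) (q : ℤ)
    (hc : ∀ g h, q ∣ (c (g * h) : ℤ) - c g * c h) (j : M ≃ₐ[K] M) (w : Pr M) (x : M) :
    q ∣ lam_RFL c w x - c j * lam_RFL c (gact j w) x := by
  rw [lam_RFL, lam_RFL, ← Equiv.sum_comp (Equiv.mulRight j), Finset.mul_sum,
    ← Finset.sum_sub_distrib]
  refine Finset.dvd_sum fun g _ => ?_
  rw [Equiv.coe_mulRight, gact_mul]
  have := (hc g j).mul_right (ord (gact g (gact j w)) x)
  rwa [sub_mul, mul_comm (c g : ℤ), mul_assoc] at this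

theorem lam_prj_RFL (c : (M ≃ₐ[K] M) → ℕ) (q : ℤ)
    (hc : ∀ g h, q ∣ (c (g * h) : ℤ) - c g * c h) (w : Pr M) {x : M} (hx : x ≠ 0) :
    q ∣ Fintype.card (M ≃ₐ[K] M) * lam_RFL c w x - lam_RFL c w (prj_RFL c x) := by
  have e : (Fintype.card (M ≃ₐ[K] M) : ℤ) * lam_RFL c w x = ∑ _j : M ≃ₐ[K] M, lam_RFL c w x := by
    simp
  rw [e, lam_RFL.eq_1 c w (prj_RFL c x), ← Finset.sum_sub_distrib]
  refine Finset.dvd_sum fun j _ => ?_
  rw [ord_prj_RFL c hx]
  exact lam_gact_RFL c q hc j w x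

omit [NumberField M] in
theorem eig_prj_RFL (p : ℕ) (ω c : (M ≃ₐ[K] M) → ℕ)
    (hc : ∀ g h, (p : ℤ) ∣ (c (g * h) : ℤ) - c g * ω h) {x : M} (hx : x ≠ 0) :
    Eig p ω (prj_RFL c x) := by
  refine ⟨prj_ne_RFL c hx, fun h => ?_⟩
  choose d hd using fun g : M ≃ₐ[K] M => hc g⁻¹ h
  refine ⟨∏ g : M ≃ₐ[K] M, (g x) ^ d g, ?_⟩
  rw [prj_RFL, map_prod, ← Finset.prod_pow, ← Finset.prod_pow, ← Finset.prod_mul_distrib,
    ← Equiv.prod_comp (Equiv.mulLeft h⁻¹)]
  refine Finset.prod_congr rfl fun g _ => ?_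
  have g0 : g x ≠ 0 := by simpa using hx
  rw [Equiv.coe_mulLeft, map_pow, ← AlgEquiv.mul_apply, mul_inv_cancel_left, mul_inv_rev, inv_inv,
    ← pow_mul, ← zpow_natCast, ← zpow_natCast, ← zpow_natCast, ← zpow_mul, ← zpow_add₀ g0]
  congr 1
  push_cast
  linear_combination hd g

theorem orbit_RFL (w : Pr M) (O : Finset (Pr M)) (hO : ∀ v, v ∈ O ↔ ∃ g : M ≃ₐ[K] M, gact g w = v) :
    O.card ∣ Fintype.card (M ≃ₐ[K] M) := by
  let : MulAction (M ≃ₐ[K] M) (Pr M) :=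
    { smul := gact, one_smul := gact_one, mul_smul := gact_mul }
  have e : MulAction.orbit (M ≃ₐ[K] M) w = (O : Set (Pr M)) := by
    ext v
    exact (hO v).symm
  have h := MulAction.index_stabilizer (M ≃ₐ[K] M) w
  rw [e, Set.ncard_coe_finset] at h
  rw [← h, ← Nat.card_eq_fintype_card]
  exact Subgroup.index_dvd_card _

end Aux

theorem RFL_pf : RFL_st := by
  intro p K M _ _ _ _ _ ζ ω η F hp hζ hω hG hη hind hdep hF hFg w
  classical
  by_contra hw
  have : Fact p.Prime := ⟨hp⟩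
  have : Finite (M ≃ₐ[K] M) := Nat.finite_of_card_ne_zero fun h => hG (h ▸ dvd_zero p)
  let : Fintype (M ≃ₐ[K] M) := Fintype.ofFinite _
  rw [Nat.card_eq_fintype_card] at hG
  have hpz : Prime (p : ℤ) := Nat.prime_iff_prime_int.1 hp
  have z0 : ζ ≠ 0 := hζ.ne_zero hp.ne_zero
  have hmod : ∀ a b : ℕ, ζ ^ a = ζ ^ b → (p : ℤ) ∣ (a : ℤ) - b := fun a b h => by
    have h1 := (hζ.isOfFinOrder hp.ne_zero).pow_eq_pow_iff_modEq.1 h
    rw [← hζ.eq_orderOf] at h1
    exact h1.symm.dvd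
  have hmul : ∀ g h, (p : ℤ) ∣ (ω (g * h) : ℤ) - ω g * ω h := fun g h => by
    have := hmod (ω (g * h)) (ω g * ω h) (by
      rw [← hω, AlgEquiv.mul_apply, hω h, map_pow, hω g, pow_mul])
    exact_mod_cast this
  have hst : ∀ g : M ≃ₐ[K] M, gact g w = w → (p : ℤ) ∣ (ω g : ℤ) - 1 := fun g hg => by
    have h1 := hFg g w
    rw [hg] at h1
    have h2 : ((ω g : ZMod p) - 1) * F w = 0 := by linear_combination -h1
    have h3 := (mul_eq_zero.1 h2).resolve_right hw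
    rw [← ZMod.intCast_zmod_eq_zero_iff_dvd]
    push_cast
    exact h3
  obtain ⟨π, π0, πw, πv⟩ := exists_pow_RFL w
  set N : ℕ := (ord w π).natAbs * Fintype.card (M ≃ₐ[K] M) with hN
  let c : (M ≃ₐ[K] M) → ℕ := fun g => ω g ^ p ^ N
  have hc : ∀ g h, (p : ℤ) ^ (N + 1) ∣ (c (g * h) : ℤ) - c g * c h := fun g h => by
    have := dvd_sub_pow_of_dvd_sub (hmul g h) N
    simp only [c]
    push_cast
    rwa [mul_pow] at this
  have hcω : ∀ g, ((c g : ℕ) : ZMod p) = ω g := fun g => by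
    simp only [c]
    push_cast
    exact ZMod.pow_card_pow _
  have hpq : (p : ℤ) ∣ (p : ℤ) ^ (N + 1) := dvd_pow_self _ (Nat.succ_ne_zero N)
  have hc1 : ∀ g h, (p : ℤ) ∣ (c (g * h) : ℤ) - c g * ω h := fun g h => by
    have h1 := hpq.trans (hc g h)
    rw [← ZMod.intCast_zmod_eq_zero_iff_dvd] at h1 ⊢
    push_cast at h1 ⊢
    rwa [hcω h] at h1
  have hc0 : ∀ g, ¬ (p : ℤ) ∣ (c g : ℤ) := fun g h => by
    have h1 := hmul g g⁻¹
    have h2 := hst 1 (gact_one w)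
    rw [mul_inv_cancel] at h1
    rw [← ZMod.intCast_zmod_eq_zero_iff_dvd] at h h1 h2
    push_cast at h h1 h2
    rw [hcω] at h
    rw [h, zero_mul, sub_zero] at h1
    rw [h1, zero_sub, neg_eq_zero] at h2
    exact one_ne_zero h2
  let O : Finset (Pr M) := Finset.univ.image fun g : M ≃ₐ[K] M => gact g w
  have hO : ∀ v, v ∈ O ↔ ∃ g : M ≃ₐ[K] M, gact g w = v := fun v => by simp [O]
  have hOc : ¬ p ∣ O.card := fun h => hG (h.trans (orbit_RFL w O hO))
  let U : M → Prop := fun x => x ≠ 0 ∧ ∀ v, v ∉ O → ord v x = 0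
  have hU : ∀ x, U x → U (prj_RFL c x) := fun x hx => by
    refine ⟨prj_ne_RFL c hx.1, fun v hv => ?_⟩
    rw [ord_prj_RFL c hx.1, lam_RFL]
    refine Finset.sum_eq_zero fun g _ => mul_eq_zero_of_right _ (hx.2 _ fun h => hv ?_)
    obtain ⟨j, hj⟩ := (hO _).1 h
    exact (hO _).2 ⟨g⁻¹ * j, by rw [gact_mul, hj, ← gact_mul, inv_mul_cancel, gact_one]⟩
  have h1 : ∀ x, U x → (p : ℤ) ∣ lam_RFL c w x := fun x hx => by
    have h2 := hF _ (prj_ne_RFL c hx.1)
    rw [Finsupp.sum_of_support_subset _ (s := O) (fun v hv => by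
      by_contra h
      exact Finsupp.mem_support_iff.1 hv ((hU x hx).2 v h)) _ (fun v _ => by simp),
      Finset.sum_congr rfl (g := fun _ => ((lam_RFL c w x : ℤ) : ZMod p) * F w) fun v hv => by
        obtain ⟨j, rfl⟩ := (hO _).1 hv
        have h3 := hpq.trans (lam_gact_RFL c _ hc j w x)
        rw [← ZMod.intCast_zmod_eq_zero_iff_dvd] at h3
        push_cast at h3
        rw [dv_apply, ord_prj_RFL c hx.1, hFg, ← hcω]
        linear_combination (-F w) * h3, Finset.sum_const, nsmul_eq_mul] at h2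
    rw [← ZMod.intCast_zmod_eq_zero_iff_dvd]
    exact (mul_eq_zero.1 ((mul_eq_zero.1 h2).resolve_left
      fun h => hOc ((ZMod.natCast_eq_zero_iff _ _).1 h))).resolve_right hw
  have h2 : ∀ x, U x → ∀ v, (p : ℤ) ∣ ord v (prj_RFL c x) := fun x hx v => by
    by_cases hv : v ∈ O
    · obtain ⟨j, rfl⟩ := (hO _).1 hv
      rw [ord_prj_RFL c hx.1]
      have h3 := hpq.trans (lam_gact_RFL c _ hc j w x)
      exact (hpz.dvd_or_dvd ((dvd_sub_right (h1 x hx)).1 h3)).resolve_left (hc0 j)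
    · rw [(hU x hx).2 v hv]
      exact dvd_zero _
  have oζ : ∀ v : Pr M, ord v ζ = 0 := fun v => by
    have h3 := ord_pow v ζ p
    rw [hζ.pow_eq_one, ord_one] at h3
    exact (mul_eq_zero.1 h3.symm).resolve_left hpz.ne_zero
  have oη : ∀ v : Pr M, ord v ((η : 𝓞 M) : M) = 0 := fun v =>
    (ord_eq_zero_iff v (Units.ne_zero η)).2 fun h =>
      v.isPrime.ne_top (Ideal.eq_top_of_isUnit_mem _ h (Units.isUnit _))
  have h3 : ∀ x, U x → ∃ (b : ℕ) (z : M), ¬ p ∣ b ∧ U z ∧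
      (p : ℤ) * lam_RFL c w z = b * lam_RFL c w (prj_RFL c x) := fun x hx => by
    obtain ⟨e, z, hi, he⟩ := hdep ![ζ, ((η : 𝓞 M) : M), prj_RFL c x] fun i => by
      fin_cases i
      · exact ⟨⟨z0, fun g => ⟨1, by simp [hω]⟩⟩, fun v _ => by simp [oζ]⟩
      · exact ⟨hη, fun v _ => by simp [oη]⟩
      · exact ⟨eig_prj_RFL p ω c hc1 hx.1, fun v _ => h2 x hx v⟩
    rw [Fin.prod_univ_three] at he
    change ζ ^ e 0 * ((η : 𝓞 M) : M) ^ e 1 * prj_RFL c x ^ e 2 = z ^ p at he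
    have x0 := prj_ne_RFL c hx.1
    have a0 : ζ ^ e 0 * ((η : 𝓞 M) : M) ^ e 1 ≠ 0 :=
      mul_ne_zero (pow_ne_zero _ z0) (pow_ne_zero _ hη.1)
    have zz : z ≠ 0 := fun h => by
      rw [h, zero_pow hp.ne_zero] at he
      exact mul_ne_zero a0 (pow_ne_zero _ x0) he
    have ho : ∀ v : Pr M, (p : ℤ) * ord v z = e 2 * ord v (prj_RFL c x) := fun v => by
      rw [← ord_pow, ← he, ord_mul v a0 (pow_ne_zero _ x0),
        ord_mul v (pow_ne_zero _ z0) (pow_ne_zero _ hη.1), ord_pow, ord_pow, ord_pow, oζ, oη]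
      ring
    refine ⟨e 2, z, ?_, ⟨zz, fun v hv => ?_⟩, ?_⟩
    · rintro ⟨k, hk⟩
      obtain ⟨h4, h5⟩ := hind (e 0) (e 1) (z / prj_RFL c x ^ k) (by
        rw [div_pow, ← he, hk, ← pow_mul, mul_comm k p, mul_div_cancel_right₀ _ (pow_ne_zero _ x0)])
      obtain ⟨i, hi⟩ := hi
      fin_cases i
      · exact hi h4
      · exact hi h5
      · exact hi ⟨k, hk⟩
    · have h4 := ho v
      rw [(hU x hx).2 v hv, mul_zero] at h4
      exact (mul_eq_zero.1 h4).resolve_left hpz.ne_zero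
    · rw [lam_RFL, lam_RFL, Finset.mul_sum, Finset.mul_sum]
      exact Finset.sum_congr rfl fun g _ => by linear_combination (c g : ℤ) * ho (gact g w)
  have h4 : ∀ k, k ≤ N + 1 → ∀ x, U x → (p : ℤ) ^ k ∣ lam_RFL c w x := by
    intro k
    induction k with
    | zero => intro _ x _; simp
    | succ k ih =>
      intro hk x hx
      obtain ⟨b, z, hb, hz, e⟩ := h3 x hx
      have h5 : (p : ℤ) ^ (k + 1) ∣ b * lam_RFL c w (prj_RFL c x) := by
        rw [← e, pow_succ']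
        exact mul_dvd_mul_left _ (ih (by omega) z hz)
      have h6 := hpz.pow_dvd_of_dvd_mul_left _ (Int.natCast_dvd_natCast.not.2 hb) h5
      have h7 := (pow_dvd_pow (p : ℤ) hk).trans (lam_prj_RFL c _ hc w hx.1)
      exact hpz.pow_dvd_of_dvd_mul_left _ (Int.natCast_dvd_natCast.not.2 hG)
        ((dvd_sub_left h6).1 h7)
  have h5 := h4 (N + 1) le_rfl π ⟨π0, fun v hv => πv v fun h =>
    hv ((hO _).2 ⟨1, by rw [gact_one, h]⟩)⟩
  let S : Finset (M ≃ₐ[K] M) := Finset.univ.filter fun g => gact g w = w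
  have h6 : (p : ℤ) ^ (N + 1) ∣ lam_RFL c w π - S.card * ord w π := by
    have e : (S.card : ℤ) * ord w π = ∑ g : M ≃ₐ[K] M, if gact g w = w then ord w π else 0 := by
      rw [← Finset.sum_filter, Finset.sum_const, nsmul_eq_mul]
    rw [e, lam_RFL, ← Finset.sum_sub_distrib]
    refine Finset.dvd_sum fun g _ => ?_
    split_ifs with hg
    · have h7 := (dvd_sub_pow_of_dvd_sub (hst g hg) N).mul_right (ord w π)
      rw [hg]
      simp only [c]
      push_cast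
      rwa [one_pow, sub_mul, one_mul] at h7
    · rw [πv _ hg]
      simp
  have h7 : (p : ℤ) ^ (N + 1) ∣ S.card * ord w π := (dvd_sub_right h5).1 h6
  have h8 : 0 < S.card := Finset.card_pos.2 ⟨1, by simp [S, gact_one]⟩
  have h9 : p ^ (N + 1) ∣ S.card * (ord w π).natAbs := by
    have := Int.natAbs_dvd_natAbs.2 h7
    simpa [Int.natAbs_mul, Int.natAbs_pow] using this
  have h10 := Nat.le_of_dvd (Nat.mul_pos h8 (Int.natAbs_pos.2 πw)) h9
  have h11 : S.card * (ord w π).natAbs ≤ N := by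
    rw [hN, mul_comm]
    exact Nat.mul_le_mul_left _ (Finset.card_le_univ S)
  have h12 : N + 1 < p ^ (N + 1) := Nat.lt_pow_self hp.one_lt
  omega

end Pool.Agent.MP_3e91a1_nt.CC

end

section

/-! The reflection step with several units. -/

set_option autoImplicit false

open NumberField Module Finset

namespace Pool.Agent.MP_3e91a1_nt.TR

open MP_f3cd89_nt CC

theorem RFK_pf : RFK_st := by
  intro p r K M _ _ _ _ _ ζ ω η F hp hζ hω hG hη hind hdep hF hFg w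
  classical
  by_contra hw
  have : Fact p.Prime := ⟨hp⟩
  have : Finite (M ≃ₐ[K] M) := Nat.finite_of_card_ne_zero fun h => hG (h ▸ dvd_zero p)
  let : Fintype (M ≃ₐ[K] M) := Fintype.ofFinite _
  rw [Nat.card_eq_fintype_card] at hG
  have hpz : Prime (p : ℤ) := Nat.prime_iff_prime_int.1 hp
  have z0 : ζ ≠ 0 := hζ.ne_zero hp.ne_zero
  have hmod : ∀ a b : ℕ, ζ ^ a = ζ ^ b → (p : ℤ) ∣ (a : ℤ) - b := fun a b h => by
    have h1 := (hζ.isOfFinOrder hp.ne_zero).pow_eq_pow_iff_modEq.1 h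
    rw [← hζ.eq_orderOf] at h1
    exact h1.symm.dvd
  have hmul : ∀ g h, (p : ℤ) ∣ (ω (g * h) : ℤ) - ω g * ω h := fun g h => by
    have := hmod (ω (g * h)) (ω g * ω h) (by
      rw [← hω, AlgEquiv.mul_apply, hω h, map_pow, hω g, pow_mul])
    exact_mod_cast this
  have hst : ∀ g : M ≃ₐ[K] M, gact g w = w → (p : ℤ) ∣ (ω g : ℤ) - 1 := fun g hg => by
    have h1 := hFg g w
    rw [hg] at h1
    have h2 : ((ω g : ZMod p) - 1) * F w = 0 := by linear_combination -h1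
    have h3 := (mul_eq_zero.1 h2).resolve_right hw
    rw [← ZMod.intCast_zmod_eq_zero_iff_dvd]
    push_cast
    exact h3
  obtain ⟨π, π0, πw, πv⟩ := exists_pow_RFL w
  set N : ℕ := (ord w π).natAbs * Fintype.card (M ≃ₐ[K] M) with hN
  let c : (M ≃ₐ[K] M) → ℕ := fun g => ω g ^ p ^ N
  have hc : ∀ g h, (p : ℤ) ^ (N + 1) ∣ (c (g * h) : ℤ) - c g * c h := fun g h => by
    have := dvd_sub_pow_of_dvd_sub (hmul g h) N
    simp only [c]
    push_cast
    rwa [mul_pow] at this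
  have hcω : ∀ g, ((c g : ℕ) : ZMod p) = ω g := fun g => by
    simp only [c]
    push_cast
    exact ZMod.pow_card_pow _
  have hpq : (p : ℤ) ∣ (p : ℤ) ^ (N + 1) := dvd_pow_self _ (Nat.succ_ne_zero N)
  have hc1 : ∀ g h, (p : ℤ) ∣ (c (g * h) : ℤ) - c g * ω h := fun g h => by
    have h1 := hpq.trans (hc g h)
    rw [← ZMod.intCast_zmod_eq_zero_iff_dvd] at h1 ⊢
    push_cast at h1 ⊢
    rwa [hcω h] at h1
  have hc0 : ∀ g, ¬ (p : ℤ) ∣ (c g : ℤ) := fun g h => by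
    have h1 := hmul g g⁻¹
    have h2 := hst 1 (gact_one w)
    rw [mul_inv_cancel] at h1
    rw [← ZMod.intCast_zmod_eq_zero_iff_dvd] at h h1 h2
    push_cast at h h1 h2
    rw [hcω] at h
    rw [h, zero_mul, sub_zero] at h1
    rw [h1, zero_sub, neg_eq_zero] at h2
    exact one_ne_zero h2
  let O : Finset (Pr M) := Finset.univ.image fun g : M ≃ₐ[K] M => gact g w
  have hO : ∀ v, v ∈ O ↔ ∃ g : M ≃ₐ[K] M, gact g w = v := fun v => by simp [O]
  have hOc : ¬ p ∣ O.card := fun h => hG (h.trans (orbit_RFL w O hO))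
  let U : M → Prop := fun x => x ≠ 0 ∧ ∀ v, v ∉ O → ord v x = 0
  have hU : ∀ x, U x → U (prj_RFL c x) := fun x hx => by
    refine ⟨prj_ne_RFL c hx.1, fun v hv => ?_⟩
    rw [ord_prj_RFL c hx.1, lam_RFL]
    refine Finset.sum_eq_zero fun g _ => mul_eq_zero_of_right _ (hx.2 _ fun h => hv ?_)
    obtain ⟨j, hj⟩ := (hO _).1 h
    exact (hO _).2 ⟨g⁻¹ * j, by rw [gact_mul, hj, ← gact_mul, inv_mul_cancel, gact_one]⟩
  have h1 : ∀ x, U x → (p : ℤ) ∣ lam_RFL c w x := fun x hx => by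
    have h2 := hF _ (prj_ne_RFL c hx.1)
    rw [Finsupp.sum_of_support_subset _ (s := O) (fun v hv => by
      by_contra h
      exact Finsupp.mem_support_iff.1 hv ((hU x hx).2 v h)) _ (fun v _ => by simp),
      Finset.sum_congr rfl (g := fun _ => ((lam_RFL c w x : ℤ) : ZMod p) * F w) fun v hv => by
        obtain ⟨j, rfl⟩ := (hO _).1 hv
        have h3 := hpq.trans (lam_gact_RFL c _ hc j w x)
        rw [← ZMod.intCast_zmod_eq_zero_iff_dvd] at h3
        push_cast at h3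
        rw [dv_apply, ord_prj_RFL c hx.1, hFg, ← hcω]
        linear_combination (-F w) * h3, Finset.sum_const, nsmul_eq_mul] at h2
    rw [← ZMod.intCast_zmod_eq_zero_iff_dvd]
    exact (mul_eq_zero.1 ((mul_eq_zero.1 h2).resolve_left
      fun h => hOc ((ZMod.natCast_eq_zero_iff _ _).1 h))).resolve_right hw
  have h2 : ∀ x, U x → ∀ v, (p : ℤ) ∣ ord v (prj_RFL c x) := fun x hx v => by
    by_cases hv : v ∈ O
    · obtain ⟨j, rfl⟩ := (hO _).1 hv
      rw [ord_prj_RFL c hx.1]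
      have h3 := hpq.trans (lam_gact_RFL c _ hc j w x)
      exact (hpz.dvd_or_dvd ((dvd_sub_right (h1 x hx)).1 h3)).resolve_left (hc0 j)
    · rw [(hU x hx).2 v hv]
      exact dvd_zero _
  have oζ : ∀ v : Pr M, ord v ζ = 0 := fun v => by
    have h3 := ord_pow v ζ p
    rw [hζ.pow_eq_one, ord_one] at h3
    exact (mul_eq_zero.1 h3.symm).resolve_left hpz.ne_zero
  have oη : ∀ (j : Fin r) (v : Pr M), ord v ((η j : 𝓞 M) : M) = 0 := fun j v =>
    (ord_eq_zero_iff v (Units.ne_zero (η j))).2 fun h =>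
      v.isPrime.ne_top (Ideal.eq_top_of_isUnit_mem _ h (Units.isUnit _))
  have h3 : ∀ x, U x → ∃ (b : ℕ) (z : M), ¬ p ∣ b ∧ U z ∧
      (p : ℤ) * lam_RFL c w z = b * lam_RFL c w (prj_RFL c x) := fun x hx => by
    obtain ⟨e, z, hi, he⟩ := hdep
      (Fin.cons ζ (Fin.cons (prj_RFL c x) fun j => ((η j : 𝓞 M) : M))) fun i => by
      refine Fin.cases ?_ (fun i => Fin.cases ?_ (fun j => ?_) i) i
      · simp only [Fin.cons_zero]
        exact ⟨⟨z0, fun g => ⟨1, by simp [hω]⟩⟩, fun v _ => by simp [oζ]⟩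
      · simp only [Fin.cons_succ, Fin.cons_zero]
        exact ⟨eig_prj_RFL p ω c hc1 hx.1, fun v _ => h2 x hx v⟩
      · simp only [Fin.cons_succ]
        exact ⟨hη j, fun v _ => by simp [oη]⟩
    rw [Fin.prod_univ_succ, Fin.prod_univ_succ] at he
    simp only [Fin.cons_succ, Fin.cons_zero] at he
    have x0 := prj_ne_RFL c hx.1
    have b0 : ∀ j : Fin r, ((η j : 𝓞 M) : M) ^ e j.succ.succ ≠ 0 := fun j =>
      pow_ne_zero _ (hη j).1
    have b1 : ∏ j : Fin r, ((η j : 𝓞 M) : M) ^ e j.succ.succ ≠ 0 :=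
      Finset.prod_ne_zero_iff.2 fun j _ => b0 j
    have a0 : ζ ^ e 0 * ∏ j : Fin r, ((η j : 𝓞 M) : M) ^ e j.succ.succ ≠ 0 :=
      mul_ne_zero (pow_ne_zero _ z0) b1
    replace he : (ζ ^ e 0 * ∏ j : Fin r, ((η j : 𝓞 M) : M) ^ e j.succ.succ) *
        prj_RFL c x ^ e (Fin.succ 0) = z ^ p := by
      rw [← he]
      ring
    have zz : z ≠ 0 := fun h => by
      rw [h, zero_pow hp.ne_zero] at he
      exact mul_ne_zero a0 (pow_ne_zero _ x0) he
    have ho : ∀ v : Pr M, (p : ℤ) * ord v z = e (Fin.succ 0) * ord v (prj_RFL c x) := fun v => by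
      rw [← ord_pow, ← he, ord_mul v a0 (pow_ne_zero _ x0),
        ord_mul v (pow_ne_zero _ z0) b1, ord_pow, ord_pow, oζ, ord_prod_RFL v _ _ b0,
        Finset.sum_eq_zero fun j _ => by rw [ord_pow, oη, mul_zero]]
      ring
    refine ⟨e (Fin.succ 0), z, ?_, ⟨zz, fun v hv => ?_⟩, ?_⟩
    · rintro ⟨k, hk⟩
      obtain ⟨h4, h5⟩ := hind (e 0) (fun j => e j.succ.succ) (z / prj_RFL c x ^ k) (by
        rw [div_pow, ← he, hk, ← pow_mul, mul_comm k p, mul_div_cancel_right₀ _ (pow_ne_zero _ x0)])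
      obtain ⟨i, hi⟩ := hi
      refine hi (Fin.cases h4 (fun i => Fin.cases ⟨k, hk⟩ (fun j => h5 j) i) i)
    · have h4 := ho v
      rw [(hU x hx).2 v hv, mul_zero] at h4
      exact (mul_eq_zero.1 h4).resolve_left hpz.ne_zero
    · rw [lam_RFL, lam_RFL, Finset.mul_sum, Finset.mul_sum]
      exact Finset.sum_congr rfl fun g _ => by linear_combination (c g : ℤ) * ho (gact g w)
  have h4 : ∀ k, k ≤ N + 1 → ∀ x, U x → (p : ℤ) ^ k ∣ lam_RFL c w x := by
    intro k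
    induction k with
    | zero => intro _ x _; simp
    | succ k ih =>
      intro hk x hx
      obtain ⟨b, z, hb, hz, e⟩ := h3 x hx
      have h5 : (p : ℤ) ^ (k + 1) ∣ b * lam_RFL c w (prj_RFL c x) := by
        rw [← e, pow_succ']
        exact mul_dvd_mul_left _ (ih (by omega) z hz)
      have h6 := hpz.pow_dvd_of_dvd_mul_left _ (Int.natCast_dvd_natCast.not.2 hb) h5
      have h7 := (pow_dvd_pow (p : ℤ) hk).trans (lam_prj_RFL c _ hc w hx.1)
      exact hpz.pow_dvd_of_dvd_mul_left _ (Int.natCast_dvd_natCast.not.2 hG)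
        ((dvd_sub_left h6).1 h7)
  have h5 := h4 (N + 1) le_rfl π ⟨π0, fun v hv => πv v fun h =>
    hv ((hO _).2 ⟨1, by rw [gact_one, h]⟩)⟩
  let S : Finset (M ≃ₐ[K] M) := Finset.univ.filter fun g => gact g w = w
  have h6 : (p : ℤ) ^ (N + 1) ∣ lam_RFL c w π - S.card * ord w π := by
    have e : (S.card : ℤ) * ord w π = ∑ g : M ≃ₐ[K] M, if gact g w = w then ord w π else 0 := by
      rw [← Finset.sum_filter, Finset.sum_const, nsmul_eq_mul]
    rw [e, lam_RFL, ← Finset.sum_sub_distrib]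
    refine Finset.dvd_sum fun g _ => ?_
    split_ifs with hg
    · have h7 := (dvd_sub_pow_of_dvd_sub (hst g hg) N).mul_right (ord w π)
      rw [hg]
      simp only [c]
      push_cast
      rwa [one_pow, sub_mul, one_mul] at h7
    · rw [πv _ hg]
      simp
  have h7 : (p : ℤ) ^ (N + 1) ∣ S.card * ord w π := (dvd_sub_right h5).1 h6
  have h8 : 0 < S.card := Finset.card_pos.2 ⟨1, by simp [S, gact_one]⟩
  have h9 : p ^ (N + 1) ∣ S.card * (ord w π).natAbs := by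
    have := Int.natAbs_dvd_natAbs.2 h7
    simpa [Int.natAbs_mul, Int.natAbs_pow] using this
  have h10 := Nat.le_of_dvd (Nat.mul_pos h8 (Int.natAbs_pos.2 πw)) h9
  have h11 : S.card * (ord w π).natAbs ≤ N := by
    rw [hN, mul_comm]
    exact Nat.mul_le_mul_left _ (Finset.card_le_univ S)
  have h12 : N + 1 < p ^ (N + 1) := Nat.lt_pow_self hp.one_lt
  omega

end Pool.Agent.MP_3e91a1_nt.TR

end

section

/-! The ring of integers modulo an unramified prime is reduced. -/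

set_option autoImplicit false

open NumberField Module Finset

namespace Pool.Agent.MP_3e91a1_nt.TR

theorem rad_URM {p : ℕ} {K : Type} [Field K] [NumberField K] (hp : p.Prime)
    (hd : ¬ (p : ℤ) ∣ discr K) : (Ideal.span {(p : 𝓞 K)}).IsRadical := by
  rintro y ⟨n, hy⟩
  have hq : Prime (p : ℤ) := Nat.prime_iff_prime_int.1 hp
  refine Ideal.mem_of_localization_maximal fun P hP => ?_
  by_cases h : (p : 𝓞 K) ∈ P
  · have u := (not_dvd_discr_iff_forall_mem K (𝓞 K) hq).1 hd P hP.isPrime (by simpa using h)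
    have : (Ideal.span {(p : ℤ)}).IsPrime := (Ideal.span_singleton_prime hq.ne_zero).2 hq
    have : P.LiesOver (Ideal.span {(p : ℤ)}) :=
      (Ideal.liesOver_span_iff hP.ne_top hq).2 (by simpa using h)
    let := Localization.AtPrime.algebraOfLiesOver (Ideal.span {(p : ℤ)}) P
    have e := ((Algebra.isUnramifiedAt_iff_map_eq ℤ (Ideal.span {(p : ℤ)}) P).1 u).2
    rw [Ideal.map_span, Set.image_singleton, map_natCast] at e ⊢
    rw [e]
    exact (IsLocalization.AtPrime.to_map_mem_maximal_iff _ P _).2 (hP.isPrime.mem_of_pow_mem n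
      ((Ideal.span_singleton_le_iff_mem P).2 h hy))
  · rw [Ideal.map_span, Set.image_singleton, Ideal.span_singleton_eq_top.2
      (IsLocalization.map_units (M := P.primeCompl) _ ⟨_, h⟩)]
    trivial

theorem card_URM {p : ℕ} (hp : p.Prime) {R : Type} [CommRing R] [IsReduced R] [Finite R]
    (h0 : (p : R) = 0) : ¬ p ∣ Nat.card Rˣ := by
  intro h
  have := Fact.mk hp
  obtain ⟨u, hu⟩ := exists_prime_orderOf_dvd_card' p h
  have h1 : (u : R) ^ p = 1 := by
    rw [← Units.val_pow_eq_pow_val, ← hu, pow_orderOf_eq_one, Units.val_one]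
  obtain ⟨r, hr⟩ := exists_add_pow_prime_eq hp ((u : R) - 1) 1
  rw [sub_add_cancel, h1, h0, one_pow] at hr
  have h2 : (u : R) - 1 = 0 := IsNilpotent.eq_zero ⟨p, by linear_combination -hr⟩
  have h3 : u = 1 := Units.ext (sub_eq_zero.1 h2)
  rw [h3, orderOf_one] at hu
  exact hp.one_lt.ne hu

theorem URM_pf : URM_st := by
  intro p K _ _ hp hd
  have hr := rad_URM hp hd
  refine ⟨hr, Nat.card (𝓞 K ⧸ Ideal.span {(p : 𝓞 K)})ˣ, ?_, fun y hy => ?_⟩
  · have := (Ideal.isRadical_iff_quotient_reduced _).1 hr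
    have : Finite (𝓞 K ⧸ Ideal.span {(p : 𝓞 K)}) := (Ideal.absNorm_ne_zero_iff _).1 (by
      rw [Ideal.absNorm_span_natCast]
      exact pow_ne_zero _ hp.ne_zero)
    refine card_URM hp ?_
    rw [← map_natCast (Ideal.Quotient.mk (Ideal.span {(p : 𝓞 K)})), Ideal.Quotient.eq_zero_iff_mem]
    exact Ideal.mem_span_singleton_self _
  · obtain ⟨a, b, e⟩ := hy
    have h1 : Ideal.Quotient.mk (Ideal.span {(p : 𝓞 K)}) y *
        Ideal.Quotient.mk (Ideal.span {(p : 𝓞 K)}) a = 1 := by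
      rw [← map_mul, ← map_one (Ideal.Quotient.mk (Ideal.span {(p : 𝓞 K)})), Ideal.Quotient.eq,
        Ideal.mem_span_singleton]
      exact ⟨-b, by linear_combination e⟩
    obtain ⟨u, hu⟩ := IsUnit.of_mul_eq_one _ h1
    rw [← Ideal.mem_span_singleton, ← Ideal.Quotient.eq_zero_iff_mem, map_sub, map_pow, ← hu,
      ← Units.val_pow_eq_pow_val, pow_card_eq_one', Units.val_one, map_one, sub_self]

end Pool.Agent.MP_3e91a1_nt.TR

end

section

/-! The conjecture of Leopoldt from two independent quotients. -/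

set_option autoImplicit false

open NumberField Module Finset

namespace Pool.Agent.MP_3e91a1_nt.TR

theorem lte_LEO {R : Type} [CommRing R] [IsDomain R] [CharZero R] {p : ℕ} (hp : p.Prime)
    (h2 : 2 < p) {y : R} (h1 : (p : R) ∣ y - 1) (m : ℕ) (h : (p : R) ^ (m + 2) ∣ y ^ p - 1) :
    (p : R) ^ (m + 1) ∣ y - 1 := by
  induction m with
  | zero => simpa using h1
  | succ j ih =>
    obtain ⟨a, ha⟩ := ih ((pow_dvd_pow _ (by omega)).trans h)
    obtain ⟨b, hb⟩ := ZMod.exists_one_add_mul_pow_prime_eq (u := (p : R) ^ (j + 1)) (v := (p : R))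
      hp (dvd_pow_self _ (by omega)) (by
        rw [← pow_succ', ← pow_succ, ← pow_mul]
        exact pow_dvd_pow _ (by nlinarith)) a
    have h3 : y ^ p - 1 = (p : R) ^ (j + 2) * (a + p * b) := by
      rw [sub_eq_iff_eq_add'.1 ha, hb]
      ring
    rw [h3, show j + 1 + 2 = j + 2 + 1 from rfl, pow_succ,
      mul_dvd_mul_iff_left (pow_ne_zero _ (Nat.cast_ne_zero.2 hp.ne_zero))] at h
    rw [ha, pow_succ]
    exact mul_dvd_mul_left _ ((dvd_add_left (dvd_mul_right _ _)).1 h)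

/-- the units whose quotient vanishes -/
def ker_LEO (R : Type) [CommRing R] (p E : ℕ) : Subgroup Rˣ where
  carrier := {e | (p : R) ^ 2 ∣ (e : R) ^ E - 1}
  mul_mem' {a b} ha hb := by
    have e : ((a * b : Rˣ) : R) ^ E - 1 = (a : R) ^ E * ((b : R) ^ E - 1) + ((a : R) ^ E - 1) := by
      rw [Units.val_mul, mul_pow]
      ring
    exact (dvd_add (Dvd.dvd.mul_left hb _) ha).trans e.symm.dvd
  one_mem' := by simp
  inv_mem' {a} ha := by
    have e : ((a⁻¹ : Rˣ) : R) ^ E - 1 = -((a⁻¹ : Rˣ) : R) ^ E * ((a : R) ^ E - 1) := by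
      rw [mul_sub, neg_mul, ← mul_pow, Units.inv_mul, one_pow]
      ring
    exact (Dvd.dvd.mul_left ha _).trans e.symm.dvd

theorem card_LEO (K : Type) [Field K] [NumberField K] {p : ℕ} (hp : p.Prime)
    (ht : Nat.card (Units.torsion K) < p) {Q : Type} [CommGroup Q] (π : (𝓞 K)ˣ →* Q)
    (hπ : Function.Surjective π) (h1 : ∀ x, π x ^ p = 1) :
    ∃ f : (Fin (Units.rank K) → Fin p) → Q, Function.Surjective f := by
  have hp0 : (0 : ℤ) < p := by exact_mod_cast hp.pos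
  refine ⟨fun n => ∏ i, π (Units.fundSystem K i) ^ (n i : ℕ), fun q => ?_⟩
  obtain ⟨x, rfl⟩ := hπ q
  obtain ⟨⟨t, e⟩, h, -⟩ := Units.exist_unique_eq_mul_prod K x
  have h2 : π (t : (𝓞 K)ˣ) = 1 := by
    refine (pow_eq_one_iff_of_coprime (m := p) (n := Nat.card (Units.torsion K))
      (hp.coprime_iff_not_dvd.2 (Nat.not_dvd_of_pos_of_lt Nat.card_pos ht))).1 ⟨h1 _, ?_⟩
    rw [← map_pow, ← Subgroup.coe_pow, pow_card_eq_one', Subgroup.coe_one, map_one]
  refine ⟨fun i => ⟨(e i % p).toNat, ?_⟩, ?_⟩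
  · have := Int.emod_lt_of_pos (e i) hp0
    omega
  · rw [h, map_mul, h2, one_mul, map_prod]
    refine prod_congr rfl fun i _ => ?_
    rw [map_zpow, ← zpow_natCast, Int.toNat_of_nonneg (Int.emod_nonneg _ hp0.ne')]
    exact (zpow_eq_zpow_emod' _ (h1 _)).symm

theorem grp_LEO {G : Type} [CommGroup G] (u u' : G) {p i j : ℕ} (i' j' : ℕ) (hi : i ≤ p)
    (hj : j ≤ p) : (u ^ i * u' ^ j)⁻¹ * (u ^ i' * u' ^ j') * (u ^ p * u' ^ p) =
      u ^ (i' + (p - i)) * u' ^ (j' + (p - j)) := by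
  rw [pow_add, pow_add, pow_sub u hi, pow_sub u' hj, mul_inv]
  ac_rfl

theorem LEO_pf : LEO_st := by
  intro K _ _ hr
  refine ⟨Nat.card (Units.torsion K) + 2, fun p E u u' hp hB hE hy hI => ?_⟩
  have h1 : ∀ x : (𝓞 K)ˣ, (p : 𝓞 K) ∣ (x : 𝓞 K) ^ E - 1 := fun x =>
    hy _ ⟨((x⁻¹ : (𝓞 K)ˣ) : 𝓞 K), 0, by simp⟩
  have h2 : ∀ x : (𝓞 K)ˣ, x ^ p ∈ ker_LEO (𝓞 K) p E := fun x => by
    have := dvd_sub_pow_of_dvd_sub (h1 x) 1
    rw [pow_one, one_pow, ← pow_mul, mul_comm, pow_mul] at this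
    exact this
  have h3 : ∀ i j : ℕ, u ^ i * u' ^ j ∈ ker_LEO (𝓞 K) p E → p ∣ i ∧ p ∣ j := fun i j h =>
    hI i j h
  have h4 : (powMonoidHom p : (𝓞 K)ˣ →* (𝓞 K)ˣ).range ≤ ker_LEO (𝓞 K) p E := by
    rintro _ ⟨x, rfl⟩
    exact h2 x
  obtain ⟨f, hf⟩ := card_LEO K hp (by omega)
    (Q := (𝓞 K)ˣ ⧸ (powMonoidHom p : (𝓞 K)ˣ →* (𝓞 K)ˣ).range)
    (QuotientGroup.mk' _) (QuotientGroup.mk'_surjective _) fun x => by
      rw [← map_pow]
      exact (QuotientGroup.eq_one_iff (x ^ p)).2 (MonoidHom.mem_range.2 ⟨x, rfl⟩)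
  have := Finite.of_surjective f hf
  have h5 : ∀ i i' : Fin p, p ∣ i' + (p - i) → i = i' := by
    rintro i i' ⟨k, hk⟩
    have a1 := i.2
    have a2 := i'.2
    have a3 : k = 1 := by
      rcases k with _ | _ | k
      · omega
      · rfl
      · have : p * (k + 1 + 1) = p * k + 2 * p := by ring
        omega
    rw [a3] at hk
    exact Fin.ext (by omega)
  have h6 : Function.Injective fun z : Fin p × Fin p => ((u ^ (z.1 : ℕ) * u' ^ (z.2 : ℕ) : (𝓞 K)ˣ) :
      (𝓞 K)ˣ ⧸ (powMonoidHom p : (𝓞 K)ˣ →* (𝓞 K)ˣ).range) := by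
    rintro ⟨i, j⟩ ⟨i', j'⟩ h
    have a1 := mul_mem (h4 (QuotientGroup.eq.1 h)) (mul_mem (h2 u) (h2 u'))
    obtain ⟨b1, b2⟩ := h3 _ _ (grp_LEO u u' i' j' i.2.le j.2.le ▸ a1)
    exact Prod.ext (h5 _ _ b1) (h5 _ _ b2)
  have h7 := (h6.bijective_of_nat_card_le ((Nat.card_le_card_of_surjective f hf).trans (by
    simp only [Nat.card_eq_fintype_card, Fintype.card_pi, Fintype.card_fin, prod_const, card_univ,
      Fintype.card_prod]
    rw [← sq]
    exact Nat.pow_le_pow_right hp.pos hr))).2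
  have h8 : ∀ e ∈ ker_LEO (𝓞 K) p E, ∃ η : (𝓞 K)ˣ, η ^ p = e := by
    intro e he
    obtain ⟨⟨i, j⟩, h⟩ := h7 e
    have a1 := QuotientGroup.eq.1 h
    have a2 := mul_mem he (inv_mem (h4 a1))
    rw [mul_inv_rev, inv_inv, mul_inv_cancel_left] at a2
    obtain ⟨b1, b2⟩ := h3 _ _ a2
    rw [Nat.eq_zero_of_dvd_of_lt b1 i.2, Nat.eq_zero_of_dvd_of_lt b2 j.2] at a1
    simpa using a1
  intro m
  induction m with
  | zero => exact fun e _ => ⟨e, by simp⟩
  | succ m ih =>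
    intro e he
    have a1 : (p : 𝓞 K) ^ (m + 2) ∣ (e : 𝓞 K) ^ E - 1 := he.trans (sub_one_dvd_pow_sub_one _ _)
    obtain ⟨η, hη⟩ := h8 e ((pow_dvd_pow _ (by omega)).trans a1)
    obtain ⟨ξ, hξ⟩ := ih (η ^ E) (lte_LEO hp (by omega) (h1 η) m (by
      rwa [← pow_mul, mul_comm, pow_mul, ← Units.val_pow_eq_pow_val, hη]))
    have a2 : e ^ E = ξ ^ p ^ (m + 1) := by
      rw [← hη, ← pow_mul, mul_comm, pow_mul, hξ, ← pow_mul, pow_succ]
    obtain ⟨a, b, hab⟩ := Nat.isCoprime_iff_coprime.2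
      ((hp.coprime_iff_not_dvd.2 hE).symm.pow_right (m + 1))
    refine ⟨ξ ^ a * e ^ b, ?_⟩
    rw [mul_pow, ← zpow_natCast, ← zpow_natCast, ← zpow_mul, mul_comm a, zpow_mul, zpow_natCast, ← a2,
      ← zpow_natCast, ← zpow_mul, ← zpow_mul, ← zpow_add, mul_comm _ a, hab, zpow_one]

end Pool.Agent.MP_3e91a1_nt.TR

end
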