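import Pool.Agent.Mg.F3e91a1.Gb3cda3
import Pool.Agent.Mg.F3e91a1.Gf1088e

set_option linter.all false

section

/-! Statements of the arithmetic steps of the determinant argument. -/

set_option autoImplicit false

open Finset Filter PowerSeries NumberField

noncomputable section

namespace Pool.Agent.MP_3e91a1_nt.TR

/-- the two relations between the quotients `x` of `a` and `y` of `a - 1` -/
def Quo (p : ℕ) {R : Type} [CommRing R] (T a x y : R) : Prop :=
  (p : R) ^ 2 ∣ a ^ p * (1 - p * x) - (a - 1) ^ p * (1 - p * y) - 1 ∧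
  (p : R) ^ 2 ∣ (a + T) ^ p * (1 + p * (x + y)) - a ^ p * (1 - p * x) - T

/-- the regulator vanishes modulo `p` -/
def Bad (p T : ℕ) {R : Type} [CommRing R] (a b : R) : Prop :=
  ¬ (p : ℤ) ∣ dsc (T : ℤ) ∧ ∃ x y x' y' : R, Quo p (T : R) a x y ∧ Quo p (T : R) b x' y' ∧
    (p : R) ∣ x * y' - x' * y

/-- the ring of all algebraic integers -/
abbrev Zb : Type := 𝓞 (AlgebraicClosure ℚ)

/-- the rows of the determinant -/
def row (c c' L : ℕ) {R : Type} [CommRing R] (g : Fin 7 → R⟦X⟧) (t : R) (e i : ℕ)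
    (β : Fin 8 → ℕ) : R⟦X⟧ := g 0 ^ e * C t ^ i * ∏ j, Lgs L (un g j) (iv c c' g j) ^ β j

/-- congruent to zero modulo `q` and `X ^ n` -/
def Zm {R : Type} [CommRing R] (q : R) (n : ℕ) (f : R⟦X⟧) : Prop := ∀ m < n, q ∣ coeff m f

/-- the power of a unit series -/
def LOG_st : Prop := ∀ (R : Type) [CommRing R] (p L n : ℕ) (U V : R⟦X⟧), p.Prime → n ≤ p →
  (∀ k, 1 ≤ k → k < n → k ∣ L) → U * V = 1 →
  Zm (p : R) n (U ^ p - C (constantCoeff U ^ p)) ∧
  Zm ((p : R) ^ 2) n (L * U ^ p - C (constantCoeff U ^ p) * (L + p * Lgs L U V))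

/-- the two logarithms at one root -/
def SOL_st : Prop := ∀ p c L : ℕ, p.Prime → ∃ P₁ Q₁ P₂ Q₂ : MvPolynomial (Fin 4) ℤ,
  P₁.totalDegree ≤ 6 * p ∧ Q₁.totalDegree ≤ 6 * p ∧ P₂.totalDegree ≤ 6 * p ∧
  Q₂.totalDegree ≤ 6 * p ∧ ∀ (R : Type) [CommRing R] [IsDomain R] [CharZero R] (n t : ℕ) (κ x y : R)
    (τ θ A A' A'' : R⟦X⟧), n ≤ p → (∀ k, 1 ≤ k → k < n → k ∣ L) → τ = C (t : R) + C κ * X →
    X ^ n ∣ τ ^ p - C (t : R) - (p : R⟦X⟧) * θ → Tri (c * τ) A A' A'' →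
    Quo p ((c : R) * t) (constantCoeff A) x y →
    Zm (p : R) n (C (dsc ((c : R) * t)) * Lgs L A ((A - 1) * (A + (c : R⟦X⟧) * τ)) -
      (MvPolynomial.aeval ![τ, A, A', A''] P₁ + MvPolynomial.aeval ![τ, A, A', A''] Q₁ * θ -
        C (dsc ((c : R) * t) * L * x))) ∧
    Zm (p : R) n (C (dsc ((c : R) * t)) * Lgs L (A - 1) (A * (A + (c : R⟦X⟧) * τ)) -
      (MvPolynomial.aeval ![τ, A, A', A''] P₂ + MvPolynomial.aeval ![τ, A, A', A''] Q₂ * θ -
        C (dsc ((c : R) * t) * L * y)))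

/-- a small generating set -/
def SPN_st : Prop := ∀ (S : Type) [CommRing S] (c c' B N : ℕ) (g : Fin 7 → S) (h : Fin 9 → S),
  Dat c c' g → h 1 * h 4 = h 3 * h 2 → h 5 * h 8 = h 7 * h 6 →
  ∃ s : Finset S, s.card ≤ 2916 * (B + 1) * (N + 1) ^ 7 ∧
    Submodule.span ℤ (insert 1 (Set.range g)) ^ B * Submodule.span ℤ (insert 1 (Set.range h)) ^ N ≤
      Submodule.span ℤ (s : Set S)

/-- the rows modulo `p` -/
def CNG_st : Prop := ∀ p c c' D K L n : ℕ, p.Prime → n ≤ p → (∀ k, 1 ≤ k → k < n → k ∣ L) →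
  ∃ (J : Type) (_ : Fintype J) (u : Ix D K → J → ℤ),
    Fintype.card J ≤ 2916 * (D + 54 * K * p + 1) * (9 * K + 1) ^ 7 ∧
    ∀ (R : Type) [CommRing R] [IsDomain R] [CharZero R] (t : ℕ) (κ : R) (g : Fin 7 → R⟦X⟧),
      g 0 = C (t : R) + C κ * X → Dat c c' g →
      Bad p (c * t) (constantCoeff (g 1)) (constantCoeff (g 2)) →
      Bad p (c' * t) (constantCoeff (g 4)) (constantCoeff (g 5)) →
      ∃ w : J → ℕ → R, ∀ (r : Ix D K) (m : ℕ), m < n →
        (p : R) ∣ coeff m (row c c' L g t r.1 r.2.1 fun j => r.2.2 j) - ∑ τ, (u r τ : R) * w τ m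

/-- the roots as integral power series -/
def HEN_st : Prop := ∀ (R : Type) [CommRing R] [IsDomain R] (T μ a b e : R), Tri T a b e →
  dsc T ≠ 0 → ∃ A A' A'' : R⟦X⟧, constantCoeff A = a ∧ constantCoeff A' = b ∧
    constantCoeff A'' = e ∧ Tri (C T + C (dsc T ^ 2 * μ) * X) A A' A''

/-- the size of their coefficients -/
def SZA_st : Prop := ∃ E : ℕ, ∀ (B : ℝ) (T μ : ℂ) (A A' A'' : ℂ⟦X⟧), 2 ≤ B → ‖T‖ ≤ B → ‖μ‖ ≤ B →
  dsc T ≠ 0 → Tri (C T + C (dsc T ^ 2 * μ) * X) A A' A'' → ∀ k, ‖coeff k A‖ ≤ (B ^ E) ^ (k + 1)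

/-- the size of the entries from the size of the coefficients -/
def SZB_st : Prop := ∃ E : ℕ, ∀ (H : ℝ) (c c' D K L n e i m : ℕ) (β : Fin 8 → ℕ) (t : ℂ)
  (g : Fin 7 → ℂ⟦X⟧), 2 ≤ H → c ≤ H → c' ≤ H → ‖t‖ ≤ H → (∀ j k, ‖coeff k (g j)‖ ≤ H ^ (k + 1)) →
  L ≠ 0 → e ≤ D → i ≤ K → (∀ j, β j ≤ K) → m < n →
  ‖coeff m (row c c' L g t e i β)‖ ≤ (H ^ E) ^ (D + n + K) * (n * L) ^ (8 * K)

/-- the size of the entries -/
def SIZ_st : Prop := ∃ E : ℕ, ∀ (B c c' t D K L n e i m : ℕ) (β : Fin 8 → ℕ) (g : Fin 7 → ℂ⟦X⟧),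
  2 ≤ B → c ≤ B → c' ≤ B → t ≤ B →
  g 0 = C (t : ℂ) + C ((dsc (c * t : ℂ) * dsc (c' * t : ℂ)) ^ 2) * X → Dat c c' g →
  L ≠ 0 → e ≤ D → i ≤ K → (∀ j, β j ≤ K) → m < n →
  ‖coeff m (row c c' L g t e i β)‖ ≤ ((B : ℝ) ^ E) ^ (D + n + K) * (n * L) ^ (8 * K)

/-- a nonzero algebraic integer has a large conjugate -/
def CNJ_st : Prop := ∀ z : Zb, z ≠ 0 → ∃ φ : Zb →+* ℂ, Function.Injective φ ∧ 1 ≤ ‖φ z‖

/-- both members of the pair are bad -/
def Bad2 (a : ℕ → Fin 3 → Zb) (c c' t p : ℕ) : Prop :=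
  Bad p (c * t) (a (c * t) 0) (a (c * t) 1) ∧ Bad p (c' * t) (a (c' * t) 0) (a (c' * t) 1)

open Classical in
/-- the determinant inequality -/
def DET_st : Prop := ∃ E : ℕ, ∀ (a : ℕ → Fin 3 → Zb) (c c' B D K n L : ℕ) (P Q : Finset ℕ) (y : ℝ),
  (∀ T : ℕ, Tri (T : Zb) (a T 0) (a T 1) (a T 2)) → 0 < c → 0 < c' → c ≠ c' → 2 ≤ B → c ≤ B →
  c' ≤ B → (∀ t ∈ P, t ≤ B) → L ≠ 0 → (∀ k, 1 ≤ k → k < n → k ∣ L) →
  729 * ((K + 1) ^ 17 * (D + 20 * (K + 1) ^ 17) + 12) < (P.card - K) * (n - (K + 1) ^ 17) →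
  (∀ p ∈ Q, p.Prime ∧ n ≤ p) →
  (∀ t ∈ P, y ≤ ∑ p ∈ Q.filter (Bad2 a c c' t), Real.log p) →
  (D * (K + 1) ^ 9 : ℝ) * y ≤
    ∑ p ∈ Q, (2916 * (D + 54 * K * p + 1) * (9 * K + 1) ^ 7 : ℝ) * Real.log p +
    (D * (K + 1) ^ 9 : ℝ) * Real.log ((D * (K + 1) ^ 9 : ℝ) *
      (((B : ℝ) ^ E) ^ (D + n + K) * (n * L) ^ (8 * K)))

open Classical in
/-- few points have many bad primes -/
def COR_st : Prop := ∃ C₀ : ℝ, 0 < C₀ ∧ ∀ (η : ℝ) (B K : ℕ), 0 < η → η ≤ 1 → 2 ≤ B →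
  C₀ * Real.log B ≤ η ^ 2 * K → ∀ᶠ x : ℕ in atTop,
    ∀ (a : ℕ → Fin 3 → Zb) (c c' : ℕ) (P : Finset ℕ),
      (∀ T : ℕ, Tri (T : Zb) (a T 0) (a T 1) (a T 2)) → 0 < c → 0 < c' → c ≠ c' → c ≤ B → c' ≤ B →
      (∀ t ∈ P, t ≤ B) →
      (∀ t ∈ P, η * x ≤ ∑ p ∈ ((Ioc 0 x).filter Nat.Prime).filter (Bad2 a c c' t), Real.log p) →
      η ^ 2 * P.card < C₀ * (K + 1) ^ 17

open Classical in
/-- few parameters have many primes that are bad twice -/
def Few (bad : ℕ → ℕ → Prop) : Prop := ∀ (c c' : ℕ) (η ε : ℝ), 0 < c → 0 < c' → c ≠ c' → 0 < η →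
  0 < ε → ∀ᶠ M : ℕ in atTop, ∀ᶠ x : ℕ in atTop,
    (((Icc 1 M).filter fun t => η * x ≤ ∑ p ∈ ((Ioc 0 x).filter Nat.Prime).filter
      (fun p => bad (c * t) p ∧ bad (c' * t) p), Real.log p).card : ℝ) ≤ ε * M

/-- the count for pairs -/
def FEW_st : Prop := ∀ a : ℕ → Fin 3 → Zb, (∀ T : ℕ, Tri (T : Zb) (a T 0) (a T 1) (a T 2)) →
  Few fun T p => Bad p T (a T 0) (a T 1)

/-- most integers have many small divisors -/
def TUR_st : Prop := ∀ (l : ℕ) (ε : ℝ), 0 < ε → ∃ s : Finset ℕ, (∀ c ∈ s, 0 < c) ∧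
  ∀ᶠ M : ℕ in atTop,
    (((Icc 1 M).filter fun T => (s.filter fun c => c ∣ T).card < l).card : ℝ) ≤ ε * M

open Classical in
/-- many heavy sets have a heavy intersection -/
def INC_st : Prop := ∀ η : ℝ, 0 < η → ∃ (l : ℕ) (η' : ℝ), 0 < η' ∧ ∀ (x : ℝ) (Ω s : Finset ℕ)
  (w : ℕ → ℝ) (A : ℕ → ℕ → Prop), 0 < x → (∀ p, 0 ≤ w p) → ∑ p ∈ Ω, w p ≤ 2 * x → l < s.card →
  (∀ c ∈ s, η * x ≤ ∑ p ∈ Ω.filter (A c), w p) →
  ∃ c ∈ s, ∃ c' ∈ s, c ≠ c' ∧ η' * x ≤ ∑ p ∈ Ω.filter (fun p => A c p ∧ A c' p), w p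

open Classical in
/-- from pairs to single parameters -/
def DNA_st : Prop := ∀ bad : ℕ → ℕ → Prop, Few bad → ∀ η ε : ℝ, 0 < η → 0 < ε →
  ∀ᶠ M : ℕ in atTop, ∀ᶠ x : ℕ in atTop,
    (((Icc 1 M).filter fun T => η * x ≤ ∑ p ∈ ((Ioc 0 x).filter Nat.Prime).filter (bad T),
      Real.log p).card : ℝ) ≤ ε * M

/-- from weights to counts -/
def DNS_st : Prop := ∀ bad : ℕ → ℕ → Prop, Few bad → ∀ δ ε : ℝ, 0 < δ → 0 < ε →
  ∀ᶠ M : ℕ in atTop, ∀ B : ℕ → ℕ, ∀ᶠ x : ℕ in atTop,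
    (Set.ncard {T : ℕ | 1 ≤ T ∧ T ≤ M ∧
      (Set.ncard {p : ℕ | p ≤ x ∧ p.Prime ∧ B T < p ∧ ¬ bad T p} : ℝ) <
        (1 - δ) * x / Real.log x} : ℝ) ≤ ε * M

end Pool.Agent.MP_3e91a1_nt.TR

end
end

section

set_option autoImplicit false

open NumberField

namespace Pool.Agent.MP_3e91a1_nt.TR

theorem CNJ_pf : CNJ_st := by
  intro z hz
  have hi : IsIntegral ℤ (z : AlgebraicClosure ℚ) := z.isIntegral_coe
  have hq : IsIntegral ℚ (z : AlgebraicClosure ℚ) := hi.tower_top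
  let K : IntermediateField ℚ (AlgebraicClosure ℚ) :=
    IntermediateField.adjoin ℚ {(z : AlgebraicClosure ℚ)}
  have : FiniteDimensional ℚ K := IntermediateField.adjoin.finiteDimensional hq
  have : NumberField K := {}
  let w : K := ⟨z, IntermediateField.mem_adjoin_simple_self ℚ _⟩
  have hw : IsIntegral ℤ w :=
    (isIntegral_algHom_iff (K.val.restrictScalars ℤ) K.val.injective).1 hi
  have hw0 : (⟨w, hw⟩ : 𝓞 K) ≠ 0 := fun h => by
    apply hz
    have h1 : w = 0 := congrArg (fun x : 𝓞 K => (x : K)) h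
    exact RingOfIntegers.ext (congrArg (fun x : K => (x : AlgebraicClosure ℚ)) h1)
  obtain ⟨σ, hσ⟩ := exists_conjugate_one_le_norm hw0
  let _ : Algebra K ℂ := σ.toAlgebra
  have : Algebra.IsAlgebraic K (AlgebraicClosure ℚ) :=
    ⟨fun x => ((AlgebraicClosure.isAlgebraic ℚ).isAlgebraic x).tower_top K⟩
  let ψ : AlgebraicClosure ℚ →ₐ[K] ℂ := IsAlgClosed.lift
  refine ⟨ψ.toRingHom.comp (algebraMap Zb (AlgebraicClosure ℚ)),
    ψ.toRingHom.injective.comp RingOfIntegers.coe_injective, ?_⟩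
  have e : ψ (z : AlgebraicClosure ℚ) = σ w := ψ.commutes w
  exact le_of_le_of_eq hσ (congrArg norm e.symm)

end Pool.Agent.MP_3e91a1_nt.TR

end

section

/-! Many heavy sets have a heavy intersection. -/

set_option autoImplicit false

open Finset

namespace Pool.Agent.MP_3e91a1_nt.TR

open Classical in
lemma pt_INC (t : Finset ℕ) (P : ℕ → Prop) {w : ℝ} (hw : 0 ≤ w) :
    ∑ c ∈ t, (if P c then w else 0) ≤
      w + ∑ c ∈ t.offDiag, (if P c.1 ∧ P c.2 then w else 0) := by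
  have e : t.offDiag.filter (fun c : ℕ × ℕ => P c.1 ∧ P c.2) = (t.filter P).offDiag := by
    ext c
    simp only [mem_filter, mem_offDiag]
    tauto
  rw [← sum_filter, ← sum_filter, e, sum_const, sum_const, offDiag_card, nsmul_eq_mul,
    nsmul_eq_mul]
  generalize (t.filter P).card = n
  have h : n ≤ 1 + (n * n - n) := by
    rcases n with _ | _ | n
    · simp
    · simp
    · have : (n + 1 + 1) * (n + 1 + 1) = n * n + 3 * n + 2 + (n + 1 + 1) := by ring
      omega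
  have h' : (n : ℝ) ≤ 1 + ((n * n - n : ℕ) : ℝ) := by exact_mod_cast h
  nlinarith

theorem INC_pf : INC_st := by
  classical
  intro η hη
  refine ⟨⌈3 / η⌉₊, 1 / ((⌈3 / η⌉₊ + 1 : ℕ) : ℝ) ^ 2, by positivity, ?_⟩
  intro x Ω s w A hx hw hΩ hl hA
  obtain ⟨t, hts, ht⟩ := exists_subset_card_eq (show ⌈3 / η⌉₊ + 1 ≤ s.card from hl)
  have hn : 3 < ((⌈3 / η⌉₊ + 1 : ℕ) : ℝ) * η := by
    have h1 : 3 / η ≤ ⌈3 / η⌉₊ := Nat.le_ceil _
    rw [div_le_iff₀ hη] at h1
    push_cast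
    linarith
  rw [← ht] at hn ⊢
  by_contra hc
  push Not at hc
  have hn0 : (0 : ℝ) < t.card := by
    rw [ht]; positivity
  have a1 : (t.card : ℝ) * (η * x) ≤ ∑ c ∈ t, ∑ p ∈ Ω.filter (A c), w p := by
    rw [← nsmul_eq_mul]
    exact card_nsmul_le_sum _ _ _ fun c hc' => hA c (hts hc')
  have a2 : ∑ c ∈ t.offDiag, ∑ p ∈ Ω.filter (fun p => A c.1 p ∧ A c.2 p), w p ≤
      (t.offDiag.card : ℝ) * (1 / (t.card : ℝ) ^ 2 * x) := by
    rw [← nsmul_eq_mul]
    refine sum_le_card_nsmul _ _ _ fun c hc' => ?_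
    obtain ⟨b1, b2, b3⟩ := mem_offDiag.1 hc'
    exact (hc _ (hts b1) _ (hts b2) b3).le
  have a3 : (t.offDiag.card : ℝ) ≤ (t.card : ℝ) ^ 2 := by
    rw [offDiag_card, sq]
    exact_mod_cast Nat.sub_le _ _
  have a4 : (t.offDiag.card : ℝ) * (1 / (t.card : ℝ) ^ 2 * x) ≤ x := by
    refine (mul_le_mul_of_nonneg_right a3 (by positivity)).trans (le_of_eq ?_)
    field_simp
  have a5 : ∑ c ∈ t, ∑ p ∈ Ω.filter (A c), w p ≤ ∑ p ∈ Ω, w p +
      ∑ c ∈ t.offDiag, ∑ p ∈ Ω.filter (fun p => A c.1 p ∧ A c.2 p), w p := by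
    simp only [sum_filter]
    rw [sum_comm, sum_comm (s := t.offDiag), ← sum_add_distrib]
    exact sum_le_sum fun p _ => pt_INC t (fun c => A c p) (hw p)
  nlinarith

end Pool.Agent.MP_3e91a1_nt.TR

end

section

set_option autoImplicit false

open Finset PowerSeries

noncomputable section

namespace Pool.Agent.MP_3e91a1_nt.TR

theorem der_LOG {R : Type} [CommRing R] {p : ℕ} (hp : 1 ≤ p) {U V : R⟦X⟧} (h : U * V = 1)
    (k : ℕ) : ((k + 1 : ℕ) : R) * coeff (k + 1) (U ^ p) =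
      p * coeff k (U ^ p * (d⁄dX R U * V)) := by
  have h1 : d⁄dX R (U ^ p) = C (p : R) * (U ^ p * (d⁄dX R U * V)) := by
    obtain ⟨m, rfl⟩ : ∃ m, p = m + 1 := ⟨p - 1, by omega⟩
    rw [derivative_pow, Nat.add_sub_cancel, map_natCast, pow_succ]
    linear_combination (-((m + 1 : ℕ) : R⟦X⟧) * U ^ m * d⁄dX R U) * h
  have h2 := congrArg (coeff k) h1
  rw [coeff_derivative, coeff_C_mul] at h2
  rw [← h2]
  push_cast
  ring

theorem first_LOG {R : Type} [CommRing R] {p : ℕ} (hp : p.Prime) {U V : R⟦X⟧} (h : U * V = 1)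
    {k : ℕ} (hk : k < p) : (p : R) ∣ coeff k (U ^ p - C (constantCoeff U ^ p)) := by
  rcases k with _ | k
  · simp
  · rw [map_sub, coeff_C, if_neg (Nat.succ_ne_zero k), sub_zero]
    have h1 : IsCoprime (p : R) ((k + 1 : ℕ) : R) := by
      have h2 : IsCoprime (p : ℤ) ((k + 1 : ℕ) : ℤ) :=
        Nat.isCoprime_iff_coprime.2 (Nat.coprime_of_lt_prime (Nat.succ_ne_zero k) hk hp)
      simpa using h2.map (Int.castRingHom R)
    exact h1.dvd_of_dvd_mul_left ⟨_, der_LOG hp.one_le h k⟩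

theorem LOG_pf : LOG_st := by
  intro R _ p L n U V hp hn hL h
  refine ⟨fun m hm => first_LOG hp h (lt_of_lt_of_le hm hn), fun m hm => ?_⟩
  have e1 : (L : R⟦X⟧) = C (L : R) := (map_natCast C L).symm
  have e2 : (p : R⟦X⟧) = C (p : R) := (map_natCast C p).symm
  rw [e1, e2, map_sub, coeff_C_mul, coeff_C_mul, map_add, coeff_C_mul, Lgs, coeff_mk]
  rcases m with _ | k
  · simp [mul_comm]
  · obtain ⟨l, rfl⟩ := hL (k + 1) (by omega) hm
    rw [coeff_C, if_neg (Nat.succ_ne_zero k), Nat.mul_div_cancel_left _ (Nat.succ_pos k),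
      Nat.add_sub_cancel]
    have h1 : (p : R) ∣ coeff k ((U ^ p - C (constantCoeff U ^ p)) * (d⁄dX R U * V)) := by
      rw [coeff_mul]
      refine Finset.dvd_sum fun x hx => Dvd.dvd.mul_right (first_LOG hp h ?_) _
      have := mem_antidiagonal.1 hx
      omega
    obtain ⟨w, hw⟩ := h1
    rw [sub_mul, map_sub, coeff_C_mul] at hw
    refine ⟨l * w, ?_⟩
    have h2 := der_LOG hp.one_le h k
    push_cast at h2 ⊢
    linear_combination (l : R) * h2 + (l : R) * p * hw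

end Pool.Agent.MP_3e91a1_nt.TR

end
end

section

/-! Statements of the arithmetic steps for the fields of every degree. -/

set_option autoImplicit false

open Finset Filter PowerSeries NumberField

noncomputable section

namespace Pool.Agent.MP_3e91a1_nt.GN

open TR

/-- the relations between the quotients `x i` of the units at the root `a` -/
def Qug (p : ℕ) {m : ℕ} (r : Fin m → ℤ) {R : Type} [CommRing R] (T a : R) (x : Fin m → R) : Prop :=
  ∀ i, (p : R) ^ 2 ∣ (a + T) ^ p * (1 + p * ∑ j, x j) - (a - r i) ^ p * (1 - p * x i) - (T + r i)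

/-- the regulator vanishes modulo `p` -/
def Bag (p T : ℕ) {m : ℕ} (r : Fin m → ℤ) (d : Polynomial ℤ) {R : Type} [CommRing R]
    (a : Fin (m + 1) → R) : Prop :=
  ¬ (p : ℤ) ∣ Polynomial.aeval (T : ℤ) d ∧ ∃ (x : Fin (m + 1) → Fin m → R) (α : Fin m → ℤ),
    (∀ s, Qug p r (T : R) (a s) (x s)) ∧ (∃ i, ¬ (p : ℤ) ∣ α i) ∧ ∀ s, (p : R) ∣ ∑ i, α i * x s i

/-- the rows of the determinant -/
def rog (L : ℕ) {R ι : Type} [CommRing R] [Fintype ι] (τ : R⟦X⟧) (t : R) (U V : ι → R⟦X⟧)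
    (e i : ℕ) (β : ι → ℕ) : R⟦X⟧ := τ ^ e * C t ^ i * ∏ j, Lgs L (U j) (V j) ^ β j

/-- geometric growth -/
def Geo (H : ℝ) (f : ℂ⟦X⟧) : Prop := ∀ k, ‖coeff k f‖ ≤ H ^ (k + 1)

/-- the roots in the ring of algebraic integers -/
def RTS_st : Prop := ∀ (m : ℕ) (r : Fin m → ℤ) (T : ℕ), ∃ a : Fin (m + 1) → Zb, Rt r (T : Zb) a

/-- the logarithms at one root -/
def SOG_st : Prop := ∀ (m : ℕ) (r : Fin m → ℤ) (d : Polynomial ℤ), IsD r d → ∃ h : ℕ, 1 ≤ h ∧
  ∀ p c L : ℕ, p.Prime →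
  ∃ (P Q : Fin (m + 1) × Fin m → MvPolynomial (Option (Fin (m + 1))) ℤ)
    (Z : MvPolynomial (Option (Fin (m + 1))) ℤ),
    (∀ j, (P j).totalDegree ≤ h * p) ∧ (∀ j, (Q j).totalDegree ≤ h * p) ∧ Z.totalDegree ≤ h * p ∧
    ∀ (R : Type) [CommRing R] [IsDomain R] [CharZero R] (n t : ℕ) (κ : R) (τ θ : R⟦X⟧)
      (A : Fin (m + 1) → R⟦X⟧), n ≤ p → (∀ k, 1 ≤ k → k < n → k ∣ L) → τ = C (t : R) + C κ * X →
      X ^ n ∣ τ ^ p - C (t : R) - (p : R⟦X⟧) * θ → Rt r (c * τ) A →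
      Zm (p : R) n (C (Polynomial.aeval ((c : R) * t) d) -
        MvPolynomial.aeval (fun o : Option (Fin (m + 1)) => o.elim τ A) Z) ∧
      ∀ (s : Fin (m + 1)) (x : Fin m → R), Qug p r ((c : R) * t) (constantCoeff (A s)) x → ∀ i,
        Zm (p : R) n (C (Polynomial.aeval ((c : R) * t) d) *
            Lgs L (uu r A (s, i)) (vv r (c * τ) A (s, i)) -
          (MvPolynomial.aeval (fun o : Option (Fin (m + 1)) => o.elim τ A) (P (s, i)) +
            MvPolynomial.aeval (fun o : Option (Fin (m + 1)) => o.elim τ A) (Q (s, i)) * θ -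
            C (Polynomial.aeval ((c : R) * t) d * L * x i)))

/-- the standard monomials of a hypersurface -/
def HIL_st : Prop := ∀ (F : Type) [Field F] (k : ℕ) (Φ : MvPolynomial (Fin k) F), Φ ≠ 0 →
  ∃ s : ℕ → Finset (MvPolynomial (Fin k) F), Monotone s ∧ ∀ N,
    (s N).card ≤ Φ.totalDegree * (N + 1) ^ (k - 1) ∧
    ∀ f : MvPolynomial (Fin k) F, f.totalDegree ≤ N → ∃ q, f - q * Φ ∈ Submodule.span F (s N : Set _) ∧
      (q = 0 ∨ q.totalDegree + Φ.totalDegree ≤ N)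

/-- a small generating set from one relation -/
def SPG_st : Prop := ∀ (F S : Type) [Field F] [CommRing S] [Algebra F S] (k m N : ℕ)
  (Φ : MvPolynomial (Fin k) F) (x : Fin k → S) (W : Submodule F S), Φ ≠ 0 → Φ.IsHomogeneous m →
  1 ≤ m → 1 ∈ W →
  MvPolynomial.aeval x Φ ∈ W ^ m * Submodule.span F (insert 1 (Set.range x)) ^ (m - 1) →
  ∃ s : Finset S, s.card ≤ m * (N + 1) ^ (k - 1) ∧
    Submodule.span F (insert 1 (Set.range x)) ^ N ≤ W ^ (m * N) * Submodule.span F (s : Set S)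

/-- the difference of two determinants -/
def DDF_st : Prop := ∀ (F S : Type) [CommRing F] [CommRing S] [Algebra F S] (m : ℕ)
  (a w : Matrix (Fin m) (Fin m) S) (W H : Submodule F S), 1 ∈ W → 1 ∈ H → (∀ i j, a i j ∈ H) →
  (∀ i j, w i j ∈ W) → (a + w).det - a.det ∈ W ^ m * H ^ (m - 1)

/-- the powers of the span of the variables -/
def SPF_st : Prop := ∀ (m : ℕ) (r : Fin m → ℤ) (c c' : ℕ), ∃ ν : ℕ, ∀ (F S : Type) [CommRing F]
  [CommRing S] [Algebra F S] (B N : ℕ) (τ θ : S) (A A' : Fin (m + 1) → S), Rt r (c * τ) A →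
  Rt r (c' * τ) A' → (∀ P : MvPolynomial (Option (Fin (m + 1))) ℤ, P.totalDegree ≤ B →
    MvPolynomial.aeval (fun o : Option (Fin (m + 1)) => o.elim τ A) P ∈
      Submodule.span F (insert 1 (Set.range (gg τ A A'))) ^ B ∧
    MvPolynomial.aeval (fun o : Option (Fin (m + 1)) => o.elim τ A') P ∈
      Submodule.span F (insert 1 (Set.range (gg τ A A'))) ^ B) ∧
  ∃ s : Finset S, s.card ≤ ν * (B + 1) * (N + 1) ∧
    Submodule.span F (insert 1 (Set.range (gg τ A A'))) ^ B * Submodule.span F {1, θ} ^ N ≤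
      Submodule.span F (s : Set S)

/-- the rows modulo `p` -/
def CNH_st : Prop := ∀ (m k k' : ℕ) (σ : Sel m k) (σ' : Sel m k') (r : Fin m → ℤ)
  (d : Polynomial ℤ) (c c' : ℕ), 1 ≤ m → IsD r d → 0 < σ.N → 0 < σ'.N → σ.Phi ≠ 0 → σ'.Phi ≠ 0 →
  1 ≤ k ∧ 1 ≤ k' ∧ ∃ C₁ p₀ : ℕ, ∀ p D K L n : ℕ, p.Prime → p₀ < p → n ≤ p →
    (∀ j, 1 ≤ j → j < n → j ∣ L) →
    ∃ (J : Type) (_ : Fintype J) (u : Iy D K (Fin k ⊕ Fin k') → J → ℤ),
      Fintype.card J ≤ C₁ * (D + K * p + 1) * (K + 1) ^ (k + k' - 1) ∧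
      ∀ (R : Type) [CommRing R] [IsDomain R] [CharZero R] (t : ℕ) (κ : R) (τ : R⟦X⟧)
        (A A' : Fin (m + 1) → R⟦X⟧), τ = C (t : R) + C κ * X → Rt r (c * τ) A → Rt r (c' * τ) A' →
        σ.Rel r (derivative R) (c * τ) A → σ'.Rel r (derivative R) (c' * τ) A' →
        Bag p (c * t) r d (fun s => constantCoeff (A s)) →
        Bag p (c' * t) r d (fun s => constantCoeff (A' s)) →
        ∃ w : J → ℕ → R, ∀ (q : Iy D K (Fin k ⊕ Fin k')) (j : ℕ), j < n →
          (p : R) ∣ coeff j (rog L τ (t : R) (UU σ σ' r A A') (VV σ σ' r (c * τ) (c' * τ) A A')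
            q.1 q.2.1 fun i => q.2.2 i) - ∑ b, (u q b : R) * w b j

/-- the equation of a root near a point -/
def EQN_st : Prop := ∀ (m : ℕ) (r : Fin m → ℤ), ∃ G₁ G₂ : Polynomial (MvPolynomial (Fin 4) ℤ),
  ∀ (S : Type) [CommRing S] (T a Δ γ z W : S), (∏ i, (a - r i)) * (a + T) = 1 →
    Polynomial.eval a (Polynomial.derivative (fp r T)) = Δ →
    (∏ i, (a + Δ * W - r i)) * (a + Δ * W + (T + Δ ^ 2 * γ * z)) - 1 =
      Δ ^ 2 * (W - (W ^ 2 * Polynomial.eval₂ (MvPolynomial.eval₂Hom (Int.castRingHom S) ![T, a, Δ, γ]) W G₁ +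
        z * Polynomial.eval₂ (MvPolynomial.eval₂Hom (Int.castRingHom S) ![T, a, Δ, γ]) W G₂))

/-- the roots as integral power series -/
def HEG_st : Prop := ∀ (m : ℕ) (r : Fin m → ℤ) (R : Type) [CommRing R] [IsDomain R] (T μ : R)
  (a : Fin (m + 1) → R), Rt r T a → ∏ s, fd a s ≠ 0 → ∃ A : Fin (m + 1) → R⟦X⟧,
    (∀ s, constantCoeff (A s) = a s) ∧ Rt r (C T + C ((∏ s, fd a s) ^ 2 * μ) * X) A

/-- the size of a fixed point -/
def SZF_st : Prop := ∀ n : ℕ, ∃ E : ℕ, ∀ (B : ℝ) (H₁ H₂ : Polynomial ℂ) (W : ℂ⟦X⟧), 2 ≤ B →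
  H₁.natDegree ≤ n → H₂.natDegree ≤ n → (∀ j, ‖H₁.coeff j‖ ≤ B) → (∀ j, ‖H₂.coeff j‖ ≤ B) →
  constantCoeff W = 0 → W = W ^ 2 * Polynomial.aeval W H₁ + X * Polynomial.aeval W H₂ →
  Geo (B ^ E) W

/-- the size of the roots -/
def SZG_st : Prop := ∀ (m : ℕ) (r : Fin m → ℤ), ∃ E : ℕ, ∀ (B : ℝ) (T μ : ℂ)
  (A : Fin (m + 1) → ℂ⟦X⟧), 2 ≤ B → ‖T‖ ≤ B → ‖μ‖ ≤ B →
  ∏ s, fd (fun s => constantCoeff (A s)) s ≠ 0 →
  Rt r (C T + C ((∏ s, fd (fun s => constantCoeff (A s)) s) ^ 2 * μ) * X) A → ∀ s, Geo (B ^ E) (A s)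

/-- the size of the entries from the size of the series -/
def SZH_st : Prop := ∀ (ι : Type) [Fintype ι], ∃ E : ℕ, ∀ (H : ℝ) (D K L n e i j : ℕ) (β : ι → ℕ)
  (t : ℂ) (τ : ℂ⟦X⟧) (U V : ι → ℂ⟦X⟧), 2 ≤ H → ‖t‖ ≤ H → Geo H τ → (∀ b, Geo H (U b)) →
  (∀ b, Geo H (V b)) → L ≠ 0 → e ≤ D → i ≤ K → (∀ b, β b ≤ K) → j < n →
  ‖coeff j (rog L τ t U V e i β)‖ ≤ (H ^ E) ^ (D + n + K) * (n * L) ^ (Fintype.card ι * K)

/-- the size of the entries -/
def SIG_st : Prop := ∀ (m k k' : ℕ) (σ : Sel m k) (σ' : Sel m k') (r : Fin m → ℤ)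
  (d : Polynomial ℤ) (c c' : ℕ), IsD r d → ∃ E : ℕ, ∀ (B t D K L n e i j : ℕ)
    (β : Fin k ⊕ Fin k' → ℕ) (τ : ℂ⟦X⟧) (A A' : Fin (m + 1) → ℂ⟦X⟧), 2 ≤ B → t ≤ B →
    Polynomial.aeval ((c : ℂ) * t) d ≠ 0 → Polynomial.aeval ((c' : ℂ) * t) d ≠ 0 →
    τ = C (t : ℂ) + C ((Polynomial.aeval ((c : ℂ) * t) d * Polynomial.aeval ((c' : ℂ) * t) d) ^ 2) * X →
    Rt r (c * τ) A → Rt r (c' * τ) A' → L ≠ 0 → e ≤ D → i ≤ K → (∀ b, β b ≤ K) → j < n →
    ‖coeff j (rog L τ (t : ℂ) (UU σ σ' r A A') (VV σ σ' r (c * τ) (c' * τ) A A') e i β)‖ ≤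
      ((B : ℝ) ^ E) ^ (D + n + K) * (n * L) ^ ((k + k') * K)

open Classical in
/-- the determinant inequality for a relation between parameters and primes -/
def Ineq (k ν : ℕ) (bad : ℕ → ℕ → Prop) : Prop := ∀ (B D K n L : ℕ) (P Q : Finset ℕ) (y : ℝ),
  2 ≤ B → (∀ t ∈ P, t ≤ B) → L ≠ 0 → (∀ j, 1 ≤ j → j < n → j ∣ L) →
  ν * ((K + 1) ^ (2 * k + 1) * (D + ν * (K + 1) ^ (2 * k + 1)) + ν) <
    (P.card - K) * (n - (K + 1) ^ (2 * k + 1)) →
  (∀ p ∈ Q, p.Prime ∧ n ≤ p ∧ ν < p) → 0 < y →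
  (∀ t ∈ P, y ≤ ∑ p ∈ Q.filter (bad t), Real.log p) →
  (D * (K + 1) ^ (k + 1) : ℝ) * y ≤
    ∑ p ∈ Q, (ν * (D + K * p + 1) * (K + 1) ^ (k - 1) : ℝ) * Real.log p +
    (D * (K + 1) ^ (k + 1) : ℝ) * Real.log ((D * (K + 1) ^ (k + 1) : ℝ) *
      (((B : ℝ) ^ ν) ^ (D + n + K) * (n * L) ^ (k * K)))

/-- the determinant inequality -/
def DEG_st : Prop := ∀ (m : ℕ) (r : Fin m → ℤ) (d : Polynomial ℤ) (c c' : ℕ)
  (a : ℕ → Fin (m + 1) → Zb), 1 ≤ m → Function.Injective r → IsD r d →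
  Cop (AlgebraicClosure ℚ) d c c' → 0 < c → 0 < c' → (∀ T : ℕ, Rt r (T : Zb) (a T)) →
  ∃ k ν : ℕ, 1 ≤ k ∧
    Ineq k ν fun t p => Bag p (c * t) r d (a (c * t)) ∧ Bag p (c' * t) r d (a (c' * t))

open Classical in
/-- few points have many bad primes -/
def COG_st : Prop := ∀ (k ν : ℕ) (bad : ℕ → ℕ → Prop), 1 ≤ k → Ineq k ν bad →
  ∃ C₀ : ℝ, 0 < C₀ ∧ ∀ (η : ℝ) (B K : ℕ), 0 < η → η ≤ 1 → 2 ≤ B →
    C₀ * Real.log B ≤ η ^ 2 * K → ∀ᶠ x : ℕ in atTop, ∀ P : Finset ℕ, (∀ t ∈ P, t ≤ B) →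
      (∀ t ∈ P, η * x ≤ ∑ p ∈ ((Ioc 0 x).filter Nat.Prime).filter (bad t), Real.log p) →
      η ^ 2 * P.card < C₀ * (K + 1) ^ (2 * k + 1)

open Classical in
/-- few parameters have many bad primes -/
def Few1 (bad : ℕ → ℕ → Prop) : Prop := ∀ η ε : ℝ, 0 < η → 0 < ε →
  ∀ᶠ M : ℕ in atTop, ∀ᶠ x : ℕ in atTop,
    (((Icc 1 M).filter fun t => η * x ≤ ∑ p ∈ ((Ioc 0 x).filter Nat.Prime).filter (bad t),
      Real.log p).card : ℝ) ≤ ε * M

/-- the count from the inequality -/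
def FEG_st : Prop := ∀ (k ν : ℕ) (bad : ℕ → ℕ → Prop), 1 ≤ k → Ineq k ν bad → Few1 bad

/-- most integers have many prime divisors in a finite set of large primes -/
def TUG_st : Prop := ∀ (y l : ℕ) (ε : ℝ), 0 < ε → ∃ s : Finset ℕ, (∀ c ∈ s, c.Prime ∧ y < c) ∧
  ∀ᶠ M : ℕ in atTop,
    (((Icc 1 M).filter fun T => (s.filter fun c => c ∣ T).card < l).card : ℝ) ≤ ε * M

/-- from pairs to single parameters -/
def DAG_st : Prop := ∀ (bad : ℕ → ℕ → Prop) (y : ℕ), (∀ c c' : ℕ, c.Prime → c'.Prime → y < c →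
  y < c' → c ≠ c' → Few1 fun t p => bad (c * t) p ∧ bad (c' * t) p) → Few1 bad

/-- from weights to counts -/
def DSG_st : Prop := ∀ bad : ℕ → ℕ → Prop, Few1 bad → ∀ (δ ε : ℝ) (a T₀ : ℕ), 0 < δ → 0 < ε →
  ∀ᶠ M : ℕ in atTop, ∀ G : ℕ → ℕ → Prop,
    (∀ T, T₀ ≤ T → ∃ B : ℕ, ∀ p : ℕ, p.Prime → B < p → ¬ bad (T + a) p → G T p) →
    ∀ᶠ x : ℕ in atTop, (Set.ncard {T : ℕ | 1 ≤ T ∧ T ≤ M ∧
      (Set.ncard {p : ℕ | p ≤ x ∧ G T p} : ℝ) < (1 - δ) * x / Real.log x} : ℝ) ≤ ε * M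

end Pool.Agent.MP_3e91a1_nt.GN

end
end

section

/-! From pairs of parameters to single parameters. -/

set_option autoImplicit false

open Finset Filter

namespace Pool.Agent.MP_3e91a1_nt.TR

theorem count_DNA (M l lam : ℕ) (s Ex : Finset ℕ) (hv : ℕ → Prop) [DecidablePred hv]
    (hs : ∀ c ∈ s, 0 < c)
    (h : ∀ t ∈ Icc 1 M, t ∉ Ex → (s.filter fun c => hv (c * t)).card ≤ l) :
    lam * ((Icc 1 M).filter hv).card ≤ l * M + s.card * Ex.card +
      lam * ((Icc 1 M).filter fun T => (s.filter fun c => c ∣ T).card < lam).card := by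
  have h1 : ∑ T ∈ (Icc 1 M).filter hv, (s.filter fun c => c ∣ T).card ≤
      ∑ t ∈ Icc 1 M, (s.filter fun c => hv (c * t)).card := by
    rw [sum_congr rfl fun T _ => card_filter (fun c => c ∣ T) s,
      sum_congr rfl fun t _ => card_filter (fun c => hv (c * t)) s,
      sum_comm, sum_comm (s := Icc 1 M)]
    refine sum_le_sum fun c hc => ?_
    rw [← card_filter, ← card_filter]
    refine le_trans (card_le_card fun T hT => ?_) (card_image_le (f := fun t => c * t))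
    simp only [mem_filter, mem_Icc, mem_image] at hT ⊢
    obtain ⟨⟨⟨a1, a2⟩, a3⟩, t, rfl⟩ := hT
    exact ⟨t, ⟨⟨Nat.pos_of_mul_pos_left a1, (Nat.le_mul_of_pos_left t (hs c hc)).trans a2⟩, a3⟩, rfl⟩
  have h2 : ∑ t ∈ Icc 1 M, (s.filter fun c => hv (c * t)).card ≤ l * M + s.card * Ex.card := by
    refine (sum_le_sum (g := fun t => l + if t ∈ Ex then s.card else 0) fun t ht => ?_).trans ?_
    · split_ifs with he
      · exact (card_filter_le _ _).trans (Nat.le_add_left _ _)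
      · exact h t ht he
    · rw [sum_add_distrib, sum_const, Nat.card_Icc, sum_ite_mem, sum_const, smul_eq_mul,
        smul_eq_mul, Nat.add_sub_cancel, mul_comm M, mul_comm _ s.card]
      exact Nat.add_le_add_left (Nat.mul_le_mul_left _ (card_le_card inter_subset_right)) _
  have h3 : lam * ((Icc 1 M).filter hv).card ≤
      ∑ T ∈ (Icc 1 M).filter hv, (s.filter fun c => c ∣ T).card +
        lam * ((Icc 1 M).filter fun T => (s.filter fun c => c ∣ T).card < lam).card := by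
    rw [mul_comm lam, ← smul_eq_mul, ← sum_const]
    refine (sum_le_sum (g := fun T => (s.filter fun c => c ∣ T).card +
      if (s.filter fun c => c ∣ T).card < lam then lam else 0) fun T _ => ?_).trans ?_
    · split_ifs <;> omega
    · rw [sum_add_distrib, ← sum_filter, sum_const, smul_eq_mul, mul_comm lam]
      exact Nat.add_le_add_left (Nat.mul_le_mul_right _
        (card_le_card (filter_subset_filter _ (filter_subset _ _)))) _
  omega

theorem theta_DNA (x : ℕ) : ∑ p ∈ (Ioc 0 x).filter Nat.Prime, Real.log p ≤ 2 * x := by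
  have h := Chebyshev.theta_le_log4_mul_x (x := x) x.cast_nonneg
  rw [Chebyshev.theta, Nat.floor_natCast] at h
  refine h.trans (mul_le_mul_of_nonneg_right ?_ x.cast_nonneg)
  rw [show (4 : ℝ) = 2 ^ 2 by norm_num, Real.log_pow]
  have := Real.log_two_lt_d9
  push_cast
  linarith

open Classical in
theorem DNA_pf (hTUR : TUR_st) (hINC : INC_st) : DNA_st := by
  intro bad hF η ε hη hε
  obtain ⟨l, η', hη', hI⟩ := hINC η hη
  obtain ⟨lam, hlam⟩ := exists_nat_ge (2 * (l + 1) / ε)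
  rw [div_le_iff₀ hε] at hlam
  have hl0 : (0 : ℝ) < lam := by
    exact pos_of_mul_pos_left (lt_of_lt_of_le (by positivity) hlam) hε.le
  obtain ⟨s, hs, hT⟩ := hTUR lam (ε / 2) (by positivity)
  have hP := (eventually_all_finset s.offDiag).2 fun q hq =>
    hF q.1 q.2 η' (1 / ((s.card : ℝ) + 1) ^ 3) (hs _ (mem_offDiag.1 hq).1)
      (hs _ (mem_offDiag.1 hq).2.1) (mem_offDiag.1 hq).2.2 hη' (by positivity)
  filter_upwards [hT, hP] with M hM hM'
  filter_upwards [(eventually_all_finset s.offDiag).2 hM', eventually_gt_atTop 0] with x hx hx0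
  have key := count_DNA M l lam s (s.offDiag.biUnion fun q => (Icc 1 M).filter fun t =>
      η' * x ≤ ∑ p ∈ ((Ioc 0 x).filter Nat.Prime).filter
        (fun p => bad (q.1 * t) p ∧ bad (q.2 * t) p), Real.log p)
    (fun T => η * x ≤ ∑ p ∈ ((Ioc 0 x).filter Nat.Prime).filter (bad T), Real.log p) hs
    fun t ht he => not_lt.1 fun hlt => by
      obtain ⟨c, hc, c', hc', hne, h⟩ := hI x _ _ (fun p => Real.log p) (fun c => bad (c * t))
        (by exact_mod_cast hx0) (fun p => Real.log_natCast_nonneg p) (theta_DNA x) hlt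
        fun c hc => (mem_filter.1 hc).2
      exact he (mem_biUnion.2 ⟨(c, c'), mem_offDiag.2
        ⟨(mem_filter.1 hc).1, (mem_filter.1 hc').1, hne⟩, mem_filter.2 ⟨ht, h⟩⟩)
  have hE : (((s.offDiag.biUnion fun q => (Icc 1 M).filter fun t =>
      η' * x ≤ ∑ p ∈ ((Ioc 0 x).filter Nat.Prime).filter
        (fun p => bad (q.1 * t) p ∧ bad (q.2 * t) p), Real.log p).card : ℕ) : ℝ) ≤
      (s.card : ℝ) ^ 2 * (1 / ((s.card : ℝ) + 1) ^ 3 * M) := by
    refine (Nat.cast_le.2 card_biUnion_le).trans ?_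
    rw [Nat.cast_sum]
    refine (sum_le_card_nsmul _ _ _ hx).trans ?_
    rw [nsmul_eq_mul]
    refine mul_le_mul_of_nonneg_right ?_ (by positivity)
    rw [offDiag_card, sq]
    exact_mod_cast Nat.sub_le _ _
  have key' := (Nat.cast_le (α := ℝ)).2 key
  push_cast at key'
  have h1 : (s.card : ℝ) * ((s.card : ℝ) ^ 2 * (1 / ((s.card : ℝ) + 1) ^ 3 * M)) ≤ M := by
    rw [← mul_assoc, ← mul_assoc, ← pow_succ', mul_one_div]
    refine mul_le_of_le_one_left M.cast_nonneg ((div_le_one (by positivity)).2 ?_)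
    exact pow_le_pow_left₀ s.card.cast_nonneg (by linarith) 3
  have h2 := mul_le_mul_of_nonneg_left hE (s.card.cast_nonneg (α := ℝ))
  have h3 := mul_le_mul_of_nonneg_left hM hl0.le
  have h4 := mul_le_mul_of_nonneg_right hlam (M.cast_nonneg (α := ℝ))
  refine le_of_mul_le_mul_left (key'.trans ?_) hl0
  linarith

end Pool.Agent.MP_3e91a1_nt.TR

end

section

/-! From pairs of prime multiples to single parameters. -/

set_option autoImplicit false

open Finset Filter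

namespace Pool.Agent.MP_3e91a1_nt.GN

open TR

open Classical in
theorem DAG_pf (hTUG : TUG_st) (hINC : INC_st) : DAG_st := by
  intro bad y hF η ε hη hε
  obtain ⟨l, η', hη', hI⟩ := hINC η hη
  obtain ⟨lam, hlam⟩ := exists_nat_ge (2 * (l + 1) / ε)
  rw [div_le_iff₀ hε] at hlam
  have hl0 : (0 : ℝ) < lam := by
    exact pos_of_mul_pos_left (lt_of_lt_of_le (by positivity) hlam) hε.le
  obtain ⟨s, hs, hT⟩ := hTUG y lam (ε / 2) (by positivity)
  have hP := (eventually_all_finset s.offDiag).2 fun q hq =>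
    hF q.1 q.2 (hs _ (mem_offDiag.1 hq).1).1 (hs _ (mem_offDiag.1 hq).2.1).1
      (hs _ (mem_offDiag.1 hq).1).2 (hs _ (mem_offDiag.1 hq).2.1).2 (mem_offDiag.1 hq).2.2
      η' (1 / ((s.card : ℝ) + 1) ^ 3) hη' (by positivity)
  filter_upwards [hT, hP] with M hM hM'
  filter_upwards [(eventually_all_finset s.offDiag).2 hM', eventually_gt_atTop 0] with x hx hx0
  have key := count_DNA M l lam s (s.offDiag.biUnion fun q => (Icc 1 M).filter fun t =>
      η' * x ≤ ∑ p ∈ ((Ioc 0 x).filter Nat.Prime).filter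
        (fun p => bad (q.1 * t) p ∧ bad (q.2 * t) p), Real.log p)
    (fun T => η * x ≤ ∑ p ∈ ((Ioc 0 x).filter Nat.Prime).filter (bad T), Real.log p)
    (fun c hc => (hs c hc).1.pos) fun t ht he => not_lt.1 fun hlt => by
      obtain ⟨c, hc, c', hc', hne, h⟩ := hI x _ _ (fun p => Real.log p) (fun c => bad (c * t))
        (by exact_mod_cast hx0) (fun p => Real.log_natCast_nonneg p) (theta_DNA x) hlt
        fun c hc => (mem_filter.1 hc).2
      exact he (mem_biUnion.2 ⟨(c, c'), mem_offDiag.2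
        ⟨(mem_filter.1 hc).1, (mem_filter.1 hc').1, hne⟩, mem_filter.2 ⟨ht, h⟩⟩)
  have hE : (((s.offDiag.biUnion fun q => (Icc 1 M).filter fun t =>
      η' * x ≤ ∑ p ∈ ((Ioc 0 x).filter Nat.Prime).filter
        (fun p => bad (q.1 * t) p ∧ bad (q.2 * t) p), Real.log p).card : ℕ) : ℝ) ≤
      (s.card : ℝ) ^ 2 * (1 / ((s.card : ℝ) + 1) ^ 3 * M) := by
    refine (Nat.cast_le.2 card_biUnion_le).trans ?_
    rw [Nat.cast_sum]
    refine (sum_le_card_nsmul _ _ (1 / ((s.card : ℝ) + 1) ^ 3 * M) fun q hq => ?_).trans ?_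
    · refine le_trans (Nat.cast_le.2 (card_le_card fun t ht => ?_)) (hx q hq)
      refine mem_filter.2 ⟨(mem_filter.1 ht).1, (mem_filter.1 ht).2.trans (le_of_eq ?_)⟩
      exact sum_congr (by ext p; simp only [mem_filter]) fun _ _ => rfl
    rw [nsmul_eq_mul]
    refine mul_le_mul_of_nonneg_right ?_ (by positivity)
    rw [offDiag_card, sq]
    exact_mod_cast Nat.sub_le _ _
  have key' := (Nat.cast_le (α := ℝ)).2 key
  push_cast at key'
  have h1 : (s.card : ℝ) * ((s.card : ℝ) ^ 2 * (1 / ((s.card : ℝ) + 1) ^ 3 * M)) ≤ M := by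
    rw [← mul_assoc, ← mul_assoc, ← pow_succ', mul_one_div]
    refine mul_le_of_le_one_left M.cast_nonneg ((div_le_one (by positivity)).2 ?_)
    exact pow_le_pow_left₀ s.card.cast_nonneg (by linarith) 3
  have h2 := mul_le_mul_of_nonneg_left hE (s.card.cast_nonneg (α := ℝ))
  have h3 := mul_le_mul_of_nonneg_left hM hl0.le
  have h4 := mul_le_mul_of_nonneg_right hlam (M.cast_nonneg (α := ℝ))
  refine le_of_mul_le_mul_left (key'.trans ?_) hl0
  linarith

end Pool.Agent.MP_3e91a1_nt.GN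

end

section

/-! The difference of two determinants. -/

set_option autoImplicit false

open Finset

namespace Pool.Agent.MP_3e91a1_nt.GN

open TR

theorem prod_DDF {F S ι : Type} [CommRing F] [CommRing S] [Algebra F S] (W H : Submodule F S)
    (hW : 1 ∈ W) (hH : 1 ∈ H) (a w : ι → S) (ha : ∀ i, a i ∈ H) (hw : ∀ i, w i ∈ W)
    (s : Finset ι) : ∏ i ∈ s, a i ∈ H ^ s.card ∧
      ∏ i ∈ s, (a i + w i) - ∏ i ∈ s, a i ∈ W ^ s.card * H ^ (s.card - 1) := by
  induction s using Finset.cons_induction with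
  | empty => exact ⟨by simp [Submodule.one_le.1 le_rfl], by simp⟩
  | cons j s hj ih =>
    obtain ⟨h1, h2⟩ := ih
    rw [prod_cons, prod_cons, card_cons, Nat.add_sub_cancel]
    refine ⟨by rw [pow_succ']; exact Submodule.mul_mem_mul (ha j) h1, ?_⟩
    have h3 : w j * ∏ i ∈ s, a i ∈ W ^ (s.card + 1) * H ^ s.card := by
      have h4 : w j * 1 ^ s.card ∈ W ^ (s.card + 1) := by
        rw [pow_succ']
        exact Submodule.mul_mem_mul (hw j) (Submodule.pow_mem_pow W hW _)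
      rw [one_pow, mul_one] at h4
      exact Submodule.mul_mem_mul h4 h1
    have e : (a j + w j) * ∏ i ∈ s, (a i + w i) - a j * ∏ i ∈ s, a i =
        (1 * a j + w j * 1) * (∏ i ∈ s, (a i + w i) - ∏ i ∈ s, a i) + w j * ∏ i ∈ s, a i := by
      ring
    rw [e]
    refine Submodule.add_mem _ ?_ h3
    rcases s.eq_empty_or_nonempty with rfl | hs
    · simp
    · have h5 : 1 * a j + w j * 1 ∈ W * H :=
        Submodule.add_mem _ (Submodule.mul_mem_mul hW (ha j)) (Submodule.mul_mem_mul (hw j) hH)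
      have h6 := Submodule.mul_mem_mul h5 h2
      obtain ⟨t, ht⟩ := Nat.exists_eq_succ_of_ne_zero hs.card_pos.ne'
      rw [ht] at h6 ⊢
      have e' : W * H * (W ^ t.succ * H ^ (t.succ - 1)) = W ^ (t.succ + 1) * H ^ t.succ := by
        rw [Nat.succ_sub_one, pow_succ' W t.succ, pow_succ' H t, mul_mul_mul_comm]
      rwa [e'] at h6

theorem DDF_pf : DDF_st := by
  intro F S _ _ _ m a w W H hW hH ha hw
  rw [Matrix.det_apply, Matrix.det_apply, ← Finset.sum_sub_distrib]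
  refine Submodule.sum_mem _ fun σ _ => ?_
  have h := (prod_DDF W H hW hH (fun i => a (σ i) i) (fun i => w (σ i) i) (fun i => ha _ _)
    (fun i => hw _ _) univ).2
  rw [card_univ, Fintype.card_fin] at h
  rw [← smul_sub, Units.smul_def]
  exact zsmul_mem h _

end Pool.Agent.MP_3e91a1_nt.GN

end

section

set_option autoImplicit false

open Finset Polynomial

namespace Pool.Agent.MP_3e91a1_nt.GN

open TR

lemma map_EQN {m : ℕ} (r : Fin m → ℤ) {U S : Type} [CommRing U] [CommRing S] (φ : U →+* S)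
    (T : U) : (fp r T).map φ = fp r (φ T) := by
  simp [fp, Polynomial.map_prod]

lemma tay_EQN {U S : Type} [CommRing U] [CommRing S] (φ : U →+* S) (f : U[X]) (a : U) (y : S) :
    (f.map φ).eval (φ a + y) = (f.map φ).eval (φ a) + (derivative (f.map φ)).eval (φ a) * y +
      y ^ 2 * eval₂ φ y (taylor a f).divX.divX := by
  have h1 := X_mul_divX_add (taylor a f)
  have h2 := X_mul_divX_add (taylor a f).divX
  have h3 : eval₂ φ y (taylor a f) = (f.map φ).eval (φ a + y) := by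
    rw [taylor_apply, eval₂_comp, eval_map]
    simp [add_comm]
  have h4 := congrArg (eval₂ φ y) h1
  have h5 := congrArg (eval₂ φ y) h2
  rw [h3] at h4
  rw [coeff_divX, zero_add, taylor_coeff_one] at h5
  rw [taylor_coeff_zero] at h4
  simp only [eval₂_add, eval₂_mul, eval₂_X, eval₂_C] at h4 h5
  rw [derivative_map, eval_map φ (φ a), eval_map φ (φ a), eval₂_at_apply, eval₂_at_apply,
    ← h4, ← h5]
  ring

theorem EQN_pf : EQN_st := by
  intro m r
  let x : Fin 4 → MvPolynomial (Fin 4) ℤ := MvPolynomial.X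
  refine ⟨-((taylor (x 1) (fp r (x 0))).divX.divX.comp (C (x 2) * X)),
    -(C (x 3) * ∏ i, (C (x 1) + C (x 2) * X - C (r i : MvPolynomial (Fin 4) ℤ))),
    fun S _ T a Δ γ z W h0 h1 => ?_⟩
  set φ := MvPolynomial.eval₂Hom (Int.castRingHom S) ![T, a, Δ, γ] with hφ
  have e0 : φ (x 0) = T := by simp [hφ, x]
  have e1 : φ (x 1) = a := by simp [hφ, x]
  have e2 : φ (x 2) = Δ := by simp [hφ, x]
  have e3 : φ (x 3) = γ := by simp [hφ, x]
  have h := tay_EQN φ (fp r (x 0)) (x 1) (Δ * W)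
  rw [map_EQN, e0, e1, h1] at h
  have h2 : ∀ x : S, (fp r T).eval x = (∏ i, (x - r i)) * (x + T) - 1 := fun x => by
    simp [fp, eval_prod]
  rw [h2, h2, h0] at h
  rw [eval₂_neg, eval₂_neg, eval₂_comp, eval₂_mul, eval₂_mul, eval₂_finset_prod]
  simp only [eval₂_sub, eval₂_add, eval₂_mul, eval₂_C, eval₂_X]
  simp only [e1, e2, e3, map_intCast]
  linear_combination h

end Pool.Agent.MP_3e91a1_nt.GN

end

section

set_option autoImplicit false

open Finset Filter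

noncomputable section

namespace Pool.Agent.MP_3e91a1_nt.GN

open TR

theorem log_small_FEG (n : ℕ) (A ε : ℝ) (hA : 0 < A) (hε : 0 < ε) :
    ∀ᶠ M : ℕ in atTop, A * Real.log M ^ n ≤ ε * M := by
  have h := (Real.isLittleO_pow_log_id_atTop (n := n)).bound (div_pos hε hA)
  have h2 := tendsto_natCast_atTop_atTop (R := ℝ) |>.eventually h
  filter_upwards [h2] with M hM
  have h3 : Real.log M ^ n ≤ ε / A * M := by
    refine (le_abs_self _).trans ?_
    have : ‖(id (M : ℝ))‖ = M := by simp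
    rw [this, Real.norm_eq_abs] at hM
    exact hM
  calc A * Real.log M ^ n ≤ A * (ε / A * M) := by gcongr
    _ = ε * M := by field_simp

theorem FEG_pf (hCOG : COG_st) : FEG_st := by
  intro k ν bad hk hI
  obtain ⟨C₀, hC₀, hC⟩ := hCOG k ν bad hk hI
  intro η ε hη hε
  obtain ⟨e, he⟩ : ∃ e : ℝ, e = min η 1 := ⟨_, rfl⟩
  have he0 : 0 < e := he ▸ lt_min hη one_pos
  have he1 : e ≤ 1 := he ▸ min_le_right _ _
  have heη : e ≤ η := he ▸ min_le_left _ _
  have hA : 0 < C₀ / e ^ 2 * (C₀ / e ^ 2 + 2) ^ (2 * k + 1) := by positivity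
  have hlog : ∀ᶠ M : ℕ in atTop, 1 ≤ Real.log M :=
    (Real.tendsto_log_atTop.comp tendsto_natCast_atTop_atTop).eventually_ge_atTop 1
  filter_upwards [log_small_FEG (2 * k + 1) _ ε hA hε, hlog, eventually_ge_atTop 2]
    with M hM1 hM2 hM3
  obtain ⟨K, hK⟩ : ∃ K : ℕ, K = ⌈C₀ * Real.log M / e ^ 2⌉₊ := ⟨_, rfl⟩
  have hK1 : C₀ * Real.log M ≤ e ^ 2 * K := by
    have := Nat.le_ceil (C₀ * Real.log M / e ^ 2)
    rw [← hK, div_le_iff₀ (by positivity)] at this
    linarith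
  have hK2 : (K : ℝ) + 1 ≤ (C₀ / e ^ 2 + 2) * Real.log M := by
    have h0 : 0 ≤ C₀ * Real.log M / e ^ 2 := by positivity
    have := (Nat.ceil_lt_add_one h0).le
    rw [← hK] at this
    have h3 : (C₀ / e ^ 2 + 2) * Real.log M = C₀ * Real.log M / e ^ 2 + 2 * Real.log M := by ring
    rw [h3]
    linarith
  filter_upwards [hC e M K he0 he1 hM3 hK1] with x hx
  have h1 := hx _ (fun t ht => (Finset.mem_Icc.mp (Finset.mem_filter.mp ht).1).2) fun t ht =>
    le_trans (mul_le_mul_of_nonneg_right heη (Nat.cast_nonneg _))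
      (Finset.mem_filter.mp (show t ∈ (Icc 1 M).filter _ from ht)).2
  have h2 : ∀ c : ℝ, e ^ 2 * c < C₀ * ((K : ℝ) + 1) ^ (2 * k + 1) → c ≤ ε * M := fun c hc => by
    have h3 : c ≤ C₀ / e ^ 2 * ((K : ℝ) + 1) ^ (2 * k + 1) := by
      rw [div_mul_eq_mul_div, le_div_iff₀ (by positivity)]
      linarith
    refine h3.trans (le_trans ?_ hM1)
    calc C₀ / e ^ 2 * ((K : ℝ) + 1) ^ (2 * k + 1)
        ≤ C₀ / e ^ 2 * ((C₀ / e ^ 2 + 2) * Real.log M) ^ (2 * k + 1) := by gcongr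
      _ = _ := by rw [mul_pow]; ring
  exact h2 _ h1

end Pool.Agent.MP_3e91a1_nt.GN

end
end

section

set_option autoImplicit false

open Finset PowerSeries

noncomputable section

namespace Pool.Agent.MP_3e91a1_nt.GN

open TR

lemma deriv_HEG {m : ℕ} {r : Fin m → ℤ} {S : Type} [CommRing S] {T : S} {A : Fin (m + 1) → S}
    (h : Rt r T A) (s : Fin (m + 1)) :
    Polynomial.eval (A s) (Polynomial.derivative (fp r T)) = fd A s := by
  rw [← show _ = fp r T from h]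
  have := Lagrange.eval_nodal_derivative_eval_node_eq (s := univ) (v := A) (mem_univ s)
  rw [Lagrange.eval_nodal] at this
  exact this

lemma aeval_HEG {R : Type} [CommRing R] (v : Fin 4 → R) (W : R⟦X⟧)
    (G : Polynomial (MvPolynomial (Fin 4) ℤ)) :
    Polynomial.aeval W (G.map (MvPolynomial.eval₂Hom (Int.castRingHom R) v)) =
      Polynomial.eval₂ (MvPolynomial.eval₂Hom (Int.castRingHom R⟦X⟧)
        ![C (v 0), C (v 1), C (v 2), C (v 3)]) W G := by
  rw [Polynomial.aeval_def, Polynomial.eval₂_map]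
  congr 1
  refine MvPolynomial.ringHom_ext (fun z => by simp) fun i => ?_
  fin_cases i <;> simp

lemma monic_HEG {m : ℕ} (r : Fin m → ℤ) {S : Type} [CommRing S] [IsDomain S] (T : S) :
    (fp r T).Monic ∧ (fp r T).degree = (m + 1 : ℕ) := by
  have h1 : (∏ i, (Polynomial.X - Polynomial.C (r i : S))).Monic :=
    Polynomial.monic_prod_of_monic _ _ fun i _ => Polynomial.monic_X_sub_C _
  have h2 : ((∏ i, (Polynomial.X - Polynomial.C (r i : S))) *
      (Polynomial.X + Polynomial.C T)).degree = ((m + 1 : ℕ) : WithBot ℕ) := by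
    rw [Polynomial.degree_mul, Polynomial.degree_prod, Polynomial.degree_X_add_C]
    simp only [Polynomial.degree_X_sub_C]
    simp
  have h3 : (1 : Polynomial S).degree < ((∏ i, (Polynomial.X - Polynomial.C (r i : S))) *
      (Polynomial.X + Polynomial.C T)).degree := by
    rw [h2, Polynomial.degree_one]
    exact_mod_cast Nat.succ_pos m
  exact ⟨(h1.mul (Polynomial.monic_X_add_C T)).sub_of_left h3,
    (Polynomial.degree_sub_eq_left_of_degree_lt h3).trans h2⟩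

theorem HEG_pf (hITG : ITG_st) (hEQN : EQN_st) (hFIX : FIX_st) : HEG_st := by
  intro m r R _ _ T μ a ha hne
  obtain ⟨G₁, G₂, hG⟩ := hEQN m r
  have hC : Rt r (C T : R⟦X⟧) (C ∘ a) := (hITG m r R T a ha).2.2.2.2.1 _ C
  have key : ∀ s, ∃ A : R⟦X⟧, constantCoeff A = a s ∧
      Polynomial.eval A (fp r (C T + C ((∏ s, fd a s) ^ 2 * μ) * X)) = 0 := by
    intro s
    obtain ⟨γ, hγ⟩ : ∃ γ, (∏ s, fd a s) ^ 2 * μ = fd a s ^ 2 * γ :=
      ⟨(∏ s' ∈ univ.erase s, fd a s') ^ 2 * μ, by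
        rw [← mul_prod_erase univ _ (mem_univ s)]
        ring⟩
    obtain ⟨W, hW0, hW⟩ := hFIX R
      (G₁.map (MvPolynomial.eval₂Hom (Int.castRingHom R) ![T, a s, fd a s, γ]))
      (G₂.map (MvPolynomial.eval₂Hom (Int.castRingHom R) ![T, a s, fd a s, γ]))
    rw [aeval_HEG, aeval_HEG] at hW
    have h1 := hG R⟦X⟧ (C T) (C (a s)) (C (fd a s)) (C γ) X W ((hITG m r _ _ _ hC).2.1 s)
      ((deriv_HEG hC s).trans (by simp [fd, map_prod]))
    refine ⟨C (a s) + C (fd a s) * W, by simp [hW0], ?_⟩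
    rw [hγ, map_mul, map_pow]
    refine Eq.trans ?_ (h1.trans (mul_eq_zero_of_right _ (sub_eq_zero.2 hW)))
    simp [fp, Polynomial.eval_prod]
  choose A hA0 hA using key
  refine ⟨A, hA0, ?_⟩
  have hinj : Function.Injective A := by
    intro s s' h
    by_contra hs
    refine hne (prod_eq_zero (mem_univ s) (prod_eq_zero (mem_erase.2 ⟨Ne.symm hs, mem_univ s'⟩) ?_))
    rw [← hA0, ← hA0, h, sub_self]
  obtain ⟨h1, h2⟩ := monic_HEG r (C T + C ((∏ s, fd a s) ^ 2 * μ) * X)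
  have h3 : (Lagrange.nodal univ A).degree = (m + 1 : ℕ) := by
    rw [Lagrange.degree_nodal, card_univ, Fintype.card_fin]
  refine Polynomial.eq_of_degree_le_of_eval_index_eq (f := Lagrange.nodal univ A) univ hinj.injOn
    Lagrange.degree_nodal.le (h3.trans h2.symm) (Lagrange.nodal_monic.trans h1.symm) fun s hs => ?_
  rw [hA, Lagrange.eval_nodal_at_node hs]

end Pool.Agent.MP_3e91a1_nt.GN

end
end

section

set_option autoImplicit false

open Finset MvPolynomial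

namespace Pool.Agent.MP_3e91a1_nt.GN

open TR

/-- exponent vectors in a box with one short side -/
def box_HIL {k : ℕ} (μ : Fin k → ℕ) (N : ℕ) (j : Fin k) : Finset (Fin k → ℕ) :=
  Fintype.piFinset fun i => if i = j then range (μ j) else range (N + 1)

theorem card_HIL {k : ℕ} (μ : Fin k → ℕ) (N : ℕ) (j : Fin k) :
    (box_HIL μ N j).card = μ j * (N + 1) ^ (k - 1) := by
  rw [box_HIL, Fintype.card_piFinset, ← mul_prod_erase univ _ (mem_univ j), if_pos rfl, card_range,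
    prod_congr rfl (g := fun _ => N + 1) fun i hi => by
      rw [if_neg (ne_of_mem_erase hi), card_range],
    prod_const, card_erase_of_mem (mem_univ j), card_univ, Fintype.card_fin]

theorem HIL_pf : HIL_st := by
  intro F _ k Φ hΦ
  classical
  set μ := MonomialOrder.degLex.degree Φ with hμ
  refine ⟨fun N => (univ.biUnion (box_HIL μ N)).image
    fun g => monomial (Finsupp.equivFunOnFinite.symm g) (1 : F), ?_, fun N => ⟨?_, ?_⟩⟩
  · intro M N h
    refine image_subset_image (biUnion_mono fun j _ => Fintype.piFinset_subset _ _ fun i => ?_)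
    split_ifs
    · exact Subset.rfl
    · exact range_mono (by omega)
  · refine card_image_le.trans (card_biUnion_le.trans (le_of_eq ?_))
    rw [sum_congr rfl fun j _ => card_HIL μ N j, ← sum_mul, ← degree_degLexDegree,
      Finsupp.degree_eq_sum]
  · intro f hf
    obtain ⟨q, r, h1, h2, h3⟩ := MonomialOrder.div_single (m := MonomialOrder.degLex) (b := Φ)
      (IsUnit.mk0 _ (MonomialOrder.leadingCoeff_ne_zero_iff.2 hΦ)) f
    have h4 : (Φ * q).totalDegree ≤ N := (degLex_totalDegree_monotone h2).trans hf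
    have h5 : f - q * Φ = r := by rw [h1, add_sub_cancel_left]
    have h6 : r.totalDegree ≤ N := by
      rw [← h5]
      exact (totalDegree_sub _ _).trans (max_le hf (mul_comm q Φ ▸ h4))
    refine ⟨q, ?_, ?_⟩
    · rw [h5, r.as_sum]
      refine Submodule.sum_mem _ fun c hc => ?_
      rw [show monomial c (coeff c r) = coeff c r • monomial c (1 : F) by
        rw [smul_monomial, smul_eq_mul, mul_one]]
      refine Submodule.smul_mem _ _ (Submodule.subset_span (mem_coe.2 (mem_image.2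
        ⟨c, ?_, by rw [Finsupp.equivFunOnFinite_symm_coe]⟩)))
      obtain ⟨j, hj⟩ := not_forall.1 (h3 c hc)
      refine mem_biUnion.2 ⟨j, mem_univ j, Fintype.mem_piFinset.2 fun i => ?_⟩
      split_ifs with h
      · rw [h]
        exact mem_range.2 (not_le.1 hj)
      · exact mem_range.2 (Nat.lt_succ_of_le (((degreeOf_le_iff.1 le_rfl c hc).trans
          (degreeOf_le_totalDegree r i)).trans h6))
    · by_cases hq : q = 0
      · exact Or.inl hq
      · rw [totalDegree_mul_of_isDomain hΦ hq, add_comm] at h4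
        exact Or.inr h4

end Pool.Agent.MP_3e91a1_nt.GN

end

section

/-! The roots in the ring of all algebraic integers. -/

set_option autoImplicit false

open NumberField Finset Polynomial

noncomputable section

namespace Pool.Agent.MP_3e91a1_nt.GN

open TR

theorem root_RTS (p : Zb[X]) (hp : p.Monic) (h : 0 < p.natDegree) : ∃ a : Zb, p.IsRoot a := by
  let F := AlgebraicClosure ℚ
  have hf : Function.Injective (algebraMap Zb F) := RingOfIntegers.coe_injective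
  obtain ⟨x, hx⟩ := IsAlgClosed.exists_aeval_eq_zero F p
    (natDegree_pos_iff_degree_pos.1 h).ne'
  have h1 : IsIntegral Zb x := ⟨p, hp, hx⟩
  have h2 : IsIntegral ℤ x := isIntegral_trans x h1
  obtain ⟨a, ha⟩ : ∃ a : Zb, algebraMap Zb F a = x :=
    ⟨⟨x, (mem_integralClosure_iff ℤ F).2 (by convert h2)⟩, rfl⟩
  refine ⟨a, hf ?_⟩
  rw [← ha, aeval_algebraMap_apply] at hx
  rw [map_zero, ← hx, coe_aeval_eq_eval]

theorem split_RTS (n : ℕ) : ∀ p : Zb[X], p.Monic → p.natDegree = n →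
    ∃ a : Fin n → Zb, ∏ s, (X - C (a s)) = p := by
  induction n with
  | zero => exact fun p hp h => ⟨Fin.elim0, by simp [hp.natDegree_eq_zero.1 h]⟩
  | succ n ih =>
    intro p hp h
    obtain ⟨a, ha⟩ := root_RTS p hp (by omega)
    obtain ⟨q, rfl⟩ := dvd_iff_isRoot.2 ha
    have hq : q.Monic := (monic_X_sub_C a).of_mul_monic_left hp
    rw [(monic_X_sub_C a).natDegree_mul hq, natDegree_X_sub_C] at h
    obtain ⟨b, hb⟩ := ih q hq (by omega)
    exact ⟨Fin.cons a b, by rw [Fin.prod_univ_succ, ← hb]; rfl⟩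

theorem RTS_pf : RTS_st := by
  intro m r T
  have h1 : (∏ i, (X - C (r i : Zb))).Monic := monic_prod_of_monic _ _ fun i _ => monic_X_sub_C _
  have h2 : ((∏ i, (X - C (r i : Zb))) * (X + C (T : Zb))).Monic := h1.mul (monic_X_add_C _)
  have h3 : ((∏ i, (X - C (r i : Zb))) * (X + C (T : Zb))).natDegree = m + 1 := by
    rw [h1.natDegree_mul (monic_X_add_C _), natDegree_X_add_C,
      natDegree_prod_of_monic _ _ fun i _ => monic_X_sub_C _]
    simp only [natDegree_X_sub_C, sum_const, card_univ, Fintype.card_fin, smul_eq_mul, mul_one]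
  have h4 : (1 : Zb[X]).natDegree <
      ((∏ i, (X - C (r i : Zb))) * (X + C (T : Zb))).natDegree := by
    rw [h3, natDegree_one]
    omega
  exact split_RTS (m + 1) _ (h2.sub_of_left (degree_lt_degree h4))
    ((natDegree_sub_eq_left_of_natDegree_lt h4).trans h3)

end Pool.Agent.MP_3e91a1_nt.GN

end
end

section

/-! A small generating set for a product of powers of modules. -/

set_option autoImplicit false

open Finset
open scoped Pointwise

noncomputable section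

namespace Pool.Agent.MP_3e91a1_nt.GN

open TR

section

variable {F S : Type} [CommRing F] [CommRing S] [Algebra F S]

theorem pow_le_SPF (G : Set S) (P : ℕ → Set S) (h0 : 1 ∈ P 0)
    (h : ∀ n, ∀ y ∈ P n, ∀ x ∈ G, y * x ∈ P (n + 1)) (n : ℕ) :
    Submodule.span F G ^ n ≤ Submodule.span F (P n) := by
  induction n with
  | zero =>
    rw [pow_zero, Submodule.one_eq_span]
    exact Submodule.span_mono (Set.singleton_subset_iff.2 h0)
  | succ n ih =>
    rw [pow_succ]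
    refine (mul_le_mul_left ih _).trans ?_
    rw [Submodule.span_mul_span]
    refine Submodule.span_mono ?_
    rintro _ ⟨y, hy, x, hx, rfl⟩
    exact h n y hy x hx

theorem mono_SPF {M : Submodule F S} (h1 : (1 : S) ∈ M) {a b : ℕ} (h : a ≤ b) {x : S}
    (hx : x ∈ M ^ a) : x ∈ M ^ b := by
  induction b, h using Nat.le_induction with
  | base => exact hx
  | succ b _ ih => simpa [pow_succ] using Submodule.mul_mem_mul ih h1

theorem prod_SPF {ι : Type} {M : Submodule F S} (s : Finset ι) (f : ι → S) (e : ι → ℕ)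
    (h : ∀ i ∈ s, f i ∈ M ^ e i) : ∏ i ∈ s, f i ∈ M ^ ∑ i ∈ s, e i := by
  classical
  induction s using Finset.induction_on with
  | empty => simpa using Submodule.one_le.1 (le_refl (1 : Submodule F S))
  | insert a s ha ih =>
    rw [prod_insert ha, sum_insert ha, pow_add]
    exact Submodule.mul_mem_mul (h a (mem_insert_self _ _))
      (ih fun i hi => h i (mem_insert_of_mem hi))

theorem deg_SPF {ι : Type} {M : Submodule F S} (h1 : (1 : S) ∈ M) {v : ι → S} (hv : ∀ i, v i ∈ M)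
    {P : MvPolynomial ι ℤ} {m : ℕ} (hP : P.totalDegree ≤ m) : MvPolynomial.aeval v P ∈ M ^ m := by
  rw [MvPolynomial.aeval_def, MvPolynomial.eval₂_eq]
  refine Submodule.sum_mem _ fun d hd => ?_
  rw [eq_intCast, ← zsmul_eq_mul]
  exact zsmul_mem (mono_SPF h1 ((MvPolynomial.le_totalDegree hd).trans hP)
    (prod_SPF _ _ _ fun i _ => Submodule.pow_mem_pow M (hv i) _)) _

end

theorem SPF_pf (hRDG : RDG_st) : SPF_st := by
  classical
  intro m r c c'
  refine ⟨(m + 1) ^ (m + 1 + (m + 1)), fun F S _ _ _ B N τ θ A A' hA hA' => ⟨fun P hP => ?_, ?_⟩⟩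
  · have h1 : (1 : S) ∈ Submodule.span F (insert 1 (Set.range (gg τ A A'))) :=
      Submodule.subset_span (Set.mem_insert _ _)
    have h2 : ∀ o, gg τ A A' o ∈ Submodule.span F (insert 1 (Set.range (gg τ A A'))) := fun o =>
      Submodule.subset_span (Set.mem_insert_of_mem _ ⟨o, rfl⟩)
    refine ⟨deg_SPF h1 (fun o => ?_) hP, deg_SPF h1 (fun o => ?_) hP⟩ <;> rcases o with _ | i
    exacts [h2 none, h2 (some (.inl i)), h2 none, h2 (some (.inr i))]
  refine ⟨(univ.image fun q : Fin (B + 1) × (Fin (m + 1) ⊕ Fin (m + 1) → Fin (m + 1)) =>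
    τ ^ (q.1 : ℕ) * ∏ i, Sum.elim A A' i ^ (q.2 i : ℕ)) * (range (N + 1)).image (θ ^ ·), ?_, ?_⟩
  · refine card_mul_le.trans (Nat.mul_le_mul (card_image_le.trans (le_of_eq ?_))
      (card_image_le.trans (card_range _).le))
    simp [mul_comm]
  rw [coe_mul, ← Submodule.span_mul_span]
  refine mul_le_mul' ((pow_le_SPF _
    (fun n => {p | ∃ α : Vr m → ℕ, ∑ i, α i ≤ n ∧ p = ∏ i, gg τ A A' i ^ α i})
    ⟨0, by simp, by simp⟩ ?_ B).trans (Submodule.span_le.2 ?_))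
    ((pow_le_SPF _ (fun n => {p | ∃ i ≤ n, p = θ ^ i}) ⟨0, le_rfl, by simp⟩ ?_ N).trans
      (Submodule.span_mono ?_))
  · rintro n _ ⟨α, hα, rfl⟩ x (rfl | ⟨j, rfl⟩)
    · exact ⟨α, by omega, mul_one _⟩
    · refine ⟨α + Pi.single j 1, ?_, ?_⟩
      · simp only [Pi.add_apply, sum_add_distrib, sum_pi_single', mem_univ, if_true]
        omega
      · simp only [Pi.add_apply, pow_add, prod_mul_distrib]
        congr 1
        rw [prod_eq_single j (fun i _ hi => by simp [hi]) (by simp)]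
        simp
  · rintro _ ⟨α, hα, rfl⟩
    obtain ⟨u, hu⟩ := hRDG m r c c' B α hα
    rw [hu S τ A A' hA hA']
    refine Submodule.sum_mem _ fun q _ => ?_
    rw [← zsmul_eq_mul]
    exact zsmul_mem (Submodule.subset_span (mem_coe.2 (mem_image.2 ⟨q, mem_univ _, rfl⟩))) _
  · rintro n _ ⟨i, hi, rfl⟩ x (rfl | rfl)
    · exact ⟨i, by omega, mul_one _⟩
    · exact ⟨i + 1, by omega, (pow_succ _ _).symm⟩
  · rintro _ ⟨i, hi, rfl⟩
    exact mem_coe.2 (mem_image.2 ⟨i, mem_range.2 (by omega), rfl⟩)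

end Pool.Agent.MP_3e91a1_nt.GN

end
end

section

/-! A small generating set from one relation. -/

set_option autoImplicit false

noncomputable section

namespace Pool.Agent.MP_3e91a1_nt.GN

open TR

variable {F S : Type} [Field F] [CommRing S] [Algebra F S]

theorem mono_SPG {W : Submodule F S} (h1 : (1 : S) ∈ W) {a b : ℕ} (h : a ≤ b) : W ^ a ≤ W ^ b :=
  pow_le_pow_right' (Submodule.one_le.2 h1) h

theorem prod_SPG {ι : Type} {W : Submodule F S} (s : Finset ι) (v : ι → S) (e : ι → ℕ)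
    (h : ∀ i, v i ∈ W) : ∏ i ∈ s, v i ^ e i ∈ W ^ ∑ i ∈ s, e i := by
  classical
  induction s using Finset.induction_on with
  | empty => simpa using Submodule.one_le.1 (le_refl (1 : Submodule F S))
  | insert a s ha ih =>
    rw [Finset.prod_insert ha, Finset.sum_insert ha, pow_add]
    exact Submodule.mul_mem_mul (Submodule.pow_mem_pow W (h a) _) ih

theorem deg_SPG {k : ℕ} {W : Submodule F S} (h1 : (1 : S) ∈ W) {x : Fin k → S} (hx : ∀ i, x i ∈ W)
    {f : MvPolynomial (Fin k) F} {n : ℕ} (hf : f.totalDegree ≤ n) :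
    MvPolynomial.aeval x f ∈ W ^ n := by
  rw [MvPolynomial.aeval_def, MvPolynomial.eval₂_eq]
  refine Submodule.sum_mem _ fun d hd => ?_
  rw [← Algebra.smul_def]
  exact Submodule.smul_mem _ _ (mono_SPG h1 ((MvPolynomial.le_totalDegree hd).trans hf)
    (prod_SPG _ _ _ hx))

theorem conv_SPG {k : ℕ} (x : Fin k → S) (n : ℕ) :
    Submodule.span F (insert 1 (Set.range x)) ^ n ≤
      (MvPolynomial.restrictTotalDegree (Fin k) F n).map (MvPolynomial.aeval x).toLinearMap := by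
  have h0 : ∀ n, (1 : S) ∈
      (MvPolynomial.restrictTotalDegree (Fin k) F n).map (MvPolynomial.aeval x).toLinearMap :=
    fun n => ⟨1, (MvPolynomial.mem_restrictTotalDegree _ _ _).2 (by simp), by simp⟩
  have h1 : Submodule.span F (insert 1 (Set.range x)) ≤
      (MvPolynomial.restrictTotalDegree (Fin k) F 1).map (MvPolynomial.aeval x).toLinearMap := by
    refine Submodule.span_le.2 ?_
    rintro y (rfl | ⟨i, rfl⟩)
    · exact h0 1
    · exact ⟨MvPolynomial.X i, (MvPolynomial.mem_restrictTotalDegree _ _ _).2 (by simp), by simp⟩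
  induction n with
  | zero => rw [pow_zero]; exact Submodule.one_le.2 (h0 0)
  | succ n ih =>
    rw [pow_succ]
    refine Submodule.mul_le.2 fun a ha b hb => ?_
    obtain ⟨f, hf, rfl⟩ := ih ha
    obtain ⟨g, hg, rfl⟩ := h1 hb
    refine ⟨f * g, (MvPolynomial.mem_restrictTotalDegree _ _ _).2 ?_, by simp⟩
    exact (MvPolynomial.totalDegree_mul f g).trans
      (add_le_add ((MvPolynomial.mem_restrictTotalDegree _ _ _).1 hf)
        ((MvPolynomial.mem_restrictTotalDegree _ _ _).1 hg))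

theorem SPG_pf (hHIL : HIL_st) : SPG_st := by
  classical
  intro F S _ _ _ k m N Φ x W h0 hΦ hm h1 hx
  obtain ⟨s, hs, h⟩ := hHIL F k Φ h0
  rw [hΦ.totalDegree h0] at h
  refine ⟨(s N).image (MvPolynomial.aeval x), Finset.card_image_le.trans (h N).1, ?_⟩
  have H1 : (1 : S) ∈ Submodule.span F (insert 1 (Set.range x)) :=
    Submodule.subset_span (Set.mem_insert _ _)
  have Hx : ∀ i, x i ∈ Submodule.span F (insert 1 (Set.range x)) := fun i =>
    Submodule.subset_span (Set.mem_insert_of_mem _ ⟨i, rfl⟩)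
  have rem : ∀ n (g : MvPolynomial (Fin k) F), g ∈ Submodule.span F (s n : Set _) →
      MvPolynomial.aeval x g ∈ W ^ (m * n) *
        Submodule.span F (((s n).image (MvPolynomial.aeval x) : Finset S) : Set S) := by
    intro n g hg
    have a1 : (1 : S) ∈ W ^ (m * n) := by simpa using Submodule.pow_mem_pow W h1 (m * n)
    have a2 := Submodule.mem_map_of_mem (f := (MvPolynomial.aeval x).toLinearMap) hg
    rw [Submodule.map_span] at a2
    rw [Finset.coe_image]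
    simpa using Submodule.mul_mem_mul a1 a2
  induction N with
  | zero =>
    intro y hy
    obtain ⟨f, hf, rfl⟩ := conv_SPG x 0 hy
    obtain ⟨q, a1, a2⟩ := (h 0).2 f ((MvPolynomial.mem_restrictTotalDegree _ _ _).1 hf)
    obtain rfl : q = 0 := a2.resolve_right (by omega)
    exact rem 0 f (by simpa using a1)
  | succ n ih =>
    intro y hy
    obtain ⟨f, hf, rfl⟩ := conv_SPG x _ hy
    obtain ⟨q, a1, a2⟩ := (h (n + 1)).2 f ((MvPolynomial.mem_restrictTotalDegree _ _ _).1 hf)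
    rcases a2 with rfl | a2
    · exact rem _ f (by simpa using a1)
    have b1 := rem _ _ a1
    have b2 := Submodule.mul_mem_mul hx (deg_SPG H1 Hx (f := q) (n := n + 1 - m) (by omega))
    rw [mul_assoc, ← pow_add, show m - 1 + (n + 1 - m) = n by omega] at b2
    have b3 : W ^ m * Submodule.span F (insert 1 (Set.range x)) ^ n ≤ W ^ (m * (n + 1)) *
        Submodule.span F (((s (n + 1)).image (MvPolynomial.aeval x) : Finset S) : Set S) := by
      rw [mul_add, mul_one, add_comm, pow_add, mul_assoc]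
      refine mul_le_mul' le_rfl (ih.trans (mul_le_mul' le_rfl (Submodule.span_mono ?_)))
      exact Finset.coe_subset.2 (Finset.image_subset_image (hs (Nat.le_succ n)))
    have b4 := add_mem b1 (b3 b2)
    rw [← map_mul, ← map_add, show f - q * Φ + Φ * q = f by ring] at b4
    exact b4

end Pool.Agent.MP_3e91a1_nt.GN

end
end

section

set_option autoImplicit false

open Finset PowerSeries

noncomputable section

namespace Pool.Agent.MP_3e91a1_nt.TR

/-- a weighted norm of the first `n` coefficients -/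
def N_SZB (n : ℕ) (r : ℝ) (S : ℂ⟦X⟧) : ℝ := ∑ k ∈ range n, ‖coeff k S‖ * r ^ k

variable {n : ℕ} {r : ℝ}

theorem nn_SZB (hr : 0 ≤ r) (S : ℂ⟦X⟧) : 0 ≤ N_SZB n r S := sum_nonneg fun _ _ => by positivity

theorem mul_SZB (hr : 0 ≤ r) {S T : ℂ⟦X⟧} {a b : ℝ} (ha : N_SZB n r S ≤ a) (hb : N_SZB n r T ≤ b) :
    N_SZB n r (S * T) ≤ a * b := by
  refine le_trans ?_ (mul_le_mul ha hb (nn_SZB hr T) ((nn_SZB hr S).trans ha))
  unfold N_SZB
  rw [sum_mul_sum, ← sum_product']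
  refine le_trans ?_ (sum_fiberwise_le_sum_of_sum_fiber_nonneg (t := range n)
    (g := fun x : ℕ × ℕ => x.1 + x.2) fun _ _ => sum_nonneg fun _ _ => by positivity)
  refine sum_le_sum fun k hk => ?_
  rw [coeff_mul]
  refine (mul_le_mul_of_nonneg_right (norm_sum_le _ _) (by positivity)).trans ?_
  rw [sum_mul]
  refine le_trans (sum_le_sum fun x hx => ?_)
    (sum_le_sum_of_subset_of_nonneg (s := antidiagonal k) ?_ fun _ _ _ => by positivity)
  · rw [norm_mul, ← mem_antidiagonal.1 hx, pow_add, mul_mul_mul_comm]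
  · intro x hx
    have h1 := mem_antidiagonal.1 hx
    have h2 := mem_range.1 hk
    simp only [mem_filter, mem_product, mem_range]
    omega

theorem add_SZB (hr : 0 ≤ r) {S T : ℂ⟦X⟧} {a b : ℝ} (ha : N_SZB n r S ≤ a) (hb : N_SZB n r T ≤ b) :
    N_SZB n r (S + T) ≤ a + b := by
  refine le_trans ?_ (add_le_add ha hb)
  unfold N_SZB
  rw [← sum_add_distrib]
  refine sum_le_sum fun k _ => ?_
  rw [map_add, ← add_mul]
  exact mul_le_mul_of_nonneg_right (norm_add_le _ _) (by positivity)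

theorem C_SZB (t : ℂ) : N_SZB n r (C t) ≤ ‖t‖ := by
  unfold N_SZB
  rcases n with _ | n
  · simp
  · rw [sum_range_succ']
    simp [coeff_C]

theorem one_SZB : N_SZB n r 1 ≤ 1 := by simpa using C_SZB (n := n) (r := r) 1

theorem sub_SZB (hr : 0 ≤ r) {S : ℂ⟦X⟧} {a : ℝ} (ha : N_SZB n r S ≤ a) :
    N_SZB n r (S - 1) ≤ a + 1 := by
  have h := add_SZB hr ha (C_SZB (n := n) (r := r) (-1))
  simpa [sub_eq_add_neg] using h

theorem pow_SZB (hr : 0 ≤ r) {S : ℂ⟦X⟧} {a : ℝ} (ha : N_SZB n r S ≤ a) (j : ℕ) :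
    N_SZB n r (S ^ j) ≤ a ^ j := by
  induction j with
  | zero => simpa using one_SZB
  | succ j ih => rw [pow_succ, pow_succ]; exact mul_SZB hr ih ha

theorem prod_SZB (hr : 0 ≤ r) {ι : Type} (s : Finset ι) (f : ι → ℂ⟦X⟧) {a : ℝ}
    (ha : ∀ j, N_SZB n r (f j) ≤ a) : N_SZB n r (∏ j ∈ s, f j) ≤ a ^ s.card := by
  classical
  induction s using Finset.induction_on with
  | empty => simpa using one_SZB
  | insert j s hj ih =>
    rw [prod_insert hj, card_insert_of_notMem hj, pow_succ']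
    exact mul_SZB hr (ha j) ih

theorem der_SZB (hr : 0 ≤ r) {S : ℂ⟦X⟧} {a : ℝ} (ha : N_SZB n r S ≤ a) :
    N_SZB n r (X * d⁄dX ℂ S) ≤ n * a := by
  refine le_trans ?_ (mul_le_mul_of_nonneg_left ha (Nat.cast_nonneg n))
  unfold N_SZB
  rw [mul_sum]
  refine sum_le_sum fun k hk => ?_
  rcases k with _ | k
  · simp only [coeff_zero_X_mul, norm_zero, zero_mul]; positivity
  · rw [coeff_succ_X_mul, coeff_derivative, norm_mul, ← mul_assoc, mul_comm (n : ℝ)]
    have h1 : ‖((k : ℂ) + 1)‖ ≤ n := by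
      rw [← Nat.cast_succ, Complex.norm_natCast]
      exact_mod_cast (mem_range.1 hk).le
    gcongr

theorem lgs_SZB (hr : 0 ≤ r) (L : ℕ) {U V : ℂ⟦X⟧} {a b : ℝ} (ha : N_SZB n r U ≤ a)
    (hb : N_SZB n r V ≤ b) : N_SZB n r (Lgs L U V) ≤ L * (n * a * b) := by
  refine le_trans ?_ (mul_le_mul_of_nonneg_left (mul_SZB hr (der_SZB hr ha) hb) (Nat.cast_nonneg L))
  unfold N_SZB
  rw [mul_sum]
  refine sum_le_sum fun k _ => ?_
  rw [Lgs, coeff_mk]
  rcases k with _ | k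
  · simp only [Nat.div_zero, Nat.cast_zero, zero_mul, norm_zero]; positivity
  · rw [mul_assoc X, coeff_succ_X_mul, Nat.add_sub_cancel, norm_mul, Complex.norm_natCast,
      ← mul_assoc]
    have h3 : ((L / (k + 1) : ℕ) : ℝ) ≤ L := by exact_mod_cast Nat.div_le_self L (k + 1)
    gcongr

theorem SZB_pf : SZB_st := by
  refine ⟨73, fun H c c' D K L n e i m β t g hH hc hc' ht hg hL he hi hβ hm => ?_⟩
  have H0 : 0 < H := by linarith
  have H1 : 1 ≤ H := by linarith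
  have hr : (0 : ℝ) ≤ 1 / (2 * H) := by positivity
  have g2 : ∀ j, N_SZB n (1 / (2 * H)) (g j) ≤ 2 * H := by
    intro j
    have h1 : ∀ k ∈ range n, ‖coeff k (g j)‖ * (1 / (2 * H)) ^ k ≤ H * (1 / 2) ^ k := by
      intro k _
      refine (mul_le_mul_of_nonneg_right (hg j k) (by positivity)).trans (le_of_eq ?_)
      rw [pow_succ', mul_assoc, ← mul_pow]
      congr 2
      field_simp
    refine (sum_le_sum h1).trans ?_
    rw [← mul_sum, mul_comm 2]
    exact mul_le_mul_of_nonneg_left (sum_geometric_two_le n) H0.le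
  have g3 : ∀ j, N_SZB n (1 / (2 * H)) (g j) ≤ 3 * H := fun j => (g2 j).trans (by linarith)
  have g4 : ∀ j, N_SZB n (1 / (2 * H)) (g j - 1) ≤ 3 * H := fun j =>
    (sub_SZB hr (g2 j)).trans (by linarith)
  have g5 : ∀ (j) (d : ℕ), d ≤ H →
      N_SZB n (1 / (2 * H)) (g j + (d : ℂ⟦X⟧) * g 0) ≤ 3 * H ^ 2 := by
    intro j d hd
    have h1 : N_SZB n (1 / (2 * H)) (d : ℂ⟦X⟧) ≤ H := by
      rw [← map_natCast (C (R := ℂ))]
      exact (C_SZB _).trans (by rwa [Complex.norm_natCast])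
    exact (add_SZB hr (g2 j) (mul_SZB hr h1 (g2 0))).trans (by nlinarith)
  have u1 : ∀ j, N_SZB n (1 / (2 * H)) (un g j) ≤ 3 * H := by
    intro j
    fin_cases j
    exacts [g3 1, g4 1, g3 2, g4 2, g3 4, g4 4, g3 5, g4 5]
  have u2 : ∀ j, N_SZB n (1 / (2 * H)) (iv c c' g j) ≤ 3 * H * (3 * H ^ 2) := by
    intro j
    fin_cases j
    exacts [mul_SZB hr (g4 1) (g5 1 c hc), mul_SZB hr (g3 1) (g5 1 c hc),
      mul_SZB hr (g4 2) (g5 2 c hc), mul_SZB hr (g3 2) (g5 2 c hc),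
      mul_SZB hr (g4 4) (g5 4 c' hc'), mul_SZB hr (g3 4) (g5 4 c' hc'),
      mul_SZB hr (g4 5) (g5 5 c' hc'), mul_SZB hr (g3 5) (g5 5 c' hc')]
  have h3 : (1 : ℝ) ≤ n := by exact_mod_cast (by omega : 1 ≤ n)
  have h4 : (1 : ℝ) ≤ L := by exact_mod_cast Nat.pos_of_ne_zero hL
  have h5 : (1 : ℝ) ≤ n * L := one_le_mul_of_one_le_of_one_le h3 h4
  have h6 : (1 : ℝ) ≤ n * L * H ^ 9 := one_le_mul_of_one_le_of_one_le h5 (one_le_pow₀ H1)
  have u3 : ∀ j, N_SZB n (1 / (2 * H)) (Lgs L (un g j) (iv c c' g j) ^ β j) ≤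
      (n * L * H ^ 9) ^ K := by
    intro j
    have h7 : (27 : ℝ) ≤ H ^ 5 := le_trans (by norm_num) (pow_le_pow_left₀ (by norm_num) hH 5)
    have h8 : (L : ℝ) * (n * (3 * H) * (3 * H * (3 * H ^ 2))) ≤ n * L * H ^ 9 := by
      calc _ = n * L * (27 * H ^ 4) := by ring
        _ ≤ n * L * (H ^ 5 * H ^ 4) := by gcongr
        _ = _ := by ring
    exact (pow_SZB hr ((lgs_SZB hr L (u1 j) (u2 j)).trans h8) _).trans
      (pow_le_pow_right₀ h6 (hβ j))
  have h9 : 2 * H ≤ H ^ 2 := by nlinarith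
  have h10 : (1 : ℝ) ≤ H ^ 2 := one_le_pow₀ H1
  have r1 : N_SZB n (1 / (2 * H)) (row c c' L g t e i β) ≤
      (H ^ 2) ^ D * H ^ K * ((n * L * H ^ 9) ^ K) ^ 8 := by
    have h11 := prod_SZB hr univ _ u3
    rw [card_univ, Fintype.card_fin] at h11
    exact mul_SZB hr (mul_SZB hr
      ((pow_SZB hr ((g2 0).trans h9) e).trans (pow_le_pow_right₀ h10 he))
      ((pow_SZB hr ((C_SZB t).trans ht) i).trans (pow_le_pow_right₀ H1 hi))) h11
  have r2 : ‖coeff m (row c c' L g t e i β)‖ * (1 / (2 * H)) ^ m ≤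
      N_SZB n (1 / (2 * H)) (row c c' L g t e i β) :=
    single_le_sum (f := fun k => ‖coeff k (row c c' L g t e i β)‖ * (1 / (2 * H)) ^ k)
      (fun _ _ => by positivity) (mem_range.2 hm)
  have r3 : (2 * H) ^ m ≤ (H ^ 2) ^ n :=
    (pow_le_pow_left₀ (by positivity) h9 m).trans (pow_le_pow_right₀ h10 hm.le)
  calc _ = ‖coeff m (row c c' L g t e i β)‖ * (1 / (2 * H)) ^ m * (2 * H) ^ m := by
        rw [mul_assoc, ← mul_pow, one_div_mul_cancel (by positivity), one_pow, mul_one]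
    _ ≤ (H ^ 2) ^ D * H ^ K * ((n * L * H ^ 9) ^ K) ^ 8 * (H ^ 2) ^ n :=
        mul_le_mul (r2.trans r1) r3 (by positivity) (by positivity)
    _ = H ^ (2 * D + 2 * n + 73 * K) * (n * L) ^ (8 * K) := by ring
    _ ≤ H ^ (73 * (D + n + K)) * (n * L) ^ (8 * K) :=
        mul_le_mul_of_nonneg_right (pow_le_pow_right₀ H1 (by omega)) (by positivity)
    _ = _ := by rw [pow_mul]

end Pool.Agent.MP_3e91a1_nt.TR

end
end

section

set_option autoImplicit false

open Finset PowerSeries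

noncomputable section

namespace Pool.Agent.MP_3e91a1_nt.GN

open TR

theorem geo_SZH {H : ℝ} (H0 : 0 < H) (n : ℕ) {f : ℂ⟦X⟧} (hf : Geo H f) :
    N_SZB n (1 / (2 * H)) f ≤ 2 * H := by
  have h1 : ∀ k ∈ range n, ‖coeff k f‖ * (1 / (2 * H)) ^ k ≤ H * (1 / 2) ^ k := by
    intro k _
    refine (mul_le_mul_of_nonneg_right (hf k) (by positivity)).trans (le_of_eq ?_)
    rw [pow_succ', mul_assoc, ← mul_pow]
    congr 2
    field_simp
  refine (sum_le_sum h1).trans ?_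
  rw [← mul_sum, mul_comm 2]
  exact mul_le_mul_of_nonneg_left (sum_geometric_two_le n) H0.le

theorem SZH_pf : SZH_st := by
  intro ι _
  refine ⟨4 * Fintype.card ι + 2, fun H D K L n e i m β t τ U V hH ht hτ hU hV hL he hi hβ hm => ?_⟩
  have H0 : 0 < H := by linarith
  have H1 : 1 ≤ H := by linarith
  have hr : (0 : ℝ) ≤ 1 / (2 * H) := by positivity
  have h3 : (1 : ℝ) ≤ n := by exact_mod_cast (by omega : 1 ≤ n)
  have h4 : (1 : ℝ) ≤ L := by exact_mod_cast Nat.pos_of_ne_zero hL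
  have h5 : (1 : ℝ) ≤ n * L := one_le_mul_of_one_le_of_one_le h3 h4
  have h6 : (1 : ℝ) ≤ n * L * H ^ 4 := one_le_mul_of_one_le_of_one_le h5 (one_le_pow₀ H1)
  have u3 : ∀ j, N_SZB n (1 / (2 * H)) (Lgs L (U j) (V j) ^ β j) ≤ (n * L * H ^ 4) ^ K := by
    intro j
    have h7 : (4 : ℝ) ≤ H ^ 2 := by nlinarith
    have h8 : (L : ℝ) * (n * (2 * H) * (2 * H)) ≤ n * L * H ^ 4 := by
      calc _ = n * L * (4 * H ^ 2) := by ring
        _ ≤ n * L * (H ^ 2 * H ^ 2) := by gcongr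
        _ = _ := by ring
    exact (pow_SZB hr ((lgs_SZB hr L (geo_SZH H0 n (hU j)) (geo_SZH H0 n (hV j))).trans h8) _).trans
      (pow_le_pow_right₀ h6 (hβ j))
  have h9 : 2 * H ≤ H ^ 2 := by nlinarith
  have h10 : (1 : ℝ) ≤ H ^ 2 := one_le_pow₀ H1
  have r1 : N_SZB n (1 / (2 * H)) (rog L τ t U V e i β) ≤
      (H ^ 2) ^ D * H ^ K * ((n * L * H ^ 4) ^ K) ^ Fintype.card ι := by
    have h11 := prod_SZB hr univ _ u3
    rw [card_univ] at h11
    exact mul_SZB hr (mul_SZB hr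
      ((pow_SZB hr ((geo_SZH H0 n hτ).trans h9) e).trans (pow_le_pow_right₀ h10 he))
      ((pow_SZB hr ((C_SZB t).trans ht) i).trans (pow_le_pow_right₀ H1 hi))) h11
  have r2 : ‖coeff m (rog L τ t U V e i β)‖ * (1 / (2 * H)) ^ m ≤
      N_SZB n (1 / (2 * H)) (rog L τ t U V e i β) :=
    single_le_sum (f := fun k => ‖coeff k (rog L τ t U V e i β)‖ * (1 / (2 * H)) ^ k)
      (fun _ _ => by positivity) (mem_range.2 hm)
  have r3 : (2 * H) ^ m ≤ (H ^ 2) ^ n :=
    (pow_le_pow_left₀ (by positivity) h9 m).trans (pow_le_pow_right₀ h10 hm.le)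
  generalize Fintype.card ι = c at r1 ⊢
  calc _ = ‖coeff m (rog L τ t U V e i β)‖ * (1 / (2 * H)) ^ m * (2 * H) ^ m := by
        rw [mul_assoc, ← mul_pow, one_div_mul_cancel (by positivity), one_pow, mul_one]
    _ ≤ (H ^ 2) ^ D * H ^ K * ((n * L * H ^ 4) ^ K) ^ c * (H ^ 2) ^ n :=
        mul_le_mul (r2.trans r1) r3 (by positivity) (by positivity)
    _ = H ^ (2 * D + 2 * n + (4 * c + 1) * K) * (n * L) ^ (c * K) := by ring
    _ ≤ H ^ ((4 * c + 2) * (D + n + K)) * (n * L) ^ (c * K) :=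
        mul_le_mul_of_nonneg_right (pow_le_pow_right₀ H1 (by
          nlinarith [(c * D).zero_le, (c * n).zero_le])) (by positivity)
    _ = _ := by rw [pow_mul]

end Pool.Agent.MP_3e91a1_nt.GN

end
end

section

/-! Most integers have many small divisors. -/

set_option autoImplicit false

open Finset Filter

namespace Pool.Agent.MP_3e91a1_nt.TR

lemma primes_TUR (y : ℕ) {δ : ℝ} (hδ : 0 < δ) : ∃ S : Finset ℕ, (∀ p ∈ S, p.Prime ∧ y < p) ∧
    ∏ p ∈ S, (1 - (p : ℝ)⁻¹) ≤ δ := by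
  have h0 : ∀ n : ℕ, 0 ≤ Set.indicator {p : ℕ | p.Prime} (fun n : ℕ => (1 : ℝ) / n) n :=
    fun n => Set.indicator_nonneg (fun _ _ => by positivity) n
  obtain ⟨n, hn⟩ := (((not_summable_iff_tendsto_nat_atTop_of_nonneg h0).1
    not_summable_one_div_on_primes).eventually_ge_atTop (y + 1 - Real.log δ)).exists
  refine ⟨(range n).filter fun p => p.Prime ∧ y < p, fun p hp => (mem_filter.1 hp).2, ?_⟩
  have h1 : ∑ i ∈ range n, Set.indicator {p : ℕ | p.Prime} (fun n : ℕ => (1 : ℝ) / n) i ≤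
      ∑ p ∈ (range n).filter (fun p => p.Prime ∧ y < p), (p : ℝ)⁻¹ + (y + 1) := by
    have h2 : ∑ i ∈ range n, (if i < y + 1 then (1 : ℝ) else 0) ≤ y + 1 := by
      rw [sum_boole]
      have : ((range n).filter fun i => i < y + 1).card ≤ y + 1 :=
        (card_le_card fun i hi => mem_range.2 (mem_filter.1 hi).2).trans (card_range _).le
      exact_mod_cast this
    refine le_trans ?_ (add_le_add le_rfl h2)
    rw [sum_filter, ← sum_add_distrib]
    refine sum_le_sum fun i _ => ?_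
    by_cases hp : i.Prime
    · have a1 : (1 : ℝ) ≤ i := by exact_mod_cast hp.one_le
      have a2 : (i : ℝ)⁻¹ ≤ 1 := inv_le_one_of_one_le₀ a1
      rw [Set.indicator_of_mem (show i ∈ {p : ℕ | p.Prime} from hp), one_div]
      by_cases hy : y < i
      · rw [if_pos ⟨hp, hy⟩, if_neg (by omega), add_zero]
      · rw [if_neg fun h => hy h.2, if_pos (by omega), zero_add]
        exact a2
    · rw [Set.indicator_of_notMem (show i ∉ {p : ℕ | p.Prime} from hp)]
      positivity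
  calc _ ≤ ∏ p ∈ (range n).filter (fun p => p.Prime ∧ y < p), Real.exp (-(p : ℝ)⁻¹) := by
        refine prod_le_prod (fun p hp => ?_) fun p _ => Real.one_sub_le_exp_neg _
        have a1 : (1 : ℝ) ≤ p := by exact_mod_cast (mem_filter.1 hp).2.1.one_le
        linarith [inv_le_one_of_one_le₀ a1]
    _ ≤ Real.exp (Real.log δ) := by
        rw [← Real.exp_sum, sum_neg_distrib]
        exact Real.exp_le_exp.2 (by linarith)
    _ = δ := Real.exp_log hδ

lemma cop_TUR {S : Finset ℕ} (hS : ∀ p ∈ S, p.Prime) {δ : ℝ}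
    (h : ∏ p ∈ S, (1 - (p : ℝ)⁻¹) ≤ δ) (hδ : 0 ≤ δ) {M : ℕ} (hM : ∏ p ∈ S, p ≤ M) :
    (((Icc 1 M).filter fun T => ∀ p ∈ S, ¬ p ∣ T).card : ℝ) ≤ 2 * δ * M := by
  set Q := ∏ p ∈ S, p with hQ
  have Q0 : 0 < Q := prod_pos fun p hp => (hS p hp).pos
  have h1 : ((Icc 1 M).filter fun T => ∀ p ∈ S, ¬ p ∣ T).card ≤ Q.totient * (M / Q + 1) := by
    refine le_trans (card_le_card fun T hT => ?_) (Nat.Ico_filter_coprime_le 1 M Q0.ne')
    obtain ⟨a1, a2⟩ := mem_filter.1 hT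
    have := mem_Icc.1 a1
    exact mem_filter.2 ⟨mem_Ico.2 ⟨by omega, by omega⟩, Nat.Coprime.prod_left fun p hp =>
      (Nat.Prime.coprime_iff_not_dvd (hS p hp)).2 (a2 p hp)⟩
  have h2 : (Q.totient : ℝ) = Q * ∏ p ∈ S, (1 - (p : ℝ)⁻¹) := by
    have := congrArg (fun x : ℚ => (x : ℝ)) (Nat.totient_eq_mul_prod_factors Q)
    rw [hQ, Nat.primeFactors_prod hS] at this
    push_cast at this
    rw [hQ]
    push_cast
    exact this
  have h3 : (Q : ℝ) * (M / Q + 1 : ℕ) ≤ 2 * M := by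
    have : Q * (M / Q + 1) ≤ 2 * M := by
      have := Nat.mul_div_le M Q
      rw [mul_add]
      omega
    exact_mod_cast this
  have h4 : (Q.totient : ℝ) ≤ Q * δ := h2 ▸ mul_le_mul_of_nonneg_left h (Nat.cast_nonneg Q)
  calc _ ≤ ((Q.totient * (M / Q + 1) : ℕ) : ℝ) := by exact_mod_cast h1
    _ ≤ Q * δ * (M / Q + 1 : ℕ) := by
        rw [Nat.cast_mul]
        gcongr
    _ = δ * ((Q : ℝ) * (M / Q + 1 : ℕ)) := by ring
    _ ≤ δ * (2 * M) := by gcongr
    _ = _ := by ring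

theorem TUR_pf : TUR_st := by
  intro l
  induction l with
  | zero =>
    intro ε hε
    refine ⟨∅, by simp, Eventually.of_forall fun M => ?_⟩
    simp only [Nat.not_lt_zero, filter_false, card_empty, Nat.cast_zero]
    positivity
  | succ l ih =>
    intro ε hε
    obtain ⟨s, s0, hs⟩ := ih (ε / 2) (half_pos hε)
    obtain ⟨S, S1, S2⟩ := primes_TUR (s.sup id) (show 0 < ε / 4 by positivity)
    refine ⟨s ∪ S, fun c hc => (mem_union.1 hc).elim (s0 c) fun h => (S1 c h).1.pos, ?_⟩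
    filter_upwards [hs, eventually_ge_atTop (∏ p ∈ S, p)] with M h1 h2
    have h3 := cop_TUR (fun p hp => (S1 p hp).1) S2 (by positivity) h2
    have h4 : ((Icc 1 M).filter fun T => ((s ∪ S).filter fun c => c ∣ T).card < l + 1).card ≤
        ((Icc 1 M).filter fun T => (s.filter fun c => c ∣ T).card < l).card +
          ((Icc 1 M).filter fun T => ∀ p ∈ S, ¬ p ∣ T).card := by
      refine le_trans (card_le_card fun T hT => ?_) (card_union_le _ _)
      obtain ⟨a1, a2⟩ := mem_filter.1 hT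
      by_cases c : ∀ p ∈ S, ¬ p ∣ T
      · exact mem_union_right _ (mem_filter.2 ⟨a1, c⟩)
      push Not at c
      obtain ⟨p, p1, p2⟩ := c
      refine mem_union_left _ (mem_filter.2 ⟨a1, ?_⟩)
      have b1 : p ∉ s.filter fun c => c ∣ T := fun h =>
        absurd (le_sup (f := id) (mem_filter.1 h).1) (not_le.2 (S1 p p1).2)
      have b2 : insert p (s.filter fun c => c ∣ T) ⊆ (s ∪ S).filter fun c => c ∣ T :=
        insert_subset (mem_filter.2 ⟨mem_union_right _ p1, p2⟩)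
          (filter_subset_filter _ subset_union_left)
      have b3 := card_le_card b2
      rw [card_insert_of_notMem b1] at b3
      omega
    have h5 := (Nat.cast_le (α := ℝ)).2 h4
    rw [Nat.cast_add] at h5
    linarith

end Pool.Agent.MP_3e91a1_nt.TR

end

section

/-! The count for any property that follows from a good prime. -/

set_option autoImplicit false

open Filter NumberField Finset

namespace Pool.Agent.MP_3e91a1_nt.GN

open TR

/-- the count -/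
def CTG_st : Prop := ∀ (m : ℕ) (r : Fin m → ℤ), Function.Injective r → ∀ δ ε : ℝ, 0 < δ → 0 < ε →
  ∃ s : ℕ, ∀ᶠ M : ℕ in atTop, ∀ G : ℕ → ℕ → Prop,
    (∀ (T : ℕ) (d : Polynomial ℤ) (a : Fin (m + 1) → Zb), IsD (fun i => r i - s) d →
      (∀ i, r i + T ≠ 0) → Rt (fun i => r i - s) ((T + s : ℕ) : Zb) a →
      ∃ B : ℕ, ∀ p : ℕ, p.Prime → B < p → ¬ Bag p (T + s) (fun i => r i - s) d a → G T p) →
    ∀ᶠ x : ℕ in atTop, (Set.ncard {T : ℕ | 1 ≤ T ∧ T ≤ M ∧
      (Set.ncard {p : ℕ | p ≤ x ∧ G T p} : ℝ) < (1 - δ) * x / Real.log x} : ℝ) ≤ ε * M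

theorem few_zero {bad : ℕ → ℕ → Prop} (h : ∀ t p, ¬ bad t p) : Few1 bad := by
  classical
  intro η ε h1 h2
  refine Eventually.of_forall fun M => ?_
  filter_upwards [eventually_gt_atTop 0] with x hx
  rw [filter_eq_empty_iff.2, card_empty, Nat.cast_zero]
  · positivity
  · intro t _
    rw [filter_eq_empty_iff.2 fun p _ => h t p, sum_empty, not_le]
    positivity

theorem CTG_pf (hDSC : DSC_st) (hDNZ : DNZ_st) (hCOP : COP_st) (hRTS : RTS_st) (hDEG : DEG_st)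
    (hFEG : FEG_st) (hDAG : DAG_st) (hDSG : DSG_st) : CTG_st := by
  intro m r hr δ ε hδ hε
  have hb : ∀ i, (r i).natAbs < ∑ j, (r j).natAbs + 1 := fun i => Nat.lt_succ_of_le
    (single_le_sum (f := fun j => (r j).natAbs) (fun _ _ => Nat.zero_le _) (mem_univ i))
  generalize ∑ j, (r j).natAbs + 1 = s at hb
  have hr' : Function.Injective fun i => r i - s := fun i j h => hr (sub_left_injective h)
  obtain ⟨d, hd⟩ := hDSC m fun i => r i - s
  choose a ha using hRTS m fun i => r i - s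
  have few : Few1 fun T p => Bag p T (fun i => r i - s) d (a T) := by
    rcases m.eq_zero_or_pos with rfl | hm
    · exact few_zero fun t p ⟨_, _, _, _, ⟨i, _⟩, _⟩ => i.elim0
    obtain ⟨y, hy⟩ := hCOP d (hDNZ m _ d 0 hr' hd fun i => by have := hb i; omega)
    refine hDAG _ y fun c c' h1 h2 h3 h4 h5 => ?_
    obtain ⟨k, ν, h6, h7⟩ := hDEG m _ d c c' a hm hr' hd (hy c c' h1 h2 h3 h4 h5) h1.pos h2.pos ha
    exact hFEG k ν _ h6 h7
  refine ⟨s, ?_⟩
  filter_upwards [hDSG _ few δ ε s s hδ hε] with M hM G hG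
  exact hM G fun T hT => hG T d _ hd (fun i => by have := hb i; omega) (ha _)

end Pool.Agent.MP_3e91a1_nt.GN

end
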