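import Pool.Agent.Mg.F3e91a1.G3fdd3f
import Pool.Agent.Mg.F3e91a1.G3441b9
import Pool.Agent.Mg.F3e91a1.Gb3cda3
import Pool.Agent.Mg.F3e91a1.Ge9e02f

set_option linter.all false

section

/-! From weights to counts. -/

set_option autoImplicit false

open Finset Filter

noncomputable section

namespace Pool.Agent.MP_3e91a1_nt.GN

open TR

theorem DSG_pf : DSG_st := by
  classical
  intro bad hb δ ε a T₀ h0 h1
  have m1 := (tendsto_add_atTop_nat a).eventually (hb (δ / 2) (ε / 4) (by positivity)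
    (by positivity))
  have m2 : ∀ᶠ M : ℕ in atTop, (T₀ : ℝ) / (ε / 2) ≤ M :=
    tendsto_natCast_atTop_atTop.eventually_ge_atTop _
  filter_upwards [m1, m2, eventually_ge_atTop a] with M hM hT₀ ha G hG
  choose! B hB using hG
  have t1 : ∀ᶠ x : ℕ in atTop, 1 - δ / 4 < Chebyshev.theta x / x :=
    (Pool.Agent.MP_384f6f_nt.NW.stT.comp tendsto_natCast_atTop_atTop).eventually
      (lt_mem_nhds (by linarith))
  have t2 : ∀ᶠ x : ℕ in atTop, ∀ T ∈ Icc 1 M, Chebyshev.theta (B T) / (δ / 4) ≤ x :=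
    (eventually_all_finset _).2 fun T _ => tendsto_natCast_atTop_atTop.eventually_ge_atTop _
  filter_upwards [hM, t1, t2, eventually_ge_atTop 2] with x h2 h3 h4 h5
  have x1 : (1 : ℝ) < x := by exact_mod_cast h5
  set S := (Icc 1 (M + a)).filter fun t => δ / 2 * x ≤
    ∑ p ∈ ((Ioc 0 x).filter Nat.Prime).filter (bad t), Real.log p with hS
  have key : {T : ℕ | 1 ≤ T ∧ T ≤ M ∧
      (Set.ncard {p : ℕ | p ≤ x ∧ G T p} : ℝ) < (1 - δ) * x / Real.log x} ⊆
      ((range T₀ ∪ S.image fun t => t - a : Finset ℕ) : Set ℕ) := by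
    intro T hT
    rw [mem_coe, mem_union, mem_range, mem_image]
    refine (lt_or_ge T T₀).imp_right fun h => ⟨T + a, ?_, Nat.add_sub_cancel _ _⟩
    obtain ⟨a1, a2, h9⟩ := hT
    rw [hS, mem_filter, mem_Icc]
    refine ⟨⟨by omega, by omega⟩, ?_⟩
    have h7 : (Set.ncard {p : ℕ | p ≤ x ∧ p.Prime ∧ B T < p ∧ ¬ bad (T + a) p} : ℝ) ≤
        Set.ncard {p : ℕ | p ≤ x ∧ G T p} :=
      Nat.cast_le.2 (Set.ncard_le_ncard (fun p hp => ⟨hp.1, hB T h p hp.2.1 hp.2.2.1 hp.2.2.2⟩)
        ((Set.finite_le_nat x).subset fun p hp => hp.1))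
    have h8 := h4 T (mem_Icc.2 ⟨a1, a2⟩)
    have h10 := CC.split_FEW x (B T) (bad (T + a))
    replace h9 := lt_of_le_of_lt h7 h9
    rw [lt_div_iff₀ (Real.log_pos x1)] at h9
    rw [div_le_iff₀ (by positivity)] at h8
    rw [lt_div_iff₀ (by linarith)] at h3
    linarith
  have c1 := Set.ncard_le_ncard key (Finset.finite_toSet _)
  rw [Set.ncard_coe_finset] at c1
  have c2 := c1.trans ((card_union_le _ _).trans (add_le_add le_rfl card_image_le))
  rw [card_range] at c2
  have c3 := (Nat.cast_le (α := ℝ)).2 c2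
  have c4 : (a : ℝ) ≤ M := by exact_mod_cast ha
  have c5 := mul_le_mul_of_nonneg_left c4 h1.le
  rw [div_le_iff₀ (by positivity)] at hT₀
  push_cast at c3 h2
  linarith

end Pool.Agent.MP_3e91a1_nt.GN

end
end

section

/-! The roots of the cubic as integral power series. -/

set_option autoImplicit false

open Finset Filter PowerSeries

noncomputable section

namespace Pool.Agent.MP_3e91a1_nt.TR

theorem fix_HEN {R : Type} [CommRing R] (Φ : R⟦X⟧ → R⟦X⟧) (h0 : ∀ W, X ∣ W → X ∣ Φ W)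
    (h1 : ∀ W W', X ∣ W → X ∣ W' → ∃ Q, Φ W - Φ W' = (W - W') * (X * Q)) :
    ∃ W, X ∣ W ∧ W = Φ W := by
  let w : ℕ → R⟦X⟧ := fun k => Φ^[k] 0
  have hs : ∀ k, w (k + 1) = Φ (w k) := fun k => Function.iterate_succ_apply' Φ k 0
  have hx : ∀ k, X ∣ w k := by
    intro k
    induction k with
    | zero => exact dvd_zero _
    | succ k ih => rw [hs]; exact h0 _ ih
  have hd : ∀ k, X ^ k ∣ w (k + 1) - w k := by
    intro k
    induction k with
    | zero => simp
    | succ k ih =>
      obtain ⟨Q, hQ⟩ := h1 _ _ (hx (k + 1)) (hx k)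
      rw [hs (k + 1), hs k, ← hs k, hs k, ← hs k]
      rw [← hs k] at hQ
      rw [hQ, pow_succ]
      exact mul_dvd_mul ih (dvd_mul_right _ _)
  have hl : ∀ k l, X ^ k ∣ w (k + l) - w k := by
    intro k l
    induction l with
    | zero => simp
    | succ l ih =>
      have h2 : X ^ k ∣ w (k + l + 1) - w (k + l) :=
        (pow_dvd_pow _ (Nat.le_add_right k l)).trans (hd (k + l))
      have h3 := dvd_add h2 ih
      rwa [sub_add_sub_cancel] at h3
  let W : R⟦X⟧ := mk fun j => coeff j (w (j + 1))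
  have hW : ∀ k, X ^ k ∣ W - w k := by
    intro k
    rw [X_pow_dvd_iff]
    intro j hj
    obtain ⟨l, rfl⟩ : ∃ l, k = j + 1 + l := ⟨k - (j + 1), by omega⟩
    have h2 := X_pow_dvd_iff.1 (hl (j + 1) l) j (Nat.lt_succ_self j)
    rw [map_sub] at h2 ⊢
    rw [coeff_mk, sub_eq_zero.1 h2, sub_self]
  have hWx : X ∣ W := by
    have h2 := hW 1
    rw [pow_one] at h2
    have h3 := dvd_add h2 (hx 1)
    rwa [sub_add_cancel] at h3
  refine ⟨W, hWx, ?_⟩
  rw [← sub_eq_zero]
  ext j
  obtain ⟨Q, hQ⟩ := h1 _ _ hWx (hx (j + 1))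
  have h2 : X ^ (j + 1) ∣ W - w (j + 1 + 1) := (pow_dvd_pow _ (Nat.le_succ _)).trans (hW _)
  have h3 : X ^ (j + 1) ∣ Φ W - w (j + 1 + 1) := by
    rw [hs (j + 1), hQ]
    exact (hW _).mul_right _
  have h4 := dvd_sub h2 h3
  rw [sub_sub_sub_cancel_right] at h4
  rw [X_pow_dvd_iff.1 h4 j (Nat.lt_succ_self j), map_zero]

theorem sol_HEN {R : Type} [CommRing R] (p d g a : R⟦X⟧) : ∃ W : R⟦X⟧, X ∣ W ∧
    W = -(p * W ^ 2 + d * W ^ 3 + g * X * (a + d * W) * (a - 1 + d * W)) := by
  refine fix_HEN (fun W => -(p * W ^ 2 + d * W ^ 3 + g * X * (a + d * W) * (a - 1 + d * W))) ?_ ?_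
  · rintro _ ⟨u, rfl⟩
    exact ⟨-(p * u * (X * u) + d * u * (X * u) ^ 2 + g * (a + d * (X * u)) * (a - 1 + d * (X * u))),
      by ring⟩
  · rintro _ _ ⟨u, rfl⟩ ⟨v, rfl⟩
    exact ⟨-(p * (u + v) + d * (u * (X * u) + u * (X * v) + v * (X * v)) +
      g * d * (2 * a - 1 + d * (X * u + X * v))), by ring⟩

theorem dsc_HEN {R : Type} [CommRing R] {T a b e : R} (h : Tri T a b e) :
    ((a - b) * (a - e) * (b - e)) ^ 2 = dsc T := by
  obtain ⟨h1, h2, h3⟩ := h
  have h4 : ((a - b) * (a - e) * (b - e)) ^ 2 =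
      (a + b + e) ^ 2 * (a * b + a * e + b * e) ^ 2 - 4 * (a * b + a * e + b * e) ^ 3 -
        4 * (a + b + e) ^ 3 * (a * b * e) +
        18 * (a + b + e) * (a * b + a * e + b * e) * (a * b * e) - 27 * (a * b * e) ^ 2 := by
    ring
  rw [h4, h1, h2, h3]
  unfold dsc
  ring

theorem root_HEN {R : Type} [CommRing R] (T μ a b e : R) (h : Tri T a b e) :
    ∃ A : R⟦X⟧, constantCoeff A = a ∧
      A * (A - 1) * (A + (C T + C (dsc T ^ 2 * μ) * X)) = 1 := by
  have hd := dsc_HEN h
  obtain ⟨h1, h2, h3⟩ := h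
  obtain ⟨W, hX, hW⟩ := sol_HEN (3 * C a + C T - 1) ((C a - C b) * (C a - C e))
    (C μ * ((C a - C b) * (C a - C e) * (C b - C e) ^ 2) ^ 2) (C a)
  refine ⟨C a + (C a - C b) * (C a - C e) * W, ?_, ?_⟩
  · rw [map_add, map_mul, X_dvd_iff.1 hX, mul_zero, add_zero, constantCoeff_C]
  · have g1 := congrArg (C : R →+* R⟦X⟧) h1
    have g2 := congrArg (C : R →+* R⟦X⟧) h2
    have g3 := congrArg (C : R →+* R⟦X⟧) h3
    rw [← hd]
    simp only [map_add, map_mul, map_sub, map_neg, map_one, map_pow] at g1 g2 g3 ⊢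
    generalize (C a : R⟦X⟧) = x at *
    generalize (C b : R⟦X⟧) = y at *
    generalize (C e : R⟦X⟧) = z at *
    generalize (C T : R⟦X⟧) = t at *
    generalize (C μ : R⟦X⟧) = m at *
    linear_combination ((x - y) * (x - z)) ^ 2 * hW + g3 +
      (x ^ 2 + 2 * x * ((x - y) * (x - z) * W)) * g1 - (x + (x - y) * (x - z) * W) * g2

theorem tri_HEN {S : Type} [CommRing S] [IsDomain S] {τ A B D : S} (hAB : A ≠ B) (hAD : A ≠ D)
    (hBD : B ≠ D) (hA : A * (A - 1) * (A + τ) = 1) (hB : B * (B - 1) * (B + τ) = 1)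
    (hD : D * (D - 1) * (D + τ) = 1) : Tri τ A B D := by
  have q1 : A ^ 2 + A * B + B ^ 2 + (τ - 1) * (A + B) - τ = 0 :=
    mul_left_cancel₀ (sub_ne_zero.2 hAB) (by linear_combination hA - hB)
  have q2 : A ^ 2 + A * D + D ^ 2 + (τ - 1) * (A + D) - τ = 0 :=
    mul_left_cancel₀ (sub_ne_zero.2 hAD) (by linear_combination hA - hD)
  have q3 : A + B + D = 1 - τ :=
    mul_left_cancel₀ (sub_ne_zero.2 hBD) (by linear_combination q1 - q2)
  have q4 : A * B + A * D + B * D = -τ := by linear_combination (A + B) * q3 - q1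
  exact ⟨q3, q4, by linear_combination hA - A ^ 2 * q3 + A * q4⟩

theorem HEN_pf : HEN_st := by
  intro R _ _ T μ a b e h hd
  have h0 := dsc_HEN h
  have hab : a ≠ b := by
    rintro rfl
    exact hd (by rw [← h0]; ring)
  have hae : a ≠ e := by
    rintro rfl
    exact hd (by rw [← h0]; ring)
  have hbe : b ≠ e := by
    rintro rfl
    exact hd (by rw [← h0]; ring)
  obtain ⟨A, a1, a2⟩ := root_HEN T μ a b e h
  obtain ⟨B, b1, b2⟩ := root_HEN T μ b a e
    ⟨by linear_combination h.1, by linear_combination h.2.1, by linear_combination h.2.2⟩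
  obtain ⟨D, d1, d2⟩ := root_HEN T μ e a b
    ⟨by linear_combination h.1, by linear_combination h.2.1, by linear_combination h.2.2⟩
  refine ⟨A, B, D, a1, b1, d1, tri_HEN ?_ ?_ ?_ a2 b2 d2⟩
  · rintro rfl
    exact hab (a1.symm.trans b1)
  · rintro rfl
    exact hae (a1.symm.trans d1)
  · rintro rfl
    exact hbe (b1.symm.trans d1)

end Pool.Agent.MP_3e91a1_nt.TR

end
end

section

/-! A fixed point in the power series. -/

set_option autoImplicit false

noncomputable section

namespace Pool.Agent.MP_3e91a1_nt.GN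

open TR

theorem dvd_FIX {R S : Type} [CommRing R] [CommRing S] [Algebra R S] (H : Polynomial R)
    (a b : S) : a - b ∣ Polynomial.aeval a H - Polynomial.aeval b H := by
  have h := Polynomial.sub_dvd_eval_sub a b (H.map (algebraMap R S))
  rwa [Polynomial.eval_map_algebraMap, Polynomial.eval_map_algebraMap] at h

theorem FIX_pf : FIX_st := by
  intro R _ H₁ H₂
  obtain ⟨W, h1, h2⟩ := fix_HEN (fun W : PowerSeries R =>
    W ^ 2 * Polynomial.aeval W H₁ + PowerSeries.X * Polynomial.aeval W H₂)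
    (fun W hW => dvd_add ((dvd_pow hW two_ne_zero).mul_right _) (dvd_mul_right _ _))
    (fun W W' hW hW' => by
      obtain ⟨a, ha⟩ := dvd_FIX H₁ W W'
      obtain ⟨b, hb⟩ := dvd_FIX H₂ W W'
      obtain ⟨u, hu⟩ := hW
      obtain ⟨v, hv⟩ := hW'
      refine ⟨(u + v) * Polynomial.aeval W H₁ + v * W' * a + b, ?_⟩
      linear_combination W' ^ 2 * ha + PowerSeries.X * hb +
        (W - W') * Polynomial.aeval W H₁ * (hu + hv) + (W - W') * W' * a * hv)
  exact ⟨W, PowerSeries.X_dvd_iff.1 h1, h2⟩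

end Pool.Agent.MP_3e91a1_nt.GN

end
end

section

/-! A function without poles is constant. -/

set_option autoImplicit false

open Finset Polynomial

noncomputable section

namespace Pool.Agent.MP_3e91a1_nt.GN

open TR

theorem map_LIO {m : ℕ} (r : Fin m → ℤ) {S S' : Type} [CommRing S] [CommRing S'] (f : S →+* S')
    (T : S) : (fp r T).map f = fp r (f T) := by
  simp [fp, Polynomial.map_prod]

theorem rng_LIO {F : Type} [Field F] (x : LaurentSeries F) :
    x ∈ Set.range (HahnSeries.ofPowerSeries ℤ F) ↔ ∀ k < 0, x.coeff k = 0 := by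
  constructor
  · rintro ⟨y, rfl⟩ k hk
    rw [PowerSeries.coeff_coe, if_pos hk]
  · intro h
    refine ⟨PowerSeries.mk fun n => x.coeff n, ?_⟩
    ext k
    rw [PowerSeries.coeff_coe]
    split_ifs with hk
    · exact (h k hk).symm
    · rw [PowerSeries.coeff_mk, Int.natAbs_of_nonneg (not_lt.1 hk)]

theorem cof_LIO {F : Type} [Field F] (q : F[X]) (n : ℕ) :
    (aeval (ti F) q).coeff (-(n : ℤ)) = q.coeff n := by
  induction q using Polynomial.induction_on' with
  | add p q hp hq => rw [map_add, HahnSeries.coeff_add, hp, hq, coeff_add]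
  | monomial k a =>
    rw [aeval_monomial, LaurentSeries.algebraMap_apply, ti, HahnSeries.single_pow,
      HahnSeries.C_apply, HahnSeries.single_mul_single, coeff_monomial, HahnSeries.coeff_single]
    simp [eq_comm]

theorem cst_LIO {F : Type} [Field F] (q : F[X])
    (h : aeval (ti F) q ∈ Set.range (HahnSeries.ofPowerSeries ℤ F)) : q = C (q.coeff 0) := by
  ext n
  rcases n with _ | n
  · simp
  · rw [coeff_C_succ, ← cof_LIO]
    exact (rng_LIO _).1 h _ (by omega)

theorem nrm_LIO {F E : Type} [Field F] [Field E] [Algebra F E] {m : ℕ} {r : Fin m → ℤ}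
    {c c' : ℕ} {τ : E} {A A' : Fin (m + 1) → E} (h : Gn F r c c' τ A A') :
    Normal (IntermediateField.adjoin F {τ}) E := by
  obtain ⟨-, h1, h2, h3⟩ := h
  let K := IntermediateField.adjoin F {τ}
  let t : K := IntermediateField.AdjoinSimple.gen F τ
  have e : (fp r (c * t) * fp r (c' * t)).map (algebraMap K E) =
      (∏ s, (X - C (A s))) * ∏ s, (X - C (A' s)) := by
    rw [Polynomial.map_mul, map_LIO, map_LIO, map_mul, map_mul, map_natCast, map_natCast, h1, h2]
    rfl
  have m0 : (∏ s, (X - C (A s))) * ∏ s, (X - C (A' s)) ≠ (0 : E[X]) :=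
    ((monic_prod_X_sub_C _ _).mul (monic_prod_X_sub_C _ _)).ne_zero
  have : IsSplittingField K E (fp r (c * t) * fp r (c' * t)) := by
    rw [isSplittingField_iff_intermediateField, e]
    refine ⟨(Splits.prod fun s _ => Splits.X_sub_C _).mul (Splits.prod fun s _ => Splits.X_sub_C _),
      ?_⟩
    rw [← IntermediateField.restrictScalars_eq_top_iff (K := F), eq_top_iff, ← h3,
      IntermediateField.adjoin_le_iff]
    rintro _ ⟨o, rfl⟩
    rcases o with _ | s | s
    · exact IntermediateField.algebraMap_mem (IntermediateField.adjoin K _) t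
    · refine IntermediateField.subset_adjoin K _ (mem_rootSet'.2 ⟨e ▸ m0, ?_⟩)
      rw [aeval_def, eval₂_eq_eval_map, e, eval_mul, eval_prod,
        prod_eq_zero (mem_univ s) (by simp [gg]), zero_mul]
    · refine IntermediateField.subset_adjoin K _ (mem_rootSet'.2 ⟨e ▸ m0, ?_⟩)
      rw [aeval_def, eval₂_eq_eval_map, e, eval_mul, mul_comm, eval_prod,
        prod_eq_zero (mem_univ s) (by simp [gg]), zero_mul]
  exact Normal.of_isSplittingField (fp r (c * t) * fp r (c' * t))

theorem end_LIO {F E : Type} [Field F] [Field E] [Algebra F E] (φ : E →ₐ[F] LaurentSeries F)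
    {v : E} (hv : IsIntegral F v) (h : φ v ∈ Set.range (HahnSeries.ofPowerSeries ℤ F)) :
    ∃ a : F, v = algebraMap F E a := by
  obtain ⟨y, hy⟩ := h
  have h1 : aeval (φ v) (minpoly F v) = 0 := by rw [aeval_algHom_apply, minpoly.aeval, map_zero]
  have h2 : HahnSeries.ofPowerSeries ℤ F (aeval y (minpoly F v)) = 0 := by
    rw [← h1, ← hy, aeval_def, aeval_def, hom_eval₂]
    rfl
  have h3 : aeval y (minpoly F v) = 0 :=
    HahnSeries.ofPowerSeries_injective (h2.trans (map_zero _).symm)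
  have h4 : (minpoly F v).IsRoot (PowerSeries.constantCoeff y) := by
    have h5 := congrArg PowerSeries.constantCoeff h3
    rw [aeval_def, hom_eval₂, map_zero] at h5
    have h6 : (PowerSeries.constantCoeff (R := F)).comp (algebraMap F (PowerSeries F)) =
        RingHom.id F := RingHom.ext fun a => by simp
    rw [h6] at h5
    exact h5
  obtain ⟨a, ha⟩ := minpoly.mem_range_of_degree_eq_one F v
    (degree_eq_one_of_irreducible_of_root (minpoly.irreducible hv) h4)
  exact ⟨a, ha.symm⟩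

open scoped IntermediateField.algebraAdjoinAdjoin in
theorem LIO_pf : LIO_st := by
  intro F E _ _ _ _ m r c c' τ A A' φ₀ v hG h0 hv h
  let K := IntermediateField.adjoin F {τ}
  let R := Algebra.adjoin F {τ}
  have hN : Normal K E := nrm_LIO hG
  have : IsIntegrallyClosed R :=
    IsIntegrallyClosed.of_equiv (algEquivOfTranscendental F τ hG.1).toRingEquiv
  have hK : IsIntegral K v := hv.tower_top
  have e1 : minpoly K v = (minpoly R v).map (algebraMap R K) :=
    minpoly.isIntegrallyClosed_eq_field_fractions' K hv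
  have e2 : (minpoly K v).map (algebraMap K E) = (minpoly R v).map (algebraMap R E) := by
    rw [e1, Polynomial.map_map, ← IsScalarTower.algebraMap_eq]
  have mo : ((minpoly K v).map (algebraMap K E)).Monic := (minpoly.monic hK).map _
  have e3 := (hN.splits v).eq_prod_roots_of_monic mo
  have l1 : ((minpoly K v).map (algebraMap K E)).map (φ₀ : E →+* LaurentSeries F) ∈
      lifts (HahnSeries.ofPowerSeries ℤ F) := by
    rw [e3, Polynomial.map_multiset_prod, Multiset.map_map]
    refine Subsemiring.multiset_prod_mem _ _ fun p hp => ?_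
    obtain ⟨w, hw, rfl⟩ := Multiset.mem_map.1 hp
    obtain ⟨σ, rfl⟩ := minpoly.exists_algEquiv_of_root' hK.isAlgebraic (x := w) (by
      rw [aeval_def, eval₂_eq_eval_map]
      exact isRoot_of_mem_roots hw)
    obtain ⟨y, hy⟩ := (rng_LIO _).2 (h (φ₀.comp ((σ : E →ₐ[K] E).restrictScalars F)) (by
      rw [← h0]
      exact congrArg φ₀ (σ.commutes (IntermediateField.AdjoinSimple.gen F τ))))
    refine (mem_lifts _).2 ⟨X - C y, ?_⟩
    rw [Polynomial.map_sub, map_X, map_C, hy]
    simp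
  have l2 : (minpoly R v).map (algebraMap R E) ∈ lifts (algebraMap F E) := by
    rw [lifts_iff_coeff_lifts] at l1 ⊢
    intro n
    have h1 := l1 n
    rw [e2, coeff_map] at h1
    have h2 : ((minpoly R v).map (algebraMap R E)).coeff n ∈ (aeval (R := F) τ).range := by
      rw [coeff_map, ← Algebra.adjoin_singleton_eq_range_aeval]
      exact ((minpoly R v).coeff n).2
    obtain ⟨q, hq⟩ := h2
    have h3 : aeval τ q = ((minpoly R v).map (algebraMap R E)).coeff n := hq
    rw [← h3] at h1 ⊢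
    rw [RingHom.coe_coe, ← aeval_algHom_apply, h0] at h1
    rw [cst_LIO q h1, aeval_C]
    exact ⟨_, rfl⟩
  obtain ⟨q, q1, -, q2⟩ := lifts_and_degree_eq_and_monic l2 ((minpoly.monic hv).map _)
  refine end_LIO φ₀ ⟨q, q2, ?_⟩ ((rng_LIO _).2 (h φ₀ h0))
  rw [eval₂_eq_eval_map, q1, ← eval₂_eq_eval_map, ← aeval_def, minpoly.aeval]

end Pool.Agent.MP_3e91a1_nt.GN

end
end

section

/-! A function without poles is constant. -/

set_option autoImplicit false

open Finset Polynomial

noncomputable section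

namespace Pool.Agent.MP_3e91a1_nt.FM

open TR GN

theorem map_LIF (q : P2) {S S' : Type} [CommRing S] [CommRing S'] (φ : S →+* S') (T : S) :
    (sp q T).map φ = sp q (φ T) := by
  rw [sp, sp, Polynomial.map_map]
  congr 1
  ext <;> simp

theorem cst_LIF {F : Type} [Field F] {y : LaurentSeries F} (hy : y.order < 0) (q : F[X])
    (h : aeval y q ∈ Set.range (HahnSeries.ofPowerSeries ℤ F)) : q = C (q.coeff 0) := by
  refine eq_C_of_natDegree_eq_zero (by_contra fun h0 => ?_)
  have hq : q ≠ 0 := fun e => h0 (by rw [e, natDegree_zero])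
  obtain ⟨g, hg⟩ := h
  have h1 : IsIntegral (PowerSeries F) y := by
    refine IsIntegral.of_aeval_monic ((monic_mul_leadingCoeff_inv hq).map
      (algebraMap F (PowerSeries F))) ?_ ?_
    · rwa [natDegree_map, natDegree_mul_leadingCoeff_inv _ hq]
    · have e : aeval y ((q * C q.leadingCoeff⁻¹).map (algebraMap F (PowerSeries F))) =
          algebraMap (PowerSeries F) (LaurentSeries F)
            (g * algebraMap F (PowerSeries F) q.leadingCoeff⁻¹) := by
        rw [aeval_def, eval₂_map, eval₂_mul, eval₂_C, map_mul]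
        exact congrArg (· * _) hg.symm
      rw [e]
      exact isIntegral_algebraMap
  have h2 := (rng_LIO y).1 (IsIntegrallyClosed.isIntegral_iff.1 h1) _ hy
  rw [HahnSeries.coeff_order_eq_zero.1 h2, HahnSeries.order_zero] at hy
  exact lt_irrefl _ hy

theorem nrm_LIF {F E : Type} [Field F] [Field E] [Algebra F E] {f : P2} {n c c' : ℕ} {τ : E}
    {A A' : Fin n → E} (h : Gf F f c c' τ A A') :
    Normal (IntermediateField.adjoin F {τ}) E := by
  obtain ⟨-, h1, h2, h3⟩ := h
  let K := IntermediateField.adjoin F {τ}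
  let t : K := IntermediateField.AdjoinSimple.gen F τ
  have e : (sp f (c * t) * sp f (c' * t)).map (algebraMap K E) =
      (∏ s, (X - C (A s))) * ∏ s, (X - C (A' s)) := by
    rw [Polynomial.map_mul, map_LIF, map_LIF, map_mul, map_mul, map_natCast, map_natCast, h1, h2]
    rfl
  have m0 : (∏ s, (X - C (A s))) * ∏ s, (X - C (A' s)) ≠ (0 : E[X]) :=
    ((monic_prod_X_sub_C _ _).mul (monic_prod_X_sub_C _ _)).ne_zero
  have : IsSplittingField K E (sp f (c * t) * sp f (c' * t)) := by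
    rw [isSplittingField_iff_intermediateField, e]
    refine ⟨(Splits.prod fun s _ => Splits.X_sub_C _).mul (Splits.prod fun s _ => Splits.X_sub_C _),
      ?_⟩
    rw [← IntermediateField.restrictScalars_eq_top_iff (K := F), eq_top_iff, ← h3,
      IntermediateField.adjoin_le_iff]
    rintro _ ⟨o, rfl⟩
    rcases o with _ | s | s
    · exact IntermediateField.algebraMap_mem (IntermediateField.adjoin K _) t
    · refine IntermediateField.subset_adjoin K _ (mem_rootSet'.2 ⟨e ▸ m0, ?_⟩)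
      rw [aeval_def, eval₂_eq_eval_map, e, eval_mul, eval_prod,
        prod_eq_zero (mem_univ s) (by simp [gv]), zero_mul]
    · refine IntermediateField.subset_adjoin K _ (mem_rootSet'.2 ⟨e ▸ m0, ?_⟩)
      rw [aeval_def, eval₂_eq_eval_map, e, eval_mul, mul_comm, eval_prod,
        prod_eq_zero (mem_univ s) (by simp [gv]), zero_mul]
  exact Normal.of_isSplittingField (sp f (c * t) * sp f (c' * t))

open scoped IntermediateField.algebraAdjoinAdjoin in
theorem LIF_pf : LIF_st := by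
  intro F E _ _ _ _ f n c c' τ A A' φ₀ v hG h0 hv h
  let K := IntermediateField.adjoin F {τ}
  let R := Algebra.adjoin F {τ}
  have hN : Normal K E := nrm_LIF hG
  have : IsIntegrallyClosed R :=
    IsIntegrallyClosed.of_equiv (algEquivOfTranscendental F τ hG.1).toRingEquiv
  have hK : IsIntegral K v := hv.tower_top
  have e1 : minpoly K v = (minpoly R v).map (algebraMap R K) :=
    minpoly.isIntegrallyClosed_eq_field_fractions' K hv
  have e2 : (minpoly K v).map (algebraMap K E) = (minpoly R v).map (algebraMap R E) := by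
    rw [e1, Polynomial.map_map, ← IsScalarTower.algebraMap_eq]
  have mo : ((minpoly K v).map (algebraMap K E)).Monic := (minpoly.monic hK).map _
  have e3 := (hN.splits v).eq_prod_roots_of_monic mo
  have l1 : ((minpoly K v).map (algebraMap K E)).map (φ₀ : E →+* LaurentSeries F) ∈
      lifts (HahnSeries.ofPowerSeries ℤ F) := by
    rw [e3, Polynomial.map_multiset_prod, Multiset.map_map]
    refine Subsemiring.multiset_prod_mem _ _ fun p hp => ?_
    obtain ⟨w, hw, rfl⟩ := Multiset.mem_map.1 hp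
    obtain ⟨σ, rfl⟩ := minpoly.exists_algEquiv_of_root' hK.isAlgebraic (x := w) (by
      rw [aeval_def, eval₂_eq_eval_map]
      exact isRoot_of_mem_roots hw)
    obtain ⟨y, hy⟩ := (rng_LIO _).2 (h (φ₀.comp ((σ : E →ₐ[K] E).restrictScalars F))
      (congrArg φ₀ (σ.commutes (IntermediateField.AdjoinSimple.gen F τ))))
    refine (mem_lifts _).2 ⟨X - C y, ?_⟩
    rw [Polynomial.map_sub, map_X, map_C, hy]
    simp
  have l2 : (minpoly R v).map (algebraMap R E) ∈ lifts (algebraMap F E) := by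
    rw [lifts_iff_coeff_lifts] at l1 ⊢
    intro n
    have h1 := l1 n
    rw [e2, coeff_map] at h1
    have h2 : ((minpoly R v).map (algebraMap R E)).coeff n ∈ (aeval (R := F) τ).range := by
      rw [coeff_map, ← Algebra.adjoin_singleton_eq_range_aeval]
      exact ((minpoly R v).coeff n).2
    obtain ⟨q, hq⟩ := h2
    have h3 : aeval τ q = ((minpoly R v).map (algebraMap R E)).coeff n := hq
    rw [← h3] at h1 ⊢
    rw [RingHom.coe_coe, ← aeval_algHom_apply] at h1
    rw [cst_LIF h0 q h1, aeval_C]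
    exact ⟨_, rfl⟩
  obtain ⟨q, q1, -, q2⟩ := lifts_and_degree_eq_and_monic l2 ((minpoly.monic hv).map _)
  refine end_LIO φ₀ ⟨q, q2, ?_⟩ ((rng_LIO _).2 (h φ₀ rfl))
  rw [eval₂_eq_eval_map, q1, ← eval₂_eq_eval_map, ← aeval_def, minpoly.aeval]

end Pool.Agent.MP_3e91a1_nt.FM

end
end

section

/-! The zero estimate for arbitrary families. -/

set_option autoImplicit false

open Finset

noncomputable section

namespace Pool.Agent.MP_3e91a1_nt.FM

open TR GN

/-- the derivatives of the variables, with denominators cleared -/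
def th_ZEF (f : P2) {n : ℕ} (c c' : ℕ) {S : Type} [CommRing S] (τ : S) (A A' : Fin n → S) :
    Vs n → S := fun o => o.elim ((∏ s, fd A s) * ∏ s, fd A' s) (Sum.elim
  (fun s => -(c * ev (dT f) (c * τ) (A s) * ∏ s' ∈ univ.erase s, fd A s') * ∏ s, fd A' s)
  fun s => -(c' * ev (dT f) (c' * τ) (A' s) * ∏ s' ∈ univ.erase s, fd A' s') * ∏ s, fd A s)

/-- the logarithmic derivative of one unit -/
def lu_ZEF {n m : ℕ} (Φ : Fam m) (c : ℕ) {S : Type} [CommRing S] (τ : S) (A : Fin n → S)
    (j : Fin n × Fin m) (x y : S) : S :=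
  (ev (Polynomial.derivative (Φ.U j.2)) (c * τ) (A j.1) * x +
    ev (dT (Φ.U j.2)) (c * τ) (A j.1) * (c * y)) * ev (Φ.V j.2) (c * τ) (A j.1)

/-- the logarithmic derivatives of the selected units -/
def lw_ZEF {n m k k' : ℕ} (σ : Slc n m k) (σ' : Slc n m k') (Φ : Fam m) (c c' : ℕ) {S : Type}
    [CommRing S] (τ : S) (A A' : Fin n → S) (th : Vs n → S) : Fin k ⊕ Fin k' → S :=
  Sum.elim (fun j => lu_ZEF Φ c τ A (σ.J j) (th (some (Sum.inl (σ.J j).1))) (th none))
    fun j => lu_ZEF Φ c' τ A' (σ'.J j) (th (some (Sum.inr (σ'.J j).1))) (th none)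

theorem th_map_ZEF (hITF : ITF_st) (f : P2) {n : ℕ} (c c' : ℕ) {S S' : Type} [CommRing S]
    [CommRing S'] (φ : S →+* S') (τ : S) (A A' : Fin n → S) (o : Vs n) :
    φ (th_ZEF f c c' τ A A' o) =
      th_ZEF f c c' (φ τ) (fun s => φ (A s)) (fun s => φ (A' s)) o := by
  have h := fun q T a => (hITF.1 S S' φ q T a).2
  rcases o with _ | s | s <;> simp [th_ZEF, fd, map_prod, h]

theorem lw_map_ZEF (hITF : ITF_st) {n m k k' : ℕ} (σ : Slc n m k) (σ' : Slc n m k') (Φ : Fam m)
    (c c' : ℕ) {S S' : Type} [CommRing S] [CommRing S'] (φ : S →+* S') (τ : S) (A A' : Fin n → S)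
    (th : Vs n → S) (j : Fin k ⊕ Fin k') : φ (lw_ZEF σ σ' Φ c c' τ A A' th j) =
      lw_ZEF σ σ' Φ c c' (φ τ) (fun s => φ (A s)) (fun s => φ (A' s)) (fun o => φ (th o)) j := by
  have h := fun q T a => (hITF.1 S S' φ q T a).2
  rcases j with j | j <;> simp [lw_ZEF, lu_ZEF, h]

theorem der_ZEF (hITF : ITF_st) {F : Type} [Field F] (f : P2) {n : ℕ} (c : ℕ) {t κ : F}
    (hκ : κ ≠ 0) {τ : PowerSeries F} (hτ : τ = PowerSeries.C t + PowerSeries.C κ * PowerSeries.X)
    {A : Fin n → PowerSeries F} (hA : Rf f (c * τ) A) (y : PowerSeries F) (s : Fin n) :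
    PowerSeries.C κ⁻¹ * ((∏ s, fd A s) * y) * PowerSeries.derivative F (A s) =
      -(c * ev (dT f) (c * τ) (A s) * ∏ s' ∈ univ.erase s, fd A s') * y := by
  have hk : (PowerSeries.C κ⁻¹ * PowerSeries.C κ : PowerSeries F) = 1 := by
    rw [← map_mul, inv_mul_cancel₀ hκ, map_one]
  have e0 : PowerSeries.derivative F (c * τ) = c * PowerSeries.C κ := by
    rw [hτ]
    simp [Derivation.leibniz]
  have h := (hITF.2.2.2.2 f n _ _ A hA).2.2.2.2.2 F (PowerSeries.derivative F) s
  rw [e0] at h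
  rw [← mul_prod_erase univ (fd A) (mem_univ s)]
  linear_combination (PowerSeries.C κ⁻¹ * (∏ s' ∈ univ.erase s, fd A s') * y) * h -
    (c * ev (dT f) (c * τ) (A s) * (∏ s' ∈ univ.erase s, fd A s') * y) * hk

theorem lu_eq_ZEF (hITF : ITF_st) {F : Type} [Field F] [CharZero F] {n m : ℕ} (Φ : Fam m) (c : ℕ)
    (γ τ : PowerSeries F) (A : Fin n → PowerSeries F) (j : Fin n × Fin m) :
    γ * PowerSeries.derivative F (lgs (Φ.u (c * τ) A j) (Φ.v (c * τ) A j)) =
      lu_ZEF Φ c τ A j (γ * PowerSeries.derivative F (A j.1)) (γ * PowerSeries.derivative F τ) := by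
  have e0 : PowerSeries.derivative F (c * τ) = c * PowerSeries.derivative F τ := by
    simp [Derivation.leibniz]
  rw [dlg_IND, Fam.u, Fam.v, hITF.2.2.1 F _ (PowerSeries.derivative F), e0, lu_ZEF]
  ring

theorem ZEF_pf (hITF : ITF_st) (hNRF : NRF_st) (hZRG : ZRG_st) : ZEF_st := by
  intro n m k k' σ σ' Φ d c c' hΦ hd
  obtain ⟨ν, hν⟩ := hNRF Φ.f n c c' hΦ.1 hΦ.2.1
  obtain ⟨XA, hXA⟩ : ∃ XA : Fin n → MvPolynomial (Vs n) ℤ,
    XA = fun s => MvPolynomial.X (some (Sum.inl s)) := ⟨_, rfl⟩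
  obtain ⟨XB, hXB⟩ : ∃ XB : Fin n → MvPolynomial (Vs n) ℤ,
    XB = fun s => MvPolynomial.X (some (Sum.inr s)) := ⟨_, rfl⟩
  obtain ⟨tz, htz⟩ : ∃ tz, tz = th_ZEF Φ.f c c' (MvPolynomial.X none) XA XB := ⟨_, rfl⟩
  obtain ⟨lz, hlz⟩ : ∃ lz : Fin k ⊕ Fin k' → MvPolynomial (Vs n) ℤ,
    lz = lw_ZEF σ σ' Φ c c' (MvPolynomial.X none) XA XB tz := ⟨_, rfl⟩
  obtain ⟨h, h1, h2⟩ : ∃ h, (∀ i, (tz i).totalDegree ≤ h) ∧ ∀ j, (lz j).totalDegree ≤ h :=
    ⟨max (univ.sup fun i => (tz i).totalDegree) (univ.sup fun j => (lz j).totalDegree),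
      fun i => le_max_of_le_left (le_sup (f := fun i => (tz i).totalDegree) (mem_univ i)),
      fun j => le_max_of_le_right (le_sup (f := fun j => (lz j).totalDegree) (mem_univ j))⟩
  refine ⟨ν + (k + k' + h), ?_⟩
  intro F P _ _ _ D K N t κ τ A A' v hcop hc hc' ht hκ hτ hA hA' hPt hv hdiv
  have d0 : d ≠ 0 := by
    rintro rfl
    exact not_isCoprime_zero_zero (by simpa [Cop] using hcop)
  have evs : ∀ s, ∃ φ : MvPolynomial (Vs n) ℤ →+* PowerSeries F,
      (∀ p, MvPolynomial.aeval (gv (τ s) (A s) (A' s)) (MvPolynomial.map (Int.castRingHom F) p) =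
        φ p) ∧ φ (MvPolynomial.X none) = τ s ∧ (fun i => φ (XA i)) = A s ∧
        (fun i => φ (XB i)) = A' s := fun s =>
    ⟨(MvPolynomial.aeval (gv (τ s) (A s) (A' s))).toRingHom.comp
      (MvPolynomial.map (Int.castRingHom F)), fun _ => rfl, by simp [gv],
      by funext i; simp [hXA, gv], by funext i; simp [hXB, gv]⟩
  have key : ∀ s i, PowerSeries.C (κ s)⁻¹ * ((∏ i, fd (A s) i) * ∏ i, fd (A' s) i) *
      PowerSeries.derivative F (gv (τ s) (A s) (A' s) i) =
        th_ZEF Φ.f c c' (τ s) (A s) (A' s) i := by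
    intro s i
    rcases i with _ | i | i
    · have hk : (PowerSeries.C (κ s)⁻¹ * PowerSeries.C (κ s) : PowerSeries F) = 1 := by
        rw [← map_mul, inv_mul_cancel₀ (hκ s), map_one]
      have e0 : PowerSeries.derivative F (τ s) = PowerSeries.C (κ s) := by
        rw [hτ]
        simp [Derivation.leibniz]
      show _ * PowerSeries.derivative F (τ s) = (∏ i, fd (A s) i) * ∏ i, fd (A' s) i
      rw [e0, mul_right_comm, hk, one_mul]
    · exact der_ZEF hITF Φ.f c (hκ s) (hτ s) (hA s) _ i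
    · rw [mul_comm (∏ i, fd (A s) i)]
      exact der_ZEF hITF Φ.f c' (hκ s) (hτ s) (hA' s) _ i
  have H := hZRG F P (Vs n) (Fin k ⊕ Fin k') D K N h ν none
    (fun i => MvPolynomial.map (Int.castRingHom F) (tz i))
    (fun j => MvPolynomial.map (Int.castRingHom F) (lz j)) t
    (fun s => PowerSeries.C (κ s)⁻¹ * ((∏ i, fd (A s) i) * ∏ i, fd (A' s) i))
    (fun s => gv (τ s) (A s) (A' s))
    (fun s j => lgs (Uf σ σ' Φ (c * τ s) (c' * τ s) (A s) (A' s) j)
      (Vf σ σ' Φ (c * τ s) (c' * τ s) (A s) (A' s) j)) v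
    (fun i => (deg_ZEG _).trans (h1 i)) (fun j => (deg_ZEG _).trans (h2 j)) ht
    (fun s => by
      rw [hd _ _ _ (hA s), hd _ _ _ (hA' s), hτ s]
      exact mul_ne_zero (fun e => inv_ne_zero (hκ s) (PowerSeries.C_injective
        (e.trans (map_zero _).symm)))
        (mul_ne_zero (ne_ZEG d0 (tr_ZEG hc _ _ (hκ s))) (ne_ZEG d0 (tr_ZEG hc' _ _ (hκ s)))))
    (fun s i => by
      obtain ⟨φ, e1, e2, e3, e4⟩ := evs s
      rw [e1, htz, th_map_ZEF hITF, e2, e3, e4, key])
    (fun s j => by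
      obtain ⟨φ, e1, e2, e3, e4⟩ := evs s
      rw [e1, hlz, lw_map_ZEF hITF, e2, e3, e4, htz]
      simp only [th_map_ZEF hITF, e2, e3, e4, ← key]
      rcases j with j | j
      · exact lu_eq_ZEF hITF Φ c _ (τ s) (A s) (σ.J j)
      · exact lu_eq_ZEF hITF Φ c' _ (τ s) (A' s) (σ'.J j))
    (fun s => (hPt s).2.2)
    (fun W N Q hQ => hν F P N t κ τ A A' W Q ht hκ hτ hA hA' hQ) hv hdiv
  rw [Fintype.card_sum, Fintype.card_fin, Fintype.card_fin] at H
  have a1 : ν ≤ ν + (k + k' + h) := Nat.le_add_right _ _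
  have a2 : k + k' + h ≤ ν + (k + k' + h) := Nat.le_add_left _ _
  refine H.trans ?_
  generalize ν + (k + k' + h) = M' at *
  generalize k + k' + h = M at *
  gcongr

end Pool.Agent.MP_3e91a1_nt.FM

end
end
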