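import Pool.Agent.Mg.F3e91a1.Gc3fe55
import Pool.Agent.Mg.F3e91a1.G24f70d
import Pool.Agent.Mg.F3e91a1.G04239b
import Pool.Agent.Mg.F3e91a1.G2f4f64

set_option linter.all false

set_option autoImplicit false

open NumberField IsDedekindDomain Module Finset

namespace Pool.Agent.MP_3e91a1_nt.CC

open MP_e23604_nt MP_e23604_nt.B MP_e23604_nt.R MP_f3cd89_nt

/-- the base of the tower -/
def GD_st : Prop := ∀ (T : ℕ) (w a : Qb), 1 ≤ T → w ^ 3 + T * w + T = 0 →
  (1 + a) ^ 2 = (1 + w) * a → ∃ B : ℕ, ∀ (p r : ℕ) [Fact p.Prime] (ζ : Qb), B < p → ¬ Bad p a →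
    IsPrimitiveRoot ζ p → IsPrimitiveRoot (r : ZMod p) (p - 1) →
    Good p ζ r r (MulAction.stabilizer GQ w)

/-- the result for one prime -/
def ONC_st : Prop := ∀ (T : ℕ) (w a : Qb), 1 ≤ T → w ^ 3 + T * w + T = 0 →
  (1 + a) ^ 2 = (1 + w) * a → ∃ B : ℕ, ∀ (p : ℕ) [Fact p.Prime], B < p → ¬ Bad p a →
    ∀ K, PExt p (IntermediateField.adjoin ℚ {w}) K → WeakLeopoldt p K {0}

/-- congruent to one modulo `q` -/
def One (q x : Qb) : Prop := IsIntegral ℤ ((x - 1) / q)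

theorem One.mul {q x y : Qb} (hx : One q x) (hy : One q y) (h : IsIntegral ℤ y) :
    One q (x * y) := by
  have := (IsIntegral.mul hx h).add hy
  rwa [show (x - 1) / q * y + (y - 1) / q = (x * y - 1) / q by ring] at this

theorem One.div {q x y : Qb} (hx : One q (x * y)) (hy : One q y) (h : IsIntegral ℤ x) :
    One q x := by
  have := IsIntegral.sub hx (h.mul hy)
  rwa [show (x * y - 1) / q - x * ((y - 1) / q) = (x - 1) / q by ring] at this

theorem rel_GD {T : ℕ} {w a : Qb} (hw : w ^ 3 + T * w + T = 0) (ha : (1 + a) ^ 2 = (1 + w) * a) :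
    Rel (T : Qb) a := by
  have h : a ^ 2 + a + 1 = w * a := by linear_combination ha
  rw [Rel, h, mul_pow, ha]
  linear_combination a ^ 3 * hw

theorem gal_GD (hRES : RES_st) {N : Subgroup GQ} (hN : ON N) :
    ∃ (M : IntermediateField ℚ Qb) (_ : NumberField M), IsGalois ℚ M ∧ (∀ x, x ∈ M ↔ Fix N x) ∧
      ∀ g' : M ≃ₐ[ℚ] M, ∃ g : GQ, Ind g g' := by
  obtain ⟨M, _, h1, h2, -, h3⟩ := hRES N hN.2
  have : M.fixingSubgroup = N := Subgroup.ext fun g =>
    ⟨fun h => h2 g ((IntermediateField.mem_fixingSubgroup_iff _ _).1 h),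
      fun h => (IntermediateField.mem_fixingSubgroup_iff _ _).2 fun x hx => (h1 x).1 hx g h⟩
  exact ⟨M, inferInstance, (InfiniteGalois.normal_iff_isGalois M).1 (this ▸ hN.1), h1, h3⟩

theorem bad_GD (hRES : RES_st) (hFRB : FRB_st) (hCUB : CUB_st) (hPTS : PTS_st) {T p E : ℕ}
    {w a : Qb} (hT : 1 ≤ T) (hw : w ^ 3 + T * w + T = 0) (ha : (1 + a) ^ 2 = (1 + w) * a)
    (hp : p.Prime) (h3 : 3 < p) (hE : ¬ p ∣ E) (h : One ((p : Qb) ^ 2) ((1 + w) ^ E)) :
    Bad p a := by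
  obtain ⟨-, -, iw, -, -, hc⟩ := hCUB T w hT hw
  have hr := rel_GD hw ha
  obtain ⟨a0, b0, ia, -⟩ := hPTS.2 Qb T a hr
  have ib : IsIntegral ℤ (1 + a) := isIntegral_one.add ia
  have k : ∀ u : Qb, (u - 1) ^ 3 + T * (u - 1) + T = 0 →
      One ((p : Qb) ^ 2) (u ^ E) ∧ IsIntegral ℤ (u ^ E) := fun u hu => by
    obtain ⟨g, hg⟩ := hc _ hu
    have e : g (1 + w) = u := by rw [map_add, map_one, hg, add_sub_cancel]
    refine ⟨?_, ?_⟩
    · have := IsIntegral.map (g : Qb →+* Qb).toIntAlgHom h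
      simpa [One, ← e] using this
    · have := IsIntegral.map (g : Qb →+* Qb).toIntAlgHom ((isIntegral_one.add iw).pow E)
      simpa [← e] using this
  rw [Rel] at hr
  obtain ⟨k1, i1⟩ := k (-1 / (a * (1 + a))) (by
    field_simp
    linear_combination -hr)
  obtain ⟨k2, i2⟩ := k (-a ^ 2 / (1 + a)) (by
    field_simp
    linear_combination -hr)
  obtain ⟨k3, i3⟩ := k (1 + w) (by linear_combination hw)
  have o1 : One ((p : Qb) ^ 2) (a ^ (3 * E)) := One.div (by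
    rwa [pow_mul, ← mul_pow, show a ^ 3 * (-1 / (a * (1 + a))) = -a ^ 2 / (1 + a) by
      field_simp]) k1 (ia.pow _)
  have o2 : One ((p : Qb) ^ 2) (a ^ (6 * E)) := by
    have := o1.mul o1 (ia.pow _)
    rwa [← pow_add, ← add_mul] at this
  have o3 : One ((p : Qb) ^ 2) ((1 + a) ^ (6 * E)) := One.div (by
    have := k3.mul k3 i3
    rwa [pow_mul, ← mul_pow, ← mul_pow, show (1 + a) ^ 6 * (-1 / (a * (1 + a)) *
      (-1 / (a * (1 + a)))) = (1 + w) * (1 + w) by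
        field_simp
        linear_combination ((1 + a) ^ 2 + (1 + w) * a) * ha, mul_pow]) (k1.mul k1 i1) (ib.pow _)
  obtain ⟨N, hN, hf⟩ := exists_ON_fix {a}
  obtain ⟨M, _, _, hM, -⟩ := gal_GD hRES hN
  let b : M := ⟨a, (hM a).2 (hf a (mem_singleton_self a))⟩
  have inj := (algebraMap M Qb).injective
  have p0 : (p : M) ^ 2 ≠ 0 := pow_ne_zero 2 (by exact_mod_cast hp.ne_zero)
  have dv : ∀ x : 𝓞 M, One ((p : Qb) ^ 2) ((x : M) : Qb) → (p : 𝓞 M) ^ 2 ∣ x - 1 := fun x hx =>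
    ⟨⟨((x : M) - 1) / (p : M) ^ 2, (isIntegral_algebraMap_iff inj).1 (by
      simp only [map_div₀, map_sub, map_pow, map_one, map_natCast]
      exact hx)⟩, RingOfIntegers.coe_injective (by
        simp only [map_sub, map_one]
        exact (mul_div_cancel₀ _ p0).symm)⟩
  let α : 𝓞 M := ⟨b, (isIntegral_algebraMap_iff inj).1 ia⟩
  obtain ⟨c, hc⟩ := hFRB p (6 * E) M α hp (fun c => ((Nat.Prime.dvd_mul hp).1 c).elim (fun c => by
    rcases (Nat.Prime.dvd_mul hp (m := 2) (n := 3)).1 c with c | c <;>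
      exact absurd (Nat.le_of_dvd (by omega) c) (by omega)) hE) (dv _ o2) (dv _ o3)
  have e := congrArg (algebraMap (𝓞 M) Qb) hc
  simp only [map_sub, map_pow, map_add, map_one, map_mul, map_natCast] at e
  have e2 : ((1 + a) ^ p - 1 - a ^ p) / (p : Qb) ^ 2 = algebraMap M Qb c :=
    div_eq_of_eq_mul (pow_ne_zero 2 (by exact_mod_cast hp.ne_zero)) (e.trans (mul_comm _ _))
  rw [Bad, e2]
  exact (isIntegral_algebraMap_iff inj).2 c.2

theorem dec_GD {T p : ℕ} {w : Qb} {v : AbsoluteValue Qb ℝ} (hv : IsNonarchimedean v)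
    (hp : p.Prime) (h : v p < 1) (hT : 1 ≤ T) (hB : 4 * T + 27 < p) (hw : w ^ 3 + T * w + T = 0)
    (iw : IsIntegral ℤ w) {τ : GQ} (hτ : Inr v τ) : τ w = w := by
  by_contra c
  have i1 : IsIntegral ℤ (τ w) := IsIntegral.map (τ : Qb →+* Qb).toIntAlgHom iw
  have iN : ∀ n : ℕ, IsIntegral ℤ (n : Qb) := fun n => isIntegral_natCast n
  have h1 := congrArg τ hw
  simp only [map_add, map_pow, map_mul, map_natCast, map_zero] at h1
  have h2 : τ w ^ 2 + τ w * w + w ^ 2 + T = 0 :=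
    mul_left_cancel₀ (sub_ne_zero.2 c) (by linear_combination h1 - hw)
  have h3 : ((T * T * (4 * T + 27) : ℕ) : ℤ) = (τ w - w) * -((((2 : ℕ) : Qb) * w + τ w) *
      ((6 * T : ℕ) * w ^ 2 - (9 * T : ℕ) * w + (4 * T ^ 2 : ℕ))) := by
    push_cast
    linear_combination (27 * T - 18 * T * w) * hw + (6 * T * w ^ 2 - 9 * T * w + 4 * T ^ 2) * h2
  have h4 := v_coprime hv hp h (n := (T * T * (4 * T + 27) : ℕ)) fun c => by
    rcases (Nat.Prime.dvd_mul hp).1 (Int.natCast_dvd_natCast.1 c) with c | c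
    · rcases (Nat.Prime.dvd_mul hp).1 c with c | c <;>
        exact absurd (Nat.le_of_dvd (by omega) c) (by omega)
    · exact absurd (Nat.le_of_dvd (by omega) c) (by omega)
  rw [h3, map_mul] at h4
  exact (mul_lt_one_of_nonneg_of_lt_one_left (v.nonneg _) (hτ w (v_int hv iw)) (v_int hv
    ((((iN _).mul iw).add i1).mul ((((iN _).mul (iw.pow 2)).sub ((iN _).mul iw)).add
      (iN _))).neg)).ne h4

theorem GD_pf (hRES : RES_st) (hTWR : TWR_st) (hTRF : TRF_st) (hFRB : FRB_st) (hCUB : CUB_st)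
    (hPTS : PTS_st) (hUNR : CC.UNR_st) (hETA : CC.ETA_st) (hTHR : THR_st) (hRFL : RFL_st) :
    GD_st := by
  intro T w a hT hw ha
  let K : IntermediateField ℚ Qb := .adjoin ℚ {w}
  obtain ⟨h3, ⟨φ, hφ⟩, iw, iu, u0, -⟩ := hCUB T w hT hw
  replace h3 : finrank ℚ K = 3 := h3
  have : FiniteDimensional ℚ K := Module.finite_of_finrank_pos (by omega)
  have : NumberField K := {}
  obtain ⟨N₀, hN₀, hf⟩ := exists_ON_fix {w}
  have i0 : N₀.index ≠ 0 := have := hN₀.finite; Subgroup.index_ne_zero_of_finite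
  refine ⟨4 * T + 27 + N₀.index + classNumber K + (discr K).natAbs,
    fun p r _ ζ hB hb hζ hr => ?_⟩
  have hp : p.Prime := Fact.out
  obtain ⟨b1, b2, b3, b4⟩ : 4 * T + 27 < p ∧ N₀.index < p ∧ classNumber K < p ∧
      (discr K).natAbs < p := by omega
  clear hB
  have b5 : 3 < p := by omega
  have b6 : 2 < p := by omega
  have r1 : (r : ZMod p) ≠ 1 := hr.ne_one (by omega)
  have hr0 : ¬ p ∣ r := fun c => by
    have h1 := hr.pow_eq_one
    rw [(ZMod.natCast_eq_zero_iff r p).2 c, zero_pow (by omega)] at h1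
    exact zero_ne_one h1
  refine ⟨stabilizer_isOpen_of_isIntegral w, fun γ => ?_, fun δ hδ hδζ L _ δ' hL hδ' => ?_⟩
  · obtain ⟨τ, h1, h2⟩ := omega_surj (nv_na p γ) hp (nv_lt p γ) hζ hr0
    exact ⟨τ, ⟨Ine_le p γ h1, dec_GD (nv_na p γ) hp (nv_lt p γ) hT (by omega) hw iw h1⟩, h2⟩
  intro f hf0 _ hfe
  have : NeZero p := ⟨hp.ne_zero⟩
  have ex : ∀ g : GQ, ∃ i, i < p ∧ ζ ^ i = g ζ := fun g =>
    hζ.eq_pow_of_pow_eq_one (by rw [← map_pow, hζ.pow_eq_one, map_one])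
  set Z := MulAction.stabilizer GQ ζ with hZ
  set U := MulAction.stabilizer GQ w with hU
  have oZ : ON Z := ⟨⟨fun n hn g => by
    obtain ⟨i, -, hi⟩ := ex g⁻¹
    change g (n (g⁻¹ ζ)) = ζ
    rw [← hi, map_pow, show n ζ = ζ from hn, hi, ← AlgEquiv.mul_apply, mul_inv_cancel,
      AlgEquiv.one_apply]⟩, stabilizer_isOpen_of_isIntegral ζ⟩
  have iZ : ¬ p ∣ Z.index := by
    have h1 : MulAction.orbit GQ ζ ⊆ (primitiveRoots p Qb : Set Qb) := by
      rintro _ ⟨g, rfl⟩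
      exact (mem_primitiveRoots hp.pos).2 (hζ.map_of_injective g.injective)
    have h2 := Set.ncard_le_ncard h1 (Finset.finite_toSet _)
    rw [Set.ncard_coe_finset, hζ.card_primitiveRoots, Nat.totient_prime hp,
      ← MulAction.index_stabilizer, ← hZ] at h2
    have := oZ.finite
    exact fun c => absurd (Nat.le_of_dvd (Nat.pos_of_ne_zero Subgroup.index_ne_zero_of_finite) c)
      (by omega)
  have oN := hN₀.inf oZ
  have nd : ∀ W : Subgroup GQ, ¬ p ∣ (N₀ ⊓ Z).relIndex W := fun W c => by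
    have := hN₀.1
    have := oZ.1
    rw [← Subgroup.relIndex_inf_mul_relIndex] at c
    rcases (Nat.Prime.dvd_mul hp).1 c with c | c
    · exact absurd (Nat.le_of_dvd (by omega) (c.trans (N₀.relIndex_dvd_index_of_normal _)))
        (by omega)
    · exact iZ (c.trans (Z.relIndex_dvd_index_of_normal _))
  have le : N₀ ⊓ Z ≤ U ⊓ Z := inf_le_inf_right _ fun g hg => hf w (mem_singleton_self w) g hg
  obtain ⟨M, _, _, hM, hlift⟩ := gal_GD hRES oN
  obtain ⟨_, alL, _, fL, -⟩ := hTWR _ _ L M oN.2 le (fun g _ n hn => oN.1.conj_mem n hn g) hL hM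
  obtain ⟨_, alK, _, fK, fK', lK, rK⟩ := hTWR _ U K M oN.2 (le.trans inf_le_left)
    (fun g _ n hn => oN.1.conj_mem n hn g) (adj_WBS1 w) hM
  obtain ⟨F, hF, hF0, hFe⟩ := hTRF p L M f (fL ▸ nd _) hf0
  let z : M := ⟨ζ, (hM ζ).2 fun g hg => hg.2⟩
  have hz : IsPrimitiveRoot z p := IsPrimitiveRoot.coe_submonoidClass_iff.1 hζ
  have ex' : ∀ g : M ≃ₐ[K] M, ∃ i, i < p ∧ z ^ i = g z := fun g =>
    hz.eq_pow_of_pow_eq_one (by rw [← map_pow, hz.pow_eq_one, map_one])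
  choose ω _ hω using ex'
  have dM : ¬ p ∣ finrank ℚ M := fun c => by
    rw [← fK', h3, fK] at c
    exact ((Nat.Prime.dvd_mul hp).1 c).elim
      (fun c => absurd (Nat.le_of_dvd three_pos c) b5.not_ge) (nd _)
  obtain ⟨η, e1, e2⟩ := hETA p K M z ω φ hp b6 hz (fun g => (hω g).symm) (by
    obtain ⟨τ, hτ⟩ := lK δ hδ
    refine ⟨τ, fun c => ?_⟩
    have h1 : ζ ^ r = ζ ^ 1 := by rw [← hδζ, pow_one, ← hτ z, c]
    rw [(hζ.isOfFinOrder hp.ne_zero).pow_eq_pow_iff_modEq, ← hζ.eq_orderOf,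
      ← ZMod.natCast_eq_natCast_iff, Nat.cast_one] at h1
    exact r1 h1) dM (h3.trans_lt b5) hφ
  let w' : K := ⟨w, IntermediateField.mem_adjoin_simple_self ℚ w⟩
  have inj := (algebraMap K Qb).injective
  have u1 : 1 + w' ≠ 0 := fun c => u0 (congrArg Subtype.val c)
  let u : (𝓞 K)ˣ := ⟨⟨1 + w', (isIntegral_algebraMap_iff inj).1 (isIntegral_one.add iw)⟩,
    ⟨(1 + w')⁻¹, (isIntegral_algebraMap_iff inj).1 iu⟩,
    RingOfIntegers.coe_injective (mul_inv_cancel₀ u1),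
    RingOfIntegers.coe_injective (inv_mul_cancel₀ u1)⟩
  have hE : ¬ p ∣ (p - 1) * (p ^ 2 - 1) * (p ^ 3 - 1) := fun c => by
    have k : ∀ n : ℕ, ¬ p ∣ p ^ (n + 1) - 1 := fun n c => hp.one_lt.ne' (Nat.dvd_one.1
      ((Nat.dvd_sub_iff_right (Nat.one_le_pow _ _ hp.pos) (dvd_pow_self p n.succ_ne_zero)).1 c))
    rcases (Nat.Prime.dvd_mul hp).1 c with c | c
    · rcases (Nat.Prime.dvd_mul hp).1 c with c | c
      · exact k 0 (by simpa using c)
      · exact k 1 c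
    · exact k 2 c
  have dep := hTHR p _ K M z ω u hp b6 hz (fun g => (hω g).symm) dM h3
    (fun c => absurd (Nat.le_of_dvd (classNumber_pos K) c) b3.not_ge) hE
    (hUNR p K hp h3 fun c => absurd (Nat.le_of_dvd (Int.natAbs_pos.2 (discr_ne_zero K))
      (Int.natCast_dvd.1 c)) b4.not_ge) fun ⟨c, hc⟩ => hb
    (bad_GD hRES hFRB hCUB hPTS hT hw ha hp b5 hE (by
      have e := congrArg (algebraMap (𝓞 K) Qb) hc
      simp only [map_sub, map_pow, map_one, map_mul, map_natCast] at e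
      have e2 : ((1 + w) ^ ((p - 1) * (p ^ 2 - 1) * (p ^ 3 - 1)) - 1) / (p : Qb) ^ 2 =
          algebraMap K Qb c :=
        div_eq_of_eq_mul (pow_ne_zero 2 (by exact_mod_cast hp.ne_zero)) (e.trans (mul_comm _ _))
      rw [One, e2]
      exact (isIntegral_algebraMap_iff inj).2 c.2))
  refine hF0 (hRFL p K M z ω η F hp hz (fun g => (hω g).symm)
    (by rw [IsGalois.card_aut_eq_finrank, fK]; exact nd _) e1 e2 dep hF fun τ v => ?_)
  obtain ⟨τ', hτ⟩ := rK τ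
  obtain ⟨g, hg⟩ := hlift τ'
  have g1 : g w = w := by rw [← show (algebraMap K M w' : Qb) = w from alK w', ← hg, hτ, τ.commutes]
  have g2 : g ζ = ζ ^ ω τ := by
    rw [← show (z : Qb) = ζ from rfl, ← hg, hτ, ← hω]
    rfl
  obtain ⟨i, hi, hi'⟩ := log_WBS1 hζ hr hδζ g2
  have e : gact τ v = gact τ' v := congrArg (fun s => act s v) (RingEquiv.ext fun x => (hτ x).symm)
  rw [e, ← hi]
  refine hFe τ' (δ' ^ i) _ (fun x => Subtype.ext ?_) (eig_WBS1 hfe i) v
  have h1 := (hL x).1 x.2 _ (mem_WBS1 (g := g) (h := δ ^ i) (g1.trans (pow_mem hδ i).symm) hi'.symm)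
  rw [hg, alL, alL, ind_pow_WBS1 hδ' i]
  conv_rhs => rw [← h1, ← AlgEquiv.mul_apply, mul_inv_cancel_left]

theorem ONC_pf (hGD : GD_st) (hGOOD : GOOD_st) (hTOP : TOP_st) (hDEV : DEV_st) (hMEM : MEM_st) :
    ONC_st := by
  intro T w a hT hw ha
  obtain ⟨B, hB⟩ := hGD T w a hT hw ha
  refine ⟨B + 5, fun p hp hp5 hb K hP S κ F n ρ hS hpS hκ hsur hfin hρ hres => ?_⟩
  have : FiniteDimensional ℚ (IntermediateField.adjoin ℚ ({w} : Set Qb)) :=
    IntermediateField.finiteDimensional_adjoin fun x _ => Algebra.IsIntegral.isIntegral x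
  have : NeZero p := ⟨hp.out.ne_zero⟩
  obtain ⟨ζ, hζ⟩ := HasEnoughRootsOfUnity.exists_primitiveRoot Qb p
  obtain ⟨r', hr⟩ := HasEnoughRootsOfUnity.exists_primitiveRoot (ZMod p) (p - 1)
  obtain ⟨r, rfl⟩ := ZMod.natCast_zmod_surjective r'
  have r0 : (r : ZMod p) ≠ 0 := hr.ne_zero (by omega)
  have r1 : (r : ZMod p) ≠ 1 := hr.ne_one (by omega)
  have := (hGOOD p ζ r 0 _ K hP).1
  have fx : (IntermediateField.adjoin ℚ {w}).fixingSubgroup = MulAction.stabilizer GQ w :=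
    Subgroup.ext fun g => by
      rw [IntermediateField.mem_fixingSubgroup_iff]
      exact ⟨fun h => h w (IntermediateField.mem_adjoin_simple_self ℚ w),
        fun h x hx => (adj_WBS1 w x).1 hx g h⟩
  have G0 : Good p ζ r r K.fixingSubgroup :=
    (hGOOD p ζ r _ _ K hP).2 (by omega) hζ hr r0 r1 (fx ▸ hB p r ζ (by omega) hb hζ hr)
  obtain ⟨ω, hω, hH⟩ := hTOP p K S κ (by omega) hS hpS hκ hsur hfin
  choose e he hψ using hres.2
  have := (hMEM K S).1
  have : CompactSpace κ.ker :=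
    isCompact_iff_compactSpace.1 (isClosed_singleton.preimage hκ : IsClosed (κ ⁻¹' {1})).isCompact
  refine hDEV p κ.ker F n (ρ.comp κ.ker.subtype) (fun i g => ω g ^ e i)
    (hρ.comp continuous_subtype_val) (fun g => hres.1 g)
    (fun g i => norm_WONE _ _ _ (hψ i g _ (hω g))) fun i => ?_
  exact hH ζ r _ _ hζ hr (by rw [Set.mem_singleton_iff.1 (he i), pow_zero, mul_one]) r1 G0

end Pool.Agent.MP_3e91a1_nt.CC
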