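import Pool.Agent.MP_3e91a1_nt.St

set_option linter.all false

section

set_option autoImplicit false

open NumberField IsDedekindDomain Module Filter Topology Finset Polynomial
open scoped Classical

namespace Pool.Agent.MP_3e91a1_nt

open MP_e23604_nt MP_e23604_nt.B MP_e23604_nt.R MP_f3cd89_nt

section
variable {E : Type} [Field E] [NumberField E] {G : Type} [Group G] [MulSemiringAction G E]

/-- the pairing of functions and divisors -/
noncomputable abbrev lc_WASN {P M : Type} [AddCommGroup M] (f : P → M) : (P →₀ ℤ) →ₗ[ℤ] M :=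
  Finsupp.linearCombination ℤ f

theorem kil_WASN {p : ℕ} {f : Pr E → ZMod p} : Kil f ↔ ∀ x : E, x ≠ 0 → lc_WASN f (dv x) = 0 := by
  simp only [Kil, Finsupp.linearCombination_apply, zsmul_eq_mul]

theorem lc_off_WASN {P M : Type} [AddCommGroup M] {f : P → M} {B : P → Prop} {Z : P →₀ ℤ}
    (hf : ∀ w, B w → f w = 0) (hZ : ∀ w, ¬ B w → Z w = 0) : lc_WASN f Z = 0 := by
  rw [Finsupp.linearCombination_apply]
  refine Finset.sum_eq_zero fun w _ => (?_ : Z w • f w = 0)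
  by_cases h : B w
  · rw [hf w h, smul_zero]
  · rw [hZ w h, zero_smul]

theorem lc_mul_WASN {P : Type} {p : ℕ} (c : ZMod p) (f : P → ZMod p) (Z : P →₀ ℤ) :
    lc_WASN (fun w => c * f w) Z = c * lc_WASN f Z := by
  simp only [Finsupp.linearCombination_apply, Finsupp.sum, Finset.mul_sum, mul_smul_comm]

variable (E G) in
/-- the action on divisors -/
noncomputable def tr_WASN : G →* Module.End ℤ (Pr E →₀ ℤ) where
  toFun g := Finsupp.lmapDomain ℤ ℤ (gact g)
  map_one' := by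
    rw [show gact (1 : G) = (id : Pr E → Pr E) from funext gact_one]
    exact Finsupp.lmapDomain_id _ _
  map_mul' g h := by
    rw [show gact (g * h) = (gact g ∘ gact h : Pr E → Pr E) from funext (gact_mul g h)]
    exact Finsupp.lmapDomain_comp _ _ _ _

theorem gi_WASN (g : G) (w : Pr E) : gact g (gact g⁻¹ w) = w := by
  rw [← gact_mul, mul_inv_cancel, gact_one]

theorem ig_WASN (g : G) (w : Pr E) : gact g⁻¹ (gact g w) = w := by
  rw [← gact_mul, inv_mul_cancel, gact_one]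

theorem tr_apply_WASN (g : G) (Z : Pr E →₀ ℤ) (w : Pr E) :
    tr_WASN E G g Z w = Z (gact g⁻¹ w) := by
  conv_lhs => rw [← gi_WASN g w]
  exact Finsupp.mapDomain_apply (Function.LeftInverse.injective (ig_WASN g)) Z _

theorem lc_tr_WASN {M : Type} [AddCommGroup M] (f : Pr E → M) (g : G) (Z : Pr E →₀ ℤ) :
    lc_WASN f (tr_WASN E G g Z) = lc_WASN (fun w => f (gact g w)) Z :=
  Finsupp.linearCombination_mapDomain ℤ (gact g) Z

theorem dv_tr_WASN (g : G) (x : E) : dv (g • x) = tr_WASN E G g (dv x) := by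
  ext w
  rw [tr_apply_WASN, dv_apply, dv_apply, ← ord_gact g (gact g⁻¹ w) x, gi_WASN]

theorem mem_gact_WASN (p : ℕ) (g : G) (w : Pr E) :
    (p : 𝓞 E) ∈ (gact g w).asIdeal ↔ (p : 𝓞 E) ∈ w.asIdeal := by
  rw [gact, mem_act, map_natCast]

variable (E) in
/-- weighted sums of translates -/
noncomputable def op_WASN (m : ℕ) (c : ℕ → ℕ) (g : G) : Module.End ℤ (Pr E →₀ ℤ) :=
  ∑ i ∈ range m, c i • tr_WASN E G (g ^ i)

theorem op_apply_WASN (m : ℕ) (c : ℕ → ℕ) (g : G) (Z : Pr E →₀ ℤ) (w : Pr E) :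
    op_WASN E m c g Z w = ∑ i ∈ range m, (c i : ℤ) * Z (gact (g ^ i)⁻¹ w) := by
  simp only [op_WASN, LinearMap.sum_apply, LinearMap.smul_apply, Finsupp.finsetSum_apply,
    Finsupp.smul_apply, tr_apply_WASN]
  simp only [nsmul_eq_mul]

theorem lc_op_WASN {M : Type} [AddCommGroup M] (f : Pr E → M) (m : ℕ) (c : ℕ → ℕ) (g : G)
    (Z : Pr E →₀ ℤ) : lc_WASN f (op_WASN E m c g Z) =
      ∑ i ∈ range m, c i • lc_WASN (fun w => f (gact (g ^ i) w)) Z := by
  simp only [op_WASN, LinearMap.sum_apply, LinearMap.smul_apply, map_sum, map_nsmul, lc_tr_WASN]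

theorem dv_op_WASN (m : ℕ) (c : ℕ → ℕ) (g : G) {x : E} (hx : x ≠ 0) :
    (∏ i ∈ range m, ((g ^ i) • x) ^ c i) ≠ 0 ∧
      dv (∏ i ∈ range m, ((g ^ i) • x) ^ c i) = op_WASN E m c g (dv x) := by
  have h0 : ∀ i, ((g ^ i) • x) ^ c i ≠ 0 := fun i => pow_ne_zero _ ((smul_ne_zero_iff_ne _).2 hx)
  refine ⟨Finset.prod_ne_zero_iff.2 fun i _ => h0 i, ?_⟩
  induction m with
  | zero => simp [op_WASN, dv_one]
  | succ m ih =>
    rw [Finset.prod_range_succ, dv_mul (Finset.prod_ne_zero_iff.2 fun i _ => h0 i) (h0 m), ih,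
      op_WASN, op_WASN, Finset.sum_range_succ, LinearMap.add_apply, LinearMap.smul_apply,
      ← dv_tr_WASN]
    congr 1
    ext w
    simp [ord_pow]

theorem op_off_WASN (p m : ℕ) (c : ℕ → ℕ) (g : G) {Z : Pr E →₀ ℤ}
    (hZ : ∀ w : Pr E, (p : 𝓞 E) ∉ w.asIdeal → Z w = 0) (w : Pr E) (hw : (p : 𝓞 E) ∉ w.asIdeal) :
    op_WASN E m c g Z w = 0 := by
  rw [op_apply_WASN]
  exact Finset.sum_eq_zero fun i _ => by rw [hZ _ (mt (mem_gact_WASN p _ w).1 hw), mul_zero]

theorem pow_fix_WASN {α : Type} {f : Pr E → α} {g : G} (h : ∀ w, f (gact g w) = f w) (i : ℕ)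
    (w : Pr E) : f (gact (g ^ i) w) = f w := by
  induction i with
  | zero => rw [pow_zero, gact_one]
  | succ i ih => rw [pow_succ', gact_mul, h, ih]

theorem pow_eig_WASN {p : ℕ} {f : Pr E → ZMod p} {g : G} {e : ZMod p}
    (h : ∀ w, f (gact g w) = e * f w) (i : ℕ) (w : Pr E) : f (gact (g ^ i) w) = e ^ i * f w := by
  induction i with
  | zero => rw [pow_zero, gact_one, pow_zero, one_mul]
  | succ i ih => rw [pow_succ', gact_mul, h, ih, pow_succ', mul_assoc]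

theorem lc_pi_WASN {p : ℕ} [Fact p.Prime] {f : Pr E → ZMod p} {g : G} {e : ZMod p} (he : e ≠ 0)
    (h : ∀ w, f (gact g w) = e * f w) (Z : Pr E →₀ ℤ) :
    lc_WASN f (op_WASN E (p - 1) (fun i => ((e ^ i)⁻¹).val) g Z) = -lc_WASN f Z := by
  rw [lc_op_WASN, Finset.sum_congr rfl fun i _ => show _ = lc_WASN f Z by
    simp only [pow_eig_WASN h, lc_mul_WASN]
    rw [nsmul_eq_mul, ZMod.natCast_zmod_val, inv_mul_cancel_left₀ (pow_ne_zero _ he)],
    Finset.sum_const, Finset.card_range, nsmul_eq_mul,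
    Nat.cast_pred (Fact.out : p.Prime).pos, ZMod.natCast_self, zero_sub, neg_one_mul]

theorem eig_pi_WASN {p : ℕ} [Fact p.Prime] {g : G} {e : ZMod p} (he : e ≠ 0)
    (hg : g ^ (p - 1) = 1) (Z : Pr E →₀ ℤ) (w : Pr E) :
    ((op_WASN E (p - 1) (fun i => ((e ^ i)⁻¹).val) g Z (gact g⁻¹ w) : ℤ) : ZMod p) =
      e * (op_WASN E (p - 1) (fun i => ((e ^ i)⁻¹).val) g Z w : ℤ) := by
  have h1 := Finset.sum_range_succ
    (fun i => (e ^ i)⁻¹ * ((Z (gact (g ^ i)⁻¹ w) : ℤ) : ZMod p)) (p - 1)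
  rw [Finset.sum_range_succ', hg, ZMod.pow_card_sub_one_eq_one he, pow_zero, pow_zero,
    add_left_inj] at h1
  simp only [op_apply_WASN, Int.cast_sum, Int.cast_mul, Int.cast_natCast, ZMod.natCast_zmod_val]
  rw [← h1, Finset.mul_sum]
  refine Finset.sum_congr rfl fun i _ => ?_
  rw [← gact_mul, ← mul_inv_rev, ← pow_succ', pow_succ' e, mul_inv, mul_assoc,
    mul_inv_cancel_left₀ he]

theorem nm_fix_WASN {p : ℕ} {g : G} (hg : g ^ p = 1) (Z : Pr E →₀ ℤ) (w : Pr E) :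
    op_WASN E p (fun _ => 1) g Z (gact g⁻¹ w) = op_WASN E p (fun _ => 1) g Z w := by
  have h1 := Finset.sum_range_succ (fun i => Z (gact (g ^ i)⁻¹ w)) p
  rw [Finset.sum_range_succ', hg, pow_zero, add_left_inj] at h1
  simp only [op_apply_WASN, Nat.cast_one, one_mul]
  rw [← h1]
  refine Finset.sum_congr rfl fun i _ => ?_
  rw [← gact_mul, ← mul_inv_rev, ← pow_succ']

theorem nm_at_WASN (p : ℕ) {g : G} (Z : Pr E →₀ ℤ) {w : Pr E}
    (h : ∀ i : ℕ, Z (gact (g ^ i)⁻¹ w) = Z w) : op_WASN E p (fun _ => 1) g Z w = p * Z w := by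
  simp only [op_apply_WASN, Nat.cast_one, one_mul, h, Finset.sum_const, Finset.card_range,
    nsmul_eq_mul]

end

section
variable {L F : Type} [Field L] [NumberField L] [Field F] [NumberField F] [Algebra L F]

omit [NumberField L] [NumberField F] in
theorem mem_under_WASN (p : ℕ) (w : Pr F) :
    (p : 𝓞 L) ∈ (w.under (𝓞 L)).asIdeal ↔ (p : 𝓞 F) ∈ w.asIdeal := by
  change algebraMap (𝓞 L) (𝓞 F) p ∈ w.asIdeal ↔ _
  rw [map_natCast]

theorem under_WASN {δ₀ : L ≃ₐ[ℚ] L} {δ : F ≃ₐ[ℚ] F}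
    (h : ∀ x, δ (algebraMap L F x) = algebraMap L F (δ₀ x)) (w : Pr F) :
    (gact δ⁻¹ w).under (𝓞 L) = gact δ₀⁻¹ (w.under (𝓞 L)) := by
  refine HeightOneSpectrum.ext (Ideal.ext fun x => ?_)
  change algebraMap (𝓞 L) (𝓞 F) x ∈ (gact δ⁻¹ w).asIdeal ↔ _
  rw [gact_asIdeal, gact_asIdeal, Ideal.mem_pointwise_smul_iff_inv_smul_mem,
    Ideal.mem_pointwise_smul_iff_inv_smul_mem, inv_inv, inv_inv,
    show δ • algebraMap (𝓞 L) (𝓞 F) x = algebraMap (𝓞 L) (𝓞 F) (δ₀ • x) from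
      RingOfIntegers.ext (h x)]
  rfl

/-- the pull back of divisors -/
noncomputable def pb_WASN : (Pr L →₀ ℤ) →ₗ[ℤ] (Pr F →₀ ℤ) :=
  Finsupp.linearCombination ℤ fun v => ind (above F {v})

theorem pb_apply_WASN (D : Pr L →₀ ℤ) (w : Pr F) : pb_WASN D w = D (w.under (𝓞 L)) := by
  induction D using Finsupp.induction_linear with
  | zero => simp
  | add f g h1 h2 => rw [map_add, Finsupp.add_apply, Finsupp.add_apply, h1, h2]
  | single v n =>
    rw [pb_WASN, Finsupp.linearCombination_single, Finsupp.smul_apply, ind,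
      Finsupp.finsetSum_apply]
    simp [Finsupp.single_apply, mem_above, eq_comm]

theorem lc_pb_WASN {p : ℕ} {δ₀ : L ≃ₐ[ℚ] L} {δ : F ≃ₐ[ℚ] F} {e : ZMod p}
    (h : ∀ x, δ (algebraMap L F x) = algebraMap L F (δ₀ x))
    (hu : ∀ w : Pr F, (p : 𝓞 F) ∉ w.asIdeal → ∀ x,
      ord w (algebraMap L F x) = ord (w.under (𝓞 L)) x)
    (hL : CG p L δ₀ e) {f : Pr F → ZMod p} (h1 : Kil f)
    (h2 : ∀ w : Pr F, (p : 𝓞 F) ∈ w.asIdeal → f w = 0) (h3 : ∀ w, f (gact δ w) = e * f w)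
    (D : Pr L →₀ ℤ) : lc_WASN f (pb_WASN D) = 0 := by
  have e1 : ∀ D : Pr L →₀ ℤ, lc_WASN f (pb_WASN D) =
      lc_WASN (fun v => lc_WASN f (pb_WASN (Finsupp.single v 1))) D := fun D => by
    simp only [pb_WASN, Finsupp.linearCombination_single, one_smul]
    exact Finsupp.apply_linearCombination ℤ _ _ D
  have e2 := hL (fun v => lc_WASN f (pb_WASN (Finsupp.single v 1))) (kil_WASN.2 fun x hx => ?_)
    (fun v hv => ?_) fun v => ?_
  · rw [e1]
    exact lc_off_WASN (B := fun _ => True) (fun v _ => e2 v) fun _ h => absurd trivial h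
  · rw [← e1, ← kil_WASN.1 h1 (algebraMap L F x) (by simpa using hx), ← sub_eq_zero, ← map_sub]
    refine lc_off_WASN h2 fun w hw => ?_
    rw [Finsupp.sub_apply, pb_apply_WASN, dv_apply, dv_apply, hu w hw, sub_self]
  · refine lc_off_WASN h2 fun w hw => ?_
    rw [pb_apply_WASN]
    exact Finsupp.single_eq_of_ne fun c => hw ((mem_under_WASN p w).1 (c ▸ hv))
  · rw [← lc_mul_WASN, ← funext h3, ← lc_tr_WASN]
    congr 1
    ext w
    rw [tr_apply_WASN, pb_apply_WASN, pb_apply_WASN, under_WASN h, ← tr_apply_WASN]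
    exact DFunLike.congr_fun
      (Finsupp.mapDomain_single (f := gact δ₀) (a := v) (b := (1 : ℤ))).symm _

end

theorem ASN_pf (hEIG : EIG_st) : ASN_st := by
  intro p _ L F _ _ _ _ _ _ σ δ₀ δ e hd hσ hδ hc hp he hu hN hL
  have hp0 : (p : ℤ) ≠ 0 := by exact_mod_cast (Fact.out : p.Prime).ne_zero
  have hcard : Nat.card (F ≃ₐ[L] F) = p := (IsGalois.card_aut_eq_finrank L F).trans hd
  have hσp : σ ^ p = 1 := hcard ▸ pow_card_eq_one'
  obtain ⟨f1, f2, -, -, -, f6, -, -⟩ := fb L F (F ≃ₐ[L] F)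
  have hu' : ∀ w : Pr F, (p : 𝓞 F) ∉ w.asIdeal → ∀ x,
      ord w (algebraMap L F x) = ord (w.under (𝓞 L)) x := fun w hw x => by
    rw [ord_over (over_under w), (f6 w).1 (hu w hw), Nat.cast_one, one_mul]
  have hcm : ∀ w : Pr F, gact δ (gact σ w) = gact σ (gact δ w) := fun w => by
    have h1 : δ * σ.restrictScalars ℚ = σ.restrictScalars ℚ * δ := AlgEquiv.ext hc
    exact (gact_mul δ (σ.restrictScalars ℚ) w).symm.trans
      (h1 ▸ gact_mul (σ.restrictScalars ℚ) δ w)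
  have hct : Commute (tr_WASN F _ δ) (tr_WASN F _ σ) :=
    ((Finsupp.lmapDomain_comp ℤ ℤ (gact σ) (gact δ)).symm.trans
      (congrArg _ (funext hcm))).trans (Finsupp.lmapDomain_comp ℤ ℤ (gact δ) (gact σ))
  have hδ₀ : δ₀ ^ (p - 1) = 1 := by
    have h1 : ∀ (i : ℕ) x, (δ ^ i) (algebraMap L F x) = algebraMap L F ((δ₀ ^ i) x) := fun i => by
      induction i with
      | zero => exact fun _ => rfl
      | succ i ih => exact fun x => by rw [pow_succ', pow_succ', AlgEquiv.mul_apply, ih, hδ]; rfl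
    refine AlgEquiv.ext fun x => (algebraMap L F).injective ?_
    rw [← h1, hp]
    rfl
  set π := op_WASN F (p - 1) (fun i => ((e ^ i)⁻¹).val) δ with hπ
  set N := op_WASN F p (fun _ => 1) σ with hNN
  have hπσ : ∀ i : ℕ, Commute π (tr_WASN F _ (σ ^ i)) := fun i =>
    Commute.sum_left _ _ _ fun j _ => by
      rw [map_pow, map_pow]
      exact (hct.pow_pow j i).smul_left _
  have hπN : ∀ Z, π (N Z) = N (π Z) := fun Z =>
    congrArg (· Z) (Commute.sum_right _ _ _ fun i _ => (hπσ i).smul_right _ : Commute π N).eq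
  have key : ∀ f : Pr F → ZMod p, Kil f → (∀ w : Pr F, (p : 𝓞 F) ∈ w.asIdeal → f w = 0) →
      (∀ w, f (gact δ w) = e * f w) → (∀ w, f (gact σ w) = f w) → f = 0 := by
    intro f h1 h2 h3 h4
    funext w₀
    obtain ⟨D₀, hD₀⟩ := pull_CSI2 (F := L) (N (π (Finsupp.single w₀ 1))) fun w w' h => by
      obtain ⟨g, rfl⟩ := f2 w w' h
      obtain ⟨i, rfl⟩ := mem_powers_of_prime_card hcard (g' := g) (inv_ne_one.2 hσ)
      exact (pow_fix_WASN (nm_fix_WASN hσp _) i w).symm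
    obtain ⟨a₁, ha₁, hD⟩ := hEIG p L δ₀ e {v | (p : 𝓞 L) ∈ v.asIdeal} D₀ 1 hδ₀ he hL
      (fun _ h => h) (mem_gact_WASN p δ₀) one_ne_zero fun v _ => by
      obtain ⟨w, rfl⟩ := under_surj (E' := F) v
      rw [← under_WASN hδ, hD₀, hD₀, ← hπN, eig_pi_WASN he hp, ord_one, Int.cast_zero, add_zero]
    set Y : Pr F →₀ ℤ := pb_WASN ((D₀ - dv a₁).mapRange (· / (p : ℤ)) (Int.zero_ediv _)) with hY
    have ha₀ : algebraMap L F a₁ ≠ 0 := by simpa using ha₁
    have e1 : ∀ w : Pr F, (p : 𝓞 F) ∉ w.asIdeal →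
        (dv (algebraMap L F a₁) - (N (π (Finsupp.single w₀ 1)) - (p : ℤ) • Y)) w = 0 := by
      intro w hw
      have := (ZMod.intCast_eq_intCast_iff_dvd_sub _ _ _).1
        (hD (w.under (𝓞 L)) fun c => hw ((mem_under_WASN (L := L) p w).1 c)).symm
      rw [Finsupp.sub_apply, Finsupp.sub_apply, Finsupp.smul_apply, hY, pb_apply_WASN,
        Finsupp.mapRange_apply, Finsupp.sub_apply, smul_eq_mul, dv_apply, dv_apply,
        Int.mul_ediv_cancel' this, hu' w hw, ← hD₀, sub_sub_cancel, sub_self]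
    obtain ⟨ha, hda⟩ := dv_op_WASN (p - 1) (fun i => ((e ^ i)⁻¹).val) δ ha₀
    have e2 := op_off_WASN p (p - 1) (fun i => ((e ^ i)⁻¹).val) δ e1
    rw [map_sub, map_sub, map_smul, ← hda, ← hπ, hπN] at e2
    obtain ⟨μ, hμ⟩ := hN _ _ ha₀ (σ.commutes a₁) rfl fun w hw hs => by
      have h5 := e2 w hw
      have h6 : ∀ i : ℕ, gact (σ ^ i)⁻¹ w = w := fun i => by
        have h7 : gact (σ ^ i) w = w := by
          induction i with
          | zero => rw [pow_zero, gact_one]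
          | succ i ih => rw [pow_succ', gact_mul, ih, hs]
        conv_lhs => rw [← h7, ig_WASN]
      rw [Finsupp.sub_apply, Finsupp.sub_apply, Finsupp.smul_apply, smul_eq_mul,
        nm_at_WASN p _ fun i => by rw [h6], ← mul_sub, sub_eq_zero] at h5
      exact ⟨_, h5⟩
    have hμ' : ∏ i ∈ range p, ((σ ^ i) • μ) ^ (fun _ => 1) i =
        ∏ i ∈ range (p - 1), ((δ ^ i) • algebraMap L F a₁) ^ ((e ^ i)⁻¹).val := by
      simp only [pow_one]
      exact hμ
    have hμ0 : μ ≠ 0 := by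
      rintro rfl
      exact ha (hμ'.symm.trans (Finset.prod_eq_zero
        (Finset.mem_range.2 (Fact.out : p.Prime).pos) (by simp)))
    have e3 : N (π Y) = (p : ℤ) • π Y := by
      ext w
      rw [Finsupp.smul_apply, smul_eq_mul]
      refine nm_at_WASN p _ fun i => ?_
      rw [← tr_apply_WASN, show tr_WASN F _ (σ ^ i) (π Y) = π (tr_WASN F _ (σ ^ i) Y) from
        (congrArg (· Y) (hπσ i).eq).symm]
      congr 2
      ext w'
      rw [tr_apply_WASN, hY, pb_apply_WASN, pb_apply_WASN, f1]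
    rw [← hμ', (dv_op_WASN p (fun _ => 1) σ hμ0).2, ← hNN, ← e3, ← map_sub, ← map_sub] at e2
    have e4 := lc_off_WASN (f := fun w => ((f w).val : ℤ))
      (fun w hw => by rw [h2 w hw, ZMod.val_zero, Nat.cast_zero]) e2
    rw [hNN, lc_op_WASN] at e4
    simp only [pow_fix_WASN h4, one_smul, Finset.sum_const, Finset.card_range, nsmul_eq_mul,
      mul_eq_zero, hp0, false_or] at e4
    have e5 := Finsupp.apply_linearCombination ℤ (Int.castAddHom (ZMod p)).toIntLinearMap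
      (fun w => ((f w).val : ℤ)) (dv μ - (π (π (Finsupp.single w₀ 1)) - π Y))
    rw [e4, map_zero, show (Int.castAddHom (ZMod p)).toIntLinearMap ∘
      (fun w => ((f w).val : ℤ)) = f from funext fun w => by simp, map_sub, map_sub,
      kil_WASN.1 h1 μ hμ0, lc_pi_WASN he h3, lc_pi_WASN he h3, lc_pi_WASN he h3, hY,
      lc_pb_WASN hδ hu' hL h1 h2 h3, Finsupp.linearCombination_single] at e5
    simpa using e5
  let U : Module.End (ZMod p) (Pr F → ZMod p) := LinearMap.funLeft (ZMod p) (ZMod p) (gact σ)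
  have hU : ∀ (i : ℕ) f w, (U ^ i) f w = f (gact (σ ^ i) w) := fun i => by
    induction i with
    | zero => exact fun f w => by rw [pow_zero, pow_zero, gact_one]; rfl
    | succ i ih => exact fun f w => by rw [pow_succ, Module.End.mul_apply, ih, pow_succ', gact_mul]; rfl
  have hUp : (U - 1) ^ p = 0 := by
    have h1 : (X - 1 : (ZMod p)[X]) ^ p = X ^ p - 1 := by rw [sub_pow_char, one_pow]
    have h2 := congrArg (aeval U) h1
    simp only [map_pow, map_sub, aeval_X, map_one] at h2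
    rw [h2, sub_eq_zero]
    ext f w
    exact (hU p _ w).trans (by rw [hσp, gact_one]; rfl)
  have ind : ∀ (k : ℕ) (f : Pr F → ZMod p), Kil f →
      (∀ w : Pr F, (p : 𝓞 F) ∈ w.asIdeal → f w = 0) → (∀ w, f (gact δ w) = e * f w) →
      ((U - 1) ^ k) f = 0 → f = 0 := fun k => by
    induction k with
    | zero => exact fun f _ _ _ h => h
    | succ k ih =>
      intro f h1 h2 h3 h4
      have h5 : ∀ w, ((U - 1) f) w = f (gact σ w) - f w := fun _ => rfl
      have h6 := ih ((U - 1) f) (kil_WASN.2 fun x hx => ?_) (fun w hw => ?_) (fun w => ?_)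
        (by rwa [pow_succ, Module.End.mul_apply] at h4)
      · exact key f h1 h2 h3 fun w => sub_eq_zero.1 ((h5 w).symm.trans (congrFun h6 w))
      · have h7 := kil_WASN.1 h1 (σ • x) ((smul_ne_zero_iff_ne _).2 hx)
        have h8 := kil_WASN.1 h1 x hx
        rw [dv_tr_WASN, lc_tr_WASN] at h7
        rw [← sub_zero 0]
        nth_rw 1 [← h7]
        rw [← h8]
        simp only [Finsupp.linearCombination_apply, Finsupp.sum, h5, smul_sub,
          Finset.sum_sub_distrib]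
      · rw [h5, h2 w hw, h2 _ ((mem_gact_WASN p σ w).2 hw), sub_zero]
      · rw [h5, h5, ← hcm, h3, h3, mul_sub]
  intro f h1 h2 h3
  exact congrFun (ind p f h1 h2 h3 (by rw [hUp]; rfl))

end Pool.Agent.MP_3e91a1_nt

end

section

set_option autoImplicit false

open NumberField IsDedekindDomain Module Filter Topology Finset Polynomial
open scoped Classical

namespace Pool.Agent.MP_3e91a1_nt

open MP_e23604_nt MP_e23604_nt.B MP_e23604_nt.R MP_f3cd89_nt

theorem conj_WBAD (F : Type) [Field F] [Algebra ℚ F] [Algebra F Qb] [IsScalarTower ℚ F Qb]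
    (l l' : ℕ) [hl : Fact l.Prime] [hl' : Fact l'.Prime] (γ γ' : GQ)
    (h : (cen l' γ').under (𝓞 F) = (cen l γ).under (𝓞 F)) :
    ∃ u : GQ, (∀ x : F, u (algebraMap F Qb x) = algebraMap F Qb x) ∧ nv l' γ' = nv l (γ * u) := by
  have h' : ∀ x : 𝓞 F, algebraMap (𝓞 F) (𝓞 Qb) x ∈ cen l' γ' ↔
      algebraMap (𝓞 F) (𝓞 Qb) x ∈ cen l γ := fun x => SetLike.ext_iff.1 h x
  obtain rfl : l = l' := by
    have h1 := h' l'
    rw [map_natCast] at h1
    have h2 := (BValB_int (cen l γ) hl.out (cen_mem l γ) l').1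
      (by rw [Int.cast_natCast]; exact h1.1 (cen_mem l' γ'))
    exact (Nat.prime_dvd_prime_iff_eq hl.out hl'.out).1 (Int.natCast_dvd_natCast.1 h2)
  have : IsGalois F Qb := IsGalois.tower_top_of_isGalois ℚ F Qb
  obtain ⟨ρ, hρ⟩ := BValB_conj F (cen l γ') (cen l γ) h'
  refine ⟨ρ.restrictScalars ℚ, fun x => ρ.commutes x, ?_⟩
  obtain ⟨σ, rfl⟩ : ∃ σ, γ' = γ * ρ.restrictScalars ℚ * σ := ⟨_, (mul_inv_cancel_left _ _).symm⟩
  have hσ : σ ∈ Dec (nv l (γ * ρ.restrictScalars ℚ)) := dec_iff.2 fun x => hρ x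
  exact AbsoluteValue.ext hσ

theorem under_WBAD (K : IntermediateField ℚ Qb) (l : ℕ) [Fact l.Prime] (γ : GQ) {g : GQ}
    (hg : g ∈ K.fixingSubgroup) : (cen l (γ * g)).under (𝓞 K) = (cen l γ).under (𝓞 K) := by
  ext x
  change nv l γ (g ((x : K) : Qb)) < 1 ↔ nv l γ ((x : K) : Qb) < 1
  rw [(IntermediateField.mem_fixingSubgroup_iff _ _).1 hg _ (x : K).2]

theorem key_WBAD (hMEM : MEM_st) (p : ℕ) [Fact p.Prime] (K : IntermediateField ℚ Qb)
    (S : Set (Pr K)) (π : GQ → GalS K S) (κ : GalS K S →* Multiplicative ℤ_[p]) (hπ : Rst K S π)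
    (hc : Continuous κ) (hs : Function.Surjective κ) (l : ℕ) [Fact l.Prime] (γ : GQ)
    (hf : (((cen l γ).under (𝓞 K)).primesOver
      (𝓞 (IntermediateField.fixedField κ.ker))).Finite) :
    ∃ g ∈ Dec (nv l γ) ⊓ K.fixingSubgroup, κ (π g) ≠ 1 := by
  by_contra hn
  push Not at hn
  have := (hMEM K S).1
  have ex : ∀ z, ∃ g ∈ K.fixingSubgroup, κ (π g) = z := fun z => by
    obtain ⟨y, rfl⟩ := hs z
    obtain ⟨g, h, rfl⟩ := hπ.sur y
    exact ⟨g, h, rfl⟩
  choose g hg e using ex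
  refine Set.infinite_of_injective_forall_mem
    (f := fun z => (cen l (γ * g z)).under (𝓞 (IntermediateField.fixedField κ.ker)))
    (fun z z' h => ?_) (fun z => ?_) hf
  · obtain ⟨u, u1, u2⟩ := conj_WBAD _ l l _ _ h
    have u3 : u ∈ K.fixingSubgroup := (IntermediateField.mem_fixingSubgroup_iff _ _).2
      fun x hx => u1 (algebraMap K _ ⟨x, hx⟩)
    have u4 : π u ∈ κ.ker := by
      refine (InfiniteGalois.fixingSubgroup_fixedField
        ⟨κ.ker, isClosed_singleton.preimage hc⟩).le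
        ((IntermediateField.mem_fixingSubgroup_iff _ _).2 fun x hx => ?_)
      exact Subtype.ext ((hπ.act u u3 x).trans (u1 ⟨x, hx⟩))
    have d1 : g z' * u * (g z)⁻¹ ∈ K.fixingSubgroup :=
      mul_mem (mul_mem (hg z') u3) (inv_mem (hg z))
    have d2 : g z' * u * (g z)⁻¹ ∈ Dec (nv l γ) := fun x => by
      change nv l (γ * g z' * u) ((g z)⁻¹ x) = _
      rw [← u2, ← nv_mul, mul_inv_cancel_right]
    have d3 := congrArg κ (hπ.mul _ d1 _ (hg z))
    rw [inv_mul_cancel_right, hπ.mul _ (hg z') _ u3, map_mul, map_mul, hn _ ⟨d2, d1⟩, e, e,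
      MonoidHom.mem_ker.1 u4, mul_one, one_mul] at d3
    exact d3.symm
  · refine ⟨inferInstance, ⟨?_⟩⟩
    rw [Ideal.under_under, under_WBAD K l γ (hg z)]

theorem BAD_pf (hMEM : MEM_st) : BAD_st := by
  intro p _ K _ S π κ hπ hS hp hc hs hf
  have mem : ∀ (l : ℕ) [Fact l.Prime] (γ : GQ), nv l γ ∈ {v : AbsoluteValue Qb ℝ | ∃ w ∈ S,
      ∀ x : 𝓞 K, v ((x : K) : Qb) < 1 ↔ x ∈ w.asIdeal} ↔
      ∃ w ∈ S, (cen l γ).under (𝓞 K) = w.asIdeal := fun l _ γ =>
    exists_congr fun w => and_congr_right fun _ => (Ideal.ext_iff (I := (cen l γ).under (𝓞 K))).symm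
  refine ⟨_, ⟨fun γ => (mem p γ).2 ?_, fun l _ γ g hg => by
    rw [mem, mem, under_WBAD K l γ hg]⟩, fun l _ γ => by
    simp only [mem, not_exists, not_and, ne_eq], ?_⟩
  · have h1 : (p : 𝓞 K) ∈ (cen p γ).under (𝓞 K) := by
      rw [Ideal.under, Ideal.mem_comap, map_natCast]
      exact cen_mem p γ
    refine ⟨⟨(cen p γ).under (𝓞 K), inferInstance, fun e => ?_⟩, hp h1, rfl⟩
    rw [e, Ideal.mem_bot, Nat.cast_eq_zero] at h1
    exact (Fact.out : p.Prime).ne_zero h1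
  have ev : ∀ w ∈ S, ∀ᶠ e : ℕ in atTop, ∀ (l : ℕ) [Fact l.Prime] (γ : GQ),
      (cen l γ).under (𝓞 K) = w.asIdeal →
      ∃ g ∈ Dec (nv l γ) ⊓ K.fixingSubgroup, ¬ (p : ℤ_[p]) ^ e ∣ (κ (π g)).toAdd := by
    intro w hw
    by_cases c : ∃ (l : ℕ) (_ : Fact l.Prime) (γ : GQ), (cen l γ).under (𝓞 K) = w.asIdeal
    swap
    · exact .of_forall fun e l _ γ h => (c ⟨l, _, γ, h⟩).elim
    obtain ⟨l, _, γ, h⟩ := c
    obtain ⟨g, ⟨g1, g2⟩, g3⟩ := key_WBAD hMEM p K S π κ hπ hc hs l γ (h ▸ hf w hw)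
    filter_upwards [eventually_gt_atTop (κ (π g)).toAdd.valuation] with e he l' _ γ' h'
    obtain ⟨u, u1, u2⟩ := conj_WBAD K l l' γ γ' (h'.trans h.symm)
    have u3 : u ∈ K.fixingSubgroup := (IntermediateField.mem_fixingSubgroup_iff _ _).2
      fun x hx => u1 ⟨x, hx⟩
    have d1 : u⁻¹ * (g * u) ∈ K.fixingSubgroup := mul_mem (inv_mem u3) (mul_mem g2 u3)
    have d3 := congrArg κ (hπ.mul _ u3 _ d1)
    rw [mul_inv_cancel_left, hπ.mul _ g2 _ u3, map_mul, map_mul, mul_comm, mul_right_inj] at d3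
    refine ⟨u⁻¹ * (g * u), ⟨?_, d1⟩, ?_⟩
    · rw [u2]
      refine (mem_Dec_conj l γ u _).2 ?_
      rwa [mul_inv_cancel_left, mul_inv_cancel_right]
    · rw [← d3, ← Ideal.mem_span_singleton, PadicInt.mem_span_pow_iff_le_valuation _
        (fun e => g3 (toAdd_eq_zero.1 e))]
      exact he.not_ge
  obtain ⟨e, he⟩ := ((eventually_all_finite hS).2 ev).exists
  refine ⟨e, fun l _ γ h => ?_⟩
  obtain ⟨w, hw, h⟩ := (mem l γ).1 h
  exact he w hw l γ h

end Pool.Agent.MP_3e91a1_nt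

end

section

set_option autoImplicit false

open NumberField IsDedekindDomain Module Filter Topology Finset Polynomial
open scoped Classical

namespace Pool.Agent.MP_3e91a1_nt

open MP_e23604_nt MP_e23604_nt.B MP_e23604_nt.R MP_f3cd89_nt

/-- uniform local constancy on a closed subgroup -/
theorem unif_WEXT {G α : Type} [Group G] [TopologicalSpace G] [IsTopologicalGroup G]
    [CompactSpace G] (K : Subgroup G) (hK : IsClosed (K : Set G)) (c : K × K → α)
    (hc : IsLocallyConstant c) : ∃ U : Set G, IsOpen U ∧ (1 : G) ∈ U ∧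
      ∀ g h x y : K, (x : G) ∈ U → (y : G) ∈ U → c (g * x, h * y) = c (g, h) := by
  have : CompactSpace K := isCompact_iff_compactSpace.1 hK.isCompact
  have h1 : ∀ᶠ x : K × K in 𝓝 1, ∀ g ∈ (Set.univ : Set (K × K)), c (g * x) = c g := by
    refine isCompact_univ.eventually_forall_of_forall_eventually
      (P := fun x g => c (g * x) = c g) fun g _ => ?_
    have a1 : IsLocallyConstant fun z : (K × K) × (K × K) => c (z.2 * z.1) :=
      hc.comp_continuous (continuous_snd.mul continuous_fst)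
    have a2 : IsLocallyConstant fun z : (K × K) × (K × K) => c z.2 :=
      hc.comp_continuous continuous_snd
    filter_upwards [a1.eventually_eq (1, g), a2.eventually_eq (1, g)] with z e1 e2
    rw [e1, e2, mul_one]
  rw [← Prod.mk_one_one, nhds_prod_eq, eventually_prod_iff] at h1
  obtain ⟨A, hA, B, hB, hAB⟩ := h1
  have h2 := hA.and hB
  rw [nhds_subtype_eq_comap, eventually_comap, eventually_nhds_iff] at h2
  obtain ⟨U, hU, hUo, hU1⟩ := h2
  exact ⟨U, hUo, hU1, fun g h x y hx hy =>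
    hAB (hU x hx x rfl).1 (hU y hy y rfl).2 (g, h) trivial⟩

/-- deep enough elements lie in the product of the kernel with a subgroup of finite index -/
theorem dec_WEXT {p : ℕ} [Fact p.Prime] {G : Type} [Group G] (κ : G →* Multiplicative ℤ_[p])
    (hs : Function.Surjective κ) (W : Subgroup G) [W.Normal] (hW : W.index ≠ 0) :
    ∃ m : ℕ, ∀ g, (p : ℤ_[p]) ^ m ∣ (κ g).toAdd → ∃ k : κ.ker, (k : G)⁻¹ * g ∈ W := by
  have hp : p.Prime := Fact.out
  obtain ⟨m, u, hu, e⟩ := Nat.exists_eq_pow_mul_and_not_dvd hW p hp.ne_one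
  refine ⟨m, fun g ⟨z, hz⟩ => ?_⟩
  have hu' : IsUnit (u : ℤ_[p]) :=
    PadicInt.isUnit_iff.2 (PadicInt.norm_natCast_eq_one_iff.2 (hp.coprime_iff_not_dvd.2 hu))
  obtain ⟨v, hv⟩ := hu'.exists_right_inv
  obtain ⟨g', hg'⟩ := hs (Multiplicative.ofAdd (v * z))
  have e1 : κ (g' ^ W.index) = κ g := by
    apply Multiplicative.toAdd.injective
    rw [map_pow, hg', toAdd_pow, toAdd_ofAdd, hz, e, nsmul_eq_mul]
    push_cast
    linear_combination (p : ℤ_[p]) ^ m * z * hv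
  refine ⟨⟨g * (g' ^ W.index)⁻¹, ?_⟩, ?_⟩
  · rw [MonoidHom.mem_ker, map_mul, map_inv, e1, mul_inv_cancel]
  · simpa using W.pow_index_mem g'

theorem opn_WEXT {p : ℕ} [Fact p.Prime] (m : ℕ) : IsOpen {z : ℤ_[p] | (p : ℤ_[p]) ^ m ∣ z} := by
  have hp : (0 : ℝ) < p := by exact_mod_cast (Fact.out : p.Prime).pos
  have e : {z : ℤ_[p] | (p : ℤ_[p]) ^ m ∣ z} = Metric.closedBall 0 ((p : ℝ) ^ (-m : ℤ)) := by
    ext z
    rw [mem_closedBall_zero_iff, PadicInt.norm_le_pow_iff_mem_span_pow, Ideal.mem_span_singleton]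
    rfl
  rw [e]
  exact IsUltrametricDist.isOpen_closedBall _ (zpow_pos hp _).ne'

theorem EXT_pf : EXT_st := by
  intro p _ G _ _ _ _ _ κ ψ W₀ c hκ hs hW₀ hψ hψ₀ hc hco
  have hK : IsClosed (κ.ker : Set G) := isClosed_singleton.preimage hκ
  obtain ⟨U, hUo, hU1, hU⟩ := unif_WEXT κ.ker hK c hc
  obtain ⟨W₁, hW₁⟩ := ProfiniteGrp.exist_openNormalSubgroup_sub_open_nhds_of_one
    (hUo.inter hW₀) ⟨hU1, W₀.one_mem⟩
  have : Finite (G ⧸ W₁.toSubgroup) := W₁.toSubgroup.quotient_finite_of_isOpen W₁.isOpen'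
  obtain ⟨m, hm⟩ := dec_WEXT κ hs W₁.toSubgroup Subgroup.index_ne_zero_of_finite
  have hV : IsOpen {g : G | (p : ℤ_[p]) ^ m ∣ (κ g).toAdd} :=
    (opn_WEXT m).preimage (continuous_toAdd.comp hκ)
  obtain ⟨W, hW⟩ := ProfiniteGrp.exist_openNormalSubgroup_sub_open_nhds_of_one
    (W₁.isOpen'.inter hV) ⟨W₁.toSubgroup.one_mem, by simp⟩
  set N := W₁.toSubgroup with hN
  have hNn : N.Normal := W₁.isNormal'
  let rep : G → κ.ker := fun g => Classical.epsilon fun k : κ.ker => (k : G)⁻¹ * g ∈ N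
  have r1 : ∀ g, ∀ x ∈ N, rep (g * x) = rep g := fun g x hx => by
    refine congrArg Classical.epsilon (funext fun k => propext ?_)
    rw [← mul_assoc]
    exact N.mul_mem_cancel_right hx
  have r2 : ∀ g (k : κ.ker), (k : G)⁻¹ * g ∈ N → (((rep g)⁻¹ * k : κ.ker) : G) ∈ U :=
    fun g k hk => by
      have h1 : (rep g : G)⁻¹ * g ∈ N :=
        Classical.epsilon_spec (p := fun k : κ.ker => (k : G)⁻¹ * g ∈ N) ⟨k, hk⟩
      have h2 := N.mul_mem h1 (N.inv_mem hk)
      have e : (rep g : G)⁻¹ * g * ((k : G)⁻¹ * g)⁻¹ = (((rep g)⁻¹ * k : κ.ker) : G) := by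
        simp [mul_assoc]
      rw [e] at h2
      exact (hW₁ h2).1
  have r3 : ∀ g h (k k' : κ.ker), (k : G)⁻¹ * g ∈ N → (k' : G)⁻¹ * h ∈ N →
      c (rep g, rep h) = c (k, k') := fun g h k k' hk hk' => by
    rw [← hU _ _ _ _ (r2 g k hk) (r2 h k' hk'), mul_inv_cancel_left, mul_inv_cancel_left]
  have r4 : ∀ g h (k k' : κ.ker), (k : G)⁻¹ * g ∈ N → (k' : G)⁻¹ * h ∈ N →
      ((k * k' : κ.ker) : G)⁻¹ * (g * h) ∈ N := fun g h k k' hk hk' => by
    have h1 := N.mul_mem (hNn.conj_mem' _ hk (k' : G)) hk'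
    have e : (k' : G)⁻¹ * ((k : G)⁻¹ * g) * k' * ((k' : G)⁻¹ * h) =
        ((k * k' : κ.ker) : G)⁻¹ * (g * h) := by
      simp [mul_assoc]
    rwa [e] at h1
  refine ⟨m, W.toSubgroup, fun g h => c (rep g, rep h), W.isOpen', W.isNormal',
    fun g hg => (hW₁ (hW hg).1).2, fun g hg => (hW hg).2, fun g h => ?_, fun g h x hx => ?_,
    fun g h j hg hh hj => ?_⟩
  · exact r3 g h g h (by simp) (by simp)
  · simp only [r1 _ x (hW hx).1, and_self]
  · obtain ⟨a, ha⟩ := hm g hg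
    obtain ⟨b, hb⟩ := hm h hh
    obtain ⟨d, hd⟩ := hm j hj
    have e : ψ g = ψ a := by
      rw [← mul_inv_cancel_left (a : G) g, hψ, hψ₀ _ (hW₁ ha).2, mul_one]
    simp only [r3 _ _ _ _ hb hd, r3 _ _ _ _ (r4 _ _ _ _ ha hb) hd,
      r3 _ _ _ _ ha (r4 _ _ _ _ hb hd), r3 _ _ _ _ ha hb, e]
    exact hco a b d

end Pool.Agent.MP_3e91a1_nt

end

section

set_option autoImplicit false

open NumberField IsDedekindDomain Module Filter Topology Finset Polynomial
open scoped Classical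

namespace Pool.Agent.MP_3e91a1_nt

open MP_e23604_nt MP_e23604_nt.B MP_e23604_nt.R MP_f3cd89_nt

/-- a square root lies in a cyclotomic field -/
def G_WKW (x : Qb) : Prop :=
  ∃ d : ℕ, 0 < d ∧ ∃ t : Qb, t ^ 2 = x ∧ ∀ g : GQ, (∀ z : Qb, z ^ d = 1 → g z = z) → g t = t

theorem one_WKW : G_WKW 1 := ⟨1, one_pos, 1, one_pow _, fun g _ => map_one g⟩

theorem mul_WKW {x y : Qb} (hx : G_WKW x) (hy : G_WKW y) : G_WKW (x * y) := by
  obtain ⟨d, hd, t, ht, h⟩ := hx
  obtain ⟨d', hd', t', ht', h'⟩ := hy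
  refine ⟨d * d', mul_pos hd hd', t * t', by rw [mul_pow, ht, ht'], fun g hg => ?_⟩
  rw [map_mul, h g fun z hz => hg z (by rw [pow_mul, hz, one_pow]),
    h' g fun z hz => hg z (by rw [mul_comm, pow_mul, hz, one_pow])]

theorem neg_WKW : G_WKW (-1) := by
  obtain ⟨t, ht⟩ := IsAlgClosed.exists_pow_nat_eq (-1 : Qb) two_pos
  exact ⟨4, four_pos, t, ht, fun g hg => hg t (by linear_combination (t ^ 2 - 1) * ht)⟩

theorem two_WKW : G_WKW 2 := by
  obtain ⟨z, hz⟩ := IsAlgClosed.exists_pow_nat_eq (-1 : Qb) four_pos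
  refine ⟨8, by norm_num, z - z ^ 3, by linear_combination (z ^ 2 - 2) * hz, fun g hg => ?_⟩
  rw [map_sub, map_pow, hg z (by linear_combination (z ^ 4 - 1) * hz)]

theorem root_WKW (d : ℕ) [NeZero d] : ∃ ζ : Qb, IsPrimitiveRoot ζ d :=
  HasEnoughRootsOfUnity.exists_primitiveRoot Qb d

theorem prime_WKW (l : ℕ) (hl : l.Prime) : G_WKW l := by
  rcases eq_or_ne l 2 with rfl | h2
  · exact_mod_cast two_WKW
  have : Fact l.Prime := ⟨hl⟩
  obtain ⟨ζ, hζ⟩ := root_WKW l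
  have h1 : (quadraticChar (ZMod l)).ringHomComp (Int.castRingHom Qb) ≠ 1 :=
    (MulChar.ringHomComp_ne_one_iff (RingHom.injective_int _)).2
      (quadraticChar_ne_one (by rwa [ZMod.ringChar_zmod_n]))
  have h3 := gaussSum_sq h1 ((quadraticChar_isQuadratic (ZMod l)).comp _)
    (AddChar.zmodChar_primitive_of_primitive_root l hζ)
  rw [ZMod.card, MulChar.ringHomComp_apply] at h3
  have h4 : G_WKW (Int.castRingHom Qb (quadraticChar (ZMod l) (-1)) * l) := by
    refine ⟨l, hl.pos, _, h3, fun g hg => ?_⟩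
    simp only [gaussSum, map_sum, map_mul, MulChar.ringHomComp_apply, eq_intCast, map_intCast,
      AddChar.zmodChar_apply, map_pow, hg ζ hζ.pow_eq_one]
  rcases quadraticChar_dichotomy (neg_ne_zero.2 (one_ne_zero (α := ZMod l))) with e | e
  · simpa [e] using h4
  · simpa [e] using mul_WKW neg_WKW h4

theorem nat_WKW (n : ℕ) (hn : n ≠ 0) : G_WKW n := by
  induction n using induction_on_primes with
  | zero => exact absurd rfl hn
  | one => exact_mod_cast one_WKW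
  | prime_mul p a hp ih =>
    rw [Nat.cast_mul]
    exact mul_WKW (prime_WKW p hp) (ih (right_ne_zero_of_mul hn))

theorem sign_WKW {s : Qb} (hs : s ≠ 0) (h : ∀ g : GQ, g s = s ∨ g s = -s) :
    ∃ ε : GQ →* ℤˣ, ∀ g, g s = ((ε g : ℤ) : Qb) * s := by
  have h1 : ∀ g : GQ, ∃ e : ℤˣ, g s = ((e : ℤ) : Qb) * s := fun g =>
    (h g).elim (fun e => ⟨1, by simpa using e⟩) fun e => ⟨-1, by simpa using e⟩
  choose ε hε using h1
  refine ⟨MonoidHom.mk' ε fun a b => Units.ext (Int.cast_injective (α := Qb)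
    (mul_right_cancel₀ hs ?_)), hε⟩
  rw [← hε, AlgEquiv.mul_apply, hε b, map_mul, map_intCast, hε a, Units.val_mul, Int.cast_mul]
  ring

theorem KW_pf : KW_st := by
  intro D s hD hs
  have hs0 : s ≠ 0 := by
    rintro rfl
    exact hD.ne' (by simpa using hs)
  obtain ⟨d₀, hd₀, t, ht, h₀⟩ := mul_WKW neg_WKW (nat_WKW D hD.ne')
  have hfix : ∀ g : GQ, (∀ z : Qb, z ^ (d₀ * 3) = 1 → g z = z) → g s = s := fun g hg => by
    have h1 := h₀ g fun z hz => hg z (by rw [pow_mul, hz, one_pow])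
    rcases sq_eq_sq_iff_eq_or_eq_neg.1 (show s ^ 2 = t ^ 2 by rw [hs, ht, neg_one_mul]) with
      e | e
    · rw [e, h1]
    · rw [e, map_neg, h1]
  have hd : 2 < d₀ * 3 := by omega
  generalize d₀ * 3 = d at hfix hd
  have : NeZero d := ⟨by omega⟩
  have : Fact (1 < d) := ⟨by omega⟩
  obtain ⟨ζ, hζ⟩ := root_WKW d
  have hpm : ∀ g : GQ, g s = s ∨ g s = -s := fun g =>
    sq_eq_sq_iff_eq_or_eq_neg.1 (by rw [← map_pow, hs, map_neg, map_natCast])
  obtain ⟨ε, hε⟩ := sign_WKW hs0 hpm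
  have hA : ∀ (g : GQ) (a : ℕ), g ζ = ζ ^ a → (a : ZMod d) = hζ.autToPow ℚ g := fun g a e => by
    rw [← hζ.autToPow_spec ℚ g, (hζ.isOfFinOrder (NeZero.ne d)).pow_eq_pow_iff_modEq,
      ← hζ.eq_orderOf, ← ZMod.natCast_eq_natCast_iff, ZMod.natCast_zmod_val] at e
    exact e.symm
  have hsur : Function.Surjective (hζ.autToPow ℚ) := fun u => by
    have h1 := hζ.pow_of_coprime _ (ZMod.val_coe_unit_coprime u)
    obtain ⟨g, hg⟩ := minpoly.exists_algEquiv_of_root' (K := ℚ) (x := ζ ^ (u : ZMod d).val)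
      (y := ζ) (Algebra.IsAlgebraic.isAlgebraic ζ) (by
        rw [← cyclotomic_eq_minpoly_rat hζ (NeZero.pos d),
          cyclotomic_eq_minpoly_rat h1 (NeZero.pos d), minpoly.aeval])
    exact ⟨g, Units.ext (by rw [← hA g _ hg, ZMod.natCast_zmod_val])⟩
  have hker : (hζ.autToPow ℚ).ker ≤ ε.ker := fun g hg => by
    have h1 := hζ.autToPow_spec ℚ g
    rw [MonoidHom.mem_ker.1 hg, Units.val_one, ZMod.val_one, pow_one] at h1
    have h2 := hfix g fun z hz => by
      obtain ⟨i, -, rfl⟩ := hζ.eq_pow_of_pow_eq_one hz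
      rw [map_pow, ← h1]
    refine Units.ext (Int.cast_injective (α := Qb) (mul_right_cancel₀ hs0 ?_))
    rw [← hε, h2]
    simp
  have key : ∀ (g : GQ) (a : ℕ), g ζ = ζ ^ a → g s =
      (MulChar.ofUnitHom ((hζ.autToPow ℚ).liftOfSurjective hsur ⟨ε, hker⟩) (a : ZMod d) : ℤ) * s :=
    fun g a e => by
      rw [hA g a e, MulChar.ofUnitHom_coe, MonoidHom.liftOfRightInverse_comp_apply]
      exact hε g
  refine ⟨d, _, hd, ?_, fun g a h => key g a (h ζ hζ.pow_eq_one)⟩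
  obtain ⟨-, -, -, ⟨c, hc⟩, hcc⟩ := DIC_ok
  have h1 : c s = -s := (hpm c).resolve_left fun e => by
    have := (hcc c hc).2 s hs0 (-D) (by rw [e, ← sq, hs]; push_cast; rfl)
    have h2 : (0 : ℚ) ≤ D := Nat.cast_nonneg D
    linarith
  have h2 : c ζ = ζ ^ (d - 1) := by
    obtain ⟨ι, hι⟩ := hc
    have h3 : ‖ι ζ‖ = 1 := Complex.norm_eq_one_of_pow_eq_one
      (by rw [← map_pow, hζ.pow_eq_one, map_one]) (NeZero.ne d)
    refine ι.injective ?_
    rw [hι, ← Complex.inv_eq_conj h3, ← map_inv₀]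
    congr 1
    refine inv_eq_of_mul_eq_one_left ?_
    rw [← pow_succ, Nat.sub_add_cancel (by omega), hζ.pow_eq_one]
  have h3 := key c _ h2
  rw [h1, Nat.cast_pred (by omega), ZMod.natCast_self, zero_sub] at h3
  refine Int.cast_injective (α := Qb) (mul_right_cancel₀ hs0 ?_)
  rw [← h3]
  simp

end Pool.Agent.MP_3e91a1_nt

end
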