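import Pool.Agent.MP_3e91a1_nt.St
import Pool.Agent.MP_346737_nt.VHerb

set_option linter.all false

section

set_option autoImplicit false

open NumberField IsDedekindDomain Module Filter Topology Finset Polynomial
open scoped Classical

namespace Pool.Agent.MP_3e91a1_nt

open MP_e23604_nt MP_e23604_nt.B MP_e23604_nt.R MP_f3cd89_nt

theorem h90_WOBS {N W : Subgroup GQ} {φ : GQ → Qb} (hN : IsOpen (N : Set GQ)) (hW : N ≤ W)
    (h1 : Cst N W φ) (h2 : ∀ g ∈ W, φ g ≠ 0)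
    (h3 : ∀ g ∈ W, ∀ h ∈ W, φ (g * h) = φ g * g (φ h)) :
    ∃ y, y ≠ 0 ∧ Fix N y ∧ ∀ g ∈ W, g y = φ g * y := by
  obtain ⟨N₀, h4, h5⟩ := exists_ON (hN.mem_nhds N.one_mem)
  obtain ⟨N₁, h6, h7⟩ := Lc.inf1 ⟨N₀, h4, h1.mono h5 le_rfl⟩ h2
  obtain ⟨y, h8, -, h9⟩ := H90_ok.1 N₁ W φ h6 h7 h3
  have e : φ 1 = 1 := by
    have := h3 1 W.one_mem 1 W.one_mem
    rw [mul_one, AlgEquiv.one_apply] at this
    exact (mul_eq_left₀ (h2 1 W.one_mem)).1 this.symm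
  exact ⟨y, h8, fun g hg => by
    rw [h9 g (hW hg), ← h1 1 W.one_mem g (hW hg) (by simpa using hg), e, one_mul], h9⟩

theorem exp_WOBS {p : ℕ} [hp : Fact p.Prime] {ζ : Qb} (h : IsPrimitiveRoot ζ p) :
    ∃ Z : ZMod p → Qb, (∀ x, ζ ^ x.val = Z x) ∧ Z 1 = ζ ∧ (∀ x y, Z (x + y) = Z x * Z y) ∧
      (∀ (x) (n : ℕ), Z x ^ n = Z (n * x)) ∧ Function.Injective Z ∧ (∀ x, Z x ^ p = 1) ∧
      (∀ x, Z x ≠ 0) ∧ ∀ u, u ^ p = 1 → ∃ x, Z x = u := by
  have h1 : ∀ n : ℕ, ζ ^ (n : ZMod p).val = ζ ^ n := fun n => by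
    rw [ZMod.val_natCast, ← pow_eq_pow_mod n h.pow_eq_one]
  refine ⟨fun x => ζ ^ x.val, fun _ => rfl, by simp [ZMod.val_one], fun x y => ?_, fun x n => ?_,
    fun x y e => ZMod.val_injective p (h.pow_inj (ZMod.val_lt x) (ZMod.val_lt y) e), fun x => ?_,
    fun x => pow_ne_zero _ (h.ne_zero hp.out.ne_zero), fun u hu => ?_⟩
  · rw [← pow_add, ← h1]
    simp
  · rw [← pow_mul, ← h1]
    simp [mul_comm]
  · rw [← pow_mul, mul_comm, pow_mul, h.pow_eq_one, one_pow]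
  · obtain ⟨i, -, rfl⟩ := h.eq_pow_of_pow_eq_one hu
    exact ⟨i, h1 i⟩

theorem OBS_pf (hDVS : DVS_st) (hRES : RES_st) : OBS_st := by
  intro p hp ζ r e U W N B ψ c β hζ hG hW hB hN hNW hNU hO hψ hψ' hc hc2 hβ hb
  obtain ⟨Z, z0, z1, z2, z3, z4, z5, z6, z7⟩ := exp_WOBS hζ
  obtain ⟨δ, ⟨-, hδ⟩, hδζ⟩ := hG.dec 1
  have mW : ∀ g, g ∈ W ↔ g ∈ U ∧ g ζ = ζ := fun g => by rw [hW]; rfl
  have hWU : W ≤ U := fun g hg => ((mW g).1 hg).1
  have fZ : ∀ g ∈ W, ∀ x, g (Z x) = Z x := fun g hg x => by rw [← z0, map_pow, ((mW g).1 hg).2]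
  have dZ : ∀ x, δ (Z x) = Z (r * x) := fun x => by
    rw [← z3, ← z0, map_pow, hδζ, pow_right_comm]
  have r0 : (r : ZMod p) ≠ 0 := fun h =>
    one_ne_zero (z4 (δ.injective (by rw [dZ, dZ, h, zero_mul, zero_mul] : δ (Z 1) = δ (Z 0))))
  have e0 : e ≠ 0 := fun h => r0 (by rw [← hψ' δ hδ hδζ, h, zero_mul])
  have nW : ∀ g ∈ U, ∀ h ∈ W, g⁻¹ * h * g ∈ W := fun g hg h hh => by
    obtain ⟨x, hx⟩ := z7 (g ζ) (by rw [← map_pow, hζ.pow_eq_one, map_one])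
    refine (mW _).2 ⟨U.mul_mem (U.mul_mem (U.inv_mem hg) (hWU hh)) hg, ?_⟩
    rw [AlgEquiv.mul_apply, AlgEquiv.mul_apply, ← hx, fZ h hh, hx, ← AlgEquiv.mul_apply,
      inv_mul_cancel, AlgEquiv.one_apply]
  have oW : IsOpen (W : Set GQ) := Subgroup.isOpen_mono hNW hN
  obtain ⟨L, _, hL, -, hL', -⟩ := hRES W oW
  obtain ⟨δ', hδ'⟩ := hL' δ fun h => ⟨fun hh => by simpa using nW δ⁻¹ (U.inv_mem hδ) h hh,
    fun hh => by simpa [mul_assoc] using nW δ hδ _ hh⟩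
  have d1 : δ' ^ (p - 1) = 1 := by
    have a1 : ∀ k : ℕ, (δ ^ k) ζ = Z (r ^ k) ∧ Ind (δ ^ k) (δ' ^ k) := fun k => by
      induction k with
      | zero => exact ⟨by simp [z1], fun _ => rfl⟩
      | succ k ih =>
        refine ⟨by rw [pow_succ', AlgEquiv.mul_apply, ih.1, dZ, pow_succ'], fun x => ?_⟩
        rw [pow_succ', pow_succ', AlgEquiv.mul_apply, AlgEquiv.mul_apply, hδ', ih.2]
    refine AlgEquiv.ext fun x => Subtype.ext (((a1 _).2 x).trans ((hL x).1 x.2 _ ?_))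
    exact (mW _).2 ⟨U.pow_mem hδ _, by rw [(a1 _).1, ZMod.pow_card_sub_one_eq_one r0, z1]⟩
  have hb' : ∀ g ∈ W, ∀ h ∈ W, β g * g (β h) = Z (c g h) * β (g * h) := fun g hg h hh =>
    (hb g hg h hh).trans (by rw [← z0])
  have b0 : ∀ g ∈ W, β g ≠ 0 := fun g hg => (hβ.2 g hg).1
  obtain ⟨y, y0, y1, y2⟩ := h90_WOBS (φ := fun g => β g ^ p) hN hNW
    (fun g hg h hh e => by simp only [hβ.1 g hg h hh e]) (fun g hg => pow_ne_zero _ (b0 g hg))
    fun g hg h hh => by rw [map_pow, ← mul_pow, hb' g hg h hh, mul_pow, z5, one_mul]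
  obtain ⟨t, t1, t2, t3, t4⟩ : ∃ t : GQ → GQ, (∀ g ∈ W, t g ∈ W) ∧ (∀ g, δ * t g = g * δ) ∧
      (∀ g h, t (g * h) = t g * t h) ∧ ∀ g h, g⁻¹ * h ∈ N → (t g)⁻¹ * t h ∈ N :=
    ⟨fun g => δ⁻¹ * g * δ, nW δ hδ, fun g => by group, fun g h => by group, fun g h e => by
      have := hNU δ⁻¹ (U.inv_mem hδ) _ e
      rwa [show δ⁻¹ * (g⁻¹ * h) * δ⁻¹⁻¹ = (δ⁻¹ * g * δ)⁻¹ * (δ⁻¹ * h * δ) by group] at this⟩
  have t5 : ∀ g u, g (δ u) = δ (t g u) := fun g u => by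
    rw [← AlgEquiv.mul_apply, ← t2, AlgEquiv.mul_apply]
  obtain ⟨x, x0, x1, x2⟩ := h90_WOBS
    (φ := fun g => δ (β (t g)) * Z (e * (c g δ - c δ (t g))) / β g ^ e.val) hN hNW
    (fun g hg h hh e => by
      have a1 : c g δ = c h δ := hc2.2 δ hδ g (hWU hg) h (hWU hh) e
      simp only [hβ.1 g hg h hh e, hβ.1 _ (t1 g hg) _ (t1 h hh) (t4 g h e), a1,
        hc2.1 δ hδ _ (hWU (t1 g hg)) _ (hWU (t1 h hh)) (t4 g h e)])
    (fun g hg => div_ne_zero (mul_ne_zero ((map_ne_zero δ).2 (b0 _ (t1 g hg))) (z6 _))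
      (pow_ne_zero _ (b0 g hg)))
    fun g hg h hh => by
      have a1 := hc g (hWU hg) h (hWU hh) δ hδ
      have a2 := hc g (hWU hg) δ hδ _ (hWU (t1 h hh))
      have a3 := hc δ hδ _ (hWU (t1 g hg)) _ (hWU (t1 h hh))
      rw [hψ g hg] at a1 a2
      rw [t2] at a2 a3
      have a4 : Z (r * c (t g) (t h)) * (Z (e * (c g δ - c δ (t g))) * Z (e * (c h δ - c δ (t h)))) =
          Z (c g h) ^ e.val * Z (e * (c (g * h) δ - c δ (t g * t h))) := by
        rw [z3, ← z2, ← z2, ← z2, ZMod.natCast_zmod_val, ← hψ' δ hδ hδζ]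
        exact congrArg Z (by linear_combination e * (a1 + a3 - a2))
      have a5 := congrArg δ (hb' _ (t1 g hg) _ (t1 h hh))
      have a6 := congrArg (· ^ e.val) (hb' g hg h hh)
      simp only [map_mul, mul_pow, dZ, ← t5] at a5 a6
      rw [map_div₀, map_mul, map_pow, fZ g hg, div_mul_div_comm, a6, t3,
        div_eq_div_iff (pow_ne_zero _ (b0 _ (W.mul_mem hg hh)))
          (mul_ne_zero (pow_ne_zero _ (z6 _)) (pow_ne_zero _ (b0 _ (W.mul_mem hg hh))))]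
      linear_combination (-(β (g * h) ^ e.val * δ (β (t g * t h)))) * a4 -
        (β (g * h) ^ e.val * Z (e * (c g δ - c δ (t g))) * Z (e * (c h δ - c δ (t h)))) * a5
  obtain ⟨a, z, a0, a1, a2, a3⟩ := hDVS p U W N B L δ δ' e.val y (δ y / (y ^ e.val * x ^ p)) x oW
    hWU hδ hB hO hL hδ' d1 (by rwa [ZMod.natCast_zmod_val])
    (by rw [ZMod.natCast_zmod_val]; exact hG.cg δ hδ hδζ L δ' (hW ▸ hL) hδ') y0 y1
    (fun g hg => ⟨β g, (hβ.2 g hg).2, (y2 g hg).symm⟩)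
    (div_ne_zero ((map_ne_zero δ).2 y0) (mul_ne_zero (pow_ne_zero _ y0) (pow_ne_zero _ x0)))
    (fun g hg => by
      have := b0 g hg
      have := (map_ne_zero δ).2 (b0 _ (t1 g hg))
      rw [map_div₀, map_mul, map_pow, map_pow, t5, y2 g hg, y2 _ (t1 g hg), x2 g hg, map_mul,
        map_pow, mul_pow _ x, div_pow, mul_pow _ (Z _), z5, mul_pow, pow_right_comm]
      field_simp) x1 (by field_simp)
  have hz : z ≠ 0 := fun h => mul_ne_zero y0 a0 (by rw [← a2, h, zero_pow hp.out.ne_zero])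
  have hz' : ∀ g : GQ, g z ≠ 0 := fun g => (map_ne_zero g).2 hz
  choose! b hb1 using fun g (hg : g ∈ W) => z7 (β g * z / g z) (by
    rw [div_pow, mul_pow, ← map_pow, a2, map_mul, a1 g hg, y2 g hg, mul_assoc]
    exact div_self (mul_ne_zero (pow_ne_zero _ (b0 g hg)) (mul_ne_zero y0 a0)))
  refine ⟨b, N ⊓ MulAction.stabilizer GQ z, hN.inter (stabilizer_isOpen_of_isIntegral (K := ℚ) z),
    fun l _ γ h => le_inf (hO l γ h) (a3 l γ h), fun g hg h hh e => z4 ?_, fun g hg h hh => ?_⟩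
  · have e1 : g ((g⁻¹ * h) z) = g z := congrArg g e.2
    rw [← AlgEquiv.mul_apply, mul_inv_cancel_left] at e1
    rw [hb1 g hg, hb1 h hh, hβ.1 g hg h hh e.1, e1]
  · have e1 : Z (c g h + b (g * h)) = Z (b g + b h) := by
      have := hz' g
      have := hz' (g * h)
      rw [z2, z2, ← fZ g hg (b h), hb1 g hg, hb1 h hh, hb1 _ (W.mul_mem hg hh), map_div₀, map_mul,
        ← AlgEquiv.mul_apply g h, mul_div_assoc', ← mul_assoc, ← hb' g hg h hh]
      field_simp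
    linear_combination z4 e1

end Pool.Agent.MP_3e91a1_nt

end

section

set_option autoImplicit false

open NumberField IsDedekindDomain Module Filter Topology Finset Polynomial
open scoped Classical

namespace Pool.Agent.MP_3e91a1_nt

open MP_e23604_nt MP_e23604_nt.B MP_e23604_nt.R MP_f3cd89_nt

theorem om_WTOP (p : ℕ) [hp : Fact p.Prime] (k L : Type) [Field k] [Field L] [Algebra k L] {z : L}
    (hz : IsPrimitiveRoot z p) : ∃ ω : (L ≃ₐ[k] L) → ZMod p, (∀ g h, ω (g * h) = ω g * ω h) ∧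
      ∀ (g : L ≃ₐ[k] L) (x : L), x ^ p = 1 → g x = x ^ (ω g).val := by
  refine ⟨fun g => hz.autToPow k g, fun g h => by simp, fun g x hx => ?_⟩
  obtain ⟨i, -, rfl⟩ := hz.eq_pow_of_pow_eq_one hx
  rw [map_pow, ← hz.autToPow_spec k g, pow_right_comm]

theorem inj_WTOP {p : ℕ} [hp : Fact p.Prime] {L : Type} [Field L] {z : L}
    (hz : IsPrimitiveRoot z p) {a b : ZMod p} (h : z ^ a.val = z ^ b.val) : a = b :=
  ZMod.val_injective p (hz.pow_inj (ZMod.val_lt a) (ZMod.val_lt b) h)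

theorem lay_WTOP {p : ℕ} [hp : Fact p.Prime] {G : Type} [Group G] [TopologicalSpace G]
    {κ : G →* Multiplicative ℤ_[p]} (hκ : Continuous κ) (n : ℕ) :
    ∃ V : Subgroup G, IsOpen (V : Set G) ∧ ∀ y, y ∈ V ↔ (p : ℤ_[p]) ^ n ∣ (κ y).toAdd := by
  refine ⟨(Ideal.span {(p : ℤ_[p]) ^ n}).toAddSubgroup.toSubgroup.comap κ, ?_,
    fun y => Ideal.mem_span_singleton⟩
  have : IsOpen {y | ‖(κ y).toAdd‖ < (p : ℝ) ^ (-n + 1 : ℤ)} :=
    isOpen_lt (continuous_toAdd.comp hκ).norm continuous_const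
  simp only [← PadicInt.norm_le_pow_iff_norm_lt_pow_add_one,
    PadicInt.norm_le_pow_iff_mem_span_pow] at this
  exact this

theorem TOP_pf (hMAIN : MAIN_st) (hMEM : MEM_st) (hGAL : GAL_st) (hBAD : BAD_st) (hEXT : EXT_st) : TOP_st := by
  intro p hp K _ S κ hp2 hS hpS hκ hsur hfd
  obtain ⟨π, hπ⟩ := hGAL K S
  obtain ⟨B, hB1, hB2, e₀, hB3⟩ := hBAD p K S π κ hπ hS hpS hκ hsur hfd
  have hG := (hMEM K S).1
  have hroot : ∀ z : Qb, z ^ p = 1 → z ∈ maxUnr K S := fun z hz =>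
    ((hMEM K S).2 z).2 fun l _ γ h g hg => root_CTQ hg.1 (fun e => by
      obtain rfl := (Nat.prime_dvd_prime_iff_eq Fact.out hp.out).1 e
      exact (hB2 l γ).2 h (hB1.atp γ)) hz
  have hprim : ∀ z (hz : IsPrimitiveRoot z p),
      IsPrimitiveRoot (⟨z, hroot z hz.pow_eq_one⟩ : maxUnr K S) p := fun z hz =>
    IsPrimitiveRoot.of_map_of_injective (f := (maxUnr K S).val) hz Subtype.val_injective
  obtain ⟨z₀, hz₀⟩ := HasEnoughRootsOfUnity.exists_primitiveRoot Qb p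
  obtain ⟨ω, hω1, hω2⟩ := om_WTOP p K _ (hprim z₀ hz₀)
  obtain ⟨ωQ, -, hωQ⟩ := om_WTOP p ℚ _ hz₀
  refine ⟨ω, hω2, fun ζ r i e hζ hr he he1 hgood c hc hcoc => ?_⟩
  set U := K.fixingSubgroup with hU
  set ζ' : maxUnr K S := ⟨ζ, hroot ζ hζ.pow_eq_one⟩
  have hζ' : IsPrimitiveRoot ζ' p := hprim ζ hζ
  have hωω : ∀ g ∈ U, ωQ g = ω (π g) := fun g hg => inj_WTOP hζ (by
    rw [← hωQ g ζ hζ.pow_eq_one, ← hπ.act g hg ζ', hω2 _ _ hζ'.pow_eq_one]
    rfl)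
  let φ : U →* GalS K S := MonoidHom.mk' (fun g => π g) fun a b => hπ.mul _ a.2 _ b.2
  have π1 : π 1 = 1 := map_one φ
  have πi : ∀ g ∈ U, π g⁻¹ = (π g)⁻¹ := fun g hg => map_inv φ ⟨g, hg⟩
  have πd : ∀ g ∈ U, ∀ h ∈ U, π h = π g * π (g⁻¹ * h) := fun g hg h hh => by
    rw [hπ.mul _ (inv_mem hg) _ hh, πi g hg, mul_inv_cancel_left]
  obtain ⟨m, W, c', hWo, hWn, hW0, hWm, hc1, hc2, hc3⟩ := hEXT p (GalS K S) κ (fun g => ω g ^ i)
    (MulAction.stabilizer _ ζ') c hκ hsur (stabilizer_isOpen_of_isIntegral ζ')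
    (fun g h => by rw [hω1, mul_pow])
    (fun g hg => by
      rw [inj_WTOP hζ' (a := ω g) (b := 1) (by
        rw [← hω2 _ _ hζ'.pow_eq_one, ZMod.val_one, pow_one]
        exact hg), one_pow]) hc hcoc
  choose V hVo hV using lay_WTOP hκ
  choose Kn hKo hK using fun n => hπ.pre (V n) (hVo n)
  simp only [hV] at hK
  obtain ⟨N, hNo, hN⟩ := hπ.pre W hWo
  have hH : ∀ g, g ∈ (κ.ker.comap φ).map U.subtype ↔ g ∈ U ∧ (κ (π g)).toAdd = 0 := fun g =>
    ⟨by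
      rintro ⟨x, hx, rfl⟩
      exact ⟨x.2, hx⟩, fun h => ⟨⟨g, h.1⟩, h.2, rfl⟩⟩
  obtain ⟨b, N', hNo', hoff, hcst, hb⟩ := hMAIN p ζ ωQ r i m e U N _ (fun g => (κ (π g)).toAdd) Kn B
    (fun g h => c' (π g) (π h)) hp2 hζ (fun g => hωQ g ζ hζ.pow_eq_one) hr he he1 hgood
    ⟨fun g hg h hh => by simp only [hπ.mul g hg h hh, map_mul, toAdd_mul], hK, hKo, fun z => by
      obtain ⟨y, hy⟩ := hsur (Multiplicative.ofAdd z)
      obtain ⟨g, hg, rfl⟩ := hπ.sur y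
      exact ⟨g, hg, by rw [hy, toAdd_ofAdd]⟩⟩ hB1
    ⟨e₀, fun l _ γ h => (hB3 l γ h).imp fun g hg => ⟨hg.1, fun a => hg.2 ((hK _ _).1 a).2⟩⟩ hNo
    (fun g hg => (hK _ _).2 ⟨((hN g).1 hg).1, hWm _ ((hN g).1 hg).2⟩)
    (fun g hg => (hπ.act g ((hN g).1 hg).1 ζ').symm.trans
      (congrArg Subtype.val (hW0 ((hN g).1 hg).2)))
    (fun g hg n hn => by
      obtain ⟨h1, h2⟩ := (hN n).1 hn
      refine (hN _).2 ⟨mul_mem (mul_mem hg h1) (inv_mem hg), ?_⟩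
      rw [hπ.mul _ (mul_mem hg h1) _ (inv_mem hg), hπ.mul _ hg _ h1, πi g hg]
      exact hWn.conj_mem _ h2 _)
    (fun l _ γ h g hg => (hN g).2 ⟨hg.2, hπ.ine l γ ((hB2 l γ).1 h) g hg ▸ one_mem W⟩)
    (fun g hg h hh j hj => by
      rw [hK] at hg hh hj
      simp only [hωω g hg.1, hπ.mul _ hg.1 _ hh.1, hπ.mul _ hh.1 _ hj.1]
      exact hc3 _ _ _ hg.2 hh.2 hj.2)
    ⟨fun g _ h hh j hj a => by
      simp only [πd h ((hK _ _).1 hh).1 j ((hK _ _).1 hj).1, (hc2 _ _ _ ((hN _).1 a).2).2],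
      fun g _ h hh j hj a => by
      simp only [πd h ((hK _ _).1 hh).1 j ((hK _ _).1 hj).1, (hc2 _ _ _ ((hN _).1 a).2).1]⟩ hH
  have key : ∀ g ∈ U, ∀ h ∈ U, π g ∈ κ.ker → π h ∈ κ.ker → ∀ x ∈ N' ⊓ U, π h = π g * π x →
      b g = b h := fun g hg h hh a1 a2 x hx a => by
    refine hcst g ((hH g).2 ⟨hg, a1⟩) h ((hH h).2 ⟨hh, a2⟩) ?_
    have a3 : g⁻¹ * h ∈ U := mul_mem (inv_mem hg) hh
    rw [← mul_inv_cancel_left x (g⁻¹ * h)]
    refine mul_mem hx.1 (hπ.ker N' hNo' (fun l _ γ h => hoff l γ ((hB2 l γ).2 h)) _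
      (mul_mem (inv_mem hx.2) a3) ?_)
    rw [hπ.mul _ (inv_mem hx.2) _ a3, hπ.mul _ (inv_mem hg) _ hh, πi _ hx.2, πi _ hg, a]
    group
  choose s hs1 hs2 using hπ.sur
  have hs3 : ∀ y : κ.ker, π (s y) ∈ κ.ker := fun y => (hs2 y).symm ▸ y.2
  obtain ⟨W₁, hW₁, hW₂⟩ := hπ.img N' hNo'
  refine ⟨fun y => b (s y), (IsLocallyConstant.iff_eventually_eq _).2 fun y => ?_, fun g h => ?_⟩
  · have : {x : κ.ker | (y : GalS K S)⁻¹ * x ∈ W₁} ∈ 𝓝 y :=
      (hW₁.preimage (by fun_prop)).mem_nhds (by simp)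
    filter_upwards [this] with x hx
    obtain ⟨u, hu, e⟩ := hW₂ _ hx
    exact (key _ (hs1 _) _ (hs1 _) (hs3 y) (hs3 x) u hu
      (by rw [e, hs2, hs2, mul_inv_cancel_left])).symm
  · have a := hb _ ((hH _).2 ⟨hs1 g, hs3 g⟩) _ ((hH _).2 ⟨hs1 h, hs3 h⟩)
    have a' : π (s g * s h) = (g * h : κ.ker) := by
      rw [hπ.mul _ (hs1 _) _ (hs1 _), hs2, hs2, Subgroup.coe_mul]
    simp only [hωω _ (hs1 _), hs2, hc1] at a
    rw [a, key _ (mul_mem (hs1 _) (hs1 _)) _ (hs1 _) (a' ▸ (g * h).2) (hs3 (g * h)) 1 (one_mem _)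
      (by rw [π1, mul_one, a', hs2])]

end Pool.Agent.MP_3e91a1_nt

end

section

set_option autoImplicit false

open NumberField IsDedekindDomain Module Filter Topology Finset Polynomial
open scoped Classical

namespace Pool.Agent.MP_3e91a1_nt

open MP_e23604_nt MP_e23604_nt.B MP_e23604_nt.R MP_f3cd89_nt

theorem inj_WHNP {G : Type} [Group G] [Finite G] {γ : G} (hγ : ∀ g, g ∈ Subgroup.zpowers γ) :
    Set.InjOn (fun i : ℕ => γ ^ i) (range (Nat.card G) : Set ℕ) := by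
  intro i hi j hj e
  rw [← orderOf_eq_card_of_forall_mem_zpowers hγ] at hi hj
  exact pow_injOn_Iio_orderOf (by simpa using hi) (by simpa using hj) e

theorem prod_WHNP {G M : Type} [Group G] [Fintype G] [CommMonoid M] {γ : G}
    (hγ : ∀ g, g ∈ Subgroup.zpowers γ) (f : G → M) :
    ∏ j ∈ range (Nat.card G), f (γ ^ j) = ∏ g, f g := by
  rw [← IsCyclic.image_range_card hγ, prod_image (inj_WHNP hγ)]

theorem sum_WHNP {G M : Type} [Group G] [Fintype G] [AddCommMonoid M] {γ : G}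
    (hγ : ∀ g, g ∈ Subgroup.zpowers γ) (f : G → M) :
    ∑ j ∈ range (Nat.card G), f (γ ^ j) = ∑ g, f g := by
  rw [← IsCyclic.image_range_card hγ, sum_image (inj_WHNP hγ)]

theorem app_WHNP {A : Type} [AddCommGroup A] (t : AddMonoid.End A) (n : ℕ) (x : A) :
    nmH t n x = ∑ i ∈ range n, (t ^ i) x := by
  induction n with
  | zero => rfl
  | succ n ih =>
    rw [sum_range_succ, ← ih, nmH, nmH, sum_range_succ]
    rfl

section

variable {E F : Type} [Field E] [NumberField E] [Field F] [NumberField F] [Algebra E F]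
  [IsGalois E F]

omit [NumberField E] [NumberField F] [IsGalois E F] in
theorem nm_WHNP (σ : F ≃ₐ[E] F) (n : ℕ) (a : Additive Fˣ) :
    ((Additive.toMul (nmH (sA σ) n a) : Fˣ) : F) = Nm n σ ((Additive.toMul a : Fˣ) : F) :=
  VlatX.coe_nmH σ n a

theorem h90_WHNP (σ : F ≃ₐ[E] F) (hg : ∀ g, g ∈ Subgroup.zpowers σ) (a : Additive Fˣ)
    (ha : nmH (sA σ) (Nat.card (F ≃ₐ[E] F)) a = 0) : ∃ b, a = sA σ b - b := by
  have : IsCyclic (F ≃ₐ[E] F) := ⟨σ, hg⟩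
  have h1 := nm_WHNP σ (Nat.card (F ≃ₐ[E] F)) a
  rw [ha, Nm, prod_WHNP hg fun g => g ((Additive.toMul a : Fˣ) : F),
    ← Algebra.norm_eq_prod_automorphisms] at h1
  obtain ⟨y, hy⟩ := groupCohomology.exists_div_of_norm_eq_one hg
    ((algebraMap E F).injective (h1.symm.trans (map_one _).symm))
  refine ⟨-Additive.ofMul y, ?_⟩
  rw [map_neg, sub_neg_eq_add, neg_add_eq_sub]
  refine Additive.toMul.injective (Units.ext ?_)
  rw [toMul_sub, Units.val_div_eq_div_val]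
  exact hy.symm

theorem V_WHNP (σ : F ≃ₐ[E] F) (hg : ∀ g, g ∈ Subgroup.zpowers σ) (S : Finset (Pr E)) :
    ∃ (V : AddSubgroup (Additive Fˣ)) (N : ℕ), 0 < N ∧ (∀ a ∈ V, sA σ a ∈ V) ∧
    (∀ a ∈ V, Cong (above F S) 1 ((Additive.toMul a : Fˣ) : F)) ∧
    (∀ a : Additive Fˣ, Cong (above F S) N ((Additive.toMul a : Fˣ) : F) → a ∈ V) ∧
    ∀ a ∈ V, nmH (sA σ) (Nat.card (F ≃ₐ[E] F)) a = 0 → ∃ b ∈ V, a = sA σ b - b := by
  rcases S.eq_empty_or_nonempty with rfl | hS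
  · refine ⟨⊤, 1, one_pos, fun _ _ => trivial, fun a _ w hw => ?_, fun _ _ => trivial,
      fun a _ ha => (h90_WHNP σ hg a ha).imp fun b hb => ⟨trivial, hb⟩⟩
    simpa using mem_above.1 hw
  · exact vlat E F (F ≃ₐ[E] F) σ S hS hg

theorem tau_WHNP (σ : F ≃ₐ[E] F) (S : Finset (Pr E)) :
    ∃ t : AddMonoid.End (off (above F S)), ∀ (i : ℕ) D w,
      ((t ^ i) D).1 w = D.1 (gact (σ ^ i)⁻¹ w) := by
  let e : Pr F ≃ Pr F := ⟨gact σ, gact σ⁻¹, fun w => by rw [← gact_mul, inv_mul_cancel, gact_one],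
    fun w => by rw [← gact_mul, mul_inv_cancel, gact_one]⟩
  let t : AddMonoid.End (off (above F S)) :=
    ((Finsupp.domCongr (M := ℤ) e).toAddMonoidHom.comp (off (above F S)).subtype).codRestrict
      _ fun D w hw => D.2 (gact σ⁻¹ w) ((above_HNT S σ⁻¹ w).2 hw)
  have ht : ∀ D w, (t D).1 w = D.1 (gact σ⁻¹ w) := fun _ _ => rfl
  refine ⟨t, fun i => ?_⟩
  induction i with
  | zero => exact fun D w => by rw [pow_zero, pow_zero, inv_one, gact_one]; rfl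
  | succ i ih =>
    intro D w
    rw [pow_succ', pow_succ', mul_inv_rev, gact_mul, ← ih, ← ht]
    rfl

end

theorem HNP_pf (hAMB : AMB_st) (hSIP : SIP_st) (hLOC : LOC_st) : HNP_st := by
  intro E F _ _ _ _ _ _ _ σ p S a hp h2 h1 ha0 hsa hun hev hloc
  have hc : Nat.card (F ≃ₐ[E] F) = p := (IsGalois.card_aut_eq_finrank E F).trans h2
  have : Fact p.Prime := ⟨hp⟩
  have hg : ∀ g, g ∈ Subgroup.zpowers σ := fun _ => mem_zpowers_of_prime_card hc h1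
  have hs : σ ^ p = 1 := by rw [← hc, pow_card_eq_one']
  obtain ⟨V, N, hN, v1, v2, v3, v4⟩ := V_WHNP σ hg S
  have h90 := h90_WHNP σ hg
  rw [hc] at v4 h90
  obtain ⟨t, hti⟩ := tau_WHNP σ S
  have ht : ∀ D w, (t D).1 w = D.1 (gact σ⁻¹ w) := fun D w => by
    have := hti 1 D w
    rwa [pow_one, pow_one] at this
  have hnm : ∀ D w, (nmH t p D).1 w = ∑ g : F ≃ₐ[E] F, D.1 (gact g w) := fun D w => by
    rw [← Equiv.sum_comp (Equiv.inv _), ← sum_WHNP hg, hc, app_WHNP,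
      AddSubmonoidClass.coe_finsetSum, Finsupp.finsetSum_apply]
    exact sum_congr rfl fun i _ => hti i D w
  obtain ⟨j1, hj1⟩ := j_HNT (above F S)
  have hjt : ∀ x, j1 (sA σ x) = t (j1 x) := fun x => Subtype.ext (Finsupp.ext fun w => by
    rw [ht, hj1, hj1]
    refine if_congr (above_HNT S σ⁻¹ w).symm rfl ?_
    have := ord_gact σ (gact σ⁻¹ w) ((Additive.toMul x : Fˣ) : F)
    rwa [← gact_mul, mul_inv_cancel, gact_one] at this)
  have hjV : ∀ x ∈ V, (j1 x).1 = dv ((Additive.toMul x : Fˣ) : F) := fun x hx =>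
    Finsupp.ext fun w => by
      rw [hj1, dv_apply]
      split_ifs with hw
      · exact ((val_eq_one_iff w (Units.ne_zero _)).1 (NtbX.val_one one_pos (v2 x hx) hw)).symm
      · rfl
  obtain ⟨M0, hM0, hM'⟩ := (ntb F).2.2.1 (above F S) N
  obtain ⟨hz0, hho⟩ := UNC_ok E F σ (j1.ker ⊓ V) M0 hg
    (fun x hx => ⟨by
      have h3 : j1 x = 0 := hx.1
      change j1 _ = 0
      rw [hjt, h3, map_zero], v1 x hx.2⟩)
    (fun x hx => by
      have h3 : j1 x = 0 := hx.1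
      rw [← hjV x hx.2, h3]
      rfl) hM0
    (fun x hx => by
      have h0 : ∀ w, ord w ((Additive.toMul x : Fˣ) : F) = 0 := fun w => by
        rw [← dv_apply, hx, Finsupp.zero_apply]
      have h3 : j1 x = 0 := Subtype.ext (Finsupp.ext fun w => by rw [hj1, h0, ite_self]; rfl)
      refine ⟨?_, v3 _ ?_⟩
      · change j1 _ = 0
        rw [map_nsmul, h3, nsmul_zero]
      · rw [toMul_nsmul, Units.val_pow_eq_pow_val]
        exact hM' _ (Units.ne_zero _) fun w _ => h0 w)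
  rw [h2] at hz0 hho
  obtain ⟨⟨Z, hZ, hZ'⟩, hy⟩ := hLOC E F σ p S a hp h2 h1 ha0 hsa hev hloc
  obtain ⟨y, y0, hy⟩ := hy N
  obtain ⟨T, hT⟩ := (ntb F).2.1 (above F S) N
  obtain ⟨R, R1, R2, R3⟩ := hSIP E F p S N hp h2 hN hun
  have q0 : (sA σ ^ p : AddMonoid.End (Additive Fˣ)) = 1 := AddMonoidHom.ext fun x =>
    Additive.toMul.injective (Units.ext ((VlatX.coe_sA_pow σ p x).trans (by rw [hs]; rfl)))
  have q1 : t ^ p = 1 := AddMonoidHom.ext fun D => Subtype.ext (Finsupp.ext fun w =>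
    (hti p D w).trans (by rw [hs, inv_one, gact_one]; rfl))
  have q2 : ∀ D : off (above F S), ∃ y ∈ V, D - j1 y ∈ Subtype.val ⁻¹' (T : Set (Pr F →₀ ℤ)) :=
    fun D => by
      obtain ⟨x, hx, hx'⟩ := hT _ D.2
      have hV := v3 (Additive.ofMul (Units.mk0 x hx.1)) hx.2.2
      refine ⟨_, hV, ?_⟩
      change D.1 - (j1 _).1 ∈ T
      rw [hjV _ hV]
      exact hx'
  have q3 : ∀ D : off (above F S), t D = D → ∃ r ∈ R.subtype (· ∈ off (above F S)), ∃ a ∈ V, ∃ e,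
      sA σ a = a ∧ D - r = j1 a + nmH t p e := fun D D1 => by
    have D2 : ∀ i : ℕ, (t ^ i) D = D := fun i => by
      induction i with
      | zero => rfl
      | succ i ih =>
        rw [pow_succ']
        change t ((t ^ i) D) = D
        rw [ih, D1]
    obtain ⟨r, hr, c, Y, c0, c2, Y1, Y2⟩ := R3 D.1 D.2 fun g w => by
      obtain ⟨i, hi⟩ := (isOfFinOrder_of_finite σ).mem_powers_iff_mem_zpowers.2 (hg g⁻¹)
      have := hti i D w
      rw [D2, show σ ^ i = g⁻¹ from hi, inv_inv] at this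
      exact this.symm
    have c1 : algebraMap E F c ≠ 0 := (_root_.map_ne_zero _).2 c0
    have hV := v3 (Additive.ofMul (Units.mk0 _ c1)) c2
    refine ⟨⟨r, R2 r hr⟩, mem_subtype.2 hr, _, hV, ⟨Y, Y1⟩,
      Additive.toMul.injective (Units.ext (σ.commutes c)), Subtype.ext (Finsupp.ext fun w => ?_)⟩
    change D.1 w - r w = (j1 _).1 w + (nmH t p ⟨Y, Y1⟩).1 w
    rw [hjV _ hV, hnm]
    exact Y2 w
  have q4 : j1 (Additive.ofMul (Units.mk0 a ha0)) = nmH t p ⟨Z, hZ⟩ :=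
    Subtype.ext (Finsupp.ext fun w => by
      rw [hj1, hnm]
      split_ifs with hw
      · exact (sum_eq_zero fun g _ => hZ _ ((above_HNT S g w).2 hw)).symm
      · exact hZ' w hw)
  have q5 : Additive.ofMul (Units.mk0 a ha0) - nmH (sA σ) p (Additive.ofMul (Units.mk0 y y0)) ∈ V :=
    v3 _ (by
      rw [toMul_sub, Units.val_div_eq_div_val, nm_WHNP]
      exact hy)
  have q6 : sA σ (Additive.ofMul (Units.mk0 a ha0)) = Additive.ofMul (Units.mk0 a ha0) :=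
    Additive.toMul.injective (Units.ext hsa)
  have q7 : (Subtype.val ⁻¹' (T : Set (Pr F →₀ ℤ)) : Set (off (above F S))).Finite :=
    T.finite_toSet.preimage Subtype.val_injective.injOn
  have q8 : (R.subtype (· ∈ off (above F S))).card ≤ p :=
    ((card_subtype _ _).le.trans (card_filter_le _ _)).trans R1
  have q9 := hAMB _ _ (sA σ) t p j1 V _ _ hp.pos q0 q1 hjt v1 v4 h90 q7 q2 q8 q3
  obtain ⟨b, hb⟩ := q9 hz0 hho _ _ _ q6 q4 q5
  exact ⟨_, (nm_WHNP σ p b).symm.trans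
    (congrArg (fun z : Additive Fˣ => ((Additive.toMul z : Fˣ) : F)) hb).symm⟩

end Pool.Agent.MP_3e91a1_nt

end

section

set_option autoImplicit false

open NumberField IsDedekindDomain Module Filter Topology Finset Polynomial
open scoped Classical

namespace Pool.Agent.MP_3e91a1_nt

open MP_e23604_nt MP_e23604_nt.B MP_e23604_nt.R MP_f3cd89_nt

/-- the abstract form of the argument -/
theorem abs_WDEV (hDVA : DVA_st) {p : ℕ} [Fact p.Prime] {G R Q : Type} [Group G]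
    [TopologicalSpace G] [IsTopologicalGroup G] [CompactSpace G] [CommRing R] [AddCommGroup Q]
    [Module R Q] {d : ℕ} (ρ : G →* GL (Fin d) R) (ψ : Fin d → G → ZMod p) (n : R → Prop)
    (s : Q → ℝ) (hl : ∀ i j (q : Q) g₀, ∀ᶠ g in 𝓝 g₀, ρ g i j • q = ρ g₀ i j • q)
    (ht : ∀ q : Q, IsOfFinAddOrder q) (hs : ∀ q, q ≠ 0 → 1 < s q)
    (hB : ∀ X, 1 < X → ∃ B : AddSubgroup Q, (∀ q, s q = X → q ∉ B) ∧
      ∀ c q, s q ≤ X → n c ∨ s q < X → c • q ∈ B)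
    (hp : n p) (h1 : ∀ g i j, j < i → n (ρ g i j)) (h2 : ∀ g i, n (ρ g i i - (ψ i g).val))
    (h3 : ∀ i, H2Zero fun (g : G) (x : ZMod p) => ψ i g * x) :
    H2Zero fun (g : G) (x : Fin d → Q) i => ∑ j, ρ g i j • x j := by
  refine hDVA p G (Fin d → Q) (fun g => AddMonoidHom.mk' (fun x i => ∑ j, ρ g i j • x j)
    fun a b => ?_) (fun g h x => ?_) (fun x => ?_) (fun x => IsOfFinAddOrder.pi fun j => ht _)
    fun M _ hM hg => ?_
  · funext i
    simp only [Pi.add_apply, smul_add, Finset.sum_add_distrib]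
  · funext i
    simp only [AddMonoidHom.mk'_apply, map_mul, Units.val_mul, Matrix.mul_apply,
      Finset.sum_smul, Finset.smul_sum, mul_smul]
    exact Finset.sum_comm
  · refine (IsLocallyConstant.iff_eventually_eq _).2 fun g₀ => ?_
    filter_upwards [eventually_all.2 fun i => eventually_all.2 fun j => hl i j (x j) g₀] with g hg
    simp only [AddMonoidHom.mk'_apply, hg]
  obtain ⟨m₁, hm₁, hne⟩ := M.bot_or_exists_ne_zero.resolve_left hM
  obtain ⟨j₁, hj₁⟩ := Function.ne_iff.1 hne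
  have : Nonempty (M × Fin d) := ⟨(0, j₁)⟩
  obtain ⟨t, ht⟩ := Finite.exists_max fun t : M × Fin d => s (t.1.1 t.2)
  obtain ⟨B, b1, b2⟩ := hB _ ((hs _ hj₁).trans_le (ht (⟨m₁, hm₁⟩, j₁)))
  obtain ⟨i, ⟨m₀, hi⟩, hmax⟩ := Set.exists_max_image
    {i : Fin d | ∃ m : M, s (m.1 i) = s (t.1.1 t.2)} id (Set.toFinite _) ⟨t.2, t.1, rfl⟩
  have ha : ∀ c (m : M) j, n c ∨ i < j → c • m.1 j ∈ B := fun c m j h => b2 _ _ (ht (m, j))
    (h.imp_right fun h => (ht (m, j)).lt_of_ne fun e => (hmax j ⟨m, e⟩).not_gt h)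
  let lam : M →+ Q ⧸ B := (QuotientAddGroup.mk' B).comp
    ((Pi.evalAddMonoidHom _ i).comp M.subtype)
  obtain ⟨f, hf⟩ := MP_346737_nt.VHerb_dual0 (A := lam.range) (p := p) (by
    rintro ⟨_, m, rfl⟩
    refine Subtype.ext ((QuotientAddGroup.eq_zero_iff (p • m.1 i)).2 ?_)
    rw [← Nat.cast_smul_eq_nsmul R]
    exact ha _ m i (Or.inl hp)) (x := lam.rangeRestrict m₀) fun e =>
      b1 _ hi ((QuotientAddGroup.eq_zero_iff (m₀.1 i)).1 (congrArg Subtype.val e))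
  refine ⟨ψ i, f.comp lam.rangeRestrict, fun e => hf (DFunLike.congr_fun e m₀),
    fun g a b e => ?_, h3 i⟩
  have key : lam.rangeRestrict b = (ψ i g).val • lam.rangeRestrict a := by
    refine Subtype.ext ((QuotientAddGroup.eq_iff_sub_mem (x := b.1 i)
      (y := (ψ i g).val • a.1 i)).2 ?_)
    rw [e, AddMonoidHom.mk'_apply, ← Finset.add_sum_erase _ _ (Finset.mem_univ i),
      add_sub_right_comm, ← Nat.cast_smul_eq_nsmul R, ← sub_smul]
    refine add_mem (ha _ a i (Or.inl (h2 g i))) (sum_mem fun j hj => ha _ a j ?_)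
    exact (Finset.ne_of_mem_erase hj).lt_or_gt.imp_left (h1 g i j)
  exact (congrArg f key).trans ((f.map_nsmul _ _).trans
    ((nsmul_eq_mul _ _).trans (congrArg (· * _) (ZMod.natCast_zmod_val _))))

section
variable {p : ℕ} [Fact p.Prime] {F : IntermediateField ℚ_[p] (PadicAlgCl p)}

theorem eq_WDEV {y z : F} : (Submodule.Quotient.mk y : F ⧸ (1 : Submodule (valRing F) F)) =
    Submodule.Quotient.mk z ↔ ‖((y - z : F) : PadicAlgCl p)‖ ≤ 1 := by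
  rw [Submodule.Quotient.eq, Submodule.mem_one]
  exact ⟨fun ⟨a, e⟩ => e ▸ a.2, fun h => ⟨⟨_, h⟩, rfl⟩⟩

theorem p_WDEV : ‖(p : PadicAlgCl p)‖ < 1 := by
  rw [← map_natCast (algebraMap ℚ_[p] (PadicAlgCl p)), norm_algebraMap']
  exact Padic.norm_p_lt_one

theorem smul_WDEV (c : valRing F) (y : F) :
    ‖((c • y : F) : PadicAlgCl p)‖ = ‖((c : F) : PadicAlgCl p)‖ * ‖(y : PadicAlgCl p)‖ :=
  norm_mul ((c : F) : PadicAlgCl p) y

/-- classes with a small representative -/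
def sm_WDEV (F : IntermediateField ℚ_[p] (PadicAlgCl p)) {X : ℝ} (hX : 0 < X) :
    AddSubgroup (F ⧸ (1 : Submodule (valRing F) F)) where
  carrier := {q | ∃ z : F, Submodule.Quotient.mk z = q ∧ ‖(z : PadicAlgCl p)‖ < X}
  zero_mem' := ⟨0, rfl, norm_zero.trans_lt hX⟩
  add_mem' := by
    rintro _ _ ⟨a, rfl, ha⟩ ⟨b, rfl, hb⟩
    exact ⟨a + b, rfl, (IsUltrametricDist.norm_add_le_max (a : PadicAlgCl p) b).trans_lt
      (max_lt ha hb)⟩
  neg_mem' := by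
    rintro _ ⟨a, rfl, ha⟩
    exact ⟨-a, rfl, (norm_neg (a : PadicAlgCl p)).trans_lt ha⟩

end

theorem DEV_pf (hDVA : DVA_st) : DEV_st := by
  intro p _ G _ _ _ _ F d ρ ψ hρ h1 h2 h3
  choose y hy using Submodule.Quotient.mk_surjective (1 : Submodule (valRing F) F)
  have hs : ∀ (c : valRing F) q, c • q = Submodule.Quotient.mk (c • y q) := fun c q => by
    rw [Submodule.Quotient.mk_smul, hy]
  refine abs_WDEV hDVA ρ ψ (fun c => ‖((c : F) : PadicAlgCl p)‖ < 1)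
    (fun q => ‖(y q : PadicAlgCl p)‖) (fun i j q g₀ => ?_) (fun q => ?_) (fun q hq => ?_)
    (fun X hX => ⟨sm_WDEV F (one_pos.trans hX), fun q hq ⟨z, e1, e2⟩ => ?_,
      fun c q h h' => ⟨_, (hs _ _).symm, ?_⟩⟩) p_WDEV h1 h2 h3
  · have c : Continuous fun g => ((ρ g i j : F) : PadicAlgCl p) :=
      continuous_subtype_val.comp (continuous_subtype_val.comp
        ((Units.continuous_val.comp hρ).matrix_elem i j))
    refine ((((c.sub (continuous_const (y := ((ρ g₀ i j : F) : PadicAlgCl p)))).norm.mul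
      (continuous_const (y := ‖(y q : PadicAlgCl p)‖))).tendsto g₀).eventually
      (gt_mem_nhds (a := 1) (by simp))).mono fun g hg => ?_
    rw [hs, hs, eq_WDEV, ← sub_smul, smul_WDEV]
    exact hg.le
  · obtain ⟨n, hn⟩ := (((tendsto_pow_atTop_nhds_zero_of_lt_one (norm_nonneg _)
      (p_WDEV (p := p))).mul_const ‖(y q : PadicAlgCl p)‖).eventually
      (gt_mem_nhds (a := 1) (by simp))).exists
    refine isOfFinAddOrder_iff_nsmul_eq_zero.2 ⟨p ^ n, pow_pos (Fact.out : p.Prime).pos n, ?_⟩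
    rw [← Nat.cast_smul_eq_nsmul (valRing F), hs]
    refine eq_WDEV.2 ?_
    rw [sub_zero, smul_WDEV]
    simpa using hn.le
  · exact not_le.1 fun h => hq ((hy q).symm.trans (eq_WDEV.2 (by rwa [sub_zero])))
  · have e3 := eq_WDEV.1 ((hy _).trans e1.symm)
    have e4 := IsUltrametricDist.norm_add_le_max ((y q - z : F) : PadicAlgCl p) z
    rw [AddSubgroupClass.coe_sub, sub_add_cancel, hq] at e4
    exact e4.not_gt (max_lt (e3.trans_lt hX) e2)
  · rw [smul_WDEV]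
    exact h'.elim (fun h' => (mul_le_mul_of_nonneg_left h (norm_nonneg _)).trans_lt
      (mul_lt_of_lt_one_left (one_pos.trans hX) h'))
      fun h' => (mul_le_of_le_one_left (norm_nonneg _) c.2).trans_lt h'

end Pool.Agent.MP_3e91a1_nt

end
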