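import Pool.Agent.MP_3e91a1_nt.St
import Pool.Agent.MP_346737_nt.VHerb
import Pool.Agent.MP_0c8446_ag.NTBern
import Pool.Agent.MP_346737_nt.VThaine
import Pool.Agent.MP_3924c3_nt.FZ.Bern
import Pool.Agent.MP_346737_nt.VDens
import Pool.Agent.Mg.F3e91a1.G0eee4a
import Pool.Agent.Mg.F3e91a1.G6dc563
import Pool.Agent.Mg.F3e91a1.G04239b
import Pool.Agent.Mg.F3e91a1.G9378f2
import Pool.Agent.Mg.F3e91a1.G2f4f64
import Pool.Agent.MP_3e91a1_nt.WHNF
import Pool.Agent.MP_3e91a1_nt.WVL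
import Pool.Agent.MP_3e91a1_nt.WAH
import Pool.Agent.MP_3e91a1_nt.WHQ
import Pool.Agent.MP_3e91a1_nt.WLIX
import Pool.Agent.MP_3e91a1_nt.WL0
import Pool.Agent.MP_3e91a1_nt.WL1
import Pool.Agent.MP_3e91a1_nt.WSYM
import Pool.Agent.MP_3e91a1_nt.WCOR
import Pool.Agent.MP_3e91a1_nt.WINF
import Pool.Agent.MP_3e91a1_nt.WIND
import Pool.Agent.MP_3e91a1_nt.WPLC
import Pool.Agent.MP_3e91a1_nt.WSB
import Pool.Agent.MP_3e91a1_nt.WRES

set_option linter.all false

section

set_option autoImplicit false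

open NumberField IsDedekindDomain Module Filter Topology Finset Polynomial
open scoped Classical

namespace Pool.Agent.MP_3e91a1_nt

open MP_e23604_nt MP_e23604_nt.B MP_e23604_nt.R MP_f3cd89_nt

section
variable {p : ℕ} [Fact p.Prime] {ζ : Qb}

theorem inj_WMAIN (hζ : IsPrimitiveRoot ζ p) {a b : ZMod p} (h : ζ ^ a.val = ζ ^ b.val) : a = b :=
  ZMod.val_injective p (hζ.pow_inj (ZMod.val_lt a) (ZMod.val_lt b) h)

theorem cast_WMAIN (hζ : IsPrimitiveRoot ζ p) (n : ℕ) : ζ ^ (n : ZMod p).val = ζ ^ n := by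
  rw [ZMod.val_natCast, ← pow_eq_pow_mod n hζ.pow_eq_one]

theorem add_WMAIN (hζ : IsPrimitiveRoot ζ p) (a b : ZMod p) :
    ζ ^ (a + b).val = ζ ^ a.val * ζ ^ b.val := by
  rw [← pow_add, ← cast_WMAIN hζ (a.val + b.val), Nat.cast_add, ZMod.natCast_zmod_val,
    ZMod.natCast_zmod_val]

/-- the cyclotomic character -/
theorem om_WMAIN (hζ : IsPrimitiveRoot ζ p) {ω : GQ → ZMod p}
    (hω : ∀ g : GQ, g ζ = ζ ^ (ω g).val) :
    (∀ g h, ω (g * h) = ω g * ω h) ∧ (∀ g, g ∈ MulAction.stabilizer GQ ζ ↔ ω g = 1) ∧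
      ∀ H : Subgroup GQ, ((MulAction.stabilizer GQ ζ).relIndex H : ZMod p) ≠ 0 := by
  have h1 : ∀ g h, ω (g * h) = ω g * ω h := fun g h => inj_WMAIN hζ <| by
    rw [← hω, AlgEquiv.mul_apply, hω h, map_pow, hω g, ← pow_mul, ← cast_WMAIN hζ, Nat.cast_mul,
      ZMod.natCast_zmod_val, ZMod.natCast_zmod_val]
  have h2 : ∀ g, g ∈ MulAction.stabilizer GQ ζ ↔ ω g = 1 := fun g => by
    change g ζ = ζ ↔ _
    refine ⟨fun h => inj_WMAIN hζ ?_, fun h => ?_⟩
    · rw [← hω, h, ZMod.val_one, pow_one]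
    · rw [hω, h, ZMod.val_one, pow_one]
  refine ⟨h1, h2, fun H => ?_⟩
  let f : GQ →* (ZMod p)ˣ := MonoidHom.toHomUnits ⟨⟨ω, (h2 1).1 (one_mem _)⟩, h1⟩
  have e : MulAction.stabilizer GQ ζ = f.ker := by
    ext g
    rw [h2, MonoidHom.mem_ker, Units.ext_iff]
    rfl
  have d : (MulAction.stabilizer GQ ζ).relIndex H ∣ p - 1 := by
    rw [e]
    refine (Subgroup.relIndex_dvd_index_of_normal _ _).trans ?_
    rw [Subgroup.index_ker, ← ZMod.card_units p, ← Nat.card_eq_fintype_card]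
    exact Subgroup.card_subgroup_dvd_card _
  have := (Fact.out : p.Prime).two_le
  rw [Ne, ZMod.natCast_eq_zero_iff]
  exact fun c => absurd (Nat.le_of_dvd (by omega) (c.trans d)) (by omega)

end

theorem nrm_WMAIN {N N' U U' : Subgroup GQ} (h : Nrm N U) (h' : Nrm N' U) (e : U' ≤ U) :
    Nrm (N ⊓ N') U' := fun g hg n hn => ⟨h g (e hg) n hn.1, h' g (e hg) n hn.2⟩

theorem cst_WMAIN {α : Type} {N N' U U' : Subgroup GQ} {c : GQ → GQ → α} (h : Cst2 N U c)
    (e : N' ≤ N) (e' : U' ≤ U) : Cst2 N' U' c :=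
  ⟨fun g hg => (h.1 g (e' hg)).mono e e', fun g hg => (h.2 g (e' hg)).mono e e'⟩

theorem MAIN_pf (hTAB : TAB_st) (hINF : INF_st) (hOBS : OBS_st) (hASC : ASC_st) (hZPL : ZPL_st) (hUNR : UNR_st) (hIND : IND_st) (hCOR : COR_st) : MAIN_st := by
  intro p _ ζ ω r i m e U N H κ K B c hp hζ hω hr he he1 hG hZ hB hFD hNo hNK hNζ hNU hOff hc hc2 hH
  obtain ⟨ωm, ωs, ωi⟩ := om_WMAIN hζ hω
  obtain ⟨K0, Ka, Kn, Ks, -, -⟩ := hZPL p U κ K hZ
  set St := MulAction.stabilizer GQ ζ with hSt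
  have KU : ∀ j, K j ≤ U := fun j g hg => ((hZ.mem j g).1 hg).1
  have HK : ∀ j, H ≤ K j := fun j g hg =>
    (hZ.mem j g).2 ⟨((hH g).1 hg).1, by rw [((hH g).1 hg).2]; exact dvd_zero _⟩
  have NS : N ≤ St := fun g hg => hNζ g hg
  have lp : ∀ (l : ℕ) [Fact l.Prime] (γ : GQ), nv l γ ∉ B → l ≠ p := by
    rintro l _ γ h rfl
    exact h (hB.atp γ)
  have hp2 := (Fact.out : p.Prime).two_le
  have hr0 : (r : ZMod p) ≠ 0 := hr.ne_zero (by omega)
  have he0 : e ≠ 0 := by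
    rintro rfl
    exact hr0 (by rw [← he, zero_mul])
  have hGK : ∀ j, Good p ζ r e (K j) := fun j => by
    induction j with
    | zero => rwa [K0]
    | succ j ih =>
      obtain ⟨χ, s, hs⟩ := Ks j
      exact hASC p ζ r e _ _ χ s hp hζ hr he0 he1 (hZ.opn _) hs (fun l _ γ hl =>
        (inf_le_inf_left _ (KU j)).trans (hUNR p U κ K hZ l γ _ hl)) ih
  have C1 : Coc (K m ⊓ St) fun g h => ζ ^ (c g h).val := fun g hg h hh j hj => by
    have h1 := hc g hg.1 h hh.1 j hj.1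
    have h2 : g ζ = ζ := hg.2
    simp only [(ωs g).1 hg.2, one_pow, one_mul] at h1
    simp only [map_pow, h2, ← add_WMAIN hζ]
    rw [show c g h + c (g * h) j = c h j + c g (h * j) by linear_combination -h1]
  have C2 : Inf2 N (K m ⊓ St) fun g h => ζ ^ (c g h).val :=
    ⟨fun g hg a ha b hb h => by simp only [hc2.1 g hg.1 a ha.1 b hb.1 h],
      fun g hg a ha b hb h => by simp only [show c a g = c b g from hc2.2 g hg.1 a ha.1 b hb.1 h],
      fun g _ h _ => ⟨pow_ne_zero _ (hζ.ne_zero (by omega)), fun n hn => by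
        simp only [map_pow, hNζ n hn]⟩⟩
  obtain ⟨n, hn⟩ := hTAB p ζ U N (K m ⊓ St) κ K B _ hp hζ hZ hB hFD hNo (le_inf hNK NS)
    (inf_le_left.trans (KU m)) (fun g hg => hNU g (KU m hg.1))
    (fun l _ γ h => (inf_le_inf_left _ (inf_le_left.trans (KU m))).trans (hOff l γ h))
    (fun g hg => hg.2) C1 C2 fun g _ h _ => by
      rw [← pow_mul, mul_comm, pow_mul, hζ.pow_eq_one, one_pow]
  have k1 : K (m + n) ≤ K m := Ka (by omega)
  have k2 : K (m + n) ≤ K n := Ka (by omega)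
  have k3 : K (m + n) ⊓ St ≤ K m ⊓ St := inf_le_inf_right _ k1
  have k4 : N ⊓ K (m + n) ≤ K (m + n) ⊓ St := le_inf inf_le_right (inf_le_left.trans NS)
  obtain ⟨β, b1, b2⟩ := hINF (N ⊓ K (m + n)) (K (m + n) ⊓ St) _ k4
    (nrm_WMAIN hNU (Kn _) (inf_le_left.trans (KU _))) (C1.mono k3) (C2.mono inf_le_left k3)
    (hn.mono (le_inf k3 (inf_le_left.trans k2)))
  have hOff2 : Off B U (N ⊓ K (m + n)) := fun l _ γ h =>
    le_inf (hOff l γ h) (hUNR p U κ K hZ l γ _ (lp l γ h))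
  obtain ⟨b, N', o1, o2, o3, o4⟩ := hOBS p ζ r e (K (m + n)) _ (N ⊓ K (m + n)) B
    (fun g => ω g ^ i) c β hζ (hGK _) rfl ⟨hB.atp, fun l _ γ g hg => hB.stb l γ g (KU _ hg)⟩
    (hNo.inter (hZ.opn _)) k4 (nrm_WMAIN hNU (Kn _) (KU _))
    (fun l _ γ h => (inf_le_inf_left _ (inf_le_left.trans (KU _))).trans (hOff2 l γ h))
    (fun g hg => by simp only [(ωs g).1 hg.2, one_pow])
    (fun δ _ h => by
      rw [show ω δ = r from inj_WMAIN hζ (by rw [← hω, h, cast_WMAIN hζ])]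
      exact he)
    (fun g hg h hh j hj => hc g (k1 hg) h (k1 hh) j (k1 hj)) (cst_WMAIN hc2 inf_le_left k1) b1 b2
  obtain ⟨N'', n1, n2, n3, n4⟩ := (hIND p).2.2.2.2 N' U o1
  have HU : H ≤ U := (HK 0).trans (KU 0)
  have HH : Nrm H H := fun g hg n hn => H.mul_mem (H.mul_mem hg hn) (H.inv_mem hg)
  have i0 := ωi H
  rw [← Subgroup.inf_relIndex_left] at i0
  obtain ⟨b', c1, c2⟩ := hCOR (ZMod p) (fun g => AddMonoidHom.mulLeft (ω g ^ i))
    ((N'' ⊓ (N ⊓ K (m + n))) ⊓ H) (H ⊓ St) H c b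
    (le_inf inf_le_right (inf_le_left.trans (inf_le_right.trans (inf_le_left.trans NS))))
    inf_le_left (nrm_WMAIN (nrm_WMAIN n3 (nrm_WMAIN hNU (Kn _) le_rfl) HU) HH le_rfl)
    (fun h => i0 (by rw [h, Nat.cast_zero]))
    (fun g _ h _ x => by simp only [AddMonoidHom.coe_mulLeft, ωm, mul_pow, mul_assoc])
    (fun g hg h hh j hj => hc g (HK m hg) h (HK m hh) j (HK m hj))
    (cst_WMAIN hc2 (inf_le_left.trans (inf_le_right.trans inf_le_left)) (HK m))
    (o3.mono (inf_le_left.trans (inf_le_left.trans n2)) (inf_le_inf_right _ (HK _)))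
    fun g hg h hh => by
      simp only [AddMonoidHom.coe_mulLeft, (ωs g).1 hg.2, one_pow, one_mul]
      exact o4 g ⟨HK _ hg.1, hg.2⟩ h ⟨HK _ hh.1, hh.2⟩
  refine ⟨fun g => ((H ⊓ St).relIndex H : ZMod p)⁻¹ * b' g, N'' ⊓ (N ⊓ K (m + n)),
    n1.inter (hNo.inter (hZ.opn _)), fun l _ γ h => le_inf (fun x hx => n4 x fun u hu => ?_)
      (hOff2 l γ h), fun g hg h hh x => ?_, fun g hg h hh => ?_⟩
  · refine o2 l (γ * u⁻¹) (fun a => h ((hB.stb l γ _ (U.inv_mem hu)).1 a)) ⟨?_, k4 ?_⟩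
    · refine (mem_Ine_conj l γ _ _).2 ?_
      rw [show u⁻¹ * (u * x * u⁻¹) * u⁻¹⁻¹ = x by group]
      exact hx.1
    · exact nrm_WMAIN hNU (Kn _) le_rfl u hu x (hOff2 l γ h hx)
  · simp only [c1 g hg h hh ⟨x, H.mul_mem (H.inv_mem hg) hh⟩]
  · have := c2 g hg h hh
    simp only [AddMonoidHom.coe_mulLeft, nsmul_eq_mul] at this
    field_simp
    linear_combination this

end Pool.Agent.MP_3e91a1_nt

end

section

set_option autoImplicit false

open NumberField IsDedekindDomain Module Filter Topology Finset Polynomial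
open scoped Classical

namespace Pool.Agent.MP_3e91a1_nt

open MP_e23604_nt MP_e23604_nt.B MP_e23604_nt.R MP_f3cd89_nt

section
variable {F M : Type} [Field F] [NumberField F] [Field M] [NumberField M] [Algebra F M]

/-- divisors of the base whose pull back is principal up to a norm -/
def H_WSIP (T : Finset (Pr M)) (N : ℕ) (hN : 0 < N) : AddSubgroup (Pr F →₀ ℤ) where
  carrier := {D | ∃ (a : F) (E : Pr M →₀ ℤ), a ≠ 0 ∧ Cong T N (algebraMap F M a) ∧ E ∈ off T ∧
    ∀ w : Pr M, D (w.under (𝓞 F)) = ord w (algebraMap F M a) + ∑ g : M ≃ₐ[F] M, E (gact g w)}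
  zero_mem' := ⟨1, 0, one_ne_zero, fun v _ => by simp, zero_mem _, fun w => by simp [ord_one]⟩
  add_mem' := by
    rintro D D' ⟨a, E, ha, c, o, h⟩ ⟨a', E', ha', c', o', h'⟩
    refine ⟨a * a', E + E', mul_ne_zero ha ha', map_mul (algebraMap F M) a a' ▸ NtbX.cong_mul c c',
      add_mem o o', fun w => ?_⟩
    rw [Finsupp.add_apply, h, h', map_mul, ord_mul w (by simpa using ha) (by simpa using ha')]
    simp only [Finsupp.add_apply, Finset.sum_add_distrib]
    ring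
  neg_mem' := by
    rintro D ⟨a, E, ha, c, o, h⟩
    refine ⟨a⁻¹, -E, inv_ne_zero ha, fun v hv => ?_, neg_mem o, fun w => ?_⟩
    · rw [map_inv₀, ← one_div, div_sub_one (by simpa using ha), map_div₀, NtbX.val_one hN c hv,
        div_one, Valuation.map_sub_swap]
      exact c v hv
    · rw [Finsupp.neg_apply, h, map_inv₀, ord_inv]
      simp only [Finsupp.neg_apply, Finset.sum_neg_distrib]
      ring

theorem up_WSIP (D : Pr F →₀ ℤ) : ∃ D' : Pr M →₀ ℤ, ∀ w : Pr M, D' w = D (w.under (𝓞 F)) :=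
  ⟨Finsupp.onFinset (above M D.support) (fun w => D (w.under (𝓞 F)))
    fun _ h => mem_above.2 (Finsupp.mem_support_iff.2 h), fun _ => rfl⟩

end

theorem SIP_pf : SIP_st := by
  intro F M _ _ _ _ _ _ _ p S N _ h2 hN hU
  have hc : Nat.card (M ≃ₐ[F] M) = p := (IsGalois.card_aut_eq_finrank F M).trans h2
  obtain ⟨f1, f2, -, f4, -, f6, -, f8⟩ := fb F M (M ≃ₐ[F] M)
  obtain ⟨φ, hφ⟩ := f4 S
  obtain ⟨i0, i2⟩ := SIC_ok F M (M ≃ₐ[F] M) S φ ⊥ N (H_WSIP (above M S) N hN) inferInstance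
    hU hφ hN
    (fun x hx => ⟨x, 0, hx.1, cong_CSI2 hx.2.2, zero_mem _, fun w => by
      rw [ord_over (over_under w)]
      by_cases hw : w.under (𝓞 F) ∈ S
      · simp [(val_eq_one_iff _ hx.1).1 (NtbX.val_one hN hx.2.2 hw)]
      · rw [(f6 w).1 (hU w hw)]
        simp⟩)
    (fun v hv h1 => by
      obtain ⟨w, rfl, hw⟩ := hφ v hv
      rw [Subgroup.mem_bot] at h1
      rw [h1] at hw
      have hne : ∀ g : M ≃ₐ[F] M, gact g w = w → g = 1 := fun g h => by
        simpa using ((f8 w 1 (hU w hv) hw).2.1 g).1 h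
      refine ⟨1, Finsupp.single w 1, one_ne_zero, fun v _ => by simp,
        fun u hu => Finsupp.single_eq_of_ne fun e => hv (mem_above.1 (e ▸ hu)), fun w' => ?_⟩
      rw [map_one, ord_one, zero_add]
      by_cases h : w.under (𝓞 F) = w'.under (𝓞 F)
      · obtain ⟨g, rfl⟩ := f2 w w' h
        rw [← h, Finsupp.single_eq_same, Finset.sum_eq_single g⁻¹, ← gact_mul, inv_mul_cancel,
          gact_one, Finsupp.single_eq_same]
        · intro k _ hk
          rw [← gact_mul]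
          exact Finsupp.single_eq_of_ne fun e => hk (eq_inv_of_mul_eq_one_left (hne _ e))
        · exact fun h => absurd (Finset.mem_univ _) h
      · rw [Finsupp.single_eq_of_ne (Ne.symm h)]
        exact (Finset.sum_eq_zero fun g _ =>
          Finsupp.single_eq_of_ne fun e => h (by rw [← e, f1])).symm)
  rw [Subgroup.index_bot, hc] at i2
  unfold AddSubgroup.relIndex AddSubgroup.index at i0 i2
  have := Nat.finite_of_card_ne_zero i0
  have := Fintype.ofFinite (off S ⧸ (H_WSIP (above M S) N hN).addSubgroupOf (off S))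
  choose u hu using up_WSIP (F := F) (M := M)
  refine ⟨univ.image fun q : off S ⧸ (H_WSIP (above M S) N hN).addSubgroupOf (off S) =>
    u q.out.1, card_image_le.trans (by rwa [card_univ, ← Nat.card_eq_fintype_card]),
    fun r hr => ?_, fun D oD hD => ?_⟩
  · obtain ⟨q, -, rfl⟩ := mem_image.1 hr
    exact fun w hw => (hu _ w).trans (q.out.2 _ (mem_above.1 hw))
  · obtain ⟨D₀, h₀⟩ := pull_CSI2 (F := F) D fun w w' h => by
      obtain ⟨g, rfl⟩ := f2 w w' h
      exact (hD g w).symm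
    have o₀ : D₀ ∈ off S := fun v hv => by
      obtain ⟨w, rfl⟩ := under_surj (E' := M) v
      rw [h₀, oD w (mem_above.2 hv)]
    obtain ⟨a, E, ha, cg, o, h⟩ := QuotientAddGroup.eq_iff_sub_mem.1
      (QuotientAddGroup.out_eq' (s := (H_WSIP (above M S) N hN).addSubgroupOf (off S))
        (⟨D₀, o₀⟩ : off S)).symm
    refine ⟨_, mem_image_of_mem _ (mem_univ ((⟨D₀, o₀⟩ : off S) : off S ⧸ _)), a, E, ha, cg, o,
      fun w => ?_⟩
    rw [← h w, ← h₀, hu]
    rfl

end Pool.Agent.MP_3e91a1_nt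

end

section

set_option autoImplicit false

open NumberField IsDedekindDomain Module Filter Topology Finset Polynomial
open scoped Classical

namespace Pool.Agent.MP_3e91a1_nt

open MP_e23604_nt MP_e23604_nt.B MP_e23604_nt.R MP_f3cd89_nt

theorem prod_WLOC {G A : Type} [Group G] [Fintype G] [CommMonoid A] {p : ℕ} (hp : p.Prime)
    (hc : Nat.card G = p) {s : G} (hs : s ≠ 1) (f : G → A) :
    ∏ i ∈ Finset.range p, f (s ^ i) = ∏ g, f g := by
  have : Fact p.Prime := ⟨hp⟩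
  have ho : orderOf s = p := orderOf_eq_prime (by rw [← hc]; exact pow_card_eq_one') hs
  refine Finset.prod_nbij (fun i => s ^ i) (fun _ _ => Finset.mem_univ _) ?_ ?_ fun _ _ => rfl
  · rw [Finset.coe_range, ← ho]
    exact pow_injOn_Iio_orderOf
  · intro g _
    obtain ⟨k, hk⟩ := mem_powers_of_prime_card hc hs (g' := g)
    refine ⟨k % p, by simpa using Nat.mod_lt k hp.pos, ?_⟩
    rw [← ho]
    exact (pow_mod_orderOf s k).trans hk

theorem mul_WLOC {M ι : Type} [Field M] [NumberField M] (w : Pr M) (N : ℕ) (T : Finset ι)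
    (u : ι → M) (hu : ∀ i ∈ T, w.valuation M (u i - 1) ≤ WithZero.exp (-(N : ℤ) - 1)) :
    w.valuation M (∏ i ∈ T, u i - 1) ≤ WithZero.exp (-(N : ℤ) - 1) := by
  induction T using Finset.induction_on with
  | empty => simp
  | insert i T hi ih =>
    have h0 := hu i (Finset.mem_insert_self i T)
    have h1 : w.valuation M (u i) = 1 := val_one_of _ (h0.trans_lt (by
      rw [← WithZero.exp_zero, WithZero.exp_lt_exp]; omega))
    rw [Finset.prod_insert hi, show u i * ∏ j ∈ T, u j - 1 =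
      u i * (∏ j ∈ T, u j - 1) + (u i - 1) by ring]
    refine Valuation.map_add_le _ ?_ h0
    rw [map_mul, h1, one_mul]
    exact ih fun j hj => hu j (Finset.mem_insert_of_mem hj)

theorem rep_WLOC {F M : Type} [Field F] [Field M] [NumberField M] [Algebra F M] :
    ∃ r : Pr M → Pr M, (∀ w, ∃ g : M ≃ₐ[F] M, gact g w = r w) ∧
      ∀ (g : M ≃ₐ[F] M) w, r (gact g w) = r w := by
  let T : Setoid (Pr M) := ⟨fun v w => ∃ g : M ≃ₐ[F] M, gact g v = w, fun v => ⟨1, gact_one v⟩,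
    fun ⟨g, e⟩ => ⟨g⁻¹, by rw [← e, ← gact_mul, inv_mul_cancel, gact_one]⟩,
    fun ⟨g, e⟩ ⟨g', e'⟩ => ⟨g' * g, by rw [gact_mul, e, e']⟩⟩
  refine ⟨fun w => (Quotient.mk T w).out, fun w => T.symm (Quotient.mk_out w), fun g w => ?_⟩
  exact congrArg Quotient.out (Quotient.sound (s := T) ⟨g, rfl⟩).symm

theorem LOC_pf : LOC_st := by
  intro F M _ _ _ _ _ _ s p S a hp h2 hs a0 hsa hev hloc
  have : Fact p.Prime := ⟨hp⟩
  have hc : Nat.card (M ≃ₐ[F] M) = p := by rw [IsGalois.card_aut_eq_finrank, h2]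
  have hfix : ∀ (g : M ≃ₐ[F] M) (w : Pr M), g ≠ 1 → gact g w = w →
      ∀ g' : M ≃ₐ[F] M, gact g' w = w := by
    intro g w hg hw g'
    obtain ⟨k, rfl⟩ := mem_powers_of_prime_card hc hg (g' := g')
    induction k with
    | zero => exact gact_one w
    | succ k ih =>
      change gact (g ^ (k + 1)) w = w
      rw [pow_succ, gact_mul, hw]
      exact ih
  have hga : ∀ g : M ≃ₐ[F] M, g a = a := by
    intro g
    obtain ⟨k, rfl⟩ := mem_powers_of_prime_card hc hs (g' := g)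
    induction k with
    | zero => rfl
    | succ k ih =>
      change (s ^ (k + 1)) a = a
      rw [pow_succ, AlgEquiv.mul_apply, hsa]
      exact ih
  have hinv : ∀ (g : M ≃ₐ[F] M) (w : Pr M), gact g (gact g⁻¹ w) = w := fun g w => by
    rw [← gact_mul, mul_inv_cancel, gact_one]
  have hord : ∀ (g : M ≃ₐ[F] M) (w : Pr M), ord (gact g w) a = ord w a := fun g w => by
    have := ord_gact g w a
    rwa [AlgEquiv.smul_def, hga] at this
  have hne : ∀ w : Pr M, gact s w ≠ w → ∀ g : M ≃ₐ[F] M, gact s (gact g w) ≠ gact g w := by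
    intro w hw g e
    have e1 := hfix s _ hs e g⁻¹
    rw [← gact_mul, inv_mul_cancel, gact_one] at e1
    rw [← e1] at e
    exact hw e
  obtain ⟨r, hr1, hr2⟩ := rep_WLOC (F := F) (M := M)
  have hch : ∀ w : Pr M, gact s w ≠ w → ∃ g₀ : M ≃ₐ[F] M, ∀ g : M ≃ₐ[F] M,
      r (gact g w) = gact g w ↔ g = g₀ := by
    intro w hw
    obtain ⟨g₀, e⟩ := hr1 w
    refine ⟨g₀, fun g => ⟨fun h => ?_, fun h => by rw [hr2, h, e]⟩⟩
    rw [hr2, ← e] at h
    by_contra hg
    refine hw (hfix (g⁻¹ * g₀) w (fun e' => hg (inv_mul_eq_one.1 e')) ?_ s)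
    rw [gact_mul, h, ← gact_mul, inv_mul_cancel, gact_one]
  constructor
  · let e : Pr M → ℤ := fun w => if w ∈ above M S then 0 else
      if gact s w = w then ord w a / p else if r w = w then ord w a else 0
    have he : (Function.support e).Finite := (ord_finite a).subset fun w hw h => hw (by
      simp only [e, h]; simp)
    refine ⟨Finsupp.ofSupportFinite e he, fun w hw => if_pos hw, fun w hw => ?_⟩
    change ord w a = ∑ g : M ≃ₐ[F] M, e (gact g w)
    by_cases h : gact s w = w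
    · obtain ⟨k, hk⟩ := hev w hw h
      have hp0 : (p : ℤ) ≠ 0 := by exact_mod_cast hp.ne_zero
      simp only [hfix s w hs h, e, if_neg hw, if_true, Finset.sum_const, Finset.card_univ]
      rw [hk, Int.mul_ediv_cancel_left _ hp0, nsmul_eq_mul, ← Nat.card_eq_fintype_card, hc]
    · obtain ⟨g₀, hg₀⟩ := hch w h
      simp only [e, above_HNT, if_neg hw, if_neg (hne w h _), hg₀, hord]
      rw [Finset.sum_ite_eq', if_pos (Finset.mem_univ _)]
  · intro N
    choose! y₀ hy₀ using fun w hw h => hloc w hw h N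
    let t : Pr M → M := fun w => if gact s w = w then y₀ w else if r w = w then a else 1
    have ht : ∀ w ∈ above M S, t w ≠ 0 := fun w hw => by
      simp only [t]
      split_ifs with h1 h2
      · exact (hy₀ w hw h1).1
      · exact a0
      · exact one_ne_zero
    have ht' : ∀ w ∈ above M S, w.valuation M
        (a / ∏ g : M ≃ₐ[F] M, g (t (gact g⁻¹ w)) - 1) ≤ WithZero.exp (-(N : ℤ)) := by
      intro w hw
      by_cases h : gact s w = w
      · simp only [hfix s w hs h, t, if_true]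
        rw [← prod_WLOC hp hc hs fun g => g (y₀ w)]
        exact (hy₀ w hw h).2 w (Finset.mem_singleton_self w)
      · obtain ⟨g₀, hg₀⟩ := hch w h
        have e : ∏ g : M ≃ₐ[F] M, g (t (gact g⁻¹ w)) = a := by
          simp only [t, if_neg (hne w h _), hg₀]
          rw [Finset.prod_eq_single g₀⁻¹, inv_inv, if_pos rfl, hga]
          · intro g _ hg
            rw [if_neg fun e' => hg (inv_eq_iff_eq_inv.1 e'), map_one]
          · intro h'
            exact absurd (Finset.mem_univ _) h'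
        rw [e, div_self a0, sub_self, map_zero]
        exact zero_le
    obtain ⟨y, y0, hy⟩ := wa_LOCN (above M S) t ht (-(N : ℤ) - 1)
    refine ⟨y, y0, fun w hw => ?_⟩
    have h1 : ∀ g : M ≃ₐ[F] M, w.valuation M (g y / g (t (gact g⁻¹ w)) - 1) ≤
        WithZero.exp (-(N : ℤ) - 1) := fun g => by
      have h1 := hy _ ((above_HNT S g⁻¹ w).2 hw)
      rwa [← val_gact g, hinv, AlgEquiv.smul_def, map_sub, map_div₀, map_one] at h1
    have h3 := div_LOCN w N (ht' w hw) (mul_WLOC w N Finset.univ _ fun g _ => h1 g)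
    have t1 : ∏ g : M ≃ₐ[F] M, g (t (gact g⁻¹ w)) ≠ 0 := Finset.prod_ne_zero_iff.2 fun g _ => by
      simpa using ht _ ((above_HNT S g⁻¹ w).2 hw)
    rw [Finset.prod_div_distrib, div_div_div_cancel_right₀ t1] at h3
    rw [Nm, prod_WLOC hp hc hs fun g => g y]
    exact h3

end Pool.Agent.MP_3e91a1_nt

end

section

set_option autoImplicit false

open NumberField IsDedekindDomain Module Filter Topology Finset Polynomial
open scoped Classical

namespace Pool.Agent.MP_3e91a1_nt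

open MP_e23604_nt MP_e23604_nt.B MP_e23604_nt.R MP_f3cd89_nt

theorem pow_WHNQ {L : IntermediateField ℚ Qb} {g : GQ} {g' : L ≃ₐ[ℚ] L} (h : Ind g g') (i : ℕ) :
    Ind (g ^ i) (g' ^ i) := by
  induction i with
  | zero => exact fun _ => rfl
  | succ i ih =>
    intro x
    rw [pow_succ, pow_succ, AlgEquiv.mul_apply, AlgEquiv.mul_apply, ih, h]

theorem HNQ_pf (hHNF : HNF_st) (hAPX : APX_st) (hPLC : PLC_st) (hRES : RES_st) (hSB : SB_st) : HNQ_st := by
  intro p hp ζ a H H' χ s hp2 hζ hopen hS hHζ ha hHa hloc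
  obtain ⟨b1, b2, b3, b4, -⟩ := hSB p H H' χ s hS
  obtain ⟨L, _, mem, hH, hres, -⟩ := hRES H hopen
  obtain ⟨σ, hσ⟩ := hres s fun h => ⟨b2 s hS.mem h, fun c => by
    have := b2 s⁻¹ (H'.inv_mem hS.mem) _ c
    rwa [inv_inv, mul_assoc, inv_mul_cancel_right, inv_mul_cancel_left] at this⟩
  have h1 : σ ≠ 1 := fun h => b3 (hH _ fun x hx => (hσ ⟨x, hx⟩).symm.trans (by rw [h]; rfl))
  have h2 : σ ^ p = 1 := AlgEquiv.ext fun x => Subtype.ext
    ((pow_WHNQ hσ p x).trans ((mem x).1 x.2 _ (b4 s hS.mem)))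
  have hlift : ∀ t : GQ, Ind t σ → t ∈ H' ∧ χ t = 1 := fun t ht => by
    have h3 : s⁻¹ * t ∈ H := hH _ fun x hx => by
      rw [AlgEquiv.mul_apply, (ht ⟨x, hx⟩).symm.trans (hσ ⟨x, hx⟩), ← AlgEquiv.mul_apply,
        inv_mul_cancel, AlgEquiv.one_apply]
    have h4 := hS.add s hS.mem _ (b1 h3)
    rw [mul_inv_cancel_left, ((hS.ker _).1 h3).2, add_zero, hS.one] at h4
    exact ⟨(H'.mul_mem_cancel_left (H'.inv_mem hS.mem)).1 (b1 h3), h4⟩
  have haL : a ∈ L := (mem a).2 fun g hg => hHa g (b1 hg)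
  have hζL : ζ ∈ L := (mem ζ).2 fun g hg => hHζ g (b1 hg)
  have ha' : (⟨a, haL⟩ : L) ≠ 0 := fun h => ha (congrArg Subtype.val h)
  obtain ⟨μ, hμ⟩ := hHNF L σ p ⟨ζ, hζL⟩ ⟨a, haL⟩ hp.out hp2 h1 h2
    (IsPrimitiveRoot.of_map_of_injective (f := algebraMap L Qb) hζ (algebraMap L Qb).injective)
    (Subtype.ext ((hσ _).trans (hHζ s hS.mem))) ha' (Subtype.ext ((hσ _).trans (hHa s hS.mem)))
    fun w hw => by
      obtain ⟨l, hl, γ, r, hr⟩ := DIC_ok.1 L w
      obtain ⟨-, -, -, c4, c5, -⟩ := (hPLC L).2 w l γ r hr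
      obtain ⟨-, -, c6, c7⟩ := c4 s σ hσ
      obtain ⟨t, ht, hts⟩ := c6 hw
      obtain ⟨ht1, ht2⟩ := hlift t hts
      rcases hloc l γ t ⟨ht, ht1⟩ ht2 with h | ⟨hI, z, hz, hza⟩
      · exact Or.inl (hAPX p H L w l γ t r σ ⟨a, haL⟩ hopen mem hr ht hts h)
      · refine Or.inr ⟨?_, fun h => ?_⟩
        · have hz0 : z ≠ 0 := by
            rintro rfl
            rw [map_zero, zero_pow hp.out.ne_zero] at hza
            exact ((nv l γ).pos ha).ne' hza
          obtain ⟨k, hk⟩ := c5 z hz0 fun τ h3 h4 => hz τ ⟨h3, b1 (hH τ h4)⟩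
          have h3 := hr.2 _ ha'
          simp only at h3
          rw [hza, hk, ← zpow_natCast, ← zpow_mul] at h3
          have h5 := zpow_right_injective₀ (one_pos.trans hr.1) hr.1.ne' h3
          exact ⟨-k, by linear_combination h5⟩
        · obtain ⟨τ, h3, h4⟩ := c7 h
          obtain ⟨h5, h6⟩ := hlift τ h4
          rw [((hS.ker τ).1 (hI ⟨h3, h5⟩)).2] at h6
          exact zero_ne_one h6
  have e : Nm p s (μ : Qb) = a := by
    refine Eq.trans ?_ (congrArg Subtype.val hμ)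
    rw [Nm, Nm, SubmonoidClass.coe_finsetProd]
    exact prod_congr rfl fun i _ => (pow_WHNQ hσ i μ).symm
  refine ⟨μ, fun h => ha ?_, (mem _).1 μ.2, e⟩
  rw [← e, h]
  exact prod_eq_zero (mem_range.2 hp.out.pos) (map_zero _)

end Pool.Agent.MP_3e91a1_nt

end

section

set_option autoImplicit false

open NumberField IsDedekindDomain Module Filter Topology Finset Polynomial
open scoped Classical

namespace Pool.Agent.MP_3e91a1_nt

open MP_e23604_nt MP_e23604_nt.B MP_e23604_nt.R MP_f3cd89_nt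

theorem TAB_pf (hTB1 : TB1_st) (hIND : IND_st) (hCOM : COM_st) (hZPL : ZPL_st) : TAB_st := by
  intro p _ ζ U N W κ K B c hp hζ hZ hB hF hN hNW hWU hn ho hf hc hi h1
  obtain ⟨i1, i2, i3, i4, -⟩ := hIND p
  obtain ⟨-, -, z3, -, z5, -⟩ := hZPL p U κ K hZ
  obtain ⟨H, hNH, hHW, hH, hd⟩ := i2 N W hNW hn (i4 N W hN)
  have hn' : ∀ X ≤ W, Nrm N X := fun X hX g hg => hn g (hX hg)
  obtain ⟨n, hb⟩ := i1 N N H (fun X => ∃ n, Cob (X ⊓ K n) c) le_rfl hNH (hn' H hHW) (i4 N H hN) hH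
    (by
      have h0 := hi.2.2 1 W.one_mem 1 W.one_mem
      refine ⟨0, Cob.mono (H := N) ?_ inf_le_left⟩
      obtain ⟨M, hM, hMN⟩ := exists_ON (hN.mem_nhds N.one_mem)
      refine ⟨M, fun _ => c 1 1, hM, ⟨fun _ _ _ _ _ => rfl, fun _ _ =>
        ⟨h0.1, fun g hg => h0.2 g (hMN g hg)⟩⟩, fun g hg h hh => ?_⟩
      have e1 : c 1 1 = c g 1 := hi.2.1 1 W.one_mem 1 W.one_mem g (hNW hg) (by simpa using hg)
      have e2 : c g 1 = c g h := hi.1 g (hNW hg) 1 W.one_mem h (hNW hh) (by simpa using hh)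
      simp only [h0.2 g hg, ← e2, ← e1])
    (by
      rintro X X' χ s hX hX' hs ⟨n, hb⟩
      have hW := hX'.trans hHW
      exact hTB1 p ζ U N X X' κ K B c χ s n hp hζ hZ hB hF hN hX (hW.trans hWU) (hn' X' hW)
        (fun l _ γ hl => (inf_le_inf_left _ hW).trans (ho l γ hl)) (fun g hg => hf g (hW hg)) hs
        (hc.mono hW) (hi.mono le_rfl hW) (fun g hg h hh => h1 g (hW hg) h (hW hh)) hb)
  refine ⟨n, hCOM p N (H ⊓ K n) (W ⊓ K n) c Fact.out hN
    ((Subgroup.isOpen_mono hNH hN).inter (hZ.opn n)) (inf_le_inf_right _ hHW) ?_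
    (hc.mono inf_le_left) (hi.mono le_rfl inf_le_left) (fun g hg h hh => h1 g hg.1 h hh.1) hb⟩
  rwa [i3 H W (K n) n hHW (fun g hg => z3 n g (hWU hg)) (i4 _ W (hZ.opn n))
    (fun g hg => z5 n g (hWU hg)) hd]

end Pool.Agent.MP_3e91a1_nt

end

section

set_option autoImplicit false

open NumberField IsDedekindDomain Module Filter Topology Finset Polynomial
open scoped Classical

namespace Pool.Agent.MP_3e91a1_nt

open MP_e23604_nt MP_e23604_nt.B MP_e23604_nt.R MP_f3cd89_nt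

theorem root_WUNR {v : AbsoluteValue Qb ℝ} (hv : IsNonarchimedean v) {η : Qb} {n : ℕ}
    (hn : v n = 1) (h : η ^ n = 1) (h3 : v (η - 1) < 1) : η = 1 := by
  have hn0 : n ≠ 0 := by rintro rfl; simp at hn
  by_contra hη
  have h4 : ∑ i ∈ Finset.range n, η ^ i = 0 := by rw [geom_sum_eq hη, h, sub_self, zero_div]
  have h5 : ∑ i ∈ Finset.range n, (η ^ i - 1) = -(n : Qb) := by
    rw [Finset.sum_sub_distrib, h4]; simp
  have h6 := BValA_sum hv (Finset.range n) (fun i => η ^ i - 1) (v.nonneg _)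
    fun i _ => BValA_geom hv (BValA_root hn0 h).le i
  rw [h5, v.map_neg, hn] at h6
  exact absurd h3 (not_lt.2 h6)

theorem inv_WUNR {M : Type} [AddCommGroup M] {U : Subgroup GQ} {κ : GQ → M} (h : Adt U κ) {g j : GQ}
    (hg : g ∈ U) (hj : j ∈ U) : κ (g⁻¹ * j) = κ j - κ g := by
  have := h g hg _ (U.mul_mem (U.inv_mem hg) hj)
  rw [mul_inv_cancel_left] at this
  rw [this, add_sub_cancel_left]

theorem UNR_pf (hZPL : ZPL_st) : UNR_st := by
  intro p hp U κ K hZ l hl γ m hlp τ hτ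
  have hU : IsOpen (U : Set GQ) := (hZPL p U κ K hZ).1 ▸ hZ.opn 0
  obtain ⟨⟨φ₀, hφ₀⟩, hF⟩ := FRO_ok l γ
  obtain ⟨N, hN, hNU⟩ := exists_ON (hU.mem_nhds U.one_mem)
  have := hN.1
  have := hN.finite
  have hφU : φ₀ ^ N.index ∈ U := hNU _ (N.pow_index_mem φ₀)
  have hφD : φ₀ ^ N.index ∈ Dec (nv l γ) := pow_mem hφ₀.1 _
  obtain ⟨q, hq⟩ : ∃ q, l ^ N.index = q + 1 := ⟨_, (Nat.succ_pred_eq_of_pos
    (pow_pos hl.out.pos _)).symm⟩
  have hq0 : q ≠ 0 := by
    have := Nat.one_lt_pow (Subgroup.index_ne_zero_of_finite (H := N)) hl.out.one_lt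
    omega
  have key : ∀ n, PadicInt.toZModPow n ((q : ℤ_[p]) * κ τ) = PadicInt.toZModPow n 0 := fun n => by
    have hd : ¬ l ∣ p ^ n := fun c =>
      hlp ((Nat.prime_dvd_prime_iff_eq hl.out hp.out).1 (hl.out.dvd_of_dvd_pow c))
    have hv : nv l γ (p ^ n : ℕ) = 1 := by
      have := v_coprime (nv_na l γ) hl.out (nv_lt l γ) (n := (p ^ n : ℕ)) (by exact_mod_cast hd)
      rwa [Int.cast_natCast] at this
    have : NeZero (p ^ n) := ⟨pow_ne_zero _ hp.out.ne_zero⟩
    obtain ⟨z, hz⟩ := HasEnoughRootsOfUnity.exists_primitiveRoot Qb (p ^ n)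
    have hz0 : z ≠ 0 := hz.ne_zero (NeZero.ne _)
    have hφz : ∀ f, (φ₀ ^ f) z = z ^ l ^ f := fun f => by
      induction f with
      | zero => simp
      | succ f ih =>
        rw [pow_succ, AlgEquiv.mul_apply, (hF φ₀ hφ₀).2.2.1 _ z hd hz.pow_eq_one, map_pow, ih,
          ← pow_mul, ← pow_succ]
    let χ : GQ → ZMod (p ^ n) := fun g => PadicInt.toZModPow n (κ g)
    have hχ : Adt U χ := fun g hg j hj => by simp only [χ, hZ.add g hg j hj, map_add]
    obtain ⟨N', hN', hK⟩ := exists_ON ((hZ.opn n).mem_nhds (K n).one_mem)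
    obtain ⟨N'', h1, h2⟩ := Lc.inf1 (H := Ine l γ ⊓ U) (β := fun g => z ^ (χ g).val)
      ⟨N', hN', fun g hg j hj e => by
        have h3 : χ (g⁻¹ * j) = 0 := by
          rw [← RingHom.mem_ker, PadicInt.ker_toZModPow, Ideal.mem_span_singleton]
          exact ((hZ.mem n _).1 (hK _ e)).2
        rw [inv_WUNR hχ hg.2 hj.2, sub_eq_zero] at h3
        simp only [h3]⟩ fun g _ => pow_ne_zero _ hz0
    obtain ⟨y, hy, -, h4⟩ := H90_ok.1 N'' _ _ h1 h2 fun g hg j hj => by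
      rw [map_pow, Inr_root (nv_na l γ) hg.1 hv hz.pow_eq_one, hχ g hg.2 j hj.2, ZMod.val_add,
        ← pow_add, ← pow_eq_pow_mod _ hz.pow_eq_one]
    have hφ := hφz N.index
    rw [hq] at hφ
    generalize φ₀ ^ N.index = φ at hφ hφU hφD
    have h5 : φ⁻¹ * (τ * φ) ∈ Ine l γ ⊓ U := ⟨mul_assoc φ⁻¹ τ φ ▸ Ine_conj (inv_mem hφD) hτ.1,
      U.mul_mem (U.inv_mem hφU) (U.mul_mem hτ.2 hφU)⟩
    have h6 : τ (φ y / y) = z ^ (q * (χ τ).val) * (φ y / y) := by
      have h7 := congrArg φ (h4 _ h5)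
      rw [← AlgEquiv.mul_apply, mul_inv_cancel_left, AlgEquiv.mul_apply,
        inv_WUNR hχ hφU (U.mul_mem hτ.2 hφU), hχ _ hτ.2 _ hφU, add_sub_cancel_right, map_mul,
        map_pow, hφ] at h7
      rw [map_div₀, h7, h4 τ hτ]
      field_simp
      ring
    have h8 : nv l γ (φ y / y) = 1 := by
      rw [map_div₀, hφD y, div_self ((nv l γ).pos hy).ne']
    have h9 := hτ.1 _ h8.le
    rw [h6, ← sub_one_mul, map_mul, h8, mul_one] at h9
    have h10 := (hz.pow_eq_one_iff_dvd _).1 (root_WUNR (nv_na l γ) hv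
      (by rw [← pow_mul, mul_comm, pow_mul, hz.pow_eq_one, one_pow]) h9)
    have h11 := (ZMod.natCast_eq_zero_iff _ _).2 h10
    rw [Nat.cast_mul, ZMod.natCast_zmod_val] at h11
    rw [map_mul, map_natCast, map_zero]
    exact h11
  have h0 := (mul_eq_zero.1 (PadicInt.ext_of_toZModPow.1 key)).resolve_left
    (Nat.cast_ne_zero.2 hq0)
  exact (hZ.mem m τ).2 ⟨hτ.2, h0 ▸ dvd_zero _⟩

end Pool.Agent.MP_3e91a1_nt

end

section

set_option autoImplicit false

open NumberField IsDedekindDomain Module Filter Topology Finset Polynomial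
open scoped Classical

namespace Pool.Agent.MP_3e91a1_nt

open MP_e23604_nt MP_e23604_nt.B MP_e23604_nt.R MP_f3cd89_nt

lemma lc_act_WDVA {G A : Type} [TopologicalSpace G] [AddCommGroup A] (a : G → A →+ A)
    (h : ∀ x, IsLocallyConstant fun g => a g x) {b : G → A} (hb : IsLocallyConstant b) :
    IsLocallyConstant fun q : G × G => a q.1 (b q.2) := by
  rw [IsLocallyConstant.iff_eventually_eq]
  intro q
  have h1 := (hb.comp_continuous (continuous_snd (X := G) (Y := G))).eventually_eq q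
  have h2 := ((h (b q.2)).comp_continuous (continuous_fst (X := G) (Y := G))).eventually_eq q
  filter_upwards [h1, h2] with y e1 e2
  simp only [Function.comp] at e1 e2
  rw [e1, e2]

lemma ind_WDVA (p : ℕ) [Fact p.Prime] (G A : Type) [Group G] [TopologicalSpace G]
    [IsTopologicalGroup G] [AddCommGroup A] (a : G → A →+ A)
    (hm : ∀ g h x, a (g * h) x = a g (a h x)) (hl : ∀ x, IsLocallyConstant fun g => a g x)
    (hM : ∀ M : AddSubgroup A, Finite M → M ≠ ⊥ → (∀ g, ∀ x ∈ M, a g x ∈ M) →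
      ∃ (ψ : G → ZMod p) (f : M →+ ZMod p), f ≠ 0 ∧
        (∀ (g : G) (x y : M), (y : A) = a g x → f y = ψ g * f x) ∧
        H2Zero fun (g : G) (x : ZMod p) => ψ g * x) (n : ℕ) :
    ∀ M : AddSubgroup A, Finite M → (M : Set A).ncard = n → (∀ g, ∀ x ∈ M, a g x ∈ M) →
      ∀ c : G × G → A, (∀ q, c q ∈ M) → IsLocallyConstant c →
        (∀ g h j, a g (c (h, j)) - c (g * h, j) + c (g, h * j) - c (g, h) = 0) →
        ∃ b : G → A, IsLocallyConstant b ∧ ∀ g h, c (g, h) = a g (b h) - b (g * h) + b g := by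
  induction n using Nat.strong_induction_on with
  | _ n ih =>
  intro M hf hn hs c hc lc co
  by_cases h0 : M = ⊥
  · refine ⟨fun _ => 0, IsLocallyConstant.const _, fun g h => ?_⟩
    have h1 := hc (g, h)
    rw [h0, AddSubgroup.mem_bot] at h1
    simp [h1]
  obtain ⟨ψ, f, f0, hψ, h2⟩ := hM M hf h0 hs
  obtain ⟨x₀, hx₀⟩ : ∃ x, f x ≠ 0 := by
    by_contra h
    exact f0 (AddMonoidHom.ext fun x => not_not.1 fun h' => h ⟨x, h'⟩)
  have hsur : ∀ z : ZMod p, ∃ x : M, f x = z := fun z =>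
    ⟨(z * (f x₀)⁻¹).val • x₀, by
      rw [map_nsmul, nsmul_eq_mul, ZMod.natCast_zmod_val, inv_mul_cancel_right₀ hx₀]⟩
  choose sec hsec using hsur
  let F : A → ZMod p := fun x => if h : x ∈ M then f ⟨x, h⟩ else 0
  have hF : ∀ q, F (c q) = f ⟨c q, hc q⟩ := fun q => dif_pos (hc q)
  obtain ⟨b, lb, hb⟩ := h2 (F ∘ c) (lc.comp F) fun g h j => by
    simp only [Function.comp, hF]
    rw [← hψ g ⟨_, hc (h, j)⟩ ⟨_, hs g _ (hc (h, j))⟩ rfl, ← map_sub, ← map_add, ← map_sub,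
      ← map_zero f]
    exact congrArg f (Subtype.ext (co g h j))
  have l1 : IsLocallyConstant fun g => (sec (b g) : A) := lb.comp fun z => (sec z : A)
  let M' : AddSubgroup A := f.ker.map M.subtype
  have hle : M' ≤ M := AddSubgroup.map_subtype_le _
  have hlt : (M' : Set A) ⊂ M := by
    refine ⟨hle, fun h => ?_⟩
    obtain ⟨y, hy, e⟩ := h x₀.2
    obtain rfl : y = x₀ := Subtype.ext e
    exact hx₀ hy
  have hfin : (M : Set A).Finite := hf
  obtain ⟨b', lb', hb'⟩ := ih _ (hn ▸ Set.ncard_lt_ncard hlt hfin) M' (hfin.subset hle) rfl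
    (by
      rintro g _ ⟨y, hy, rfl⟩
      refine ⟨⟨_, hs g _ y.2⟩, ?_, rfl⟩
      have h3 : f y = 0 := hy
      have h4 := hψ g y ⟨_, hs g _ y.2⟩ rfl
      rw [h3, mul_zero] at h4
      exact h4)
    (fun q => c q - (a q.1 (sec (b q.2)) - sec (b (q.1 * q.2)) + sec (b q.1)))
    (fun q => by
      refine ⟨⟨c q, hc q⟩ - (⟨_, hs q.1 _ (sec (b q.2)).2⟩ - sec (b (q.1 * q.2)) + sec (b q.1)),
        ?_, rfl⟩
      have h3 := hb q.1 q.2
      simp only [Function.comp, hF] at h3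
      show f _ = 0
      rw [map_sub, map_add, map_sub, hψ q.1 (sec (b q.2)) ⟨_, hs q.1 _ (sec (b q.2)).2⟩ rfl,
        hsec, hsec, hsec, ← h3, sub_self])
    (lc.sub (((lc_act_WDVA a hl l1).sub (l1.comp_continuous continuous_mul)).add
      (l1.comp_continuous continuous_fst)))
    (fun g h j => by
      have h3 := co g h j
      simp only [map_sub, map_add, ← hm, mul_assoc]
      rw [← h3]
      abel)
  refine ⟨fun g => sec (b g) + b' g, l1.add lb', fun g h => ?_⟩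
  have h3 := hb' g h
  simp only at h3
  beta_reduce
  rw [map_add, sub_eq_iff_eq_add.1 h3]
  abel

theorem DVA_pf : DVA_st := by
  intro p _ G A _ _ _ _ _ a hm hl ht hM c lc co
  let T : Set A := Set.range c ∪ ⋃ x ∈ Set.range c, Set.range fun g => a g x
  have hT : T.Finite := lc.range_finite.union
    (lc.range_finite.biUnion fun x _ => (hl x).range_finite)
  have hs : ∀ g, ∀ x ∈ T, a g x ∈ T := by
    rintro g x (hx | hx)
    · exact Or.inr (Set.mem_biUnion hx ⟨g, rfl⟩)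
    · obtain ⟨y, hy, h, rfl⟩ := Set.mem_iUnion₂.1 hx
      exact Or.inr (Set.mem_biUnion hy ⟨g * h, hm g h y⟩)
  have : Finite T := hT
  have hf : Finite (AddSubgroup.closure T) :=
    AddCommGroup.finite_of_fg_isAddTorsion _ fun x =>
      (AddSubgroup.subtype_injective _).isOfFinAddOrder_iff.1 (ht x)
  refine ind_WDVA p G A a hm hl hM _ (AddSubgroup.closure T) hf rfl (fun g x hx => ?_) c
    (fun q => AddSubgroup.subset_closure (Or.inl ⟨q, rfl⟩)) lc co
  exact (AddSubgroup.closure_le ((AddSubgroup.closure T).comap (a g))).2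
    (fun y hy => AddSubgroup.subset_closure (hs g y hy)) hx

end Pool.Agent.MP_3e91a1_nt

end

section

set_option autoImplicit false

open NumberField IsDedekindDomain Module Filter Topology Finset Polynomial
open scoped Classical

namespace Pool.Agent.MP_3e91a1_nt

open MP_e23604_nt MP_e23604_nt.B MP_e23604_nt.R MP_f3cd89_nt

open MP_346737_nt MP_0c8446_ag in
theorem NZ0_pf : NZ0_st := by
  intro d χ hd hχ
  have : NeZero d := ⟨by omega⟩
  have : Fact (1 < d) := ⟨by omega⟩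
  have hw : ∀ l : ℕ, ZMod.stdAddChar (1 : ZMod d) ^ l = ZMod.stdAddChar (l : ZMod d) := fun l => by
    rw [← AddChar.map_nsmul_eq_pow, nsmul_eq_mul, mul_one]
  refine ⟨ZMod.stdAddChar (1 : ZMod d), ⟨by rw [hw, ZMod.natCast_self, AddChar.map_zero_eq_one],
    fun l h => (ZMod.natCast_eq_zero_iff l d).1 (ZMod.injective_stdAddChar
      (by rw [← hw, h, AddChar.map_zero_eq_one]))⟩, fun h => ?_⟩
  let ψ : DirichletCharacter ℂ d := χ.ringHomComp (Int.castRingHom ℂ)
  have ho : ψ (-1) = -1 := by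
    change ((χ (-1) : ℤ) : ℂ) = -1
    rw [hχ]
    norm_num
  have hne : ψ ≠ 1 := fun c => by
    rw [c, MulChar.one_apply isUnit_one.neg] at ho
    norm_num at ho
  refine DirichletCharacter.LFunction_apply_one_ne_zero hne ?_
  rw [← bern_val ψ hne _ (bern_lim ψ ho)]
  have h2 : ∀ a : ZMod d, ψ a * VCot_c a = -Complex.I * (ψ a + 2 *
      (ψ a * (ZMod.stdAddChar a / (1 - ZMod.stdAddChar a)))) := fun a => by
    by_cases ha : a = 0
    · simp [ha, MulChar.map_zero]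
    · have z1 : 1 - ZMod.stdAddChar a ≠ 0 := sub_ne_zero.2 fun c =>
        ha (ZMod.injective_stdAddChar (by rw [← c, AddChar.map_zero_eq_one]))
      have hI := Complex.I_ne_zero
      rw [VCot_c_eq]
      field_simp
      linear_combination (ψ a * (ZMod.stdAddChar a + 1)) * Complex.I_sq
  rw [Tq, VCot_range] at h
  simp only [hw, ZMod.natCast_zmod_val, Qp, aeval_X] at h
  rw [sum_congr rfl fun a _ => h2 a, ← mul_sum, sum_add_distrib, ← mul_sum,
    MulChar.sum_eq_zero_of_ne_one hne, show ∑ a : ZMod d, ψ a * _ = 0 from h]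
  simp

end Pool.Agent.MP_3e91a1_nt

end

section

set_option autoImplicit false

open NumberField IsDedekindDomain Module Filter Topology Finset Polynomial
open scoped Classical

namespace Pool.Agent.MP_3e91a1_nt

open MP_e23604_nt MP_e23604_nt.B MP_e23604_nt.R MP_f3cd89_nt

/-- the coefficients of the powers of `z / (1 - z)` -/
def e_WGEO : ℕ → ℕ → ℤ
  | 0, 0 => 1
  | 0, _ + 1 => 0
  | _ + 1, 0 => 0
  | i + 1, m + 1 => m.choose i

theorem sum_WGEO (i : ℕ) {z : ℂ} (hz : ‖z‖ < 1) :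
    HasSum (fun m : ℕ => (e_WGEO i m : ℂ) * z ^ m) ((z / (1 - z)) ^ i) := by
  rcases i with _ | i
  · have h := hasSum_single (f := fun m : ℕ => (e_WGEO 0 m : ℂ) * z ^ m) 0 fun m hm => by
      obtain ⟨m, rfl⟩ := Nat.exists_eq_succ_of_ne_zero hm
      simp [e_WGEO]
    simpa [e_WGEO] using h
  · rw [← hasSum_nat_add_iff' (i + 1)]
    have h0 : ∑ m ∈ range (i + 1), (e_WGEO (i + 1) m : ℂ) * z ^ m = 0 :=
      Finset.sum_eq_zero fun m hm => by
        rcases m with _ | m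
        · simp [e_WGEO]
        · have : m < i := by simpa using hm
          simp [e_WGEO, Nat.choose_eq_zero_of_lt this]
    have h := (hasSum_choose_mul_geometric_of_norm_lt_one i hz).mul_left (z ^ (i + 1))
    rw [h0, sub_zero, div_pow, div_eq_mul_one_div]
    have e : (fun n : ℕ => (e_WGEO (i + 1) (n + (i + 1)) : ℂ) * z ^ (n + (i + 1))) =
        fun n : ℕ => z ^ (i + 1) * (((n + i).choose i : ℂ) * z ^ n) := by
      funext n
      rw [← add_assoc]
      simp only [e_WGEO, Int.cast_natCast]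
      ring
    rw [e]
    exact h

theorem rec_WGEO (i m : ℕ) : (m : ℤ) * e_WGEO i m = i * (e_WGEO i m + e_WGEO (i + 1) m) := by
  rcases i with _ | i <;> rcases m with _ | m <;> simp only [e_WGEO]
  · simp
  · simp
  · simp
  · have h := Nat.add_one_mul_choose_eq m i
    rw [Nat.choose_succ_succ'] at h
    have h' := congrArg (Nat.cast : ℕ → ℤ) h
    push_cast at h' ⊢
    linear_combination h'

/-- the coefficients of a polynomial in `z / (1 - z)` -/
noncomputable def T_WGEO (P : ℤ[X]) (m : ℕ) : ℤ := P.sum fun i a => a * e_WGEO i m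

theorem add_WGEO (P Q : ℤ[X]) (m : ℕ) : T_WGEO (P + Q) m = T_WGEO P m + T_WGEO Q m :=
  Polynomial.sum_add_index P Q _ (fun _ => zero_mul _) fun _ _ _ => add_mul _ _ _

theorem mon_WGEO (i : ℕ) (a : ℤ) (m : ℕ) : T_WGEO (monomial i a) m = a * e_WGEO i m :=
  Polynomial.sum_monomial_index a _ (zero_mul _)

theorem has_WGEO (P : ℤ[X]) {z : ℂ} (hz : ‖z‖ < 1) :
    HasSum (fun m : ℕ => (T_WGEO P m : ℂ) * z ^ m) (aeval (z / (1 - z)) P) := by
  induction P using Polynomial.induction_on' with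
  | add P Q hP hQ => simpa [add_WGEO, add_mul] using hP.add hQ
  | monomial i a => simpa [mon_WGEO, mul_assoc, aeval_monomial] using
      (sum_WGEO i hz).mul_left (a : ℂ)

theorem der_WGEO (P : ℤ[X]) (m : ℕ) :
    T_WGEO (derivative P * (X * (1 + X))) m = m * T_WGEO P m := by
  induction P using Polynomial.induction_on' with
  | add P Q hP hQ => rw [derivative_add, add_mul, add_WGEO, add_WGEO, hP, hQ, mul_add]
  | monomial i a =>
    have e : derivative (monomial i a) * (X * (1 + X)) =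
        monomial i (a * i) + monomial (i + 1) (a * i) := by
      rcases i with _ | i
      · simp
      · rw [derivative_monomial, mul_add, mul_one, mul_add, ← mul_assoc, monomial_mul_X,
          monomial_mul_X]
        rfl
    rw [e, add_WGEO, mon_WGEO, mon_WGEO, mon_WGEO]
    linear_combination (-a) * rec_WGEO i m

theorem Q_WGEO (n m : ℕ) : T_WGEO (Qp n) m = (m : ℤ) ^ n * e_WGEO 1 m := by
  induction n with
  | zero => rw [Qp, ← monomial_one_one_eq_X, mon_WGEO, pow_zero]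
  | succ n ih => rw [Qp, der_WGEO, ih, pow_succ]; ring

theorem GEO_pf : GEO_st := by
  intro n z hz hn
  have e : (fun m : ℕ => (m : ℂ) ^ n * z ^ m) = fun m : ℕ => (T_WGEO (Qp n) m : ℂ) * z ^ m := by
    funext m
    rw [Q_WGEO]
    rcases m with _ | m
    · simp [hn.ne']
    · simp [e_WGEO]
  rw [e]
  exact has_WGEO _ hz

end Pool.Agent.MP_3e91a1_nt

end

section

set_option autoImplicit false

open NumberField IsDedekindDomain Module Filter Topology Finset Polynomial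
open scoped Classical

namespace Pool.Agent.MP_3e91a1_nt

open MP_e23604_nt MP_e23604_nt.B MP_e23604_nt.R MP_f3cd89_nt

open IsCyclotomicExtension.Rat in
theorem CNT_pf : CNT_st := by
  intro p d M _ _ _ ξ hp hpd hξ
  have hd : 0 < d := Nat.pos_of_ne_zero fun h => hpd (h ▸ dvd_zero p)
  have : NeZero (d * p) := ⟨(Nat.mul_pos hd hp.pos).ne'⟩
  have hco : d.Coprime p := ((Nat.Prime.coprime_iff_not_dvd hp).2 hpd).symm
  refine ⟨fun σ => (galEquivZMod (d * p) M σ).val.val, fun σ =>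
    ⟨galEquivZMod_smul_of_pow_eq _ _ σ hξ.pow_eq_one, ZMod.val_coe_unit_coprime _⟩,
    fun R _ G => ?_⟩
  rw [← sum_product']
  refine sum_bij (fun σ _ => ((galEquivZMod (d * p) M σ).val.val % d,
    (galEquivZMod (d * p) M σ).val.val % p)) (fun σ _ => ?_) (fun σ _ τ _ h => ?_)
    (fun b hb => ?_) fun σ _ => rfl
  · have h := ZMod.val_coe_unit_coprime (galEquivZMod (d * p) M σ)
    simp only [mem_product, mem_filter, mem_range, mem_Ico]
    refine ⟨⟨Nat.mod_lt _ hd, ?_⟩, Nat.pos_of_ne_zero fun h0 => ?_, Nat.mod_lt _ hp.pos⟩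
    · rw [Nat.Coprime, ← Nat.gcd_rec, Nat.gcd_comm]
      exact h.coprime_mul_right_right
    · exact (Nat.Prime.coprime_iff_not_dvd hp).1 h.coprime_mul_left_right.symm
        (Nat.dvd_of_mod_eq_zero h0)
  · have h1 := (Nat.modEq_and_modEq_iff_modEq_mul hco).1 ⟨congrArg Prod.fst h, congrArg Prod.snd h⟩
    exact (galEquivZMod (d * p) M).injective (Units.ext (ZMod.val_injective _
      (Nat.ModEq.eq_of_lt_of_lt h1 (ZMod.val_lt _) (ZMod.val_lt _))))
  · obtain ⟨x, y⟩ := b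
    simp only [mem_product, mem_filter, mem_range, mem_Ico] at hb
    obtain ⟨⟨h1, h2⟩, h3, h4⟩ := hb
    obtain ⟨k, k1, k2⟩ := Nat.chineseRemainder hco x y
    have hk : k.Coprime (d * p) := by
      refine Nat.Coprime.mul_right ?_ ?_
      · rw [Nat.Coprime, k1.gcd_eq]
        exact h2
      · rw [Nat.Coprime, k2.gcd_eq]
        exact ((Nat.Prime.coprime_iff_not_dvd hp).2 (Nat.not_dvd_of_pos_of_lt h3 h4)).symm
    refine ⟨(galEquivZMod (d * p) M).symm (ZMod.unitOfCoprime k hk), mem_univ _, ?_⟩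
    rw [MulEquiv.apply_symm_apply, ZMod.coe_unitOfCoprime, ZMod.val_natCast,
      Nat.mod_mul_right_mod, Nat.mod_mul_left_mod, k1, k2, Nat.mod_eq_of_lt h1, Nat.mod_eq_of_lt h4]

open IsCyclotomicExtension.Rat in
theorem SPL_pf : SPL_st := by
  intro m q M _ _ _ ξ φ hq hm hqm hξ
  have : Fact q.Prime := ⟨hq⟩
  have : NeZero m := ⟨hm.ne'⟩
  have : NeZero (m : ZMod q) := ⟨fun h => hqm ((ZMod.natCast_eq_zero_iff m q).1 h)⟩
  have hz : IsPrimitiveRoot (φ ξ) m := by
    rw [← isRoot_cyclotomic_iff, ← map_cyclotomic m φ]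
    exact (hξ.isRoot_cyclotomic hm).map
  refine ⟨hz, hz.eq_orderOf ▸ ZMod.orderOf_dvd_card_sub_one (hz.ne_zero hm.ne'), ?_⟩
  set ψ : (M ≃ₐ[ℚ] M) → (𝓞 M →+* ZMod q) := fun σ =>
    φ.comp (MulSemiringAction.toRingHom _ (𝓞 M) σ) with hψ
  set Q : (M ≃ₐ[ℚ] M) → Ideal (𝓞 M) := fun σ => RingHom.ker (ψ σ) with hQ
  have hn : ∀ χ : 𝓞 M →+* ZMod q, Ideal.absNorm (RingHom.ker χ) = q := fun χ => by
    rw [Ideal.absNorm_apply, Submodule.cardQuot_apply, Nat.card_congr
      (RingHom.quotientKerEquivOfSurjective (ZMod.ringHom_surjective χ)).toEquiv, Nat.card_zmod]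
  have h0 : ∀ χ : 𝓞 M →+* ZMod q, RingHom.ker χ ≠ ⊥ := fun χ h => by
    have := hn χ
    rw [h, Ideal.absNorm_bot] at this
    exact hq.ne_zero this.symm
  have hQmax : ∀ σ, (Q σ).IsMaximal := fun σ =>
    RingHom.ker_isMaximal_of_surjective _ (ZMod.ringHom_surjective _)
  have hQp : ∀ σ, Prime (Q σ) := fun σ => Ideal.prime_of_isPrime (h0 _) (hQmax σ).isPrime
  have hinj : Function.Injective Q := by
    intro σ τ h
    have h1 : ∀ ρ : M ≃ₐ[ℚ] M, ψ ρ ξ = φ ξ ^ (galEquivZMod m M ρ).val.val := fun ρ => by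
      rw [← map_pow]
      exact congrArg φ (galEquivZMod_smul_of_pow_eq _ _ ρ hξ.pow_eq_one)
    have h2 := MP_346737_nt.VThaine_eq_of_ker h ξ
    rw [h1, h1] at h2
    exact (galEquivZMod m M).injective (Units.ext (ZMod.val_injective m
      (hz.pow_inj (ZMod.val_lt _) (ZMod.val_lt _) h2)))
  have hdvd : ∀ σ τ, Q σ ∣ Q τ → σ = τ := fun σ τ h =>
    hinj ((hQmax τ).eq_of_le (hQmax σ).ne_top (Ideal.le_of_dvd h)).symm
  have hprod : ∏ σ, Q σ = Ideal.span {(q : 𝓞 M)} := by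
    have h1 : ∏ σ, Q σ ∣ Ideal.span {(q : 𝓞 M)} := by
      refine Finset.prod_dvd_of_coprime (fun σ _ τ _ h => ?_) fun σ _ => ?_
      · exact Ideal.isCoprime_iff_sup_eq.2 ((hQmax σ).coprime_of_ne (hQmax τ) (hinj.ne h))
      · rw [Ideal.dvd_span_singleton, hQ, RingHom.mem_ker]
        simp
    obtain ⟨J, hJ⟩ := h1
    have h2 := congrArg Ideal.absNorm hJ
    have := IsCyclotomicExtension.isGalois {m} ℚ M
    rw [Ideal.absNorm_span_natCast, map_mul, map_prod, RingOfIntegers.rank,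
      ← IsGalois.card_aut_eq_finrank, Finset.prod_congr rfl fun σ _ => hn (ψ σ), Finset.prod_const,
      Finset.card_univ, Nat.card_eq_fintype_card] at h2
    have h3 : Ideal.absNorm J = 1 :=
      (mul_left_cancel₀ (pow_ne_zero _ hq.ne_zero) ((mul_one _).trans h2)).symm
    rw [hJ, Ideal.absNorm_eq_one_iff.1 h3, Ideal.mul_top]
  have hsq : ∀ σ, ¬ Q σ ^ 2 ∣ Ideal.span {(q : 𝓞 M)} := by
    intro σ h
    rw [← hprod, ← Finset.mul_prod_erase _ _ (Finset.mem_univ σ),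
      pow_two, mul_dvd_mul_iff_left (h0 _)] at h
    obtain ⟨τ, h1, h2⟩ := ((hQp σ).dvd_finsetProd_iff _).1 h
    exact (Finset.mem_erase.1 h1).1 (hdvd _ _ h2).symm
  let w : Pr M := ⟨RingHom.ker φ,
    (RingHom.ker_isMaximal_of_surjective _ (ZMod.ringHom_surjective φ)).isPrime, h0 φ⟩
  have hw : ∀ σ : M ≃ₐ[ℚ] M, (gact σ w).asIdeal = Q σ⁻¹ := by
    intro σ
    rw [gact_asIdeal]
    ext a
    rw [Ideal.mem_pointwise_smul_iff_inv_smul_mem]
    exact Iff.rfl
  refine ⟨w, rfl, fun σ τ h => ?_, fun v hv => ?_, fun σ => ?_⟩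
  · have h1 := congrArg HeightOneSpectrum.asIdeal h
    rw [hw, hw] at h1
    exact inv_injective (hinj h1)
  · rw [← Ideal.dvd_span_singleton, ← hprod] at hv
    obtain ⟨τ, -, h6⟩ := (v.prime.dvd_finsetProd_iff _).1 hv
    refine ⟨τ⁻¹, HeightOneSpectrum.ext ?_⟩
    rw [hw, inv_inv]
    exact ((hQmax τ).eq_of_le v.isPrime.ne_top (Ideal.le_of_dvd h6)).symm
  · have h1 := ord_int (gact σ w) (a := (q : 𝓞 M)) (Nat.cast_ne_zero.2 hq.ne_zero)
    rw [hw, multiplicity_eq_of_dvd_of_not_dvd (k := 1)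
      (by rw [pow_one, ← hprod]; exact dvd_prod_of_mem _ (mem_univ _)) (hsq _)] at h1
    simpa using h1

end Pool.Agent.MP_3e91a1_nt

end

section

set_option autoImplicit false

open NumberField IsDedekindDomain Module Filter Topology Finset Polynomial
open scoped Classical

namespace Pool.Agent.MP_3e91a1_nt

open MP_e23604_nt MP_e23604_nt.B MP_e23604_nt.R MP_f3cd89_nt

theorem cnt_WTHM {M : Type} [Field M] [NumberField M] (v : Pr M) {a : 𝓞 M} (ha : a ≠ 0) :
    ord v (a : M) = (UniqueFactorizationMonoid.normalizedFactors (Ideal.span {a})).count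
      v.asIdeal := by
  rw [ord_int v ha, UniqueFactorizationMonoid.multiplicity_eq_count_normalizedFactors
    v.irreducible (by simpa using ha), normalize_eq]

theorem THM_pf : THM_st := by
  intro p q M _ _ φ w x f hq hp hS hx hx1 hf
  have : Fact q.Prime := ⟨hq⟩
  have h0 : ∑ i ∈ range q, x ^ i = 1 :=
    mul_right_cancel₀ (sub_ne_zero.2 hx1) (by rw [geom_sum_mul, hx, one_mul])
  obtain ⟨s, a, ha, h1, h2⟩ := MP_346737_nt.Th.glob (q := q) x h0
  have hk : ∀ σ : M ≃ₐ[ℚ] M, RingHom.ker (φ.comp (MulSemiringAction.toRingHom _ (𝓞 M) σ)) =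
      (gact σ⁻¹ w).asIdeal := fun σ => by
    ext y
    rw [gact_asIdeal, Ideal.mem_inv_pointwise_smul_iff, hS.ker]
    exact Iff.rfl
  refine ⟨s⁻¹, fun σ => (UniqueFactorizationMonoid.normalizedFactors (Ideal.span {a})).count
    (gact σ⁻¹ w).asIdeal, fun σ => ?_, ?_⟩
  · have h3 := h2 (φ.comp (MulSemiringAction.toRingHom _ (𝓞 M) σ)) fun h => by
      have q0 : ((q : 𝓞 M) : M) ≠ 0 := by simpa using hq.ne_zero
      rw [hk, ← HeightOneSpectrum.intValuation_le_pow_iff_mem,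
        ← HeightOneSpectrum.valuation_of_algebraMap (K := M), val_eq_exp _ q0,
        WithZero.exp_le_exp, show ((q : 𝓞 M) : M) = q from map_natCast (algebraMap _ M) q,
        hS.one] at h
      omega
    rw [hk] at h3
    rw [inv_pow]
    exact (eq_inv_of_mul_eq_one_left h3).symm
  · have h3 : ∀ σ : M ≃ₐ[ℚ] M, (((UniqueFactorizationMonoid.normalizedFactors
        (Ideal.span {a})).count (gact σ⁻¹ w).asIdeal : ℕ) : ZMod p) =
        (ord (gact σ⁻¹ w) (a : M) : ℤ) := fun σ => by rw [cnt_WTHM _ ha, Int.cast_natCast]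
    simp only [h3]
    rw [← hf a (by simpa using ha), ← sum_image (g := fun σ : M ≃ₐ[ℚ] M => gact σ⁻¹ w)
      (f := fun v => ((ord v (a : M) : ℤ) : ZMod p) * f v)
      fun σ _ τ _ h => inv_injective (hS.inj _ _ h)]
    refine sum_congr_of_eq_on_inter (fun v _ hv => ?_) (fun v _ hv => ?_) fun _ _ _ => rfl
    · rw [show ord v (a : M) = 0 from Finsupp.notMem_support_iff.1 hv, Int.cast_zero, zero_mul]
    · beta_reduce
      rw [dv_apply, cnt_WTHM _ ha, Int.cast_natCast, (ZMod.natCast_eq_zero_iff _ _).2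
        (hp.trans (h1 _ v.isPrime v.ne_bot fun h => hv ?_)), zero_mul]
      obtain ⟨σ, rfl⟩ := hS.all v h
      exact mem_image.2 ⟨σ⁻¹, mem_univ _, by rw [inv_inv]⟩

open nonZeroDivisors in
theorem PSI_pf : PSI_st := by
  intro p M _ _ f hf
  let D : (FractionalIdeal (𝓞 M)⁰ M)ˣ → Pr M →₀ ℤ := fun I =>
    Finsupp.ofSupportFinite (fun v => FractionalIdeal.count M v I.1)
      (FractionalIdeal.finite_factors I.1)
  let F : (FractionalIdeal (𝓞 M)⁰ M)ˣ →* Multiplicative (ZMod p) := MonoidHom.mk'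
    (fun I => Multiplicative.ofAdd ((D I).sum fun w n => (n : ZMod p) * f w)) fun I J => by
      rw [← ofAdd_add, ← Finsupp.sum_add_index' (fun _ => by simp) fun _ _ _ => by
        push_cast
        ring]
      exact congrArg (fun d : Pr M →₀ ℤ => Multiplicative.ofAdd (d.sum _))
        (Finsupp.ext fun v => FractionalIdeal.count_mul M v I.ne_zero J.ne_zero)
  have hs : Function.Surjective (ClassGroup.mk M : _ → ClassGroup (𝓞 M)) :=
    ClassGroup.induction M fun I => ⟨I, rfl⟩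
  refine ⟨(ClassGroup.mk M).liftOfSurjective hs ⟨F, fun I hI => ?_⟩, fun w => ?_⟩
  · obtain ⟨y, hy⟩ := (FractionalIdeal.isPrincipal_iff _).1 (ClassGroup.mk_eq_one_iff.1 hI)
    have y0 : y ≠ 0 := FractionalIdeal.spanSingleton_ne_zero_iff.1 (hy ▸ I.ne_zero)
    have e : D I = dv y := Finsupp.ext fun v => by
      rw [dv_apply, ← count_span v y0, ← hy]
      rfl
    change Multiplicative.ofAdd ((D I).sum _) = 1
    rw [e, hf y y0, ofAdd_zero]
  · rw [MP_346737_nt.cl_of_mem (mem_nonZeroDivisors_of_ne_zero w.ne_bot), ← ClassGroup.mk_mk0 M,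
      MonoidHom.liftOfRightInverse_comp_apply]
    have e : D (FractionalIdeal.mk0 M ⟨_, mem_nonZeroDivisors_of_ne_zero w.ne_bot⟩) =
        Finsupp.single w 1 := Finsupp.ext fun v => by
      rw [Finsupp.single_apply]
      exact FractionalIdeal.count_maximal M v w
    change Multiplicative.ofAdd ((D _).sum _) = _
    rw [e, Finsupp.sum_single_index (by simp), Int.cast_one, one_mul]

end Pool.Agent.MP_3e91a1_nt

end

section

set_option autoImplicit false

open NumberField IsDedekindDomain Module Filter Topology Finset Polynomial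
open scoped Classical

namespace Pool.Agent.MP_3e91a1_nt

open MP_e23604_nt MP_e23604_nt.B MP_e23604_nt.R MP_f3cd89_nt

theorem sum_WJAC {F : Type} [Field F] [Fintype F] (B : ℕ) :
    ∀ A, A + B < Fintype.card F - 1 → ∑ x : F, x ^ A * (1 - x) ^ B = 0 := by
  induction B with
  | zero =>
    intro A h
    simpa using FiniteField.sum_pow_lt_card_sub_one F A h
  | succ B ih =>
    intro A h
    rw [← sub_zero (0 : F), ← congrArg₂ (· - ·) (ih A (by omega)) (ih (A + 1) (by omega)),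
      ← Finset.sum_sub_distrib]
    exact Finset.sum_congr rfl fun x _ => by ring

theorem pow_WJAC {R : Type} [Monoid R] {x : R} {p a b : ℕ} (h : x ^ p = 1) (e : a ≡ b [MOD p]) :
    x ^ a = x ^ b := by rw [pow_eq_pow_mod a h, e, ← pow_eq_pow_mod b h]

/-- the power residue character -/
theorem chi_WJAC {p m : ℕ} {F R : Type} [Field F] [Fintype F] [CommRing R] {ζ : R} {z : F}
    (hp : 0 < p) (hm : m * p = Fintype.card F - 1) (hζ : ζ ^ p = 1) (hz : IsPrimitiveRoot z p) :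
    ∃ χ : MulChar F R, χ ^ p = 1 ∧ ∀ x : F, x ≠ 0 → ∃ c, χ x = ζ ^ c ∧ z ^ c = x ^ m := by
  have : NeZero p := ⟨hp.ne'⟩
  have hc : ∀ x : F, ∃ c, x ≠ 0 → z ^ c = x ^ m := fun x => by
    by_cases hx : x = 0
    · exact ⟨0, fun h => absurd hx h⟩
    · obtain ⟨c, -, e⟩ := hz.eq_pow_of_pow_eq_one (ξ := x ^ m) (by
        rw [← pow_mul, hm, FiniteField.pow_card_sub_one_eq_one x hx])
      exact ⟨c, fun _ => e⟩
  choose c hc using hc
  have he : ∀ a b, z ^ a = z ^ b → ζ ^ a = ζ ^ b := fun a b h => pow_WJAC hζ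
    (hz.pow_inj (Nat.mod_lt _ hp) (Nat.mod_lt _ hp) (by
      rwa [← pow_eq_pow_mod a hz.pow_eq_one, ← pow_eq_pow_mod b hz.pow_eq_one]))
  refine ⟨⟨⟨⟨fun x => if x = 0 then 0 else ζ ^ c x, ?_⟩, fun x y => ?_⟩, fun x hx => ?_⟩, ?_,
    fun x hx => ⟨c x, if_neg hx, hc x hx⟩⟩
  · rw [if_neg one_ne_zero, he _ 0 (by rw [hc 1 one_ne_zero, one_pow, pow_zero]), pow_zero]
  · by_cases hx : x = 0
    · simp [hx]
    by_cases hy : y = 0
    · simp [hy]
    simp only [hx, hy, mul_eq_zero, or_self, if_false, ← pow_add]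
    exact he _ _ (by rw [pow_add, hc _ (mul_ne_zero hx hy), hc _ hx, hc _ hy, mul_pow])
  · exact if_pos (by_contra fun h => hx (Ne.isUnit h))
  · refine MulChar.ext fun a => ?_
    rw [MulChar.pow_apply_coe, MulChar.one_apply_coe]
    change (if (a : F) = 0 then 0 else ζ ^ c a) ^ p = 1
    rw [if_neg a.ne_zero, ← pow_mul, mul_comm, pow_mul, hζ, one_pow]

theorem JAC_pf : JAC_st := by
  intro p q b M _ _ ζ φ hp hq hζ hz b0 b1
  have : Fact q.Prime := ⟨hq⟩
  have hcard : Fintype.card (ZMod q) = q := ZMod.card q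
  have hz0 : φ ζ ≠ 0 := hz.ne_zero hp.ne_zero
  obtain ⟨m, hm⟩ : p ∣ Fintype.card (ZMod q) - 1 :=
    hz.dvd_of_pow_eq_one _ (FiniteField.pow_card_sub_one_eq_one _ hz0)
  have hq2 := hq.two_le
  have m0 : 0 < m := Nat.pos_of_ne_zero fun h => by rw [h, mul_zero] at hm; omega
  rw [mul_comm] at hm
  obtain ⟨χ, c1, c2⟩ := chi_WJAC hp.pos hm.symm hζ.pow_eq_one hz
  have hv : ∀ (ψ : 𝓞 M →+* ZMod q) (t : ℕ), ψ ζ = φ ζ ^ t → ∀ k k' : ℕ, k ≠ 0 → k' ≠ 0 →
      t * k ≡ k' [MOD p] → ∀ x, ψ ((χ ^ k) x) = x ^ (m * k') := fun ψ t h k k' a a' e x => by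
    rw [χ.pow_apply' a]
    by_cases hx : x = 0
    · rw [hx, MulChar.map_zero, zero_pow a, map_zero, zero_pow (mul_ne_zero m0.ne' a')]
    · obtain ⟨c, d1, d2⟩ := c2 x hx
      rw [d1, map_pow, map_pow, h, pow_right_comm _ t, d2, ← pow_mul, pow_mul x]
      exact pow_WJAC (by rw [← pow_mul, ← hm, FiniteField.pow_card_sub_one_eq_one x hx]) e
  have hinj : Function.Injective (algebraMap (𝓞 M) M) := RingOfIntegers.coe_injective
  have hne : ∀ k, 0 < k → k < p → χ.ringHomComp (algebraMap (𝓞 M) M) ^ k ≠ 1 := fun k a a' => by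
    rw [MulChar.ringHomComp_pow, MulChar.ringHomComp_ne_one_iff hinj]
    intro h
    obtain ⟨g, hg⟩ := IsCyclic.exists_ofOrder_eq_natCard (α := (ZMod q)ˣ)
    have h1 := hv φ 1 (pow_one _).symm k k a.ne' a.ne' (by rw [one_mul]) g
    rw [h, MulChar.one_apply_coe, map_one, ← Units.val_pow_eq_pow_val, eq_comm,
      Units.val_eq_one, ← orderOf_dvd_iff_pow_eq_one, hg, Nat.card_eq_fintype_card,
      Fintype.card_units, hm] at h1
    exact (Nat.le_of_dvd (mul_pos m0 a) h1).not_gt ((Nat.mul_lt_mul_left m0).2 a')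
  have hi : ∀ k, k ≤ p → (χ.ringHomComp (algebraMap (𝓞 M) M) ^ k)⁻¹ =
      (χ ^ (p - k)).ringHomComp (algebraMap (𝓞 M) M) := fun k hk => by
    refine inv_eq_of_mul_eq_one_right ?_
    rw [MulChar.ringHomComp_pow, ← MulChar.ringHomComp_mul, ← pow_add, Nat.add_sub_cancel' hk, c1,
      MulChar.ringHomComp_one]
  refine ⟨jacobiSum (χ ^ 1) (χ ^ b), jacobiSum (χ ^ (p - 1)) (χ ^ (p - b)), hinj ?_,
    fun ψ t t0 t1 h => ?_⟩
  · have := jacobiSum_mul_jacobiSum_inv (F := ZMod q) (F' := M)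
      (by rw [ringChar.eq_zero, ZMod.ringChar_zmod_n]; exact hq.ne_zero.symm)
      (hne 1 one_pos (by omega)) (hne b b0 (by omega))
      (by rw [← pow_add]; exact hne _ (by omega) (by omega))
    rw [hi 1 (by omega), hi b (by omega), MulChar.ringHomComp_pow, MulChar.ringHomComp_pow,
      jacobiSum_ringHomComp, jacobiSum_ringHomComp, hcard] at this
    rw [map_mul, this, map_natCast]
  have hr : b * t % p ≠ 0 := fun e => ((hp.dvd_mul.1 (Nat.dvd_of_mod_eq_zero e)).elim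
    (fun d => (Nat.le_of_dvd b0 d).not_gt (by omega)) fun d => (Nat.le_of_dvd t0 d).not_gt t1)
  have hr' : b * t % p < p := Nat.mod_lt _ hp.pos
  have hs : ∀ k k' l l' : ℕ, k ≠ 0 → k' ≠ 0 → l ≠ 0 → l' ≠ 0 → t * k ≡ k' [MOD p] →
      t * l ≡ l' [MOD p] → k' + l' < p → ψ (jacobiSum (χ ^ k) (χ ^ l)) = 0 :=
    fun k k' l l' a a' d d' e e' f => by
      simp only [jacobiSum, map_sum, map_mul, hv ψ t h k k' a a' e, hv ψ t h l l' d d' e']
      exact sum_WJAC _ _ (by rw [hm, ← mul_add]; exact (Nat.mul_lt_mul_left m0).2 f)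
  have hn : ∀ k k' : ℕ, k ≤ p → k' ≤ p → t * k ≡ k' [MOD p] → t * (p - k) ≡ p - k' [MOD p] :=
    fun k k' a a' e => Nat.ModEq.add_right_cancel e (by
      rw [← mul_add, Nat.sub_add_cancel a, Nat.sub_add_cancel a']
      exact (Nat.modEq_zero_iff_dvd.2 (dvd_mul_left p t)).trans
        (Nat.modEq_zero_iff_dvd.2 dvd_rfl).symm)
  have e1 : t * 1 ≡ t [MOD p] := by rw [mul_one]
  have e2 : t * b ≡ b * t % p [MOD p] := by rw [mul_comm]; exact (Nat.mod_modEq _ _).symm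
  exact ⟨hs 1 t b _ one_ne_zero t0.ne' b0.ne' hr e1 e2, fun f => hs _ (p - t) _ (p - b * t % p)
    (by omega) (by omega) (by omega) (by omega) (hn _ _ (by omega) t1.le e1)
    (hn _ _ (by omega) hr'.le e2) (by omega)⟩

end Pool.Agent.MP_3e91a1_nt

end

section

set_option autoImplicit false

open NumberField IsDedekindDomain Module Filter Topology Finset Polynomial
open scoped Classical

namespace Pool.Agent.MP_3e91a1_nt

open MP_e23604_nt MP_e23604_nt.B MP_e23604_nt.R MP_f3cd89_nt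

open MP_3924c3_nt in
theorem bij_WSUM {p : ℕ} [hp : Fact p.Prime] {t : ℕ} (ht : t ∈ Ico 1 p) (F : ℕ → ZMod p) :
    ∑ b ∈ Ico 1 p, F (b * t % p) = ∑ s ∈ Ico 1 p, F s := by
  obtain ⟨h0, h1⟩ := mem_Ico.1 ht
  have ht0 := FZ.nat_ne (p := p) h0 h1
  have hm : ∀ x : ZMod p, x ≠ 0 → x.val ∈ Ico 1 p := fun x hx =>
    mem_Ico.2 ⟨(ZMod.val_pos).2 hx, ZMod.val_lt x⟩
  have hn : ∀ b ∈ Ico 1 p, (b : ZMod p) ≠ 0 := fun b hb =>
    FZ.nat_ne (mem_Ico.1 hb).1 (mem_Ico.1 hb).2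
  refine sum_bij' (fun b _ => b * t % p) (fun s _ => ((s : ZMod p) * (t : ZMod p)⁻¹).val)
    (fun b hb => ?_) (fun s hs => hm _ (mul_ne_zero (hn s hs) (inv_ne_zero ht0)))
    (fun b hb => ?_) (fun s hs => ?_) fun _ _ => rfl
  · rw [← ZMod.val_natCast]
    exact hm _ (by rw [Nat.cast_mul]; exact mul_ne_zero (hn b hb) ht0)
  · rw [ZMod.natCast_mod, Nat.cast_mul, mul_inv_cancel_right₀ ht0,
      ZMod.val_cast_of_lt (mem_Ico.1 hb).2]
  · rw [← ZMod.val_natCast, Nat.cast_mul, ZMod.natCast_zmod_val, inv_mul_cancel_right₀ ht0,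
      ZMod.val_cast_of_lt (mem_Ico.1 hs).2]

open MP_3924c3_nt in
theorem key_WSUM {p j : ℕ} [hp : Fact p.Prime] (h : ¬ Stk p j) (g : ZMod p → ZMod p) :
    ∑ t ∈ Ico 1 p, ∑ s ∈ Ico 1 (p - t), g (s * (t : ZMod p)⁻¹) * ((t : ZMod p) ^ j)⁻¹ = 0 := by
  have h0 : ∀ b ∈ Ico 1 p,
      ∑ t ∈ (Ico 1 p).filter fun t => t + b * t % p < p, ((t : ZMod p) ^ j)⁻¹ = 0 := by
    intro b hb
    obtain ⟨b0, b1⟩ := mem_Ico.1 hb
    by_cases hc : b + 1 < p
    · by_contra hne
      exact h ⟨b, b0, hc, hne⟩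
    · refine sum_eq_zero fun t ht => ?_
      obtain ⟨ht1, ht2⟩ := mem_filter.1 ht
      obtain ⟨t0, t1⟩ := mem_Ico.1 ht1
      have e : p = b + 1 := by omega
      have h2 : (t + b * t % p) % p = 0 := by
        rw [Nat.add_mod_mod, show t + b * t = p * t by rw [e]; ring, Nat.mul_mod_right]
      rw [Nat.mod_eq_of_lt ht2] at h2
      omega
  have h1 : ∑ b ∈ Ico 1 p, ∑ t ∈ Ico 1 p,
      (if t + b * t % p < p then g b * ((t : ZMod p) ^ j)⁻¹ else 0) = 0 :=
    sum_eq_zero fun b hb => by rw [← sum_filter, ← mul_sum, h0 b hb, mul_zero]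
  rw [sum_comm] at h1
  refine (sum_congr rfl fun t ht => ?_).trans h1
  obtain ⟨t0, t1⟩ := mem_Ico.1 ht
  have ht0 := FZ.nat_ne (p := p) t0 t1
  have h2 := bij_WSUM ht fun s =>
    if t + s < p then g (s * (t : ZMod p)⁻¹) * ((t : ZMod p) ^ j)⁻¹ else 0
  simp only [ZMod.natCast_mod, Nat.cast_mul, mul_inv_cancel_right₀ ht0] at h2
  rw [h2, ← sum_filter]
  refine sum_congr (Finset.ext fun s => ?_) fun _ _ => rfl
  simp only [mem_filter, mem_Ico]
  omega

open MP_3924c3_nt in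
theorem rng_WSUM {p : ℕ} (a N : ℕ) (F : ℕ → ZMod p) :
    ∑ m ∈ range N, FZ.y p a m * F m = ∑ m ∈ Ico 1 N, FZ.y p a m * F m := by
  symm
  refine sum_subset (fun m hm => mem_range.2 (mem_Ico.1 hm).2) fun m hm hm' => ?_
  have h1 := mem_range.1 hm
  have h2 : m = 0 := by
    rw [mem_Ico] at hm'
    omega
  rw [h2, FZ.y_zero, zero_mul]

open MP_3924c3_nt in
theorem har_WSUM {p : ℕ} [Fact p.Prime] (N : ℕ) :
    FZ.H p [1] N = ∑ s ∈ Ico 1 N, (s : ZMod p)⁻¹ := by
  refine (rng_WSUM 1 N _).trans (sum_congr rfl fun s hs => ?_)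
  have h := (mem_Ico.1 hs).1
  rw [FZ.y, if_neg (by omega), pow_one]
  exact mul_one _

open MP_3924c3_nt in
theorem SUM_pf : SUM_st := by
  intro p j hp h2 hj
  by_contra h
  rcases hj with rfl | ⟨j1, j2, hB⟩
  · have h1 := key_WSUM h fun _ => 1
    have h3 : ∑ s ∈ Ico 1 p, (s : ZMod p)⁻¹ = 0 := by
      have h4 := FZ.sum_y (p := p) one_pos
      rw [if_neg fun hd => by have := Nat.le_of_dvd one_pos hd; omega] at h4
      rw [← har_WSUM, ← h4]
      exact sum_congr rfl fun _ _ => mul_one _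
    have h4 : ∀ t ∈ Ico 1 p, ∑ _s ∈ Ico 1 (p - t), (1 : ZMod p) * ((t : ZMod p) ^ 1)⁻¹ =
        -1 - (t : ZMod p)⁻¹ := fun t ht => by
      obtain ⟨t0, t1⟩ := mem_Ico.1 ht
      have ht0 := FZ.nat_ne (p := p) t0 t1
      rw [sum_const, Nat.card_Ico, nsmul_eq_mul, Nat.cast_sub (by omega), Nat.cast_sub t1.le,
        ZMod.natCast_self, Nat.cast_one, pow_one, one_mul, sub_mul, sub_mul,
        mul_inv_cancel₀ ht0, zero_mul, zero_sub, one_mul]
    rw [sum_congr rfl h4, sum_sub_distrib, h3, sum_const, Nat.card_Ico, nsmul_eq_mul,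
      Nat.cast_sub (by omega), ZMod.natCast_self] at h1
    simp at h1
  · obtain ⟨a, rfl⟩ : ∃ a, j = a + 1 := ⟨j - 1, by omega⟩
    refine FZ.H_ne (p := p) (a := a) (by omega) (by omega) hB ?_
    have h1 := key_WSUM h fun x => x⁻¹
    have h3 : FZ.H p [a, 1] p = ∑ t ∈ Ico 1 p, FZ.y p a (p - t) * FZ.H p [1] (p - t) := by
      refine (rng_WSUM a p _).trans ?_
      refine sum_bij' (fun l _ => p - l) (fun l _ => p - l) (fun l hl => ?_) (fun l hl => ?_)
        (fun l hl => ?_) (fun l hl => ?_) fun l hl => ?_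
      all_goals have hl' := mem_Ico.1 hl
      · exact mem_Ico.2 (by omega)
      · exact mem_Ico.2 (by omega)
      · omega
      · omega
      · rw [Nat.sub_sub_self hl'.2.le]
    rw [h3, ← mul_zero ((-1 : ZMod p) ^ a), ← h1, mul_sum]
    refine sum_congr rfl fun t ht => ?_
    obtain ⟨t0, t1⟩ := mem_Ico.1 ht
    have ht0 := FZ.nat_ne (p := p) t0 t1
    rw [FZ.y_sub a t0 t1, har_WSUM, mul_assoc, mul_sum, FZ.y, if_neg (by omega)]
    refine congrArg _ (sum_congr rfl fun s _ => ?_)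
    rw [mul_inv, inv_inv, pow_succ, mul_inv, inv_pow]
    field_simp

end Pool.Agent.MP_3e91a1_nt

end

section

set_option autoImplicit false

open NumberField IsDedekindDomain Module Filter Topology Finset Polynomial
open scoped Classical

namespace Pool.Agent.MP_3e91a1_nt

open MP_e23604_nt MP_e23604_nt.B MP_e23604_nt.R MP_f3cd89_nt

theorem ODD_pf (hSPL : SPL_st) (hJAC : JAC_st) (hCNT : CNT_st) : ODD_st := by
  intro p d j q hp M _ _ _ ξ φ w f hd hdp hξ hq hq' hwk ⟨b, hb, hbp, hS⟩ hf hact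
  have h0 : 0 < d * p := Nat.mul_pos hd hp.out.pos
  obtain ⟨h1, -, w', hw⟩ := hSPL (d * p) q M ξ φ hq h0 hq' hξ
  obtain rfl : w' = w := HeightOneSpectrum.ext (hw.ker.trans hwk.symm)
  have hζ := hξ.pow h0 rfl
  obtain ⟨J, J', hJ, hψ⟩ := hJAC p q b M (ξ ^ d) φ hp.out hq hζ
    (by rw [map_pow]; exact h1.pow h0 rfl) hb hbp
  obtain ⟨a, ha, hsum⟩ := hCNT p d M ξ hp.out (Nat.not_dvd_of_pos_of_lt hd hdp) hξ
  have q0 : (q : 𝓞 M) ≠ 0 := Nat.cast_ne_zero.2 hq.ne_zero
  have J0 : J ≠ 0 := left_ne_zero_of_mul (hJ ▸ q0)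
  have J0' : J' ≠ 0 := right_ne_zero_of_mul (hJ ▸ q0)
  have ho : ∀ v : Pr M, ord v (J : M) + ord v (J' : M) = ord v ((q : 𝓞 M) : M) := fun v => by
    rw [← ord_mul v (by simpa using J0) (by simpa using J0'), ← hJ]
    rfl
  have hpa : ∀ σ, ¬ p ∣ a σ := fun σ =>
    hp.out.coprime_iff_not_dvd.1 (Nat.Coprime.coprime_mul_left_right (ha σ).2).symm
  have key : ∀ σ : M ≃ₐ[ℚ] M, ord (gact σ⁻¹ w') (J : M) =
      if a σ % p + b * (a σ % p) % p < p then 1 else 0 := fun σ => by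
    have mem : ∀ x : 𝓞 M, x ≠ 0 → φ (σ • x) = 0 → ord (gact σ⁻¹ w') (x : M) ≠ 0 := fun x x0 c => by
      rw [Ne, ord_eq_zero_iff _ x0, not_not, gact_asIdeal,
        Ideal.mem_pointwise_smul_iff_inv_smul_mem, inv_inv, hw.ker]
      exact c
    have h3 := hψ (φ.comp (MulSemiringAction.toRingHom _ (𝓞 M) σ)) (a σ % p)
      (Nat.pos_of_ne_zero fun c => hpa σ (Nat.dvd_of_mod_eq_zero c)) (Nat.mod_lt _ hp.out.pos) (by
        rw [← map_pow, ← pow_eq_pow_mod _ hζ.pow_eq_one, pow_right_comm, ← (ha σ).1, ← smul_pow']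
        rfl)
    have e1 := ho (gact σ⁻¹ w')
    rw [show ((q : 𝓞 M) : M) = q from rfl, hw.one] at e1
    have := ord_nonneg (gact σ⁻¹ w') J
    have := ord_nonneg (gact σ⁻¹ w') J'
    split_ifs with c
    · have := mem J J0 (h3.1 c)
      omega
    · have c' : a σ % p + b * (a σ % p) % p ≠ p := fun e => by
        have : p ∣ (b + 1) * a σ := by
          rw [← ZMod.natCast_eq_zero_iff]
          have := congrArg (Nat.cast : ℕ → ZMod p) e
          simp only [Nat.cast_add, Nat.cast_mul, ZMod.natCast_mod, ZMod.natCast_self] at this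
          push_cast
          linear_combination this
        exact ((Nat.Prime.dvd_mul hp.out).1 this).elim (Nat.not_dvd_of_pos_of_lt (by omega) hbp)
          (hpa σ)
      have := mem J' J0' (h3.2 (by omega))
      omega
  have hk : ∀ σ : M ≃ₐ[ℚ] M, f (gact σ⁻¹ w') = (((a σ % p : ℕ) : ZMod p) ^ j)⁻¹ * f w' := fun σ => by
    have := hact σ _ (ha σ).1 (gact σ⁻¹ w')
    rw [← gact_mul, mul_inv_cancel, gact_one] at this
    rw [this, ZMod.natCast_mod, inv_mul_cancel_left₀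
      (pow_ne_zero _ fun c => hpa σ ((ZMod.natCast_eq_zero_iff _ _).1 c))]
  have H := hf J (by simpa using J0)
  rw [Finsupp.sum_of_support_subset (s := univ.image fun σ : M ≃ₐ[ℚ] M => gact σ⁻¹ w') _
    (fun v hv => by
      have h2 : ord v (J : M) ≠ 0 := Finsupp.mem_support_iff.1 hv
      have := ho v
      have := ord_nonneg v J
      have := ord_nonneg v J'
      obtain ⟨σ, rfl⟩ := hw.all v (not_not.1 fun c => by
        have := (ord_eq_zero_iff v q0).2 c
        omega)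
      exact mem_image.2 ⟨σ⁻¹, mem_univ _, by rw [inv_inv]⟩) _ (by simp),
    sum_image fun σ _ τ _ c => inv_injective (hw.inj _ _ c)] at H
  simp only [dv_apply, key, hk, Int.cast_ite, Int.cast_one, Int.cast_zero,
    ite_mul, one_mul, zero_mul] at H
  have H' := hsum (ZMod p) fun _ y => if y + b * y % p < p then ((y : ZMod p) ^ j)⁻¹ * f w' else 0
  rw [H, sum_const, ← sum_filter, ← sum_mul, nsmul_eq_mul, eq_comm, mul_eq_zero, mul_eq_zero] at H'
  refine (H'.resolve_left fun c => ?_).resolve_left hS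
  rw [filter_congr fun _ _ => Nat.coprime_comm, ← Nat.totient_eq_card_coprime,
    ZMod.natCast_eq_zero_iff] at c
  exact Nat.not_dvd_of_pos_of_lt (Nat.totient_pos.2 hd) ((Nat.totient_le d).trans_lt hdp) c

end Pool.Agent.MP_3e91a1_nt

end

section

set_option autoImplicit false

open NumberField IsDedekindDomain Module Filter Topology Finset Polynomial
open scoped Classical

namespace Pool.Agent.MP_3e91a1_nt

open MP_e23604_nt MP_e23604_nt.B MP_e23604_nt.R MP_f3cd89_nt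

theorem unit_WETA {R : Type} [CommRing R] [IsDomain R] {p d : ℕ} (hp : p.Prime) (h2 : 2 < d)
    (hd : d < p) {x : R} (hx : IsPrimitiveRoot x (d * p)) : IsUnit (1 - x) := by
  have h1 : eval 1 (cyclotomic (d * p) R) = 1 := by
    refine eval_one_cyclotomic_not_prime_pow fun {q} hq k e => ?_
    obtain rfl : p = q :=
      (Nat.prime_dvd_prime_iff_eq hp hq).1 (hp.dvd_of_dvd_pow (e ▸ dvd_mul_left p d))
    obtain ⟨j, -, rfl⟩ := (Nat.dvd_prime_pow hp).1 (e ▸ dvd_mul_right d p)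
    rcases j with _ | j
    · simp at h2
    · exact hd.not_ge (Nat.le_of_dvd (pow_pos hp.pos _) (dvd_pow_self _ j.succ_ne_zero))
  have h3 := eval_dvd (x := 1)
    (dvd_iff_isRoot.2 (hx.isRoot_cyclotomic (Nat.mul_pos (by omega) hp.pos)))
  rw [h1] at h3
  simpa using isUnit_of_dvd_one h3

theorem ETA_pf (hKUM : KUM_st) (hCNT : CNT_st) : ETA_st := by
  intro p d n hp χ M _ _ _ ξ h2 hd hn hξ hT
  have hp' := hp.out
  have hpd : ¬ p ∣ d := fun h => hd.not_ge (Nat.le_of_dvd (by omega) h)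
  obtain ⟨a, ha, hs⟩ := hCNT p d M ξ hp' hpd hξ
  have hc : ∀ σ, (a σ).Coprime d ∧ (a σ).Coprime p := fun σ => Nat.coprime_mul_iff_right.1 (ha σ).2
  have hχ : ∀ σ, χ (a σ) * χ (a σ) = 1 := fun σ =>
    Int.isUnit_mul_self (((ZMod.isUnit_iff_coprime _ _).2 (hc σ).1).map χ)
  have hχ' : ∀ σ, ((χ (a σ) : ℤ) : ZMod p) * (χ (a σ) : ℤ) = 1 := fun σ => by
    rw [← Int.cast_mul, hχ, Int.cast_one]
  set e : (M ≃ₐ[ℚ] M) → ℕ := fun σ => (((a σ : ZMod p) ^ (n + 1) * (χ (a σ) : ℤ))⁻¹).val with he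
  have h1 : ∀ σ, (e σ : ZMod p) * ((a σ : ZMod p) ^ (n + 1) * (χ (a σ) : ℤ)) = 1 := fun σ => by
    rw [he, ZMod.natCast_zmod_val]
    exact inv_mul_cancel₀ (mul_ne_zero (pow_ne_zero _
      ((ZMod.isUnit_iff_coprime _ _).2 (hc σ).2).ne_zero) (left_ne_zero_of_mul_eq_one (hχ' σ)))
  have hu : IsUnit (∏ σ : M ≃ₐ[ℚ] M, (1 - σ • ξ) ^ e σ) :=
    IsUnit.prod_univ_iff.2 fun σ => IsUnit.pow _ (by
      rw [(ha σ).1]
      exact unit_WETA hp' h2 hd (hξ.pow_of_coprime _ (ha σ).2))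
  refine ⟨hu.unit, e, hu.unit_spec, fun σ b hb => ?_, fun y hy => ?_⟩
  · have hm : b ≡ a σ [MOD d * p] := by
      rw [hξ.eq_orderOf, ← (hξ.isOfFinOrder
        (Nat.mul_pos (by omega) hp'.pos).ne').pow_eq_pow_iff_modEq, ← hb, (ha σ).1]
    rw [(ZMod.natCast_eq_natCast_iff _ _ _).2 (hm.of_mul_left _),
      (ZMod.natCast_eq_natCast_iff _ _ _).2 (hm.of_mul_right _), h1]
  · have : NeZero ((d : ℕ) : ZMod p) := ⟨fun h => hpd ((ZMod.natCast_eq_zero_iff _ _).1 h)⟩
    obtain ⟨k, _, _, u, hu'⟩ : ∃ (k : Type) (_ : Field k) (_ : CharP k p) (u : k),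
        IsPrimitiveRoot u d := ⟨AlgebraicClosure (ZMod p), inferInstance, inferInstance,
      HasEnoughRootsOfUnity.exists_primitiveRoot _ d⟩
    have h3 := hKUM p d n M (ξ : M) y _ univ a e _ u hpd hn
      (hξ.map_of_injective RingOfIntegers.coe_injective) hu'
      (fun σ _ => (hu'.pow_of_coprime _ (hc σ).1).ne_one (by omega)) (by
        rw [hy, hu.unit_spec]
        simp only [(ha _).1, map_prod, map_pow, map_sub, map_one])
    have h4 : ∀ σ, (e σ : k) * (a σ : k) ^ (n + 1) = (χ (a σ) : ℤ) := fun σ => by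
      have h : (e σ : ZMod p) * (a σ : ZMod p) ^ (n + 1) = (χ (a σ) : ℤ) := by
        linear_combination (χ (a σ) : ℤ) * h1 σ -
          (e σ : ZMod p) * (a σ : ZMod p) ^ (n + 1) * hχ' σ
      simpa only [map_mul, map_pow, map_natCast, map_intCast] using
        congrArg (ZMod.castHom (dvd_refl p) k) h
    have h5 := hs k fun x _ => ((χ x : ℤ) : k) * aeval (u ^ x / (1 - u ^ x)) (Qp n)
    simp only [ZMod.natCast_mod, hu'.eq_orderOf ▸ pow_mod_orderOf u _] at h5
    simp only [h4] at h3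
    rw [h3, Finset.sum_comm, sum_const, Nat.card_Ico, nsmul_eq_mul, Nat.cast_pred hp'.pos,
      CharP.cast_eq_zero, zero_sub, neg_one_mul, eq_comm, neg_eq_zero, sum_filter_of_ne] at h5
    · exact hT k u hu' h5
    · intro x _ hx
      by_contra h
      rw [χ.map_nonunit (mt (ZMod.isUnit_iff_coprime _ _).1 h), Int.cast_zero, zero_mul] at hx
      exact hx rfl

end Pool.Agent.MP_3e91a1_nt

end

section

set_option autoImplicit false

open NumberField IsDedekindDomain Module Filter Topology Finset Polynomial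
open scoped Classical

namespace Pool.Agent.MP_3e91a1_nt

open MP_e23604_nt MP_e23604_nt.B MP_e23604_nt.R MP_f3cd89_nt

theorem CYB_pf (hPSI : PSI_st) (hETA : ETA_st) (hODD : ODD_st) (hTHM : THM_st) (hSPL : SPL_st) : CYB_st := by
  intro p d n ε hp χ M _ _ _ ξ f hd hdp hn h5 hξ hε hT hS hf hact v
  obtain ⟨η, e, hη, he, hy⟩ := hETA p d n χ M ξ hd hdp hn hξ hT
  obtain ⟨Ψ, hΨ⟩ := hPSI p M f hf
  have h0 : 0 < d * p := Nat.mul_pos (by omega) (by omega)
  suffices H : Ψ = 1 by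
    have := hΨ v
    rw [H] at this
    exact (ofAdd_eq_one.1 this.symm)
  refine MP_346737_nt.density M hp.out h5 (hξ.pow h0 rfl) η hy Ψ fun q φ hq hqp hφ => ?_
  have : Fact q.Prime := ⟨hq⟩
  by_cases hqd : q ∣ d
  · have h1 : (Nat.card (ZMod q)ˣ).Coprime p := by
      rw [Nat.card_eq_fintype_card, ZMod.card_units]
      have := Nat.le_of_dvd (by omega) hqd
      have := hq.two_le
      exact (Nat.coprime_of_lt_prime (by omega) (by omega) hp.out).symm
    obtain ⟨y, hy⟩ := (powCoprime h1).surjective (Units.map φ.toMonoidHom η)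
    exact ⟨y, congrArg Units.val hy⟩
  have hq' : ¬ q ∣ d * p := fun c =>
    ((Nat.Prime.dvd_mul hq).1 c).elim hqd fun c => hqp ((Nat.prime_dvd_prime_iff_eq hq hp.out).1 c)
  obtain ⟨-, h2, w, hw⟩ := hSPL (d * p) q M ξ φ hq h0 hq' hξ
  have hfw : f w ≠ 0 := fun c => hφ (by rw [← hw.ker, hΨ, c, ofAdd_zero])
  rcases hε with rfl | rfl
  · exact absurd (hODD p d (n + 1) q M ξ φ w f (by omega) hdp hξ hq hq' hw.ker hS hf
      fun σ a h v => by simpa using hact σ a h v) hfw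
  obtain ⟨t, r, ht, hr⟩ := hTHM p q M φ w ξ f hq ((dvd_mul_left p d).trans h2) hw (by
    rw [← Nat.sub_add_cancel hq.one_le, pow_succ, (hξ.pow_eq_one_iff_dvd _).2 h2, one_mul])
    (hξ.ne_one (by nlinarith)) hf
  have hk : ∀ σ : M ≃ₐ[ℚ] M, f (gact σ⁻¹ w) = e σ * f w := fun σ => by
    have : NeZero (d * p) := ⟨h0.ne'⟩
    obtain ⟨a, -, ha⟩ := hξ.eq_pow_of_pow_eq_one (ξ := σ • ξ) (by
      rw [← smul_pow', hξ.pow_eq_one, smul_one])
    have := hact σ a ha.symm (gact σ⁻¹ w)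
    rw [← gact_mul, mul_inv_cancel, gact_one, pow_one] at this
    rw [this, ← mul_assoc, he σ a ha.symm, one_mul]
  simp only [hk, ← mul_assoc, ← sum_mul] at hr
  obtain ⟨m, hm⟩ : p ∣ ∑ σ, r σ * e σ := by
    rw [← ZMod.natCast_eq_zero_iff, ← (mul_eq_zero.1 hr).resolve_right hfw]
    push_cast
    rfl
  have odd : Odd p := hp.out.odd_of_ne_two (by omega)
  refine ⟨(-1) ^ (∑ σ, e σ) * t ^ m, ?_⟩
  rw [mul_pow, ← pow_mul, ← pow_mul, mul_comm m, ← hm, mul_comm _ p, pow_mul, odd.neg_one_pow,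
    hη, map_prod, ← prod_pow_eq_pow_sum, ← prod_pow_eq_pow_sum, ← prod_mul_distrib]
  refine prod_congr rfl fun σ _ => ?_
  rw [pow_mul, ← mul_pow, ht, map_pow, map_sub, map_one, neg_one_mul, neg_sub]

end Pool.Agent.MP_3e91a1_nt

end

section

set_option autoImplicit false

open NumberField IsDedekindDomain Module Filter Topology Finset Polynomial
open scoped Classical

namespace Pool.Agent.MP_3e91a1_nt

open MP_e23604_nt MP_e23604_nt.B MP_e23604_nt.R MP_f3cd89_nt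

section

variable {L M : Type} [Field L] [NumberField L] [Field M] [NumberField M] [Algebra L M]

theorem dv_norm_WTRF [IsGalois L M] {x : M} (hx : x ≠ 0) : dv (Algebra.norm L x) =
    ∑ w ∈ (dv x).support,
      Finsupp.single (w.under (𝓞 L)) ((w.asIdeal.inertiaDeg (𝓞 L) : ℤ) * ord w x) := by
  ext v
  rw [dv_apply, ord_norm v hx, Finsupp.finsetSum_apply,
    finsum_eq_sum_of_support_subset (s := (dv x).support) _ fun w hw =>
      Finsupp.mem_support_iff.2 fun (c : ord w x = 0) => hw (by simp [c])]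
  refine Finset.sum_congr rfl fun w _ => ?_
  rw [Finsupp.single_apply]
  exact if_congr ⟨under_eq, fun c => c ▸ over_under w⟩ rfl rfl

theorem dvd_WTRF [IsGalois L M] (w : Pr M) : w.asIdeal.inertiaDeg (𝓞 L) ∣ finrank L M := by
  have := over_under (E := L) w
  have := w.isPrime
  have := (w.under (𝓞 L)).isPrime
  rw [← IsGalois.card_aut_eq_finrank,
    ← Ideal.ncard_primesOver_mul_ramificationIdxIn_mul_inertiaDegIn (w.under (𝓞 L)).asIdeal (𝓞 M)
      Gal(M/L), Ideal.inertiaDegIn_eq_inertiaDeg _ w.asIdeal Gal(M/L)]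
  exact (dvd_mul_left _ _).mul_left _

theorem under_WTRF (σ : M ≃ₐ[ℚ] M) (σ' : L ≃ₐ[ℚ] L)
    (h : ∀ x, σ (algebraMap L M x) = algebraMap L M (σ' x)) (w : Pr M) :
    (gact σ w).under (𝓞 L) = gact σ' (w.under (𝓞 L)) := by
  ext a
  have e : σ⁻¹ • algebraMap (𝓞 L) (𝓞 M) a = algebraMap (𝓞 L) (𝓞 M) (σ'⁻¹ • a) := by
    rw [inv_smul_eq_iff]
    apply RingOfIntegers.coe_injective
    exact ((h (σ'.symm a)).trans (by rw [σ'.apply_symm_apply]; rfl)).symm
  change σ⁻¹ • algebraMap (𝓞 L) (𝓞 M) a ∈ w.asIdeal ↔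
    algebraMap (𝓞 L) (𝓞 M) (σ'⁻¹ • a) ∈ w.asIdeal
  rw [e]

end

theorem TRF_pf : TRF_st := by
  intro p _ L M _ _ _ _ _ _ f hp hf
  refine ⟨fun w => (w.asIdeal.inertiaDeg (𝓞 L) : ZMod p) * f (w.under (𝓞 L)), fun x hx => ?_,
    fun h v => ?_, fun σ σ' c h hc w => ?_⟩
  · rw [← hf (Algebra.norm L x) (by simpa using hx), dv_norm_WTRF hx,
      ← Finsupp.sum_finsetSum_index (by simp) (by simp [add_mul])]
    refine Finset.sum_congr rfl fun w _ => ?_
    rw [Finsupp.sum_single_index (by simp), dv_apply]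
    push_cast
    ring
  · obtain ⟨w, rfl⟩ := under_surj (E' := M) v
    exact (mul_eq_zero.1 (h w)).resolve_left fun c =>
      hp (((ZMod.natCast_eq_zero_iff _ _).1 c).trans (dvd_WTRF w))
  · have e := under_WTRF σ σ' h w
    have e1 := absNorm_over (over_under (E := L) (gact σ w))
    rw [e, show Ideal.absNorm _ = _ from nrm_gact σ w,
      show Ideal.absNorm _ = _ from nrm_gact σ' _, nrm, absNorm_over (over_under (E := L) w)] at e1
    simp only [e, hc, ← Nat.pow_right_injective (two_le_nrm _) e1]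
    ring

end Pool.Agent.MP_3e91a1_nt

end

section

set_option autoImplicit false

namespace Pool.Agent.MP_3e91a1_nt

theorem SB_ok : SB_st := SB_pf
theorem ZPL_ok : ZPL_st := ZPL_pf
theorem UNR_ok : UNR_st := UNR_pf ZPL_ok
theorem INF_ok : INF_st := INF_pf
theorem KER_ok : KER_st := KER_pf
theorem KUQ_ok : KUQ_st := KUQ_pf
theorem VL_ok : VL_st := VL_pf
theorem AH_ok : AH_st := AH_pf
theorem HQ_ok : HQ_st := HQ_pf
theorem LIX_ok : LIX_st := LIX_pf VL_ok AH_ok HQ_ok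
theorem L0_ok : L0_st := L0_pf
theorem PLC_ok : PLC_st := PLC_pf
theorem APX_ok : APX_st := APX_pf PLC_ok
theorem RES_ok : RES_st := RES_pf
theorem L1_ok : L1_st := L1_pf LIX_ok L0_ok APX_ok PLC_ok RES_ok SB_ok
theorem SYM_ok : SYM_st := SYM_pf SB_ok KUQ_ok
theorem L2_ok : L2_st := L2_pf SB_ok KER_ok KUQ_ok L1_ok SYM_ok
theorem AMB_ok : AMB_st := AMB_pf
theorem SIP_ok : SIP_st := SIP_pf
theorem LOC_ok : LOC_st := LOC_pf
theorem HNP_ok : HNP_st := HNP_pf AMB_ok SIP_ok LOC_ok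
theorem HNF_ok : HNF_st := HNF_pf HNP_ok
theorem HNQ_ok : HNQ_st := HNQ_pf HNF_ok APX_ok PLC_ok RES_ok SB_ok
theorem TB1_ok : TB1_st := TB1_pf SB_ok ZPL_ok UNR_ok INF_ok L2_ok HNQ_ok
theorem EIG_ok : EIG_st := EIG_pf
theorem ASN_ok : ASN_st := ASN_pf EIG_ok
theorem PSI_ok : PSI_st := PSI_pf
theorem KUM_ok : KUM_st := KUM_pf
theorem CNT_ok : CNT_st := CNT_pf
theorem ETA_ok : ETA_st := ETA_pf KUM_ok CNT_ok
theorem SPL_ok : SPL_st := SPL_pf
theorem JAC_ok : JAC_st := JAC_pf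
theorem ODD_ok : ODD_st := ODD_pf SPL_ok JAC_ok CNT_ok
theorem THM_ok : THM_st := THM_pf
theorem CYB_ok : CYB_st := CYB_pf PSI_ok ETA_ok ODD_ok THM_ok SPL_ok
theorem TRF_ok : TRF_st := TRF_pf
theorem TWR_ok : TWR_st := TWR_pf RES_ok
theorem BS1_ok : BS1_st := BS1_pf CYB_ok TRF_ok RES_ok TWR_ok
theorem DVS_ok : DVS_st := DVS_pf EIG_ok PLC_ok RES_ok
theorem OBS_ok : OBS_st := OBS_pf DVS_ok RES_ok
theorem LD_ok : LD_st := LD_pf SB_ok KER_ok L1_ok
theorem ASC_ok : ASC_st := ASC_pf ASN_ok HNQ_ok LD_ok PLC_ok RES_ok TWR_ok SB_ok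
theorem IND_ok : IND_st := IND_pf
theorem COR_ok : COR_st := COR_pf
theorem COM_ok : COM_st := COM_pf COR_ok
theorem TAB_ok : TAB_st := TAB_pf TB1_ok IND_ok COM_ok ZPL_ok
theorem MAIN_ok : MAIN_st := MAIN_pf TAB_ok INF_ok OBS_ok ASC_ok ZPL_ok UNR_ok IND_ok COR_ok
theorem MEM_ok : MEM_st := MEM_pf
theorem GAL_ok : GAL_st := GAL_pf MEM_ok RES_ok
theorem BAD_ok : BAD_st := BAD_pf MEM_ok
theorem EXT_ok : EXT_st := EXT_pf
theorem TOP_ok : TOP_st := TOP_pf MAIN_ok MEM_ok GAL_ok BAD_ok EXT_ok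
theorem DVA_ok : DVA_st := DVA_pf
theorem DEV_ok : DEV_st := DEV_pf DVA_ok
theorem GOOD_ok : GOOD_st := GOOD_pf ASC_ok IND_ok MEM_ok SB_ok
theorem QUAD_ok : QUAD_st := QUAD_pf
theorem KW_ok : KW_st := KW_pf
theorem NZ0_ok : NZ0_st := NZ0_pf
theorem GEO_ok : GEO_st := GEO_pf
theorem LIP_ok : LIP_st := LIP_pf GEO_ok
theorem NZ_ok : NZ_st := NZ_pf LIP_ok
theorem RED_ok : RED_st := RED_pf
theorem SUM_ok : SUM_st := SUM_pf
theorem ONE_ok : ONE_st := ONE_pf QUAD_ok KW_ok NZ0_ok NZ_ok RED_ok SUM_ok BS1_ok GOOD_ok TOP_ok DEV_ok MEM_ok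

end Pool.Agent.MP_3e91a1_nt

end
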