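import Pool.Agent.Mg.F3e91a1.G3fdd3f
import Pool.Agent.Mg.F3e91a1.Gc3fe55
import Pool.Agent.Mg.F3e91a1.G83a210

set_option linter.all false

section

/-! The two logarithms at one root, modulo `p`. -/

set_option autoImplicit false

open Finset Filter PowerSeries

noncomputable section

namespace Pool.Agent.MP_3e91a1_nt.TR

theorem dm_SOL {f g : MvPolynomial (Fin 4) ℤ} {a b : ℕ} (h : f.totalDegree ≤ a)
    (h' : g.totalDegree ≤ b) : (f * g).totalDegree ≤ a + b :=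
  (MvPolynomial.totalDegree_mul _ _).trans (add_le_add h h')

theorem dp_SOL {f : MvPolynomial (Fin 4) ℤ} {a : ℕ} (h : f.totalDegree ≤ a) (k : ℕ) :
    (f ^ k).totalDegree ≤ k * a :=
  (MvPolynomial.totalDegree_pow _ _).trans (Nat.mul_le_mul_left _ h)

theorem da_SOL {f g : MvPolynomial (Fin 4) ℤ} {a : ℕ} (h : f.totalDegree ≤ a)
    (h' : g.totalDegree ≤ a) : (f + g).totalDegree ≤ a :=
  (MvPolynomial.totalDegree_add _ _).trans (max_le h h')

theorem ds_SOL {f g : MvPolynomial (Fin 4) ℤ} {a : ℕ} (h : f.totalDegree ≤ a)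
    (h' : g.totalDegree ≤ a) : (f - g).totalDegree ≤ a :=
  (MvPolynomial.totalDegree_sub _ _).trans (max_le h h')

theorem dn_SOL (k : ℕ) : ((k : MvPolynomial (Fin 4) ℤ)).totalDegree ≤ 0 := by
  rw [← map_natCast (MvPolynomial.C (R := ℤ) (σ := Fin 4)), MvPolynomial.totalDegree_C]

theorem dx_SOL (i : Fin 4) : (MvPolynomial.X i : MvPolynomial (Fin 4) ℤ).totalDegree ≤ 1 :=
  (MvPolynomial.totalDegree_X i).le

theorem dd_SOL {p : ℕ} (hp : p.Prime) {f g : MvPolynomial (Fin 4) ℤ} {a : ℕ}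
    (h : (p : MvPolynomial (Fin 4) ℤ) * g = f) (hf : f.totalDegree ≤ a) : g.totalDegree ≤ a := by
  by_cases hg : g = 0
  · rw [hg, MvPolynomial.totalDegree_zero]
    exact Nat.zero_le _
  · rw [← h, MvPolynomial.totalDegree_mul_of_isDomain (by exact_mod_cast hp.ne_zero) hg] at hf
    omega

theorem polys_SOL (p c L : ℕ) (hp : p.Prime) : ∃ P₁ Q₁ P₂ Q₂ : MvPolynomial (Fin 4) ℤ,
    P₁.totalDegree ≤ 6 * p ∧ Q₁.totalDegree ≤ 6 * p ∧ P₂.totalDegree ≤ 6 * p ∧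
    Q₂.totalDegree ≤ 6 * p ∧ ∀ (S : Type) [CommRing S] [Algebra ℤ S] (τ A A' A'' : S), ∃ g₁ g₂ : S,
      p * g₁ = A ^ p - (A - 1) ^ p - 1 ∧ p * g₂ = (A + c * τ) ^ p - A ^ p - c * τ ^ p ∧
      MvPolynomial.aeval ![τ, A, A', A''] P₁ = -((A' - A) * (A' - A'') * ((A'' - A) * (A'' - A'))) ^ p *
        ((A + c * τ) ^ p * (L * g₁) - (A - 1) ^ p * (L * g₂)) ∧
      MvPolynomial.aeval ![τ, A, A', A''] Q₁ = ((A' - A) * (A' - A'') * ((A'' - A) * (A'' - A'))) ^ p *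
        ((A - 1) ^ p * (L * c)) ∧
      MvPolynomial.aeval ![τ, A, A', A''] P₂ = ((A' - A) * (A' - A'') * ((A'' - A) * (A'' - A'))) ^ p *
        (((A + c * τ) ^ p + A ^ p) * (L * g₁) + A ^ p * (L * g₂)) ∧
      MvPolynomial.aeval ![τ, A, A', A''] Q₂ = ((A' - A) * (A' - A'') * ((A'' - A) * (A'' - A'))) ^ p *
        (A ^ p * (L * c)) := by
  have := Fact.mk hp
  obtain ⟨x, hx⟩ : ∃ x : Fin 4 → MvPolynomial (Fin 4) ℤ, x = MvPolynomial.X := ⟨_, rfl⟩
  have d1 : ∀ i, (x i).totalDegree ≤ 1 := fun i => hx ▸ dx_SOL i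
  obtain ⟨G₁, h1⟩ : ∃ G₁ : MvPolynomial (Fin 4) ℤ, p * G₁ = x 1 ^ p - (x 1 - 1) ^ p - 1 := by
    obtain ⟨r, hr⟩ := exists_add_pow_prime_eq hp (x 1 - 1) 1
    rw [sub_add_cancel, one_pow] at hr
    exact ⟨(x 1 - 1) * r, by linear_combination -hr⟩
  obtain ⟨G₂, h2⟩ : ∃ G₂ : MvPolynomial (Fin 4) ℤ,
      p * G₂ = (x 1 + c * x 0) ^ p - x 1 ^ p - c * x 0 ^ p := by
    obtain ⟨r, hr⟩ := exists_add_pow_prime_eq hp (x 1) (c * x 0)
    obtain ⟨v, hv⟩ : (p : ℤ) ∣ (c : ℤ) ^ p - c := by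
      rw [← ZMod.intCast_zmod_eq_zero_iff_dvd]
      push_cast
      rw [ZMod.pow_card, sub_self]
    have h5 := congrArg (Int.cast : ℤ → MvPolynomial (Fin 4) ℤ) hv
    push_cast at h5
    rw [mul_pow] at hr
    exact ⟨x 1 * (c * x 0) * r + v * x 0 ^ p, by linear_combination -hr - x 0 ^ p * h5⟩
  have dB : (x 1 - 1).totalDegree ≤ 1 := ds_SOL (d1 1) (by simp)
  have dE : (x 1 + c * x 0).totalDegree ≤ 1 := da_SOL (d1 1) (dm_SOL (dn_SOL c) (d1 0))
  have pA := dp_SOL (d1 1) p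
  have pB := dp_SOL dB p
  have pE := dp_SOL dE p
  have g1 := dm_SOL (dn_SOL L) (dd_SOL hp h1 (ds_SOL (ds_SOL pA pB) (by simp)))
  have g2 := dm_SOL (dn_SOL L) (dd_SOL hp h2 (ds_SOL (ds_SOL pE pA)
    ((dm_SOL (dn_SOL c) (dp_SOL (d1 0) p)).trans (by omega))))
  have dc := dm_SOL (dn_SOL L) (dn_SOL c)
  have dW := dp_SOL (dm_SOL (dm_SOL (ds_SOL (d1 2) (d1 1)) (ds_SOL (d1 2) (d1 3)))
    (dm_SOL (ds_SOL (d1 3) (d1 1)) (ds_SOL (d1 3) (d1 2)))) p
  refine ⟨_, _, _, _,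
    (dm_SOL ((MvPolynomial.totalDegree_neg _).trans_le dW)
      (ds_SOL (dm_SOL pE g1) (dm_SOL pB g2))).trans (by omega),
    (dm_SOL dW (dm_SOL pB dc)).trans (by omega),
    (dm_SOL dW (da_SOL (dm_SOL (da_SOL pE pA) g1) (dm_SOL pA g2))).trans (by omega),
    (dm_SOL dW (dm_SOL pA dc)).trans (by omega), fun S _ _ τ A A' A'' => ?_⟩
  have e1 := congrArg (MvPolynomial.aeval ![τ, A, A', A'']) h1
  have e2 := congrArg (MvPolynomial.aeval ![τ, A, A', A'']) h2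
  subst hx
  refine ⟨MvPolynomial.aeval ![τ, A, A', A''] G₁, MvPolynomial.aeval ![τ, A, A', A''] G₂,
    ?_, ?_, ?_, ?_, ?_, ?_⟩
  · simpa using e1
  · simpa using e2
  all_goals simp

theorem cancel_SOL {R : Type} [CommRing R] [IsDomain R] [CharZero R] {p n : ℕ} (hp : p.Prime)
    {f : R⟦X⟧} (h : Zm ((p : R) ^ 2) n ((p : R⟦X⟧) * f)) : Zm (p : R) n f := by
  intro m hm
  have h1 := h m hm
  rw [← map_natCast (C (R := R)), coeff_C_mul, pow_two] at h1
  exact (mul_dvd_mul_iff_left (by exact_mod_cast hp.ne_zero)).1 h1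

theorem zc_SOL {R : Type} [CommRing R] {q r : R} (h : q ∣ r) (n : ℕ) : Zm q n (C r) := by
  intro m _
  rw [coeff_C]
  split_ifs
  · exact h
  · exact dvd_zero _

theorem zx_SOL {R : Type} [CommRing R] (q : R) {n : ℕ} {f : R⟦X⟧} (h : X ^ n ∣ f) : Zm q n f := by
  intro m hm
  rw [X_pow_dvd_iff.1 h m hm]
  exact dvd_zero _

theorem sum_SOL {R : Type} [CommRing R] (L : ℕ) {A B E : R⟦X⟧} (h : A * B * E = 1) :
    Lgs L E (A * B) = -(Lgs L A (B * E) + Lgs L B (A * E)) := by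
  have h1 := congrArg (d⁄dX R) h
  rw [Derivation.leibniz, Derivation.leibniz, Derivation.map_one_eq_zero] at h1
  simp only [smul_eq_mul] at h1
  have h2 : d⁄dX R E * (A * B) = -(d⁄dX R A * (B * E) + d⁄dX R B * (A * E)) := by
    linear_combination h1
  ext k
  rw [Lgs, Lgs, Lgs, h2, map_neg, map_add, coeff_mk, coeff_mk, coeff_mk, map_neg, map_add]
  ring

theorem alg_SOL {Q : Type} [CommRing Q] {p : ℕ} (hp : p.Prime) (h0 : (p : Q) = 0) (c t : ℕ)
    {τ A A' A'' u v g₁ g₂ : Q} (hτ : τ ^ p = t) (hT : Tri (c * τ) A A' A'')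
    (e1 : A ^ p * u - (A - 1) ^ p * v = g₁)
    (e2 : ((A + c * τ) ^ p + A ^ p) * u + (A + c * τ) ^ p * v = -g₂) :
    dsc ((c : Q) * t) * u = -((A' - A) * (A' - A'') * ((A'' - A) * (A'' - A'))) ^ p *
      ((A + c * τ) ^ p * g₁ - (A - 1) ^ p * g₂) ∧
    dsc ((c : Q) * t) * v = ((A' - A) * (A' - A'') * ((A'' - A) * (A'' - A'))) ^ p *
      (((A + c * τ) ^ p + A ^ p) * g₁ + A ^ p * g₂) := by
  obtain ⟨F, hF⟩ : ∃ F : Q →+* Q, ∀ z, F z = z ^ p :=
    ⟨⟨⟨⟨fun z => z ^ p, one_pow p⟩, fun a b => mul_pow a b p⟩, zero_pow hp.ne_zero,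
      CC.frob_CNG hp h0⟩, fun _ => rfl⟩
  obtain ⟨h1, h2, h3⟩ := hT
  have h4 : -((A - A') * (A - A'') * ((A' - A) * (A' - A'') * ((A'' - A) * (A'' - A')))) =
      (A + A' + A'') ^ 2 * (A * A' + A * A'' + A' * A'') ^ 2 -
        4 * (A * A' + A * A'' + A' * A'') ^ 3 - 4 * (A + A' + A'') ^ 3 * (A * A' * A'') -
        27 * (A * A' * A'') ^ 2 +
        18 * (A + A' + A'') * (A * A' + A * A'' + A' * A'') * (A * A' * A'') := by ring
  have h5 : (A - A') * (A - A'') = A * (A + c * τ) + (A - 1) * (A + c * τ) + A * (A - 1) := by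
    linear_combination (-2 * A) * h1 + h2
  rw [h1, h2, h3, h5] at h4
  have h6 : dsc ((c : Q) * τ) = -((A * (A + c * τ) + (A - 1) * (A + c * τ) + A * (A - 1)) *
      ((A' - A) * (A' - A'') * ((A'' - A) * (A'' - A')))) := by
    rw [h4, dsc]
    ring
  have h7 : F (dsc ((c : Q) * τ)) = dsc ((c : Q) * t) := by
    simp only [dsc, map_sub, map_add, map_mul, map_pow, map_ofNat, map_one, map_natCast]
    rw [hF, hτ]
  rw [h6, map_neg, map_mul, map_add, map_add, map_mul, map_mul, map_mul, hF, hF, hF, hF] at h7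
  rw [← h7, ← e1, ← neg_neg g₂, ← e2]
  constructor <;> ring

theorem SOL_pf (hLOG : LOG_st) : SOL_st := by
  intro p c L hp
  obtain ⟨P₁, Q₁, P₂, Q₂, d1, d2, d3, d4, hP⟩ := polys_SOL p c L hp
  refine ⟨P₁, Q₁, P₂, Q₂, d1, d2, d3, d4, ?_⟩
  intro R _ _ _ n t κ x y τ θ A A' A'' hn hd hτ hθ hT hQ
  obtain ⟨g₁, g₂, hg1, hg2, p1, q1, p2, q2⟩ := hP R⟦X⟧ τ A A' A''
  have hu : A * (A - 1) * (A + c * τ) = 1 := by
    linear_combination A ^ 2 * hT.1 - A * hT.2.1 + hT.2.2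
  obtain ⟨a1, a2⟩ := hLOG R p L n A ((A - 1) * (A + c * τ)) hp hn hd (by linear_combination hu)
  obtain ⟨b1, b2⟩ := hLOG R p L n (A - 1) (A * (A + c * τ)) hp hn hd (by linear_combination hu)
  obtain ⟨c1, c2⟩ := hLOG R p L n (A + c * τ) (A * (A - 1)) hp hn hd (by linear_combination hu)
  have k1 : constantCoeff (A - 1) = constantCoeff A - 1 := by rw [map_sub, map_one]
  have k2 : constantCoeff (A + (c : R⟦X⟧) * τ) = constantCoeff A + (c : R) * t := by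
    rw [hτ]
    simp
  rw [k1] at b1 b2
  rw [k2] at c1 c2
  rw [sum_SOL L hu] at c2
  obtain ⟨s1, s2⟩ := hQ
  generalize constantCoeff A ^ p = α at *
  generalize (constantCoeff A - 1) ^ p = β at *
  generalize (constantCoeff A + c * t) ^ p = ε at *
  generalize Lgs L A ((A - 1) * (A + c * τ)) = u at *
  generalize Lgs L (A - 1) (A * (A + (c : R⟦X⟧) * τ)) = v at *
  obtain ⟨Q', _, ψ, hψ⟩ := CC.quot_CNG R ((p : R) ^ 2) n
  obtain ⟨Q, _, φ, hφ⟩ := CC.quot_CNG R (p : R) n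
  have m1 : Zm (p : R) n (C α * (u + L * C x) - C β * (v + L * C y) - L * g₁) := by
    refine cancel_SOL hp ((hψ _).1 ?_)
    have i1 := (hψ _).2 a2
    have i2 := (hψ _).2 b2
    have i3 := (hψ _).2 (zc_SOL s1 n)
    have i4 := congrArg ψ hg1
    simp only [map_sub, map_add, map_mul, map_natCast, map_one] at i1 i2 i3 i4 ⊢
    linear_combination -(L : Q') * i4 - i1 + i2 - (L : Q') * i3
  have m2 : Zm (p : R) n ((C ε + C α) * (u + L * C x) + C ε * (v + L * C y) +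
      L * (g₂ + c * θ)) := by
    refine cancel_SOL hp ((hψ _).1 ?_)
    have i1 := (hψ _).2 a2
    have i2 := (hψ _).2 c2
    have i3 := (hψ _).2 (zc_SOL s2 n)
    have i4 := congrArg ψ hg2
    have i5 := (hψ _).2 (zx_SOL _ hθ)
    simp only [map_sub, map_add, map_mul, map_natCast, map_one, map_neg] at i1 i2 i3 i4 i5 ⊢
    linear_combination (L : Q') * i4 - i1 + i2 + (L : Q') * i3 - (L : Q') * c * i5
  have h0 : (p : Q) = 0 := by
    rw [← map_natCast φ, ← map_natCast (C (R := R))]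
    exact (hφ _).2 (zc_SOL dvd_rfl n)
  have j1 := (hφ _).2 a1
  have j2 := (hφ _).2 b1
  have j3 := (hφ _).2 c1
  have j4 := (hφ _).2 m1
  have j5 := (hφ _).2 m2
  have j6 := (hφ _).2 (zx_SOL _ hθ)
  have j7 := congrArg φ hT.1
  have j8 := congrArg φ hT.2.1
  have j9 := congrArg φ hT.2.2
  simp only [map_sub, map_add, map_mul, map_natCast, map_one, map_neg, map_pow]
    at j1 j2 j3 j4 j5 j6 j7 j8 j9
  rw [sub_eq_zero] at j1 j2 j3 j4
  rw [← j1, ← j2] at j4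
  rw [← j1, ← j3] at j5
  obtain ⟨r1, r2⟩ := alg_SOL hp h0 c t (by linear_combination j6 + φ θ * h0) ⟨j7, j8, j9⟩ j4
    (eq_neg_of_add_eq_zero_left j5)
  have hD : φ (C (dsc ((c : R) * t))) = dsc ((c : Q) * t) := by
    simp only [dsc, map_sub, map_add, map_mul, map_pow, map_ofNat, map_one, map_natCast]
  refine ⟨(hφ _).1 ?_, (hφ _).1 ?_⟩
  · rw [p1, q1]
    simp only [map_sub, map_add, map_mul, map_natCast, map_one, map_neg, map_pow, hD]
    linear_combination r1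
  · rw [p2, q2]
    simp only [map_sub, map_add, map_mul, map_natCast, map_pow, hD]
    linear_combination r2

end Pool.Agent.MP_3e91a1_nt.TR

end
end

section

/-! The logarithms at one root, modulo `p`, in every degree. -/

set_option autoImplicit false

open Finset Filter PowerSeries

noncomputable section

namespace Pool.Agent.MP_3e91a1_nt.GN

open TR

section Deg

variable {σ : Type} {f g : MvPolynomial σ ℤ} {a b : ℕ}

theorem dm_SOG (h : f.totalDegree ≤ a) (h' : g.totalDegree ≤ b) : (f * g).totalDegree ≤ a + b :=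
  (MvPolynomial.totalDegree_mul _ _).trans (add_le_add h h')

theorem dp_SOG (h : f.totalDegree ≤ a) (k : ℕ) : (f ^ k).totalDegree ≤ k * a :=
  (MvPolynomial.totalDegree_pow _ _).trans (Nat.mul_le_mul_left _ h)

theorem da_SOG (h : f.totalDegree ≤ a) (h' : g.totalDegree ≤ a) : (f + g).totalDegree ≤ a :=
  (MvPolynomial.totalDegree_add _ _).trans (max_le h h')

theorem ds_SOG (h : f.totalDegree ≤ a) (h' : g.totalDegree ≤ a) : (f - g).totalDegree ≤ a :=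
  (MvPolynomial.totalDegree_sub _ _).trans (max_le h h')

theorem dn_SOG (k : ℕ) : ((k : MvPolynomial σ ℤ)).totalDegree ≤ 0 := by
  rw [← map_natCast (MvPolynomial.C (R := ℤ) (σ := σ)), MvPolynomial.totalDegree_C]

theorem dz_SOG (k : ℤ) (a : ℕ) : ((k : MvPolynomial σ ℤ)).totalDegree ≤ a := by
  rw [← map_intCast (MvPolynomial.C (R := ℤ) (σ := σ)), MvPolynomial.totalDegree_C]
  exact Nat.zero_le _

theorem dd_SOG {p : ℕ} (hp : p.Prime) (h : (p : MvPolynomial σ ℤ) * g = f)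
    (hf : f.totalDegree ≤ a) : g.totalDegree ≤ a := by
  by_cases hg : g = 0
  · rw [hg, MvPolynomial.totalDegree_zero]
    exact Nat.zero_le _
  · rw [← h, MvPolynomial.totalDegree_mul_of_isDomain (by exact_mod_cast hp.ne_zero) hg] at hf
    omega

theorem dq_SOG {n : ℕ} (s : Finset (Fin n)) {u : Fin n → MvPolynomial σ ℤ}
    (h : ∀ i, (u i).totalDegree ≤ a) : (∏ i ∈ s, u i).totalDegree ≤ n * a := by
  refine (MvPolynomial.totalDegree_finsetProd _ _).trans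
    ((sum_le_card_nsmul _ _ a fun i _ => h i).trans ?_)
  exact Nat.mul_le_mul_right _ ((card_le_univ s).trans (Fintype.card_fin n).le)

end Deg

theorem fer_SOG {p : ℕ} (hp : p.Prime) (S : Type) [CommRing S] (z : ℤ) :
    ∃ v : S, (z : S) ^ p = z + p * v := by
  have := Fact.mk hp
  obtain ⟨v, hv⟩ : (p : ℤ) ∣ z ^ p - z := by
    rw [← ZMod.intCast_zmod_eq_zero_iff_dvd]
    push_cast
    rw [ZMod.pow_card, sub_self]
  have h5 := congrArg (Int.cast : ℤ → S) hv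
  push_cast at h5
  exact ⟨v, by linear_combination h5⟩

theorem quo_SOG {p : ℕ} (hp : p.Prime) {S : Type} [CommRing S] (c : ℕ) (z : ℤ) (a τ : S) :
    ∃ G : S, p * G = (a + c * τ) ^ p - (a - z) ^ p - c * τ ^ p - z := by
  obtain ⟨w₁, h1⟩ := exists_add_pow_prime_eq hp (a - z) (c * τ + z)
  obtain ⟨w₂, h2⟩ := exists_add_pow_prime_eq hp (c * τ) (z : S)
  obtain ⟨v₁, h3⟩ := fer_SOG hp S c
  obtain ⟨v₂, h4⟩ := fer_SOG hp S z
  rw [Int.cast_natCast] at h3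
  rw [show a - z + (c * τ + z) = a + c * τ by ring] at h1
  rw [mul_pow] at h2
  exact ⟨(a - z) * (c * τ + z) * w₁ + c * τ * z * w₂ + v₁ * τ ^ p + v₂, by
    linear_combination -h1 - h2 - τ ^ p * h3 - h4⟩

theorem polys_SOG {m : ℕ} (r : Fin m → ℤ) (p c L : ℕ) (hp : p.Prime) :
    ∃ (P Q : Fin (m + 1) × Fin m → MvPolynomial (Option (Fin (m + 1))) ℤ)
      (Z : MvPolynomial (Option (Fin (m + 1))) ℤ),
      (∀ j, (P j).totalDegree ≤ (m + 2) ^ 2 * p) ∧ (∀ j, (Q j).totalDegree ≤ (m + 2) ^ 2 * p) ∧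
      Z.totalDegree ≤ (m + 2) ^ 2 * p ∧
      ∀ (S : Type) [CommRing S] [Algebra ℤ S] (τ : S) (A : Fin (m + 1) → S),
        MvPolynomial.aeval (fun o : Option (Fin (m + 1)) => o.elim τ A) Z = (∏ s, fd A s) ^ p ∧
        ∀ s, ∃ g : Fin m → S,
          (∀ i, p * g i = (A s + c * τ) ^ p - (A s - r i) ^ p - c * τ ^ p - r i) ∧ ∀ i,
          MvPolynomial.aeval (fun o : Option (Fin (m + 1)) => o.elim τ A) (P (s, i)) =
            -vv r (c * τ) A (s, i) ^ p * ((∏ s, fd A s) ^ p * (L * g i) -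
              (∏ s' ∈ univ.erase s, fd A s') ^ p * ∑ j, vv r (c * τ) A (s, j) ^ p * (L * g j)) ∧
          MvPolynomial.aeval (fun o : Option (Fin (m + 1)) => o.elim τ A) (Q (s, i)) =
            -vv r (c * τ) A (s, i) ^ p * ((∏ s, fd A s) ^ p * (L * c) -
              (∏ s' ∈ univ.erase s, fd A s') ^ p * ∑ j, vv r (c * τ) A (s, j) ^ p * (L * c)) := by
  obtain ⟨y, hy⟩ : ∃ y : MvPolynomial (Option (Fin (m + 1))) ℤ, y = MvPolynomial.X none := ⟨_, rfl⟩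
  obtain ⟨x, hx⟩ : ∃ x : Fin (m + 1) → MvPolynomial (Option (Fin (m + 1))) ℤ,
    x = fun s => MvPolynomial.X (some s) := ⟨_, rfl⟩
  have d0 : y.totalDegree ≤ 1 := hy ▸ (MvPolynomial.totalDegree_X _).le
  have d1 : ∀ s, (x s).totalDegree ≤ 1 := fun s => hx ▸ (MvPolynomial.totalDegree_X _).le
  choose G hG using fun j : Fin (m + 1) × Fin m => quo_SOG hp c (r j.2) (x j.1) y
  have dB : ∀ s i, (x s - r i).totalDegree ≤ 1 := fun s i => ds_SOG (d1 s) (dz_SOG _ _)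
  have dE : ∀ s, (x s + c * y).totalDegree ≤ 1 := fun s =>
    da_SOG (d1 s) (dm_SOG (dn_SOG c) d0)
  have dG : ∀ j, (L * G j).totalDegree ≤ 0 + p * 1 := fun j => dm_SOG (dn_SOG L)
    (dd_SOG hp (hG j) (ds_SOG (ds_SOG (ds_SOG (dp_SOG (dE _) p) (dp_SOG (dB _ _) p))
      ((dm_SOG (dn_SOG c) (dp_SOG d0 p)).trans (by omega))) (dz_SOG _ _)))
  have dc : ((L : MvPolynomial (Option (Fin (m + 1))) ℤ) * c).totalDegree ≤ 0 + p * 1 :=
    (dm_SOG (dn_SOG L) (dn_SOG c)).trans (Nat.zero_le _)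
  have dV : ∀ j, (vv r (c * y) x j ^ p).totalDegree ≤ p * (m * 1 + 1) := fun j =>
    dp_SOG (dm_SOG (dq_SOG _ (dB _)) (dE _)) p
  have dF : ∀ u : Finset (Fin (m + 1)),
      ((∏ s ∈ u, fd x s) ^ p).totalDegree ≤ p * ((m + 1) * ((m + 1) * 1)) := fun u =>
    dp_SOG (dq_SOG u fun s => dq_SOG _ fun s' => ds_SOG (d1 s) (d1 s')) p
  have key : ∀ (H : Fin (m + 1) × Fin m → MvPolynomial (Option (Fin (m + 1))) ℤ),
      (∀ j, (H j).totalDegree ≤ 0 + p * 1) → ∀ j : Fin (m + 1) × Fin m,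
      (-vv r (c * y) x j ^ p * ((∏ s, fd x s) ^ p * H j - (∏ s' ∈ univ.erase j.1, fd x s') ^ p *
        ∑ i, vv r (c * y) x (j.1, i) ^ p * H (j.1, i))).totalDegree ≤ (m + 2) ^ 2 * p := by
    intro H hH j
    refine (dm_SOG ((MvPolynomial.totalDegree_neg _).trans_le (dV j)) (ds_SOG
      ((dm_SOG (dF _) (hH j)).trans (Nat.add_le_add_left (Nat.le_add_left _ _) _))
      (dm_SOG (dF _) (MvPolynomial.totalDegree_finsetSum_le fun i _ =>
        dm_SOG (dV _) (hH _))))).trans (le_of_eq ?_)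
    ring
  refine ⟨_, _, (∏ s, fd x s) ^ p, key _ dG, key (fun _ => L * c) fun _ => dc,
    (dF _).trans (by nlinarith), fun S _ _ τ A => ?_⟩
  have e := fun j => congrArg
    (MvPolynomial.aeval (fun o : Option (Fin (m + 1)) => o.elim τ A)) (hG j)
  subst hx hy
  refine ⟨by simp [fd], fun s => ⟨fun i => MvPolynomial.aeval
    (fun o : Option (Fin (m + 1)) => o.elim τ A) (G (s, i)), fun i => ?_, fun i => ⟨?_, ?_⟩⟩⟩
  · simpa using e (s, i)
  · simp [fd, vv]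
  · simp [fd, vv]

theorem lgd_SOG {R : Type} [CommRing R] {m : ℕ} {B V : Fin m → R⟦X⟧} (h : ∀ i, B i * V i = 1)
    (s : Finset (Fin m)) :
    d⁄dX R (∏ i ∈ s, B i) = (∏ i ∈ s, B i) * ∑ i ∈ s, d⁄dX R (B i) * V i := by
  induction s using Finset.induction_on with
  | empty => simp
  | insert a s ha ih =>
    rw [prod_insert ha, sum_insert ha, Derivation.leibniz, ih, smul_eq_mul, smul_eq_mul]
    linear_combination (-(∏ i ∈ s, B i) * d⁄dX R (B a)) * h a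

theorem sum_SOG {R : Type} [CommRing R] (L : ℕ) {m : ℕ} {B V : Fin m → R⟦X⟧} {E : R⟦X⟧}
    (h : ∀ i, B i * V i = 1) (h' : (∏ i, B i) * E = 1) :
    Lgs L E (∏ i, B i) = -∑ i, Lgs L (B i) (V i) := by
  have h1 := congrArg (d⁄dX R) h'
  rw [Derivation.leibniz, Derivation.map_one_eq_zero, lgd_SOG h, smul_eq_mul, smul_eq_mul] at h1
  have h2 : d⁄dX R E * ∏ i, B i = -∑ i, d⁄dX R (B i) * V i := by
    linear_combination h1 - (∑ i, d⁄dX R (B i) * V i) * h'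
  ext k
  simp only [Lgs, h2, map_neg, map_sum, coeff_mk, mul_neg, mul_sum]

theorem frob_SOG {Q : Type} [CommRing Q] {p : ℕ} (hp : p.Prime) (h0 : (p : Q) = 0) :
    ∃ F : Q →+* Q, ∀ z, F z = z ^ p :=
  ⟨⟨⟨⟨fun z => z ^ p, one_pow p⟩, fun a b => mul_pow a b p⟩, zero_pow hp.ne_zero,
    CC.frob_CNG hp h0⟩, fun _ => rfl⟩

theorem alg_SOG {Q : Type} [CommRing Q] {p : ℕ} (hp : p.Prime) (h0 : (p : Q) = 0) {m : ℕ}
    {E g f w : Q} {B V u H : Fin m → Q} (h1 : ∀ i, B i * V i = 1) (h2 : g * E = 1)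
    (h3 : f = ∑ i, V i + g) (e : ∀ i, E ^ p * ∑ j, u j + B i ^ p * u i = -H i) (i : Fin m) :
    (f * w) ^ p * u i = -V i ^ p * ((f * w) ^ p * H i - w ^ p * ∑ j, V j ^ p * H j) := by
  obtain ⟨F, hF⟩ := frob_SOG hp h0
  have a1 : ∀ i, B i ^ p * V i ^ p = 1 := fun i => by rw [← mul_pow, h1, one_pow]
  have a2 : g ^ p * E ^ p = 1 := by rw [← mul_pow, h2, one_pow]
  have a3 : f ^ p = ∑ i, V i ^ p + g ^ p := by
    rw [← hF f, h3, map_add, map_sum]
    simp only [hF]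
  have a4 : ∀ i, u i = -(V i ^ p * H i) - V i ^ p * (E ^ p * ∑ j, u j) := fun i => by
    linear_combination V i ^ p * e i - u i * a1 i
  have a5 := sum_congr (s₁ := univ) rfl fun i _ => a4 i
  rw [sum_sub_distrib, sum_neg_distrib, ← sum_mul] at a5
  rw [mul_pow]
  linear_combination f ^ p * w ^ p * a4 i - V i ^ p * w ^ p * a5 -
    V i ^ p * w ^ p * (∑ j, u j) * (E ^ p * a3 + a2)

theorem hom_SOG {S S' : Type} [CommRing S] [CommRing S'] (f : S →+* S') (T : S)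
    (d : Polynomial ℤ) : f (Polynomial.aeval T d) = Polynomial.aeval (f T) d :=
  (Polynomial.aeval_algHom_apply f.toIntAlgHom T d).symm

theorem SOG_pf (hITG : ITG_st) (hLOG : LOG_st) : SOG_st := by
  intro m r d hD
  refine ⟨(m + 2) ^ 2, Nat.one_le_pow _ _ (by omega), fun p c L hp => ?_⟩
  obtain ⟨P, Q₀, Z, d1, d2, d3, hP⟩ := polys_SOG r p c L hp
  refine ⟨P, Q₀, Z, d1, d2, d3, ?_⟩
  intro R _ _ _ n t κ τ θ A hn hd hτ hθ hT
  obtain ⟨hZ, hs⟩ := hP R⟦X⟧ τ A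
  obtain ⟨i1, i2, i3, -, -, -⟩ := hITG m r _ _ A hT
  obtain ⟨Q', _, ψ, hψ⟩ := CC.quot_CNG R ((p : R) ^ 2) n
  obtain ⟨Q, _, φ, hφ⟩ := CC.quot_CNG R (p : R) n
  have h0 : (p : Q) = 0 := by
    rw [← map_natCast φ, ← map_natCast (C (R := R))]
    exact (hφ _).2 (zc_SOL dvd_rfl n)
  have hz : φ (C (Polynomial.aeval ((c : R) * t) d)) = φ (∏ s, fd A s) ^ p := by
    obtain ⟨F, hF⟩ := frob_SOG hp h0
    have j6 := (hφ _).2 (zx_SOL _ hθ)
    simp only [map_sub, map_mul, map_natCast, map_pow, h0, zero_mul, sub_zero] at j6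
    rw [hD _ _ A hT, ← hF, hom_SOG φ, hom_SOG F, hom_SOG (C (R := R)), hom_SOG φ]
    simp only [map_mul, map_natCast]
    rw [hF, sub_eq_zero.1 j6]
  refine ⟨(hφ _).1 (by rw [hZ, map_sub, map_pow, hz, sub_self]), fun s x hQ i => (hφ _).1 ?_⟩
  obtain ⟨g, hg, hpq⟩ := hs s
  have k1 : ∀ j, constantCoeff (uu r A (s, j)) = constantCoeff (A s) - r j := fun j => by
    rw [uu, map_sub, map_intCast]
  have k2 : constantCoeff (A s + (c : R⟦X⟧) * τ) = constantCoeff (A s) + (c : R) * t := by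
    rw [hτ]
    simp
  have b := fun j => hLOG R p L n _ _ hp hn hd (i1 (s, j))
  obtain ⟨c1, c2⟩ := hLOG R p L n _ _ hp hn hd ((mul_comm _ _).trans (i2 s))
  rw [sum_SOG L (B := fun j => A s - (r j : R⟦X⟧)) (fun j => i1 (s, j)) (i2 s)] at c2
  rw [k2] at c1 c2
  simp only [k1] at b
  simp only [uu] at b i1 ⊢
  obtain ⟨u, hu⟩ : ∃ u : Fin m → R⟦X⟧, ∀ j,
    Lgs L (A s - (r j : R⟦X⟧)) (vv r ((c : R⟦X⟧) * τ) A (s, j)) = u j := ⟨_, fun _ => rfl⟩
  simp only [hu] at b c2 ⊢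
  have m1 : ∀ j, φ (A s + c * τ) ^ p * ∑ l, φ (u l + L * C (x l)) +
      φ (A s - r j) ^ p * φ (u j + L * C (x j)) = -φ (L * (g j + c * θ)) := by
    intro j
    have m2 : Zm (p : R) n (C ((constantCoeff (A s) + (c : R) * t) ^ p) * (∑ l, u l +
        L * C (∑ l, x l)) + C ((constantCoeff (A s) - r j) ^ p) * (u j + L * C (x j)) +
        L * (g j + c * θ)) := by
      refine cancel_SOL hp ((hψ _).1 ?_)
      have e1 := (hψ _).2 (b j).2
      have e2 := (hψ _).2 c2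
      have e3 := (hψ _).2 (zc_SOL (hQ j) n)
      have e4 := congrArg ψ (hg j)
      have e5 := (hψ _).2 (zx_SOL _ hθ)
      generalize (constantCoeff (A s) + (c : R) * t) ^ p = ε at *
      generalize (constantCoeff (A s) - r j) ^ p = β at *
      simp only [map_sub, map_add, map_mul, map_natCast, map_intCast, map_one, map_neg]
        at e1 e2 e3 e4 e5 ⊢
      linear_combination (L : Q') * e4 - e1 + e2 + (L : Q') * e3 - (L : Q') * c * e5
    have e1 := (hφ _).2 (b j).1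
    have e2 := (hφ _).2 c1
    have e3 := (hφ _).2 m2
    rw [map_sub, map_pow, sub_eq_zero] at e1 e2
    rw [map_add, map_add, map_mul, map_mul, ← e1, ← e2, map_sum C, mul_sum, ← sum_add_distrib,
      map_sum] at e3
    exact eq_neg_of_add_eq_zero_left e3
  have r1 := alg_SOG hp h0 (g := φ (∏ j, (A s - (r j : R⟦X⟧)))) (f := φ (fd A s))
    (w := φ (∏ s' ∈ univ.erase s, fd A s'))
    (V := fun j => φ (vv r ((c : R⟦X⟧) * τ) A (s, j)))
    (fun j => by rw [← map_mul, i1 (s, j), map_one]) (by rw [← map_mul, i2 s, map_one])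
    (by rw [i3 s, map_add, map_sum]) m1 i
  rw [← map_mul, mul_prod_erase univ (fd A) (mem_univ s)] at r1
  rw [(hpq i).1, (hpq i).2]
  simp only [map_sub, map_add, map_mul, map_natCast, map_neg, map_pow, map_sum, hz, mul_add,
    sum_add_distrib, ← mul_assoc, ← sum_mul] at r1 ⊢
  linear_combination r1

end Pool.Agent.MP_3e91a1_nt.GN

end
end

section

/-! The logarithms at one root, modulo `p`, for arbitrary families. -/

set_option autoImplicit false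

open Finset Filter PowerSeries

noncomputable section

namespace Pool.Agent.MP_3e91a1_nt.FM

open TR GN

theorem fb_SOF (hFBF : FBF_st) (q : P2) : ∃ h : ℕ, ∀ (n p c : ℕ), p.Prime → ∀ s : Fin n,
    ∃ H G : MvPolynomial (Option (Fin n)) ℤ, H.totalDegree ≤ p * h ∧ G.totalDegree ≤ h ∧
      ∀ (S : Type) [CommRing S] [Algebra ℤ S] (τ : S) (A : Fin n → S),
        MvPolynomial.aeval (fun o : Option (Fin n) => o.elim τ A) G = ev q (c * τ) (A s) ∧
        ev q (c * τ ^ p) (A s ^ p) = ev q (c * τ) (A s) ^ p +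
          p * MvPolynomial.aeval (fun o : Option (Fin n) => o.elim τ A) H := by
  obtain ⟨h, hh⟩ := hFBF q
  refine ⟨h, fun n p c hp s => ?_⟩
  obtain ⟨H, G, d1, d2, e⟩ := hh p c hp
  refine ⟨MvPolynomial.rename ![none, some s] H, MvPolynomial.rename ![none, some s] G,
    (MvPolynomial.totalDegree_rename_le _ _).trans (d1.trans_eq (mul_comm _ _)),
    (MvPolynomial.totalDegree_rename_le _ _).trans d2, fun S _ al τ A => ?_⟩
  obtain rfl : al = Ring.toIntAlgebra S := Subsingleton.elim _ _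
  have e' : ((fun o : Option (Fin n) => o.elim τ A) ∘ ![none, some s]) = ![τ, A s] := by
    funext i
    fin_cases i <;> rfl
  rw [MvPolynomial.aeval_rename, MvPolynomial.aeval_rename, e']
  exact ⟨(e S τ (A s)).1.symm, (e S τ (A s)).2⟩

theorem gam_SOF {R : Type} [CommRing R] {q : R} {N : ℕ} {f : R⟦X⟧} (h : Zm q N f) :
    ∃ Γ : R⟦X⟧, X ^ N ∣ f - C q * Γ := by
  classical
  choose g hg using h
  refine ⟨PowerSeries.mk fun m => if hm : m < N then g m hm else 0, X_pow_dvd_iff.2 fun m hm => ?_⟩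
  rw [map_sub, coeff_C_mul, coeff_mk, dif_pos hm, ← hg, sub_self]

theorem pow_SOF {R : Type} [CommRing R] {p N : ℕ} (hp : p.Prime) (hN : N ≤ p) (A : R⟦X⟧) {b : R}
    (hb : (p : R) ∣ b - constantCoeff A ^ p) : Zm (p : R) N (C b - A ^ p) := by
  obtain ⟨Q, _, φ, hφ⟩ := CC.quot_CNG R (p : R) N
  have h0 : (p : Q) = 0 := by
    rw [← map_natCast φ, ← map_natCast (C (R := R))]
    exact (hφ _).2 (zc_SOL dvd_rfl N)
  obtain ⟨F, hF⟩ := frob_SOG hp h0
  have h1 := (hφ _).2 (zc_SOL hb N)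
  have h2 : φ ((A - C (constantCoeff A)) ^ p) = 0 :=
    (hφ _).2 (zx_SOL _ ((pow_dvd_pow X hN).trans (pow_dvd_pow_of_dvd (X_dvd_iff.2 (by simp)) p)))
  rw [map_pow, ← hF, map_sub, map_sub, hF, hF] at h2
  refine (hφ _).1 ?_
  simp only [map_sub, map_pow] at h1 ⊢
  linear_combination h1 - h2

theorem tay_SOF (hITF : ITF_st) (hTAF : TAF_st) {R : Type} [CommRing R] {p N c t : ℕ} {b : R}
    {τ θ A Γ : R⟦X⟧} (hθ : X ^ N ∣ τ ^ p - C (t : R) - (p : R⟦X⟧) * θ)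
    (hΓ : X ^ N ∣ C b - A ^ p - C (p : R) * Γ) (q : P2) :
    Zm ((p : R) ^ 2) N (C (ev q ((c : R) * t) b) - (ev q (c * τ ^ p) (A ^ p) +
      p * (ev (Polynomial.derivative q) (c * τ ^ p) (A ^ p) * Γ -
        ev (dT q) (c * τ ^ p) (A ^ p) * (c * θ)))) := by
  obtain ⟨Q, _, ψ, hψ⟩ := CC.quot_CNG R ((p : R) ^ 2) N
  have h0 : (p : Q) ^ 2 = 0 := by
    rw [← map_natCast ψ, ← map_natCast (C (R := R)), ← map_pow, ← map_pow]
    exact (hψ _).2 (zc_SOL dvd_rfl N)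
  have e1 := (hψ _).2 (zx_SOL _ hθ)
  have e2 := (hψ _).2 (zx_SOL _ hΓ)
  have e3 := hTAF q Q (ψ (c * τ ^ p)) (ψ (A ^ p)) (ψ Γ) (-ψ (c * θ)) p
  rw [h0, zero_dvd_iff] at e3
  have e4 : ψ (C ((c : R) * t)) = ψ (c * τ ^ p) + p * -ψ (c * θ) := by
    simp only [map_sub, map_mul, map_natCast] at e1 ⊢
    linear_combination (-c : Q) * e1
  have e5 : ψ (C b) = ψ (A ^ p) + p * ψ Γ := by
    simp only [map_sub, map_mul, map_natCast] at e2 ⊢
    linear_combination e2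
  refine (hψ _).1 ?_
  rw [map_sub, map_add, map_mul, map_sub, map_mul, map_mul, (hITF.1 _ _ (C (R := R)) q _ _).2,
    (hITF.1 _ _ ψ _ _ _).2, (hITF.1 _ _ ψ _ _ _).2, (hITF.1 _ _ ψ _ _ _).2,
    (hITF.1 _ _ ψ _ _ _).2, e4, e5, map_natCast]
  linear_combination e3

theorem SOF_pf (hITF : ITF_st) (hLOG : LOG_st) (hFBF : FBF_st) (hTAF : TAF_st) : SOF_st := by
  intro m n Φ d hO hE
  choose h hh using fb_SOF hFBF
  obtain ⟨g, g1, g2, g3, g4⟩ : ∃ g, h Φ.f ≤ g ∧ h (Polynomial.derivative Φ.f) ≤ g ∧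
      h (dT Φ.f) ≤ g ∧ ∀ i, h (Φ.U i) ≤ g ∧ h (Polynomial.derivative (Φ.U i)) ≤ g ∧
        h (dT (Φ.U i)) ≤ g ∧ h (Φ.V i) ≤ g := by
    refine ⟨h Φ.f + h (Polynomial.derivative Φ.f) + h (dT Φ.f) + ∑ i, (h (Φ.U i) +
      h (Polynomial.derivative (Φ.U i)) + h (dT (Φ.U i)) + h (Φ.V i)), by omega, by omega,
      by omega, fun i => ?_⟩
    have := single_le_sum (f := fun i => h (Φ.U i) + h (Polynomial.derivative (Φ.U i)) +
      h (dT (Φ.U i)) + h (Φ.V i)) (fun _ _ => Nat.zero_le _) (mem_univ i)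
    omega
  refine ⟨(n + 3) * g + 1, by omega, fun p c L hp => ?_⟩
  choose H G dH dG hHG using fun q s => hh q n p c hp s
  have dX : ∀ u : Finset (Fin n),
      ((∏ s ∈ u, G (Polynomial.derivative Φ.f) s) ^ p).totalDegree ≤ p * (n * g) := fun u =>
    dp_SOG (dq_SOG u fun s => (dG _ s).trans g2) p
  have dP : ∀ q s, h q ≤ g → (G q s ^ p).totalDegree ≤ p * g := fun q s a =>
    dp_SOG ((dG q s).trans a) p
  have dH' : ∀ q s, h q ≤ g → (H q s).totalDegree ≤ p * g := fun q s a =>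
    (dH q s).trans (Nat.mul_le_mul_left _ a)
  refine ⟨fun j => -(L * G (Φ.V j.2) j.1 ^ p *
      ((∏ s, G (Polynomial.derivative Φ.f) s) ^ p * H (Φ.U j.2) j.1 -
        G (Polynomial.derivative (Φ.U j.2)) j.1 ^ p *
          (∏ s ∈ univ.erase j.1, G (Polynomial.derivative Φ.f) s) ^ p * H Φ.f j.1)),
    fun j => -(L * c * G (Φ.V j.2) j.1 ^ p *
      (G (Polynomial.derivative (Φ.U j.2)) j.1 ^ p *
          (∏ s ∈ univ.erase j.1, G (Polynomial.derivative Φ.f) s) ^ p * G (dT Φ.f) j.1 ^ p -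
        (∏ s, G (Polynomial.derivative Φ.f) s) ^ p * G (dT (Φ.U j.2)) j.1 ^ p)),
    (∏ s, G (Polynomial.derivative Φ.f) s) ^ p, fun j => ?_, fun j => ?_,
    (dX _).trans (by nlinarith), ?_⟩
  · rw [MvPolynomial.totalDegree_neg]
    refine (dm_SOG (dm_SOG (dn_SOG L) (dP _ _ (g4 _).2.2.2)) (ds_SOG
      ((dm_SOG (dX _) (dH' _ _ (g4 _).1)).trans
        (Nat.add_le_add_right (Nat.le_add_left _ (p * g)) _))
      (dm_SOG (dm_SOG (dP _ _ (g4 _).2.1) (dX _)) (dH' _ _ g1)))).trans (by nlinarith)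
  · rw [MvPolynomial.totalDegree_neg]
    refine (dm_SOG (dm_SOG (dm_SOG (dn_SOG L) (dn_SOG c)) (dP _ _ (g4 _).2.2.2)) (ds_SOG
      (dm_SOG (dm_SOG (dP _ _ (g4 _).2.1) (dX _)) (dP _ _ g3))
      ((dm_SOG (dX _) (dP _ _ (g4 _).2.2.1)).trans
        (Nat.add_le_add_right (Nat.le_add_left _ (p * g)) _)))).trans (by nlinarith)
  intro R _ _ _ N t κ τ θ A hN hd hτ hθ hT
  obtain ⟨i1, i2, -, -, i3, -⟩ := hITF.2.2.2.2 _ _ _ _ A hT
  have hG := fun q s => (hHG q s R⟦X⟧ τ A).1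
  have hH := fun q s => (hHG q s R⟦X⟧ τ A).2
  obtain ⟨Q', _, ψ, hψ⟩ := CC.quot_CNG R ((p : R) ^ 2) N
  obtain ⟨Q, _, φ, hφ⟩ := CC.quot_CNG R (p : R) N
  have h0 : (p : Q) = 0 := by
    rw [← map_natCast φ, ← map_natCast (C (R := R))]
    exact (hφ _).2 (zc_SOL dvd_rfl N)
  have hz : φ (C (Polynomial.aeval ((c : R) * t) d)) =
      (∏ s, φ (ev (Polynomial.derivative Φ.f) (c * τ) (A s))) ^ p := by
    obtain ⟨F, hF⟩ := frob_SOG hp h0
    have j6 := (hφ _).2 (zx_SOL _ hθ)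
    simp only [map_sub, map_mul, map_natCast, map_pow, h0, zero_mul, sub_zero] at j6
    rw [← map_prod, ← prod_congr rfl fun s _ => i2 s, hE _ _ A hT, ← hF, hom_SOG φ, hom_SOG F,
      hom_SOG (C (R := R)), hom_SOG φ]
    simp only [map_mul, map_natCast]
    rw [hF, sub_eq_zero.1 j6]
  have hfr : ∀ q s, φ (ev q (c * τ ^ p) (A s ^ p)) = φ (ev q (c * τ) (A s)) ^ p := fun q s => by
    rw [hH, map_add, map_mul, map_natCast, h0, zero_mul, add_zero, map_pow]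
  refine ⟨(hφ _).1 ?_, fun s x hQ i => (hφ _).1 ?_⟩
  · rw [map_sub, hz]
    simp only [map_pow, map_prod, hG, sub_self]
  obtain ⟨b, q1, q2, q3⟩ := hQ
  obtain ⟨Γ, hΓ⟩ := gam_SOF (pow_SOF hp hN (A s) q1)
  have t1 := fun q => (hψ _).2 (tay_SOF (c := c) hITF hTAF hθ hΓ q)
  have hu := i3 m Φ rfl hO (s, i)
  obtain ⟨l1, l2⟩ := hLOG R p L N _ _ hp hN hd hu
  have k1 : constantCoeff (Φ.u ((c : R⟦X⟧) * τ) A (s, i)) =
      ev (Φ.U i) ((c : R) * t) (constantCoeff (A s)) := by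
    rw [Fam.u, (hITF.1 _ _ (constantCoeff (R := R)) _ _ _).2, hτ]
    simp
  rw [k1] at l1 l2
  generalize Lgs L (Φ.u ((c : R⟦X⟧) * τ) A (s, i)) (Φ.v ((c : R⟦X⟧) * τ) A (s, i)) = Λ at l2 ⊢
  simp only [Fam.u, Fam.v] at hu l1 l2
  have m1 : Zm (p : R) N (MvPolynomial.aeval (fun o : Option (Fin n) => o.elim τ A) (H Φ.f s) +
      (ev (Polynomial.derivative Φ.f) (c * τ ^ p) (A s ^ p) * Γ -
        ev (dT Φ.f) (c * τ ^ p) (A s ^ p) * (c * θ))) := by
    refine cancel_SOL hp ((hψ _).1 ?_)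
    have e1 := t1 Φ.f
    have e2 := (hψ _).2 (zc_SOL q2 N)
    rw [hH Φ.f, i1, zero_pow hp.ne_zero, zero_add, map_sub, e2, zero_sub, neg_eq_zero,
      ← mul_add] at e1
    exact e1
  have m2 : Zm (p : R) N (C (ev (Φ.U i) ((c : R) * t) (constantCoeff (A s)) ^ p) *
      (Λ + L * C (x i)) +
      L * (MvPolynomial.aeval (fun o : Option (Fin n) => o.elim τ A) (H (Φ.U i) s) +
      (ev (Polynomial.derivative (Φ.U i)) (c * τ ^ p) (A s ^ p) * Γ -
        ev (dT (Φ.U i)) (c * τ ^ p) (A s ^ p) * (c * θ)))) := by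
    refine cancel_SOL hp ((hψ _).1 ?_)
    have e1 := t1 (Φ.U i)
    have e2 := (hψ _).2 (zc_SOL (q3 i) N)
    have e3 := (hψ _).2 l2
    rw [hH (Φ.U i)] at e1
    generalize ev (Φ.U i) ((c : R) * t) (constantCoeff (A s)) ^ p = ε at *
    generalize ev (Polynomial.derivative (Φ.U i)) (c * τ ^ p) (A s ^ p) * Γ -
        ev (dT (Φ.U i)) (c * τ ^ p) (A s ^ p) * (c * θ) = β at *
    simp only [map_sub, map_add, map_mul, map_natCast, map_one] at e1 e2 e3 ⊢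
    linear_combination (L : Q') * e2 - (L : Q') * e1 - e3
  have e1 := (hφ _).2 m1
  have e2 := (hφ _).2 m2
  have e3 := (hφ _).2 l1
  have e4 := congrArg (fun z => φ z ^ p) hu
  have e5 := congrArg (· ^ p) (mul_prod_erase univ
    (fun s => φ (ev (Polynomial.derivative Φ.f) (c * τ) (A s))) (mem_univ s))
  generalize ev (Φ.U i) ((c : R) * t) (constantCoeff (A s)) ^ p = ε at *
  simp only [map_sub, map_add, map_mul, map_natCast, map_neg, map_pow, map_prod, map_one, hz, hG,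
    hfr, mul_pow, one_pow] at e1 e2 e3 e4 e5 ⊢
  generalize (∏ s, φ (ev (Polynomial.derivative Φ.f) (c * τ) (A s))) ^ p = Z at *
  generalize (∏ s' ∈ univ.erase s, φ (ev (Polynomial.derivative Φ.f) (c * τ) (A s'))) ^ p = w at *
  generalize φ (ev (Φ.V i) (c * τ) (A s)) ^ p = v at *
  generalize φ (ev (Polynomial.derivative (Φ.U i)) (c * τ) (A s)) ^ p = y at *
  linear_combination Z * v * e2 + Z * v * (φ Λ + L * φ (C (x i))) * e3 -
    Z * (φ Λ + L * φ (C (x i))) * e4 - L * v * y * w * e1 + L * v * y * φ Γ * e5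

end Pool.Agent.MP_3e91a1_nt.FM

end
end
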