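import Pool.Agent.Mg.F3e91a1.G3fdd3f
import Pool.Agent.Mg.F3e91a1.Gc3fe55
import Pool.Agent.Mg.F3e91a1.G83a210

set_option linter.all false

section

/-! Modulo `p` the rows lie in a module with few generators. -/

set_option autoImplicit false

open Finset PowerSeries

noncomputable section

namespace Pool.Agent.MP_3e91a1_nt.TR

/-- the relations of the universal ring -/
def Rel_CNG (c c' : ℕ) {S : Type} [CommRing S] (g : Fin 7 → S) (h : Fin 9 → S) : Prop :=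
  Dat c c' g ∧ h 1 * h 4 = h 3 * h 2 ∧ h 5 * h 8 = h 7 * h 6

theorem univ_CNG (c c' : ℕ) : ∃ (Q : Type) (_ : CommRing Q) (g : Fin 7 → Q) (h : Fin 9 → Q),
    Rel_CNG c c' g h ∧ ∀ (S : Type) [CommRing S] (g' : Fin 7 → S) (h' : Fin 9 → S),
      Rel_CNG c c' g' h' → ∃ ψ : Q →+* S, (∀ i, ψ (g i) = g' i) ∧ ∀ j, ψ (h j) = h' j := by
  let I : Ideal (MvPolynomial (Fin 7 ⊕ Fin 9) ℤ) :=
    { carrier := {f | ∀ (S : Type) [CommRing S] (g' : Fin 7 → S) (h' : Fin 9 → S),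
        Rel_CNG c c' g' h' → MvPolynomial.eval₂Hom (Int.castRingHom S) (Sum.elim g' h') f = 0}
      add_mem' := fun ha hb S _ g' h' H => by rw [map_add, ha S g' h' H, hb S g' h' H, add_zero]
      zero_mem' := fun S _ g' h' _ => map_zero _
      smul_mem' := fun a f hf S _ g' h' H => by
        rw [smul_eq_mul, map_mul, hf S g' h' H, mul_zero] }
  have key : ∀ a b : MvPolynomial (Fin 7 ⊕ Fin 9) ℤ,
      (∀ (S : Type) [CommRing S] (g' : Fin 7 → S) (h' : Fin 9 → S), Rel_CNG c c' g' h' →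
        MvPolynomial.eval₂Hom (Int.castRingHom S) (Sum.elim g' h') a =
          MvPolynomial.eval₂Hom (Int.castRingHom S) (Sum.elim g' h') b) →
      Ideal.Quotient.mk I a = Ideal.Quotient.mk I b := fun a b H =>
    Ideal.Quotient.eq.2 fun S _ g' h' H' => by rw [map_sub, H S g' h' H', sub_self]
  refine ⟨_ ⧸ I, inferInstance, fun i => Ideal.Quotient.mk I (MvPolynomial.X (Sum.inl i)),
    fun j => Ideal.Quotient.mk I (MvPolynomial.X (Sum.inr j)), ?_, fun S _ g' h' H => ?_⟩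
  · refine ⟨⟨⟨?_, ?_, ?_⟩, ?_, ?_, ?_⟩, ?_, ?_⟩
    all_goals
      simp only [← map_natCast (Ideal.Quotient.mk I), ← map_one (Ideal.Quotient.mk I), ← map_mul,
        ← map_add, ← map_sub, ← map_neg]
      refine key _ _ fun S _ g' h' H => ?_
      obtain ⟨⟨⟨a1, a2, a3⟩, a4, a5, a6⟩, a7, a8⟩ := H
      simp only [map_add, map_mul, map_sub, map_neg, map_one, map_natCast,
        MvPolynomial.eval₂Hom_X', Sum.elim_inl, Sum.elim_inr]
      assumption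
  · refine ⟨Ideal.Quotient.lift I (MvPolynomial.eval₂Hom (Int.castRingHom S) (Sum.elim g' h'))
      fun a ha => ha S g' h' H, fun i => ?_, fun j => ?_⟩
    · rw [Ideal.Quotient.lift_mk, MvPolynomial.eval₂Hom_X', Sum.elim_inl]
    · rw [Ideal.Quotient.lift_mk, MvPolynomial.eval₂Hom_X', Sum.elim_inr]

theorem one_pow_CNG {S : Type} [CommRing S] {F : Submodule ℤ S} (h1 : (1 : S) ∈ F) (k : ℕ) :
    (1 : S) ∈ F ^ k := by
  simpa using Submodule.pow_mem_pow F h1 k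

theorem mono_CNG {S : Type} [CommRing S] {F : Submodule ℤ S} (h1 : (1 : S) ∈ F) {a b : ℕ}
    (h : a ≤ b) {x : S} (hx : x ∈ F ^ a) : x ∈ F ^ b := by
  obtain ⟨k, rfl⟩ := Nat.exists_eq_add_of_le h
  rw [pow_add, ← mul_one x]
  exact Submodule.mul_mem_mul hx (one_pow_CNG h1 k)

theorem prod_CNG {S ι : Type} [CommRing S] {F : Submodule ℤ S} (s : Finset ι) (x : ι → S)
    (e : ι → ℕ) (h : ∀ i ∈ s, x i ∈ F ^ e i) : ∏ i ∈ s, x i ∈ F ^ ∑ i ∈ s, e i := by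
  classical
  induction s using Finset.induction_on with
  | empty => simpa using Submodule.one_le.1 (le_refl (1 : Submodule ℤ S))
  | insert a s ha ih =>
    rw [prod_insert ha, sum_insert ha, pow_add]
    exact Submodule.mul_mem_mul (h a (mem_insert_self _ _))
      (ih fun i hi => h i (mem_insert_of_mem hi))

theorem deg_CNG {S : Type} [CommRing S] {F : Submodule ℤ S} (h1 : (1 : S) ∈ F) {v : Fin 4 → S}
    (hv : ∀ i, v i ∈ F) {P : MvPolynomial (Fin 4) ℤ} {m : ℕ} (hP : P.totalDegree ≤ m) :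
    MvPolynomial.eval₂ (Int.castRingHom S) v P ∈ F ^ m := by
  rw [MvPolynomial.eval₂_eq]
  refine Submodule.sum_mem _ fun d hd => ?_
  rw [eq_intCast, ← zsmul_eq_mul]
  exact Submodule.smul_mem _ _ (mono_CNG h1 ((MvPolynomial.le_totalDegree hd).trans hP)
    (prod_CNG _ _ _ fun i _ => Submodule.pow_mem_pow F (hv i) _))

theorem dsc_CNG {S : Type} [CommRing S] {F : Submodule ℤ S} (h1 : (1 : S) ∈ F) {x : S}
    (hx : x ∈ F) (c : ℕ) : dsc ((c : S) * x) ∈ F ^ 4 := by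
  have h2 : (c : S) * x ∈ F := by
    rw [← nsmul_eq_mul]
    exact nsmul_mem hx c
  generalize (c : S) * x = T at h2
  have h3 : T ∈ F ^ 2 := mono_CNG h1 one_le_two (by rwa [pow_one])
  have h4 : T ^ 2 + 3 * T - 1 ∈ F ^ 2 := by
    refine sub_mem (add_mem (Submodule.pow_mem_pow F h2 2) ?_) (one_pow_CNG h1 2)
    simpa using nsmul_mem h3 3
  have h5 := Submodule.pow_mem_pow _ h4 2
  rw [← pow_mul] at h5
  refine sub_mem h5 ?_
  simpa using nsmul_mem (one_pow_CNG h1 4) 32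

theorem nat_CNG {A B : Type} [CommRing A] [CommRing B] {_ : Algebra ℤ A} (ψ : A →+* B)
    (v : Fin 4 → A) (P : MvPolynomial (Fin 4) ℤ) :
    ψ (MvPolynomial.aeval v P) = MvPolynomial.eval₂ (Int.castRingHom B) (fun i => ψ (v i)) P := by
  rw [MvPolynomial.aeval_def, MvPolynomial.eval₂_comp_left,
    RingHom.ext_int (ψ.comp _) (Int.castRingHom B)]
  rfl

theorem nat2_CNG {A B : Type} [CommRing A] [CommRing B] (ψ : A →+* B)
    (v : Fin 4 → A) (P : MvPolynomial (Fin 4) ℤ) :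
    ψ (MvPolynomial.eval₂ (Int.castRingHom A) v P) =
      MvPolynomial.eval₂ (Int.castRingHom B) (fun i => ψ (v i)) P := by
  rw [MvPolynomial.eval₂_comp_left, RingHom.ext_int (ψ.comp _) (Int.castRingHom B)]
  rfl

theorem dscmap_CNG {A B : Type} [CommRing A] [CommRing B] (ψ : A →+* B) (x : A) :
    ψ (dsc x) = dsc (ψ x) := by
  simp only [dsc, map_sub, map_add, map_pow, map_mul, map_one, map_ofNat]

theorem frob2_CNG {Q : Type} [CommRing Q] {p : ℕ} (hp : p.Prime) (h0 : (p : Q) = 0) (c : ℕ)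
    (x : Q) : dsc ((c : Q) * x) ^ p = dsc ((c : Q) * x ^ p) := by
  let fr : Q →+* Q :=
    { toFun := fun y => y ^ p
      map_one' := one_pow p
      map_mul' := fun a b => mul_pow a b p
      map_zero' := zero_pow hp.ne_zero
      map_add' := CC.frob_CNG hp h0 }
  have h := dscmap_CNG fr ((c : Q) * x)
  rw [map_mul, map_natCast] at h
  exact h

theorem quot2_CNG (R : Type) [CommRing R] (q : R) (n : ℕ) :
    ∃ (S : Type) (_ : CommRing S) (φ : R⟦X⟧ →+* S), Function.Surjective φ ∧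
      ∀ f, φ f = 0 ↔ Zm q n f := by
  obtain ⟨Q, _, φ, hφ⟩ := CC.quot_CNG R q n
  refine ⟨_ ⧸ RingHom.ker φ, inferInstance, Ideal.Quotient.mk _, Ideal.Quotient.mk_surjective,
    fun f => ?_⟩
  rw [Ideal.Quotient.eq_zero_iff_mem, RingHom.mem_ker, hφ]
  rfl

theorem theta_CNG {R : Type} [CommRing R] {p n : ℕ} (hp : p.Prime) (hn : n ≤ p) (t : ℕ) (κ : R) :
    ∃ θ : R⟦X⟧, X ^ n ∣ (C (t : R) + C κ * X) ^ p - C (t : R) - (p : R⟦X⟧) * θ := by
  have := Fact.mk hp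
  obtain ⟨r, hr⟩ := exists_add_pow_prime_eq hp (C (t : R) : R⟦X⟧) (C κ * X)
  obtain ⟨v, hv⟩ : (p : ℤ) ∣ (t : ℤ) ^ p - t := by
    rw [← ZMod.intCast_zmod_eq_zero_iff_dvd]
    push_cast
    rw [ZMod.pow_card, sub_self]
  have h5 := congrArg (Int.cast : ℤ → R⟦X⟧) hv
  push_cast at h5
  refine ⟨(v : R⟦X⟧) + C (t : R) * (C κ * X) * r, (pow_dvd_pow X hn).trans ⟨C κ ^ p, ?_⟩⟩
  rw [hr, map_natCast]
  linear_combination h5

/-- the arguments of the polynomials -/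
def ix_CNG : Fin 8 → Fin 4 → Fin 7 :=
  ![![0, 1, 2, 3], ![0, 1, 2, 3], ![0, 2, 1, 3], ![0, 2, 1, 3],
    ![0, 4, 5, 6], ![0, 4, 5, 6], ![0, 5, 4, 6], ![0, 5, 4, 6]]

/-- the universal form of a logarithm -/
def mm_CNG (P Q : Fin 8 → MvPolynomial (Fin 4) ℤ) {S : Type} [CommRing S] (g : Fin 7 → S)
    (h : Fin 9 → S) (j : Fin 8) : S :=
  MvPolynomial.eval₂ (Int.castRingHom S) (fun i => g (ix_CNG j i)) (P j) +
    MvPolynomial.eval₂ (Int.castRingHom S) (fun i => g (ix_CNG j i)) (Q j) * h 0 - h j.succ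

theorem tri_CNG {S : Type} [CommRing S] {T a b e : S} (h : Tri T a b e) : Tri T b a e :=
  ⟨by linear_combination h.1, by linear_combination h.2.1, by linear_combination h.2.2⟩

theorem pt_CNG (hSOL : SOL_st) {p : ℕ} (c c' L : ℕ) (hp : p.Prime) :
    ∃ P Q : Fin 8 → MvPolynomial (Fin 4) ℤ, (∀ j, (P j).totalDegree ≤ 6 * p) ∧
    (∀ j, (Q j).totalDegree ≤ 6 * p) ∧ ∀ n : ℕ, n ≤ p → (∀ k, 1 ≤ k → k < n → k ∣ L) →
    ∀ (R : Type) [CommRing R] [IsDomain R] [CharZero R] (t : ℕ) (κ : R) (g : Fin 7 → R⟦X⟧),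
      g 0 = C (t : R) + C κ * X → Dat c c' g →
      Bad p (c * t) (constantCoeff (g 1)) (constantCoeff (g 2)) →
      Bad p (c' * t) (constantCoeff (g 4)) (constantCoeff (g 5)) →
      ∀ (S : Type) [CommRing S] (φ : R⟦X⟧ →+* S), (∀ f, φ f = 0 ↔ Zm (p : R) n f) →
      (p : S) = 0 ∧ φ (g 0) ^ p = t ∧ ∃ h : Fin 9 → S, Rel_CNG c c' (fun i => φ (g i)) h ∧
        ∀ j, mm_CNG P Q (fun i => φ (g i)) h j =
          dsc (((![c, c, c, c, c', c', c', c'] j : ℕ) : S) * t) *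
            φ (Lgs L (un g j) (iv c c' g j)) := by
  obtain ⟨P₁, Q₁, P₂, Q₂, d1, d2, d3, d4, H⟩ := hSOL p c L hp
  obtain ⟨P₃, Q₃, P₄, Q₄, d5, d6, d7, d8, H'⟩ := hSOL p c' L hp
  refine ⟨![P₁, P₂, P₁, P₂, P₃, P₄, P₃, P₄], ![Q₁, Q₂, Q₁, Q₂, Q₃, Q₄, Q₃, Q₄],
    fun j => by fin_cases j <;> assumption, fun j => by fin_cases j <;> assumption, ?_⟩
  intro n hn hd R _ _ _ t κ g hg hD hB hB' S _ φ hφ
  obtain ⟨-, x, y, x', y', q1, q2, q3⟩ := hB
  obtain ⟨-, z, w, z', w', q4, q5, q6⟩ := hB'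
  rw [Nat.cast_mul] at q1 q2 q4 q5
  obtain ⟨θ, hθ⟩ := theta_CNG hp hn t κ
  rw [← hg] at hθ
  have hC : ∀ a : R, (p : R) ∣ a → φ (C a) = 0 := fun a ha => (hφ _).2 fun m _ => by
    rw [coeff_C]
    split_ifs
    · exact ha
    · exact dvd_zero _
  have h0 : (p : S) = 0 := by
    rw [← map_natCast φ, ← map_natCast (C (R := R))]
    exact hC _ dvd_rfl
  have hτ : φ (g 0) ^ p = t := by
    have h1 : φ (g 0 ^ p - C (t : R) - (p : R⟦X⟧) * θ) = 0 := (hφ _).2 fun m hm => by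
      rw [X_pow_dvd_iff.1 hθ m hm]
      exact dvd_zero _
    simp only [map_sub, map_mul, map_pow, map_natCast, h0, zero_mul, sub_zero] at h1
    exact sub_eq_zero.1 h1
  obtain ⟨e1, e2⟩ := H R n t κ x y (g 0) θ (g 1) (g 2) (g 3) hn hd hg hθ hD.1 q1
  obtain ⟨e3, e4⟩ := H R n t κ x' y' (g 0) θ (g 2) (g 1) (g 3) hn hd hg hθ (tri_CNG hD.1) q2
  obtain ⟨e5, e6⟩ := H' R n t κ z w (g 0) θ (g 4) (g 5) (g 6) hn hd hg hθ hD.2 q4
  obtain ⟨e7, e8⟩ := H' R n t κ z' w' (g 0) θ (g 5) (g 4) (g 6) hn hd hg hθ (tri_CNG hD.2) q5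
  have hdsc : ∀ a : ℕ, φ (C (dsc ((a : R) * t))) = dsc ((a : S) * t) := fun a => by
    have h1 := dscmap_CNG (φ.comp C) ((a : R) * t)
    rwa [map_mul, map_natCast, map_natCast] at h1
  have hrel : ∀ d a b a' b' : R, (p : R) ∣ a * b' - a' * b →
      φ (C (d * a)) * φ (C (d * b')) = φ (C (d * a')) * φ (C (d * b)) := fun d a b a' b' h => by
    have h1 := hC _ (h.mul_left (d * d))
    simp only [map_mul, map_sub] at h1 ⊢
    linear_combination h1
  have htri : ∀ (a : ℕ) (A A' A'' : R⟦X⟧), Tri (a * g 0) A A' A'' →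
      Tri (a * φ (g 0)) (φ A) (φ A') (φ A'') := fun a A A' A'' h =>
    ⟨by simpa using congrArg φ h.1, by simpa using congrArg φ h.2.1,
      by simpa using congrArg φ h.2.2⟩
  have hfin : ∀ {a : ℕ} {U : R⟦X⟧} {v : Fin 4 → R⟦X⟧} {A B : MvPolynomial (Fin 4) ℤ} {b : R}
      {v' : Fin 4 → S}, (∀ i, v' i = φ (v i)) →
      Zm (p : R) n (C (dsc ((a : R) * t)) * U -
        (MvPolynomial.aeval v A + MvPolynomial.aeval v B * θ - C b)) →
      MvPolynomial.eval₂ (Int.castRingHom S) v' A +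
        MvPolynomial.eval₂ (Int.castRingHom S) v' B * φ θ - φ (C b) =
        dsc ((a : S) * t) * φ U := fun {a U v A B b v'} hv h => by
    have h1 := (hφ _).2 h
    rw [map_sub, map_sub, map_add, map_mul, map_mul, nat_CNG, nat_CNG, hdsc, sub_eq_zero] at h1
    rw [funext hv, h1]
  refine ⟨h0, hτ, ![φ θ, φ (C (dsc ((c : R) * t) * L * x)), φ (C (dsc ((c : R) * t) * L * y)),
    φ (C (dsc ((c : R) * t) * L * x')), φ (C (dsc ((c : R) * t) * L * y')),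
    φ (C (dsc ((c' : R) * t) * L * z)), φ (C (dsc ((c' : R) * t) * L * w)),
    φ (C (dsc ((c' : R) * t) * L * z')), φ (C (dsc ((c' : R) * t) * L * w'))],
    ⟨⟨htri _ _ _ _ hD.1, htri _ _ _ _ hD.2⟩, hrel _ _ _ _ _ q3, hrel _ _ _ _ _ q6⟩, fun j => ?_⟩
  fin_cases j
  · exact hfin (fun i => by fin_cases i <;> rfl) e1
  · exact hfin (fun i => by fin_cases i <;> rfl) e2
  · exact hfin (fun i => by fin_cases i <;> rfl) e3
  · exact hfin (fun i => by fin_cases i <;> rfl) e4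
  · exact hfin (fun i => by fin_cases i <;> rfl) e5
  · exact hfin (fun i => by fin_cases i <;> rfl) e6
  · exact hfin (fun i => by fin_cases i <;> rfl) e7
  · exact hfin (fun i => by fin_cases i <;> rfl) e8

theorem CNG_pf (hSOL : SOL_st) (hSPN : SPN_st) : CNG_st := by
  intro p c c' D K L n hp hn hd
  obtain ⟨P, Q, hP, hQ, Hpt⟩ := pt_CNG hSOL c c' L hp
  obtain ⟨U, _, G, H, hrel, hlift⟩ := univ_CNG c c'
  obtain ⟨s, hs, hsp⟩ := hSPN U c c' (D + 54 * K * p) (9 * K) G H hrel.1 hrel.2.1 hrel.2.2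
  set F : Submodule ℤ U := Submodule.span ℤ (insert 1 (Set.range G)) with hF
  set E : Submodule ℤ U := Submodule.span ℤ (insert 1 (Set.range H)) with hE
  have F1 : (1 : U) ∈ F := Submodule.subset_span (Set.mem_insert _ _)
  have E1 : (1 : U) ∈ E := Submodule.subset_span (Set.mem_insert _ _)
  have FG : ∀ i, G i ∈ F := fun i => Submodule.subset_span (Set.mem_insert_of_mem _ ⟨i, rfl⟩)
  have EH : ∀ j, H j ∈ E := fun j => Submodule.subset_span (Set.mem_insert_of_mem _ ⟨j, rfl⟩)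
  have W0 : ∀ x ∈ F ^ (6 * p), x ∈ F ^ (6 * p) * E := fun x hx => by
    simpa using Submodule.mul_mem_mul hx E1
  have W1 : (1 : U) ∈ F ^ (6 * p) * E := W0 _ (one_pow_CNG F1 _)
  let cc : Fin 8 → ℕ := ![c, c, c, c, c', c', c', c']
  have hmem : ∀ r : Ix D K, G 0 ^ (r.1 : ℕ) * ((G 0 ^ p) ^ (r.2.1 : ℕ) *
      ∏ j, (mm_CNG P Q G H j ^ (r.2.2 j : ℕ) * (dsc ((cc j : U) * G 0) ^ p) ^ (K - r.2.2 j))) ∈
      Submodule.span ℤ (s : Set U) := fun r => by
    refine hsp ?_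
    have a1 : G 0 ^ (r.1 : ℕ) ∈ F ^ D := mono_CNG F1 r.1.2.le (Submodule.pow_mem_pow F (FG 0) _)
    have a2 : (G 0 ^ p) ^ (r.2.1 : ℕ) ∈ (F ^ (6 * p) * E) ^ K :=
      mono_CNG W1 (Nat.le_of_lt_succ r.2.1.2) (Submodule.pow_mem_pow _
        (W0 _ (mono_CNG F1 (by omega) (Submodule.pow_mem_pow F (FG 0) p))) _)
    have a3 : ∀ j, mm_CNG P Q G H j ^ (r.2.2 j : ℕ) *
        (dsc ((cc j : U) * G 0) ^ p) ^ (K - r.2.2 j) ∈ (F ^ (6 * p) * E) ^ K := fun j => by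
      have b1 : mm_CNG P Q G H j ∈ F ^ (6 * p) * E := by
        refine sub_mem (add_mem (W0 _ (deg_CNG F1 (fun i => FG _) (hP j)))
          (Submodule.mul_mem_mul (deg_CNG F1 (fun i => FG _) (hQ j)) (EH 0))) ?_
        simpa using Submodule.mul_mem_mul (one_pow_CNG F1 (6 * p)) (EH j.succ)
      have b2 := Submodule.pow_mem_pow _ (dsc_CNG F1 (FG 0) (cc j)) p
      rw [← pow_mul] at b2
      have b3 := Submodule.mul_mem_mul (Submodule.pow_mem_pow _ b1 (r.2.2 j : ℕ))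
        (Submodule.pow_mem_pow _ (W0 _ (mono_CNG F1 (by omega) b2)) (K - r.2.2 j))
      rwa [← pow_add, Nat.add_sub_cancel' (Nat.le_of_lt_succ (r.2.2 j).2)] at b3
    have a4 := prod_CNG univ _ (fun _ => K) fun j _ => a3 j
    have a5 := Submodule.mul_mem_mul a1 (Submodule.mul_mem_mul a2 a4)
    rw [← pow_add, sum_const, card_univ, Fintype.card_fin, smul_eq_mul,
      show K + 8 * K = 9 * K by ring] at a5
    rwa [mul_pow, ← pow_mul, ← mul_assoc, ← pow_add,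
      show D + 6 * p * (9 * K) = D + 54 * K * p by ring] at a5
  choose u hu using fun r => Submodule.mem_span_finset'.1 (hmem r)
  refine ⟨s, inferInstance, u, by rwa [Fintype.card_coe], ?_⟩
  intro R _ _ _ t κ g hg hD hB hB'
  obtain ⟨S, _, φ, hsur, hφ⟩ := quot2_CNG R (p : R) n
  obtain ⟨h0, hτ, h, hr, hm⟩ := Hpt n hn hd R t κ g hg hD hB hB' S φ hφ
  obtain ⟨ψ, hψ1, hψ2⟩ := hlift S _ h hr
  have hpr : Prime (p : ℤ) := Nat.prime_iff_prime_int.1 hp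
  have hcop : ∀ j, IsCoprime (p : ℤ) (dsc (((cc j * t : ℕ) : ℤ))) := fun j => by
    rw [hpr.coprime_iff_not_dvd]
    fin_cases j
    exacts [hB.1, hB.1, hB.1, hB.1, hB'.1, hB'.1, hB'.1, hB'.1]
  obtain ⟨a, z, hz⟩ : IsCoprime (p : ℤ) (∏ j, dsc (((cc j * t : ℕ) : ℤ)) ^ K) :=
    IsCoprime.prod_right fun j _ => (hcop j).pow_right
  have hz' : (z : S) * ∏ j, dsc ((cc j : S) * t) ^ K = 1 := by
    have h1 := congrArg (Int.castRingHom S) hz
    simp only [map_add, map_mul, map_prod, map_pow, map_one, dscmap_CNG, map_natCast, h0,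
      mul_zero, zero_add, Nat.cast_mul] at h1
    exact h1
  choose lf hlf using fun τ : s => hsur (ψ τ)
  refine ⟨fun τ m => coeff m (C (z : R) * lf τ), fun r m hm' => ?_⟩
  have hmm : ∀ j, ψ (mm_CNG P Q G H j) =
      dsc ((cc j : S) * t) * φ (Lgs L (un g j) (iv c c' g j)) := fun j => by
    rw [← hm j]
    simp only [mm_CNG, map_sub, map_add, map_mul, nat2_CNG, hψ1, hψ2]
  have h1 := congrArg ψ (hu r)
  simp only [map_sum, map_zsmul, map_mul, map_pow, map_prod, hmm, dscmap_CNG, map_natCast, hψ1,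
    frob2_CNG hp h0, hτ] at h1
  have h2 : ∏ j, ((dsc ((cc j : S) * t) * φ (Lgs L (un g j) (iv c c' g j))) ^ (r.2.2 j : ℕ) *
      dsc ((cc j : S) * t) ^ (K - r.2.2 j)) = (∏ j, dsc ((cc j : S) * t) ^ K) *
      ∏ j, φ (Lgs L (un g j) (iv c c' g j)) ^ (r.2.2 j : ℕ) := by
    rw [← prod_mul_distrib]
    refine prod_congr rfl fun j _ => ?_
    rw [mul_pow, mul_right_comm, ← pow_add, Nat.add_sub_cancel' (Nat.le_of_lt_succ (r.2.2 j).2)]
  rw [h2] at h1
  have hfin : φ (row c c' L g t r.1 r.2.1 (fun j => r.2.2 j) -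
      ∑ τ : s, C ((u r τ : ℤ) : R) * (C (z : R) * lf τ)) = 0 := by
    simp only [row, map_sub, map_sum, map_mul, map_pow, map_prod, map_intCast, map_natCast, hlf,
      mul_left_comm _ (z : S), ← mul_sum]
    simp only [zsmul_eq_mul] at h1
    rw [h1]
    linear_combination (-(φ (g 0) ^ (r.1 : ℕ) * (t : S) ^ (r.2.1 : ℕ) *
      ∏ j, φ (Lgs L (un g j) (iv c c' g j)) ^ (r.2.2 j : ℕ))) * hz'
  have h9 := (hφ _).1 hfin m hm'
  simpa only [map_sub, map_sum, coeff_C_mul] using h9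

end Pool.Agent.MP_3e91a1_nt.TR

end
end

section

/-! The universal ring and the relation at one point. -/

set_option autoImplicit false

open Finset PowerSeries

noncomputable section

namespace Pool.Agent.MP_3e91a1_nt.GN

open TR

theorem univ_CNH (F V E : Type) [CommRing F] (g : ∀ (S : Type) [CommRing S], (V → S) → E → S)
    (hg : ∀ (S S' : Type) [CommRing S] [CommRing S'] (φ : S →+* S') (v : V → S) (e : E),
      φ (g S v e) = g S' (fun i => φ (v i)) e) :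
    ∃ (U : Type) (_ : CommRing U) (_ : Algebra F U) (v : V → U), (∀ e, g U v e = 0) ∧
      ∀ (S : Type) [CommRing S] (_ : F →+* S) (v' : V → S), (∀ e, g S v' e = 0) →
        ∃ ψ : U →+* S, ∀ i, ψ (v i) = v' i := by
  let I : Ideal (MvPolynomial V F) := Ideal.span (Set.range (g _ MvPolynomial.X))
  refine ⟨_ ⧸ I, inferInstance, inferInstance, fun i => Ideal.Quotient.mk I (MvPolynomial.X i),
    fun e => ?_, fun S _ f v' H => ?_⟩
  · rw [← hg _ _ (Ideal.Quotient.mk I) MvPolynomial.X e, Ideal.Quotient.eq_zero_iff_mem]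
    exact Ideal.subset_span ⟨e, rfl⟩
  · have hI : I ≤ RingHom.ker (MvPolynomial.eval₂Hom f v') := by
      refine Ideal.span_le.2 ?_
      rintro _ ⟨e, rfl⟩
      have h1 := hg _ _ (MvPolynomial.eval₂Hom f v') MvPolynomial.X e
      simp only [MvPolynomial.eval₂Hom_X'] at h1
      exact h1.trans (H e)
    refine ⟨Ideal.Quotient.lift I (MvPolynomial.eval₂Hom f v')
      fun a ha => RingHom.mem_ker.1 (hI ha), fun i => ?_⟩
    exact (Ideal.Quotient.lift_mk _ _ _).trans (MvPolynomial.eval₂Hom_X' _ _ _)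

/-- the value of an integral polynomial -/
def ev_CNH {m : ℕ} {S : Type} [CommRing S] (τ : S) (A : Fin (m + 1) → S)
    (P : MvPolynomial (Option (Fin (m + 1))) ℤ) : S :=
  MvPolynomial.eval₂ (Int.castRingHom S) (fun o : Option (Fin (m + 1)) => o.elim τ A) P

theorem ev_eq_CNH {m : ℕ} {S : Type} [CommRing S] {_ : Algebra ℤ S} (τ : S)
    (A : Fin (m + 1) → S) (P : MvPolynomial (Option (Fin (m + 1))) ℤ) :
    MvPolynomial.aeval (fun o : Option (Fin (m + 1)) => o.elim τ A) P = ev_CNH τ A P := by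
  rw [MvPolynomial.aeval_def, RingHom.ext_int (algebraMap ℤ S) (Int.castRingHom S)]
  rfl

theorem ev_nat_CNH {m : ℕ} {S S' : Type} [CommRing S] [CommRing S'] (φ : S →+* S') (τ : S)
    (A : Fin (m + 1) → S) (P : MvPolynomial (Option (Fin (m + 1))) ℤ) :
    φ (ev_CNH τ A P) = ev_CNH (φ τ) (fun s => φ (A s)) P := by
  unfold ev_CNH
  rw [MvPolynomial.eval₂_comp_left, RingHom.ext_int (φ.comp _) (Int.castRingHom S')]
  congr 1
  funext o
  cases o <;> rfl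

/-- the universal form of a logarithm -/
def mz_CNH {m : ℕ} (P Q : Fin (m + 1) × Fin m → MvPolynomial (Option (Fin (m + 1))) ℤ)
    {S : Type} [CommRing S] (τ θ : S) (A : Fin (m + 1) → S) (u : Fin (m + 1) × Fin m) : S :=
  ev_CNH τ A (P u) + ev_CNH τ A (Q u) * θ

theorem mz_nat_CNH {m : ℕ} (P Q : Fin (m + 1) × Fin m → MvPolynomial (Option (Fin (m + 1))) ℤ)
    {S S' : Type} [CommRing S] [CommRing S'] (φ : S →+* S') (τ θ : S) (A : Fin (m + 1) → S)
    (u : Fin (m + 1) × Fin m) :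
    φ (mz_CNH P Q τ θ A u) = mz_CNH P Q (φ τ) (φ θ) (fun s => φ (A s)) u := by
  simp only [mz_CNH, map_add, map_mul, ev_nat_CNH]

/-- the matrix of the linear forms -/
def am_CNH {m k : ℕ} (σ : Sel m k) {S : Type} [CommRing S] (x : Fin k → S) :
    Matrix (Fin m) (Fin m) S := Matrix.of fun s i => ∑ j, (σ.e s i j : S) * x j

/-- the correction -/
def wm_CNH {m k : ℕ} (σ : Sel m k) {S : Type} [CommRing S] (M : Fin (m + 1) × Fin m → S) :
    Matrix (Fin m) (Fin m) S :=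
  Matrix.of fun s i => (σ.N : S) * M (s.castSucc, i) - ∑ j, (σ.e s i j : S) * M (σ.J j)

theorem am_nat_CNH {m k : ℕ} (σ : Sel m k) {S S' : Type} [CommRing S] [CommRing S']
    (φ : S →+* S') (x : Fin k → S) :
    φ (am_CNH σ x).det = (am_CNH σ fun j => φ (x j)).det := by
  rw [RingHom.map_det]
  congr 1
  ext s i
  simp [am_CNH]

theorem psi_nat_CNH {m k : ℕ} (σ : Sel m k) {S S' : Type} [CommRing S] [CommRing S']
    (φ : S →+* S') (x : Fin k → S) (M : Fin (m + 1) × Fin m → S) :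
    φ (am_CNH σ x + wm_CNH σ M).det =
      (am_CNH σ (fun j => φ (x j)) + wm_CNH σ fun u => φ (M u)).det := by
  rw [RingHom.map_det]
  congr 1
  ext s i
  simp [am_CNH, wm_CNH]

theorem phi_eq_CNH {m k : ℕ} (σ : Sel m k) :
    σ.Phi = (am_CNH σ (MvPolynomial.X : Fin k → MvPolynomial (Fin k) ℤ)).det := by
  unfold Sel.Phi am_CNH
  simp only [eq_intCast]

theorem phi_hom_CNH {m k : ℕ} (σ : Sel m k) : σ.Phi.IsHomogeneous m := by
  unfold Sel.Phi
  rw [Matrix.det_apply']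
  refine MvPolynomial.IsHomogeneous.sum _ _ _ fun π _ => ?_
  rw [← eq_intCast (MvPolynomial.C : ℤ →+* MvPolynomial (Fin k) ℤ)]
  refine MvPolynomial.IsHomogeneous.C_mul ?_ _
  have h := MvPolynomial.IsHomogeneous.prod univ
    (fun i : Fin m => ∑ j, MvPolynomial.C (σ.e (π i) i j) * (MvPolynomial.X j :
      MvPolynomial (Fin k) ℤ)) (fun _ => 1) fun i _ =>
    MvPolynomial.IsHomogeneous.sum _ _ _ fun j _ => MvPolynomial.isHomogeneous_C_mul_X _ _
  simpa using h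

theorem k_pos_CNH {m k : ℕ} (σ : Sel m k) (hm : 1 ≤ m) (h : σ.Phi ≠ 0) : 1 ≤ k := by
  rcases Nat.eq_zero_or_pos k with rfl | hk
  · exfalso
    apply h
    have : Nonempty (Fin m) := ⟨⟨0, hm⟩⟩
    have h1 : am_CNH σ (MvPolynomial.X : Fin 0 → MvPolynomial (Fin 0) ℤ) = 0 := by
      ext s i
      simp [am_CNH]
    rw [phi_eq_CNH, h1, Matrix.det_zero]
  · exact hk

theorem red_CNH {k : ℕ} (Φ : MvPolynomial (Fin k) ℤ) (h : Φ ≠ 0) : ∃ p₀ : ℕ, ∀ p : ℕ, p₀ < p →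
    MvPolynomial.map (Int.castRingHom (ZMod p)) Φ ≠ 0 := by
  obtain ⟨α, hα⟩ := MvPolynomial.ne_zero_iff.1 h
  refine ⟨(Φ.coeff α).natAbs, fun p hp h0 => hα ?_⟩
  have h1 := congrArg (MvPolynomial.coeff α) h0
  rw [MvPolynomial.coeff_map, MvPolynomial.coeff_zero, eq_intCast,
    ZMod.intCast_zmod_eq_zero_iff_dvd] at h1
  exact Int.eq_zero_of_dvd_of_natAbs_lt_natAbs h1 (by simpa using hp)

theorem rt_nat_CNH {m : ℕ} (r : Fin m → ℤ) {S S' : Type} [CommRing S] [CommRing S']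
    (φ : S →+* S') (T : S) (A : Fin (m + 1) → S) (n : ℕ) :
    φ ((∏ s, (Polynomial.X - Polynomial.C (A s)) - fp r T).coeff n) =
      (∏ s, (Polynomial.X - Polynomial.C (φ (A s))) - fp r (φ T)).coeff n := by
  rw [← Polynomial.coeff_map]
  congr 1
  simp [fp, Polynomial.map_prod]

theorem univ2_CNH (p : ℕ) {m k k' : ℕ} (σ : Sel m k) (σ' : Sel m k') (r : Fin m → ℤ) (c c' : ℕ)
    (P Q P' Q' : Fin (m + 1) × Fin m → MvPolynomial (Option (Fin (m + 1))) ℤ) :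
    ∃ (U : Type) (_ : CommRing U) (_ : Algebra (ZMod p) U) (τ θ : U) (A A' : Fin (m + 1) → U)
      (x : Fin k → U) (x' : Fin k' → U), Rt r (c * τ) A ∧ Rt r (c' * τ) A' ∧
      (am_CNH σ x + wm_CNH σ (mz_CNH P Q τ θ A)).det = 0 ∧
      (am_CNH σ' x' + wm_CNH σ' (mz_CNH P' Q' τ θ A')).det = 0 ∧
      ∀ (S : Type) [CommRing S] (τ₁ θ₁ : S) (B B' : Fin (m + 1) → S) (y : Fin k → S)
        (y' : Fin k' → S), (p : S) = 0 → Rt r (c * τ₁) B → Rt r (c' * τ₁) B' →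
        (am_CNH σ y + wm_CNH σ (mz_CNH P Q τ₁ θ₁ B)).det = 0 →
        (am_CNH σ' y' + wm_CNH σ' (mz_CNH P' Q' τ₁ θ₁ B')).det = 0 →
        ∃ ψ : U →+* S, ψ τ = τ₁ ∧ ψ θ = θ₁ ∧ (∀ s, ψ (A s) = B s) ∧ (∀ s, ψ (A' s) = B' s) ∧
          (∀ j, ψ (x j) = y j) ∧ ∀ j, ψ (x' j) = y' j := by
  obtain ⟨U, _, _, v, h1, h2⟩ := univ_CNH (ZMod p)
    (Bool ⊕ (Fin (m + 1) ⊕ Fin (m + 1)) ⊕ (Fin k ⊕ Fin k')) ((ℕ ⊕ ℕ) ⊕ (Unit ⊕ Unit))
    (fun S _ v => Sum.elim
      (Sum.elim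
        (fun n => (∏ s, (Polynomial.X - Polynomial.C (v (.inr (.inl (.inl s))))) -
          fp r (c * v (.inl true))).coeff n)
        (fun n => (∏ s, (Polynomial.X - Polynomial.C (v (.inr (.inl (.inr s))))) -
          fp r (c' * v (.inl true))).coeff n))
      (Sum.elim
        (fun _ => (am_CNH σ (fun j => v (.inr (.inr (.inl j)))) + wm_CNH σ
          (mz_CNH P Q (v (.inl true)) (v (.inl false)) fun s => v (.inr (.inl (.inl s))))).det)
        (fun _ => (am_CNH σ' (fun j => v (.inr (.inr (.inr j)))) + wm_CNH σ'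
          (mz_CNH P' Q' (v (.inl true)) (v (.inl false)) fun s => v (.inr (.inl (.inr s))))).det)))
    (by
      intro S S' _ _ φ v e
      rcases e with (n | n) | (u | u)
      · simp only [Sum.elim_inl, rt_nat_CNH, map_mul, map_natCast]
      · simp only [Sum.elim_inl, Sum.elim_inr, rt_nat_CNH, map_mul, map_natCast]
      · simp only [Sum.elim_inl, Sum.elim_inr, psi_nat_CNH, mz_nat_CNH]
      · simp only [Sum.elim_inr, psi_nat_CNH, mz_nat_CNH])
  refine ⟨U, inferInstance, inferInstance, v (.inl true), v (.inl false),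
    fun s => v (.inr (.inl (.inl s))), fun s => v (.inr (.inl (.inr s))),
    fun j => v (.inr (.inr (.inl j))), fun j => v (.inr (.inr (.inr j))), ?_, ?_,
    h1 (.inr (.inl ())), h1 (.inr (.inr ())), ?_⟩
  · exact sub_eq_zero.1 (Polynomial.ext fun n => h1 (.inl (.inl n)))
  · exact sub_eq_zero.1 (Polynomial.ext fun n => h1 (.inl (.inr n)))
  · intro S _ τ₁ θ₁ B B' y y' h0 a1 a2 a3 a4
    have := ringChar.charP S
    obtain ⟨ψ, hψ⟩ := h2 S (ZMod.castHom (ringChar.dvd h0) S)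
      (Sum.elim (fun b => cond b τ₁ θ₁) (Sum.elim (Sum.elim B B') (Sum.elim y y'))) (by
        rintro ((n | n) | (u | u))
        · exact congrArg (fun f => Polynomial.coeff f n) (sub_eq_zero.2 a1)
        · exact congrArg (fun f => Polynomial.coeff f n) (sub_eq_zero.2 a2)
        · exact a3
        · exact a4)
    exact ⟨ψ, hψ _, hψ _, fun _ => hψ _, fun _ => hψ _, fun _ => hψ _, fun _ => hψ _⟩

theorem lgs_CNH {m k : ℕ} (σ : Sel m k) (r : Fin m → ℤ) (L : ℕ) {R : Type} [CommRing R]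
    (T : R⟦X⟧) (A : Fin (m + 1) → R⟦X⟧) (h : σ.Rel r (derivative R) T A) (s i : Fin m) :
    (σ.N : R⟦X⟧) * Lgs L (uu r A (s.castSucc, i)) (vv r T A (s.castSucc, i)) =
      ∑ j, (σ.e s i j : R⟦X⟧) * Lgs L (uu r A (σ.J j)) (vv r T A (σ.J j)) := by
  ext n
  have h1 := congrArg (coeff (n - 1)) (h s i)
  simp only [← map_natCast (C (R := R)), ← map_intCast (C (R := R)), map_sum, coeff_C_mul]
    at h1 ⊢
  simp only [Lgs, coeff_mk]
  rw [mul_left_comm, h1, mul_sum]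
  exact sum_congr rfl fun j _ => mul_left_comm _ _ _

theorem pt_CNH {m k : ℕ} (σ : Sel m k) (r : Fin m → ℤ) (d : Polynomial ℤ) {p : ℕ} (hp : p.Prime)
    (c L n t : ℕ) (P Q : Fin (m + 1) × Fin m → MvPolynomial (Option (Fin (m + 1))) ℤ)
    {R : Type} [CommRing R] (τ θ : R⟦X⟧) (A : Fin (m + 1) → R⟦X⟧)
    (H : ∀ (s : Fin (m + 1)) (x : Fin m → R), Qug p r ((c : R) * t) (constantCoeff (A s)) x → ∀ i,
      Zm (p : R) n (C (Polynomial.aeval ((c : R) * t) d) *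
          Lgs L (uu r A (s, i)) (vv r (c * τ) A (s, i)) -
        (ev_CNH τ A (P (s, i)) + ev_CNH τ A (Q (s, i)) * θ -
          C (Polynomial.aeval ((c : R) * t) d * L * x i))))
    (hR : σ.Rel r (derivative R) (c * τ) A)
    (hB : Bag p (c * t) r d fun s => constantCoeff (A s))
    {S : Type} [CommRing S] (φ : R⟦X⟧ →+* S) (hφ : ∀ f, φ f = 0 ↔ Zm (p : R) n f)
    (hC : ∀ a : R, (p : R) ∣ a → φ (C a) = 0) (h0 : (p : S) = 0) :
    ∃ y : Fin k → S, (am_CNH σ y + wm_CNH σ (mz_CNH P Q (φ τ) (φ θ) fun s => φ (A s))).det = 0 ∧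
      ∀ j, mz_CNH P Q (φ τ) (φ θ) (fun s => φ (A s)) (σ.J j) - y j =
        φ (C (Polynomial.aeval ((c : R) * t) d)) *
          φ (Lgs L (uu r A (σ.J j)) (vv r (c * τ) A (σ.J j))) := by
  obtain ⟨-, x, α, q1, ⟨i₀, q2⟩, q3⟩ := hB
  rw [Nat.cast_mul] at q1
  obtain ⟨δ, hδ⟩ : ∃ δ : R, δ = Polynomial.aeval ((c : R) * t) d := ⟨_, rfl⟩
  rw [← hδ] at H ⊢
  have hM : ∀ u : Fin (m + 1) × Fin m, mz_CNH P Q (φ τ) (φ θ) (fun s => φ (A s)) u =
      φ (C δ) * φ (Lgs L (uu r A u) (vv r (c * τ) A u)) + φ (C (δ * L * x u.1 u.2)) := by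
    intro u
    have h1 := (hφ _).2 (H u.1 (x u.1) (q1 u.1) u.2)
    rw [map_sub, map_sub, map_add, map_mul, map_mul, ev_nat_CNH, ev_nat_CNH] at h1
    unfold mz_CNH
    linear_combination -h1
  refine ⟨fun j => φ (C (δ * L * x (σ.J j).1 (σ.J j).2)), ?_, fun j => by rw [hM]; ring⟩
  have hu : IsUnit ((α i₀ : ℤ) : S) := by
    obtain ⟨a, b, hab⟩ := (Nat.prime_iff_prime_int.1 hp).coprime_iff_not_dvd.2 q2
    have h1 := congrArg (Int.castRingHom S) hab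
    simp only [map_add, map_mul, map_natCast, h0, mul_zero, zero_add, map_one, eq_intCast] at h1
    exact IsUnit.of_mul_eq_one_right _ h1
  refine Matrix.det_eq_zero_of_mulVec_eq_zero_of_mem_nonZeroDivisors
    (v := fun i => ((α i : ℤ) : S)) ?_ (i := i₀) hu.mem_nonZeroDivisors
  funext s
  have h2 : ∀ i, (am_CNH σ (fun j => φ (C (δ * L * x (σ.J j).1 (σ.J j).2))) +
      wm_CNH σ (mz_CNH P Q (φ τ) (φ θ) fun s => φ (A s))) s i =
      (σ.N : S) * φ (C (δ * L * x s.castSucc i)) := by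
    intro i
    have h3 := congrArg φ (lgs_CNH σ r L _ A hR s i)
    simp only [map_mul φ, map_sum, map_natCast, map_intCast] at h3
    simp only [Matrix.add_apply, am_CNH, wm_CNH, Matrix.of_apply, hM, mul_add, sum_add_distrib,
      mul_left_comm _ (φ (C δ)), ← mul_sum, ← h3]
    ring
  have h4 := hC _ ((q3 s.castSucc).mul_left (δ * L))
  simp only [Matrix.mulVec, dotProduct, h2, Pi.zero_apply]
  simp only [map_mul, map_sum, map_intCast, mul_sum] at h4 ⊢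
  rw [← mul_zero (σ.N : S), ← h4, mul_sum]
  exact sum_congr rfl fun i _ => by ring

end Pool.Agent.MP_3e91a1_nt.GN

end
end

section

/-! Modulo `p` the rows lie in a module with few generators. -/

set_option autoImplicit false

open Finset PowerSeries Pointwise

noncomputable section

namespace Pool.Agent.MP_3e91a1_nt.GN

open TR

theorem one_pow_CNH {F S : Type} [CommRing F] [CommRing S] [Algebra F S] {W : Submodule F S}
    (h1 : (1 : S) ∈ W) (k : ℕ) : (1 : S) ∈ W ^ k := by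
  simpa using Submodule.pow_mem_pow W h1 k

theorem mono_CNH {F S : Type} [CommRing F] [CommRing S] [Algebra F S] {W : Submodule F S}
    (h1 : (1 : S) ∈ W) {a b : ℕ} (h : a ≤ b) {x : S} (hx : x ∈ W ^ a) : x ∈ W ^ b := by
  obtain ⟨k, rfl⟩ := Nat.exists_eq_add_of_le h
  rw [pow_add, ← mul_one x]
  exact Submodule.mul_mem_mul hx (one_pow_CNH h1 k)

theorem prod_CNH {F S ι : Type} [CommRing F] [CommRing S] [Algebra F S] {W : Submodule F S}
    (s : Finset ι) (x : ι → S) (e : ι → ℕ) (h : ∀ i ∈ s, x i ∈ W ^ e i) :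
    ∏ i ∈ s, x i ∈ W ^ ∑ i ∈ s, e i := by
  classical
  induction s using Finset.induction_on with
  | empty => simpa using Submodule.one_le.1 (le_refl (1 : Submodule F S))
  | insert a s ha ih =>
    rw [prod_insert ha, sum_insert ha, pow_add]
    exact Submodule.mul_mem_mul (h a (mem_insert_self _ _))
      (ih fun i hi => h i (mem_insert_of_mem hi))

theorem sp_CNH (hSPG : SPG_st) (hDDF : DDF_st) {p : ℕ} [Fact p.Prime] {m k : ℕ} (σ : Sel m k)
    (hm : 1 ≤ m) (hΦ : MvPolynomial.map (Int.castRingHom (ZMod p)) σ.Phi ≠ 0) {U : Type}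
    [CommRing U] [Algebra (ZMod p) U] (M : Fin (m + 1) × Fin m → U) (x : Fin k → U)
    (W : Submodule (ZMod p) U) (h1 : 1 ∈ W) (hM : ∀ u, M u ∈ W)
    (h0 : (am_CNH σ x + wm_CNH σ M).det = 0) (N : ℕ) :
    ∃ s : Finset U, s.card ≤ m * (N + 1) ^ (k - 1) ∧
      Submodule.span (ZMod p) (insert 1 (Set.range x)) ^ N ≤
        W ^ (m * N) * Submodule.span (ZMod p) (s : Set U) := by
  refine hSPG (ZMod p) U k m N _ x W hΦ ((phi_hom_CNH σ).map _) hm h1 ?_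
  have e1 : MvPolynomial.aeval x (MvPolynomial.map (Int.castRingHom (ZMod p)) σ.Phi) =
      (am_CNH σ x).det := by
    have h := am_nat_CNH σ (((MvPolynomial.aeval x : MvPolynomial (Fin k) (ZMod p) →ₐ[ZMod p] U) :
      MvPolynomial (Fin k) (ZMod p) →+* U).comp (MvPolynomial.map (Int.castRingHom (ZMod p))))
      MvPolynomial.X
    rw [← phi_eq_CNH] at h
    simpa using h
  have e2 := hDDF (ZMod p) U m (am_CNH σ x) (wm_CNH σ M) W
    (Submodule.span (ZMod p) (insert 1 (Set.range x))) h1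
    (Submodule.subset_span (Set.mem_insert _ _))
    (fun s i => by
      simp only [am_CNH, Matrix.of_apply, ← zsmul_eq_mul]
      exact Submodule.sum_mem _ fun j _ =>
        zsmul_mem (Submodule.subset_span (Set.mem_insert_of_mem _ (Set.mem_range_self j))) _)
    (fun s i => by
      simp only [wm_CNH, Matrix.of_apply, ← zsmul_eq_mul, ← nsmul_eq_mul]
      exact sub_mem (nsmul_mem (hM _) _) (Submodule.sum_mem _ fun j _ => zsmul_mem (hM _) _))
  rw [h0, zero_sub, neg_mem_iff] at e2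
  rwa [e1]

theorem cnt_CNH (ν h m k k' D K p c₀ c₁ c₂ : ℕ) (hh : 1 ≤ h) (hk : 1 ≤ k) (hk' : 1 ≤ k')
    (h0 : c₀ ≤ ν * (D + h * p * ((2 * m + 1) * ((k + k' + 1) * K)) + 1) *
      ((2 * m + 1) * ((k + k' + 1) * K) + 1))
    (h1 : c₁ ≤ m * ((k + k' + 1) * K + 1) ^ (k - 1))
    (h2 : c₂ ≤ m * ((k + k' + 1) * K + 1) ^ (k' - 1)) :
    c₀ * c₁ * c₂ ≤ ν * (h * ((2 * m + 1) * (k + k' + 1))) * ((2 * m + 1) * (k + k' + 1)) *
      (m * (k + k' + 1) ^ (k - 1)) * (m * (k + k' + 1) ^ (k' - 1)) * (D + K * p + 1) *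
      (K + 1) ^ (k + k' - 1) := by
  have e : k + k' - 1 = 1 + (k - 1) + (k' - 1) := by omega
  rw [e]
  have ha : 1 ≤ k + k' + 1 := by omega
  have hb : 1 ≤ 2 * m + 1 := by omega
  generalize k + k' + 1 = a at *
  generalize 2 * m + 1 = b at *
  generalize k - 1 = i at *
  generalize k' - 1 = j at *
  have hba : 1 ≤ b * a := Nat.mul_pos hb ha
  have hc : 1 ≤ h * (b * a) := Nat.mul_pos hh hba
  have a1 : a * K + 1 ≤ a * (K + 1) := by rw [mul_add, mul_one]; omega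
  have a2 : b * (a * K) + 1 ≤ b * a * (K + 1) := by rw [mul_add, mul_one, mul_assoc]; omega
  have a3 : D + h * p * (b * (a * K)) + 1 ≤ h * (b * a) * (D + K * p + 1) := by
    have := Nat.mul_le_mul_right D hc
    calc _ = 1 * D + h * (b * a) * (K * p) + 1 := by ring
      _ ≤ h * (b * a) * D + h * (b * a) * (K * p) + h * (b * a) := by omega
      _ = _ := by ring
  calc c₀ * c₁ * c₂ ≤ ν * (h * (b * a) * (D + K * p + 1)) * (b * a * (K + 1)) *
        (m * (a * (K + 1)) ^ i) * (m * (a * (K + 1)) ^ j) := by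
        refine Nat.mul_le_mul (Nat.mul_le_mul (h0.trans ?_) (h1.trans ?_)) (h2.trans ?_)
        all_goals gcongr
    _ = _ := by
        rw [mul_pow, mul_pow]
        ring

theorem int_CNH (d : Polynomial ℤ) (c t : ℕ) {R S : Type} [CommRing R] [CommRing S]
    (φ : R⟦X⟧ →+* S) : φ (C (Polynomial.aeval ((c : R) * t) d)) =
      ((Polynomial.aeval ((c * t : ℕ) : ℤ) d : ℤ) : S) := by
  have h := Polynomial.aeval_algebraMap_apply R ((c * t : ℕ) : ℤ) d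
  simp only [eq_intCast, Int.cast_natCast, Nat.cast_mul, Int.cast_mul] at h
  rw [h, map_intCast, map_intCast, Nat.cast_mul]

theorem CNH_pf (hITG : ITG_st) (hSOG : SOG_st) (hSPG : SPG_st) (hDDF : DDF_st) (hSPF : SPF_st) :
    CNH_st := by
  classical
  intro m k k' σ σ' r d c c' hm hd _ _ hΦ hΦ'
  have hk := k_pos_CNH σ hm hΦ
  have hk' := k_pos_CNH σ' hm hΦ'
  obtain ⟨h, hh, HS⟩ := hSOG m r d hd
  obtain ⟨ν, HF⟩ := hSPF m r c c'
  obtain ⟨p₁, hp₁⟩ := red_CNH _ hΦ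
  obtain ⟨p₂, hp₂⟩ := red_CNH _ hΦ'
  refine ⟨hk, hk', ν * (h * ((2 * m + 1) * (k + k' + 1))) * ((2 * m + 1) * (k + k' + 1)) *
    (m * (k + k' + 1) ^ (k - 1)) * (m * (k + k' + 1) ^ (k' - 1)), p₁ + p₂, ?_⟩
  intro p D K L n hp hp0 hn hL
  have := Fact.mk hp
  obtain ⟨P, Q, Z, hP, hQ, hZ, H⟩ := HS p c L hp
  obtain ⟨P', Q', Z', hP', hQ', hZ', H'⟩ := HS p c' L hp
  obtain ⟨U, _, _, τ, θ, A, A', x, x', rA, rA', hψ, hψ', hlift⟩ :=
    univ2_CNH p σ σ' r c c' P Q P' Q'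
  obtain ⟨N₀, hN₀⟩ : ∃ N₀, N₀ = (k + k' + 1) * K := ⟨_, rfl⟩
  obtain ⟨hF1, -⟩ := HF (ZMod p) U (h * p) 0 τ θ A A' rA rA'
  obtain ⟨-, s₀, hs₀, hF2⟩ := HF (ZMod p) U (D + h * p * ((2 * m + 1) * N₀)) ((2 * m + 1) * N₀)
    τ θ A A' rA rA'
  simp only [ev_eq_CNH] at hF1
  set Fs := Submodule.span (ZMod p) (insert 1 (Set.range (gg τ A A'))) with hFs
  set T := Submodule.span (ZMod p) ({1, θ} : Set U) with hT
  have F1 : (1 : U) ∈ Fs := Submodule.subset_span (Set.mem_insert _ _)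
  have Fτ : τ ∈ Fs := Submodule.subset_span (Set.mem_insert_of_mem _ ⟨none, rfl⟩)
  have T1 : (1 : U) ∈ T := Submodule.subset_span (Set.mem_insert _ _)
  have Tθ : θ ∈ T := Submodule.subset_span (Set.mem_insert_of_mem _ rfl)
  have W0 : ∀ y ∈ Fs ^ (h * p), y ∈ Fs ^ (h * p) * T := fun y hy => by
    simpa using Submodule.mul_mem_mul hy T1
  have W1 : (1 : U) ∈ Fs ^ (h * p) * T := W0 _ (one_pow_CNH F1 _)
  have hM : ∀ u, mz_CNH P Q τ θ A u ∈ Fs ^ (h * p) * T := fun u =>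
    add_mem (W0 _ (hF1 _ (hP u)).1) (Submodule.mul_mem_mul (hF1 _ (hQ u)).1 Tθ)
  have hM' : ∀ u, mz_CNH P' Q' τ θ A' u ∈ Fs ^ (h * p) * T := fun u =>
    add_mem (W0 _ (hF1 _ (hP' u)).2) (Submodule.mul_mem_mul (hF1 _ (hQ' u)).2 Tθ)
  obtain ⟨s₁, hs₁, hG⟩ := sp_CNH hSPG hDDF σ hm (hp₁ p (by omega)) _ x _ W1 hM hψ N₀
  obtain ⟨s₂, hs₂, hG'⟩ := sp_CNH hSPG hDDF σ' hm (hp₂ p (by omega)) _ x' _ W1 hM' hψ' N₀
  set E := Submodule.span (ZMod p) (insert 1 (Set.range x)) with hE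
  set E' := Submodule.span (ZMod p) (insert 1 (Set.range x')) with hE'
  have E1 : (1 : U) ∈ E := Submodule.subset_span (Set.mem_insert _ _)
  have E1' : (1 : U) ∈ E' := Submodule.subset_span (Set.mem_insert _ _)
  have Ex : ∀ j, x j ∈ E := fun j => Submodule.subset_span (Set.mem_insert_of_mem _ ⟨j, rfl⟩)
  have Ex' : ∀ j, x' j ∈ E' := fun j => Submodule.subset_span (Set.mem_insert_of_mem _ ⟨j, rfl⟩)
  have G0 : ∀ y ∈ Fs ^ (h * p) * T, y ∈ Fs ^ (h * p) * T * E * E' := fun y hy => by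
    simpa using Submodule.mul_mem_mul (Submodule.mul_mem_mul hy E1) E1'
  have hle : Fs ^ D * (Fs ^ (h * p) * T * E * E') ^ N₀ ≤
      Submodule.span (ZMod p) ((s₀ * s₁ * s₂ : Finset U) : Set U) := by
    calc Fs ^ D * (Fs ^ (h * p) * T * E * E') ^ N₀
        = Fs ^ D * (Fs ^ (h * p) * T) ^ N₀ * E ^ N₀ * E' ^ N₀ := by ring
      _ ≤ Fs ^ D * (Fs ^ (h * p) * T) ^ N₀ *
          ((Fs ^ (h * p) * T) ^ (m * N₀) * Submodule.span (ZMod p) (s₁ : Set U)) *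
          ((Fs ^ (h * p) * T) ^ (m * N₀) * Submodule.span (ZMod p) (s₂ : Set U)) :=
          mul_le_mul' (mul_le_mul' le_rfl hG) hG'
      _ = Fs ^ (D + h * p * ((2 * m + 1) * N₀)) * T ^ ((2 * m + 1) * N₀) *
          Submodule.span (ZMod p) (s₁ : Set U) * Submodule.span (ZMod p) (s₂ : Set U) := by ring
      _ ≤ Submodule.span (ZMod p) (s₀ : Set U) *
          Submodule.span (ZMod p) (s₁ : Set U) * Submodule.span (ZMod p) (s₂ : Set U) :=
          mul_le_mul' (mul_le_mul' hF2 le_rfl) le_rfl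
      _ = _ := by
          rw [Submodule.span_mul_span, Submodule.span_mul_span, Finset.coe_mul, Finset.coe_mul]
  obtain ⟨mm, hmm⟩ : ∃ mm : Fin k ⊕ Fin k' → U, mm = Sum.elim
    (fun j => mz_CNH P Q τ θ A (σ.J j) - x j) fun j => mz_CNH P' Q' τ θ A' (σ'.J j) - x' j :=
    ⟨_, rfl⟩
  obtain ⟨zz, hzz⟩ : ∃ zz : Fin k ⊕ Fin k' → U, zz = Sum.elim
    (fun _ => ev_CNH τ A Z) fun _ => ev_CNH τ A' Z' := ⟨_, rfl⟩
  have b1 : ∀ j, mm j ∈ Fs ^ (h * p) * T * E * E' := by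
    rw [hmm]
    rintro (j | j)
    · refine sub_mem (G0 _ (hM _)) ?_
      simpa using Submodule.mul_mem_mul (Submodule.mul_mem_mul W1 (Ex j)) E1'
    · refine sub_mem (G0 _ (hM' _)) ?_
      simpa using Submodule.mul_mem_mul (Submodule.mul_mem_mul W1 E1) (Ex' j)
  have b2 : ∀ j, zz j ∈ Fs ^ (h * p) * T * E * E' := by
    rw [hzz]
    rintro (j | j)
    · exact G0 _ (W0 _ (hF1 _ hZ).1)
    · exact G0 _ (W0 _ (hF1 _ hZ').2)
  have hmem : ∀ q : Iy D K (Fin k ⊕ Fin k'), τ ^ (q.1 : ℕ) * ((τ ^ p) ^ (q.2.1 : ℕ) *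
      ∏ j, (mm j ^ (q.2.2 j : ℕ) * zz j ^ (K - q.2.2 j))) ∈
      Submodule.span (ZMod p) ((s₀ * s₁ * s₂ : Finset U) : Set U) := fun q => by
    refine hle ?_
    have a1 : τ ^ (q.1 : ℕ) ∈ Fs ^ D := mono_CNH F1 q.1.2.le (Submodule.pow_mem_pow Fs Fτ _)
    have a2 : (τ ^ p) ^ (q.2.1 : ℕ) ∈ (Fs ^ (h * p) * T * E * E') ^ K :=
      mono_CNH (G0 _ W1) (Nat.le_of_lt_succ q.2.1.2) (Submodule.pow_mem_pow _
        (G0 _ (W0 _ (mono_CNH F1 (Nat.le_mul_of_pos_left p hh) (Submodule.pow_mem_pow Fs Fτ p)))) _)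
    have a3 : ∀ j, mm j ^ (q.2.2 j : ℕ) * zz j ^ (K - q.2.2 j) ∈
        (Fs ^ (h * p) * T * E * E') ^ K := fun j => by
      have b3 := Submodule.mul_mem_mul (Submodule.pow_mem_pow _ (b1 j) (q.2.2 j : ℕ))
        (Submodule.pow_mem_pow _ (b2 j) (K - q.2.2 j))
      rwa [← pow_add, Nat.add_sub_cancel' (Nat.le_of_lt_succ (q.2.2 j).2)] at b3
    have a4 := prod_CNH univ _ (fun _ => K) fun j _ => a3 j
    have a5 := Submodule.mul_mem_mul a1 (Submodule.mul_mem_mul a2 a4)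
    rwa [← pow_add, sum_const, card_univ, Fintype.card_sum, Fintype.card_fin, Fintype.card_fin,
      smul_eq_mul, show K + (k + k') * K = N₀ by rw [hN₀]; ring] at a5
  choose u hu using fun q => Submodule.mem_span_finset'.1 (hmem q)
  refine ⟨(s₀ * s₁ * s₂ : Finset U), inferInstance, fun q b => ((u q b).val : ℤ), ?_, ?_⟩
  · rw [Fintype.card_coe]
    refine (card_mul_le.trans (Nat.mul_le_mul_right _ card_mul_le)).trans ?_
    rw [hN₀] at hs₀ hs₁ hs₂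
    exact cnt_CNH ν h m k k' D K p _ _ _ hh hk hk' hs₀ hs₁ hs₂
  have hsm : ∀ (a : ZMod p) (y : U), a • y = (a.val : U) * y := fun a y => by
    calc a • y = ((a.val : ℕ) : ZMod p) • y := by rw [ZMod.natCast_zmod_val]
      _ = a.val • y := Nat.cast_smul_eq_nsmul _ _ _
      _ = _ := nsmul_eq_mul _ _
  intro R _ _ _ t κ g B B' hg rB rB' hR hR' hB hB'
  obtain ⟨S, _, φ, hsur, hφ⟩ := quot2_CNG R (p : R) n
  obtain ⟨η, hη⟩ := theta_CNG hp hn t κ
  rw [← hg] at hη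
  have hC : ∀ a : R, (p : R) ∣ a → φ (C a) = 0 := fun a ha => (hφ _).2 fun j _ => by
    rw [coeff_C]
    split_ifs
    · exact ha
    · exact dvd_zero _
  have h0 : (p : S) = 0 := by
    rw [← map_natCast φ, ← map_natCast (C (R := R))]
    exact hC _ dvd_rfl
  have hτ : φ g ^ p = t := by
    have h1 : φ (g ^ p - C (t : R) - (p : R⟦X⟧) * η) = 0 := (hφ _).2 fun j hj => by
      rw [X_pow_dvd_iff.1 hη j hj]
      exact dvd_zero _
    simp only [map_sub, map_mul, map_pow, map_natCast, h0, zero_mul, sub_zero] at h1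
    exact sub_eq_zero.1 h1
  obtain ⟨e1, e2⟩ := H R n t κ g η B hn hL hg hη rB
  obtain ⟨e3, e4⟩ := H' R n t κ g η B' hn hL hg hη rB'
  simp only [ev_eq_CNH] at e1 e2 e3 e4
  obtain ⟨y, y1, y2⟩ := pt_CNH σ r d hp c L n t P Q g η B e2 hR hB φ hφ hC h0
  obtain ⟨y', y3, y4⟩ := pt_CNH σ' r d hp c' L n t P' Q' g η B' e4 hR' hB' φ hφ hC h0
  have r1 := (hITG m r _ _ B rB).2.2.2.2.1 S φ
  have r2 := (hITG m r _ _ B' rB').2.2.2.2.1 S φ
  rw [map_mul, map_natCast] at r1 r2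
  obtain ⟨ψ, ψ1, ψ2, ψ3, ψ4, ψ5, ψ6⟩ := hlift S (φ g) (φ η) (fun s => φ (B s)) (fun s => φ (B' s))
    y y' h0 r1 r2 y1 y3
  obtain ⟨dd, hdd⟩ : ∃ dd : Fin k ⊕ Fin k' → ℤ, dd = Sum.elim
    (fun _ => Polynomial.aeval ((c * t : ℕ) : ℤ) d)
    fun _ => Polynomial.aeval ((c' * t : ℕ) : ℤ) d := ⟨_, rfl⟩
  have c1 : ∀ j, ψ (mm j) = (dd j : S) *
      φ (Lgs L (UU σ σ' r B B' j) (VV σ σ' r (c * g) (c' * g) B B' j)) := by
    rw [hmm, hdd]
    rintro (j | j)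
    · simp only [Sum.elim_inl, map_sub, mz_nat_CNH, ψ1, ψ2, ψ3, ψ5, y2, int_CNH, UU, VV]
    · simp only [Sum.elim_inr, map_sub, mz_nat_CNH, ψ1, ψ2, ψ4, ψ6, y4, int_CNH, UU, VV]
  have c2 : ∀ j, ψ (zz j) = (dd j : S) := by
    have h1 := (hφ _).2 e1
    have h3 := (hφ _).2 e3
    rw [map_sub, int_CNH, ev_nat_CNH, sub_eq_zero] at h1 h3
    rw [hzz, hdd]
    rintro (j | j)
    · simp only [Sum.elim_inl, ev_nat_CNH, ψ1, ψ3, h1]
    · simp only [Sum.elim_inr, ev_nat_CNH, ψ1, ψ4, h3]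
  have hpr : Prime (p : ℤ) := Nat.prime_iff_prime_int.1 hp
  have hcop : ∀ j, IsCoprime (p : ℤ) (dd j) := fun j => by
    rw [hpr.coprime_iff_not_dvd, hdd]
    rcases j with j | j
    exacts [hB.1, hB'.1]
  obtain ⟨a, z, hz⟩ : IsCoprime (p : ℤ) (∏ j, dd j ^ K) :=
    IsCoprime.prod_right fun j _ => (hcop j).pow_right
  have hz' : (z : S) * ∏ j, (dd j : S) ^ K = 1 := by
    have h1 := congrArg (Int.castRingHom S) hz
    simp only [map_add, map_mul, map_prod, map_pow, map_one, map_natCast, h0,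
      mul_zero, zero_add, eq_intCast] at h1
    exact h1
  choose lf hlf using fun b : (s₀ * s₁ * s₂ : Finset U) => hsur (ψ b)
  refine ⟨fun b j => coeff j (C (z : R) * lf b), fun q j hj => ?_⟩
  have h1 := congrArg ψ (hu q)
  simp only [hsm, map_sum, map_mul, map_pow, map_prod, c1, c2, map_natCast, ψ1, hτ] at h1
  have h2 : ∏ i, (((dd i : S) *
      φ (Lgs L (UU σ σ' r B B' i) (VV σ σ' r (c * g) (c' * g) B B' i))) ^ (q.2.2 i : ℕ) *
      (dd i : S) ^ (K - q.2.2 i)) = (∏ i, (dd i : S) ^ K) *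
      ∏ i, φ (Lgs L (UU σ σ' r B B' i) (VV σ σ' r (c * g) (c' * g) B B' i)) ^ (q.2.2 i : ℕ) := by
    rw [← prod_mul_distrib]
    refine prod_congr rfl fun i _ => ?_
    rw [mul_pow, mul_right_comm, ← pow_add, Nat.add_sub_cancel' (Nat.le_of_lt_succ (q.2.2 i).2)]
  rw [h2] at h1
  have hfin : φ (rog L g (t : R) (UU σ σ' r B B') (VV σ σ' r (c * g) (c' * g) B B') q.1 q.2.1
      (fun i => q.2.2 i) - ∑ b : (s₀ * s₁ * s₂ : Finset U),
        C ((((u q b).val : ℤ)) : R) * (C (z : R) * lf b)) = 0 := by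
    simp only [rog, map_sub, map_sum, map_mul, map_pow, map_prod, map_intCast, map_natCast, hlf,
      mul_left_comm _ (z : S), ← mul_sum, Int.cast_natCast]
    rw [h1]
    linear_combination (-(φ g ^ (q.1 : ℕ) * (t : S) ^ (q.2.1 : ℕ) *
      ∏ i, φ (Lgs L (UU σ σ' r B B' i) (VV σ σ' r (c * g) (c' * g) B B' i)) ^ (q.2.2 i : ℕ))) * hz'
  have h9 := (hφ _).1 hfin j hj
  simpa only [map_sub, map_sum, coeff_C_mul] using h9

end Pool.Agent.MP_3e91a1_nt.GN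

end
end

section

/-! The universal ring and the relation at one point. -/

set_option autoImplicit false

open Finset PowerSeries

noncomputable section

namespace Pool.Agent.MP_3e91a1_nt.FM

open TR GN

/-- the value of an integral polynomial -/
def ev_CNF {ρ : ℕ} {S : Type} [CommRing S] (τ : S) (A : Fin ρ → S)
    (P : MvPolynomial (Option (Fin ρ)) ℤ) : S :=
  MvPolynomial.eval₂ (Int.castRingHom S) (fun o : Option (Fin ρ) => o.elim τ A) P

theorem ev_eq_CNF {ρ : ℕ} {S : Type} [CommRing S] {_ : Algebra ℤ S} (τ : S)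
    (A : Fin ρ → S) (P : MvPolynomial (Option (Fin ρ)) ℤ) :
    MvPolynomial.aeval (fun o : Option (Fin ρ) => o.elim τ A) P = ev_CNF τ A P := by
  rw [MvPolynomial.aeval_def, RingHom.ext_int (algebraMap ℤ S) (Int.castRingHom S)]
  rfl

theorem ev_nat_CNF {ρ : ℕ} {S S' : Type} [CommRing S] [CommRing S'] (φ : S →+* S') (τ : S)
    (A : Fin ρ → S) (P : MvPolynomial (Option (Fin ρ)) ℤ) :
    φ (ev_CNF τ A P) = ev_CNF (φ τ) (fun s => φ (A s)) P := by
  unfold ev_CNF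
  rw [MvPolynomial.eval₂_comp_left, RingHom.ext_int (φ.comp _) (Int.castRingHom S')]
  congr 1
  funext o
  cases o <;> rfl

/-- the universal form of a logarithm -/
def mz_CNF {ρ m : ℕ} (P Q : Fin ρ × Fin m → MvPolynomial (Option (Fin ρ)) ℤ)
    {S : Type} [CommRing S] (τ θ : S) (A : Fin ρ → S) (u : Fin ρ × Fin m) : S :=
  ev_CNF τ A (P u) + ev_CNF τ A (Q u) * θ

theorem mz_nat_CNF {ρ m : ℕ} (P Q : Fin ρ × Fin m → MvPolynomial (Option (Fin ρ)) ℤ)
    {S S' : Type} [CommRing S] [CommRing S'] (φ : S →+* S') (τ θ : S) (A : Fin ρ → S)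
    (u : Fin ρ × Fin m) :
    φ (mz_CNF P Q τ θ A u) = mz_CNF P Q (φ τ) (φ θ) (fun s => φ (A s)) u := by
  simp only [mz_CNF, map_add, map_mul, ev_nat_CNF]

/-- the matrix of the linear forms -/
def am_CNF {ρ m k : ℕ} (σ : Slc ρ m k) {S : Type} [CommRing S] (x : Fin k → S) :
    Matrix (Fin m) (Fin m) S := Matrix.of fun s i => ∑ j, (σ.e s i j : S) * x j

/-- the correction -/
def wm_CNF {ρ m k : ℕ} (σ : Slc ρ m k) {S : Type} [CommRing S] (M : Fin ρ × Fin m → S) :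
    Matrix (Fin m) (Fin m) S :=
  Matrix.of fun s i => (σ.N : S) * M (σ.ro s, i) - ∑ j, (σ.e s i j : S) * M (σ.J j)

theorem am_nat_CNF {ρ m k : ℕ} (σ : Slc ρ m k) {S S' : Type} [CommRing S] [CommRing S']
    (φ : S →+* S') (x : Fin k → S) :
    φ (am_CNF σ x).det = (am_CNF σ fun j => φ (x j)).det := by
  rw [RingHom.map_det]
  congr 1
  ext s i
  simp [am_CNF]

theorem psi_nat_CNF {ρ m k : ℕ} (σ : Slc ρ m k) {S S' : Type} [CommRing S] [CommRing S']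
    (φ : S →+* S') (x : Fin k → S) (M : Fin ρ × Fin m → S) :
    φ (am_CNF σ x + wm_CNF σ M).det =
      (am_CNF σ (fun j => φ (x j)) + wm_CNF σ fun u => φ (M u)).det := by
  rw [RingHom.map_det]
  congr 1
  ext s i
  simp [am_CNF, wm_CNF]

theorem phi_eq_CNF {ρ m k : ℕ} (σ : Slc ρ m k) :
    σ.Phi = (am_CNF σ (MvPolynomial.X : Fin k → MvPolynomial (Fin k) ℤ)).det := by
  unfold Slc.Phi am_CNF
  simp only [eq_intCast]

theorem phi_hom_CNF {ρ m k : ℕ} (σ : Slc ρ m k) : σ.Phi.IsHomogeneous m := by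
  unfold Slc.Phi
  rw [Matrix.det_apply']
  refine MvPolynomial.IsHomogeneous.sum _ _ _ fun π _ => ?_
  rw [← eq_intCast (MvPolynomial.C : ℤ →+* MvPolynomial (Fin k) ℤ)]
  refine MvPolynomial.IsHomogeneous.C_mul ?_ _
  have h := MvPolynomial.IsHomogeneous.prod univ
    (fun i : Fin m => ∑ j, MvPolynomial.C (σ.e (π i) i j) * (MvPolynomial.X j :
      MvPolynomial (Fin k) ℤ)) (fun _ => 1) fun i _ =>
    MvPolynomial.IsHomogeneous.sum _ _ _ fun j _ => MvPolynomial.isHomogeneous_C_mul_X _ _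
  simpa using h

theorem k_pos_CNF {ρ m k : ℕ} (σ : Slc ρ m k) (hm : 1 ≤ m) (h : σ.Phi ≠ 0) : 1 ≤ k := by
  rcases Nat.eq_zero_or_pos k with rfl | hk
  · exfalso
    apply h
    have : Nonempty (Fin m) := ⟨⟨0, hm⟩⟩
    have h1 : am_CNF σ (MvPolynomial.X : Fin 0 → MvPolynomial (Fin 0) ℤ) = 0 := by
      ext s i
      simp [am_CNF]
    rw [phi_eq_CNF, h1, Matrix.det_zero]
  · exact hk

theorem rt_nat_CNF (hI : ITF_st) {ρ : ℕ} (f : P2) {S S' : Type} [CommRing S] [CommRing S']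
    (φ : S →+* S') (T : S) (A : Fin ρ → S) (n : ℕ) :
    φ ((∏ s, (Polynomial.X - Polynomial.C (A s)) - sp f T).coeff n) =
      (∏ s, (Polynomial.X - Polynomial.C (φ (A s))) - sp f (φ T)).coeff n := by
  rw [← Polynomial.coeff_map]
  congr 1
  simp [(hI.1 S S' φ f T T).1, Polynomial.map_prod]

theorem univ2_CNF (p : ℕ) {ρ m k k' : ℕ} (σ : Slc ρ m k) (σ' : Slc ρ m k')
    (hI : ITF_st) (f : P2) (c c' : ℕ)
    (P Q P' Q' : Fin ρ × Fin m → MvPolynomial (Option (Fin ρ)) ℤ) :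
    ∃ (U : Type) (_ : CommRing U) (_ : Algebra (ZMod p) U) (τ θ : U) (A A' : Fin ρ → U)
      (x : Fin k → U) (x' : Fin k' → U), Rf f (c * τ) A ∧ Rf f (c' * τ) A' ∧
      (am_CNF σ x + wm_CNF σ (mz_CNF P Q τ θ A)).det = 0 ∧
      (am_CNF σ' x' + wm_CNF σ' (mz_CNF P' Q' τ θ A')).det = 0 ∧
      ∀ (S : Type) [CommRing S] (τ₁ θ₁ : S) (B B' : Fin ρ → S) (y : Fin k → S)
        (y' : Fin k' → S), (p : S) = 0 → Rf f (c * τ₁) B → Rf f (c' * τ₁) B' →
        (am_CNF σ y + wm_CNF σ (mz_CNF P Q τ₁ θ₁ B)).det = 0 →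
        (am_CNF σ' y' + wm_CNF σ' (mz_CNF P' Q' τ₁ θ₁ B')).det = 0 →
        ∃ ψ : U →+* S, ψ τ = τ₁ ∧ ψ θ = θ₁ ∧ (∀ s, ψ (A s) = B s) ∧ (∀ s, ψ (A' s) = B' s) ∧
          (∀ j, ψ (x j) = y j) ∧ ∀ j, ψ (x' j) = y' j := by
  obtain ⟨U, _, _, v, h1, h2⟩ := univ_CNH (ZMod p)
    (Bool ⊕ (Fin ρ ⊕ Fin ρ) ⊕ (Fin k ⊕ Fin k')) ((ℕ ⊕ ℕ) ⊕ (Unit ⊕ Unit))
    (fun S _ v => Sum.elim
      (Sum.elim
        (fun n => (∏ s, (Polynomial.X - Polynomial.C (v (.inr (.inl (.inl s))))) -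
          sp f (c * v (.inl true))).coeff n)
        (fun n => (∏ s, (Polynomial.X - Polynomial.C (v (.inr (.inl (.inr s))))) -
          sp f (c' * v (.inl true))).coeff n))
      (Sum.elim
        (fun _ => (am_CNF σ (fun j => v (.inr (.inr (.inl j)))) + wm_CNF σ
          (mz_CNF P Q (v (.inl true)) (v (.inl false)) fun s => v (.inr (.inl (.inl s))))).det)
        (fun _ => (am_CNF σ' (fun j => v (.inr (.inr (.inr j)))) + wm_CNF σ'
          (mz_CNF P' Q' (v (.inl true)) (v (.inl false)) fun s => v (.inr (.inl (.inr s))))).det)))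
    (by
      intro S S' _ _ φ v e
      rcases e with (n | n) | (u | u)
      · simp only [Sum.elim_inl, rt_nat_CNF hI, map_mul, map_natCast]
      · simp only [Sum.elim_inl, Sum.elim_inr, rt_nat_CNF hI, map_mul, map_natCast]
      · simp only [Sum.elim_inl, Sum.elim_inr, psi_nat_CNF, mz_nat_CNF]
      · simp only [Sum.elim_inr, psi_nat_CNF, mz_nat_CNF])
  refine ⟨U, inferInstance, inferInstance, v (.inl true), v (.inl false),
    fun s => v (.inr (.inl (.inl s))), fun s => v (.inr (.inl (.inr s))),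
    fun j => v (.inr (.inr (.inl j))), fun j => v (.inr (.inr (.inr j))), ?_, ?_,
    h1 (.inr (.inl ())), h1 (.inr (.inr ())), ?_⟩
  · exact sub_eq_zero.1 (Polynomial.ext fun n => h1 (.inl (.inl n)))
  · exact sub_eq_zero.1 (Polynomial.ext fun n => h1 (.inl (.inr n)))
  · intro S _ τ₁ θ₁ B B' y y' h0 a1 a2 a3 a4
    have := ringChar.charP S
    obtain ⟨ψ, hψ⟩ := h2 S (ZMod.castHom (ringChar.dvd h0) S)
      (Sum.elim (fun b => cond b τ₁ θ₁) (Sum.elim (Sum.elim B B') (Sum.elim y y'))) (by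
        rintro ((n | n) | (u | u))
        · exact congrArg (fun f => Polynomial.coeff f n) (sub_eq_zero.2 a1)
        · exact congrArg (fun f => Polynomial.coeff f n) (sub_eq_zero.2 a2)
        · exact a3
        · exact a4)
    exact ⟨ψ, hψ _, hψ _, fun _ => hψ _, fun _ => hψ _, fun _ => hψ _, fun _ => hψ _⟩

theorem lgs_CNF {ρ m k : ℕ} (σ : Slc ρ m k) (Φ : Fam m) (L : ℕ) {R : Type} [CommRing R]
    (T : R⟦X⟧) (A : Fin ρ → R⟦X⟧) (h : σ.Rel Φ (derivative R) T A) (s i : Fin m) :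
    (σ.N : R⟦X⟧) * Lgs L (Φ.u T A (σ.ro s, i)) (Φ.v T A (σ.ro s, i)) =
      ∑ j, (σ.e s i j : R⟦X⟧) * Lgs L (Φ.u T A (σ.J j)) (Φ.v T A (σ.J j)) := by
  ext n
  have h1 := congrArg (coeff (n - 1)) (h s i)
  simp only [← map_natCast (C (R := R)), ← map_intCast (C (R := R)), map_sum, coeff_C_mul]
    at h1 ⊢
  simp only [Lgs, coeff_mk]
  rw [mul_left_comm, h1, mul_sum]
  exact sum_congr rfl fun j _ => mul_left_comm _ _ _

theorem pt_CNF {ρ m k : ℕ} (σ : Slc ρ m k) (Φ : Fam m) (d : Polynomial ℤ) {p : ℕ} (hp : p.Prime)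
    (c L n t : ℕ) (P Q : Fin ρ × Fin m → MvPolynomial (Option (Fin ρ)) ℤ)
    {R : Type} [CommRing R] (τ θ : R⟦X⟧) (A : Fin ρ → R⟦X⟧)
    (H : ∀ (s : Fin ρ) (x : Fin m → R), Quf p Φ ((c : R) * t) (constantCoeff (A s)) x → ∀ i,
      Zm (p : R) n (C (Polynomial.aeval ((c : R) * t) d) *
          Lgs L (Φ.u ((c : R⟦X⟧) * τ) A (s, i)) (Φ.v (c * τ) A (s, i)) -
        (ev_CNF τ A (P (s, i)) + ev_CNF τ A (Q (s, i)) * θ -
          C (Polynomial.aeval ((c : R) * t) d * L * x i))))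
    (hR : σ.Rel Φ (derivative R) (c * τ) A)
    (hB : Baf p (c * t) Φ d fun s => constantCoeff (A s))
    {S : Type} [CommRing S] (φ : R⟦X⟧ →+* S) (hφ : ∀ f, φ f = 0 ↔ Zm (p : R) n f)
    (hC : ∀ a : R, (p : R) ∣ a → φ (C a) = 0) (h0 : (p : S) = 0) :
    ∃ y : Fin k → S, (am_CNF σ y + wm_CNF σ (mz_CNF P Q (φ τ) (φ θ) fun s => φ (A s))).det = 0 ∧
      ∀ j, mz_CNF P Q (φ τ) (φ θ) (fun s => φ (A s)) (σ.J j) - y j =
        φ (C (Polynomial.aeval ((c : R) * t) d)) *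
          φ (Lgs L (Φ.u (c * τ) A (σ.J j)) (Φ.v (c * τ) A (σ.J j))) := by
  obtain ⟨-, x, α, q1, ⟨i₀, q2⟩, q3⟩ := hB
  rw [Nat.cast_mul] at q1
  obtain ⟨δ, hδ⟩ : ∃ δ : R, δ = Polynomial.aeval ((c : R) * t) d := ⟨_, rfl⟩
  rw [← hδ] at H ⊢
  have hM : ∀ u : Fin ρ × Fin m, mz_CNF P Q (φ τ) (φ θ) (fun s => φ (A s)) u =
      φ (C δ) * φ (Lgs L (Φ.u (c * τ) A u) (Φ.v (c * τ) A u)) + φ (C (δ * L * x u.1 u.2)) := by
    intro u
    have h1 := (hφ _).2 (H u.1 (x u.1) (q1 u.1) u.2)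
    rw [map_sub, map_sub, map_add, map_mul, map_mul, ev_nat_CNF, ev_nat_CNF] at h1
    unfold mz_CNF
    linear_combination -h1
  refine ⟨fun j => φ (C (δ * L * x (σ.J j).1 (σ.J j).2)), ?_, fun j => by rw [hM]; ring⟩
  have hu : IsUnit ((α i₀ : ℤ) : S) := by
    obtain ⟨a, b, hab⟩ := (Nat.prime_iff_prime_int.1 hp).coprime_iff_not_dvd.2 q2
    have h1 := congrArg (Int.castRingHom S) hab
    simp only [map_add, map_mul, map_natCast, h0, mul_zero, zero_add, map_one, eq_intCast] at h1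
    exact IsUnit.of_mul_eq_one_right _ h1
  refine Matrix.det_eq_zero_of_mulVec_eq_zero_of_mem_nonZeroDivisors
    (v := fun i => ((α i : ℤ) : S)) ?_ (i := i₀) hu.mem_nonZeroDivisors
  funext s
  have h2 : ∀ i, (am_CNF σ (fun j => φ (C (δ * L * x (σ.J j).1 (σ.J j).2))) +
      wm_CNF σ (mz_CNF P Q (φ τ) (φ θ) fun s => φ (A s))) s i =
      (σ.N : S) * φ (C (δ * L * x (σ.ro s) i)) := by
    intro i
    have h3 := congrArg φ (lgs_CNF σ Φ L _ A hR s i)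
    simp only [map_mul φ, map_sum, map_natCast, map_intCast] at h3
    simp only [Matrix.add_apply, am_CNF, wm_CNF, Matrix.of_apply, hM, mul_add, sum_add_distrib,
      mul_left_comm _ (φ (C δ)), ← mul_sum, ← h3]
    ring
  have h4 := hC _ ((q3 (σ.ro s)).mul_left (δ * L))
  simp only [Matrix.mulVec, dotProduct, h2, Pi.zero_apply]
  simp only [map_mul, map_sum, map_intCast, mul_sum] at h4 ⊢
  rw [← mul_zero (σ.N : S), ← h4, mul_sum]
  exact sum_congr rfl fun i _ => by ring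

end Pool.Agent.MP_3e91a1_nt.FM

end
end

section

/-! Modulo `p` the rows lie in a module with few generators. -/

set_option autoImplicit false

open Finset PowerSeries Pointwise

noncomputable section

namespace Pool.Agent.MP_3e91a1_nt.FM

open TR GN

theorem sp_CNF (hSPG : SPG_st) (hDDF : DDF_st) {p : ℕ} [Fact p.Prime] {ρ m k : ℕ} (σ : Slc ρ m k)
    (hm : 1 ≤ m) (hΦ : MvPolynomial.map (Int.castRingHom (ZMod p)) σ.Phi ≠ 0) {U : Type}
    [CommRing U] [Algebra (ZMod p) U] (M : Fin ρ × Fin m → U) (x : Fin k → U)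
    (W : Submodule (ZMod p) U) (h1 : 1 ∈ W) (hM : ∀ u, M u ∈ W)
    (h0 : (am_CNF σ x + wm_CNF σ M).det = 0) (N : ℕ) :
    ∃ s : Finset U, s.card ≤ m * (N + 1) ^ (k - 1) ∧
      Submodule.span (ZMod p) (insert 1 (Set.range x)) ^ N ≤
        W ^ (m * N) * Submodule.span (ZMod p) (s : Set U) := by
  refine hSPG (ZMod p) U k m N _ x W hΦ ((phi_hom_CNF σ).map _) hm h1 ?_
  have e1 : MvPolynomial.aeval x (MvPolynomial.map (Int.castRingHom (ZMod p)) σ.Phi) =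
      (am_CNF σ x).det := by
    have h := am_nat_CNF σ (((MvPolynomial.aeval x : MvPolynomial (Fin k) (ZMod p) →ₐ[ZMod p] U) :
      MvPolynomial (Fin k) (ZMod p) →+* U).comp (MvPolynomial.map (Int.castRingHom (ZMod p))))
      MvPolynomial.X
    rw [← phi_eq_CNF] at h
    simpa using h
  have e2 := hDDF (ZMod p) U m (am_CNF σ x) (wm_CNF σ M) W
    (Submodule.span (ZMod p) (insert 1 (Set.range x))) h1
    (Submodule.subset_span (Set.mem_insert _ _))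
    (fun s i => by
      simp only [am_CNF, Matrix.of_apply, ← zsmul_eq_mul]
      exact Submodule.sum_mem _ fun j _ =>
        zsmul_mem (Submodule.subset_span (Set.mem_insert_of_mem _ (Set.mem_range_self j))) _)
    (fun s i => by
      simp only [wm_CNF, Matrix.of_apply, ← zsmul_eq_mul, ← nsmul_eq_mul]
      exact sub_mem (nsmul_mem (hM _) _) (Submodule.sum_mem _ fun j _ => zsmul_mem (hM _) _))
  rw [h0, zero_sub, neg_mem_iff] at e2
  rwa [e1]

theorem CNF_pf (hITF : ITF_st) (hSOF : SOF_st) (hSPG : SPG_st) (hDDF : DDF_st) (hSQF : SQF_st) :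
    CNF_st := by
  classical
  intro ρ m k k' σ σ' Φ d c c' hm hO hd _ _ hΦ hΦ'
  have hk := k_pos_CNF σ hm hΦ
  have hk' := k_pos_CNF σ' hm hΦ'
  obtain ⟨h, hh, HS⟩ := hSOF m ρ Φ d hO hd
  obtain ⟨ν, HF⟩ := hSQF Φ.f ρ c c' hO.1 hO.2.1
  obtain ⟨p₁, hp₁⟩ := red_CNH _ hΦ
  obtain ⟨p₂, hp₂⟩ := red_CNH _ hΦ'
  refine ⟨hk, hk', ν * (h * ((2 * m + 1) * (k + k' + 1))) * ((2 * m + 1) * (k + k' + 1)) *
    (m * (k + k' + 1) ^ (k - 1)) * (m * (k + k' + 1) ^ (k' - 1)), p₁ + p₂, ?_⟩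
  intro p D K L n hp hp0 hn hL
  have := Fact.mk hp
  obtain ⟨P, Q, Z, hP, hQ, hZ, H⟩ := HS p c L hp
  obtain ⟨P', Q', Z', hP', hQ', hZ', H'⟩ := HS p c' L hp
  obtain ⟨U, _, _, τ, θ, A, A', x, x', rA, rA', hψ, hψ', hlift⟩ :=
    univ2_CNF p σ σ' hITF Φ.f c c' P Q P' Q'
  obtain ⟨N₀, hN₀⟩ : ∃ N₀, N₀ = (k + k' + 1) * K := ⟨_, rfl⟩
  obtain ⟨hF1, -⟩ := HF (ZMod p) U (h * p) 0 τ θ A A' rA rA'
  obtain ⟨-, s₀, hs₀, hF2⟩ := HF (ZMod p) U (D + h * p * ((2 * m + 1) * N₀)) ((2 * m + 1) * N₀)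
    τ θ A A' rA rA'
  simp only [ev_eq_CNF] at hF1
  set Fs := Submodule.span (ZMod p) (insert 1 (Set.range (gv τ A A'))) with hFs
  set T := Submodule.span (ZMod p) ({1, θ} : Set U) with hT
  have F1 : (1 : U) ∈ Fs := Submodule.subset_span (Set.mem_insert _ _)
  have Fτ : τ ∈ Fs := Submodule.subset_span (Set.mem_insert_of_mem _ ⟨none, rfl⟩)
  have T1 : (1 : U) ∈ T := Submodule.subset_span (Set.mem_insert _ _)
  have Tθ : θ ∈ T := Submodule.subset_span (Set.mem_insert_of_mem _ rfl)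
  have W0 : ∀ y ∈ Fs ^ (h * p), y ∈ Fs ^ (h * p) * T := fun y hy => by
    simpa using Submodule.mul_mem_mul hy T1
  have W1 : (1 : U) ∈ Fs ^ (h * p) * T := W0 _ (one_pow_CNH F1 _)
  have hM : ∀ u, mz_CNF P Q τ θ A u ∈ Fs ^ (h * p) * T := fun u =>
    add_mem (W0 _ (hF1 _ (hP u)).1) (Submodule.mul_mem_mul (hF1 _ (hQ u)).1 Tθ)
  have hM' : ∀ u, mz_CNF P' Q' τ θ A' u ∈ Fs ^ (h * p) * T := fun u =>
    add_mem (W0 _ (hF1 _ (hP' u)).2) (Submodule.mul_mem_mul (hF1 _ (hQ' u)).2 Tθ)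
  obtain ⟨s₁, hs₁, hG⟩ := sp_CNF hSPG hDDF σ hm (hp₁ p (by omega)) _ x _ W1 hM hψ N₀
  obtain ⟨s₂, hs₂, hG'⟩ := sp_CNF hSPG hDDF σ' hm (hp₂ p (by omega)) _ x' _ W1 hM' hψ' N₀
  set E := Submodule.span (ZMod p) (insert 1 (Set.range x)) with hE
  set E' := Submodule.span (ZMod p) (insert 1 (Set.range x')) with hE'
  have E1 : (1 : U) ∈ E := Submodule.subset_span (Set.mem_insert _ _)
  have E1' : (1 : U) ∈ E' := Submodule.subset_span (Set.mem_insert _ _)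
  have Ex : ∀ j, x j ∈ E := fun j => Submodule.subset_span (Set.mem_insert_of_mem _ ⟨j, rfl⟩)
  have Ex' : ∀ j, x' j ∈ E' := fun j => Submodule.subset_span (Set.mem_insert_of_mem _ ⟨j, rfl⟩)
  have G0 : ∀ y ∈ Fs ^ (h * p) * T, y ∈ Fs ^ (h * p) * T * E * E' := fun y hy => by
    simpa using Submodule.mul_mem_mul (Submodule.mul_mem_mul hy E1) E1'
  have hle : Fs ^ D * (Fs ^ (h * p) * T * E * E') ^ N₀ ≤
      Submodule.span (ZMod p) ((s₀ * s₁ * s₂ : Finset U) : Set U) := by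
    calc Fs ^ D * (Fs ^ (h * p) * T * E * E') ^ N₀
        = Fs ^ D * (Fs ^ (h * p) * T) ^ N₀ * E ^ N₀ * E' ^ N₀ := by ring
      _ ≤ Fs ^ D * (Fs ^ (h * p) * T) ^ N₀ *
          ((Fs ^ (h * p) * T) ^ (m * N₀) * Submodule.span (ZMod p) (s₁ : Set U)) *
          ((Fs ^ (h * p) * T) ^ (m * N₀) * Submodule.span (ZMod p) (s₂ : Set U)) :=
          mul_le_mul' (mul_le_mul' le_rfl hG) hG'
      _ = Fs ^ (D + h * p * ((2 * m + 1) * N₀)) * T ^ ((2 * m + 1) * N₀) *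
          Submodule.span (ZMod p) (s₁ : Set U) * Submodule.span (ZMod p) (s₂ : Set U) := by ring
      _ ≤ Submodule.span (ZMod p) (s₀ : Set U) *
          Submodule.span (ZMod p) (s₁ : Set U) * Submodule.span (ZMod p) (s₂ : Set U) :=
          mul_le_mul' (mul_le_mul' hF2 le_rfl) le_rfl
      _ = _ := by
          rw [Submodule.span_mul_span, Submodule.span_mul_span, Finset.coe_mul, Finset.coe_mul]
  obtain ⟨mm, hmm⟩ : ∃ mm : Fin k ⊕ Fin k' → U, mm = Sum.elim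
    (fun j => mz_CNF P Q τ θ A (σ.J j) - x j) fun j => mz_CNF P' Q' τ θ A' (σ'.J j) - x' j :=
    ⟨_, rfl⟩
  obtain ⟨zz, hzz⟩ : ∃ zz : Fin k ⊕ Fin k' → U, zz = Sum.elim
    (fun _ => ev_CNF τ A Z) fun _ => ev_CNF τ A' Z' := ⟨_, rfl⟩
  have b1 : ∀ j, mm j ∈ Fs ^ (h * p) * T * E * E' := by
    rw [hmm]
    rintro (j | j)
    · refine sub_mem (G0 _ (hM _)) ?_
      simpa using Submodule.mul_mem_mul (Submodule.mul_mem_mul W1 (Ex j)) E1'
    · refine sub_mem (G0 _ (hM' _)) ?_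
      simpa using Submodule.mul_mem_mul (Submodule.mul_mem_mul W1 E1) (Ex' j)
  have b2 : ∀ j, zz j ∈ Fs ^ (h * p) * T * E * E' := by
    rw [hzz]
    rintro (j | j)
    · exact G0 _ (W0 _ (hF1 _ hZ).1)
    · exact G0 _ (W0 _ (hF1 _ hZ').2)
  have hmem : ∀ q : Iy D K (Fin k ⊕ Fin k'), τ ^ (q.1 : ℕ) * ((τ ^ p) ^ (q.2.1 : ℕ) *
      ∏ j, (mm j ^ (q.2.2 j : ℕ) * zz j ^ (K - q.2.2 j))) ∈
      Submodule.span (ZMod p) ((s₀ * s₁ * s₂ : Finset U) : Set U) := fun q => by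
    refine hle ?_
    have a1 : τ ^ (q.1 : ℕ) ∈ Fs ^ D := mono_CNH F1 q.1.2.le (Submodule.pow_mem_pow Fs Fτ _)
    have a2 : (τ ^ p) ^ (q.2.1 : ℕ) ∈ (Fs ^ (h * p) * T * E * E') ^ K :=
      mono_CNH (G0 _ W1) (Nat.le_of_lt_succ q.2.1.2) (Submodule.pow_mem_pow _
        (G0 _ (W0 _ (mono_CNH F1 (Nat.le_mul_of_pos_left p hh) (Submodule.pow_mem_pow Fs Fτ p)))) _)
    have a3 : ∀ j, mm j ^ (q.2.2 j : ℕ) * zz j ^ (K - q.2.2 j) ∈
        (Fs ^ (h * p) * T * E * E') ^ K := fun j => by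
      have b3 := Submodule.mul_mem_mul (Submodule.pow_mem_pow _ (b1 j) (q.2.2 j : ℕ))
        (Submodule.pow_mem_pow _ (b2 j) (K - q.2.2 j))
      rwa [← pow_add, Nat.add_sub_cancel' (Nat.le_of_lt_succ (q.2.2 j).2)] at b3
    have a4 := prod_CNH univ _ (fun _ => K) fun j _ => a3 j
    have a5 := Submodule.mul_mem_mul a1 (Submodule.mul_mem_mul a2 a4)
    rwa [← pow_add, sum_const, card_univ, Fintype.card_sum, Fintype.card_fin, Fintype.card_fin,
      smul_eq_mul, show K + (k + k') * K = N₀ by rw [hN₀]; ring] at a5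
  choose u hu using fun q => Submodule.mem_span_finset'.1 (hmem q)
  refine ⟨(s₀ * s₁ * s₂ : Finset U), inferInstance, fun q b => ((u q b).val : ℤ), ?_, ?_⟩
  · rw [Fintype.card_coe]
    refine (card_mul_le.trans (Nat.mul_le_mul_right _ card_mul_le)).trans ?_
    rw [hN₀] at hs₀ hs₁ hs₂
    exact cnt_CNH ν h m k k' D K p _ _ _ hh hk hk' hs₀ hs₁ hs₂
  have hsm : ∀ (a : ZMod p) (y : U), a • y = (a.val : U) * y := fun a y => by
    calc a • y = ((a.val : ℕ) : ZMod p) • y := by rw [ZMod.natCast_zmod_val]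
      _ = a.val • y := Nat.cast_smul_eq_nsmul _ _ _
      _ = _ := nsmul_eq_mul _ _
  intro R _ _ _ t κ g B B' hg rB rB' hR hR' hB hB'
  obtain ⟨S, _, φ, hsur, hφ⟩ := quot2_CNG R (p : R) n
  obtain ⟨η, hη⟩ := theta_CNG hp hn t κ
  rw [← hg] at hη
  have hC : ∀ a : R, (p : R) ∣ a → φ (C a) = 0 := fun a ha => (hφ _).2 fun j _ => by
    rw [coeff_C]
    split_ifs
    · exact ha
    · exact dvd_zero _
  have h0 : (p : S) = 0 := by
    rw [← map_natCast φ, ← map_natCast (C (R := R))]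
    exact hC _ dvd_rfl
  have hτ : φ g ^ p = t := by
    have h1 : φ (g ^ p - C (t : R) - (p : R⟦X⟧) * η) = 0 := (hφ _).2 fun j hj => by
      rw [X_pow_dvd_iff.1 hη j hj]
      exact dvd_zero _
    simp only [map_sub, map_mul, map_pow, map_natCast, h0, zero_mul, sub_zero] at h1
    exact sub_eq_zero.1 h1
  obtain ⟨e1, e2⟩ := H R n t κ g η B hn hL hg hη rB
  obtain ⟨e3, e4⟩ := H' R n t κ g η B' hn hL hg hη rB'
  simp only [ev_eq_CNF] at e1 e2 e3 e4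
  obtain ⟨y, y1, y2⟩ := pt_CNF σ Φ d hp c L n t P Q g η B e2 hR hB φ hφ hC h0
  obtain ⟨y', y3, y4⟩ := pt_CNF σ' Φ d hp c' L n t P' Q' g η B' e4 hR' hB' φ hφ hC h0
  have r1 := (hITF.2.2.2.2 Φ.f ρ _ _ B rB).2.2.2.1 S φ
  have r2 := (hITF.2.2.2.2 Φ.f ρ _ _ B' rB').2.2.2.1 S φ
  rw [map_mul, map_natCast] at r1 r2
  obtain ⟨ψ, ψ1, ψ2, ψ3, ψ4, ψ5, ψ6⟩ := hlift S (φ g) (φ η) (fun s => φ (B s)) (fun s => φ (B' s))
    y y' h0 r1 r2 y1 y3
  obtain ⟨dd, hdd⟩ : ∃ dd : Fin k ⊕ Fin k' → ℤ, dd = Sum.elim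
    (fun _ => Polynomial.aeval ((c * t : ℕ) : ℤ) d)
    fun _ => Polynomial.aeval ((c' * t : ℕ) : ℤ) d := ⟨_, rfl⟩
  have c1 : ∀ j, ψ (mm j) = (dd j : S) *
      φ (Lgs L (Uf σ σ' Φ (c * g) (c' * g) B B' j)
        (Vf σ σ' Φ (c * g) (c' * g) B B' j)) := by
    rw [hmm, hdd]
    rintro (j | j)
    · simp only [Sum.elim_inl, map_sub, mz_nat_CNF, ψ1, ψ2, ψ3, ψ5, y2, int_CNH, Uf, Vf]
    · simp only [Sum.elim_inr, map_sub, mz_nat_CNF, ψ1, ψ2, ψ4, ψ6, y4, int_CNH, Uf, Vf]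
  have c2 : ∀ j, ψ (zz j) = (dd j : S) := by
    have h1 := (hφ _).2 e1
    have h3 := (hφ _).2 e3
    rw [map_sub, int_CNH, ev_nat_CNF, sub_eq_zero] at h1 h3
    rw [hzz, hdd]
    rintro (j | j)
    · simp only [Sum.elim_inl, ev_nat_CNF, ψ1, ψ3, h1]
    · simp only [Sum.elim_inr, ev_nat_CNF, ψ1, ψ4, h3]
  have hpr : Prime (p : ℤ) := Nat.prime_iff_prime_int.1 hp
  have hcop : ∀ j, IsCoprime (p : ℤ) (dd j) := fun j => by
    rw [hpr.coprime_iff_not_dvd, hdd]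
    rcases j with j | j
    exacts [hB.1, hB'.1]
  obtain ⟨a, z, hz⟩ : IsCoprime (p : ℤ) (∏ j, dd j ^ K) :=
    IsCoprime.prod_right fun j _ => (hcop j).pow_right
  have hz' : (z : S) * ∏ j, (dd j : S) ^ K = 1 := by
    have h1 := congrArg (Int.castRingHom S) hz
    simp only [map_add, map_mul, map_prod, map_pow, map_one, map_natCast, h0,
      mul_zero, zero_add, eq_intCast] at h1
    exact h1
  choose lf hlf using fun b : (s₀ * s₁ * s₂ : Finset U) => hsur (ψ b)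
  refine ⟨fun b j => coeff j (C (z : R) * lf b), fun q j hj => ?_⟩
  have h1 := congrArg ψ (hu q)
  simp only [hsm, map_sum, map_mul, map_pow, map_prod, c1, c2, map_natCast, ψ1, hτ] at h1
  have h2 : ∏ i, (((dd i : S) *
      φ (Lgs L (Uf σ σ' Φ (c * g) (c' * g) B B' i)
        (Vf σ σ' Φ (c * g) (c' * g) B B' i))) ^ (q.2.2 i : ℕ) *
      (dd i : S) ^ (K - q.2.2 i)) = (∏ i, (dd i : S) ^ K) *
      ∏ i, φ (Lgs L (Uf σ σ' Φ (c * g) (c' * g) B B' i)
        (Vf σ σ' Φ (c * g) (c' * g) B B' i)) ^ (q.2.2 i : ℕ) := by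
    rw [← prod_mul_distrib]
    refine prod_congr rfl fun i _ => ?_
    rw [mul_pow, mul_right_comm, ← pow_add, Nat.add_sub_cancel' (Nat.le_of_lt_succ (q.2.2 i).2)]
  rw [h2] at h1
  have hfin : φ (rog L g (t : R) (Uf σ σ' Φ (c * g) (c' * g) B B')
      (Vf σ σ' Φ (c * g) (c' * g) B B') q.1 q.2.1
      (fun i => q.2.2 i) - ∑ b : (s₀ * s₁ * s₂ : Finset U),
        C ((((u q b).val : ℤ)) : R) * (C (z : R) * lf b)) = 0 := by
    simp only [rog, map_sub, map_sum, map_mul, map_pow, map_prod, map_intCast, map_natCast, hlf,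
      mul_left_comm _ (z : S), ← mul_sum, Int.cast_natCast]
    rw [h1]
    linear_combination (-(φ g ^ (q.1 : ℕ) * (t : S) ^ (q.2.1 : ℕ) *
      ∏ i, φ (Lgs L (Uf σ σ' Φ (c * g) (c' * g) B B' i)
        (Vf σ σ' Φ (c * g) (c' * g) B B' i)) ^ (q.2.2 i : ℕ))) * hz'
  have h9 := (hφ _).1 hfin j hj
  simpa only [map_sub, map_sum, coeff_C_mul] using h9

end Pool.Agent.MP_3e91a1_nt.FM

end
end
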