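import Pool.Agent.Mg.F3e91a1.Gb3cda3
import Pool.Agent.Mg.F3e91a1.G3441b9
import Pool.Agent.Mg.F3e91a1.Ge9e02f

set_option linter.all false

section

/-! The place at infinity. -/

set_option autoImplicit false

open Finset PowerSeries

noncomputable section

namespace Pool.Agent.MP_3e91a1_nt.TR

/-- the Euler operator on Laurent series -/
def eul_INF {F : Type} [Field F] (v : HahnSeries ℤ F) : HahnSeries ℤ F where
  coeff k := (k : F) * v.coeff k
  isPWO_support' := v.isPWO_support.mono (by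
    intro k hk
    rw [Function.mem_support] at hk
    rw [HahnSeries.mem_support]
    exact right_ne_zero_of_mul hk)

theorem eul_coeff_INF {F : Type} [Field F] (v : HahnSeries ℤ F) (k : ℤ) :
    (eul_INF v).coeff k = (k : F) * v.coeff k := rfl

theorem eul_supp_INF {F : Type} [Field F] (v : HahnSeries ℤ F) :
    (eul_INF v).support ⊆ v.support := by
  intro k hk
  rw [HahnSeries.mem_support] at hk ⊢
  exact right_ne_zero_of_mul hk

theorem eul_add_INF {F : Type} [Field F] (v w : HahnSeries ℤ F) :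
    eul_INF (v + w) = eul_INF v + eul_INF w := by
  ext k
  simp only [eul_coeff_INF, HahnSeries.coeff_add', Pi.add_apply, mul_add]

theorem eul_mul_INF {F : Type} [Field F] (v w : HahnSeries ℤ F) :
    eul_INF (v * w) = v * eul_INF w + w * eul_INF v := by
  ext k
  rw [mul_comm w, HahnSeries.coeff_add', Pi.add_apply, eul_coeff_INF, HahnSeries.coeff_mul,
    HahnSeries.coeff_mul_right' w.isPWO_support (eul_supp_INF w),
    HahnSeries.coeff_mul_left' v.isPWO_support (eul_supp_INF v), ← Finset.sum_add_distrib,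
    Finset.mul_sum]
  refine Finset.sum_congr rfl fun ij hij => ?_
  rw [Finset.mem_antidiagonal] at hij
  rw [eul_coeff_INF, eul_coeff_INF, ← hij.2.2]
  push_cast
  ring

theorem eul_C_INF {F : Type} [Field F] (c : F) : eul_INF (HahnSeries.C c : HahnSeries ℤ F) = 0 := by
  ext k
  rw [eul_coeff_INF, HahnSeries.C_apply, HahnSeries.coeff_single]
  split_ifs with h
  · simp [h]
  · simp

theorem eul_ps_INF {F : Type} [Field F] (p : F⟦X⟧) :
    eul_INF (HahnSeries.ofPowerSeries ℤ F p) =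
      HahnSeries.ofPowerSeries ℤ F (PowerSeries.mk fun k => (k : F) * coeff k p) := by
  ext k
  rw [eul_coeff_INF, PowerSeries.coeff_coe, PowerSeries.coeff_coe]
  split_ifs with h
  · simp
  · rw [coeff_mk]
    congr 1
    have : (k.natAbs : ℤ) = k := Int.natAbs_of_nonneg (not_lt.1 h)
    rw [← Int.cast_natCast, this]

theorem der_INF (F L : Type) [Field F] [Field L] [Algebra F L] (d : L → L)
    (ha : ∀ x y, d (x + y) = d x + d y) (hm : ∀ x y, d (x * y) = x * d y + y * d x)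
    (hc : ∀ c : F, d (algebraMap F L c) = 0) : ∃ δ : Derivation F L L, ∀ x, δ x = d x := by
  refine ⟨Derivation.mk' ⟨⟨d, ha⟩, fun c x => ?_⟩ fun x y => ?_, fun x => rfl⟩
  · simp only [Algebra.smul_def, hm, hc, mul_zero, add_zero, RingHom.id_apply]
  · rw [smul_eq_mul, smul_eq_mul]
    exact hm x y

theorem lin_INF (F L : Type) [Field F] [Field L] [Algebra F L] (r : L → F)
    (ha : ∀ x y, r (x + y) = r x + r y) (hc : ∀ (c : F) x, r (algebraMap F L c * x) = c * r x) :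
    ∃ res : L →ₗ[F] F, ∀ x, res x = r x := by
  refine ⟨⟨⟨r, ha⟩, fun c x => ?_⟩, fun x => rfl⟩
  simp only [Algebra.smul_def, hc, RingHom.id_apply, Algebra.algebraMap_self]

theorem tra_INF (F L : Type) [Field F] [CharZero F] [Field L] [Algebra F L]
    (δ : Derivation F L L) (τ : L) (h : δ τ ≠ 0) : Transcendental F τ := by
  intro ha
  have hi : IsIntegral F τ := ha.isIntegral
  have h1 := Derivation.comp_aeval_eq τ δ (minpoly F τ)
  rw [minpoly.aeval, map_zero, smul_eq_mul] at h1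
  have h2 := (minpoly.irreducible hi).separable.aeval_derivative_ne_zero (minpoly.aeval F τ)
  exact (mul_ne_zero h2 h) h1.symm

theorem hen_INF {F : Type} [Field F] (p2 p1 p0 : F⟦X⟧) (r : F)
    (h0 : r ^ 3 + constantCoeff p2 * r ^ 2 + constantCoeff p1 * r + constantCoeff p0 = 0)
    (h1 : 3 * r ^ 2 + 2 * constantCoeff p2 * r + constantCoeff p1 ≠ 0) :
    ∃ w : F⟦X⟧, constantCoeff w = r ∧ w ^ 3 + p2 * w ^ 2 + p1 * w + p0 = 0 := by
  have hH : HenselianRing F⟦X⟧ (Ideal.span {(X : F⟦X⟧)}) := inferInstance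
  obtain ⟨w, hw, hw0⟩ := hH.is_henselian
    (Polynomial.X ^ 3 + Polynomial.C p2 * Polynomial.X ^ 2 + Polynomial.C p1 * Polynomial.X +
      Polynomial.C p0) (by monicity!) (C r) (by
        rw [Ideal.mem_span_singleton, X_dvd_iff]
        simpa using h0) (by
        refine IsUnit.map _ ?_
        rw [isUnit_iff_constantCoeff, isUnit_iff_ne_zero]
        intro h
        apply h1
        rw [← h]
        simp [map_ofNat]
        ring)
  refine ⟨w, ?_, ?_⟩
  · rw [Ideal.mem_span_singleton, X_dvd_iff] at hw0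
    simpa [sub_eq_zero] using hw0
  · simpa using hw

theorem abs_INF (F L : Type) [Field F] [CharZero F] [Field L] [Algebra F L]
    (δ : Derivation F L L) (res : L →ₗ[F] F) (φ : F⟦X⟧ →+* L) (hφ : Function.Injective φ)
    (hX : res (δ (φ X) / φ X) = 1)
    (hu : ∀ p : F⟦X⟧, constantCoeff p ≠ 0 → res (δ (φ p) / φ p) = 0) (c : ℕ) (hc : 0 < c) :
    ∃ a b e : L, Tri (c * (φ X)⁻¹) a b e ∧
    res (δ a / a) = 1 ∧ res (δ (a - 1) / (a - 1)) = 0 ∧ res (δ b / b) = 0 ∧
    res (δ (b - 1) / (b - 1)) = 1 ∧ res (δ e / e) = -1 ∧ res (δ (e - 1) / (e - 1)) = -1 := by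
  have hcF : (c : F) ≠ 0 := Nat.cast_ne_zero.2 hc.ne'
  have hmul : ∀ u v : L, u ≠ 0 → v ≠ 0 →
      res (δ (u * v) / (u * v)) = res (δ u / u) + res (δ v / v) := by
    intro u v hu hv
    rw [← map_add, Derivation.leibniz]
    congr 1
    simp only [smul_eq_mul]
    field_simp
    ring
  have hdiv : ∀ u v : L, u ≠ 0 → v ≠ 0 →
      res (δ (u / v) / (u / v)) = res (δ u / u) - res (δ v / v) := by
    intro u v hu hv
    have := hmul (u / v) v (div_ne_zero hu hv) hv
    rw [div_mul_cancel₀ _ hv] at this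
    rw [this]
    ring
  have hne : ∀ p : F⟦X⟧, constantCoeff p ≠ 0 → φ p ≠ 0 := by
    intro p hp h
    apply hp
    rw [(map_eq_zero_iff φ hφ).1 h, map_zero]
  have hs : φ X ≠ 0 := fun h => X_ne_zero ((map_eq_zero_iff φ hφ).1 h)
  obtain ⟨β, hβ0, hβ⟩ := hen_INF (c : F⟦X⟧) (X ^ 2 - (c : F⟦X⟧) * X) (-X ^ 3) (-(c : F))
    (by simp; ring) (by
      have : 3 * (-(c : F)) ^ 2 + 2 * constantCoeff (c : F⟦X⟧) * (-(c : F)) +
          constantCoeff (X ^ 2 - (c : F⟦X⟧) * X) = (c : F) ^ 2 := by simp; ring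
      rw [this]
      exact pow_ne_zero 2 hcF)
  obtain ⟨η, hη0, hη⟩ := hen_INF (-(X + (c : F⟦X⟧))) (-(2 * X ^ 2 + (c : F⟦X⟧) * X)) (-X ^ 3)
    (c : F)
    (by simp; ring) (by
      have : 3 * (c : F) ^ 2 + 2 * constantCoeff (-(X + (c : F⟦X⟧))) * (c : F) +
          constantCoeff (-(2 * X ^ 2 + (c : F⟦X⟧) * X)) = (c : F) ^ 2 := by simp; ring
      rw [this]
      exact pow_ne_zero 2 hcF)
  have hβ1 : constantCoeff β ≠ 0 := by rw [hβ0]; exact neg_ne_zero.2 hcF
  have hη1 : constantCoeff η ≠ 0 := by rw [hη0]; exact hcF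
  have hβ2 : constantCoeff (X - β) ≠ 0 := by simpa using hβ1
  have hη2 : constantCoeff (η + X) ≠ 0 := by simpa using hη1
  have hβL := congrArg φ hβ
  have hηL := congrArg φ hη
  simp only [map_add, map_mul, map_pow, map_neg, map_sub, map_natCast, map_zero,
    map_ofNat] at hβL hηL
  have hb := hne β hβ1
  have hh := hne η hη1
  obtain ⟨a, ha⟩ : ∃ a : L, a = φ X / φ β := ⟨_, rfl⟩
  obtain ⟨b, hb'⟩ : ∃ b : L, b = φ (η + X) / φ η := ⟨_, rfl⟩
  obtain ⟨T, hT⟩ : ∃ T : L, T = c * (φ X)⁻¹ := ⟨_, rfl⟩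
  have ha1 : a - 1 = φ (X - β) / φ β := by rw [ha, map_sub]; field_simp
  have hb1 : b - 1 = φ X / φ η := by rw [hb', map_add]; field_simp; ring
  have la : res (δ a / a) = 1 := by rw [ha, hdiv _ _ hs hb, hX, hu β hβ1, sub_zero]
  have la1 : res (δ (a - 1) / (a - 1)) = 0 := by
    rw [ha1, hdiv _ _ (hne _ hβ2) hb, hu _ hβ2, hu β hβ1, sub_zero]
  have lb : res (δ b / b) = 0 := by
    rw [hb', hdiv _ _ (hne _ hη2) hh, hu _ hη2, hu η hη1, sub_zero]
  have lb1 : res (δ (b - 1) / (b - 1)) = 1 := by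
    rw [hb1, hdiv _ _ hs hh, hX, hu η hη1, sub_zero]
  have fa : a * (a - 1) * (a + T) = 1 := by
    rw [ha, hT]
    field_simp
    linear_combination -hβL
  have fb : b * (b - 1) * (b + T) = 1 := by
    rw [hb1, hb', hT, map_add]
    field_simp
    linear_combination -hηL
  have hab : a - b ≠ 0 := by
    intro h
    rw [sub_eq_zero.1 h, lb] at la
    exact zero_ne_one la
  obtain ⟨e, he⟩ : ∃ e : L, e = 1 - T - a - b := ⟨_, rfl⟩
  have t2 : a * b + a * e + b * e = -T := by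
    apply mul_left_cancel₀ hab
    rw [he]
    linear_combination fb - fa
  have t3 : a * b * e = 1 := by
    have : a * b * e = a * (a - 1) * (a + T) := by
      linear_combination a * t2 - a ^ 2 * he
    rw [this, fa]
  have t4 : (a - 1) * (b - 1) * (e - 1) = 1 := by
    linear_combination t3 - t2 + he
  have hone : res (δ (1 : L) / 1) = 0 := by simp
  have hthree : ∀ x y z : L, x * y * z = 1 →
      res (δ x / x) + res (δ y / y) + res (δ z / z) = 0 := by
    intro x y z h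
    have hxy : x * y ≠ 0 := left_ne_zero_of_mul_eq_one h
    have hz : z ≠ 0 := right_ne_zero_of_mul_eq_one h
    rw [← hmul _ _ (left_ne_zero_of_mul hxy) (right_ne_zero_of_mul hxy), ← hmul _ _ hxy hz, h, hone]
  have le := hthree _ _ _ t3
  have le1 := hthree _ _ _ t4
  rw [la, lb] at le
  rw [la1, lb1] at le1
  refine ⟨a, b, e, ?_, la, la1, lb, lb1, by linear_combination le, by linear_combination le1⟩
  rw [← hT]
  exact ⟨by rw [he]; ring, t2, t3⟩

theorem inv_INF (F L : Type) [Field F] [Field L] [Algebra F L]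
    (δ : Derivation F L L) (s : L) (hs : s ≠ 0) (h : δ s = s) : δ s⁻¹ = -s⁻¹ := by
  rw [Derivation.leibniz_inv, h, smul_eq_mul]
  field_simp

theorem INF_pf : INF_st := by
  intro F _ _
  let alg : Algebra F (HahnSeries ℤ F) := (HahnSeries.C : F →+* HahnSeries ℤ F).toAlgebra
  have halg : ∀ c : F, algebraMap F (HahnSeries ℤ F) c = HahnSeries.C c := fun _ => rfl
  obtain ⟨δ, hδ⟩ := der_INF F (HahnSeries ℤ F) eul_INF eul_add_INF eul_mul_INF
    fun c => by rw [halg, eul_C_INF]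
  obtain ⟨res, hres⟩ := lin_INF F (HahnSeries ℤ F) (fun v => v.coeff 0)
    (fun x y => by simp) fun c x => by rw [halg, HahnSeries.C_mul_eq_smul]; simp
  have hφ : Function.Injective (HahnSeries.ofPowerSeries ℤ F) := HahnSeries.ofPowerSeries_injective
  have hs : HahnSeries.ofPowerSeries ℤ F X ≠ 0 :=
    fun h => X_ne_zero ((map_eq_zero_iff _ hφ).1 h)
  have hδX : δ (HahnSeries.ofPowerSeries ℤ F X) = HahnSeries.ofPowerSeries ℤ F X := by
    rw [hδ, eul_ps_INF]
    congr 1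
    ext k
    rw [coeff_mk, coeff_X]
    split_ifs with h
    · simp [h]
    · simp
  have hδτ : δ (HahnSeries.ofPowerSeries ℤ F X)⁻¹ = -(HahnSeries.ofPowerSeries ℤ F X)⁻¹ :=
    inv_INF F _ δ _ hs hδX
  refine ⟨HahnSeries ℤ F, inferInstance, alg, δ, res, (HahnSeries.ofPowerSeries ℤ F X)⁻¹,
    tra_INF F _ δ _ (by rw [hδτ]; exact neg_ne_zero.2 (inv_ne_zero hs)), hδτ, fun v => ?_,
    abs_INF F _ δ res _ hφ ?_ fun p hp => ?_⟩
  · rw [hres, hδ, eul_coeff_INF]
    simp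
  · rw [hδX, div_self hs, hres]
    simp
  · have hq : HahnSeries.ofPowerSeries ℤ F p * HahnSeries.ofPowerSeries ℤ F p⁻¹ = 1 := by
      rw [← map_mul, PowerSeries.mul_inv_cancel p hp, map_one]
    rw [div_eq_mul_inv, ← eq_inv_of_mul_eq_one_right hq, hδ, eul_ps_INF, ← map_mul, hres]
    have := HahnSeries.ofPowerSeries_apply_coeff (Γ := ℤ)
      ((PowerSeries.mk fun k => (k : F) * coeff k p) * p⁻¹) 0
    rw [Nat.cast_zero] at this
    rw [this]
    simp

end Pool.Agent.MP_3e91a1_nt.TR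

end
end

section

/-! The derivation of the Laurent series. -/

set_option autoImplicit false

open Finset

noncomputable section

namespace Pool.Agent.MP_3e91a1_nt.GN

open TR

variable {F : Type} [Field F]

theorem alg_LAU (c : F) : algebraMap F (LaurentSeries F) c = HahnSeries.C c := by
  rw [HahnSeries.algebraMap_apply', PowerSeries.algebraMap_apply, HahnSeries.ofPowerSeries_C]
  rfl

/-- the same derivation for the module structure that comes from the algebra structure -/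
theorem conv_LAU (δ : Derivation F (LaurentSeries F) (LaurentSeries F)) :
    ∃ δ' : @Derivation F (LaurentSeries F) (LaurentSeries F) _ _ _ _ _ Algebra.toModule,
      ∀ v, δ' v = δ v :=
  der_INF F (LaurentSeries F) δ (map_add δ) (fun x y => δ.leibniz x y) δ.map_algebraMap

theorem der_LAU : ∃ δ : Derivation F (LaurentSeries F) (LaurentSeries F), ∀ v, δ v = eul_INF v := by
  refine ⟨{ toFun := eul_INF, map_add' := eul_add_INF, map_smul' := fun c x => ?_,
            map_one_eq_zero' := eul_C_INF 1, leibniz' := eul_mul_INF }, fun _ => rfl⟩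
  show eul_INF (algebraMap F (LaurentSeries F) c * x) = c • eul_INF x
  rw [alg_LAU, eul_mul_INF, eul_C_INF, mul_zero, add_zero, HahnSeries.C_mul_eq_smul]

theorem sing_LAU (n : ℤ) (a : F) :
    eul_INF (HahnSeries.single n a) = HahnSeries.C (n : F) * HahnSeries.single n a := by
  rw [HahnSeries.C_mul_eq_smul]
  ext k
  rw [eul_coeff_INF, HahnSeries.coeff_smul, HahnSeries.coeff_single]
  split_ifs with h
  · rw [h, smul_eq_mul]
  · simp

theorem ord_LAU (u : LaurentSeries F) (hu : u ≠ 0) : (eul_INF u / u).coeff 0 = (u.order : F) := by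
  obtain ⟨p, hp⟩ : ∃ p, p = u.powerSeriesPart := ⟨_, rfl⟩
  obtain ⟨n, hn⟩ : ∃ n, n = u.order := ⟨_, rfl⟩
  have h1 : HahnSeries.single n 1 * HahnSeries.ofPowerSeries ℤ F p = u := by
    rw [hp, hn]; exact LaurentSeries.single_order_mul_powerSeriesPart u
  have h2 : PowerSeries.constantCoeff p ≠ 0 := by
    rw [← PowerSeries.coeff_zero_eq_constantCoeff_apply, hp, LaurentSeries.powerSeriesPart_coeff]
    simpa using hu
  have hq : HahnSeries.ofPowerSeries ℤ F p * HahnSeries.ofPowerSeries ℤ F p⁻¹ = 1 := by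
    rw [← map_mul, PowerSeries.mul_inv_cancel p h2, map_one]
  have h3 : eul_INF u / u = HahnSeries.C (n : F) + HahnSeries.ofPowerSeries ℤ F
      ((PowerSeries.mk fun k => (k : F) * PowerSeries.coeff k p) * p⁻¹) := by
    rw [div_eq_iff hu, map_mul, ← eul_ps_INF, ← h1, eul_mul_INF, sing_LAU]
    linear_combination (-HahnSeries.single n (1 : F) *
      eul_INF (HahnSeries.ofPowerSeries ℤ F p)) * hq
  have h4 := HahnSeries.ofPowerSeries_apply_coeff (Γ := ℤ)
    ((PowerSeries.mk fun k => (k : F) * PowerSeries.coeff k p) * p⁻¹) 0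
  rw [Nat.cast_zero] at h4
  rw [h3, HahnSeries.coeff_add, h4, ← hn, HahnSeries.C_apply, HahnSeries.coeff_single_same]
  simp

theorem LAU_pf : LAU_st := by
  intro F _ _
  obtain ⟨δ, hδ⟩ := der_LAU (F := F)
  have ht : δ (ti F) = -ti F := by
    rw [hδ, ti, sing_LAU]
    simp
  refine ⟨δ, fun v k => by rw [hδ, eul_coeff_INF], fun u hu => by rw [hδ, ord_LAU u hu],
    fun f => ?_, fun v hv => ⟨v.coeff 0, ?_⟩, ht, ?_⟩
  · rw [hδ, eul_ps_INF]
    congr 1
    ext k
    rcases k with _ | k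
    · simp
    · rw [PowerSeries.coeff_mk, PowerSeries.coeff_succ_X_mul, PowerSeries.coeff_derivative]
      push_cast
      ring
  · rw [alg_LAU]
    ext k
    have h := congrArg (fun w : LaurentSeries F => w.coeff k) hv
    simp only [hδ, eul_coeff_INF] at h
    rw [HahnSeries.C_apply, HahnSeries.coeff_single]
    split_ifs with hk
    · rw [hk]
    · exact (mul_eq_zero.1 h).resolve_left (Int.cast_ne_zero.2 hk)
  · obtain ⟨δ', hδ'⟩ := conv_LAU δ
    refine tra_INF F _ δ' _ ?_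
    rw [hδ', ht, ti]
    exact neg_ne_zero.2 (HahnSeries.single_ne_zero one_ne_zero)

end Pool.Agent.MP_3e91a1_nt.GN

end
end

section

/-! A function in both rings of roots is a polynomial in the parameter. -/

set_option autoImplicit false

open Finset Polynomial

namespace Pool.Agent.MP_3e91a1_nt.GN

open TR

section

variable {F E : Type} [Field F] [Field E] [Algebra F E]

theorem aev_LND (d : ℤ[X]) (c : ℕ) (τ : E) :
    aeval τ (aeval ((c : F[X]) * X) d) = aeval ((c : E) * τ) d := by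
  induction d using Polynomial.induction_on' with
  | add p q hp hq => rw [map_add, map_add, map_add, hp, hq]
  | monomial n a => simp [aeval_monomial]

theorem le_LND (τ : E) (s : Set E) : Algebra.adjoin F {τ} ≤ Algebra.adjoin F (insert τ s) :=
  Algebra.adjoin_mono (Set.singleton_subset_iff.2 (Set.mem_insert _ _))

theorem stab_LND (hITG : ITG_st) {m : ℕ} {r : Fin m → ℤ} {d : ℤ[X]} {c : ℕ} {τ : E}
    {A : Fin (m + 1) → E} {δ : Derivation F E E} (hA : Rt r (c * τ) A) (hd : IsD r d)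
    (hδ : δ τ = 1) (w : E) (hw : w ∈ Algebra.adjoin F (insert τ (Set.range A))) :
    aeval ((c : E) * τ) d * δ w ∈ Algebra.adjoin F (insert τ (Set.range A)) := by
  have hm : ∀ s, A s ∈ Algebra.adjoin F (insert τ (Set.range A)) := fun s =>
    Algebra.subset_adjoin (Set.mem_insert_of_mem _ ⟨s, rfl⟩)
  have hf : ∀ s, fd A s ∈ Algebra.adjoin F (insert τ (Set.range A)) := fun s =>
    prod_mem fun s' _ => sub_mem (hm s) (hm s')
  rw [← hd E _ A hA]
  induction hw using Algebra.adjoin_induction with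
  | mem x hx =>
    rcases hx with rfl | ⟨s, rfl⟩
    · rw [hδ, mul_one]
      exact prod_mem fun s _ => hf s
    · rw [← prod_erase_mul _ _ (mem_univ s), mul_assoc,
        (hITG m r E _ A hA).2.2.2.2.2 F δ s, δ.leibniz, hδ, δ.map_natCast, smul_zero, add_zero,
        smul_eq_mul, mul_one]
      exact mul_mem (prod_mem fun s _ => hf s) (mul_mem (neg_mem (prod_mem fun i _ =>
        sub_mem (hm s) (intCast_mem _ _))) (natCast_mem _ _))
  | algebraMap a =>
    rw [δ.map_algebraMap, mul_zero]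
    exact zero_mem _
  | add x y _ _ hx hy =>
    rw [map_add, mul_add]
    exact add_mem hx hy
  | mul x y hx' hy' hx hy =>
    rw [δ.leibniz, smul_eq_mul, smul_eq_mul, mul_add, mul_left_comm _ x, mul_left_comm _ y]
    exact add_mem (mul_mem hx' hy) (mul_mem hy' hx)

theorem gam_LND (R : Subalgebra F E) (δ : Derivation F E E) (d : E) (hd : d ∈ R)
    (h : ∀ w ∈ R, d * δ w ∈ R) (v : E) (hv : v ∈ R) (n : ℕ) : ∃ N : ℕ, d ^ N * δ^[n] v ∈ R := by
  induction n with
  | zero => exact ⟨0, by simpa using hv⟩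
  | succ n ih =>
    obtain ⟨N, hN⟩ := ih
    refine ⟨2 * N + 1, ?_⟩
    have e : d ^ (2 * N + 1) * δ^[n + 1] v =
        d ^ N * (d * δ (d ^ N * δ^[n] v)) - d * δ (d ^ N) * (d ^ N * δ^[n] v) := by
      rw [Function.iterate_succ_apply', δ.leibniz, smul_eq_mul, smul_eq_mul]
      ring
    rw [e]
    exact sub_mem (mul_mem (pow_mem hd _) (h _ hN)) (mul_mem (h _ (pow_mem hd _)) hN)

theorem monic_LND {m : ℕ} (r : Fin m → ℤ) {S : Type} [CommRing S] [Nontrivial S] (T : S) :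
    (fp r T).Monic := by
  have h1 : (∏ i, (X - C (r i : S))).Monic := monic_prod_of_monic _ _ fun i _ => monic_X_sub_C _
  have h2 := monic_X_add_C T
  refine (h1.mul h2).sub_of_left (degree_one_le.trans_lt ?_)
  rw [← natDegree_pos_iff_degree_pos, h1.natDegree_mul h2, natDegree_X_add_C]
  omega

theorem int_LND (hITG : ITG_st) {m : ℕ} {r : Fin m → ℤ} {c : ℕ} {τ : E} {A : Fin (m + 1) → E}
    (hA : Rt r (c * τ) A) (w : E) (hw : w ∈ Algebra.adjoin F (insert τ (Set.range A))) :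
    IsIntegral (Algebra.adjoin F {τ}) w := by
  have ht : τ ∈ Algebra.adjoin F {τ} := Algebra.subset_adjoin rfl
  have h : Algebra.adjoin F (insert τ (Set.range A)) ≤
      (integralClosure (Algebra.adjoin F {τ}) E).restrictScalars F := by
    refine Algebra.adjoin_le ?_
    rintro x (rfl | ⟨s, rfl⟩)
    · exact isIntegral_algebraMap (x := (⟨x, ht⟩ : Algebra.adjoin F {x}))
    · refine ⟨fp r (c * ⟨τ, ht⟩), monic_LND r _, ?_⟩
      have h1 := (hITG m r E _ A hA).2.1 s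
      rw [← aeval_def, fp]
      simpa [sub_eq_zero] using h1
  exact h hw

theorem anti_LND [CharZero F] (P : F[X]) : ∃ Q : F[X], derivative Q = P := by
  induction P using Polynomial.induction_on' with
  | add p q hp hq =>
    obtain ⟨p', rfl⟩ := hp
    obtain ⟨q', rfl⟩ := hq
    exact ⟨p' + q', derivative_add⟩
  | monomial n a =>
    refine ⟨monomial (n + 1) (a / (n + 1)), ?_⟩
    rw [derivative_monomial_succ, div_mul_cancel₀ _ (Nat.cast_add_one_ne_zero n)]

theorem down_LND [CharZero F] {τ : E} {δ : Derivation F E E} (hδ : δ τ = 1)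
    (hk : ∀ w, δ w = 0 → ∃ a : F, w = algebraMap F E a) (n : ℕ) (v : E)
    (h : δ^[n] v ∈ Algebra.adjoin F {τ}) : v ∈ Algebra.adjoin F {τ} := by
  induction n generalizing v with
  | zero => exact h
  | succ n ih =>
    have h1 := ih (δ v) h
    rw [Algebra.adjoin_singleton_eq_range_aeval] at h1
    obtain ⟨P, hP⟩ := h1
    obtain ⟨Q, rfl⟩ := anti_LND P
    obtain ⟨a, ha⟩ := hk (v - aeval τ Q) (by
      rw [map_sub, δ.map_aeval, hδ, smul_eq_mul, mul_one, sub_eq_zero]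
      exact hP.symm)
    rw [eq_add_of_sub_eq ha]
    exact add_mem (Subalgebra.algebraMap_mem _ _) (aeval_mem_adjoin_singleton F τ)

theorem tr_LND (f : E →+ E) (h0 : ∀ a, f (algebraMap F E a) = 0)
    (hl : ∀ a b, f (a * b) = a * f b + b * f a) : ∃ δ : Derivation F E E, ∀ x, δ x = f x :=
  ⟨Derivation.mk' { f with
      map_smul' := fun a x => by
        simp only [Algebra.smul_def, RingHom.id_apply, ZeroHom.toFun_eq_coe,
          AddMonoidHom.toZeroHom_coe, hl, h0, mul_zero, add_zero] } hl,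
    fun _ => rfl⟩

theorem coef_LND {δ : Derivation F E E} {δ' : Derivation F (LaurentSeries F) (LaurentSeries F)}
    (hL : Lau δ') (φ : E →ₐ[F] LaurentSeries F)
    (h : ∀ v, δ' (φ v) = δ' (ti F) * φ (δ v)) (v : E) (n : ℕ) (k : ℤ)
    (hk : k < (φ v).order + n) : (φ (δ^[n] v)).coeff k = 0 := by
  induction n generalizing k with
  | zero => exact HahnSeries.coeff_eq_zero_of_lt_order (by simpa using hk)
  | succ n ih =>
    have h1 := hL.1 (φ (δ^[n] v)) (k - 1)
    rw [ih (k - 1) (by push_cast at hk; omega), mul_zero, h, hL.2.2.2.2.1, neg_mul,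
      HahnSeries.coeff_neg, ti, HahnSeries.coeff_single_mul, one_mul, neg_eq_zero,
      sub_neg_eq_add, sub_add_cancel] at h1
    rw [Function.iterate_succ_apply']
    exact h1

end

theorem LND_pf (hITG : ITG_st) (hLAU : LAU_st) (hFIN : FIN_st) (hUNQ : UNQ_st) (hLIO : LIO_st) :
    LND_st := by
  intro F E _ _ _ _ m r d c c' τ A A' δ φ₀ v hG hd hC hc hc' hδ h0 h1 h2
  obtain ⟨δ', hL⟩ := hLAU F
  obtain ⟨δ₂, e2⟩ := tr_LND (F := F) δ'.toLinearMap.toAddMonoidHom δ'.map_algebraMap δ'.leibniz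
  have hU : ∀ φ : E →ₐ[F] LaurentSeries F, φ τ = ti F →
      ∀ v, δ' (φ v) = δ' (ti F) * φ (δ v) := fun φ hφ v => by
    have := hUNQ F E (LaurentSeries F) m r d c c' τ A A' δ δ₂ φ hG hd hC hc hc' hδ v
    rwa [hφ, e2, e2] at this
  have := hFIN F E _ m r c c' τ A A' (ti F) hG
  obtain ⟨n, hn⟩ := Finite.exists_le fun φ : {φ : E →ₐ[F] LaurentSeries F // φ τ = ti F} =>
    (-(φ.1 v).order).toNat
  have hm : ∀ P : F[X], aeval τ P ∈ Algebra.adjoin F {τ} := fun P =>
    aeval_mem_adjoin_singleton F τ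
  obtain ⟨N, hN⟩ := gam_LND _ δ _ (le_LND τ _ (aev_LND (F := F) d c τ ▸ hm _))
    (stab_LND hITG hG.2.1 hd hδ) v h1 n
  obtain ⟨N', hN'⟩ := gam_LND _ δ _ (le_LND τ _ (aev_LND (F := F) d c' τ ▸ hm _))
    (stab_LND hITG hG.2.2.1 hd hδ) v h2 n
  obtain ⟨a, b, hab⟩ := IsCoprime.pow (m := N) (n := N') hC
  have e1 := congrArg (aeval τ) hab
  rw [map_add, map_mul, map_mul, map_pow, map_pow, aev_LND, aev_LND, map_one] at e1
  have hI : IsIntegral (Algebra.adjoin F {τ}) (δ^[n] v) := by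
    rw [← one_mul (δ^[n] v), ← e1, add_mul, mul_assoc, mul_assoc]
    exact (int_LND hITG hG.2.1 _ (mul_mem (le_LND τ _ (hm a)) hN)).add
      (int_LND hITG hG.2.2.1 _ (mul_mem (le_LND τ _ (hm b)) hN'))
  obtain ⟨x, hx⟩ := hLIO F E m r c c' τ A A' φ₀ _ hG h0 hI fun φ hφ k hk =>
    coef_LND hL φ (hU φ hφ) v n k (by have := hn ⟨φ, hφ⟩; simp only at this; omega)
  refine down_LND hδ (fun w hw => ?_) n v (hx ▸ Subalgebra.algebraMap_mem _ _)
  obtain ⟨y, hy⟩ := hL.2.2.2.1 (φ₀ w) (by rw [hU φ₀ h0, hw, map_zero, mul_zero])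
  exact ⟨y, φ₀.injective (hy.trans (φ₀.commutes y).symm)⟩

end Pool.Agent.MP_3e91a1_nt.GN

end

section

/-! The number of zeros of a function on the curve. -/

set_option autoImplicit false

open Finset Polynomial

noncomputable section

namespace Pool.Agent.MP_3e91a1_nt.TR

variable {F : Type} [Field F]

theorem dvd_NRM (a c : F) (hc : c ≠ 0) (q : F[X]) (m : ℕ)
    (h : PowerSeries.X ^ m ∣ aeval (PowerSeries.C a + PowerSeries.C c * PowerSeries.X) q) :
    (X - C a) ^ m ∣ q := by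
  have e : aeval (PowerSeries.C a + PowerSeries.C c * PowerSeries.X) q =
      ((q.comp (C a + C c * X) : F[X]) : PowerSeries F) := by
    clear h
    induction q using Polynomial.induction_on' with
    | add p q hp hq => simp only [map_add, hp, hq, add_comp, Polynomial.coe_add]
    | monomial n r => simp
  have h1 : X ^ m ∣ q.comp (C a + C c * X) := by
    rw [Polynomial.X_pow_dvd_iff]
    intro d hd
    rw [← Polynomial.coeff_coe, ← e]
    exact PowerSeries.X_pow_dvd_iff.1 h d hd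
  have h2 := map_dvd (compRingHom (C c⁻¹ * (X - C a))) h1
  simp only [coe_compRingHom_apply, comp_assoc, pow_comp, X_comp, add_comp, mul_comp,
    C_comp] at h2
  rw [← mul_assoc, ← C_mul, mul_inv_cancel₀ hc, C_1, one_mul, add_sub_cancel, comp_X,
    mul_pow] at h2
  exact (dvd_mul_left _ _).trans h2

theorem prod_NRM {ι : Type} (s : Finset ι) (f : ι → F[X][X]) (B : ℕ)
    (h : ∀ i k, ((f i).coeff k).natDegree ≤ B) (k : ℕ) :
    ((∏ i ∈ s, f i).coeff k).natDegree ≤ s.card * B := by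
  classical
  induction s using Finset.induction_on generalizing k with
  | empty =>
    rw [prod_empty, coeff_one]
    split_ifs <;> simp
  | insert a s ha ih =>
    rw [prod_insert ha, card_insert_of_notMem ha, coeff_mul]
    refine natDegree_sum_le_of_forall_le _ _ fun p _ => natDegree_mul_le.trans ?_
    have := h a p.1
    have := ih p.2
    rw [add_mul, one_mul]
    omega

theorem char_NRM {ι : Type} [Fintype ι] [DecidableEq ι] (M : Matrix ι ι F[X]) (B : ℕ)
    (h : ∀ i j, (M i j).natDegree ≤ B) (k : ℕ) :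
    (M.charpoly.coeff k).natDegree ≤ Fintype.card ι * B := by
  rw [Matrix.charpoly, Matrix.det_apply, finsetSum_coeff]
  refine natDegree_sum_le_of_forall_le _ _ fun σ _ => ?_
  have h1 : ∀ i j l, ((M.charmatrix i j).coeff l).natDegree ≤ B := by
    intro i j l
    have h2 : ((C (M i j)).coeff l).natDegree ≤ B := by
      rw [coeff_C]
      split_ifs
      · exact h i j
      · simp
    rw [Matrix.charmatrix_apply, coeff_sub]
    refine (natDegree_sub_le _ _).trans (max_le ?_ h2)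
    rw [Matrix.diagonal_apply]
    split_ifs
    · rw [coeff_X]
      split_ifs <;> simp
    · simp
  have h2 := prod_NRM univ (fun i => M.charmatrix (σ i) i) B (fun i => h1 _ _) k
  rcases Int.units_eq_one_or (Equiv.Perm.sign σ) with e | e <;> rw [e]
  · rwa [one_smul]
  · rwa [Units.neg_smul, one_smul, coeff_neg, natDegree_neg]

/-- an eigenvalue divides the lowest nonzero coefficient of the characteristic polynomial -/
theorem eig_NRM {ι : Type} [Fintype ι] [DecidableEq ι] (M : Matrix ι ι F[X]) (B : ℕ)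
    (h : ∀ i j, (M i j).natDegree ≤ B) : ∃ c : F[X], c ≠ 0 ∧ c.natDegree ≤ Fintype.card ι * B ∧
      ∀ (S : Type) [CommRing S] [IsDomain S] (φ : F[X] →+* S) (w : S) (ω : ι → S), w ≠ 0 →
        ω ≠ 0 → (∀ i, w * ω i = ∑ j, φ (M i j) * ω j) → w ∣ φ c := by
  obtain ⟨q, hq, hd⟩ := exists_eq_pow_rootMultiplicity_mul_and_not_dvd M.charpoly
    M.charpoly_monic.ne_zero 0
  generalize rootMultiplicity 0 M.charpoly = m at hq
  rw [C_0, sub_zero] at hq hd
  refine ⟨q.coeff 0, fun h0 => hd (X_dvd_iff.2 h0), ?_, fun S _ _ φ w ω hw hω hM => ?_⟩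
  · have := char_NRM M B h (0 + m)
    rwa [hq, coeff_X_pow_mul] at this
  · have h1 : (Matrix.scalar ι w - M.map φ).det = 0 := by
      refine Matrix.exists_mulVec_eq_zero_iff.1 ⟨ω, hω, ?_⟩
      funext i
      rw [Matrix.sub_mulVec, Pi.sub_apply, Matrix.scalar_apply, Matrix.mulVec_diagonal, hM i]
      simp [Matrix.mulVec, dotProduct]
    rw [← Matrix.eval_charpoly, Matrix.charpoly_map, hq, ← X_mul_divX_add q] at h1
    simp only [Polynomial.map_mul, Polynomial.map_pow, Polynomial.map_add, map_X, map_C, eval_mul,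
      eval_pow, eval_add, eval_X, eval_C] at h1
    have h2 := (mul_eq_zero.1 h1).resolve_left (pow_ne_zero _ hw)
    exact ⟨-eval w (q.divX.map φ), by linear_combination h2⟩

theorem mat_NRM (hRED : RED_st) (c c' : ℕ) (W : MvPolynomial (Fin 7) F) :
    ∃ M : Matrix (Fin 6 → Fin 3) (Fin 6 → Fin 3) F[X],
      (∀ i j, (M i j).natDegree ≤ W.totalDegree + 12) ∧
      ∀ (S : Type) [CommRing S] [Algebra F S] (g : Fin 7 → S), Dat c c' g → ∀ ε,
        MvPolynomial.aeval g W * ∏ i : Fin 6, g i.succ ^ (ε i : ℕ) =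
          ∑ ε', aeval (g 0) (M ε ε') * ∏ i : Fin 6, g i.succ ^ (ε' i : ℕ) := by
  obtain ⟨B, hB⟩ : ∃ B, B = W.totalDegree + 12 := ⟨_, rfl⟩
  rw [← hB]
  have h0 : ∀ β : Fin 7 → ℕ, ∃ u : Fin (B + 1) × (Fin 6 → Fin 3) → ℤ, ∑ i, β i ≤ B →
      ∀ (S : Type) [CommRing S] (g : Fin 7 → S), Dat c c' g → ∏ i, g i ^ β i =
        ∑ r, (u r : S) * (g 0 ^ (r.1 : ℕ) * ∏ i : Fin 6, g i.succ ^ (r.2 i : ℕ)) := by
    intro β
    by_cases h : ∑ i, β i ≤ B
    · exact (hRED c c' B β h).imp fun u hu _ => hu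
    · exact ⟨0, fun h' => absurd h' h⟩
  choose u hu using h0
  let β : (Fin 7 →₀ ℕ) → (Fin 6 → Fin 3) → Fin 7 → ℕ := fun α ε i =>
    α i + Fin.cons (α := fun _ => ℕ) 0 (fun j => (ε j : ℕ)) i
  refine ⟨fun ε ε' => ∑ α ∈ W.support, ∑ e : Fin (B + 1),
    monomial e (W.coeff α * (u (β α ε) (e, ε') : F)), fun ε ε' => ?_, fun S _ _ g hg ε => ?_⟩
  · refine natDegree_sum_le_of_forall_le _ _ fun α _ =>
      natDegree_sum_le_of_forall_le _ _ fun e _ => (natDegree_monomial_le _).trans ?_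
    exact Nat.le_of_lt_succ e.2
  · have h1 : ∀ α ∈ W.support, ∑ i, β α ε i ≤ B := by
      intro α hα
      have h2 := MvPolynomial.le_totalDegree hα
      rw [Finsupp.sum_fintype _ _ fun _ => rfl] at h2
      have h3 : ∑ j : Fin 6, (ε j : ℕ) ≤ 12 := by
        have := sum_le_card_nsmul univ (fun j => (ε j : ℕ)) 2 fun j _ => Nat.le_of_lt_succ (ε j).2
        simpa using this
      simp only [β]
      rw [sum_add_distrib, Fin.sum_univ_succ (f := Fin.cons _ _)]
      simp only [Fin.cons_zero, Fin.cons_succ]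
      omega
    have h2 : ∀ α : Fin 7 →₀ ℕ, (∏ i, g i ^ α i) * ∏ i : Fin 6, g i.succ ^ (ε i : ℕ) =
        ∏ i, g i ^ β α ε i := by
      intro α
      simp only [β, pow_add]
      rw [prod_mul_distrib, Fin.prod_univ_succ (f := fun i => g i ^ Fin.cons (α := fun _ => ℕ) 0 _ i)]
      simp only [Fin.cons_zero, Fin.cons_succ, pow_zero, one_mul]
    rw [MvPolynomial.aeval_def, MvPolynomial.eval₂_eq', sum_mul]
    simp only [map_sum, sum_mul, aeval_monomial]
    rw [sum_comm]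
    refine sum_congr rfl fun α hα => ?_
    rw [mul_assoc, h2, hu _ (h1 α hα) S g hg, mul_sum, Fintype.sum_prod_type, sum_comm]
    refine sum_congr rfl fun ε' _ => sum_congr rfl fun e _ => ?_
    rw [map_mul, map_intCast]
    ring

theorem NRM_pf (hRED : RED_st) : NRM_st := by
  intro F P _ _ _ c c' N t κ g W ht hκ h0 hD hW hN
  classical
  obtain ⟨M, hM, hm⟩ := mat_NRM hRED c c' W
  obtain ⟨q, q0, q1, q2⟩ := eig_NRM M _ hM
  have h1 : ∀ s, (X - C (t s)) ^ N ∣ q := by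
    intro s
    refine dvd_NRM (t s) (κ s) (hκ s) q N ?_
    rw [← h0 s]
    refine (hN s).trans (q2 (PowerSeries F) (aeval (g s 0)).toRingHom _
      (fun ε => ∏ i : Fin 6, g s i.succ ^ (ε i : ℕ)) (hW s) (fun h => ?_) (hm _ (g s) (hD s)))
    simpa using congrFun h 0
  have h2 : ∏ s, (X - C (t s)) ^ N ∣ q :=
    Finset.prod_dvd_of_coprime (fun s _ s' _ h => (pairwise_coprime_X_sub_C ht h).pow)
      fun s _ => h1 s
  have h3 := natDegree_le_of_dvd h2 q0
  rw [natDegree_prod_of_monic _ _ fun s _ => (monic_X_sub_C _).pow _] at h3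
  simp only [natDegree_pow, natDegree_X_sub_C, mul_one, sum_const, card_univ, smul_eq_mul] at h3
  rw [Fintype.card_fun, Fintype.card_fin, Fintype.card_fin] at q1
  exact h3.trans q1

end Pool.Agent.MP_3e91a1_nt.TR

end
end

section

/-! The number of zeros of a function on the curve, in every degree. -/

set_option autoImplicit false

open Finset Polynomial

noncomputable section

namespace Pool.Agent.MP_3e91a1_nt.GN

open TR

theorem mat_NRG (hRDG : RDG_st) {F : Type} [Field F] (m : ℕ) (r : Fin m → ℤ) (c c' : ℕ)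
    (W : MvPolynomial (Vr m) F) :
    ∃ M : Matrix (Fin (m + 1) ⊕ Fin (m + 1) → Fin (m + 1))
        (Fin (m + 1) ⊕ Fin (m + 1) → Fin (m + 1)) F[X],
      (∀ i j, (M i j).natDegree ≤ W.totalDegree + (m + 1 + (m + 1)) * m) ∧
      ∀ (S : Type) [CommRing S] [Algebra F S] (τ : S) (A A' : Fin (m + 1) → S),
        Rt r (c * τ) A → Rt r (c' * τ) A' → ∀ ε,
        MvPolynomial.aeval (gg τ A A') W * ∏ i, Sum.elim A A' i ^ (ε i : ℕ) =
          ∑ ε', aeval τ (M ε ε') * ∏ i, Sum.elim A A' i ^ (ε' i : ℕ) := by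
  obtain ⟨B, hB⟩ : ∃ B, B = W.totalDegree + (m + 1 + (m + 1)) * m := ⟨_, rfl⟩
  rw [← hB]
  have h0 : ∀ β : Vr m → ℕ,
      ∃ u : Fin (B + 1) × (Fin (m + 1) ⊕ Fin (m + 1) → Fin (m + 1)) → ℤ, ∑ i, β i ≤ B →
      ∀ (S : Type) [CommRing S] (τ : S) (A A' : Fin (m + 1) → S), Rt r (c * τ) A →
        Rt r (c' * τ) A' → ∏ i, gg τ A A' i ^ β i =
        ∑ q, (u q : S) * (τ ^ (q.1 : ℕ) * ∏ i, Sum.elim A A' i ^ (q.2 i : ℕ)) := by
    intro β
    by_cases h : ∑ i, β i ≤ B
    · exact (hRDG m r c c' B β h).imp fun u hu _ => hu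
    · exact ⟨0, fun h' => absurd h' h⟩
  choose u hu using h0
  let β : (Vr m →₀ ℕ) → (Fin (m + 1) ⊕ Fin (m + 1) → Fin (m + 1)) → Vr m → ℕ := fun α ε i =>
    α i + i.elim 0 fun j => (ε j : ℕ)
  refine ⟨fun ε ε' => ∑ α ∈ W.support, ∑ e : Fin (B + 1),
    monomial e (W.coeff α * (u (β α ε) (e, ε') : F)), fun ε ε' => ?_,
    fun S _ _ τ A A' hA hA' ε => ?_⟩
  · refine natDegree_sum_le_of_forall_le _ _ fun α _ =>
      natDegree_sum_le_of_forall_le _ _ fun e _ => (natDegree_monomial_le _).trans ?_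
    exact Nat.le_of_lt_succ e.2
  · have h1 : ∀ α ∈ W.support, ∑ i, β α ε i ≤ B := by
      intro α hα
      have h2 := MvPolynomial.le_totalDegree hα
      rw [Finsupp.sum_fintype _ _ fun _ => rfl] at h2
      have h3 : ∑ j, (ε j : ℕ) ≤ (m + 1 + (m + 1)) * m := by
        have := sum_le_card_nsmul univ (fun j => (ε j : ℕ)) m fun j _ => Nat.le_of_lt_succ (ε j).2
        rwa [card_univ, Fintype.card_sum, Fintype.card_fin, smul_eq_mul] at this
      simp only [β]
      rw [sum_add_distrib, Fintype.sum_option (f := fun i => Option.elim i 0 fun j => (ε j : ℕ))]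
      simp only [Option.elim_none, Option.elim_some]
      omega
    have h2 : ∀ α : Vr m →₀ ℕ, (∏ i, gg τ A A' i ^ α i) * ∏ i, Sum.elim A A' i ^ (ε i : ℕ) =
        ∏ i, gg τ A A' i ^ β α ε i := by
      intro α
      simp only [β, pow_add]
      rw [prod_mul_distrib,
        Fintype.prod_option (f := fun i => gg τ A A' i ^ Option.elim i 0 fun j => (ε j : ℕ))]
      simp only [gg, Option.elim_none, Option.elim_some, pow_zero, one_mul]
    rw [MvPolynomial.aeval_def, MvPolynomial.eval₂_eq', sum_mul]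
    simp only [map_sum, sum_mul, aeval_monomial]
    rw [sum_comm]
    refine sum_congr rfl fun α hα => ?_
    rw [mul_assoc, h2, hu _ (h1 α hα) S τ A A' hA hA', mul_sum, Fintype.sum_prod_type, sum_comm]
    refine sum_congr rfl fun ε' _ => sum_congr rfl fun e _ => ?_
    rw [map_mul, map_intCast]
    ring

theorem NRG_pf (hRDG : RDG_st) : NRG_st := by
  intro m r c c'
  refine ⟨Fintype.card (Fin (m + 1) ⊕ Fin (m + 1) → Fin (m + 1)) + (m + 1 + (m + 1)) * m, ?_⟩
  intro F P _ _ N t κ τ A A' W Q ht hκ h0 hA hA' hW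
  classical
  obtain ⟨M, hM, hm⟩ := mat_NRG hRDG m r c c' W
  obtain ⟨q, q0, q1, q2⟩ := eig_NRM M _ hM
  have h1 : ∀ s ∈ Q, (X - C (t s)) ^ N ∣ q := by
    intro s hs
    refine dvd_NRM (t s) (κ s) (hκ s) q N ?_
    rw [← h0 s]
    refine (hW s hs).2.trans (q2 (PowerSeries F) (aeval (τ s)).toRingHom _
      (fun ε => ∏ i, Sum.elim (A s) (A' s) i ^ (ε i : ℕ)) (hW s hs).1 (fun h => ?_)
      (hm _ (τ s) (A s) (A' s) (hA s) (hA' s)))
    simpa using congrFun h 0
  have h2 : ∏ s ∈ Q, (X - C (t s)) ^ N ∣ q :=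
    Finset.prod_dvd_of_coprime (fun s _ s' _ h => (pairwise_coprime_X_sub_C ht h).pow) h1
  have h3 := natDegree_le_of_dvd h2 q0
  rw [natDegree_prod_of_monic _ _ fun s _ => (monic_X_sub_C _).pow _] at h3
  simp only [natDegree_pow, natDegree_X_sub_C, mul_one, sum_const, smul_eq_mul] at h3
  exact (h3.trans q1).trans (Nat.mul_le_mul (Nat.le_add_right _ _)
    (Nat.add_le_add_left (Nat.le_add_left _ _) _))

end Pool.Agent.MP_3e91a1_nt.GN

end
end

section

/-! The selection at the points. -/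

set_option autoImplicit false

open Finset PowerSeries

noncomputable section

namespace Pool.Agent.MP_3e91a1_nt.GN

open TR

theorem uu_STR {m : ℕ} (r : Fin m → ℤ) {S S' L : Type} [CommRing S] [CommRing S'] [CommRing L]
    (φ : S →+* L) (ι : S' →+* L) (A : Fin (m + 1) → S) (B : Fin (m + 1) → S')
    (h : ∀ s, φ (A s) = ι (B s)) (j : Fin (m + 1) × Fin m) :
    φ (uu r A j) = ι (uu r B j) := by
  simp only [uu, map_sub, map_intCast, h]

theorem vv_STR {m : ℕ} (r : Fin m → ℤ) {S S' L : Type} [CommRing S] [CommRing S'] [CommRing L]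
    (φ : S →+* L) (ι : S' →+* L) (T : S) (T' : S') (A : Fin (m + 1) → S) (B : Fin (m + 1) → S')
    (hT : φ T = ι T') (h : ∀ s, φ (A s) = ι (B s)) (j : Fin (m + 1) × Fin m) :
    φ (vv r T A j) = ι (vv r T' B j) := by
  simp only [vv, map_sub, map_add, map_mul, map_prod, map_intCast, h, hT]

theorem rel_STR {m k : ℕ} (σ : Sel m k) (r : Fin m → ℤ) {S S' L : Type} [CommRing S]
    [CommRing S'] [CommRing L] (φ : S →+* L) (ι : S' →+* L) (hι : Function.Injective ι)
    (δ : S → S) (δ' : S' → S') (g : L) (hd : ∀ v f, φ v = ι f → ι (δ' f) = g * φ (δ v))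
    (T : S) (T' : S') (A : Fin (m + 1) → S) (B : Fin (m + 1) → S')
    (hT : φ T = ι T') (h : ∀ s, φ (A s) = ι (B s)) (hR : σ.Rel r δ T A) :
    σ.Rel r δ' T' B := by
  intro s i
  apply hι
  have h1 := congrArg φ (hR s i)
  simp only [map_mul, map_sum, map_natCast, map_intCast] at h1 ⊢
  simp only [hd _ _ (uu_STR r φ ι A B h _), ← vv_STR r φ ι T T' A B hT h]
  calc _ = g * ((σ.N : L) * (φ (δ (uu r A (s.castSucc, i))) * φ (vv r T A (s.castSucc, i)))) := by
        ring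
    _ = _ := by
        rw [h1, Finset.mul_sum]
        exact Finset.sum_congr rfl fun j _ => by ring

theorem ind_STR (hOST : OST_st) (F E L J : Type) [Field F] [CharZero F] [Field E] [Algebra F E]
    [Field L] [Algebra F L] [Fintype J] (δ : Derivation F E E) (D : Derivation F L L)
    (φ : E →ₐ[F] L) (g : L) (hg : g ≠ 0) (hU : ∀ v, D (φ v) = g * φ (δ v))
    (hK : ∀ v, D v = 0 → ∃ a : F, v = algebraMap F L a) (τ : E) (hτ : Transcendental F (φ τ))
    (w : J → E) (M : J → L) (hM : ∀ j, D (M j) = g * φ (w j))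
    (hw : ∀ (κ : J → F) (v : E), ∑ j, κ j • w j = δ v → κ = 0) :
    AlgebraicIndependent F fun o : Option J => o.elim (φ τ) M := by
  have e1 : ∀ v, (g⁻¹ • D) (φ v) = φ (δ v) := fun v => by
    rw [Derivation.smul_apply, smul_eq_mul, hU, inv_mul_cancel_left₀ hg]
  have e2 : ∀ j, (g⁻¹ • D) (M j) = φ (w j) := fun j => by
    rw [Derivation.smul_apply, smul_eq_mul, hM, inv_mul_cancel_left₀ hg]
  have hA := hOST F L J (g⁻¹ • D) φ.range M
    (by
      rintro _ ⟨v, rfl⟩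
      exact ⟨_, (e1 v).symm⟩)
    (fun j => ⟨w j, (e2 j).symm⟩)
    (fun a b ha h => by
      simp only [Derivation.smul_apply, smul_eq_mul] at h
      have h1 : a * D b = b * D a := mul_left_cancel₀ (inv_ne_zero hg) (by linear_combination h)
      obtain ⟨q, hq⟩ := hK (b / a) (by
        rw [Derivation.leibniz_div, smul_eq_mul, smul_eq_mul, smul_eq_mul, h1, sub_self, mul_zero])
      exact ⟨q, by rw [Algebra.smul_def, ← hq, div_mul_cancel₀ _ ha]⟩)
    (by
      rintro k _ ⟨a, rfl⟩ _ ⟨b, rfl⟩ ha h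
      have h : φ a ^ 2 * ∑ j, k j • (g⁻¹ • D) (M j) =
        φ a * (g⁻¹ • D) (φ b) - φ b * (g⁻¹ • D) (φ a) := h
      have ha : φ a ≠ 0 := ha
      have ha0 : a ≠ 0 := fun c => ha (by rw [c, map_zero])
      simp only [e1, e2] at h
      have h1 : a ^ 2 * ∑ j, k j • w j = a * δ b - b * δ a := by
        apply φ.toRingHom.injective
        simpa [map_sum] using h
      refine hw k (b / a) ?_
      rw [Derivation.leibniz_div, smul_eq_mul, smul_eq_mul, smul_eq_mul, ← h1]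
      field_simp)
  have h1 : AlgebraicIndependent F fun _ : Unit => φ τ :=
    algebraicIndependent_unique_type_iff.2 hτ
  have h2 := h1.sumElim_of_tower (S := φ.range) (by
    rintro _ ⟨_, rfl⟩
    exact ⟨⟨φ τ, τ, rfl⟩, rfl⟩) hA
  have h3 := h2.comp (Equiv.optionEquivSumPUnit.{0} J) (Equiv.injective _)
  have h4 : (fun o : Option J => o.elim (φ τ) M) =
      (Sum.elim M fun _ : Unit => φ τ) ∘ Equiv.optionEquivSumPUnit.{0} J :=
    funext fun o => by cases o <;> rfl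
  rw [h4]
  exact h3

theorem pt_STR (hITG : ITG_st) (hLFT : LFT_st) (hUNQ : UNQ_st) (hOST : OST_st)
    (F E L : Type) [Field F] [CharZero F] [Field E] [Algebra F E] [Field L] [Algebra F L]
    (m : ℕ) (r : Fin m → ℤ) (d : Polynomial ℤ) (c c' : ℕ) (τ₀ : E) (A₀ A₀' : Fin (m + 1) → E)
    (δ : Derivation F E E) (hG : Gn F r c c' τ₀ A₀ A₀') (hD : IsD r d) (hC : Cop F d c c')
    (hc : 0 < c) (hc' : 0 < c') (hδ : δ τ₀ = 1) (k k' : ℕ) (σ : Sel m k) (σ' : Sel m k')
    (hR : σ.Rel r δ (c * τ₀) A₀) (hR' : σ'.Rel r δ (c' * τ₀) A₀')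
    (hw : ∀ (κ : Fin k ⊕ Fin k' → F) (w : E), ∑ j, κ j • (δ (UU σ σ' r A₀ A₀' j) *
      VV σ σ' r (c * τ₀) (c' * τ₀) A₀ A₀' j) = δ w → κ = 0)
    (ι : F⟦X⟧ →ₐ[F] L) (hι : Function.Injective ι) (D : Derivation F L L)
    (hDι : ∀ f, D (ι f) = ι (X * PowerSeries.derivative F f))
    (hK : ∀ v, D v = 0 → ∃ a : F, v = algebraMap F L a)
    (t κ : F) (τ : F⟦X⟧) (A A' : Fin (m + 1) → F⟦X⟧) (hκ : κ ≠ 0) (hτ : τ = C t + C κ * X)
    (hA : Rt r (c * τ) A) (hA' : Rt r (c' * τ) A') :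
    ∃ π π' : Equiv.Perm (Fin (m + 1)), Pt σ σ' r c c' τ (A ∘ π) (A' ∘ π') := by
  have htr : Transcendental F (ι τ) := fun h =>
    (hτ ▸ tr_IND t κ hκ) ((isAlgebraic_algHom_iff ι hι).1 h)
  have hB : Rt r (c * ι τ) (ι ∘ A) := by
    have h := (hITG m r _ _ A hA).2.2.2.2.1 L (ι : F⟦X⟧ →+* L)
    rw [map_mul, map_natCast] at h
    exact h
  have hB' : Rt r (c' * ι τ) (ι ∘ A') := by
    have h := (hITG m r _ _ A' hA').2.2.2.2.1 L (ι : F⟦X⟧ →+* L)
    rw [map_mul, map_natCast] at h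
    exact h
  obtain ⟨φ, π, π', p0, p1, p2⟩ := hLFT F E L m r c c' τ₀ A₀ A₀' (ι τ) _ _ hG htr hB hB'
  have e0 : PowerSeries.derivative F τ = C κ := by
    rw [hτ]
    simp [Derivation.leibniz]
  have hU : ∀ v, D (φ v) = ι X * ι (C κ) * φ (δ v) := fun v => by
    rw [hUNQ F E L m r d c c' τ₀ A₀ A₀' δ D φ hG hD hC hc hc' hδ v, p0, hDι, e0, map_mul]
  have hX : ι X ≠ 0 := fun h => X_ne_zero (hι (h.trans (map_zero ι).symm))
  have hk : ι (C κ) ≠ 0 := fun h => hκ (by
    have h1 := congrArg constantCoeff (hι (h.trans (map_zero ι).symm))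
    simpa using h1)
  have hd : ∀ v f, (φ : E →+* L) v = (ι : F⟦X⟧ →+* L) f →
      (ι : F⟦X⟧ →+* L) (PowerSeries.derivative F f) = ι (C κ) * (φ : E →+* L) (δ v) := by
    intro v f h
    have h : φ v = ι f := h
    have h1 := hU v
    rw [h, hDι, map_mul, mul_assoc] at h1
    exact mul_left_cancel₀ hX h1
  have hT : (φ : E →+* L) (c * τ₀) = (ι : F⟦X⟧ →+* L) (c * τ) := by
    rw [map_mul, map_mul, map_natCast, map_natCast]
    exact congrArg _ p0
  have hT' : (φ : E →+* L) (c' * τ₀) = (ι : F⟦X⟧ →+* L) (c' * τ) := by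
    rw [map_mul, map_mul, map_natCast, map_natCast]
    exact congrArg _ p0
  have q1 : ∀ s, (φ : E →+* L) (A₀ s) = (ι : F⟦X⟧ →+* L) ((A ∘ π) s) := p1
  have q2 : ∀ s, (φ : E →+* L) (A₀' s) = (ι : F⟦X⟧ →+* L) ((A' ∘ π') s) := p2
  refine ⟨π, π', rel_STR σ r _ _ hι δ _ _ hd _ _ _ _ hT q1 hR,
    rel_STR σ' r _ _ hι δ _ _ hd _ _ _ _ hT' q2 hR', ?_⟩
  have u1 : ∀ j, (φ : E →+* L) (UU σ σ' r A₀ A₀' j) =
      (ι : F⟦X⟧ →+* L) (UU σ σ' r (A ∘ π) (A' ∘ π') j) := by
    rintro (j | j)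
    · exact uu_STR r _ _ _ _ q1 _
    · exact uu_STR r _ _ _ _ q2 _
  have u2 : ∀ j, (φ : E →+* L) (VV σ σ' r (c * τ₀) (c' * τ₀) A₀ A₀' j) =
      (ι : F⟦X⟧ →+* L) (VV σ σ' r (c * τ) (c' * τ) (A ∘ π) (A' ∘ π') j) := by
    rintro (j | j)
    · exact vv_STR r _ _ _ _ _ _ hT q1 _
    · exact vv_STR r _ _ _ _ _ _ hT' q2 _
  have hI := ind_STR hOST F E L (Fin k ⊕ Fin k') δ D φ _ (mul_ne_zero hX hk) hU hK τ₀
    (p0 ▸ htr) _ (fun j => ι (lgs (UU σ σ' r (A ∘ π) (A' ∘ π') j)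
      (VV σ σ' r (c * τ) (c' * τ) (A ∘ π) (A' ∘ π') j))) (fun j => by
      have h1 : ι (PowerSeries.derivative F _) = ι (C κ) * φ (δ _) := hd _ _ (u1 j)
      have h2 : φ _ = ι _ := u2 j
      rw [hDι, dlg_IND, map_mul, map_mul, map_mul, h1, h2]
      ring) hw
  refine AlgebraicIndependent.of_comp ι ?_
  have h4 : (ι ∘ fun o : Option (Fin k ⊕ Fin k') => o.elim τ fun j =>
      lgs (UU σ σ' r (A ∘ π) (A' ∘ π') j) (VV σ σ' r (c * τ) (c' * τ) (A ∘ π) (A' ∘ π') j)) =
      fun o : Option (Fin k ⊕ Fin k') => o.elim (φ τ₀) fun j =>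
        ι (lgs (UU σ σ' r (A ∘ π) (A' ∘ π') j)
          (VV σ σ' r (c * τ) (c' * τ) (A ∘ π) (A' ∘ π') j)) :=
    funext fun o => by
      cases o
      · exact p0.symm
      · rfl
  rw [h4]
  exact hI

theorem STR_pf (hITG : ITG_st) (hLAU : LAU_st) (hEXG : EXG_st) (hLFT : LFT_st) (hUNQ : UNQ_st)
    (hSTA : STA_st) (hOST : OST_st) : STR_st := by
  intro F _ _ m r d c c' hr hD hC hc hc'
  obtain ⟨E, _, _, δ, τ₀, A₀, A₀', φ₀, hG, hδ, h0, o1, o2⟩ := hEXG F m r d c c' hr hD hC hc hc'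
  obtain ⟨k, k', σ, σ', s1, s2, s3, s4, s5, s6, s7⟩ :=
    hSTA F E m r d c c' τ₀ A₀ A₀' δ φ₀ hG hD hC hc hc' hδ h0 o1 o2
  refine ⟨k, k', σ, σ', s1, s2, s3, s4, fun t κ τ A A' hκ hτ hA hA' => ?_⟩
  obtain ⟨δ', -, -, l3, l4, -⟩ := hLAU F
  obtain ⟨D, hDd⟩ := der_INF F (LaurentSeries F) δ' (map_add δ')
    (fun x y => by simpa only [smul_eq_mul] using δ'.leibniz x y) δ'.map_algebraMap
  exact pt_STR hITG hLFT hUNQ hOST F E (LaurentSeries F) m r d c c' τ₀ A₀ A₀' δ hG hD hC hc hc' hδ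
    k k' σ σ' s5 s6 s7 ⟨HahnSeries.ofPowerSeries ℤ F, fun _ => rfl⟩
    HahnSeries.ofPowerSeries_injective D (fun f => (hDd _).trans (l3 f))
    (fun v h => l4 v ((hDd v).symm.trans h)) t κ τ A A' hκ hτ hA hA'

end Pool.Agent.MP_3e91a1_nt.GN

end
end

section

/-! A function in both rings of roots is a polynomial in the parameter. -/

set_option autoImplicit false

open Finset Polynomial

namespace Pool.Agent.MP_3e91a1_nt.FM

open TR GN

section

variable {F E : Type} [Field F] [Field E] [Algebra F E]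

theorem stab_LDF (hITF : ITF_st) {f : P2} {n : ℕ} {d : ℤ[X]} {c : ℕ} {τ : E}
    {A : Fin n → E} {δ : Derivation F E E} (hA : Rf f (c * τ) A) (hd : IsE f n d)
    (hδ : δ τ = 1) (w : E) (hw : w ∈ Algebra.adjoin F (insert τ (Set.range A))) :
    aeval ((c : E) * τ) d * δ w ∈ Algebra.adjoin F (insert τ (Set.range A)) := by
  have hm : ∀ s, A s ∈ Algebra.adjoin F (insert τ (Set.range A)) := fun s =>
    Algebra.subset_adjoin (Set.mem_insert_of_mem _ ⟨s, rfl⟩)
  have ht : (c : E) * τ ∈ Algebra.adjoin F (insert τ (Set.range A)) :=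
    mul_mem (natCast_mem _ _) (Algebra.subset_adjoin (Set.mem_insert _ _))
  have hf : ∀ s, fd A s ∈ Algebra.adjoin F (insert τ (Set.range A)) := fun s =>
    prod_mem fun s' _ => sub_mem (hm s) (hm s')
  rw [← hd E _ A hA]
  induction hw using Algebra.adjoin_induction with
  | mem x hx =>
    rcases hx with rfl | ⟨s, rfl⟩
    · rw [hδ, mul_one]
      exact prod_mem fun s _ => hf s
    · rw [← prod_erase_mul _ _ (mem_univ s), mul_assoc,
        (hITF.2.2.2.2 f n E _ A hA).2.2.2.2.2 F δ s, δ.leibniz, hδ, δ.map_natCast, smul_zero,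
        add_zero, smul_eq_mul, mul_one]
      exact mul_mem (prod_mem fun s _ => hf s) (mul_mem (neg_mem
        (hITF.2.2.2.1 F E _ _ _ _ ht (hm s))) (natCast_mem _ _))
  | algebraMap a =>
    rw [δ.map_algebraMap, mul_zero]
    exact zero_mem _
  | add x y _ _ hx hy =>
    rw [map_add, mul_add]
    exact add_mem hx hy
  | mul x y hx' hy' hx hy =>
    rw [δ.leibniz, smul_eq_mul, smul_eq_mul, mul_add, mul_left_comm _ x, mul_left_comm _ y]
    exact add_mem (mul_mem hx' hy) (mul_mem hy' hx)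

theorem int_LDF (hITF : ITF_st) {f : P2} {n c : ℕ} {τ : E} {A : Fin n → E}
    (hA : Rf f (c * τ) A) (w : E) (hw : w ∈ Algebra.adjoin F (insert τ (Set.range A))) :
    IsIntegral (Algebra.adjoin F {τ}) w := by
  have ht : τ ∈ Algebra.adjoin F {τ} := Algebra.subset_adjoin rfl
  have h : Algebra.adjoin F (insert τ (Set.range A)) ≤
      (integralClosure (Algebra.adjoin F {τ}) E).restrictScalars F := by
    refine Algebra.adjoin_le ?_
    rintro x (rfl | ⟨s, rfl⟩)
    · exact isIntegral_algebraMap (x := (⟨x, ht⟩ : Algebra.adjoin F {x}))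
    · have e : (sp f ((c : Algebra.adjoin F {τ}) * ⟨τ, ht⟩)).map
          (algebraMap (Algebra.adjoin F {τ}) E) = ∏ s, (X - C (A s)) := by
        rw [(hITF.1 _ E (algebraMap (Algebra.adjoin F {τ}) E) f _ 0).1, map_mul, map_natCast]
        exact hA.symm
      refine ⟨sp f (c * ⟨τ, ht⟩), monic_of_injective (f := algebraMap _ E) Subtype.val_injective
        (e ▸ monic_prod_of_monic _ _ fun i _ => monic_X_sub_C _), ?_⟩
      rw [← eval_map, e, eval_prod]
      exact prod_eq_zero (mem_univ s) (by simp)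
  exact h hw

theorem coef_LDF [CharZero F] {δ : Derivation F E E}
    {δ' : Derivation F (LaurentSeries F) (LaurentSeries F)} (hL : Lau δ')
    (φ : E →ₐ[F] LaurentSeries F) {t : LaurentSeries F} (ht : t.order < 0)
    (h : ∀ v, δ' (φ v) = δ' t * φ (δ v)) (v : E) (n : ℕ) (k : ℤ)
    (hk : k < (φ v).order + n) : (φ (δ^[n] v)).coeff k = 0 := by
  have t0 : t ≠ 0 := fun e => by simp [e] at ht
  have u1 : (δ' t).coeff t.order ≠ 0 := by
    rw [hL.1]
    exact mul_ne_zero (Int.cast_ne_zero.2 ht.ne) (HahnSeries.coeff_order_eq_zero.not.2 t0)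
  have u0 : δ' t ≠ 0 := fun e => u1 (by rw [e]; rfl)
  have u2 := HahnSeries.order_le_of_coeff_ne_zero u1
  induction n generalizing k with
  | zero => exact HahnSeries.coeff_eq_zero_of_lt_order (by simpa using hk)
  | succ n ih =>
    rw [Function.iterate_succ_apply']
    by_cases hx : φ (δ (δ^[n] v)) = 0
    · rw [hx]; rfl
    refine HahnSeries.coeff_eq_zero_of_lt_order (hk.trans_le ?_)
    have h1 := HahnSeries.order_mul u0 hx
    have h2 := HahnSeries.coeff_order_eq_zero.not.2 (mul_ne_zero u0 hx)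
    rw [← h] at h1 h2
    rw [hL.1] at h2
    have h3 := not_lt.1 fun e => right_ne_zero_of_mul h2 (ih _ e)
    push_cast
    omega

end

theorem LDF_pf (hITF : ITF_st) (hLAU : LAU_st) (hFNF : FNF_st) (hUQF : UQF_st) (hLIF : LIF_st) :
    LDF_st := by
  intro F E _ _ _ _ f m d c c' τ A A' δ φ₀ v hG hd hC hc hc' hδ h0 h1 h2
  obtain ⟨δ', hL⟩ := hLAU F
  obtain ⟨δ₂, e2⟩ := tr_LND (F := F) δ'.toLinearMap.toAddMonoidHom δ'.map_algebraMap δ'.leibniz
  have hU : ∀ φ : E →ₐ[F] LaurentSeries F, φ τ = φ₀ τ →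
      ∀ v, δ' (φ v) = δ' (φ₀ τ) * φ (δ v) := fun φ hφ v => by
    have := hUQF F E (LaurentSeries F) f m d c c' τ A A' δ δ₂ φ hG hd hC hc hc' hδ v
    rwa [hφ, e2, e2] at this
  have := hFNF F E _ f m c c' τ A A' (φ₀ τ) hG
  obtain ⟨n, hn⟩ := Finite.exists_le fun φ : {φ : E →ₐ[F] LaurentSeries F // φ τ = φ₀ τ} =>
    (-(φ.1 v).order).toNat
  have hm : ∀ P : F[X], aeval τ P ∈ Algebra.adjoin F {τ} := fun P =>
    aeval_mem_adjoin_singleton F τ
  obtain ⟨N, hN⟩ := gam_LND _ δ _ (le_LND τ _ (aev_LND (F := F) d c τ ▸ hm _))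
    (stab_LDF hITF hG.2.1 hd hδ) v h1 n
  obtain ⟨N', hN'⟩ := gam_LND _ δ _ (le_LND τ _ (aev_LND (F := F) d c' τ ▸ hm _))
    (stab_LDF hITF hG.2.2.1 hd hδ) v h2 n
  obtain ⟨a, b, hab⟩ := IsCoprime.pow (m := N) (n := N') hC
  have e1 := congrArg (aeval τ) hab
  rw [map_add, map_mul, map_mul, map_pow, map_pow, aev_LND, aev_LND, map_one] at e1
  have hI : IsIntegral (Algebra.adjoin F {τ}) (δ^[n] v) := by
    rw [← one_mul (δ^[n] v), ← e1, add_mul, mul_assoc, mul_assoc]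
    exact (int_LDF hITF hG.2.1 _ (mul_mem (le_LND τ _ (hm a)) hN)).add
      (int_LDF hITF hG.2.2.1 _ (mul_mem (le_LND τ _ (hm b)) hN'))
  obtain ⟨x, hx⟩ := hLIF F E f m c c' τ A A' φ₀ _ hG h0 hI fun φ hφ k hk =>
    coef_LDF hL φ h0 (hU φ hφ) v n k (by have := hn ⟨φ, hφ⟩; simp only at this; omega)
  refine down_LND hδ (fun w hw => ?_) n v (hx ▸ Subalgebra.algebraMap_mem _ _)
  obtain ⟨y, hy⟩ := hL.2.2.2.1 (φ₀ w) (by rw [hU φ₀ rfl, hw, map_zero, mul_zero])
  exact ⟨y, φ₀.injective (hy.trans (φ₀.commutes y).symm)⟩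

end Pool.Agent.MP_3e91a1_nt.FM

end

section

/-! The number of zeros of a function on the curve, for arbitrary families. -/

set_option autoImplicit false

open Finset Polynomial

noncomputable section

namespace Pool.Agent.MP_3e91a1_nt.FM

open TR GN

theorem mat_NRF {F : Type} [Field F] {f : P2} {n h c c' : ℕ}
    (hR : ∀ (B : ℕ) (α : Vs n → ℕ), ∑ i, α i ≤ B →
      ∃ u : Fin (h * B + 1) × (Fin n ⊕ Fin n → Fin n) → ℤ,
      ∀ (S : Type) [CommRing S] (τ : S) (A A' : Fin n → S), Rf f (c * τ) A → Rf f (c' * τ) A' →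
        ∏ i, gv τ A A' i ^ α i =
          ∑ q, (u q : S) * (τ ^ (q.1 : ℕ) * ∏ i, Sum.elim A A' i ^ (q.2 i : ℕ)))
    (W : MvPolynomial (Vs n) F) :
    ∃ M : Matrix (Fin n ⊕ Fin n → Fin n)
        (Fin n ⊕ Fin n → Fin n) F[X],
      (∀ i j, (M i j).natDegree ≤ h * (W.totalDegree + (n + n) * n)) ∧
      ∀ (S : Type) [CommRing S] [Algebra F S] (τ : S) (A A' : Fin n → S),
        Rf f (c * τ) A → Rf f (c' * τ) A' → ∀ ε,
        MvPolynomial.aeval (gv τ A A') W * ∏ i, Sum.elim A A' i ^ (ε i : ℕ) =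
          ∑ ε', aeval τ (M ε ε') * ∏ i, Sum.elim A A' i ^ (ε' i : ℕ) := by
  obtain ⟨B, hB⟩ : ∃ B, B = W.totalDegree + (n + n) * n := ⟨_, rfl⟩
  rw [← hB]
  have h0 : ∀ β : Vs n → ℕ,
      ∃ u : Fin (h * B + 1) × (Fin n ⊕ Fin n → Fin n) → ℤ, ∑ i, β i ≤ B →
      ∀ (S : Type) [CommRing S] (τ : S) (A A' : Fin n → S), Rf f (c * τ) A →
        Rf f (c' * τ) A' → ∏ i, gv τ A A' i ^ β i =
        ∑ q, (u q : S) * (τ ^ (q.1 : ℕ) * ∏ i, Sum.elim A A' i ^ (q.2 i : ℕ)) := by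
    intro β
    by_cases hβ : ∑ i, β i ≤ B
    · exact (hR B β hβ).imp fun u hu _ => hu
    · exact ⟨0, fun h' => absurd h' hβ⟩
  choose u hu using h0
  let β : (Vs n →₀ ℕ) → (Fin n ⊕ Fin n → Fin n) → Vs n → ℕ := fun α ε i =>
    α i + i.elim 0 fun j => (ε j : ℕ)
  refine ⟨fun ε ε' => ∑ α ∈ W.support, ∑ e : Fin (h * B + 1),
    monomial e (W.coeff α * (u (β α ε) (e, ε') : F)), fun ε ε' => ?_,
    fun S _ _ τ A A' hA hA' ε => ?_⟩
  · refine natDegree_sum_le_of_forall_le _ _ fun α _ =>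
      natDegree_sum_le_of_forall_le _ _ fun e _ => (natDegree_monomial_le _).trans ?_
    exact Nat.le_of_lt_succ e.2
  · have h1 : ∀ α ∈ W.support, ∑ i, β α ε i ≤ B := by
      intro α hα
      have h2 := MvPolynomial.le_totalDegree hα
      rw [Finsupp.sum_fintype _ _ fun _ => rfl] at h2
      have h3 : ∑ j, (ε j : ℕ) ≤ (n + n) * n := by
        have := sum_le_card_nsmul univ (fun j => (ε j : ℕ)) n fun j _ => (ε j).2.le
        rwa [card_univ, Fintype.card_sum, Fintype.card_fin, smul_eq_mul] at this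
      simp only [β]
      rw [sum_add_distrib, Fintype.sum_option (f := fun i => Option.elim i 0 fun j => (ε j : ℕ))]
      simp only [Option.elim_none, Option.elim_some]
      omega
    have h2 : ∀ α : Vs n →₀ ℕ, (∏ i, gv τ A A' i ^ α i) * ∏ i, Sum.elim A A' i ^ (ε i : ℕ) =
        ∏ i, gv τ A A' i ^ β α ε i := by
      intro α
      simp only [β, pow_add]
      rw [prod_mul_distrib,
        Fintype.prod_option (f := fun i => gv τ A A' i ^ Option.elim i 0 fun j => (ε j : ℕ))]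
      simp only [gv, Option.elim_none, Option.elim_some, pow_zero, one_mul]
    rw [MvPolynomial.aeval_def, MvPolynomial.eval₂_eq', sum_mul]
    simp only [map_sum, sum_mul, aeval_monomial]
    rw [sum_comm]
    refine sum_congr rfl fun α hα => ?_
    rw [mul_assoc, h2, hu _ (h1 α hα) S τ A A' hA hA', mul_sum, Fintype.sum_prod_type, sum_comm]
    refine sum_congr rfl fun ε' _ => sum_congr rfl fun e _ => ?_
    rw [map_mul, map_intCast]
    ring

theorem NRF_pf (hRDF : RDF_st) : NRF_st := by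
  intro f n c c' hf hn
  obtain ⟨h, hR⟩ := hRDF f n
  refine ⟨Fintype.card (Fin n ⊕ Fin n → Fin n) * h + (n + n) * n, ?_⟩
  intro F P _ _ N t κ τ A A' W Q ht hκ h0 hA hA' hW
  classical
  obtain ⟨M, hM, hm⟩ := mat_NRF (fun B α hα => hR c c' B α hα hf hn) W
  obtain ⟨q, q0, q1, q2⟩ := eig_NRM M _ hM
  have h1 : ∀ s ∈ Q, (X - C (t s)) ^ N ∣ q := by
    intro s hs
    refine dvd_NRM (t s) (κ s) (hκ s) q N ?_
    rw [← h0 s]
    refine (hW s hs).2.trans (q2 (PowerSeries F) (aeval (τ s)).toRingHom _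
      (fun ε => ∏ i, Sum.elim (A s) (A' s) i ^ (ε i : ℕ)) (hW s hs).1 (fun h => ?_)
      (hm _ (τ s) (A s) (A' s) (hA s) (hA' s)))
    simpa using congrFun h fun i => ⟨0, Sum.rec Fin.pos Fin.pos i⟩
  have h2 : ∏ s ∈ Q, (X - C (t s)) ^ N ∣ q :=
    Finset.prod_dvd_of_coprime (fun s _ s' _ h => (pairwise_coprime_X_sub_C ht h).pow) h1
  have h3 := natDegree_le_of_dvd h2 q0
  rw [natDegree_prod_of_monic _ _ fun s _ => (monic_X_sub_C _).pow _] at h3
  simp only [natDegree_pow, natDegree_X_sub_C, mul_one, sum_const, smul_eq_mul] at h3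
  exact (h3.trans q1).trans ((mul_assoc _ _ _).ge.trans <| Nat.mul_le_mul (Nat.le_add_right _ _)
    (Nat.add_le_add_left (Nat.le_add_left _ _) _))

end Pool.Agent.MP_3e91a1_nt.FM

end
end

section

/-! The selection at the points, for arbitrary families. -/

set_option autoImplicit false

open Finset PowerSeries

noncomputable section

namespace Pool.Agent.MP_3e91a1_nt.FM

open TR GN

theorem ev_SRF (hITF : ITF_st) {S S' L : Type} [CommRing S] [CommRing S'] [CommRing L]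
    (φ : S →+* L) (ι : S' →+* L) (q : P2) {T a : S} {T' b : S'} (hT : φ T = ι T')
    (h : φ a = ι b) : φ (ev q T a) = ι (ev q T' b) := by
  rw [(hITF.1 S L φ q T a).2, (hITF.1 S' L ι q T' b).2, hT, h]

theorem rel_SRF (hITF : ITF_st) {n m k : ℕ} (σ : Slc n m k) (Φ : Fam m) {S S' L : Type}
    [CommRing S] [CommRing S'] [CommRing L] (φ : S →+* L) (ι : S' →+* L)
    (hι : Function.Injective ι)
    (δ : S → S) (δ' : S' → S') (g : L) (hd : ∀ v f, φ v = ι f → ι (δ' f) = g * φ (δ v))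
    (T : S) (T' : S') (A : Fin n → S) (B : Fin n → S')
    (hT : φ T = ι T') (h : ∀ s, φ (A s) = ι (B s)) (hR : σ.Rel Φ δ T A) :
    σ.Rel Φ δ' T' B := by
  have hu : ∀ j, φ (Φ.u T A j) = ι (Φ.u T' B j) := fun j => ev_SRF hITF φ ι _ hT (h _)
  have hv : ∀ j, φ (Φ.v T A j) = ι (Φ.v T' B j) := fun j => ev_SRF hITF φ ι _ hT (h _)
  intro s i
  apply hι
  have h1 := congrArg φ (hR s i)
  simp only [map_mul, map_sum, map_natCast, map_intCast] at h1 ⊢
  simp only [hd _ _ (hu _), ← hv]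
  calc _ = g * ((σ.N : L) * (φ (δ (Φ.u T A (σ.ro s, i))) * φ (Φ.v T A (σ.ro s, i)))) := by
        ring
    _ = _ := by
        rw [h1, Finset.mul_sum]
        exact Finset.sum_congr rfl fun j _ => by ring

theorem pt_SRF (hITF : ITF_st) (hLFF : LFF_st) (hUQF : UQF_st) (hOST : OST_st)
    (F E L : Type) [Field F] [CharZero F] [Field E] [Algebra F E] [Field L] [Algebra F L]
    (m n : ℕ) (Φ : Fam m) (d : Polynomial ℤ) (c c' : ℕ) (τ₀ : E) (A₀ A₀' : Fin n → E)
    (δ : Derivation F E E) (hG : Gf F Φ.f c c' τ₀ A₀ A₀') (hD : IsE Φ.f n d) (hC : Cop F d c c')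
    (hc : 0 < c) (hc' : 0 < c') (hδ : δ τ₀ = 1) (k k' : ℕ) (σ : Slc n m k) (σ' : Slc n m k')
    (hR : σ.Rel Φ δ (c * τ₀) A₀) (hR' : σ'.Rel Φ δ (c' * τ₀) A₀')
    (hw : ∀ (κ : Fin k ⊕ Fin k' → F) (w : E),
      ∑ j, κ j • (δ (Uf σ σ' Φ (c * τ₀) (c' * τ₀) A₀ A₀' j) *
        Vf σ σ' Φ (c * τ₀) (c' * τ₀) A₀ A₀' j) = δ w → κ = 0)
    (ι : F⟦X⟧ →ₐ[F] L) (hι : Function.Injective ι) (D : Derivation F L L)
    (hDι : ∀ f, D (ι f) = ι (X * PowerSeries.derivative F f))
    (hK : ∀ v, D v = 0 → ∃ a : F, v = algebraMap F L a)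
    (t κ : F) (τ : F⟦X⟧) (A A' : Fin n → F⟦X⟧) (hκ : κ ≠ 0) (hτ : τ = C t + C κ * X)
    (hA : Rf Φ.f (c * τ) A) (hA' : Rf Φ.f (c' * τ) A') :
    ∃ π π' : Equiv.Perm (Fin n), Pf σ σ' Φ c c' τ (A ∘ π) (A' ∘ π') := by
  have htr : Transcendental F (ι τ) := fun h =>
    (hτ ▸ tr_IND t κ hκ) ((isAlgebraic_algHom_iff ι hι).1 h)
  have hB : Rf Φ.f (c * ι τ) (ι ∘ A) := by
    have h := (hITF.2.2.2.2 Φ.f n _ _ A hA).2.2.2.1 L (ι : F⟦X⟧ →+* L)
    rw [map_mul, map_natCast] at h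
    exact h
  have hB' : Rf Φ.f (c' * ι τ) (ι ∘ A') := by
    have h := (hITF.2.2.2.2 Φ.f n _ _ A' hA').2.2.2.1 L (ι : F⟦X⟧ →+* L)
    rw [map_mul, map_natCast] at h
    exact h
  obtain ⟨φ, π, π', p0, p1, p2⟩ := hLFF F E L Φ.f n c c' τ₀ A₀ A₀' (ι τ) _ _ hG htr hB hB'
  have e0 : PowerSeries.derivative F τ = C κ := by
    rw [hτ]
    simp [Derivation.leibniz]
  have hU : ∀ v, D (φ v) = ι X * ι (C κ) * φ (δ v) := fun v => by
    rw [hUQF F E L Φ.f n d c c' τ₀ A₀ A₀' δ D φ hG hD hC hc hc' hδ v, p0, hDι, e0, map_mul]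
  have hX : ι X ≠ 0 := fun h => X_ne_zero (hι (h.trans (map_zero ι).symm))
  have hk : ι (C κ) ≠ 0 := fun h => hκ (by
    have h1 := congrArg constantCoeff (hι (h.trans (map_zero ι).symm))
    simpa using h1)
  have hd : ∀ v f, (φ : E →+* L) v = (ι : F⟦X⟧ →+* L) f →
      (ι : F⟦X⟧ →+* L) (PowerSeries.derivative F f) = ι (C κ) * (φ : E →+* L) (δ v) := by
    intro v f h
    have h : φ v = ι f := h
    have h1 := hU v
    rw [h, hDι, map_mul, mul_assoc] at h1
    exact mul_left_cancel₀ hX h1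
  have hT : (φ : E →+* L) (c * τ₀) = (ι : F⟦X⟧ →+* L) (c * τ) := by
    rw [map_mul, map_mul, map_natCast, map_natCast]
    exact congrArg _ p0
  have hT' : (φ : E →+* L) (c' * τ₀) = (ι : F⟦X⟧ →+* L) (c' * τ) := by
    rw [map_mul, map_mul, map_natCast, map_natCast]
    exact congrArg _ p0
  have q1 : ∀ s, (φ : E →+* L) (A₀ s) = (ι : F⟦X⟧ →+* L) ((A ∘ π) s) := p1
  have q2 : ∀ s, (φ : E →+* L) (A₀' s) = (ι : F⟦X⟧ →+* L) ((A' ∘ π') s) := p2
  refine ⟨π, π', rel_SRF hITF σ Φ _ _ hι δ _ _ hd _ _ _ _ hT q1 hR,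
    rel_SRF hITF σ' Φ _ _ hι δ _ _ hd _ _ _ _ hT' q2 hR', ?_⟩
  have u1 : ∀ j, (φ : E →+* L) (Uf σ σ' Φ (c * τ₀) (c' * τ₀) A₀ A₀' j) =
      (ι : F⟦X⟧ →+* L) (Uf σ σ' Φ (c * τ) (c' * τ) (A ∘ π) (A' ∘ π') j) := by
    rintro (j | j)
    · exact ev_SRF hITF _ _ _ hT (q1 _)
    · exact ev_SRF hITF _ _ _ hT' (q2 _)
  have u2 : ∀ j, (φ : E →+* L) (Vf σ σ' Φ (c * τ₀) (c' * τ₀) A₀ A₀' j) =
      (ι : F⟦X⟧ →+* L) (Vf σ σ' Φ (c * τ) (c' * τ) (A ∘ π) (A' ∘ π') j) := by
    rintro (j | j)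
    · exact ev_SRF hITF _ _ _ hT (q1 _)
    · exact ev_SRF hITF _ _ _ hT' (q2 _)
  have hI := ind_STR hOST F E L (Fin k ⊕ Fin k') δ D φ _ (mul_ne_zero hX hk) hU hK τ₀
    (p0 ▸ htr) _ (fun j => ι (lgs (Uf σ σ' Φ (c * τ) (c' * τ) (A ∘ π) (A' ∘ π') j)
      (Vf σ σ' Φ (c * τ) (c' * τ) (A ∘ π) (A' ∘ π') j))) (fun j => by
      have h1 : ι (PowerSeries.derivative F _) = ι (C κ) * φ (δ _) := hd _ _ (u1 j)
      have h2 : φ _ = ι _ := u2 j
      rw [hDι, dlg_IND, map_mul, map_mul, map_mul, h1, h2]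
      ring) hw
  refine AlgebraicIndependent.of_comp ι ?_
  have h4 : (ι ∘ fun o : Option (Fin k ⊕ Fin k') => o.elim τ fun j =>
      lgs (Uf σ σ' Φ (c * τ) (c' * τ) (A ∘ π) (A' ∘ π') j)
        (Vf σ σ' Φ (c * τ) (c' * τ) (A ∘ π) (A' ∘ π') j)) =
      fun o : Option (Fin k ⊕ Fin k') => o.elim (φ τ₀) fun j =>
        ι (lgs (Uf σ σ' Φ (c * τ) (c' * τ) (A ∘ π) (A' ∘ π') j)
          (Vf σ σ' Φ (c * τ) (c' * τ) (A ∘ π) (A' ∘ π') j)) :=
    funext fun o => by
      cases o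
      · exact p0.symm
      · rfl
  rw [h4]
  exact hI

theorem SRF_pf (hITF : ITF_st) (hLAU : LAU_st) (hPLB : PLB_st) (hEXA : EXA_st) (hEXB : EXB_st)
    (hLFF : LFF_st) (hUQF : UQF_st) (hSAF : SAF_st) (hOST : OST_st) : SRF_st := by
  intro F _ _ _ m n Φ d c c' hF hO hI hD hC hc hc'
  obtain ⟨E, _, _, τ₀, A₀, A₀', hG, hfin⟩ := hEXA F Φ.f n c c' hO.1 hO.2.1
  obtain ⟨φ₀, h0⟩ := hPLB F E τ₀ hG.1 hfin
  obtain ⟨δ, hδ⟩ := hEXB F E Φ.f n d c c' τ₀ A₀ A₀' φ₀ hG hD hC hc hc' h0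
  obtain ⟨k, k', σ, σ', s1, s2, s3, s4, s5, s6, s7⟩ :=
    hSAF F E m n Φ d c c' τ₀ A₀ A₀' δ φ₀ hF hO hI hG hD hC hc hc' hδ h0
  refine ⟨k, k', σ, σ', s1, s2, s3, s4, fun t κ τ A A' hκ hτ hA hA' => ?_⟩
  obtain ⟨δ', -, -, l3, l4, -⟩ := hLAU F
  obtain ⟨D, hDd⟩ := der_INF F (LaurentSeries F) δ' (map_add δ')
    (fun x y => by simpa only [smul_eq_mul] using δ'.leibniz x y) δ'.map_algebraMap
  exact pt_SRF hITF hLFF hUQF hOST F E (LaurentSeries F) m n Φ d c c' τ₀ A₀ A₀' δ hG hD hC hc hc'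
    hδ k k' σ σ' s5 s6 s7 ⟨HahnSeries.ofPowerSeries ℤ F, fun _ => rfl⟩
    HahnSeries.ofPowerSeries_injective D (fun f => (hDd _).trans (l3 f))
    (fun v h => l4 v ((hDd v).symm.trans h)) t κ τ A A' hκ hτ hA hA'

end Pool.Agent.MP_3e91a1_nt.FM

end
end
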