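import Pool.Agent.Mg.F3e91a1.G3fdd3f
import Pool.Agent.MP_384f6f_nt.AL.Core
import Pool.Agent.Mg.F3e91a1.Gb3cda3
import Pool.Agent.Mg.F3e91a1.Gf1088e
import Pool.Agent.Mg.F3e91a1.Gacd6d4
import Pool.Agent.Mg.F3e91a1.G17e193
import Pool.Agent.Mg.F3e91a1.G4e5013
import Pool.Agent.Mg.F3e91a1.Gd71007
import Pool.Agent.Mg.F3e91a1.G83a210
import Pool.Agent.Mg.F3e91a1.Ga09cd7
import Pool.Agent.Mg.F3e91a1.G3441b9
import Pool.Agent.Mg.F3e91a1.Ge9e02f

set_option linter.all false

section

/-! Few points have many bad primes. -/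

set_option autoImplicit false

open Finset Filter

noncomputable section

namespace Pool.Agent.MP_3e91a1_nt.GN

open Pool.Agent.MP_384f6f_nt.AL

theorem pts_COG {e u C w a g : ℝ} {s K D n R ν : ℕ} (e0 : 0 ≤ e) (h1 : e ≤ 1) (kR : K ≤ R)
    (r0 : 1 ≤ R) (u0 : 0 < u) (a0 : 0 < a) (hg : (ν : ℝ) ≤ g) (hs : C * R ≤ e * s)
    (hC : a * g * w + 2 ≤ C) (hD : (D : ℝ) + g * R + g ≤ w * u) (hn : e * u + a * R ≤ a * n) :
    ν * (R * (D + ν * R) + ν) < (s - K) * (n - R) := by
  have a1 : (s : ℝ) - K ≤ ((s - K : ℕ) : ℝ) := by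
    rw [sub_le_iff_le_add]
    exact_mod_cast le_tsub_add
  have a2 : (n : ℝ) - R ≤ ((n - R : ℕ) : ℝ) := by
    rw [sub_le_iff_le_add]
    exact_mod_cast le_tsub_add
  have k1 : (K : ℝ) ≤ R := by exact_mod_cast kR
  have r1 : (1 : ℝ) ≤ R := by exact_mod_cast r0
  have g0 : 0 ≤ g := (Nat.cast_nonneg ν).trans hg
  have a4 : (a * g * w + 1) * (R : ℝ) ≤ e * ((s - K : ℕ) : ℝ) := by
    have a6 := mul_le_mul_of_nonneg_left a1 e0
    have a7 := mul_le_mul_of_nonneg_right h1 (Nat.cast_nonneg (α := ℝ) K)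
    have a8 := mul_le_mul_of_nonneg_right hC (Nat.cast_nonneg (α := ℝ) R)
    linarith
  have a5 : (ν : ℝ) * (R * (D + ν * R) + ν) ≤ g * (R * (w * u)) := by
    refine le_trans ?_ (mul_le_mul_of_nonneg_left
      (mul_le_mul_of_nonneg_left hD (Nat.cast_nonneg (α := ℝ) R)) g0)
    have b1 : (R : ℝ) * (D + ν * R) + ν ≤ R * (D + g * R) + R * g := by
      have b2 := mul_le_mul_of_nonneg_right r1 g0
      gcongr
      linarith
    refine mul_le_mul hg (by linarith) (by positivity) g0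
  have a6 := mul_le_mul_of_nonneg_left
    (by linarith [mul_le_mul_of_nonneg_left a2 a0.le] : e * u ≤ a * ((n - R : ℕ) : ℝ))
    (Nat.cast_nonneg (α := ℝ) (s - K))
  have a7 := mul_le_mul_of_nonneg_right a4 u0.le
  have a8 : 0 < (R : ℝ) * u := by positivity
  have a9 : (ν : ℝ) * (R * (D + ν * R) + ν) < ((s - K : ℕ) : ℝ) * ((n - R : ℕ) : ℝ) :=
    lt_of_mul_lt_mul_left (by linarith [mul_le_mul_of_nonneg_left a5 a0.le]) a0.le
  exact_mod_cast a9

open Classical in
theorem COG_pf : COG_st := by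
  intro k E bad hk hDET
  have E0 : (0 : ℝ) ≤ E := Nat.cast_nonneg E
  have κ1 : (1 : ℝ) ≤ k := by exact_mod_cast hk
  obtain ⟨g, g1, g2⟩ : ∃ g : ℝ, 1 ≤ g ∧ (E : ℝ) ≤ g := ⟨E + 1, by linarith, by linarith⟩
  obtain ⟨C, C1, C2, C3, C4⟩ : ∃ C : ℝ, 2000 * k * g * (8 * g + 1) + 2 ≤ C ∧ 80 * g * E ≤ C ∧
      E ≤ C ∧ 32 * g ≤ C := by
    have b1 : (0 : ℝ) ≤ 2000 * k * g * (8 * g + 1) := by positivity
    have b2 : (0 : ℝ) ≤ 80 * g * E := by positivity
    exact ⟨2000 * k * g * (8 * g + 1) + 2 + 80 * g * E + 32 * g, by linarith, by linarith,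
      by linarith, by linarith⟩
  refine ⟨C, by linarith, fun η B K h0 h1 hB hK => ?_⟩
  have m1 : (2 : ℝ) ≤ B := by exact_mod_cast hB
  have l1 : 1 / 2 ≤ Real.log B := by
    have b1 : Real.log 2 ≤ Real.log B := Real.log_le_log (by norm_num) m1
    have := Real.log_two_gt_d9
    linarith
  have e2 : η ^ 2 ≤ η := by nlinarith
  have k0 : (0 : ℝ) ≤ K := Nat.cast_nonneg K
  have k1 : 16 * g ≤ η * K := by
    linarith [mul_le_mul_of_nonneg_right e2 k0, mul_le_mul_of_nonneg_left l1 (by linarith : 0 ≤ C)]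
  have k2 : (16 : ℝ) ≤ K := by linarith [mul_le_mul_of_nonneg_right h1 k0]
  have k3 : (0 : ℝ) < K := by linarith
  have k4 : 80 * g * E * Real.log B ≤ η ^ 2 * K :=
    (mul_le_mul_of_nonneg_right C2 (by linarith)).trans hK
  have k5 : E * Real.log B ≤ K + 1 := by
    linarith [mul_le_mul_of_nonneg_right C3 (by linarith : 0 ≤ Real.log B),
      mul_le_mul_of_nonneg_right (e2.trans h1) k0]
  have W0 : (0 : ℝ) < (K + 1) ^ (k + 1) := by positivity
  have V0 : (0 : ℝ) ≤ (K + 1) ^ (k - 1) := by positivity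
  have gW : ∀ X Y : ℝ, 0 ≤ X → g * X ≤ Y * (K + 1) ^ 2 →
      E * X * (K + 1) ^ (k - 1) ≤ Y * (K + 1) ^ (k + 1) := fun X Y hX h =>
    calc _ ≤ g * X * (K + 1) ^ (k - 1) := by gcongr
      _ ≤ Y * (K + 1) ^ 2 * (K + 1) ^ (k - 1) := mul_le_mul_of_nonneg_right h V0
      _ = _ := by rw [mul_assoc, ← pow_add, show 2 + (k - 1) = k + 1 by omega]
  have kR : K ≤ (K + 1) ^ (2 * k + 1) := (Nat.le_succ K).trans (Nat.le_self_pow (by omega) _)
  have r0 : 1 ≤ (K + 1) ^ (2 * k + 1) := Nat.one_le_pow _ _ K.succ_pos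
  replace hDET := fun D n L P Q y => hDET B D K n L P Q y
  rw [show ((K : ℝ) + 1) ^ (2 * k + 1) = (((K + 1) ^ (2 * k + 1) : ℕ) : ℝ) by push_cast; rfl]
  generalize (K + 1) ^ (2 * k + 1) = R at kR r0 hDET ⊢
  generalize ((K : ℝ) + 1) ^ (k + 1) = W at W0 gW hDET
  generalize ((K : ℝ) + 1) ^ (k - 1) = V at V0 gW hDET
  filter_upwards [ev_lin (1 + g * R + g) (c := 1 / (η * K)) (by positivity),
    ev_lin (1 + R + E) (c := η / (1000 * (k * (K + 1)))) (by positivity),
    ev_lin (Real.log ((8 * g / η + 1) * W) + E * Real.log B + K * (E * Real.log B))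
      (c := η / 20) (by positivity),
    ev_log (c := η / (20 * (k * K + 1))) (by positivity), eventually_ge_atTop 1]
    with x E1 E2 E3 E4 E5 P hP hy
  by_contra hs
  push Not at hs
  have x1 : (1 : ℝ) ≤ x := by exact_mod_cast E5
  obtain ⟨u, hu⟩ : ∃ u : ℝ, u = x / (η * K) := ⟨_, rfl⟩
  obtain ⟨v, hv⟩ : ∃ v : ℝ, v = η * x / (k * (K + 1)) := ⟨_, rfl⟩
  have u0 : 0 < u := by rw [hu]; positivity
  have v0 : 0 < v := by rw [hv]; positivity
  have ux : η * K * u = x := by rw [hu]; field_simp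
  have vx : v * (k * (K + 1)) = η * x := by rw [hv]; field_simp
  replace E1 : 1 + g * R + g ≤ u := E1.trans (le_of_eq (by rw [hu]; ring))
  replace E2 : 1 + R + E ≤ v / 1000 := E2.trans (le_of_eq (by rw [hv]; field_simp))
  obtain ⟨D, D1, D2⟩ : ∃ D : ℕ, 8 * g * u ≤ D ∧ (D : ℝ) ≤ 8 * g * u + 1 :=
    ⟨⌈8 * g * u⌉₊, Nat.le_ceil _, (Nat.ceil_lt_add_one (by positivity)).le⟩
  obtain ⟨n, n1, n2⟩ : ∃ n : ℕ, (n : ℝ) ≤ v / 500 ∧ v / 500 ≤ n + 1 :=
    ⟨⌊v / 500⌋₊, Nat.floor_le (by positivity), (Nat.lt_floor_add_one _).le⟩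
  have q0 : (1 : ℝ) ≤ R := by exact_mod_cast r0
  have n3 : (1 : ℝ) ≤ n := by linarith
  have n6 : n * (k * (K + 1)) ≤ η * x / 500 := by
    linarith [mul_le_mul_of_nonneg_right n1 (by positivity : (0 : ℝ) ≤ k * (K + 1))]
  have n5 : n * (K + 1) ≤ η * x / 500 := by
    linarith [mul_le_mul_of_nonneg_right κ1 (by positivity : (0 : ℝ) ≤ n * (K + 1))]
  have n7 : E ≤ n := by
    have : (E : ℝ) ≤ n := by linarith
    exact_mod_cast this
  have c12 : 0 < η * x := by positivity
  have c10 : (n : ℝ) * 16 ≤ η * x / 500 := by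
    linarith [mul_le_mul_of_nonneg_left k2 (Nat.cast_nonneg (α := ℝ) n)]
  have n4 : (n : ℝ) ≤ x := by linarith [mul_le_mul_of_nonneg_right h1 (Nat.cast_nonneg (α := ℝ) x)]
  have uv : η ^ 2 * u / 2 ≤ k * v := by
    have b0 : 0 ≤ η ^ 2 * u := by positivity
    have b1 := mul_le_mul_of_nonneg_left k2 b0
    have b2 : η ^ 2 * u / 2 * (K + 1) ≤ k * v * (K + 1) := by
      have b3 : v * (k * (K + 1)) = η ^ 2 * u * K := by rw [vx, ← ux]; ring
      linarith
    exact le_of_mul_le_mul_right b2 (by linarith)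
  have n8 := mul_le_mul_of_nonneg_left (by linarith : v / 1000 + R ≤ n) (by linarith : (0 : ℝ) ≤ k)
  have hz := pts_COG (e := η ^ 2) (u := u) (C := C) (w := 8 * g + 1) (a := 2000 * k) (g := g)
    (s := P.card) (K := K) (D := D) (n := n) (R := R) (ν := E) (sq_nonneg η) (e2.trans h1) kR r0
    u0 (by positivity) g2 hs C1 (by linarith) (by linarith)
  have hi := hDET D n (Nat.lcmUpto n) P ((Ioc n x).filter Nat.Prime)
    (η * x - 7 / 5 * n) hB hP (Nat.lcmUpto_ne_zero n)
    (fun k k1 k2 => Finset.dvd_lcm (f := id) (mem_Icc.2 ⟨k1, k2.le⟩)) hz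
    (fun p hp => ⟨(mem_filter.1 hp).2, (mem_Ioc.1 (mem_filter.1 hp).1).1.le,
      n7.trans_lt (mem_Ioc.1 (mem_filter.1 hp).1).1⟩) (by linarith)
    fun T ha => by
      have b1 := sum_union_inter (s₁ := ((Ioc n x).filter Nat.Prime).filter (bad T))
        (s₂ := (Ioc 0 n).filter Nat.Prime) (f := fun p : ℕ => Real.log p)
      have b2 := sum_nonneg (s := (((Ioc n x).filter Nat.Prime).filter (bad T)) ∩
        (Ioc 0 n).filter Nat.Prime) fun p _ => Real.log_natCast_nonneg p
      have b3 := (hy T ha).trans (sum_le_sum_of_subset_of_nonneg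
        (t := (((Ioc n x).filter Nat.Prime).filter (bad T)) ∪ (Ioc 0 n).filter Nat.Prime)
        (fun p hp => by
          simp only [mem_union, mem_filter, mem_Ioc] at hp ⊢
          by_cases hn : p ≤ n
          · exact Or.inr ⟨⟨hp.1.1.1, hn⟩, hp.1.2⟩
          · exact Or.inl ⟨⟨⟨not_le.1 hn, hp.1.1.2⟩, hp.1.2⟩, hp.2⟩)
        fun p _ _ => Real.log_natCast_nonneg p)
      linarith [th_le n]
  obtain ⟨N, hN⟩ : ∃ N : ℝ, N = D * W := ⟨_, rfl⟩
  rw [← hN] at hi
  have d1 : (1 : ℝ) ≤ D := by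
    linarith [mul_le_mul_of_nonneg_right g1 u0.le, (by positivity : (0 : ℝ) ≤ g * R)]
  have d0 : (0 : ℝ) < D := by linarith
  have N0 : 0 < N := by rw [hN]; positivity
  have c1 : E * ((D : ℝ) + K * x + 1) * V ≤ η * N / 4 := by
    have c0 : η * K * 1 ≤ η * (K + 1) ^ 2 := by
      rw [mul_assoc]
      exact mul_le_mul_of_nonneg_left (by nlinarith only [k0]) h0.le
    have c2 : (D : ℝ) * (16 * g) ≤ D * (η * (K + 1) ^ 2) :=
      mul_le_mul_of_nonneg_left (by linarith) d0.le
    have c3 : 8 * g * u * K ^ 2 ≤ D * (K + 1) ^ 2 := by gcongr; linarith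
    have c4 := mul_le_mul_of_nonneg_left c3 h0.le
    have c8 := mul_le_mul_of_nonneg_left d1 (by linarith : 0 ≤ g)
    refine (gW _ (η * D / 4) (by positivity) ?_).trans (le_of_eq (by rw [hN]; ring))
    rw [← ux]
    linarith
  have c2 : ∑ p ∈ (Ioc n x).filter Nat.Prime,
      (E * (D + K * p + 1) * V : ℝ) * Real.log p ≤
      η * N / 4 * (7 / 5 * x) := by
    refine le_trans ?_ (mul_le_mul_of_nonneg_left (th_le x) (by positivity))
    rw [mul_sum]
    refine le_trans (sum_le_sum fun p hp => ?_) (sum_le_sum_of_subset_of_nonneg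
      (filter_subset_filter _ (Ioc_subset_Ioc_left (Nat.zero_le n)))
      fun p _ _ => mul_nonneg (by positivity) (Real.log_natCast_nonneg p))
    refine mul_le_mul_of_nonneg_right (le_trans ?_ c1) (Real.log_natCast_nonneg p)
    have : (p : ℝ) ≤ x := by exact_mod_cast (mem_Ioc.1 (mem_filter.1 hp).1).2
    gcongr
  have L0 : (0 : ℝ) < Nat.lcmUpto n := by exact_mod_cast Nat.lcmUpto_pos n
  have c3 : Real.log (N * (((B : ℝ) ^ E) ^ (D + n + K) * (n * Nat.lcmUpto n) ^ (k * K))) =
      Real.log N + D * (E * Real.log B) + n * (E * Real.log B) + K * (E * Real.log B) +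
        k * K * Real.log n + k * K * Real.log (Nat.lcmUpto n) := by
    have n0 : (n : ℝ) ≠ 0 := by positivity
    rw [Real.log_mul N0.ne' (by positivity), Real.log_mul (by positivity) (by positivity),
      Real.log_pow, Real.log_pow, Real.log_pow, Real.log_mul n0 L0.ne']
    push_cast
    ring
  have c4 : Real.log N ≤ Real.log ((8 * g / η + 1) * W) + Real.log x := by
    rw [← Real.log_mul (by positivity) (by positivity)]
    refine Real.log_le_log N0 ?_
    have c5 : u ≤ x / η := by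
      rw [hu]
      gcongr
      exact le_mul_of_one_le_right h0.le (by linarith)
    have c6 := mul_le_mul_of_nonneg_left c5 (by positivity : 0 ≤ 8 * g)
    rw [hN, mul_right_comm]
    refine mul_le_mul_of_nonneg_right ?_ (by positivity)
    rw [add_mul, div_mul_eq_mul_div, mul_div_assoc]
    linarith
  have c5 : k * K * Real.log n ≤ k * K * Real.log x := by gcongr
  have c6 : (k * K + 1) * Real.log x ≤ η * x / 20 :=
    (mul_le_mul_of_nonneg_left E4 (by positivity)).trans (le_of_eq (by field_simp))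
  have c7 : D * (E * Real.log B) ≤ η * x / 10 + E * Real.log B := by
    have c8 := mul_le_mul_of_nonneg_right D2 (by positivity : 0 ≤ E * Real.log B)
    have c9 := mul_le_mul_of_nonneg_left k4 u0.le
    rw [← ux]
    linarith
  have c9 : k * K * Real.log (Nat.lcmUpto n) ≤ 9 / 100 * (η * x) := by
    linarith [mul_le_mul_of_nonneg_left (lcm_le n) (by positivity : (0 : ℝ) ≤ k * K),
      (by positivity : (0 : ℝ) ≤ n * k)]
  have c11 : n * (E * Real.log B) ≤ η * x / 500 := by
    linarith [mul_le_mul_of_nonneg_left k5 (Nat.cast_nonneg (α := ℝ) n)]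
  rw [c3] at hi
  have c13 : Real.log N + D * (E * Real.log B) + n * (E * Real.log B) + K * (E * Real.log B) +
      k * K * Real.log n + k * K * Real.log (Nat.lcmUpto n) ≤ 45 / 100 * (η * x) := by
    linarith
  have c14 := mul_le_mul_of_nonneg_left c13 N0.le
  have c15 : N * (η * x - 7 / 5 * n) ≤ N * (80 / 100 * (η * x)) := by linarith
  have c16 := le_of_mul_le_mul_left c15 N0
  linarith

end Pool.Agent.MP_3e91a1_nt.GN

end
end

section

/-! A product of units of order zero at all places at infinity is constant. -/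

set_option autoImplicit false

open Finset

namespace Pool.Agent.MP_3e91a1_nt.GN

open TR

theorem zpow_CST {F : Type} [Field F] {x : LaurentSeries F} (hx : x ≠ 0) (n : ℤ) :
    (x ^ n).order = n * x.order := by
  have h : x⁻¹.order = -x.order := by
    have := HahnSeries.order_mul hx (inv_ne_zero hx)
    rw [mul_inv_cancel₀ hx, HahnSeries.order_one] at this
    omega
  obtain ⟨a, rfl | rfl⟩ := n.eq_nat_or_neg
  · rw [zpow_natCast, HahnSeries.order_pow, nsmul_eq_mul]
  · rw [zpow_neg, zpow_natCast, ← inv_pow, HahnSeries.order_pow, nsmul_eq_mul, h]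
    ring

theorem prod_CST {F ι : Type} [Field F] (s : Finset ι) {x : ι → LaurentSeries F}
    (hx : ∀ j, x j ≠ 0) : (∏ j ∈ s, x j).order = ∑ j ∈ s, (x j).order := by
  classical
  induction s using Finset.induction_on with
  | empty => simp
  | insert a s ha ih =>
    rw [prod_insert ha, sum_insert ha,
      HahnSeries.order_mul (hx a) (prod_ne_zero_iff.2 fun j _ => hx j), ih]

theorem der_CST {F E ι : Type} [Field F] [Field E] [Algebra F E] (δ : Derivation F E E)
    (s : Finset ι) {U : ι → E} (hU : ∀ j, U j ≠ 0) (n : ι → ℤ) :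
    δ (∏ j ∈ s, U j ^ n j) = (∏ j ∈ s, U j ^ n j) * ∑ j ∈ s, (n j : E) * (δ (U j) * (U j)⁻¹) := by
  classical
  induction s using Finset.induction_on with
  | empty => simp
  | insert a s ha ih =>
    rw [prod_insert ha, sum_insert ha, δ.leibniz, ih, δ.leibniz_zpow, zpow_sub_one₀ (hU a)]
    simp only [smul_eq_mul, zsmul_eq_mul]
    ring

theorem CST_pf (hLIO : LIO_st) : CST_st := by
  intro F E ι _ _ _ _ _ m r c c' τ A A' φ₀ δ U V n hG h0 hUV hU hV ho
  have h1 : ∀ j, U j ≠ 0 := fun j => left_ne_zero_of_mul_eq_one (hUV j)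
  have h2 : ∀ j, V j = (U j)⁻¹ := fun j => eq_inv_of_mul_eq_one_right (hUV j)
  have h3 : ∏ j, U j ^ n j ≠ 0 := prod_ne_zero_iff.2 fun j _ => zpow_ne_zero _ (h1 j)
  obtain ⟨a, ha⟩ := hLIO F E m r c c' τ A A' φ₀ (∏ j, U j ^ n j) hG h0
    (IsIntegral.prod _ fun j _ => by
      obtain ⟨b, e | e⟩ := (n j).eq_nat_or_neg
      · rw [e, zpow_natCast]
        exact (hU j).pow b
      · rw [e, zpow_neg, zpow_natCast, ← inv_pow, ← h2]
        exact (hV j).pow b)
    fun φ hφ k hk => HahnSeries.coeff_eq_zero_of_lt_order (by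
      have h4 : ∀ j, φ (U j) ≠ 0 := fun j => (map_ne_zero φ).2 (h1 j)
      rw [map_prod, prod_CST _ fun j => (map_ne_zero φ).2 (zpow_ne_zero _ (h1 j)),
        sum_congr rfl fun j _ => (congrArg HahnSeries.order (map_zpow₀ φ (U j) (n j))).trans
          (zpow_CST (h4 j) _), ho φ hφ]
      exact hk)
  refine ⟨⟨a, ?_, ha⟩, ?_⟩
  · rintro rfl
    exact h3 (ha.trans (map_zero _))
  · have h5 := der_CST δ univ h1 n
    rw [ha, δ.map_algebraMap, ← ha] at h5
    simp only [h2]
    exact (mul_eq_zero.1 h5.symm).resolve_left h3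

end Pool.Agent.MP_3e91a1_nt.GN

end

section

/-! The discriminant as a polynomial in the parameter. -/

set_option autoImplicit false

open Finset Polynomial

namespace Pool.Agent.MP_3e91a1_nt.GN

open TR

theorem der_DSC {n : ℕ} {S : Type} [CommRing S] (A : Fin n → S) (s : Fin n) :
    eval (A s) (derivative (∏ t, (X - C (A t)))) = fd A s := by
  rw [← Finset.mul_prod_erase univ _ (mem_univ s), derivative_mul]
  simp [fd, eval_prod]

theorem DSC_pf : DSC_st := by
  intro m r
  refine ⟨resultant (fp r (X : ℤ[X])) (derivative (fp r (X : ℤ[X]))) (m + 1) m,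
    fun S _ T A h => ?_⟩
  rcases subsingleton_or_nontrivial S with hS | hS
  · exact Subsingleton.elim _ _
  have h1 : (fp r (X : ℤ[X])).map (aeval T : ℤ[X] →ₐ[ℤ] S).toRingHom = fp r T := by
    simp [fp, Polynomial.map_prod]
  have h2 := resultant_map_map (fp r (X : ℤ[X])) (derivative (fp r (X : ℤ[X]))) (m + 1) m
    (aeval T : ℤ[X] →ₐ[ℤ] S).toRingHom
  rw [← derivative_map, h1, ← h] at h2
  have h3 : (∏ s, (X - C (A s))).natDegree = m + 1 := by
    rw [natDegree_finsetProd_X_sub_C_eq_card]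
    simp
  have h4 := resultant_prod_left univ (fun s => X - C (A s)) (derivative (∏ s, (X - C (A s)))) m
    (by simp) ((natDegree_derivative_le _).trans (by rw [h3]; simp))
  rw [h3] at h4
  refine Eq.trans ?_ (h4.symm.trans h2)
  refine Finset.prod_congr rfl fun s _ => ?_
  rw [natDegree_X_sub_C, resultant_X_sub_C_left _ _ _
    ((natDegree_derivative_le _).trans (by rw [h3]; simp)), der_DSC]

end Pool.Agent.MP_3e91a1_nt.GN

end

section

/-! The theorem of Schur on the product of linear factors minus one. -/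

set_option autoImplicit false

open Finset Polynomial

namespace Pool.Agent.MP_3e91a1_nt.GN

open TR

theorem deg_SCH {ι : Type} [Fintype ι] [Nonempty ι] (a : ι → ℤ) :
    (∏ i, (X - C (a i)) - 1 : ℤ[X]).Monic ∧
      (∏ i, (X - C (a i)) - 1 : ℤ[X]).natDegree = Fintype.card ι := by
  have h1 : (∏ i, (X - C (a i)) : ℤ[X]).Monic := monic_prod_of_monic _ _ fun i _ => monic_X_sub_C _
  have h2 : (∏ i, (X - C (a i)) : ℤ[X]).natDegree = Fintype.card ι := by
    rw [natDegree_prod_of_monic _ _ fun i _ => monic_X_sub_C _]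
    simp only [natDegree_X_sub_C, sum_const, card_univ, smul_eq_mul, mul_one]
  have h3 : (1 : ℤ[X]).natDegree < (∏ i, (X - C (a i)) : ℤ[X]).natDegree := by
    rw [h2, natDegree_one]
    exact Fintype.card_pos
  exact ⟨h1.sub_of_left (degree_lt_degree h3), by rw [natDegree_sub_eq_left_of_natDegree_lt h3, h2]⟩

theorem int_SCH {ι : Type} [Fintype ι] [Nonempty ι] (a : ι → ℤ) (ha : Function.Injective a) :
    Irreducible (∏ i, (X - C (a i)) - 1 : ℤ[X]) := by
  obtain ⟨h1, h2⟩ := deg_SCH a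
  have hn : 0 < Fintype.card ι := Fintype.card_pos
  refine h1.irreducible_iff_natDegree.2 ⟨fun h => ?_, fun g h hg hh e => ?_⟩
  · rw [h, natDegree_one] at h2
    omega
  by_contra hc
  rw [not_or] at hc
  have hd : g.natDegree + h.natDegree = Fintype.card ι := by rw [← hg.natDegree_mul hh, e, h2]
  have hz : g + h = 0 := by
    refine eq_zero_of_natDegree_lt_card_of_eval_eq_zero (g + h) ha (fun i => ?_)
      ((natDegree_add_le g h).trans_lt (max_lt (by omega) (by omega)))
    have h3 := congrArg (eval (a i)) e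
    rw [eval_mul, eval_sub, eval_one, eval_prod, prod_eq_zero (mem_univ i) (by simp),
      zero_sub] at h3
    rw [eval_add]
    rcases Int.eq_one_or_neg_one_of_mul_eq_neg_one' h3 with ⟨h4, h5⟩ | ⟨h4, h5⟩ <;>
      rw [h4, h5] <;> rfl
  have h4 : g = -h := eq_neg_of_add_eq_zero_left hz
  have h5 := hg.leadingCoeff
  rw [h4, leadingCoeff_neg, hh.leadingCoeff] at h5
  omega

theorem SCH_pf : SCH_st := by
  intro m r T hr hT
  have ha : Function.Injective fun o : Option (Fin m) => o.elim (-T) r := by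
    rintro (_ | i) (_ | j) h
    · rfl
    · exact absurd (by simp only [Option.elim] at h; omega) (hT j)
    · exact absurd (by simp only [Option.elim] at h; omega) (hT i)
    · exact congrArg some (hr h)
  have h := ((deg_SCH _).1.irreducible_iff_irreducible_map_fraction_map (K := ℚ)).1 (int_SCH _ ha)
  have e : fp r (T : ℚ) = (∏ o : Option (Fin m), (X - C (o.elim (-T) r)) - 1 : ℤ[X]).map
      (algebraMap ℤ ℚ) := by
    rw [fp, Fintype.prod_option, mul_comm]
    simp [Polynomial.map_prod]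
  rwa [e]

end Pool.Agent.MP_3e91a1_nt.GN

end

section

/-! Most integers have many prime divisors in a finite set of large primes. -/

set_option autoImplicit false

open Finset Filter

namespace Pool.Agent.MP_3e91a1_nt.GN

open TR

theorem TUG_pf : TUG_st := by
  intro y l
  induction l with
  | zero =>
    intro ε hε
    refine ⟨∅, by simp, Eventually.of_forall fun M => ?_⟩
    simp only [Nat.not_lt_zero, filter_false, card_empty, Nat.cast_zero]
    positivity
  | succ l ih =>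
    intro ε hε
    obtain ⟨s, s0, hs⟩ := ih (ε / 2) (half_pos hε)
    obtain ⟨S, S1, S2⟩ := primes_TUR (max (s.sup id) y) (show 0 < ε / 4 by positivity)
    refine ⟨s ∪ S, fun c hc => (mem_union.1 hc).elim (s0 c) fun h =>
      ⟨(S1 c h).1, (le_max_right _ _).trans_lt (S1 c h).2⟩, ?_⟩
    filter_upwards [hs, eventually_ge_atTop (∏ p ∈ S, p)] with M h1 h2
    have h3 := cop_TUR (fun p hp => (S1 p hp).1) S2 (by positivity) h2
    have h4 : ((Icc 1 M).filter fun T => ((s ∪ S).filter fun c => c ∣ T).card < l + 1).card ≤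
        ((Icc 1 M).filter fun T => (s.filter fun c => c ∣ T).card < l).card +
          ((Icc 1 M).filter fun T => ∀ p ∈ S, ¬ p ∣ T).card := by
      refine le_trans (card_le_card fun T hT => ?_) (card_union_le _ _)
      obtain ⟨a1, a2⟩ := mem_filter.1 hT
      by_cases c : ∀ p ∈ S, ¬ p ∣ T
      · exact mem_union_right _ (mem_filter.2 ⟨a1, c⟩)
      push Not at c
      obtain ⟨p, p1, p2⟩ := c
      refine mem_union_left _ (mem_filter.2 ⟨a1, ?_⟩)
      have b1 : p ∉ s.filter fun c => c ∣ T := fun h =>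
        absurd (le_sup (f := id) (mem_filter.1 h).1) (not_le.2 ((le_max_left _ _).trans_lt (S1 p p1).2))
      have b2 : insert p (s.filter fun c => c ∣ T) ⊆ (s ∪ S).filter fun c => c ∣ T :=
        insert_subset (mem_filter.2 ⟨mem_union_right _ p1, p2⟩)
          (filter_subset_filter _ subset_union_left)
      have b3 := card_le_card b2
      rw [card_insert_of_notMem b1] at b3
      omega
    have h5 := (Nat.cast_le (α := ℝ)).2 h4
    rw [Nat.cast_add] at h5
    linarith

end Pool.Agent.MP_3e91a1_nt.GN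

end

section

set_option autoImplicit false

namespace Pool.Agent.MP_3e91a1_nt.GN

open TR

theorem unq_ok : UNQ_st := UNQ_pf ITG_pf

theorem str_ok : STR_st := STR_pf ITG_pf LAU_pf (EXG_pf ITG_pf LAU_pf (INH_pf FIX_pf)) LFT_pf unq_ok
  (STA_pf ITG_pf LAU_pf FIN_pf unq_ok (LND_pf ITG_pf LAU_pf FIN_pf unq_ok LIO_pf) ORD_pf
    (CST_pf LIO_pf)) OST_pf

theorem deg_ok : DEG_st := DEG_pf ITG_pf str_ok
  (ZEG_pf ITG_pf (NRG_pf (RDG_pf ITG_pf)) (ZRG_pf INV_pf))
  (CNH_pf ITG_pf (SOG_pf ITG_pf LOG_pf) (SPG_pf HIL_pf) DDF_pf (SPF_pf (RDG_pf ITG_pf)))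
  (HEG_pf ITG_pf EQN_pf FIX_pf) (SIG_pf ITG_pf (SZG_pf ITG_pf EQN_pf SZF_pf) SZH_pf) CNJ_pf CC.DIV_pf

theorem cnt_ok : CTG_st := CTG_pf DSC_pf (DNZ_pf SCH_pf) COP_pf RTS_pf deg_ok (FEG_pf COG_pf)
  (DAG_pf TUG_pf INC_pf) DSG_pf

end Pool.Agent.MP_3e91a1_nt.GN

end

section

/-! A product of units of order zero at all places at infinity is constant. -/

set_option autoImplicit false

open Finset

namespace Pool.Agent.MP_3e91a1_nt.FM

open TR GN

theorem CSF_pf (hLIF : LIF_st) : CSF_st := by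
  intro F E ι _ _ _ _ _ f n c c' τ A A' φ₀ δ U V e hG h0 hUV hU hV ho
  have h1 : ∀ j, U j ≠ 0 := fun j => left_ne_zero_of_mul_eq_one (hUV j)
  have h2 : ∀ j, V j = (U j)⁻¹ := fun j => eq_inv_of_mul_eq_one_right (hUV j)
  have h3 : ∏ j, U j ^ e j ≠ 0 := prod_ne_zero_iff.2 fun j _ => zpow_ne_zero _ (h1 j)
  obtain ⟨a, ha⟩ := hLIF F E f n c c' τ A A' φ₀ (∏ j, U j ^ e j) hG h0
    (IsIntegral.prod _ fun j _ => by
      obtain ⟨b, q | q⟩ := (e j).eq_nat_or_neg
      · rw [q, zpow_natCast]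
        exact (hU j).pow b
      · rw [q, zpow_neg, zpow_natCast, ← inv_pow, ← h2]
        exact (hV j).pow b)
    fun φ hφ k hk => HahnSeries.coeff_eq_zero_of_lt_order (by
      have h4 : ∀ j, φ (U j) ≠ 0 := fun j => (map_ne_zero φ).2 (h1 j)
      rw [map_prod, prod_CST _ fun j => (map_ne_zero φ).2 (zpow_ne_zero _ (h1 j)),
        sum_congr rfl fun j _ => (congrArg HahnSeries.order (map_zpow₀ φ (U j) (e j))).trans
          (zpow_CST (h4 j) _), ho φ hφ]
      exact hk)
  refine ⟨⟨a, ?_, ha⟩, ?_⟩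
  · rintro rfl
    exact h3 (ha.trans (map_zero _))
  · have h5 := der_CST δ univ h1 e
    rw [ha, δ.map_algebraMap, ← ha] at h5
    simp only [h2]
    exact (mul_eq_zero.1 h5.symm).resolve_left h3

end Pool.Agent.MP_3e91a1_nt.FM

end

section

/-! The discriminant as a polynomial in the parameter. -/

set_option autoImplicit false

open Finset Polynomial

namespace Pool.Agent.MP_3e91a1_nt.FM

open TR GN

theorem DSF_pf : DSF_st := by
  intro f n _ _
  refine ⟨resultant f (derivative f) n (n - 1), fun S _ T A h => ?_⟩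
  rcases subsingleton_or_nontrivial S with hS | hS
  · exact Subsingleton.elim _ _
  have h2 := resultant_map_map f (derivative f) n (n - 1) (eval₂RingHom (Int.castRingHom S) T)
  rw [← derivative_map, ← sp, ← h] at h2
  have h3 : (∏ s, (X - C (A s))).natDegree = n := by
    rw [natDegree_finsetProd_X_sub_C_eq_card]
    simp
  have h4 := resultant_prod_left univ (fun s => X - C (A s)) (derivative (∏ s, (X - C (A s))))
    (n - 1) (by simp) ((natDegree_derivative_le _).trans (by rw [h3]))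
  rw [h3] at h4
  refine Eq.trans ?_ ((h4.symm.trans h2).trans ?_)
  · refine Finset.prod_congr rfl fun s _ => ?_
    rw [natDegree_X_sub_C, resultant_X_sub_C_left _ _ _
      ((natDegree_derivative_le _).trans (by rw [h3])), der_DSC]
  · rw [aeval_def, coe_eval₂RingHom, algebraMap_int_eq]

end Pool.Agent.MP_3e91a1_nt.FM

end

section

/-! Values, maps and the chain rule. -/

set_option autoImplicit false

open Finset Polynomial

noncomputable section

namespace Pool.Agent.MP_3e91a1_nt.FM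

open TR GN

theorem map_ITF {S S' : Type} [CommRing S] [CommRing S'] (φ : S →+* S') (q : P2) (T : S) :
    (sp q T).map φ = sp q (φ T) := by
  rw [sp, sp, Polynomial.map_map]
  congr 1
  refine Polynomial.ringHom_ext' (RingHom.ext_int _ _) ?_
  simp

theorem ev_ITF {S S' : Type} [CommRing S] [CommRing S'] (φ : S →+* S') (q : P2) (T a : S) :
    φ (ev q T a) = ev q (φ T) (φ a) := by
  rw [ev, ev, ← map_ITF, eval_map, eval₂_at_apply]

theorem add_ITF {S : Type} [CommRing S] (p q : P2) (T a : S) :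
    ev (p + q) T a = ev p T a + ev q T a := by simp [ev, sp]

theorem mon_ITF {S : Type} [CommRing S] (k : ℕ) (b : ℤ[X]) (T a : S) :
    ev (monomial k b) T a = eval₂ (Int.castRingHom S) T b * a ^ k := by simp [ev, sp]

theorem dadd_ITF (p q : P2) : dT (p + q) = dT p + dT q :=
  sum_add_index _ _ _ (by simp) (by simp)

theorem dmon_ITF (k : ℕ) (b : ℤ[X]) : dT (monomial k b) = monomial k (derivative b) :=
  sum_monomial_index _ _ (by simp)

theorem in_ITF {F S : Type} [CommRing F] [CommRing S] [Algebra F S] (δ : Derivation F S S)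
    (b : ℤ[X]) (T : S) : δ (eval₂ (Int.castRingHom S) T b) =
      eval₂ (Int.castRingHom S) T (derivative b) * δ T := by
  induction b using Polynomial.induction_on' with
  | add p q hp hq => simp only [eval₂_add, map_add, hp, hq, add_mul]
  | monomial k z =>
    simp only [eval₂_monomial, derivative_monomial, eq_intCast, Derivation.leibniz,
      Derivation.leibniz_pow, Derivation.map_intCast, smul_eq_mul, nsmul_eq_mul]
    push_cast
    ring

theorem ch_ITF {F S : Type} [CommRing F] [CommRing S] [Algebra F S] (δ : Derivation F S S)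
    (q : P2) (T a : S) :
    δ (ev q T a) = ev (derivative q) T a * δ a + ev (dT q) T a * δ T := by
  induction q using Polynomial.induction_on' with
  | add p q hp hq =>
    simp only [add_ITF, map_add, dadd_ITF, hp, hq]
    ring
  | monomial k b =>
    simp only [dmon_ITF, derivative_monomial, mon_ITF, Derivation.leibniz, Derivation.leibniz_pow,
      in_ITF, smul_eq_mul, nsmul_eq_mul, eval₂_mul, eval₂_natCast]
    ring

theorem ITF_pf : ITF_st := by
  have hom : ∀ (S : Type) [CommRing S] (T a : S), ∃ ψ : P2 →+* S, ∀ q, ψ q = ev q T a :=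
    fun S _ T a => ⟨(evalRingHom a).comp (mapRingHom (eval₂RingHom (Int.castRingHom S) T)),
      fun q => rfl⟩
  refine ⟨fun S S' _ _ φ q T a => ⟨map_ITF φ q T, ev_ITF φ q T a⟩, hom,
    fun F S _ _ _ δ q T a => ch_ITF δ q T a, fun F S _ _ _ R q T a hT ha => ?_,
    fun f n S _ T A h => ?_⟩
  · have := ev_ITF (R.val : R →+* S) q ⟨T, hT⟩ ⟨a, ha⟩
    exact this ▸ (ev q (⟨T, hT⟩ : R) ⟨a, ha⟩).2
  have h1 : ∀ s, ev f T (A s) = 0 := fun s => by
    rw [ev, ← h, eval_prod]
    exact prod_eq_zero (mem_univ s) (by simp)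
  have h2 : ∀ s, fd A s = ev (derivative f) T (A s) := fun s => by
    rw [← der_DSC, h, ev, sp, sp, derivative_map]
  refine ⟨h1, h2, fun π => ?_, fun S' _ φ => ?_, fun m Φ e ok j => ?_, fun F _ _ δ s => ?_⟩
  · rw [Rf, ← h]
    exact Equiv.prod_comp π fun s => X - C (A s)
  · rw [Rf, ← map_ITF, ← h]
    simp [Polynomial.map_prod]
  · obtain ⟨ψ, hψ⟩ := hom S T (A j.1)
    obtain ⟨g, hg⟩ := ok.2.2 j.2
    have := congrArg ψ hg
    rw [map_mul, map_sub, map_mul, map_one, hψ, hψ, hψ, e, h1, zero_mul] at this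
    exact sub_eq_zero.1 this
  · have := ch_ITF δ f T (A s)
    rw [h1, map_zero, ← h2] at this
    linear_combination -this

end Pool.Agent.MP_3e91a1_nt.FM

end
end

section

/-! The discriminant does not vanish. -/

set_option autoImplicit false

open Finset Polynomial

namespace Pool.Agent.MP_3e91a1_nt.FM

open TR GN

theorem cast_DZF (S : Type) [CommRing S] (T : ℤ) (d : ℤ[X]) :
    aeval (T : S) d = ((aeval T d : ℤ) : S) := by
  simpa only [eq_intCast] using aeval_algebraMap_apply S T d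

theorem DZF_pf : DZF_st := by
  intro f n d T hf hn hd hi h0
  have hsep' : (sp f (T : AlgebraicClosure ℚ)).Separable := by
    have h := hi.separable.map (f := algebraMap ℚ (AlgebraicClosure ℚ))
    rwa [map_ITF, map_intCast] at h
  obtain ⟨A, hA, hP⟩ := roots_DNZ _ (hf.map _) ((hf.natDegree_map _).trans hn) hsep'
  have h1 : ∏ s, fd A s = ((aeval T d : ℤ) : AlgebraicClosure ℚ) := by
    rw [hd _ _ A hP]
    exact cast_DZF _ T d
  rw [h0, Int.cast_zero, Finset.prod_eq_zero_iff] at h1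
  obtain ⟨s, -, hs⟩ := h1
  unfold fd at hs
  rw [Finset.prod_eq_zero_iff] at hs
  obtain ⟨s', hs', h⟩ := hs
  exact (Finset.mem_erase.1 hs').1 (hA (sub_eq_zero.1 h)).symm

end Pool.Agent.MP_3e91a1_nt.FM

end

section

/-! The equation of a root near a point. -/

set_option autoImplicit false

noncomputable section

namespace Pool.Agent.MP_3e91a1_nt.FM

open TR GN

theorem map_EQF (q : P2) {S S' : Type} [CommRing S] [CommRing S'] (φ : S →+* S') (T a : S) :
    φ (ev q T a) = ev q (φ T) (φ a) := by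
  have h : (sp q T).map φ = sp q (φ T) := by
    rw [sp, sp, Polynomial.map_map]
    congr 1
    ext <;> simp
  rw [ev, ev, ← h, Polynomial.eval_map_apply]

theorem dvd_EQF (q : P2) {S : Type} [CommRing S] (T h a : S) : h ∣ ev q (T + h) a - ev q T a := by
  rw [← Ideal.mem_span_singleton, ← Ideal.Quotient.eq, map_EQF, map_EQF, map_add,
    Ideal.Quotient.eq_zero_iff_mem.2 (Ideal.mem_span_singleton_self h), add_zero]

theorem uni_EQF (f : P2) {S : Type} [CommRing S] (T a Δ γ z W : S) : ∃ G₁ G₂ : S,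
    ev f (T + Δ ^ 2 * γ * z) (a + Δ * W) = ev f T a + ev (Polynomial.derivative f) T a * (Δ * W) -
      Δ ^ 2 * (W ^ 2 * G₁ + z * G₂) := by
  obtain ⟨k, hk⟩ := (sp f (T + Δ ^ 2 * γ * z)).binomExpansion a (Δ * W)
  obtain ⟨k₁, h1⟩ := dvd_EQF f T (Δ ^ 2 * γ * z) a
  obtain ⟨k₂, h2⟩ := dvd_EQF (Polynomial.derivative f) T (Δ ^ 2 * γ * z) a
  refine ⟨-k, -(γ * (k₁ + k₂ * Δ * W)), ?_⟩
  rw [sp, Polynomial.derivative_map] at hk
  change ev f _ _ = ev f _ _ + ev (Polynomial.derivative f) _ _ * _ + _ at hk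
  linear_combination hk + h1 + (Δ * W) * h2

theorem EQF_pf : EQF_st := by
  intro f
  obtain ⟨G₁, G₂, h⟩ := uni_EQF f (S := MvPolynomial (Fin 6) ℤ) (MvPolynomial.X 0)
    (MvPolynomial.X 1) (MvPolynomial.X 2) (MvPolynomial.X 3) (MvPolynomial.X 4) (MvPolynomial.X 5)
  refine ⟨G₁, G₂, fun S _ T a Δ γ z W h0 h1 => ?_⟩
  have e := congrArg (MvPolynomial.aeval (R := ℤ) ![T, a, Δ, γ, z, W]).toRingHom h
  simp only [map_sub, map_add, map_mul, map_pow, map_EQF, AlgHom.toRingHom_eq_coe,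
    RingHom.coe_coe, MvPolynomial.aeval_X] at e
  change ev f (T + Δ ^ 2 * γ * z) (a + Δ * W) = ev f T a +
    ev (Polynomial.derivative f) T a * (Δ * W) - Δ ^ 2 * (W ^ 2 * _ + z * _) at e
  rw [e, h0, h1]
  ring

end Pool.Agent.MP_3e91a1_nt.FM

end
end

section

/-! A fixed point in the power series, with parameters. -/

set_option autoImplicit false

open PowerSeries

noncomputable section

namespace Pool.Agent.MP_3e91a1_nt.FM

open TR GN

theorem dvd_FXF {A S ι : Type} [CommRing A] [CommRing S] [Algebra A S] (G : MvPolynomial ι A)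
    (x y : ι → S) (z : S) (h : ∀ i, z ∣ x i - y i) :
    z ∣ MvPolynomial.aeval x G - MvPolynomial.aeval y G := by
  induction G using MvPolynomial.induction_on with
  | C a => simp
  | add p q hp hq =>
    rw [map_add, map_add, add_sub_add_comm]
    exact dvd_add hp hq
  | mul_X p i hp =>
    rw [map_mul, map_mul, MvPolynomial.aeval_X, MvPolynomial.aeval_X,
      show ∀ a b c d : S, a * c - b * d = (a - b) * c + b * (c - d) from fun a b c d => by ring]
    exact dvd_add (hp.mul_right _) ((h i).mul_left _)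

theorem FXF_pf : FXF_st := by
  intro R _ G₁ G₂ T a Δ γ
  have hd : ∀ (G : MvPolynomial (Fin 6) ℤ) (W W' : R⟦X⟧),
      W - W' ∣ MvPolynomial.aeval ![C T, C a, C Δ, C γ, X, W] G -
        MvPolynomial.aeval ![C T, C a, C Δ, C γ, X, W'] G := fun G W W' =>
    dvd_FXF G _ _ _ fun i => by fin_cases i <;> simp
  obtain ⟨W, h1, h2⟩ := fix_HEN (fun W : R⟦X⟧ =>
    W ^ 2 * MvPolynomial.aeval ![C T, C a, C Δ, C γ, X, W] G₁ +
      X * MvPolynomial.aeval ![C T, C a, C Δ, C γ, X, W] G₂)
    (fun W hW => dvd_add ((dvd_pow hW two_ne_zero).mul_right _) (dvd_mul_right _ _))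
    (fun W W' hW hW' => by
      obtain ⟨a', ha⟩ := hd G₁ W W'
      obtain ⟨b, hb⟩ := hd G₂ W W'
      obtain ⟨u, hu⟩ := hW
      obtain ⟨v, hv⟩ := hW'
      refine ⟨(u + v) * MvPolynomial.aeval ![C T, C a, C Δ, C γ, X, W] G₁ + v * W' * a' + b, ?_⟩
      linear_combination W' ^ 2 * ha + X * hb +
        (W - W') * MvPolynomial.aeval ![C T, C a, C Δ, C γ, X, W] G₁ * (hu + hv) +
          (W - W') * W' * a' * hv)
  exact ⟨W, X_dvd_iff.1 h1, h2⟩

end Pool.Agent.MP_3e91a1_nt.FM

end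
end

section

/-! The roots in the ring of all algebraic integers. -/

set_option autoImplicit false

namespace Pool.Agent.MP_3e91a1_nt.FM

open TR GN

theorem RTF_pf : RTF_st := fun _ n _ hf hn =>
  split_RTS n _ (hf.map _) ((hf.natDegree_map _).trans hn)

end Pool.Agent.MP_3e91a1_nt.FM

end

section

/-! A small generating set for a product of powers of modules, for arbitrary families. -/

set_option autoImplicit false

open Finset
open scoped Pointwise

noncomputable section

namespace Pool.Agent.MP_3e91a1_nt.FM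

open TR GN

theorem SQF_pf (hRDF : RDF_st) : SQF_st := by
  classical
  intro f m c c' hf hm
  obtain ⟨h, hh⟩ := hRDF f m
  refine ⟨(h + 1) * m ^ (m + m), fun F S _ _ _ B N τ θ A A' hA hA' => ⟨fun P hP => ?_, ?_⟩⟩
  · have h1 : (1 : S) ∈ Submodule.span F (insert 1 (Set.range (gv τ A A'))) :=
      Submodule.subset_span (Set.mem_insert _ _)
    have h2 : ∀ o, gv τ A A' o ∈ Submodule.span F (insert 1 (Set.range (gv τ A A'))) := fun o =>
      Submodule.subset_span (Set.mem_insert_of_mem _ ⟨o, rfl⟩)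
    refine ⟨deg_SPF h1 (fun o => ?_) hP, deg_SPF h1 (fun o => ?_) hP⟩ <;> rcases o with _ | i
    exacts [h2 none, h2 (some (.inl i)), h2 none, h2 (some (.inr i))]
  refine ⟨(univ.image fun q : Fin (h * B + 1) × (Fin m ⊕ Fin m → Fin m) =>
    τ ^ (q.1 : ℕ) * ∏ i, Sum.elim A A' i ^ (q.2 i : ℕ)) * (range (N + 1)).image (θ ^ ·), ?_, ?_⟩
  · refine card_mul_le.trans (Nat.mul_le_mul (card_image_le.trans ?_)
      (card_image_le.trans (card_range _).le))
    have e : (univ : Finset (Fin (h * B + 1) × (Fin m ⊕ Fin m → Fin m))).card =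
        (h * B + 1) * m ^ (m + m) := by simp
    rw [e, mul_right_comm]
    exact Nat.mul_le_mul_right _ (by nlinarith)
  rw [coe_mul, ← Submodule.span_mul_span]
  refine mul_le_mul' ((pow_le_SPF _
    (fun n => {p | ∃ α : Vs m → ℕ, ∑ i, α i ≤ n ∧ p = ∏ i, gv τ A A' i ^ α i})
    ⟨0, by simp, by simp⟩ ?_ B).trans (Submodule.span_le.2 ?_))
    ((pow_le_SPF _ (fun n => {p | ∃ i ≤ n, p = θ ^ i}) ⟨0, le_rfl, by simp⟩ ?_ N).trans
      (Submodule.span_mono ?_))
  · rintro n _ ⟨α, hα, rfl⟩ x (rfl | ⟨j, rfl⟩)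
    · exact ⟨α, by omega, mul_one _⟩
    · refine ⟨α + Pi.single j 1, ?_, ?_⟩
      · simp only [Pi.add_apply, sum_add_distrib, sum_pi_single', mem_univ, if_true]
        omega
      · simp only [Pi.add_apply, pow_add, prod_mul_distrib]
        congr 1
        rw [prod_eq_single j (fun i _ hi => by simp [hi]) (by simp)]
        simp
  · rintro _ ⟨α, hα, rfl⟩
    obtain ⟨u, hu⟩ := hh c c' B α hα hf hm
    rw [hu S τ A A' hA hA']
    refine Submodule.sum_mem _ fun q _ => ?_
    rw [← zsmul_eq_mul]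
    exact zsmul_mem (Submodule.subset_span (mem_coe.2 (mem_image.2 ⟨q, mem_univ _, rfl⟩))) _
  · rintro n _ ⟨i, hi, rfl⟩ x (rfl | rfl)
    · exact ⟨i, by omega, mul_one _⟩
    · exact ⟨i + 1, by omega, (pow_succ _ _).symm⟩
  · rintro _ ⟨i, hi, rfl⟩
    exact mem_coe.2 (mem_image.2 ⟨i, mem_range.2 (by omega), rfl⟩)

end Pool.Agent.MP_3e91a1_nt.FM

end
end

section

set_option autoImplicit false

namespace Pool.Agent.MP_3e91a1_nt.FM

open TR GN

theorem uqf_ok : UQF_st := UQF_pf ITF_pf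

theorem srf_ok : SRF_st := SRF_pf ITF_pf LAU_pf (PLB_pf PLA_pf) EXA_pf (EXB_pf ITF_pf LAU_pf) LFF_pf
  uqf_ok (SAF_pf ITF_pf LAU_pf FNF_pf uqf_ok (LDF_pf ITF_pf LAU_pf FNF_pf uqf_ok LIF_pf) ORD_pf
    (CSF_pf LIF_pf) (RNK_pf ITF_pf) ROW_pf) OST_pf

theorem def_ok : DEF_st := DEF_pf ITF_pf srf_ok
  (ZEF_pf ITF_pf (NRF_pf (RDF_pf ITF_pf)) (ZRG_pf INV_pf))
  (CNF_pf ITF_pf (SOF_pf ITF_pf LOG_pf FBF_pf TAF_pf) (SPG_pf HIL_pf) DDF_pf
    (SQF_pf (RDF_pf ITF_pf)))
  (HEF_pf ITF_pf EQF_pf FXF_pf) (SIF_pf ITF_pf (SGF_pf ITF_pf EQF_pf SFF_pf) SZH_pf) CNJ_pf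
  CC.DIV_pf

end Pool.Agent.MP_3e91a1_nt.FM

end
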