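import Pool.Agent.Mg.F3e91a1.G051ec3
import Pool.Agent.MP_760060_nt.W.J.N3
import Pool.Agent.MP_760060_nt.W.J.N1
import Pool.Agent.MP_760060_nt.W.J.N5
import Pool.Agent.MP_760060_nt.W.J.Ana
import Pool.Agent.MP_760060_nt.W.J.Blk
import Pool.Agent.MP_760060_nt.W.J.Newt
import Pool.Agent.MP_760060_nt.W.J.BlkD
import Pool.Agent.MP_760060_nt.W.J.LemD
import Pool.Agent.MP_760060_nt.W.J.PF
import Pool.Agent.MP_384f6f_nt.PI.Sm

set_option linter.all false

section

set_option autoImplicit false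

open Finset Polynomial Filter Topology
open scoped Classical

namespace Pool.Agent.MP_3e91a1_nt.F5

open Pool.Agent.MP_760060_nt.W

theorem pos_ASH {x m : ℤ} (h : 0 < x) : m ∈ ms x ↔ 1 ≤ m ∧ m ≤ x ∧ (m - x) % 5 = 0 := by
  rw [ms, mem_filter, mem_Icc, abs_of_pos h]
  omega

theorem neg_ASH {x m : ℤ} (h : x < 0) : m ∈ ms x ↔ 1 ≤ m ∧ m < -x ∧ (m + x) % 5 = 0 := by
  rw [ms, mem_filter, mem_Icc, abs_of_neg h]
  omega

theorem SH_pf : SH_st := by
  intro A _ φ hφ x hx
  by_cases h1 : 0 < x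
  · have e : ms (x + 5) = insert (x + 5) (ms x) := by
      ext m
      rw [mem_insert, pos_ASH h1, pos_ASH (by omega)]
      omega
    rw [e, sum_insert (by rw [pos_ASH h1]; omega), add_comm]
  by_cases h2 : 0 < x + 5
  · have e : ms (x + 5) = insert (x + 5) (ms x) := by
      ext m
      rw [mem_insert, neg_ASH (x := x) (by omega), pos_ASH h2]
      omega
    rw [e, sum_insert (by rw [neg_ASH (by omega)]; omega), add_comm]
  · have e : ms x = insert (-(x + 5)) (ms (x + 5)) := by
      ext m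
      rw [mem_insert, neg_ASH (x := x) (by omega), neg_ASH (by omega)]
      omega
    rw [e, sum_insert (by rw [neg_ASH (by omega)]; omega), hφ]
    abel

end Pool.Agent.MP_3e91a1_nt.F5

end

section

set_option autoImplicit false

open Finset Polynomial Filter Topology
open scoped Classical

namespace Pool.Agent.MP_3e91a1_nt.F5

open Pool.Agent.MP_760060_nt.W

theorem noCommon_AN3 (Q R : ℚ[X])
    (he : ∀ s : ℚ, (s + 5) * (Q.eval (s + 5) * R.eval s - Q.eval s * R.eval (s + 5)) =
      R.eval s * R.eval (s + 5))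
    (hc : ∀ t : ℚ, R.eval t = 0 → Q.eval t ≠ 0) : R = 0 := by
  have up : ∀ s : ℚ, -5 < s → R.eval s = 0 → R.eval (s + 5) = 0 := fun s h0 hs => by
    have h1 := he s
    have h2 : (s + 5) ≠ 0 := by linarith
    rw [hs, mul_zero, zero_mul, zero_sub, mul_eq_zero, neg_eq_zero] at h1
    exact (mul_eq_zero.1 (h1.resolve_left h2)).resolve_left (hc s hs)
  have down : ∀ s : ℚ, s < -5 → R.eval (s + 5) = 0 → R.eval s = 0 := fun s h0 hs => by
    have h1 := he s
    have h2 : (s + 5) ≠ 0 := by linarith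
    rw [hs, mul_zero, mul_zero, sub_zero, mul_eq_zero] at h1
    exact (mul_eq_zero.1 (h1.resolve_left h2)).resolve_left (hc _ hs)
  have h1 := he (-5)
  norm_num at h1
  apply eq_zero_of_infinite_isRoot
  rcases h1 with h2 | h2
  · have h3 : ∀ n : ℕ, R.eval (-5 * (n : ℚ) - 5) = 0 := fun n => by
      induction n with
      | zero => simpa using h2
      | succ n ih =>
        have : (0 : ℚ) ≤ n := n.cast_nonneg
        refine down _ (by push_cast; linarith) ?_
        rw [← ih]
        push_cast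
        ring_nf
    exact Set.infinite_of_injective_forall_mem (f := fun n : ℕ => -5 * (n : ℚ) - 5)
      (fun a b hab => by simpa using hab) h3
  · have h3 : ∀ n : ℕ, R.eval (5 * (n : ℚ)) = 0 := fun n => by
      induction n with
      | zero => simpa using h2
      | succ n ih =>
        have : (0 : ℚ) ≤ n := n.cast_nonneg
        rw [← up _ (by linarith) ih]
        push_cast
        ring_nf
    exact Set.infinite_of_injective_forall_mem (f := fun n : ℕ => 5 * (n : ℚ))
      (fun a b hab => by simpa using hab) h3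

theorem N3_pf : N3_st := by
  intro Q R h
  induction hn : R.natDegree using Nat.strong_induction_on generalizing Q R with
  | _ n ih =>
    by_cases hc : ∀ t : ℚ, R.eval t = 0 → Q.eval t ≠ 0
    · exact noCommon_AN3 Q R (fun s => by simpa [eval_comp] using congrArg (eval s) h) hc
    push Not at hc
    obtain ⟨t, hB, hA⟩ := hc
    obtain ⟨A, rfl⟩ := dvd_iff_isRoot.2 hA
    obtain ⟨B, rfl⟩ := dvd_iff_isRoot.2 hB
    by_cases h0 : B = 0
    · simp [h0]
    have h1 : (X - C t : ℚ[X]) ≠ 0 := X_sub_C_ne_zero _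
    have h2 : (X - C (t - 5) : ℚ[X]) ≠ 0 := X_sub_C_ne_zero _
    have h3 : B.natDegree < n := by
      rw [← hn, natDegree_mul h1 h0, natDegree_X_sub_C]
      omega
    refine absurd (ih _ h3 A B ?_ rfl) h0
    apply mul_left_cancel₀ (mul_ne_zero h1 h2)
    simp only [mul_comp, sub_comp, X_comp, C_comp] at h
    rw [C_sub, map_ofNat]
    linear_combination h

end Pool.Agent.MP_3e91a1_nt.F5

end

section

set_option autoImplicit false

open Finset Polynomial Filter Topology
open scoped Classical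

namespace Pool.Agent.MP_3e91a1_nt.F5

open Pool.Agent.MP_760060_nt.W

theorem mem_AN4 {v : ℕ} {x : ℤ} : x ∈ XF v ↔ (-(5 * v : ℤ) ≤ x ∧ x ≤ 5 * v) ∧ x % 5 ≠ 0 := by
  rw [XF, mem_filter, mem_Icc]

theorem card_AN4 (v : ℕ) : #(XF v) = 8 * v := by
  have h : XF v = (Ico (-(v : ℤ)) v ×ˢ Icc (1 : ℤ) 4).image fun p => 5 * p.1 + p.2 := by
    ext x
    simp only [mem_AN4, mem_image, mem_product, mem_Ico, mem_Icc, Prod.exists]
    constructor
    · intro h
      exact ⟨x / 5, x % 5, by omega, by omega⟩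
    · rintro ⟨a, b, h, rfl⟩
      omega
  rw [h, card_image_of_injOn, card_product, Int.card_Ico, Int.card_Icc]
  · have e1 : ((v : ℤ) - -(v : ℤ)).toNat = 2 * v := by omega
    have e2 : ((4 : ℤ) + 1 - 1).toNat = 4 := by decide
    rw [e1, e2]
    omega
  · rintro ⟨a, b⟩ h1 ⟨c, d⟩ h2 h3
    simp only [coe_product, Set.mem_prod, mem_coe, mem_Ico, mem_Icc] at h1 h2 h3
    simp only [Prod.mk.injEq]
    omega

theorem cardJ_AN4 (v : ℕ) : 8 * v ≤ #((XF v).filter fun t => t + 5 ∈ XF v) + 4 := by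
  have h1 : XF v ⊆ ((XF v).filter fun t => t + 5 ∈ XF v) ∪
      Icc (5 * (v : ℤ) - 4) (5 * (v : ℤ) - 1) := by
    intro t ht
    simp only [mem_union, mem_filter, mem_Icc, mem_AN4] at ht ⊢
    omega
  have h2 := (card_le_card h1).trans (card_union_le _ _)
  rw [card_AN4, Int.card_Icc] at h2
  omega

theorem comp_AN4 (Q : ℚ[X]) : (Q.comp (X + 5)).natDegree = Q.natDegree := by
  rw [natDegree_comp, show (5 : ℚ[X]) = C 5 from rfl, natDegree_X_add_C, mul_one]

theorem N4_pf (hSH : SH_st) (hN3 : N3_st) : N4_st := by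
  intro v hv
  refine ⟨card_AN4 v, fun f hf h => ?_⟩
  by_contra hf0
  have hfd : f.natDegree < 4 * v - 2 := (natDegree_lt_iff_degree_lt hf0).2 hf
  obtain ⟨Q, hQd, hQ⟩ := stN1 (XF v) (fun x => la x * f.eval (x : ℚ)) (4 * v - 2 + 4)
    (by rw [card_AN4]; omega) h
  have hQn : Q.natDegree < 4 * v - 2 := by
    rcases eq_or_ne Q 0 with rfl | h0
    · rw [natDegree_zero]
      omega
    · have h1 := (natDegree_lt_iff_degree_lt h0).2 hQd
      rw [card_AN4] at h1
      omega
  have hW : (X + 5) * (Q.comp (X + 5) * f - Q * f.comp (X + 5)) - f * f.comp (X + 5) = 0 := by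
    refine eq_zero_of_natDegree_lt_card_of_eval_eq_zero' _
      (((XF v).filter fun t => t + 5 ∈ XF v).image fun t : ℤ => (t : ℚ)) (fun y hy => ?_) ?_
    · obtain ⟨x, hx, rfl⟩ := mem_image.1 hy
      rw [mem_filter] at hx
      have hz := (mem_AN4.1 hx.1).2
      have a5 : (x : ℚ) + 5 ≠ 0 := by
        have : x + 5 ≠ 0 := by omega
        exact_mod_cast this
      have b0 : ∀ T : ℚ[X], (T.comp (X + 5)).eval (x : ℚ) = T.eval ((x + 5 : ℤ) : ℚ) := by
        intro T
        rw [eval_comp]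
        simp
      have b1 : la (x + 5) = la x + ((x + 5 : ℤ) : ℚ)⁻¹ :=
        hSH ℚ (fun m => (m : ℚ)⁻¹) (fun m => by push_cast; rw [inv_neg]) x hz
      have b2 : ((x : ℚ) + 5) * ((x + 5 : ℤ) : ℚ)⁻¹ = 1 := by
        push_cast
        exact mul_inv_cancel₀ a5
      simp only [eval_sub, eval_mul, eval_add, eval_X, eval_ofNat, b0, hQ _ hx.1, hQ _ hx.2, b1]
      linear_combination (f.eval (x : ℚ) * f.eval ((x + 5 : ℤ) : ℚ)) * b2
    · rw [card_image_of_injective _ Int.cast_injective]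
      have c0 : (X + 5 : ℚ[X]).natDegree ≤ 1 := by compute_degree
      have c1 := natDegree_mul_le (p := Q.comp (X + 5)) (q := f)
      have c2 := natDegree_mul_le (p := Q) (q := f.comp (X + 5))
      have c3 := natDegree_mul_le (p := f) (q := f.comp (X + 5))
      have c4 := natDegree_mul_le (p := (X + 5 : ℚ[X]))
        (q := Q.comp (X + 5) * f - Q * f.comp (X + 5))
      have c5 := natDegree_sub_le ((X + 5) * (Q.comp (X + 5) * f - Q * f.comp (X + 5)))
        (f * f.comp (X + 5))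
      have c6 := natDegree_sub_le (Q.comp (X + 5) * f) (Q * f.comp (X + 5))
      have c7 := cardJ_AN4 v
      rw [comp_AN4] at c1 c2 c3
      omega
  exact hf0 (hN3 Q f (sub_eq_zero.1 hW))

end Pool.Agent.MP_3e91a1_nt.F5

end

section

set_option autoImplicit false

open Finset Polynomial Filter Topology
open scoped Classical

namespace Pool.Agent.MP_3e91a1_nt.F5

open Pool.Agent.MP_760060_nt.W

theorem lin_AN5 (Λ : ℚ[X] →ₗ[ℚ] ℚ) (d k : ℕ) (z : Fin (d + 1) → ℚ) (hz : Function.Injective z)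
    (H : ∀ f : ℚ[X], f.degree < d → (∀ j < d + k + 1, Λ (f * X ^ j) = 0) → f = 0) :
    ∃ y, ∀ f : ℚ[X], f.degree < d →
      (∀ j < d + k, Λ ((X - C (z y)) * f * X ^ j) = 0) → f = 0 := by
  by_contra hc
  have h1 : ∀ y : Fin (d + 1), ∃ f : ℚ[X], f.degree < d ∧
      (∀ j < d + k, Λ ((X - C (z y)) * f * X ^ j) = 0) ∧ f ≠ 0 := fun y => by
    by_contra h
    exact hc ⟨y, fun f a b => by_contra fun c => h ⟨f, a, b, c⟩⟩
  choose f hf1 hf2 hf3 using h1
  have hm := fun y => N5J.mom Λ _ (f y) _ (hf2 y)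
  have hc0 : ∀ y, Λ (f y) ≠ 0 := fun y h => hf3 y (H _ (hf1 y) fun j hj => by
    rw [hm y j (by omega), h, zero_mul])
  have hli : LinearIndependent ℚ fun y => (⟨f y, mem_degreeLT.2 (hf1 y)⟩ : degreeLT ℚ d) := by
    rw [Fintype.linearIndependent_iff]
    intro α hα y
    have h2 : ∑ y, α y • f y = 0 := by simpa using congrArg Subtype.val hα
    have h3 := Matrix.eq_zero_of_forall_pow_sum_mul_pow_eq_zero
      (f := z) (v := fun y => α y * Λ (f y)) hz fun i => by
        have h4 := congrArg (fun g => Λ (g * X ^ (i : ℕ))) h2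
        simp only [sum_mul, smul_mul_assoc, map_sum, map_smul, zero_mul, map_zero,
          smul_eq_mul] at h4
        rw [← h4]
        refine sum_congr rfl fun y _ => ?_
        rw [hm y i (by omega), mul_assoc]
    exact (mul_eq_zero.1 (congrFun h3 y)).resolve_right (hc0 y)
  have := Module.Finite.of_basis (degreeLT.basis ℚ d)
  have h5 := hli.fintype_card_le_finrank
  rw [Module.finrank_eq_card_basis (degreeLT.basis ℚ d), Fintype.card_fin, Fintype.card_fin] at h5
  omega

theorem N5_pf : N5_st := by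
  intro Y F d k hd H
  let Λ : ℚ[X] →ₗ[ℚ] ℚ :=
    { toFun := fun g => dd Y fun x => F x * g.eval (x : ℚ)
      map_add' := fun a b => by simp only [dd, eval_add, mul_add, add_div, sum_add_distrib]
      map_smul' := fun c a => by
        simp only [dd, eval_smul, smul_eq_mul, RingHom.id_apply, mul_sum]
        exact sum_congr rfl fun x _ => by ring }
  obtain ⟨z, hz⟩ : ∃ z : Fin (d + 1) ↪ ℤ, ∀ i, z i ∈ Y := by
    obtain ⟨e⟩ : Nonempty (Fin (d + 1) ↪ Y) :=
      Function.Embedding.nonempty_of_card_le (by simpa using hd)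
    exact ⟨e.trans (Function.Embedding.subtype _), fun i => (e i).2⟩
  obtain ⟨y, hy⟩ := lin_AN5 Λ d k (fun i => (z i : ℚ)) (Int.cast_injective.comp z.injective)
    fun f h1 h2 => H f h1 fun j hj => by
      simpa only [Λ, LinearMap.coe_mk, AddHom.coe_mk, eval_mul, eval_pow, eval_X, mul_assoc]
        using h2 j hj
  refine ⟨z y, hz y, fun f h1 h2 => hy f h1 fun j hj => ?_⟩
  have e := AnaJ.key (hz y) (z y : ℚ) fun x => F x * f.eval (x : ℚ) * (x : ℚ) ^ j
  rw [h2 j hj, sub_self, zero_mul, add_zero] at e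
  rw [← e]
  simp only [Λ, LinearMap.coe_mk, AddHom.coe_mk, eval_mul, eval_pow, eval_X, eval_sub, eval_C]
  exact congrArg (dd Y) (funext fun x => by ring)

end Pool.Agent.MP_3e91a1_nt.F5

end

section

set_option autoImplicit false

open Finset Polynomial Filter Topology
open scoped Classical

namespace Pool.Agent.MP_3e91a1_nt.F5

open Pool.Agent.MP_760060_nt.W

theorem it_ANZF (hN5 : N5_st) (F : ℤ → ℚ) (d k : ℕ) : ∀ X : Finset ℤ, d + k ≤ #X → Ok X F d k →
    ∃ Y ⊆ X, #Y + k = #X ∧ Ok Y F d 0 := by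
  induction k with
  | zero => exact fun X _ h => ⟨X, Subset.rfl, rfl, h⟩
  | succ k ih =>
    intro X h1 h2
    obtain ⟨y, hy, h3⟩ := hN5 X F d k (by omega) h2
    have e := card_erase_add_one hy
    obtain ⟨Y, a, b, c⟩ := ih _ (by omega) h3
    exact ⟨Y, a.trans (erase_subset _ _), by omega, c⟩

theorem NZF_pf (hN4 : N4_st) (hN5 : N5_st) : NZF_st := by
  intro v hv
  obtain ⟨h1, h2⟩ := hN4 v (by omega)
  obtain ⟨Y, a, b, h0⟩ := it_ANZF hN5 la _ 4 _ (by omega) h2
  refine ⟨Y, a, by omega, fun hd => ?_⟩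
  obtain ⟨c, hc, hM⟩ := Matrix.exists_vecMul_eq_zero_iff.2 hd
  have hf := h0 _ (degree_sum_fin_lt c) fun j hj => by
    have h5 := congrFun hM ⟨j, hj⟩
    simp only [Matrix.vecMul, dotProduct, Matrix.of_apply, Pi.zero_apply, dd, mul_sum] at h5
    rw [← h5, sum_comm, dd]
    refine sum_congr rfl fun x _ => ?_
    rw [eval_finsetSum, mul_sum, sum_mul, sum_div]
    refine sum_congr rfl fun i _ => ?_
    simp only [eval_mul, eval_C, eval_pow, eval_X]
    ring
  refine hc (funext fun i => ?_)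
  have h6 := congrArg (fun f : ℚ[X] => f.coeff i) hf
  simpa [Fin.val_inj, coeff_X_pow, finsetSum_coeff] using h6

end Pool.Agent.MP_3e91a1_nt.F5

end

section

set_option autoImplicit false

open Finset Polynomial Filter Topology
open scoped Classical

namespace Pool.Agent.MP_3e91a1_nt.F5

open Pool.Agent.MP_760060_nt.W

theorem om_ADDC (S Y : Finset ℤ) (x : ℤ) (h : S ⊆ Y) (hx : x ∈ S) :
    om Y x = om S x * ∏ w ∈ Y \ S, ((x : ℚ) - w) := by
  have e : Y.erase x = S.erase x ∪ Y \ S := by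
    ext w
    simp only [mem_erase, mem_union, Finset.mem_sdiff]
    constructor
    · rintro ⟨h1, h2⟩
      by_cases h3 : w ∈ S
      · exact Or.inl ⟨h1, h3⟩
      · exact Or.inr ⟨h2, h3⟩
    · rintro (⟨h1, h2⟩ | ⟨h1, h2⟩)
      · exact ⟨h1, h h2⟩
      · exact ⟨fun e => h2 (e ▸ hx), h1⟩
  unfold om
  rw [e, prod_union (disjoint_left.2 fun w h1 h2 => (Finset.mem_sdiff.1 h2).2 (mem_of_mem_erase h1))]

theorem fib_ADDC {A : Type} [AddCommMonoid A] (q : ℕ) (Y : Finset ℤ) (f : ℤ → A) (hq : 0 < q) :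
    ∑ m ∈ range q, ∑ x ∈ cls q m Y, f x = ∑ x ∈ Y, f x := by
  have h0 : (0 : ℤ) < q := by exact_mod_cast hq
  rw [← sum_fiberwise_of_maps_to (s := Y) (t := range q) (g := fun x : ℤ => (x % (q : ℤ)).toNat)
    (fun x _ => by
      have h1 := Int.emod_lt_of_pos x h0
      have h2 := Int.emod_nonneg x h0.ne'
      rw [mem_range]; omega) f]
  refine sum_congr rfl fun m _ => sum_congr ?_ fun _ _ => rfl
  refine filter_congr fun x _ => ?_
  have h2 := Int.emod_nonneg x h0.ne'
  omega

theorem DDC_pf : DDC_st := by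
  refine ⟨om_ADDC, fun q Y F hq => ?_, fun S Y F h => ?_, fun q Y f hq => fib_ADDC q Y f hq⟩
  · unfold dd
    rw [← fib_ADDC q Y _ hq]
    refine sum_congr rfl fun m _ => sum_congr rfl fun x hx => ?_
    rw [om_ADDC (cls q m Y) Y x (filter_subset _ _) hx, div_div, mul_comm]
  · unfold dd
    rw [← sum_subset h fun x h1 h2 => ?_]
    · refine sum_congr rfl fun x hx => ?_
      have h1 : ∏ w ∈ Y \ S, ((x : ℚ) - w) ≠ 0 := prod_ne_zero_iff.2 fun w hw e =>
        (Finset.mem_sdiff.1 hw).2 (by rw [← Int.cast_injective (sub_eq_zero.1 e)]; exact hx)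
      rw [om_ADDC S Y x h hx, mul_div_mul_right _ _ h1]
    · have h3 : ∏ w ∈ Y \ S, ((x : ℚ) - w) = 0 :=
        prod_eq_zero (Finset.mem_sdiff.2 ⟨h1, h2⟩) (sub_self _)
      simp only [h3, mul_zero, zero_div]

end Pool.Agent.MP_3e91a1_nt.F5

end

section

set_option autoImplicit false

open Finset Polynomial Filter Topology
open scoped Classical

namespace Pool.Agent.MP_3e91a1_nt.F5

open Pool.Agent.MP_760060_nt.W

theorem exp_ACB (Y : Finset ℤ) (c : ℤ → ℚ) (d : ℕ) :
    (Matrix.of fun i j : Fin d => ∑ x ∈ Y, c x * (x : ℚ) ^ ((i : ℕ) + j)).det =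
      ∑ f ∈ (Fintype.piFinset fun _ : Fin d => Y).filter Function.Injective,
        (∏ j, c (f j) * (f j : ℚ) ^ (j : ℕ)) * (Matrix.vandermonde fun i => (f i : ℚ)).det := by
  refine Eq.trans ?_ (sum_filter_of_ne fun f _ h i j e => by_contra fun k => h (by
    rw [Matrix.det_vandermonde_eq_zero_iff.2 ⟨i, j, by rw [e], k⟩, mul_zero])).symm
  simp only [Matrix.det_apply', Matrix.of_apply, prod_univ_sum, mul_sum]
  rw [sum_comm]
  refine sum_congr rfl fun f _ => ?_
  rw [← mul_sum, ← Matrix.det_apply', ← Matrix.det_transpose, Matrix.det_apply', mul_sum]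
  refine sum_congr rfl fun σ _ => ?_
  rw [mul_left_comm, ← prod_mul_distrib]
  congr 1
  exact prod_congr rfl fun i _ => by
    rw [Matrix.transpose_apply, Matrix.vandermonde_apply]
    ring

theorem CB_pf (hVAN : VAN_st) : CB_st := by
  intro Y c d
  rw [exp_ACB, ← sum_fiberwise_of_maps_to (t := powersetCard d Y) (g := fun f => univ.image f)
    fun f hf => mem_powersetCard.2 ⟨image_subset_iff.2 fun i _ =>
      Fintype.mem_piFinset.1 (mem_filter.1 hf).1 i, by
        rw [card_image_of_injective _ (mem_filter.1 hf).2, card_fin]⟩]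
  refine sum_congr rfl fun S hS => ?_
  obtain ⟨h1, h2⟩ := mem_powersetCard.1 hS
  have e : ((Fintype.piFinset fun _ : Fin d => Y).filter Function.Injective).filter
      (fun f => univ.image f = S) =
      (Fintype.piFinset fun _ : Fin d => S).filter Function.Injective := by
    ext f
    simp only [mem_filter, Fintype.mem_piFinset]
    exact ⟨fun h => ⟨fun i => h.2 ▸ mem_image_of_mem f (mem_univ i), h.1.2⟩, fun h =>
      ⟨⟨fun i => h1 (h.1 i), h.2⟩, eq_of_subset_of_card_le (image_subset_iff.2 fun i _ => h.1 i)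
        (by rw [card_image_of_injective _ h.2, card_fin, h2])⟩⟩
  have hx := (S.orderEmbOfFin h2).injective
  have hi : univ.image (S.orderEmbOfFin h2) = S := image_orderEmbOfFin_univ S h2
  generalize ⇑(S.orderEmbOfFin h2) = x at hx hi
  have m : (Matrix.of fun i j : Fin d => ∑ x ∈ S, c x * (x : ℚ) ^ ((i : ℕ) + j)) =
      (Matrix.vandermonde fun i => (x i : ℚ)).transpose *
        (Matrix.diagonal (fun i => c (x i)) * Matrix.vandermonde fun i => (x i : ℚ)) := by
    ext i j
    rw [Matrix.of_apply, ← hi, sum_image hx.injOn, Matrix.mul_apply]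
    exact sum_congr rfl fun k _ => by
      rw [Matrix.diagonal_mul, Matrix.transpose_apply, Matrix.vandermonde_apply,
        Matrix.vandermonde_apply]
      ring
  rw [e, ← exp_ACB, m, Matrix.det_mul, Matrix.det_mul, Matrix.det_transpose, Matrix.det_diagonal,
    ← hi, hVAN d x hx, prod_image hx.injOn]
  ring

end Pool.Agent.MP_3e91a1_nt.F5

end

section

set_option autoImplicit false

open Finset Polynomial Filter Topology
open scoped Classical

namespace Pool.Agent.MP_3e91a1_nt.F5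

open Pool.Agent.MP_760060_nt.W

theorem sw_ACAU (S T : Finset ℤ) : |RR T S| = |RR S T| := by
  rw [RR, RR, Finset.prod_comm]
  simp only [abs_prod]
  exact prod_congr rfl fun _ _ => prod_congr rfl fun _ _ => abs_sub_comm _ _

theorem un_ACAU (hDDC : DDC_st) {S T : Finset ℤ} (h : Disjoint S T) :
    Dc (S ∪ T) = Dc S * Dc T * RR S T ^ 2 := by
  have e1 : ∏ x ∈ S, om (S ∪ T) x = (∏ x ∈ S, om S x) * RR S T := by
    rw [RR, ← prod_mul_distrib]
    exact prod_congr rfl fun x hx => by
      rw [hDDC.1 S _ x subset_union_left hx, union_sdiff_cancel_left h]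
  have e2 : ∏ x ∈ T, om (S ∪ T) x = (∏ x ∈ T, om T x) * RR T S := by
    rw [RR, ← prod_mul_distrib]
    exact prod_congr rfl fun x hx => by
      rw [hDDC.1 T _ x subset_union_right hx, union_sdiff_cancel_right h]
  rw [Dc, prod_union h, e1, e2, abs_mul, abs_mul, abs_mul, sw_ACAU S T, Dc, Dc, ← sq_abs]
  ring

theorem en_ACAU {d : ℕ} {S : Finset ℤ} (h : #S = d) :
    ∃ x : Fin d → ℤ, Function.Injective x ∧ univ.image x = S :=
  ⟨S.orderEmbOfFin h, (S.orderEmbOfFin h).injective, S.image_orderEmbOfFin_univ h⟩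

theorem CAU_pf (hCA0 : CA0_st) (hVAN : VAN_st) (hDDC : DDC_st) : CAU_st := by
  intro d S T h hS hT
  have n : ∀ x ∈ S, ∀ y ∈ T, (x : ℚ) ≠ y := fun x hx y hy e =>
    disjoint_left.1 h hx (Int.cast_injective e ▸ hy)
  refine ⟨prod_ne_zero_iff.2 fun x hx => prod_ne_zero_iff.2 fun y hy =>
    sub_ne_zero.2 (n x hx y hy), ?_⟩
  obtain ⟨x, x1, rfl⟩ := en_ACAU hS
  obtain ⟨y, y1, rfl⟩ := en_ACAU hT
  have x2 := fun i => mem_image_of_mem x (mem_univ i)
  have y2 := fun i => mem_image_of_mem y (mem_univ i)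
  have e : RR (univ.image x) (univ.image y) = ∏ i, ∏ j, ((x i : ℚ) - y j) := by
    rw [RR, prod_image x1.injOn]
    exact prod_congr rfl fun i _ => prod_image y1.injOn
  refine ⟨x, y, x2, y2, ?_⟩
  rw [un_ACAU hDDC h, hVAN d x x1, hVAN d y y1,
    ← hCA0 d (fun i => x i) (fun j => y j) fun i j => n _ (x2 i) _ (y2 j), e]
  ring

end Pool.Agent.MP_3e91a1_nt.F5

end

section

/-! Divided differences of `la` along a progression, at the prime five. -/

set_option autoImplicit false

open Finset Polynomial Filter Topology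
open scoped Classical

namespace Pool.Agent.MP_3e91a1_nt.F5

open Pool.Agent.MP_760060_nt.W

theorem mem_AANA {s x : ℤ} {n : ℕ} :
    x ∈ S5 s n ↔ (s ≤ x ∧ x < s + 5 * n) ∧ (x - s) % 5 = 0 := by
  simp only [S5, mem_filter, mem_Ico]

theorem zero_AANA (s : ℤ) (F : ℤ → ℚ) : dd (S5 s 0) F = 0 := by
  rw [show S5 s 0 = ∅ by simp [S5], AnaJ.dd_empty]

theorem top_AANA (s : ℤ) (n : ℕ) : (S5 s (n + 1)).erase (s + 5 * n) = S5 s n := by
  ext x
  simp only [mem_AANA, mem_erase]
  omega

theorem bot_AANA (s : ℤ) (n : ℕ) (F : ℤ → ℚ) :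
    dd ((S5 s (n + 1)).erase s) F = dd (S5 s n) fun x => F (x + 5) := by
  have e : (S5 s (n + 1)).erase s = (S5 s n).image fun x => x + 5 := by
    ext x
    simp only [mem_AANA, mem_erase, mem_image]
    constructor
    · intro h
      exact ⟨x - 5, by omega, by omega⟩
    · rintro ⟨y, h, rfl⟩
      omega
  have hi : Function.Injective fun x : ℤ => x + 5 := add_left_injective 5
  rw [e, dd, sum_image hi.injOn]
  refine sum_congr rfl fun x _ => ?_
  rw [om, ← image_erase hi _ x, prod_image hi.injOn, om]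
  congr 1
  refine prod_congr rfl fun y _ => ?_
  push_cast
  ring

/-- all divided differences along short progressions in the class of `c` are bounded -/
def OK_AANA (N : ℕ) (c : ℤ) (b : ℝ) (F : ℤ → ℚ) : Prop :=
  ∀ (n : ℕ) (s : ℤ), (s - c) % 5 = 0 → n ≤ N → Vb 5 b (dd (S5 s n) F)

variable [Fact (Nat.Prime 5)] {N : ℕ} {c : ℤ} {b : ℝ} {F : ℤ → ℚ}

theorem mul_AANA (h : OK_AANA N c b F) (t : ℤ) : OK_AANA N c b fun x => (x - t) * F x := by
  intro n s hs hn
  rcases n with _ | n
  · rw [zero_AANA]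
    exact vb_zero b
  · rw [AnaJ.key (a := s + 5 * n) (mem_AANA.2 (by omega)), top_AANA]
    exact (h n s hs (by omega)).add (((vb_int _).sub (vb_int _)).mul0 (h _ s hs hn))

theorem div_AANA (h : OK_AANA N c b F) {w : ℤ} (hw : (w - c) % 5 ≠ 0) :
    OK_AANA N c b fun x => F x / (x - w) := by
  intro n s hs hn
  have ne : ∀ x : ℤ, (x - c) % 5 = 0 → (x : ℚ) - w ≠ 0 := fun x hx h0 => by
    have : x - w = 0 := by exact_mod_cast h0
    omega
  induction n with
  | zero =>
    rw [zero_AANA]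
    exact vb_zero b
  | succ n ih =>
    have h1 := AnaJ.key (S := S5 s (n + 1)) (a := s + 5 * n) (mem_AANA.2 (by omega)) w
      fun x => F x / (x - w)
    rw [top_AANA, AnaJ.dd_congr (G := F) fun x hx =>
      mul_div_cancel₀ _ (ne x (by rw [mem_AANA] at hx; omega))] at h1
    have h3 := (vb_inv_unit (p := 5) (n := s + 5 * n - w) (by omega)).mul0
      ((h _ s hs hn).sub (ih (by omega)))
    rwa [h1, add_sub_cancel_left, Int.cast_sub, inv_mul_cancel_left₀ (ne _ (by omega))] at h3

theorem one_AANA : OK_AANA N c 0 fun _ => 1 := by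
  intro n s _ _
  rcases (S5 s n).eq_empty_or_nonempty with h | h
  · rw [h, AnaJ.dd_empty]
    exact vb_zero 0
  · have := dd_coeff (S5 s n) 1 (degree_one_le.trans_lt (by exact_mod_cast h.card_pos))
    simp only [eval_one] at this
    rw [this, coeff_one]
    split_ifs
    · exact vb_one
    · exact vb_zero 0

theorem la_AANA (hSH : SH_st) (hc : c % 5 ≠ 0) : OK_AANA N c (1 + Nat.log 5 N) la := by
  intro n s hs hn
  rcases n with _ | _ | n
  · rw [zero_AANA]
    exact vb_zero _
  · have e : S5 s (0 + 1) = {s} := by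
      ext x
      simp only [mem_AANA, mem_singleton]
      omega
    have e' : dd {s} la = la s := by simp [dd, om]
    rw [e, e']
    refine (Vb.sum fun m hm => vb_inv_unit ?_).mono (by positivity)
    have := (mem_filter.1 hm).2.1
    rcases abs_cases s with h | h <;> omega
  · have k1 := AnaJ.key (S := S5 s (n + 1 + 1)) (a := s) (mem_AANA.2 (by omega)) 0 la
    have k2 := AnaJ.key (S := S5 s (n + 1 + 1)) (a := s + 5 * (n + 1 : ℕ))
      (mem_AANA.2 (by omega)) 0 la
    rw [bot_AANA] at k1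
    rw [top_AANA] at k2
    have k3 := div_AANA (one_AANA (N := N) (c := c)) (w := -5) (by omega) (n + 1) s hs (by omega)
    rw [AnaJ.dd_congr (G := fun x => la (x + 5) - la x) fun x hx => by
      rw [mem_AANA] at hx
      rw [la, la, hSH ℚ (fun m => (m : ℚ)⁻¹) (fun m => by simp) x (by omega)]
      simp, AnaJ.dd_sub] at k3
    have k4 := ((vb_inv_pow (p := 5) (n := 5) (k := 1) (by decide)).mul
      (vb_inv_log (p := 5) (n := (n + 1 : ℕ)) (R := N)
        (by rw [Nat.abs_cast]; exact_mod_cast (by omega)))).mul k3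
    rw [add_zero, Nat.cast_one] at k4
    convert k4 using 1
    push_cast at k1 k2 ⊢
    field_simp
    linear_combination k1 - k2

omit [Fact (Nat.Prime 5)] in
theorem ANA_pf (hSH : SH_st) : ANA_st := by
  intro _ s n T W hs hW
  have h1 : OK_AANA n s (1 + Nat.log 5 n)
      fun x => la x * (T.map fun t : ℤ => (x : ℚ) - t).prod := by
    induction T using Multiset.induction_on with
    | empty => simpa using la_AANA hSH hs
    | cons t T ih =>
      simp only [Multiset.map_cons, Multiset.prod_cons]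
      convert mul_AANA ih t using 2
      ring
  have h2 : OK_AANA n s (1 + Nat.log 5 n)
      fun x => la x * (T.map fun t : ℤ => (x : ℚ) - t).prod / ∏ w ∈ W, ((x : ℚ) - w) := by
    induction W using Finset.induction_on with
    | empty => simpa using h1
    | insert w W hw ih =>
      simp only [prod_insert hw]
      convert div_AANA (ih fun v hv => hW v (mem_insert_of_mem hv)) (hW w (mem_insert_self _ _))
        using 2
      rw [div_div, mul_comm (_ - _)]
  exact h2 n s (by omega) le_rfl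

end Pool.Agent.MP_3e91a1_nt.F5

end

section

set_option autoImplicit false

open Finset Polynomial Filter Topology
open scoped Classical

namespace Pool.Agent.MP_3e91a1_nt.F5

open Pool.Agent.MP_760060_nt.W

theorem cls0_AFIV (v : ℕ) : cls 5 0 (XF v) = ∅ := by
  ext x
  simp only [cls, XF, mem_filter, mem_Icc, notMem_empty, iff_false]
  omega

theorem cls_AFIV (v m : ℕ) (h0 : m ≠ 0) (h5 : m < 5) :
    cls 5 m (XF v) = S5 (-(5 * v : ℤ) + m) (2 * v) := by
  ext x
  simp only [cls, XF, S5, mem_filter, mem_Icc, mem_Ico]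
  omega

theorem FIV_pf (hANA : ANA_st) (hDDC : DDC_st) : FIV_st := by
  intro v d Y hY
  have : Fact (Nat.Prime 5) := ⟨Nat.prime_five⟩
  have key : ∀ k : ℕ, Vb 5 (1 + Nat.log 5 (10 * v) + 0) (dd Y fun x => la x * (x : ℚ) ^ k) := by
    intro k
    rw [hDDC.2.2.1 Y (XF v) _ hY, hDDC.2.1 5 (XF v) _ (by norm_num)]
    refine Vb.sum fun m hm => ?_
    rcases eq_or_ne m 0 with rfl | h0
    · rw [cls0_AFIV, dd, sum_empty]
      exact vb_zero _
    have h5 := mem_range.1 hm
    have h := hANA (-(5 * v : ℤ) + m) (2 * v) (Multiset.replicate k 0 + (XF v \ Y).val)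
      (XF v \ cls 5 m (XF v)) (by omega) (fun w hw => by
        simp only [cls, XF, Finset.mem_sdiff, mem_filter, mem_Icc] at hw
        omega)
    have e : ∀ x : ℤ, ((Multiset.replicate k 0 + (XF v \ Y).val).map
        fun t : ℤ => (x : ℚ) - t).prod = (x : ℚ) ^ k * ∏ w ∈ XF v \ Y, ((x : ℚ) - w) := by
      intro x
      rw [Multiset.map_add, Multiset.prod_add, Multiset.map_replicate, Multiset.prod_replicate,
        Int.cast_zero, sub_zero]
      rfl
    simp only [e, ← mul_assoc] at h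
    rw [← cls_AFIV v m h0 h5] at h
    refine h.mono ?_
    have : (Nat.log 5 (2 * v) : ℝ) ≤ Nat.log 5 (10 * v) := by
      exact_mod_cast Nat.log_mono_right (by omega)
    linarith
  have h := vb_det (p := 5) (Matrix.of fun i j : Fin d => dd Y fun x =>
    la x * (x : ℚ) ^ ((i : ℕ) + j)) (fun _ => 1 + Nat.log 5 (10 * v)) (fun _ => 0)
    fun i j => key _
  simpa [HF, mul_add] using h

end Pool.Agent.MP_3e91a1_nt.F5

end

section

/-! Divided differences of rational functions with unit denominators are integral. -/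

set_option autoImplicit false

open Finset Polynomial Filter Topology
open scoped Classical

namespace Pool.Agent.MP_3e91a1_nt.F5

open Pool.Agent.MP_760060_nt.W AnaJ

section
variable {p : ℕ} [Fact p.Prime] {S : Finset ℤ} {F : ℤ → ℚ}

theorem one_AINT (S : Finset ℤ) : Vb p 0 (dd S fun _ => 1) := by
  rcases S.eq_empty_or_nonempty with h | h
  · rw [h, dd_empty]
    exact vb_zero 0
  · have := dd_coeff S (C 1) (degree_C_le.trans_lt (by exact_mod_cast h.card_pos))
    simp only [eval_C] at this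
    rw [this, coeff_C]
    split_ifs
    · exact vb_one
    · exact vb_zero 0

theorem mul_AINT (h : ∀ S, Vb p 0 (dd S F)) (t : ℤ) (S : Finset ℤ) :
    Vb p 0 (dd S fun x => (x - t) * F x) := by
  rcases S.eq_empty_or_nonempty with rfl | ⟨a, ha⟩
  · exact vb_zero 0
  · rw [key ha]
    exact (h _).add (((vb_int _).sub (vb_int _)).mul0 (h _))

theorem div_AINT (h : ∀ S' ⊆ S, Vb p 0 (dd S' F)) {w : ℤ} (hw : ∀ x ∈ S, ¬ (p : ℤ) ∣ x - w) :
    ∀ S' ⊆ S, Vb p 0 (dd S' fun x => F x / (x - w)) := by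
  have ne : ∀ x ∈ S, (x : ℚ) - w ≠ 0 := fun x hx h0 => hw x hx (by
    have : x - w = 0 := by exact_mod_cast h0
    rw [this]
    exact dvd_zero _)
  intro S' hS
  induction S' using Finset.induction_on with
  | empty => exact vb_zero 0
  | insert a S' ha ih =>
    have h2 := hS (mem_insert_self a S')
    have h1 := key (mem_insert_self a S') w fun x => F x / (x - w)
    rw [erase_insert ha, dd_congr (G := F) fun x hx => mul_div_cancel₀ _ (ne x (hS hx))] at h1
    have h3 := (vb_inv_unit (hw a h2)).mul0 ((h _ hS).sub (ih ((subset_insert _ _).trans hS)))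
    rwa [h1, add_sub_cancel_left, Int.cast_sub, inv_mul_cancel_left₀ (ne _ h2)] at h3

end

theorem INT_pf : INT_st := by
  intro p _ S W T hW
  have h1 : ∀ S, Vb p 0 (dd S fun x => (T.map fun t : ℤ => (x : ℚ) - t).prod) := by
    induction T using Multiset.induction_on with
    | empty => simpa using one_AINT
    | cons t T ih => simpa only [Multiset.map_cons, Multiset.prod_cons] using mul_AINT ih t
  suffices ∀ S' ⊆ S, Vb p 0 (dd S' fun x =>
    (T.map fun t : ℤ => (x : ℚ) - t).prod / ∏ w ∈ W, ((x : ℚ) - w)) from this S Subset.rfl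
  induction W using Finset.induction_on with
  | empty => simpa using fun S' _ => h1 S'
  | insert w W hw ih =>
    simpa only [prod_insert hw, div_div, mul_comm] using
      div_AINT (ih fun x hx v hv => hW x hx v (mem_insert_of_mem hv))
        fun x hx => hW x hx w (mem_insert_self _ _)

end Pool.Agent.MP_3e91a1_nt.F5

end

section

/-! The block of one residue class in the Newton basis. -/

set_option autoImplicit false

open Finset Polynomial Filter Topology
open scoped Classical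

namespace Pool.Agent.MP_3e91a1_nt.F5

open Pool.Agent.MP_760060_nt.W

theorem inv_ABLK {p : ℕ} [Fact p.Prime] {S : Finset ℤ} {w : ℤ} {k : ℕ}
    (h : ∀ y ∈ S, ¬ (p : ℤ) ^ (k + 1) ∣ w - y) :
    Vb p (#S * k) (∏ y ∈ S, ((w : ℚ) - y))⁻¹ := by
  rw [← prod_inv_distrib]
  simpa using Vb.prod (p := p) (s := S) (c := fun _ => (k : ℝ)) (f := fun y => ((w : ℚ) - y)⁻¹)
    fun y hy => by simpa using vb_inv_pow (h y hy)

theorem af_ABLK (ρ k i : ℕ) : af ρ k i ≤ 0 ∧ af ρ k i ≤ 2 * i - k + 2 ∧
    (i < ρ → af ρ k i ≤ 2 * i - k) := by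
  refine ⟨min_le_left _ _, (min_le_right _ _).trans ?_, fun h => (min_le_right _ _).trans ?_⟩
  · split_ifs <;> linarith
  · rw [if_neg h.not_ge, add_zero]

open BlkJ in
theorem BLK_pf (hINT : INT_st) : BLK_st := by
  intro p d _ S N W F c hN hd h2 hW h1 h0
  obtain ⟨x, hx1, hx2, hx3⟩ := exists_seq S N hN
  choose γ hγ using fun s : ℕ => stNewt #S x (X ^ s)
  refine ⟨fun i s => γ s i, fun i j => dd S fun w => F w * (∏ l ∈ range i, ((w : ℚ) - x l)) *
    (∏ l ∈ range j, ((w : ℚ) - x l)) / ∏ y ∈ W, ((w : ℚ) - y),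
    fun i s => vb_int _, fun i hi j hj => ?_, fun s t => ?_⟩
  · have key : ∀ w ∈ S, ∀ (b : ℝ) (q : ℚ), Vb p b q → Vb p (b - i - j + #S - 1)
        (q * (∏ l ∈ range i, ((w : ℚ) - x l)) * (∏ l ∈ range j, ((w : ℚ) - x l)) /
          (∏ y ∈ W, ((w : ℚ) - y)) / om S w) := fun w hw b q hq => by
      have e1 := vb_newt (p := p) (x := x) (w := w) (i := i)
        fun l hl => hd w hw _ (hx1 l (hl.trans hi))
      have e2 := vb_newt (p := p) (x := x) (w := w) (i := j)
        fun l hl => hd w hw _ (hx1 l (hl.trans hj))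
      have e3 := inv_ABLK (k := 0) fun y hy => by simpa using hW w hw y hy
      have e4 := inv_ABLK (k := 1) (S := S.erase w) fun y hy =>
        h2 w hw y (mem_erase.1 hy).2 (mem_erase.1 hy).1.symm
      rw [cast_card_erase_of_mem hw] at e4
      rw [div_eq_mul_inv, div_eq_mul_inv]
      refine ((((hq.mul e1).mul e2).mul e3).mul e4).mono (le_of_eq ?_)
      push_cast
      ring
    obtain ⟨a1, a2, a3⟩ := af_ABLK (#S - #N) #S i
    obtain ⟨b1, b2, b3⟩ := af_ABLK (#S - #N) #S j
    by_cases h : i < #S - #N ∧ j < #S - #N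
    · exact Vb.sum fun w hw => (key w hw _ _ (h1 w hw)).mono (by linarith [a3 h.1, b3 h.2])
    have e := hINT p S W ((range i).val.map x + (range j).val.map x) hW
    simp only [Multiset.map_add, Multiset.prod_add, Multiset.map_map, Function.comp_def,
      ← prod_eq_multiset_prod] at e
    have e' : Vb p (-(af (#S - #N) #S i + af (#S - #N) #S j) / 2) (∑ w ∈ S, (F w - c) *
        (∏ l ∈ range i, ((w : ℚ) - x l)) * (∏ l ∈ range j, ((w : ℚ) - x l)) /
          (∏ y ∈ W, ((w : ℚ) - y)) / om S w) := Vb.sum fun w hw => by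
      by_cases hw2 : w ∈ N
      · exact (key w hw _ _ (h0 w hw2)).mono (by linarith)
      obtain ⟨l, hl, rfl⟩ := hx3 w hw hw2
      rw [mul_assoc, mul_eq_zero.2 ((not_and_or.1 h).imp
        (fun a => prod_eq_zero (mem_range.2 (hl.trans_le (not_lt.1 a))) (sub_self _))
        fun a => prod_eq_zero (mem_range.2 (hl.trans_le (not_lt.1 a))) (sub_self _))]
      simpa using vb_zero _
    convert (((vb_int c).mul0 e).mono (by linarith)).add e' using 1
    simp only [dd, mul_sum, ← sum_add_distrib]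
    exact sum_congr rfl fun w _ => by ring
  · have e : ∀ w ∈ S, ∀ s : ℕ, (w : ℚ) ^ s =
        ∑ i ∈ range #S, (γ s i : ℚ) * ∏ l ∈ range i, ((w : ℚ) - x l) := fun w hw s => by
      obtain ⟨j, hj, rfl⟩ := hx2 w hw
      have := hγ s j hj
      rw [eval_pow, eval_X] at this
      exact_mod_cast this
    simp only [dd, mul_sum, sum_mul]
    rw [sum_congr rfl fun w hw => by rw [pow_add, e w hw s, e w hw t]]
    simp only [mul_sum, sum_mul, sum_div]
    rw [sum_comm]
    refine Eq.trans ?_ sum_comm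
    refine sum_congr rfl fun j _ => ?_
    rw [sum_comm]
    exact sum_congr rfl fun i _ => sum_congr rfl fun w _ => by ring

end Pool.Agent.MP_3e91a1_nt.F5

end

section

/-! The local bound at a prime without the condition. -/

set_option autoImplicit false

open Finset Polynomial Filter Topology
open scoped Classical

namespace Pool.Agent.MP_3e91a1_nt.F5

open Pool.Agent.MP_760060_nt.W

theorem LC5_pf (hCON : CON_st) (hBLK : BLK_st) (hPHI : PHI_st) (hLAM : LAM_st) (hDDC : DDC_st) : LC5_st := by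
  intro v d p hp Y hY h5 hv hN
  have p0 : 0 < p := by omega
  have hv' : 10 * (v : ℤ) < (p : ℤ) ^ 2 := by exact_mod_cast hv
  have hX : ∀ x ∈ Y, (-(5 * v : ℤ) ≤ x ∧ x ≤ 5 * v) ∧ x % 5 ≠ 0 := fun x hx => by
    simpa only [XF, mem_filter, mem_Icc] using hY hx
  have hc : ∀ m, ∀ x ∈ cls p m Y, ∀ x' ∈ cls p m Y, (p : ℤ) ∣ x - x' := fun m x hx x' hx' =>
    Int.ModEq.dvd ((mem_filter.1 hx').2.trans (mem_filter.1 hx).2.symm)
  have hR : ∀ m < p, Rep p (fun s t : Fin d => dd (cls p m Y) fun x =>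
      la x * (x : ℚ) ^ ((s : ℕ) + t) / ∏ w ∈ Y \ cls p m Y, ((x : ℚ) - w)) #(cls p m Y)
      (af #((cls p m Y).filter (Po p)) #(cls p m Y)) := fun m _ => by
    obtain ⟨c, e⟩ : ∃ c : ℤ, ∀ x ∈ cls p m Y, ((Fm p x).val : ℤ) = c := by
      rcases (cls p m Y).eq_empty_or_nonempty with e | ⟨y, hy⟩
      · exact ⟨0, by simp [e]⟩
      · exact ⟨_, fun x hx => by
          rw [hCON p x y h5 hN (hX x (mem_filter.1 hx).1).2 (hX y (mem_filter.1 hy).1).2
            (hc m x hx y hy)]⟩
    have := hBLK p d (cls p m Y) ((cls p m Y).filter fun x => ¬ Po p x) (Y \ cls p m Y) la c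
      (filter_subset _ _) (hc m) (fun x hx y hy ne e1 => ?_) (fun x hx w hw e1 => ?_)
      (fun x hx => (hLAM.2 p x).2.1 ?_) fun x hx => ?_
    · rwa [← card_filter_add_card_filter_not (s := cls p m Y) (Po p), Nat.add_sub_cancel,
        card_filter_add_card_filter_not] at this
    · have h1 := hX x (mem_filter.1 hx).1
      have h2 := hX y (mem_filter.1 hy).1
      exact ne (sub_eq_zero.1 (Int.eq_zero_of_abs_lt_dvd e1 (abs_lt.2 ⟨by omega, by omega⟩)))
    · rw [Finset.mem_sdiff] at hw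
      exact hw.2 (mem_filter.2 ⟨hw.1, Eq.trans (Int.modEq_of_dvd e1) (mem_filter.1 hx).2⟩)
    · have h1 := hX x (mem_filter.1 hx).1
      exact abs_lt.2 ⟨by omega, by omega⟩
    · rw [← e x (mem_filter.1 hx).1]
      exact (hLAM.2 p x).2.2 (mem_filter.1 hx).2
  have h1 := stBlkD stLemD p d p _ _ _ 0 hR
  have e : HF Y d = (Matrix.of fun s t : Fin d => ∑ m ∈ range p, dd (cls p m Y) fun x =>
      la x * (x : ℚ) ^ ((s : ℕ) + t) / ∏ w ∈ Y \ cls p m Y, ((x : ℚ) - w)).det := by
    simp only [HF, ← hDDC.2.1 p Y _ p0]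
  rw [e]
  refine h1.mono ?_
  have h2 := sum_le_sum fun m (_ : m ∈ range p) =>
    hPHI #((cls p m Y).filter (Po p)) #(cls p m Y)
  have h3 := hDDC.2.2.2 p Y (fun _ => 1) p0
  have h4 := hDDC.2.2.2 p Y (fun x => if Po p x then 1 else 0) p0
  simp only [sum_boole, sum_const, nsmul_eq_mul, mul_one] at h3 h4
  rw [sum_add_distrib, sum_sub_distrib, sum_add_distrib, ← sum_div, ← sum_div, ← mul_sum, h3, h4,
    ← sum_filter, sum_const, nsmul_eq_mul] at h2
  rw [pr, od]
  linarith

end Pool.Agent.MP_3e91a1_nt.F5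

end

section

set_option autoImplicit false

open Finset Polynomial Filter Topology
open scoped Classical

namespace Pool.Agent.MP_3e91a1_nt.F5

open Pool.Agent.MP_760060_nt.W

lemma mem_AODC {v : ℕ} {x : ℤ} : x ∈ XF v ↔ (-(5 * v : ℤ) ≤ x ∧ x ≤ 5 * v) ∧ x % 5 ≠ 0 := by
  rw [XF, mem_filter, mem_Icc]

lemma res_AODC : ∀ s < 5, 3 ≤ #((range 5).filter fun r => r ≠ 0 ∧ (r + s) % 5 ≠ 0) := by decide

lemma cls_AODC {v p : ℕ} {Y : Finset ℤ} (hY : Y ⊆ XF v) (hp : 5 * v < p) (m : ℕ) :
    (if Odd #(cls p m Y) then 1 else 0) + 2 * #(cls p m (Y.filter fun x : ℤ => x + p ∈ Y)) ≤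
      #(cls p m Y) := by
  have h1 : #(cls p m (Y.filter fun x : ℤ => x + p ∈ Y)) ≤ 1 := card_le_one.2 fun x hx y hy => by
    simp only [cls, mem_filter] at hx hy
    have a1 := mem_AODC.1 (hY hx.1.1)
    have a2 := mem_AODC.1 (hY hx.1.2)
    have a3 := mem_AODC.1 (hY hy.1.1)
    have a4 := mem_AODC.1 (hY hy.1.2)
    have := Int.eq_zero_of_abs_lt_dvd (Int.ModEq.dvd (hy.2.trans hx.2.symm)) (abs_lt.2 (by omega))
    omega
  have h2 : 0 < #(cls p m (Y.filter fun x : ℤ => x + p ∈ Y)) → 1 < #(cls p m Y) := fun h => by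
    obtain ⟨x, hx⟩ := card_pos.1 h
    simp only [cls, mem_filter] at hx
    exact one_lt_card.2 ⟨x, mem_filter.2 ⟨hx.1.1, hx.2⟩, x + p,
      mem_filter.2 ⟨hx.1.2, by rw [Int.add_emod_right, hx.2]⟩, by omega⟩
  split_ifs with h
  · rw [Nat.odd_iff] at h
    omega
  · omega

lemma low_AODC {v p : ℕ} (hp' : p ≤ 10 * v) :
    (10 * v - p + 1) / 5 * 3 ≤ #((XF v).filter fun x : ℤ => x + p ∈ XF v) := by
  refine (Nat.mul_le_mul_left _ (res_AODC (p % 5) (Nat.mod_lt _ (by norm_num)))).trans ?_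
  rw [← card_range ((10 * v - p + 1) / 5), ← card_product]
  refine card_le_card_of_injOn (fun q => -(5 * v : ℤ) + 5 * q.1 + q.2) (fun q hq => ?_)
    fun q hq q' hq' e => ?_
  · simp only [coe_product, Set.mem_prod, mem_coe, mem_filter, mem_range, mem_AODC] at hq ⊢
    omega
  · simp only [coe_product, Set.mem_prod, mem_coe, mem_filter, mem_range] at hq hq' e
    exact Prod.ext (by omega) (by omega)

theorem ODC_pf (hDDC : DDC_st) : ODC_st := by
  intro v p Y hY hc hp hp'
  have hs : ∀ S : Finset ℤ, ∑ m ∈ range p, #(cls p m S) = #S := fun S => by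
    have := hDDC.2.2.2 p S (fun _ => 1) (by omega)
    simp only [sum_const, nsmul_eq_mul, mul_one] at this
    exact_mod_cast this
  have h1 := sum_le_sum (s := range p) fun m _ => cls_AODC hY hp m
  rw [sum_add_distrib, ← mul_sum, hs, hs, ← card_filter] at h1
  have h2 : (XF v).filter (fun x : ℤ => x + p ∈ XF v) ⊆ Y.filter (fun x : ℤ => x + p ∈ Y) ∪ XF v \ Y ∪
      (XF v \ Y).image fun z : ℤ => z - p := fun x hx => by
    obtain ⟨a1, a2⟩ := mem_filter.1 hx
    simp only [mem_union, mem_filter, Finset.mem_sdiff, mem_image]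
    by_cases b1 : x ∈ Y
    · by_cases b2 : x + p ∈ Y
      · exact .inl (.inl ⟨b1, b2⟩)
      · exact .inr ⟨x + p, ⟨a2, b2⟩, by ring⟩
    · exact .inl (.inr ⟨a1, b1⟩)
  have h3 := (card_le_card h2).trans ((card_union_le _ _).trans
    (add_le_add (card_union_le _ _) card_image_le))
  rw [card_sdiff_of_subset hY] at h3
  have h4 := low_AODC hp'
  have h5 : 5 * od p Y + 60 * v ≤ 5 * #Y + 6 * p + 110 := by
    unfold od
    omega
  have h6 : (5 * od p Y + 60 * v : ℝ) ≤ 5 * #Y + 6 * p + 110 := by exact_mod_cast h5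
  linarith

end Pool.Agent.MP_3e91a1_nt.F5

end

section

set_option autoImplicit false

open Finset Polynomial Filter Topology
open scoped Classical

namespace Pool.Agent.MP_3e91a1_nt.F5

open Pool.Agent.MP_760060_nt.W

theorem mx_zero_AEX {v p : ℕ} (h : 5 * v < p) : mx v p = 0 := by
  refine sum_eq_zero fun j hj => max_eq_left ?_
  have h1 : (1 : ℝ) ≤ j := by exact_mod_cast (mem_Icc.1 hj).1
  have h2 : (5 * v : ℝ) < p := by exact_mod_cast h
  have h3 : (0 : ℝ) ≤ p := Nat.cast_nonneg p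
  nlinarith

theorem od_le_AEX (p : ℕ) (Y : Finset ℤ) : (od p Y : ℝ) ≤ p := by
  have h : od p Y ≤ p := (card_filter_le _ _).trans (card_range p).le
  exact_mod_cast h

theorem EX_pf (hNZF : NZF_st) (hN4 : N4_st) (hREA : REA_st) (hALL : ALL_st) (hBIG : BIG_st) (hFIV : FIV_st) (hDCV : DCV_st) (hPR5 : PR5_st) (hLC5 : LC5_st) (hPOL : POL_st) (hODC : ODC_st) : EX_st := by
  intro v hv
  obtain ⟨Y, hY, hc, hH⟩ := hNZF v hv
  have hd : 4 * v - 2 ≤ 4 * v := Nat.sub_le _ _
  have hn : (Y.card : ℝ) = 8 * v - 4 := by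
    have h1 : Y.card + 4 = 8 * v := by omega
    have h2 : (Y.card : ℝ) + 4 = 8 * v := by exact_mod_cast h1
    linarith
  have hv0 : (0 : ℝ) ≤ v := Nat.cast_nonneg v
  have hall : ∀ p : ℕ, p.Prime → -(padicValRat p (HF Y (4 * v - 2)) : ℝ) -
      (padicValRat p (Dc Y) : ℝ) / 4 ≤ 6 * v * Nat.log p (10 * v) := by
    intro p hp
    have := Fact.mk hp
    have h := hALL v (4 * v - 2) p Y hY hc hd
    rw [vb_iff_val hH] at h
    linarith
  refine ⟨fun p => -(padicValRat p (HF Y (4 * v - 2)) : ℝ) - (padicValRat p (Dc Y) : ℝ) / 4,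
    hall, ?_, ?_, ?_⟩
  · have := Fact.mk Nat.prime_five
    have h1 := hFIV v (4 * v - 2) Y hY
    obtain ⟨hD, -, -, h2⟩ := hDCV 5 Y
    obtain ⟨h3, h4⟩ := hPR5 v Y hY
    rw [vb_iff_val hH] at h1
    rw [vb_iff_val hD, show 5 * 5 = 25 from rfl] at h2
    rw [hn] at h3 h4
    have h5 : ((4 * v - 2 : ℕ) : ℝ) ≤ 4 * v := by exact_mod_cast hd
    have h6 : (0 : ℝ) ≤ 1 + Nat.log 5 (10 * v) := by positivity
    have h7 := mul_le_mul_of_nonneg_right h5 h6
    nlinarith
  · intro p hp hN h5 hsq hle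
    have := Fact.mk hp
    have h1 := hLC5 v (4 * v - 2) p Y hY h5 hsq hN
    obtain ⟨hD, -, h2, -⟩ := hDCV p Y
    rw [vb_iff_val hH] at h1
    rw [vb_iff_val hD] at h2
    have h3 : (#(Y.filter (Po p)) : ℝ) ≤ 2 / 5 * mx v p + 8 := by
      refine le_trans ?_ (hPOL v p)
      exact_mod_cast card_le_card (filter_subset_filter _ hY)
    unfold cst
    split_ifs with ha hb
    · have h4 : Nat.log p (10 * v) < 2 := Nat.log_lt_of_lt_pow (by omega) hsq
      have h6 : (Nat.log p (10 * v) : ℝ) ≤ 1 := by exact_mod_cast Nat.lt_succ_iff.1 h4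
      have h7 := hall p hp
      nlinarith
    · have h4 := od_le_AEX p Y
      linarith
    · have h4 := hODC v p Y hY (by have := (hN4 v (by omega)).1; omega) (by omega) hle
      rw [mx_zero_AEX (by omega)] at h3
      linarith
  · have h1 := stPF (HF Y (4 * v - 2)) (10 * v) hH fun p hp hlt => by
      have := Fact.mk hp
      exact hBIG v _ p Y hY hlt
    have hD : Dc Y ≠ 0 := by
      have := Fact.mk Nat.prime_five
      exact (hDCV 5 Y).1
    have h2 := stPF (Dc Y) (10 * v) hD fun p hp _ => by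
      have := Fact.mk hp
      exact (hDCV p Y).2.1
    have h3 := hREA v (4 * v - 2) Y (by omega) hY hc hd hH
    have h4 : ∑ p ∈ (Ioc 0 (10 * v)).filter Nat.Prime,
        (-(padicValRat p (HF Y (4 * v - 2)) : ℝ) - (padicValRat p (Dc Y) : ℝ) / 4) * Real.log p =
        -∑ p ∈ (Ioc 0 (10 * v)).filter Nat.Prime,
          (padicValRat p (HF Y (4 * v - 2)) : ℝ) * Real.log p -
        (∑ p ∈ (Ioc 0 (10 * v)).filter Nat.Prime,
          (padicValRat p (Dc Y) : ℝ) * Real.log p) / 4 := by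
      rw [sum_div, ← sum_neg_distrib, ← sum_sub_distrib]
      exact sum_congr rfl fun p _ => by ring
    rw [h4]
    linarith

end Pool.Agent.MP_3e91a1_nt.F5

end

section

set_option autoImplicit false

open Finset Polynomial Filter Topology
open scoped Classical

namespace Pool.Agent.MP_3e91a1_nt.F5

open Pool.Agent.MP_760060_nt.W

lemma lim_ATH (n : ℕ) : Tendsto (fun v : ℕ =>
    (∑ p ∈ (Ioc 0 (n * v / 10)).filter Nat.Prime, Real.log p) / v) atTop (𝓝 ((n : ℝ) / 10)) := by
  rcases Nat.eq_zero_or_pos n with rfl | hn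
  · simp
  have h := (MP_384f6f_nt.PI.theta_lim (α := (n : ℝ) / 10) (by positivity)).comp
    tendsto_natCast_atTop_atTop
  refine h.congr fun v => ?_
  have e : ⌊(n : ℝ) / 10 * v⌋₊ = n * v / 10 := by
    rw [← Nat.floor_div_eq_div (K := ℝ)]; congr 1; push_cast; ring
  simp only [Function.comp, Chebyshev.theta, e]

lemma split_ATH (n v : ℕ) (f : ℕ → ℝ) :
    ∑ p ∈ (Ioc 0 ((n + 1) * v / 10)).filter Nat.Prime, f p =
      ∑ p ∈ (Ioc 0 (n * v / 10)).filter Nat.Prime, f p +
        ∑ p ∈ (Ioc (n * v / 10) ((n + 1) * v / 10)).filter Nat.Prime, f p := by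
  simp only [sum_filter]
  exact (sum_Ioc_consecutive _ (Nat.zero_le _)
    (Nat.div_le_div_right (Nat.mul_le_mul_right v n.le_succ))).symm

theorem TH_pf : TH_st := by
  intro n c
  induction n with
  | zero =>
    intro ε hε
    refine Eventually.of_forall fun v g _ => ?_
    simp only [zero_mul, Nat.zero_div, Ioc_self, filter_empty, sum_empty, range_zero, zero_add]
    positivity
  | succ n ih =>
    intro ε hε
    have h1 := (((lim_ATH (n + 1)).sub (lim_ATH n)).const_mul (c n)).eventually_le_const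
      (show c n * (((n + 1 : ℕ) : ℝ) / 10 - (n : ℝ) / 10) < c n / 10 + ε / 2 by push_cast; linarith)
    filter_upwards [ih (ε / 2) (half_pos hε), h1, eventually_gt_atTop 0] with v h2 h3 hv g hg
    have h4 := h2 g fun k hk => hg k (hk.trans n.lt_succ_self)
    have v0 : (0 : ℝ) < v := by exact_mod_cast hv
    rw [split_ATH, ← sub_div, add_sub_cancel_left, ← mul_div_assoc, div_le_iff₀ v0, mul_sum] at h3
    have h5 : ∑ p ∈ (Ioc (n * v / 10) ((n + 1) * v / 10)).filter Nat.Prime, g p * Real.log p ≤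
        ∑ p ∈ (Ioc (n * v / 10) ((n + 1) * v / 10)).filter Nat.Prime, c n * Real.log p :=
      sum_le_sum fun p hp => by
        obtain ⟨a, b⟩ := mem_Ioc.1 (mem_filter.1 hp).1
        exact mul_le_mul_of_nonneg_right (hg n n.lt_succ_self p (by omega) (by omega))
          (Real.log_natCast_nonneg p)
    rw [split_ATH, sum_range_succ]
    linarith

end Pool.Agent.MP_3e91a1_nt.F5

end

section

set_option autoImplicit false

namespace Pool.Agent.MP_3e91a1_nt.F5

theorem SH_ok : SH_st := SH_pf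
theorem N3_ok : N3_st := N3_pf
theorem N4_ok : N4_st := N4_pf SH_ok N3_ok
theorem N5_ok : N5_st := N5_pf
theorem NZF_ok : NZF_st := NZF_pf N4_ok N5_ok
theorem LAM_ok : LAM_st := LAM_pf
theorem DDC_ok : DDC_st := DDC_pf
theorem VAN_ok : VAN_st := VAN_pf
theorem CB_ok : CB_st := CB_pf VAN_ok
theorem HE_ok : HE_st := HE_pf CB_ok DDC_ok
theorem CA0_ok : CA0_st := CA0_pf
theorem CAU_ok : CAU_st := CAU_pf CA0_ok VAN_ok DDC_ok
theorem REA_ok : REA_st := REA_pf HE_ok CAU_ok LAM_ok
theorem ALL_ok : ALL_st := ALL_pf HE_ok CAU_ok LAM_ok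
theorem BIG_ok : BIG_st := BIG_pf LAM_ok
theorem ANA_ok : ANA_st := ANA_pf SH_ok
theorem FIV_ok : FIV_st := FIV_pf ANA_ok DDC_ok
theorem DCV_ok : DCV_st := DCV_pf DDC_ok
theorem PR5_ok : PR5_st := PR5_pf DDC_ok
theorem H5_ok : H5_st := H5_pf
theorem CON_ok : CON_st := CON_pf SH_ok H5_ok
theorem INT_ok : INT_st := INT_pf
theorem BLK_ok : BLK_st := BLK_pf INT_ok
theorem PHI_ok : PHI_st := PHI_pf
theorem LC5_ok : LC5_st := LC5_pf CON_ok BLK_ok PHI_ok LAM_ok DDC_ok
theorem POL_ok : POL_st := POL_pf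
theorem ODC_ok : ODC_st := ODC_pf DDC_ok
theorem EX_ok : EX_st := EX_pf NZF_ok N4_ok REA_ok ALL_ok BIG_ok FIV_ok DCV_ok PR5_ok LC5_ok POL_ok ODC_ok
theorem TH_ok : TH_st := TH_pf
theorem STP_ok : STP_st := STP_pf TH_ok
theorem SML_ok : SML_st := SML_pf
theorem SUF_ok : SUF_st := SUF_pf STP_ok SML_ok
theorem DEN_ok : DEN_st := DEN_pf EX_ok SUF_ok

end Pool.Agent.MP_3e91a1_nt.F5

end
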