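import Pool.Agent.MP_3e91a1_nt.St
import Pool.Agent.MP_3e91a1_nt.F5.Defs
import Pool.Agent.Mg.F3e91a1.G6cb807
import Pool.Agent.MP_346737_nt.VDens
import Pool.Agent.Mg.F3e91a1.G04239b
import Pool.Agent.Mg.F3e91a1.G2f4f64

set_option linter.all false

section

/-! Statements of the algebraic steps for the field generated by two square roots. -/

set_option autoImplicit false

open NumberField IsDedekindDomain Module Filter Topology Finset Polynomial
open scoped Classical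

namespace Pool.Agent.MP_3e91a1_nt.F5

open MP_e23604_nt MP_e23604_nt.B MP_e23604_nt.R MP_f3cd89_nt

/-- Jacobi sums of characters of orders five and `p` -/
def JAC5_st : Prop := ∀ (p q : ℕ) (M : Type) [Field M] [NumberField M] (ζ η : 𝓞 M)
  (φ : 𝓞 M →+* ZMod q), p.Prime → q.Prime → 5 < p → IsPrimitiveRoot ζ p → IsPrimitiveRoot η 5 →
  IsPrimitiveRoot (φ ζ) p → IsPrimitiveRoot (φ η) 5 → ∃ J J' : 𝓞 M, J * J' = q ∧
    ∀ (ψ : 𝓞 M →+* ZMod q) (s t : ℕ), 0 < s → s < 5 → 0 < t → t < p → ψ η = φ η ^ s →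
      ψ ζ = φ ζ ^ t → (p * s + 5 * t < 5 * p → ψ J = 0) ∧ (5 * p < p * s + 5 * t → ψ J' = 0)

/-- the Stickelberger sum -/
def SM5_st : Prop := ∀ (p : ℕ) [Fact p.Prime] (χ : MulChar (ZMod 5) ℤ), χ 2 = -1 → 5 < p → NW p →
  ∑ x ∈ (range 5).filter (fun x => x.Coprime 5), ∑ y ∈ Ico 1 p,
    (if p * x + 5 * y < 5 * p then ((y : ZMod p) * ((χ x : ℤ) : ZMod p))⁻¹ else 0) ≠ 0

/-- the odd part -/
def ODD5_st : Prop := ∀ (p q : ℕ) [Fact p.Prime] (χ : MulChar (ZMod 5) ℤ) (M : Type) [Field M]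
  [NumberField M] [IsCyclotomicExtension {5 * p} ℚ M] (ξ : 𝓞 M) (φ : 𝓞 M →+* ZMod q) (w : Pr M)
  (f : Pr M → ZMod p), χ 2 = -1 → 5 < p → IsPrimitiveRoot ξ (5 * p) → q.Prime → ¬ q ∣ 5 * p →
  w.asIdeal = RingHom.ker φ → NW p → Kil f →
  (∀ (σ : M ≃ₐ[ℚ] M) (a : ℕ), σ • ξ = ξ ^ a → ∀ v,
    f (gact σ v) = (a : ZMod p) * ((χ a : ℤ) : ZMod p) * f v) → f w = 0

/-- the vanishing theorem in the cyclotomic field -/
def CY5_st : Prop := ∀ (p ε : ℕ) [Fact p.Prime] (χ : MulChar (ZMod 5) ℤ) (M : Type) [Field M]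
  [NumberField M] [IsCyclotomicExtension {5 * p} ℚ M] (ξ : 𝓞 M) (f : Pr M → ZMod p), χ 2 = -1 →
  5 < p → IsPrimitiveRoot ξ (5 * p) → ε = 0 ∨ ε = 1 → NW p → Kil f →
  (∀ (σ : M ≃ₐ[ℚ] M) (a : ℕ), σ • ξ = ξ ^ a → ∀ v,
    f (gact σ v) = (a : ZMod p) * ((χ a : ℤ) : ZMod p) ^ ε * f v) → ∀ v, f v = 0

/-- the square root of five is cyclotomic -/
def KW5_st : Prop := ∀ t : Qb, t ^ 2 = 5 → ∃ χ : MulChar (ZMod 5) ℤ, χ 2 = -1 ∧
  ∀ (g : GQ) (a : ℕ), (∀ z : Qb, z ^ 5 = 1 → g z = z ^ a) → g t = (χ a : ℤ) * t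

/-- the real quadratic field -/
def BS5_st : Prop := ∀ (p r : ℕ) [Fact p.Prime] (ζ t : Qb), 5 < p → t ^ 2 = 5 → NW p →
  IsPrimitiveRoot ζ p → IsPrimitiveRoot (r : ZMod p) (p - 1) →
  Good p ζ r r (MulAction.stabilizer GQ t)

/-- descent to a subfield -/
def DSC_st : Prop := ∀ (p : ℕ) [Fact p.Prime] (L M : Type) [Field L] [NumberField L] [Field M]
  [NumberField M] [Algebra L M] [IsGalois L M] (F : Pr M → ZMod p), ¬ p ∣ finrank L M → Kil F →
  (∀ (τ : M ≃ₐ[L] M) (w : Pr M), F (gact τ w) = F w) →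
  ∃ f : Pr L → ZMod p, Kil f ∧ ((∀ v, f v = 0) → ∀ w, F w = 0) ∧
    ((∀ w : Pr M, (p : 𝓞 M) ∈ w.asIdeal → F w = 0) →
      ∀ v : Pr L, (p : 𝓞 L) ∈ v.asIdeal → f v = 0) ∧
    ∀ (σ : M ≃ₐ[ℚ] M) (σ' : L ≃ₐ[ℚ] L) (c : ZMod p),
      (∀ x, σ (algebraMap L M x) = algebraMap L M (σ' x)) → (∀ w, F (gact σ w) = c * F w) →
      ∀ v, f (gact σ' v) = c * f v

/-- a subgroup of index at most two -/
def ST2_st : Prop := ∀ (p r : ℕ) [Fact p.Prime] (ζ : Qb) (e : ZMod p) (U W : Subgroup GQ)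
  (δ g : GQ) (L : IntermediateField ℚ Qb) [NumberField L] (δ' g' : L ≃ₐ[ℚ] L)
  (f : Pr L → ZMod p), p ≠ 2 → IsPrimitiveRoot ζ p → Good p ζ r e U → W ≤ U →
  IsOpen (W : Set GQ) → g ∈ U → g ζ = ζ → (∀ h ∈ U, h ζ = ζ → h ∈ W ∨ g⁻¹ * h ∈ W) → δ ∈ U →
  δ ζ = ζ ^ r → (∀ x, x ∈ L ↔ Fix (W ⊓ MulAction.stabilizer GQ ζ) x) → Ind δ δ' → Ind g g' →
  δ' * g' = g' * δ' → Kil f → (∀ w : Pr L, (p : 𝓞 L) ∈ w.asIdeal → f w = 0) →
  (∀ w, f (gact δ' w) = e * f w) → ∀ w, f w + f (gact g' w) = 0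

/-- from the three quadratic subfields to the biquadratic field -/
def V4_st : Prop := ∀ (p r : ℕ) [Fact p.Prime] (ζ s t : Qb) (e : ZMod p) (A B : ℤ), p ≠ 2 →
  IsPrimitiveRoot ζ p → s ≠ 0 → t ≠ 0 → s ^ 2 = A → t ^ 2 = B →
  Good p ζ r e (MulAction.stabilizer GQ s) → Good p ζ r e (MulAction.stabilizer GQ t) →
  Good p ζ r e (MulAction.stabilizer GQ (s * t)) →
  Good p ζ r e (MulAction.stabilizer GQ s ⊓ MulAction.stabilizer GQ t)

/-- the result for one prime -/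
def ONE5_st : Prop := ∀ (D : ℕ) (s t : Qb), 0 < D → s ^ 2 = -D → t ^ 2 = 5 → ∃ B : ℕ,
  ∀ (p : ℕ) [Fact p.Prime], B < p → NW p →
    ∀ K, PExt p (IntermediateField.adjoin ℚ {s, t}) K → WeakLeopoldt p K {0}

end Pool.Agent.MP_3e91a1_nt.F5

end

section

set_option autoImplicit false

open NumberField IsDedekindDomain Module Filter Topology Finset Polynomial
open scoped Classical

namespace Pool.Agent.MP_3e91a1_nt.F5

open MP_e23604_nt MP_e23604_nt.B MP_e23604_nt.R MP_f3cd89_nt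

/-- a character of order `n` and its reductions -/
theorem ch_BJAC5 {R F : Type} [CommRing R] [Field F] [Fintype F] {n m : ℕ} {ζ : R} (φ : R →+* F)
    (hn : 1 < n) (hm : m * n = Fintype.card F - 1) (hζ : ζ ^ n = 1)
    (hz : IsPrimitiveRoot (φ ζ) n) :
    ∃ χ : MulChar F R, χ ^ n = 1 ∧ (∀ k, 0 < k → k < n → χ ^ k ≠ 1) ∧
      ∀ (ψ : R →+* F) (t : ℕ), 0 < t → t < n → ψ ζ = φ ζ ^ t →
        (∀ x, ψ (χ x) = x ^ (m * t)) ∧ ∀ x, ψ ((χ ^ (n - 1)) x) = x ^ (m * (n - t)) := by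
  have hF : 1 < Fintype.card F := Fintype.one_lt_card
  have m0 : 0 < m := Nat.pos_of_ne_zero fun h => by rw [h, zero_mul] at hm; omega
  obtain ⟨χ, c1, c2⟩ := chi_WJAC (one_pos.trans hn) hm hζ hz
  have hv : ∀ (ψ : R →+* F) (t : ℕ), ψ ζ = φ ζ ^ t → ∀ k k' : ℕ, k ≠ 0 → k' ≠ 0 →
      t * k ≡ k' [MOD n] → ∀ x, ψ ((χ ^ k) x) = x ^ (m * k') := fun ψ t h k k' a a' e x => by
    rw [χ.pow_apply' a]
    by_cases hx : x = 0
    · rw [hx, MulChar.map_zero, zero_pow a, map_zero, zero_pow (mul_ne_zero m0.ne' a')]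
    · obtain ⟨c, d1, d2⟩ := c2 x hx
      rw [d1, map_pow, map_pow, h, pow_right_comm _ t, d2, ← pow_mul, pow_mul x]
      exact pow_WJAC (by rw [← pow_mul, hm, FiniteField.pow_card_sub_one_eq_one x hx]) e
  refine ⟨χ, c1, fun k a a' h => ?_, fun ψ t t0 t1 h => ⟨fun x => ?_,
    hv ψ t h _ _ (by omega) (by omega) (Nat.ModEq.add_right_cancel' t ?_)⟩⟩
  · obtain ⟨g, hg⟩ := IsCyclic.exists_ofOrder_eq_natCard (α := Fˣ)
    have h1 := hv φ 1 (pow_one _).symm k k a.ne' a.ne' (by rw [one_mul]) g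
    rw [h, MulChar.one_apply_coe, map_one, ← Units.val_pow_eq_pow_val, eq_comm,
      Units.val_eq_one, ← orderOf_dvd_iff_pow_eq_one, hg, Nat.card_eq_fintype_card,
      Fintype.card_units, ← hm] at h1
    exact (Nat.le_of_dvd (mul_pos m0 a) h1).not_gt ((Nat.mul_lt_mul_left m0).2 a')
  · have := hv ψ t h 1 t one_ne_zero t0.ne' (by rw [mul_one]) x
    rwa [pow_one] at this
  · rw [← Nat.mul_succ, Nat.succ_eq_add_one, Nat.sub_add_cancel hn.le, Nat.sub_add_cancel t1.le]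
    exact (Nat.modEq_zero_iff_dvd.2 (dvd_mul_left n t)).trans
      (Nat.modEq_zero_iff_dvd.2 dvd_rfl).symm

theorem JAC5_pf : JAC5_st := by
  intro p q M _ _ ζ η φ hp hq h5 hζ hη hz he
  have : Fact q.Prime := ⟨hq⟩
  have hcard : Fintype.card (ZMod q) = q := ZMod.card q
  obtain ⟨m, hm⟩ : 5 * p ∣ Fintype.card (ZMod q) - 1 := Nat.Coprime.mul_dvd_of_dvd_of_dvd
    ((Nat.coprime_primes Nat.prime_five hp).2 h5.ne)
    (he.dvd_of_pow_eq_one _ (FiniteField.pow_card_sub_one_eq_one _ (he.ne_zero (by norm_num))))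
    (hz.dvd_of_pow_eq_one _ (FiniteField.pow_card_sub_one_eq_one _ (hz.ne_zero hp.ne_zero)))
  have hq2 := hq.two_le
  have m0 : 0 < m := Nat.pos_of_ne_zero fun h => by rw [h, mul_zero] at hm; omega
  obtain ⟨χ, c1, c2, c3⟩ := ch_BJAC5 (m := p * m) φ (by norm_num) (by rw [hm]; ring)
    hη.pow_eq_one he
  obtain ⟨θ, d1, d2, d3⟩ := ch_BJAC5 (m := 5 * m) φ hp.one_lt (by rw [hm]; ring) hζ.pow_eq_one hz
  have hinj : Function.Injective (algebraMap (𝓞 M) M) := RingOfIntegers.coe_injective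
  have hi : ∀ (κ : MulChar (ZMod q) (𝓞 M)) (n : ℕ), 0 < n → κ ^ n = 1 →
      (κ.ringHomComp (algebraMap (𝓞 M) M))⁻¹ = (κ ^ (n - 1)).ringHomComp (algebraMap (𝓞 M) M) :=
    fun κ n n0 hk => by
      refine inv_eq_of_mul_eq_one_right ?_
      rw [← MulChar.ringHomComp_mul, mul_pow_sub_one n0.ne', hk, MulChar.ringHomComp_one]
  have hs : ∀ s t : ℕ, p * s + 5 * t < 5 * p →
      ∑ x : ZMod q, x ^ (p * m * s) * (1 - x) ^ (5 * m * t) = 0 := fun s t h =>
    sum_WJAC _ _ (by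
      rw [hm, show p * m * s + 5 * m * t = (p * s + 5 * t) * m by ring]
      exact (Nat.mul_lt_mul_right m0).2 h)
  refine ⟨jacobiSum χ θ, jacobiSum (χ ^ (5 - 1)) (θ ^ (p - 1)), hinj ?_,
    fun ψ s t s0 s1 t0 t1 hs' ht' => ?_⟩
  · have := jacobiSum_mul_jacobiSum_inv (F := ZMod q) (F' := M)
      (by rw [ringChar.eq_zero, ZMod.ringChar_zmod_n]; exact hq.ne_zero.symm)
      ((MulChar.ringHomComp_ne_one_iff hinj).2 (pow_one χ ▸ c2 1 one_pos (by norm_num)))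
      ((MulChar.ringHomComp_ne_one_iff hinj).2 (pow_one θ ▸ d2 1 one_pos hp.one_lt))
      (by
        rw [← MulChar.ringHomComp_mul, MulChar.ringHomComp_ne_one_iff hinj]
        refine fun h => d2 5 (by norm_num) h5 ?_
        rw [← one_mul (θ ^ 5), ← c1, ← mul_pow, h, one_pow, c1])
    rw [hi χ 5 (by norm_num) c1, hi θ p hp.pos d1, jacobiSum_ringHomComp, jacobiSum_ringHomComp,
      hcard] at this
    rw [map_mul, this, map_natCast]
  obtain ⟨e1, e2⟩ := c3 ψ s s0 s1 hs'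
  obtain ⟨e3, e4⟩ := d3 ψ t t0 t1 ht'
  simp only [jacobiSum, map_sum, map_mul, e1, e2, e3, e4]
  refine ⟨hs s t, fun f => hs _ _ ?_⟩
  have : p * (5 - s) + p * s = p * 5 := by rw [← mul_add, Nat.sub_add_cancel s1.le]
  omega

end Pool.Agent.MP_3e91a1_nt.F5

end

section

set_option autoImplicit false

open NumberField IsDedekindDomain Module Filter Topology Finset Polynomial
open scoped Classical

namespace Pool.Agent.MP_3e91a1_nt.F5

open MP_e23604_nt MP_e23604_nt.B MP_e23604_nt.R MP_f3cd89_nt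

lemma refl_BSM5 (p : ℕ) [Fact p.Prime] :
    ∑ y ∈ (Ico 1 p).filter (fun y => 3 * p < 5 * y ∧ 5 * y < 4 * p), ((y : ZMod p))⁻¹ =
      -∑ y ∈ (Ico 1 p).filter (fun y => p < 5 * y ∧ 5 * y < 2 * p), ((y : ZMod p))⁻¹ := by
  rw [← sum_neg_distrib]
  refine sum_nbij' (fun y => p - y) (fun y => p - y) ?_ ?_ ?_ ?_ ?_
  · intro y hy
    simp only [mem_filter, mem_Ico] at hy ⊢
    omega
  · intro y hy
    simp only [mem_filter, mem_Ico] at hy ⊢
    omega
  · intro y hy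
    simp only [mem_filter, mem_Ico] at hy
    omega
  · intro y hy
    simp only [mem_filter, mem_Ico] at hy
    omega
  · intro y hy
    simp only [mem_filter, mem_Ico] at hy
    rw [Nat.cast_sub (by omega), ZMod.natCast_self, zero_sub, inv_neg, neg_neg]

theorem SM5_pf : SM5_st := by
  intro p hp χ h2 h5 hNW
  have hf : (range 5).filter (fun x => x.Coprime 5) = {1, 2, 3, 4} := by decide
  have c1 : χ ((1 : ℕ) : ZMod 5) = 1 := by rw [Nat.cast_one, map_one]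
  have c2 : χ ((2 : ℕ) : ZMod 5) = -1 := by exact_mod_cast h2
  have c3 : χ ((3 : ℕ) : ZMod 5) = -1 := by
    have : ((3 : ℕ) : ZMod 5) = 2 * 2 * 2 := by decide
    rw [this, map_mul, map_mul, h2]; norm_num
  have c4 : χ ((4 : ℕ) : ZMod 5) = 1 := by
    have : ((4 : ℕ) : ZMod 5) = 2 * 2 := by decide
    rw [this, map_mul, h2]; norm_num
  have h5p : ¬ 5 ∣ p := fun h => by
    have := (Nat.prime_dvd_prime_iff_eq Nat.prime_five hp.out).mp h
    omega
  rw [hf, sum_insert (by decide), sum_insert (by decide), sum_insert (by decide), sum_singleton,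
    c1, c2, c3, c4, ← sum_add_distrib, ← sum_add_distrib, ← sum_add_distrib]
  have key : ∀ y ∈ Ico 1 p,
      ((if p * 1 + 5 * y < 5 * p then ((y : ZMod p) * (((1 : ℤ)) : ZMod p))⁻¹ else 0) +
        ((if p * 2 + 5 * y < 5 * p then ((y : ZMod p) * (((-1 : ℤ)) : ZMod p))⁻¹ else 0) +
        ((if p * 3 + 5 * y < 5 * p then ((y : ZMod p) * (((-1 : ℤ)) : ZMod p))⁻¹ else 0) +
        (if p * 4 + 5 * y < 5 * p then ((y : ZMod p) * (((1 : ℤ)) : ZMod p))⁻¹ else 0)))) =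
      (if 3 * p < 5 * y ∧ 5 * y < 4 * p then ((y : ZMod p))⁻¹ else 0) -
        (if p < 5 * y ∧ 5 * y < 2 * p then ((y : ZMod p))⁻¹ else 0) := by
    intro y _
    simp only [Int.cast_one, Int.cast_neg, mul_one, mul_neg, inv_neg]
    split_ifs <;> first | omega | ring
  rw [sum_congr rfl key, sum_sub_distrib, ← sum_filter, ← sum_filter, refl_BSM5]
  intro h
  apply hNW
  have h2' : (2 : ZMod p) ≠ 0 := by
    intro h0
    have : ((2 : ℕ) : ZMod p) = 0 := by exact_mod_cast h0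
    have := Nat.le_of_dvd (by norm_num) ((ZMod.natCast_eq_zero_iff 2 p).mp this)
    omega
  apply mul_left_cancel₀ h2'
  linear_combination -h

end Pool.Agent.MP_3e91a1_nt.F5

end

section

set_option autoImplicit false

open NumberField IsDedekindDomain Module Filter Topology Finset Polynomial
open scoped Classical

namespace Pool.Agent.MP_3e91a1_nt.F5

open MP_e23604_nt MP_e23604_nt.B MP_e23604_nt.R MP_f3cd89_nt

theorem ODD5_pf (hSPL : SPL_st) (hJAC5 : JAC5_st) (hCNT : CNT_st) (hSM5 : SM5_st) : ODD5_st := by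
  intro p q hp χ M _ _ _ ξ φ w f hχ hdp hξ hq hq' hwk hNW hf hact
  have h0 : 0 < 5 * p := Nat.mul_pos (by norm_num) hp.out.pos
  obtain ⟨h1, -, w', hw⟩ := hSPL (5 * p) q M ξ φ hq h0 hq' hξ
  obtain rfl : w' = w := HeightOneSpectrum.ext (hw.ker.trans hwk.symm)
  have hζ := hξ.pow h0 rfl
  have hη := hξ.pow h0 (mul_comm 5 p)
  obtain ⟨J, J', hJ, hψ⟩ := hJAC5 p q M (ξ ^ 5) (ξ ^ p) φ hp.out hq hdp hζ hη
    (by rw [map_pow]; exact h1.pow h0 rfl) (by rw [map_pow]; exact h1.pow h0 (mul_comm 5 p))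
  obtain ⟨a, ha, hsum⟩ := hCNT p 5 M ξ hp.out (Nat.not_dvd_of_pos_of_lt (by norm_num) hdp) hξ
  have q0 : (q : 𝓞 M) ≠ 0 := Nat.cast_ne_zero.2 hq.ne_zero
  have J0 : J ≠ 0 := left_ne_zero_of_mul (hJ ▸ q0)
  have J0' : J' ≠ 0 := right_ne_zero_of_mul (hJ ▸ q0)
  have ho : ∀ v : Pr M, ord v (J : M) + ord v (J' : M) = ord v ((q : 𝓞 M) : M) := fun v => by
    rw [← ord_mul v (by simpa using J0) (by simpa using J0'), ← hJ]
    rfl
  have hpa : ∀ σ, ¬ p ∣ a σ := fun σ =>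
    hp.out.coprime_iff_not_dvd.1 (Nat.Coprime.coprime_mul_left_right (ha σ).2).symm
  have h5c : ∀ σ, (a σ).Coprime 5 := fun σ => Nat.Coprime.coprime_mul_right_right (ha σ).2
  have h5a : ∀ σ, ¬ 5 ∣ a σ := fun σ => Nat.prime_five.coprime_iff_not_dvd.1 (h5c σ).symm
  have key : ∀ σ : M ≃ₐ[ℚ] M, ord (gact σ⁻¹ w') (J : M) =
      if p * (a σ % 5) + 5 * (a σ % p) < 5 * p then 1 else 0 := fun σ => by
    have mem : ∀ x : 𝓞 M, x ≠ 0 → φ (σ • x) = 0 → ord (gact σ⁻¹ w') (x : M) ≠ 0 := fun x x0 c => by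
      rw [Ne, ord_eq_zero_iff _ x0, not_not, gact_asIdeal,
        Ideal.mem_pointwise_smul_iff_inv_smul_mem, inv_inv, hw.ker]
      exact c
    have h3 := hψ (φ.comp (MulSemiringAction.toRingHom _ (𝓞 M) σ)) (a σ % 5) (a σ % p)
      (Nat.pos_of_ne_zero fun c => h5a σ (Nat.dvd_of_mod_eq_zero c)) (Nat.mod_lt _ (by norm_num))
      (Nat.pos_of_ne_zero fun c => hpa σ (Nat.dvd_of_mod_eq_zero c)) (Nat.mod_lt _ hp.out.pos) (by
        rw [← map_pow, ← pow_eq_pow_mod _ hη.pow_eq_one, pow_right_comm, ← (ha σ).1, ← smul_pow']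
        rfl) (by
        rw [← map_pow, ← pow_eq_pow_mod _ hζ.pow_eq_one, pow_right_comm, ← (ha σ).1, ← smul_pow']
        rfl)
    have e1 := ho (gact σ⁻¹ w')
    rw [show ((q : 𝓞 M) : M) = q from rfl, hw.one] at e1
    have := ord_nonneg (gact σ⁻¹ w') J
    have := ord_nonneg (gact σ⁻¹ w') J'
    split_ifs with c
    · have := mem J J0 (h3.1 c)
      omega
    · have c' : p * (a σ % 5) + 5 * (a σ % p) ≠ 5 * p := fun e => by
        have : 5 ∣ p * (a σ % 5) := by omega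
        rcases (Nat.Prime.dvd_mul Nat.prime_five).1 this with c | c
        · have := (Nat.prime_dvd_prime_iff_eq Nat.prime_five hp.out).1 c
          omega
        · exact h5a σ (by omega)
      have := mem J' J0' (h3.2 (by omega))
      omega
  have hk : ∀ σ : M ≃ₐ[ℚ] M, f (gact σ⁻¹ w') =
      (((a σ % p : ℕ) : ZMod p) * ((χ (a σ % 5 : ℕ) : ℤ) : ZMod p))⁻¹ * f w' := fun σ => by
    have := hact σ _ (ha σ).1 (gact σ⁻¹ w')
    rw [← gact_mul, mul_inv_cancel, gact_one] at this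
    rw [this, ZMod.natCast_mod, ZMod.natCast_mod]
    exact (inv_mul_cancel_left₀
      (mul_ne_zero (fun c => hpa σ ((ZMod.natCast_eq_zero_iff _ _).1 c))
        ((((ZMod.isUnit_iff_coprime _ _).2 (h5c σ)).map χ).map
          (Int.castRingHom (ZMod p))).ne_zero) _).symm
  have H := hf J (by simpa using J0)
  rw [Finsupp.sum_of_support_subset (s := univ.image fun σ : M ≃ₐ[ℚ] M => gact σ⁻¹ w') _
    (fun v hv => by
      have h2 : ord v (J : M) ≠ 0 := Finsupp.mem_support_iff.1 hv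
      have := ho v
      have := ord_nonneg v J
      have := ord_nonneg v J'
      obtain ⟨σ, rfl⟩ := hw.all v (not_not.1 fun c => by
        have := (ord_eq_zero_iff v q0).2 c
        omega)
      exact mem_image.2 ⟨σ⁻¹, mem_univ _, by rw [inv_inv]⟩) _ (by simp),
    sum_image fun σ _ τ _ c => inv_injective (hw.inj _ _ c)] at H
  simp only [dv_apply, key, hk, Int.cast_ite, Int.cast_one, Int.cast_zero,
    ite_mul, one_mul, zero_mul] at H
  have H' := hsum (ZMod p) fun x y => if p * x + 5 * y < 5 * p then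
    ((y : ZMod p) * ((χ x : ℤ) : ZMod p))⁻¹ * f w' else 0
  rw [H] at H'
  refine (mul_eq_zero.1 ?_).resolve_left (hSM5 p χ hχ hdp hNW)
  simpa only [sum_mul, ite_mul, zero_mul] using H'.symm

end Pool.Agent.MP_3e91a1_nt.F5

end

section

set_option autoImplicit false

open NumberField IsDedekindDomain Module Filter Topology Finset Polynomial
open scoped Classical

namespace Pool.Agent.MP_3e91a1_nt.F5

open MP_e23604_nt MP_e23604_nt.B MP_e23604_nt.R MP_f3cd89_nt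

/-- the root of unity is not a power -/
theorem npow_BCY5 {p : ℕ} (h5 : 5 < p) {M : Type} [Field M] [NumberField M]
    [IsCyclotomicExtension {5 * p} ℚ M] {ξ : M} (hξ : IsPrimitiveRoot ξ (5 * p)) (y : M) :
    y ^ p ≠ ξ := by
  intro e
  have : NeZero (5 * p) := ⟨by omega⟩
  have h1 : IsOfFinOrder y := isOfFinOrder_iff_pow_eq_one.2
    ⟨p * (5 * p), by positivity, by rw [pow_mul, e, hξ.pow_eq_one]⟩
  have h2 := orderOf_dvd_iff_pow_eq_one.1
    ((IsPrimitiveRoot.orderOf y).dvd_of_isCyclotomicExtension (5 * p) h1.orderOf_pos.ne')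
  rw [show 2 * (5 * p) = p * 10 by ring, pow_mul, e, hξ.pow_eq_one_iff_dvd] at h2
  have := Nat.le_of_dvd (by norm_num) h2
  omega

theorem CY5_pf (hPSI : PSI_st) (hODD : ODD_st) (hODD5 : ODD5_st) (hSPL : SPL_st) (hSUM : SUM_st) : CY5_st := by
  intro p ε hp χ M _ _ _ ξ f hχ h5 hξ hε hN hf hact v
  obtain ⟨Ψ, hΨ⟩ := hPSI p M f hf
  have h0 : 0 < 5 * p := by omega
  obtain ⟨η, hη⟩ := hξ.isUnit h0.ne'
  suffices H : Ψ = 1 by
    have := hΨ v
    rw [H] at this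
    exact (ofAdd_eq_one.1 this.symm)
  refine MP_346737_nt.density M hp.out h5.le (hξ.pow h0 rfl) η (fun y => npow_BCY5 h5
    (hη ▸ hξ.map_of_injective (RingOfIntegers.coe_injective (K := M))) y) Ψ
    fun q φ hq hqp hφ => ?_
  have : Fact q.Prime := ⟨hq⟩
  by_cases hqd : q ∣ 5
  · have h1 : (Nat.card (ZMod q)ˣ).Coprime p := by
      rw [Nat.card_eq_fintype_card, ZMod.card_units]
      have := Nat.le_of_dvd (by omega) hqd
      have := hq.two_le
      exact (Nat.coprime_of_lt_prime (by omega) (by omega) hp.out).symm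
    obtain ⟨y, hy⟩ := (powCoprime h1).surjective (Units.map φ.toMonoidHom η)
    exact ⟨y, congrArg Units.val hy⟩
  have hq' : ¬ q ∣ 5 * p := fun c =>
    ((Nat.Prime.dvd_mul hq).1 c).elim hqd fun c => hqp ((Nat.prime_dvd_prime_iff_eq hq hp.out).1 c)
  obtain ⟨-, -, w, hw⟩ := hSPL (5 * p) q M ξ φ hq h0 hq' hξ
  have hfw : f w ≠ 0 := fun c => hφ (by rw [← hw.ker, hΨ, c, ofAdd_zero])
  rcases hε with rfl | rfl
  · exact absurd (hODD p 5 1 q M ξ φ w f (by omega) h5 hξ hq hq' hw.ker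
      (hSUM p 1 (by omega) (.inl rfl)) hf fun σ a h v => by simpa using hact σ a h v) hfw
  · exact absurd (hODD5 p q χ M ξ φ w f hχ h5 hξ hq hq' hw.ker hN hf
      fun σ a h v => by simpa using hact σ a h v) hfw

end Pool.Agent.MP_3e91a1_nt.F5

end

section

set_option autoImplicit false

open NumberField IsDedekindDomain Module Filter Topology Finset Polynomial
open scoped Classical

namespace Pool.Agent.MP_3e91a1_nt.F5

open MP_e23604_nt MP_e23604_nt.B MP_e23604_nt.R MP_f3cd89_nt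

lemma chi_BKW5 : ∃ χ : MulChar (ZMod 5) ℤ, χ 2 = -1 := by
  have h : ¬ IsSquare (2 : ZMod 5) := by decide
  have : Fact (Nat.Prime 5) := ⟨by norm_num⟩
  exact ⟨quadraticChar (ZMod 5), quadraticChar_neg_one_iff_not_isSquare.2 h⟩

theorem KW5_pf : KW5_st := by
  intro t ht
  obtain ⟨χ, h2⟩ := chi_BKW5
  have h4 : χ 4 = 1 := by rw [show (4 : ZMod 5) = 2 * 2 from rfl, map_mul, h2]; norm_num
  have h3 : χ 3 = -1 := by rw [show (3 : ZMod 5) = 2 * 4 from rfl, map_mul, h2, h4]; norm_num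
  obtain ⟨η, hη⟩ := HasEnoughRootsOfUnity.exists_primitiveRoot Qb 5
  have h5 : η ^ 5 = 1 := hη.pow_eq_one
  have hS := hη.geom_sum_eq_zero (by norm_num)
  simp only [sum_range_succ, sum_range_zero] at hS
  have hG : (η - η ^ 2 - η ^ 3 + η ^ 4) ^ 2 = 5 := by
    linear_combination (-1) * hS + (4 - η - 2 * η ^ 2 + η ^ 3) * h5
  refine ⟨χ, h2, fun g a hg => ?_⟩
  have ha : g η = η ^ (a % 5) := by rw [hg η h5, ← pow_eq_pow_mod a h5]
  have hc : (a : ZMod 5) = ((a % 5 : ℕ) : ZMod 5) := (ZMod.natCast_mod a 5).symm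
  have key : g (η - η ^ 2 - η ^ 3 + η ^ 4) = (χ a : ℤ) * (η - η ^ 2 - η ^ 3 + η ^ 4) := by
    simp only [map_add, map_sub, map_pow]
    rw [ha, hc]
    have hlt : a % 5 < 5 := Nat.mod_lt _ (by norm_num)
    generalize a % 5 = r at ha hlt
    interval_cases r
    · exact absurd (g.injective (ha.trans (by simp : η ^ 0 = g 1))) (hη.ne_one (by norm_num))
    · rw [Nat.cast_one, map_one]; push_cast; ring
    · rw [Nat.cast_ofNat, h2]; push_cast
      linear_combination (η ^ 3 - η) * h5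
    · rw [Nat.cast_ofNat, h3]; push_cast
      linear_combination (- η + η ^ 2 * (η ^ 5 + 1) - η ^ 4) * h5
    · rw [Nat.cast_ofNat, h4]; push_cast
      linear_combination (η * (η ^ 10 + η ^ 5 + 1) - η ^ 2 * (η ^ 5 + 1) - η ^ 3) * h5
  rcases sq_eq_sq_iff_eq_or_eq_neg.1 (ht.trans hG.symm) with e | e
  · rw [e, key]
  · rw [e, map_neg, key, mul_neg]

end Pool.Agent.MP_3e91a1_nt.F5

end

section

set_option autoImplicit false

open NumberField IsDedekindDomain Module Filter Topology Finset Polynomial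
open scoped Classical

namespace Pool.Agent.MP_3e91a1_nt.F5

open MP_e23604_nt MP_e23604_nt.B MP_e23604_nt.R MP_f3cd89_nt

theorem BS5_pf (hKW5 : KW5_st) (hCY5 : CY5_st) (hTRF : TRF_st) (hRES : RES_st) (hTWR : TWR_st) :
    BS5_st := by
  intro p r _ ζ s hdp hs hNW hζ hr
  obtain ⟨χ, hχ, hact⟩ := hKW5 s hs
  have hp : p.Prime := Fact.out
  have hpd : ¬ p ∣ 5 := fun c => absurd (Nat.le_of_dvd (by omega) c) (by omega)
  have hr0 : ¬ p ∣ r := fun c => by
    have h1 := hr.pow_eq_one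
    rw [(ZMod.natCast_eq_zero_iff r p).2 c, zero_pow (by omega)] at h1
    exact zero_ne_one h1
  refine ⟨stabilizer_isOpen_of_isIntegral s, fun γ => ?_, fun δ hδ hδζ L _ δ' hL hδ' => ?_⟩
  · obtain ⟨τ, h1, h2⟩ := omega_surj (nv_na p γ) hp (nv_lt p γ) hζ hr0
    refine ⟨τ, ⟨Ine_le p γ h1, ?_⟩, h2⟩
    have h3 : nv p γ (5 : ℕ) = 1 := by
      have := v_coprime (nv_na p γ) hp (nv_lt p γ) (n := (5 : ℕ)) (by exact_mod_cast hpd)
      rwa [Int.cast_natCast] at this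
    have := hact τ 1 fun z hz => by rw [pow_one]; exact Inr_root (nv_na p γ) h1 h3 hz
    change τ s = s
    simpa using this
  have hδs : δ s = s := hδ
  have hN : 0 < 5 * p := Nat.mul_pos (by omega) hp.pos
  have : NeZero (5 * p) := ⟨hN.ne'⟩
  obtain ⟨ξ, hξ⟩ := HasEnoughRootsOfUnity.exists_primitiveRoot Qb (5 * p)
  have act : ∀ (g : GQ) (a : ℕ), g ξ = ξ ^ a → g ζ = ζ ^ a ∧ g s = (χ a : ℤ) * s := by
    intro g a h
    have k : ∀ z : Qb, z ^ (5 * p) = 1 → g z = z ^ a := fun z hz => by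
      obtain ⟨k, -, rfl⟩ := hξ.eq_pow_of_pow_eq_one hz
      rw [map_pow, h, pow_right_comm]
    exact ⟨k ζ (by rw [pow_mul', hζ.pow_eq_one, one_pow]),
      hact g a fun z hz => k z (by rw [pow_mul, hz, one_pow])⟩
  have ex : ∀ g : GQ, ∃ a, g ξ = ξ ^ a := fun g => by
    obtain ⟨k, -, h⟩ := hξ.eq_pow_of_pow_eq_one (ξ := g ξ)
      (by rw [← map_pow, hξ.pow_eq_one, map_one])
    exact ⟨k, h.symm⟩
  have le : MulAction.stabilizer GQ ξ ≤ MulAction.stabilizer GQ s ⊓ MulAction.stabilizer GQ ζ :=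
    fun g hg => by
      obtain ⟨h1, h2⟩ := act g 1 (by rw [pow_one]; exact hg)
      exact ⟨by simpa using h2, by simpa using h1⟩
  have cm : ∀ g h : GQ, (h * g)⁻¹ * (g * h) ∈ MulAction.stabilizer GQ ξ := fun g h => by
    obtain ⟨a, ha⟩ := ex g
    obtain ⟨b, hb⟩ := ex h
    have : (g * h) ξ = (h * g) ξ := by
      rw [AlgEquiv.mul_apply, AlgEquiv.mul_apply, ha, hb, map_pow, map_pow, ha, hb, pow_right_comm]
    exact (mem_WBS1 this this).1
  have nrm : ∀ W : Subgroup GQ, MulAction.stabilizer GQ ξ ≤ W →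
      ∀ g h : GQ, h ∈ W ↔ g * h * g⁻¹ ∈ W := fun W hW g h => by
    have := hW (cm (g * h) g⁻¹)
    rw [inv_mul_cancel_left] at this
    exact ((W.mul_mem_cancel_right this).symm.trans (by rw [mul_inv_cancel_left]))
  obtain ⟨L₀, _, hL₀, -, hind, -⟩ := hRES (MulAction.stabilizer GQ s ⊓ MulAction.stabilizer GQ ζ)
    ((stabilizer_isOpen_of_isIntegral s).inter (stabilizer_isOpen_of_isIntegral ζ))
  obtain rfl : L₀ = L := IntermediateField.ext fun x => (hL₀ x).trans (hL x).symm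
  obtain ⟨M, _, hM, -, -, hlift⟩ := hRES _ (stabilizer_isOpen_of_isIntegral (K := ℚ) ξ)
  have hMξ : M = IntermediateField.adjoin ℚ {ξ} :=
    IntermediateField.ext fun x => (hM x).trans (adj_WBS1 ξ x).symm
  have : IsCyclotomicExtension {5 * p} ℚ M :=
    hMξ ▸ hξ.intermediateField_adjoin_isCyclotomicExtension ℚ
  obtain ⟨_, halg, _, -, hfin, -⟩ := hTWR _ _ L₀ M (stabilizer_isOpen_of_isIntegral (K := ℚ) ξ) le
    (fun g _ h hh => (nrm _ le_rfl g h).1 hh) hL hM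
  have hnd : ¬ p ∣ finrank L₀ M := fun c => by
    have h1 : p ∣ (5 : ℕ).totient * (p - 1) := by
      rw [← Nat.totient_prime hp, ← Nat.totient_mul ((Nat.Prime.coprime_iff_not_dvd hp).2 hpd).symm,
        ← IsCyclotomicExtension.Rat.finrank (5 * p) M, ← hfin]
      exact c.mul_left _
    rcases (Nat.Prime.dvd_mul hp).1 h1 with h | h
    · have := Nat.le_of_dvd (Nat.totient_pos.2 (by omega)) h
      have := Nat.totient_le 5
      omega
    · have := Nat.le_of_dvd (by omega) h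
      omega
  obtain ⟨g₁, hg₁⟩ : ∃ g : GQ, g ξ = ξ ^ 2 := by
    have e : Nat.Coprime 2 (5 * p) := Nat.Coprime.mul_right (by norm_num)
      ((Nat.coprime_primes Nat.prime_two hp).2 (by omega))
    have c : IsConjRoot ℚ (ξ ^ 2) ξ :=
      (cyclotomic_eq_minpoly_rat (hξ.pow_of_coprime 2 e) hN).symm.trans
        (cyclotomic_eq_minpoly_rat hξ hN)
    exact c.exists_algEquiv
  obtain ⟨g₀, h0ζ, h0s⟩ : ∃ g : GQ, g ζ = ζ ∧ g s = -s := by
    obtain ⟨h1, h2⟩ := act g₁ _ hg₁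
    obtain ⟨i, -, hi⟩ := log_WBS1 hζ hr hδζ h1
    have h3 : (δ ^ i)⁻¹ s = s := (MulAction.stabilizer GQ s).inv_mem (pow_mem hδ i)
    refine ⟨(δ ^ i)⁻¹ * g₁, (mem_WBS1 hi.symm hi.symm).1, ?_⟩
    rw [Nat.cast_ofNat, hχ] at h2
    rw [AlgEquiv.mul_apply, h2, Int.cast_neg, Int.cast_one, neg_one_mul, map_neg, h3]
  obtain ⟨τ, hτ⟩ := hind g₀ (nrm _ le g₀)
  have hττ : τ * τ = 1 := ind_eq_WBS1 hL (ind_mul_WBS1 hτ hτ) (h := 1) (fun _ => rfl)
    (mem_WBS1 (by rw [AlgEquiv.mul_apply, h0s, map_neg, h0s, neg_neg]; rfl)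
      (by rw [AlgEquiv.mul_apply, h0ζ, h0ζ]; rfl))
  have hc : τ * δ' = δ' * τ :=
    ind_eq_WBS1 hL (ind_mul_WBS1 hτ hδ') (ind_mul_WBS1 hδ' hτ) (le (cm g₀ δ))
  intro f hf _ hfe
  have hξ' : IsPrimitiveRoot (⟨ξ, (hM ξ).2 fun g hg => hg⟩ : M) (5 * p) :=
    IsPrimitiveRoot.coe_submonoidClass_iff.1 hξ
  have key : ∀ ε : ℕ, ε = 0 ∨ ε = 1 → ∀ v, f v + (-1) ^ ε * f (gact τ v) = 0 := by
    intro ε hε
    obtain ⟨F, hF, hF0, hFe⟩ := hTRF p L₀ M _ hnd (kil_WBS1 hf τ ((-1) ^ ε))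
    refine hF0 (hCY5 p ε χ M hξ'.toInteger F hχ hdp hξ'.toInteger_isPrimitiveRoot hε hNW
      hF fun σ a ha => ?_)
    obtain ⟨g, hg⟩ := hlift σ
    obtain ⟨g', hg'⟩ := hind g (nrm _ le g)
    have hga : g ξ = ξ ^ a := by
      have := congrArg (fun x : 𝓞 M => ((x : M) : Qb)) ha
      exact (hg ⟨ξ, (hM ξ).2 fun g hg => hg⟩).symm.trans (this.trans (by simp))
    refine hFe σ g' _ (fun x => Subtype.ext ?_) fun v => ?_
    · rw [hg, halg, halg, hg']
    obtain ⟨h1, h2⟩ := act g a hga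
    obtain ⟨i, hi, hi'⟩ := log_WBS1 hζ hr hδζ h1
    have h3 : (δ ^ i) s = s := pow_mem hδ i
    have h4 : ∀ w, f (gact δ' w) + (-1) ^ ε * f (gact τ (gact δ' w)) =
        (r : ZMod p) * (f w + (-1) ^ ε * f (gact τ w)) := fun w => by
      rw [← gact_mul, hc, gact_mul, hfe, hfe]
      ring
    have h5 := eig_WBS1 (f := fun v => f v + (-1) ^ ε * f (gact τ v)) h4 i
    rw [hi] at h5
    have hu : IsUnit (χ a) := IsUnit.map χ ((ZMod.isUnit_iff_coprime a 5).2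
      (((hξ.pow_iff_coprime hN a).1 (hga ▸ hξ.map_of_injective g.injective)).coprime_mul_right_right))
    rcases Int.isUnit_iff.1 hu with h | h
    · rw [h, Int.cast_one, one_mul] at h2
      rw [ind_eq_WBS1 hL hg' (ind_pow_WBS1 hδ' i) (mem_WBS1 (h2.trans h3.symm) hi'.symm), h,
        Int.cast_one, one_pow, mul_one]
      exact h5 v
    · rw [h, Int.cast_neg, Int.cast_one, neg_one_mul] at h2
      rw [ind_eq_WBS1 hL hg' (ind_mul_WBS1 (ind_pow_WBS1 hδ' i) hτ) (mem_WBS1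
        (by rw [AlgEquiv.mul_apply, h0s, map_neg, h3, h2])
        (by rw [AlgEquiv.mul_apply, h0ζ, hi'])), h, gact_mul]
      refine (h5 _).trans ?_
      rw [← gact_mul, hττ, gact_one]
      rcases hε with rfl | rfl <;> push_cast <;> ring
  intro v
  have h0 := key 0 (Or.inl rfl) v
  have h1 := key 1 (Or.inr rfl) v
  have h2 : (2 : ZMod p) ≠ 0 := fun c => by
    have := Nat.le_of_dvd (by norm_num) ((ZMod.natCast_eq_zero_iff 2 p).1 (by exact_mod_cast c))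
    omega
  refine (mul_eq_zero.1 ?_).resolve_left h2
  linear_combination h0 + h1

end Pool.Agent.MP_3e91a1_nt.F5

end

section

set_option autoImplicit false

open NumberField IsDedekindDomain Module Filter Topology Finset Polynomial
open scoped Classical

namespace Pool.Agent.MP_3e91a1_nt.F5

open MP_e23604_nt MP_e23604_nt.B MP_e23604_nt.R MP_f3cd89_nt

section

variable {L M : Type} [Field L] [NumberField L] [Field M] [NumberField M] [Algebra L M]

theorem mem_BDSC {v : Pr L} {w : Pr M} : w ∈ above M {v} ↔ w.under (𝓞 L) = v := by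
  rw [mem_above, mem_singleton]

theorem deg_BDSC [IsGalois L M] (v : Pr L) : (finrank L M : ℤ) =
    ∑ w ∈ above M {v}, (w.asIdeal.inertiaDeg (𝓞 L) : ℤ) * w.asIdeal.ramificationIdx (𝓞 L) := by
  obtain ⟨u, hu, h1⟩ := exists_ord_eq_one v
  have hu' : (u : L) ≠ 0 := by simpa using hu
  have h := ord_norm (E' := M) v (x := algebraMap L M u) (by simpa using hu')
  rw [Algebra.norm_algebraMap, ord_pow, h1, mul_one,
    finsum_eq_sum_of_support_subset (s := above M {v}) _ fun w hw => by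
      by_contra c
      exact hw (if_neg fun h' => c (mem_BDSC.2 (under_eq h')))] at h
  rw [h]
  refine sum_congr rfl fun w hw => ?_
  have h2 : w.asIdeal.LiesOver v.asIdeal := mem_BDSC.1 hw ▸ over_under w
  rw [if_pos h2, ord_over h2, h1, mul_one]

theorem conj_BDSC [IsGalois L M] {w w' : Pr M} (h : w'.under (𝓞 L) = w.under (𝓞 L)) :
    w'.asIdeal.inertiaDeg (𝓞 L) = w.asIdeal.inertiaDeg (𝓞 L) ∧
      ∃ τ : M ≃ₐ[L] M, w' = gact τ w := by
  have := over_under (E := L) w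
  have : w'.asIdeal.LiesOver (w.under (𝓞 L)).asIdeal := h ▸ over_under w'
  have := w.isPrime
  have := w'.isPrime
  refine ⟨Ideal.inertiaDeg_eq_of_isGaloisGroup (w.under (𝓞 L)).asIdeal _ _ Gal(M/L), ?_⟩
  obtain ⟨τ, hτ⟩ := Ideal.exists_smul_eq_of_isGaloisGroup (w.under (𝓞 L)).asIdeal w.asIdeal
    w'.asIdeal Gal(M/L)
  exact ⟨τ, HeightOneSpectrum.ext (by rw [gact_asIdeal, hτ])⟩

theorem ram_BDSC (σ : M ≃ₐ[ℚ] M) (σ' : L ≃ₐ[ℚ] L)
    (h : ∀ x, σ (algebraMap L M x) = algebraMap L M (σ' x)) (w : Pr M) :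
    (gact σ w).asIdeal.ramificationIdx (𝓞 L) = w.asIdeal.ramificationIdx (𝓞 L) := by
  obtain ⟨u, -, h1⟩ := exists_ord_eq_one (w.under (𝓞 L))
  have h2 := ord_gact σ w (algebraMap L M u)
  have h3 := ord_gact σ' (w.under (𝓞 L)) (u : L)
  rw [show σ • algebraMap L M u = algebraMap L M (σ' • (u : L)) from h u,
    ord_over (over_under (E := L) _), ord_over (over_under (E := L) w), under_WTRF σ σ' h, h3, h1,
    mul_one, mul_one] at h2
  exact_mod_cast h2

end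

theorem DSC_pf : DSC_st := by
  intro p _ L M _ _ _ _ _ _ F hp hF hτ
  refine ⟨fun v => ∑ w ∈ above M {v}, (w.asIdeal.ramificationIdx (𝓞 L) : ZMod p) * F w,
    fun x hx => ?_, fun h w => ?_, fun h v hv => sum_eq_zero fun w hw => ?_,
    fun σ σ' c h hc v => ?_⟩
  · rw [← hF (algebraMap L M x) (by simpa using hx),
      Finsupp.sum_of_support_subset (dv (algebraMap L M x)) (s := above M (dv x).support)
        (fun w hw => mem_above.2 (Finsupp.mem_support_iff.2 fun c =>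
          Finsupp.mem_support_iff.1 hw (by
            rw [dv_apply, ord_over (over_under (E := L) w), ← dv_apply x, c, mul_zero])))
        _ (by simp),
      ← sum_fiberwise_of_maps_to (g := fun w : Pr M => w.under (𝓞 L)) fun w hw => mem_above.1 hw]
    refine sum_congr rfl fun v hv => (mul_sum _ _ _).trans (sum_congr (by
      ext w
      rw [mem_BDSC, mem_filter, mem_above]
      exact ⟨fun e => ⟨e ▸ hv, e⟩, fun e => e.2⟩) fun w hw => ?_)
    rw [dv_apply, dv_apply, ord_over (over_under (E := L) w), (mem_filter.1 hw).2]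
    push_cast
    ring
  · have h1 : ((finrank L M : ℕ) : ZMod p) * F w = 0 := by
      rw [← Int.cast_natCast, deg_BDSC (w.under (𝓞 L)),
        ← mul_zero (w.asIdeal.inertiaDeg (𝓞 L) : ZMod p), ← h (w.under (𝓞 L))]
      push_cast
      rw [sum_mul, mul_sum]
      refine sum_congr rfl fun w' hw' => ?_
      obtain ⟨e, τ, e'⟩ := conj_BDSC (mem_BDSC.1 hw')
      rw [e, ← hτ τ w, ← e', mul_assoc]
    exact (mul_eq_zero.1 h1).resolve_left fun c => hp ((ZMod.natCast_eq_zero_iff _ _).1 c)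
  · rw [← mem_BDSC.1 hw] at hv
    have h1 : algebraMap (𝓞 L) (𝓞 M) p ∈ w.asIdeal := hv
    rw [map_natCast] at h1
    rw [h w h1, mul_zero]
  · refine Eq.trans ?_ (mul_sum _ _ _).symm
    refine (sum_nbij' (gact σ) (gact σ⁻¹) (fun w hw => ?_) (fun w hw => ?_) (fun w _ => ?_)
      (fun w _ => ?_) fun w _ => ?_).symm
    · rw [mem_BDSC, under_WTRF σ σ' h, mem_BDSC.1 hw]
    · have e := under_WTRF σ σ' h (gact σ⁻¹ w)
      rw [← gact_mul, mul_inv_cancel, gact_one, mem_BDSC.1 hw] at e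
      have e' := congrArg (gact σ'⁻¹) e
      rw [← gact_mul, ← gact_mul, inv_mul_cancel, gact_one, gact_one] at e'
      exact mem_BDSC.2 e'.symm
    · rw [← gact_mul, inv_mul_cancel, gact_one]
    · rw [← gact_mul, mul_inv_cancel, gact_one]
    · rw [ram_BDSC σ σ' h, hc]
      ring

end Pool.Agent.MP_3e91a1_nt.F5

end

section

set_option autoImplicit false

open NumberField IsDedekindDomain Module Filter Topology Finset Polynomial
open scoped Classical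

namespace Pool.Agent.MP_3e91a1_nt.F5

open MP_e23604_nt MP_e23604_nt.B MP_e23604_nt.R MP_f3cd89_nt

theorem nrm_BST2 {p : ℕ} [Fact p.Prime] {ζ : Qb} (hζ : IsPrimitiveRoot ζ p) (a h : GQ)
    (hh : h ζ = ζ) : (a * h * a⁻¹) ζ = ζ := by
  have : NeZero p := ⟨(Fact.out : p.Prime).ne_zero⟩
  obtain ⟨k, -, hk⟩ := hζ.eq_pow_of_pow_eq_one (ξ := a⁻¹ ζ)
    (by rw [← map_pow, hζ.pow_eq_one, map_one])
  rw [AlgEquiv.mul_apply, AlgEquiv.mul_apply, ← hk, map_pow, hh, hk, ← AlgEquiv.mul_apply,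
    mul_inv_cancel, AlgEquiv.one_apply]

theorem ST2_pf (hDSC : DSC_st) (hRES : RES_st) (hTWR : TWR_st) : ST2_st := by
  intro p r _ ζ e U W δ g L _ δ' g' f hp2 hζ hG hWU hWo hgU hgζ hidx hδU hδζ hL hδ' hg' hc hf hfp
    hfe
  have hp : p.Prime := Fact.out
  have hSo : IsOpen (MulAction.stabilizer GQ ζ : Set GQ) := stabilizer_isOpen_of_isIntegral ζ
  have hgg : g * g ∈ W := by
    rcases hidx (g * g) (U.mul_mem hgU hgU) (by rw [AlgEquiv.mul_apply, hgζ, hgζ]) with h | h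
    · exact h
    · rw [inv_mul_cancel_left] at h
      exact W.mul_mem h h
  have hgS : g ∈ MulAction.stabilizer GQ ζ := hgζ
  have hN : Nrm (W ⊓ MulAction.stabilizer GQ ζ) (U ⊓ MulAction.stabilizer GQ ζ) := by
    intro h hh n hn
    have hS : (h * n * h⁻¹) ζ = ζ := nrm_BST2 hζ h n hn.2
    refine ⟨?_, hS⟩
    by_cases c : h ∈ W
    · exact W.mul_mem (W.mul_mem c hn.1) (W.inv_mem c)
    have h1 := (hidx h hh.1 hh.2).resolve_left c
    refine (hidx _ (U.mul_mem (U.mul_mem hh.1 (hWU hn.1)) (U.inv_mem hh.1)) hS).resolve_right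
      fun h2 => c ?_
    have h3 := W.mul_mem (W.inv_mem h2) (W.mul_mem h1 hn.1)
    have h4 : (g⁻¹ * (h * n * h⁻¹))⁻¹ * (g⁻¹ * h * n) = h := by group
    exact h4 ▸ h3
  obtain ⟨L₀, _, hL₀, -, -, hlift⟩ := hRES (W ⊓ MulAction.stabilizer GQ ζ) (hWo.inter hSo)
  obtain rfl : L₀ = L := IntermediateField.ext fun x => (hL₀ x).trans (hL x).symm
  obtain ⟨K, _, hK, hfix, hind, -⟩ := hRES (U ⊓ MulAction.stabilizer GQ ζ) (hG.opn.inter hSo)
  obtain ⟨_, halg, _, -, -, -, hres⟩ := hTWR _ _ K L₀ (hWo.inter hSo) (inf_le_inf_right _ hWU) hN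
    hK hL
  have hone : Ind (1 : GQ) (1 : L₀ ≃ₐ[ℚ] L₀) := fun _ => rfl
  have hg2 : g' * g' = 1 := ind_eq_WBS1 hL (ind_mul_WBS1 hg' hg') hone (by
    rw [inv_one, one_mul]
    exact ⟨hgg, Subgroup.mul_mem _ hgS hgS⟩)
  have two : ∀ τ : L₀ ≃ₐ[K] L₀, (∀ x, τ x = x) ∨ ∀ x, τ x = g' x := by
    intro τ
    obtain ⟨τ', hτ⟩ := hres τ
    obtain ⟨h, hh⟩ := hlift τ'
    have hm := hfix h fun x hx => by
      have h1 := hh (algebraMap K L₀ ⟨x, hx⟩)
      rw [hτ, τ.commutes, halg] at h1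
      exact h1.symm
    rcases hidx h hm.1 hm.2 with c | c
    · refine Or.inl fun x => ?_
      rw [← hτ, ind_eq_WBS1 hL hh hone (by rw [inv_one, one_mul]; exact ⟨c, hm.2⟩)]
      rfl
    · refine Or.inr fun x => ?_
      rw [← hτ, ind_eq_WBS1 hL hh hg'
        ⟨c, Subgroup.mul_mem _ (Subgroup.inv_mem _ hgS) hm.2⟩]
  have hnd : ¬ p ∣ finrank K L₀ := fun c => by
    rw [← IsGalois.card_aut_eq_finrank] at c
    obtain ⟨τ, hτ⟩ := exists_prime_orderOf_dvd_card' p c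
    have h2 : τ ^ 2 = 1 := by
      ext1 x
      rw [pow_two, AlgEquiv.mul_apply, AlgEquiv.one_apply]
      rcases two τ with h | h
      · rw [h, h]
      · rw [h, h, ← AlgEquiv.mul_apply, hg2, AlgEquiv.one_apply]
    exact hp2 ((Nat.prime_dvd_prime_iff_eq hp Nat.prime_two).1 (hτ ▸ orderOf_dvd_of_pow_eq_one h2))
  have ga : ∀ (τ : L₀ ≃ₐ[K] L₀) (σ : L₀ ≃ₐ[ℚ] L₀), (∀ x, τ x = σ x) →
      ∀ w : Pr L₀, gact τ w = gact σ w := fun τ σ h w => by
    unfold gact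
    congr 1
    exact RingEquiv.ext h
  obtain ⟨f₀, hf₀, h0, hp0, he0⟩ := hDSC p K L₀ _ hnd (kil_WBS1 hf g' 1) fun τ w => by
    rcases two τ with h | h
    · rw [ga τ 1 h, gact_one]
    · rw [ga τ g' h, ← gact_mul, hg2, gact_one, one_mul, one_mul, add_comm]
  obtain ⟨δ₀, hδ₀⟩ := hind δ fun h => ⟨fun c =>
    ⟨U.mul_mem (U.mul_mem hδU c.1) (U.inv_mem hδU), nrm_BST2 hζ δ h c.2⟩, fun c => by
      have h1 : δ⁻¹ * (δ * h * δ⁻¹) * δ⁻¹⁻¹ = h := by group
      exact h1 ▸ ⟨U.mul_mem (U.mul_mem (U.inv_mem hδU) c.1) (U.inv_mem (U.inv_mem hδU)),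
        nrm_BST2 hζ δ⁻¹ _ c.2⟩⟩
  intro w
  have := h0 (hG.cg δ hδU hδζ K δ₀ hK hδ₀ f₀ hf₀ (hp0 fun v hv => ?_)
    (he0 δ' δ₀ e (fun x => Subtype.ext ?_) fun v => ?_)) w
  · rwa [one_mul] at this
  · have h1 : (p : 𝓞 L₀) ∈ (gact g' v).asIdeal := by
      rw [gact_asIdeal, Ideal.mem_pointwise_smul_iff_inv_smul_mem]
      have h2 : g'⁻¹ • (p : 𝓞 L₀) = p :=
        map_natCast (MulSemiringAction.toRingHom (L₀ ≃ₐ[ℚ] L₀) (𝓞 L₀) g'⁻¹) p
      rwa [h2]
    rw [hfp v hv, hfp _ h1, mul_zero, add_zero]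
  · rw [hδ', halg, halg, hδ₀]
  · rw [← gact_mul, ← hc, gact_mul, hfe, hfe]
    ring

end Pool.Agent.MP_3e91a1_nt.F5

end

section

/-! From the three quadratic subfields to the biquadratic field. -/

set_option autoImplicit false

open NumberField IsDedekindDomain Module Filter Topology Finset Polynomial
open scoped Classical

namespace Pool.Agent.MP_3e91a1_nt.F5

open MP_e23604_nt MP_e23604_nt.B MP_e23604_nt.R MP_f3cd89_nt

theorem pm_BV4 {s : Qb} {A : ℤ} (hs : s ^ 2 = A) (g : GQ) : g s = s ∨ g s = -s :=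
  sq_eq_sq_iff_eq_or_eq_neg.1 (by rw [← map_pow, hs, map_intCast])

theorem cm_BV4 {s : Qb} {A : ℤ} (hs : s ^ 2 = A) (g h : GQ) : (g * h) s = (h * g) s := by
  rw [AlgEquiv.mul_apply, AlgEquiv.mul_apply]
  rcases pm_BV4 hs g with a | a <;> rcases pm_BV4 hs h with b | b <;>
    simp only [a, b, map_neg, neg_neg]

theorem inv_BV4 {g : GQ} {x y : Qb} (h : g x = y) : g⁻¹ y = x := by
  rw [← h, ← AlgEquiv.mul_apply, inv_mul_cancel, AlgEquiv.one_apply]

theorem st_BV4 {s t : Qb} {A : ℤ} (hs0 : s ≠ 0) (hs : s ^ 2 = A) {g : GQ}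
    (h : g (s * t) = s * t) : (g s = s ∧ g t = t) ∨ (g s = -s ∧ g t = -t) := by
  rw [map_mul] at h
  rcases pm_BV4 hs g with a | a
  · rw [a] at h
    exact Or.inl ⟨a, mul_left_cancel₀ hs0 h⟩
  · rw [a] at h
    exact Or.inr ⟨a, mul_left_cancel₀ hs0 (by linear_combination -h)⟩

theorem V4_pf (hST2 : ST2_st) (hRES : RES_st) : V4_st := by
  intro p r _ ζ s t e A B hp2 hζ hs0 ht0 hs ht G1 G2 G3
  have hp : p.Prime := Fact.out
  have : NeZero p := ⟨hp.ne_zero⟩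
  have hW : IsOpen ((MulAction.stabilizer GQ s ⊓ MulAction.stabilizer GQ t : Subgroup GQ) :
      Set GQ) := G1.opn.inter G2.opn
  refine ⟨hW, fun γ => ?_, fun δ hδ hδζ L _ δ' hL hδ' f hf hf0 hfe => ?_⟩
  · obtain ⟨d1, ⟨a1, b1⟩, c1⟩ := G1.dec γ
    obtain ⟨d2, ⟨a2, b2⟩, c2⟩ := G2.dec γ
    obtain ⟨d3, ⟨a3, b3⟩, c3⟩ := G3.dec γ
    have b1' : d1 s = s := b1
    have b2' : d2 t = t := b2
    rcases pm_BV4 ht d1 with e1 | e1
    · exact ⟨d1, ⟨a1, b1, e1⟩, c1⟩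
    rcases pm_BV4 hs d2 with e2 | e2
    · exact ⟨d2, ⟨a2, e2, b2⟩, c2⟩
    rcases st_BV4 hs0 hs b3 with e3 | e3
    · exact ⟨d3, ⟨a3, e3⟩, c3⟩
    refine ⟨d1 * d2⁻¹ * d3,
      ⟨Subgroup.mul_mem _ (Subgroup.mul_mem _ a1 (Subgroup.inv_mem _ a2)) a3, ?_, ?_⟩, ?_⟩
    · change d1 (d2⁻¹ (d3 s)) = s
      rw [e3.1, inv_BV4 e2, b1']
    · change d1 (d2⁻¹ (d3 t)) = t
      rw [e3.2, map_neg, inv_BV4 b2', map_neg, e1, neg_neg]
    · change d1 (d2⁻¹ (d3 ζ)) = _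
      rw [c3, inv_BV4 c2, c1]
  have ex : ∀ g : GQ, ∃ a, g ζ = ζ ^ a := fun g => by
    obtain ⟨k, -, h⟩ := hζ.eq_pow_of_pow_eq_one (ξ := g ζ)
      (by rw [← map_pow, hζ.pow_eq_one, map_one])
    exact ⟨k, h.symm⟩
  have cm : ∀ g h : GQ, (h * g)⁻¹ * (g * h) ∈
      MulAction.stabilizer GQ s ⊓ MulAction.stabilizer GQ t ⊓ MulAction.stabilizer GQ ζ :=
    fun g h => by
      obtain ⟨a, ha⟩ := ex g
      obtain ⟨b, hb⟩ := ex h
      have : (g * h) ζ = (h * g) ζ := by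
        rw [AlgEquiv.mul_apply, AlgEquiv.mul_apply, ha, hb, map_pow, map_pow, ha, hb,
          pow_right_comm]
      exact ⟨mem_WBS1 (cm_BV4 hs g h) (cm_BV4 ht g h), (mem_WBS1 this this).1⟩
  obtain ⟨L₀, _, hL₀, -, hind, -⟩ := hRES
    (MulAction.stabilizer GQ s ⊓ MulAction.stabilizer GQ t ⊓ MulAction.stabilizer GQ ζ)
    (hW.inter (stabilizer_isOpen_of_isIntegral ζ))
  obtain rfl : L₀ = L := IntermediateField.ext fun x => (hL₀ x).trans (hL x).symm
  have ind : ∀ g : GQ, ∃ g' : L₀ ≃ₐ[ℚ] L₀, Ind g g' := fun g => hind g fun h => by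
    have := cm (g * h) g⁻¹
    rw [inv_mul_cancel_left] at this
    exact ((Subgroup.mul_mem_cancel_right _ this).symm.trans (by rw [mul_inv_cancel_left]))
  have key : ∀ (U : Subgroup GQ) (g : GQ) (g' : L₀ ≃ₐ[ℚ] L₀), Good p ζ r e U →
      MulAction.stabilizer GQ s ⊓ MulAction.stabilizer GQ t ≤ U → g ∈ U → g ζ = ζ →
      (∀ h ∈ U, h ζ = ζ → (h s = s ∧ h t = t) ∨ (h s = g s ∧ h t = g t)) → Ind g g' →
      ∀ w, f w + f (gact g' w) = 0 := fun U g g' hU le m1 m2 m3 m4 =>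
    hST2 p r ζ e U _ δ g L₀ δ' g' f hp2 hζ hU le hW m1 m2
      (fun h h1 h2 => (m3 h h1 h2).imp id fun c => mem_WBS1 c.1 c.2) (le hδ) hδζ hL hδ' m4
      (ind_eq_WBS1 hL (ind_mul_WBS1 hδ' m4) (ind_mul_WBS1 m4 hδ') (cm δ g)) hf hf0 hfe
  have h2 : (2 : ZMod p) ≠ 0 := fun c => hp2 ((Nat.prime_dvd_prime_iff_eq hp Nat.prime_two).1
    ((ZMod.natCast_eq_zero_iff 2 p).1 (by exact_mod_cast c)))
  intro w
  refine (mul_eq_zero.1 (?_ : 2 * f w = 0)).resolve_left h2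
  by_cases c1 : ∀ h : GQ, h s = s → h ζ = ζ → h t = t
  · have := key _ 1 1 G1 inf_le_left (one_mem _) rfl (fun h a b => Or.inl ⟨a, c1 h a b⟩)
      (fun _ => rfl) w
    rw [gact_one] at this
    linear_combination this
  by_cases c2 : ∀ h : GQ, h t = t → h ζ = ζ → h s = s
  · have := key _ 1 1 G2 inf_le_right (one_mem _) rfl (fun h a b => Or.inl ⟨c2 h a b, a⟩)
      (fun _ => rfl) w
    rw [gact_one] at this
    linear_combination this
  push Not at c1 c2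
  obtain ⟨g1, a1, b1, e1⟩ := c1
  obtain ⟨g2, a2, b2, e2⟩ := c2
  replace e1 := (pm_BV4 ht g1).resolve_left e1
  replace e2 := (pm_BV4 hs g2).resolve_left e2
  obtain ⟨g1', i1⟩ := ind g1
  obtain ⟨g2', i2⟩ := ind g2
  have s3 : (g1 * g2) s = -s := by rw [AlgEquiv.mul_apply, e2, map_neg, a1]
  have t3 : (g1 * g2) t = -t := by rw [AlgEquiv.mul_apply, a2, e1]
  have k1 := key _ g1 g1' G1 inf_le_left a1 b1 (fun h a _ => (pm_BV4 ht h).imp
    (fun c => ⟨a, c⟩) fun c => ⟨Eq.trans a a1.symm, c.trans e1.symm⟩) i1 (gact g2' w)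
  have k2 := key _ g2 g2' G2 inf_le_right a2 b2 (fun h a _ => (pm_BV4 hs h).imp
    (fun c => ⟨c, a⟩) fun c => ⟨c.trans e2.symm, Eq.trans a a2.symm⟩) i2 w
  have k3 := key _ (g1 * g2) (g1' * g2') G3 (fun h a => by
      have h1 : h s = s := a.1
      have h3 : h t = t := a.2
      change h (s * t) = s * t
      rw [map_mul, h1, h3])
    (by
      change (g1 * g2) (s * t) = s * t
      rw [map_mul, s3, t3, neg_mul_neg])
    (by rw [AlgEquiv.mul_apply, b2, b1])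
    (fun h a _ => (st_BV4 hs0 hs a).imp id fun c => ⟨c.1.trans s3.symm, c.2.trans t3.symm⟩)
    (ind_mul_WBS1 i1 i2) w
  rw [gact_mul] at k3
  linear_combination k2 + k3 - k1

end Pool.Agent.MP_3e91a1_nt.F5

end

section

set_option autoImplicit false

open NumberField IsDedekindDomain Module Filter Topology Finset Polynomial
open scoped Classical

namespace Pool.Agent.MP_3e91a1_nt.F5

open MP_e23604_nt MP_e23604_nt.B MP_e23604_nt.R MP_f3cd89_nt

theorem fix_BONE5 (s t : Qb) : (IntermediateField.adjoin ℚ {s, t}).fixingSubgroup =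
    MulAction.stabilizer GQ s ⊓ MulAction.stabilizer GQ t := by
  ext g
  rw [IntermediateField.mem_fixingSubgroup_iff, Subgroup.mem_inf, MulAction.mem_stabilizer_iff,
    MulAction.mem_stabilizer_iff]
  constructor
  · intro h
    exact ⟨h s (IntermediateField.subset_adjoin _ _ (by simp)),
      h t (IntermediateField.subset_adjoin _ _ (by simp))⟩
  · rintro ⟨a, b⟩ x hx
    have h : IntermediateField.adjoin ℚ {s, t} ≤
        IntermediateField.fixedField (MulAction.stabilizer GQ s ⊓ MulAction.stabilizer GQ t) := by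
      rw [IntermediateField.adjoin_le_iff]
      rintro y (rfl | rfl)
      · exact fun u => u.2.1
      · exact fun u => u.2.2
    exact h hx ⟨g, a, b⟩

theorem ONE5_pf (hKW : KW_st) (hNZ0 : NZ0_st) (hRED : RED_st) (hSUM : SUM_st) (hBS1 : BS1_st) (hBS5 : BS5_st) (hV4 : V4_st) (hGOOD : GOOD_st) (hTOP : TOP_st) (hDEV : DEV_st) (hMEM : MEM_st) : ONE5_st := by
  intro D s t hD hs ht
  have hst : (s * t) ^ 2 = -((5 * D : ℕ) : Qb) := by
    rw [mul_pow, hs, ht]; push_cast; ring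
  obtain ⟨d, χ, hd, hχ, hg⟩ := hKW D s hD hs
  obtain ⟨d', χ', hd', hχ', hg'⟩ := hKW (5 * D) (s * t) (by omega) hst
  obtain ⟨w0, hw0, hT0⟩ := hNZ0 d χ hd hχ
  obtain ⟨w1, hw1, hT1⟩ := hNZ0 d' χ' hd' hχ'
  obtain ⟨B0, hB0⟩ := hRED d 0 χ w0 hd hw0 hT0
  obtain ⟨B1, hB1⟩ := hRED d' 0 χ' w1 hd' hw1 hT1
  refine ⟨B0 + B1 + d + d' + 5, fun p hp hB hb K hP S κ F n ρ hS hpS hκ hsur hfin hρ hres => ?_⟩
  have : FiniteDimensional ℚ (IntermediateField.adjoin ℚ ({s, t} : Set Qb)) :=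
    IntermediateField.finiteDimensional_adjoin fun x _ => Algebra.IsIntegral.isIntegral x
  have : NeZero p := ⟨hp.out.ne_zero⟩
  obtain ⟨ζ, hζ⟩ := HasEnoughRootsOfUnity.exists_primitiveRoot Qb p
  obtain ⟨r', hr⟩ := HasEnoughRootsOfUnity.exists_primitiveRoot (ZMod p) (p - 1)
  obtain ⟨r, rfl⟩ := ZMod.natCast_zmod_surjective r'
  have s0 : s ≠ 0 := by
    rintro rfl
    have : (D : Qb) = 0 := by simpa using hs
    exact hD.ne' (Nat.cast_eq_zero.1 this)
  have t0 : t ≠ 0 := by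
    rintro rfl
    norm_num at ht
  have r0 : (r : ZMod p) ≠ 0 := hr.ne_zero (by omega)
  have r1 : (r : ZMod p) ≠ 1 := by
    have := hr.pow_ne_one_of_pos_of_lt one_ne_zero (by omega)
    rwa [pow_one] at this
  have := (hGOOD p ζ r 0 _ K hP).1
  have hk : Stk p (0 + 1) := hSUM p _ (by omega) (.inl rfl)
  have A0 := hBS1 p d 0 r χ ζ s hd (by omega) (by omega) (by omega) hχ s0 hg
    (hB0 p hp.out (by omega)) hk hζ hr
  have A1 := hBS1 p d' 0 r χ' ζ (s * t) hd' (by omega) (by omega) (by omega) hχ'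
    (mul_ne_zero s0 t0) hg' (hB1 p hp.out (by omega)) hk hζ hr
  rw [zero_add, pow_one] at A0 A1
  have A2 := hBS5 p r ζ t (by omega) ht hb hζ hr
  have A3 := hV4 p r ζ s t r (-D) 5 (by omega) hζ s0 t0 (by rw [hs]; push_cast; ring)
    (by rw [ht]; push_cast; ring) A0 A2 A1
  have G0 : Good p ζ r r K.fixingSubgroup :=
    (hGOOD p ζ r _ _ K hP).2 (by omega) hζ hr r0 r1 (fix_BONE5 s t ▸ A3)
  obtain ⟨ω, hω, hH⟩ := hTOP p K S κ (by omega) hS hpS hκ hsur hfin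
  choose e he hψ using hres.2
  have := (hMEM K S).1
  have : CompactSpace κ.ker :=
    isCompact_iff_compactSpace.1 (isClosed_singleton.preimage hκ : IsClosed (κ ⁻¹' {1})).isCompact
  refine hDEV p κ.ker F n (ρ.comp κ.ker.subtype) (fun i g => ω g ^ e i)
    (hρ.comp continuous_subtype_val) (fun g => hres.1 g)
    (fun g i => norm_WONE _ _ _ (hψ i g _ (hω g))) fun i => ?_
  exact hH ζ r _ _ hζ hr (by rw [Set.mem_singleton_iff.1 (he i), pow_zero, mul_one]) r1 G0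

end Pool.Agent.MP_3e91a1_nt.F5

end

section

set_option autoImplicit false

open NumberField IsDedekindDomain Module Filter Topology Finset Polynomial
open scoped Classical

namespace Pool.Agent.MP_3e91a1_nt.F5

open MP_e23604_nt MP_e23604_nt.B MP_e23604_nt.R MP_f3cd89_nt

theorem JAC5_ok : JAC5_st := JAC5_pf
theorem SM5_ok : SM5_st := SM5_pf
theorem ODD5_ok : ODD5_st := ODD5_pf SPL_ok JAC5_ok CNT_ok SM5_ok
theorem CY5_ok : CY5_st := CY5_pf PSI_ok ODD_ok ODD5_ok SPL_ok SUM_ok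
theorem KW5_ok : KW5_st := KW5_pf
theorem BS5_ok : BS5_st := BS5_pf KW5_ok CY5_ok TRF_ok RES_ok TWR_ok
theorem DSC_ok : DSC_st := DSC_pf
theorem ST2_ok : ST2_st := ST2_pf DSC_ok RES_ok TWR_ok
theorem V4_ok : V4_st := V4_pf ST2_ok RES_ok
theorem ONE5_ok : ONE5_st := ONE5_pf KW_ok NZ0_ok RED_ok SUM_ok BS1_ok BS5_ok V4_ok GOOD_ok TOP_ok DEV_ok MEM_ok

/-- the real quadratic field itself -/
theorem real_ok (t : Qb) (ht : t ^ 2 = 5) (p : ℕ) [hp : Fact p.Prime] (hB : 5 < p) (hb : NW p)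
    (K : IntermediateField ℚ Qb) (hP : PExt p (IntermediateField.adjoin ℚ {0, t}) K) :
    WeakLeopoldt p K {0} := by
  intro S κ F n ρ hS hpS hκ hsur hfin hρ hres
  have : FiniteDimensional ℚ (IntermediateField.adjoin ℚ ({0, t} : Set Qb)) :=
    IntermediateField.finiteDimensional_adjoin fun x _ => Algebra.IsIntegral.isIntegral x
  have : NeZero p := ⟨hp.out.ne_zero⟩
  obtain ⟨ζ, hζ⟩ := HasEnoughRootsOfUnity.exists_primitiveRoot Qb p
  obtain ⟨r', hr⟩ := HasEnoughRootsOfUnity.exists_primitiveRoot (ZMod p) (p - 1)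
  obtain ⟨r, rfl⟩ := ZMod.natCast_zmod_surjective r'
  have r0 : (r : ZMod p) ≠ 0 := hr.ne_zero (by omega)
  have r1 : (r : ZMod p) ≠ 1 := by
    have := hr.pow_ne_one_of_pos_of_lt one_ne_zero (by omega)
    rwa [pow_one] at this
  have := (GOOD_ok p ζ r 0 _ K hP).1
  have e : MulAction.stabilizer GQ (0 : Qb) ⊓ MulAction.stabilizer GQ t =
      MulAction.stabilizer GQ t := inf_eq_right.2 fun g _ => smul_zero g
  have G0 : Good p ζ r r K.fixingSubgroup :=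
    (GOOD_ok p ζ r _ _ K hP).2 (by omega) hζ hr r0 r1 (by
      rw [fix_BONE5, e]
      exact BS5_ok p r ζ t hB ht hb hζ hr)
  obtain ⟨ω, hω, hH⟩ := TOP_ok p K S κ (by omega) hS hpS hκ hsur hfin
  choose e he hψ using hres.2
  have := (MEM_ok K S).1
  have : CompactSpace κ.ker :=
    isCompact_iff_compactSpace.1 (isClosed_singleton.preimage hκ : IsClosed (κ ⁻¹' {1})).isCompact
  refine DEV_ok p κ.ker F n (ρ.comp κ.ker.subtype) (fun i g => ω g ^ e i)
    (hρ.comp continuous_subtype_val) (fun g => hres.1 g)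
    (fun g i => norm_WONE _ _ _ (hψ i g _ (hω g))) fun i => ?_
  exact hH ζ r _ _ hζ hr (by rw [Set.mem_singleton_iff.1 (he i), pow_zero, mul_one]) r1 G0

theorem both_ok (D : ℕ) (s t : Qb) (hs : s ^ 2 = -D) (ht : t ^ 2 = 5) : ∃ B : ℕ,
    ∀ (p : ℕ) [Fact p.Prime], B < p → NW p →
      ∀ K, PExt p (IntermediateField.adjoin ℚ {s, t}) K → WeakLeopoldt p K {0} := by
  rcases D.eq_zero_or_pos with rfl | hD
  · obtain rfl : s = 0 := by simpa using hs
    exact ⟨5, fun p _ => real_ok t ht p⟩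
  · exact ONE5_ok D s t hD hs ht

end Pool.Agent.MP_3e91a1_nt.F5

end
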