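import Pool.Agent.Mg.F3e91a1.G3b763c
import Pool.Agent.Mg.F3e91a1.G5d1a22
import Pool.Agent.Mg.F3e91a1.G3fdd3f
import Pool.Agent.Mg.F3e91a1.G83a210

set_option linter.all false

section

/-! Statements of the steps for the tower. -/

set_option autoImplicit false

open NumberField IsDedekindDomain Module Finset

namespace Pool.Agent.MP_3e91a1_nt.TR

open MP_e23604_nt MP_e23604_nt.B MP_e23604_nt.R MP_f3cd89_nt

/-- inertia at a large prime fixes the field -/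
def DEC_st : Prop := ∀ (K : IntermediateField ℚ Qb) [NumberField K], ∃ B : ℕ,
  ∀ (p : ℕ) (v : AbsoluteValue Qb ℝ) (τ : GQ), p.Prime → B < p → IsNonarchimedean v → v p < 1 →
    Inr v τ → τ ∈ K.fixingSubgroup

/-- the base of the tower -/
def GDK_st : Prop := ∀ (K : IntermediateField ℚ Qb) [NumberField K], Units.rank K ≤ 2 →
  ∃ B : ℕ, ∀ (p r E : ℕ) [Fact p.Prime] (ζ : Qb) (u u' : (𝓞 K)ˣ), B < p → ¬ p ∣ E →
    (∀ y : 𝓞 K, IsCoprime y p → (p : 𝓞 K) ∣ y ^ E - 1) → Indp p E (u : 𝓞 K) u' →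
    IsPrimitiveRoot ζ p → IsPrimitiveRoot (r : ZMod p) (p - 1) → Good p ζ r r K.fixingSubgroup

/-- the result for one prime -/
def ONK_st : Prop := ∀ (T : ℕ) (k : IntermediateField ℚ Qb) [NumberField k] (w : Qb) (a b e : Zb),
  Units.rank k ≤ 2 → w ∈ k → w * (w - 1) * (w + T) = 1 → Tri (T : Zb) a b e →
  ∃ B : ℕ, ∀ (p : ℕ) [Fact p.Prime], B < p → ¬ Bad p T a b →
    Leo p k ∧ ∀ K, PExt p k K → WeakLeopoldt p K {0}

end Pool.Agent.MP_3e91a1_nt.TR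

end

section

/-! Statements of the steps for one prime, in every degree. -/

set_option autoImplicit false

open NumberField IsDedekindDomain Module Finset

namespace Pool.Agent.MP_3e91a1_nt.GN

open TR CC MP_e23604_nt MP_e23604_nt.B MP_e23604_nt.R MP_f3cd89_nt

/-- the quotients of the elements are independent -/
def Indg (p E : ℕ) {m : ℕ} {R : Type} [CommRing R] (u : Fin m → R) : Prop :=
  ∀ e : Fin m → ℕ, (p : R) ^ 2 ∣ (∏ i, u i ^ e i) ^ E - 1 → ∀ i, p ∣ e i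

/-- dependent quotients give a bad prime -/
def BDG_st : Prop := ∀ (m T : ℕ) (r : Fin m → ℤ) (d : Polynomial ℤ)
  (K : IntermediateField ℚ (AlgebraicClosure ℚ)) [NumberField K] (w : 𝓞 K) (a : Fin (m + 1) → Zb),
  Function.Injective r → IsD r d → (∀ i, r i + T ≠ 0) → (∏ i, (w - r i)) * (w + T) = 1 →
  Rt r (T : Zb) a → ∃ B : ℕ, ∀ p E : ℕ, p.Prime → B < p → ¬ p ∣ E →
    (∀ i, (p : 𝓞 K) ∣ (w - r i) ^ E - 1) → ¬ Indg p E (fun i => w - (r i : 𝓞 K)) → Bag p T r d a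

/-- characters of a monoid that factor through a small group -/
def LNG_st : Prop := ∀ (p k m : ℕ) [Fact p.Prime] (Y V : Type) [CommMonoid Y] [AddCommGroup V]
  [Finite V] (lg : Y → V) (φ : Y → Fin k → ZMod p) (u : Fin m → Y), Nat.card V < p ^ (k + m) →
  (∀ v : V, p • v = 0) → (∀ x y, lg (x * y) = lg x + lg y) → (∀ x y, φ (x * y) = φ x + φ y) →
  (∀ y, lg y = 0 → φ y = 0) → (∀ e : Fin m → ℕ, ∑ i, e i • lg (u i) = 0 → ∀ i, p ∣ e i) →
  (∀ i, φ (u i) = 0) → ∃ c : Fin k → ZMod p, c ≠ 0 ∧ ∀ y, ∑ i, c i * φ y i = 0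

/-- the bound for the eigenspace -/
def THG_st : Prop := ∀ (p E k m : ℕ) (K M : Type) [Field K] [NumberField K] [Field M]
  [NumberField M] [Algebra K M] [IsGalois K M] [IsGalois ℚ M] (ζ : M) (ω : (M ≃ₐ[K] M) → ℕ)
  (u : Fin m → (𝓞 K)ˣ), p.Prime → 2 < p → IsPrimitiveRoot ζ p → (∀ g : M ≃ₐ[K] M, g ζ = ζ ^ ω g) →
  ¬ p ∣ finrank ℚ M → finrank ℚ K < k + m → ¬ p ∣ classNumber K → ¬ p ∣ E →
  (∀ y : 𝓞 K, IsCoprime y p → (p : 𝓞 K) ∣ y ^ E - 1) → Indg p E (fun i => (u i : 𝓞 K)) → Dpk p k ω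

/-- the conjecture of Leopoldt from independent quotients -/
def LEG_st : Prop := ∀ (K : Type) [Field K] [NumberField K], ∃ B : ℕ,
  ∀ (p E m : ℕ) (u : Fin m → (𝓞 K)ˣ), Units.rank K ≤ m → p.Prime → B < p → ¬ p ∣ E →
    (∀ y : 𝓞 K, IsCoprime y p → (p : 𝓞 K) ∣ y ^ E - 1) → Indg p E (fun i => (u i : 𝓞 K)) → Leo p K

/-- the base of the tower -/
def GDG_st : Prop := ∀ (K : IntermediateField ℚ Qb) [NumberField K], ∃ B : ℕ,
  ∀ (p r E m : ℕ) [Fact p.Prime] (ζ : Qb) (u : Fin m → (𝓞 K)ˣ), Units.rank K ≤ m → B < p → ¬ p ∣ E →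
    (∀ y : 𝓞 K, IsCoprime y p → (p : 𝓞 K) ∣ y ^ E - 1) → Indg p E (fun i => (u i : 𝓞 K)) →
    IsPrimitiveRoot ζ p → IsPrimitiveRoot (r : ZMod p) (p - 1) → Good p ζ r r K.fixingSubgroup

/-- the result for one prime -/
def ONG_st : Prop := ∀ (m T : ℕ) (r : Fin m → ℤ) (d : Polynomial ℤ) (k : IntermediateField ℚ Qb)
  [NumberField k] (w : Qb) (a : Fin (m + 1) → Zb), Function.Injective r → IsD r d →
  (∀ i, r i + T ≠ 0) → Units.rank k ≤ m → w ∈ k → (∏ i, (w - r i)) * (w + T) = 1 →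
  Rt r (T : Zb) a → ∃ B : ℕ, ∀ (p : ℕ) [Fact p.Prime], B < p → ¬ Bag p T r d a →
    Leo p k ∧ ∀ K, PExt p k K → WeakLeopoldt p K {0}

end Pool.Agent.MP_3e91a1_nt.GN

end

section

/-! Dependent quotients give a bad prime, in every degree. -/

set_option autoImplicit false

open NumberField Module Finset

namespace Pool.Agent.MP_3e91a1_nt.GN

open TR

theorem prd_BDG {R ι : Type} [CommRing R] (q : R) (x : ι → R) (s : Finset ι) :
    ∃ c, ∏ i ∈ s, (1 + q * x i) = 1 + q * ∑ i ∈ s, x i + q ^ 2 * c := by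
  classical
  induction s using Finset.induction_on with
  | empty => exact ⟨0, by simp⟩
  | insert a s ha ih =>
    obtain ⟨c, hc⟩ := ih
    refine ⟨c + x a * ∑ i ∈ s, x i + q * x a * c, ?_⟩
    rw [prod_insert ha, sum_insert ha, hc]
    ring

theorem frb_BDG {R ι : Type} [CommRing R] {p : ℕ} (hp : p.Prime) (x : ι → R) (s : Finset ι) :
    (p : R) ∣ (∑ i ∈ s, x i) ^ p - ∑ i ∈ s, x i ^ p := by
  classical
  induction s using Finset.induction_on with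
  | empty => simp [hp.ne_zero]
  | insert a s ha ih =>
    obtain ⟨c, hc⟩ := ih
    obtain ⟨r, hr⟩ := exists_add_pow_prime_eq hp (x a) (∑ i ∈ s, x i)
    refine ⟨c + x a * (∑ i ∈ s, x i) * r, ?_⟩
    rw [sum_insert ha, sum_insert ha, hr]
    linear_combination hc

theorem dep_BDG {R : Type} [CommRing R] [IsDomain R] {q : R} {m E : ℕ} {u l : Fin m → R}
    {e : Fin m → ℕ} (hq : q ≠ 0) (h1 : ∀ i, u i ^ E = 1 + q * l i)
    (h : q ^ 2 ∣ (∏ i, u i ^ e i) ^ E - 1) : q ∣ ∑ i, e i * l i := by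
  have k : ∀ i, ∃ r, (u i ^ e i) ^ E = 1 + q * (e i * l i + q * r) := by
    intro i
    obtain ⟨r, hr⟩ := prd_BDG q (fun _ => l i) (range (e i))
    refine ⟨r, ?_⟩
    rw [← pow_mul, mul_comm, pow_mul, h1]
    simp only [prod_const, card_range, sum_const, nsmul_eq_mul] at hr
    linear_combination hr
  choose r hr using k
  obtain ⟨c, hc⟩ := prd_BDG q (fun i => e i * l i + q * r i) univ
  rw [← prod_pow, prod_congr rfl fun i _ => hr i, hc, sum_add_distrib, ← mul_sum] at h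
  obtain ⟨t, ht⟩ := h
  refine ⟨t - c - ∑ i, r i, mul_left_cancel₀ hq ?_⟩
  linear_combination ht

theorem conj_BDG (hSCH : SCH_st) {m T : ℕ} {r : Fin m → ℤ} (hr : Function.Injective r)
    (hT : ∀ i, r i + T ≠ 0) {w a : AlgebraicClosure ℚ} (hw : (∏ i, (w - r i)) * (w + T) = 1)
    (ha : (∏ i, (a - r i)) * (a + T) = 1) :
    ∃ g : AlgebraicClosure ℚ ≃ₐ[ℚ] AlgebraicClosure ℚ, g w = a := by
  have : IsAlgClosure ℚ (AlgebraicClosure ℚ) := AlgebraicClosure.instIsAlgClosure ℚ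
  have : Normal ℚ (AlgebraicClosure ℚ) := IsAlgClosure.normal ℚ _
  have k : ∀ x : AlgebraicClosure ℚ, (∏ i, (x - r i)) * (x + T) = 1 →
      Polynomial.aeval x (fp r ((T : ℤ) : ℚ)) = 0 := by
    intro x hx
    simp only [fp, map_sub, map_mul, map_prod, map_add, Polynomial.aeval_X, map_intCast, map_one,
      Int.cast_natCast, map_natCast]
    linear_combination hx
  have hm := minpoly.eq_of_irreducible (hSCH m r T hr hT) (k w hw)
  exact minpoly.exists_algEquiv_of_root' (Algebra.IsAlgebraic.isAlgebraic w)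
    (by rw [← hm, map_mul, k a ha, zero_mul])

theorem quo_BDG (hFRO : FRO_st) {p E T m : ℕ} {E' : ℤ} {r : Fin m → ℤ} {M : Type} [Field M]
    [NumberField M] [IsGalois ℚ M] {a : 𝓞 M} {l : Fin m → 𝓞 M} (hp : p.Prime)
    (hr : (Ideal.span {(p : 𝓞 M)}).IsRadical) (hE : (p : ℤ) ∣ E * E' - 1)
    (ha : (∏ i, (a - r i)) * (a + T) = 1) (h1 : ∀ i, (a - r i) ^ E = 1 + p * l i) :
    Qug p r (T : 𝓞 M) a (fun i => -(E' * l i ^ p)) := by
  obtain ⟨c, hc⟩ := prd_BDG (p : 𝓞 M) l univ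
  have h3 : (1 + p * ∑ i, l i + p ^ 2 * c) * (a + T) ^ E = 1 := by
    rw [← hc, ← prod_congr rfl fun i _ => h1 i, prod_pow, ← mul_pow, ha, one_pow]
  obtain ⟨n, hn⟩ : ∃ n : 𝓞 M, n = -((a + T) ^ E * (∑ i, l i + p * c)) := ⟨_, rfl⟩
  have h4 : (a + T) ^ E = 1 + p * n := by
    rw [hn]
    linear_combination h3
  have h5 : n + ∑ i, l i = p * -(n * ∑ i, l i + (a + T) ^ E * c) := by
    linear_combination hn - (∑ i, l i) * h4
  obtain ⟨s, hs⟩ := exists_add_pow_prime_eq hp n (∑ i, l i)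
  obtain ⟨t, ht⟩ : (p : 𝓞 M) ∣ (n + ∑ i, l i) ^ p := dvd_pow ⟨_, h5⟩ hp.ne_zero
  obtain ⟨v, hv⟩ := frb_BDG hp l univ
  intro i
  obtain ⟨b, hb⟩ := hFRO p E E' (T + r i) M (a + T) n (a - r i) (l i) hp hr hE h4 (h1 i)
    (by push_cast; ring)
  refine ⟨b - (a + T) ^ p * E' * (t - n * (∑ i, l i) * s - v), ?_⟩
  rw [sum_neg_distrib, ← mul_sum]
  push_cast at hb
  linear_combination hb - (a + T) ^ p * E' * p * (ht - hs - hv)

theorem map_BDG {R S : Type} [CommRing R] [CommRing S] (f : R →+* S) {p T m : ℕ} {r : Fin m → ℤ}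
    {a : R} {x : Fin m → R} (h : Qug p r (T : R) a x) :
    Qug p r (T : S) (f a) (fun i => f (x i)) := fun i => by
  simpa using map_dvd f (h i)

theorem fin_BDG {R : Type} [CommRing R] {p m : ℕ} (hp : p.Prime) (E' : R) {l : Fin m → R}
    {e : Fin m → ℕ} (h : (p : R) ∣ ∑ i, e i * l i) :
    (p : R) ∣ ∑ i, e i * -(E' * l i ^ p) := by
  have h1 := (dvd_pow h hp.ne_zero).sub (frb_BDG hp (fun i => e i * l i) univ)
  have h2 : (p : R) ∣ ∑ i, ((e i : R) ^ p - e i) * l i ^ p := by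
    refine dvd_sum fun i _ => Dvd.dvd.mul_right ?_ _
    have := map_dvd (Int.castRingHom R) (Int.prime_dvd_pow_self_sub hp (e i))
    simpa using this
  have h3 := (h2.sub h1).mul_left E'
  convert h3 using 1
  rw [sub_sub_cancel, ← sum_sub_distrib, mul_sum]
  exact sum_congr rfl fun i _ => by ring

theorem BDG_pf (hITG : ITG_st) (hSCH : SCH_st) (hDNZ : DNZ_st) (hURM : URM_st) (hFRO : FRO_st) :
    BDG_st := by
  intro m T r d K _ w a hr hd hT hw ha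
  have : IsAlgClosure ℚ (AlgebraicClosure ℚ) := AlgebraicClosure.instIsAlgClosure ℚ
  have : Normal ℚ (AlgebraicClosure ℚ) := IsAlgClosure.normal ℚ _
  let M := IntermediateField.normalClosure ℚ K (AlgebraicClosure ℚ)
  have : NumberField M := {}
  have : Normal ℚ M := normalClosure.normal ℚ K (AlgebraicClosure ℚ)
  have : IsGalois ℚ M := {}
  let χ : 𝓞 M →+* Zb := RingOfIntegers.mapRingHom (algebraMap M (AlgebraicClosure ℚ))
  have key : ∀ s, ∃ ψ : 𝓞 K →+* 𝓞 M, χ (ψ w) = a s := by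
    intro s
    have h1 := congrArg (algebraMap (𝓞 K) (AlgebraicClosure ℚ)) hw
    have h2 := congrArg (algebraMap Zb (AlgebraicClosure ℚ)) ((hITG m r Zb T a ha).2.1 s)
    simp only [map_mul, map_sub, map_add, map_one, map_natCast, map_prod, map_intCast] at h1 h2
    obtain ⟨g, hg⟩ := conj_BDG hSCH hr hT h1 h2
    let f : K →ₐ[ℚ] AlgebraicClosure ℚ := (g : _ →ₐ[ℚ] _).comp K.val
    let f' : K →ₐ[ℚ] M := f.codRestrict M.toSubalgebra
      fun x => f.fieldRange_le_normalClosure ⟨x, rfl⟩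
    exact ⟨RingOfIntegers.mapRingHom (f' : K →+* M), RingOfIntegers.coe_injective hg⟩
  choose ψ hψ using key
  refine ⟨(discr M).natAbs + (Polynomial.aeval (T : ℤ) d).natAbs, fun p E hp hB hE hl hI => ?_⟩
  have nd : ∀ n : ℤ, n ≠ 0 → n.natAbs < p → ¬ (p : ℤ) ∣ n := fun n h0 h c =>
    absurd (Nat.le_of_dvd (Int.natAbs_pos.2 h0) (Int.natCast_dvd.1 c)) h.not_ge
  obtain ⟨hrad, -⟩ := hURM p M hp (nd _ (discr_ne_zero M) (by omega))
  obtain ⟨D, E', hD⟩ := ((Nat.Prime.coprime_iff_not_dvd hp).2 hE).isCoprime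
  have hE' : (p : ℤ) ∣ E * E' - 1 := ⟨-D, by linear_combination hD⟩
  choose l hl using hl
  replace hl : ∀ i, (w - r i) ^ E = 1 + p * l i := fun i => by linear_combination hl i
  rw [Indg] at hI
  push Not at hI
  obtain ⟨e, h1, i, hi⟩ := hI
  have h3 := dep_BDG (u := fun i => w - (r i : 𝓞 K)) (by exact_mod_cast hp.ne_zero) hl h1
  refine ⟨nd _ (hDNZ m r d T hr hd hT) (by omega), fun s i => χ (-(E' * ψ s (l i) ^ p)),
    fun i => e i, fun s => hψ s ▸ map_BDG χ (quo_BDG hFRO hp hrad hE'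
      (by simpa using congrArg (ψ s) hw) fun i => by simpa using congrArg (ψ s) (hl i)),
    ⟨i, fun c => hi (Int.natCast_dvd_natCast.1 c)⟩, fun s => ?_⟩
  have h4 : (p : 𝓞 M) ∣ ∑ i, e i * ψ s (l i) := by simpa using map_dvd (ψ s) h3
  have h5 := map_dvd χ (fin_BDG hp (E' : 𝓞 M) h4)
  rw [map_natCast, map_sum] at h5
  simpa only [map_mul, map_natCast, Int.cast_natCast] using h5

end Pool.Agent.MP_3e91a1_nt.GN

end

section

set_option autoImplicit false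

open NumberField IsDedekindDomain Module Finset

namespace Pool.Agent.MP_3e91a1_nt.GN

open TR MP_e23604_nt MP_e23604_nt.B MP_e23604_nt.R MP_f3cd89_nt CC

theorem prim_GDG (K : IntermediateField ℚ Qb) [NumberField K] :
    ∃ w : K, (∀ x, x ∈ K ↔ Fix (MulAction.stabilizer GQ (w : Qb)) x) ∧
      K.fixingSubgroup = MulAction.stabilizer GQ (w : Qb) := by
  obtain ⟨w, hw⟩ := Field.exists_primitive_element ℚ K
  have h : IntermediateField.adjoin ℚ {(w : Qb)} = K := by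
    rw [← IntermediateField.lift_adjoin_simple]
    exact (congrArg IntermediateField.lift hw).trans (IntermediateField.lift_top _ _)
  have h1 : ∀ x, x ∈ K ↔ Fix (MulAction.stabilizer GQ (w : Qb)) x := fun x => by
    rw [← adj_WBS1, h]
  refine ⟨w, h1, Subgroup.ext fun g => ?_⟩
  rw [IntermediateField.mem_fixingSubgroup_iff]
  exact ⟨fun h => h w w.2, fun h x hx => (h1 x).1 hx g h⟩

theorem rank_GDG (K : Type) [Field K] [NumberField K] {m : ℕ} (h : Units.rank K ≤ m) :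
    finrank ℚ K < InfinitePlace.nrComplexPlaces K + 2 + m := by
  have h1 := InfinitePlace.card_add_two_mul_card_eq_rank K
  have h2 := InfinitePlace.card_eq_nrRealPlaces_add_nrComplexPlaces K
  rw [Units.rank] at h
  omega

theorem GDG_pf (hRES : MP_3e91a1_nt.RES_st) (hTWR : TWR_st) (hTRF : TRF_st) (hDEC : DEC_st)
    (hETK : ETK_st) (hTHG : THG_st) (hRFK : RFK_st) : GDG_st := by
  intro K _
  obtain ⟨w', hK, fx⟩ := prim_GDG K
  obtain ⟨B₀, hB₀⟩ := hDEC K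
  rw [fx] at hB₀ ⊢
  set w : Qb := (w' : Qb) with hw
  obtain ⟨N₀, hN₀, hf⟩ := exists_ON_fix {w}
  have i0 : N₀.index ≠ 0 := have := hN₀.finite; Subgroup.index_ne_zero_of_finite
  refine ⟨B₀ + N₀.index + classNumber K + finrank ℚ K + 3,
    fun p r E m _ ζ u hrk hB hE hun hind hζ hr => ?_⟩
  have hp : p.Prime := Fact.out
  obtain ⟨b1, b2, b3, b4, b5⟩ : B₀ < p ∧ N₀.index < p ∧ classNumber K < p ∧
      finrank ℚ K < p ∧ 3 < p := by omega
  clear hB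
  have b6 : 2 < p := by omega
  have r1 : (r : ZMod p) ≠ 1 := hr.ne_one (by omega)
  have hr0 : ¬ p ∣ r := fun c => by
    have h1 := hr.pow_eq_one
    rw [(ZMod.natCast_eq_zero_iff r p).2 c, zero_pow (by omega)] at h1
    exact zero_ne_one h1
  refine ⟨stabilizer_isOpen_of_isIntegral w, fun γ => ?_, fun δ hδ hδζ L _ δ' hL hδ' => ?_⟩
  · obtain ⟨τ, h1, h2⟩ := omega_surj (nv_na p γ) hp (nv_lt p γ) hζ hr0
    exact ⟨τ, ⟨Ine_le p γ h1, hB₀ p _ τ hp b1 (nv_na p γ) (nv_lt p γ) h1⟩, h2⟩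
  intro f hf0 _ hfe
  have : NeZero p := ⟨hp.ne_zero⟩
  have ex : ∀ g : GQ, ∃ i, i < p ∧ ζ ^ i = g ζ := fun g =>
    hζ.eq_pow_of_pow_eq_one (by rw [← map_pow, hζ.pow_eq_one, map_one])
  set Z := MulAction.stabilizer GQ ζ with hZ
  set U := MulAction.stabilizer GQ w with hU
  have oZ : ON Z := ⟨⟨fun n hn g => by
    obtain ⟨i, -, hi⟩ := ex g⁻¹
    change g (n (g⁻¹ ζ)) = ζ
    rw [← hi, map_pow, show n ζ = ζ from hn, hi, ← AlgEquiv.mul_apply, mul_inv_cancel,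
      AlgEquiv.one_apply]⟩, stabilizer_isOpen_of_isIntegral ζ⟩
  have iZ : ¬ p ∣ Z.index := by
    have h1 : MulAction.orbit GQ ζ ⊆ (primitiveRoots p Qb : Set Qb) := by
      rintro _ ⟨g, rfl⟩
      exact (mem_primitiveRoots hp.pos).2 (hζ.map_of_injective g.injective)
    have h2 := Set.ncard_le_ncard h1 (Finset.finite_toSet _)
    rw [Set.ncard_coe_finset, hζ.card_primitiveRoots, Nat.totient_prime hp,
      ← MulAction.index_stabilizer, ← hZ] at h2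
    have := oZ.finite
    exact fun c => absurd (Nat.le_of_dvd (Nat.pos_of_ne_zero Subgroup.index_ne_zero_of_finite) c)
      (by omega)
  have oN := hN₀.inf oZ
  have nd : ∀ W : Subgroup GQ, ¬ p ∣ (N₀ ⊓ Z).relIndex W := fun W c => by
    have := hN₀.1
    have := oZ.1
    rw [← Subgroup.relIndex_inf_mul_relIndex] at c
    rcases (Nat.Prime.dvd_mul hp).1 c with c | c
    · exact absurd (Nat.le_of_dvd (by omega) (c.trans (N₀.relIndex_dvd_index_of_normal _)))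
        (by omega)
    · exact iZ (c.trans (Z.relIndex_dvd_index_of_normal _))
  have le : N₀ ⊓ Z ≤ U ⊓ Z := inf_le_inf_right _ fun g hg => hf w (mem_singleton_self w) g hg
  obtain ⟨M, _, _, hM, hlift⟩ := gal_GD hRES oN
  obtain ⟨_, alL, _, fL, -⟩ := hTWR _ _ L M oN.2 le (fun g _ n hn => oN.1.conj_mem n hn g) hL hM
  obtain ⟨_, alK, _, fK, fK', lK, rK⟩ := hTWR _ U K M oN.2 (le.trans inf_le_left)
    (fun g _ n hn => oN.1.conj_mem n hn g) hK hM
  obtain ⟨F, hF, hF0, hFe⟩ := hTRF p L M f (fL ▸ nd _) hf0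
  let z : M := ⟨ζ, (hM ζ).2 fun g hg => hg.2⟩
  have hz : IsPrimitiveRoot z p := IsPrimitiveRoot.coe_submonoidClass_iff.1 hζ
  have ex' : ∀ g : M ≃ₐ[K] M, ∃ i, i < p ∧ z ^ i = g z := fun g =>
    hz.eq_pow_of_pow_eq_one (by rw [← map_pow, hz.pow_eq_one, map_one])
  choose ω _ hω using ex'
  have dM : ¬ p ∣ finrank ℚ M := fun c => by
    rw [← fK', fK] at c
    exact ((Nat.Prime.dvd_mul hp).1 c).elim
      (fun c => absurd (Nat.le_of_dvd finrank_pos c) b4.not_ge) (nd _)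
  obtain ⟨η, e1, e2⟩ := hETK p K M z ω hp b6 hz (fun g => (hω g).symm) (by
    obtain ⟨τ, hτ⟩ := lK δ hδ
    refine ⟨τ, fun c => ?_⟩
    have h1 : ζ ^ r = ζ ^ 1 := by rw [← hδζ, pow_one, ← hτ z, c]
    rw [(hζ.isOfFinOrder hp.ne_zero).pow_eq_pow_iff_modEq, ← hζ.eq_orderOf,
      ← ZMod.natCast_eq_natCast_iff, Nat.cast_one] at h1
    exact r1 h1) dM b4
  have dep := hTHG p E _ m K M z ω u hp b6 hz (fun g => (hω g).symm) dM (rank_GDG K hrk)
    (fun c => absurd (Nat.le_of_dvd (classNumber_pos K) c) b3.not_ge) hE hun hind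
  refine hF0 (hRFK p _ K M z ω η F hp hz (fun g => (hω g).symm)
    (by rw [IsGalois.card_aut_eq_finrank, fK]; exact nd _) e1 e2 dep hF fun τ v => ?_)
  obtain ⟨τ', hτ⟩ := rK τ
  obtain ⟨g, hg⟩ := hlift τ'
  have g1 : g w = w := by rw [← show (algebraMap K M w' : Qb) = w from alK w', ← hg, hτ, τ.commutes]
  have g2 : g ζ = ζ ^ ω τ := by
    rw [← show (z : Qb) = ζ from rfl, ← hg, hτ, ← hω]
    rfl
  obtain ⟨i, hi, hi'⟩ := log_WBS1 hζ hr hδζ g2
  have e : gact τ v = gact τ' v := congrArg (fun s => act s v) (RingEquiv.ext fun x => (hτ x).symm)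
  rw [e, ← hi]
  refine hFe τ' (δ' ^ i) _ (fun x => Subtype.ext ?_) (eig_WBS1 hfe i) v
  have h1 := (hL x).1 x.2 _ (mem_WBS1 (g := g) (h := δ ^ i) (g1.trans (pow_mem hδ i).symm) hi'.symm)
  rw [hg, alL, alL, ind_pow_WBS1 hδ' i]
  conv_rhs => rw [← h1, ← AlgEquiv.mul_apply, mul_inv_cancel_left]

end Pool.Agent.MP_3e91a1_nt.GN

end

section

/-! The conjecture of Leopoldt from independent quotients. -/

set_option autoImplicit false

open NumberField Module Finset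

namespace Pool.Agent.MP_3e91a1_nt.GN

open TR

theorem grp_LEG {G : Type} [CommGroup G] {m p : ℕ} (u : Fin m → G) (z z' : Fin m → Fin p) :
    (∏ i, u i ^ (z i : ℕ))⁻¹ * (∏ i, u i ^ (z' i : ℕ)) * (∏ i, u i) ^ p =
      ∏ i, u i ^ ((z' i : ℕ) + (p - z i)) := by
  rw [← prod_inv_distrib, ← prod_pow, ← prod_mul_distrib, ← prod_mul_distrib]
  refine prod_congr rfl fun i _ => ?_
  rw [pow_add, pow_sub _ (z i).2.le]
  ac_rfl

theorem LEG_pf : LEG_st := by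
  intro K _ _
  refine ⟨Nat.card (Units.torsion K) + 2, fun p E n u hr hp hB hE hy hI => ?_⟩
  have h1 : ∀ x : (𝓞 K)ˣ, (p : 𝓞 K) ∣ (x : 𝓞 K) ^ E - 1 := fun x =>
    hy _ ⟨((x⁻¹ : (𝓞 K)ˣ) : 𝓞 K), 0, by simp⟩
  have h2 : ∀ x : (𝓞 K)ˣ, x ^ p ∈ ker_LEO (𝓞 K) p E := fun x => by
    have := dvd_sub_pow_of_dvd_sub (h1 x) 1
    rw [pow_one, one_pow, ← pow_mul, mul_comm, pow_mul] at this
    exact this
  have h3 : ∀ z : Fin n → ℕ, ∏ i, u i ^ z i ∈ ker_LEO (𝓞 K) p E → ∀ i, p ∣ z i := fun z h =>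
    hI z (by
      have e : ((∏ i, u i ^ z i : (𝓞 K)ˣ) : 𝓞 K) = ∏ i, (u i : 𝓞 K) ^ z i := by simp
      exact e ▸ h)
  have h4 : (powMonoidHom p : (𝓞 K)ˣ →* (𝓞 K)ˣ).range ≤ ker_LEO (𝓞 K) p E := by
    rintro _ ⟨x, rfl⟩
    exact h2 x
  obtain ⟨f, hf⟩ := card_LEO K hp (by omega)
    (Q := (𝓞 K)ˣ ⧸ (powMonoidHom p : (𝓞 K)ˣ →* (𝓞 K)ˣ).range)
    (QuotientGroup.mk' _) (QuotientGroup.mk'_surjective _) fun x => by
      rw [← map_pow]
      exact (QuotientGroup.eq_one_iff (x ^ p)).2 (MonoidHom.mem_range.2 ⟨x, rfl⟩)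
  have := Finite.of_surjective f hf
  have h5 : ∀ i i' : Fin p, p ∣ i' + (p - i) → i = i' := by
    rintro i i' ⟨k, hk⟩
    have a1 := i.2
    have a2 := i'.2
    have a3 : k = 1 := by
      rcases k with _ | _ | k
      · omega
      · rfl
      · have : p * (k + 1 + 1) = p * k + 2 * p := by ring
        omega
    rw [a3] at hk
    exact Fin.ext (by omega)
  have h6 : Function.Injective fun z : Fin n → Fin p => ((∏ i, u i ^ (z i : ℕ) : (𝓞 K)ˣ) :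
      (𝓞 K)ˣ ⧸ (powMonoidHom p : (𝓞 K)ˣ →* (𝓞 K)ˣ).range) := by
    intro z z' h
    have a1 := mul_mem (h4 (QuotientGroup.eq.1 h)) (h2 (∏ i, u i))
    rw [grp_LEG] at a1
    exact funext fun i => h5 _ _ (h3 _ a1 i)
  have h7 := (h6.bijective_of_nat_card_le ((Nat.card_le_card_of_surjective f hf).trans (by
    simp only [Nat.card_eq_fintype_card, Fintype.card_pi, Fintype.card_fin, prod_const, card_univ]
    exact Nat.pow_le_pow_right hp.pos hr))).2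
  have h8 : ∀ e ∈ ker_LEO (𝓞 K) p E, ∃ η : (𝓞 K)ˣ, η ^ p = e := by
    intro e he
    obtain ⟨z, h⟩ := h7 e
    have a1 := QuotientGroup.eq.1 h
    have a2 := mul_mem he (inv_mem (h4 a1))
    rw [mul_inv_rev, inv_inv, mul_inv_cancel_left] at a2
    have a3 : ∏ i, u i ^ (z i : ℕ) = 1 := prod_eq_one fun i _ => by
      rw [Nat.eq_zero_of_dvd_of_lt (h3 _ a2 i) (z i).2, pow_zero]
    rw [a3] at a1
    simpa using a1
  intro m
  induction m with
  | zero => exact fun e _ => ⟨e, by simp⟩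
  | succ m ih =>
    intro e he
    have a1 : (p : 𝓞 K) ^ (m + 2) ∣ (e : 𝓞 K) ^ E - 1 := he.trans (sub_one_dvd_pow_sub_one _ _)
    obtain ⟨η, hη⟩ := h8 e ((pow_dvd_pow _ (by omega)).trans a1)
    obtain ⟨ξ, hξ⟩ := ih (η ^ E) (lte_LEO hp (by omega) (h1 η) m (by
      rwa [← pow_mul, mul_comm, pow_mul, ← Units.val_pow_eq_pow_val, hη]))
    have a2 : e ^ E = ξ ^ p ^ (m + 1) := by
      rw [← hη, ← pow_mul, mul_comm, pow_mul, hξ, ← pow_mul, pow_succ]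
    obtain ⟨a, b, hab⟩ := Nat.isCoprime_iff_coprime.2
      ((hp.coprime_iff_not_dvd.2 hE).symm.pow_right (m + 1))
    refine ⟨ξ ^ a * e ^ b, ?_⟩
    rw [mul_pow, ← zpow_natCast, ← zpow_natCast, ← zpow_mul, mul_comm a, zpow_mul, zpow_natCast, ← a2,
      ← zpow_natCast, ← zpow_mul, ← zpow_mul, ← zpow_add, mul_comm _ a, hab, zpow_one]

end Pool.Agent.MP_3e91a1_nt.GN

end

section

/-! Statements of the steps for one prime, for arbitrary families. -/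

set_option autoImplicit false

open NumberField IsDedekindDomain Module Finset

namespace Pool.Agent.MP_3e91a1_nt.FM

open TR GN CC MP_e23604_nt MP_e23604_nt.B MP_e23604_nt.R MP_f3cd89_nt

/-- the Frobenius modulo `p ^ 2` -/
def FRF_st : Prop := ∀ (p : ℕ) (M : Type) [Field M] [NumberField M] [IsGalois ℚ M] (a : 𝓞 M),
  p.Prime → (Ideal.span {(p : 𝓞 M)}).IsRadical → ∃ b : 𝓞 M, (p : 𝓞 M) ∣ b - a ^ p ∧
    (∀ q : Polynomial ℤ, Polynomial.aeval a q = 0 → (p : 𝓞 M) ^ 2 ∣ Polynomial.aeval b q) ∧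
    ∀ (q : Polynomial ℤ) (E : ℕ) (E' : ℤ) (l : 𝓞 M), (p : ℤ) ∣ E * E' - 1 →
      Polynomial.aeval a q ^ E = 1 + p * l →
      (p : 𝓞 M) ^ 2 ∣ Polynomial.aeval b q - Polynomial.aeval a q ^ p * (1 + p * (E' * l ^ p))

/-- dependent quotients give a bad prime -/
def BDF_st : Prop := ∀ (m n T : ℕ) (Φ : Fam m) (d : Polynomial ℤ)
  (K : IntermediateField ℚ (AlgebraicClosure ℚ)) [NumberField K] (w : 𝓞 K) (a : Fin n → Zb),
  Φ.Ok n → IsE Φ.f n d → Irreducible (sp Φ.f ((T : ℤ) : ℚ)) → ev Φ.f (T : 𝓞 K) w = 0 →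
  Rf Φ.f (T : Zb) a → ∃ B : ℕ, ∀ p E : ℕ, p.Prime → B < p → ¬ p ∣ E →
    (∀ i, (p : 𝓞 K) ∣ ev (Φ.U i) (T : 𝓞 K) w ^ E - 1) →
    ¬ Indg p E (fun i => ev (Φ.U i) (T : 𝓞 K) w) → Baf p T Φ d a

/-- the result for one prime -/
def ONF_st : Prop := ∀ (m n T : ℕ) (Φ : Fam m) (d : Polynomial ℤ) (k : IntermediateField ℚ Qb)
  [NumberField k] (w : Qb) (a : Fin n → Zb), Φ.Ok n → IsE Φ.f n d →
  Irreducible (sp Φ.f ((T : ℤ) : ℚ)) → Units.rank k ≤ m → w ∈ k → ev Φ.f (T : Qb) w = 0 →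
  Rf Φ.f (T : Zb) a → ∃ B : ℕ, ∀ (p : ℕ) [Fact p.Prime], B < p → ¬ Baf p T Φ d a →
    Leo p k ∧ ∀ K, PExt p k K → WeakLeopoldt p K {0}

end Pool.Agent.MP_3e91a1_nt.FM

end

section

/-! Dependent quotients give a bad prime, for arbitrary families. -/

set_option autoImplicit false

open NumberField Module Finset

namespace Pool.Agent.MP_3e91a1_nt.FM

open TR GN

theorem aev_BDF (hITF : ITF_st) {R S : Type} [CommRing R] [CommRing S] [Algebra R S] (q : P2)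
    (T : ℕ) (a : S) : Polynomial.aeval a (sp q ((T : ℤ) : R)) = ev q (T : S) a := by
  rw [Polynomial.aeval_def, ← Polynomial.eval_map, (hITF.1 R S (algebraMap R S) q _ 0).1]
  simp [ev]

theorem evm_BDF (hITF : ITF_st) {R S : Type} [CommRing R] [CommRing S] (φ : R →+* S) (q : P2)
    (T : ℕ) (a : R) : φ (ev q (T : R) a) = ev q (T : S) (φ a) := by
  rw [(hITF.1 R S φ q _ a).2, map_natCast]

theorem map_BDF (hITF : ITF_st) {R S : Type} [CommRing R] [CommRing S] (φ : R →+* S)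
    {p T m : ℕ} {Φ : Fam m} {a : R} {x : Fin m → R} (h : Quf p Φ (T : R) a x) :
    Quf p Φ (T : S) (φ a) (fun i => φ (x i)) := by
  obtain ⟨b, h1, h2, h3⟩ := h
  refine ⟨φ b, by simpa using map_dvd φ h1, ?_, fun i => ?_⟩
  · simpa [evm_BDF hITF] using map_dvd φ h2
  · simpa [evm_BDF hITF] using map_dvd φ (h3 i)

theorem quo_BDF (hITF : ITF_st) (hFRF : FRF_st) {p E T m : ℕ} {E' : ℤ} {Φ : Fam m} {M : Type}
    [Field M] [NumberField M] [IsGalois ℚ M] {a : 𝓞 M} {l : Fin m → 𝓞 M} (hp : p.Prime)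
    (hr : (Ideal.span {(p : 𝓞 M)}).IsRadical) (hE : (p : ℤ) ∣ E * E' - 1)
    (ha : ev Φ.f (T : 𝓞 M) a = 0) (h1 : ∀ i, ev (Φ.U i) (T : 𝓞 M) a ^ E = 1 + p * l i) :
    Quf p Φ (T : 𝓞 M) a (fun i => -(E' * l i ^ p)) := by
  obtain ⟨b, b1, b2, b3⟩ := hFRF p M a hp hr
  have k := fun (q : P2) (x : 𝓞 M) => aev_BDF hITF (R := ℤ) q T x
  simp only [Int.cast_id] at k
  refine ⟨b, b1, ?_, fun i => ?_⟩
  · rw [← k]
    exact b2 _ (by rw [k, ha])
  · have := b3 (sp (Φ.U i) (T : ℤ)) E E' (l i) hE (by rw [k, h1])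
    rw [k, k] at this
    simpa only [mul_neg, sub_neg_eq_add] using this

theorem BDF_pf (hITF : ITF_st) (hDZF : DZF_st) (hURM : URM_st) (hFRF : FRF_st) : BDF_st := by
  intro m n T Φ d K _ w a hΦ hd hT hw ha
  have : IsAlgClosure ℚ (AlgebraicClosure ℚ) := AlgebraicClosure.instIsAlgClosure ℚ
  have : Normal ℚ (AlgebraicClosure ℚ) := IsAlgClosure.normal ℚ _
  let M := IntermediateField.normalClosure ℚ K (AlgebraicClosure ℚ)
  have : NumberField M := {}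
  have : Normal ℚ M := normalClosure.normal ℚ K (AlgebraicClosure ℚ)
  have : IsGalois ℚ M := {}
  let χ : 𝓞 M →+* Zb := RingOfIntegers.mapRingHom (algebraMap M (AlgebraicClosure ℚ))
  have key : ∀ s, ∃ ψ : 𝓞 K →+* 𝓞 M, χ (ψ w) = a s := by
    intro s
    have h1 := congrArg (algebraMap (𝓞 K) (AlgebraicClosure ℚ)) hw
    have h2 := congrArg (algebraMap Zb (AlgebraicClosure ℚ)) ((hITF.2.2.2.2 Φ.f n Zb T a ha).1 s)
    rw [evm_BDF hITF, map_zero, ← aev_BDF hITF (R := ℚ)] at h1 h2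
    have hm := minpoly.eq_of_irreducible hT h1
    obtain ⟨g, hg⟩ := minpoly.exists_algEquiv_of_root' (Algebra.IsAlgebraic.isAlgebraic
      (algebraMap (𝓞 K) (AlgebraicClosure ℚ) w)) (by rw [← hm, map_mul, h2, zero_mul])
    let f : K →ₐ[ℚ] AlgebraicClosure ℚ := (g : _ →ₐ[ℚ] _).comp K.val
    let f' : K →ₐ[ℚ] M := f.codRestrict M.toSubalgebra
      fun x => f.fieldRange_le_normalClosure ⟨x, rfl⟩
    exact ⟨RingOfIntegers.mapRingHom (f' : K →+* M), RingOfIntegers.coe_injective hg⟩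
  choose ψ hψ using key
  refine ⟨(discr M).natAbs + (Polynomial.aeval (T : ℤ) d).natAbs, fun p E hp hB hE hl hI => ?_⟩
  have nd : ∀ n : ℤ, n ≠ 0 → n.natAbs < p → ¬ (p : ℤ) ∣ n := fun n h0 h c =>
    absurd (Nat.le_of_dvd (Int.natAbs_pos.2 h0) (Int.natCast_dvd.1 c)) h.not_ge
  obtain ⟨hrad, -⟩ := hURM p M hp (nd _ (discr_ne_zero M) (by omega))
  obtain ⟨D, E', hD⟩ := ((Nat.Prime.coprime_iff_not_dvd hp).2 hE).isCoprime
  have hE' : (p : ℤ) ∣ E * E' - 1 := ⟨-D, by linear_combination hD⟩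
  choose l hl using hl
  replace hl : ∀ i, ev (Φ.U i) (T : 𝓞 K) w ^ E = 1 + p * l i := fun i => by
    linear_combination hl i
  rw [Indg] at hI
  push Not at hI
  obtain ⟨e, h1, i, hi⟩ := hI
  have h3 := dep_BDG (u := fun i => ev (Φ.U i) (T : 𝓞 K) w) (by exact_mod_cast hp.ne_zero) hl h1
  refine ⟨nd _ (hDZF Φ.f n d T hΦ.1 hΦ.2.1 hd hT) (by omega),
    fun s i => χ (-(E' * ψ s (l i) ^ p)),
    fun i => e i, fun s => hψ s ▸ map_BDF hITF χ (quo_BDF hITF hFRF hp hrad hE'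
      (by rw [← evm_BDF hITF, hw, map_zero]) fun i => by
        rw [← evm_BDF hITF, ← map_pow, hl, map_add, map_one, map_mul, map_natCast]),
    ⟨i, fun c => hi (Int.natCast_dvd_natCast.1 c)⟩, fun s => ?_⟩
  have h4 : (p : 𝓞 M) ∣ ∑ i, e i * ψ s (l i) := by simpa using map_dvd (ψ s) h3
  have h5 := map_dvd χ (fin_BDG hp (E' : 𝓞 M) h4)
  rw [map_natCast, map_sum] at h5
  simpa only [map_mul, map_natCast, Int.cast_natCast] using h5

end Pool.Agent.MP_3e91a1_nt.FM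

end

section

/-! The Frobenius modulo `p ^ 2`, for polynomials in one integer. -/

set_option autoImplicit false

open NumberField IsDedekindDomain

namespace Pool.Agent.MP_3e91a1_nt.FM

open TR GN

theorem loc_FRF {S : Type} [CommRing S] {a w : S} {k : ℕ}
    (h : ∀ P : Ideal S, P.IsMaximal → a ∈ P → ∃ s, s ∉ P ∧ a ^ k ∣ s * w) : a ^ k ∣ w := by
  by_contra h3
  let I : Ideal S := (Ideal.span {a ^ k}).colon {w}
  have hI : ∀ s, s ∈ I ↔ a ^ k ∣ s * w := fun s => by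
    simp [I, Ideal.mem_span_singleton]
  obtain ⟨P, hP, h4⟩ := I.exists_le_maximal fun e => h3 (by
    simpa using (hI 1).1 (e ▸ Submodule.mem_top))
  obtain ⟨s, hs, h5⟩ := h P hP
    (hP.isPrime.mem_of_pow_mem k (h4 ((hI _).2 (dvd_mul_right _ _))))
  exact hs (h4 ((hI s).2 h5))

theorem sq_FRF {S : Type} [CommRing S] {P : Ideal S} {a t : S} (h : ∀ x ∈ P, a ∣ t * x) {x : S}
    (hx : x ∈ P ^ 2) : a ^ 2 ∣ t * t * x := by
  rw [sq] at hx
  refine Submodule.mul_induction_on hx (fun y hy z hz => ?_) fun y z hy hz => ?_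
  · rw [sq, mul_mul_mul_comm]
    exact mul_dvd_mul (h y hy) (h z hz)
  · rw [mul_add]
    exact dvd_add hy hz

theorem frob_FRF {p : ℕ} {M : Type} [Field M] [NumberField M] [IsGalois ℚ M] (hp : p.Prime)
    (P : Ideal (𝓞 M)) (hP : P.IsMaximal) (h0 : (p : 𝓞 M) ∈ P) :
    ∃ f : 𝓞 M →ₐ[ℤ] 𝓞 M, ∀ x, f x - x ^ p ∈ P := by
  have hP' := hP.isPrime
  have hp0 : (p : 𝓞 M) ≠ 0 := Nat.cast_ne_zero.2 hp.ne_zero
  have hne : P ≠ ⊥ := fun e => by
    rw [e, Ideal.mem_bot] at h0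
    exact hp0 h0
  have : Finite (𝓞 M ⧸ P) := P.finiteQuotientOfFreeOfNeBot hne
  obtain ⟨σ, hσ⟩ := IsArithFrobAt.exists_of_isInvariant ℤ (M ≃ₐ[ℚ] M) P
  have hu : Ideal.span {(p : ℤ)} = P.under ℤ := by
    have := Fact.mk hp
    refine (Int.ideal_span_isMaximal_of_prime p).eq_of_le (Ideal.IsPrime.under ℤ P).ne_top ?_
    rw [Ideal.span_singleton_le_iff_mem, Ideal.mem_comap]
    simpa using h0
  have hc : Nat.card (ℤ ⧸ P.under ℤ) = p := by rw [← hu, Int.card_ideal_quot]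
  exact ⟨MulSemiringAction.toAlgHom ℤ (𝓞 M) σ, fun x => hc ▸ hσ x⟩

theorem FRF_pf : FRF_st := by
  classical
  intro p M _ _ _ a hp hr
  have hp0 : (p : 𝓞 M) ≠ 0 := Nat.cast_ne_zero.2 hp.ne_zero
  have hfin := Ideal.finite_factors (I := Ideal.span {(p : 𝓞 M)}) (by simpa using hp0)
  have hF : ∀ v : HeightOneSpectrum (𝓞 M), ∃ f : 𝓞 M →ₐ[ℤ] 𝓞 M,
      (p : 𝓞 M) ∈ v.asIdeal → ∀ x, f x - x ^ p ∈ v.asIdeal := fun v => by
    by_cases h : (p : 𝓞 M) ∈ v.asIdeal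
    · obtain ⟨f, hf⟩ := frob_FRF hp v.asIdeal v.isMaximal h
      exact ⟨f, fun _ => hf⟩
    · exact ⟨AlgHom.id _ _, fun h' => absurd h' h⟩
  choose f hf using hF
  obtain ⟨b, hb⟩ := exists_forall_sub_mem_ideal (s := hfin.toFinset) (fun v => v.asIdeal)
    (fun _ => 2) (fun v _ => v.prime) (fun v _ w _ h e => h (HeightOneSpectrum.ext e))
    fun v => f v a
  have key : ∀ P : Ideal (𝓞 M), P.IsMaximal → (p : 𝓞 M) ∈ P → ∃ g : 𝓞 M →ₐ[ℤ] 𝓞 M,
      (∀ x, g x - x ^ p ∈ P) ∧ b - g a ∈ P ^ 2 ∧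
        ∀ q : Polynomial ℤ, Polynomial.aeval b q - g (Polynomial.aeval a q) ∈ P ^ 2 := by
    intro P hP h0
    have hne : P ≠ ⊥ := fun e => by
      rw [e, Ideal.mem_bot] at h0
      exact hp0 h0
    let v : HeightOneSpectrum (𝓞 M) := ⟨P, hP.isPrime, hne⟩
    have h1 : b - f v a ∈ P ^ 2 :=
      hb v ((Set.Finite.mem_toFinset _).2 (Ideal.dvd_span_singleton.2 h0))
    refine ⟨f v, hf v h0, h1, fun q => ?_⟩
    rw [← Polynomial.aeval_algHom_apply, Polynomial.aeval_def, Polynomial.aeval_def,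
      Polynomial.eval₂_eq_eval_map, Polynomial.eval₂_eq_eval_map]
    exact Ideal.mem_of_dvd _ (Polynomial.sub_dvd_eval_sub _ _ _) h1
  refine ⟨b, ?_, fun q hq => loc_FRF fun P hP h0 => ?_,
    fun q E E' l hE hx => loc_FRF fun P hP h0 => ?_⟩
  · rw [← pow_one (p : 𝓞 M)]
    refine loc_FRF fun P hP h0 => ?_
    obtain ⟨g, h1, h2, -⟩ := key P hP h0
    obtain ⟨t, ht, ht'⟩ := rad_FRO hP.ne_top hp0 h0 hr
    refine ⟨t, ht, ?_⟩
    rw [pow_one]
    refine ht' _ ?_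
    rw [← sub_add_sub_cancel b (g a)]
    exact add_mem (Ideal.pow_le_self two_ne_zero h2) (h1 a)
  · obtain ⟨g, -, -, h3⟩ := key P hP h0
    obtain ⟨t, ht, ht'⟩ := rad_FRO hP.ne_top hp0 h0 hr
    have h4 := h3 q
    rw [hq, map_zero, sub_zero] at h4
    exact ⟨t * t, fun h => (hP.isPrime.mem_or_mem h).elim ht ht, sq_FRF ht' h4⟩
  · obtain ⟨g, hg, -, h3⟩ := key P hP h0
    obtain ⟨t, ht, ht'⟩ := rad_FRO hP.ne_top hp0 h0 hr
    have h4 := sq_FRF ht' (h3 q)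
    generalize Polynomial.aeval a q = x at hx h4 ⊢
    have hE1 : ¬ p ∣ E := fun h => by
      have h5 : (p : ℤ) ∣ E * E' := (Int.natCast_dvd_natCast.2 h).mul_right _
      have h6 : (p : ℤ) ∣ 1 := by simpa using dvd_sub h5 hE
      exact hp.one_lt.ne' (Nat.dvd_one.1 (by exact_mod_cast h6))
    obtain ⟨k, hk⟩ := hE
    have hk' : (E : 𝓞 M) * (E' : 𝓞 M) - 1 = p * (k : 𝓞 M) := by
      exact_mod_cast congrArg Int.cast hk
    obtain ⟨c, hc⟩ := pow_FRO hk' hx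
    have h5 : g x ^ E = 1 + p * g l := by
      simpa only [map_pow, map_natCast, map_add, map_mul, map_one] using congrArg g hx
    obtain ⟨d, hd⟩ := ht' _ (hg l)
    obtain ⟨s, hs, h6⟩ : ∃ s, s ∉ P ∧ (p : 𝓞 M) ^ 2 ∣
        s * (x ^ p * (1 + p * (E' * l ^ p)) - g x) := by
      refine step_FRO hP.isPrime hp hE1 h0 ?_ ?_ ht ⟨t * c - d, ?_⟩
      · have h7 := P.sub_mem (hg x) (P.mul_mem_right (x ^ p * (E' * l ^ p)) h0)
        rwa [show g x - x ^ p - p * (x ^ p * (E' * l ^ p)) =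
          g x - x ^ p * (1 + p * (E' * l ^ p)) by ring] at h7
      · have h7 := P.mul_mem_right (l ^ p + p * c) h0
        rwa [show (p : 𝓞 M) * (l ^ p + p * c) = (x ^ p * (1 + p * (E' * l ^ p))) ^ E - 1 by
          linear_combination -hc] at h7
      · rw [h5]
        linear_combination t * hc - (p : 𝓞 M) * hd
    refine ⟨s * (t * t), fun h => (hP.isPrime.mem_or_mem h).elim hs fun h =>
      (hP.isPrime.mem_or_mem h).elim ht ht, ?_⟩
    refine (dvd_sub (h4.mul_left s) (h6.mul_left (t * t))).trans (dvd_of_eq ?_)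
    ring

end Pool.Agent.MP_3e91a1_nt.FM

end

section

/-! The count for an arbitrary family. -/

set_option autoImplicit false

open Filter NumberField Finset

namespace Pool.Agent.MP_3e91a1_nt.FM

open TR GN CC MP_e23604_nt MP_e23604_nt.B MP_e23604_nt.R MP_f3cd89_nt

/-- the count -/
def CTF_st : Prop := ∀ (m : ℕ) (f : P2) (u : Fin m → (AdjoinRoot f)ˣ), f.Monic →
  (∀ e : Fin m → ℤ, e ≠ 0 → Transcendental ℤ ((∏ i, u i ^ e i : (AdjoinRoot f)ˣ) : AdjoinRoot f)) →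
  ∀ δ ε : ℝ, 0 < δ → 0 < ε → ∀ᶠ M : ℕ in atTop,
    ∀ (k : ℕ → IntermediateField ℚ (AlgebraicClosure ℚ)) [∀ T, NumberField (k T)]
      (G : ℕ → ℕ → Prop), (∀ T p, ∀ _ : Fact p.Prime,
        (Leo p (k T) ∧ ∀ K, PExt p (k T) K → WeakLeopoldt p K {0}) → G T p) →
      ∀ᶠ x : ℕ in atTop, (Set.ncard {T : ℕ | 1 ≤ T ∧ T ≤ M ∧
        Irreducible (f.map (Polynomial.evalRingHom (T : ℤ))) ∧
        (∃ w ∈ k T, Polynomial.aeval w (f.map (Polynomial.evalRingHom (T : ℤ))) = 0) ∧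
        Units.rank (k T) ≤ m ∧
        (Set.ncard {p : ℕ | p ≤ x ∧ G T p} : ℝ) < (1 - δ) * x / Real.log x} : ℝ) ≤ ε * M

theorem sp_int (f : P2) (T : ℤ) (S : Type) [CommRing S] :
    sp f (T : S) = (f.map (Polynomial.evalRingHom T)).map (Int.castRingHom S) := by
  rw [sp, Polynomial.map_map]
  congr 1
  refine Polynomial.ringHom_ext' (RingHom.ext_int _ _) ?_
  simp

theorem shift_ne {d : Polynomial ℤ} (hd : d ≠ 0) : ∃ s : ℕ, d.eval (-s : ℤ) ≠ 0 := by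
  by_contra h
  push Not at h
  refine hd (Polynomial.eq_zero_of_infinite_isRoot d (Set.infinite_of_injective_forall_mem
    (f := fun s : ℕ => (-s : ℤ)) (fun a b hab => ?_) h))
  simpa using hab

theorem CTF_pf (hDSF : DSF_st) (hDZF : DZF_st) (hADJ : ADJ_st) (hSHF : SHF_st) (hCOP : COP_st)
    (hRTF : RTF_st) (hDEF : DEF_st) (hFEG : FEG_st) (hDAG : DAG_st) (hDSG : DSG_st)
    (hONF : ONF_st) : CTF_st := by
  intro m f u hf hu δ ε hδ hε
  obtain ⟨Φ, rfl, hok, hind⟩ := hADJ m f u hf hu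
  obtain ⟨d, hd⟩ := hDSF _ _ hf rfl
  have irr : ∀ T : ℤ, Irreducible (Φ.f.map (Polynomial.evalRingHom T)) →
      Irreducible (sp Φ.f (T : ℚ)) := fun T h => by
    rw [sp_int]
    exact ((hf.map _).irreducible_iff_irreducible_map_fraction_map (K := ℚ)).1 h
  by_cases h0 : d = 0
  · refine Eventually.of_forall fun M k _ G _ => Eventually.of_forall fun x => ?_
    refine le_trans (Nat.cast_le.2 (Set.ncard_le_ncard (t := ∅) (fun T hT => ?_))) ?_
    · exact hDZF _ _ d T hf rfl hd (irr T hT.2.2.1) (by rw [h0, map_zero])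
    · rw [Set.ncard_empty, Nat.cast_zero]
      positivity
  obtain ⟨s, hs⟩ := shift_ne h0
  obtain ⟨Ψ, hok', hind', hsp⟩ := hSHF m _ s Φ hok hind
  have hd' : IsE Ψ.f Φ.f.natDegree (d.comp (Polynomial.X - Polynomial.C (s : ℤ))) := by
    intro S _ T A hA
    rw [Rf, hsp] at hA
    rw [hd S _ A hA, Polynomial.aeval_comp]
    simp
  have hz : Polynomial.aeval (0 : ℤ) (d.comp (Polynomial.X - Polynomial.C (s : ℤ))) ≠ 0 := by
    simpa [Polynomial.aeval_comp] using hs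
  generalize d.comp (Polynomial.X - Polynomial.C (s : ℤ)) = d' at hd' hz
  choose a ha using fun T => hRTF Ψ.f _ T hok'.1 hok'.2.1
  have few : Few1 fun T p => Baf p T Ψ d' (a T) := by
    rcases m.eq_zero_or_pos with rfl | hm
    · exact few_zero fun t p ⟨_, _, _, _, ⟨i, _⟩, _⟩ => i.elim0
    obtain ⟨y, hy⟩ := hCOP d' hz
    refine hDAG _ y fun c c' h1 h2 h3 h4 h5 => ?_
    obtain ⟨k, ν, h6, h7⟩ :=
      hDEF m _ Ψ d' c c' a hm hok' hind' hd' (hy c c' h1 h2 h3 h4 h5) h1.pos h2.pos ha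
    exact hFEG k ν _ h6 h7
  filter_upwards [hDSG _ few δ ε s 0 hδ hε] with M hM k _ G hG
  refine (hM (fun T p => (Irreducible (Φ.f.map (Polynomial.evalRingHom (T : ℤ))) ∧
    (∃ w ∈ k T, Polynomial.aeval w (Φ.f.map (Polynomial.evalRingHom (T : ℤ))) = 0) ∧
    Units.rank (k T) ≤ m) → G T p) fun T _ => ?_).mono fun x hx => ?_
  swap
  · refine le_trans (Nat.cast_le.2 (Set.ncard_le_ncard (fun T hT => ?_)
      ((Set.finite_le_nat M).subset fun T hT => hT.2.1))) hx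
    obtain ⟨h1, h2, h3, h4, h5, h6⟩ := hT
    refine ⟨h1, h2, lt_of_le_of_lt (Nat.cast_le.2 (Set.ncard_le_ncard (fun p hp => ?_)
      ((Set.finite_le_nat x).subset fun p hp => hp.1))) h6⟩
    exact ⟨hp.1, hp.2 ⟨h3, h4, h5⟩⟩
  by_cases hc : Irreducible (Φ.f.map (Polynomial.evalRingHom (T : ℤ))) ∧
    (∃ w ∈ k T, Polynomial.aeval w (Φ.f.map (Polynomial.evalRingHom (T : ℤ))) = 0) ∧
    Units.rank (k T) ≤ m
  swap
  · exact ⟨0, fun p _ _ _ h => (hc h).elim⟩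
  obtain ⟨h1, ⟨w, h2, h3⟩, h4⟩ := hc
  obtain ⟨B, hB⟩ := hONF m _ (T + s) Ψ d' (k T) w (a (T + s)) hok' hd' (by
    rw [hsp]
    simpa using irr T h1) h4 h2 (by
    rw [ev, hsp]
    push_cast
    rw [add_sub_cancel_right, ← Int.cast_natCast, sp_int, Polynomial.eval_map]
    exact h3) (ha _)
  exact ⟨B, fun p hp h5 h6 _ => hG T p ⟨hp⟩ (@hB p ⟨hp⟩ h5 h6)⟩

end Pool.Agent.MP_3e91a1_nt.FM

end

section

/-! The result for one prime, for arbitrary families. -/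

set_option autoImplicit false

open NumberField IsDedekindDomain Module Finset

namespace Pool.Agent.MP_3e91a1_nt.FM

open TR GN CC MP_e23604_nt MP_e23604_nt.B MP_e23604_nt.R MP_f3cd89_nt

theorem int_ONF (hITF : ITF_st) (f : P2) (hf : f.Monic) (T : ℕ) (k : IntermediateField ℚ Qb)
    (w : Qb) (hk : w ∈ k) (hw : ev f (T : Qb) w = 0) : ∃ u : 𝓞 k, ev f (T : 𝓞 k) u = 0 := by
  have e : ev f (T : k) ⟨w, hk⟩ = 0 := by
    apply (algebraMap k Qb).injective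
    rw [(hITF.1 k Qb (algebraMap k Qb) f T ⟨w, hk⟩).2, map_natCast, map_zero]
    exact hw
  have hi : IsIntegral ℤ (⟨w, hk⟩ : k) := by
    refine ⟨sp f (T : ℤ), hf.map _, ?_⟩
    rw [← Polynomial.eval_map, (hITF.1 ℤ k (algebraMap ℤ k) f T 0).1, map_natCast]
    exact e
  refine ⟨⟨_, hi⟩, ?_⟩
  apply RingOfIntegers.coe_injective
  rw [(hITF.1 (𝓞 k) k (algebraMap (𝓞 k) k) f T _).2, map_natCast, map_zero]
  exact e

theorem cop_ONF {R : Type} [CommRing R] (u : Rˣ) (y : R) : IsCoprime (u : R) y :=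
  ⟨↑u⁻¹, 0, by simp⟩

theorem ONF_pf (hITF : ITF_st) (hURM : URM_st) (hBDF : BDF_st) (hLEG : LEG_st) (hGDG : GDG_st) (hGOOD : GOOD_st) (hTOP : TOP_st) (hDEV : DEV_st) (hMEM : MEM_st) : ONF_st := by
  intro m n T Φ d k _ w a hOk hD hirr hk hwk hw ha
  obtain ⟨u, hu⟩ := int_ONF hITF Φ.f hOk.1 T k w hwk hw
  obtain ⟨ψ, hψ₀⟩ := hITF.2.1 (𝓞 k) T u
  let v : Fin m → (𝓞 k)ˣ := fun i =>
    Units.mkOfMulEqOne (ev (Φ.U i) (T : 𝓞 k) u) (ev (Φ.V i) (T : 𝓞 k) u) (by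
      have h := map_dvd ψ (hOk.2.2 i)
      rwa [hψ₀ Φ.f, hu, zero_dvd_iff, map_sub, map_mul, map_one, hψ₀, hψ₀, sub_eq_zero] at h)
  obtain ⟨B₁, h₁⟩ := hBDF m n T Φ d k u a hOk hD hirr hu ha
  obtain ⟨B₂, h₂⟩ := hLEG k
  obtain ⟨B₃, h₃⟩ := hGDG k
  refine ⟨B₁ + B₂ + B₃ + (discr k).natAbs + 5, fun p hp hp5 hb => ?_⟩
  have hd : ¬ (p : ℤ) ∣ discr k := fun h => by
    have := Nat.le_of_dvd (Int.natAbs_pos.2 (discr_ne_zero k)) (Int.natCast_dvd.1 h)
    omega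
  obtain ⟨-, E, hE, hE'⟩ := hURM p k hp.out hd
  have hI : Indg p E fun i => (v i : 𝓞 k) := by
    by_contra h
    exact hb (h₁ p E hp.out (by omega) hE (fun i => hE' _ (cop_ONF (v i) _)) h)
  refine ⟨h₂ p E m v hk hp.out (by omega) hE hE' hI,
    fun K hP S κ F n ρ hS hpS hκ hsur hfin hρ hres => ?_⟩
  have : NeZero p := ⟨hp.out.ne_zero⟩
  obtain ⟨ζ, hζ⟩ := HasEnoughRootsOfUnity.exists_primitiveRoot Qb p
  obtain ⟨r', hr⟩ := HasEnoughRootsOfUnity.exists_primitiveRoot (ZMod p) (p - 1)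
  obtain ⟨r, rfl⟩ := ZMod.natCast_zmod_surjective r'
  have r0 : (r : ZMod p) ≠ 0 := hr.ne_zero (by omega)
  have r1 : (r : ZMod p) ≠ 1 := hr.ne_one (by omega)
  have := (hGOOD p ζ r 0 _ K hP).1
  have G0 : Good p ζ r r K.fixingSubgroup :=
    (hGOOD p ζ r _ _ K hP).2 (by omega) hζ hr r0 r1
      (h₃ p r E m ζ v hk (by omega) hE hE' hI hζ hr)
  obtain ⟨ω, hω, hH⟩ := hTOP p K S κ (by omega) hS hpS hκ hsur hfin
  choose e he hψ using hres.2
  have := (hMEM K S).1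
  have : CompactSpace κ.ker :=
    isCompact_iff_compactSpace.1 (isClosed_singleton.preimage hκ : IsClosed (κ ⁻¹' {1})).isCompact
  refine hDEV p κ.ker F n (ρ.comp κ.ker.subtype) (fun i g => ω g ^ e i)
    (hρ.comp continuous_subtype_val) (fun g => hres.1 g)
    (fun g i => norm_WONE _ _ _ (hψ i g _ (hω g))) fun i => ?_
  exact hH ζ r _ _ hζ hr (by rw [Set.mem_singleton_iff.1 (he i), pow_zero, mul_one]) r1 G0

end Pool.Agent.MP_3e91a1_nt.FM

end

section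

/-! The count for an arbitrary family, for the property that ascends in the tower. -/

set_option autoImplicit false

open Filter NumberField Finset

namespace Pool.Agent.MP_3e91a1_nt.DS

open TR GN FM CC MP_e23604_nt MP_e23604_nt.B MP_e23604_nt.R MP_f3cd89_nt

/-- the property of a good prime -/
def Gd (p : ℕ) [Fact p.Prime] (k : IntermediateField ℚ Qb) : Prop :=
  Leo p k ∧ 2 < p ∧ Module.finrank ℚ k < p ∧ ∀ (ζ : Qb) (r : ℕ), IsPrimitiveRoot ζ p →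
    IsPrimitiveRoot (r : ZMod p) (p - 1) → Good p ζ r r k.fixingSubgroup

/-- the result for one prime -/
def ONH_st : Prop := ∀ (m n T : ℕ) (Φ : Fam m) (d : Polynomial ℤ) (k : IntermediateField ℚ Qb)
  [NumberField k] (w : Qb) (a : Fin n → Zb), Φ.Ok n → IsE Φ.f n d →
  Irreducible (sp Φ.f ((T : ℤ) : ℚ)) → Units.rank k ≤ m → w ∈ k → ev Φ.f (T : Qb) w = 0 →
  Rf Φ.f (T : Zb) a → ∃ B : ℕ, ∀ (p : ℕ) [Fact p.Prime], B < p → ¬ Baf p T Φ d a → Gd p k

theorem ONH_pf (hITF : ITF_st) (hURM : URM_st) (hBDF : BDF_st) (hLEG : LEG_st) (hGDG : GDG_st) :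
    ONH_st := by
  intro m n T Φ d k _ w a hOk hD hirr hk hwk hw ha
  obtain ⟨u, hu⟩ := int_ONF hITF Φ.f hOk.1 T k w hwk hw
  obtain ⟨ψ, hψ₀⟩ := hITF.2.1 (𝓞 k) T u
  let v : Fin m → (𝓞 k)ˣ := fun i =>
    Units.mkOfMulEqOne (ev (Φ.U i) (T : 𝓞 k) u) (ev (Φ.V i) (T : 𝓞 k) u) (by
      have h := map_dvd ψ (hOk.2.2 i)
      rwa [hψ₀ Φ.f, hu, zero_dvd_iff, map_sub, map_mul, map_one, hψ₀, hψ₀, sub_eq_zero] at h)
  obtain ⟨B₁, h₁⟩ := hBDF m n T Φ d k u a hOk hD hirr hu ha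
  obtain ⟨B₂, h₂⟩ := hLEG k
  obtain ⟨B₃, h₃⟩ := hGDG k
  refine ⟨B₁ + B₂ + B₃ + (discr k).natAbs + Module.finrank ℚ k + 5, fun p hp hp5 hb => ?_⟩
  have hd : ¬ (p : ℤ) ∣ discr k := fun h => by
    have := Nat.le_of_dvd (Int.natAbs_pos.2 (discr_ne_zero k)) (Int.natCast_dvd.1 h)
    omega
  obtain ⟨-, E, hE, hE'⟩ := hURM p k hp.out hd
  have hI : Indg p E fun i => (v i : 𝓞 k) := by
    by_contra h
    exact hb (h₁ p E hp.out (by omega) hE (fun i => hE' _ (cop_ONF (v i) _)) h)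
  exact ⟨h₂ p E m v hk hp.out (by omega) hE hE' hI, by omega, by omega,
    fun ζ r hζ hr => h₃ p r E m ζ v hk (by omega) hE hE' hI hζ hr⟩

/-- the count -/
def CTH_st : Prop := ∀ (m : ℕ) (f : P2) (u : Fin m → (AdjoinRoot f)ˣ), f.Monic →
  (∀ e : Fin m → ℤ, e ≠ 0 → Transcendental ℤ ((∏ i, u i ^ e i : (AdjoinRoot f)ˣ) : AdjoinRoot f)) →
  ∀ δ ε : ℝ, 0 < δ → 0 < ε → ∀ᶠ M : ℕ in atTop,
    ∀ (k : ℕ → IntermediateField ℚ (AlgebraicClosure ℚ)) [∀ T, NumberField (k T)]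
      (G : ℕ → ℕ → Prop), (∀ T p, ∀ _ : Fact p.Prime, Gd p (k T) → G T p) →
      ∀ᶠ x : ℕ in atTop, (Set.ncard {T : ℕ | 1 ≤ T ∧ T ≤ M ∧
        Irreducible (f.map (Polynomial.evalRingHom (T : ℤ))) ∧
        (∃ w ∈ k T, Polynomial.aeval w (f.map (Polynomial.evalRingHom (T : ℤ))) = 0) ∧
        Units.rank (k T) ≤ m ∧
        (Set.ncard {p : ℕ | p ≤ x ∧ G T p} : ℝ) < (1 - δ) * x / Real.log x} : ℝ) ≤ ε * M

theorem CTH_pf (hDSF : DSF_st) (hDZF : DZF_st) (hADJ : ADJ_st) (hSHF : SHF_st) (hCOP : COP_st)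
    (hRTF : RTF_st) (hDEF : DEF_st) (hFEG : FEG_st) (hDAG : DAG_st) (hDSG : DSG_st)
    (hONH : ONH_st) : CTH_st := by
  intro m f u hf hu δ ε hδ hε
  obtain ⟨Φ, rfl, hok, hind⟩ := hADJ m f u hf hu
  obtain ⟨d, hd⟩ := hDSF _ _ hf rfl
  have irr : ∀ T : ℤ, Irreducible (Φ.f.map (Polynomial.evalRingHom T)) →
      Irreducible (sp Φ.f (T : ℚ)) := fun T h => by
    rw [sp_int]
    exact ((hf.map _).irreducible_iff_irreducible_map_fraction_map (K := ℚ)).1 h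
  by_cases h0 : d = 0
  · refine Eventually.of_forall fun M k _ G _ => Eventually.of_forall fun x => ?_
    refine le_trans (Nat.cast_le.2 (Set.ncard_le_ncard (t := ∅) (fun T hT => ?_))) ?_
    · exact hDZF _ _ d T hf rfl hd (irr T hT.2.2.1) (by rw [h0, map_zero])
    · rw [Set.ncard_empty, Nat.cast_zero]
      positivity
  obtain ⟨s, hs⟩ := shift_ne h0
  obtain ⟨Ψ, hok', hind', hsp⟩ := hSHF m _ s Φ hok hind
  have hd' : IsE Ψ.f Φ.f.natDegree (d.comp (Polynomial.X - Polynomial.C (s : ℤ))) := by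
    intro S _ T A hA
    rw [Rf, hsp] at hA
    rw [hd S _ A hA, Polynomial.aeval_comp]
    simp
  have hz : Polynomial.aeval (0 : ℤ) (d.comp (Polynomial.X - Polynomial.C (s : ℤ))) ≠ 0 := by
    simpa [Polynomial.aeval_comp] using hs
  generalize d.comp (Polynomial.X - Polynomial.C (s : ℤ)) = d' at hd' hz
  choose a ha using fun T => hRTF Ψ.f _ T hok'.1 hok'.2.1
  have few : Few1 fun T p => Baf p T Ψ d' (a T) := by
    rcases m.eq_zero_or_pos with rfl | hm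
    · exact few_zero fun t p ⟨_, _, _, _, ⟨i, _⟩, _⟩ => i.elim0
    obtain ⟨y, hy⟩ := hCOP d' hz
    refine hDAG _ y fun c c' h1 h2 h3 h4 h5 => ?_
    obtain ⟨k, ν, h6, h7⟩ :=
      hDEF m _ Ψ d' c c' a hm hok' hind' hd' (hy c c' h1 h2 h3 h4 h5) h1.pos h2.pos ha
    exact hFEG k ν _ h6 h7
  filter_upwards [hDSG _ few δ ε s 0 hδ hε] with M hM k _ G hG
  refine (hM (fun T p => (Irreducible (Φ.f.map (Polynomial.evalRingHom (T : ℤ))) ∧
    (∃ w ∈ k T, Polynomial.aeval w (Φ.f.map (Polynomial.evalRingHom (T : ℤ))) = 0) ∧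
    Units.rank (k T) ≤ m) → G T p) fun T _ => ?_).mono fun x hx => ?_
  swap
  · refine le_trans (Nat.cast_le.2 (Set.ncard_le_ncard (fun T hT => ?_)
      ((Set.finite_le_nat M).subset fun T hT => hT.2.1))) hx
    obtain ⟨h1, h2, h3, h4, h5, h6⟩ := hT
    refine ⟨h1, h2, lt_of_le_of_lt (Nat.cast_le.2 (Set.ncard_le_ncard (fun p hp => ?_)
      ((Set.finite_le_nat x).subset fun p hp => hp.1))) h6⟩
    exact ⟨hp.1, hp.2 ⟨h3, h4, h5⟩⟩
  by_cases hc : Irreducible (Φ.f.map (Polynomial.evalRingHom (T : ℤ))) ∧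
    (∃ w ∈ k T, Polynomial.aeval w (Φ.f.map (Polynomial.evalRingHom (T : ℤ))) = 0) ∧
    Units.rank (k T) ≤ m
  swap
  · exact ⟨0, fun p _ _ _ h => (hc h).elim⟩
  obtain ⟨h1, ⟨w, h2, h3⟩, h4⟩ := hc
  obtain ⟨B, hB⟩ := hONH m _ (T + s) Ψ d' (k T) w (a (T + s)) hok' hd' (by
    rw [hsp]
    simpa using irr T h1) h4 h2 (by
    rw [ev, hsp]
    push_cast
    rw [add_sub_cancel_right, ← Int.cast_natCast, sp_int, Polynomial.eval_map]
    exact h3) (ha _)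
  exact ⟨B, fun p hp h5 h6 _ => hG T p ⟨hp⟩ (@hB p ⟨hp⟩ h5 h6)⟩

end Pool.Agent.MP_3e91a1_nt.DS

end
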