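import Pool.Agent.Mg.F3e91a1.Gc1075a
import Pool.Agent.Mg.F3e91a1.Gf1088e
import Pool.Agent.Mg.F3e91a1.G24f70d
import Pool.Agent.MP_14ad9d_nt.Full.R1
import Pool.Agent.MP_14ad9d_nt.Full.WC
import Pool.Agent.Mg.F3e91a1.G3b763c
import Pool.Agent.Mg.F3e91a1.G6cb807
import Pool.Agent.Mg.F3e91a1.G909dc8

set_option linter.all false

section

/-! Inertia at a large prime fixes a given number field. -/

set_option autoImplicit false

open NumberField Module Finset

namespace Pool.Agent.MP_3e91a1_nt.TR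

open MP_e23604_nt MP_e23604_nt.B

theorem le_DEC (y : Qb) : ∃ B : ℕ, ∀ (p : ℕ) (v : AbsoluteValue Qb ℝ), p.Prime → B < p →
    IsNonarchimedean v → v p < 1 → v y ≤ 1 := by
  have a : IsAlgebraic ℤ y :=
    (IsFractionRing.isAlgebraic_iff ℤ ℚ Qb).2 (Algebra.IsAlgebraic.isAlgebraic y)
  obtain ⟨n, hn, hi⟩ := a.exists_integral_multiple
  refine ⟨n.natAbs, fun p v hp hB hv h => ?_⟩
  have h1 := v_int hv hi
  have h2 := v_coprime hv hp h (n := n) fun c =>
    absurd (Nat.le_of_dvd (Int.natAbs_pos.2 hn) (Int.natCast_dvd.1 c)) (by omega)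
  rwa [zsmul_eq_mul, map_mul, h2, one_mul] at h1

theorem fix_DEC (x : Qb) : ∃ B : ℕ, ∀ (p : ℕ) (v : AbsoluteValue Qb ℝ) (τ : GQ), p.Prime → B < p →
    IsNonarchimedean v → v p < 1 → Inr v τ → τ x = x := by
  classical
  choose b hb using le_DEC
  refine ⟨b x + ∑ w ∈ ((minpoly ℚ x).aroots Qb).toFinset, b (w - x)⁻¹,
    fun p v τ hp hB hv h hτ => ?_⟩
  by_contra c
  have i : IsIntegral ℚ x := Algebra.IsIntegral.isIntegral x
  have m : τ x ∈ ((minpoly ℚ x).aroots Qb).toFinset := by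
    rw [Multiset.mem_toFinset, Polynomial.mem_aroots, Polynomial.aeval_algHom_apply,
      minpoly.aeval, map_zero]
    exact ⟨minpoly.ne_zero i, rfl⟩
  have l := single_le_sum (f := fun w => b (w - x)⁻¹) (fun _ _ => Nat.zero_le _) m
  have h1 := hτ x (hb x p v hp (by omega) hv h)
  have h2 := hb (τ x - x)⁻¹ p v hp (by omega) hv h
  have h3 := mul_lt_one_of_nonneg_of_lt_one_left (v.nonneg _) h1 h2
  rw [← map_mul, mul_inv_cancel₀ (sub_ne_zero.2 c), map_one] at h3
  exact h3.false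

theorem DEC_pf : DEC_st := by
  intro K _
  choose b hb using fix_DEC
  let e := Module.finBasis ℚ K
  refine ⟨∑ i, b (e i), fun p v τ hp hB hv h hτ => ?_⟩
  rw [IntermediateField.mem_fixingSubgroup_iff]
  intro x hx
  have h1 : ∀ i, τ (e i) = e i := fun i => hb _ p v τ hp
    ((single_le_sum (f := fun i => b (e i)) (fun _ _ => Nat.zero_le _) (mem_univ i)).trans_lt hB)
    hv h hτ
  have h2 : x = ∑ i, e.repr ⟨x, hx⟩ i • (e i : Qb) := by
    have := congrArg K.val (e.sum_repr ⟨x, hx⟩)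
    rw [map_sum] at this
    simpa using this.symm
  rw [h2, map_sum]
  exact sum_congr rfl fun i _ => by rw [map_rat_smul, h1]

end Pool.Agent.MP_3e91a1_nt.TR

end

section

/-! `k` characters of a monoid that factor through a small group and kill `m` independent
elements are dependent. -/

set_option autoImplicit false

open Finset

namespace Pool.Agent.MP_3e91a1_nt.GN

open TR CC

theorem prod_LNG {Y V ι : Type} [CommMonoid Y] [AddCommGroup V] (f : Y → V)
    (hf : ∀ x y, f (x * y) = f x + f y) (s : Finset ι) (g : ι → Y) :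
    f (∏ i ∈ s, g i) = ∑ i ∈ s, f (g i) := by
  have h1 : f 1 = 0 := by
    have := hf 1 1
    rw [one_mul] at this
    exact left_eq_add.1 this
  exact map_prod (G := Y →* Multiplicative V)
    ⟨⟨fun y => Multiplicative.ofAdd (f y), h1⟩, hf⟩ g s

theorem LNG_pf : LNG_st := by
  intro p k m hp Y V _ _ _ lg φ u hV hpV hl hφ h0 hu hφu
  have p1 : p = p - 1 + 1 := (Nat.sub_add_cancel hp.out.one_le).symm
  have key : ∀ x x', lg x = lg x' → φ x = φ x' := by
    intro x x' e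
    have a1 : lg (x * x' ^ (p - 1)) = 0 := by
      rw [hl, pow_LIN lg hl, e, add_comm, ← succ_nsmul, ← p1, hpV]
    have a2 := h0 _ a1
    rw [hφ, pow_LIN φ hφ] at a2
    have a3 : φ x' + (p - 1) • φ x' = 0 := by
      rw [add_comm, ← succ_nsmul, ← p1]
      ext i
      simp
    exact add_right_cancel (a2.trans a3.symm)
  let W : Submodule (ZMod p) (Fin k → ZMod p) :=
    { carrier := Set.range φ
      add_mem' := by
        rintro _ _ ⟨x, rfl⟩ ⟨y, rfl⟩
        exact ⟨x * y, hφ x y⟩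
      zero_mem' := ⟨_, prod_LNG φ hφ (∅ : Finset ℕ) fun _ => 1⟩
      smul_mem' := by
        rintro c _ ⟨x, rfl⟩
        refine ⟨x ^ c.val, ?_⟩
        rw [pow_LIN φ hφ, ← Nat.cast_smul_eq_nsmul (ZMod p), ZMod.natCast_zmod_val] }
  by_cases hW : W = ⊤
  · exfalso
    have : ∀ a : Fin k → ZMod p, ∃ y, φ y = a := fun a => (hW ▸ Submodule.mem_top : a ∈ W)
    choose y hy using this
    let _ : Module (ZMod p) V := AddCommGroup.zmodModule hpV
    have inj : Function.Injective fun z : (Fin k → ZMod p) × (Fin m → ZMod p) =>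
        lg (y z.1 * ∏ i, u i ^ (z.2 i).val) := by
      rintro ⟨a, b⟩ ⟨a', b'⟩ e
      have e1 := key _ _ e
      simp only [hφ, prod_LNG φ hφ, pow_LIN φ hφ, hφu, smul_zero, sum_const_zero, add_zero,
        hy] at e1
      subst e1
      simp only [hl, prod_LNG lg hl, pow_LIN lg hl, add_right_inj,
        ← Nat.cast_smul_eq_nsmul (ZMod p), ZMod.natCast_zmod_val] at e
      have e2 := hu (fun i => (b i - b' i).val) (by
        simp only [← Nat.cast_smul_eq_nsmul (ZMod p), ZMod.natCast_zmod_val, sub_smul,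
          sum_sub_distrib, e, sub_self])
      refine congrArg (Prod.mk a) (funext fun i => sub_eq_zero.1 ?_)
      rw [← ZMod.natCast_zmod_val (b i - b' i)]
      exact (ZMod.natCast_eq_zero_iff _ _).2 (e2 i)
    have c1 := Nat.card_le_card_of_injective _ inj
    rw [Nat.card_prod, Nat.card_fun, Nat.card_fun, Nat.card_zmod, Nat.card_eq_fintype_card,
      Fintype.card_fin, Nat.card_eq_fintype_card, Fintype.card_fin, ← pow_add] at c1
    exact absurd hV (not_lt.2 c1)
  · obtain ⟨f, hf, hker⟩ := Submodule.exists_le_ker_of_lt_top W (lt_top_iff_ne_top.2 hW)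
    have ef : ∀ a : Fin k → ZMod p, f a = ∑ i, f (Pi.single i 1) * a i := by
      intro a
      conv_lhs => rw [← Finset.univ_sum_single a]
      rw [map_sum]
      refine sum_congr rfl fun i _ => ?_
      rw [mul_comm, ← smul_eq_mul, ← map_smul, ← Pi.single_smul, smul_eq_mul, mul_one]
    refine ⟨fun i => f (Pi.single i 1), fun hc => hf (LinearMap.ext fun a => ?_), fun x => ?_⟩
    · rw [ef]
      exact sum_eq_zero fun i _ => by rw [show f (Pi.single i 1) = 0 from congrFun hc i, zero_mul]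
    · rw [← ef]
      exact hker (⟨x, rfl⟩ : φ x ∈ W)

end Pool.Agent.MP_3e91a1_nt.GN

end

section

/-! The result for one prime, in every degree. -/

set_option autoImplicit false

open NumberField IsDedekindDomain Module Finset

namespace Pool.Agent.MP_3e91a1_nt.GN

open TR CC MP_e23604_nt MP_e23604_nt.B MP_e23604_nt.R MP_f3cd89_nt

theorem int_ONG {m : ℕ} (T : ℕ) (r : Fin m → ℤ) (k : IntermediateField ℚ Qb) (w : Qb) (hk : w ∈ k)
    (hw : (∏ i, (w - r i)) * (w + T) = 1) : ∃ u : 𝓞 k, (∏ i, (u - r i)) * (u + T) = 1 := by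
  have e : (∏ i, ((⟨w, hk⟩ : k) - r i)) * (⟨w, hk⟩ + T) = 1 := Subtype.ext (by simpa using hw)
  have hi : IsIntegral ℤ (⟨w, hk⟩ : k) := by
    have hm : ((∏ i, (Polynomial.X - Polynomial.C (r i))) *
        (Polynomial.X + Polynomial.C (T : ℤ))).Monic :=
      (Polynomial.monic_prod_of_monic _ _ fun i _ => Polynomial.monic_X_sub_C _).mul
        (Polynomial.monic_X_add_C _)
    refine ⟨(∏ i, (Polynomial.X - Polynomial.C (r i))) *
      (Polynomial.X + Polynomial.C (T : ℤ)) - 1, hm.sub_of_left ?_, ?_⟩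
    · rw [Polynomial.degree_one, Polynomial.degree_mul, Polynomial.degree_X_add_C,
        Polynomial.degree_eq_natDegree
          (Polynomial.monic_prod_of_monic _ _ fun i _ => Polynomial.monic_X_sub_C _).ne_zero]
      exact_mod_cast Nat.succ_pos _
    · rw [← Polynomial.aeval_def]
      simp only [map_sub, map_mul, map_add, map_prod, Polynomial.aeval_X, map_one, map_natCast,
        eq_intCast, map_intCast]
      rw [e, sub_self]
  refine ⟨⟨_, hi⟩, RingOfIntegers.ext ?_⟩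
  simpa using e

theorem cop_ONG {R : Type} [CommRing R] (u : Rˣ) (y : R) : IsCoprime (u : R) y :=
  ⟨↑u⁻¹, 0, by simp⟩

theorem ONG_pf (hURM : URM_st) (hBDG : BDG_st) (hLEG : LEG_st) (hGDG : GDG_st) (hGOOD : GOOD_st)
    (hTOP : TOP_st) (hDEV : DEV_st) (hMEM : MEM_st) : ONG_st := by
  intro m T s d k _ w a hs hD hT hk hwk hw ha
  obtain ⟨u, hu⟩ := int_ONG T s k w hwk hw
  let v : Fin m → (𝓞 k)ˣ := fun i =>
    Units.mkOfMulEqOne (u - s i) ((∏ j ∈ univ.erase i, (u - s j)) * (u + T)) (by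
      rw [← mul_assoc, Finset.mul_prod_erase univ (fun j => u - (s j : 𝓞 k)) (mem_univ i), hu])
  obtain ⟨B₁, h₁⟩ := hBDG m T s d k u a hs hD hT hu ha
  obtain ⟨B₂, h₂⟩ := hLEG k
  obtain ⟨B₃, h₃⟩ := hGDG k
  refine ⟨B₁ + B₂ + B₃ + (discr k).natAbs + 5, fun p hp hp5 hb => ?_⟩
  have hd : ¬ (p : ℤ) ∣ discr k := fun h => by
    have := Nat.le_of_dvd (Int.natAbs_pos.2 (discr_ne_zero k)) (Int.natCast_dvd.1 h)
    omega
  obtain ⟨-, E, hE, hE'⟩ := hURM p k hp.out hd
  have hI : Indg p E fun i => (v i : 𝓞 k) := by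
    by_contra h
    exact hb (h₁ p E hp.out (by omega) hE (fun i => hE' _ (cop_ONG (v i) _)) h)
  refine ⟨h₂ p E m v hk hp.out (by omega) hE hE' hI,
    fun K hP S κ F n ρ hS hpS hκ hsur hfin hρ hres => ?_⟩
  have : NeZero p := ⟨hp.out.ne_zero⟩
  obtain ⟨ζ, hζ⟩ := HasEnoughRootsOfUnity.exists_primitiveRoot Qb p
  obtain ⟨r', hr⟩ := HasEnoughRootsOfUnity.exists_primitiveRoot (ZMod p) (p - 1)
  obtain ⟨r, rfl⟩ := ZMod.natCast_zmod_surjective r'
  have r0 : (r : ZMod p) ≠ 0 := hr.ne_zero (by omega)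
  have r1 : (r : ZMod p) ≠ 1 := hr.ne_one (by omega)
  have := (hGOOD p ζ r 0 _ K hP).1
  have G0 : Good p ζ r r K.fixingSubgroup :=
    (hGOOD p ζ r _ _ K hP).2 (by omega) hζ hr r0 r1
      (h₃ p r E m ζ v hk (by omega) hE hE' hI hζ hr)
  obtain ⟨ω, hω, hH⟩ := hTOP p K S κ (by omega) hS hpS hκ hsur hfin
  choose e he hψ using hres.2
  have := (hMEM K S).1
  have : CompactSpace κ.ker :=
    isCompact_iff_compactSpace.1 (isClosed_singleton.preimage hκ : IsClosed (κ ⁻¹' {1})).isCompact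
  refine hDEV p κ.ker F n (ρ.comp κ.ker.subtype) (fun i g => ω g ^ e i)
    (hρ.comp continuous_subtype_val) (fun g => hres.1 g)
    (fun g i => norm_WONE _ _ _ (hψ i g _ (hω g))) fun i => ?_
  exact hH ζ r _ _ hζ hr (by rw [Set.mem_singleton_iff.1 (he i), pow_zero, mul_one]) r1 G0

end Pool.Agent.MP_3e91a1_nt.GN

end

section

set_option autoImplicit false

open NumberField IsDedekindDomain Module Finset

namespace Pool.Agent.MP_3e91a1_nt.CC

open MP_14ad9d_nt.Full

section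

variable {p : ℕ} [Fact p.Prime] {K M : Type} [Field K] [NumberField K] [Field M] [NumberField M]
  [Algebra K M] {ζ : M}

theorem root_THR (hζ : IsPrimitiveRoot ζ p) {a : ℕ} (ha : IsPrimitiveRoot (ζ ^ a) p) {v : Pr M}
    (hv : Tm p v) {x y : M} (hx : x ≠ 0) (hy : y ≠ 0) :
    a * tame p (ζ ^ a) v x y = tame p ζ v x y := by
  symm
  rw [tame, tame, chi_spec hζ hv (Sym2Aux.unit_ne v hx hy) (Sym2Aux.unit_ord v hx hy)]
  have h := (chi_spec ha hv (Sym2Aux.unit_ne v hx hy) (Sym2Aux.unit_ord v hx hy) _).1 rfl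
  generalize chi p (ζ ^ a) v (x ^ ord v y / y ^ ord v x) = j at h ⊢
  have e : ζ ^ ((a : ZMod p) * j).val = (ζ ^ a) ^ j.val := by
    rw [← pow_mul, ZMod.val_mul, ← pow_eq_pow_mod _ hζ.pow_eq_one, ZMod.val_natCast, pow_mul,
      ← pow_eq_pow_mod _ hζ.pow_eq_one, pow_mul]
  rwa [e]

omit [NumberField K] in
theorem gal_THR (hp : 2 < p) (hζ : IsPrimitiveRoot ζ p) {ω : (M ≃ₐ[K] M) → ℕ}
    (hω : ∀ g : M ≃ₐ[K] M, g ζ = ζ ^ ω g) {x : M} (hx : Eig p ω x) {y : K} (hy : y ≠ 0)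
    (g : M ≃ₐ[K] M) {w : Pr M} (hw : Tm p w) :
    tame p ζ (act (g : M ≃+* M) w) x (algebraMap K M y) = tame p ζ w x (algebraMap K M y) := by
  have h := tame_act (l := p) (ζ := ζ) (g : M ≃+* M) w x (algebraMap K M y)
  obtain ⟨z, hz⟩ := hx.2 g
  have y0 : algebraMap K M y ≠ 0 := by simpa using hy
  have z0 : z ≠ 0 := by
    rintro rfl
    rw [zero_pow (by omega), mul_zero] at hz
    exact hx.1 (by simpa using hz)
  have ha : IsPrimitiveRoot (ζ ^ ω g) p := hω g ▸ hζ.map_of_injective g.injective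
  have hw' := (tm_act (g : M ≃+* M) p w).2 hw
  have e1 : (g : M ≃+* M) ζ = ζ ^ ω g := hω g
  have e2 : (g : M ≃+* M) x = x ^ ω g * z ^ p := hz
  have e3 : (g : M ≃+* M) (algebraMap K M y) = algebraMap K M y := g.commutes y
  rw [e1, e2, e3, tame_mul_left hp ha hw' (pow_ne_zero _ hx.1) (pow_ne_zero _ z0) y0,
    ← zpow_natCast x, ← zpow_natCast z, tame_zpow_left hp ha hw' hx.1 y0,
    tame_zpow_left hp ha hw' z0 y0, Int.cast_natCast, Int.cast_natCast, ZMod.natCast_self,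
    zero_mul, add_zero, root_THR hζ ha hw' hx.1 y0] at h
  exact h

theorem gen_THR (v : Pr K) : ∃ y : 𝓞 K, y ≠ 0 ∧ Ideal.span {y} = v.asIdeal ^ classNumber K := by
  have h0 : v.asIdeal ^ classNumber K ∈ nonZeroDivisors (Ideal (𝓞 K)) :=
    mem_nonZeroDivisors_of_ne_zero (pow_ne_zero _ v.ne_bot)
  have h1 : ClassGroup.mk0 ⟨_, h0⟩ = 1 := by
    have : (⟨_, h0⟩ : nonZeroDivisors (Ideal (𝓞 K))) =
      ⟨v.asIdeal, mem_nonZeroDivisors_of_ne_zero v.ne_bot⟩ ^ classNumber K := rfl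
    rw [this, map_pow]
    exact pow_card_eq_one
  obtain ⟨y, hy⟩ := (ClassGroup.mk0_eq_one_iff h0).1 h1
  refine ⟨y, fun c => pow_ne_zero (classNumber K) v.ne_bot ?_, hy.symm⟩
  rw [hy, c]
  simp

theorem det_THR [IsGalois K M] (hp : 2 < p) (hζ : IsPrimitiveRoot ζ p) {ω : (M ≃ₐ[K] M) → ℕ}
    (hω : ∀ g : M ≃ₐ[K] M, g ζ = ζ ^ ω g) (hd : ¬ p ∣ finrank K M) (hh : ¬ p ∣ classNumber K)
    {x : M} (hx : Eig p ω x) (ho : ∀ v : Pr M, Tm p v → (p : ℤ) ∣ ord v x)
    (h : ∀ y : 𝓞 K, IsCoprime y p → Phi p ζ x (algebraMap K M y) = 0) : ∃ z, x = z ^ p := by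
  classical
  by_contra hn
  push Not at hn
  obtain ⟨w, -, hw, h0, h1⟩ := (wc1 hp hζ hn).nonempty
  obtain ⟨v, hv⟩ := exists_under (E := K) w
  have tv := (tm_over hv).1 hw
  obtain ⟨y, y0, hy⟩ := gen_THR v
  have y1 : (y : K) ≠ 0 := by simpa using y0
  have y2 : algebraMap K M y ≠ 0 := by simpa using y0
  have cop : IsCoprime y p := by
    rw [← Ideal.isCoprime_span_singleton_iff, hy]
    refine IsCoprime.pow_left (Ideal.isCoprime_iff_sup_eq.2 ?_)
    exact v.isMaximal.out.2 _ (left_lt_sup.2 fun c => tv (c (Ideal.mem_span_singleton_self _)))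
  have o1 : ord v (y : K) = classNumber K := by
    rw [Sym2Aux.ord_int v y0, hy, multiplicity_pow_self_of_prime v.prime]
  have o2 : ∀ v' : Pr K, v' ≠ v → ord v' (y : K) = 0 := fun v' hv' => by
    rw [Sym2Aux.ord_int v' y0, hy, Int.natCast_eq_zero, multiplicity_eq_zero]
    intro c
    exact hv' (HeightOneSpectrum.ext (v'.isMaximal.eq_of_le v.isPrime.ne_top (by
      have := v'.prime.dvd_of_dvd_pow c
      exact (v.isMaximal.eq_of_le v'.isPrime.ne_top (Ideal.le_of_dvd this)).ge)))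
  have fin : {w' : TP p M | w'.1.asIdeal.LiesOver v.asIdeal}.Finite :=
    (Sym2Aux.finite_over v).preimage Subtype.val_injective.injOn
  have := v.isPrime
  have := w.isPrime
  have e1 : Phi p ζ x (algebraMap K M y) =
      ∑ _w' ∈ fin.toFinset, tame p ζ w x (algebraMap K M y) := by
    rw [Phi, finsum_eq_sum_of_support_subset (s := fin.toFinset)]
    · refine sum_congr rfl fun w' hw' => ?_
      have h2 : w'.1.asIdeal.LiesOver v.asIdeal := fin.mem_toFinset.1 hw'
      have := w'.1.isPrime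
      obtain ⟨g, hg⟩ := Ideal.exists_smul_eq_of_isGaloisGroup v.asIdeal w.asIdeal w'.1.asIdeal
        (M ≃ₐ[K] M)
      have e : w'.1 = act (g : M ≃+* M) w :=
        HeightOneSpectrum.ext (hg.symm.trans (MP_f3cd89_nt.gact_asIdeal g w).symm)
      rw [e]
      exact gal_THR hp hζ hω hx y1 g hw
    · intro w' hw'
      rw [Finset.mem_coe, Set.Finite.mem_toFinset]
      by_contra c
      obtain ⟨v', hv'⟩ := exists_under (E := K) w'.1
      refine hw' (tame_unr hp hζ w'.2 hx.1 y2 (ho _ w'.2) ?_)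
      rw [ord_over hv', o2 v' (by rintro rfl; exact c hv'), mul_zero]
      exact dvd_zero _
  have e2 : fin.toFinset.card = (v.asIdeal.primesOver (𝓞 M)).ncard := by
    rw [← Set.ncard_eq_toFinset_card _ fin]
    refine Set.ncard_congr (fun w' _ => w'.1.asIdeal) (fun w' hw' => ⟨w'.1.isPrime, hw'⟩)
      (fun a b _ _ e => Subtype.ext (HeightOneSpectrum.ext e)) fun P hP => ?_
    have := hP.2
    exact ⟨⟨⟨P, hP.1, Ideal.ne_bot_of_liesOver_of_ne_bot v.ne_bot P⟩,
      (tm_over (v := v) hP.2).2 tv⟩, hP.2, rfl⟩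
  have e3 := Ideal.ncard_primesOver_mul_ramificationIdxIn_mul_inertiaDegIn v.asIdeal (𝓞 M)
    (M ≃ₐ[K] M)
  rw [Ideal.ramificationIdxIn_eq_ramificationIdx v.asIdeal w.asIdeal (M ≃ₐ[K] M),
    IsGaloisGroup.card_eq_finrank (M ≃ₐ[K] M) K M, ← e2, ← mul_assoc] at e3
  have e4 := h y cop
  rw [e1, sum_const, tame_unit hp hζ hw hx.1 h0, ord_over hv, o1, nsmul_eq_mul, ← mul_assoc] at e4
  have e5 := (mul_eq_zero.1 e4).resolve_right h1
  have e6 : p ∣ fin.toFinset.card * w.asIdeal.ramificationIdx (𝓞 K) * classNumber K := by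
    rw [← ZMod.natCast_eq_zero_iff, ← e5]
    push_cast
    ring
  exact ((Nat.Prime.dvd_mul Fact.out).1 e6).elim (fun c => hd (e3 ▸ c.mul_right _)) hh

end

theorem THR_pf (hLIN : LIN_st) : THR_st := by
  intro p E K M _ _ _ _ _ _ _ ζ ω u hp h2 hζ hω hd h3 hh hE hy hu x hx
  have := Fact.mk hp
  have p0 : (p : 𝓞 K) ≠ 0 := by exact_mod_cast hp.ne_zero
  let Y : Submonoid (𝓞 K) :=
    { carrier := {y | IsCoprime y p}
      one_mem' := isCoprime_one_left
      mul_mem' := fun h h' => IsCoprime.mul_left h h' }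
  have y0 : ∀ y : Y, algebraMap K M (y : 𝓞 K) ≠ 0 := fun y c => by
    have h : (y : 𝓞 K) = 0 := by simpa using c
    have h1 : IsCoprime (y : 𝓞 K) p := y.2
    rw [h, isCoprime_zero_left] at h1
    have h4 := Ideal.absNorm_span_natCast (S := 𝓞 K) p
    rw [Ideal.span_singleton_eq_top.2 h1, Ideal.absNorm_top, RingOfIntegers.rank, h3] at h4
    exact absurd h4 (Nat.one_lt_pow (by omega) hp.one_lt).ne
  have hu1 : (u : 𝓞 K) ∈ Y := ⟨(u⁻¹ : (𝓞 K)ˣ), 0, by simp⟩
  choose a ha using fun y : Y => hy y y.2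
  have fin : Finite (𝓞 K ⧸ Ideal.span {(p : 𝓞 K)}) :=
    Ideal.finiteQuotientOfFreeOfNeBot _ (by simpa using hp.ne_zero)
  obtain ⟨c, c0, hc⟩ := hLIN p Y (𝓞 K ⧸ Ideal.span {(p : 𝓞 K)})
    (fun y => Ideal.Quotient.mk _ (a y)) (fun y i => Phi p ζ (x i) (algebraMap K M (y : 𝓞 K)))
    ⟨u, hu1⟩
    (by rw [← Submodule.cardQuot_apply, ← Ideal.absNorm_apply, Ideal.absNorm_span_natCast,
      RingOfIntegers.rank, h3])
    (fun v => by
      rw [nsmul_eq_mul, ← map_natCast (Ideal.Quotient.mk _),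
        Ideal.Quotient.eq_zero_iff_mem.2 (Ideal.mem_span_singleton_self _), zero_mul])
    (fun y y' => by
      rw [← map_add, Ideal.Quotient.eq, Ideal.mem_span_singleton]
      refine ⟨a y * a y', mul_left_cancel₀ p0 ?_⟩
      have e := ha (y * y')
      rw [Submonoid.coe_mul, mul_pow] at e
      linear_combination -e + (y' : 𝓞 K) ^ E * ha y + (1 + p * a y) * ha y')
    (fun y y' => funext fun i => by
      simp only [Submonoid.coe_mul, map_mul, Pi.add_apply]
      exact Phi_mul_right h2 hζ (hx i).1.1 (y0 y) (y0 y'))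
    (fun y h => funext fun i => by
      obtain ⟨b, hb⟩ := Ideal.mem_span_singleton.1 (Ideal.Quotient.eq_zero_iff_mem.1 h)
      have e := r1 h2 hd hζ (hx i).1.1 (pow_ne_zero E (y0 y)) ⟨1, one_ne_zero, fun v hv => by
        have e1 : algebraMap K M (y : 𝓞 K) ^ E / 1 ^ p - 1 =
            (p : M) ^ 2 * (algebraMap (𝓞 K) (𝓞 M) b : 𝓞 M) := by
          have e2 := congrArg (algebraMap (𝓞 K) M) (ha y)
          rw [hb] at e2
          simp only [map_sub, map_pow, map_one, map_mul, map_natCast] at e2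
          rw [one_pow, div_one]
          exact e2.trans (by rw [← mul_assoc, ← sq]; rfl)
        rw [e1, map_mul, map_pow, val_ell hζ, ← pow_mul]
        refine (mul_le_of_le_one_right' (v.valuation_le_one _)).trans ?_
        exact pow_le_pow_right_of_le_one' (val_one_sub_lt hζ hv).le (by omega)⟩
      rw [Phi_swap h2 hζ (pow_ne_zero E (y0 y)) (hx i).1.1, ← zpow_natCast,
        Phi_zpow_left h2 hζ (y0 y) (hx i).1.1, Phi_swap h2 hζ (hx i).1.1 (y0 y), mul_neg, neg_neg,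
        Int.cast_natCast] at e
      exact (mul_eq_zero.1 e).resolve_left fun c => hE ((ZMod.natCast_eq_zero_iff _ _).1 c))
    (fun h => by
      obtain ⟨b, hb⟩ := Ideal.mem_span_singleton.1 (Ideal.Quotient.eq_zero_iff_mem.1 h)
      exact hu ⟨b, (ha ⟨u, hu1⟩).trans (by rw [hb, ← mul_assoc, sq])⟩)
    (funext fun i => by
      refine finsum_eq_zero_of_forall_eq_zero fun v => tame_unr h2 hζ v.2 (hx i).1.1
        (y0 ⟨u, hu1⟩) ((hx i).2 v.1 v.2) ?_
      obtain ⟨v', hv'⟩ := exists_under (E := K) v.1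
      rw [ord_over hv']
      refine Dvd.dvd.mul_left ?_ _
      have : ord v' ((u : 𝓞 K) : K) = 0 := (MP_f3cd89_nt.ord_eq_zero_iff v' u.ne_zero).2 fun c =>
        v'.isPrime.ne_top (Ideal.eq_top_of_isUnit_mem _ c u.isUnit)
      exact this ▸ dvd_zero _)
  have x0 : ∀ i, x i ^ (c i).val ≠ 0 := fun i => pow_ne_zero _ (hx i).1.1
  obtain ⟨z, hz⟩ := det_THR h2 hζ hω (x := ∏ i, x i ^ (c i).val)
    (fun h => hd (finrank_mul_finrank ℚ K M ▸ h.mul_left _)) hh
    ⟨prod_ne_zero_iff.2 fun i _ => x0 i, fun g => by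
      choose z hz using fun i => (hx i).1.2 g
      refine ⟨∏ i, z i ^ (c i).val, ?_⟩
      simp only [map_prod, map_pow, hz, ← prod_pow, ← prod_mul_distrib]
      exact prod_congr rfl fun i _ => by ring⟩
    (fun v hv => by
      rw [Fin.prod_univ_three, ord_mul v (mul_ne_zero (x0 0) (x0 1)) (x0 2),
        ord_mul v (x0 0) (x0 1), ord_pow, ord_pow, ord_pow]
      exact ((((hx 0).2 v hv).mul_left _).add (((hx 1).2 v hv).mul_left _)).add
        (((hx 2).2 v hv).mul_left _))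
    fun y hy => by
      have e := hc ⟨y, hy⟩
      have k : ∀ i, Phi p ζ (x i ^ (c i).val) (algebraMap K M y) =
          c i * Phi p ζ (x i) (algebraMap K M y) := fun i => by
        rw [← zpow_natCast, Phi_zpow_left h2 hζ (hx i).1.1 (y0 ⟨y, hy⟩), Int.cast_natCast,
          ZMod.natCast_zmod_val]
      rw [Fin.prod_univ_three, Phi_mul_left h2 hζ (mul_ne_zero (x0 0) (x0 1)) (x0 2) (y0 ⟨y, hy⟩),
        Phi_mul_left h2 hζ (x0 0) (x0 1) (y0 ⟨y, hy⟩), k, k, k]
      rwa [Fin.sum_univ_three] at e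
  obtain ⟨i, hi⟩ := Function.ne_iff.1 c0
  exact ⟨fun i => (c i).val, z, ⟨i, fun h => hi (by
    rw [← ZMod.natCast_zmod_val (c i)]
    exact (ZMod.natCast_eq_zero_iff _ _).2 h)⟩, hz⟩

end Pool.Agent.MP_3e91a1_nt.CC

end

section

/-! The bound for the eigenspace. -/

set_option autoImplicit false

open NumberField IsDedekindDomain Module Finset

namespace Pool.Agent.MP_3e91a1_nt.TR

open CC MP_14ad9d_nt.Full

theorem ord_prod_THK {E ι : Type} [Field E] [NumberField E] (v : Pr E) (s : Finset ι) (f : ι → E)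
    (hf : ∀ i, f i ≠ 0) : ord v (∏ i ∈ s, f i) = ∑ i ∈ s, ord v (f i) := by
  classical
  induction s using Finset.induction_on with
  | empty => simp [ord_one]
  | insert a s ha ih =>
    rw [Finset.prod_insert ha, Finset.sum_insert ha,
      ord_mul v (hf a) (Finset.prod_ne_zero_iff.2 fun i _ => hf i), ih]

theorem Phi_prod_THK {p : ℕ} [Fact p.Prime] {M ι : Type} [Field M] [NumberField M] {ζ : M}
    (hp : 2 < p) (hζ : IsPrimitiveRoot ζ p) (s : Finset ι) (f : ι → M) (hf : ∀ i, f i ≠ 0)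
    {y : M} (hy : y ≠ 0) : Phi p ζ (∏ i ∈ s, f i) y = ∑ i ∈ s, Phi p ζ (f i) y := by
  classical
  induction s using Finset.induction_on with
  | empty =>
    have h := Phi_mul_left hp hζ (one_ne_zero (α := M)) one_ne_zero hy
    rw [mul_one] at h
    rw [Finset.prod_empty, Finset.sum_empty]
    exact left_eq_add.1 h
  | insert a s ha ih =>
    rw [Finset.prod_insert ha, Finset.sum_insert ha,
      Phi_mul_left hp hζ (hf a) (Finset.prod_ne_zero_iff.2 fun i _ => hf i) hy, ih]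

theorem THK_pf (hLNK : LNK_st) : THK_st := by
  intro p E k K M _ _ _ _ _ _ _ ζ ω u u' hp h2 hζ hω hd h3 hh hE hy hu x hx
  have := Fact.mk hp
  have p0 : (p : 𝓞 K) ≠ 0 := by exact_mod_cast hp.ne_zero
  let Y : Submonoid (𝓞 K) :=
    { carrier := {y | IsCoprime y p}
      one_mem' := isCoprime_one_left
      mul_mem' := fun h h' => IsCoprime.mul_left h h' }
  have y0 : ∀ y : Y, algebraMap K M (y : 𝓞 K) ≠ 0 := fun y c => by
    have h : (y : 𝓞 K) = 0 := by simpa using c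
    have h1 : IsCoprime (y : 𝓞 K) p := y.2
    rw [h, isCoprime_zero_left] at h1
    have h4 := Ideal.absNorm_span_natCast (S := 𝓞 K) p
    rw [Ideal.span_singleton_eq_top.2 h1, Ideal.absNorm_top, RingOfIntegers.rank] at h4
    exact absurd h4 (Nat.one_lt_pow finrank_pos.ne' hp.one_lt).ne
  have hu1 : ∀ u : (𝓞 K)ˣ, (u : 𝓞 K) ∈ Y := fun u => ⟨(u⁻¹ : (𝓞 K)ˣ), 0, by simp⟩
  choose a ha using fun y : Y => hy y y.2
  have fin : Finite (𝓞 K ⧸ Ideal.span {(p : 𝓞 K)}) :=
    Ideal.finiteQuotientOfFreeOfNeBot _ (by simpa using hp.ne_zero)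
  have hl : ∀ y y' : Y, Ideal.Quotient.mk (Ideal.span {(p : 𝓞 K)}) (a (y * y')) =
      Ideal.Quotient.mk _ (a y) + Ideal.Quotient.mk _ (a y') := fun y y' => by
    rw [← map_add, Ideal.Quotient.eq, Ideal.mem_span_singleton]
    refine ⟨a y * a y', mul_left_cancel₀ p0 ?_⟩
    have e := ha (y * y')
    rw [Submonoid.coe_mul, mul_pow] at e
    linear_combination -e + (y' : 𝓞 K) ^ E * ha y + (1 + p * a y) * ha y'
  have hφ : ∀ u : (𝓞 K)ˣ, (fun i => Phi p ζ (x i) (algebraMap K M (u : 𝓞 K))) = 0 := fun u =>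
    funext fun i => by
      refine finsum_eq_zero_of_forall_eq_zero fun v => tame_unr h2 hζ v.2 (hx i).1.1
        (y0 ⟨u, hu1 u⟩) ((hx i).2 v.1 v.2) ?_
      obtain ⟨v', hv'⟩ := exists_under (E := K) v.1
      rw [ord_over hv']
      refine Dvd.dvd.mul_left ?_ _
      have : ord v' ((u : 𝓞 K) : K) = 0 := (MP_f3cd89_nt.ord_eq_zero_iff v' u.ne_zero).2 fun c =>
        v'.isPrime.ne_top (Ideal.eq_top_of_isUnit_mem _ c u.isUnit)
      exact this ▸ dvd_zero _
  obtain ⟨c, c0, hc⟩ := hLNK p k Y (𝓞 K ⧸ Ideal.span {(p : 𝓞 K)})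
    (fun y => Ideal.Quotient.mk _ (a y)) (fun y i => Phi p ζ (x i) (algebraMap K M (y : 𝓞 K)))
    ⟨u, hu1 u⟩ ⟨u', hu1 u'⟩
    (by
      rw [← Submodule.cardQuot_apply, ← Ideal.absNorm_apply, Ideal.absNorm_span_natCast,
        RingOfIntegers.rank]
      exact Nat.pow_le_pow_right hp.pos h3)
    (fun v => by
      rw [nsmul_eq_mul, ← map_natCast (Ideal.Quotient.mk _),
        Ideal.Quotient.eq_zero_iff_mem.2 (Ideal.mem_span_singleton_self _), zero_mul])
    hl
    (fun y y' => funext fun i => by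
      simp only [Submonoid.coe_mul, map_mul, Pi.add_apply]
      exact Phi_mul_right h2 hζ (hx i).1.1 (y0 y) (y0 y'))
    (fun y h => funext fun i => by
      obtain ⟨b, hb⟩ := Ideal.mem_span_singleton.1 (Ideal.Quotient.eq_zero_iff_mem.1 h)
      have e := r1 h2 hd hζ (hx i).1.1 (pow_ne_zero E (y0 y)) ⟨1, one_ne_zero, fun v hv => by
        have e1 : algebraMap K M (y : 𝓞 K) ^ E / 1 ^ p - 1 =
            (p : M) ^ 2 * (algebraMap (𝓞 K) (𝓞 M) b : 𝓞 M) := by
          have e2 := congrArg (algebraMap (𝓞 K) M) (ha y)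
          rw [hb] at e2
          simp only [map_sub, map_pow, map_one, map_mul, map_natCast] at e2
          rw [one_pow, div_one]
          exact e2.trans (by rw [← mul_assoc, ← sq]; rfl)
        rw [e1, map_mul, map_pow, val_ell hζ, ← pow_mul]
        refine (mul_le_of_le_one_right' (v.valuation_le_one _)).trans ?_
        exact pow_le_pow_right_of_le_one' (val_one_sub_lt hζ hv).le (by omega)⟩
      rw [Phi_swap h2 hζ (pow_ne_zero E (y0 y)) (hx i).1.1, ← zpow_natCast,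
        Phi_zpow_left h2 hζ (y0 y) (hx i).1.1, Phi_swap h2 hζ (hx i).1.1 (y0 y), mul_neg, neg_neg,
        Int.cast_natCast] at e
      exact (mul_eq_zero.1 e).resolve_left fun c => hE ((ZMod.natCast_eq_zero_iff _ _).1 c))
    (fun i j h => by
      rw [← pow_LIN (fun y : Y => Ideal.Quotient.mk (Ideal.span {(p : 𝓞 K)}) (a y)) hl,
        ← pow_LIN (fun y : Y => Ideal.Quotient.mk (Ideal.span {(p : 𝓞 K)}) (a y)) hl, ← hl] at h
      obtain ⟨b, hb⟩ := Ideal.mem_span_singleton.1 (Ideal.Quotient.eq_zero_iff_mem.1 h)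
      exact hu i j ⟨b, (ha (⟨u, hu1 u⟩ ^ i * ⟨u', hu1 u'⟩ ^ j)).trans
        (by rw [hb, ← mul_assoc, sq])⟩)
    (hφ u) (hφ u')
  have x0 : ∀ i, x i ^ (c i).val ≠ 0 := fun i => pow_ne_zero _ (hx i).1.1
  obtain ⟨z, hz⟩ := det_THR h2 hζ hω (x := ∏ i, x i ^ (c i).val)
    (fun h => hd (finrank_mul_finrank ℚ K M ▸ h.mul_left _)) hh
    ⟨prod_ne_zero_iff.2 fun i _ => x0 i, fun g => by
      choose z hz using fun i => (hx i).1.2 g
      refine ⟨∏ i, z i ^ (c i).val, ?_⟩
      simp only [map_prod, map_pow, hz, ← prod_pow, ← prod_mul_distrib]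
      exact prod_congr rfl fun i _ => by ring⟩
    (fun v hv => by
      rw [ord_prod_THK v _ _ x0]
      exact dvd_sum fun i _ => by
        rw [ord_pow]
        exact ((hx i).2 v hv).mul_left _)
    fun y hy => by
      have e := hc ⟨y, hy⟩
      have k : ∀ i, Phi p ζ (x i ^ (c i).val) (algebraMap K M y) =
          c i * Phi p ζ (x i) (algebraMap K M y) := fun i => by
        rw [← zpow_natCast, Phi_zpow_left h2 hζ (hx i).1.1 (y0 ⟨y, hy⟩), Int.cast_natCast,
          ZMod.natCast_zmod_val]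
      rw [Phi_prod_THK h2 hζ _ _ x0 (y0 ⟨y, hy⟩)]
      simp only [k]
      exact e
  obtain ⟨i, hi⟩ := Function.ne_iff.1 c0
  exact ⟨fun i => (c i).val, z, ⟨i, fun h => hi (by
    rw [← ZMod.natCast_zmod_val (c i)]
    exact (ZMod.natCast_eq_zero_iff _ _).2 h)⟩, hz⟩

end Pool.Agent.MP_3e91a1_nt.TR

end

section

/-! The bound for the eigenspace, in every degree. -/

set_option autoImplicit false

open NumberField IsDedekindDomain Module Finset

namespace Pool.Agent.MP_3e91a1_nt.GN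

open TR CC MP_14ad9d_nt.Full

theorem prod_THG {Y V ι : Type} [CommMonoid Y] [AddCommGroup V] (f : Y → V)
    (h : ∀ x y, f (x * y) = f x + f y) (s : Finset ι) (u : ι → Y) (e : ι → ℕ) :
    f (∏ i ∈ s, u i ^ e i) = ∑ i ∈ s, e i • f (u i) := by
  classical
  induction s using Finset.induction_on with
  | empty =>
    have := h 1 1
    rw [mul_one] at this
    rw [Finset.prod_empty, Finset.sum_empty]
    exact left_eq_add.1 this
  | insert a s ha ih => rw [Finset.prod_insert ha, Finset.sum_insert ha, h, ih, pow_LIN f h]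

theorem THG_pf (hLNG : LNG_st) : THG_st := by
  intro p E k m K M _ _ _ _ _ _ _ ζ ω u hp h2 hζ hω hd h3 hh hE hy hu x hx
  have := Fact.mk hp
  have p0 : (p : 𝓞 K) ≠ 0 := by exact_mod_cast hp.ne_zero
  let Y : Submonoid (𝓞 K) :=
    { carrier := {y | IsCoprime y p}
      one_mem' := isCoprime_one_left
      mul_mem' := fun h h' => IsCoprime.mul_left h h' }
  have y0 : ∀ y : Y, algebraMap K M (y : 𝓞 K) ≠ 0 := fun y c => by
    have h : (y : 𝓞 K) = 0 := by simpa using c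
    have h1 : IsCoprime (y : 𝓞 K) p := y.2
    rw [h, isCoprime_zero_left] at h1
    have h4 := Ideal.absNorm_span_natCast (S := 𝓞 K) p
    rw [Ideal.span_singleton_eq_top.2 h1, Ideal.absNorm_top, RingOfIntegers.rank] at h4
    exact absurd h4 (Nat.one_lt_pow finrank_pos.ne' hp.one_lt).ne
  have hu1 : ∀ u : (𝓞 K)ˣ, (u : 𝓞 K) ∈ Y := fun u => ⟨(u⁻¹ : (𝓞 K)ˣ), 0, by simp⟩
  choose a ha using fun y : Y => hy y y.2
  have fin : Finite (𝓞 K ⧸ Ideal.span {(p : 𝓞 K)}) :=
    Ideal.finiteQuotientOfFreeOfNeBot _ (by simpa using hp.ne_zero)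
  have hl : ∀ y y' : Y, Ideal.Quotient.mk (Ideal.span {(p : 𝓞 K)}) (a (y * y')) =
      Ideal.Quotient.mk _ (a y) + Ideal.Quotient.mk _ (a y') := fun y y' => by
    rw [← map_add, Ideal.Quotient.eq, Ideal.mem_span_singleton]
    refine ⟨a y * a y', mul_left_cancel₀ p0 ?_⟩
    have e := ha (y * y')
    rw [Submonoid.coe_mul, mul_pow] at e
    linear_combination -e + (y' : 𝓞 K) ^ E * ha y + (1 + p * a y) * ha y'
  have hφ : ∀ u : (𝓞 K)ˣ, (fun i => Phi p ζ (x i) (algebraMap K M (u : 𝓞 K))) = 0 := fun u =>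
    funext fun i => by
      refine finsum_eq_zero_of_forall_eq_zero fun v => tame_unr h2 hζ v.2 (hx i).1.1
        (y0 ⟨u, hu1 u⟩) ((hx i).2 v.1 v.2) ?_
      obtain ⟨v', hv'⟩ := exists_under (E := K) v.1
      rw [ord_over hv']
      refine Dvd.dvd.mul_left ?_ _
      have : ord v' ((u : 𝓞 K) : K) = 0 := (MP_f3cd89_nt.ord_eq_zero_iff v' u.ne_zero).2 fun c =>
        v'.isPrime.ne_top (Ideal.eq_top_of_isUnit_mem _ c u.isUnit)
      exact this ▸ dvd_zero _
  obtain ⟨c, c0, hc⟩ := hLNG p k m Y (𝓞 K ⧸ Ideal.span {(p : 𝓞 K)})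
    (fun y => Ideal.Quotient.mk _ (a y)) (fun y i => Phi p ζ (x i) (algebraMap K M (y : 𝓞 K)))
    (fun i => ⟨u i, hu1 (u i)⟩)
    (by
      rw [← Submodule.cardQuot_apply, ← Ideal.absNorm_apply, Ideal.absNorm_span_natCast,
        RingOfIntegers.rank]
      exact Nat.pow_lt_pow_right hp.one_lt h3)
    (fun v => by
      rw [nsmul_eq_mul, ← map_natCast (Ideal.Quotient.mk _),
        Ideal.Quotient.eq_zero_iff_mem.2 (Ideal.mem_span_singleton_self _), zero_mul])
    hl
    (fun y y' => funext fun i => by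
      simp only [Submonoid.coe_mul, map_mul, Pi.add_apply]
      exact Phi_mul_right h2 hζ (hx i).1.1 (y0 y) (y0 y'))
    (fun y h => funext fun i => by
      obtain ⟨b, hb⟩ := Ideal.mem_span_singleton.1 (Ideal.Quotient.eq_zero_iff_mem.1 h)
      have e := r1 h2 hd hζ (hx i).1.1 (pow_ne_zero E (y0 y)) ⟨1, one_ne_zero, fun v hv => by
        have e1 : algebraMap K M (y : 𝓞 K) ^ E / 1 ^ p - 1 =
            (p : M) ^ 2 * (algebraMap (𝓞 K) (𝓞 M) b : 𝓞 M) := by
          have e2 := congrArg (algebraMap (𝓞 K) M) (ha y)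
          rw [hb] at e2
          simp only [map_sub, map_pow, map_one, map_mul, map_natCast] at e2
          rw [one_pow, div_one]
          exact e2.trans (by rw [← mul_assoc, ← sq]; rfl)
        rw [e1, map_mul, map_pow, val_ell hζ, ← pow_mul]
        refine (mul_le_of_le_one_right' (v.valuation_le_one _)).trans ?_
        exact pow_le_pow_right_of_le_one' (val_one_sub_lt hζ hv).le (by omega)⟩
      rw [Phi_swap h2 hζ (pow_ne_zero E (y0 y)) (hx i).1.1, ← zpow_natCast,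
        Phi_zpow_left h2 hζ (y0 y) (hx i).1.1, Phi_swap h2 hζ (hx i).1.1 (y0 y), mul_neg, neg_neg,
        Int.cast_natCast] at e
      exact (mul_eq_zero.1 e).resolve_left fun c => hE ((ZMod.natCast_eq_zero_iff _ _).1 c))
    (fun e h => by
      rw [← prod_THG (fun y : Y => Ideal.Quotient.mk (Ideal.span {(p : 𝓞 K)}) (a y)) hl] at h
      obtain ⟨b, hb⟩ := Ideal.mem_span_singleton.1 (Ideal.Quotient.eq_zero_iff_mem.1 h)
      have e2 := ha (∏ i, (⟨u i, hu1 (u i)⟩ : Y) ^ e i)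
      rw [hb, ← mul_assoc, ← sq] at e2
      refine hu e ⟨b, ?_⟩
      rw [← e2]
      simp)
    (fun i => hφ (u i))
  have x0 : ∀ i, x i ^ (c i).val ≠ 0 := fun i => pow_ne_zero _ (hx i).1.1
  obtain ⟨z, hz⟩ := det_THR h2 hζ hω (x := ∏ i, x i ^ (c i).val)
    (fun h => hd (finrank_mul_finrank ℚ K M ▸ h.mul_left _)) hh
    ⟨prod_ne_zero_iff.2 fun i _ => x0 i, fun g => by
      choose z hz using fun i => (hx i).1.2 g
      refine ⟨∏ i, z i ^ (c i).val, ?_⟩
      simp only [map_prod, map_pow, hz, ← prod_pow, ← prod_mul_distrib]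
      exact prod_congr rfl fun i _ => by ring⟩
    (fun v hv => by
      rw [ord_prod_THK v _ _ x0]
      exact dvd_sum fun i _ => by
        rw [ord_pow]
        exact ((hx i).2 v hv).mul_left _)
    fun y hy => by
      have e := hc ⟨y, hy⟩
      have k : ∀ i, Phi p ζ (x i ^ (c i).val) (algebraMap K M y) =
          c i * Phi p ζ (x i) (algebraMap K M y) := fun i => by
        rw [← zpow_natCast, Phi_zpow_left h2 hζ (hx i).1.1 (y0 ⟨y, hy⟩), Int.cast_natCast,
          ZMod.natCast_zmod_val]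
      rw [Phi_prod_THK h2 hζ _ _ x0 (y0 ⟨y, hy⟩)]
      simp only [k]
      exact e
  obtain ⟨i, hi⟩ := Function.ne_iff.1 c0
  exact ⟨fun i => (c i).val, z, ⟨i, fun h => hi (by
    rw [← ZMod.natCast_zmod_val (c i)]
    exact (ZMod.natCast_eq_zero_iff _ _).2 h)⟩, hz⟩

end Pool.Agent.MP_3e91a1_nt.GN

end

section

set_option autoImplicit false

open Filter NumberField

namespace Pool.Agent.MP_3e91a1_nt.GN

open TR

theorem one_ok : ONG_st := ONG_pf URM_pf (BDG_pf ITG_pf SCH_pf (DNZ_pf SCH_pf) URM_pf FRO_pf) LEG_pf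
  (GDG_pf RES_ok TWR_ok TRF_ok DEC_pf (ETK_pf IDM_pf) (THG_pf LNG_pf) RFK_pf)
  GOOD_ok TOP_ok DEV_ok MEM_ok

theorem main (m : ℕ) (r : Fin m → ℤ) (hr : Function.Injective r) (δ ε : ℝ) (hδ : 0 < δ)
    (hε : 0 < ε) : ∀ᶠ M : ℕ in atTop,
    ∀ (k : ℕ → IntermediateField ℚ (AlgebraicClosure ℚ)) [∀ T, NumberField (k T)]
      (G : ℕ → ℕ → Prop), (∀ T : ℕ, ∃ w ∈ k T, (∏ i, (w - r i)) * (w + T) = 1) →
      (∀ T, Units.rank (k T) ≤ m) → (∀ T p, ∀ _ : Fact p.Prime,
        (Leo p (k T) ∧ ∀ K, PExt p (k T) K → WeakLeopoldt p K {0}) → G T p) →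
      ∀ᶠ x : ℕ in atTop, (Set.ncard {T : ℕ | 1 ≤ T ∧ T ≤ M ∧
        (Set.ncard {p : ℕ | p ≤ x ∧ G T p} : ℝ) < (1 - δ) * x / Real.log x} : ℝ) ≤ ε * M := by
  obtain ⟨s, hs⟩ := cnt_ok m r hr δ ε hδ hε
  filter_upwards [hs] with M hM k _ G hw hk hG
  refine hM G fun T d a hd hT ha => ?_
  obtain ⟨w, h1, h2⟩ := hw T
  obtain ⟨B, hB⟩ := one_ok m (T + s) (fun i => r i - s) d (k T) (w - s) a
    (fun i j h => hr (sub_left_injective h)) hd (fun i => by have := hT i; omega) (hk T)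
    (sub_mem h1 (natCast_mem _ s)) (by
      rw [← h2]
      push_cast
      simp only [sub_sub_sub_cancel_right, sub_add_add_cancel]) ha
  exact ⟨B, fun p hp h3 h4 => hG T p ⟨hp⟩ (@hB p ⟨hp⟩ h3 h4)⟩

end Pool.Agent.MP_3e91a1_nt.GN

end

section

set_option autoImplicit false

namespace Pool.Agent.MP_3e91a1_nt.DS

open TR GN FM

theorem onh_ok : ONH_st := ONH_pf ITF_pf URM_pf (BDF_pf ITF_pf DZF_pf URM_pf FRF_pf) LEG_pf
  (GDG_pf RES_ok TWR_ok TRF_ok DEC_pf (ETK_pf IDM_pf) (THG_pf LNG_pf) RFK_pf)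

theorem cth_ok : CTH_st := CTH_pf DSF_pf DZF_pf ADJ_pf SHF_pf COP_pf RTF_pf def_ok (FEG_pf COG_pf)
  (DAG_pf TUG_pf INC_pf) DSG_pf onh_ok

end Pool.Agent.MP_3e91a1_nt.DS

end
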