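import Pool.Agent.Mg.F3e91a1.Gc0e385
import Pool.Agent.Mg.F3e91a1.Gc1075a
import Pool.Agent.MP_3e91a1_nt.Stm3
import Pool.Agent.MP_3e91a1_nt.Brg
import Pool.Agent.Mg.F3e91a1.G9378f2
import Pool.Agent.Mg.F3e91a1.Gdbecc4

set_option linter.all false

section

/-! The descent to subfields, for the constituents of the permutation representation. -/

set_option autoImplicit false

open Filter NumberField Finset

namespace Pool.Agent.MP_3e91a1_nt.DS

open TR GN FM CC MP_e23604_nt MP_e23604_nt.B MP_e23604_nt.R MP_f3cd89_nt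

/-- the descent -/
def DSP_st : Prop := ∀ (p : ℕ) [Fact p.Prime] (k K : IntermediateField ℚ Qb) [NumberField k],
  Gd p k → PExt p k (k ⊔ K) → WL.WeakLeopoldtR p K Qb k

theorem aux_DSP (hGOOD : GOOD_st) (hMEM : MEM_st) (hISO : ISO_st) (hIDX : IDX_st)
    (hIXW : IXW_st) (hTPW : TPW_st) (hACT : ACT_st) (hDVB : DVB_st) (hTRV : TRV_st)
    (hQSZ : QSZ_st) (hNCI : NCI_st) (hRSD : RSD_st) (p : ℕ) [hp : Fact p.Prime]
    (k K : IntermediateField ℚ Qb) [NumberField k] (hg : Gd p k) (hP : PExt p k (k ⊔ K))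
    (S : Set (Pr K)) (F : IntermediateField ℚ_[p] (PadicAlgCl p)) (hS : S.Finite)
    (hpS : primesAbove K p ⊆ S) (hk : ∀ x ∈ k, x ∈ maxUnr K S)
    (κ : GalS K S →* Multiplicative ℤ_[p]) (d : ℕ) (ρ : GalS K S →* GL (Fin d) (valRing F))
    (hκ : Continuous κ) (hsur : Function.Surjective κ)
    (hfin : ∀ v ∈ S, (v.asIdeal.primesOver (𝓞 (IntermediateField.fixedField κ.ker))).Finite)
    (hρ : Continuous ρ) (hres : ∀ W : Subgroup (GalS K S),
      (∀ g, g ∈ W ↔ ∀ x : maxUnr K S, (x : Qb) ∈ k → g x = x) → PermI W ρ) :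
    H2Zero fun (g : κ.ker) (x : DivMod F d) => matAct (ρ g) x := by
  obtain ⟨_, h2, hlt, hG⟩ := hg
  have : NeZero p := ⟨hp.out.ne_zero⟩
  obtain ⟨ζ, hζ⟩ := HasEnoughRootsOfUnity.exists_primitiveRoot Qb p
  obtain ⟨r', hr⟩ := HasEnoughRootsOfUnity.exists_primitiveRoot (ZMod p) (p - 1)
  obtain ⟨r, rfl⟩ := ZMod.natCast_zmod_surjective r'
  have r0 : (r : ZMod p) ≠ 0 := hr.ne_zero (by omega)
  have r1 : (r : ZMod p) ≠ 1 := hr.ne_one (by omega)
  have := (hGOOD p ζ r 0 _ _ hP).1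
  have : FiniteDimensional ℚ K :=
    FiniteDimensional.of_injective (IntermediateField.inclusion (le_sup_right : K ≤ k ⊔ K)).toLinearMap
      (IntermediateField.inclusion_injective le_sup_right)
  have G0 := (hGOOD p ζ r _ _ _ hP).2 (by omega) hζ hr r0 r1 (hG ζ r hζ hr)
  obtain ⟨W, hWo, hW, hW0, hWi⟩ := hIXW K k S hk
  have hnd : ¬ p ∣ W.index := fun h => by
    have := Nat.le_of_dvd (Nat.pos_of_ne_zero hW0) h
    omega
  obtain ⟨hs', hidx⟩ := hIDX p (GalS K S) κ W hsur hnd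
  have hH := hTPW p K k S κ W ζ r (by omega) hk hWo hW hW0 (by omega) hS hpS hκ hsur hs' hfin hζ hr
    r1 G0
  have := (hMEM K S).1
  have cK : IsClosed (κ ⁻¹' {1}) := isClosed_singleton.preimage hκ
  have : CompactSpace κ.ker := isCompact_iff_compactSpace.1 cK.isCompact
  let e : (κ.comp W.subtype).ker ≃* W.subgroupOf κ.ker :=
    { toFun := fun g => ⟨⟨g.1.1, g.2⟩, g.1.2⟩
      invFun := fun g => ⟨⟨g.1.1, g.2⟩, g.1.2⟩
      left_inv := fun _ => rfl
      right_inv := fun _ => rfl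
      map_mul' := fun _ _ => rfl }
  have hH' : H2Zero fun (_ : W.subgroupOf κ.ker) (x : ZMod p) => 1 * x :=
    hISO _ _ _ e (fun _ x => 1 * x)
      (((continuous_subtype_val.comp continuous_subtype_val).subtype_mk _).subtype_mk _)
      (((continuous_subtype_val.comp continuous_subtype_val).subtype_mk _).subtype_mk _) hH
  obtain ⟨a1, a2, a3, -, a5⟩ := hACT p F d
  refine hDVB κ.ker (DivMod F d) (fun g => AddMonoidHom.mk' (matAct (ρ g)) (a2 _))
    (fun g h x => by simp only [AddMonoidHom.mk'_apply, Subgroup.coe_mul, map_mul, a3])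
    (fun x => a5 κ.ker (fun g => ρ g) x (hρ.comp continuous_subtype_val))
    (fun x => (a1 x).elim fun j hj =>
      isOfFinAddOrder_iff_nsmul_eq_zero.2 ⟨_, pow_pos hp.out.pos j, hj⟩) fun M hM h0 hst => ?_
  obtain ⟨R, V, _, _, _, _, σ, v, π, s1, s2, s3, s4, s5⟩ := hRSD p F d _ ρ W M hM h0 (hres W hW)
  have hQ : ∀ g : κ.ker, ∀ x ∈ π.range, (σ.comp κ.ker.subtype) g x ∈ π.range := by
    rintro g _ ⟨x, rfl⟩
    exact ⟨⟨_, hst g x x.2⟩, s5 g x _ rfl⟩
  refine ⟨π.range, inferInstance, _, π.rangeRestrict, fun h => s4 ?_, π.rangeRestrict_surjective,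
    fun g x y h => ?_, hQSZ p κ.ker R V (σ.comp κ.ker.subtype) (W.subgroupOf κ.ker) π.range v hQ
      (hWo.preimage continuous_subtype_val) (hidx ▸ hW0) (by omega) (fun U hU => s1 U fun g x hx => ?_)
      s2 (fun g hg => s3 g hg) (Finite.of_surjective _ π.rangeRestrict_surjective) hH'⟩
  · ext x
    exact congrArg Subtype.val (DFunLike.congr_fun h x)
  · exact Subtype.ext (s5 g x y h)
  · obtain ⟨h, h1, h3⟩ := hNCI p _ κ W hsur hW0 (by omega) g
    have h4 : σ g = σ h := by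
      rw [← mul_inv_cancel_left h g, map_mul, (hTRV _ R V σ W v s1 s2 s3).1 _ h3, mul_one]
    rw [h4]
    exact hU ⟨h, h1⟩ x hx

theorem DSP_pf (hGOOD : GOOD_st) (hMEM : MEM_st) (hISO : ISO_st) (hIDX : IDX_st)
    (hIXW : IXW_st) (hTPW : TPW_st) (hACT : ACT_st) (hDVB : DVB_st) (hTRV : TRV_st)
    (hQSZ : QSZ_st) (hNCI : NCI_st) (hRSD : RSD_st) : DSP_st :=
  fun p _ k K _ hg hP S F hS hpS hk κ d ρ hκ hsur hfin hρ ⟨R, i, r, h1, h2⟩ =>
    aux_DSP hGOOD hMEM hISO hIDX hIXW hTPW hACT hDVB hTRV hQSZ hNCI hRSD p k K hg hP S F hS hpS hk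
      κ d ρ hκ hsur hfin hρ fun _ hW => ⟨R, i, r, h1, fun V₁ V₂ a b c =>
        (h2 V₁ V₂ a b c).imp fun _ h => ⟨h.1, h.2.1, fun g hg => h.2.2 g ((hW g).1 hg)⟩⟩

end Pool.Agent.MP_3e91a1_nt.DS

end

section

set_option autoImplicit false

open NumberField IsDedekindDomain Module Filter Topology Finset
open scoped Classical

namespace Pool.Agent.MP_3e91a1_nt.DS

open MP_e23604_nt MP_e23604_nt.B MP_e23604_nt.R MP_f3cd89_nt

section
variable {p : ℕ} [Fact p.Prime] {F : IntermediateField ℚ_[p] (PadicAlgCl p)}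

theorem eq_ACT {y z : F} : (Submodule.Quotient.mk y : F ⧸ (1 : Submodule (valRing F) F)) =
    Submodule.Quotient.mk z ↔ ‖((y - z : F) : PadicAlgCl p)‖ ≤ 1 := by
  rw [Submodule.Quotient.eq, Submodule.mem_one]
  exact ⟨fun ⟨a, e⟩ => e ▸ a.2, fun h => ⟨⟨_, h⟩, rfl⟩⟩

theorem p_ACT : ‖(p : PadicAlgCl p)‖ < 1 := by
  rw [← map_natCast (algebraMap ℚ_[p] (PadicAlgCl p)), norm_algebraMap']
  exact Padic.norm_p_lt_one

theorem smul_ACT (c : valRing F) (y : F) :
    ‖((c • y : F) : PadicAlgCl p)‖ = ‖((c : F) : PadicAlgCl p)‖ * ‖(y : PadicAlgCl p)‖ :=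
  norm_mul ((c : F) : PadicAlgCl p) y

theorem tor_ACT (q : F ⧸ (1 : Submodule (valRing F) F)) : ∀ᶠ n : ℕ in atTop, p ^ n • q = 0 := by
  obtain ⟨y, rfl⟩ := Submodule.Quotient.mk_surjective _ q
  refine (((tendsto_pow_atTop_nhds_zero_of_lt_one (norm_nonneg _)
    (p_ACT (p := p))).mul_const ‖(y : PadicAlgCl p)‖).eventually
    (gt_mem_nhds (a := 1) (by simp))).mono fun n hn => ?_
  rw [← Nat.cast_smul_eq_nsmul (valRing F), ← Submodule.Quotient.mk_smul]
  refine eq_ACT.2 ?_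
  rw [sub_zero, smul_ACT]
  simpa using hn.le

theorem loc_ACT {G : Type} [TopologicalSpace G] {c : G → valRing F} (hc : Continuous c)
    (q : F ⧸ (1 : Submodule (valRing F) F)) (g₀ : G) : ∀ᶠ g in 𝓝 g₀, c g • q = c g₀ • q := by
  obtain ⟨y, rfl⟩ := Submodule.Quotient.mk_surjective _ q
  have h : Continuous fun g => ((c g : F) : PadicAlgCl p) :=
    continuous_subtype_val.comp (continuous_subtype_val.comp hc)
  refine ((((h.sub (continuous_const (y := ((c g₀ : F) : PadicAlgCl p)))).norm.mul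
    (continuous_const (y := ‖(y : PadicAlgCl p)‖))).tendsto g₀).eventually
    (gt_mem_nhds (a := 1) (by simp))).mono fun g hg => ?_
  rw [← Submodule.Quotient.mk_smul, ← Submodule.Quotient.mk_smul, eq_ACT, ← sub_smul, smul_ACT]
  exact hg.le

end

theorem ACT_pf : ACT_st := by
  intro p _ F d
  refine ⟨fun x => ?_, fun m x y => ?_, fun m m' x => ?_, fun x => ?_, fun G _ ρ x hρ => ?_⟩
  · obtain ⟨k, hk⟩ := (eventually_all.2 fun i => tor_ACT (x i)).exists
    exact ⟨k, funext hk⟩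
  · funext i
    simp only [matAct, Pi.add_apply, smul_add, Finset.sum_add_distrib]
  · funext i
    simp only [matAct, Units.val_mul, Matrix.mul_apply, Finset.sum_smul, Finset.smul_sum, mul_smul]
    exact Finset.sum_comm
  · funext i
    simp [matAct, Matrix.one_apply]
  · refine (IsLocallyConstant.iff_eventually_eq _).2 fun g₀ => ?_
    filter_upwards [eventually_all.2 fun i => eventually_all.2 fun j => loc_ACT
      ((Units.continuous_val.comp hρ).matrix_elem i j) (x j) g₀] with g hg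
    funext i
    exact Finset.sum_congr rfl fun j _ => hg i j

end Pool.Agent.MP_3e91a1_nt.DS

end

section

set_option autoImplicit false

open NumberField IsDedekindDomain Module Filter Topology Finset
open scoped Classical

namespace Pool.Agent.MP_3e91a1_nt.DS

theorem dual1_FXZ {A K : Type} [AddCommGroup A] [Field K] [Module K A] {x : A} (hx : x ≠ 0) :
    ∃ f : A →+ K, f x ≠ 0 := by
  by_contra hn
  push Not at hn
  exact hx ((Module.forall_dual_apply_eq_zero_iff K x).1 fun φ => hn φ.toAddMonoidHom)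

theorem dual_FXZ {A : Type} [AddCommGroup A] {p : ℕ} [Fact p.Prime] (h : ∀ x : A, p • x = 0)
    {x : A} (hx : x ≠ 0) : ∃ f : A →+ ZMod p, f x ≠ 0 :=
  @dual1_FXZ A (ZMod p) _ _ (AddCommGroup.zmodModule h) x hx

theorem FXZ_pf (hDVA : DVA_st) : FXZ_st := by
  intro p _ G A _ _ _ _ _ hp hz
  refine hDVA p G A (fun _ => AddMonoidHom.id A) (fun _ _ _ => rfl)
    (fun x => IsLocallyConstant.const x) (fun x => ?_) fun M _ hM _ => ?_
  · exact isOfFinAddOrder_iff_nsmul_eq_zero.2 ⟨p, (Fact.out : p.Prime).pos, hp x⟩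
  · obtain ⟨x, hx⟩ := AddSubgroup.ne_bot_iff_exists_ne_zero.1 hM
    obtain ⟨f, hf⟩ := dual_FXZ (A := M) (p := p) (fun y => Subtype.ext (hp y)) hx
    refine ⟨fun _ => 1, f, fun h0 => hf (by rw [h0]; rfl), fun g x y hxy => ?_, hz⟩
    rw [one_mul, Subtype.ext hxy]

end Pool.Agent.MP_3e91a1_nt.DS

end

section

/-! The vanishing for finite subgroups of a constituent. -/

set_option autoImplicit false

open NumberField IsDedekindDomain Module Filter Topology Finset
open scoped Classical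

namespace Pool.Agent.MP_3e91a1_nt.DS

theorem core_QSZ (hTRP : TRP_st) (hFXZ : FXZ_st) (p : ℕ) [Fact p.Prime] (G A : Type) [Group G]
    [TopologicalSpace G] [IsTopologicalGroup G] [CompactSpace G] [AddCommGroup A] [Finite A]
    (a : G →* AddMonoid.End A) (W : Subgroup G) [Fintype (G ⧸ W)] (φ : A →+ A)
    (hW : IsOpen (W : Set G)) (hp : ∀ x : A, p • x = 0)
    (hφ : ∀ g ∈ W, ∀ x, a g (φ x) = φ x ∧ φ (a g x) = φ x)
    (hz : Function.Injective fun x => ∑ y : G ⧸ W, a y.out (φ (a y.out⁻¹ x)))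
    (h0 : H2Zero fun (_ : W) (x : ZMod p) => 1 * x) : H2Zero fun g x => a g x := by
  intro c hc hco
  have : CompactSpace W := isCompact_iff_compactSpace.1 (W.isClosed_of_isOpen hW).isCompact
  have hι : Continuous fun q : W × W => ((q.1 : G), (q.2 : G)) := by fun_prop
  obtain ⟨β, hβ, hβc⟩ := hFXZ p W φ.range (fun x => Subtype.ext (hp x)) h0
    (fun q => φ.rangeRestrict (c ((q.1 : G), (q.2 : G))))
    ((hc.comp_continuous hι).comp φ.rangeRestrict) (by
      intro g h j
      apply Subtype.ext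
      have h1 := congrArg φ (hco g h j)
      rw [map_sub, map_add, map_sub, (hφ g g.2 _).2, map_zero] at h1
      exact h1)
  obtain ⟨hcomm, htr⟩ := hTRP G A a W φ hW fun g hg x => by rw [(hφ g hg x).1, (hφ g hg x).2]
  obtain ⟨b, hb, hbc⟩ := htr c (fun g => (β g : A)) hc hco (hβ.comp Subtype.val) (by
    intro g h
    obtain ⟨x, hx⟩ := (β h).2
    have h1 : a g (β h : A) = β h := by rw [← hx, (hφ g g.2 x).1]
    rw [h1]
    exact congrArg Subtype.val (hβc g h))
  let z : A →+ A :=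
    { toFun := fun x => ∑ y : G ⧸ W, a y.out (φ (a y.out⁻¹ x))
      map_zero' := by simp
      map_add' := fun x y => by simp only [map_add, Finset.sum_add_distrib] }
  have hzi : Function.Injective z := hz
  have hzs : Function.Surjective z := Finite.injective_iff_surjective.1 hzi
  refine ⟨fun g => Function.surjInv hzs (b g), hb.comp (Function.surjInv hzs),
    fun g h => hzi ?_⟩
  have h2 : ∀ x, z (a g x) = a g (z x) := hcomm g
  rw [map_add, map_sub, h2, Function.surjInv_eq hzs, Function.surjInv_eq hzs,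
    Function.surjInv_eq hzs]
  exact hbc g h

theorem QSZ_pf (hTRP : TRP_st) (hFXZ : FXZ_st) (hSIM : SIM_st) : QSZ_st := by
  intro p _ G R S _ _ _ _ _ _ _ _ σ W Q v hQ hW hi hip hS hv hfix hfin h0
  let _ : Fintype (G ⧸ W) := Subgroup.fintypeOfIndexNeZero hi
  obtain ⟨J, _, t, ht, hinj⟩ := hSIM p G R S σ W v Fact.out hip hS hv hfix
  let a : G →* AddMonoid.End Q :=
    { toFun := fun g =>
        { toFun := fun x => ⟨σ g x, hQ g x x.2⟩
          map_zero' := Subtype.ext (by simp)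
          map_add' := fun x y => Subtype.ext (by simp) }
      map_one' := AddMonoidHom.ext fun x => Subtype.ext (by
        show σ 1 x = x
        rw [map_one]
        rfl)
      map_mul' := fun g h => AddMonoidHom.ext fun x => Subtype.ext (by
        show σ (g * h) x = σ g (σ h x)
        rw [map_mul]
        rfl) }
  let φ : Q →+ Q :=
    { toFun := fun x => ⟨∑ j, σ (t j) x, Q.sum_mem fun j _ => hQ _ x x.2⟩
      map_zero' := Subtype.ext (by simp)
      map_add' := fun x y => Subtype.ext (by simp [Finset.sum_add_distrib]) }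
  have hp : ∀ x : Q, p • x = 0 := fun x => Subtype.ext (by
    have h1 : p • (x : S) = (p : R) • (x : S) := (Nat.cast_smul_eq_nsmul R p _).symm
    rw [AddSubgroup.coe_nsmul, h1, CharP.cast_eq_zero, zero_smul]
    rfl)
  refine core_QSZ hTRP hFXZ p G Q a W φ hW hp
    (fun g hg x => ⟨Subtype.ext (ht g hg x).1, Subtype.ext (ht g hg x).2⟩) ?_ h0
  intro x x' h
  apply Subtype.ext
  apply hinj
  have h1 := congrArg Subtype.val h
  simp only [AddSubgroup.val_finsetSum] at h1
  exact h1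

end Pool.Agent.MP_3e91a1_nt.DS

end

section

/-! The vanishing theorem for an abstract quotient. -/

set_option autoImplicit false

open NumberField IsDedekindDomain Module Filter Topology Finset
open scoped Classical

namespace Pool.Agent.MP_3e91a1_nt.DS

open MP_e23604_nt MP_e23604_nt.B MP_e23604_nt.R MP_f3cd89_nt

theorem TPA_pf (hMAIN : MAIN_st) (hEXT : EXT_st) : TPA_st := by
  intro p hp G _ _ _ _ _ U B π κ W₀ ζ r hp2 hπ hB1 ⟨e₀, hB3⟩ hκ hsur hW₀ hfix hζ hr he1 hgood c hc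
    hcoc
  obtain ⟨ωQ, -, hωQ⟩ := om_WTOP p ℚ _ hζ
  let φ : U →* G := MonoidHom.mk' (fun g => π g) fun a b => hπ.mul _ a.2 _ b.2
  have π1 : π 1 = 1 := map_one φ
  have πi : ∀ g ∈ U, π g⁻¹ = (π g)⁻¹ := fun g hg => map_inv φ ⟨g, hg⟩
  have πd : ∀ g ∈ U, ∀ h ∈ U, π h = π g * π (g⁻¹ * h) := fun g hg h hh => by
    rw [hπ.mul _ (inv_mem hg) _ hh, πi g hg, mul_inv_cancel_left]
  obtain ⟨m, W, c', hWo, hWn, hW0, hWm, hc1, hc2, hc3⟩ := hEXT p G κ (fun _ => 1) W₀ c hκ hsur hW₀
    (fun _ _ => (mul_one _).symm) (fun _ _ => rfl) hc hcoc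
  choose V hVo hV using lay_WTOP hκ
  choose Kn hKo hK using fun n => hπ.pre (V n) (hVo n)
  simp only [hV] at hK
  obtain ⟨N, hNo, hN⟩ := hπ.pre W hWo
  have hH : ∀ g, g ∈ (κ.ker.comap φ).map U.subtype ↔ g ∈ U ∧ (κ (π g)).toAdd = 0 := fun g =>
    ⟨by
      rintro ⟨x, hx, rfl⟩
      exact ⟨x.2, hx⟩, fun h => ⟨⟨g, h.1⟩, h.2, rfl⟩⟩
  obtain ⟨b, N', hNo', hoff, hcst, hb⟩ := hMAIN p ζ ωQ r 0 m r U N _ (fun g => (κ (π g)).toAdd) Kn B
    (fun g h => c' (π g) (π h)) hp2 hζ (fun g => hωQ g ζ hζ.pow_eq_one) hr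
    (by rw [pow_zero, mul_one]) he1 hgood
    ⟨fun g hg h hh => by simp only [hπ.mul g hg h hh, map_mul, toAdd_mul], hK, hKo, fun z => by
      obtain ⟨y, hy⟩ := hsur (Multiplicative.ofAdd z)
      obtain ⟨g, hg, rfl⟩ := hπ.sur y
      exact ⟨g, hg, by rw [hy, toAdd_ofAdd]⟩⟩ hB1
    ⟨e₀, fun l _ γ h => (hB3 l γ h).imp fun g hg => ⟨hg.1, fun a => hg.2 ((hK _ _).1 a).2⟩⟩ hNo
    (fun g hg => (hK _ _).2 ⟨((hN g).1 hg).1, hWm _ ((hN g).1 hg).2⟩)
    (fun g hg => hfix g ((hN g).1 hg).1 (hW0 ((hN g).1 hg).2))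
    (fun g hg n hn => by
      obtain ⟨h1, h2⟩ := (hN n).1 hn
      refine (hN _).2 ⟨mul_mem (mul_mem hg h1) (inv_mem hg), ?_⟩
      rw [hπ.mul _ (mul_mem hg h1) _ (inv_mem hg), hπ.mul _ hg _ h1, πi g hg]
      exact hWn.conj_mem _ h2 _)
    (fun l _ γ h g hg => (hN g).2 ⟨hg.2, hπ.ine l γ h g hg ▸ one_mem W⟩)
    (fun g hg h hh j hj => by
      rw [hK] at hg hh hj
      simp only [pow_zero, hπ.mul _ hg.1 _ hh.1, hπ.mul _ hh.1 _ hj.1]
      exact hc3 _ _ _ hg.2 hh.2 hj.2)
    ⟨fun g _ h hh j hj a => by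
      simp only [πd h ((hK _ _).1 hh).1 j ((hK _ _).1 hj).1, (hc2 _ _ _ ((hN _).1 a).2).2],
      fun g _ h hh j hj a => by
      simp only [πd h ((hK _ _).1 hh).1 j ((hK _ _).1 hj).1, (hc2 _ _ _ ((hN _).1 a).2).1]⟩ hH
  have key : ∀ g ∈ U, ∀ h ∈ U, π g ∈ κ.ker → π h ∈ κ.ker → ∀ x ∈ N' ⊓ U, π h = π g * π x →
      b g = b h := fun g hg h hh a1 a2 x hx a => by
    refine hcst g ((hH g).2 ⟨hg, a1⟩) h ((hH h).2 ⟨hh, a2⟩) ?_
    have a3 : g⁻¹ * h ∈ U := mul_mem (inv_mem hg) hh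
    rw [← mul_inv_cancel_left x (g⁻¹ * h)]
    refine mul_mem hx.1 (hπ.ker N' hNo' hoff _ (mul_mem (inv_mem hx.2) a3) ?_)
    rw [hπ.mul _ (inv_mem hx.2) _ a3, hπ.mul _ (inv_mem hg) _ hh, πi _ hx.2, πi _ hg, a]
    group
  choose s hs1 hs2 using hπ.sur
  have hs3 : ∀ y : κ.ker, π (s y) ∈ κ.ker := fun y => (hs2 y).symm ▸ y.2
  obtain ⟨W₁, hW₁, hW₂⟩ := hπ.img N' hNo'
  refine ⟨fun y => b (s y), (IsLocallyConstant.iff_eventually_eq _).2 fun y => ?_, fun g h => ?_⟩
  · have : {x : κ.ker | (y : G)⁻¹ * x ∈ W₁} ∈ 𝓝 y :=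
      (hW₁.preimage (by fun_prop)).mem_nhds (by simp)
    filter_upwards [this] with x hx
    obtain ⟨u, hu, e⟩ := hW₂ _ hx
    exact (key _ (hs1 _) _ (hs1 _) (hs3 y) (hs3 x) u hu
      (by rw [e, hs2, hs2, mul_inv_cancel_left])).symm
  · have a := hb _ ((hH _).2 ⟨hs1 g, hs3 g⟩) _ ((hH _).2 ⟨hs1 h, hs3 h⟩)
    have a' : π (s g * s h) = (g * h : κ.ker) := by
      rw [hπ.mul _ (hs1 _) _ (hs1 _), hs2, hs2, Subgroup.coe_mul]
    simp only [pow_zero, hs2, hc1] at a
    rw [a, key _ (mul_mem (hs1 _) (hs1 _)) _ (hs1 _) (a' ▸ (g * h).2) (hs3 (g * h)) 1 (one_mem _)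
      (by rw [π1, mul_one, a', hs2])]

end Pool.Agent.MP_3e91a1_nt.DS

end

section

/-! The transfer of a map. -/

set_option autoImplicit false

open NumberField IsDedekindDomain Module Filter Topology Finset
open scoped Classical

namespace Pool.Agent.MP_3e91a1_nt.DS

theorem TRP_pf : TRP_st := by
  intro G A _ _ _ _ a H _ φ ho hφ
  have hρ : ∀ g h x, a (g * h) x = a g (a h x) := fun g h x => by rw [map_mul]; rfl
  have hk : ∀ (g : G) (x : G ⧸ H), (g • x).out⁻¹ * (g * x.out) ∈ H := fun g x =>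
    QuotientGroup.eq.1 <| by
      rw [QuotientGroup.out_eq']
      exact (MulAction.Quotient.mk_smul_out H g x).symm
  let k : G → G ⧸ H → H := fun g x => ⟨(g • x).out⁻¹ * (g * x.out), hk g x⟩
  obtain ⟨T, hT⟩ : ∃ T : G ⧸ H → A →+ A, ∀ y x, T y x = a y.out (φ (a y.out⁻¹ x)) :=
    ⟨fun y => AddMonoidHom.comp (a y.out) (φ.comp (a y.out⁻¹)), fun _ _ => rfl⟩
  have t1 : ∀ g y x, T (g • y) (a g x) = a g (T y x) := fun g y x => by
    rw [hT, hT, ← hρ, show (g • y).out⁻¹ * g = (g • y).out⁻¹ * (g * y.out) * y.out⁻¹ by group,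
      hρ, hφ _ (hk g y), ← hρ, mul_inv_cancel_left, hρ]
  have t2 : ∀ y x, T y (a y.out x) = a y.out (φ x) := fun y x => by
    rw [hT, ← hρ, inv_mul_cancel, map_one]
    rfl
  simp only [← hT]
  refine ⟨fun g x => ?_, fun c β lc hc lβ hb => ?_⟩
  · rw [map_sum, ← Equiv.sum_comp (MulAction.toPerm g)]
    exact sum_congr rfl fun y _ => t1 g y x
  let e : G → G ⧸ H → A := fun g x =>
    T (g • x) (c (g, x.out) - c ((g • x).out, k g x)) + a (g • x).out (β (k g x))
  refine ⟨fun g => ∑ x, e g x, ?_, fun g h => ?_⟩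
  · have le : ∀ x, IsLocallyConstant fun g => e g x := by
      intro x
      have l1 : IsLocallyConstant fun g : G => g • x := by
        refine (IsLocallyConstant.iff_eventually_eq _).2 fun g₀ => ?_
        have h1 : Continuous fun g : G => (g * x.out)⁻¹ * (g₀ * x.out) := by fun_prop
        filter_upwards [(ho.preimage h1).mem_nhds (x := g₀) (by simp)] with g hg
        rw [← MulAction.Quotient.mk_smul_out H g, ← MulAction.Quotient.mk_smul_out H g₀]
        exact QuotientGroup.eq.2 hg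
      have l2 : IsLocallyConstant fun g : G => (g • x).out := l1.comp Quotient.out
      have l3 := l2.continuous
      have l4 : Continuous fun g => k g x :=
        (l3.inv.mul (continuous_id.mul continuous_const)).subtype_mk _
      exact (l1.comp₂ ((lc.comp_continuous (continuous_id.prodMk continuous_const)).sub
        (lc.comp_continuous (l3.prodMk (continuous_subtype_val.comp l4)))) fun u v => T u v).add
        (l2.comp₂ (lβ.comp_continuous l4) fun u v => a u v)
    refine (IsLocallyConstant.iff_eventually_eq _).2 fun g₀ => ?_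
    filter_upwards [eventually_all.2 fun x => (le x).eventually_eq g₀] with g hg
    exact sum_congr rfl fun x _ => hg x
  · have key : ∀ x, T ((g * h) • x) (c (g, h)) =
        a g (e h x) - e (g * h) x + e g (h • x) := fun x => by
      have e1 : (h • x).out * k h x = h * x.out := mul_inv_cancel_left _ _
      have e2 : (g • h • x).out * k g (h • x) = g * (h • x).out := mul_inv_cancel_left _ _
      have e3 : k (g * h) x = k g (h • x) * k h x := Subtype.ext <| by
        simp only [k, mul_smul, mul_assoc, Subgroup.coe_mul, mul_inv_cancel_left]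
      have a1 := congrArg (T (g • h • x)) (hc g h x.out)
      have a2 := congrArg (T (g • h • x)) (hc g (h • x).out (k h x))
      have a3 := congrArg (T (g • h • x)) (hc (g • h • x).out (k g (h • x)) (k h x))
      simp only [map_add, map_sub, map_zero] at a1 a2 a3
      rw [t2, hb, e2, map_add, map_sub, ← hρ, e2, hρ] at a3
      rw [e1] at a2
      simp only [e, map_add, map_sub, mul_smul, e3, Subgroup.coe_mul, ← t1]
      linear_combination (norm := abel1) a2 - a1 - a3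
    simp only
    rw [map_sum, ← Equiv.sum_comp (MulAction.toPerm h) (e g), ← sum_sub_distrib,
      ← sum_add_distrib, ← Equiv.sum_comp (MulAction.toPerm (g * h))]
    exact sum_congr rfl fun x _ => key x

end Pool.Agent.MP_3e91a1_nt.DS

end

section

/-! The normal core acts trivially. -/

set_option autoImplicit false

open NumberField IsDedekindDomain Module Filter Topology Finset
open scoped Classical

namespace Pool.Agent.MP_3e91a1_nt.DS

theorem TRV_pf : TRV_st := by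
  intro G R S _ _ _ _ σ W v hS hv hW
  have h1 : ∀ g : G, σ (g : G ⧸ W).out v = σ g v := fun g => by
    obtain ⟨w, hw⟩ := QuotientGroup.mk_out_eq_mul W g
    rw [hw, map_mul, Module.End.mul_apply, hW _ w.2]
  have h2 : Submodule.span R (Set.range fun y : G ⧸ W => σ y.out v) = ⊤ := by
    refine (hS _ fun g x hx => ?_).resolve_left fun h => hv ?_
    · induction hx using Submodule.span_induction with
      | mem x hx =>
        obtain ⟨y, rfl⟩ := hx
        refine Submodule.subset_span ⟨((g * y.out : G) : G ⧸ W), ?_⟩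
        simp only [h1, map_mul, Module.End.mul_apply]
      | zero => simp
      | add x y _ _ hx hy => exact (map_add (σ g) x y).symm ▸ add_mem hx hy
      | smul c x _ hx => exact (map_smul (σ g) c x).symm ▸ Submodule.smul_mem _ c hx
    · have := (Submodule.eq_bot_iff _).1 h _ (Submodule.subset_span ⟨((1 : G) : G ⧸ W), rfl⟩)
      simpa only [h1, map_one, Module.End.one_apply] using this
  refine ⟨fun g hg => LinearMap.ext_on h2 ?_, h2⟩
  rintro _ ⟨y, rfl⟩
  have h3 := hW _ (hg y.out⁻¹)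
  rw [inv_inv] at h3
  have h4 := congrArg (σ y.out) h3
  rwa [← Module.End.mul_apply, ← map_mul, mul_assoc, mul_inv_cancel_left, map_mul] at h4

end Pool.Agent.MP_3e91a1_nt.DS

end

section

set_option autoImplicit false

namespace Pool.Agent.MP_3e91a1_nt.DS

theorem dsp_ok : DSP_st := DSP_pf GOOD_ok MEM_ok ISO_pf IDX_pf (IXW_pf MEM_ok)
  (TPW_pf (TPA_pf MAIN_ok EXT_ok) MEM_ok GAL_ok BAD_ok) ACT_pf DVB_pf TRV_pf
  (QSZ_pf TRP_pf (FXZ_pf DVA_ok) (SIM_pf TRV_pf TRP_pf)) (NCI_pf IDX_pf) (RSD_pf LDT_pf CSU_pf)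

end Pool.Agent.MP_3e91a1_nt.DS

end
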