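import Pool.Agent.MP_3e91a1_nt.St

set_option linter.all false

section

/-! Statements of the steps of the descent to subfields. -/

set_option autoImplicit false

open NumberField IsDedekindDomain Module Filter Topology Finset
open scoped Classical

namespace Pool.Agent.MP_3e91a1_nt.DS

open MP_e23604_nt MP_e23604_nt.B MP_e23604_nt.R MP_f3cd89_nt

/-- the transfer -/
def TRN_st : Prop := ∀ (p : ℕ) (G A : Type) [Group G] [TopologicalSpace G] [IsTopologicalGroup G]
  [CompactSpace G] [AddCommGroup A] (a : G → A → A) (W : Subgroup G), p.Prime →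
  IsOpen (W : Set G) → ¬ p ∣ W.index → (∀ g x y, a g (x + y) = a g x + a g y) →
  (∀ g h x, a (g * h) x = a g (a h x)) → (∀ x, a 1 x = x) → (∀ x : A, ∃ k : ℕ, p ^ k • x = 0) →
  H2Zero (fun (g : W) (x : A) => a g x) → H2Zero a

/-- the vanishing moves along an isomorphism -/
def ISO_st : Prop := ∀ (G H A : Type) [Group G] [TopologicalSpace G] [Group H] [TopologicalSpace H]
  [AddCommGroup A] (e : G ≃* H) (a : H → A → A), Continuous e → Continuous e.symm →
  H2Zero (fun g => a (e g)) → H2Zero a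

/-- a subgroup of index prime to `p` -/
def IDX_st : Prop := ∀ (p : ℕ) [Fact p.Prime] (G : Type) [Group G]
  (κ : G →* Multiplicative ℤ_[p]) (W : Subgroup G), Function.Surjective κ → ¬ p ∣ W.index →
  Function.Surjective (κ.comp W.subtype) ∧ (W.subgroupOf κ.ker).index = W.index

/-- the restriction map to an abstract group -/
structure RsA {G : Type} [Group G] [TopologicalSpace G] (U : Subgroup GQ)
    (B : Set (AbsoluteValue Qb ℝ)) (π : GQ → G) : Prop where
  mul : ∀ g ∈ U, ∀ h ∈ U, π (g * h) = π g * π h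
  sur : ∀ y, ∃ g ∈ U, π g = y
  pre : ∀ W : Subgroup G, IsOpen (W : Set G) → ∃ N : Subgroup GQ,
    IsOpen (N : Set GQ) ∧ ∀ g, g ∈ N ↔ g ∈ U ∧ π g ∈ W
  img : ∀ N : Subgroup GQ, IsOpen (N : Set GQ) → ∃ W : Subgroup G,
    IsOpen (W : Set G) ∧ ∀ y ∈ W, ∃ g ∈ N ⊓ U, π g = y
  ine : ∀ (l : ℕ) [Fact l.Prime] (γ : GQ), nv l γ ∉ B → ∀ g ∈ Ine l γ ⊓ U, π g = 1
  ker : ∀ N : Subgroup GQ, IsOpen (N : Set GQ) → Off B U N → ∀ g ∈ U, π g = 1 → g ∈ N

/-- the vanishing theorem for an abstract quotient -/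
def TPA_st : Prop := ∀ (p : ℕ) [Fact p.Prime] (G : Type) [Group G] [TopologicalSpace G]
  [IsTopologicalGroup G] [CompactSpace G] [TotallyDisconnectedSpace G] (U : Subgroup GQ)
  (B : Set (AbsoluteValue Qb ℝ)) (π : GQ → G) (κ : G →* Multiplicative ℤ_[p]) (W₀ : Subgroup G)
  (ζ : Qb) (r : ℕ), p ≠ 2 → RsA U B π → Bad p U B →
  (∃ e : ℕ, ∀ (l : ℕ) [Fact l.Prime] (γ : GQ), nv l γ ∈ B →
    ∃ g ∈ Dec (nv l γ) ⊓ U, ¬ (p : ℤ_[p]) ^ e ∣ (κ (π g)).toAdd) →
  Continuous κ → Function.Surjective κ → IsOpen (W₀ : Set G) → (∀ g ∈ U, π g ∈ W₀ → g ζ = ζ) →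
  IsPrimitiveRoot ζ p → IsPrimitiveRoot (r : ZMod p) (p - 1) → (r : ZMod p) ≠ 1 →
  Good p ζ r r U → H2Zero fun (_ : κ.ker) (x : ZMod p) => 1 * x

/-- the automorphisms that fix a number field -/
def IXW_st : Prop := ∀ (K k : IntermediateField ℚ Qb) [FiniteDimensional ℚ k] (S : Set (Pr K)),
  (∀ x ∈ k, x ∈ maxUnr K S) → ∃ W : Subgroup (GalS K S), IsOpen (W : Set (GalS K S)) ∧
    (∀ g, g ∈ W ↔ ∀ x : maxUnr K S, (x : Qb) ∈ k → g x = x) ∧ W.index ≠ 0 ∧
    W.index ≤ finrank ℚ k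

/-- the vanishing theorem for an open subgroup -/
def TPW_st : Prop := ∀ (p : ℕ) [Fact p.Prime] (K k : IntermediateField ℚ Qb)
  [FiniteDimensional ℚ K] [FiniteDimensional ℚ k] (S : Set (Pr K))
  (κ : GalS K S →* Multiplicative ℤ_[p]) (W : Subgroup (GalS K S)) (ζ : Qb) (r : ℕ), p ≠ 2 →
  (∀ x ∈ k, x ∈ maxUnr K S) → IsOpen (W : Set (GalS K S)) →
  (∀ g, g ∈ W ↔ ∀ x : maxUnr K S, (x : Qb) ∈ k → g x = x) → W.index ≠ 0 → W.index < p →
  S.Finite → primesAbove K p ⊆ S → Continuous κ → Function.Surjective κ →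
  Function.Surjective (κ.comp W.subtype) →
  (∀ v ∈ S, (v.asIdeal.primesOver (𝓞 (IntermediateField.fixedField κ.ker))).Finite) →
  IsPrimitiveRoot ζ p → IsPrimitiveRoot (r : ZMod p) (p - 1) → (r : ZMod p) ≠ 1 →
  Good p ζ r r (k ⊔ K).fixingSubgroup →
  H2Zero fun (_ : (κ.comp W.subtype).ker) (x : ZMod p) => 1 * x

/-- a group of elements of `p`-power order has an invariant linear form -/
def PGF_st : Prop := ∀ (p : ℕ) (G M : Type) [Group G] [AddCommGroup M] [Finite M] [Nontrivial M]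
  (a : G →* AddMonoid.End M), p.Prime → (∀ x : M, ∃ k : ℕ, p ^ k • x = 0) →
  (∀ g, ∃ n : ℕ, a g ^ p ^ n = 1) →
  ∃ f : M →+ ZMod p, f ≠ 0 ∧ ∀ g x, f (a g x) = f x

/-- powers of a matrix near the identity -/
def PWM_st : Prop := ∀ (p : ℕ) [Fact p.Prime] (F : IntermediateField ℚ_[p] (PadicAlgCl p)) (d : ℕ)
  (m : GL (Fin d) (valRing F)) (x : DivMod F d),
  (∀ i j, ‖(((m i j - (1 : Matrix (Fin d) (Fin d) (valRing F)) i j : valRing F) : F) :
    PadicAlgCl p)‖ < 1) → ∀ᶠ n : ℕ in atTop, matAct (m ^ p ^ n) x = x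

/-- the module and the action -/
def ACT_st : Prop := ∀ (p : ℕ) [Fact p.Prime] (F : IntermediateField ℚ_[p] (PadicAlgCl p)) (d : ℕ),
  (∀ x : DivMod F d, ∃ k : ℕ, p ^ k • x = 0) ∧
  (∀ (m : GL (Fin d) (valRing F)) (x y : DivMod F d), matAct m (x + y) = matAct m x + matAct m y) ∧
  (∀ (m m' : GL (Fin d) (valRing F)) (x : DivMod F d), matAct (m * m') x = matAct m (matAct m' x)) ∧
  (∀ x : DivMod F d, matAct 1 x = x) ∧
  ∀ (G : Type) [TopologicalSpace G] (ρ : G → GL (Fin d) (valRing F)) (x : DivMod F d),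
    Continuous ρ → IsLocallyConstant fun g => matAct (ρ g) x

/-- devissage when the residual image is a `p`-group -/
def DVP_st : Prop := ∀ (p : ℕ) [Fact p.Prime] (G : Type) [Group G] [TopologicalSpace G]
  [IsTopologicalGroup G] [CompactSpace G] (F : IntermediateField ℚ_[p] (PadicAlgCl p)) (d : ℕ)
  (ρ : G →* GL (Fin d) (valRing F)), Continuous ρ →
  (∀ g, ∃ n : ℕ, ∀ i j, ‖(((ρ (g ^ p ^ n) i j -
    (1 : Matrix (Fin d) (Fin d) (valRing F)) i j : valRing F) : F) : PadicAlgCl p)‖ < 1) →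
  (H2Zero fun (_ : G) (x : ZMod p) => 1 * x) →
  H2Zero fun (g : G) (x : DivMod F d) => matAct (ρ g) x

end Pool.Agent.MP_3e91a1_nt.DS

end

section

/-! Statements of the steps for the constituents of a permutation representation. -/

set_option autoImplicit false

open NumberField IsDedekindDomain Module Filter Topology Finset
open scoped Classical

namespace Pool.Agent.MP_3e91a1_nt.DS

/-- devissage along arbitrary quotients -/
def DVB_st : Prop := ∀ (G A : Type) [Group G] [TopologicalSpace G] [IsTopologicalGroup G]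
  [CompactSpace G] [AddCommGroup A] (a : G → A →+ A),
  (∀ g h x, a (g * h) x = a g (a h x)) → (∀ x, IsLocallyConstant fun g => a g x) →
  (∀ x : A, IsOfFinAddOrder x) →
  (∀ M : AddSubgroup A, Finite M → M ≠ ⊥ → (∀ g, ∀ x ∈ M, a g x ∈ M) →
    ∃ (Q : Type) (_ : AddCommGroup Q) (b : G → Q → Q) (f : M →+ Q), f ≠ 0 ∧
      Function.Surjective f ∧ (∀ (g : G) (x y : M), (y : A) = a g x → f y = b g (f x)) ∧
      H2Zero b) →
  H2Zero fun g x => a g x

/-- the transfer of a map -/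
def TRP_st : Prop := ∀ (G A : Type) [Group G] [TopologicalSpace G] [IsTopologicalGroup G]
  [AddCommGroup A] (a : G →* AddMonoid.End A) (W : Subgroup G) [Fintype (G ⧸ W)] (φ : A →+ A),
  IsOpen (W : Set G) → (∀ g ∈ W, ∀ x, φ (a g x) = a g (φ x)) →
  (∀ g x, ∑ y : G ⧸ W, a y.out (φ (a y.out⁻¹ (a g x))) =
    a g (∑ y : G ⧸ W, a y.out (φ (a y.out⁻¹ x)))) ∧
  ∀ (c : G × G → A) (β : W → A), IsLocallyConstant c →
    (∀ g h j, a g (c (h, j)) - c (g * h, j) + c (g, h * j) - c (g, h) = 0) → IsLocallyConstant β →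
    (∀ g h : W, φ (c (g, h)) = a g (β h) - β (g * h) + β g) →
    ∃ b : G → A, IsLocallyConstant b ∧
      ∀ g h, ∑ y : G ⧸ W, a y.out (φ (a y.out⁻¹ (c (g, h)))) = a g (b h) - b (g * h) + b g

/-- trivial coefficients killed by `p` -/
def FXZ_st : Prop := ∀ (p : ℕ) [Fact p.Prime] (G A : Type) [Group G] [TopologicalSpace G]
  [IsTopologicalGroup G] [CompactSpace G] [AddCommGroup A], (∀ x : A, p • x = 0) →
  (H2Zero fun (_ : G) (x : ZMod p) => 1 * x) → H2Zero fun (_ : G) (x : A) => x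

/-- there is no proper stable subspace -/
def Smp {G R S : Type} [Group G] [Field R] [AddCommGroup S] [Module R S]
    (σ : G →* Module.End R S) : Prop :=
  ∀ V : Submodule R S, (∀ g, ∀ x ∈ V, σ g x ∈ V) → V = ⊥ ∨ V = ⊤

/-- the normal core acts trivially -/
def TRV_st : Prop := ∀ (G R S : Type) [Group G] [Field R] [AddCommGroup S] [Module R S]
  (σ : G →* Module.End R S) (W : Subgroup G) (v : S), Smp σ → v ≠ 0 → (∀ g ∈ W, σ g v = v) →
  (∀ g ∈ W.normalCore, σ g = 1) ∧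
    Submodule.span R (Set.range fun y : G ⧸ W => σ y.out v) = ⊤

/-- the transfer of the norm map is injective -/
def SIM_st : Prop := ∀ (p : ℕ) (G R S : Type) [Group G] [Field R] [CharP R p] [AddCommGroup S]
  [Module R S] (σ : G →* Module.End R S) (W : Subgroup G) [Fintype (G ⧸ W)] (v : S), p.Prime →
  W.index < p → Smp σ → v ≠ 0 → (∀ g ∈ W, σ g v = v) →
  ∃ (J : Type) (_ : Fintype J) (t : J → G),
    (∀ g ∈ W, ∀ x, σ g (∑ j, σ (t j) x) = ∑ j, σ (t j) x ∧
      ∑ j, σ (t j) (σ g x) = ∑ j, σ (t j) x) ∧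
    Function.Injective fun x => ∑ y : G ⧸ W, σ y.out (∑ j, σ (t j) (σ y.out⁻¹ x))

/-- the vanishing for finite subgroups of a constituent -/
def QSZ_st : Prop := ∀ (p : ℕ) [Fact p.Prime] (G R S : Type) [Group G] [TopologicalSpace G]
  [IsTopologicalGroup G] [CompactSpace G] [Field R] [CharP R p] [AddCommGroup S] [Module R S]
  (σ : G →* Module.End R S) (W : Subgroup G) (Q : AddSubgroup S) (v : S)
  (hQ : ∀ g, ∀ x ∈ Q, σ g x ∈ Q), IsOpen (W : Set G) → W.index ≠ 0 → W.index < p → Smp σ → v ≠ 0 →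
  (∀ g ∈ W, σ g v = v) → Finite Q → (H2Zero fun (_ : W) (x : ZMod p) => 1 * x) →
  H2Zero fun (g : G) (x : Q) => (⟨σ g x, hQ g x x.2⟩ : Q)

/-- the kernel maps onto the quotient by the normal core -/
def NCI_st : Prop := ∀ (p : ℕ) [Fact p.Prime] (G : Type) [Group G]
  (κ : G →* Multiplicative ℤ_[p]) (W : Subgroup G), Function.Surjective κ → W.index ≠ 0 →
  W.index < p → ∀ g, ∃ h ∈ κ.ker, h⁻¹ * g ∈ W.normalCore

/-- every nonzero subquotient of the reduction has a nonzero vector fixed by `W` -/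
def PermI {G O : Type} [Group G] [CommRing O] {d : ℕ} (W : Subgroup G)
    (ρ : G →* GL (Fin d) O) : Prop :=
  ∃ (R : Type) (_ : Field R) (r : O →+* R), (∀ c ∈ nonunits O, r c = 0) ∧
    ∀ V₁ V₂ : Submodule R (Fin d → R), V₁ < V₂ →
      (∀ g, ∀ x ∈ V₁, ((ρ g).val.map r).mulVec x ∈ V₁) →
      (∀ g, ∀ x ∈ V₂, ((ρ g).val.map r).mulVec x ∈ V₂) →
      ∃ x ∈ V₂, x ∉ V₁ ∧ ∀ g ∈ W, ((ρ g).val.map r).mulVec x - x ∈ V₁

/-- the leading terms of a finite subgroup -/
def LDT_st : Prop := ∀ (p : ℕ) [Fact p.Prime] (F : IntermediateField ℚ_[p] (PadicAlgCl p)) (d : ℕ)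
  (R : Type) [Field R] (r : valRing F →+* R) (M : AddSubgroup (DivMod F d)),
  (∀ c ∈ nonunits (valRing F), r c = 0) → Finite M → M ≠ ⊥ → CharP R p ∧
    ∃ l : M →+ (Fin d → R), l ≠ 0 ∧ ∀ (m : GL (Fin d) (valRing F)) (x y : M),
      (y : DivMod F d) = matAct m x → l y = (m.val.map r).mulVec (l x)

/-- a constituent that sees a given vector -/
def CSU_st : Prop := ∀ (G R V : Type) [Group G] [Field R] [AddCommGroup V] [Module R V]
  [FiniteDimensional R V] (τ : G →* Module.End R V) (W : Subgroup G) (M : Type) [AddCommGroup M]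
  (l : M →+ V), l ≠ 0 →
  (∀ V₁ V₂ : Submodule R V, V₁ < V₂ → (∀ g, ∀ x ∈ V₁, τ g x ∈ V₁) → (∀ g, ∀ x ∈ V₂, τ g x ∈ V₂) →
    ∃ x ∈ V₂, x ∉ V₁ ∧ ∀ g ∈ W, τ g x - x ∈ V₁) →
  ∃ (S : Type) (_ : AddCommGroup S) (_ : Module R S) (σ : G →* Module.End R S) (v : S)
    (π : M →+ S), Smp σ ∧ v ≠ 0 ∧ (∀ g ∈ W, σ g v = v) ∧ π ≠ 0 ∧
      ∀ (g : G) (x y : M), l y = τ g (l x) → π y = σ g (π x)

/-- the constituent attached to a finite subgroup -/
def RSD_st : Prop := ∀ (p : ℕ) [Fact p.Prime] (F : IntermediateField ℚ_[p] (PadicAlgCl p)) (d : ℕ)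
  (G : Type) [Group G] (ρ : G →* GL (Fin d) (valRing F)) (W : Subgroup G)
  (M : AddSubgroup (DivMod F d)), Finite M → M ≠ ⊥ → PermI W ρ →
  ∃ (R S : Type) (_ : Field R) (_ : CharP R p) (_ : AddCommGroup S) (_ : Module R S)
    (σ : G →* Module.End R S) (v : S) (π : M →+ S), Smp σ ∧ v ≠ 0 ∧ (∀ g ∈ W, σ g v = v) ∧ π ≠ 0 ∧
      ∀ (g : G) (x y : M), (y : DivMod F d) = matAct (ρ g) x → π y = σ g (π x)

end Pool.Agent.MP_3e91a1_nt.DS

end

section

set_option autoImplicit false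

open NumberField IsDedekindDomain Module Filter Topology Finset
open scoped Classical

namespace Pool.Agent.MP_3e91a1_nt.DS

theorem CSU_pf : CSU_st := by
  intro G R V _ _ _ _ _ τ W M _ l hl hW
  set V₂ : Submodule R V := Submodule.span R (Set.range fun q : G × M => τ q.1 (l q.2)) with hV₂
  have hm : ∀ g x, τ g (l x) ∈ V₂ := fun g x => Submodule.subset_span ⟨(g, x), rfl⟩
  have hm1 : ∀ x, l x ∈ V₂ := fun x => by simpa using hm 1 x
  have h2 : ∀ g, V₂ ≤ V₂.comap (τ g) := fun g => Submodule.span_le.2 (by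
    rintro _ ⟨⟨h, x⟩, rfl⟩
    have := hm (g * h) x
    rwa [map_mul] at this)
  have hb : (⊥ : Submodule R V) < V₂ := bot_lt_iff_ne_bot.2 fun h => hl (by
    ext x
    have := hm1 x
    rwa [h] at this)
  obtain ⟨V₁, ⟨a1, a2⟩, hmax⟩ := set_has_maximal_iff_noetherian.2 (inferInstance : IsNoetherian R V)
    {U : Submodule R V | U < V₂ ∧ ∀ g, U ≤ U.comap (τ g)} ⟨⊥, hb, fun _ => bot_le⟩
  let ρ : Representation R G (V ⧸ V₁) := Representation.quotient τ V₁ a2
  have hρ : ∀ g x, ρ g (V₁.mkQ x) = V₁.mkQ (τ g x) := fun g x => rfl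
  have h3 : ∀ g, V₂.map V₁.mkQ ≤ (V₂.map V₁.mkQ).comap (ρ g) := by
    rintro g _ ⟨x, hx, rfl⟩
    exact ⟨τ g x, h2 g hx, rfl⟩
  obtain ⟨v, hv2, hv1, hv⟩ := hW V₁ V₂ a1 (fun g x hx => a2 g hx) fun g x hx => h2 g hx
  refine ⟨V₂.map V₁.mkQ, inferInstance, inferInstance, ρ.subrepresentation _ h3,
    ⟨V₁.mkQ v, v, hv2, rfl⟩,
    (V₁.mkQ.toAddMonoidHom.comp l).codRestrict (V₂.map V₁.mkQ).toAddSubgroup
      fun x => ⟨l x, hm1 x, rfl⟩, fun U hU => ?_, fun h => hv1 ?_, fun g hg => ?_, fun h => ?_,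
    fun g x y h => ?_⟩
  · set U' : Submodule R V := (U.map (V₂.map V₁.mkQ).subtype).comap V₁.mkQ with hU'
    have b1 : V₁ ≤ U' := fun x hx => ⟨0, U.zero_mem, ((Submodule.Quotient.mk_eq_zero _).2 hx).symm⟩
    have b2 : U' ≤ V₂ := by
      rintro x ⟨⟨_, y, hy, rfl⟩, -, h⟩
      have := a1.le ((Submodule.Quotient.eq _).1 h)
      simpa using V₂.sub_mem hy this
    have b3 : ∀ g, U' ≤ U'.comap (τ g) := by
      rintro g x ⟨y, hy, h⟩
      exact ⟨_, hU g y hy, (congrArg (ρ g) h).trans (hρ g x)⟩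
    by_cases h : U' = V₂
    · refine Or.inr (eq_top_iff.2 ?_)
      rintro ⟨_, x, hx, rfl⟩ -
      obtain ⟨y, hy, h4⟩ := h.ge hx
      have h5 : y = ⟨V₁.mkQ x, x, hx, rfl⟩ := Subtype.ext h4
      exact h5 ▸ hy
    · have h4 : V₁ = U' := b1.eq_of_not_lt (hmax U' ⟨b2.lt_of_ne h, b3⟩)
      refine Or.inl (eq_bot_iff.2 ?_)
      rintro ⟨_, x, hx, rfl⟩ hU2
      have h5 : x ∈ U' := ⟨_, hU2, rfl⟩
      rw [← h4] at h5
      exact Subtype.ext ((Submodule.Quotient.mk_eq_zero _).2 h5)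
  · exact (Submodule.Quotient.mk_eq_zero _).1 (congrArg Subtype.val h)
  · exact Subtype.ext ((Submodule.Quotient.eq _).2 (hv g hg))
  · refine a1.not_ge (Submodule.span_le.2 ?_)
    rintro _ ⟨⟨g, x⟩, rfl⟩
    exact a2 g ((Submodule.Quotient.mk_eq_zero _).1
      (congrArg Subtype.val (DFunLike.congr_fun h x)))
  · exact Subtype.ext (congrArg V₁.mkQ h)

end Pool.Agent.MP_3e91a1_nt.DS

end

section

/-! Devissage along arbitrary quotients. -/

set_option autoImplicit false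

open NumberField IsDedekindDomain Module Filter Topology Finset
open scoped Classical

namespace Pool.Agent.MP_3e91a1_nt.DS

lemma lc_act_DVB {G A : Type} [TopologicalSpace G] [AddCommGroup A] (a : G → A →+ A)
    (h : ∀ x, IsLocallyConstant fun g => a g x) {b : G → A} (hb : IsLocallyConstant b) :
    IsLocallyConstant fun q : G × G => a q.1 (b q.2) := by
  rw [IsLocallyConstant.iff_eventually_eq]
  intro q
  have h1 := (hb.comp_continuous (continuous_snd (X := G) (Y := G))).eventually_eq q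
  have h2 := ((h (b q.2)).comp_continuous (continuous_fst (X := G) (Y := G))).eventually_eq q
  filter_upwards [h1, h2] with y e1 e2
  simp only [Function.comp] at e1 e2
  rw [e1, e2]

lemma ind_DVB (G A : Type) [Group G] [TopologicalSpace G]
    [IsTopologicalGroup G] [AddCommGroup A] (a : G → A →+ A)
    (hm : ∀ g h x, a (g * h) x = a g (a h x)) (hl : ∀ x, IsLocallyConstant fun g => a g x)
    (hM : ∀ M : AddSubgroup A, Finite M → M ≠ ⊥ → (∀ g, ∀ x ∈ M, a g x ∈ M) →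
      ∃ (Q : Type) (_ : AddCommGroup Q) (b : G → Q → Q) (f : M →+ Q), f ≠ 0 ∧
        Function.Surjective f ∧ (∀ (g : G) (x y : M), (y : A) = a g x → f y = b g (f x)) ∧
        H2Zero b) (n : ℕ) :
    ∀ M : AddSubgroup A, Finite M → (M : Set A).ncard = n → (∀ g, ∀ x ∈ M, a g x ∈ M) →
      ∀ c : G × G → A, (∀ q, c q ∈ M) → IsLocallyConstant c →
        (∀ g h j, a g (c (h, j)) - c (g * h, j) + c (g, h * j) - c (g, h) = 0) →
        ∃ b : G → A, IsLocallyConstant b ∧ ∀ g h, c (g, h) = a g (b h) - b (g * h) + b g := by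
  induction n using Nat.strong_induction_on with
  | _ n ih =>
  intro M hf hn hs c hc lc co
  by_cases h0 : M = ⊥
  · refine ⟨fun _ => 0, IsLocallyConstant.const _, fun g h => ?_⟩
    have h1 := hc (g, h)
    rw [h0, AddSubgroup.mem_bot] at h1
    simp [h1]
  obtain ⟨Q, _, ψ, f, f0, hsur, hψ, h2⟩ := hM M hf h0 hs
  obtain ⟨x₀, hx₀⟩ : ∃ x, f x ≠ 0 := by
    by_contra h
    exact f0 (AddMonoidHom.ext fun x => not_not.1 fun h' => h ⟨x, h'⟩)
  have hz : ∀ g, ψ g 0 = 0 := fun g => by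
    have h := hψ g 0 0 (map_zero (a g)).symm
    rw [map_zero] at h
    exact h.symm
  choose sec hsec using hsur
  let F : A → Q := fun x => if h : x ∈ M then f ⟨x, h⟩ else 0
  have hF : ∀ q, F (c q) = f ⟨c q, hc q⟩ := fun q => dif_pos (hc q)
  obtain ⟨b, lb, hb⟩ := h2 (F ∘ c) (lc.comp F) fun g h j => by
    simp only [Function.comp, hF]
    rw [← hψ g ⟨_, hc (h, j)⟩ ⟨_, hs g _ (hc (h, j))⟩ rfl, ← map_sub, ← map_add, ← map_sub,
      ← map_zero f]
    exact congrArg f (Subtype.ext (co g h j))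
  have l1 : IsLocallyConstant fun g => (sec (b g) : A) := lb.comp fun z => (sec z : A)
  let M' : AddSubgroup A := f.ker.map M.subtype
  have hle : M' ≤ M := AddSubgroup.map_subtype_le _
  have hlt : (M' : Set A) ⊂ M := by
    refine ⟨hle, fun h => ?_⟩
    obtain ⟨y, hy, e⟩ := h x₀.2
    obtain rfl : y = x₀ := Subtype.ext e
    exact hx₀ hy
  have hfin : (M : Set A).Finite := hf
  obtain ⟨b', lb', hb'⟩ := ih _ (hn ▸ Set.ncard_lt_ncard hlt hfin) M' (hfin.subset hle) rfl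
    (by
      rintro g _ ⟨y, hy, rfl⟩
      refine ⟨⟨_, hs g _ y.2⟩, ?_, rfl⟩
      have h3 : f y = 0 := hy
      have h4 := hψ g y ⟨_, hs g _ y.2⟩ rfl
      rw [h3, hz] at h4
      exact h4)
    (fun q => c q - (a q.1 (sec (b q.2)) - sec (b (q.1 * q.2)) + sec (b q.1)))
    (fun q => by
      refine ⟨⟨c q, hc q⟩ - (⟨_, hs q.1 _ (sec (b q.2)).2⟩ - sec (b (q.1 * q.2)) + sec (b q.1)),
        ?_, rfl⟩
      have h3 := hb q.1 q.2
      simp only [Function.comp, hF] at h3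
      show f _ = 0
      rw [map_sub, map_add, map_sub, hψ q.1 (sec (b q.2)) ⟨_, hs q.1 _ (sec (b q.2)).2⟩ rfl,
        hsec, hsec, hsec, ← h3, sub_self])
    (lc.sub (((lc_act_DVB a hl l1).sub (l1.comp_continuous continuous_mul)).add
      (l1.comp_continuous continuous_fst)))
    (fun g h j => by
      have h3 := co g h j
      simp only [map_sub, map_add, ← hm, mul_assoc]
      rw [← h3]
      abel)
  refine ⟨fun g => sec (b g) + b' g, l1.add lb', fun g h => ?_⟩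
  have h3 := hb' g h
  simp only at h3
  beta_reduce
  rw [map_add, sub_eq_iff_eq_add.1 h3]
  abel

theorem DVB_pf : DVB_st := by
  intro G A _ _ _ _ _ a hm hl ht hM c lc co
  let T : Set A := Set.range c ∪ ⋃ x ∈ Set.range c, Set.range fun g => a g x
  have hT : T.Finite := lc.range_finite.union
    (lc.range_finite.biUnion fun x _ => (hl x).range_finite)
  have hs : ∀ g, ∀ x ∈ T, a g x ∈ T := by
    rintro g x (hx | hx)
    · exact Or.inr (Set.mem_biUnion hx ⟨g, rfl⟩)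
    · obtain ⟨y, hy, h, rfl⟩ := Set.mem_iUnion₂.1 hx
      exact Or.inr (Set.mem_biUnion hy ⟨g * h, hm g h y⟩)
  have : Finite T := hT
  have hf : Finite (AddSubgroup.closure T) :=
    AddCommGroup.finite_of_fg_isAddTorsion _ fun x =>
      (AddSubgroup.subtype_injective _).isOfFinAddOrder_iff.1 (ht x)
  refine ind_DVB G A a hm hl hM _ (AddSubgroup.closure T) hf rfl (fun g x hx => ?_) c
    (fun q => AddSubgroup.subset_closure (Or.inl ⟨q, rfl⟩)) lc co
  exact (AddSubgroup.closure_le ((AddSubgroup.closure T).comap (a g))).2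
    (fun y hy => AddSubgroup.subset_closure (hs g y hy)) hx

end Pool.Agent.MP_3e91a1_nt.DS

end

section

/-! A subgroup of index prime to `p`. -/

set_option autoImplicit false

namespace Pool.Agent.MP_3e91a1_nt.DS

theorem IDX_pf : IDX_st := by
  intro p hp G _ κ W hκ hW
  have h1 : ∀ z, ∃ w ∈ W, κ w = z := fun z => by
    have hd : ¬ p ∣ (W.map κ).index := fun h => hW (h.trans (Subgroup.index_map_dvd W hκ))
    have hu : IsUnit (((W.map κ).index : ℕ) : ℤ_[p]) := by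
      rw [PadicInt.isUnit_iff]
      refine le_antisymm (PadicInt.norm_le_one _) (not_lt.1 fun h => hd ?_)
      exact_mod_cast (PadicInt.norm_int_lt_one_iff_dvd ((W.map κ).index : ℕ)).1 (by simpa using h)
    obtain ⟨y, hy⟩ := hu.exists_right_inv
    have := (W.map κ).pow_index_mem (Multiplicative.ofAdd (y * z.toAdd))
    rw [← ofAdd_nsmul, nsmul_eq_mul, ← mul_assoc, hy, one_mul, ofAdd_toAdd] at this
    exact this
  refine ⟨fun z => (h1 z).elim fun w h => ⟨⟨w, h.1⟩, h.2⟩, Nat.card_congr (Equiv.ofBijective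
    (Quotient.map' (fun x : κ.ker => (x : G)) fun a b h => ?_) ⟨?_, ?_⟩)⟩
  · rw [QuotientGroup.leftRel_apply] at h ⊢
    exact h
  · rintro ⟨a⟩ ⟨b⟩ h
    exact QuotientGroup.eq.2 (QuotientGroup.eq.1 h : (a : G)⁻¹ * b ∈ W)
  · rintro ⟨g⟩
    obtain ⟨w, hw, e⟩ := h1 (κ g)
    exact ⟨QuotientGroup.mk ⟨g * w⁻¹, by simp [MonoidHom.mem_ker, e]⟩,
      QuotientGroup.eq.2 (by simpa using hw)⟩

end Pool.Agent.MP_3e91a1_nt.DS

end

section

/-! The vanishing moves along an isomorphism. -/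

set_option autoImplicit false

open NumberField IsDedekindDomain Module Filter Topology Finset
open scoped Classical

namespace Pool.Agent.MP_3e91a1_nt.DS

open MP_e23604_nt MP_e23604_nt.B MP_e23604_nt.R MP_f3cd89_nt

theorem ISO_pf : ISO_st := by
  intro G H A _ _ _ _ _ e a he hs h c hc hco
  obtain ⟨b, hb, hbc⟩ := h (fun x => c (e x.1, e x.2))
    (hc.comp_continuous ((he.comp continuous_fst).prodMk (he.comp continuous_snd)))
    (fun x y z => by simpa only [_root_.map_mul] using hco (e x) (e y) (e z))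
  refine ⟨fun y => b (e.symm y), hb.comp_continuous hs, fun x y => ?_⟩
  simpa only [_root_.map_mul, MulEquiv.apply_symm_apply] using hbc (e.symm x) (e.symm y)

end Pool.Agent.MP_3e91a1_nt.DS

end

section

set_option autoImplicit false

open NumberField IsDedekindDomain Module Filter Topology Finset
open scoped Classical

namespace Pool.Agent.MP_3e91a1_nt.DS

open MP_e23604_nt MP_e23604_nt.B MP_e23604_nt.R MP_f3cd89_nt

theorem gen_IXW {K L k : Type} [Field K] [Field L] [Field k] [Algebra ℚ L] [Algebra ℚ k]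
    [Algebra K L] [Algebra.IsIntegral K L] [FiniteDimensional ℚ k] (j : k →+* L) :
    ∃ W : Subgroup (L ≃ₐ[K] L), IsOpen (W : Set (L ≃ₐ[K] L)) ∧
      (∀ g, g ∈ W ↔ ∀ y, g (j y) = j y) ∧ W.index ≠ 0 ∧ W.index ≤ finrank ℚ k := by
  let pb : PowerBasis ℚ k := Field.powerBasisOfFiniteOfSeparable ℚ k
  have hne : minpoly ℚ pb.gen ≠ 0 := minpoly.ne_zero pb.isIntegral_gen
  have hsub : MulAction.orbit (L ≃ₐ[K] L) (j pb.gen) ⊆ (minpoly ℚ pb.gen).rootSet L := by
    rintro _ ⟨g, rfl⟩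
    refine Polynomial.mem_rootSet.2 ⟨hne, ?_⟩
    have h := Polynomial.aeval_algHom_apply ((g : L →+* L).comp j).toRatAlgHom pb.gen
      (minpoly ℚ pb.gen)
    rw [minpoly.aeval, map_zero] at h
    exact h
  have hfin := (Polynomial.rootSet_finite (minpoly ℚ pb.gen) L).subset hsub
  refine ⟨MulAction.stabilizer _ (j pb.gen), stabilizer_isOpen_of_isIntegral _, fun g => ?_, ?_, ?_⟩
  · refine ⟨fun h y => ?_, fun h => h _⟩
    have e : ((g : L →+* L).comp j).toRatAlgHom = j.toRatAlgHom := pb.algHom_ext h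
    exact DFunLike.congr_fun e y
  · rw [MulAction.index_stabilizer]
    exact Set.ncard_ne_zero_of_mem (MulAction.mem_orbit_self _) hfin
  · rw [MulAction.index_stabilizer, pb.finrank, ← pb.natDegree_minpoly]
    exact (Set.ncard_le_ncard hsub (Polynomial.rootSet_finite _ _)).trans
      (Polynomial.ncard_rootSet_le _ _)

theorem IXW_pf (hMEM : MEM_st) : IXW_st := by
  intro K k _ S hk
  have := (hMEM K S).1
  let j : k →+* maxUnr K S :=
    { toFun := fun y => ⟨y.1, hk y.1 y.2⟩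
      map_one' := rfl
      map_mul' := fun _ _ => rfl
      map_zero' := rfl
      map_add' := fun _ _ => rfl }
  obtain ⟨W, h1, h2, h3, h4⟩ := gen_IXW (K := K) j
  exact ⟨W, h1, fun g => (h2 g).trans ⟨fun h x hx => h ⟨x.1, hx⟩, fun h y => h (j y) y.2⟩, h3, h4⟩

end Pool.Agent.MP_3e91a1_nt.DS

end

section

set_option autoImplicit false

open NumberField IsDedekindDomain Module Filter Topology Finset
open scoped Classical

namespace Pool.Agent.MP_3e91a1_nt.DS

section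
variable {p : ℕ} [Fact p.Prime] {F : IntermediateField ℚ_[p] (PadicAlgCl p)}

theorem eq_LDT {y z : F} : (Submodule.Quotient.mk y : F ⧸ (1 : Submodule (valRing F) F)) =
    Submodule.Quotient.mk z ↔ ‖((y - z : F) : PadicAlgCl p)‖ ≤ 1 := by
  rw [Submodule.Quotient.eq, Submodule.mem_one]
  exact ⟨fun ⟨a, e⟩ => e ▸ a.2, fun h => ⟨⟨_, h⟩, rfl⟩⟩

theorem smul_LDT (c : valRing F) (y : F) :
    ‖((c • y : F) : PadicAlgCl p)‖ = ‖((c : F) : PadicAlgCl p)‖ * ‖(y : PadicAlgCl p)‖ :=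
  norm_mul ((c : F) : PadicAlgCl p) y

theorem nonunit_LDT {c : valRing F} (h : ‖((c : F) : PadicAlgCl p)‖ < 1) :
    c ∈ nonunits (valRing F) := fun hc => by
  obtain ⟨b, hb⟩ := hc.exists_right_inv
  have e : ‖((c : F) : PadicAlgCl p)‖ * ‖((b : F) : PadicAlgCl p)‖ = 1 :=
    (smul_LDT c b).symm.trans ((congrArg (fun x : valRing F => ‖((x : F) : PadicAlgCl p)‖)
      hb).trans norm_one)
  exact ((mul_le_of_le_one_right (norm_nonneg _) b.2).trans_lt h).ne e

end

theorem abs_LDT {O Q R : Type} [CommRing O] [AddCommGroup Q] [Module O Q] [Field R] {d : ℕ}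
    (r : O →+* R) (M : AddSubgroup (Fin d → Q)) (s : M × Fin d)
    (hc : ∀ (m : M) j, ∃ c : O, c • s.1.1 s.2 = m.1 j) (h0 : ∀ a : O, a • s.1.1 s.2 = 0 → r a = 0) :
    ∃ l : M →+ (Fin d → R), l ≠ 0 ∧ ∀ (m : GL (Fin d) O) (x y : M),
      (y : Fin d → Q) = (fun i => ∑ j, m i j • x.1 j) → l y = (m.val.map r).mulVec (l x) := by
  choose c hc using hc
  have inj : ∀ (a : O) (m : M) j, m.1 j = a • s.1.1 s.2 → r (c m j) = r a := fun a m j h =>
    sub_eq_zero.1 ((map_sub r _ _).symm.trans (h0 _ (by rw [sub_smul, hc, h, sub_self])))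
  refine ⟨AddMonoidHom.mk' (fun m j => r (c m j)) fun a b => funext fun j => ?_, fun e => ?_,
    fun m a b e => funext fun i => ?_⟩
  · exact (inj _ _ j (by rw [add_smul, hc, hc]; rfl)).trans (map_add r _ _)
  · have := (inj 1 s.1 s.2 (one_smul _ _).symm).trans (map_one r)
    exact one_ne_zero (this.symm.trans (congrFun (DFunLike.congr_fun e s.1) s.2))
  · refine (inj (∑ j, m i j * c a j) b i ?_).trans ?_
    · rw [e, Finset.sum_smul]
      exact Finset.sum_congr rfl fun j _ => by rw [mul_smul, hc]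
    · rw [map_sum]
      exact Finset.sum_congr rfl fun j _ => map_mul r _ _

theorem max_LDT {Q : Type} [AddCommGroup Q] {d : ℕ} (M : AddSubgroup (Fin d → Q)) [Finite M]
    (hM : M ≠ ⊥) (n : Q → ℝ) (h : ∀ q, q ≠ 0 → 1 < n q) :
    ∃ s : M × Fin d, 1 < n (s.1.1 s.2) ∧ ∀ (m : M) j, n (m.1 j) ≤ n (s.1.1 s.2) := by
  obtain ⟨m₁, hm₁, hne⟩ := M.bot_or_exists_ne_zero.resolve_left hM
  obtain ⟨j₁, hj₁⟩ := Function.ne_iff.1 hne
  have : Nonempty (M × Fin d) := ⟨(0, j₁)⟩
  obtain ⟨s, hs⟩ := Finite.exists_max fun t : M × Fin d => n (t.1.1 t.2)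
  exact ⟨s, (h _ hj₁).trans_le (hs (⟨m₁, hm₁⟩, j₁)), fun m j => hs (m, j)⟩

theorem div_LDT {p : ℕ} [Fact p.Prime] {F : IntermediateField ℚ_[p] (PadicAlgCl p)} {t z : F}
    (h1 : 1 < ‖(t : PadicAlgCl p)‖) (h : ‖(z : PadicAlgCl p)‖ ≤ ‖(t : PadicAlgCl p)‖) :
    ∃ c : valRing F, c • t = z := by
  have t0 : t ≠ 0 := fun h => by
    rw [h, ZeroMemClass.coe_zero, norm_zero] at h1
    exact h1.not_gt one_pos
  refine ⟨⟨z / t, ?_⟩, div_mul_cancel₀ _ t0⟩
  change ‖((z / t : F) : PadicAlgCl p)‖ ≤ 1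
  rw [IntermediateField.coe_div, norm_div]
  exact div_le_one_of_le₀ h (norm_nonneg _)

theorem LDT_pf : LDT_st := by
  intro p _ F d R _ r M hr _ hM
  refine ⟨(CharP.charP_iff_prime_eq_zero Fact.out).2 ((map_natCast r p).symm.trans
    (hr _ (nonunit_LDT ?_))), ?_⟩
  · change ‖(p : PadicAlgCl p)‖ < 1
    rw [← map_natCast (algebraMap ℚ_[p] (PadicAlgCl p)), norm_algebraMap']
    exact Padic.norm_p_lt_one
  choose y hy using Submodule.Quotient.mk_surjective (1 : Submodule (valRing F) F)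
  refine (max_LDT M hM (fun q => ‖(y q : PadicAlgCl p)‖) fun q hq =>
    not_le.1 fun h => hq ((hy q).symm.trans (eq_LDT.2 (by rwa [sub_zero])))).elim fun s hs =>
    abs_LDT r M s (fun m j => (div_LDT hs.1 (hs.2 m j)).imp fun c hc => ?_) fun a h => ?_
  · exact (congrArg (c • ·) (hy _).symm).trans ((congrArg Submodule.Quotient.mk hc).trans (hy _))
  · have h2 := eq_LDT.1 ((congrArg (a • ·) (hy _)).trans h)
    rw [sub_zero, smul_LDT] at h2
    exact hr _ (nonunit_LDT (not_le.1 fun h' =>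
      ((hs.1.trans_le (le_mul_of_one_le_left (norm_nonneg _) h')).trans_le h2).false))

end Pool.Agent.MP_3e91a1_nt.DS

end

section

/-! The normal core of a subgroup of small index. -/

set_option autoImplicit false

open NumberField IsDedekindDomain Module Filter Topology Finset
open scoped Classical

namespace Pool.Agent.MP_3e91a1_nt.DS

theorem idx_NCI {G : Type} [Group G] (W : Subgroup G) (h : W.index ≠ 0) :
    W.normalCore.index ∣ W.index.factorial := by
  have : W.FiniteIndex := ⟨h⟩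
  rw [Subgroup.normalCore_eq_ker, Subgroup.index_ker, Subgroup.index, ← Nat.card_perm]
  exact Subgroup.card_subgroup_dvd_card _

theorem NCI_pf (hIDX : IDX_st) : NCI_st := by
  intro p hp G _ κ W hκ h0 hlt g
  have h1 : ¬ p ∣ W.normalCore.index := fun h =>
    absurd ((Nat.Prime.dvd_factorial hp.out).mp (h.trans (idx_NCI W h0))) (not_le.mpr hlt)
  obtain ⟨n, hn⟩ := (hIDX p G κ W.normalCore hκ h1).1 (κ g)
  have hn' : κ n = κ g := hn
  refine ⟨g * (n : G)⁻¹, ?_, ?_⟩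
  · rw [MonoidHom.mem_ker, map_mul, map_inv, hn', mul_inv_cancel]
  · simp

end Pool.Agent.MP_3e91a1_nt.DS

end

section

/-! The constituent attached to a finite subgroup. -/

set_option autoImplicit false

open NumberField IsDedekindDomain Module Filter Topology Finset
open scoped Classical

namespace Pool.Agent.MP_3e91a1_nt.DS

/-- the reduced representation -/
noncomputable def tau_RSD {G O R : Type} [Group G] [CommRing O] [Field R] {d : ℕ}
    (ρ : G →* GL (Fin d) O) (r : O →+* R) : G →* Module.End R (Fin d → R) where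
  toFun g := Matrix.toLin' ((ρ g).val.map r)
  map_one' := by
    rw [map_one, Units.val_one, Matrix.map_one _ (map_zero r) (map_one r), Matrix.toLin'_one]
    rfl
  map_mul' g h := by
    rw [map_mul, Units.val_mul, Matrix.map_mul, Matrix.toLin'_mul]
    rfl

theorem RSD_pf (hLDT : LDT_st) (hCSU : CSU_st) : RSD_st := by
  intro p _ F d G _ ρ W M hM hne hP
  obtain ⟨R, hR, r, h0, hV⟩ := hP
  obtain ⟨hc, l, hl, hl'⟩ := hLDT p F d R r M h0 hM hne
  obtain ⟨S, hS, hS', σ, v, π, a1, a2, a3, a4, a5⟩ :=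
    hCSU G R (Fin d → R) (tau_RSD ρ r) W M l hl hV
  exact ⟨R, S, hR, hc, hS, hS', σ, v, π, a1, a2, a3, a4,
    fun g x y h => a5 g x y (hl' (ρ g) x y h)⟩

end Pool.Agent.MP_3e91a1_nt.DS

end

section

/-! The transfer of the norm map is injective. -/

set_option autoImplicit false

open NumberField IsDedekindDomain Module Filter Topology Finset
open scoped Classical

namespace Pool.Agent.MP_3e91a1_nt.DS

theorem card_SIM {G H : Type} [Group G] [Group H] (τ : G →* H) (W : Subgroup G)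
    [Fintype (G ⧸ W)] (h : W.normalCore ≤ τ.ker) : Nat.card (W.map τ) ∣ W.index.factorial := by
  refine (Subgroup.card_dvd_of_le (Subgroup.map_le_range τ W)).trans ?_
  rw [← Subgroup.index_ker]
  refine (Subgroup.index_dvd_of_le h).trans ?_
  rw [Subgroup.normalCore_eq_ker, Subgroup.index_ker, Subgroup.index, ← Nat.card_perm]
  exact Subgroup.card_subgroup_dvd_card _

theorem SIM_pf (hTRV : TRV_st) (hTRP : TRP_st) : SIM_st := by
  intro p G R S _ _ _ _ _ σ W _ v hp hW hS hv hf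
  obtain ⟨h1, h2⟩ := hTRV G R S σ W v hS hv hf
  have hc := card_SIM σ.toHomUnits W fun g hg => Units.ext (h1 g hg)
  have hfin : Finite (W.map σ.toHomUnits) :=
    Nat.finite_of_card_ne_zero (ne_zero_of_dvd_ne_zero (Nat.factorial_ne_zero _) hc)
  have hft : Fintype (W.map σ.toHomUnits) := Fintype.ofFinite _
  have nz : ∀ n : ℕ, ¬ p ∣ n → (n : R) ≠ 0 := fun n h e => h ((CharP.cast_eq_zero_iff R p n).1 e)
  have c0 : ((Fintype.card (W.map σ.toHomUnits) : ℕ) : R) ≠ 0 := nz _ fun h =>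
    absurd (hp.dvd_factorial.1 (h.trans (by rwa [← Nat.card_eq_fintype_card]))) (not_le.2 hW)
  choose t ht1 ht2 using fun j : W.map σ.toHomUnits => Subgroup.mem_map.1 j.2
  obtain ⟨ν, hν⟩ : ∃ ν : Module.End R S, ν = ∑ j, σ (t j) := ⟨_, rfl⟩
  have et : ∀ j, σ (t j) = (j.1 : Module.End R S) := fun j => congrArg Units.val (ht2 j)
  have n1 : ∀ g ∈ W, σ g * ν = ν := fun g hg => by
    rw [hν, mul_sum]
    exact Fintype.sum_equiv (Equiv.mulLeft ⟨σ.toHomUnits g, Subgroup.mem_map_of_mem _ hg⟩) _ _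
      fun j => by rw [et, et]; rfl
  have n2 : ∀ g ∈ W, ν * σ g = ν := fun g hg => by
    rw [hν, sum_mul]
    exact Fintype.sum_equiv (Equiv.mulRight ⟨σ.toHomUnits g, Subgroup.mem_map_of_mem _ hg⟩) _ _
      fun j => by rw [et, et]; rfl
  have ea : ∀ x, ∑ j, σ (t j) x = ν x := fun x => by rw [hν, LinearMap.sum_apply]
  obtain ⟨z, hz⟩ : ∃ z : Module.End R S, z = ∑ y : G ⧸ W, σ y.out * ν * σ y.out⁻¹ := ⟨_, rfl⟩
  have zc : ∀ g, σ g * z = z * σ g := fun g => by
    rw [hz, mul_sum, sum_mul]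
    refine Fintype.sum_equiv (MulAction.toPerm g) _ _ fun y => ?_
    obtain ⟨w, hw⟩ := QuotientGroup.mk_out_eq_mul W (g * y.out)
    have e : (MulAction.toPerm g y).out = g * y.out * w := by
      rw [← hw, MulAction.toPerm_apply, ← MulAction.Quotient.mk_smul_out, smul_eq_mul]
    have e2 : σ (g * y.out * w)⁻¹ * σ g = σ (w : G)⁻¹ * σ y.out⁻¹ := by
      rw [← map_mul, ← map_mul]
      congr 1
      group
    rw [e, mul_assoc _ _ (σ g), e2, map_mul, map_mul, mul_assoc _ (σ w), n1 w w.2,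
      ← mul_assoc _ (σ (w : G)⁻¹), mul_assoc _ ν, mul_assoc _ ν, n2 _ (inv_mem w.2)]
    simp only [mul_assoc]
  have fd : FiniteDimensional R S :=
    Module.finite_def.2 (h2 ▸ Submodule.fg_span (Set.finite_range _))
  have dm : finrank R S < p := by
    have := finrank_range_le_card (R := R) fun y : G ⧸ W => σ y.out v
    rw [Set.finrank, h2, finrank_top, ← Nat.card_eq_fintype_card] at this
    exact this.trans_lt hW
  obtain ⟨c, hcc⟩ : ∃ c : R, c = (Fintype.card (W.map σ.toHomUnits) : ℕ) := ⟨_, rfl⟩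
  rw [← hcc] at c0
  have nn : ν * ν = c • ν := by
    nth_rewrite 1 [hν]
    rw [sum_mul, sum_congr rfl fun j _ => n1 _ (ht1 j), sum_const, card_univ, hcc,
      Nat.cast_smul_eq_nsmul]
  have nv : ν v = c • v := by
    rw [← ea, sum_congr rfl fun j _ => hf _ (ht1 j), sum_const, card_univ, hcc,
      Nat.cast_smul_eq_nsmul]
  have ip : IsIdempotentElem (c⁻¹ • ν) := by
    rw [IsIdempotentElem, smul_mul_smul_comm, nn, smul_smul, inv_mul_cancel_right₀ c0]
  have tr := (LinearMap.IsIdempotentElem.isProj_range _ ip).trace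
  have r0 : 0 < finrank R (LinearMap.range (c⁻¹ • ν)) := by
    refine finrank_pos_iff_exists_ne_zero.2 ⟨⟨v, v, ?_⟩, fun h => hv (congrArg Subtype.val h)⟩
    rw [LinearMap.smul_apply, nv, inv_smul_smul₀ c0]
  have t0 : LinearMap.trace R S ν ≠ 0 := fun h => by
    rw [map_smul, h, smul_zero] at tr
    exact nz _ (Nat.not_dvd_of_pos_of_lt r0 ((Submodule.finrank_le _).trans_lt dm)) tr.symm
  have z0 : z ≠ 0 := fun h => by
    have := congrArg (LinearMap.trace R S) (hz.symm.trans h)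
    rw [map_sum, map_zero, sum_congr rfl (g := fun _ => LinearMap.trace R S ν) fun y _ => by
      rw [LinearMap.trace_mul_comm, ← mul_assoc, ← map_mul, inv_mul_cancel, map_one, one_mul],
      sum_const, card_univ, nsmul_eq_mul, ← Nat.card_eq_fintype_card] at this
    exact mul_ne_zero (nz _ (Nat.not_dvd_of_pos_of_lt Nat.card_pos hW)) t0 this
  have zi : Function.Injective z := by
    refine LinearMap.ker_eq_bot.1 ((hS _ fun g x hx => ?_).resolve_right
      fun h => z0 (LinearMap.ker_eq_top.1 h))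
    rw [LinearMap.mem_ker] at hx ⊢
    rw [← Module.End.mul_apply, ← zc, Module.End.mul_apply, hx, map_zero]
  refine ⟨_, hft, t, fun g hg x => ?_, ?_⟩
  · rw [ea, ea, ← Module.End.mul_apply, ← Module.End.mul_apply, n1 g hg, n2 g hg]
    exact ⟨rfl, rfl⟩
  · have : (fun x => ∑ y : G ⧸ W, σ y.out (∑ j, σ (t j) (σ y.out⁻¹ x))) = z := by
      funext x
      simp only [ea, hz, LinearMap.sum_apply, Module.End.mul_apply]
    rw [this]
    exact zi

end Pool.Agent.MP_3e91a1_nt.DS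

end

section

/-! The vanishing theorem for an open subgroup. -/

set_option autoImplicit false

open NumberField IsDedekindDomain Module Filter Topology Finset
open scoped Classical

namespace Pool.Agent.MP_3e91a1_nt.DS

open MP_e23604_nt MP_e23604_nt.B MP_e23604_nt.R MP_f3cd89_nt

theorem TPW_pf (hTPA : TPA_st) (hMEM : MEM_st) (hGAL : GAL_st) (hBAD : BAD_st) : TPW_st := by
  intro p hp K k _ _ S κ W ζ r hp2 hk hWo hW hW0 hWp hS hpS hκ hsur hsur' hfd hζ hr hr1 hgood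
  obtain ⟨π, hπ⟩ := hGAL K S
  obtain ⟨B, hB1, hB2, e₀, hB3⟩ := hBAD p K S π κ hπ hS hpS hκ hsur hfd
  have hG := (hMEM K S).1
  have hroot : ζ ∈ maxUnr K S :=
    ((hMEM K S).2 ζ).2 fun l _ γ h g hg => root_CTQ hg.1 (fun e => by
      obtain rfl := (Nat.prime_dvd_prime_iff_eq Fact.out hp.out).1 e
      exact (hB2 l γ).2 h (hB1.atp γ)) hζ.pow_eq_one
  have hU : ∀ g, g ∈ (k ⊔ K).fixingSubgroup ↔ g ∈ K.fixingSubgroup ∧ π g ∈ W := fun g => by
    rw [IntermediateField.fixingSubgroup_sup, Subgroup.mem_inf, and_comm]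
    refine and_congr_right fun hg => ?_
    rw [hW, IntermediateField.mem_fixingSubgroup_iff]
    exact ⟨fun h x hx => Subtype.ext ((hπ.act g hg x).trans (h x hx)), fun h x hx =>
      (hπ.act g hg ⟨x, hk x hx⟩).symm.trans (congrArg Subtype.val (h ⟨x, hk x hx⟩ hx))⟩
  generalize (k ⊔ K).fixingSubgroup = U at hU hgood
  obtain ⟨π', hπ'⟩ : ∃ π' : GQ → W, ∀ g ∈ U, (π' g : GalS K S) = π g :=
    ⟨fun g => if h : π g ∈ W then ⟨π g, h⟩ else 1, fun g hg => by
      simp only [dif_pos ((hU g).1 hg).2]⟩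
  let φ : K.fixingSubgroup →* GalS K S :=
    MonoidHom.mk' (fun g => π g) fun a b => hπ.mul _ a.2 _ b.2
  have hI : ∀ (l : ℕ) [Fact l.Prime] (γ : GQ), nv l γ ∉ B →
      ∀ g ∈ Ine l γ ⊓ K.fixingSubgroup, π g = 1 := fun l _ γ h => hπ.ine l γ ((hB2 l γ).1 h)
  have : CompactSpace W := isCompact_iff_compactSpace.1 (W.isClosed_of_isOpen hWo).isCompact
  let ζ' : maxUnr K S := ⟨ζ, hroot⟩
  refine hTPA p W U B π' (κ.comp W.subtype) ((MulAction.stabilizer _ ζ').subgroupOf W) ζ r hp2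
    ⟨fun g hg h hh => Subtype.ext ?_, fun y => ?_, fun V hV => ?_, fun N hN => ?_,
      fun l _ γ h g hg => Subtype.ext ?_, fun N hN hoff g hg h1 => ?_⟩
    ⟨hB1.atp, fun l _ γ g hg => hB1.stb l γ g ((hU g).1 hg).1⟩ ⟨e₀, fun l _ γ h => ?_⟩
    (hκ.comp continuous_subtype_val) hsur'
    ((stabilizer_isOpen_of_isIntegral ζ').preimage continuous_subtype_val) (fun g hg h => ?_)
    hζ hr hr1 hgood
  · rw [Subgroup.coe_mul, hπ' _ (mul_mem hg hh), hπ' _ hg, hπ' _ hh,
      hπ.mul _ ((hU g).1 hg).1 _ ((hU h).1 hh).1]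
  · obtain ⟨g, hg, e⟩ := hπ.sur y
    have h1 := (hU g).2 ⟨hg, e ▸ y.2⟩
    exact ⟨g, h1, Subtype.ext ((hπ' g h1).trans e)⟩
  · obtain ⟨N, hN, h⟩ := hπ.pre (V.map W.subtype) (hWo.isOpenMap_subtype_val _ hV)
    refine ⟨N, hN, fun g => (h g).trans ⟨?_, fun h1 => ⟨((hU g).1 h1.1).1, _, h1.2, hπ' g h1.1⟩⟩⟩
    rintro ⟨h1, y, h2, e⟩
    have h3 := (hU g).2 ⟨h1, e ▸ y.2⟩
    exact ⟨h3, (Subtype.ext ((hπ' g h3).trans e.symm) : π' g = y) ▸ h2⟩
  · obtain ⟨V, hV, h⟩ := hπ.img N hN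
    refine ⟨V.subgroupOf W, hV.preimage continuous_subtype_val, fun y hy => ?_⟩
    obtain ⟨g, hg, e⟩ := h y hy
    have h1 := (hU g).2 ⟨hg.2, e ▸ y.2⟩
    exact ⟨g, ⟨hg.1, h1⟩, Subtype.ext ((hπ' g h1).trans e)⟩
  · exact (hπ' g hg.2).trans (hI l γ h g ⟨hg.1, ((hU g).1 hg.2).1⟩)
  · refine hπ.ker N hN (fun l _ γ h x hx => hoff l γ ((hB2 l γ).2 h) ⟨hx.1, (hU x).2 ⟨hx.2, ?_⟩⟩)
      g ((hU g).1 hg).1 ((hπ' g hg).symm.trans (congrArg Subtype.val h1))
    rw [hπ.ine l γ h x hx]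
    exact one_mem W
  · obtain ⟨g, hg, h1⟩ := hB3 l γ h
    have e : π (g ^ W.index.factorial) = π g ^ W.index.factorial := map_pow φ ⟨g, hg.2⟩ _
    have h2 : g ^ W.index.factorial ∈ U := (hU _).2 ⟨pow_mem hg.2 _, by
      rw [e]
      exact Subgroup.pow_mem_of_index_ne_zero_of_dvd hW0 _ fun m h1 h2 => Nat.dvd_factorial h1 h2⟩
    refine ⟨_, ⟨pow_mem hg.1 _, h2⟩, fun h3 => h1 ?_⟩
    have h4 : IsUnit (W.index.factorial : ℤ_[p]) := PadicInt.isUnit_iff.2
      (PadicInt.norm_natCast_eq_one_iff.2 (hp.out.coprime_iff_not_dvd.2 fun h =>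
        (hp.out.dvd_factorial.1 h).not_gt hWp))
    rw [MonoidHom.comp_apply, Subgroup.subtype_apply, hπ' _ h2, e, map_pow, toAdd_pow,
      nsmul_eq_mul] at h3
    exact h4.dvd_mul_left.1 h3
  · have h1 : (π' g : GalS K S) ζ' = ζ' := h
    rw [hπ' g hg] at h1
    exact (hπ.act g ((hU g).1 hg).1 ζ').symm.trans (congrArg Subtype.val h1)

end Pool.Agent.MP_3e91a1_nt.DS

end
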